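import Pool.Agent.H2.ASCard

/-!
# Artin-Schreier twists: bounds for the 2-Selmer group
-/

namespace Pool.Agent.H2

open Polynomial IsDedekindDomain WeierstrassCurve WeierstrassCurve.Affine

universe u

variable {k : Type u} [Field k] [Finite k] [CharP k 2] {a b : k[X]}

/-- a value of trivial type is determined by the set of the primes dividing its polynomial -/
theorem data_unique {T : Finset k[X]} (hTi : ∀ Q ∈ T, Irreducible Q)
    (hTc : ∀ Q ∈ T, ∀ Q' ∈ T, Q ≠ Q' → IsCoprime Q Q') {Z Z' M M' : k[X]}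
    (h1 : M.degree < (∏ Q ∈ T, Q).degree) (h1' : M'.degree < (∏ Q ∈ T, Q).degree)
    (h2 : ∀ Q ∈ T, Q ∣ M ∨ Q ∣ M + derivative (∏ Q ∈ T, Q))
    (h2' : ∀ Q ∈ T, Q ∣ M' ∨ Q ∣ M' + derivative (∏ Q ∈ T, Q))
    (h3 : PC b ^ 2 * (M * ∏ Q ∈ T, Q) + b * M ^ 2 = Z ^ 2 * (∏ Q ∈ T, Q) ^ 2)
    (h3' : PC b ^ 2 * (M' * ∏ Q ∈ T, Q) + b * M' ^ 2 = Z' ^ 2 * (∏ Q ∈ T, Q) ^ 2)
    (he : ∀ Q ∈ T, Q ∣ M ↔ Q ∣ M') : Z = Z' := by
  have hK : CharP k[X] 2 := inferInstance
  have hR0 : (∏ Q ∈ T, Q) ≠ 0 := Finset.prod_ne_zero_iff.mpr fun Q hQ => (hTi Q hQ).ne_zero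
  have hM := logder_unique hTc h1 h1' h2 h2' he
  rw [hM] at h3
  have h4 := mul_right_cancel₀ (pow_ne_zero 2 hR0) (h3.symm.trans h3')
  have h5 : (Z + Z') ^ 2 = 0 := by
    linear_combination h4 + (Z * Z' + Z' ^ 2) * (CharTwo.two_eq_zero : (2 : k[X]) = 0)
  have h6 : Z + Z' = 0 := by simpa using h5
  exact CharTwo.add_eq_zero.mp h6

section Count

variable (hκ : PC b ≠ 0) (ha : Odd a.natDegree) (hab : b.natDegree < a.natDegree)
  {P : k[X]} (hPb : OddAt b P) (hPi : Irreducible P) (T : Finset k[X])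
  (hT : ∀ Q ∈ T, Irreducible Q) (hTP : ∀ Q ∈ primesOf a b, Q ∈ T ∨ Associated Q P)
  (hTc : ∀ Q ∈ T, ∀ Q' ∈ T, Q ≠ Q' → IsCoprime Q Q')
include hκ ha hab hPb hPi hT hTP hTc

open scoped Classical in
/-- a function separating the values of trivial type -/
theorem exists_F : ∃ F : k[X] → T.powerset, ∀ Z Z' : k[X], SV a b Z → T0 b Z → SV a b Z' →
    T0 b Z' → F Z = F Z' → Z = Z' := by
  have hex : ∀ Z : k[X], ∃ M : k[X], SV a b Z → T0 b Z → (M.degree < (∏ Q ∈ T, Q).degree ∧
      (∀ Q ∈ T, Q ∣ M ∨ Q ∣ M + derivative (∏ Q ∈ T, Q)) ∧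
      PC b ^ 2 * (M * ∏ Q ∈ T, Q) + b * M ^ 2 = Z ^ 2 * (∏ Q ∈ T, Q) ^ 2) := by
    intro Z
    by_cases h : SV a b Z ∧ T0 b Z
    · obtain ⟨M, hM⟩ := SV_data hκ ha hab hPb hPi T hT hTP h.1 h.2
      exact ⟨M, fun _ _ => hM⟩
    · exact ⟨0, fun h1 h2 => absurd ⟨h1, h2⟩ h⟩
  choose M hM using hex
  refine ⟨fun Z => ⟨T.filter (fun Q => Q ∣ M Z), by simp⟩, ?_⟩
  intro Z Z' h1 h0 h1' h0' he
  obtain ⟨a1, a2, a3⟩ := hM Z h1 h0
  obtain ⟨b1, b2, b3⟩ := hM Z' h1' h0'
  refine data_unique hT hTc a1 b1 a2 b2 a3 b3 ?_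
  intro Q hQ
  have h2 := congrArg Subtype.val he
  have h3 : Q ∈ T.filter (fun Q => Q ∣ M Z) ↔ Q ∈ T.filter (fun Q => Q ∣ M Z') := by
    simp only at h2
    rw [h2]
  rw [Finset.mem_filter, Finset.mem_filter] at h3
  simpa [hQ] using h3

open scoped Classical in
/-- the bound if all values have trivial type -/
theorem card_le_one (h0 : ∀ Z, SV a b Z → T0 b Z) :
    Finite (SelmerGroup (crv (twc a b)) 2) ∧
      Nat.card (SelmerGroup (crv (twc a b)) 2) ≤ 2 ^ T.card := by
  obtain ⟨ψ, hψ, hSV⟩ := exists_value_hom (a := a) hκ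
  obtain ⟨F, hF⟩ := exists_F hκ ha hab hPb hPi T hT hTP hTc
  have hinj : Function.Injective fun s => F (ψ s) := by
    intro s s' hs
    exact hψ (hF _ _ (hSV s) (h0 _ (hSV s)) (hSV s') (h0 _ (hSV s')) hs)
  refine ⟨Finite.of_injective _ hinj, ?_⟩
  have h1 := Nat.card_le_card_of_injective _ hinj
  rwa [Nat.card_eq_fintype_card (α := T.powerset), Fintype.card_coe, Finset.card_powerset] at h1

open scoped Classical in
/-- the bound in general -/
theorem card_le_two :
    Finite (SelmerGroup (crv (twc a b)) 2) ∧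
      Nat.card (SelmerGroup (crv (twc a b)) 2) ≤ 2 ^ (T.card + 1) := by
  have hK : CharP k[X] 2 := inferInstance
  by_cases hall : ∃ s₁ : SelmerGroup (crv (twc a b)) 2, True ∧
      ∃ ψ : SelmerGroup (crv (twc a b)) 2 →+ k[X], Function.Injective ψ ∧ (∀ s, SV a b (ψ s)) ∧
        ¬ T0 b (ψ s₁)
  · obtain ⟨s₁, -, ψ, hψ, hSV, hs₁⟩ := hall
    obtain ⟨F, hF⟩ := exists_F hκ ha hab hPb hPi T hT hTP hTc
    have h1 : T1 a b (ψ s₁) := (SV_type ha hab (hSV s₁)).resolve_left hs₁
    have hadd : ∀ s, ¬ T0 b (ψ s) → T0 b (ψ (s + s₁)) := by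
      intro s hs
      rw [map_add]
      exact T1_add ((SV_type ha hab (hSV s)).resolve_left hs) h1
    let Φ : SelmerGroup (crv (twc a b)) 2 → Bool × T.powerset := fun s =>
      if T0 b (ψ s) then (false, F (ψ s)) else (true, F (ψ (s + s₁)))
    have hinj : Function.Injective Φ := by
      intro s s' hs
      by_cases hz : T0 b (ψ s) <;> by_cases hz' : T0 b (ψ s')
      · simp only [Φ, if_pos hz, if_pos hz', Prod.mk.injEq] at hs
        exact hψ (hF _ _ (hSV s) hz (hSV s') hz' hs.2)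
      · simp [Φ, if_pos hz, if_neg hz'] at hs
      · simp [Φ, if_neg hz, if_pos hz'] at hs
      · simp only [Φ, if_neg hz, if_neg hz', Prod.mk.injEq] at hs
        exact add_right_cancel (hψ (hF _ _ (hSV _) (hadd s hz) (hSV _) (hadd s' hz') hs.2))
    refine ⟨Finite.of_injective _ hinj, ?_⟩
    have h2 := Nat.card_le_card_of_injective _ hinj
    rw [Nat.card_prod, Nat.card_eq_fintype_card (α := T.powerset), Fintype.card_coe,
      Finset.card_powerset, Nat.card_eq_fintype_card (α := Bool), Fintype.card_bool] at h2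
    rw [pow_succ]
    omega
  · push Not at hall
    obtain ⟨ψ, hψ, hSV⟩ := exists_value_hom (a := a) hκ
    obtain ⟨F, hF⟩ := exists_F hκ ha hab hPb hPi T hT hTP hTc
    have h0 : ∀ s, T0 b (ψ s) := fun s => hall s trivial ψ hψ hSV
    have hinj : Function.Injective fun s => F (ψ s) := by
      intro s s' hs
      exact hψ (hF _ _ (hSV s) (h0 s) (hSV s') (h0 s') hs)
    refine ⟨Finite.of_injective _ hinj, ?_⟩
    have h1 := Nat.card_le_card_of_injective _ hinj
    rw [Nat.card_eq_fintype_card (α := T.powerset), Fintype.card_coe, Finset.card_powerset] at h1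
    exact h1.trans (Nat.pow_le_pow_right (by norm_num) (by omega))

end Count

/-- a nonsquare polynomial has a prime factor of odd multiplicity -/
theorem exists_odd : ∀ (n : ℕ) (b : k[X]), b.natDegree ≤ n → b ≠ 0 → PC b ≠ 0 →
    ∃ P : k[X], P.Monic ∧ Irreducible P ∧ OddAt b P := by
  intro n
  induction n with
  | zero =>
    intro b hn hb0 hκ
    exfalso
    obtain ⟨c, rfl⟩ := natDegree_eq_zero.mp (Nat.le_zero.mp hn)
    obtain ⟨d, hd⟩ := exists_sqrt c
    apply hκ
    have h1 := PE_PC (C c : k[X])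
    have hK : CharP k[X] 2 := inferInstance
    have h2 : (PE (C c) + C d) ^ 2 + X * PC (C c) ^ 2 = 0 := by
      have h3 : (C c : k[X]) = (C d) ^ 2 := by rw [← C_pow, hd]
      rw [CharTwo.add_sq]
      linear_combination -h1 - h3 + (C c) * (CharTwo.two_eq_zero : (2 : k[X]) = 0)
    exact poly_uniq _ _ h2
  | succ n ih =>
    intro b hn hb0 hκ
    have hK : CharP k[X] 2 := inferInstance
    by_cases hu : IsUnit b
    · exact ih b (by rw [natDegree_eq_zero_of_isUnit hu]; exact Nat.zero_le _) hb0 hκ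
    obtain ⟨Q₀, hQ₀, hQd⟩ := WfDvdMonoid.exists_irreducible_factor hu hb0
    classical
    set Q := normalize Q₀ with hQn
    have hQm : Q.Monic := monic_normalize hQ₀.ne_zero
    have hQi : Irreducible Q := (normalize_associated Q₀).symm.irreducible hQ₀
    have hQb : Q ∣ b := (normalize_associated Q₀).dvd.trans hQd
    obtain ⟨m, hm1, hm2⟩ := exists_mult hQi hb0
    rcases Nat.even_or_odd m with hme | hmo
    · obtain ⟨j, rfl⟩ := hme
      obtain ⟨c, hc⟩ := hm1
      have hj : j ≠ 0 := by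
        rintro rfl
        apply hm2
        simpa using hQb
      have hc0 : c ≠ 0 := by rintro rfl; exact hb0 (by rw [hc, mul_zero])
      have hbc : b = (Q ^ j) ^ 2 * c := by rw [hc, ← pow_mul]; congr 2; ring
      have hκc : PC c ≠ 0 := by
        intro h0
        apply hκ
        have h1 := PE_PC c
        have h2 := PE_PC b
        rw [h0] at h1
        have h3 : (PE b + Q ^ j * PE c) ^ 2 + X * PC b ^ 2 = 0 := by
          rw [CharTwo.add_sq]
          have h4 : PE b ^ 2 + X * PC b ^ 2 = (Q ^ j) ^ 2 * PE c ^ 2 := by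
            rw [← h2, hbc]
            conv_lhs => rw [h1]
            ring
          linear_combination h4 + ((Q ^ j) ^ 2 * PE c ^ 2) *
            (CharTwo.two_eq_zero : (2 : k[X]) = 0)
        exact poly_uniq _ _ h3
      have hdeg : c.natDegree ≤ n := by
        have h1 : b.natDegree = ((Q ^ j) ^ 2).natDegree + c.natDegree := by
          rw [hbc, natDegree_mul (pow_ne_zero _ (pow_ne_zero _ hQi.ne_zero)) hc0]
        have h2 : 0 < ((Q ^ j) ^ 2).natDegree := by
          rw [natDegree_pow, natDegree_pow]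
          have := hQi.natDegree_pos
          positivity
        omega
      obtain ⟨P, hPm, hPi, i, hi, hi1, hi2⟩ := ih c hdeg hc0 hκc
      have hcop : ¬ Associated P Q := by
        intro hass
        have h1 : Q ∣ c := by
          have h2 : P ∣ c := (dvd_pow_self P hi.pos.ne').trans hi1
          exact hass.symm.dvd.trans h2
        apply hm2
        rw [hc, pow_succ]
        exact mul_dvd_mul_left _ h1
      have hcop' : IsCoprime P Q :=
        hPi.coprime_iff_not_dvd.mpr fun h => hcop (hPi.associated_of_dvd hQi h)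
      refine ⟨P, hPm, hPi, i, hi, ?_, ?_⟩
      · rw [hbc]; exact hi1.mul_left _
      · intro h
        apply hi2
        rw [hbc] at h
        exact (IsCoprime.pow (hcop'.pow_right) : IsCoprime (P ^ (i + 1)) ((Q ^ j) ^ 2)).dvd_of_dvd_mul_left h
    · exact ⟨Q, hQm, hQi, m, hmo, hm1, hm2⟩

end Pool.Agent.H2
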