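import Pool.Agent.H2.ASCount

/-!
# Artin-Schreier twists: the order of the 2-Selmer group
-/

namespace Pool.Agent.H2

open Polynomial IsDedekindDomain WeierstrassCurve WeierstrassCurve.Affine

universe u

variable {k : Type u} [Field k] [Finite k] [CharP k 2] {a b : k[X]}

/-- what we know about the value of a Selmer class -/
def SV (a b Z : k[X]) : Prop :=
  ∃ V f : k[X], V ^ 2 + PC b * V + PC b ^ 2 * f = Z * (PE b + X * Z) ∧
    (∀ p : HeightOneSpectrum k[X], Z = 0 ∨ LD (finAbv p) (finAbv_good p).comp_basis a b f Z) ∧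
    (Z = 0 ∨ LD (infAbv k) basis_inf a b f Z)

theorem exists_SV (hκ : PC b ≠ 0) (P : Pts (crv (twc a b)) (Ks (RatFunc k)))
    (hG : GaloisFixed 2 P) (hfin : ∀ p, LocallyRational 2 P (finAbv p))
    (hinf : LocallyRational 2 P (infAbv k)) :
    ∃ Z : k[X], algebraMap (RatFunc k) (Ks (RatFunc k)) (algebraMap k[X] (RatFunc k) Z)
        = dv a hκ P ∧ SV a b Z := by
  obtain ⟨Z, V, f, hZ, hV⟩ := sel_struct hκ P hG hfin
  exact ⟨Z, hZ, V, f, hV, fun p => sel_local hκ P hZ hV _ (hfin p) _,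
    sel_local hκ P hZ hV _ hinf _⟩

/-- the values of trivial type -/
def T0 (b Z : k[X]) : Prop :=
  ∃ V z : k[X], V ^ 2 + PC b * V + PC b ^ 2 * (z ^ 2 + z) = Z * (PE b + X * Z)

/-- the values of the type of `a` -/
def T1 (a b Z : k[X]) : Prop :=
  ∃ V z : k[X], V ^ 2 + PC b * V + PC b ^ 2 * (z ^ 2 + z + a) = Z * (PE b + X * Z)

theorem T0_zero : T0 b 0 := ⟨0, 0, by ring⟩

theorem T1_add {Z Z' : k[X]} (h : T1 a b Z) (h' : T1 a b Z') : T0 b (Z + Z') := by
  have hK : CharP k[X] 2 := inferInstance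
  obtain ⟨V, z, hV⟩ := h
  obtain ⟨V', z', hV'⟩ := h'
  refine ⟨V + V', z + z', ?_⟩
  have e1 : (V + V') ^ 2 + PC b * (V + V') + PC b ^ 2 * ((z + z') ^ 2 + (z + z'))
    = (V ^ 2 + PC b * V + PC b ^ 2 * (z ^ 2 + z + a))
      + (V' ^ 2 + PC b * V' + PC b ^ 2 * (z' ^ 2 + z' + a)) := by
    linear_combination (V * V' + PC b ^ 2 * (z * z') - PC b ^ 2 * a) *
      (CharTwo.two_eq_zero : (2 : k[X]) = 0)
  rw [e1, hV, hV']
  linear_combination (-X * Z * Z') * (CharTwo.two_eq_zero : (2 : k[X]) = 0)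

theorem not_both (hκ : PC b ≠ 0) (ha : Odd a.natDegree) {Z : k[X]} (h : T0 b Z) (h' : T1 a b Z) :
    False := by
  have hK : CharP k[X] 2 := inferInstance
  have hK2 : CharP (RatFunc k) 2 := basisX.charP
  have g := infAbv_good (k := k)
  obtain ⟨V, z, hV⟩ := h
  obtain ⟨V', z', hV'⟩ := h'
  have h1 : (V + V') ^ 2 + PC b * (V + V') + PC b ^ 2 * ((z + z') ^ 2 + (z + z') + a) = 0 := by
    have e : (V + V') ^ 2 + PC b * (V + V') + PC b ^ 2 * ((z + z') ^ 2 + (z + z') + a)
      = (V ^ 2 + PC b * V + PC b ^ 2 * (z ^ 2 + z))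
        + (V' ^ 2 + PC b * V' + PC b ^ 2 * (z' ^ 2 + z' + a)) := by
      linear_combination (V * V' + PC b ^ 2 * (z * z')) *
        (CharTwo.two_eq_zero : (2 : k[X]) = 0)
    rw [e, hV, hV', CharTwo.add_self_eq_zero]
  have hκ' : algebraMap k[X] (RatFunc k) (PC b) ≠ 0 := by
    rwa [Ne, FaithfulSMul.algebraMap_eq_zero_iff]
  have h2 := congrArg (algebraMap k[X] (RatFunc k)) h1
  simp only [map_add, map_mul, map_pow, map_zero] at h2
  set U := algebraMap k[X] (RatFunc k) V + algebraMap k[X] (RatFunc k) V'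
  set y := algebraMap k[X] (RatFunc k) z + algebraMap k[X] (RatFunc k) z'
  set κ := algebraMap k[X] (RatFunc k) (PC b)
  have h3 : (U / κ + y) ^ 2 + (U / κ + y) = algebraMap k[X] (RatFunc k) a := by
    field_simp
    grind
  have h4 := congrArg (algebraMap (RatFunc k) (infAbv k).Completion) h3
  rw [map_add, map_pow] at h4
  have ha0 : a ≠ 0 := by rintro rfl; simp at ha
  have h5 := even_exp g h4 (n := a.natDegree) (by
    rw [GoodPlace.norm_algebraMap, infAbv_poly ha0]) (by have := ha.pos; omega)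
  rw [Int.even_coe_nat] at h5
  exact (Nat.not_even_iff_odd.mpr ha) h5

theorem SV_type (ha : Odd a.natDegree) (hab : b.natDegree < a.natDegree) {Z : k[X]}
    (h : SV a b Z) : T0 b Z ∨ T1 a b Z := by
  obtain ⟨V, f, hV, -, hinf⟩ := h
  rcases hinf with rfl | hinf
  · exact Or.inl T0_zero
  · rcases at_inf ha hab hinf with ⟨z, hz⟩ | ⟨z, hz⟩
    · exact Or.inl ⟨V, z, by rw [hz]; exact hV⟩
    · have hK : CharP k[X] 2 := inferInstance
      refine Or.inr ⟨V, z, ?_⟩
      rw [hz, add_assoc f, CharTwo.add_self_eq_zero, add_zero]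
      exact hV

/-- no value has the type of `a` if `a` does not split at a zero of `b` of odd order -/
theorem not_T1 (ha : Odd a.natDegree) (hab : b.natDegree < a.natDegree)
    {P : k[X]} (hPb : OddAt b P) (hPi : Irreducible P) (hns : Nonsplit a P) {Z : k[X]}
    (h : SV a b Z) : T0 b Z := by
  have hK : CharP k[X] 2 := inferInstance
  obtain ⟨p, hp⟩ := place_of hPi
  obtain ⟨V, f, hV, hfin, hinf⟩ := h
  rcases hinf with rfl | hinf
  · exact T0_zero
  · rcases at_inf ha hab hinf with ⟨z, hz⟩ | ⟨z, hz⟩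
    · exact ⟨V, z, by rw [hz]; exact hV⟩
    · rcases hfin p with rfl | hloc
      · exact T0_zero
      · exfalso
        obtain ⟨y, hy⟩ := at_odd hPb hp hloc
        apply hns (y + z)
        have e : (y + z) ^ 2 + (y + z) + a = y ^ 2 + y + f := by
          have e1 : (y + z) ^ 2 + (y + z) + a = (y ^ 2 + y) + ((z ^ 2 + z) + a) := by
            linear_combination (y * z) * (CharTwo.two_eq_zero : (2 : k[X]) = 0)
          rw [e1, hz, add_assoc f, CharTwo.add_self_eq_zero, add_zero]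
        rw [e]
        exact hy

/-- the polynomial attached to a Selmer value of trivial type -/
theorem SV_data (hκ : PC b ≠ 0) (ha : Odd a.natDegree) (hab : b.natDegree < a.natDegree)
    {P : k[X]} (hPb : OddAt b P) (hPi : Irreducible P) (T : Finset k[X])
    (hT : ∀ Q ∈ T, Irreducible Q) (hTc : ∀ Q ∈ primesOf a b, Q ∈ T ∨ Associated Q P)
    {Z : k[X]} (h : SV a b Z) (h0 : T0 b Z) :
    ∃ M : k[X], M.degree < (∏ Q ∈ T, Q).degree ∧
      (∀ Q ∈ T, Q ∣ M ∨ Q ∣ M + derivative (∏ Q ∈ T, Q)) ∧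
      PC b ^ 2 * (M * ∏ Q ∈ T, Q) + b * M ^ 2 = Z ^ 2 * (∏ Q ∈ T, Q) ^ 2 := by
  have hK : CharP k[X] 2 := inferInstance
  have hR0 : (∏ Q ∈ T, Q) ≠ 0 := Finset.prod_ne_zero_iff.mpr fun Q hQ => (hT Q hQ).ne_zero
  by_cases hZ0 : Z = 0
  · refine ⟨0, ?_, fun Q _ => Or.inl (dvd_zero _), by rw [hZ0]; ring⟩
    rw [degree_zero, bot_lt_iff_ne_bot, Ne, degree_eq_bot]; exact hR0
  obtain ⟨V, f, hV, hfin, hinf⟩ := h
  rcases at_inf ha hab (hinf.resolve_left hZ0) with ⟨z, hz⟩ | ⟨z, hz⟩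
  · exact type0_data hκ hPb hPi hz hV hfin T hT hTc
  · exfalso
    refine not_both hκ ha h0 ⟨V, z, ?_⟩
    rw [hz, add_assoc f, CharTwo.add_self_eq_zero, add_zero]
    exact hV

/-- the value homomorphism on the Selmer group -/
theorem exists_value_hom (hκ : PC b ≠ 0) :
    ∃ ψ : SelmerGroup (crv (twc a b)) 2 →+ k[X], Function.Injective ψ ∧ ∀ s, SV a b (ψ s) := by
  have hinj : Function.Injective (algebraMap k[X] (RatFunc k)) :=
    FaithfulSMul.algebraMap_injective _ _
  have hinj2 : Function.Injective (algebraMap (RatFunc k) (Ks (RatFunc k))) :=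
    (algebraMap (RatFunc k) (Ks (RatFunc k))).injective
  have hex : ∀ P : selmerPoints (crv (twc a b)) 2, ∃ Z : k[X],
      algebraMap (RatFunc k) (Ks (RatFunc k)) (algebraMap k[X] (RatFunc k) Z)
        = dv a hκ P.1 ∧ SV a b Z := fun P =>
    exists_SV hκ P.1 P.2.1 (fun p => P.2.2 _ (finAbv_good p).nontrivial)
      (P.2.2 _ infAbv_good.nontrivial)
  choose ψ₀ hψ hSV using hex
  let ψ₁ : selmerPoints (crv (twc a b)) 2 →+ k[X] :=
    { toFun := ψ₀
      map_zero' := by
        apply hinj; apply hinj2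
        rw [hψ, AddSubgroup.coe_zero, map_zero, map_zero, map_zero]
      map_add' := by
        intro P Q
        apply hinj; apply hinj2
        rw [hψ, AddSubgroup.coe_add, map_add, map_add, map_add, hψ, hψ] }
  set N := ((nsmulAddMonoidHom 2 : Pts (crv (twc a b)) (Ks (RatFunc k)) →+ _).range.addSubgroupOf
    (selmerPoints (crv (twc a b)) 2)) with hN
  have hker : ∀ P, P ∈ N ↔ ψ₁ P = 0 := by
    intro P
    rw [hN, AddSubgroup.mem_addSubgroupOf, AddMonoidHom.mem_range]
    have e : ψ₁ P = 0 ↔ dv a hκ P.1 = 0 := by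
      change ψ₀ P = 0 ↔ _
      rw [← hψ, map_eq_zero, FaithfulSMul.algebraMap_eq_zero_iff]
    rw [e]
    constructor
    · rintro ⟨R, hR⟩
      have h1 : P.1 = 2 • R := hR.symm
      rw [h1, cExt_two]
    · intro h
      obtain ⟨R, hR⟩ := cExt_ker basisX (crv (twc a b)) (hk_crv _ (hk_twc a hκ)) (sepK basisX) _ h
      exact ⟨R, hR⟩
  refine ⟨QuotientAddGroup.lift N ψ₁ (fun P hP => (hker P).mp hP), ?_, ?_⟩
  · rw [injective_iff_map_eq_zero]
    intro s hs
    induction s using QuotientAddGroup.induction_on with | H P => ?_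
    rw [QuotientAddGroup.lift_mk] at hs
    exact (QuotientAddGroup.eq_zero_iff P).mpr ((hker P).mpr hs)
  · intro s
    induction s using QuotientAddGroup.induction_on with | H P => ?_
    rw [QuotientAddGroup.lift_mk]
    exact hSV P

end Pool.Agent.H2
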