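import Pool.Agent.H2.ASMain

/-!
# Artin-Schreier twists: the elements of trivial type
-/

namespace Pool.Agent.H2

open Polynomial IsDedekindDomain WeierstrassCurve WeierstrassCurve.Affine

universe u

variable {k : Type u} [Field k] [Finite k] [CharP k 2] {a b : k[X]}

/-- both logarithmic derivatives attached to an element of trivial type -/
theorem exists_ell (hκ : PC b ≠ 0) {Z V : k[X]} (hV : V ^ 2 + PC b * V = Z * (PE b + X * Z)) :
    ∃ ℓ : RatFunc k,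
      algebraMap k[X] (RatFunc k) (PC b) ^ 2 * ℓ + algebraMap k[X] (RatFunc k) b * ℓ ^ 2
      = algebraMap k[X] (RatFunc k) Z ^ 2 := by
  have hK2 : CharP (RatFunc k) 2 := basisX.charP
  have hb0 : b ≠ 0 := by
    rintro rfl
    apply hκ
    have h1 := PE_PC (0 : k[X])
    exact poly_uniq (PE 0) (PC 0) h1.symm
  have hb' : algebraMap k[X] (RatFunc k) b ≠ 0 := by
    rwa [Ne, FaithfulSMul.algebraMap_eq_zero_iff]
  have h1 := congrArg (algebraMap k[X] (RatFunc k)) hV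
  have h2 := congrArg (algebraMap k[X] (RatFunc k)) (PE_PC b)
  simp only [map_add, map_mul, map_pow, RatFunc.algebraMap_X] at h1 h2
  set κ := algebraMap k[X] (RatFunc k) (PC b)
  set δ := algebraMap k[X] (RatFunc k) (PE b)
  set B := algebraMap k[X] (RatFunc k) b
  set z := algebraMap k[X] (RatFunc k) Z
  set V' := algebraMap k[X] (RatFunc k) V
  refine ⟨(κ * V' + δ * z) / B, ?_⟩
  have h3 : (κ * V' + δ * z) ^ 2 + κ ^ 2 * (κ * V' + δ * z) = B * z ^ 2 := by grind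
  field_simp
  linear_combination h3

/-- the Cartier equation -/
theorem cartier (hκ : PC b ≠ 0) {Z : k[X]} {ℓ : RatFunc k}
    (hℓ : algebraMap k[X] (RatFunc k) (PC b) ^ 2 * ℓ + algebraMap k[X] (RatFunc k) b * ℓ ^ 2
      = algebraMap k[X] (RatFunc k) Z ^ 2) :
    ∃ e : RatFunc k, ℓ = e ^ 2 + RatFunc.X * ℓ ^ 2 := by
  have hK2 : CharP (RatFunc k) 2 := basisX.charP
  have hκ' : algebraMap k[X] (RatFunc k) (PC b) ≠ 0 := by
    rwa [Ne, FaithfulSMul.algebraMap_eq_zero_iff]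
  have h2 := congrArg (algebraMap k[X] (RatFunc k)) (PE_PC b)
  simp only [map_add, map_mul, map_pow, RatFunc.algebraMap_X] at h2
  set κ := algebraMap k[X] (RatFunc k) (PC b)
  set δ := algebraMap k[X] (RatFunc k) (PE b)
  set B := algebraMap k[X] (RatFunc k) b
  set z := algebraMap k[X] (RatFunc k) Z
  refine ⟨(z + δ * ℓ) / κ, ?_⟩
  have h3 : κ ^ 2 * ℓ = (z + δ * ℓ) ^ 2 + κ ^ 2 * (RatFunc.X * ℓ ^ 2) := by grind
  field_simp
  linear_combination h3

/-- the choice of the logarithmic derivative regular at a given zero of odd order -/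
theorem exists_ell_reg (hκ : PC b ≠ 0) {P : k[X]} (hPb : OddAt b P) {p : HeightOneSpectrum k[X]}
    (hp : p.asIdeal = Ideal.span {P}) {Z V : k[X]}
    (hV : V ^ 2 + PC b * V = Z * (PE b + X * Z)) :
    ∃ ℓ : RatFunc k,
      algebraMap k[X] (RatFunc k) (PC b) ^ 2 * ℓ + algebraMap k[X] (RatFunc k) b * ℓ ^ 2
      = algebraMap k[X] (RatFunc k) Z ^ 2 ∧ finAbv p ℓ ≤ 1 := by
  have hK2 : CharP (RatFunc k) 2 := basisX.charP
  by_cases hZ0 : Z = 0
  · refine ⟨0, ?_, by rw [map_zero]; exact zero_le_one⟩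
    rw [hZ0]; simp
  obtain ⟨n, hn, hn1, hn2⟩ := hPb
  have hb0 : b ≠ 0 := by rintro rfl; exact hn2 (dvd_zero _)
  have hb' : algebraMap k[X] (RatFunc k) b ≠ 0 := by
    rwa [Ne, FaithfulSMul.algebraMap_eq_zero_iff]
  have hZ' : algebraMap k[X] (RatFunc k) Z ≠ 0 := by
    rwa [Ne, FaithfulSMul.algebraMap_eq_zero_iff]
  have hvb := finAbv_eq_pow hp hn1 hn2
  obtain ⟨ℓ, hℓ⟩ := exists_ell hκ hV
  have hℓ' : algebraMap k[X] (RatFunc k) (PC b) ^ 2
        * (ℓ + algebraMap k[X] (RatFunc k) (PC b) ^ 2 / algebraMap k[X] (RatFunc k) b)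
      + algebraMap k[X] (RatFunc k) b
        * (ℓ + algebraMap k[X] (RatFunc k) (PC b) ^ 2 / algebraMap k[X] (RatFunc k) b) ^ 2
      = algebraMap k[X] (RatFunc k) Z ^ 2 := by
    rw [← hℓ]
    set κ := algebraMap k[X] (RatFunc k) (PC b)
    set B := algebraMap k[X] (RatFunc k) b
    field_simp
    grind
  have hprod : algebraMap k[X] (RatFunc k) b * (ℓ *
      (ℓ + algebraMap k[X] (RatFunc k) (PC b) ^ 2 / algebraMap k[X] (RatFunc k) b))
      = algebraMap k[X] (RatFunc k) Z ^ 2 := by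
    rw [← hℓ]
    field_simp
    ring
  set ℓ' := ℓ + algebraMap k[X] (RatFunc k) (PC b) ^ 2 / algebraMap k[X] (RatFunc k) b with hℓ'd
  have hl0 : ℓ ≠ 0 := by
    rintro h0
    rw [h0, zero_mul, mul_zero] at hprod
    exact pow_ne_zero 2 hZ' hprod.symm
  have hl0' : ℓ' ≠ 0 := by
    rintro h0
    rw [h0, mul_zero, mul_zero] at hprod
    exact pow_ne_zero 2 hZ' hprod.symm
  obtain ⟨e, he⟩ := cartier hκ hℓ
  obtain ⟨e', he'⟩ := cartier hκ hℓ'
  have hp1 := pole_le he p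
  have hp2 := pole_le he' p
  obtain ⟨i, hi⟩ := two_exp (finAbv_good p) ℓ hl0
  obtain ⟨i', hi'⟩ := two_exp (finAbv_good p) ℓ' hl0'
  obtain ⟨z, hz⟩ := two_exp (finAbv_good p) _ hZ'
  have h1 := congrArg (finAbv p) hprod
  rw [map_mul, map_mul, map_pow, hvb, hi, hi', hz, ← zpow_add₀ two_ne_zero,
    ← zpow_add₀ two_ne_zero, ← zpow_natCast, ← zpow_mul] at h1
  have h2 := zpow_right_injective₀ (by norm_num : (0 : ℝ) < 2) (by norm_num) h1
  rw [hi] at hp1
  rw [hi'] at hp2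
  have e2 : (2 : ℝ) = (2 : ℝ) ^ (1 : ℤ) := (zpow_one _).symm
  have h3 : i ≤ 1 := by
    rw [e2, ← zpow_mul, one_mul] at hp1
    exact (zpow_le_zpow_iff_right₀ (by norm_num : (1 : ℝ) < 2)).mp hp1
  have h4 : i' ≤ 1 := by
    rw [e2, ← zpow_mul, one_mul] at hp2
    exact (zpow_le_zpow_iff_right₀ (by norm_num : (1 : ℝ) < 2)).mp hp2
  obtain ⟨c, hc⟩ := hn
  push_cast at h2
  have h5 : i ≤ 0 ∨ i' ≤ 0 := by omega
  rcases h5 with h5 | h5
  · exact ⟨ℓ, hℓ, by rw [hi]; exact zpow_le_one_of_nonpos₀ (by norm_num) h5⟩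
  · exact ⟨ℓ', hℓ', by rw [hi']; exact zpow_le_one_of_nonpos₀ (by norm_num) h5⟩

/-- the polynomial attached to an element of trivial type -/
theorem type0_data (hκ : PC b ≠ 0) {P : k[X]} (hPb : OddAt b P) (hPi : Irreducible P)
    {Z V f z : k[X]} (hz : z ^ 2 + z = f)
    (hV : V ^ 2 + PC b * V + PC b ^ 2 * f = Z * (PE b + X * Z))
    (hloc : ∀ p : HeightOneSpectrum k[X],
      Z = 0 ∨ LD (finAbv p) (finAbv_good p).comp_basis a b f Z)
    (T : Finset k[X]) (hT : ∀ Q ∈ T, Irreducible Q)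
    (hTc : ∀ Q ∈ primesOf a b, Q ∈ T ∨ Associated Q P) :
    ∃ M : k[X], M.degree < (∏ Q ∈ T, Q).degree ∧
      (∀ Q ∈ T, Q ∣ M ∨ Q ∣ M + derivative (∏ Q ∈ T, Q)) ∧
      PC b ^ 2 * (M * ∏ Q ∈ T, Q) + b * M ^ 2 = Z ^ 2 * (∏ Q ∈ T, Q) ^ 2 := by
  have hK : CharP k[X] 2 := inferInstance
  have hR0 : (∏ Q ∈ T, Q) ≠ 0 := Finset.prod_ne_zero_iff.mpr fun Q hQ => (hT Q hQ).ne_zero
  by_cases hZ0 : Z = 0
  · refine ⟨0, ?_, fun Q _ => Or.inl (dvd_zero _), by rw [hZ0]; ring⟩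
    rw [degree_zero, bot_lt_iff_ne_bot, Ne, degree_eq_bot]; exact hR0
  obtain ⟨p₀, hp₀⟩ := place_of hPi
  have hV1 : (V + PC b * z) ^ 2 + PC b * (V + PC b * z) = Z * (PE b + X * Z) := by
    rw [← hV, ← hz]; grind
  obtain ⟨ℓ, hℓ, hreg0⟩ := exists_ell_reg hκ hPb hp₀ hV1
  obtain ⟨e, he⟩ := cartier hκ hℓ
  obtain ⟨M, hM, hMd, hMT⟩ := logder he T hT (by
    intro p hp
    by_cases h1 : P ∈ p.asIdeal
    · have h2 : p = p₀ := by
        apply HeightOneSpectrum.ext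
        rw [hp₀]
        have h3 : Ideal.span {P} ≤ p.asIdeal := by
          rwa [Ideal.span_le, Set.singleton_subset_iff]
        have h4 : (Ideal.span {P}).IsMaximal := by
          have := p₀.isMaximal
          rwa [hp₀] at this
        exact (h4.eq_of_le p.isPrime.ne_top h3).symm
      rw [h2]; exact hreg0
    · refine regular_at hκ hz ?_ ((hloc p).resolve_left hZ0) hℓ
      intro Q hQ
      rcases hTc Q hQ with h2 | h2
      · exact hp Q h2
      · intro h3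
        exact h1 (p.asIdeal.mem_of_dvd h2.dvd h3))
  refine ⟨M, hMd, hMT, ?_⟩
  apply FaithfulSMul.algebraMap_injective k[X] (RatFunc k)
  simp only [map_add, map_mul, map_pow]
  rw [← hℓ, hM]
  ring

end Pool.Agent.H2
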