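import Pool.Agent.H2.ASMain

/-!
# The number of the polynomials which do not split at given primes
-/

namespace Pool.Agent.H2

open Polynomial

universe u

variable {k : Type u} [Field k] [Finite k] [CharP k 2]

section Res

variable (F : Type u) [Field F] [Finite F] [CharP F 2]

/-- the map `z ↦ z² + z` -/
def wp : F →+ F where
  toFun z := z ^ 2 + z
  map_zero' := by simp
  map_add' x y := by
    linear_combination (x * y) * (CharTwo.two_eq_zero : (2 : F) = 0)

theorem wp_index : (wp F).range.index = 2 := by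
  have h1 : Nat.card (wp F).ker = 2 := by
    have h2 : ((wp F).ker : Set F) = {0, 1} := by
      ext z
      simp only [SetLike.mem_coe, AddMonoidHom.mem_ker, Set.mem_insert_iff, Set.mem_singleton_iff]
      change z ^ 2 + z = 0 ↔ _
      constructor
      · intro h
        have h3 : z * (z + 1) = 0 := by linear_combination h
        rcases mul_eq_zero.mp h3 with h4 | h4
        · exact Or.inl h4
        · exact Or.inr (CharTwo.add_eq_zero.mp h4)
      · rintro (rfl | rfl)
        · simp
        · linear_combination (CharTwo.two_eq_zero : (2 : F) = 0)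
    have h3 : Nat.card (wp F).ker = Set.ncard ({0, 1} : Set F) := by
      rw [← h2]; rfl
    rw [h3, Set.ncard_pair zero_ne_one]
  have h2 : Nat.card (wp F).ker * Nat.card (wp F).range = Nat.card F := by
    rw [← AddSubgroup.index_ker]
    exact AddSubgroup.card_mul_index _
  have h3 := AddSubgroup.card_mul_index (wp F).range
  have h4 : 0 < Nat.card (wp F).range := Nat.card_pos
  rw [h1] at h2
  have h5 : Nat.card (wp F).range * (wp F).range.index = Nat.card (wp F).range * 2 := by
    rw [h3, ← h2]; ring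
  exact Nat.eq_of_mul_eq_mul_left h4 h5

end Res

theorem split_iff {P : k[X]} (hP : Irreducible P) :
    ∃ (F : Type u) (_ : Field F) (_ : Finite F) (_ : CharP F 2) (π : k[X] →+* F),
      Function.Surjective π ∧ (∀ f, π f = 0 ↔ P ∣ f) ∧
      ∀ a, Nonsplit a P ↔ π a ∉ (wp F).range := by
  have hK : CharP k[X] 2 := inferInstance
  have := Fact.mk hP
  have hfin : Finite (AdjoinRoot P) := by
    have h1 : Module.Finite k (AdjoinRoot P) := (AdjoinRoot.powerBasis hP.ne_zero).finite
    exact Module.finite_of_finite k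
  have hchar : CharP (AdjoinRoot P) 2 :=
    charP_of_injective_ringHom (AdjoinRoot.of P).injective 2
  have hmk : ∀ f, AdjoinRoot.mk P f = 0 ↔ P ∣ f := fun f => AdjoinRoot.mk_eq_zero
  refine ⟨AdjoinRoot P, inferInstance, hfin, hchar, AdjoinRoot.mk P, AdjoinRoot.mk_surjective,
    hmk, fun a => ?_⟩
  constructor
  · rintro h ⟨y, hy⟩
    obtain ⟨z, rfl⟩ := AdjoinRoot.mk_surjective y
    apply h z
    rw [← hmk, map_add, map_add, map_pow]
    have h1 : AdjoinRoot.mk P z ^ 2 + AdjoinRoot.mk P z = AdjoinRoot.mk P a := hy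
    rw [h1, CharTwo.add_self_eq_zero]
  · intro h z hz
    apply h
    refine ⟨AdjoinRoot.mk P z, ?_⟩
    rw [← hmk, map_add, map_add, map_pow] at hz
    change AdjoinRoot.mk P z ^ 2 + AdjoinRoot.mk P z = AdjoinRoot.mk P a
    exact CharTwo.add_eq_zero.mp hz

theorem nonsplit_add {P : k[X]} (hP : Irreducible P) (a u : k[X]) :
    Nonsplit (a + u) P ↔ (Nonsplit a P ↔ ¬ Nonsplit u P) := by
  obtain ⟨F, _, _, _, π, -, -, h⟩ := split_iff hP
  rw [h, h, h, map_add, AddSubgroup.add_mem_iff_of_index_two (wp_index F)]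
  tauto

theorem exists_nonsplit {P : k[X]} (hP : Irreducible P) : ∃ c : k[X], Nonsplit c P := by
  obtain ⟨F, _, _, _, π, hs, -, h⟩ := split_iff hP
  have h1 : (wp F).range ≠ ⊤ := by
    intro h2
    have h3 := wp_index F
    rw [h2, AddSubgroup.index_top] at h3
    omega
  obtain ⟨y, hy⟩ : ∃ y, y ∉ (wp F).range := by
    by_contra h2
    push Not at h2
    exact h1 (eq_top_iff.mpr fun y _ => h2 y)
  obtain ⟨c, rfl⟩ := hs y
  exact ⟨c, (h c).mpr hy⟩

omit [Finite k] [CharP k 2] in
theorem nonsplit_congr {P a u : k[X]} (h : P ∣ a - u) : Nonsplit a P ↔ Nonsplit u P := by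
  unfold Nonsplit
  constructor
  · intro h1 z hz
    apply h1 z
    have : z ^ 2 + z + a = (z ^ 2 + z + u) + (a - u) := by ring
    rw [this]
    exact dvd_add hz h
  · intro h1 z hz
    apply h1 z
    have : z ^ 2 + z + u = (z ^ 2 + z + a) - (a - u) := by ring
    rw [this]
    exact dvd_sub hz h

section Count

variable (R : Finset k[X]) (hR : ∀ P ∈ R, P.Monic ∧ Irreducible P)
include hR

omit [Finite k] [CharP k 2] in
theorem cop_of {P Q : k[X]} (hP : P ∈ R) (hQ : Q ∈ R) (h : P ≠ Q) : IsCoprime P Q := by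
  rw [(hR P hP).2.coprime_iff_not_dvd]
  intro hd
  exact h (eq_of_monic_of_associated (hR P hP).1 (hR Q hQ).1
    ((hR P hP).2.associated_of_dvd (hR Q hQ).2 hd))

open scoped Classical in
/-- polynomials of small degree which change the behaviour at exactly one prime -/
theorem exists_switch {m : ℕ} (hm : ∑ P ∈ R, P.natDegree ≤ m) :
    ∃ u : k[X] → k[X], ∀ P ∈ R, (u P).degree < (m : WithBot ℕ) ∧ Nonsplit (u P) P ∧
      ∀ Q ∈ R, Q ≠ P → ¬ Nonsplit (u P) Q := by
  have hK : CharP k[X] 2 := inferInstance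
  have hex : ∀ P : k[X], ∃ u : k[X], P ∈ R → u.degree < (m : WithBot ℕ) ∧ Nonsplit u P ∧
      ∀ Q ∈ R, Q ≠ P → ¬ Nonsplit u Q := by
    intro P
    by_cases hP : P ∈ R
    · obtain ⟨c, hc⟩ := exists_nonsplit (hR P hP).2
      have hcop : IsCoprime P (∏ Q ∈ R.erase P, Q) := by
        apply IsCoprime.prod_right
        intro Q hQ
        exact cop_of R hR hP (Finset.mem_of_mem_erase hQ) (Finset.ne_of_mem_erase hQ).symm
      obtain ⟨α, β, hαβ⟩ := hcop
      set S := ∏ Q ∈ R.erase P, Q with hS
      set W := ∏ Q ∈ R, Q with hW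
      have hWm : W.Monic := monic_prod_of_monic _ _ fun Q hQ => (hR Q hQ).1
      set u := (c * (β * S)) %ₘ W with hu
      have hud : ∀ Q ∈ R, Q ∣ u - c * (β * S) := by
        intro Q hQ
        have h1 : Q ∣ W := Finset.dvd_prod_of_mem _ hQ
        have h2 := modByMonic_add_div (c * (β * S)) W
        have h3 : u - c * (β * S) = -(W * ((c * (β * S)) /ₘ W)) := by
          rw [hu]; linear_combination h2
        rw [h3, dvd_neg]
        exact h1.mul_right _
      refine ⟨u, fun _ => ⟨?_, ?_, ?_⟩⟩
      · refine lt_of_lt_of_le (degree_modByMonic_lt _ hWm) ?_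
        rw [degree_eq_natDegree hWm.ne_zero, hW, natDegree_prod_of_monic _ _
          fun Q hQ => (hR Q hQ).1]
        exact_mod_cast hm
      · rw [nonsplit_congr (hud P hP)]
        rw [nonsplit_congr (u := c)]
        · exact hc
        · refine ⟨-(c * α), ?_⟩
          linear_combination c * hαβ
      · intro Q hQ hQP
        rw [nonsplit_congr (hud Q hQ)]
        intro h1
        apply h1 0
        have h2 : Q ∣ S := Finset.dvd_prod_of_mem _ (Finset.mem_erase.mpr ⟨hQP, hQ⟩)
        have : (0 : k[X]) ^ 2 + 0 + c * (β * S) = c * β * S := by ring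
        rw [this]
        exact h2.mul_left _
    · exact ⟨0, fun h => absurd h hP⟩
  choose u hu using hex
  exact ⟨u, fun P hP => hu P hP⟩

open scoped Classical in
/-- exactly the proportion `2 ^ (-#R)` of the polynomials of degree `m` splits at no prime in `R` -/
theorem density {m : ℕ} (hm0 : 0 < m) (hm : ∑ P ∈ R, P.natDegree ≤ m) :
    2 ^ R.card * Nat.card {a : k[X] // a.natDegree = m ∧ ∀ P ∈ R, Nonsplit a P}
      = Nat.card {a : k[X] // a.natDegree = m} := by
  have hK : CharP k[X] 2 := inferInstance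
  obtain ⟨u, hu⟩ := exists_switch R hR hm
  -- the sum of the switches
  have hdeg : ∀ T ⊆ R, (∑ P ∈ T, u P).degree < (m : WithBot ℕ) := by
    intro T hT
    refine lt_of_le_of_lt (degree_sum_le _ _) ?_
    rw [Finset.sup_lt_iff (by exact_mod_cast WithBot.bot_lt_coe m)]
    intro P hP
    exact (hu P (hT hP)).1
  have hnd : ∀ (a : k[X]), a.natDegree = m → ∀ T ⊆ R, (a + ∑ P ∈ T, u P).natDegree = m := by
    intro a ha T hT
    have ha0 : a ≠ 0 := by
      rintro rfl
      rw [natDegree_zero] at ha
      omega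
    have h1 : (∑ P ∈ T, u P).degree < a.degree := by
      rw [degree_eq_natDegree ha0, ha]; exact hdeg T hT
    rw [natDegree_add_eq_left_of_degree_lt h1, ha]
  have hsum : ∀ T ⊆ R, ∀ Q ∈ R, (Nonsplit (∑ P ∈ T, u P) Q ↔ Q ∈ T) := by
    intro T
    induction T using Finset.induction_on with
    | empty =>
      intro _ Q hQ
      simp only [Finset.sum_empty, Finset.notMem_empty, iff_false]
      intro h
      apply h 0
      simp
    | insert P T hPT ih =>
      intro hT Q hQ
      have hP : P ∈ R := hT (Finset.mem_insert_self _ _)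
      rw [Finset.sum_insert hPT, nonsplit_add (hR Q hQ).2,
        ih (fun x hx => hT (Finset.mem_insert_of_mem hx)) Q hQ, Finset.mem_insert]
      by_cases hQP : Q = P
      · subst hQP
        have := (hu Q hP).2.1
        tauto
      · have := (hu P hP).2.2 Q hQ hQP
        tauto
  have hcardT : 2 ^ R.card = Nat.card R.powerset := by
    rw [Nat.card_eq_fintype_card, Fintype.card_coe, Finset.card_powerset]
  rw [hcardT, ← Nat.card_prod]
  refine Nat.card_eq_of_bijective
    (fun x : R.powerset × {a : k[X] // a.natDegree = m ∧ ∀ P ∈ R, Nonsplit a P} =>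
      (⟨x.2.1 + ∑ P ∈ x.1.1, u P, hnd _ x.2.2.1 _ (Finset.mem_powerset.mp x.1.2)⟩ :
        {a : k[X] // a.natDegree = m})) ⟨?_, ?_⟩
  · rintro ⟨⟨T, hT⟩, ⟨a, ha1, ha2⟩⟩ ⟨⟨T', hT'⟩, ⟨a', ha1', ha2'⟩⟩ h
    have h1 : a + ∑ P ∈ T, u P = a' + ∑ P ∈ T', u P := congrArg Subtype.val h
    have hTT : T = T' := by
      ext Q
      constructor
      · intro hQ
        have hQR := Finset.mem_powerset.mp hT hQ
        by_contra hQ'
        have h2 := (nonsplit_add (hR Q hQR).2 a (∑ P ∈ T, u P))
        have h3 := (nonsplit_add (hR Q hQR).2 a' (∑ P ∈ T', u P))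
        rw [hsum T (Finset.mem_powerset.mp hT) Q hQR] at h2
        rw [hsum T' (Finset.mem_powerset.mp hT') Q hQR, ← h1] at h3
        have := ha2 Q hQR
        have := ha2' Q hQR
        tauto
      · intro hQ
        have hQR := Finset.mem_powerset.mp hT' hQ
        by_contra hQ'
        have h2 := (nonsplit_add (hR Q hQR).2 a (∑ P ∈ T, u P))
        have h3 := (nonsplit_add (hR Q hQR).2 a' (∑ P ∈ T', u P))
        rw [hsum T (Finset.mem_powerset.mp hT) Q hQR] at h2
        rw [hsum T' (Finset.mem_powerset.mp hT') Q hQR, ← h1] at h3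
        have := ha2 Q hQR
        have := ha2' Q hQR
        tauto
    subst hTT
    have h2 : a = a' := add_right_cancel h1
    subst h2
    rfl
  · rintro ⟨c, hc⟩
    set T := R.filter (fun P => ¬ Nonsplit c P) with hT
    have hTR : T ⊆ R := Finset.filter_subset _ _
    refine ⟨⟨⟨T, Finset.mem_powerset.mpr hTR⟩, ⟨c + ∑ P ∈ T, u P, hnd c hc T hTR, ?_⟩⟩, ?_⟩
    · intro Q hQ
      rw [nonsplit_add (hR Q hQ).2, hsum T hTR Q hQ, hT, Finset.mem_filter]
      tauto
    · apply Subtype.ext
      change c + ∑ P ∈ T, u P + ∑ P ∈ T, u P = c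
      rw [add_assoc, CharTwo.add_self_eq_zero, add_zero]

end Count

end Pool.Agent.H2
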