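import Pool.Agent.H2.Natural

/-!
# From the `2`-Selmer group to the `2ⁿ`-Selmer groups
-/

namespace Pool.Agent.H2

open WeierstrassCurve WeierstrassCurve.Affine

universe u

section Maps

variable {K : Type u} [Field K] {E : Affine K}

theorem Pts.map_map {F M N : Type u} [Field F] [Algebra K F] [Field M] [Algebra K M] [Field N]
    [Algebra K N] (f : F →ₐ[K] M) (g : M →ₐ[K] N) (P : Pts E F) :
    Pts.map g (Pts.map f P) = Pts.map (g.comp f) P := by
  classical
  exact Affine.Point.map_map (W' := E) f g P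

theorem Pts.map_inj {F M : Type u} [Field F] [Algebra K F] [Field M] [Algebra K M]
    (f : F →ₐ[K] M) : Function.Injective (Pts.map (E := E) f) := by
  classical
  exact Affine.Point.map_injective (W' := E) (f := f)

/-- points fixed by the Galois group are rational -/
theorem fixed_rational {F M : Type u} [Field F] [Field M] [Algebra K F] [Algebra K M]
    [Algebra F M] [IsGalois F M] (f : F →ₐ[K] M) (hf : ∀ x, f x = algebraMap F M x)
    (R : Pts E M) (h : ∀ (σ : M ≃ₐ[F] M) (g : M →ₐ[K] M), (∀ x, g x = σ x) → Pts.map g R = R) :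
    ∃ R₀ : Pts E F, Pts.map f R₀ = R := by
  classical
  have htow : ∀ (σ : M ≃ₐ[F] M), ∃ g : M →ₐ[K] M, ∀ x, g x = σ x := fun σ =>
    ⟨{ (σ : M →+* M) with
        commutes' := fun r => by
          have h1 : algebraMap K M r = algebraMap F M (algebraMap K F r) := by
            rw [← hf]; exact (f.commutes r).symm
          change σ (algebraMap K M r) = algebraMap K M r
          rw [h1, σ.commutes] }, fun x => rfl⟩
  rcases R with _ | ⟨x, y, hxy⟩
  · exact ⟨Affine.Point.zero, rfl⟩
  · have hfix : ∀ σ : M ≃ₐ[F] M, σ x = x ∧ σ y = y := by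
      intro σ
      obtain ⟨g, hg⟩ := htow σ
      have h1 := h σ g hg
      have h2 : (Affine.Point.map (W' := E) g (Affine.Point.some x y hxy) : (E⁄M).Point)
          = Affine.Point.some x y hxy := h1
      rw [Affine.Point.map_some] at h2
      injection h2 with h3 h4
      rw [hg] at h3 h4
      exact ⟨h3, h4⟩
    obtain ⟨x₀, hx₀⟩ := (InfiniteGalois.mem_range_algebraMap_iff_fixed (k := F) x).mpr
      fun σ => (hfix σ).1
    obtain ⟨y₀, hy₀⟩ := (InfiniteGalois.mem_range_algebraMap_iff_fixed (k := F) y).mpr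
      fun σ => (hfix σ).2
    have hx : f x₀ = x := by rw [hf, hx₀]
    have hy : f y₀ = y := by rw [hf, hy₀]
    have hns : (E⁄F).Nonsingular x₀ y₀ := by
      rw [← E.baseChange_nonsingular f.injective, hx, hy]
      exact hxy
    refine ⟨Affine.Point.some x₀ y₀ hns, ?_⟩
    change Affine.Point.map (W' := E) f (Affine.Point.some x₀ y₀ hns) = Affine.Point.some x y hxy
    rw [Affine.Point.map_some]
    subst hx hy
    rfl

end Maps

section Dev

variable {K : Type u} [Field K] (E : Affine K) (S : Set (AbsoluteValue K ℝ))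

/-- no `2`-torsion implies no `2ⁿ`-torsion -/
theorem no_torsion_pow {G : Type*} [AddCommGroup G] (h : ∀ P : G, 2 • P = 0 → P = 0) (n : ℕ)
    (P : G) (hP : 2 ^ n • P = 0) : P = 0 := by
  induction n with
  | zero => simpa using hP
  | succ n ih =>
    apply ih
    apply h
    rw [← mul_nsmul, ← pow_succ]
    exact hP

/-- **Devissage.** If all classes satisfying the local conditions at the places in `S` modulo `2`
vanish, then also modulo `2ⁿ`. -/
theorem devissage (hE : ∀ P : Pts E (Ks K), 2 • P = 0 → P = 0)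
    (hS : ∀ v ∈ S, ∀ P : Pts E (Ks (Kv v)), 2 • P = 0 → P = 0)
    (h2 : ∀ P : Pts E (Ks K), GaloisFixed 2 P → (∀ v ∈ S, LocallyRational 2 P v) →
      ∃ R, 2 • R = P) (n : ℕ) (P : Pts E (Ks K)) (hG : GaloisFixed (2 ^ n) P)
    (hL : ∀ v ∈ S, LocallyRational (2 ^ n) P v) : ∃ R, 2 ^ n • R = P := by
  have key : ∀ n : ℕ, ∀ P : Pts E (Ks K), GaloisFixed (2 ^ n) P →
      (∀ v ∈ S, LocallyRational (2 ^ n) P v) → ∃ R, 2 ^ n • R = P := by
    intro n
    induction n with
    | zero => exact fun P _ _ => ⟨P, by simp⟩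
    | succ n ih =>
      intro P hG hL
      have hpow : ∀ {G : Type u} [AddCommGroup G] (x : G), 2 ^ (n + 1) • x = 2 • (2 ^ n • x) := by
        intro G _ x
        rw [smul_smul, ← pow_succ']
      obtain ⟨P₁, hP₁⟩ := h2 P
        (fun σ => by
          obtain ⟨R, hR⟩ := hG σ
          exact ⟨2 ^ n • R, by rw [hR, hpow]⟩)
        (fun v hv ι => by
          obtain ⟨Q, R, hR⟩ := hL v hv ι
          exact ⟨Q, 2 ^ n • R, by rw [hR, hpow]⟩)
      obtain ⟨R, hR⟩ := ih P₁
        (fun σ => by
          obtain ⟨R, hR⟩ := hG σ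
          refine ⟨R, ?_⟩
          have h1 : 2 • (Pts.map σ P₁ - (P₁ + 2 ^ n • R)) = 0 := by
            rw [smul_sub, smul_add, ← map_nsmul, hP₁, hR, hpow, sub_self]
          exact sub_eq_zero.mp (hE _ h1))
        (fun v hv ι => by
          obtain ⟨Q, R, hR⟩ := hL v hv ι
          -- the half of `Q`
          have hQ : Pts.map (locMap v) Q = 2 • (Pts.map ι P₁ - 2 ^ n • R) := by
            rw [smul_sub, ← map_nsmul, hP₁, hR, hpow]
            abel
          obtain ⟨Q', hQ'⟩ := fixed_rational (K := K) (E := E) (F := Kv v) (M := Ks (Kv v))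
            (locMap v) (fun x => rfl) (Pts.map ι P₁ - 2 ^ n • R) (by
              intro σ g hg
              have h1 : 2 • (Pts.map g (Pts.map ι P₁ - 2 ^ n • R)
                  - (Pts.map ι P₁ - 2 ^ n • R)) = 0 := by
                rw [smul_sub, ← map_nsmul, ← hQ, Pts.map_map]
                have h2 : g.comp (locMap v) = locMap v := by
                  ext x
                  change g (algebraMap (Kv v) (Ks (Kv v)) x) = algebraMap (Kv v) (Ks (Kv v)) x
                  rw [hg, σ.commutes]
                rw [h2, sub_self]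
              exact sub_eq_zero.mp (hS v hv _ h1))
          refine ⟨Q', R, ?_⟩
          rw [hQ']
          abel)
      exact ⟨R, by rw [hpow, hR, hP₁]⟩
  exact key n P hG hL

/-- the Selmer groups are trivial -/
theorem selmer_trivial (n : ℕ)
    (h : ∀ P ∈ selmerPoints E n, ∃ R, n • R = P) : Subsingleton (SelmerGroup E n) := by
  have h0 : ∀ x : SelmerGroup E n, x = 0 := by
    intro x
    induction x using QuotientAddGroup.induction_on with | H P => ?_
    rw [QuotientAddGroup.eq_zero_iff, AddSubgroup.mem_addSubgroupOf, AddMonoidHom.mem_range]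
    obtain ⟨R, hR⟩ := h P.1 P.2
    exact ⟨R, hR⟩
  exact ⟨fun x y => by rw [h0 x, h0 y]⟩

/-- rational points are divisible -/
theorem rational_div (n : ℕ) (hE : ∀ P : Pts E (Ks K), 2 • P = 0 → P = 0)
    (h : ∀ P : Pts E (Ks K), GaloisFixed (2 ^ n) P → (∀ v ∈ S, LocallyRational (2 ^ n) P v) →
      ∃ R, 2 ^ n • R = P) (P : Pts E K) : ∃ R : Pts E K, 2 ^ n • R = P := by
  let f : K →ₐ[K] Ks K := Algebra.ofId K (Ks K)
  obtain ⟨R, hR⟩ := h (Pts.map f P)
    (fun σ => by
      refine ⟨0, ?_⟩
      rw [Pts.map_map, smul_zero, add_zero]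
      congr 1
      have : σ.comp f = f := Subsingleton.elim _ _
      rw [this])
    (fun v _ ι => by
      refine ⟨Pts.map (Algebra.ofId K (Kv v)) P, 0, ?_⟩
      rw [Pts.map_map, Pts.map_map, smul_zero, add_zero]
      congr 1
      have : ι.comp f = (locMap v).comp (Algebra.ofId K (Kv v)) := Subsingleton.elim _ _
      rw [this])
  obtain ⟨R₀, hR₀⟩ := fixed_rational (K := K) (E := E) (F := K) (M := Ks K) f (fun x => rfl) R (by
    intro σ g _
    have h1 : 2 ^ n • (Pts.map g R - R) = 0 := by
      rw [smul_sub, ← map_nsmul, hR, Pts.map_map]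
      have : g.comp f = f := Subsingleton.elim _ _
      rw [this, sub_self]
    exact sub_eq_zero.mp (no_torsion_pow hE n _ h1))
  refine ⟨R₀, Pts.map_inj f ?_⟩
  rw [map_nsmul, hR₀, hR]

end Dev

end Pool.Agent.H2
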