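import Pool.Agent.H2.ASBound
import Pool.Agent.H2.ASDensity
import Pool.Agent.H2.Devissage

/-!
# Artin-Schreier twists: conclusion
-/

namespace Pool.Agent.H2

open Polynomial IsDedekindDomain WeierstrassCurve WeierstrassCurve.Affine

universe u

section Torsion

theorem no_torsion_two {K : Type u} [Field K] {τ : K} {E : Affine K} (h : TwoBasis τ)
    (hk : E.a₁ * kap h E ≠ 0) {F : Type u} [Field F] [Algebra K F]
    (hF : TwoBasis (algebraMap K F τ)) (P : Pts E F) (hP : 2 • P = 0) : P = 0 := by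
  have hF2 := hF.charP
  have hP' : P + P = 0 := by rw [← two_nsmul]; exact hP
  have hneg : P = -P := eq_neg_of_add_eq_zero_left hP'
  rcases P with _ | ⟨x, y, hxy⟩
  · rfl
  · exfalso
    have h1 : (Affine.Point.some x y hxy : (E⁄F).Point) = -(Affine.Point.some x y hxy) := hneg
    rw [Affine.Point.neg_some] at h1
    have h2 : y = (E⁄F).negY x y := by
      injection h1 with h3 h4
    have hw := w_ne_zero hF (ne_zero_map E h hF hk) hxy.1
    apply hw
    unfold wf
    have h5 : (E⁄F).a₁ * x + (E⁄F).a₃ = 0 := by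
      rw [Affine.negY] at h2
      have h6 : y + y = 0 := CharTwo.add_self_eq_zero y
      linear_combination h2 - h6
    rw [h5, mul_zero]

end Torsion

variable {k : Type u} [Field k] [Finite k] [CharP k 2] {a b : k[X]}

theorem PC_ne_zero (hb : ¬ IsSquare b) : PC b ≠ 0 := by
  intro h
  apply hb
  have h1 := PE_PC b
  rw [h] at h1
  exact ⟨PE b, by rw [← pow_two]; linear_combination h1⟩

/-- the places used -/
def stdPlaces (k : Type u) [Field k] : Set (AbsoluteValue (RatFunc k) ℝ) :=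
  {v | v = infAbv k ∨ ∃ p : HeightOneSpectrum k[X], v = finAbv p}

/-- all the values vanish if there is one prime only -/
theorem half_of_one (hκ : PC b ≠ 0) (ha : Odd a.natDegree) (hab : b.natDegree < a.natDegree)
    {P : k[X]} (hPb : OddAt b P) (hPi : Irreducible P) (hns : Nonsplit a P)
    (h1 : ∀ Q ∈ primesOf a b, Associated Q P) (R : Pts (crv (twc a b)) (Ks (RatFunc k)))
    (hG : GaloisFixed 2 R) (hL : ∀ v ∈ stdPlaces k, LocallyRational 2 R v) :
    ∃ R', 2 • R' = R := by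
  classical
  obtain ⟨Z, hZ, hSV⟩ := exists_SV hκ R hG (fun p => hL _ (Or.inr ⟨p, rfl⟩)) (hL _ (Or.inl rfl))
  have h0 := not_T1 ha hab hPb hPi hns hSV
  obtain ⟨M, hM, -, h3⟩ := SV_data hκ ha hab hPb hPi (∅ : Finset k[X]) (by simp)
    (fun Q hQ => Or.inr (h1 Q hQ)) hSV h0
  rw [Finset.prod_empty, degree_one] at hM
  have hM0 : M = 0 := by
    by_contra hne
    rw [degree_eq_natDegree hne] at hM
    have : M.natDegree < 0 := by exact_mod_cast hM
    omega
  rw [hM0, Finset.prod_empty] at h3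
  have hZ0 : Z = 0 := by
    have : Z ^ 2 = 0 := by linear_combination -h3
    simpa using this
  rw [hZ0, map_zero, map_zero] at hZ
  exact cExt_ker basisX (crv (twc a b)) (hk_crv _ (hk_twc a hκ)) (sepK basisX) _ hZ.symm

theorem sel_zero (hκ : PC b ≠ 0) (ha : Odd a.natDegree) (hab : b.natDegree < a.natDegree)
    {P : k[X]} (hPb : OddAt b P) (hPi : Irreducible P) (hns : Nonsplit a P)
    (h1 : ∀ Q ∈ primesOf a b, Associated Q P) (n : ℕ) :
    Subsingleton (SelmerGroup (crv (twc a b)) (2 ^ n)) ∧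
      ∀ R : Pts (crv (twc a b)) (RatFunc k), ∃ R', 2 ^ n • R' = R := by
  have hE : ∀ R : Pts (crv (twc a b)) (Ks (RatFunc k)), 2 • R = 0 → R = 0 :=
    fun R hR => no_torsion_two basisX (hk_crv _ (hk_twc a hκ)) (sepK basisX) R hR
  have hS : ∀ v ∈ stdPlaces k, ∀ R : Pts (crv (twc a b)) (Ks (Kv v)), 2 • R = 0 → R = 0 := by
    intro v hv R hR
    have hB : TwoBasis (algebraMap (RatFunc k) (Kv v) RatFunc.X) := by
      rcases hv with rfl | ⟨p, rfl⟩
      · exact basis_inf
      · exact (finAbv_good p).comp_basis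
    have hM : TwoBasis (algebraMap (RatFunc k) (Ks (Kv v)) RatFunc.X) := sepK hB
    exact no_torsion_two basisX (hk_crv _ (hk_twc a hκ)) hM R hR
  have h2 := fun R hG hL => half_of_one hκ ha hab hPb hPi hns h1 R hG hL
  have key := devissage (crv (twc a b)) (stdPlaces k) hE hS h2 n
  refine ⟨selmer_trivial _ _ fun R hR => key R hR.1 fun v hv => hR.2 v ?_,
    rational_div _ (stdPlaces k) n hE key⟩
  rcases hv with rfl | ⟨p, rfl⟩
  · exact infAbv_good.nontrivial
  · exact (finAbv_good p).nontrivial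

/-- the bounds in terms of the number of primes -/
theorem sel_bounds (hκ : PC b ≠ 0) (ha : Odd a.natDegree) (hab : b.natDegree < a.natDegree) :
    Finite (SelmerGroup (crv (twc a b)) 2) ∧
    Nat.card (SelmerGroup (crv (twc a b)) 2) ≤ 2 ^ (primesOf a b).ncard ∧
    ((∃ P, Irreducible P ∧ OddAt b P ∧ Nonsplit a P) →
      2 * Nat.card (SelmerGroup (crv (twc a b)) 2) ≤ 2 ^ (primesOf a b).ncard) := by
  classical
  have hb0 : b ≠ 0 := by
    rintro rfl
    apply hκ
    have h1 := PE_PC (0 : k[X])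
    exact poly_uniq (PE 0) (PC 0) h1.symm
  have hfin := primesOf_finite a hb0
  obtain ⟨P, hPm, hPi, hPb⟩ := exists_odd b.natDegree b le_rfl hb0 hκ
  have hPmem : P ∈ primesOf a b := by
    obtain ⟨n, hn, hn1, hn2⟩ := hPb
    exact ⟨hPm, hPi, (dvd_pow_self P hn.pos.ne').trans hn1, Or.inl ⟨n, hn, hn1, hn2⟩⟩
  set T := hfin.toFinset.erase P with hT
  have hTi : ∀ Q ∈ T, Irreducible Q := fun Q hQ =>
    (hfin.mem_toFinset.mp (Finset.mem_of_mem_erase hQ)).2.1
  have hTP : ∀ Q ∈ primesOf a b, Q ∈ T ∨ Associated Q P := by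
    intro Q hQ
    by_cases h : Q = P
    · exact Or.inr (h ▸ Associated.refl _)
    · exact Or.inl (Finset.mem_erase.mpr ⟨h, hfin.mem_toFinset.mpr hQ⟩)
  have hTc : ∀ Q ∈ T, ∀ Q' ∈ T, Q ≠ Q' → IsCoprime Q Q' := by
    intro Q hQ Q' hQ' hne
    have h1 := hfin.mem_toFinset.mp (Finset.mem_of_mem_erase hQ)
    have h2 := hfin.mem_toFinset.mp (Finset.mem_of_mem_erase hQ')
    rw [h1.2.1.coprime_iff_not_dvd]
    intro hd
    exact hne (eq_of_monic_of_associated h1.1 h2.1 (h1.2.1.associated_of_dvd h2.2.1 hd))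
  have hcard : T.card + 1 = (primesOf a b).ncard := by
    rw [hT, Finset.card_erase_add_one (hfin.mem_toFinset.mpr hPmem),
      Set.ncard_eq_toFinset_card _ hfin]
  obtain ⟨h1, h2⟩ := card_le_two hκ ha hab hPb hPi T hTi hTP hTc
  refine ⟨h1, by rw [← hcard]; exact h2, ?_⟩
  rintro ⟨P', hPi', hPb', hns'⟩
  obtain ⟨-, h3⟩ := card_le_one hκ ha hab hPb hPi T hTi hTP hTc
    (fun Z hZ => not_T1 ha hab hPb' hPi' hns' hZ)
  rw [← hcard, pow_succ]
  omega

end Pool.Agent.H2
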