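import Pool.Agent.H2.ASPlace

/-!
# Artin-Schreier twists: from the places to polynomials
-/

namespace Pool.Agent.H2

open Polynomial IsDedekindDomain WeierstrassCurve WeierstrassCurve.Affine

universe u

variable {k : Type u} [Field k] [Finite k] [CharP k 2]

/-- the image of a polynomial in a completion -/
noncomputable abbrev pc (v : AbsoluteValue (RatFunc k) ℝ) (f : k[X]) : v.Completion :=
  algebraMap (RatFunc k) v.Completion (algebraMap k[X] (RatFunc k) f)

omit [Finite k] [CharP k 2] in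
theorem norm_pc (v : AbsoluteValue (RatFunc k) ℝ) (f : k[X]) :
    ‖pc v f‖ = v (algebraMap k[X] (RatFunc k) f) := GoodPlace.norm_algebraMap _

theorem int_of_quad {K : Type u} [Field K] {v : AbsoluteValue K ℝ} {τ : K} (g : GoodPlace v τ 2)
    {w R : v.Completion} (hR : ‖R‖ ≤ 1) (h : ‖w ^ 2 + w - R‖ < 1) : ‖w‖ ≤ 1 := by
  by_contra hw
  rw [not_le] at hw
  have h1 : ‖w ^ 2 + w‖ ≤ 1 := by
    have e : w ^ 2 + w = (w ^ 2 + w - R) + R := by ring
    rw [e]
    exact (g.ultra _ _).trans (max_le h.le hR)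
  have h2 : ‖w‖ < ‖w ^ 2‖ := by
    rw [norm_pow]; nlinarith
  rw [add_comm, norm_add_of_lt g h2, norm_pow] at h1
  nlinarith

/-- approximation of an integral element by a polynomial, finite place -/
theorem approx_fin (P : HeightOneSpectrum k[X]) {w : (finAbv P).Completion} (hw : ‖w‖ ≤ 1) :
    ∃ z : k[X], ‖w - pc (finAbv P) z‖ < 1 := by
  have g := finAbv_good P
  obtain ⟨x, hx1, hx2⟩ := approx_int g hw 1 one_pos le_rfl
  obtain ⟨V₀, hV₀⟩ := P.exists_valuation_sub_lt_of_integer ((finAbv_le_one_iff P x).mp hx1) 1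
  have hV₀' : finAbv P (algebraMap k[X] (RatFunc k) V₀ - x) < 1 := by
    by_contra hc
    rw [not_lt] at hc
    have h1 : finAbv P 1 ≤ finAbv P (algebraMap k[X] (RatFunc k) V₀ - x) := by rwa [map_one]
    rw [finAbv_le_iff, map_one] at h1
    exact absurd hV₀ (not_lt.mpr h1)
  refine ⟨V₀, ?_⟩
  have e : w - pc (finAbv P) V₀
    = (w - algebraMap (RatFunc k) (finAbv P).Completion x)
      + -(algebraMap (RatFunc k) (finAbv P).Completion (algebraMap k[X] (RatFunc k) V₀ - x)) := by
    unfold pc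
    rw [map_sub]; ring
  rw [e]
  refine lt_of_le_of_lt (g.ultra _ _) (max_lt hx2 ?_)
  rw [norm_neg, GoodPlace.norm_algebraMap]
  exact hV₀'

theorem quad_fin (P : HeightOneSpectrum k[X]) {w : (finAbv P).Completion} {f : k[X]}
    (hw : ‖w ^ 2 + w - pc (finAbv P) f‖ < 1) : ∃ z : k[X], z ^ 2 + z + f ∈ P.asIdeal := by
  have g := finAbv_good P
  have hL := g.charP_comp
  have h1 := int_of_quad g (by rw [norm_pc]; exact finAbv_poly P f) hw
  obtain ⟨z, hz⟩ := approx_fin P h1
  refine ⟨z, ?_⟩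
  rw [← finAbv_lt_one, ← norm_pc]
  have e : pc (finAbv P) (z ^ 2 + z + f) = (w - pc (finAbv P) z) ^ 2 + ((w - pc (finAbv P) z)
      + (w ^ 2 + w - pc (finAbv P) f)) := by
    unfold pc
    simp only [map_add, map_pow]
    grind
  rw [e]
  refine lt_of_le_of_lt (g.ultra _ _) (max_lt ?_ (lt_of_le_of_lt (g.ultra _ _) (max_lt hz hw)))
  rw [norm_pow]
  exact pow_lt_one₀ (norm_nonneg _) hz two_ne_zero

omit [Finite k] [CharP k 2] in
/-- approximation by a polynomial at infinity -/
theorem approx_rat (x : RatFunc k) :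
    ∃ q : k[X], infAbv k (x - algebraMap k[X] (RatFunc k) q) < 1 := by
  have hd : x.denom ≠ 0 := x.denom_ne_zero
  have hd' : algebraMap k[X] (RatFunc k) x.denom ≠ 0 := by
    rwa [Ne, FaithfulSMul.algebraMap_eq_zero_iff]
  refine ⟨x.num / x.denom, ?_⟩
  have e : x - algebraMap k[X] (RatFunc k) (x.num / x.denom)
      = algebraMap k[X] (RatFunc k) (x.num % x.denom) / algebraMap k[X] (RatFunc k) x.denom := by
    have h2 := RatFunc.num_div_denom x
    rw [div_eq_iff hd'] at h2
    rw [eq_div_iff hd', sub_mul, ← map_mul, ← h2, ← map_sub]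
    congr 1
    have := EuclideanDomain.mod_add_div x.num x.denom
    rw [sub_eq_iff_eq_add]
    conv_lhs => rw [← this]
    ring
  rw [e, map_div₀]
  by_cases h0 : x.num % x.denom = 0
  · rw [h0, map_zero, map_zero, zero_div]; exact one_pos
  rw [div_lt_one ((infAbv k).pos hd'), infAbv_poly h0, infAbv_poly hd]
  have h1 : (x.num % x.denom).natDegree < x.denom.natDegree := by
    apply natDegree_lt_natDegree h0
    exact EuclideanDomain.mod_lt _ hd
  exact zpow_lt_zpow_right₀ (by norm_num) (by exact_mod_cast h1)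

omit [Finite k] [CharP k 2] in
theorem infAbv_lt_one {f : k[X]} (hf : infAbv k (algebraMap k[X] (RatFunc k) f) < 1) : f = 0 := by
  by_contra h0
  rw [infAbv_poly h0, zpow_natCast] at hf
  have : (1 : ℝ) ≤ 2 ^ f.natDegree := one_le_pow₀ (by norm_num)
  linarith

theorem quad_inf {w : (infAbv k).Completion} {f : k[X]}
    (hw : ‖w ^ 2 + w - pc (infAbv k) f‖ < 1) : ∃ z : k[X], z ^ 2 + z = f := by
  have g := infAbv_good (k := k)
  have hL := g.charP_comp
  obtain ⟨x, hx⟩ := GoodPlace.approx w (one_pos)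
  obtain ⟨z, hz⟩ := approx_rat x
  have hwz : ‖w - pc (infAbv k) z‖ < 1 := by
    have e : w - pc (infAbv k) z = (w - algebraMap (RatFunc k) (infAbv k).Completion x)
      + algebraMap (RatFunc k) (infAbv k).Completion (x - algebraMap k[X] (RatFunc k) z) := by
      unfold pc
      rw [map_sub]; ring
    rw [e]
    refine lt_of_le_of_lt (g.ultra _ _) (max_lt hx ?_)
    rw [GoodPlace.norm_algebraMap]
    exact hz
  refine ⟨z, ?_⟩
  have h1 : z ^ 2 + z + f = 0 := by
    apply infAbv_lt_one
    rw [← norm_pc]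
    have e : pc (infAbv k) (z ^ 2 + z + f) = (w - pc (infAbv k) z) ^ 2 + ((w - pc (infAbv k) z)
        + (w ^ 2 + w - pc (infAbv k) f)) := by
      unfold pc
      simp only [map_add, map_pow]
      grind
    rw [e]
    refine lt_of_le_of_lt (g.ultra _ _) (max_lt ?_ (lt_of_le_of_lt (g.ultra _ _) (max_lt hwz hw)))
    rw [norm_pow]
    exact pow_lt_one₀ (norm_nonneg _) hwz two_ne_zero
  have hK : CharP k[X] 2 := inferInstance
  grind

end Pool.Agent.H2
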