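import Pool.Agent.H2.Glue

/-!
# Artin-Schreier twists `y² + x y = x³ + a x² + b`: the local equations
-/

namespace Pool.Agent.H2

open Polynomial IsDedekindDomain WeierstrassCurve WeierstrassCurve.Affine

universe u

section Gen

variable {K : Type u} [Field K] {τ : K} (h : TwoBasis τ) (E : Affine K)
  (hk : E.a₁ * kap h E ≠ 0)

/-- the value of the descent map at a point with invariant class is rational -/
theorem exists_val' (P : Pts E (Ks K)) (hP : GaloisFixed 2 P) :
    ∃ c : K, algebraMap K (Ks K) c = cExt h E hk (Ks K) (sepK h) P := by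
  have hfix : ∀ σ : Ks K ≃ₐ[K] Ks K,
      σ (cExt h E hk (Ks K) (sepK h) P) = cExt h E hk (Ks K) (sepK h) P := by
    intro σ
    have hR := hP (σ : Ks K →ₐ[K] Ks K)
    have h1 := cExt_map h E hk (sepK h) (sepK h) (σ : Ks K →ₐ[K] Ks K) P
    rw [cExt_congr h E hk (sepK h) hR] at h1
    exact h1.symm
  have h2 := (InfiniteGalois.mem_range_algebraMap_iff_fixed (k := K)
    (cExt h E hk (Ks K) (sepK h) P)).mpr hfix
  obtain ⟨c, hc⟩ := h2
  exact ⟨c, hc⟩

/-- the value comes from a local point -/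
theorem exists_local' (P : Pts E (Ks K))
    {c : K} (hc : algebraMap K (Ks K) c = cExt h E hk (Ks K) (sepK h) P)
    (v : AbsoluteValue K ℝ) (hP : LocallyRational 2 P v)
    (hF : TwoBasis (algebraMap K v.Completion τ)) :
    ∃ Q : Pts E v.Completion,
      algebraMap K v.Completion c = cExt h E hk v.Completion hF Q := by
  have hF' : TwoBasis (algebraMap K (Kv v) τ) := hF
  let ι : Ks K →ₐ[K] Ks (Kv v) := IsSepClosed.lift
  obtain ⟨Q, hQ⟩ := hP ι
  have hM : TwoBasis (algebraMap K (Ks (Kv v)) τ) := sepK hF'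
  refine ⟨Q, ?_⟩
  have h0 := cExt_map h E hk (sepK h) hM ι P
  have h1 := (cExt_congr h E hk hM hQ).symm.trans h0
  have h2 := cExt_map h E hk hF' hM (locMap v) Q
  have h3 := h2.symm.trans h1
  rw [← hc, ι.commutes] at h3
  exact ((algebraMap (Kv v) (Ks (Kv v))).injective h3).symm

end Gen

section Eqs

variable {L : Type*} [Field L] {τ : L} (h : TwoBasis τ)

/-- the equations satisfied by a point of `y² + x y = x³ + a x² + b` -/
theorem pt_eqs {W : Affine L} (h1 : W.a₁ = 1) (h3 : W.a₃ = 0) (h4 : W.a₄ = 0)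
    (hκ : h.C W.a₆ ≠ 0) {x y : L} (hxy : W.Equation x y) :
    x ≠ 0 ∧ (∃ w : L, w ^ 2 + w = x + W.a₂ + W.a₆ / x ^ 2) ∧
      (∃ V : L, V ^ 2 + h.C W.a₆ * V + h.C W.a₆ ^ 2 * (x + W.a₂)
        = cf h W x * (h.E W.a₆ + τ * cf h W x)) ∧
      cf h W x ^ 2 = h.C W.a₆ ^ 4 / x ^ 2 + h.C W.a₆ ^ 2 * (h.D x / x) + W.a₆ * (h.D x / x) ^ 2 := by
  have := h.charP
  have hD : Dd W = W.a₆ := by unfold Dd; rw [h1, h3, h4]; ring
  have hkap : kap h W = h.C W.a₆ := by unfold kap; rw [hD, h3, h1]; ring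
  have hdel : del h W = h.E W.a₆ := by unfold del; rw [hD, h3, h1]; ring
  have hw : wf W x = x := by unfold wf; rw [h1, h3]; ring
  have hk : W.a₁ * kap h W ≠ 0 := by rw [h1, hkap, one_mul]; exact hκ
  have hx : x ≠ 0 := by
    have := w_ne_zero h hk hxy
    rwa [hw] at this
  refine ⟨hx, ⟨y / x, ?_⟩, ?_, ?_⟩
  · have he := (Affine.equation_iff _ _).mp hxy
    rw [h1, h3, h4] at he
    field_simp
    linear_combination he
  · obtain ⟨V, hV⟩ := fund_eq h hk hxy
    rw [hkap, hdel, h1, one_mul] at hV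
    exact ⟨V, hV⟩
  · have h2 := cf_sq h (W := W) x (by rw [hw]; exact hx)
    rw [hw, hkap, h1, one_mul] at h2
    rw [h2, disc_eq h, hD, h1, h3]
    ring

end Eqs

end Pool.Agent.H2
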