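import Pool.Agent.H2.Glue

/-!
# Logarithmic derivatives in characteristic two

The functions `ℓ = e² + X ℓ²` over `k(X)` (the fixed points of the Cartier operator) have simple poles
and are determined by the set of their poles.
-/

namespace Pool.Agent.H2

open Polynomial IsDedekindDomain

universe u

section Good

variable {K : Type u} [Field K] {v : AbsoluteValue K ℝ} {τ : K} (g : GoodPlace v τ 2)
include g

theorem gstar (a b : K) (j : ℤ) (h : v (a ^ 2 + τ * b ^ 2) ≤ (2 : ℝ) ^ (2 * j)) :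
    v a ≤ (2 : ℝ) ^ j ∧ v b ≤ (2 : ℝ) ^ j := by
  obtain ⟨π, hπ⟩ := g.unif
  have hs : v (π ^ j) = (2 : ℝ) ^ (-j) := by
    rw [map_zpow₀, hπ, ← zpow_neg_one, ← zpow_mul, neg_one_mul]
  have h1 : v ((π ^ j * a) ^ 2 + τ * (π ^ j * b) ^ 2) ≤ 1 := by
    have e : (π ^ j * a) ^ 2 + τ * (π ^ j * b) ^ 2 = (π ^ j) ^ 2 * (a ^ 2 + τ * b ^ 2) := by ring
    rw [e, map_mul, map_pow, hs]
    calc ((2 : ℝ) ^ (-j)) ^ 2 * v (a ^ 2 + τ * b ^ 2)
        ≤ ((2 : ℝ) ^ (-j)) ^ 2 * (2 : ℝ) ^ (2 * j) := by gcongr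
      _ = 1 := by
        rw [← zpow_natCast, ← zpow_mul, ← zpow_add₀ two_ne_zero]
        rw [show -j * ((2 : ℕ) : ℤ) + 2 * j = 0 by push_cast; ring, zpow_zero]
  obtain ⟨h2, h3⟩ := g.star _ _ h1
  rw [map_mul, hs] at h2 h3
  have hp : (0 : ℝ) < (2 : ℝ) ^ j := by positivity
  have e : (2 : ℝ) ^ (-j) = ((2 : ℝ) ^ j)⁻¹ := zpow_neg _ _
  rw [e] at h2 h3
  constructor
  · rwa [inv_mul_le_iff₀ hp, mul_one] at h2
  · rwa [inv_mul_le_iff₀ hp, mul_one] at h3

theorem two_exp (x : K) (hx : x ≠ 0) : ∃ n : ℤ, v x = (2 : ℝ) ^ n := g.disc x hx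

end Good

variable {k : Type u} [Field k] [Finite k] [CharP k 2]

theorem pole_le {ℓ e : RatFunc k} (h : ℓ = e ^ 2 + RatFunc.X * ℓ ^ 2)
    (p : HeightOneSpectrum k[X]) : finAbv p ℓ ≤ 2 := by
  by_cases h0 : ℓ = 0
  · rw [h0, map_zero]; norm_num
  obtain ⟨n, hn⟩ := two_exp (finAbv_good p) ℓ h0
  have h1 := (gstar (finAbv_good p) e ℓ ((n + 1) / 2) (by
    rw [← h, hn]
    exact zpow_le_zpow_right₀ (by norm_num) (by omega))).2
  rw [hn] at h1 ⊢
  have h2 := (zpow_le_zpow_iff_right₀ (by norm_num : (1 : ℝ) < 2)).mp h1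
  calc (2 : ℝ) ^ n ≤ (2 : ℝ) ^ (1 : ℤ) := zpow_le_zpow_right₀ (by norm_num) (by omega)
    _ = 2 := zpow_one _

theorem pole_inf {ℓ e : RatFunc k} (h : ℓ = e ^ 2 + RatFunc.X * ℓ ^ 2) :
    infAbv k ℓ * 2 ≤ 1 := by
  by_cases h0 : ℓ = 0
  · rw [h0, map_zero]; norm_num
  obtain ⟨n, hn⟩ := two_exp (infAbv_good (k := k)) ℓ h0
  have hX : (RatFunc.X : RatFunc k) ≠ 0 := RatFunc.X_ne_zero
  have e1 : e ^ 2 + RatFunc.X⁻¹ * (RatFunc.X * ℓ) ^ 2 = ℓ := by
    conv_rhs => rw [h]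
    field_simp
  have h1 := (gstar (infAbv_good (k := k)) e (RatFunc.X * ℓ) ((n + 1) / 2) (by
    rw [e1, hn]
    exact zpow_le_zpow_right₀ (by norm_num) (by omega))).2
  rw [map_mul, infAbv_X, hn] at h1
  have h2 : (2 : ℝ) * (2 : ℝ) ^ n = (2 : ℝ) ^ (n + 1) := by
    rw [zpow_add₀ two_ne_zero, zpow_one]; ring
  rw [h2] at h1
  have h3 := (zpow_le_zpow_iff_right₀ (by norm_num : (1 : ℝ) < 2)).mp h1
  rw [hn, mul_comm, h2]
  exact zpow_le_one_of_nonpos₀ (by norm_num) (by omega)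

/-- a place where a polynomial vanishes -/
theorem finAbv_le_half (p : HeightOneSpectrum k[X]) {Q : k[X]} (hQ : Q ∈ p.asIdeal) :
    finAbv p (algebraMap k[X] (RatFunc k) Q) ≤ 2⁻¹ := by
  rw [← finAbv_lt_one] at hQ
  by_cases h0 : algebraMap k[X] (RatFunc k) Q = 0
  · rw [h0, map_zero]; norm_num
  obtain ⟨n, hn⟩ := two_exp (finAbv_good p) _ h0
  rw [hn] at hQ ⊢
  have h1 : n < 0 := by
    by_contra h2
    have := one_le_zpow₀ (by norm_num : (1 : ℝ) ≤ 2) (not_lt.mp h2)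
    linarith
  calc (2 : ℝ) ^ n ≤ (2 : ℝ) ^ (-1 : ℤ) := zpow_le_zpow_right₀ (by norm_num) (by omega)
    _ = 2⁻¹ := zpow_neg_one 2

/-- the structure of a logarithmic derivative with poles in `T` -/
theorem logder {ℓ e : RatFunc k} (h : ℓ = e ^ 2 + RatFunc.X * ℓ ^ 2) (T : Finset k[X])
    (hT : ∀ Q ∈ T, Irreducible Q)
    (hreg : ∀ p : HeightOneSpectrum k[X], (∀ Q ∈ T, Q ∉ p.asIdeal) → finAbv p ℓ ≤ 1) :
    ∃ M : k[X], algebraMap k[X] (RatFunc k) M = algebraMap k[X] (RatFunc k) (∏ Q ∈ T, Q) * ℓ ∧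
      M.degree < (∏ Q ∈ T, Q).degree ∧ ∀ Q ∈ T, Q ∣ M ∨ Q ∣ M + derivative (∏ Q ∈ T, Q) := by
  have hK : CharP k[X] 2 := inferInstance
  have hK2 : CharP (RatFunc k) 2 := basisX.charP
  set R := ∏ Q ∈ T, Q with hR
  have hR0 : R ≠ 0 := Finset.prod_ne_zero_iff.mpr fun Q hQ => (hT Q hQ).ne_zero
  have hR' : algebraMap k[X] (RatFunc k) R ≠ 0 := by
    rwa [Ne, FaithfulSMul.algebraMap_eq_zero_iff]
  -- `R ℓ` is a polynomial
  obtain ⟨M, hM⟩ : algebraMap k[X] (RatFunc k) R * ℓ ∈ (algebraMap k[X] (RatFunc k)).range := by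
    apply HeightOneSpectrum.mem_integers_of_valuation_le_one
    intro p
    rw [← finAbv_le_one_iff, map_mul]
    by_cases hp : ∀ Q ∈ T, Q ∉ p.asIdeal
    · have h1 := hreg p hp
      have h2 := finAbv_poly p R
      exact mul_le_one₀ h2 ((finAbv p).nonneg _) h1
    · push Not at hp
      obtain ⟨Q, hQ, hQp⟩ := hp
      have h1 : R ∈ p.asIdeal := p.asIdeal.mem_of_dvd (Finset.dvd_prod_of_mem _ hQ) hQp
      have h2 := finAbv_le_half p h1
      have h3 := pole_le h p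
      have h4 := (finAbv p).nonneg ℓ
      have h5 := (finAbv p).nonneg (algebraMap k[X] (RatFunc k) R)
      nlinarith
  have hM0 : ℓ = algebraMap k[X] (RatFunc k) M / algebraMap k[X] (RatFunc k) R := by
    rw [hM]; field_simp
  -- the square
  obtain ⟨N, hN⟩ : algebraMap k[X] (RatFunc k) R * e ∈ (algebraMap k[X] (RatFunc k)).range := by
    apply HeightOneSpectrum.mem_integers_of_valuation_le_one
    intro p
    rw [← finAbv_le_one_iff]
    have h1 : (algebraMap k[X] (RatFunc k) R * e) ^ 2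
        = algebraMap k[X] (RatFunc k) (R * M + X * M ^ 2) := by
      rw [map_add, map_mul, map_mul, map_pow, hM, RatFunc.algebraMap_X]
      linear_combination (-(algebraMap k[X] (RatFunc k) R) ^ 2) * h
        - (RatFunc.X * (algebraMap k[X] (RatFunc k) R * ℓ) ^ 2)
          * (CharTwo.two_eq_zero : (2 : RatFunc k) = 0)
    have h2 : finAbv p (algebraMap k[X] (RatFunc k) R * e) ^ 2 ≤ 1 := by
      rw [← map_pow, h1]; exact finAbv_poly p _
    have h3 := (finAbv p).nonneg (algebraMap k[X] (RatFunc k) R * e)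
    nlinarith
  have hpoly : N ^ 2 = R * M + X * M ^ 2 := by
    apply FaithfulSMul.algebraMap_injective k[X] (RatFunc k)
    rw [map_add, map_mul, map_mul, map_pow, map_pow, hM, hN, RatFunc.algebraMap_X]
    linear_combination (-(algebraMap k[X] (RatFunc k) R) ^ 2) * h
        - (RatFunc.X * (algebraMap k[X] (RatFunc k) R * ℓ) ^ 2)
          * (CharTwo.two_eq_zero : (2 : RatFunc k) = 0)
  have hder : M * (M + derivative R) = R * derivative M := by
    have h1 := congrArg derivative hpoly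
    simp only [derivative_pow, derivative_add, derivative_mul, derivative_X, Nat.cast_ofNat] at h1
    have h2 : (C (2 : k) : k[X]) = 0 := by
      rw [CharTwo.two_eq_zero, C_0]
    grind
  refine ⟨M, hM, ?_, ?_⟩
  · by_cases hM1 : M = 0
    · rw [hM1, degree_zero, bot_lt_iff_ne_bot, Ne, degree_eq_bot]; exact hR0
    · have h1 := pole_inf h
      rw [hM0, map_div₀, infAbv_poly hM1, infAbv_poly hR0] at h1
      have h2 : (2 : ℝ) ^ (M.natDegree : ℤ) / (2 : ℝ) ^ (R.natDegree : ℤ) * 2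
          = (2 : ℝ) ^ ((M.natDegree : ℤ) - R.natDegree + 1) := by
        rw [zpow_add₀ two_ne_zero, zpow_sub₀ two_ne_zero, zpow_one]
      rw [h2] at h1
      have h3 : (M.natDegree : ℤ) - R.natDegree + 1 ≤ 0 := by
        by_contra h4
        have := one_lt_zpow₀ (by norm_num : (1 : ℝ) < 2) (not_le.mp h4)
        linarith
      rw [degree_eq_natDegree hM1, degree_eq_natDegree hR0]
      have h4 : M.natDegree < R.natDegree := by omega
      exact_mod_cast h4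
  · intro Q hQ
    have hQR : Q ∣ R := Finset.dvd_prod_of_mem _ hQ
    have h1 : Q ∣ M * (M + derivative R) := by
      rw [hder]; exact hQR.mul_right _
    exact (hT Q hQ).prime.dvd_or_dvd h1

omit [Finite k] in
/-- a logarithmic derivative is determined by the places where the residue vanishes -/
theorem logder_unique {T : Finset k[X]}
    (hc : ∀ Q ∈ T, ∀ Q' ∈ T, Q ≠ Q' → IsCoprime Q Q') {M M' : k[X]}
    (hM : M.degree < (∏ Q ∈ T, Q).degree) (hM' : M'.degree < (∏ Q ∈ T, Q).degree)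
    (h : ∀ Q ∈ T, Q ∣ M ∨ Q ∣ M + derivative (∏ Q ∈ T, Q))
    (h' : ∀ Q ∈ T, Q ∣ M' ∨ Q ∣ M' + derivative (∏ Q ∈ T, Q))
    (he : ∀ Q ∈ T, Q ∣ M ↔ Q ∣ M') : M = M' := by
  have hK : CharP k[X] 2 := inferInstance
  have h1 : (∏ Q ∈ T, Q) ∣ M - M' := by
    apply Finset.prod_dvd_of_coprime
    · intro Q hQ Q' hQ' hne
      exact hc Q hQ Q' hQ' hne
    · intro Q hQ
      by_cases hd : Q ∣ M
      · exact dvd_sub hd ((he Q hQ).mp hd)
      · have h2 := (h Q hQ).resolve_left hd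
        have h3 := (h' Q hQ).resolve_left (fun h4 => hd ((he Q hQ).mpr h4))
        have h4 := dvd_sub h2 h3
        rwa [add_sub_add_right_eq_sub] at h4
  by_contra hne
  have h2 : M - M' ≠ 0 := sub_ne_zero.mpr hne
  have h3 := degree_le_of_dvd h1 h2
  have h4 : (M - M').degree < (∏ Q ∈ T, Q).degree :=
    lt_of_le_of_lt (degree_sub_le _ _) (max_lt hM hM')
  exact absurd h3 (not_le.mpr h4)

end Pool.Agent.H2
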