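import Pool.Agent.H2.ASSel
import Pool.Agent.H2.LogDer

/-!
# Artin-Schreier twists: the main argument
-/

namespace Pool.Agent.H2

open Polynomial IsDedekindDomain WeierstrassCurve WeierstrassCurve.Affine

universe u

variable {k : Type u} [Field k]

/-- `a` is not of the form `z² + z` modulo `Q` -/
def Nonsplit (a Q : k[X]) : Prop := ∀ z : k[X], ¬ Q ∣ z ^ 2 + z + a

/-- `Q` divides `b` exactly an odd number of times -/
def OddAt (b Q : k[X]) : Prop := ∃ n : ℕ, Odd n ∧ Q ^ n ∣ b ∧ ¬ Q ^ (n + 1) ∣ b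

/-- the primes which contribute to the Selmer group -/
def primesOf (a b : k[X]) : Set k[X] :=
  {Q | Q.Monic ∧ Irreducible Q ∧ Q ∣ b ∧ (OddAt b Q ∨ ¬ Nonsplit a Q)}

theorem primesOf_finite (a : k[X]) {b : k[X]} (hb : b ≠ 0) : (primesOf a b).Finite := by
  classical
  refine (UniqueFactorizationMonoid.normalizedFactors b).toFinset.finite_toSet.subset ?_
  intro Q hQ
  have h1 : normalize Q = Q := hQ.1.normalize_eq_self
  simp only [Finset.mem_coe, Multiset.mem_toFinset]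
  obtain ⟨q, hq, hqa⟩ := UniqueFactorizationMonoid.exists_mem_normalizedFactors_of_dvd hb hQ.2.1
    hQ.2.2.1
  have h2 : q = normalize Q := by
    rw [← UniqueFactorizationMonoid.normalize_normalized_factor q hq]
    exact (normalize_eq_normalize hqa.dvd hqa.symm.dvd).symm
  rw [← h1, ← h2]
  exact hq

/-- the monic generator of a place -/
theorem monic_gen (p : HeightOneSpectrum k[X]) :
    ∃ Q : k[X], Q.Monic ∧ Irreducible Q ∧ p.asIdeal = Ideal.span {Q} := by
  classical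
  obtain ⟨g, hg, hp⟩ := exists_gen p
  refine ⟨normalize g, monic_normalize hg.ne_zero, ?_, ?_⟩
  · exact (normalize_associated g).symm.irreducible hg.irreducible
  · rw [hp]
    exact (Ideal.span_singleton_eq_span_singleton.mpr (normalize_associated g)).symm

theorem mem_gen {p : HeightOneSpectrum k[X]} {Q : k[X]} (hp : p.asIdeal = Ideal.span {Q}) (f : k[X]) :
    f ∈ p.asIdeal ↔ Q ∣ f := by
  rw [hp, Ideal.mem_span_singleton]

theorem place_of {Q : k[X]} (hQ : Irreducible Q) :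
    ∃ p : HeightOneSpectrum k[X], p.asIdeal = Ideal.span {Q} :=
  ⟨⟨Ideal.span {Q}, (Ideal.span_singleton_prime hQ.ne_zero).mpr hQ.prime, by
    rw [Ne, Ideal.span_singleton_eq_bot]; exact hQ.ne_zero⟩, rfl⟩

/-- the absolute value in terms of the multiplicity -/
theorem finAbv_eq_pow {p : HeightOneSpectrum k[X]} {Q : k[X]} (hp : p.asIdeal = Ideal.span {Q})
    {f : k[X]} {n : ℕ} (h1 : Q ^ n ∣ f) (h2 : ¬ Q ^ (n + 1) ∣ f) :
    finAbv p (algebraMap k[X] (RatFunc k) f) = (2 : ℝ) ^ (-(n : ℤ)) := by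
  have h3 := finAbv_pow p f n
  have h4 := finAbv_pow p f (n + 1)
  rw [hp, Ideal.span_singleton_pow, Ideal.mem_span_singleton] at h3 h4
  have hf : f ≠ 0 := by rintro rfl; exact h2 (dvd_zero _)
  obtain ⟨m, hm⟩ := exists_exp p hf
  have h5 := h3.mpr h1
  have h6 := fun h => h2 (h4.mp h)
  rw [hm] at h5 h6 ⊢
  have h7 := (zpow_le_zpow_iff_right₀ (by norm_num : (1 : ℝ) < 2)).mp h5
  have h8 : ¬ -(m : ℤ) ≤ -((n + 1 : ℕ) : ℤ) := fun h =>
    h6 (zpow_le_zpow_right₀ (by norm_num) h)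
  congr 1
  push_cast at h8
  omega

theorem exists_mult {Q f : k[X]} (hQ : Irreducible Q) (hf : f ≠ 0) :
    ∃ n : ℕ, Q ^ n ∣ f ∧ ¬ Q ^ (n + 1) ∣ f := by
  have h := FiniteMultiplicity.of_not_isUnit hQ.not_isUnit hf
  exact ⟨multiplicity Q f, pow_multiplicity_dvd Q f, h.not_pow_dvd_of_multiplicity_lt (by omega)⟩

variable [Finite k] [CharP k 2] {a b : k[X]}

/-- the dichotomy at infinity -/
theorem at_inf (ha : Odd a.natDegree) (hab : b.natDegree < a.natDegree) {f Z : k[X]}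
    (h : LD (infAbv k) basis_inf a b f Z) :
    (∃ z : k[X], z ^ 2 + z = f) ∨ ∃ z : k[X], z ^ 2 + z = f + a := by
  have g := infAbv_good (k := k)
  have ha0 : a ≠ 0 := by rintro rfl; simp at ha
  have hna : ‖pc (infAbv k) a‖ = (2 : ℝ) ^ (a.natDegree : ℤ) := by
    rw [norm_pc, infAbv_poly ha0]
  have hnb : ‖pc (infAbv k) b‖ < ‖pc (infAbv k) a‖ := by
    rw [hna, norm_pc]
    refine lt_of_le_of_lt (infAbv_le le_rfl) ?_
    exact zpow_lt_zpow_right₀ (by norm_num) (by exact_mod_cast hab)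
  obtain ⟨x, w₁, w₂, hx, h2, h1, -⟩ := h
  rcases loc_pole g hx ha hna hnb h2 h1 with ⟨w, hw⟩ | ⟨w, hw⟩
  · exact Or.inl (quad_inf hw)
  · right
    have e : pc (infAbv k) f + pc (infAbv k) a = pc (infAbv k) (f + a) := by
      unfold pc; rw [map_add, map_add]
    rw [e] at hw
    exact quad_inf hw

/-- the condition at a zero of `b` of odd order -/
theorem at_odd {P : k[X]} (hPb : OddAt b P) {p : HeightOneSpectrum k[X]}
    (hp : p.asIdeal = Ideal.span {P}) {f Z : k[X]}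
    (h : LD (finAbv p) (finAbv_good p).comp_basis a b f Z) :
    ∃ z : k[X], P ∣ z ^ 2 + z + f := by
  have g := finAbv_good p
  obtain ⟨n, hn, hn1, hn2⟩ := hPb
  have hnb : ‖pc (finAbv p) b‖ = (2 : ℝ) ^ (-(n : ℤ)) := by
    rw [norm_pc]; exact finAbv_eq_pow hp hn1 hn2
  have hna : ‖pc (finAbv p) a‖ ≤ 1 := by rw [norm_pc]; exact finAbv_poly p a
  obtain ⟨x, w₁, w₂, hx, h2, h1, -⟩ := h
  obtain ⟨z, hz⟩ := quad_fin p (loc_odd g hx hna hn hnb h2 h1)
  exact ⟨z, (mem_gen hp _).mp hz⟩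

/-- the square root of the derivative of `b` at a zero of even order -/
theorem kappa_le {p : HeightOneSpectrum k[X]} {j : ℕ}
    (hb : finAbv p (algebraMap k[X] (RatFunc k) b) = (2 : ℝ) ^ (-((2 * j : ℕ) : ℤ))) :
    finAbv p (algebraMap k[X] (RatFunc k) (PC b)) ≤ (2 : ℝ) ^ (-(j : ℤ)) := by
  have h1 := gstar (finAbv_good p) (algebraMap k[X] (RatFunc k) (PE b))
    (algebraMap k[X] (RatFunc k) (PC b)) (-(j : ℤ)) (by
      rw [← RatFunc.algebraMap_X, ← map_pow, ← map_pow, ← map_mul, ← map_add, ← PE_PC, hb]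
      apply le_of_eq
      congr 1
      push_cast; ring)
  exact h1.2

/-- regularity at the places which do not contribute -/
theorem regular_at (hκ : PC b ≠ 0) {f Z z : k[X]} (hz : z ^ 2 + z = f)
    {p : HeightOneSpectrum k[X]} (hp : ∀ Q ∈ primesOf a b, Q ∉ p.asIdeal)
    (h : LD (finAbv p) (finAbv_good p).comp_basis a b f Z) {ℓ : RatFunc k}
    (hℓ : algebraMap k[X] (RatFunc k) (PC b) ^ 2 * ℓ + algebraMap k[X] (RatFunc k) b * ℓ ^ 2
      = algebraMap k[X] (RatFunc k) Z ^ 2) : finAbv p ℓ ≤ 1 := by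
  have g := finAbv_good p
  have hb0 : b ≠ 0 := by
    rintro rfl
    apply hκ
    have h1 := PE_PC (0 : k[X])
    exact poly_uniq (PE 0) (PC 0) h1.symm
  obtain ⟨Q, hQm, hQi, hpQ⟩ := monic_gen p
  by_cases hQb : Q ∣ b
  · have hnot : Q ∉ primesOf a b := fun hQ => hp Q hQ (by rw [mem_gen hpQ])
    have hns : Nonsplit a Q := by
      by_contra hns
      exact hnot ⟨hQm, hQi, hQb, Or.inr hns⟩
    have hodd : ¬ OddAt b Q := fun ho => hnot ⟨hQm, hQi, hQb, Or.inl ho⟩
    obtain ⟨n, hn1, hn2⟩ := exists_mult hQi hb0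
    have hne : Even n := by
      by_contra hne
      exact hodd ⟨n, Nat.not_even_iff_odd.mp hne, hn1, hn2⟩
    obtain ⟨j, rfl⟩ := hne
    have hvb : finAbv p (algebraMap k[X] (RatFunc k) b) = (2 : ℝ) ^ (-((2 * j : ℕ) : ℤ)) := by
      rw [two_mul]; exact finAbv_eq_pow hpQ hn1 hn2
    have hj : j ≠ 0 := by
      rintro rfl
      apply hn2
      simpa using hQb
    obtain ⟨x, w₁, w₂, hx, h2, h1, h3⟩ := h
    have hL := g.charP_comp
    have hκ' : pc (finAbv p) (PC b) ≠ 0 := by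
      unfold pc
      rw [Ne, map_eq_zero, FaithfulSMul.algebraMap_eq_zero_iff]
      exact hκ
    have hk1 : ‖pc (finAbv p) (PC b)‖ ≤ (2 : ℝ) ^ (-(j : ℤ)) := by
      rw [norm_pc]; exact kappa_le hvb
    rw [← GoodPlace.norm_algebraMap (v := finAbv p)]
    refine loc_even g (a := pc (finAbv p) a) (b := pc (finAbv p) b) (x := x)
      (w := w₁ + pc (finAbv p) z) (Z := pc (finAbv p) Z) (κ := pc (finAbv p) (PC b))
      g.comp_basis (stable_comp g) hx ?_ ?_ ?_ hκ' ?_ ?_ h3 ?_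
    · rw [norm_pc]; exact finAbv_poly p a
    · intro w hw
      obtain ⟨y, hy⟩ := quad_fin p hw
      exact hns y ((mem_gen hpQ _).mp hy)
    · rw [norm_pc, finAbv_lt_one, mem_gen hpQ]; exact hQb
    · rw [norm_pc (f := b), hvb]
      calc ‖pc (finAbv p) (PC b)‖ ^ 2 ≤ ((2 : ℝ) ^ (-(j : ℤ))) ^ 2 :=
            pow_le_pow_left₀ (norm_nonneg _) hk1 2
        _ = (2 : ℝ) ^ (-((2 * j : ℕ) : ℤ)) := by
            rw [← zpow_natCast, ← zpow_mul]
            congr 1
            push_cast; ring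
    · have h4 : pc (finAbv p) f = pc (finAbv p) z ^ 2 + pc (finAbv p) z := by
        rw [← hz]; unfold pc; simp only [map_add, map_pow]
      rw [h4] at h1
      grind
    · have h5 := congrArg (algebraMap (RatFunc k) (finAbv p).Completion) hℓ
      simp only [map_add, map_mul, map_pow] at h5
      exact h5
  · -- `b` is a unit
    have hvb : finAbv p (algebraMap k[X] (RatFunc k) b) = 1 := by
      have h1 := finAbv_eq_pow hpQ (f := b) (n := 0) (by simp) (by simpa using hQb)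
      simpa using h1
    have h1 : algebraMap k[X] (RatFunc k) b * ℓ ^ 2 = algebraMap k[X] (RatFunc k) Z ^ 2
        + -(algebraMap k[X] (RatFunc k) (PC b) ^ 2 * ℓ) := by
      rw [← hℓ]; ring
    have h2 : finAbv p ℓ ^ 2 ≤ max 1 (finAbv p ℓ) := by
      have h3 : finAbv p (algebraMap k[X] (RatFunc k) b * ℓ ^ 2) = finAbv p ℓ ^ 2 := by
        rw [map_mul, hvb, one_mul, map_pow]
      rw [← h3, h1]
      refine (finAbv_nonarch p _ _).trans (max_le_max ?_ ?_)
      · rw [map_pow]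
        exact pow_le_one₀ ((finAbv p).nonneg _) (finAbv_poly p Z)
      · rw [AbsoluteValue.map_neg, map_mul, map_pow]
        have h4 : finAbv p (algebraMap k[X] (RatFunc k) (PC b)) ^ 2 ≤ 1 :=
          pow_le_one₀ ((finAbv p).nonneg _) (finAbv_poly p _)
        have h5 := (finAbv p).nonneg ℓ
        nlinarith
    by_contra h3
    rw [not_le] at h3
    rw [max_eq_right h3.le] at h2
    nlinarith

end Pool.Agent.H2
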