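import Pool.Agent.H2.ASLocal

/-!
# Artin-Schreier twists: analysis at the places
-/

namespace Pool.Agent.H2

open Polynomial IsDedekindDomain WeierstrassCurve WeierstrassCurve.Affine

universe u

section Norms

variable {K : Type u} [Field K] {v : AbsoluteValue K ℝ} {τ : K} (g : GoodPlace v τ 2)
include g

theorem norm_add_of_lt {x y : v.Completion} (h : ‖x‖ < ‖y‖) : ‖x + y‖ = ‖y‖ := by
  have := g.isUltra
  rw [IsUltrametricDist.norm_add_eq_max_of_norm_ne_norm h.ne, max_eq_right h.le]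

/-- a pole of `w² + w` has even order -/
theorem even_pole {w R : v.Completion} (h : w ^ 2 + w = R) (hR : 1 < ‖R‖) :
    1 < ‖w‖ ∧ ‖R‖ = ‖w‖ ^ 2 := by
  have h1 : 1 < ‖w‖ := by
    by_contra h1
    rw [not_lt] at h1
    have h2 : ‖R‖ ≤ 1 := by
      rw [← h]
      refine (g.ultra _ _).trans (max_le ?_ h1)
      rw [norm_pow]
      exact pow_le_one₀ (norm_nonneg _) h1
    linarith
  refine ⟨h1, ?_⟩
  have h2 : ‖w‖ < ‖w ^ 2‖ := by
    rw [norm_pow]; nlinarith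
  rw [← h, add_comm, norm_add_of_lt g h2, norm_pow]

theorem even_exp {w R : v.Completion} (h : w ^ 2 + w = R) {n : ℤ} (hn : ‖R‖ = (2 : ℝ) ^ n)
    (hn0 : 0 < n) : Even n := by
  have hR : 1 < ‖R‖ := by
    rw [hn]; exact one_lt_zpow₀ (by norm_num) hn0
  obtain ⟨h1, h2⟩ := even_pole g h hR
  have hw : w ≠ 0 := by
    rintro rfl
    rw [norm_zero] at h1; linarith
  obtain ⟨j, hj⟩ := g.disc' w hw
  rw [hn, hj, ← zpow_natCast, ← zpow_mul] at h2
  have := zpow_right_injective₀ (by norm_num : (0 : ℝ) < 2) (by norm_num) h2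
  exact ⟨j, by rw [this]; push_cast; ring⟩

/-- a place where `b` has a zero of odd order and `a` is integral -/
theorem loc_odd {a b x f w₁ w₂ : v.Completion} (hx : x ≠ 0) (ha : ‖a‖ ≤ 1) {n : ℕ}
    (hn : Odd n) (hb : ‖b‖ = (2 : ℝ) ^ (-(n : ℤ))) (h2 : w₂ ^ 2 + w₂ = x + a + b / x ^ 2)
    (h1 : w₁ ^ 2 + w₁ = x + a + f) : ‖(w₁ + w₂) ^ 2 + (w₁ + w₂) - f‖ < 1 := by
  have hL := g.charP_comp
  have e : (w₁ + w₂) ^ 2 + (w₁ + w₂) - f = b / x ^ 2 := by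
    have : (w₁ + w₂) ^ 2 + (w₁ + w₂) = (w₁ ^ 2 + w₁) + (w₂ ^ 2 + w₂) := by grind
    rw [this, h1, h2]
    grind
  rw [e]
  obtain ⟨j, hj⟩ := g.disc' x hx
  have hR : ‖b / x ^ 2‖ = (2 : ℝ) ^ (-(n : ℤ) - 2 * j) := by
    rw [norm_div, norm_pow, hb, hj, ← zpow_natCast, ← zpow_mul, ← zpow_sub₀ two_ne_zero]
    congr 1
    push_cast; ring
  by_contra hlt
  rw [not_lt, hR] at hlt
  have h3 : 0 ≤ -(n : ℤ) - 2 * j := by
    by_contra h4
    have : (2 : ℝ) ^ (-(n : ℤ) - 2 * j) < 1 := by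
      have := zpow_lt_zpow_right₀ (by norm_num : (1 : ℝ) < 2) (not_le.mp h4)
      rwa [zpow_zero] at this
    linarith
  obtain ⟨i, hi⟩ := hn
  have h4 : 0 < -(n : ℤ) - 2 * j := by omega
  have hj0 : j < 0 := by omega
  have hx1 : ‖x‖ < 1 := by
    rw [hj]
    have := zpow_lt_zpow_right₀ (by norm_num : (1 : ℝ) < 2) hj0
    rwa [zpow_zero] at this
  have h5 : ‖x + a‖ ≤ 1 := (g.ultra _ _).trans (max_le hx1.le ha)
  have h6 : 1 < ‖b / x ^ 2‖ := by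
    rw [hR]; exact one_lt_zpow₀ (by norm_num) h4
  have h7 : ‖x + a + b / x ^ 2‖ = (2 : ℝ) ^ (-(n : ℤ) - 2 * j) := by
    rw [norm_add_of_lt g (lt_of_le_of_lt h5 h6), hR]
  have h8 := even_exp g h2 h7 h4
  rw [hi] at h8
  obtain ⟨c, hc⟩ := h8
  push_cast at hc
  omega

/-- a place where `a` has a pole of odd order, larger than the one of `b` -/
theorem loc_pole {a b x f w₁ w₂ : v.Completion} (hx : x ≠ 0) {m : ℕ} (hm : Odd m)
    (ha : ‖a‖ = (2 : ℝ) ^ (m : ℤ)) (hb : ‖b‖ < ‖a‖) (h2 : w₂ ^ 2 + w₂ = x + a + b / x ^ 2)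
    (h1 : w₁ ^ 2 + w₁ = x + a + f) :
    (∃ w : v.Completion, ‖w ^ 2 + w - f‖ < 1) ∨ ∃ w : v.Completion, ‖w ^ 2 + w - (f + a)‖ < 1 := by
  have hL := g.charP_comp
  by_cases hx1 : ‖x‖ < 1
  · right
    refine ⟨w₁, ?_⟩
    have : w₁ ^ 2 + w₁ - (f + a) = x := by rw [h1]; grind
    rwa [this]
  rw [not_lt] at hx1
  left
  refine ⟨w₁ + w₂, ?_⟩
  have e : (w₁ + w₂) ^ 2 + (w₁ + w₂) - f = b / x ^ 2 := by
    have : (w₁ + w₂) ^ 2 + (w₁ + w₂) = (w₁ ^ 2 + w₁) + (w₂ ^ 2 + w₂) := by grind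
    rw [this, h1, h2]
    grind
  rw [e]
  by_contra hlt
  rw [not_lt, norm_div, norm_pow, le_div_iff₀ (by positivity), one_mul] at hlt
  have h3 : ‖x‖ ≤ ‖b‖ := by nlinarith
  have h4 : ‖b / x ^ 2‖ ≤ ‖b‖ := by
    rw [norm_div, norm_pow]
    apply div_le_self (norm_nonneg _)
    exact one_le_pow₀ hx1
  have h5 : ‖x + b / x ^ 2‖ < ‖a‖ := lt_of_le_of_lt ((g.ultra _ _).trans (max_le h3 h4)) hb
  have h6 : ‖x + a + b / x ^ 2‖ = (2 : ℝ) ^ (m : ℤ) := by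
    rw [show x + a + b / x ^ 2 = (x + b / x ^ 2) + a by ring, norm_add_of_lt g h5, ha]
  have h7 := even_exp g h2 h6 (by have := hm.pos; omega)
  rw [Int.even_coe_nat] at h7
  exact (Nat.not_even_iff_odd.mpr hm) h7

/-- a place where `b` has a zero of even order and `a` is integral and does not split -/
theorem loc_even {a b x w ℓ Z κ : v.Completion} (hB : TwoBasis (algebraMap K v.Completion τ))
    (hst : Stable hB (cval g)) (hx : x ≠ 0) (ha : ‖a‖ ≤ 1)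
    (hns : ∀ w : v.Completion, ¬ ‖w ^ 2 + w - a‖ < 1) (hb : ‖b‖ < 1) (hκ : κ ≠ 0)
    (hκb : ‖κ‖ ^ 2 ≤ ‖b‖) (hw : w ^ 2 + w = x + a)
    (hZ : Z ^ 2 = κ ^ 4 / x ^ 2 + κ ^ 2 * (hB.D x / x) + b * (hB.D x / x) ^ 2)
    (hℓ : κ ^ 2 * ℓ + b * ℓ ^ 2 = Z ^ 2) : ‖ℓ‖ ≤ 1 := by
  have hL := g.charP_comp
  have hx1 : 1 ≤ ‖x‖ := by
    by_contra h
    rw [not_le] at h
    apply hns w
    rw [hw]
    simpa using h
  have hb0 : b ≠ 0 := by
    rintro rfl
    rw [norm_zero] at hκb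
    have : 0 < ‖κ‖ ^ 2 := by positivity
    linarith
  have hbx : ‖b / x ^ 2‖ < 1 := by
    rw [norm_div, norm_pow]
    refine lt_of_le_of_lt (div_le_self (norm_nonneg _) (one_le_pow₀ hx1)) hb
  -- the logarithmic derivative of `x`
  have hlam : ‖hB.D x / x‖ ≤ 1 := by
    obtain ⟨j, hj⟩ := g.disc' x hx
    have hev : ∃ s : v.Completion, s ≠ 0 ∧ ‖x‖ = ‖s‖ ^ 2 := by
      rcases hx1.eq_or_lt with h | h
      · exact ⟨1, one_ne_zero, by rw [norm_one, one_pow, h]⟩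
      · have h3 : ‖x + a‖ = ‖x‖ := by
          rw [add_comm]; exact norm_add_of_lt g (lt_of_le_of_lt ha h)
        obtain ⟨h4, h5⟩ := even_pole g hw (by rw [h3]; exact h)
        refine ⟨w, ?_, by rw [← h3, h5]⟩
        rintro rfl
        rw [norm_zero] at h4; linarith
    obtain ⟨s, hs, hxs⟩ := hev
    set x₀ := x / s ^ 2 with hx₀
    have hx0n : ‖x₀‖ = 1 := by
      rw [hx₀, norm_div, norm_pow, hxs, div_self]
      positivity
    have hxe : x = s ^ 2 * x₀ := by rw [hx₀]; field_simp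
    have h6 : hB.D x / x = hB.D x₀ / x₀ := by
      have hx₀0 : x₀ ≠ 0 := by
        intro h0; rw [h0, norm_zero] at hx0n; exact zero_ne_one hx0n
      rw [hxe, hB.D_sq_mul]
      field_simp
    have h7 := (hst x₀ ((val_mem_iff g x₀).mpr hx0n.le)).2
    rw [val_mem_iff g] at h7
    rw [h6, norm_div, hx0n, div_one]
    unfold TwoBasis.D
    rw [norm_pow]
    exact pow_le_one₀ (norm_nonneg _) h7
  set lam := hB.D x / x with hlamd
  set μ := ℓ + lam with hμ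
  have hμe : κ ^ 2 * μ + b * μ ^ 2 = κ ^ 4 / x ^ 2 := by
    have h1 : κ ^ 2 * μ + b * μ ^ 2 = (κ ^ 2 * ℓ + b * ℓ ^ 2) + (κ ^ 2 * lam + b * lam ^ 2) := by
      rw [hμ]; grind
    rw [h1, hℓ, hZ]
    grind
  set G := b * μ / κ ^ 2 with hG
  have hGe : G * (G + 1) = b / x ^ 2 := by
    have h1 : G * (G + 1) = b / κ ^ 4 * (κ ^ 2 * μ + b * μ ^ 2) := by
      rw [hG]; field_simp; ring
    rw [h1, hμe]
    field_simp
  have hμG : μ = κ ^ 2 * G / b := by rw [hG]; field_simp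
  have hκ1 : ‖κ‖ ^ 2 / ‖b‖ ≤ 1 := by
    rw [div_le_one (by positivity)]; exact hκb
  have hκx : ‖κ ^ 2 * (b / x ^ 2) / b‖ ≤ 1 := by
    have : κ ^ 2 * (b / x ^ 2) / b = κ ^ 2 / x ^ 2 := by field_simp
    rw [this, norm_div, norm_pow, norm_pow]
    have h1 : ‖κ‖ ^ 2 ≤ 1 := hκb.trans hb.le
    exact (div_le_self (by positivity) (one_le_pow₀ hx1)).trans h1
  have hn : ‖G‖ * ‖G + 1‖ = ‖b / x ^ 2‖ := by rw [← norm_mul, hGe]
  have hμ1 : ‖μ‖ ≤ 1 := by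
    by_cases hG1 : ‖G‖ < 1
    · have h1 : ‖G + 1‖ = 1 := by
        have := norm_add_of_lt g (x := G) (y := 1) (by rw [norm_one]; exact hG1)
        rw [this, norm_one]
      rw [h1, mul_one] at hn
      rw [hμG]
      calc ‖κ ^ 2 * G / b‖ = ‖κ‖ ^ 2 * ‖G‖ / ‖b‖ := by rw [norm_div, norm_mul, norm_pow]
        _ = ‖κ ^ 2 * (b / x ^ 2) / b‖ := by rw [hn, norm_div (κ ^ 2 * _), norm_mul, norm_pow]
        _ ≤ 1 := hκx
    · rw [not_lt] at hG1
      have hG2 : ‖G + 1‖ < 1 := by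
        by_contra h1
        rw [not_lt] at h1
        have : (1 : ℝ) ≤ ‖G‖ * ‖G + 1‖ := by nlinarith
        linarith
      have h1 : ‖G‖ = 1 := by
        have h2 := norm_add_of_lt g (x := G + 1) (y := 1) (by rw [norm_one]; exact hG2)
        have h3 : G + 1 + 1 = G := by grind
        rw [h3, norm_one] at h2
        exact h2
      rw [h1, one_mul] at hn
      have h2 : μ = κ ^ 2 * (G + 1) / b + κ ^ 2 / b := by
        rw [hμG]
        have : κ ^ 2 * (G + 1) / b + κ ^ 2 / b = κ ^ 2 * G / b + (κ ^ 2 / b + κ ^ 2 / b) := by ring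
        rw [this, CharTwo.add_self_eq_zero, add_zero]
      rw [h2]
      refine (g.ultra _ _).trans (max_le ?_ ?_)
      · calc ‖κ ^ 2 * (G + 1) / b‖ = ‖κ‖ ^ 2 * ‖G + 1‖ / ‖b‖ := by
              rw [norm_div, norm_mul, norm_pow]
          _ = ‖κ ^ 2 * (b / x ^ 2) / b‖ := by rw [hn, norm_div (κ ^ 2 * _), norm_mul, norm_pow]
          _ ≤ 1 := hκx
      · rw [norm_div, norm_pow]; exact hκ1
  have hℓe : ℓ = μ + lam := by rw [hμ]; grind
  rw [hℓe]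
  exact (g.ultra _ _).trans (max_le hμ1 hlam)

end Norms

end Pool.Agent.H2
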