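import Pool.Agent.H2.ASGlobal

/-!
# Artin-Schreier twists: the structure of the Selmer classes
-/

namespace Pool.Agent.H2

open Polynomial IsDedekindDomain WeierstrassCurve WeierstrassCurve.Affine

universe u

variable {k : Type u} [Field k]

/-- the equation `y² + x y = x³ + a x² + b` over `k[X]` -/
noncomputable def twc (a b : k[X]) : WeierstrassCurve k[X] := ⟨1, a, 0, 0, b⟩

variable [Finite k] [CharP k 2]

theorem pkap_twc (a b : k[X]) : pkap (twc a b) = PC b := by
  have : PD (twc a b) = b := by unfold PD twc; ring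
  unfold pkap
  rw [this]
  unfold twc
  ring

theorem pdel_twc (a b : k[X]) : pdel (twc a b) = PE b := by
  have : PD (twc a b) = b := by unfold PD twc; ring
  unfold pdel
  rw [this]
  unfold twc
  ring

theorem hk_twc (a : k[X]) {b : k[X]} (hκ : PC b ≠ 0) :
    (twc a b).a₁ * pkap (twc a b) ≠ 0 := by
  rw [pkap_twc]
  change (1 : k[X]) * _ ≠ 0
  rwa [one_mul]

/-- descent value of a point of the twist -/
noncomputable abbrev dv (a : k[X]) {b : k[X]} (hκ : PC b ≠ 0) :
    Pts (crv (twc a b)) (Ks (RatFunc k)) →+ Ks (RatFunc k) :=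
  cExt basisX (crv (twc a b)) (hk_crv _ (hk_twc a hκ)) _ (sepK basisX)

variable {a b : k[X]}

theorem sel_struct (hκ : PC b ≠ 0) (P : Pts (crv (twc a b)) (Ks (RatFunc k)))
    (hG : GaloisFixed 2 P) (hfin : ∀ p, LocallyRational 2 P (finAbv p)) :
    ∃ Z V f : k[X], algebraMap (RatFunc k) (Ks (RatFunc k)) (algebraMap k[X] (RatFunc k) Z)
        = dv a hκ P ∧
      V ^ 2 + PC b * V + PC b ^ 2 * f = Z * (PE b + X * Z) := by
  have hK : CharP k[X] 2 := inferInstance
  have hk := hk_twc a hκ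
  have hsq : Squarefree (twc a b).a₁ := squarefree_one
  obtain ⟨c, hc⟩ := exists_val' basisX (crv (twc a b)) (hk_crv _ hk) P hG
  have hfin : ∀ p : HeightOneSpectrum k[X], finAbv p (c / algebraMap k[X] (RatFunc k) (twc a b).a₁) ≤ 1 ∧
    ∀ m : ℕ, finAbv p (algebraMap k[X] (RatFunc k) (pkap (twc a b))) ≤ (2 : ℝ) ^ (-(m : ℤ)) →
      ∃ V : k[X], finAbv p (algebraMap k[X] (RatFunc k) (V ^ 2 + (twc a b).a₁ * pkap (twc a b) * V)
        - c * (algebraMap k[X] (RatFunc k) (pdel (twc a b)) + RatFunc.X * c))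
          ≤ (2 : ℝ) ^ (-((2 * m : ℕ) : ℤ)) := by
    intro p
    obtain ⟨Q, hQ⟩ := exists_local' basisX (crv (twc a b)) (hk_crv _ hk) P hc (finAbv p)
      (hfin p) (finAbv_good p).comp_basis
    exact cond_fin _ p hsq hk Q c hQ
  have ha1 : (twc a b).a₁ = 1 := rfl
  rw [ha1, map_one] at hfin
  rw [pkap_twc, pdel_twc] at hfin
  simp only [div_one, one_mul] at hfin
  have h1 : c ∈ (algebraMap k[X] (RatFunc k)).range := by
    apply HeightOneSpectrum.mem_integers_of_valuation_le_one
    intro p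
    rw [← finAbv_le_one_iff]
    exact (hfin p).1
  obtain ⟨Z, hZ⟩ := h1
  have hex : ∀ p : HeightOneSpectrum k[X], ∃ m : ℕ,
      finAbv p (algebraMap k[X] (RatFunc k) (PC b)) = (2 : ℝ) ^ (-(m : ℤ)) :=
    fun p => exists_exp p hκ
  choose m hm using hex
  have hV : ∀ p : HeightOneSpectrum k[X], ∃ V : k[X],
      finAbv p (algebraMap k[X] (RatFunc k) (V ^ 2 + PC b * V + Z * (PE b + X * Z)))
        ≤ (2 : ℝ) ^ (-((2 * m p : ℕ) : ℤ)) := by
    intro p
    obtain ⟨V, hV⟩ := (hfin p).2 (m p) (hm p).le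
    refine ⟨V, ?_⟩
    have e : algebraMap k[X] (RatFunc k) (V ^ 2 + PC b * V + Z * (PE b + X * Z))
      = algebraMap k[X] (RatFunc k) (V ^ 2 + PC b * V)
      - c * (algebraMap k[X] (RatFunc k) (PE b) + RatFunc.X * c) := by
      rw [← hZ, ← RatFunc.algebraMap_X, ← map_mul, ← map_add, ← map_mul, ← map_sub]
      congr 1
      rw [CharTwo.sub_eq_add]
    rw [e]
    exact hV
  choose V hV using hV
  have hfinset : {p : HeightOneSpectrum k[X] | p.asIdeal ∣ Ideal.span {PC b}}.Finite :=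
    Ideal.finite_factors (by rwa [Ne, Ideal.zero_eq_bot, Ideal.span_singleton_eq_bot])
  obtain ⟨U, hU⟩ := IsDedekindDomain.exists_forall_sub_mem_ideal (s := hfinset.toFinset)
    (fun p : HeightOneSpectrum k[X] => p.asIdeal) (fun p => m p)
    (fun p _ => p.prime) (fun p _ q _ hpq h => hpq (HeightOneSpectrum.ext h))
    (fun p => V p)
  have hdvd : PC b ^ 2 ∣ U ^ 2 + PC b * U + Z * (PE b + X * Z) := by
    refine dvd_of_finAbv (pow_ne_zero 2 hκ) fun p => ?_
    by_cases hp : p.asIdeal ∣ Ideal.span {PC b}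
    · have h2 := hU p (by simpa using hp)
      rw [← finAbv_pow] at h2
      rw [map_pow, map_pow, hm p]
      have e : U ^ 2 + PC b * U + Z * (PE b + X * Z)
        = (V p ^ 2 + PC b * V p + Z * (PE b + X * Z))
          + ((U - V p) ^ 2 + PC b * (U - V p)) := by grind
      have hsplit : (2 : ℝ) ^ (-((2 * m p : ℕ) : ℤ)) = ((2 : ℝ) ^ (-(m p : ℤ))) ^ 2 := by
        rw [pow_two, ← zpow_add₀ two_ne_zero]; congr 1; push_cast; ring
      have hpos : (0 : ℝ) < (2 : ℝ) ^ (-(m p : ℤ)) := by positivity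
      rw [e, map_add]
      refine (finAbv_nonarch p _ _).trans (max_le ?_ ?_)
      · rw [← hsplit]; exact hV p
      · rw [map_add]
        refine (finAbv_nonarch p _ _).trans (max_le ?_ ?_)
        · rw [map_pow, map_pow]
          exact pow_le_pow_left₀ ((finAbv p).nonneg _) h2 2
        · rw [map_mul, map_mul, hm p, pow_two]
          exact mul_le_mul_of_nonneg_left h2 hpos.le
    · have h3 : ¬ finAbv p (algebraMap k[X] (RatFunc k) (PC b)) < 1 := by
        rw [finAbv_lt_one]
        intro h4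
        apply hp
        rw [Ideal.dvd_iff_le, Ideal.span_singleton_le_iff_mem]
        exact h4
      rw [not_lt] at h3
      rw [map_pow (algebraMap k[X] (RatFunc k)), map_pow]
      refine (finAbv_poly p _).trans (one_le_pow₀ h3)
  obtain ⟨f, hf⟩ := hdvd
  refine ⟨Z, U, f, by rw [hZ]; exact hc, ?_⟩
  rw [← hf]
  grind

/-- the local data of a Selmer class -/
def LD (v : AbsoluteValue (RatFunc k) ℝ)
    (hF : TwoBasis (algebraMap (RatFunc k) v.Completion RatFunc.X)) (a b f Z : k[X]) : Prop :=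
  ∃ x w₁ w₂ : v.Completion, x ≠ 0 ∧ w₂ ^ 2 + w₂ = x + pc v a + pc v b / x ^ 2 ∧
    w₁ ^ 2 + w₁ = x + pc v a + pc v f ∧
    pc v Z ^ 2 = pc v (PC b) ^ 4 / x ^ 2 + pc v (PC b) ^ 2 * (hF.D x / x)
      + pc v b * (hF.D x / x) ^ 2

theorem sel_local (hκ : PC b ≠ 0) (P : Pts (crv (twc a b)) (Ks (RatFunc k)))
    {Z V f : k[X]} (hZ : algebraMap (RatFunc k) (Ks (RatFunc k)) (algebraMap k[X] (RatFunc k) Z)
        = dv a hκ P) (hV : V ^ 2 + PC b * V + PC b ^ 2 * f = Z * (PE b + X * Z))
    (v : AbsoluteValue (RatFunc k) ℝ) (hP : LocallyRational 2 P v)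
    (hF : TwoBasis (algebraMap (RatFunc k) v.Completion RatFunc.X)) :
    Z = 0 ∨ LD v hF a b f Z := by
  classical
  have hk := hk_twc a hκ
  obtain ⟨Q, hQ⟩ := exists_local' basisX (crv (twc a b)) (hk_crv _ hk) P hZ v hP hF
  rcases Q with _ | ⟨x, y, hxy⟩
  · left
    have h1 : algebraMap (RatFunc k) v.Completion (algebraMap k[X] (RatFunc k) Z) = 0 := by
      rw [hQ]; rfl
    rwa [map_eq_zero, FaithfulSMul.algebraMap_eq_zero_iff] at h1
  · right
    have hL := hF.charP
    have hCb : hF.C (pc v b) = pc v (PC b) := by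
      have := map_PC b
      unfold pc
      rw [this]
      exact (basisX.map_C hF (algebraMap (RatFunc k) v.Completion) rfl _).symm
    have hEb : hF.E (pc v b) = pc v (PE b) := by
      have := map_PE b
      unfold pc
      rw [this]
      exact (basisX.map_E hF (algebraMap (RatFunc k) v.Completion) rfl _).symm
    have hW1 : ((crv (twc a b))⁄v.Completion).a₁ = 1 := by
      change algebraMap _ _ (algebraMap _ _ 1) = 1
      rw [map_one, map_one]
    have hW2 : ((crv (twc a b))⁄v.Completion).a₂ = pc v a := rfl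
    have hW3 : ((crv (twc a b))⁄v.Completion).a₃ = 0 := by
      change algebraMap _ _ (algebraMap _ _ 0) = 0
      rw [map_zero, map_zero]
    have hW4 : ((crv (twc a b))⁄v.Completion).a₄ = 0 := by
      change algebraMap _ _ (algebraMap _ _ 0) = 0
      rw [map_zero, map_zero]
    have hW6 : ((crv (twc a b))⁄v.Completion).a₆ = pc v b := rfl
    have hκv : pc v (PC b) ≠ 0 := by
      unfold pc
      rw [Ne, map_eq_zero, FaithfulSMul.algebraMap_eq_zero_iff]
      exact hκ
    obtain ⟨hx, ⟨w₂, hw₂⟩, ⟨V', hV'⟩, hcf⟩ := pt_eqs hF hW1 hW3 hW4 (by rw [hW6, hCb]; exact hκv)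
      hxy.1
    have hZc : cf hF ((crv (twc a b))⁄v.Completion) x = pc v Z := by
      have : pc v Z = cExt basisX (crv (twc a b)) (hk_crv _ hk) v.Completion hF
        (.some x y hxy) := hQ
      rw [this]; rfl
    rw [hW2, hW6] at hw₂
    rw [hW2, hW6, hCb, hEb, hZc] at hV'
    rw [hW6, hCb, hZc] at hcf
    have hVv : pc v V ^ 2 + pc v (PC b) * pc v V + pc v (PC b) ^ 2 * pc v f
        = pc v Z * (pc v (PE b) + algebraMap (RatFunc k) v.Completion RatFunc.X * pc v Z) := by
      have := congrArg (pc v) hV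
      unfold pc at this ⊢
      simpa only [map_add, map_mul, map_pow, RatFunc.algebraMap_X] using this
    refine ⟨x, (V' + pc v V) / pc v (PC b), w₂, hx, hw₂, ?_, hcf⟩
    have h3 := hV'.trans hVv.symm
    set κ := pc v (PC b) with hκd
    field_simp
    grind

end Pool.Agent.H2
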