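import Pool.Agent.H2.BCFinal

/-!
# Extensions in the class
-/

namespace Pool.Agent.H2

open Polynomial IsDedekindDomain

universe u

variable {k k' : Type u} [Field k] [Field k'] [Algebra k k']
variable {S : Finset (HeightOneSpectrum k[X])} {Φ : RatFunc k →+* RatFunc k'}

theorem exists_subst (h : k'[X]) (hh : h.natDegree ≠ 0) :
    ∃ Φ : RatFunc k →+* RatFunc k', Subst Φ h := by
  have hinj : Function.Injective
      ((algebraMap k'[X] (RatFunc k')).comp (aeval h : k[X] →ₐ[k] k'[X]).toRingHom) := by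
    rw [injective_iff_map_eq_zero]
    intro f hf
    have h1 : (aeval h f : k'[X]) = 0 :=
      (FaithfulSMul.algebraMap_eq_zero_iff k'[X] (RatFunc k')).mp hf
    have h2 := natDegree_aeval h f
    rw [h1, natDegree_zero] at h2
    have h3 : f.natDegree = 0 := by
      rcases Nat.mul_eq_zero.mp h2.symm with h4 | h4
      · exact h4
      · exact absurd h4 hh
    obtain ⟨c, rfl⟩ := natDegree_eq_zero.mp h3
    rw [aeval_C, map_eq_zero_iff _ (FaithfulSMul.algebraMap_injective k k'[X])] at h1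
    rw [h1, C_0]
  refine ⟨IsFractionRing.lift hinj, fun f => ?_⟩
  rw [IsFractionRing.lift_algebraMap]
  rfl

theorem deg_f [Finite k] [Finite k'] {h : k'[X]} {Q : HeightOneSpectrum k'[X]}
    {p : HeightOneSpectrum k[X]} (hQ : Above h Q p) :
    (gQ p).natDegree ∣ Module.finrank k k' * (gQ Q).natDegree := by
  have hmax := p.isMaximal
  have hmax' := Q.isMaximal
  let _ : Field (k[X] ⧸ p.asIdeal) := Ideal.Quotient.field _
  let _ : Field (k'[X] ⧸ Q.asIdeal) := Ideal.Quotient.field _
  let _ : Algebra (k[X] ⧸ p.asIdeal) (k'[X] ⧸ Q.asIdeal) := (resMap hQ).toAlgebra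
  have hfin := finite_quot Q
  have hfin' := finite_quot p
  have hkk : Module.Finite k k' := Module.Finite.of_finite
  have hfd : Module.Finite (k[X] ⧸ p.asIdeal) (k'[X] ⧸ Q.asIdeal) := Module.Finite.of_finite
  have hf : Nat.card (k'[X] ⧸ Q.asIdeal)
      = Nat.card (k[X] ⧸ p.asIdeal) ^ Module.finrank (k[X] ⧸ p.asIdeal) (k'[X] ⧸ Q.asIdeal) :=
    Module.natCard_eq_pow_finrank
  have hcard : Nat.card k' = Nat.card k ^ Module.finrank k k' := Module.natCard_eq_pow_finrank
  have hc1 : Nat.card (k[X] ⧸ p.asIdeal) = Nat.card k ^ (gQ p).natDegree := by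
    have := card_quot (gQ_irr p).ne_zero
    rwa [← gQ_span p] at this
  have hc2 : Nat.card (k'[X] ⧸ Q.asIdeal) = Nat.card k' ^ (gQ Q).natDegree := by
    have := card_quot (gQ_irr Q).ne_zero
    rwa [← gQ_span Q] at this
  rw [hc1, hc2, hcard, ← pow_mul, ← pow_mul] at hf
  have h2 := Nat.pow_right_injective (Finite.one_lt_card (α := k)) hf
  rw [h2]
  exact dvd_mul_right _ _

/-- constant extensions of odd degree prime to the degrees of the places in `S` -/
theorem OddExt.const [Finite k] [Finite k'] (hΦ : Subst Φ X) (hn : Odd (Module.finrank k k'))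
    (hS : ∀ p ∈ S, (gQ p).natDegree.Coprime (Module.finrank k k')) :
    OddExt S Φ (X : k'[X]) := by
  refine ⟨hΦ, hn, by rw [natDegree_X]; exact odd_one, ?_⟩
  have key : ∀ p ∈ S, ∀ Q : HeightOneSpectrum k'[X], Above X Q p →
      Q.asIdeal = Ideal.span {(gQ p).map (algebraMap k k')} := by
    intro p hp Q hQ
    have h1 : (gQ p).natDegree ∣ (gQ Q).natDegree :=
      (hS p hp).dvd_of_dvd_mul_left (deg_f hQ)
    have h2 : gQ Q ∣ (gQ p).map (algebraMap k k') := by
      have h3 : gQ p ∈ p.asIdeal := by rw [mem_gen (gQ_span p)]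
      rw [hQ, aeval_comp, comp_X, mem_gen (gQ_span Q)] at h3
      exact h3
    have hm : ((gQ p).map (algebraMap k k')).Monic := (gQ_monic p).map _
    have h4 : (gQ Q).natDegree ≤ (gQ p).natDegree := by
      have := natDegree_le_of_dvd h2 hm.ne_zero
      rwa [natDegree_map] at this
    have h5 : (gQ p).natDegree ≤ (gQ Q).natDegree := Nat.le_of_dvd (gQ_irr Q).natDegree_pos h1
    have h6 : (gQ p).map (algebraMap k k') = gQ Q := by
      apply eq_of_monic_of_dvd_of_natDegree_le (gQ_monic Q) hm h2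
      rw [natDegree_map]
      exact h5
    rw [h6]
    exact gQ_span Q
  intro p hp Q Q' hQ hQ'
  apply HeightOneSpectrum.ext
  rw [key p hp Q hQ, key p hp Q' hQ']

/-- the extensions `k'(X) ⊇ k(X ^ d)` with `d` odd, if `S` contains at most the place `X = 0` -/
theorem OddExt.kummer {d : ℕ} (hΦ : Subst Φ (X ^ d)) (hn : Odd (Module.finrank k k'))
    (hd : Odd d) (hS : ∀ p ∈ S, (X : k[X]) ∈ p.asIdeal) : OddExt S Φ (X ^ d : k'[X]) := by
  refine ⟨hΦ, hn, by rw [natDegree_X_pow]; exact hd, ?_⟩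
  have key : ∀ p ∈ S, ∀ Q : HeightOneSpectrum k'[X], Above (X ^ d) Q p →
      Q.asIdeal = Ideal.span {X} := by
    intro p hp Q hQ
    have h1 := hS p hp
    rw [hQ, aeval_X] at h1
    have h2 : (X : k'[X]) ∈ Q.asIdeal := Q.isPrime.mem_of_pow_mem _ h1
    have h3 : (Ideal.span {(X : k'[X])}).IsMaximal :=
      PrincipalIdealRing.isMaximal_of_irreducible irreducible_X
    symm
    apply h3.eq_of_le Q.isPrime.ne_top
    rw [Ideal.span_le, Set.singleton_subset_iff]
    exact h2
  intro p hp Q Q' hQ hQ'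
  apply HeightOneSpectrum.ext
  rw [key p hp Q hQ, key p hp Q' hQ']

end Pool.Agent.H2
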