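import Pool.Agent.H2.BCMain

/-!
# Trivial Selmer groups over all extensions `k'(X)` of odd degree with inert bad places
-/

namespace Pool.Agent.H2

open Polynomial IsDedekindDomain WeierstrassCurve WeierstrassCurve.Affine

universe u

section

variable {k : Type u} [Field k] [Finite k] [CharP k 2]

theorem MatTwist.C_ne {S : Finset (HeightOneSpectrum k[X])} {b a : RatFunc k} {p₁ : S}
    (G : MatTwist S b a p₁) : (basisX (k := k)).C b ≠ 0 := by
  intro h
  have h1 : om b = 0 := by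
    unfold om
    rw [h, zero_pow two_ne_zero, zero_div]
  have h2 : pl S (om b) = 0 := by
    ext p
    have h3 : pl S (om b) p = 0 := (pl_eq_zero (S := S) (ℓ := om b) (p := p)).mpr (by
      rw [h1, map_zero]; exact zero_le_one)
    rw [h3, Pi.zero_apply]
  have h4 := G.row₁
  rw [h2, Matrix.zero_vecMul, Pi.zero_apply] at h4
  exact zero_ne_one h4

theorem MatTwist.final {S : Finset (HeightOneSpectrum k[X])} {b a : RatFunc k} {p₁ : S}
    (G : MatTwist S b a p₁) :
    Finite (Pts (gcurve a b) (RatFunc k)) ∧ Odd (Nat.card (Pts (gcurve a b) (RatFunc k))) ∧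
      ∀ r : ℕ, Subsingleton (SelmerGroup (gcurve a b) (2 ^ r)) := by
  have hκ := G.C_ne
  have h4 := fun r => G.selmer_zero hκ r
  have hdiv : ∀ R : Pts (gcurve a b) (RatFunc k), ∃ R', 2 • R' = R := by
    intro R
    obtain ⟨R', hR'⟩ := (h4 1).2 R
    exact ⟨R', by rwa [pow_one] at hR'⟩
  have hB : TwoBasis (algebraMap (RatFunc k) (RatFunc k) RatFunc.X) := basisX
  have htor : ∀ R : Pts (gcurve a b) (RatFunc k), 2 • R = 0 → R = 0 :=
    fun R hR => no_torsion_two basisX (hk_gcurve a hκ) hB R hR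
  obtain ⟨h5, h6⟩ := mw_finite G.b_ne hκ hdiv htor
  exact ⟨h5, h6, fun r => (h4 r).1⟩

open scoped Classical in
theorem matTwist_of_crit {b : RatFunc k} (hb : ¬ IsSquare b)
    {S : Finset (HeightOneSpectrum k[X])}
    (hS : ∀ p, p ∉ S → finAbv p b = 1) {m : ℕ} {n : HeightOneSpectrum k[X] → ℕ} (hm : Odd m)
    (hn : ∀ p ∈ S, Odd (n p)) (hbm : infAbv k b < 2 ^ m) (hbn : ∀ p ∈ S, finAbv p b < 2 ^ n p)
    {a : RatFunc k} (ha : a ∈ twists S m n) (hcrit : Lam S a ∈ critM (pl S (om b))) :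
    ∃ p₁ : S, MatTwist S b a p₁ := by
  classical
  have hb0 : b ≠ 0 := by rintro rfl; exact hb ⟨0, by simp⟩
  unfold critM at hcrit
  rw [Finset.mem_filter, mem_invM] at hcrit
  obtain ⟨hdet, p₁, hp₁⟩ := hcrit
  obtain ⟨h1, h2, h3⟩ := ha
  exact ⟨p₁,
    { b_ne := hb0
      bS := hS
      aS := h3
      inf := ⟨m, hm, by rw [h1, zpow_natCast], by rw [h1]; exact hbm⟩
      fin := fun p hp => ⟨n p, hn p hp, by rw [h2 p hp, zpow_natCast], by
        rw [h2 p hp]; exact hbn p hp⟩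
      inj := fun x hx => by
        have h4 : Matrix.mulVec (Lam S a)⁻¹ (Matrix.mulVec (Lam S a) x) = 0 := by
          rw [hx, Matrix.mulVec_zero]
        rwa [Matrix.mulVec_mulVec, Matrix.nonsing_inv_mul _ hdet, Matrix.one_mulVec] at h4
      inj' := fun x hx => by
        have h4 : Matrix.vecMul (Matrix.vecMul x (Lam S a)) (Lam S a)⁻¹ = 0 := by
          rw [hx, Matrix.zero_vecMul]
        rwa [Matrix.vecMul_vecMul, Matrix.mul_nonsing_inv _ hdet, Matrix.vecMul_one] at h4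
      row := fun p hp => by rw [hp₁, Pi.single_eq_of_ne hp]
      row₁ := by rw [hp₁, Pi.single_eq_same] }⟩

end

section

variable {k : Type u} [Field k] [Finite k] [CharP k 2]

/-- `E'` has finitely many, and an odd number of, rational points and trivial `2ˢ`-Selmer groups;
`E` has finitely many rational points. -/
theorem all_ext {S : Finset (HeightOneSpectrum k[X])} {β a : RatFunc k} {p₁ : S}
    (G : MatTwist S β a p₁) (r : ℕ) (k' : Type u) [Field k'] [Finite k'] [Algebra k k']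
    (Φ : RatFunc k →+* RatFunc k') (h : k'[X]) (H : OddExt S Φ h) :
    Finite (Pts (gcurve (Φ a) (Φ (β ^ 2 ^ r))) (RatFunc k')) ∧
      Finite (Pts (gcurve (Φ a) (Φ β)) (RatFunc k')) ∧
      Odd (Nat.card (Pts (gcurve (Φ a) (Φ β)) (RatFunc k'))) ∧
      ∀ s : ℕ, Subsingleton (SelmerGroup (gcurve (Φ a) (Φ β)) (2 ^ s)) := by
  have hchar : CharP k' 2 := charP_of_injective_ringHom (algebraMap k k').injective 2
  have hfin : Module.Finite k k' := Module.Finite.of_finite
  obtain ⟨S', p₁', G'⟩ := G.up H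
  obtain ⟨h1, h2, h3⟩ := G'.final
  refine ⟨?_, h1, h2, h3⟩
  rw [map_pow]
  exact finite_frob_pow G'.b_ne h1 r

/-- **Main theorem.** -/
theorem ext_all (b : RatFunc k) (hb : ∀ c : k, b ≠ RatFunc.C c)
    (S : Finset (HeightOneSpectrum k[X])) (hS : ∀ p, p ∉ S → finAbv p b = 1) :
    ∃ (β : RatFunc k) (r : ℕ), b = β ^ 2 ^ r ∧ 0 < S.card ∧
      ∃ M : ℕ, ∀ (m : ℕ) (n : HeightOneSpectrum k[X] → ℕ),
      M ≤ m → Odd m → (∀ p ∈ S, M ≤ n p ∧ Odd (n p)) →
      (asClass '' twists S m n).Finite ∧ (asClass '' twists S m n).Nonempty ∧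
      S.card * (∏ i ∈ Finset.Ico 1 S.card, (2 ^ S.card - 2 ^ i)) *
          (asClass '' twists S m n).ncard ≤
        2 ^ (S.card ^ 2) * (asClass '' {a ∈ twists S m n |
          ∀ (k' : Type u) [Field k'] [Finite k'] [Algebra k k'] (Φ : RatFunc k →+* RatFunc k')
            (h : k'[X]), OddExt S Φ h →
          Finite (Pts (gcurve (Φ a) (Φ b)) (RatFunc k')) ∧
          Finite (Pts (gcurve (Φ a) (Φ β)) (RatFunc k')) ∧
          Odd (Nat.card (Pts (gcurve (Φ a) (Φ β)) (RatFunc k'))) ∧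
          ∀ s : ℕ, Subsingleton (SelmerGroup (gcurve (Φ a) (Φ β)) (2 ^ s))}).ncard := by
  classical
  obtain ⟨β, r, hβ, hβ2⟩ := exists_root b hb
  have hβ0 : β ≠ 0 := by rintro rfl; exact hβ2 ⟨0, by simp⟩
  have hSβ : ∀ p, p ∉ S → finAbv p β = 1 := by
    intro p hp
    have h1 := hS p hp
    rw [hβ, map_pow] at h1
    exact (pow_eq_one_iff_of_nonneg ((finAbv p).nonneg _) (by positivity)).mp h1
  obtain ⟨hcard, hcrit⟩ := count_crit hβ2 hSβ
  obtain ⟨M, hM, heq⟩ := equidist_class (k := k) S (infAbv k β + ∑ p ∈ S, finAbv p β)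
  have hsum : 0 ≤ ∑ p ∈ S, finAbv p β := Finset.sum_nonneg fun p _ => (finAbv p).nonneg _
  refine ⟨β, r, hβ, hcard, M, fun m n hm hmo hn => ?_⟩
  have hfin := twists_finite S m n
  refine ⟨hfin.image _, (twists_nonempty S hmo.pos (fun p hp => (hn p hp).2.pos)).image _, ?_⟩
  have hsub : {a ∈ twists S m n | Lam S a ∈ critM (pl S (om β))} ⊆ {a ∈ twists S m n |
          ∀ (k' : Type u) [Field k'] [Finite k'] [Algebra k k'] (Φ : RatFunc k →+* RatFunc k')
            (h : k'[X]), OddExt S Φ h →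
          Finite (Pts (gcurve (Φ a) (Φ b)) (RatFunc k')) ∧
          Finite (Pts (gcurve (Φ a) (Φ β)) (RatFunc k')) ∧
          Odd (Nat.card (Pts (gcurve (Φ a) (Φ β)) (RatFunc k'))) ∧
          ∀ s : ℕ, Subsingleton (SelmerGroup (gcurve (Φ a) (Φ β)) (2 ^ s))} := by
    rintro a ⟨ha, hcrit⟩
    refine ⟨ha, ?_⟩
    obtain ⟨p₁, G⟩ := matTwist_of_crit hβ2 hSβ hmo (fun p hp => (hn p hp).2) (by
        have h3 : (2 : ℝ) ^ M ≤ 2 ^ m := pow_le_pow_right₀ (by norm_num) hm
        linarith) (fun p hp => by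
        have h3 : (2 : ℝ) ^ M ≤ 2 ^ n p := pow_le_pow_right₀ (by norm_num) (hn p hp).1
        have h4 := Finset.single_le_sum (fun q _ => (finAbv q).nonneg β) hp
        have h5 := (infAbv k).nonneg β
        linarith) ha hcrit
    intro k' _ _ _ Φ h H
    have := all_ext G r k' Φ h H
    rwa [← hβ] at this
  have h6 := Set.ncard_le_ncard (Set.image_mono (f := asClass) hsub)
    ((hfin.subset fun a ha => ha.1).image _)
  have h1 := heq m n hm (fun p hp => (hn p hp).1) (critM (pl S (om β)))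
  rw [hcrit] at h1
  rw [← h1]
  exact Nat.mul_le_mul_left _ h6

end

end Pool.Agent.H2
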