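import Pool.Agent.H2.GFrob

/-!
# Counting classes of twists
-/

namespace Pool.Agent.H2

open Polynomial IsDedekindDomain WeierstrassCurve WeierstrassCurve.Affine

universe u

variable {k : Type u} [Field k]

/-- The class of `a` modulo the elements `z² + z`, that is, the set of all `a'` such that
`K(℘⁻¹(a')) = K(℘⁻¹(a))`. -/
def asClass (a : RatFunc k) : Set (RatFunc k) := {a' | ∃ z : RatFunc k, a' = a + (z ^ 2 + z)}

theorem asClass_shift (v a : RatFunc k) : (fun x => v + x) '' asClass a = asClass (v + a) := by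
  ext x
  constructor
  · rintro ⟨y, ⟨z, rfl⟩, rfl⟩
    exact ⟨z, by ring⟩
  · rintro ⟨z, rfl⟩
    exact ⟨a + (z ^ 2 + z), ⟨z, rfl⟩, by ring⟩

variable [Finite k] [CharP k 2]

theorem TT_wp (p : HeightOneSpectrum k[X]) (z : RatFunc k) : TT p (z ^ 2 + z) = 0 := by
  have hK2 : CharP (RatFunc k) 2 := basisX.charP
  rw [TT_eq_zero]
  intro h
  apply h z
  rw [CharTwo.add_self_eq_zero, map_zero]
  exact one_pos

theorem Lam_wp (S : Finset (HeightOneSpectrum k[X])) (z : RatFunc k) : Lam S (z ^ 2 + z) = 0 := by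
  have hK2 : CharP (RatFunc k) 2 := basisX.charP
  ext p q
  rw [Matrix.zero_apply]
  unfold Lam
  split_ifs with h
  · have e : z ^ 2 + z - pp p.1 (z ^ 2 + z) = (z - pp p.1 z) ^ 2 + (z - pp p.1 z) := by
      rw [pp_add, pp_sq, CharTwo.sub_eq_add, CharTwo.sub_eq_add, wp_add]
    rw [e, TT_wp]
  · rw [pp_add, pp_sq, TT_wp]

theorem Lam_class (S : Finset (HeightOneSpectrum k[X])) {a a' : RatFunc k}
    (h : asClass a = asClass a') : Lam S a = Lam S a' := by
  have h1 : a ∈ asClass a := ⟨0, by ring⟩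
  rw [h] at h1
  obtain ⟨z, hz⟩ := h1
  rw [hz, Lam_add, Lam_wp, add_zero]

open scoped Classical in
/-- **Equidistribution of the classes.** -/
theorem equidist_class (S : Finset (HeightOneSpectrum k[X])) (C : ℝ) :
    ∃ M : ℕ, C < 2 ^ M ∧ ∀ (m : ℕ) (n : HeightOneSpectrum k[X] → ℕ), M ≤ m → (∀ p ∈ S, M ≤ n p) →
      ∀ T : Finset (Matrix S S (ZMod 2)),
        2 ^ (S.card ^ 2) * (asClass '' {a ∈ twists S m n | Lam S a ∈ T}).ncard
          = T.card * (asClass '' twists S m n).ncard := by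
  obtain ⟨v, M, hM, hv⟩ := exists_shift S C
  refine ⟨M, hM, fun m n hm hn => ?_⟩
  set F := (twists_finite S m n).toFinset with hF
  have hmemF : ∀ a, a ∈ F ↔ a ∈ twists S m n := fun a => (twists_finite S m n).mem_toFinset
  set c : Matrix S S (ZMod 2) → ℕ := fun L => ((F.filter fun a => Lam S a = L).image asClass).card
    with hc
  have hle : ∀ L L' : Matrix S S (ZMod 2), c L ≤ c L' := by
    intro L L'
    obtain ⟨h1, h2, h3, h4⟩ := hv (L' - L)
    apply Finset.card_le_card_of_injOn (fun D => (fun x => v (L' - L) + x) '' D)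
    · intro D hD
      rw [Finset.mem_coe, Finset.mem_image] at hD ⊢
      obtain ⟨a, ha, rfl⟩ := hD
      rw [Finset.mem_filter, hmemF] at ha
      refine ⟨v (L' - L) + a, ?_, (asClass_shift _ _).symm⟩
      rw [Finset.mem_filter, hmemF]
      refine ⟨twists_add ha.1 (h3.trans_le ?_) (fun p hp => (h4 p hp).trans_le ?_) h2, ?_⟩
      · exact pow_le_pow_right₀ (by norm_num) hm
      · exact pow_le_pow_right₀ (by norm_num) (hn p hp)
      · rw [Lam_add, h1, ha.2, sub_add_cancel]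
    · intro D _ D' _ h
      exact Set.image_injective.mpr (add_right_injective (v (L' - L))) h
  have heq : ∀ L, c L = c 0 := fun L => le_antisymm (hle _ _) (hle _ _)
  have hcard : ∀ T : Finset (Matrix S S (ZMod 2)),
      (asClass '' {a ∈ twists S m n | Lam S a ∈ T}).ncard = T.card * c 0 := by
    intro T
    have h1 : asClass '' {a ∈ twists S m n | Lam S a ∈ T}
        = ((T.biUnion fun L => (F.filter fun a => Lam S a = L).image asClass :
          Finset (Set (RatFunc k))) : Set (Set (RatFunc k))) := by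
      ext D
      rw [Finset.mem_coe, Finset.mem_biUnion]
      constructor
      · rintro ⟨a, ⟨ha, haT⟩, rfl⟩
        exact ⟨Lam S a, haT, Finset.mem_image.mpr ⟨a, Finset.mem_filter.mpr
          ⟨(hmemF a).mpr ha, rfl⟩, rfl⟩⟩
      · rintro ⟨L, hL, hD⟩
        rw [Finset.mem_image] at hD
        obtain ⟨a, ha, rfl⟩ := hD
        rw [Finset.mem_filter, hmemF] at ha
        exact ⟨a, ⟨ha.1, by rw [ha.2]; exact hL⟩, rfl⟩
    rw [h1, Set.ncard_coe_finset, Finset.card_biUnion]
    · rw [Finset.sum_congr rfl (fun L _ => heq L), Finset.sum_const, smul_eq_mul]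
    · intro L _ L' _ hLL
      rw [Function.onFun, Finset.disjoint_left]
      intro D hD hD'
      rw [Finset.mem_image] at hD hD'
      obtain ⟨a, ha, rfl⟩ := hD
      obtain ⟨a', ha', haa⟩ := hD'
      rw [Finset.mem_filter] at ha ha'
      apply hLL
      rw [← ha.2, ← ha'.2]
      exact Lam_class S haa.symm
  intro T
  have h2 := hcard Finset.univ
  have h3 : {a ∈ twists S m n | Lam S a ∈ (Finset.univ : Finset (Matrix S S (ZMod 2)))}
      = twists S m n := by
    ext a
    constructor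
    · rintro ⟨h, -⟩; exact h
    · intro h; exact ⟨h, Finset.mem_univ _⟩
  have h4 : (Finset.univ : Finset (Matrix S S (ZMod 2))).card = 2 ^ (S.card ^ 2) := by
    rw [Finset.card_univ]
    have : Fintype.card (Matrix S S (ZMod 2)) = Fintype.card (S → S → ZMod 2) := rfl
    rw [this, Fintype.card_fun, Fintype.card_fun, ZMod.card, Fintype.card_coe, ← pow_mul, pow_two]
  rw [h3, h4] at h2
  rw [hcard T, h2]
  ring

theorem class_twists {b : RatFunc k} (hb : ¬ IsSquare b)
    {S : Finset (HeightOneSpectrum k[X])} (hS : ∀ p, p ∉ S → finAbv p b = 1) :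
    0 < S.card ∧ ∃ M : ℕ, ∀ (m : ℕ) (n : HeightOneSpectrum k[X] → ℕ),
      M ≤ m → Odd m → (∀ p ∈ S, M ≤ n p ∧ Odd (n p)) →
      (asClass '' twists S m n).Finite ∧ (asClass '' twists S m n).Nonempty ∧
      S.card * (∏ i ∈ Finset.Ico 1 S.card, (2 ^ S.card - 2 ^ i)) *
          (asClass '' twists S m n).ncard ≤
        2 ^ (S.card ^ 2) * (asClass '' {a ∈ twists S m n |
          Finite (Pts (gcurve a b) (RatFunc k)) ∧ Odd (Nat.card (Pts (gcurve a b) (RatFunc k))) ∧
          ∀ r : ℕ, Subsingleton (SelmerGroup (gcurve a b) (2 ^ r))}).ncard := by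
  classical
  have hb0 : b ≠ 0 := by rintro rfl; exact hb ⟨0, by simp⟩
  obtain ⟨hcard, hcrit⟩ := count_crit hb hS
  refine ⟨hcard, ?_⟩
  obtain ⟨M, hM, heq⟩ := equidist_class (k := k) S (infAbv k b + ∑ p ∈ S, finAbv p b)
  have hsum : 0 ≤ ∑ p ∈ S, finAbv p b := Finset.sum_nonneg fun p _ => (finAbv p).nonneg _
  refine ⟨M, fun m n hm hmo hn => ?_⟩
  have hfin := twists_finite S m n
  refine ⟨hfin.image _, (twists_nonempty S hmo.pos (fun p hp => (hn p hp).2.pos)).image _, ?_⟩
  have hsub : {a ∈ twists S m n | Lam S a ∈ critM (pl S (om b))} ⊆ {a ∈ twists S m n |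
          Finite (Pts (gcurve a b) (RatFunc k)) ∧ Odd (Nat.card (Pts (gcurve a b) (RatFunc k))) ∧
          ∀ r : ℕ, Subsingleton (SelmerGroup (gcurve a b) (2 ^ r))} := by
    rintro a ⟨ha, hcrit⟩
    refine ⟨ha, good_of_crit hb hS hmo (fun p hp => (hn p hp).2) ?_ (fun p hp => ?_) ha hcrit⟩
    · have h3 : (2 : ℝ) ^ M ≤ 2 ^ m := pow_le_pow_right₀ (by norm_num) hm
      linarith
    · have h3 : (2 : ℝ) ^ M ≤ 2 ^ n p := pow_le_pow_right₀ (by norm_num) (hn p hp).1
      have h4 := Finset.single_le_sum (fun q _ => (finAbv q).nonneg b) hp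
      have h5 := (infAbv k).nonneg b
      linarith
  have h6 := Set.ncard_le_ncard (Set.image_mono (f := asClass) hsub)
    ((hfin.subset fun a ha => ha.1).image _)
  have h1 := heq m n hm (fun p hp => (hn p hp).1) (critM (pl S (om b)))
  rw [hcrit] at h1
  rw [← h1]
  exact Nat.mul_le_mul_left _ h6

/-- **Main theorem.** -/
theorem class_all (b : RatFunc k) (hb : ∀ c : k, b ≠ RatFunc.C c)
    (S : Finset (HeightOneSpectrum k[X])) (hS : ∀ p, p ∉ S → finAbv p b = 1) :
    ∃ (β : RatFunc k) (r : ℕ), b = β ^ 2 ^ r ∧ 0 < S.card ∧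
      ∃ M : ℕ, ∀ (m : ℕ) (n : HeightOneSpectrum k[X] → ℕ),
      M ≤ m → Odd m → (∀ p ∈ S, M ≤ n p ∧ Odd (n p)) →
      (asClass '' twists S m n).Finite ∧ (asClass '' twists S m n).Nonempty ∧
      S.card * (∏ i ∈ Finset.Ico 1 S.card, (2 ^ S.card - 2 ^ i)) *
          (asClass '' twists S m n).ncard ≤
        2 ^ (S.card ^ 2) * (asClass '' {a ∈ twists S m n |
          Finite (Pts (gcurve a b) (RatFunc k)) ∧
          Finite (Pts (gcurve a β) (RatFunc k)) ∧ Odd (Nat.card (Pts (gcurve a β) (RatFunc k))) ∧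
          ∀ s : ℕ, Subsingleton (SelmerGroup (gcurve a β) (2 ^ s))}).ncard := by
  obtain ⟨β, r, hβ, hβ2⟩ := exists_root b hb
  have hβ0 : β ≠ 0 := by rintro rfl; exact hβ2 ⟨0, by simp⟩
  have hSβ : ∀ p, p ∉ S → finAbv p β = 1 := by
    intro p hp
    have h1 := hS p hp
    rw [hβ, map_pow] at h1
    exact (pow_eq_one_iff_of_nonneg ((finAbv p).nonneg _) (by positivity)).mp h1
  obtain ⟨h1, M, h2⟩ := class_twists hβ2 hSβ
  refine ⟨β, r, hβ, h1, M, fun m n hm hmo hn => ?_⟩
  obtain ⟨h3, h4, h5⟩ := h2 m n hm hmo hn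
  refine ⟨h3, h4, h5.trans (Nat.mul_le_mul_left _ (Set.ncard_le_ncard (Set.image_mono ?_)
    (((twists_finite S m n).subset fun a ha => ha.1).image _)))⟩
  rintro a ⟨ha, h6, h7⟩
  refine ⟨ha, ?_, h6, h7⟩
  rw [hβ]
  exact finite_frob_pow hβ0 h6 r

end Pool.Agent.H2
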