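import Pool.Agent.H2.WFin
import Pool.Agent.H2.GClass

/-!
# The proportion of the twists satisfying the refined criterion
-/

namespace Pool.Agent.H2

open Polynomial IsDedekindDomain WeierstrassCurve WeierstrassCurve.Affine

universe u

variable {k : Type u} [Field k] [Finite k] [CharP k 2]

section Key

variable (S Z : Finset (HeightOneSpectrum k[X]))

/-- the matrix and the classes at `Z` -/
noncomputable def kz (a : RatFunc k) : Matrix S S (ZMod 2) × (Z → ZMod 2) :=
  (Lam S a, fun q => TT q.1 a)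

variable {S Z}

theorem kz_add {a a' : RatFunc k} (h : ∀ q ∈ Z, finAbv q a ≤ 1) (h' : ∀ q ∈ Z, finAbv q a' ≤ 1) :
    kz S Z (a + a') = kz S Z a + kz S Z a' := by
  unfold kz
  ext1
  · exact Lam_add S a a'
  · funext q
    exact TT_add (h q.1 q.2) (h' q.1 q.2)

theorem kz_class {a a' : RatFunc k} (h : ∀ q ∈ Z, finAbv q a ≤ 1) (h' : ∀ q ∈ Z, finAbv q a' ≤ 1)
    (hc : asClass a = asClass a') : kz S Z a = kz S Z a' := by
  have hK2 : CharP (RatFunc k) 2 := basisX.charP
  have h1 : a' ∈ asClass a := by rw [hc]; exact ⟨0, by ring⟩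
  obtain ⟨z, hz⟩ := h1
  unfold kz
  ext1
  · exact Lam_class S hc
  · funext q
    change TT q.1 a = TT q.1 a'
    have h2 : finAbv q.1 (z ^ 2 + z) ≤ 1 := by
      have e : z ^ 2 + z = a' + a := by
        rw [hz]
        linear_combination (-a) * (CharTwo.two_eq_zero : (2 : RatFunc k) = 0)
      rw [e]
      exact (finAbv_nonarch q.1 _ _).trans (max_le (h' q.1 q.2) (h q.1 q.2))
    rw [hz, TT_add (h q.1 q.2) h2, TT_wp, add_zero]

theorem kz_surj (hSZ : ∀ p ∈ Z, p ∉ S) (g : Matrix S S (ZMod 2) × (Z → ZMod 2)) :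
    ∃ v : RatFunc k, (∀ p, p ∉ S → finAbv p v ≤ 1) ∧ kz S Z v = g := by
  classical
  obtain ⟨v, hv1, hv2⟩ := Lam_surj S g.1
  have hq : ∀ q : Z, ∃ V : RatFunc k, (∀ r, finAbv r V ≤ 1) ∧ TT q.1 V = 1 ∧
      ∀ r ∈ S ∪ Z, r ≠ q.1 → TT r V = 0 := fun q =>
    exists_poly_class (S ∪ Z) ⟨q.1, Finset.mem_union_right _ q.2⟩
  choose V hV1 hV2 hV3 using hq
  have hVint : ∀ (c : ZMod 2) (q : Z) (r : HeightOneSpectrum k[X]),
      finAbv r (zt c * V q) ≤ 1 := by
    intro c q r
    rw [map_mul]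
    exact mul_le_one₀ (zero_one (zt_cases _) r) ((finAbv r).nonneg _) (hV1 q r)
  set w := ∑ q : Z, zt (g.2 q + TT q.1 v) * V q with hw
  have hwint : ∀ r, finAbv r w ≤ 1 := fun r => fin_sum_le r _ _ fun q _ => hVint _ q r
  have hTTw : ∀ r ∈ S ∪ Z, TT r w = ∑ q : Z, (g.2 q + TT q.1 v) * TT r (V q) := by
    intro r _
    rw [hw, TT_sum r _ _ fun q _ => hVint _ q r]
    exact Finset.sum_congr rfl fun q _ => TT_zt _ _ _
  have hLw : Lam S w = 0 := by
    ext p q
    unfold Lam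
    rw [Matrix.zero_apply]
    split_ifs with h
    · rw [pp_of_reg (hwint p.1), sub_zero, hTTw p.1 (Finset.mem_union_left _ p.2)]
      apply Finset.sum_eq_zero
      intro s _
      rw [hV3 s p.1 (Finset.mem_union_left _ p.2) (fun h1 => hSZ s.1 s.2 (h1 ▸ p.2)), mul_zero]
    · rw [pp_of_reg (hwint q.1), TT_zero]
  refine ⟨v + w, fun p hp => (finAbv_nonarch p _ _).trans (max_le (hv1 p hp) (hwint p)), ?_⟩
  rw [kz_add (fun q hq => hv1 q (hSZ q hq)) (fun q _ => hwint q)]
  unfold kz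
  ext1
  · change Lam S v + Lam S w = g.1
    rw [hLw, add_zero, hv2]
  · funext q
    change TT q.1 v + TT q.1 w = g.2 q
    rw [hTTw q.1 (Finset.mem_union_right _ q.2), Finset.sum_eq_single q]
    · rw [hV2, mul_one, add_comm, add_assoc, CharTwo.add_self_eq_zero, add_zero]
    · intro s _ hs
      rw [hV3 s q.1 (Finset.mem_union_right _ q.2) (fun h => hs (Subtype.ext h.symm)), mul_zero]
    · intro h
      exact absurd (Finset.mem_univ _) h

/-- a bound for the translations -/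
theorem exists_shiftZ (hSZ : ∀ p ∈ Z, p ∉ S) (C : ℝ) :
    ∃ (v : Matrix S S (ZMod 2) × (Z → ZMod 2) → RatFunc k) (M : ℕ), C < 2 ^ M ∧
      ∀ g, kz S Z (v g) = g ∧
      (∀ p, p ∉ S → finAbv p (v g) ≤ 1) ∧ infAbv k (v g) < 2 ^ M ∧
      ∀ p ∈ S, finAbv p (v g) < 2 ^ M := by
  classical
  choose v hv1 hv2 using kz_surj (k := k) hSZ
  obtain ⟨M, hM⟩ := pow_unbounded_of_one_lt
    (∑ L : Matrix S S (ZMod 2) × (Z → ZMod 2), (infAbv k (v L) + ∑ p ∈ S, finAbv p (v L)) + |C|)
    (by norm_num : (1 : ℝ) < 2)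
  have hnn : ∀ L, 0 ≤ ∑ p ∈ S, finAbv p (v L) :=
    fun L => Finset.sum_nonneg fun p _ => (finAbv p).nonneg _
  have hnn' : ∀ L, 0 ≤ infAbv k (v L) + ∑ p ∈ S, finAbv p (v L) :=
    fun L => add_nonneg ((infAbv k).nonneg _) (hnn L)
  have hC := abs_nonneg C
  have hle : ∀ L, infAbv k (v L) + ∑ p ∈ S, finAbv p (v L) < 2 ^ M := by
    intro L
    have := Finset.single_le_sum (fun L _ => hnn' L) (Finset.mem_univ L)
    linarith
  refine ⟨v, M, ?_, fun L => ⟨hv2 L, hv1 L, ?_, fun p hp => ?_⟩⟩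
  · have := Finset.sum_nonneg (fun L (_ : L ∈ Finset.univ) => hnn' L)
    have := le_abs_self C
    linarith
  · have := hle L
    have := hnn L
    linarith
  · have h1 := hle L
    have h2 := Finset.single_le_sum (fun p _ => (finAbv p).nonneg (v L)) hp
    have h3 := (infAbv k).nonneg (v L)
    linarith

open scoped Classical in
/-- **Equidistribution of the classes.** -/
theorem equidistZ (hSZ : ∀ p ∈ Z, p ∉ S) (C : ℝ) :
    ∃ M : ℕ, C < 2 ^ M ∧ ∀ (m : ℕ) (n : HeightOneSpectrum k[X] → ℕ), M ≤ m → (∀ p ∈ S, M ≤ n p) →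
      ∀ T : Finset (Matrix S S (ZMod 2)),
        2 ^ (S.card ^ 2 + Z.card) *
          (asClass '' {a ∈ twists S m n | Lam S a ∈ T ∧ ∀ q ∈ Z, NS q a}).ncard
          = T.card * (asClass '' twists S m n).ncard := by
  obtain ⟨v, M, hM, hv⟩ := exists_shiftZ (k := k) hSZ C
  refine ⟨M, hM, fun m n hm hn => ?_⟩
  set F := (twists_finite S m n).toFinset with hF
  have hmemF : ∀ a, a ∈ F ↔ a ∈ twists S m n := fun a => (twists_finite S m n).mem_toFinset
  have hint : ∀ a ∈ twists S m n, ∀ q ∈ Z, finAbv q a ≤ 1 :=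
    fun a ha q hq => ha.2.2 q (hSZ q hq)
  set c : Matrix S S (ZMod 2) × (Z → ZMod 2) → ℕ :=
    fun L => ((F.filter fun a => kz S Z a = L).image asClass).card with hc
  have hle : ∀ L L', c L ≤ c L' := by
    intro L L'
    obtain ⟨h1, h2, h3, h4⟩ := hv (L' - L)
    apply Finset.card_le_card_of_injOn (fun D => (fun x => v (L' - L) + x) '' D)
    · intro D hD
      rw [Finset.mem_coe, Finset.mem_image] at hD ⊢
      obtain ⟨a, ha, rfl⟩ := hD
      rw [Finset.mem_filter, hmemF] at ha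
      refine ⟨v (L' - L) + a, ?_, (asClass_shift _ _).symm⟩
      rw [Finset.mem_filter, hmemF]
      refine ⟨twists_add ha.1 (h3.trans_le ?_) (fun p hp => (h4 p hp).trans_le ?_) h2, ?_⟩
      · exact pow_le_pow_right₀ (by norm_num) hm
      · exact pow_le_pow_right₀ (by norm_num) (hn p hp)
      · rw [kz_add (fun q hq => h2 q (hSZ q hq)) (hint a ha.1), h1, ha.2, sub_add_cancel]
    · intro D _ D' _ h
      exact Set.image_injective.mpr (add_right_injective (v (L' - L))) h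
  have heq : ∀ L, c L = c 0 := fun L => le_antisymm (hle _ _) (hle _ _)
  have hcard : ∀ T : Finset (Matrix S S (ZMod 2) × (Z → ZMod 2)),
      (asClass '' {a ∈ twists S m n | kz S Z a ∈ T}).ncard = T.card * c 0 := by
    intro T
    have h1 : asClass '' {a ∈ twists S m n | kz S Z a ∈ T}
        = ((T.biUnion fun L => (F.filter fun a => kz S Z a = L).image asClass :
          Finset (Set (RatFunc k))) : Set (Set (RatFunc k))) := by
      ext D
      rw [Finset.mem_coe, Finset.mem_biUnion]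
      constructor
      · rintro ⟨a, ⟨ha, haT⟩, rfl⟩
        exact ⟨kz S Z a, haT, Finset.mem_image.mpr ⟨a, Finset.mem_filter.mpr
          ⟨(hmemF a).mpr ha, rfl⟩, rfl⟩⟩
      · rintro ⟨L, hL, hD⟩
        rw [Finset.mem_image] at hD
        obtain ⟨a, ha, rfl⟩ := hD
        rw [Finset.mem_filter, hmemF] at ha
        exact ⟨a, ⟨ha.1, by rw [ha.2]; exact hL⟩, rfl⟩
    rw [h1, Set.ncard_coe_finset, Finset.card_biUnion]
    · rw [Finset.sum_congr rfl (fun L _ => heq L), Finset.sum_const, smul_eq_mul]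
    · intro L _ L' _ hLL
      rw [Function.onFun, Finset.disjoint_left]
      intro D hD hD'
      rw [Finset.mem_image] at hD hD'
      obtain ⟨a, ha, rfl⟩ := hD
      obtain ⟨a', ha', haa⟩ := hD'
      rw [Finset.mem_filter, hmemF] at ha ha'
      apply hLL
      rw [← ha.2, ← ha'.2]
      exact kz_class (hint a ha.1) (hint a' ha'.1) haa.symm
  intro T
  have h2 := hcard Finset.univ
  have h3 : {a ∈ twists S m n | kz S Z a ∈ (Finset.univ : Finset
      (Matrix S S (ZMod 2) × (Z → ZMod 2)))} = twists S m n := by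
    ext a
    constructor
    · rintro ⟨h, -⟩; exact h
    · intro h; exact ⟨h, Finset.mem_univ _⟩
  have h4 : (Finset.univ : Finset (Matrix S S (ZMod 2) × (Z → ZMod 2))).card
      = 2 ^ (S.card ^ 2 + Z.card) := by
    rw [Finset.card_univ, Fintype.card_prod]
    have : Fintype.card (Matrix S S (ZMod 2)) = Fintype.card (S → S → ZMod 2) := rfl
    rw [this, Fintype.card_fun, Fintype.card_fun, Fintype.card_fun, ZMod.card, Fintype.card_coe,
      Fintype.card_coe, ← pow_mul, pow_add, pow_two]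
  rw [h3, h4] at h2
  have h5 := hcard (T ×ˢ {fun _ => 1})
  have h6 : {a ∈ twists S m n | kz S Z a ∈ T ×ˢ ({fun _ => 1} : Finset (Z → ZMod 2))}
      = {a ∈ twists S m n | Lam S a ∈ T ∧ ∀ q ∈ Z, NS q a} := by
    ext a
    simp only [Set.mem_ofPred_eq, Finset.mem_product, Finset.mem_singleton]
    constructor
    · rintro ⟨h, h', h''⟩
      exact ⟨h, h', fun q hq => TT_eq_one.mp (congrFun h'' ⟨q, hq⟩)⟩
    · rintro ⟨h, h', h''⟩
      exact ⟨h, h', funext fun q => TT_eq_one.mpr (h'' q.1 q.2)⟩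
  rw [h6, Finset.card_product, Finset.card_singleton, mul_one] at h5
  rw [h5, h2]
  ring

end Key

section Num

/-- the proportion of the invertible matrices -/
theorem gl_bound (N : ℕ) : 288 * 2 ^ (N ^ 2) ≤ 1000 * ∏ i ∈ Finset.range N, (2 ^ N - 2 ^ i) := by
  have hP : ∀ N : ℕ, ((∏ i ∈ Finset.range N, (2 ^ N - 2 ^ i) : ℕ) : ℚ)
      = 2 ^ (N ^ 2) * ∏ i ∈ Finset.range N, (1 - 1 / 2 ^ (i + 1)) := by
    intro N
    rw [Nat.cast_prod]
    have h1 : ∀ i ∈ Finset.range N, (((2 ^ N - 2 ^ i : ℕ)) : ℚ)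
        = 2 ^ N * (1 - 1 / 2 ^ (N - 1 - i + 1)) := by
      intro i hi
      rw [Finset.mem_range] at hi
      rw [Nat.cast_sub (Nat.pow_le_pow_right (by norm_num) hi.le)]
      push_cast
      have e : (2 : ℚ) ^ N = 2 ^ i * 2 ^ (N - 1 - i + 1) := by
        rw [← pow_add]; congr 1; omega
      rw [mul_sub, mul_one, mul_one_div]
      congr 1
      rw [e]
      field_simp
    rw [Finset.prod_congr rfl h1, Finset.prod_mul_distrib, Finset.prod_const, Finset.card_range,
      ← pow_mul, ← pow_two]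
    congr 1
    exact Finset.prod_range_reflect (fun i => (1 : ℚ) - 1 / 2 ^ (i + 1)) N
  set P : ℕ → ℚ := fun N => ∏ i ∈ Finset.range N, (1 - 1 / 2 ^ (i + 1)) with hPd
  have hsucc : ∀ N, P (N + 1) = P N * (1 - 1 / 2 ^ (N + 1)) := fun N => by
    rw [hPd]; exact Finset.prod_range_succ _ _
  have hpos : ∀ N, 0 < P N := by
    intro N
    induction N with
    | zero => simp [hPd]
    | succ N ih =>
      rw [hsucc]
      apply mul_pos ih
      rw [sub_pos, div_lt_one (by positivity)]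
      exact one_lt_pow₀ (by norm_num) (by omega)
  have hanti : ∀ N, P (N + 1) ≤ P N := by
    intro N
    rw [hsucc]
    have h1 : (0 : ℚ) < 1 / 2 ^ (N + 1) := by positivity
    have h2 := hpos N
    nlinarith
  have hbig : ∀ N, 288 / 1000 + 29 / 100 / 2 ^ (N + 8) ≤ P (N + 8) := by
    intro N
    induction N with
    | zero =>
      simp only [hPd]
      norm_num [Finset.prod_range_succ]
    | succ N ih =>
      have h1 := hsucc (N + 8)
      have h2 : N + 1 + 8 = N + 8 + 1 := by ring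
      rw [h2, h1]
      set x : ℚ := 1 / 2 ^ (N + 8) with hx
      have hx0 : 0 < x := by positivity
      have hx1 : x ≤ 1 / 256 := by
        rw [hx]
        apply one_div_le_one_div_of_le (by norm_num)
        calc (256 : ℚ) = 2 ^ 8 := by norm_num
          _ ≤ 2 ^ (N + 8) := pow_le_pow_right₀ (by norm_num) (by omega)
      have e1 : (29 : ℚ) / 100 / 2 ^ (N + 8) = 29 / 100 * x := by rw [hx]; ring
      have e2 : (29 : ℚ) / 100 / 2 ^ (N + 8 + 1) = 29 / 200 * x := by rw [hx, pow_succ]; ring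
      have e3 : (1 : ℚ) / 2 ^ (N + 8 + 1) = x / 2 := by rw [hx, pow_succ]; ring
      rw [e2, e3]
      rw [e1] at ih
      nlinarith
  have hall : ∀ N, 288 / 1000 ≤ P N := by
    intro N
    by_cases hN : 8 ≤ N
    · obtain ⟨M, rfl⟩ := Nat.exists_eq_add_of_le hN
      have h1 := hbig M
      rw [add_comm] at h1
      have h2 : (0 : ℚ) ≤ 29 / 100 / 2 ^ (M + 8) := by positivity
      rw [add_comm 8 M]
      linarith
    · have h1 : P 8 ≤ P N := by
        have hmono : Antitone P := antitone_nat_of_succ_le hanti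
        exact hmono (by omega)
      have h2 := hbig 0
      rw [zero_add] at h2
      have h4 : (288 : ℚ) / 1000 ≤ P 8 := le_trans (by norm_num) h2
      exact h4.trans h1
  have h1 := hall N
  have h2 : (288 : ℚ) * 2 ^ (N ^ 2) ≤ 1000 * (2 ^ (N ^ 2) * P N) := by
    have : (0 : ℚ) < 2 ^ (N ^ 2) := by positivity
    nlinarith
  rw [← hP N] at h2
  exact_mod_cast h2

end Num

section Final

/-- The group `E(K)` is finite of odd order and all the Selmer groups modulo powers of two are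
killed by two and have at most `2 ^ N` elements, for the curve `E : y² + x y = x³ + a x² + b`. -/
def SmallSelmer (a b : RatFunc k) (N : ℕ) : Prop :=
  Finite (Pts (gcurve a b) (RatFunc k)) ∧ Odd (Nat.card (Pts (gcurve a b) (RatFunc k))) ∧
    ∀ s : ℕ, Finite (SelmerGroup (gcurve a b) (2 ^ s)) ∧
      Nat.card (SelmerGroup (gcurve a b) (2 ^ s)) ≤ 2 ^ N ∧
      ∀ x : SelmerGroup (gcurve a b) (2 ^ s), 2 • x = 0

open scoped Classical in
theorem InvTwist.small {S Z : Finset (HeightOneSpectrum k[X])} {a b : RatFunc k}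
    (G : InvTwist S Z b a) : SmallSelmer a b (S.card + Z.card) := by
  have h4 := fun r => G.div r
  have hdiv : ∀ R : Pts (gcurve a b) (RatFunc k), ∃ R', 2 • R' = R := by
    intro R
    obtain ⟨R', hR'⟩ := h4 1 R
    exact ⟨R', by rwa [pow_one] at hR'⟩
  have hB : TwoBasis (algebraMap (RatFunc k) (RatFunc k) RatFunc.X) := basisX
  have htor : ∀ R : Pts (gcurve a b) (RatFunc k), 2 • R = 0 → R = 0 :=
    fun R hR => no_torsion_two basisX (hk_gcurve a G.C_ne) hB R hR
  obtain ⟨h5, h6⟩ := mw_finite G.b_ne G.C_ne hdiv htor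
  refine ⟨h5, h6, fun s => ?_⟩
  obtain ⟨h7, h8⟩ := G.card s
  refine ⟨h7, h8.trans (Nat.pow_le_pow_right (by norm_num) (Finset.card_union_le _ _)),
    G.two_smul s⟩

open scoped Classical in
/-- twists with an invertible matrix -/
theorem small_of_inv {b : RatFunc k} (hb : ¬ IsSquare b) {S Z : Finset (HeightOneSpectrum k[X])}
    (hS : ∀ p, p ∉ S → finAbv p b ≤ 1) (hZ : ∀ p, p ∉ S → p ∉ Z → finAbv p b = 1) {m : ℕ}
    {n : HeightOneSpectrum k[X] → ℕ} (hm : Odd m)
    (hn : ∀ p ∈ S, Odd (n p)) (hbm : infAbv k b < 2 ^ m) (hbn : ∀ p ∈ S, finAbv p b < 2 ^ n p)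
    {a : RatFunc k} (ha : a ∈ twists S m n) (hdet : IsUnit (Lam S a).det)
    (haZ : ∀ q ∈ Z, NS q a) : SmallSelmer a b (S.card + Z.card) := by
  obtain ⟨h1, h2, h3⟩ := ha
  have G : InvTwist S Z b a :=
    { nsq := hb
      bS := hZ
      bZ := hS
      aZ := haZ
      aS := h3
      inf := ⟨m, hm, by rw [h1, zpow_natCast], by rw [h1]; exact hbm⟩
      fin := fun p hp => ⟨n p, hn p hp, by rw [h2 p hp, zpow_natCast], by
        rw [h2 p hp]; exact hbn p hp⟩
      inj := fun x hx => by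
        have h4 : Matrix.mulVec (Lam S a)⁻¹ (Matrix.mulVec (Lam S a) x) = 0 := by
          rw [hx, Matrix.mulVec_zero]
        rwa [Matrix.mulVec_mulVec, Matrix.nonsing_inv_mul _ hdet, Matrix.one_mulVec] at h4
      inj' := fun x hx => by
        have h4 : Matrix.vecMul (Matrix.vecMul x (Lam S a)) (Lam S a)⁻¹ = 0 := by
          rw [hx, Matrix.zero_vecMul]
        rwa [Matrix.vecMul_vecMul, Matrix.mul_nonsing_inv _ hdet, Matrix.vecMul_one] at h4 }
  exact G.small

/-- the proportion of the good twists of a curve with nonsquare `b` -/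
theorem class_small {b : RatFunc k} (hb : ¬ IsSquare b) {S Z : Finset (HeightOneSpectrum k[X])}
    (hS : ∀ p, p ∉ S → finAbv p b ≤ 1) (hZ : ∀ p, p ∈ Z ↔ p ∉ S ∧ finAbv p b < 1) :
    ∃ M : ℕ, ∀ (m : ℕ) (n : HeightOneSpectrum k[X] → ℕ),
      M ≤ m → Odd m → (∀ p ∈ S, M ≤ n p ∧ Odd (n p)) →
      (asClass '' twists S m n).Finite ∧ (asClass '' twists S m n).Nonempty ∧
      (∏ i ∈ Finset.range S.card, (2 ^ S.card - 2 ^ i)) * (asClass '' twists S m n).ncard ≤
        2 ^ (S.card ^ 2 + Z.card) * (asClass '' {a ∈ twists S m n |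
          SmallSelmer a b (S.card + Z.card)}).ncard := by
  classical
  have hSZ : ∀ p ∈ Z, p ∉ S := fun p hp => ((hZ p).mp hp).1
  have hZ' : ∀ p, p ∉ S → p ∉ Z → finAbv p b = 1 := by
    intro p h1 h2
    by_contra h3
    exact h2 ((hZ p).mpr ⟨h1, lt_of_le_of_ne (hS p h1) h3⟩)
  obtain ⟨M, hM, heq⟩ := equidistZ (k := k) hSZ (infAbv k b + ∑ p ∈ S, finAbv p b)
  have hsum : 0 ≤ ∑ p ∈ S, finAbv p b := Finset.sum_nonneg fun p _ => (finAbv p).nonneg _
  refine ⟨M, fun m n hm hmo hn => ?_⟩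
  have hfin := twists_finite S m n
  refine ⟨hfin.image _, (twists_nonempty S hmo.pos (fun p hp => (hn p hp).2.pos)).image _, ?_⟩
  have hsub : {a ∈ twists S m n | Lam S a ∈ invM S ∧ ∀ q ∈ Z, NS q a} ⊆ {a ∈ twists S m n |
          SmallSelmer a b (S.card + Z.card)} := by
    rintro a ⟨ha, hdet, haZ⟩
    refine ⟨ha, small_of_inv hb hS hZ' hmo (fun p hp => (hn p hp).2) ?_ (fun p hp => ?_) ha
      (mem_invM.mp hdet) haZ⟩
    · have h3 : (2 : ℝ) ^ M ≤ 2 ^ m := pow_le_pow_right₀ (by norm_num) hm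
      linarith
    · have h3 : (2 : ℝ) ^ M ≤ 2 ^ n p := pow_le_pow_right₀ (by norm_num) (hn p hp).1
      have h4 := Finset.single_le_sum (fun q _ => (finAbv q).nonneg b) hp
      have h5 := (infAbv k).nonneg b
      linarith
  have h6 := Set.ncard_le_ncard (Set.image_mono (f := asClass) hsub)
    ((hfin.subset fun a ha => ha.1).image _)
  have h1 := heq m n hm (fun p hp => (hn p hp).1) (invM S)
  have h7 : (invM S).card = ∏ i ∈ Finset.range S.card, (2 ^ S.card - 2 ^ i) := by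
    rw [card_invM, Fintype.card_coe, Fin.prod_univ_eq_prod_range (fun i => 2 ^ S.card - 2 ^ i)]
  rw [h7] at h1
  rw [← h1]
  exact Nat.mul_le_mul_left _ h6

/-- **Main theorem.** -/
theorem class_all4 (b : RatFunc k) (hb : ∀ c : k, b ≠ RatFunc.C c)
    (S Z : Finset (HeightOneSpectrum k[X]))
    (hS : ∀ p, p ∉ S → finAbv p b ≤ 1) (hZ : ∀ p, p ∈ Z ↔ p ∉ S ∧ finAbv p b < 1) :
    ∃ (β : RatFunc k) (r : ℕ), b = β ^ 2 ^ r ∧
      ∃ M : ℕ, ∀ (m : ℕ) (n : HeightOneSpectrum k[X] → ℕ),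
      M ≤ m → Odd m → (∀ p ∈ S, M ≤ n p ∧ Odd (n p)) →
      (asClass '' twists S m n).Finite ∧ (asClass '' twists S m n).Nonempty ∧
      (∏ i ∈ Finset.range S.card, (2 ^ S.card - 2 ^ i)) * (asClass '' twists S m n).ncard ≤
        2 ^ (S.card ^ 2 + Z.card) * (asClass '' {a ∈ twists S m n |
          Finite (Pts (gcurve a b) (RatFunc k)) ∧ SmallSelmer a β (S.card + Z.card)}).ncard ∧
      288 * (asClass '' twists S m n).ncard ≤
        1000 * 2 ^ Z.card * (asClass '' {a ∈ twists S m n |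
          Finite (Pts (gcurve a b) (RatFunc k)) ∧ SmallSelmer a β (S.card + Z.card)}).ncard := by
  obtain ⟨β, r, hβ, hβ2⟩ := exists_root b hb
  have hβ0 : β ≠ 0 := by rintro rfl; exact hβ2 ⟨0, by simp⟩
  have hpow : ∀ p : HeightOneSpectrum k[X], finAbv p b = finAbv p β ^ 2 ^ r := by
    intro p; rw [hβ, map_pow]
  have hne : (2 ^ r : ℕ) ≠ 0 := by positivity
  have hSβ : ∀ p, p ∉ S → finAbv p β ≤ 1 := by
    intro p hp
    have h1 := hS p hp
    rw [hpow] at h1
    exact (pow_le_one_iff_of_nonneg ((finAbv p).nonneg _) hne).mp h1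
  have hZβ : ∀ p, p ∈ Z ↔ p ∉ S ∧ finAbv p β < 1 := by
    intro p
    rw [hZ p, hpow, pow_lt_one_iff_of_nonneg ((finAbv p).nonneg _) hne]
  obtain ⟨M, h2⟩ := class_small hβ2 hSβ hZβ
  refine ⟨β, r, hβ, M, fun m n hm hmo hn => ?_⟩
  obtain ⟨h3, h4, h5⟩ := h2 m n hm hmo hn
  have h6 : (asClass '' {a ∈ twists S m n | SmallSelmer a β (S.card + Z.card)}).ncard ≤
      (asClass '' {a ∈ twists S m n |
          Finite (Pts (gcurve a b) (RatFunc k)) ∧ SmallSelmer a β (S.card + Z.card)}).ncard := by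
    refine Set.ncard_le_ncard (Set.image_mono ?_)
      (((twists_finite S m n).subset fun a ha => ha.1).image _)
    rintro a ⟨ha, h6⟩
    refine ⟨ha, ?_, h6⟩
    rw [hβ]
    exact finite_frob_pow hβ0 h6.1 r
  have h7 := h5.trans (Nat.mul_le_mul_left _ h6)
  refine ⟨h3, h4, h7, ?_⟩
  have h8 := gl_bound S.card
  set C := (asClass '' twists S m n).ncard
  set D := (asClass '' {a ∈ twists S m n |
          Finite (Pts (gcurve a b) (RatFunc k)) ∧ SmallSelmer a β (S.card + Z.card)}).ncard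
  set P := ∏ i ∈ Finset.range S.card, (2 ^ S.card - 2 ^ i)
  have h9 : 2 ^ (S.card ^ 2) * (288 * C) ≤ 2 ^ (S.card ^ 2) * (1000 * 2 ^ Z.card * D) := by
    calc 2 ^ (S.card ^ 2) * (288 * C) = (288 * 2 ^ (S.card ^ 2)) * C := by ring
      _ ≤ (1000 * P) * C := Nat.mul_le_mul_right _ h8
      _ = 1000 * (P * C) := by ring
      _ ≤ 1000 * (2 ^ (S.card ^ 2 + Z.card) * D) := Nat.mul_le_mul_left _ h7
      _ = 2 ^ (S.card ^ 2) * (1000 * 2 ^ Z.card * D) := by rw [pow_add]; ring
  exact Nat.le_of_mul_le_mul_left h9 (by positivity)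

end Final

end Pool.Agent.H2
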