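import Pool.Agent.H2.BCExamples
import Pool.Agent.H2.WCount

/-!
# Base change of the refined criterion
-/

namespace Pool.Agent.H2

open Polynomial IsDedekindDomain WeierstrassCurve WeierstrassCurve.Affine

universe u

variable {k k' : Type u} [Field k] [Field k'] [Algebra k k'] [Finite k] [Finite k']
  [CharP k 2] [CharP k' 2] [Module.Finite k k']

variable {S : Finset (HeightOneSpectrum k[X])} {Φ : RatFunc k →+* RatFunc k'} {h : k'[X]}

omit [Finite k'] [Module.Finite k k'] in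
/-- a nonsquare stays a nonsquare -/
theorem OddExt.nsq (H : OddExt S Φ h) {b : RatFunc k} (hb : ¬ IsSquare b) : ¬ IsSquare (Φ b) := by
  rintro ⟨s, hs⟩
  obtain ⟨c, d, hcd⟩ : ∃ c d : RatFunc k, b = c ^ 2 + RatFunc.X * d ^ 2 := by
    obtain ⟨c, d, h1⟩ := (basisX (k := k)).ex b
    exact ⟨c, d, h1⟩
  have hd : d ≠ 0 := by
    rintro rfl
    exact hb ⟨c, by rw [hcd]; ring⟩
  have hX : Φ RatFunc.X = algebraMap k'[X] (RatFunc k') h := by
    have h1 := H.sub X
    rwa [RatFunc.algebraMap_X, aeval_X] at h1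
  have h0 : Φ d ≠ 0 := by rwa [Ne, map_eq_zero]
  have h2 : algebraMap k'[X] (RatFunc k') h = ((s + Φ c) / Φ d) ^ 2 := by
    have h3 : Φ b = Φ c ^ 2 + algebraMap k'[X] (RatFunc k') h * Φ d ^ 2 := by
      rw [hcd, map_add, map_mul, map_pow, map_pow, hX]
    have h4 : (2 : RatFunc k') = 0 := CharTwo.two_eq_zero
    rw [div_pow, eq_div_iff (pow_ne_zero 2 h0)]
    rw [hs] at h3
    linear_combination -h3 - (s * Φ c + Φ c ^ 2) * h4
  have hh : h ≠ 0 := by
    rintro rfl
    have := H.deg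
    rw [natDegree_zero] at this
    exact absurd this (by decide)
  have h3 := congrArg (infAbv k') h2
  rw [infAbv_poly hh, map_pow] at h3
  have hx : (s + Φ c) / Φ d ≠ 0 := by
    intro h4
    rw [h4, zero_pow two_ne_zero] at h2
    exact hh ((FaithfulSMul.algebraMap_eq_zero_iff k'[X] (RatFunc k')).mp h2)
  rw [infAbv_apply hx, ← zpow_natCast, ← zpow_mul] at h3
  have h5 := zpow_right_injective₀ (by norm_num : (0 : ℝ) < 2) (by norm_num) h3
  obtain ⟨j, hj⟩ := H.deg
  rw [hj] at h5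
  push_cast at h5
  omega

open scoped Classical in
/-- **Base change of the criterion.** -/
theorem InvTwist.up {b a : RatFunc k} (G : InvTwist S ∅ b a) (H : OddExt S Φ h) :
    ∃ (S' : Finset (HeightOneSpectrum k'[X])), S'.card = S.card ∧ InvTwist S' ∅ (Φ b) (Φ a) := by
  obtain ⟨up, hup⟩ := H.exists_up
  have hinj : Function.Injective up := by
    intro p q hpq
    apply Subtype.ext
    have h1 := (hup p).above
    rw [hpq] at h1
    exact h1.uniq (hup q).above
  have hh0 : h.natDegree ≠ 0 := H.deg.pos.ne'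
  set S' : Finset (HeightOneSpectrum k'[X]) := Finset.univ.image up with hS'
  have hmem : ∀ p : S, up p ∈ S' := fun p => Finset.mem_image_of_mem _ (Finset.mem_univ p)
  let σ : S → S' := fun p => ⟨up p, hmem p⟩
  have hσ : Function.Bijective σ := by
    constructor
    · intro p q hpq
      exact hinj (congrArg Subtype.val hpq)
    · rintro ⟨Q, hQ⟩
      obtain ⟨p, -, hp⟩ := Finset.mem_image.mp hQ
      exact ⟨p, Subtype.ext hp⟩
  have hval : ∀ p : S, ∃ e : ℕ, Odd e ∧ ∀ x : RatFunc k, finAbv (up p) (Φ x) = finAbv p.1 x ^ e := by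
    intro p
    obtain ⟨e, he0, he, hv⟩ := H.sub.val (hup p).above
    exact ⟨e, e_odd H.sub (hup p) H.odd H.deg he, hv⟩
  have hout : ∀ Q : HeightOneSpectrum k'[X], Q ∉ S' → ∃ p, p ∉ S ∧ ∃ e : ℕ, e ≠ 0 ∧
      ∀ x : RatFunc k, finAbv Q (Φ x) = finAbv p x ^ e := by
    intro Q hQ
    obtain ⟨p, hp⟩ := below (k := k) h Q
    have hab : Above h Q p := by
      intro f
      rw [hp]; rfl
    obtain ⟨e, he0, -, hv⟩ := H.sub.val hab
    refine ⟨p, ?_, e, he0, hv⟩
    intro hpS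
    apply hQ
    rw [(hup ⟨p, hpS⟩).only Q hab]
    exact hmem _
  -- the matrices
  have hLam : ∀ p q : S, Lam S' (Φ a) (σ p) (σ q) = Lam S a p q := by
    intro p q
    unfold Lam
    by_cases hpq : p = q
    · rw [if_pos hpq, if_pos (by rw [hpq])]
      change TT (up p) (Φ a - pp (up p) (Φ a)) = _
      rw [pp_up H.sub hh0 (hup p), ← map_sub, TT_up H.sub (hup p) H.odd H.deg (pp_reg p.1 a)]
    · rw [if_neg hpq, if_neg (fun h1 => hpq (hσ.1 h1))]
      change TT (up p) (pp (up q) (Φ a)) = _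
      rw [pp_up H.sub hh0 (hup q), TT_up H.sub (hup p) H.odd H.deg
        (pp_int (fun h1 => hpq (Subtype.ext h1)) a)]
  let E := Equiv.ofBijective σ hσ
  have hmul : ∀ (x : S' → ZMod 2) (p : S),
      Matrix.mulVec (Lam S' (Φ a)) x (σ p) = Matrix.mulVec (Lam S a) (x ∘ σ) p := by
    intro x p
    unfold Matrix.mulVec dotProduct
    rw [← E.sum_comp]
    exact Finset.sum_congr rfl fun q _ => by
      change Lam S' (Φ a) (σ p) (σ q) * x (σ q) = _
      rw [hLam]; rfl
  have hvec : ∀ (x : S' → ZMod 2) (p : S),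
      Matrix.vecMul x (Lam S' (Φ a)) (σ p) = Matrix.vecMul (x ∘ σ) (Lam S a) p := by
    intro x p
    unfold Matrix.vecMul dotProduct
    rw [← E.sum_comp]
    exact Finset.sum_congr rfl fun q _ => by
      change x (σ q) * Lam S' (Φ a) (σ q) (σ p) = _
      rw [hLam]; rfl
  refine ⟨S', ?_, H.nsq G.nsq, ?_, ?_, ?_, ?_, ?_, ?_, ?_, ?_⟩
  · rw [hS', Finset.card_image_of_injective _ hinj, Finset.card_univ, Fintype.card_coe]
  · intro Q hQ _
    obtain ⟨p, hp, e, he, hv⟩ := hout Q hQ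
    rw [hv, G.bS p hp (Finset.notMem_empty p), one_pow]
  · intro Q hQ
    obtain ⟨p, hp, e, he, hv⟩ := hout Q hQ
    rw [hv, G.bS p hp (Finset.notMem_empty p), one_pow]
  · intro Q hQ
    exact absurd hQ (Finset.notMem_empty Q)
  · intro Q hQ
    obtain ⟨p, hp, e, he, hv⟩ := hout Q hQ
    rw [hv]
    exact pow_le_one₀ ((finAbv p).nonneg _) (G.aS p hp)
  · obtain ⟨m, hm, h1, h2⟩ := G.inf
    refine ⟨m * h.natDegree, hm.mul H.deg, ?_, ?_⟩
    · rw [H.sub.inf _ hh0, h1, ← zpow_natCast, ← zpow_mul]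
      push_cast; rfl
    · rw [H.sub.inf _ hh0, H.sub.inf _ hh0]
      exact pow_lt_pow_left₀ h2 ((infAbv k).nonneg _) hh0
  · intro Q hQ
    obtain ⟨p, -, rfl⟩ := Finset.mem_image.mp hQ
    obtain ⟨m, hm, h1, h2⟩ := G.fin p.1 p.2
    obtain ⟨e, he, hv⟩ := hval p
    refine ⟨m * e, hm.mul he, ?_, ?_⟩
    · rw [hv, h1, ← zpow_natCast, ← zpow_mul]
      push_cast; rfl
    · rw [hv, hv]
      exact pow_lt_pow_left₀ h2 ((finAbv p.1).nonneg _) he.pos.ne'
  · intro x hx
    have h1 : x ∘ σ = 0 := by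
      apply G.inj
      ext p
      rw [← hmul, hx, Pi.zero_apply, Pi.zero_apply]
    ext Q
    obtain ⟨p, rfl⟩ := hσ.2 Q
    exact congrFun h1 p
  · intro x hx
    have h1 : x ∘ σ = 0 := by
      apply G.inj'
      ext p
      rw [← hvec, hx, Pi.zero_apply, Pi.zero_apply]
    ext Q
    obtain ⟨p, rfl⟩ := hσ.2 Q
    exact congrFun h1 p

end Pool.Agent.H2
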