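import Pool.Agent.H2.BCMat

/-!
# Base change of the matrix criterion
-/

namespace Pool.Agent.H2

open Polynomial IsDedekindDomain WeierstrassCurve WeierstrassCurve.Affine

universe u

variable {k k' : Type u} [Field k] [Field k'] [Algebra k k'] [Finite k] [Finite k']
  [CharP k 2] [CharP k' 2] [Module.Finite k k']

/-- The extension `Φ : k(X) → k'(X)`, `X ↦ h`, where `k'` has odd degree over `k`, the polynomial
`h` has odd degree, and there is only one place above each place in `S`. -/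
structure OddExt (S : Finset (HeightOneSpectrum k[X])) (Φ : RatFunc k →+* RatFunc k') (h : k'[X]) :
    Prop where
  sub : Subst Φ h
  odd : Odd (Module.finrank k k')
  deg : Odd h.natDegree
  only : ∀ p ∈ S, ∀ Q Q' : HeightOneSpectrum k'[X], Above h Q p → Above h Q' p → Q = Q'

variable {S : Finset (HeightOneSpectrum k[X])} {Φ : RatFunc k →+* RatFunc k'} {h : k'[X]}

theorem OddExt.exists_above (H : OddExt S Φ h) (p : HeightOneSpectrum k[X]) :
    ∃ Q : HeightOneSpectrum k'[X], Above h Q p := by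
  have hnu : ¬ IsUnit (aeval h (gQ p) : k'[X]) := by
    intro hu
    have h1 := natDegree_eq_zero_of_isUnit hu
    rw [natDegree_aeval] at h1
    have h2 := (gQ_irr p).natDegree_pos
    have h3 := H.deg.pos
    have := Nat.mul_pos h2 h3
    omega
  have h0 : (aeval h (gQ p) : k'[X]) ≠ 0 := fun h0 => (gQ_irr p).ne_zero (H.sub.inj h0)
  obtain ⟨r, hr, hrw⟩ := WfDvdMonoid.exists_irreducible_factor hnu h0
  obtain ⟨Q, hQ⟩ := place_of hr
  refine ⟨Q, Above.of_mem ?_⟩
  rw [mem_gen hQ]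
  exact hrw

theorem OddExt.exists_up (H : OddExt S Φ h) :
    ∃ up : S → HeightOneSpectrum k'[X], ∀ p : S, OnlyAbove h (up p) p.1 := by
  choose up hup using fun p : S => H.exists_above p.1
  exact ⟨up, fun p => ⟨hup p, fun Q' hQ' => H.only p.1 p.2 Q' (up p) hQ' (hup p)⟩⟩

open scoped Classical in
/-- **Base change of the criterion.** -/
theorem MatTwist.up {b a : RatFunc k} {p₁ : S} (G : MatTwist S b a p₁) (H : OddExt S Φ h) :
    ∃ (S' : Finset (HeightOneSpectrum k'[X])) (p₁' : S'), MatTwist S' (Φ b) (Φ a) p₁' := by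
  obtain ⟨up, hup⟩ := H.exists_up
  have hinj : Function.Injective up := by
    intro p q hpq
    apply Subtype.ext
    have h1 := (hup p).above
    rw [hpq] at h1
    exact h1.uniq (hup q).above
  have hh0 : h.natDegree ≠ 0 := H.deg.pos.ne'
  set S' : Finset (HeightOneSpectrum k'[X]) := Finset.univ.image up with hS'
  have hmem : ∀ p : S, up p ∈ S' := fun p => Finset.mem_image_of_mem _ (Finset.mem_univ p)
  let σ : S → S' := fun p => ⟨up p, hmem p⟩
  have hσ : Function.Bijective σ := by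
    constructor
    · intro p q hpq
      exact hinj (congrArg Subtype.val hpq)
    · rintro ⟨Q, hQ⟩
      obtain ⟨p, -, hp⟩ := Finset.mem_image.mp hQ
      exact ⟨p, Subtype.ext hp⟩
  have hval : ∀ p : S, ∃ e : ℕ, Odd e ∧ ∀ x : RatFunc k, finAbv (up p) (Φ x) = finAbv p.1 x ^ e := by
    intro p
    obtain ⟨e, he0, he, hv⟩ := H.sub.val (hup p).above
    exact ⟨e, e_odd H.sub (hup p) H.odd H.deg he, hv⟩
  have hout : ∀ Q : HeightOneSpectrum k'[X], Q ∉ S' → ∃ p, p ∉ S ∧ ∃ e : ℕ, e ≠ 0 ∧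
      ∀ x : RatFunc k, finAbv Q (Φ x) = finAbv p x ^ e := by
    intro Q hQ
    obtain ⟨p, hp⟩ := below (k := k) h Q
    have hab : Above h Q p := by
      intro f
      rw [hp]; rfl
    obtain ⟨e, he0, -, hv⟩ := H.sub.val hab
    refine ⟨p, ?_, e, he0, hv⟩
    intro hpS
    apply hQ
    rw [(hup ⟨p, hpS⟩).only Q hab]
    exact hmem _
  -- the matrices
  have hLam : ∀ p q : S, Lam S' (Φ a) (σ p) (σ q) = Lam S a p q := by
    intro p q
    unfold Lam
    by_cases hpq : p = q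
    · rw [if_pos hpq, if_pos (by rw [hpq])]
      change TT (up p) (Φ a - pp (up p) (Φ a)) = _
      rw [pp_up H.sub hh0 (hup p), ← map_sub, TT_up H.sub (hup p) H.odd H.deg (pp_reg p.1 a)]
    · rw [if_neg hpq, if_neg (fun h1 => hpq (hσ.1 h1))]
      change TT (up p) (pp (up q) (Φ a)) = _
      rw [pp_up H.sub hh0 (hup q), TT_up H.sub (hup p) H.odd H.deg
        (pp_int (fun h1 => hpq (Subtype.ext h1)) a)]
  have hpl : ∀ p : S, pl S' (om (Φ b)) (σ p) = pl S (om b) p := by
    intro p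
    obtain ⟨e, he, hv⟩ := hval p
    obtain ⟨n, hn⟩ := finAbv_disc p.1 b G.b_ne
    have h1 : finAbv (up p) (Φ b) = (2 : ℝ) ^ (n * (e : ℤ)) := by
      rw [hv, hn, ← zpow_natCast, ← zpow_mul]
    have h2 : finAbv (up p) (om (Φ b)) ≤ 1 ↔ finAbv p.1 (om b) ≤ 1 := by
      rw [om_even h1, om_even hn, Int.even_mul]
      constructor
      · rintro (h3 | h3)
        · exact h3
        · rw [Int.even_coe_nat] at h3
          exact absurd h3 (Nat.not_even_iff_odd.mpr he)
      · exact Or.inl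
    by_cases h3 : finAbv p.1 (om b) ≤ 1
    · have h4 : pl S (om b) p = 0 := (pl_eq_zero (S := S) (ℓ := om b) (p := p)).mpr h3
      have h5 : pl S' (om (Φ b)) (σ p) = 0 :=
        (pl_eq_zero (S := S') (ℓ := om (Φ b)) (p := σ p)).mpr (h2.mpr h3)
      rw [h4, h5]
    · have h4 : pl S (om b) p ≠ 0 := fun h4 =>
        h3 ((pl_eq_zero (S := S) (ℓ := om b) (p := p)).mp h4)
      have h5 : pl S' (om (Φ b)) (σ p) ≠ 0 := fun h5 =>
        h3 (h2.mp ((pl_eq_zero (S := S') (ℓ := om (Φ b)) (p := σ p)).mp h5))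
      rw [(zmod_cases _).resolve_left h4, (zmod_cases _).resolve_left h5]
  let E := Equiv.ofBijective σ hσ
  have hmul : ∀ (x : S' → ZMod 2) (p : S),
      Matrix.mulVec (Lam S' (Φ a)) x (σ p) = Matrix.mulVec (Lam S a) (x ∘ σ) p := by
    intro x p
    unfold Matrix.mulVec dotProduct
    rw [← E.sum_comp]
    exact Finset.sum_congr rfl fun q _ => by
      change Lam S' (Φ a) (σ p) (σ q) * x (σ q) = _
      rw [hLam]; rfl
  have hvec : ∀ (x : S' → ZMod 2) (p : S),
      Matrix.vecMul x (Lam S' (Φ a)) (σ p) = Matrix.vecMul (x ∘ σ) (Lam S a) p := by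
    intro x p
    unfold Matrix.vecMul dotProduct
    rw [← E.sum_comp]
    exact Finset.sum_congr rfl fun q _ => by
      change x (σ q) * Lam S' (Φ a) (σ q) (σ p) = _
      rw [hLam]; rfl
  have hplσ : pl S' (om (Φ b)) ∘ σ = pl S (om b) := funext hpl
  refine ⟨S', σ p₁, ?_, ?_, ?_, ?_, ?_, ?_, ?_, ?_, ?_⟩
  · rw [Ne, map_eq_zero]; exact G.b_ne
  · intro Q hQ
    obtain ⟨p, hp, e, he, hv⟩ := hout Q hQ
    rw [hv, G.bS p hp, one_pow]
  · intro Q hQ
    obtain ⟨p, hp, e, he, hv⟩ := hout Q hQ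
    rw [hv]
    exact pow_le_one₀ ((finAbv p).nonneg _) (G.aS p hp)
  · obtain ⟨m, hm, h1, h2⟩ := G.inf
    refine ⟨m * h.natDegree, hm.mul H.deg, ?_, ?_⟩
    · rw [H.sub.inf _ hh0, h1, ← zpow_natCast, ← zpow_mul]
      push_cast; rfl
    · rw [H.sub.inf _ hh0, H.sub.inf _ hh0]
      exact pow_lt_pow_left₀ h2 ((infAbv k).nonneg _) hh0
  · intro Q hQ
    obtain ⟨p, -, rfl⟩ := Finset.mem_image.mp hQ
    obtain ⟨m, hm, h1, h2⟩ := G.fin p.1 p.2
    obtain ⟨e, he, hv⟩ := hval p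
    refine ⟨m * e, hm.mul he, ?_, ?_⟩
    · rw [hv, h1, ← zpow_natCast, ← zpow_mul]
      push_cast; rfl
    · rw [hv, hv]
      exact pow_lt_pow_left₀ h2 ((finAbv p.1).nonneg _) he.pos.ne'
  · intro x hx
    have h1 : x ∘ σ = 0 := by
      apply G.inj
      ext p
      rw [← hmul, hx, Pi.zero_apply, Pi.zero_apply]
    ext Q
    obtain ⟨p, rfl⟩ := hσ.2 Q
    exact congrFun h1 p
  · intro x hx
    have h1 : x ∘ σ = 0 := by
      apply G.inj'
      ext p
      rw [← hvec, hx, Pi.zero_apply, Pi.zero_apply]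
    ext Q
    obtain ⟨p, rfl⟩ := hσ.2 Q
    exact congrFun h1 p
  · intro Q hQ
    obtain ⟨p, rfl⟩ := hσ.2 Q
    rw [hvec, hplσ]
    exact G.row p fun h1 => hQ (by rw [h1])
  · rw [hvec, hplσ]
    exact G.row₁

end Pool.Agent.H2
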