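import Pool.Agent.H2.BCVal

/-!
# Base change: residue degrees and ramification indices
-/

namespace Pool.Agent.H2

open Polynomial IsDedekindDomain

universe u

/-- an Artin-Schreier equation with a root in an extension of odd degree has a root -/
theorem root_of_odd {F F' : Type*} [Field F] [Field F'] [Algebra F F'] [FiniteDimensional F F']
    (hodd : Odd (Module.finrank F F')) {c : F} {w : F'} (hw : w ^ 2 + w = algebraMap F F' c) :
    ∃ z : F, z ^ 2 + z = c := by
  have hint : IsIntegral F w := IsIntegral.of_finite F w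
  have h1 : (minpoly F w).natDegree ∣ Module.finrank F F' := minpoly.degree_dvd hint
  have h2 : minpoly F w ∣ X ^ 2 + X - C c := by
    apply minpoly.dvd
    simp only [map_add, map_sub, map_pow, aeval_X, aeval_C]
    rw [hw, sub_self]
  have hdeg : (X ^ 2 + X - C c : F[X]).natDegree = 2 := by
    have : (X ^ 2 + X - C c : F[X]) = C 1 * X ^ 2 + C 1 * X + C (-c) := by
      simp only [map_one, map_neg]; ring
    rw [this]
    exact natDegree_quadratic one_ne_zero
  have h3 : (minpoly F w).natDegree ≤ 2 := by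
    rw [← hdeg]
    apply natDegree_le_of_dvd h2
    intro h0
    rw [h0, natDegree_zero] at hdeg
    omega
  have h4 : 0 < (minpoly F w).natDegree := minpoly.natDegree_pos hint
  have h5 : (minpoly F w).natDegree ≠ 2 := by
    intro h
    rw [h] at h1
    rw [← Nat.not_even_iff_odd, even_iff_two_dvd] at hodd
    exact hodd h1
  have h6 : (minpoly F w).natDegree = 1 := by omega
  obtain ⟨z, hz⟩ := minpoly.natDegree_eq_one_iff.mp h6
  refine ⟨z, (algebraMap F F').injective ?_⟩
  rw [map_add, map_pow, hz, hw]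

variable {k k' : Type u} [Field k] [Field k'] [Algebra k k']

/-- `Q` is the only place above `p` -/
structure OnlyAbove (h : k'[X]) (Q : HeightOneSpectrum k'[X]) (p : HeightOneSpectrum k[X]) :
    Prop where
  above : Above h Q p
  only : ∀ Q', Above h Q' p → Q' = Q

section

variable {Φ : RatFunc k →+* RatFunc k'} {h : k'[X]} (hΦ : Subst Φ h)
  {Q : HeightOneSpectrum k'[X]} {p : HeightOneSpectrum k[X]} (hQ : OnlyAbove h Q p)
include hΦ hQ

theorem Subst.deg_e {e : ℕ}
    (he : finAbv Q (Φ (algebraMap k[X] (RatFunc k) (gQ p))) = 2⁻¹ ^ e) :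
    e * (gQ Q).natDegree = (gQ p).natDegree * h.natDegree := by
  have hφ0 : (aeval h (gQ p) : k'[X]) ≠ 0 := fun h0 => (gQ_irr p).ne_zero (hΦ.inj h0)
  obtain ⟨w, hw, hm⟩ :=
    (FiniteMultiplicity.of_prime_left (gQ_irr Q).prime hφ0).exists_eq_pow_mul_and_not_dvd
  set m := multiplicity (gQ Q) (aeval h (gQ p)) with hmdef
  have hunit : IsUnit w := by
    by_contra hnu
    have hw0 : w ≠ 0 := by
      rintro rfl
      exact hm (dvd_zero _)
    obtain ⟨r, hr, hrw⟩ := WfDvdMonoid.exists_irreducible_factor hnu hw0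
    obtain ⟨Q', hQ'⟩ := place_of hr
    have h1 : Above h Q' p := by
      apply Above.of_mem
      rw [mem_gen hQ', hw]
      exact hrw.mul_left _
    have h2 := hQ.only Q' h1
    apply hm
    have h3 : r ∈ Q.asIdeal := by
      rw [← h2, mem_gen hQ']
    rw [mem_gen (gQ_span Q)] at h3
    exact h3.trans hrw
  have hdeg := natDegree_aeval h (gQ p)
  rw [hw, natDegree_mul (pow_ne_zero _ (gQ_irr Q).ne_zero) hunit.ne_zero, natDegree_pow,
    natDegree_eq_zero_of_isUnit hunit, add_zero] at hdeg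
  have hval : finAbv Q (Φ (algebraMap k[X] (RatFunc k) (gQ p))) = 2⁻¹ ^ m := by
    rw [hΦ, hw, map_mul, map_mul, map_pow, map_pow, abv_gQ]
    have h1 : finAbv Q (algebraMap k'[X] (RatFunc k') w) = 1 := by
      apply le_antisymm (finAbv_poly Q w)
      by_contra h2
      rw [not_le, finAbv_lt_one, mem_gen (gQ_span Q)] at h2
      exact hm h2
    rw [h1, mul_one]
  have hem : e = m := by
    rw [he] at hval
    have h1 : ((2 : ℝ)⁻¹) ^ e = 2⁻¹ ^ m := hval
    rw [inv_pow, inv_pow, inv_inj] at h1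
    exact Nat.pow_right_injective (le_refl 2) (by exact_mod_cast h1)
  rw [hem]
  exact hdeg

end

section Res

variable {h : k'[X]} {Q : HeightOneSpectrum k'[X]} {p : HeightOneSpectrum k[X]}

/-- the map of the residue fields -/
noncomputable def resMap (hQ : Above h Q p) : k[X] ⧸ p.asIdeal →+* k'[X] ⧸ Q.asIdeal :=
  Ideal.quotientMap Q.asIdeal (aeval h : k[X] →ₐ[k] k'[X]).toRingHom
    (fun f hf => (hQ f).mp hf)

theorem resMap_mk (hQ : Above h Q p) (f : k[X]) :
    resMap hQ (Ideal.Quotient.mk p.asIdeal f) = Ideal.Quotient.mk Q.asIdeal (aeval h f) := rfl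

variable [Finite k] [Finite k'] [Module.Finite k k']

theorem deg_odd {Φ : RatFunc k →+* RatFunc k'} (hΦ : Subst Φ h) (hQ : OnlyAbove h Q p)
    (hn : Odd (Module.finrank k k')) (hh : Odd h.natDegree) {e f : ℕ}
    (he : finAbv Q (Φ (algebraMap k[X] (RatFunc k) (gQ p))) = 2⁻¹ ^ e)
    (hf : Nat.card (k'[X] ⧸ Q.asIdeal) = Nat.card (k[X] ⧸ p.asIdeal) ^ f) : Odd (e * f) := by
  have h1 := hΦ.deg_e hQ he
  have hcard : Nat.card k' = Nat.card k ^ Module.finrank k k' := Module.natCard_eq_pow_finrank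
  have hc1 : Nat.card (k[X] ⧸ p.asIdeal) = Nat.card k ^ (gQ p).natDegree := by
    have := card_quot (gQ_irr p).ne_zero
    rwa [← gQ_span p] at this
  have hc2 : Nat.card (k'[X] ⧸ Q.asIdeal) = Nat.card k' ^ (gQ Q).natDegree := by
    have := card_quot (gQ_irr Q).ne_zero
    rwa [← gQ_span Q] at this
  rw [hc1, hc2, hcard, ← pow_mul, ← pow_mul] at hf
  have h2 := Nat.pow_right_injective (Finite.one_lt_card (α := k)) hf
  have h3 : 0 < (gQ p).natDegree := (gQ_irr p).natDegree_pos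
  have h4 : (gQ p).natDegree * (e * f) = (gQ p).natDegree * (Module.finrank k k' * h.natDegree) := by
    calc (gQ p).natDegree * (e * f) = e * ((gQ p).natDegree * f) := by ring
      _ = e * (Module.finrank k k' * (gQ Q).natDegree) := by rw [← h2]
      _ = Module.finrank k k' * (e * (gQ Q).natDegree) := by ring
      _ = Module.finrank k k' * ((gQ p).natDegree * h.natDegree) := by rw [h1]
      _ = _ := by ring
  rw [Nat.eq_of_mul_eq_mul_left h3 h4]
  exact hn.mul hh

theorem root_down {Φ : RatFunc k →+* RatFunc k'} (hΦ : Subst Φ h) (hQ : OnlyAbove h Q p)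
    (hn : Odd (Module.finrank k k')) (hh : Odd h.natDegree) {y : k[X]} {z' : k'[X]}
    (hz : (z' ^ 2 + z' + aeval h y : k'[X]) ∈ Q.asIdeal) :
    ∃ z : k[X], z ^ 2 + z + y ∈ p.asIdeal := by
  have hmax := p.isMaximal
  have hmax' := Q.isMaximal
  let _ : Field (k[X] ⧸ p.asIdeal) := Ideal.Quotient.field _
  let _ : Field (k'[X] ⧸ Q.asIdeal) := Ideal.Quotient.field _
  let _ : Algebra (k[X] ⧸ p.asIdeal) (k'[X] ⧸ Q.asIdeal) := (resMap hQ.above).toAlgebra
  have hfin := finite_quot Q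
  have hfin' := finite_quot p
  have hfd : Module.Finite (k[X] ⧸ p.asIdeal) (k'[X] ⧸ Q.asIdeal) := Module.Finite.of_finite
  obtain ⟨e, he0, he, -⟩ := hΦ.val hQ.above
  have hcard2 : Nat.card (k'[X] ⧸ Q.asIdeal)
      = Nat.card (k[X] ⧸ p.asIdeal) ^ Module.finrank (k[X] ⧸ p.asIdeal) (k'[X] ⧸ Q.asIdeal) :=
    Module.natCard_eq_pow_finrank
  have hodd := deg_odd hΦ hQ hn hh he hcard2
  rw [Nat.odd_mul] at hodd
  have hw : (Ideal.Quotient.mk Q.asIdeal z') ^ 2 + Ideal.Quotient.mk Q.asIdeal z'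
      = algebraMap (k[X] ⧸ p.asIdeal) (k'[X] ⧸ Q.asIdeal) (Ideal.Quotient.mk p.asIdeal (-y)) := by
    change _ = resMap hQ.above (Ideal.Quotient.mk p.asIdeal (-y))
    rw [resMap_mk, map_neg, map_neg, ← sub_eq_zero, sub_neg_eq_add, ← map_pow, ← map_add,
      ← map_add, Ideal.Quotient.eq_zero_iff_mem]
    exact hz
  obtain ⟨z, hz⟩ := root_of_odd hodd.2 hw
  obtain ⟨z, rfl⟩ := Ideal.Quotient.mk_surjective z
  refine ⟨z, ?_⟩
  rw [map_neg, ← sub_eq_zero, sub_neg_eq_add, ← map_pow, ← map_add, ← map_add,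
    Ideal.Quotient.eq_zero_iff_mem] at hz
  exact hz

/-- the ramification index is odd -/
theorem e_odd {Φ : RatFunc k →+* RatFunc k'} (hΦ : Subst Φ h) (hQ : OnlyAbove h Q p)
    (hn : Odd (Module.finrank k k')) (hh : Odd h.natDegree) {e : ℕ}
    (he : finAbv Q (Φ (algebraMap k[X] (RatFunc k) (gQ p))) = 2⁻¹ ^ e) : Odd e := by
  have hmax := p.isMaximal
  have hmax' := Q.isMaximal
  let _ : Field (k[X] ⧸ p.asIdeal) := Ideal.Quotient.field _
  let _ : Field (k'[X] ⧸ Q.asIdeal) := Ideal.Quotient.field _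
  let _ : Algebra (k[X] ⧸ p.asIdeal) (k'[X] ⧸ Q.asIdeal) := (resMap hQ.above).toAlgebra
  have hfin := finite_quot Q
  have hfin' := finite_quot p
  have hfd : Module.Finite (k[X] ⧸ p.asIdeal) (k'[X] ⧸ Q.asIdeal) := Module.Finite.of_finite
  have hcard2 : Nat.card (k'[X] ⧸ Q.asIdeal)
      = Nat.card (k[X] ⧸ p.asIdeal) ^ Module.finrank (k[X] ⧸ p.asIdeal) (k'[X] ⧸ Q.asIdeal) :=
    Module.natCard_eq_pow_finrank
  have hodd := deg_odd hΦ hQ hn hh he hcard2
  rw [Nat.odd_mul] at hodd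
  exact hodd.1

theorem NS_up {Φ : RatFunc k →+* RatFunc k'} (hΦ : Subst Φ h) (hQ : OnlyAbove h Q p)
    (hn : Odd (Module.finrank k k')) (hh : Odd h.natDegree) [CharP k 2] [CharP k' 2]
    {r : RatFunc k} (hr : finAbv p r ≤ 1) : NS Q (Φ r) ↔ NS p r := by
  obtain ⟨y, hy⟩ := poly_approx p hr
  obtain ⟨e, he0, he, hval⟩ := hΦ.val hQ.above
  have hy' : finAbv Q (Φ r - algebraMap k'[X] (RatFunc k') (aeval h y)) < 1 := by
    rw [← hΦ y, ← map_sub, hval]
    exact pow_lt_one₀ ((finAbv p).nonneg _) hy he0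
  rw [NS_iff p (gQ_span p) hy, NS_iff Q (gQ_span Q) hy']
  constructor
  · intro h1 z hz
    apply h1 (aeval h z)
    rw [← mem_gen (gQ_span p), hQ.above, map_add, map_add, map_pow, mem_gen (gQ_span Q)] at hz
    exact hz
  · intro h1 z' hz
    rw [← mem_gen (gQ_span Q)] at hz
    obtain ⟨z, hz⟩ := root_down hΦ hQ hn hh hz
    rw [mem_gen (gQ_span p)] at hz
    exact h1 z hz

theorem TT_up {Φ : RatFunc k →+* RatFunc k'} (hΦ : Subst Φ h) (hQ : OnlyAbove h Q p)
    (hn : Odd (Module.finrank k k')) (hh : Odd h.natDegree) [CharP k 2] [CharP k' 2]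
    {r : RatFunc k} (hr : finAbv p r ≤ 1) : TT Q (Φ r) = TT p r := by
  by_cases h1 : NS p r
  · rw [TT_eq_one.mpr h1, TT_eq_one.mpr ((NS_up hΦ hQ hn hh hr).mpr h1)]
  · rw [TT_eq_zero.mpr h1, TT_eq_zero.mpr fun h2 => h1 ((NS_up hΦ hQ hn hh hr).mp h2)]

end Res

section

variable {h : k'[X]} {Q : HeightOneSpectrum k'[X]} {p : HeightOneSpectrum k[X]}
variable {Φ : RatFunc k →+* RatFunc k'} (hΦ : Subst Φ h)
include hΦ

/-- the polar parts -/
theorem pp_up [Finite k'] (hh : h.natDegree ≠ 0) (hQ : OnlyAbove h Q p) (a : RatFunc k) :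
    pp Q (Φ a) = Φ (pp p a) := by
  apply pp_eq
  · constructor
    · intro Q' hQ'
      obtain ⟨p', hp'⟩ := below (k := k) h Q'
      have hab : Above h Q' p' := by
        intro f
        rw [hp']; rfl
      obtain ⟨e, he0, -, hval⟩ := hΦ.val hab
      rw [hval]
      apply pow_le_one₀ ((finAbv p').nonneg _)
      apply pp_int
      rintro rfl
      exact hQ' (hQ.only _ hab)
    · rw [hΦ.inf _ hh]
      exact pow_lt_one₀ ((infAbv k).nonneg _) (pp_polar p a).2 hh
  · obtain ⟨e, he0, -, hval⟩ := hΦ.val hQ.above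
    rw [← map_sub, hval]
    exact pow_le_one₀ ((finAbv p).nonneg _) (pp_reg p a)

end

/-- regularity of a logarithmic differential -/
theorem om_even [Finite k] [CharP k 2] {f : RatFunc k} {p : HeightOneSpectrum k[X]} {n : ℤ}
    (hf : finAbv p f = (2 : ℝ) ^ n) : finAbv p (om f) ≤ 1 ↔ Even n := by
  constructor
  · intro h
    by_contra hn
    exact om_pole hf hn h
  · rintro ⟨j, hj⟩
    have hg0 : algebraMap k[X] (RatFunc k) (gQ p) ≠ 0 := by
      rw [Ne, FaithfulSMul.algebraMap_eq_zero_iff]; exact (gQ_irr p).ne_zero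
    set s := algebraMap k[X] (RatFunc k) (gQ p) ^ (-j) with hs
    have hs0 : s ≠ 0 := zpow_ne_zero _ hg0
    obtain ⟨u, hu⟩ : ∃ u, f = s ^ 2 * u := ⟨f / s ^ 2, by field_simp⟩
    have hsv : finAbv p s = (2 : ℝ) ^ j := by
      rw [hs, map_zpow₀, abv_gQ, inv_zpow, zpow_neg, inv_inv]
    have hu1 : finAbv p u = 1 := by
      have h1 : finAbv p s ^ 2 * finAbv p u = (2 : ℝ) ^ n := by
        rw [← hf, hu, map_mul, map_pow]
      rw [hsv, ← zpow_natCast, ← zpow_mul, hj] at h1
      have h2 : j + j = j * ((2 : ℕ) : ℤ) := by push_cast; ring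
      rw [h2] at h1
      have h3 : (0 : ℝ) < (2 : ℝ) ^ (j * ((2 : ℕ) : ℤ)) := by positivity
      exact mul_left_cancel₀ h3.ne' (by rw [h1, mul_one])
    have hom : om f = om u := by
      unfold om
      rw [hu, basisX.C_sq_mul]
      by_cases hu0 : u = 0
      · rw [hu0, mul_zero, div_zero, div_zero]
      · field_simp
    rw [hom]
    exact om_reg hu1

end Pool.Agent.H2
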