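import Pool.Agent.H2.GClass

/-!
# Base change: the extension `k'(X)` of `k(X)` given by `X ↦ h`
-/

namespace Pool.Agent.H2

open Polynomial IsDedekindDomain

universe u

variable {k k' : Type u} [Field k] [Field k'] [Algebra k k']

/-- `Φ : k(X) → k'(X)` is the substitution `X ↦ h`, compatible with `k ⊆ k'`. -/
def Subst (Φ : RatFunc k →+* RatFunc k') (h : k'[X]) : Prop :=
  ∀ f : k[X], Φ (algebraMap k[X] (RatFunc k) f) = algebraMap k'[X] (RatFunc k') (aeval h f)

theorem aeval_comp (h : k'[X]) (f : k[X]) : aeval h f = (f.map (algebraMap k k')).comp h := by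
  rw [Polynomial.comp, eval₂_map, aeval_def]
  rfl

theorem natDegree_aeval (h : k'[X]) (f : k[X]) :
    (aeval h f : k'[X]).natDegree = f.natDegree * h.natDegree := by
  rw [aeval_comp, natDegree_comp, natDegree_map]

/-- the residue field -/
theorem card_quot [Finite k] {g : k[X]} (hg : g ≠ 0) :
    Nat.card (k[X] ⧸ Ideal.span {g}) = Nat.card k ^ g.natDegree := by
  have h1 : Module.Finite k (k[X] ⧸ Ideal.span {g}) := (AdjoinRoot.powerBasis hg).finite
  have h2 := Module.natCard_eq_pow_finrank (K := k) (V := k[X] ⧸ Ideal.span {g})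
  rw [h2, finrank_quotient_span_eq_natDegree]

theorem finite_quot [Finite k] (p : HeightOneSpectrum k[X]) : Finite (k[X] ⧸ p.asIdeal) := by
  have h0 := (gQ_irr p).ne_zero
  rw [gQ_span p]
  have h1 : Module.Finite k (k[X] ⧸ Ideal.span {gQ p}) := (AdjoinRoot.powerBasis h0).finite
  exact Module.finite_of_finite k

theorem finAbv_num_denom (p : HeightOneSpectrum k[X]) {x : RatFunc k} (hx : finAbv p x = 1) :
    x.num ∉ p.asIdeal ∧ x.denom ∉ p.asIdeal := by
  have e := RatFunc.num_div_denom x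
  have hd : algebraMap k[X] (RatFunc k) x.denom ≠ 0 := by
    rw [Ne, FaithfulSMul.algebraMap_eq_zero_iff]; exact x.denom_ne_zero
  have h1 : finAbv p (algebraMap k[X] (RatFunc k) x.num)
      = finAbv p (algebraMap k[X] (RatFunc k) x.denom) := by
    have h2 : algebraMap k[X] (RatFunc k) x.num = x * algebraMap k[X] (RatFunc k) x.denom := by
      exact (div_eq_iff hd).mp e
    rw [h2, map_mul, hx, one_mul]
  have h3 : x.num ∈ p.asIdeal ↔ x.denom ∈ p.asIdeal := by
    rw [← finAbv_lt_one, ← finAbv_lt_one, h1]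
  have h4 : ¬ (x.num ∈ p.asIdeal ∧ x.denom ∈ p.asIdeal) := by
    rintro ⟨h5, h6⟩
    obtain ⟨α, β, hαβ⟩ := RatFunc.isCoprime_num_denom x
    apply p.isPrime.ne_top
    rw [Ideal.eq_top_iff_one, ← hαβ]
    exact p.asIdeal.add_mem (p.asIdeal.mul_mem_left _ h5) (p.asIdeal.mul_mem_left _ h6)
  tauto

/-- the polynomial `g` of the place `p` has absolute value `1 / 2` -/
theorem abv_gQ (p : HeightOneSpectrum k[X]) : finAbv p (algebraMap k[X] (RatFunc k) (gQ p)) = 2⁻¹ :=
  finAbv_unif (gQ_irr p) (gQ_span p)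

section

variable {Φ : RatFunc k →+* RatFunc k'} {h : k'[X]} (hΦ : Subst Φ h)
include hΦ

theorem Subst.inj {f : k[X]} (hf : aeval h f = (0 : k'[X])) : f = 0 := by
  have h1 := hΦ f
  rw [hf, map_zero, map_eq_zero] at h1
  exact (FaithfulSMul.algebraMap_eq_zero_iff k[X] (RatFunc k)).mp h1

theorem Subst.inf (x : RatFunc k) (hh : h.natDegree ≠ 0) :
    infAbv k' (Φ x) = infAbv k x ^ h.natDegree := by
  by_cases hx : x = 0
  · rw [hx, map_zero, map_zero, map_zero, zero_pow hh]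
  have hpoly : ∀ f : k[X], f ≠ 0 → infAbv k' (Φ (algebraMap k[X] (RatFunc k) f))
      = infAbv k (algebraMap k[X] (RatFunc k) f) ^ h.natDegree := by
    intro f hf
    have h0 : (aeval h f : k'[X]) ≠ 0 := fun h1 => hf (hΦ.inj h1)
    rw [hΦ f, infAbv_poly h0, infAbv_poly hf, natDegree_aeval, Nat.cast_mul, zpow_mul,
      zpow_natCast]
  have e := RatFunc.num_div_denom x
  rw [← e, map_div₀, map_div₀, map_div₀, div_pow, hpoly _ (RatFunc.num_ne_zero hx),
    hpoly _ x.denom_ne_zero]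

end

theorem below (h : k'[X]) [Finite k'] (Q : HeightOneSpectrum k'[X]) :
    ∃ p : HeightOneSpectrum k[X],
      p.asIdeal = Q.asIdeal.comap (aeval h : k[X] →ₐ[k] k'[X]).toRingHom := by
  have hfin := finite_quot Q
  refine ⟨⟨Q.asIdeal.comap (aeval h : k[X] →ₐ[k] k'[X]).toRingHom, inferInstance, ?_⟩, rfl⟩
  intro hbot
  have hinj : Function.Injective ((Ideal.Quotient.mk Q.asIdeal).comp
      (aeval h : k[X] →ₐ[k] k'[X]).toRingHom) := by
    rw [RingHom.injective_iff_ker_eq_bot, ← RingHom.comap_ker, Ideal.mk_ker]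
    exact hbot
  exact not_injective_infinite_finite _ hinj

/-- `Q` lies above `p` -/
def Above (h : k'[X]) (Q : HeightOneSpectrum k'[X]) (p : HeightOneSpectrum k[X]) : Prop :=
  ∀ f : k[X], f ∈ p.asIdeal ↔ (aeval h f : k'[X]) ∈ Q.asIdeal

theorem Above.of_mem {h : k'[X]} {Q : HeightOneSpectrum k'[X]} {p : HeightOneSpectrum k[X]}
    (hg : (aeval h (gQ p) : k'[X]) ∈ Q.asIdeal) : Above h Q p := by
  have h1 : p.asIdeal ≤ Q.asIdeal.comap (aeval h : k[X] →ₐ[k] k'[X]).toRingHom := by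
    rw [gQ_span p, Ideal.span_le, Set.singleton_subset_iff]
    exact hg
  have h2 : Q.asIdeal.comap (aeval h : k[X] →ₐ[k] k'[X]).toRingHom ≠ ⊤ := by
    rw [Ne, Ideal.comap_eq_top_iff]
    exact Q.isPrime.ne_top
  have h3 := p.isMaximal.eq_of_le h2 h1
  intro f
  rw [h3]
  rfl

theorem Above.uniq {h : k'[X]} {Q : HeightOneSpectrum k'[X]} {p p' : HeightOneSpectrum k[X]}
    (h1 : Above h Q p) (h2 : Above h Q p') : p = p' := by
  apply HeightOneSpectrum.ext
  ext f
  rw [h1 f, h2 f]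

section

variable {Φ : RatFunc k →+* RatFunc k'} {h : k'[X]} (hΦ : Subst Φ h)
include hΦ

theorem Subst.unit {Q : HeightOneSpectrum k'[X]} {p : HeightOneSpectrum k[X]} (hQ : Above h Q p)
    {x : RatFunc k} (hx : finAbv p x = 1) : finAbv Q (Φ x) = 1 := by
  obtain ⟨h1, h2⟩ := finAbv_num_denom p hx
  have key : ∀ f : k[X], f ∉ p.asIdeal → finAbv Q (Φ (algebraMap k[X] (RatFunc k) f)) = 1 := by
    intro f hf
    rw [hΦ f]
    apply le_antisymm (finAbv_poly Q _)
    by_contra h3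
    rw [not_le, finAbv_lt_one, ← hQ f] at h3
    exact hf h3
  rw [← RatFunc.num_div_denom x, map_div₀, map_div₀, key _ h1, key _ h2, div_one]

/-- **The values of a place above `p`.** -/
theorem Subst.val {Q : HeightOneSpectrum k'[X]} {p : HeightOneSpectrum k[X]} (hQ : Above h Q p) :
    ∃ e : ℕ, e ≠ 0 ∧ finAbv Q (Φ (algebraMap k[X] (RatFunc k) (gQ p))) = 2⁻¹ ^ e ∧
      ∀ x : RatFunc k, finAbv Q (Φ x) = finAbv p x ^ e := by
  have hg0 : algebraMap k[X] (RatFunc k) (gQ p) ≠ 0 := by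
    rw [Ne, FaithfulSMul.algebraMap_eq_zero_iff]; exact (gQ_irr p).ne_zero
  have hgΦ : Φ (algebraMap k[X] (RatFunc k) (gQ p)) ≠ 0 := by rwa [Ne, map_eq_zero]
  obtain ⟨n, hn⟩ := finAbv_disc Q _ hgΦ
  have h1 : finAbv Q (Φ (algebraMap k[X] (RatFunc k) (gQ p))) < 1 := by
    rw [hΦ, finAbv_lt_one, ← hQ, gQ_span p]
    exact Ideal.mem_span_singleton_self _
  have hn0 : n < 0 := by
    by_contra h2
    have := one_le_zpow₀ (by norm_num : (1 : ℝ) ≤ 2) (not_lt.mp h2)
    rw [hn] at h1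
    linarith
  obtain ⟨e, he⟩ : ∃ e : ℕ, n = -(e : ℤ) := ⟨(-n).toNat, by omega⟩
  have hge : finAbv Q (Φ (algebraMap k[X] (RatFunc k) (gQ p))) = 2⁻¹ ^ e := by
    rw [hn, he, zpow_neg, zpow_natCast, inv_pow]
  have he0 : e ≠ 0 := by omega
  refine ⟨e, he0, hge, fun x => ?_⟩
  by_cases hx : x = 0
  · rw [hx, map_zero, map_zero, map_zero, zero_pow he0]
  obtain ⟨j, hj⟩ := finAbv_disc p x hx
  have h2 : finAbv p (x * algebraMap k[X] (RatFunc k) (gQ p) ^ j) = 1 := by
    rw [map_mul, map_zpow₀, hj, abv_gQ, inv_zpow, mul_inv_cancel₀]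
    positivity
  have h3 := hΦ.unit hQ h2
  rw [map_mul, map_mul, map_zpow₀, map_zpow₀, hge] at h3
  have h4 : (0 : ℝ) < (2⁻¹ ^ e) ^ j := by positivity
  have h5 : finAbv Q (Φ x) = ((2⁻¹ ^ e) ^ j)⁻¹ := by
    field_simp at h3 ⊢
    exact h3
  rw [h5, hj]
  rw [← zpow_natCast, ← zpow_natCast, inv_zpow, inv_zpow, inv_inv, ← zpow_mul, ← zpow_mul]
  congr 1
  ring

end

end Pool.Agent.H2
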