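import Pool.Agent.H2.Tuple

/-!
# Counting in boxes of polynomials
-/

namespace Pool.Agent.H2

open Polynomial

universe u

/-- fibres of a surjective homomorphism -/
theorem card_fiber {G T : Type*} [AddCommGroup G] [AddCommGroup T] (Φ : G →+ T)
    (h : Function.Surjective Φ) (y : T) :
    Nat.card {g // Φ g = y} * Nat.card T = Nat.card G := by
  choose σ hσ using h
  rw [← Nat.card_prod]
  refine Nat.card_congr
    { toFun := fun p => p.1.1 + σ p.2
      invFun := fun g => (⟨g - σ (Φ g - y), ?_⟩, Φ g - y)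
      left_inv := ?_
      right_inv := ?_ }
  · rw [map_sub, hσ]; abel
  · rintro ⟨⟨g, hg⟩, t⟩
    have e : Φ (g + σ t) - y = t := by rw [map_add, hσ, hg]; abel
    simp only
    ext
    · simp only [e]; abel
    · exact e
  · intro g
    simp only
    abel

/-- bound by fibres -/
theorem card_le_of_fiber {A B : Type*} [Finite A] [Finite B] (f : A → B) (T : Set B)
    (hT : ∀ a, f a ∈ T) (c : ℕ) (hc : ∀ b, Nat.card {a // f a = b} ≤ c) :
    Nat.card A ≤ c * Nat.card T := by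
  classical
  have := Fintype.ofFinite A
  have := Fintype.ofFinite B
  have h1 : Nat.card A = ∑ b : T, Nat.card {a // f a = b} := by
    rw [← Nat.card_sigma]
    refine Nat.card_congr
      { toFun := fun a => ⟨⟨f a, hT a⟩, ⟨a, rfl⟩⟩
        invFun := fun p => p.2.1
        left_inv := fun a => rfl
        right_inv := ?_ }
    rintro ⟨⟨b, hb⟩, ⟨a, ha⟩⟩
    simp only at ha
    subst ha
    rfl
  rw [h1]
  calc ∑ b : T, Nat.card {a // f a = b} ≤ ∑ _b : T, c := Finset.sum_le_sum fun b _ => hc b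
    _ = c * Nat.card T := by
      rw [Finset.sum_const, smul_eq_mul, Finset.card_univ, ← Nat.card_eq_fintype_card, mul_comm]

variable {k : Type u} [Field k]

/-- the box of polynomials of degree less than `n` -/
abbrev Bx (k : Type u) [Field k] (n : ℕ) := ↥(Polynomial.degreeLT k n)

/-- pairs -/
abbrev Pr (k : Type u) [Field k] (n₁ n₂ : ℕ) := Bx k n₁ × Bx k n₂

theorem Bx_degree {n : ℕ} (f : Bx k n) : f.1.degree < (n : WithBot ℕ) := mem_degreeLT.mp f.2

theorem card_Bx (n : ℕ) : Nat.card (Bx k n) = Nat.card k ^ n := by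
  rw [Nat.card_congr (degreeLTEquiv k n).toEquiv, Nat.card_fun, Nat.card_eq_fintype_card (α := Fin n),
    Fintype.card_fin]

theorem card_Pr (n₁ n₂ : ℕ) : Nat.card (Pr k n₁ n₂) = Nat.card k ^ (n₁ + n₂) := by
  rw [Nat.card_prod, card_Bx, card_Bx, pow_add]

instance [Finite k] (n : ℕ) : Finite (Bx k n) :=
  Finite.of_equiv _ (degreeLTEquiv k n).symm.toEquiv

/-- the underlying pair of polynomials -/
def toPair {n₁ n₂ : ℕ} : Pr k n₁ n₂ →+ k[X] × k[X] where
  toFun p := (p.1.1, p.2.1)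
  map_zero' := rfl
  map_add' _ _ := rfl

theorem degree_mod_lt {f L : k[X]} (hL : L ≠ 0) {n : ℕ} (hn : L.natDegree ≤ n) :
    (f % L).degree < (n : WithBot ℕ) := by
  have h1 : (f % L).degree < L.degree := EuclideanDomain.mod_lt _ hL
  rw [degree_eq_natDegree hL] at h1
  exact lt_of_lt_of_le h1 (by exact_mod_cast hn)

/-- combining residues with leading coefficients -/
theorem surj_combine {T U : Type*} [AddCommGroup T] [AddCommGroup U] {n₁ n₂ m₁ m₂ : ℕ}
    (Φ : k[X] × k[X] →+ T) (L : k[X]) (hL : L ≠ 0) (hΦL : ∀ g h : k[X], Φ (L * g, L * h) = 0)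
    (hΦ : Function.Surjective Φ) (hm₁ : L.natDegree ≤ m₁) (hm₂ : L.natDegree ≤ m₂)
    (hn₁ : m₁ ≤ n₁) (hn₂ : m₂ ≤ n₂)
    (Ψ : Pr k n₁ n₂ →+ U) (hΨ : Function.Surjective Ψ)
    (hΨ0 : ∀ p : Pr k n₁ n₂, p.1.1.degree < (m₁ : WithBot ℕ) → p.2.1.degree < (m₂ : WithBot ℕ) →
      Ψ p = 0) :
    Function.Surjective ((Φ.comp toPair).prod Ψ) := by
  rintro ⟨t, c⟩
  obtain ⟨p₀, hp₀⟩ := hΨ c
  obtain ⟨⟨f, g⟩, hfg⟩ := hΦ (t - Φ (toPair p₀))
  have e : Φ (f % L, g % L) = Φ (f, g) := by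
    have h1 : (f, g) = (f % L, g % L) + (L * (f / L), L * (g / L)) := by
      ext1
      · change f = f % L + L * (f / L)
        rw [add_comm]; exact (EuclideanDomain.div_add_mod f L).symm
      · change g = g % L + L * (g / L)
        rw [add_comm]; exact (EuclideanDomain.div_add_mod g L).symm
    rw [h1, map_add, hΦL, add_zero]
  have d1 : (f % L).degree < (m₁ : WithBot ℕ) := degree_mod_lt hL hm₁
  have d2 : (g % L).degree < (m₂ : WithBot ℕ) := degree_mod_lt hL hm₂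
  have w1 : (m₁ : WithBot ℕ) ≤ n₁ := by exact_mod_cast hn₁
  have w2 : (m₂ : WithBot ℕ) ≤ n₂ := by exact_mod_cast hn₂
  refine ⟨p₀ + (⟨f % L, mem_degreeLT.mpr (d1.trans_le w1)⟩,
    ⟨g % L, mem_degreeLT.mpr (d2.trans_le w2)⟩), ?_⟩
  ext1
  · change Φ (toPair (p₀ + _)) = t
    rw [map_add, map_add]
    change Φ (toPair p₀) + Φ (f % L, g % L) = t
    rw [e, hfg]; abel
  · change Ψ (p₀ + _) = c
    rw [map_add, hp₀, hΨ0 _ d1 d2, add_zero]

/-- the case without leading coefficients -/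
theorem surj_box {T : Type*} [AddCommGroup T] {n₁ n₂ : ℕ}
    (Φ : k[X] × k[X] →+ T) (L : k[X]) (hL : L ≠ 0) (hΦL : ∀ g h : k[X], Φ (L * g, L * h) = 0)
    (hΦ : Function.Surjective Φ) (hn₁ : L.natDegree ≤ n₁) (hn₂ : L.natDegree ≤ n₂) :
    Function.Surjective (Φ.comp (toPair (k := k) (n₁ := n₁) (n₂ := n₂))) := by
  intro t
  obtain ⟨p, hp⟩ := surj_combine Φ L hL hΦL hΦ hn₁ hn₂ le_rfl le_rfl
    (0 : Pr k n₁ n₂ →+ Unit) (fun c => ⟨0, rfl⟩) (fun _ _ _ => rfl) (t, 0)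
  exact ⟨p, congrArg Prod.fst hp⟩

end Pool.Agent.H2
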