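import Pool.Agent.H2.TwoBasis

/-!
# The 2-descent map of an elliptic curve in characteristic two
-/

namespace Pool.Agent.H2

open WeierstrassCurve

variable {L : Type*} [Field L] {τ : L} (h : TwoBasis τ) (W : WeierstrassCurve.Affine L)

/-- the quantity `D` of the curve, with `Δ = a₃⁴ + a₁³ a₃³ + a₁⁴ D` -/
def Dd : L := W.a₁ ^ 2 * W.a₆ + W.a₁ * W.a₃ * W.a₄ + W.a₂ * W.a₃ ^ 2 + W.a₄ ^ 2

/-- the quantity `κ`, with `Δ = Δ₀² + τ (a₁ κ)²` -/
noncomputable def kap : L := W.a₃ * h.C (W.a₁ * W.a₃) + W.a₁ * h.C (Dd W)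

/-- the quantity `Δ₀` -/
noncomputable def del : L := W.a₃ ^ 2 + W.a₁ * W.a₃ * h.E (W.a₁ * W.a₃) + W.a₁ ^ 2 * h.E (Dd W)

/-- `w = a₁ (a₁ x + a₃)` -/
def wf (x : L) : L := W.a₁ * (W.a₁ * x + W.a₃)

/-- `u = a₃² + a₁² a₄ + a₁³ y` -/
def uf (y : L) : L := W.a₃ ^ 2 + W.a₁ ^ 2 * W.a₄ + W.a₁ ^ 3 * y

/-- the descent function -/
noncomputable def cf (x : L) : L :=
  (kap h W ^ 2 + W.a₁ * kap h W * h.E (wf W x) * h.C (wf W x)
    + del h W * h.C (wf W x) ^ 2) / wf W x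

variable {W}
include h

theorem disc_eq : W.Δ = W.a₃ ^ 4 + W.a₁ ^ 3 * W.a₃ ^ 3 + W.a₁ ^ 4 * Dd W := by
  have := h.charP
  simp only [WeierstrassCurve.Δ, WeierstrassCurve.b₂, WeierstrassCurve.b₄, WeierstrassCurve.b₆,
    WeierstrassCurve.b₈, Dd]
  grind

theorem disc_eq_del : W.Δ = del h W ^ 2 + τ * (W.a₁ * kap h W) ^ 2 := by
  have := h.charP
  rw [disc_eq h]
  unfold del kap
  have h1 := h.spec (W.a₁ * W.a₃)
  have h2 := h.spec (Dd W)
  grind

theorem E_disc : h.E W.Δ = del h W := h.E_eq (disc_eq_del h)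

theorem C_disc : h.C W.Δ = W.a₁ * kap h W := h.C_eq (disc_eq_del h)

theorem disc_eq_uw {x y : L} (hxy : W.Equation x y) :
    W.Δ = uf W y ^ 2 + W.a₁ ^ 2 * (wf W x * (uf W y + (x + W.a₂) * wf W x)) := by
  have := h.charP
  rw [disc_eq h]
  rw [Affine.equation_iff] at hxy
  unfold uf wf Dd
  grind

/-- `κ` in terms of a point -/
theorem kap_eq (ha : W.a₁ ≠ 0) {x y : L} (hxy : W.Equation x y) :
    kap h W = h.E (uf W y + (x + W.a₂) * wf W x) * h.C (wf W x)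
      + h.E (wf W x) * h.C (uf W y + (x + W.a₂) * wf W x) := by
  have h1 := C_disc h (W := W)
  rw [disc_eq_uw h hxy, h.C_add, h.C_sq, h.C_sq_mul, h.C_mul] at h1
  rw [zero_add] at h1
  have h2 := mul_left_cancel₀ ha h1
  rw [← h2]; ring

theorem del_eq {x y : L} (hxy : W.Equation x y) :
    del h W = h.E (uf W y + (x + W.a₂) * wf W x) ^ 2
      + W.a₁ * h.E (uf W y + (x + W.a₂) * wf W x) * h.E (wf W x)
      + (x + W.a₂) * h.E (wf W x) ^ 2
      + τ * (h.C (uf W y + (x + W.a₂) * wf W x) ^ 2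
      + W.a₁ * h.C (uf W y + (x + W.a₂) * wf W x) * h.C (wf W x)
      + (x + W.a₂) * h.C (wf W x) ^ 2) := by
  have := h.charP
  have h1 := E_disc h (W := W)
  rw [disc_eq_uw h hxy, h.E_add, h.E_sq, h.E_sq_mul, h.E_mul] at h1
  have h2 := h.spec (uf W y + (x + W.a₂) * wf W x)
  have h3 := h.spec (wf W x)
  grind

theorem w_ne_zero (hk : W.a₁ * kap h W ≠ 0) {x y : L} (hxy : W.Equation x y) : wf W x ≠ 0 := by
  intro h0
  apply hk
  rw [← C_disc h, disc_eq_uw h hxy, h0]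
  simp

/-- the descent function as a norm -/
theorem cf_eq (hk : W.a₁ * kap h W ≠ 0) {x y : L} (hxy : W.Equation x y) :
    cf h W x = h.C (uf W y + (x + W.a₂) * wf W x) ^ 2
      + W.a₁ * h.C (uf W y + (x + W.a₂) * wf W x) * h.C (wf W x)
      + (x + W.a₂) * h.C (wf W x) ^ 2 := by
  have := h.charP
  have hw := w_ne_zero h hk hxy
  have ha : W.a₁ ≠ 0 := left_ne_zero_of_mul hk
  unfold cf
  rw [div_eq_iff hw, kap_eq h ha hxy, del_eq h hxy]
  have h3 := h.spec (wf W x)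
  set w := wf W x
  set g := uf W y + (x + W.a₂) * w
  generalize h.E w = ew at *
  generalize h.C w = cw at *
  generalize h.E g = eg at *
  generalize h.C g = cg at *
  rw [h3]
  grind

/-- the fundamental equation -/
theorem fund_eq (hk : W.a₁ * kap h W ≠ 0) {x y : L} (hxy : W.Equation x y) :
    ∃ V : L, V ^ 2 + W.a₁ * kap h W * V + kap h W ^ 2 * (x + W.a₂)
      = cf h W x * (del h W + τ * cf h W x) := by
  have := h.charP
  have ha : W.a₁ ≠ 0 := left_ne_zero_of_mul hk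
  rw [cf_eq h hk hxy, kap_eq h ha hxy, del_eq h hxy]
  set w := wf W x
  set g := uf W y + (x + W.a₂) * w
  generalize h.E w = ew at *
  generalize h.C w = cw at *
  generalize h.E g = eg at *
  generalize h.C g = cg at *
  refine ⟨eg * cg + W.a₁ * eg * cw + (x + W.a₂) * ew * cw, ?_⟩
  grind

/-- the square of the descent function -/
theorem cf_sq (x : L) (hw : wf W x ≠ 0) :
    cf h W x ^ 2 = kap h W ^ 4 / wf W x ^ 2
      + (W.a₁ * kap h W) ^ 2 * (h.D (wf W x) / wf W x)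
      + W.Δ * (h.D (wf W x) / wf W x) ^ 2 := by
  have := h.charP
  unfold cf TwoBasis.D
  rw [disc_eq_del h]
  have h3 := h.spec (wf W x)
  set w := wf W x
  generalize h.E w = ew at *
  generalize h.C w = cw at *
  generalize kap h W = k at *
  generalize del h W = d at *
  field_simp
  have : ew ^ 2 = w + τ * cw ^ 2 := by grind
  grind

/-! ## Additivity -/

section Add

variable [DecidableEq L]

theorem collinear {x₁ x₂ y₁ y₂ : L} (h₁ : W.Equation x₁ y₁) (h₂ : W.Equation x₂ y₂)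
    (hxy : ¬(x₁ = x₂ ∧ y₁ = W.negY x₂ y₂)) :
    ∃ n : L, wf W x₁ * wf W x₂ * wf W (W.addX x₁ x₂ (W.slope x₁ x₂ y₁ y₂)) = W.Δ + n ^ 2 ∧
      wf W x₁ * wf W x₂ + wf W x₁ * wf W (W.addX x₁ x₂ (W.slope x₁ x₂ y₁ y₂))
        + wf W x₂ * wf W (W.addX x₁ x₂ (W.slope x₁ x₂ y₁ y₂)) = W.a₁ ^ 2 * n := by
  have := h.charP
  have hp := Affine.addPolynomial_slope h₁ h₂ hxy
  rw [Affine.addPolynomial_eq, neg_inj, Cubic.prod_X_sub_C_eq, Cubic.toPoly_injective] at hp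
  have hb := congrArg Cubic.b hp
  have hc := congrArg Cubic.c hp
  have hd := congrArg Cubic.d hp
  simp only at hb hc hd
  rw [disc_eq h]
  generalize W.slope x₁ x₂ y₁ y₂ = l at *
  generalize W.addX x₁ x₂ l = x₃ at *
  have h2 : (2 : L) = 0 := h.two
  refine ⟨W.a₁ ^ 2 * (l * (W.a₃ + W.a₁ * x₁) + W.a₁ * y₁) + W.a₃ ^ 2 + W.a₁ ^ 2 * W.a₄, ?_, ?_⟩
  · unfold wf Dd
    grind
  · unfold wf
    grind

theorem cf_add (hk : W.a₁ * kap h W ≠ 0) {x₁ x₂ y₁ y₂ : L} (h₁ : W.Equation x₁ y₁)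
    (h₂ : W.Equation x₂ y₂) (hxy : ¬(x₁ = x₂ ∧ y₁ = W.negY x₂ y₂)) :
    cf h W (W.addX x₁ x₂ (W.slope x₁ x₂ y₁ y₂)) = cf h W x₁ + cf h W x₂ := by
  have := h.charP
  obtain ⟨n, e3, e2⟩ := collinear h h₁ h₂ hxy
  have h₃ := Affine.equation_negAdd h₁ h₂ hxy
  generalize W.slope x₁ x₂ y₁ y₂ = l at *
  generalize W.addX x₁ x₂ l = x₃ at *
  have w1 := w_ne_zero h hk h₁
  have w2 := w_ne_zero h hk h₂
  have w3 := w_ne_zero h hk h₃
  have c1 := cf_sq h x₁ w1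
  have c2 := cf_sq h x₂ w2
  have c3 := cf_sq h x₃ w3
  have hp : wf W x₁ * wf W x₂ * wf W x₃ ≠ 0 := mul_ne_zero (mul_ne_zero w1 w2) w3
  have hl : h.D (wf W x₁) / wf W x₁ + h.D (wf W x₂) / wf W x₂ + h.D (wf W x₃) / wf W x₃
      = (W.a₁ * kap h W) ^ 2 / (wf W x₁ * wf W x₂ * wf W x₃) := by
    rw [← h.dlog_mul w1 w2, ← h.dlog_mul (mul_ne_zero w1 w2) w3, e3, h.D_add, h.D_sq, add_zero]
    congr 1
    unfold TwoBasis.D
    rw [C_disc h]
  have hi : 1 / wf W x₁ + 1 / wf W x₂ + 1 / wf W x₃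
      = W.a₁ ^ 2 * n / (wf W x₁ * wf W x₂ * wf W x₃) := by
    rw [← e2]
    field_simp
    ring
  apply h.sq_inj
  have hs : (cf h W x₁ + cf h W x₂) ^ 2 = cf h W x₁ ^ 2 + cf h W x₂ ^ 2 := by grind
  rw [hs, c1, c2, c3]
  have g1 : kap h W ^ 4 / wf W x₁ ^ 2 = kap h W ^ 4 * (1 / wf W x₁) ^ 2 := by field_simp
  have g2 : kap h W ^ 4 / wf W x₂ ^ 2 = kap h W ^ 4 * (1 / wf W x₂) ^ 2 := by field_simp
  have g3 : kap h W ^ 4 / wf W x₃ ^ 2 = kap h W ^ 4 * (1 / wf W x₃) ^ 2 := by field_simp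
  rw [g1, g2, g3]
  have hi2 : (W.a₁ ^ 2 * n / (wf W x₁ * wf W x₂ * wf W x₃)) * (wf W x₁ * wf W x₂ * wf W x₃)
      = W.a₁ ^ 2 * n := by field_simp
  have hl2 : ((W.a₁ * kap h W) ^ 2 / (wf W x₁ * wf W x₂ * wf W x₃))
      * (wf W x₁ * wf W x₂ * wf W x₃) = (W.a₁ * kap h W) ^ 2 := by field_simp
  rw [← hi] at hi2
  rw [← hl] at hl2
  generalize 1 / wf W x₁ = i1 at *
  generalize 1 / wf W x₂ = i2 at *
  generalize 1 / wf W x₃ = i3 at *
  generalize h.D (wf W x₁) / wf W x₁ = l1 at *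
  generalize h.D (wf W x₂) / wf W x₂ = l2 at *
  generalize h.D (wf W x₃) / wf W x₃ = l3 at *
  generalize hP : wf W x₁ * wf W x₂ * wf W x₃ = p at *
  generalize kap h W = k at *
  have key : (k ^ 4 * (i1 + i2 + i3) ^ 2 + (W.a₁ * k) ^ 2 * (l1 + l2 + l3)
      + W.Δ * (l1 + l2 + l3) ^ 2) * p ^ 2 = 0 := by
    have e : (k ^ 4 * (i1 + i2 + i3) ^ 2 + (W.a₁ * k) ^ 2 * (l1 + l2 + l3)
      + W.Δ * (l1 + l2 + l3) ^ 2) * p ^ 2
      = k ^ 4 * ((i1 + i2 + i3) * p) ^ 2 + (W.a₁ * k) ^ 2 * ((l1 + l2 + l3) * p) * p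
      + W.Δ * ((l1 + l2 + l3) * p) ^ 2 := by ring
    rw [e, hi2, hl2, e3]
    grind
  have key2 := (mul_eq_zero.mp key).resolve_right (pow_ne_zero 2 hp)
  grind

/-- The descent map as a homomorphism to the additive group. -/
noncomputable def cHom (hk : W.a₁ * kap h W ≠ 0) : W.Point →+ L where
  toFun P := match P with
    | .zero => 0
    | .some x _ _ => cf h W x
  map_zero' := rfl
  map_add' := by
    have := h.charP
    rintro (_ | ⟨x₁, y₁, h₁⟩) (_ | ⟨x₂, y₂, h₂⟩)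
    · exact (add_zero (0 : L)).symm
    · exact (zero_add _).symm
    · exact (add_zero _).symm
    · by_cases hxy : x₁ = x₂ ∧ y₁ = W.negY x₂ y₂
      · rw [Affine.Point.add_of_Y_eq hxy.1 hxy.2]
        change (0 : L) = cf h W x₁ + cf h W x₂
        rw [hxy.1]
        grind
      · rw [Affine.Point.add_some hxy]
        exact cf_add h hk h₁.1 h₂.1 hxy

@[simp] theorem cHom_zero (hk : W.a₁ * kap h W ≠ 0) : cHom h hk .zero = 0 := rfl

@[simp] theorem cHom_some (hk : W.a₁ * kap h W ≠ 0) (x y : L) (hxy : W.Nonsingular x y) :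
    cHom h hk (.some x y hxy) = cf h W x := rfl

omit h [DecidableEq L] in
theorem half_rho [CharP L 2] {a₁ a₃ a₄ x y l e xQ w : L} (ha : a₁ ≠ 0)
    (hw : w = a₁ * (a₁ * x + a₃))
    (hsq : a₃ ^ 2 + a₁ ^ 2 * a₄ + a₁ ^ 3 * y + a₁ * l * w = e ^ 2)
    (hxQ : a₁ * xQ = e + a₃) :
    xQ ^ 2 = a₄ + a₁ * (y + a₁ * x + a₃ + (l + a₁) * x) + a₃ * (l + a₁) := by
  have h1 : a₁ ^ 2 * xQ ^ 2 = a₁ ^ 2 * (a₄ + a₁ * (y + a₁ * x + a₃ + (l + a₁) * x)
      + a₃ * (l + a₁)) := by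
    have h2 : a₁ ^ 2 * xQ ^ 2 = (e + a₃) ^ 2 := by rw [← hxQ]; ring
    rw [h2]
    have h3 : (e + a₃) ^ 2 = e ^ 2 + a₃ ^ 2 := by grind
    rw [h3, ← hsq, hw]
    grind
  exact mul_left_cancel₀ (pow_ne_zero 2 ha) h1

/-- The kernel of the descent map. -/
theorem exists_half (hk : W.a₁ * kap h W ≠ 0) (P : W.Point) (hP : cHom h hk P = 0) :
    ∃ Q : W.Point, Q + Q = P := by
  have := h.charP
  rcases P with _ | ⟨x, y, hxy⟩
  · exact ⟨0, add_zero _⟩
  rw [cHom_some] at hP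
  have ha : W.a₁ ≠ 0 := left_ne_zero_of_mul hk
  have hk0 : kap h W ≠ 0 := right_ne_zero_of_mul hk
  obtain ⟨V, hV⟩ := fund_eq h hk hxy.1
  rw [hP, zero_mul] at hV
  -- `s ^ 2 + a₁ s = x + a₂`
  obtain ⟨s, hs⟩ : ∃ s : L, s ^ 2 + W.a₁ * s = x + W.a₂ := by
    refine ⟨V / kap h W, ?_⟩
    field_simp
    grind
  have hc := cf_eq h hk hxy.1
  rw [hP] at hc
  set w := wf W x with hw
  set g := uf W y + (x + W.a₂) * w with hg
  -- choose the right root
  obtain ⟨l, hl, hl2⟩ : ∃ l : L, l ^ 2 + W.a₁ * l = x + W.a₂ ∧ h.C g + l * h.C w = 0 := by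
    have : (h.C g + s * h.C w) * (h.C g + (s + W.a₁) * h.C w) = 0 := by
      generalize h.C w = cw at *
      generalize h.C g = cg at *
      grind
    rcases mul_eq_zero.mp this with h1 | h1
    · exact ⟨s, hs, h1⟩
    · exact ⟨s + W.a₁, by grind, h1⟩
  -- `u + a₁ l w = e ^ 2`
  have hsq : uf W y + W.a₁ * l * w = (h.E g + l * h.E w) ^ 2 := by
    have h3 := h.spec w
    have h4 := h.spec g
    generalize h.C w = cw at *
    generalize h.C g = cg at *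
    generalize h.E w = ew at *
    generalize h.E g = eg at *
    have : uf W y = g + (x + W.a₂) * w := by grind
    grind
  set e := h.E g + l * h.E w with he
  have he0 : e ≠ 0 := by
    intro h0
    rw [h0] at hsq
    have : W.Δ = 0 := by
      rw [disc_eq_uw h hxy.1]
      grind
    apply hk
    rw [← C_disc h, this, h.C_zero]
  clear_value e
  -- the point
  have heq := (Affine.equation_iff _ _).mp hxy.1
  have hxyeq := hxy.1
  let xQ := (e + W.a₃) / W.a₁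
  have hxQ : W.a₁ * xQ = e + W.a₃ := by simp only [xQ]; field_simp
  clear_value xQ
  have hρ : xQ ^ 2 = W.a₄ + W.a₁ * (y + W.a₁ * x + W.a₃ + (l + W.a₁) * x)
      + W.a₃ * (l + W.a₁) := half_rho ha hw hsq hxQ
  clear hV hc hg hw hsq he hl2 hP hs
  set m := l + W.a₁ with hm
  have hm2 : m ^ 2 + W.a₁ * m = x + W.a₂ := by grind
  let yQ := m * xQ + (y + W.a₁ * x + W.a₃ + m * x)
  have hyQ : yQ = m * xQ + (y + W.a₁ * x + W.a₃ + m * x) := rfl
  clear_value yQ m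
  have hQ : W.Equation xQ yQ := by
    rw [Affine.equation_iff]
    grind
  have hns : yQ ≠ W.negY xQ yQ := by
    intro h0
    unfold Affine.negY at h0
    apply he0
    grind
  have hQn : W.Nonsingular xQ yQ := by
    rw [Affine.nonsingular_iff]
    refine ⟨hQ, Or.inr ?_⟩
    simpa [Affine.negY] using hns
  refine ⟨.some xQ yQ hQn, ?_⟩
  have hsl : W.slope xQ xQ yQ yQ = m := by
    rw [Affine.slope_of_Y_ne rfl hns, div_eq_iff (sub_ne_zero.mpr hns)]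
    unfold Affine.negY
    grind
  rw [Affine.Point.add_self_of_Y_ne hns]
  simp only [Affine.Point.some.injEq]
  rw [hsl]
  have hX : W.addX xQ xQ m = x := by
    unfold Affine.addX
    grind
  refine ⟨hX, ?_⟩
  unfold Affine.addY Affine.negAddY Affine.negY
  rw [hX]
  grind

end Add

end Pool.Agent.H2
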