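import Pool.Agent.H2.Residue

/-!
# Counting the parameters of a given type
-/

namespace Pool.Agent.H2

open Polynomial

universe u

variable {k : Type u} [Field k] [Finite k] [CharP k 2]

/-- norm of a prime -/
noncomputable def NP (P : IrrM k) : ℕ := Nat.card k ^ P.1.natDegree

/-- good parameters -/
structure GT (a₁ a₃ : k[X]) (d m : ℕ) (S₁ S₀ : Finset (IrrM k)) (A₁ : k[X])
    (p : Pr k (d + m + 1) (d - m + 1) × Pr k (4 * d - 2 * m + 1) (4 * d + 2 * m + 1)) : Prop where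
  star : a₁ ^ 2 ∣ p.1.1.1 ^ 2 * p.2.1.1 + p.1.2.1 ^ 2 * p.2.2.1
      + X * a₁ * A₁ ^ 2 * (a₃ * p.1.2.1 ^ 2 + a₁ * p.2.1.1)
      + a₃ ^ 2 + a₁ * a₃ * (p.1.1.1 * p.1.2.1)
  fin : ∀ P ∈ S₁, ¬ Bad (AdjoinRoot.mk P.1 (X * (a₁ * A₁) ^ 2)) (AdjoinRoot.mk P.1 a₁)
    ((AdjoinRoot.mk P.1 p.1.1.1, AdjoinRoot.mk P.1 p.1.2.1),
      (jet P (a₃ * p.1.2.1 ^ 2 + a₁ * p.2.1.1), jet P (a₃ * p.1.1.1 ^ 2 + a₁ * p.2.2.1)))
  div : ∀ P ∈ S₀, ¬ (P.1 ∣ p.1.1.1 ∧ P.1 ∣ p.1.2.1)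
  inf : ¬ Bad 0 (a₁.coeff d) ((p.1.1.1.coeff (d + m), p.1.2.1.coeff (d - m)),
    (((a₃ * p.1.2.1 ^ 2 + a₁ * p.2.1.1).coeff (5 * d - 2 * m),
      (a₃ * p.1.2.1 ^ 2 + a₁ * p.2.1.1).coeff (5 * d - 2 * m - 1)),
     ((a₃ * p.1.1.1 ^ 2 + a₁ * p.2.2.1).coeff (5 * d + 2 * m),
      (a₃ * p.1.1.1 ^ 2 + a₁ * p.2.2.1).coeff (5 * d + 2 * m - 1))))

/-- the congruence forces unimodularity -/
theorem unimod {a₁ a₃ A₀ B₀ A₁ R₁ R₂ : k[X]} (hcop : IsCoprime a₁ a₃)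
    (h : a₁ ^ 2 ∣ A₀ ^ 2 * R₁ + B₀ ^ 2 * R₂ + X * a₁ * A₁ ^ 2 * (a₃ * B₀ ^ 2 + a₁ * R₁)
      + a₃ ^ 2 + a₁ * a₃ * (A₀ * B₀)) :
    ∃ p p' z, A₀ ^ 2 * p + B₀ ^ 2 * p' + a₁ ^ 2 * z = 1 := by
  obtain ⟨c, hc⟩ := h
  have h1 : IsCoprime a₁ (a₃ ^ 2 + a₁ * (a₃ * A₀ * B₀ + X * A₁ ^ 2 * a₃ * B₀ ^ 2)) :=
    (hcop.pow_right).add_mul_left_right _
  obtain ⟨s, t, hst⟩ : IsCoprime (a₁ ^ 2) (a₃ ^ 2 + a₁ * (a₃ * A₀ * B₀ + X * A₁ ^ 2 * a₃ * B₀ ^ 2)) :=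
    h1.pow_left
  refine ⟨-t * R₁, -t * R₂, s + t * (c - X * A₁ ^ 2 * R₁), ?_⟩
  linear_combination hst - t * hc

/-- leading coefficients of a pair -/
def topA {n₁ n₂ : ℕ} : Pr k (n₁ + 1) (n₂ + 1) →+ k × k where
  toFun p := (p.1.1.coeff n₁, p.2.1.coeff n₂)
  map_zero' := by simp
  map_add' p q := by simp

theorem topA_surj {n₁ n₂ : ℕ} : Function.Surjective (topA (k := k) (n₁ := n₁) (n₂ := n₂)) := by
  rintro ⟨x, y⟩
  have h : ∀ (n : ℕ) (x : k), (C x * X ^ n : k[X]) ∈ degreeLT k (n + 1) := by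
    intro n x
    rw [mem_degreeLT]
    refine lt_of_le_of_lt (degree_C_mul_X_pow_le n x) ?_
    exact_mod_cast Nat.lt_succ_self n
  refine ⟨(⟨_, h n₁ x⟩, ⟨_, h n₂ y⟩), ?_⟩
  apply Prod.ext
  · change (C x * X ^ n₁ : k[X]).coeff n₁ = x
    simp
  · change (C y * X ^ n₂ : k[X]).coeff n₂ = y
    simp

theorem topA_zero {n₁ n₂ : ℕ} (p : Pr k (n₁ + 1) (n₂ + 1)) (h₁ : p.1.1.degree < (n₁ : WithBot ℕ))
    (h₂ : p.2.1.degree < (n₂ : WithBot ℕ)) : topA p = 0 := by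
  apply Prod.ext
  · exact coeff_eq_zero_of_degree_lt h₁
  · exact coeff_eq_zero_of_degree_lt h₂

/-- two leading coefficients of `a R` -/
noncomputable def topR (a : k[X]) (t₁ t₂ : ℕ) {n₁ n₂ : ℕ} :
    Pr k n₁ n₂ →+ (k × k) × (k × k) where
  toFun p := (((a * p.1.1).coeff t₁, (a * p.1.1).coeff (t₁ - 1)),
    ((a * p.2.1).coeff t₂, (a * p.2.1).coeff (t₂ - 1)))
  map_zero' := by simp
  map_add' p q := by
    simp only [Prod.fst_add, Prod.snd_add, Submodule.coe_add, mul_add, coeff_add]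
    rfl

theorem exists_top {a : k[X]} {d n : ℕ} (ha : a.natDegree = d) (ha0 : a ≠ 0) (x y : k) :
    ∃ f : k[X], f.degree < ((n + 2 : ℕ) : WithBot ℕ) ∧ (a * f).coeff (d + n + 1) = x ∧
      (a * f).coeff (d + n) = y := by
  have hl : a.coeff d ≠ 0 := by
    rw [← ha]; exact leadingCoeff_ne_zero.mpr ha0
  obtain ⟨r₀, hr₀⟩ : ∃ r, r = x / a.coeff d := ⟨_, rfl⟩
  have hz : a.coeff (d + 1) = 0 := coeff_eq_zero_of_natDegree_lt (by omega)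
  by_cases hd : d = 0
  · subst hd
    refine ⟨C r₀ * X ^ (n + 1) + C (y / a.coeff 0) * X ^ n, ?_, ?_, ?_⟩
    · refine lt_of_le_of_lt (degree_add_le _ _) (max_lt ?_ ?_)
      · exact lt_of_le_of_lt (degree_C_mul_X_pow_le _ _) (by exact_mod_cast Nat.lt_succ_self _)
      · exact lt_of_le_of_lt (degree_C_mul_X_pow_le _ _) (by exact_mod_cast by omega)
    · have e : a * (C r₀ * X ^ (n + 1) + C (y / a.coeff 0) * X ^ n)
        = (C r₀ * a) * X ^ (n + 1) + (C (y / a.coeff 0) * a) * X ^ n := by ring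
      rw [e, coeff_add, show 0 + n + 1 = 0 + (n + 1) by ring, coeff_mul_X_pow,
        show 0 + (n + 1) = 1 + n by ring, coeff_mul_X_pow, coeff_C_mul, coeff_C_mul]
      rw [show (1 : ℕ) = 0 + 1 by rfl, hz, hr₀]
      field_simp
      ring
    · have e : a * (C r₀ * X ^ (n + 1) + C (y / a.coeff 0) * X ^ n)
        = (C r₀ * a) * X ^ (n + 1) + (C (y / a.coeff 0) * a) * X ^ n := by ring
      rw [e, coeff_add, coeff_mul_X_pow', if_neg (by omega), coeff_mul_X_pow, coeff_C_mul]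
      field_simp
      ring
  · refine ⟨C r₀ * X ^ (n + 1) + C ((y - r₀ * a.coeff (d - 1)) / a.coeff d) * X ^ n, ?_, ?_, ?_⟩
    · refine lt_of_le_of_lt (degree_add_le _ _) (max_lt ?_ ?_)
      · exact lt_of_le_of_lt (degree_C_mul_X_pow_le _ _) (by exact_mod_cast Nat.lt_succ_self _)
      · exact lt_of_le_of_lt (degree_C_mul_X_pow_le _ _) (by exact_mod_cast by omega)
    · have e : a * (C r₀ * X ^ (n + 1) + C ((y - r₀ * a.coeff (d - 1)) / a.coeff d) * X ^ n)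
        = (C r₀ * a) * X ^ (n + 1) + (C ((y - r₀ * a.coeff (d - 1)) / a.coeff d) * a) * X ^ n := by
        ring
      rw [e, coeff_add, show d + n + 1 = d + (n + 1) by ring, coeff_mul_X_pow,
        show d + (n + 1) = (d + 1) + n by ring, coeff_mul_X_pow, coeff_C_mul, coeff_C_mul, hz, hr₀]
      field_simp
      ring
    · have e : a * (C r₀ * X ^ (n + 1) + C ((y - r₀ * a.coeff (d - 1)) / a.coeff d) * X ^ n)
        = (C r₀ * a) * X ^ (n + 1) + (C ((y - r₀ * a.coeff (d - 1)) / a.coeff d) * a) * X ^ n := by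
        ring
      rw [e, coeff_add, coeff_mul_X_pow, coeff_C_mul]
      have e2 : ((C r₀ * a) * X ^ (n + 1)).coeff (d + n) = r₀ * a.coeff (d - 1) := by
        rw [show d + n = (d - 1) + (n + 1) by omega, coeff_mul_X_pow, coeff_C_mul]
      rw [e2]
      field_simp
      ring

theorem topR_surj {a : k[X]} {d : ℕ} (ha : a.natDegree = d) (ha0 : a ≠ 0) {n₁ n₂ : ℕ} :
    Function.Surjective (topR a (d + n₁ + 1) (d + n₂ + 1) (n₁ := n₁ + 2) (n₂ := n₂ + 2)) := by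
  rintro ⟨⟨x, y⟩, ⟨z, w⟩⟩
  obtain ⟨f, hf, h1, h2⟩ := exists_top (n := n₁) ha ha0 x y
  obtain ⟨g, hg, h3, h4⟩ := exists_top (n := n₂) ha ha0 z w
  refine ⟨(⟨f, mem_degreeLT.mpr hf⟩, ⟨g, mem_degreeLT.mpr hg⟩), ?_⟩
  apply Prod.ext <;> apply Prod.ext
  · exact h1
  · exact h2
  · exact h3
  · exact h4

theorem topR_zero {a : k[X]} {d : ℕ} (ha : a.natDegree = d) {n₁ n₂ : ℕ}
    (p : Pr k (n₁ + 2) (n₂ + 2)) (h₁ : p.1.1.degree < (n₁ : WithBot ℕ))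
    (h₂ : p.2.1.degree < (n₂ : WithBot ℕ)) : topR a (d + n₁ + 1) (d + n₂ + 1) p = 0 := by
  have hda : a.degree < ((d + 1 : ℕ) : WithBot ℕ) := by
    refine lt_of_le_of_lt degree_le_natDegree ?_
    rw [ha]
    exact_mod_cast Nat.lt_succ_self d
  have key : ∀ (f : k[X]) (n : ℕ), f.degree < (n : WithBot ℕ) → ∀ i, d + n ≤ i →
      (a * f).coeff i = 0 := by
    intro f n hf i hi
    apply coeff_eq_zero_of_degree_lt
    refine lt_of_lt_of_le (degree_mul_lt' hda hf) ?_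
    exact_mod_cast hi
  apply Prod.ext <;> apply Prod.ext
  · exact key _ _ h₁ _ (by omega)
  · exact key _ _ h₁ _ (by omega)
  · exact key _ _ h₂ _ (by omega)
  · exact key _ _ h₂ _ (by omega)

end Pool.Agent.H2
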