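import Pool.Agent.H2.Types
import Pool.Agent.H2.Omega

/-!
# Densities of coprime pairs
-/

namespace Pool.Agent.H2

open Polynomial

universe u

/-- preimages under surjective homomorphisms -/
theorem card_preimage {G T : Type*} [AddCommGroup G] [AddCommGroup T] [Finite G] [Finite T]
    (Φ : G →+ T) (h : Function.Surjective Φ) (A : Set T) :
    Nat.card {g // Φ g ∈ A} * Nat.card T = Nat.card A * Nat.card G := by
  classical
  have := Fintype.ofFinite T
  have h1 : Nat.card {g // Φ g ∈ A} = ∑ b : A, Nat.card {g // Φ g = b.1} := by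
    rw [← Nat.card_sigma]
    refine Nat.card_congr
      { toFun := fun a => ⟨⟨Φ a.1, a.2⟩, ⟨a.1, rfl⟩⟩
        invFun := fun p => ⟨p.2.1, by rw [p.2.2]; exact p.1.2⟩
        left_inv := fun a => rfl
        right_inv := ?_ }
    rintro ⟨⟨b, hb⟩, ⟨a, ha⟩⟩
    simp only at ha
    subst ha
    rfl
  rw [h1, Finset.sum_mul]
  rw [Finset.sum_congr rfl fun b _ => card_fiber Φ h b.1, Finset.sum_const, smul_eq_mul,
    Finset.card_univ, ← Nat.card_eq_fintype_card]

variable {k : Type u} [Field k] [Finite k] [CharP k 2]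

theorem NP_pos (P : IrrM k) : 0 < NP P := pow_pos Nat.card_pos _

theorem two_le_NP (P : IrrM k) : 2 ≤ NP P := by
  have h1 : 1 < Nat.card k := Finite.one_lt_card
  have h2 : 1 ≤ P.1.natDegree := P.2.2.natDegree_pos
  calc 2 ≤ Nat.card k ^ 1 := by rw [pow_one]; exact h1
    _ ≤ NP P := Nat.pow_le_pow_right Nat.card_pos h2

/-- the local density factor, as a real number -/
noncomputable def dens (P : IrrM k) : ℝ := 1 - ((NP P : ℝ) ^ 2)⁻¹

theorem dens_nonneg (P : IrrM k) : 0 ≤ dens P := by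
  have h : (2 : ℝ) ≤ NP P := by exact_mod_cast two_le_NP P
  unfold dens
  have : ((NP P : ℝ) ^ 2)⁻¹ ≤ 1 := inv_le_one_of_one_le₀ (by nlinarith)
  linarith

theorem dens_le_one (P : IrrM k) : dens P ≤ 1 := by
  unfold dens
  have : 0 ≤ ((NP P : ℝ) ^ 2)⁻¹ := by positivity
  linarith

open scoped Classical in
/-- pairs avoiding one residue at each prime of `S` -/
theorem card_avoid (S : Finset (IrrM k)) {n₁ n₂ : ℕ} (h₁ : (prS S).natDegree ≤ n₁)
    (h₂ : (prS S).natDegree ≤ n₂) (v : ∀ P : S, RF P.1 × RF P.1) :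
    (Nat.card {p : Pr k n₁ n₂ // ∀ P : S, (resHom S (toPair p)) P ≠ v P} : ℝ)
      = (Nat.card k : ℝ) ^ (n₁ + n₂) * ∏ P ∈ S, dens P := by
  have h3 := card_preimage _ (surj_box (n₁ := n₁) (n₂ := n₂) (resHom S) (prS S) (prS_ne_zero S)
    (resHom_L S) (resHom_surj S) h₁ h₂) {y | ∀ P : S, y P ≠ v P}
  rw [card_Pr] at h3
  have e1 : Nat.card (∀ P : S, RF P.1 × RF P.1) = ∏ P ∈ S, NP P ^ 2 := by
    rw [Nat.card_pi, ← Finset.prod_coe_sort S (fun P => NP P ^ 2)]
    refine Finset.prod_congr rfl fun P _ => ?_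
    rw [Nat.card_prod, card_RF, ← pow_two]
    rfl
  have e2 : Nat.card {y : (∀ P : S, RF P.1 × RF P.1) | ∀ P : S, y P ≠ v P}
      = ∏ P ∈ S, (NP P ^ 2 - 1) := by
    have e3 : Nat.card {y : (∀ P : S, RF P.1 × RF P.1) | ∀ P : S, y P ≠ v P}
        = Nat.card (∀ P : S, {y : RF P.1 × RF P.1 // y ≠ v P}) := by
      refine Nat.card_congr
        { toFun := fun y P => ⟨y.1 P, y.2 P⟩
          invFun := fun y => ⟨fun P => (y P).1, fun P => (y P).2⟩
          left_inv := fun y => rfl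
          right_inv := fun y => rfl }
    rw [e3, Nat.card_pi, ← Finset.prod_coe_sort S (fun P => NP P ^ 2 - 1)]
    refine Finset.prod_congr rfl fun P _ => ?_
    have := Fintype.ofFinite (RF P.1)
    rw [Nat.card_eq_fintype_card, Fintype.card_subtype_compl, Fintype.card_prod,
      ← Nat.card_eq_fintype_card, card_RF]
    simp [NP, pow_two]
  rw [e1, e2] at h3
  have h4 : ((Nat.card {g : Pr k n₁ n₂ // ((resHom S).comp toPair) g ∈
      {y : (∀ P : S, RF P.1 × RF P.1) | ∀ P : S, y P ≠ v P}} * ∏ P ∈ S, NP P ^ 2 : ℕ) : ℝ)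
      = (((∏ P ∈ S, (NP P ^ 2 - 1)) * Nat.card k ^ (n₁ + n₂) : ℕ) : ℝ) := by exact_mod_cast h3
  have e5 : ((∏ P ∈ S, (NP P ^ 2 - 1) : ℕ) : ℝ)
      = (∏ P ∈ S, (NP P : ℝ) ^ 2) * ∏ P ∈ S, dens P := by
    rw [Nat.cast_prod, ← Finset.prod_mul_distrib]
    refine Finset.prod_congr rfl fun P _ => ?_
    have hn2 : 1 ≤ NP P ^ 2 := Nat.one_le_pow _ _ (NP_pos P)
    have hnR : (0 : ℝ) < NP P := by exact_mod_cast NP_pos P
    rw [Nat.cast_sub hn2]
    unfold dens
    push_cast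
    field_simp
  rw [Nat.cast_mul, Nat.cast_mul, e5] at h4
  push_cast at h4
  have hpos : 0 < ∏ P ∈ S, (NP P : ℝ) ^ 2 :=
    Finset.prod_pos fun P _ => pow_pos (by exact_mod_cast NP_pos P) 2
  have h5 : (Nat.card {g : Pr k n₁ n₂ // ((resHom S).comp toPair) g ∈
      {y : (∀ P : S, RF P.1 × RF P.1) | ∀ P : S, y P ≠ v P}} : ℝ) * ∏ P ∈ S, (NP P : ℝ) ^ 2
      = ((Nat.card k : ℝ) ^ (n₁ + n₂) * ∏ P ∈ S, dens P) * ∏ P ∈ S, (NP P : ℝ) ^ 2 := by
    rw [h4]; ring
  exact mul_right_cancel₀ hpos.ne' h5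

/-- primes of degree at most `s` -/
theorem finite_irr (s : ℕ) : {P : IrrM k | P.1.natDegree ≤ s}.Finite := by
  have h1 : Finite {P : IrrM k | P.1.natDegree ≤ s} := by
    apply Finite.of_injective (fun P : {P : IrrM k | P.1.natDegree ≤ s} =>
      (⟨P.1.1, by
        rw [mem_degreeLT]
        refine lt_of_le_of_lt degree_le_natDegree ?_
        have h1 : P.1.1.natDegree ≤ s := P.2
        exact_mod_cast Nat.lt_succ_of_le h1⟩ : Bx k (s + 1)))
    intro P P' h
    have h2 := congrArg Subtype.val h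
    exact Subtype.ext (Subtype.ext h2)
  exact Set.toFinite _

/-- the set of primes of degree at most `s` -/
noncomputable def SS (k : Type u) [Field k] [Finite k] [CharP k 2] (s : ℕ) : Finset (IrrM k) :=
  (finite_irr s).toFinset

theorem mem_SS {s : ℕ} {P : IrrM k} : P ∈ SS k s ↔ P.1.natDegree ≤ s := by
  unfold SS
  simp

/-- the smooth part of a common divisor -/
theorem smooth_dvd {s : ℕ} {h h' f f' g g' : k[X]} (hm : h.Monic) (hs : h.natDegree ≤ s)
    (hgood : ∀ P : IrrM k, P.1.natDegree ≤ s → ¬ (P.1 ∣ f' ∧ P.1 ∣ g'))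
    (hf : h * f = h' * f') (hg : h * g = h' * g') : h ∣ h' := by
  classical
  have hh0 : h ≠ 0 := hm.ne_zero
  obtain ⟨c, hc⟩ : ∃ c, c = EuclideanDomain.gcd h h' := ⟨_, rfl⟩
  obtain ⟨x, hx⟩ : c ∣ h := by rw [hc]; exact EuclideanDomain.gcd_dvd_left h h'
  obtain ⟨x', hx'⟩ : c ∣ h' := by rw [hc]; exact EuclideanDomain.gcd_dvd_right h h'
  have hc0 : c ≠ 0 := by rintro h0; exact hh0 (by rw [hx, h0, zero_mul])
  have hxx : IsCoprime x x' := by
    have h1 := EuclideanDomain.gcd_eq_gcd_ab h h'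
    rw [← hc] at h1
    refine ⟨EuclideanDomain.gcdA h h', EuclideanDomain.gcdB h h', ?_⟩
    apply mul_left_cancel₀ hc0
    calc c * (EuclideanDomain.gcdA h h' * x + EuclideanDomain.gcdB h h' * x')
        = (c * x) * EuclideanDomain.gcdA h h' + (c * x') * EuclideanDomain.gcdB h h' := by ring
      _ = h * EuclideanDomain.gcdA h h' + h' * EuclideanDomain.gcdB h h' := by rw [← hx, ← hx']
      _ = c * 1 := by rw [← h1, mul_one]
  have hf' : x * f = x' * f' := by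
    apply mul_left_cancel₀ hc0
    rw [← mul_assoc, ← mul_assoc, ← hx, ← hx']; exact hf
  have hg' : x * g = x' * g' := by
    apply mul_left_cancel₀ hc0
    rw [← mul_assoc, ← mul_assoc, ← hx, ← hx']; exact hg
  have hx0 : x ≠ 0 := by rintro rfl; exact hh0 (by rw [hx, mul_zero])
  by_cases hu : IsUnit x
  · obtain ⟨w, hw⟩ := isUnit_iff_exists_inv.mp hu
    exact ⟨w * x', by rw [hx]; rw [hx']; linear_combination (-(c * x')) * hw⟩
  · exfalso
    obtain ⟨P, hP⟩ := exists_irrM hu hx0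
    have hPs : P.1.natDegree ≤ s := by
      have h1 : P.1 ∣ h := by rw [hx]; exact dvd_mul_of_dvd_right hP c
      exact (natDegree_le_of_dvd h1 hh0).trans hs
    have hPx' : IsCoprime P.1 x' := hxx.of_isCoprime_of_dvd_left hP
    apply hgood P hPs
    constructor
    · apply hPx'.dvd_of_dvd_mul_left
      rw [← hf']; exact dvd_mul_of_dvd_left hP f
    · apply hPx'.dvd_of_dvd_mul_left
      rw [← hg']; exact dvd_mul_of_dvd_left hP g

/-- Euler product inequality -/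
theorem euler (s : ℕ) :
    (∏ P ∈ SS k s, dens P) * ∑ j ∈ Finset.range (s + 1), ((Nat.card k : ℝ) ^ j)⁻¹ ≤ 1 := by
  classical
  obtain ⟨n, hn⟩ : ∃ n, n = (prS (SS k s)).natDegree + s := ⟨_, rfl⟩
  let good : ∀ j : ℕ, Type u := fun j =>
    {p : Pr k (n - j) (n - j) // ∀ P : SS k s, (resHom (SS k s) (toPair p)) P ≠ 0}
  have hdeg : ∀ (j : ℕ) (b : Bx k j), (X ^ j + b.1 : k[X]).Monic ∧ (X ^ j + b.1 : k[X]).natDegree = j := by
    intro j b
    have hb := Bx_degree b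
    exact ⟨monic_X_pow_add hb, natDegree_eq_of_degree_eq_some (by
      rw [degree_add_eq_left_of_degree_lt (by rw [degree_X_pow]; exact hb), degree_X_pow])⟩
  have hmul : ∀ (j : ℕ) (b : Bx k j) (hj : j ≤ s) (f : Bx k (n - j)),
      (X ^ j + b.1) * f.1 ∈ degreeLT k n := by
    intro j b hj f
    rw [mem_degreeLT]
    have h1 := degree_mul_lt' (degree_a₁ (hdeg j b).2) (Bx_degree f)
    have e : j + (n - j) = n := by omega
    rwa [e] at h1
  let F : (Σ j : Fin (s + 1), Bx k j × good j) → Pr k n n := fun z =>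
    (⟨(X ^ (z.1 : ℕ) + z.2.1.1) * z.2.2.1.1.1, hmul z.1 z.2.1 (by omega) z.2.2.1.1⟩,
      ⟨(X ^ (z.1 : ℕ) + z.2.1.1) * z.2.2.1.2.1, hmul z.1 z.2.1 (by omega) z.2.2.1.2⟩)
  have hgood : ∀ (j : ℕ) (p : good j) (P : IrrM k), P.1.natDegree ≤ s →
      ¬ (P.1 ∣ p.1.1.1 ∧ P.1 ∣ p.1.2.1) := by
    rintro j ⟨p, hp⟩ P hP ⟨h1, h2⟩
    apply hp ⟨P, mem_SS.mpr hP⟩
    exact Prod.ext (AdjoinRoot.mk_eq_zero.mpr h1) (AdjoinRoot.mk_eq_zero.mpr h2)
  have hF : Function.Injective F := by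
    rintro ⟨j, b, p⟩ ⟨j', b', p'⟩ h
    have h1 : (X ^ (j : ℕ) + b.1) * p.1.1.1 = (X ^ (j' : ℕ) + b'.1) * p'.1.1.1 :=
      congrArg (fun z => z.1.1) h
    have h2 : (X ^ (j : ℕ) + b.1) * p.1.2.1 = (X ^ (j' : ℕ) + b'.1) * p'.1.2.1 :=
      congrArg (fun z => z.2.1) h
    obtain ⟨m1, n1⟩ := hdeg j b
    obtain ⟨m2, n2⟩ := hdeg j' b'
    have hd1 := smooth_dvd (s := s) m1 (by omega) (hgood j' p') h1 h2
    have hd2 := smooth_dvd (s := s) m2 (by omega) (hgood j p) h1.symm h2.symm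
    have heq : (X ^ (j : ℕ) + b.1 : k[X]) = X ^ (j' : ℕ) + b'.1 :=
      eq_of_monic_of_associated m1 m2 (associated_of_dvd_dvd hd1 hd2)
    have hjj : j = j' := by
      apply Fin.ext
      rw [← n1, ← n2, heq]
    subst hjj
    have hbb : b = b' := Subtype.ext (add_left_cancel heq)
    subst hbb
    have hne : (X ^ (j : ℕ) + b.1 : k[X]) ≠ 0 := m1.ne_zero
    have hpp : p = p' := Subtype.ext (Prod.ext (Subtype.ext (mul_left_cancel₀ hne h1))
      (Subtype.ext (mul_left_cancel₀ hne h2)))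
    subst hpp
    rfl
  have hle := Nat.card_le_card_of_injective F hF
  rw [Nat.card_sigma, card_Pr] at hle
  have hle' : (∑ j : Fin (s + 1), (Nat.card (Bx k j × good j) : ℝ)) ≤ (Nat.card k : ℝ) ^ (n + n) := by
    exact_mod_cast hle
  have hterm : ∀ j : Fin (s + 1), (Nat.card (Bx k j × good j) : ℝ)
      = (Nat.card k : ℝ) ^ (n + n) * ((∏ P ∈ SS k s, dens P) * ((Nat.card k : ℝ) ^ (j : ℕ))⁻¹) := by
    intro j
    have hj : (j : ℕ) ≤ s := by omega
    have h1 := card_avoid (SS k s) (n₁ := n - j) (n₂ := n - j) (by omega) (by omega) 0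
    have h2 : (Nat.card (good j) : ℝ)
      = (Nat.card k : ℝ) ^ (n - j + (n - j)) * ∏ P ∈ SS k s, dens P := h1
    rw [Nat.card_prod, Nat.cast_mul, h2, card_Bx]
    have hq0 : (Nat.card k : ℝ) ≠ 0 := by
      have : (0 : ℝ) < Nat.card k := by exact_mod_cast Nat.card_pos
      exact this.ne'
    have e : n + n = (n - j + (n - j)) + j + j := by omega
    have e2 : (Nat.card k : ℝ) ^ (n + n) = (Nat.card k : ℝ) ^ (n - j + (n - j))
      * (Nat.card k : ℝ) ^ (j : ℕ) * (Nat.card k : ℝ) ^ (j : ℕ) := by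
      rw [← pow_add, ← pow_add]; exact congrArg _ e
    rw [e2]
    push_cast
    field_simp
  rw [Finset.sum_congr rfl fun j _ => hterm j, ← Finset.mul_sum, ← Finset.mul_sum,
    Fin.sum_univ_eq_sum_range (fun j => ((Nat.card k : ℝ) ^ j)⁻¹)] at hle'
  have hpos : (0 : ℝ) < (Nat.card k : ℝ) ^ (n + n) := by
    have : (0 : ℝ) < Nat.card k := by exact_mod_cast Nat.card_pos
    positivity
  have h9 : (Nat.card k : ℝ) ^ (n + n) * ((∏ P ∈ SS k s, dens P) *
      ∑ j ∈ Finset.range (s + 1), ((Nat.card k : ℝ) ^ j)⁻¹) ≤ (Nat.card k : ℝ) ^ (n + n) * 1 := by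
    rw [mul_one]; exact hle'
  exact le_of_mul_le_mul_left h9 hpos

end Pool.Agent.H2
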