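import Pool.Agent.H2.TwoBasis

/-!
# 2-bases in separable extensions and completions
-/

namespace Pool.Agent.H2

open IntermediateField

/-- A 2-basis of `K` is a 2-basis of any separable algebraic extension. -/
theorem TwoBasis.sep {K M : Type*} [Field K] [Field M] [Algebra K M] [Algebra.IsSeparable K M]
    {τ : K} (h : TwoBasis τ) : TwoBasis (algebraMap K M τ) := by
  have hK := h.charP
  have hM : CharP M 2 := charP_of_injective_algebraMap (algebraMap K M).injective 2
  have hE : ExpChar K 2 := ExpChar.prime Nat.prime_two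
  -- the subalgebra of elements `a ^ 2 + τ b ^ 2`
  let S : Subalgebra K M :=
    { carrier := {z | ∃ a b : M, z = a ^ 2 + algebraMap K M τ * b ^ 2}
      mul_mem' := by
        rintro _ _ ⟨a, b, rfl⟩ ⟨c, d, rfl⟩
        exact ⟨a * c + algebraMap K M τ * (b * d), a * d + b * c, by grind⟩
      add_mem' := by
        rintro _ _ ⟨a, b, rfl⟩ ⟨c, d, rfl⟩
        exact ⟨a + c, b + d, by grind⟩
      algebraMap_mem' := fun r => ⟨algebraMap K M (h.E r), algebraMap K M (h.C r), by
        rw [← map_pow, ← map_pow, ← map_mul, ← map_add, h.spec']⟩ }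
  refine ⟨by simpa using CharTwo.two_eq_zero (R := M), fun u => ?_, fun a b hab => ?_⟩
  · have hsep : IsSeparable K u := Algebra.IsSeparable.isSeparable K u
    have h1 : u ∈ K⟮u⟯ := mem_adjoin_simple_self K u
    rw [IntermediateField.adjoin_simple_eq_adjoin_pow_expChar_of_isSeparable K M hsep 2] at h1
    have halg : IsAlgebraic K (u ^ 2) := (hsep.isIntegral.isAlgebraic).pow 2
    have h2 : u ∈ Algebra.adjoin K {u ^ 2} := by
      rw [← IntermediateField.adjoin_simple_toSubalgebra_of_isAlgebraic halg]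
      exact h1
    have h3 : Algebra.adjoin K {u ^ 2} ≤ S := by
      rw [Algebra.adjoin_le_iff]
      rintro _ rfl
      exact ⟨u, 0, by ring⟩
    exact h3 h2
  · by_contra hb
    set s := a / b with hs
    have hs2 : s ^ 2 = algebraMap K M τ := by
      rw [hs, div_pow, div_eq_iff (pow_ne_zero 2 hb)]
      grind
    have hsep : IsSeparable K s := Algebra.IsSeparable.isSeparable K s
    have h1 : s ∈ K⟮s⟯ := mem_adjoin_simple_self K s
    rw [IntermediateField.adjoin_simple_eq_adjoin_pow_expChar_of_isSeparable K M hsep 2, hs2] at h1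
    have h2 : K⟮algebraMap K M τ⟯ = ⊥ := by
      rw [adjoin_simple_eq_bot_iff]
      exact IntermediateField.algebraMap_mem _ _
    rw [h2, IntermediateField.mem_bot] at h1
    obtain ⟨k, hk⟩ := h1
    have h3 : k ^ 2 = τ := by
      apply (algebraMap K M).injective
      rw [map_pow, hk, hs2]
    have h4 : k ^ 2 + τ * 1 ^ 2 = 0 := by rw [h3]; grind
    exact one_ne_zero (h.uniq k 1 h4)

/-- A discrete place at which `τ` is a 2-basis of the valuation ring. -/
structure GoodPlace {K : Type*} [Field K] (v : AbsoluteValue K ℝ) (τ : K) (c : ℝ) : Prop where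
  one_lt : 1 < c
  nonarch : ∀ x y, v (x + y) ≤ max (v x) (v y)
  disc : ∀ x, x ≠ 0 → ∃ n : ℤ, v x = c ^ n
  unif : ∃ π : K, v π = c⁻¹
  tau : v τ ≤ 1
  star : ∀ a b : K, v (a ^ 2 + τ * b ^ 2) ≤ 1 → v a ≤ 1 ∧ v b ≤ 1
  basis : TwoBasis τ

namespace GoodPlace

variable {K : Type*} [Field K] {v : AbsoluteValue K ℝ} {τ : K} {c : ℝ} (g : GoodPlace v τ c)
include g

theorem nontrivial : v.IsNontrivial := by
  obtain ⟨π, hπ⟩ := g.unif
  have hc := g.one_lt
  refine ⟨π, ?_, ?_⟩
  · rintro rfl
    rw [map_zero] at hπ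
    have : (0 : ℝ) < c⁻¹ := by positivity
    linarith
  · rw [hπ]
    have : c⁻¹ < 1 := inv_lt_one_of_one_lt₀ hc
    exact this.ne

/-- lower bound for the form `a ^ 2 + τ b ^ 2` -/
theorem lower (a b : K) : max (v a) (v b) ^ 2 ≤ c ^ 2 * v (a ^ 2 + τ * b ^ 2) := by
  have hc := g.one_lt
  have hc0 : 0 < c := by linarith
  obtain ⟨π, hπ⟩ := g.unif
  have hπ0 : π ≠ 0 := by
    rintro rfl
    rw [map_zero] at hπ
    have : (0 : ℝ) < c⁻¹ := by positivity
    linarith
  by_cases hab : a = 0 ∧ b = 0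
  · rw [hab.1, hab.2]; simp
  -- the larger one
  obtain ⟨l, hl0, hl⟩ : ∃ l : K, l ≠ 0 ∧ v l = max (v a) (v b) := by
    rcases le_total (v a) (v b) with h1 | h1
    · refine ⟨b, ?_, (max_eq_right h1).symm⟩
      rintro rfl
      apply hab
      refine ⟨?_, rfl⟩
      rw [map_zero] at h1
      exact v.eq_zero.mp (le_antisymm h1 (v.nonneg a))
    · refine ⟨a, ?_, (max_eq_left h1).symm⟩
      rintro rfl
      apply hab
      refine ⟨rfl, ?_⟩
      rw [map_zero] at h1
      exact v.eq_zero.mp (le_antisymm h1 (v.nonneg b))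
  rw [← hl]
  have hvl : 0 < v l := v.pos hl0
  by_contra hlt
  rw [not_le] at hlt
  set m := l * π with hm
  have hm0 : m ≠ 0 := mul_ne_zero hl0 hπ0
  have hvm : v m = v l * c⁻¹ := by rw [hm, map_mul, hπ]
  have h1 : v ((a / m) ^ 2 + τ * (b / m) ^ 2) ≤ 1 := by
    have : (a / m) ^ 2 + τ * (b / m) ^ 2 = (a ^ 2 + τ * b ^ 2) / m ^ 2 := by
      field_simp
    rw [this, map_div₀, map_pow, hvm, div_le_one (by positivity)]
    rw [mul_pow, inv_pow]
    rw [← div_eq_mul_inv, le_div_iff₀ (by positivity)]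
    linarith
  obtain ⟨h2, h3⟩ := g.star _ _ h1
  rw [map_div₀, div_le_one (v.pos hm0)] at h2 h3
  have h4 : v l ≤ v m := by rw [hl]; exact max_le h2 h3
  rw [hvm] at h4
  have h5 : v l * c⁻¹ < v l * 1 := by
    apply mul_lt_mul_of_pos_left _ hvl
    exact inv_lt_one_of_one_lt₀ hc
  linarith

omit g in
theorem norm_algebraMap (x : K) : ‖algebraMap K v.Completion x‖ = v x := by
  have : algebraMap K v.Completion x = ((WithAbs.toAbs v x : WithAbs v) : v.Completion) := rfl
  rw [this, UniformSpace.Completion.norm_coe]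
  rfl

omit g in
theorem dense : DenseRange (algebraMap K v.Completion) := by
  have h1 : DenseRange ((↑) : WithAbs v → v.Completion) := UniformSpace.Completion.denseRange_coe
  intro x
  refine closure_mono ?_ (h1 x)
  rintro _ ⟨y, rfl⟩
  exact ⟨WithAbs.ofAbs y, rfl⟩

theorem ultra : ∀ x y : v.Completion, ‖x + y‖ ≤ max ‖x‖ ‖y‖ := by
  intro x y
  refine UniformSpace.Completion.induction_on₂ x y ?_ ?_
  · exact isClosed_le (by fun_prop) (by fun_prop)
  · intro a b
    rw [← UniformSpace.Completion.coe_add, UniformSpace.Completion.norm_coe,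
      UniformSpace.Completion.norm_coe, UniformSpace.Completion.norm_coe]
    exact g.nonarch _ _

/-- lower bound in the completion -/
theorem lower' (a b : v.Completion) :
    max ‖a‖ ‖b‖ ^ 2 ≤ c ^ 2 * ‖a ^ 2 + algebraMap K v.Completion τ * b ^ 2‖ := by
  refine UniformSpace.Completion.induction_on₂ a b ?_ ?_
  · exact isClosed_le (by fun_prop) (by fun_prop)
  · intro x y
    have h1 := g.lower (WithAbs.ofAbs x) (WithAbs.ofAbs y)
    have h2 : ((x : WithAbs v) : v.Completion) = algebraMap K v.Completion (WithAbs.ofAbs x) := rfl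
    have h3 : ((y : WithAbs v) : v.Completion) = algebraMap K v.Completion (WithAbs.ofAbs y) := rfl
    rw [h2, h3, ← map_pow, ← map_pow, ← map_mul, ← map_add, norm_algebraMap, norm_algebraMap,
      norm_algebraMap]
    exact h1

theorem charP_comp : CharP v.Completion 2 := by
  have := g.basis.charP
  exact charP_of_injective_algebraMap (algebraMap K v.Completion).injective 2

theorem comp_basis : TwoBasis (algebraMap K v.Completion τ) := by
  have hK := g.basis.charP
  have hL := g.charP_comp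
  have hc := g.one_lt
  have hc0 : 0 < c := by linarith
  refine ⟨CharTwo.two_eq_zero, fun u => ?_, fun a b hab => ?_⟩
  · obtain ⟨x, hx, hxu⟩ := mem_closure_iff_seq_limit.mp (dense (v := v) u)
    choose k hk using hx
    set e : ℕ → v.Completion := fun n => algebraMap K v.Completion (g.basis.E (k n)) with he
    set o : ℕ → v.Completion := fun n => algebraMap K v.Completion (g.basis.C (k n)) with ho
    have hx2 : ∀ n, x n = e n ^ 2 + algebraMap K v.Completion τ * o n ^ 2 := by
      intro n
      rw [he, ho]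
      simp only
      rw [← map_pow, ← map_pow, ← map_mul, ← map_add, g.basis.spec', hk]
    have hcau := hxu.cauchySeq
    have hdiff : ∀ m n, max ‖e m - e n‖ ‖o m - o n‖ ^ 2 ≤ c ^ 2 * ‖x m - x n‖ := by
      intro m n
      have h1 := g.lower' (e m - e n) (o m - o n)
      have h2 : (e m - e n) ^ 2 + algebraMap K v.Completion τ * (o m - o n) ^ 2 = x m - x n := by
        rw [hx2, hx2]; grind
      rwa [h2] at h1
    have hsmall : ∀ ε > 0, ∃ N, ∀ m ≥ N, ∀ n ≥ N, max ‖e m - e n‖ ‖o m - o n‖ < ε := by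
      intro ε hε
      obtain ⟨N, hN⟩ := Metric.cauchySeq_iff.mp hcau (ε ^ 2 / c ^ 2) (by positivity)
      refine ⟨N, fun m hm n hn => ?_⟩
      have h1 := hN m hm n hn
      rw [dist_eq_norm, lt_div_iff₀ (by positivity)] at h1
      have h2 := hdiff m n
      have h3 : max ‖e m - e n‖ ‖o m - o n‖ ^ 2 < ε ^ 2 := by linarith
      exact lt_of_pow_lt_pow_left₀ 2 hε.le h3
    have hce : CauchySeq e := by
      rw [Metric.cauchySeq_iff]
      intro ε hε
      obtain ⟨N, hN⟩ := hsmall ε hε
      refine ⟨N, fun m hm n hn => ?_⟩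
      rw [dist_eq_norm]
      exact lt_of_le_of_lt (le_max_left _ _) (hN m hm n hn)
    have hco : CauchySeq o := by
      rw [Metric.cauchySeq_iff]
      intro ε hε
      obtain ⟨N, hN⟩ := hsmall ε hε
      refine ⟨N, fun m hm n hn => ?_⟩
      rw [dist_eq_norm]
      exact lt_of_le_of_lt (le_max_right _ _) (hN m hm n hn)
    obtain ⟨a, ha⟩ := cauchySeq_tendsto_of_complete hce
    obtain ⟨b, hb⟩ := cauchySeq_tendsto_of_complete hco
    refine ⟨a, b, ?_⟩
    have h1 : Filter.Tendsto x Filter.atTop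
        (nhds (a ^ 2 + algebraMap K v.Completion τ * b ^ 2)) := by
      have : x = fun n => e n ^ 2 + algebraMap K v.Completion τ * o n ^ 2 := funext hx2
      rw [this]
      exact (ha.pow 2).add (tendsto_const_nhds.mul (hb.pow 2))
    exact tendsto_nhds_unique hxu h1
  · have h1 := g.lower' a b
    rw [hab, norm_zero, mul_zero] at h1
    have h2 : max ‖a‖ ‖b‖ = 0 := by
      have : max ‖a‖ ‖b‖ ^ 2 = 0 := le_antisymm h1 (by positivity)
      exact pow_eq_zero_iff (two_ne_zero) |>.mp this
    have h3 : ‖b‖ ≤ 0 := by rw [← h2]; exact le_max_right _ _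
    exact norm_le_zero_iff.mp h3

theorem isUltra : IsUltrametricDist v.Completion :=
  IsUltrametricDist.isUltrametricDist_of_forall_norm_add_le_max_norm g.ultra

omit g in
/-- approximation by elements of the dense subfield -/
theorem approx (x : v.Completion) {ε : ℝ} (hε : 0 < ε) :
    ∃ k : K, ‖x - algebraMap K v.Completion k‖ < ε := by
  obtain ⟨y, hy⟩ := Metric.denseRange_iff.mp (dense (v := v)) x ε hε
  exact ⟨y, by rwa [← dist_eq_norm]⟩

/-- values of the completion are values of the dense subfield -/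
theorem exists_same (x : v.Completion) (hx : x ≠ 0) :
    ∃ k : K, ‖x - algebraMap K v.Completion k‖ < ‖x‖ ∧ v k = ‖x‖ := by
  obtain ⟨k, hk⟩ := approx x (norm_pos_iff.mpr hx)
  refine ⟨k, hk, ?_⟩
  have := g.isUltra
  rw [← norm_algebraMap (v := v)]
  have h1 : ‖x + -(algebraMap K v.Completion k)‖ < max ‖x‖ ‖-(algebraMap K v.Completion k)‖ := by
    rw [← sub_eq_add_neg]
    exact lt_of_lt_of_le hk (le_max_left _ _)
  have h2 := IsUltrametricDist.norm_eq_of_add_norm_lt_max h1
  rw [h2, norm_neg]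

theorem disc' (x : v.Completion) (hx : x ≠ 0) : ∃ n : ℤ, ‖x‖ = c ^ n := by
  obtain ⟨k, hk1, hk2⟩ := g.exists_same x hx
  have hk0 : k ≠ 0 := by
    rintro rfl
    rw [map_zero, sub_zero] at hk1
    exact lt_irrefl _ hk1
  obtain ⟨n, hn⟩ := g.disc k hk0
  exact ⟨n, by rw [← hk2, hn]⟩

theorem lt_one (x : v.Completion) (hx : ‖x‖ < 1) : ‖x‖ ≤ c⁻¹ := by
  have hc := g.one_lt
  have hc0 : 0 < c := by linarith
  by_cases h0 : x = 0
  · rw [h0, norm_zero]; positivity
  · obtain ⟨n, hn⟩ := g.disc' x h0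
    rw [hn] at hx ⊢
    have h1 : n < 0 := by
      by_contra h2
      rw [not_lt] at h2
      have := one_le_zpow₀ hc.le h2
      linarith
    rw [← zpow_neg_one]
    exact zpow_le_zpow_right₀ hc.le (by omega)

theorem star' (a b : v.Completion) (hab : ‖a ^ 2 + algebraMap K v.Completion τ * b ^ 2‖ ≤ 1) :
    ‖a‖ ≤ 1 ∧ ‖b‖ ≤ 1 := by
  have hL := g.charP_comp
  have := g.isUltra
  obtain ⟨x, hx⟩ := approx a one_pos
  obtain ⟨y, hy⟩ := approx b one_pos
  have hτ : ‖algebraMap K v.Completion τ‖ ≤ 1 := by rw [norm_algebraMap]; exact g.tau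
  have h1 : v (x ^ 2 + τ * y ^ 2) ≤ 1 := by
    rw [← norm_algebraMap (v := v), map_add, map_mul, map_pow, map_pow]
    set x' := algebraMap K v.Completion x
    set y' := algebraMap K v.Completion y
    set t' := algebraMap K v.Completion τ
    have h2 : x' ^ 2 + t' * y' ^ 2 = (a ^ 2 + t' * b ^ 2) + ((a - x') ^ 2 + t' * (b - y') ^ 2) := by
      grind
    rw [h2]
    refine (g.ultra _ _).trans (max_le hab ((g.ultra _ _).trans (max_le ?_ ?_)))
    · rw [norm_pow]; exact pow_le_one₀ (norm_nonneg _) hx.le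
    · rw [norm_mul, norm_pow]
      exact mul_le_one₀ hτ (by positivity) (pow_le_one₀ (norm_nonneg _) hy.le)
  obtain ⟨h2, h3⟩ := g.star x y h1
  constructor
  · have h4 : a = (a - algebraMap K v.Completion x) + algebraMap K v.Completion x := by ring
    rw [h4]
    refine (g.ultra _ _).trans (max_le hx.le ?_)
    rw [norm_algebraMap]; exact h2
  · have h4 : b = (b - algebraMap K v.Completion y) + algebraMap K v.Completion y := by ring
    rw [h4]
    refine (g.ultra _ _).trans (max_le hy.le ?_)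
    rw [norm_algebraMap]; exact h3

end GoodPlace

end Pool.Agent.H2
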