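import Pool.Agent.H2.Types

/-!
# Every nonzero Selmer class has a reduced pair: the main statement
-/

namespace Pool.Agent.H2

open Polynomial

universe u

variable {k : Type u} [Field k] [Finite k] [CharP k 2]

/-- the data attached to a Selmer class, in terms of `D` -/
structure Dat (a₁ a₃ D : k[X]) (d : ℕ) (Z : k[X]) : Prop where
  deg : Z = 0 ∨ Z.natDegree + 2 ≤ 5 * d
  fin : ∃ V : k[X], kD a₁ a₃ D ^ 2 ∣ V ^ 2 + a₁ * kD a₁ a₃ D * V
    + a₁ * Z * (dD a₁ a₃ D + X * (a₁ * Z))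
  inf : ∃ V : RatFunc k, infAbv k V * 2 ≤ (2 : ℝ) ^ (6 * d) ∧
      infAbv k (V ^ 2 + algebraMap k[X] (RatFunc k) a₁ * algebraMap k[X] (RatFunc k) (kD a₁ a₃ D) * V
        - algebraMap k[X] (RatFunc k) (a₁ * Z * (dD a₁ a₃ D + X * (a₁ * Z))))
          ≤ (infAbv k (algebraMap k[X] (RatFunc k) (kD a₁ a₃ D))) ^ 2 * (2 : ℝ) ^ (2 * d)

theorem SelData.dat {W : WeierstrassCurve k[X]} {d : ℕ} {Z : k[X]} (h : SelData W d Z) :
    Dat W.a₁ W.a₃ (PD W) d Z := ⟨h.deg, h.fin, h.inf⟩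

variable {a₁ a₃ D Z : k[X]}

theorem infData {d : ℕ} (hd : 1 ≤ d) (hsq : Squarefree a₁) (hcop : IsCoprime a₁ a₃)
    (ha₁ : a₁.natDegree = d) (ha₃ : a₃.degree < (3 * d + 1 : ℕ)) (hD : D.degree < (8 * d + 1 : ℕ))
    (hinf : (kD a₁ a₃ D).degree = ((5 * d - 1 : ℕ) : WithBot ℕ) ∨
      (dD a₁ a₃ D).degree = ((6 * d : ℕ) : WithBot ℕ))
    (hk0 : kD a₁ a₃ D ≠ 0) (hs : Dat a₁ a₃ D d Z) :
    ∃ V : RatFunc k, InfData (algebraMap k[X] (RatFunc k) a₁) (algebraMap k[X] (RatFunc k) (kD a₁ a₃ D))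
      (algebraMap k[X] (RatFunc k) (a₁ * Z))
      (algebraMap k[X] (RatFunc k) (dD a₁ a₃ D + X * (a₁ * Z))) V d := by
  obtain ⟨V, hV1, hV2⟩ := hs.inf
  have ha0 : a₁ ≠ 0 := hsq.ne_zero
  have hκ := degree_kD ha₁ ha₃ hD
  have hδ := degree_dD ha₁ ha₃ hD
  have hc : infAbv k (algebraMap k[X] (RatFunc k) (a₁ * Z)) * 4 ≤ 2 ^ (6 * d) := by
    rcases hs.deg with h0 | h0
    · rw [h0, mul_zero, map_zero, map_zero, zero_mul]; positivity
    · by_cases hZ : Z = 0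
      · rw [hZ, mul_zero, map_zero, map_zero, zero_mul]; positivity
      rw [infAbv_poly (mul_ne_zero ha0 hZ), zpow_natCast, natDegree_mul ha0 hZ, ha₁]
      have e : (4 : ℝ) = 2 ^ 2 := by norm_num
      rw [e, ← pow_add]
      exact pow_le_pow_right₀ (by norm_num) (by omega)
  have hXc : infAbv k (algebraMap k[X] (RatFunc k) (X * (a₁ * Z))) * 2 ≤ 2 ^ (6 * d) := by
    rw [map_mul, map_mul, RatFunc.algebraMap_X, infAbv_X]
    linarith
  have hδ' : infAbv k (algebraMap k[X] (RatFunc k) (dD a₁ a₃ D)) ≤ 2 ^ (6 * d) := by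
    have := abv_of_degree hδ
    rw [pow_succ] at this
    linarith
  have h6 : (0 : ℝ) < 2 ^ (6 * d) := by positivity
  refine ⟨V, ⟨?_, ?_, ?_, hc, ?_, hV1, ?_, ?_⟩⟩
  · rw [infAbv_poly ha0, ha₁, zpow_natCast]
  · rwa [Ne, FaithfulSMul.algebraMap_eq_zero_iff]
  · exact abv_of_degree hκ
  · rw [map_add]
    exact abv_add_le hδ' (by linarith)
  · have hK : CharP (RatFunc k) 2 :=
      charP_of_injective_algebraMap (algebraMap k (RatFunc k)).injective 2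
    rw [map_mul (algebraMap k[X] (RatFunc k)) (a₁ * Z), CharTwo.sub_eq_add] at hV2
    exact hV2
  · rcases hinf with h | h
    · left
      rw [abv_of_degree_eq h, ← pow_succ]
      congr 1
      omega
    · right
      rw [map_add, add_comm, infAbv_add_of_lt, abv_of_degree_eq h]
      rw [abv_of_degree_eq h]
      have := (infAbv k).nonneg (algebraMap k[X] (RatFunc k) (X * (a₁ * Z)))
      linarith

/-- Cramer's rule -/
theorem cramer {μ₁ μ₂ : RatFunc k × RatFunc k} (h : wK μ₁ μ₂ ≠ 0) (μ : RatFunc k × RatFunc k) :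
    μ = (wK μ μ₂ / wK μ₁ μ₂) • μ₁ + (wK μ₁ μ / wK μ₁ μ₂) • μ₂ := by
  have hK : CharP (RatFunc k) 2 :=
    charP_of_injective_algebraMap (algebraMap k (RatFunc k)).injective 2
  ext
  · simp only [Prod.fst_add, Prod.smul_fst, smul_eq_mul]
    field_simp
    unfold wK; grind
  · simp only [Prod.snd_add, Prod.smul_snd, smul_eq_mul]
    field_simp
    unfold wK; grind

theorem wK_iv (μ ν : k[X] × k[X]) : wK (iv μ) (iv ν) = algebraMap k[X] (RatFunc k) (wd μ ν) := by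
  unfold wK iv wd
  simp only [map_add, map_mul]

theorem exists_quad {d : ℕ} (hd : 1 ≤ d) (hsq : Squarefree a₁) (hcop : IsCoprime a₁ a₃)
    (ha₁ : a₁.natDegree = d) (ha₃ : a₃.degree < (3 * d + 1 : ℕ)) (hD : D.degree < (8 * d + 1 : ℕ))
    (hkd : IsCoprime (kD a₁ a₃ D) (dD a₁ a₃ D))
    (hinf : (kD a₁ a₃ D).degree = ((5 * d - 1 : ℕ) : WithBot ℕ) ∨
      (dD a₁ a₃ D).degree = ((6 * d : ℕ) : WithBot ℕ))
    (hs : Dat a₁ a₃ D d Z) (hZ : Z ≠ 0) :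
    ∃ m, m ≤ d ∧ ∃ x₁ y₁ x₂ y₂ : k[X], Quad a₁ a₃ d m D Z x₁ y₁ x₂ y₂ := by
  have hK : CharP (RatFunc k) 2 :=
    charP_of_injective_algebraMap (algebraMap k (RatFunc k)).injective 2
  have ha0 : a₁ ≠ 0 := hsq.ne_zero
  have hak := coprime_kD (D := D) hsq hcop
  have hk0 : kD a₁ a₃ D ≠ 0 := by
    intro h0
    rw [h0, isCoprime_zero_right] at hak
    have := natDegree_eq_zero_of_isUnit hak
    omega
  obtain ⟨Vi, hI⟩ := infData hd hsq hcop ha₁ ha₃ hD hinf hk0 hs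
  obtain ⟨V, hV⟩ := hs.fin
  obtain ⟨p, r, hpr⟩ := hkd
  obtain ⟨c, hc⟩ : ∃ c, c = a₁ * Z := ⟨_, rfl⟩
  obtain ⟨e, he⟩ : ∃ e, e = dD a₁ a₃ D + X * c := ⟨_, rfl⟩
  obtain ⟨κ, hκ⟩ : ∃ κ, κ = kD a₁ a₃ D := ⟨_, rfl⟩
  rw [← hc, ← he, ← hκ] at hI hV
  rw [← hκ] at hpr hak hk0
  have hpqr : p * κ + (r * X) * c + r * e = 1 := by
    rw [he]
    linear_combination hpr + r * X * c * (CharTwo.two_eq_zero : (2 : k[X]) = 0)
  have hVκ : κ ∣ V ^ 2 + c * e := by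
    obtain ⟨f, hf⟩ := hV
    refine ⟨κ * f + a₁ * V, ?_⟩
    linear_combination hf - a₁ * κ * V * (CharTwo.two_eq_zero : (2 : k[X]) = 0)
  have hw₀ : a₁ * κ ≠ 0 := mul_ne_zero ha0 hk0
  have hCE : PE (a₁ * a₃) ^ 2 + X * PC (a₁ * a₃) ^ 2 = a₁ * a₃ := (PE_PC _).symm
  have hbasis := exists_basis (Lat a₁ κ c e V) (a₁ * κ) hw₀
    (fun μ hμ ν hν => Lat_dvd hsq hak hpqr hμ hν)
    (fun w hw => Lat_gen hak hCE (coprime_PC hsq hcop) hpqr hVκ hw)
  obtain ⟨μ₁, hμ₁, μ₂, hμ₂, hw, hle, horth⟩ := exists_reduced (Lat a₁ κ c e V) hw₀ hbasis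
    (isNorm_Nm (c := algebraMap k[X] (RatFunc k) c) (e := algebraMap k[X] (RatFunc k) e) (V := Vi)
      (d := d) hI.hκ0)
  set N := Nm (algebraMap k[X] (RatFunc k) κ) (algebraMap k[X] (RatFunc k) c)
    (algebraMap k[X] (RatFunc k) e) Vi d with hN
  have hnorm : IsNorm N := isNorm_Nm hI.hκ0
  have hwK : wK (iv μ₁) (iv μ₂) = algebraMap k[X] (RatFunc k) (a₁ * κ) := by rw [wK_iv, hw]
  have hwK0 : wK (iv μ₁) (iv μ₂) ≠ 0 := by
    rw [hwK]
    rwa [Ne, FaithfulSMul.algebraMap_eq_zero_iff]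
  have hne1 : iv μ₁ ≠ 0 := by
    intro h0
    apply hwK0
    rw [h0]; unfold wK; simp
  have hne2 : iv μ₂ ≠ 0 := by
    intro h0
    apply hwK0
    rw [h0]; unfold wK; simp
  have hκp : 0 < infAbv k (algebraMap k[X] (RatFunc k) κ) := (infAbv k).pos hI.hκ0
  have hak2 : infAbv k (algebraMap k[X] (RatFunc k) (a₁ * κ))
      = 2 ^ d * infAbv k (algebraMap k[X] (RatFunc k) κ) := by
    rw [map_mul, map_mul, hI.ha]
  -- the product of the two norms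
  have hprod : N (iv μ₁) * N (iv μ₂) = 2 ^ (6 * d) := by
    have e6 : (2 : ℝ) ^ (6 * d) = 2 ^ d * 2 ^ (5 * d) := by rw [← pow_add]; congr 1; ring
    apply le_antisymm
    · obtain ⟨μ, ν, hμ0, hν0, hb⟩ := exists_wK hI
      have hμp := hnorm.pos hμ0
      have hνp := hnorm.pos hν0
      obtain ⟨s, hs⟩ : ∃ s, s = wK μ (iv μ₂) / wK (iv μ₁) (iv μ₂) := ⟨_, rfl⟩
      obtain ⟨t, ht⟩ : ∃ t, t = wK (iv μ₁) μ / wK (iv μ₁) (iv μ₂) := ⟨_, rfl⟩
      obtain ⟨s', hs'⟩ : ∃ s, s = wK ν (iv μ₂) / wK (iv μ₁) (iv μ₂) := ⟨_, rfl⟩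
      obtain ⟨t', ht'⟩ : ∃ t, t = wK (iv μ₁) ν / wK (iv μ₁) (iv μ₂) := ⟨_, rfl⟩
      have c1 := cramer hwK0 μ
      have c2 := cramer hwK0 ν
      rw [← hs, ← ht] at c1
      rw [← hs', ← ht'] at c2
      have o1 := horth s t
      have o2 := horth s' t'
      rw [← c1] at o1
      rw [← c2] at o2
      have o1a := (le_max_left _ _).trans o1
      have o1b := (le_max_right _ _).trans o1
      have o2a := (le_max_left _ _).trans o2
      have o2b := (le_max_right _ _).trans o2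
      have hdet : wK μ ν = (s * t' + s' * t) * wK (iv μ₁) (iv μ₂) := by
        rw [c1, c2]
        unfold wK
        simp only [Prod.fst_add, Prod.smul_fst, Prod.snd_add, Prod.smul_snd, smul_eq_mul]
        ring_nf
        grind
      have q1 := (infAbv k).nonneg s
      have q2 := (infAbv k).nonneg t
      have q3 := (infAbv k).nonneg s'
      have q4 := (infAbv k).nonneg t'
      have q5 := hnorm.nonneg (iv μ₁)
      have q6 := hnorm.nonneg (iv μ₂)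
      have hst : infAbv k (s * t' + s' * t) * (N (iv μ₁) * N (iv μ₂)) ≤ N μ * N ν := by
        have n1 : infAbv k (s * t') * (N (iv μ₁) * N (iv μ₂)) ≤ N μ * N ν := by
          rw [map_mul]
          calc infAbv k s * infAbv k t' * (N (iv μ₁) * N (iv μ₂))
              = (infAbv k s * N (iv μ₁)) * (infAbv k t' * N (iv μ₂)) := by ring
            _ ≤ N μ * N ν := mul_le_mul o1a o2b (by positivity) hμp.le
        have n2 : infAbv k (s' * t) * (N (iv μ₁) * N (iv μ₂)) ≤ N μ * N ν := by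
          rw [map_mul]
          calc infAbv k s' * infAbv k t * (N (iv μ₁) * N (iv μ₂))
              = (infAbv k t * N (iv μ₂)) * (infAbv k s' * N (iv μ₁)) := by ring
            _ ≤ N μ * N ν := mul_le_mul o1b o2a (by positivity) hμp.le
        rcases le_max_iff.mp (infAbv_nonarch (s * t') (s' * t)) with h | h
        · exact (mul_le_mul_of_nonneg_right h (by positivity)).trans n1
        · exact (mul_le_mul_of_nonneg_right h (by positivity)).trans n2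
      rw [hdet, map_mul, hwK, hak2] at hb
      have hP : 0 < N μ * N ν := by positivity
      have h7 : (N (iv μ₁) * N (iv μ₂)) * (infAbv k (algebraMap k[X] (RatFunc k) κ) * (N μ * N ν))
          ≤ 2 ^ (6 * d) * (infAbv k (algebraMap k[X] (RatFunc k) κ) * (N μ * N ν)) := by
        calc (N (iv μ₁) * N (iv μ₂)) * (infAbv k (algebraMap k[X] (RatFunc k) κ) * (N μ * N ν))
            ≤ (N (iv μ₁) * N (iv μ₂)) * (infAbv k (s * t' + s' * t) *
              (2 ^ d * infAbv k (algebraMap k[X] (RatFunc k) κ)) * 2 ^ (5 * d)) := by gcongr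
          _ = (infAbv k (s * t' + s' * t) * (N (iv μ₁) * N (iv μ₂))) *
              (2 ^ (6 * d) * infAbv k (algebraMap k[X] (RatFunc k) κ)) := by rw [e6]; ring
          _ ≤ (N μ * N ν) * (2 ^ (6 * d) * infAbv k (algebraMap k[X] (RatFunc k) κ)) := by gcongr
          _ = _ := by ring
      exact le_of_mul_le_mul_right h7 (by positivity)
    · have h1 := wK_le hI (iv μ₁) (iv μ₂)
      rw [hwK, hak2] at h1
      have h2 : infAbv k (algebraMap k[X] (RatFunc k) κ) * 2 ^ (6 * d)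
          ≤ infAbv k (algebraMap k[X] (RatFunc k) κ) * (N (iv μ₁) * N (iv μ₂)) := by
        calc infAbv k (algebraMap k[X] (RatFunc k) κ) * 2 ^ (6 * d)
            = 2 ^ d * infAbv k (algebraMap k[X] (RatFunc k) κ) * 2 ^ (5 * d) := by rw [e6]; ring
          _ ≤ _ := h1
      exact le_of_mul_le_mul_left h2 hκp
  obtain ⟨n₁, hn₁⟩ := hnorm.disc _ hne1
  obtain ⟨n₂, hn₂⟩ := hnorm.disc _ hne2
  have hsum : n₁ + n₂ = 6 * d := by
    rw [hn₁, hn₂, ← zpow_add₀ two_ne_zero] at hprod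
    have : (2 : ℝ) ^ (n₁ + n₂) = (2 : ℝ) ^ ((6 * d : ℕ) : ℤ) := by rw [hprod, zpow_natCast]
    have := zpow_right_injective₀ (by norm_num : (0 : ℝ) < 2) (by norm_num) this
    push_cast at this
    exact this
  have hle' : n₁ ≤ n₂ := by
    rw [hn₁, hn₂] at hle
    exact (zpow_le_zpow_iff_right₀ (by norm_num : (1 : ℝ) < 2)).mp hle
  have hn₁0 : 0 ≤ n₁ := by
    have hμ₁0 : μ₁ ≠ 0 := by
      rintro rfl
      apply hne1
      simp [iv]
    have := hnorm.int μ₁ hμ₁0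
    rw [hn₁] at this
    have h2 : (2 : ℝ) ^ (0 : ℤ) ≤ 2 ^ n₁ := by rwa [zpow_zero]
    exact (zpow_le_zpow_iff_right₀ (by norm_num : (1 : ℝ) < 2)).mp h2
  obtain ⟨m, hm⟩ : ∃ m : ℕ, (m : ℤ) = 3 * d - n₁ := ⟨(3 * d - n₁).toNat, by omega⟩
  have hm3 : m ≤ 3 * d := by omega
  -- degrees of the vectors
  have hdx : ∀ (μ : k[X] × k[X]) (n : ℤ), N (iv μ) = 2 ^ n → ∀ M : ℕ, n = M →
      μ.1.degree < (M : WithBot ℕ) ∧ μ.2.degree < ((M + 1 : ℕ) : WithBot ℕ) := by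
    intro μ n hn M hM
    obtain ⟨b1, b2, -, -⟩ := (Nm_le_iff hI.hκ0 (iv μ) _).mp hn.le
    constructor
    · refine degree_of_abv (n := n - 1) ?_ (by omega)
      have e1 : (iv μ).1 = algebraMap k[X] (RatFunc k) μ.1 := rfl
      rw [e1] at b1
      rw [zpow_sub₀ two_ne_zero, zpow_one]
      linarith
    · exact degree_of_abv (n := n) b2 (by push_cast; omega)
  have hdG : ∀ (μ : k[X] × k[X]) (n : ℤ), N (iv μ) = 2 ^ n → μ ∈ Lat a₁ κ c e V →
      ∃ G : k[X], Qf a₁ a₃ D Z μ.1 μ.2 = κ ^ 2 * G ∧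
        infAbv k (algebraMap k[X] (RatFunc k) G) ≤ (2 : ℝ) ^ (2 * n - 4 * d) := by
    intro μ n hn hμ
    have h1 : Qf a₁ a₃ D Z μ.1 μ.2 = e * μ.1 ^ 2 + a₁ * κ * (μ.1 * μ.2) + c * μ.2 ^ 2 := by
      unfold Qf; rw [he, hκ, hc]
    obtain ⟨G, hG⟩ := Lat_form hpqr hV hμ
    refine ⟨G, by rw [h1, hG], ?_⟩
    have h2 := form_le hI (iv μ)
    have e1 : algebraMap k[X] (RatFunc k) e * (iv μ).1 ^ 2
      + algebraMap k[X] (RatFunc k) a₁ * algebraMap k[X] (RatFunc k) κ * ((iv μ).1 * (iv μ).2)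
      + algebraMap k[X] (RatFunc k) c * (iv μ).2 ^ 2
      = algebraMap k[X] (RatFunc k) (κ ^ 2 * G) := by
      rw [← hG]
      simp only [iv, map_add, map_mul, map_pow]
    rw [e1, ← hN, hn, map_mul, map_pow, map_mul, map_pow] at h2
    have h3 : infAbv k (algebraMap k[X] (RatFunc k) κ) ^ 2 *
        (infAbv k (algebraMap k[X] (RatFunc k) G) * 2 ^ (4 * d))
        ≤ infAbv k (algebraMap k[X] (RatFunc k) κ) ^ 2 * ((2 : ℝ) ^ n) ^ 2 := by
      rw [← mul_assoc]; exact h2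
    have h4 := le_of_mul_le_mul_left h3 (by positivity)
    have h5 : (2 : ℝ) ^ (2 * n - 4 * d) = (2 ^ n) ^ 2 / 2 ^ (4 * d) := by
      rw [zpow_sub₀ two_ne_zero, ← zpow_natCast, ← zpow_mul, mul_comm n]
      congr 1
    rw [h5, le_div_iff₀ (by positivity)]
    exact h4
  obtain ⟨dx₁, dy₁⟩ := hdx μ₁ n₁ hn₁ (3 * d - m) (by omega)
  obtain ⟨dx₂, dy₂⟩ := hdx μ₂ n₂ hn₂ (3 * d + m) (by omega)
  obtain ⟨G₁, hG₁, dG₁⟩ := hdG μ₁ n₁ hn₁ hμ₁
  obtain ⟨G₂, hG₂, dG₂⟩ := hdG μ₂ n₂ hn₂ hμ₂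
  have hs₁ : a₁ ∣ μ₁.2 ^ 2 + X * μ₁.1 ^ 2 := hμ₁.2.2
  have hs₂ : a₁ ∣ μ₂.2 ^ 2 + X * μ₂.1 ^ 2 := hμ₂.2.2
  rw [hκ] at hG₁ hG₂
  have hw' : μ₁.1 * μ₂.2 + μ₂.1 * μ₁.2 = a₁ * kD a₁ a₃ D := by rw [← hκ]; exact hw
  have hmd : m ≤ d := by
    by_contra hlt
    have hG0 : G₁ = 0 := by
      by_contra h0
      rw [infAbv_poly h0] at dG₁
      have := (zpow_le_zpow_iff_right₀ (by norm_num : (1 : ℝ) < 2)).mp dG₁
      omega
    rw [hG0] at hG₁
    exact type_le hsq hcop (by omega) hm3 ha₁ hZ (by rw [← hκ]; exact hk0) hw' hs₁ hs₂ hG₁ hG₂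
      dx₁ dy₁
  refine ⟨m, hmd, μ₁.1, μ₁.2, μ₂.1, μ₂.2, hw', hs₁, hs₂, ⟨G₁, hG₁, ?_⟩, ⟨G₂, hG₂, ?_⟩,
    dx₁, dy₁, dx₂, dy₂⟩
  · exact degree_of_abv dG₁ (by omega)
  · exact degree_of_abv dG₂ (by omega)

end Pool.Agent.H2
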