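import Pool.Agent.H2.Omega3
import Pool.Agent.H2.Quad

/-!
# Parameters of good discriminants are good
-/

namespace Pool.Agent.H2

open Polynomial

universe u

variable {k : Type u} [Field k] [Finite k] [CharP k 2]

/-- good `D` -/
structure Gd (a₁ a₃ : k[X]) (d : ℕ) (D : k[X]) : Prop where
  deg : D.degree < ((8 * d + 1 : ℕ) : WithBot ℕ)
  cop : IsCoprime (kD a₁ a₃ D) (dD a₁ a₃ D)
  inf : (kD a₁ a₃ D).degree = ((5 * d - 1 : ℕ) : WithBot ℕ) ∨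
      (dD a₁ a₃ D).degree = ((6 * d : ℕ) : WithBot ℕ)

theorem nd_le {f : k[X]} {N : ℕ} (h : f.degree < ((N + 1 : ℕ) : WithBot ℕ)) : f.natDegree ≤ N := by
  by_cases hf : f = 0
  · rw [hf, natDegree_zero]; exact Nat.zero_le _
  · rw [degree_eq_natDegree hf] at h
    have : f.natDegree < N + 1 := by exact_mod_cast h
    omega

theorem coeff_mul_pred {f g : k[X]} {s t : ℕ} (hf : f.natDegree ≤ s + 1) (hg : g.natDegree ≤ t + 1) :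
    (f * g).coeff (s + t + 1) = f.coeff (s + 1) * g.coeff t + f.coeff s * g.coeff (t + 1) := by
  obtain ⟨f', hf'⟩ : ∃ f', f' = f - C (f.coeff (s + 1)) * X ^ (s + 1) := ⟨_, rfl⟩
  have h1 : f'.natDegree ≤ s := by
    rw [natDegree_le_iff_coeff_eq_zero]
    intro N hN
    rw [hf', coeff_sub, coeff_C_mul_X_pow]
    by_cases h : N = s + 1
    · rw [if_pos h, h, sub_self]
    · rw [if_neg h, sub_zero]
      exact coeff_eq_zero_of_natDegree_lt (by omega)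
  have e : f * g = (C (f.coeff (s + 1)) * g) * X ^ (s + 1) + f' * g := by
    rw [hf']; ring
  rw [e, coeff_add, show s + t + 1 = t + (s + 1) by ring, coeff_mul_X_pow, coeff_C_mul,
    show t + (s + 1) = s + (t + 1) by ring, coeff_mul_add_eq_of_natDegree_le h1 hg]
  congr 2
  rw [hf', coeff_sub, coeff_C_mul_X_pow, if_neg (by omega), sub_zero]

variable {a₁ a₃ D Z : k[X]}

/-- `κ` in terms of the parameters -/
theorem kap_eq_PC (ha0 : a₁ ≠ 0) (hk0 : kD a₁ a₃ D ≠ 0) {x₁ y₁ x₂ y₂ S₁ S₂ γ α : k[X]}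
    (hw : x₁ * y₂ + x₂ * y₁ = a₁ * kD a₁ a₃ D)
    (h₁ : Qf a₁ a₃ D Z x₁ y₁ = kD a₁ a₃ D ^ 2 * γ) (h₂ : Qf a₁ a₃ D Z x₂ y₂ = kD a₁ a₃ D ^ 2 * α)
    (s₁ : y₁ ^ 2 + X * x₁ ^ 2 = a₁ * S₁) (s₂ : y₂ ^ 2 + X * x₂ ^ 2 = a₁ * S₂) :
    kD a₁ a₃ D ^ 2 = derivative (S₁ * S₂) := by
  have h := params_disc ha0 hk0 hw h₁ h₂ s₁ s₂
  rw [disc_D] at h
  have h2 := congrArg PC h
  have e1 : PC (a₁ ^ 2 * (dD a₁ a₃ D ^ 2 + X * (a₁ * kD a₁ a₃ D) ^ 2))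
      = a₁ ^ 2 * kD a₁ a₃ D := by
    rw [PC_sq_mul, PC_eq (rfl : dD a₁ a₃ D ^ 2 + X * (a₁ * kD a₁ a₃ D) ^ 2
      = dD a₁ a₃ D ^ 2 + X * (a₁ * kD a₁ a₃ D) ^ 2)]
    ring
  have e2 : PC ((α * S₁ + γ * S₂) ^ 2 + a₁ ^ 4 * (S₁ * S₂)) = a₁ ^ 2 * PC (S₁ * S₂) := by
    rw [PC_add, PC_sq, zero_add, show a₁ ^ 4 * (S₁ * S₂) = (a₁ ^ 2) ^ 2 * (S₁ * S₂) by ring,
      PC_sq_mul]
  rw [e1, e2] at h2
  rw [derivative_eq, mul_left_cancel₀ (pow_ne_zero 2 ha0) h2]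

section

variable {d m : ℕ} {x₁ y₁ x₂ y₂ B₀ A₀ A₁ R₁ R₂ : k[X]}

theorem not_bad_fin (ha0 : a₁ ≠ 0) (hk0 : kD a₁ a₃ D ≠ 0)
    (hw : x₁ * y₂ + x₂ * y₁ = a₁ * kD a₁ a₃ D)
    (hp : Params a₁ a₃ d m D Z x₁ y₁ x₂ y₂ B₀ A₀ A₁ R₁ R₂)
    (hcop : IsCoprime (kD a₁ a₃ D) (dD a₁ a₃ D)) (P : IrrM k) (hP : IsCoprime a₁ P.1) :
    ¬ Bad (AdjoinRoot.mk P.1 (X * (a₁ * A₁) ^ 2)) (AdjoinRoot.mk P.1 a₁)
    ((AdjoinRoot.mk P.1 A₀, AdjoinRoot.mk P.1 B₀),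
      (jet P (a₃ * B₀ ^ 2 + a₁ * R₁), jet P (a₃ * A₀ ^ 2 + a₁ * R₂))) := by
  rintro ⟨h1, h2⟩
  have hκ := kap_eq_PC ha0 hk0 hw hp.g₁ hp.g₂ hp.s₁ hp.s₂
  have hΔ := params_disc ha0 hk0 hw hp.g₁ hp.g₂ hp.s₁ hp.s₂
  rw [disc_D] at hΔ
  obtain ⟨S₁, hS₁⟩ : ∃ S, S = a₃ * B₀ ^ 2 + a₁ * R₁ := ⟨_, rfl⟩
  obtain ⟨S₂, hS₂⟩ : ∃ S, S = a₃ * A₀ ^ 2 + a₁ * R₂ := ⟨_, rfl⟩
  rw [← hS₁, ← hS₂] at h1 h2 hκ hΔ
  change AdjoinRoot.mk P.1 S₁ * AdjoinRoot.mk P.1 (derivative S₂)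
    + AdjoinRoot.mk P.1 (derivative S₁) * AdjoinRoot.mk P.1 S₂ = 0 at h1
  change ((AdjoinRoot.mk P.1 A₀ ^ 2 + AdjoinRoot.mk P.1 (X * (a₁ * A₁) ^ 2)) * AdjoinRoot.mk P.1 S₁
    + AdjoinRoot.mk P.1 B₀ ^ 2 * AdjoinRoot.mk P.1 S₂) ^ 2
    + AdjoinRoot.mk P.1 a₁ ^ 4 * (AdjoinRoot.mk P.1 S₁ * AdjoinRoot.mk P.1 S₂) = 0 at h2
  have d1 : P.1 ∣ kD a₁ a₃ D ^ 2 := by
    rw [hκ, derivative_mul, ← AdjoinRoot.mk_eq_zero, ← h1, map_add, map_mul, map_mul, add_comm]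
  have d1' : P.1 ∣ kD a₁ a₃ D := P.prime.dvd_of_dvd_pow d1
  have d2 : P.1 ∣ a₁ ^ 2 * (dD a₁ a₃ D ^ 2 + X * (a₁ * kD a₁ a₃ D) ^ 2) := by
    rw [hΔ, ← AdjoinRoot.mk_eq_zero, ← h2]
    simp only [map_add, map_mul, map_pow]
  have d3 : P.1 ∣ dD a₁ a₃ D ^ 2 + X * (a₁ * kD a₁ a₃ D) ^ 2 :=
    (hP.symm.pow_right).dvd_of_dvd_mul_left d2
  have d4 : P.1 ∣ dD a₁ a₃ D ^ 2 := by
    rw [mul_pow] at d3
    exact (dvd_add_left (dvd_mul_of_dvd_right (dvd_mul_of_dvd_right d1 _) _)).mp d3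
  have d5 : P.1 ∣ dD a₁ a₃ D := P.prime.dvd_of_dvd_pow d4
  exact P.prime.not_isUnit (hcop.isUnit_of_dvd' d1' d5)

omit [CharP k 2] in
theorem not_both (hcop : IsCoprime a₁ a₃)
    (h : a₁ ^ 2 ∣ A₀ ^ 2 * R₁ + B₀ ^ 2 * R₂ + X * a₁ * A₁ ^ 2 * (a₃ * B₀ ^ 2 + a₁ * R₁)
      + a₃ ^ 2 + a₁ * a₃ * (A₀ * B₀)) (P : IrrM k) (hP : P.1 ∣ a₁) :
    ¬ (P.1 ∣ A₀ ∧ P.1 ∣ B₀) := by
  rintro ⟨⟨s, hs⟩, ⟨t, ht⟩⟩
  obtain ⟨r, hr⟩ := hP
  obtain ⟨c, hc⟩ := h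
  obtain ⟨u, v, huv⟩ : IsCoprime a₁ (a₃ ^ 2) := hcop.pow_right
  apply P.prime.not_isUnit
  rw [isUnit_iff_dvd_one, ← huv]
  have e : P.1 ∣ a₃ ^ 2 := by
    refine ⟨r * a₁ * c - (P.1 * s ^ 2 * R₁ + P.1 * t ^ 2 * R₂
      + X * r * A₁ ^ 2 * (a₃ * B₀ ^ 2 + a₁ * R₁) + r * a₃ * (A₀ * B₀)), ?_⟩
    have h1 : a₃ ^ 2 = a₁ ^ 2 * c - (A₀ ^ 2 * R₁ + B₀ ^ 2 * R₂
      + X * a₁ * A₁ ^ 2 * (a₃ * B₀ ^ 2 + a₁ * R₁) + a₁ * a₃ * (A₀ * B₀)) := by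
      linear_combination hc
    rw [h1]
    have h2 : A₀ ^ 2 = P.1 * (P.1 * s ^ 2) := by rw [hs]; ring
    have h3 : B₀ ^ 2 = P.1 * (P.1 * t ^ 2) := by rw [ht]; ring
    have h4 : A₀ ^ 2 * R₁ + B₀ ^ 2 * R₂ = P.1 * (P.1 * s ^ 2 * R₁ + P.1 * t ^ 2 * R₂) := by
      rw [h2, h3]; ring
    have h5 : a₁ ^ 2 * c = P.1 * (r * a₁ * c) := by
      rw [pow_two]; nth_rw 1 [hr]; ring
    have h6 : X * a₁ * A₁ ^ 2 * (a₃ * B₀ ^ 2 + a₁ * R₁)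
      = P.1 * (X * r * A₁ ^ 2 * (a₃ * B₀ ^ 2 + a₁ * R₁)) := by
      nth_rw 1 [hr]; ring
    have h7 : a₁ * a₃ * (A₀ * B₀) = P.1 * (r * a₃ * (A₀ * B₀)) := by
      nth_rw 1 [hr]; ring
    rw [h4, h5, h6, h7]; ring
  exact dvd_add (dvd_mul_of_dvd_right ⟨r, hr⟩ _) (dvd_mul_of_dvd_right e _)

theorem not_bad_inf (hd : 1 ≤ d) (hm : m ≤ d) (ha₁ : a₁.natDegree = d)
    (ha0 : a₁ ≠ 0) (ha₃ : a₃.degree < ((3 * d + 1 : ℕ) : WithBot ℕ)) (hk0 : kD a₁ a₃ D ≠ 0)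
    (hw : x₁ * y₂ + x₂ * y₁ = a₁ * kD a₁ a₃ D)
    (hp : Params a₁ a₃ d m D Z x₁ y₁ x₂ y₂ B₀ A₀ A₁ R₁ R₂)
    (hG : Gd a₁ a₃ d D) :
    ¬ Bad 0 (a₁.coeff d) ((A₀.coeff (d + m), B₀.coeff (d - m)),
    (((a₃ * B₀ ^ 2 + a₁ * R₁).coeff (5 * d - 2 * m),
      (a₃ * B₀ ^ 2 + a₁ * R₁).coeff (5 * d - 2 * m - 1)),
     ((a₃ * A₀ ^ 2 + a₁ * R₂).coeff (5 * d + 2 * m),
      (a₃ * A₀ ^ 2 + a₁ * R₂).coeff (5 * d + 2 * m - 1)))) := by
  rintro ⟨h1, h2⟩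
  have hκ := kap_eq_PC ha0 hk0 hw hp.g₁ hp.g₂ hp.s₁ hp.s₂
  have hΔ := params_disc ha0 hk0 hw hp.g₁ hp.g₂ hp.s₁ hp.s₂
  rw [disc_D] at hΔ
  have n3 : a₃.natDegree ≤ 3 * d := nd_le ha₃
  have nB : B₀.natDegree ≤ d - m := nd_le hp.dB₀
  have nA : A₀.natDegree ≤ d + m := nd_le hp.dA₀
  have nR1 : R₁.natDegree ≤ 4 * d - 2 * m := nd_le hp.dR₁
  have nR2 : R₂.natDegree ≤ 4 * d + 2 * m := nd_le hp.dR₂
  have nS1 : (a₃ * B₀ ^ 2 + a₁ * R₁).natDegree ≤ 5 * d - 2 * m := by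
    refine (natDegree_add_le _ _).trans (max_le ?_ ?_)
    · refine natDegree_mul_le.trans ?_
      rw [natDegree_pow]; omega
    · refine natDegree_mul_le.trans ?_
      omega
  have nS2 : (a₃ * A₀ ^ 2 + a₁ * R₂).natDegree ≤ 5 * d + 2 * m := by
    refine (natDegree_add_le _ _).trans (max_le ?_ ?_)
    · refine natDegree_mul_le.trans ?_
      rw [natDegree_pow]; omega
    · refine natDegree_mul_le.trans ?_
      omega
  have nk : (kD a₁ a₃ D).natDegree ≤ 5 * d - 1 := by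
    apply nd_le
    have := degree_kD ha₁ ha₃ hG.deg
    have e : 5 * d - 1 + 1 = 5 * d := by omega
    rwa [e]
  have nδ : (dD a₁ a₃ D).natDegree ≤ 6 * d := nd_le (degree_dD ha₁ ha₃ hG.deg)
  have hl : a₁.coeff d ≠ 0 := by
    rw [← ha₁]; exact leadingCoeff_ne_zero.mpr ha0
  obtain ⟨S₁, hS₁⟩ : ∃ S, S = a₃ * B₀ ^ 2 + a₁ * R₁ := ⟨_, rfl⟩
  obtain ⟨S₂, hS₂⟩ : ∃ S, S = a₃ * A₀ ^ 2 + a₁ * R₂ := ⟨_, rfl⟩
  rw [← hS₁, ← hS₂] at h1 h2 hκ hΔ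
  rw [← hS₁] at nS1
  rw [← hS₂] at nS2
  change S₁.coeff (5 * d - 2 * m) * S₂.coeff (5 * d + 2 * m - 1)
    + S₁.coeff (5 * d - 2 * m - 1) * S₂.coeff (5 * d + 2 * m) = 0 at h1
  change ((A₀.coeff (d + m) ^ 2 + 0) * S₁.coeff (5 * d - 2 * m)
    + B₀.coeff (d - m) ^ 2 * S₂.coeff (5 * d + 2 * m)) ^ 2
    + a₁.coeff d ^ 4 * (S₁.coeff (5 * d - 2 * m) * S₂.coeff (5 * d + 2 * m)) = 0 at h2
  -- the coefficient of `κ`
  have c1 : (S₁ * S₂).coeff (10 * d - 1) = 0 := by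
    have := coeff_mul_pred (f := S₁) (g := S₂) (s := 5 * d - 2 * m - 1) (t := 5 * d + 2 * m - 1)
      (by omega) (by omega)
    have e1 : 5 * d - 2 * m - 1 + (5 * d + 2 * m - 1) + 1 = 10 * d - 1 := by omega
    have e2 : 5 * d - 2 * m - 1 + 1 = 5 * d - 2 * m := by omega
    have e3 : 5 * d + 2 * m - 1 + 1 = 5 * d + 2 * m := by omega
    rw [e1, e2, e3, h1] at this
    exact this
  have c2 : (kD a₁ a₃ D).coeff (5 * d - 1) = 0 := by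
    have h3 := coeff_pow_of_natDegree_le (m := 2) nk
    rw [hκ, coeff_derivative] at h3
    have e1 : 2 * (5 * d - 1) + 1 = 10 * d - 1 := by omega
    rw [e1, c1, zero_mul] at h3
    exact pow_eq_zero_iff two_ne_zero |>.mp h3.symm
  -- the coefficient of `δ`
  have c3 : (dD a₁ a₃ D).coeff (6 * d) = 0 := by
    have h4 := congrArg (fun f => coeff f (14 * d)) hΔ
    simp only [coeff_add] at h4
    have e1 : (a₁ ^ 2 * (dD a₁ a₃ D ^ 2 + X * (a₁ * kD a₁ a₃ D) ^ 2)).coeff (14 * d)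
        = (a₁.coeff d * (dD a₁ a₃ D).coeff (6 * d)) ^ 2 := by
      have e2 : a₁ ^ 2 * (dD a₁ a₃ D ^ 2 + X * (a₁ * kD a₁ a₃ D) ^ 2)
        = (a₁ * dD a₁ a₃ D) ^ 2 + X * (a₁ ^ 2 * kD a₁ a₃ D) ^ 2 := by ring
      rw [e2, coeff_add]
      have n1 : (a₁ * dD a₁ a₃ D).natDegree ≤ 7 * d := natDegree_mul_le.trans (by omega)
      have n2 : (X * (a₁ ^ 2 * kD a₁ a₃ D) ^ 2).natDegree < 14 * d := by
        refine lt_of_le_of_lt natDegree_mul_le ?_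
        have n3 : (a₁ ^ 2 * kD a₁ a₃ D).natDegree ≤ 7 * d - 1 := by
          refine natDegree_mul_le.trans ?_
          rw [natDegree_pow]; omega
        rw [natDegree_pow, natDegree_X]
        omega
      have h5 := coeff_pow_of_natDegree_le (m := 2) n1
      rw [show 2 * (7 * d) = 14 * d by ring] at h5
      rw [h5, coeff_eq_zero_of_natDegree_lt n2, add_zero]
      congr 1
      rw [show 7 * d = d + 6 * d by ring]
      exact coeff_mul_add_eq_of_natDegree_le (by omega) nδ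
    have e3 : (((A₀ ^ 2 + X * (a₁ * A₁) ^ 2) * S₁ + B₀ ^ 2 * S₂) ^ 2).coeff (14 * d)
        = (A₀.coeff (d + m) ^ 2 * S₁.coeff (5 * d - 2 * m)
          + B₀.coeff (d - m) ^ 2 * S₂.coeff (5 * d + 2 * m)) ^ 2 := by
      have nα : (A₀ ^ 2 + X * (a₁ * A₁) ^ 2).natDegree ≤ 2 * (d + m) := by
        refine (natDegree_add_le _ _).trans (max_le ?_ ?_)
        · rw [natDegree_pow]; omega
        · by_cases hA : A₁ = 0
          · rw [hA]; simp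
          · have h6 : A₁.natDegree < m := by
              have := hp.dA₁
              rw [degree_eq_natDegree hA] at this
              exact_mod_cast this
            refine natDegree_mul_le.trans ?_
            rw [natDegree_X, natDegree_pow]
            have : (a₁ * A₁).natDegree ≤ d + A₁.natDegree := natDegree_mul_le.trans (by omega)
            omega
      have hα : (A₀ ^ 2 + X * (a₁ * A₁) ^ 2).coeff (2 * (d + m)) = A₀.coeff (d + m) ^ 2 := by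
        rw [coeff_add, coeff_pow_of_natDegree_le nA]
        have : (X * (a₁ * A₁) ^ 2).coeff (2 * (d + m)) = 0 := by
          by_cases hA : A₁ = 0
          · rw [hA]; simp
          · have h6 : A₁.natDegree < m := by
              have := hp.dA₁
              rw [degree_eq_natDegree hA] at this
              exact_mod_cast this
            apply coeff_eq_zero_of_natDegree_lt
            refine lt_of_le_of_lt natDegree_mul_le ?_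
            rw [natDegree_X, natDegree_pow]
            have : (a₁ * A₁).natDegree ≤ d + A₁.natDegree := natDegree_mul_le.trans (by omega)
            omega
        rw [this, add_zero]
      have n5 : ((A₀ ^ 2 + X * (a₁ * A₁) ^ 2) * S₁ + B₀ ^ 2 * S₂).natDegree ≤ 7 * d := by
        refine (natDegree_add_le _ _).trans (max_le ?_ ?_)
        · refine natDegree_mul_le.trans ?_; omega
        · refine natDegree_mul_le.trans ?_
          rw [natDegree_pow]; omega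
      have h5 := coeff_pow_of_natDegree_le (m := 2) n5
      rw [show 2 * (7 * d) = 14 * d by ring] at h5
      rw [h5, coeff_add]
      congr 2
      · have := coeff_mul_add_eq_of_natDegree_le nα nS1
        rw [show 2 * (d + m) + (5 * d - 2 * m) = 7 * d by omega] at this
        rw [this, hα]
      · have nBB : (B₀ ^ 2).natDegree ≤ 2 * (d - m) := by rw [natDegree_pow]; omega
        have := coeff_mul_add_eq_of_natDegree_le nBB nS2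
        rw [show 2 * (d - m) + (5 * d + 2 * m) = 7 * d by omega] at this
        rw [this, coeff_pow_of_natDegree_le nB]
    have e4 : (a₁ ^ 4 * (S₁ * S₂)).coeff (14 * d)
        = a₁.coeff d ^ 4 * (S₁.coeff (5 * d - 2 * m) * S₂.coeff (5 * d + 2 * m)) := by
      have n6 : (a₁ ^ 4).natDegree ≤ 4 * d := by rw [natDegree_pow, ha₁]
      have n7 : (S₁ * S₂).natDegree ≤ 10 * d := natDegree_mul_le.trans (by omega)
      have h5 := coeff_mul_add_eq_of_natDegree_le n6 n7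
      rw [show 4 * d + 10 * d = 14 * d by ring] at h5
      have h6 := coeff_pow_of_natDegree_le (p := a₁) (m := 4) ha₁.le
      have h7 := coeff_mul_add_eq_of_natDegree_le nS1 nS2
      rw [show 5 * d - 2 * m + (5 * d + 2 * m) = 10 * d by omega] at h7
      rw [h5, h6, h7]
    rw [e1, e3, e4] at h4
    rw [add_zero] at h2
    rw [h2] at h4
    have h8 : a₁.coeff d * (dD a₁ a₃ D).coeff (6 * d) = 0 := pow_eq_zero_iff two_ne_zero |>.mp h4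
    exact (mul_eq_zero.mp h8).resolve_left hl
  rcases hG.inf with h | h
  · have h9 : (kD a₁ a₃ D).natDegree = 5 * d - 1 := natDegree_eq_of_degree_eq_some h
    rw [← h9] at c2
    exact hk0 (leadingCoeff_eq_zero.mp c2)
  · have h9 : (dD a₁ a₃ D).natDegree = 6 * d := natDegree_eq_of_degree_eq_some h
    have h10 : dD a₁ a₃ D ≠ 0 := by
      rintro h0
      rw [h0, degree_zero] at h
      exact WithBot.bot_ne_coe h
    rw [← h9] at c3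
    exact h10 (leadingCoeff_eq_zero.mp c3)

end

end Pool.Agent.H2
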