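import Pool.Agent.H2.Omega4
import Pool.Agent.H2.GoodPar

/-!
# Orbits of reduced pairs
-/

namespace Pool.Agent.H2

open Polynomial

universe u

variable {k : Type u} [Field k] [Finite k] [CharP k 2]

/-- tuples: `D`, `Z`, and a pair of vectors -/
abbrev Tup (k : Type u) [Field k] := (k[X] × k[X]) × ((k[X] × k[X]) × (k[X] × k[X]))

/-- all reduced pairs of type `m` -/
def TT (a₁ a₃ : k[X]) (d m : ℕ) : Set (Tup k) :=
  {t | Gd a₁ a₃ d t.1.1 ∧ Quad a₁ a₃ d m t.1.1 t.1.2 t.2.1.1 t.2.1.2 t.2.2.1 t.2.2.2}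

/-- all `(D, Z)` of type `m` -/
def NZ (a₁ a₃ : k[X]) (d m : ℕ) : Set (k[X] × k[X]) :=
  {p | Gd a₁ a₃ d p.1 ∧ ∃ x₁ y₁ x₂ y₂ : k[X], Quad a₁ a₃ d m p.1 p.2 x₁ y₁ x₂ y₂}

/-- the group of changes of basis, as a set -/
def Au (k : Type u) [Field k] (m : ℕ) : Set ((k × k) × (Bx k (2 * m + 1) × k)) :=
  {g | (C g.1.1 * C g.2.2 + C g.1.2 * g.2.1.1 : k[X]) = 1 ∧ (m ≠ 0 → g.1.2 = 0)}

section

variable {a₁ a₃ D Z : k[X]}

theorem Qf_act {x₁ y₁ x₂ y₂ p r : k[X]} {G₁ G₂ : k[X]}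
    (hw : x₁ * y₂ + x₂ * y₁ = a₁ * kD a₁ a₃ D)
    (h₁ : Qf a₁ a₃ D Z x₁ y₁ = kD a₁ a₃ D ^ 2 * G₁) (h₂ : Qf a₁ a₃ D Z x₂ y₂ = kD a₁ a₃ D ^ 2 * G₂) :
    Qf a₁ a₃ D Z (p * x₁ + r * x₂) (p * y₁ + r * y₂)
      = kD a₁ a₃ D ^ 2 * (p ^ 2 * G₁ + r ^ 2 * G₂ + p * r * a₁ ^ 2) := by
  have e : Qf a₁ a₃ D Z (p * x₁ + r * x₂) (p * y₁ + r * y₂)
      = p ^ 2 * Qf a₁ a₃ D Z x₁ y₁ + r ^ 2 * Qf a₁ a₃ D Z x₂ y₂
        + p * r * (a₁ * kD a₁ a₃ D) * (x₁ * y₂ + x₂ * y₁) := by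
    unfold Qf
    generalize dD a₁ a₃ D + X * (a₁ * Z) = e
    generalize kD a₁ a₃ D = κ
    generalize a₁ * Z = c
    linear_combination (p * r * (e * x₁ * x₂ + c * y₁ * y₂)) * (CharTwo.two_eq_zero : (2 : k[X]) = 0)
  rw [e, h₁, h₂, hw]; ring

theorem quad_act {d m : ℕ} (hd : 1 ≤ d) (hm : m ≤ d) (ha₁ : a₁.natDegree = d)
    {x₁ y₁ x₂ y₂ : k[X]} (hq : Quad a₁ a₃ d m D Z x₁ y₁ x₂ y₂) {p r s t : k[X]}
    (hp : p.degree < ((1 : ℕ) : WithBot ℕ)) (hr : r.degree < ((1 : ℕ) : WithBot ℕ))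
    (hr0 : m ≠ 0 → r = 0)
    (hs : s.degree < ((2 * m + 1 : ℕ) : WithBot ℕ)) (ht : t.degree < ((1 : ℕ) : WithBot ℕ))
    (hdet : p * t + r * s = 1) :
    Quad a₁ a₃ d m D Z (p * x₁ + r * x₂) (p * y₁ + r * y₂) (s * x₁ + t * x₂) (s * y₁ + t * y₂) := by
  obtain ⟨G₁, hG₁, dG₁⟩ := hq.g₁
  obtain ⟨G₂, hG₂, dG₂⟩ := hq.g₂
  have h1 := hq.wedge
  have ha2 : (a₁ ^ 2).degree < ((2 * d + 1 : ℕ) : WithBot ℕ) := by
    have h := degree_a₁ ha₁
    have := degree_mul_lt' h h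
    rw [← pow_two] at this
    have e : d + (d + 1) = 2 * d + 1 := by omega
    rwa [e] at this
  have c0 : ∀ {f g : k[X]} {N : ℕ}, f.degree < ((1 : ℕ) : WithBot ℕ) → g.degree < (N : WithBot ℕ) →
      (f * g).degree < (N : WithBot ℕ) := by
    intro f g N hf hg
    have := degree_mul_lt' (M := 0) hf hg
    rwa [zero_add] at this
  have c2 : ∀ {f : k[X]}, f.degree < ((1 : ℕ) : WithBot ℕ) → (f ^ 2).degree < ((1 : ℕ) : WithBot ℕ) := by
    intro f hf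
    rw [pow_two]; exact c0 hf hf
  have hbot : ∀ N : ℕ, (0 : k[X]).degree < (N : WithBot ℕ) := by
    intro N; rw [degree_zero]; exact WithBot.bot_lt_coe _
  refine ⟨?_, ?_, ?_, ⟨_, Qf_act h1 hG₁ hG₂, ?_⟩, ⟨_, Qf_act h1 hG₁ hG₂, ?_⟩, ?_, ?_, ?_, ?_⟩
  · have e : (p * x₁ + r * x₂) * (s * y₁ + t * y₂) + (s * x₁ + t * x₂) * (p * y₁ + r * y₂)
      = (p * t + r * s) * (x₁ * y₂ + x₂ * y₁) := by
      linear_combination (p * s * x₁ * y₁ + r * t * x₂ * y₂) * (CharTwo.two_eq_zero : (2 : k[X]) = 0)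
    rw [e, hdet, h1, one_mul]
  · have e : (p * y₁ + r * y₂) ^ 2 + X * (p * x₁ + r * x₂) ^ 2
      = p ^ 2 * (y₁ ^ 2 + X * x₁ ^ 2) + r ^ 2 * (y₂ ^ 2 + X * x₂ ^ 2) := by
      linear_combination (p * r * (y₁ * y₂ + X * x₁ * x₂)) * (CharTwo.two_eq_zero : (2 : k[X]) = 0)
    rw [e]
    exact dvd_add (dvd_mul_of_dvd_right hq.s₁ _) (dvd_mul_of_dvd_right hq.s₂ _)
  · have e : (s * y₁ + t * y₂) ^ 2 + X * (s * x₁ + t * x₂) ^ 2
      = s ^ 2 * (y₁ ^ 2 + X * x₁ ^ 2) + t ^ 2 * (y₂ ^ 2 + X * x₂ ^ 2) := by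
      linear_combination (s * t * (y₁ * y₂ + X * x₁ * x₂)) * (CharTwo.two_eq_zero : (2 : k[X]) = 0)
    rw [e]
    exact dvd_add (dvd_mul_of_dvd_right hq.s₁ _) (dvd_mul_of_dvd_right hq.s₂ _)
  · -- degree of the first form
    by_cases h0 : m = 0
    · subst h0
      have e : 2 * (d + 0) + 1 = 2 * (d - 0) + 1 := by omega
      have e' : 2 * d + 1 = 2 * (d - 0) + 1 := by omega
      rw [e] at dG₂
      rw [e'] at ha2
      exact degree_add_lt' (degree_add_lt' (c0 (c2 hp) dG₁) (c0 (c2 hr) dG₂)) (c0 (c0 hp hr) ha2)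
    · rw [hr0 h0]
      have e : p ^ 2 * G₁ + 0 ^ 2 * G₂ + p * 0 * a₁ ^ 2 = p ^ 2 * G₁ := by ring
      rw [e]
      exact c0 (c2 hp) dG₁
  · -- degree of the second form
    have hs2 : (s ^ 2).degree < ((4 * m + 1 : ℕ) : WithBot ℕ) := by
      have := degree_mul_lt' hs hs
      rw [← pow_two] at this
      have e : 2 * m + (2 * m + 1) = 4 * m + 1 := by omega
      rwa [e] at this
    refine degree_add_lt' (degree_add_lt' ?_ (c0 (c2 ht) dG₂)) ?_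
    · have := degree_mul_lt' hs2 dG₁
      have e : 4 * m + (2 * (d - m) + 1) = 2 * (d + m) + 1 := by omega
      rwa [e] at this
    · have := degree_mul_lt' (M := 2 * m) (a := s * t) (by rw [mul_comm]; exact c0 ht hs) ha2
      have e : 2 * m + (2 * d + 1) = 2 * (d + m) + 1 := by omega
      rwa [e] at this
  · by_cases h0 : m = 0
    · subst h0
      have e : 3 * d + 0 = 3 * d - 0 := by omega
      have h2 := hq.dx₂
      rw [e] at h2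
      exact degree_add_lt' (c0 hp hq.dx₁) (c0 hr h2)
    · rw [hr0 h0, zero_mul, add_zero]
      exact c0 hp hq.dx₁
  · by_cases h0 : m = 0
    · subst h0
      have e : 3 * d + 0 + 1 = 3 * d - 0 + 1 := by omega
      have h2 := hq.dy₂
      rw [e] at h2
      exact degree_add_lt' (c0 hp hq.dy₁) (c0 hr h2)
    · rw [hr0 h0, zero_mul, add_zero]
      exact c0 hp hq.dy₁
  · refine degree_add_lt' ?_ (c0 ht hq.dx₂)
    have := degree_mul_lt' hs hq.dx₁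
    have e : 2 * m + (3 * d - m) = 3 * d + m := by omega
    rwa [e] at this
  · refine degree_add_lt' ?_ (c0 ht hq.dy₂)
    have := degree_mul_lt' hs hq.dy₁
    have e : 2 * m + (3 * d - m + 1) = 3 * d + m + 1 := by omega
    rwa [e] at this

end

theorem degree_C_lt (c : k) : (C c : k[X]).degree < ((1 : ℕ) : WithBot ℕ) :=
  lt_of_le_of_lt degree_C_le (by norm_num)

theorem Gd.kne {a₁ a₃ D : k[X]} {d : ℕ} (hd : 1 ≤ d) (hsq : Squarefree a₁)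
    (hcop : IsCoprime a₁ a₃) (ha₁ : a₁.natDegree = d) : kD a₁ a₃ D ≠ 0 := by
  intro h0
  have hak := coprime_kD (D := D) hsq hcop
  rw [h0, isCoprime_zero_right] at hak
  have := natDegree_eq_zero_of_isUnit hak
  omega

/-- the action on tuples is free -/
theorem card_orbit {a₁ a₃ : k[X]} {d m : ℕ} (hd : 1 ≤ d) (hm : m ≤ d) (hsq : Squarefree a₁)
    (hcop : IsCoprime a₁ a₃) (ha₁ : a₁.natDegree = d) [Finite (TT a₁ a₃ d m)] :
    Nat.card (Au k m) * Nat.card (NZ a₁ a₃ d m) ≤ Nat.card (TT a₁ a₃ d m) := by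
  classical
  choose x₁ y₁ x₂ y₂ hq using fun p : NZ a₁ a₃ d m => p.2.2
  rw [← Nat.card_prod]
  let f : Au k m × NZ a₁ a₃ d m → TT a₁ a₃ d m := fun z =>
    ⟨(z.2.1, ((C z.1.1.1.1 * x₁ z.2 + C z.1.1.1.2 * x₂ z.2, C z.1.1.1.1 * y₁ z.2 + C z.1.1.1.2 * y₂ z.2),
      (z.1.1.2.1.1 * x₁ z.2 + C z.1.1.2.2 * x₂ z.2, z.1.1.2.1.1 * y₁ z.2 + C z.1.1.2.2 * y₂ z.2))),
      z.2.2.1, quad_act hd hm ha₁ (hq z.2) (degree_C_lt _) (degree_C_lt _)
        (fun h0 => by rw [z.1.2.2 h0, C_0]) (Bx_degree _) (degree_C_lt _) z.1.2.1⟩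
  apply Nat.card_le_card_of_injective f
  rintro ⟨⟨g, hg⟩, z⟩ ⟨⟨g', hg'⟩, z'⟩ h
  have h1 := congrArg Subtype.val h
  have hz : z = z' := Subtype.ext (congrArg Prod.fst h1)
  subst hz
  have h2 := congrArg Prod.snd h1
  have e1 : C g.1.1 * x₁ z + C g.1.2 * x₂ z = C g'.1.1 * x₁ z + C g'.1.2 * x₂ z :=
    congrArg (fun t => t.1.1) h2
  have e2 : C g.1.1 * y₁ z + C g.1.2 * y₂ z = C g'.1.1 * y₁ z + C g'.1.2 * y₂ z :=
    congrArg (fun t => t.1.2) h2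
  have e3 : g.2.1.1 * x₁ z + C g.2.2 * x₂ z = g'.2.1.1 * x₁ z + C g'.2.2 * x₂ z :=
    congrArg (fun t => t.2.1) h2
  have e4 : g.2.1.1 * y₁ z + C g.2.2 * y₂ z = g'.2.1.1 * y₁ z + C g'.2.2 * y₂ z :=
    congrArg (fun t => t.2.2) h2
  have hw := (hq z).wedge
  have hw0 : x₁ z * y₂ z + x₂ z * y₁ z ≠ 0 := by
    rw [hw]
    exact mul_ne_zero hsq.ne_zero (Gd.kne hd hsq hcop ha₁)
  have key : ∀ {a b a' b' : k[X]}, a * x₁ z + b * x₂ z = a' * x₁ z + b' * x₂ z →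
      a * y₁ z + b * y₂ z = a' * y₁ z + b' * y₂ z → a = a' ∧ b = b' := by
    intro a b a' b' h3 h4
    have two : (2 : k[X]) = 0 := CharTwo.two_eq_zero
    constructor
    · have h5 : (a - a') * (x₁ z * y₂ z + x₂ z * y₁ z) = 0 := by
        linear_combination y₂ z * h3 - x₂ z * h4 + ((a - a') * x₂ z * y₁ z) * two
      exact sub_eq_zero.mp ((mul_eq_zero.mp h5).resolve_right hw0)
    · have h5 : (b - b') * (x₁ z * y₂ z + x₂ z * y₁ z) = 0 := by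
        linear_combination x₁ z * h4 - y₁ z * h3 + ((b - b') * x₂ z * y₁ z) * two
      exact sub_eq_zero.mp ((mul_eq_zero.mp h5).resolve_right hw0)
  obtain ⟨k1, k2⟩ := key e1 e2
  obtain ⟨k3, k4⟩ := key e3 e4
  have hgg : g = g' := by
    apply Prod.ext
    · exact Prod.ext (C_injective k1) (C_injective k2)
    · exact Prod.ext (Subtype.ext k3) (C_injective k4)
  subst hgg
  rfl

open scoped Classical in
theorem card_Au_zero : Nat.card k * (Nat.card k ^ 2 - 1) ≤ Nat.card (Au k 0) := by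
  have hne : Nat.card {p : k × k // p ≠ 0} = Nat.card k ^ 2 - 1 := by
    have := Fintype.ofFinite k
    rw [Nat.card_eq_fintype_card, Nat.card_eq_fintype_card, Fintype.card_subtype_compl,
      Fintype.card_prod]
    simp [pow_two]
  rw [← hne, ← Nat.card_prod]
  have h0 : ∀ c : k, C c ∈ degreeLT k (2 * 0 + 1) := fun c => mem_degreeLT.mpr (degree_C_lt c)
  have two : ∀ c : k, c + c = 0 := fun c => CharTwo.add_self_eq_zero c
  have hA : ∀ (p r t : k), p ≠ 0 → ((p, r), ((⟨C t, h0 t⟩ : Bx k (2 * 0 + 1)), (1 + r * t) / p)) ∈ Au k 0 := by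
    intro p r t hp
    refine ⟨?_, fun h => absurd rfl h⟩
    simp only
    rw [← C_mul, ← C_mul, ← C_add, mul_div_cancel₀ _ hp, add_assoc, two, add_zero, C_1]
  have hB : ∀ (r t : k), r ≠ 0 → ((0, r), ((⟨C r⁻¹, h0 r⁻¹⟩ : Bx k (2 * 0 + 1)), t)) ∈ Au k 0 := by
    intro r t hr
    refine ⟨?_, fun h => absurd rfl h⟩
    simp only
    rw [C_0, zero_mul, zero_add, ← C_mul, mul_inv_cancel₀ hr, C_1]
  let f : k × {p : k × k // p ≠ 0} → Au k 0 := fun z =>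
    if h : z.2.1.1 ≠ 0 then ⟨_, hA z.2.1.1 z.2.1.2 z.1 h⟩
    else ⟨_, hB z.2.1.2 z.1 (fun h2 => z.2.2 (Prod.ext (not_not.mp h) h2))⟩
  have hf1 : ∀ z : k × {p : k × k // p ≠ 0}, z.2.1.1 ≠ 0 → (f z).1
      = ((z.2.1.1, z.2.1.2), ((⟨C z.1, h0 z.1⟩ : Bx k (2 * 0 + 1)), (1 + z.2.1.2 * z.1) / z.2.1.1)) := by
    intro z hz
    simp only [f, dif_pos hz]
  have hf2 : ∀ z : k × {p : k × k // p ≠ 0}, ¬ z.2.1.1 ≠ 0 → (f z).1
      = ((0, z.2.1.2), ((⟨C z.2.1.2⁻¹, h0 _⟩ : Bx k (2 * 0 + 1)), z.1)) := by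
    intro z hz
    simp only [f, dif_neg hz]
  have : Finite (Au k 0) := inferInstance
  apply Nat.card_le_card_of_injective f
  intro z z' h
  have h1 := congrArg Subtype.val h
  by_cases hz : z.2.1.1 ≠ 0
  · by_cases hz' : z'.2.1.1 ≠ 0
    · rw [hf1 z hz, hf1 z' hz'] at h1
      simp only [Prod.mk.injEq, Subtype.mk.injEq] at h1
      obtain ⟨⟨h2, h3⟩, h4, -⟩ := h1
      exact Prod.ext (C_injective h4) (Subtype.ext (Prod.ext h2 h3))
    · rw [hf1 z hz, hf2 z' hz'] at h1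
      simp only [Prod.mk.injEq] at h1
      exact absurd h1.1.1 hz
  · by_cases hz' : z'.2.1.1 ≠ 0
    · rw [hf2 z hz, hf1 z' hz'] at h1
      simp only [Prod.mk.injEq] at h1
      exact absurd h1.1.1.symm hz'
    · rw [hf2 z hz, hf2 z' hz'] at h1
      simp only [Prod.mk.injEq] at h1
      obtain ⟨⟨-, h3⟩, -, h4⟩ := h1
      rw [not_not] at hz hz'
      exact Prod.ext h4 (Subtype.ext (Prod.ext (hz.trans hz'.symm) h3))

open scoped Classical in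
theorem card_Au_pos {m : ℕ} (_hm : m ≠ 0) :
    (Nat.card k - 1) * Nat.card k ^ (2 * m + 1) ≤ Nat.card (Au k m) := by
  have hne : Nat.card {p : k // p ≠ 0} = Nat.card k - 1 := by
    have := Fintype.ofFinite k
    rw [Nat.card_eq_fintype_card, Nat.card_eq_fintype_card, Fintype.card_subtype_compl]
    simp
  rw [← hne, ← card_Bx, ← Nat.card_prod]
  have hA : ∀ (p : k) (t : Bx k (2 * m + 1)), p ≠ 0 → ((p, 0), (t, p⁻¹)) ∈ Au k m := by
    intro p t hp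
    refine ⟨?_, fun _ => rfl⟩
    simp only
    rw [C_0, zero_mul, add_zero, ← C_mul, mul_inv_cancel₀ hp, C_1]
  apply Nat.card_le_card_of_injective
    (fun z : {p : k // p ≠ 0} × Bx k (2 * m + 1) => (⟨_, hA z.1.1 z.2 z.1.2⟩ : Au k m))
  intro z z' h
  have h1 := congrArg Subtype.val h
  simp only [Prod.mk.injEq] at h1
  exact Prod.ext (Subtype.ext h1.1.1) h1.2.1

end Pool.Agent.H2
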