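import Pool.Agent.H2.Tail
import Pool.Agent.H2.Orbit

/-!
# The number of good discriminants
-/

namespace Pool.Agent.H2

open Polynomial

universe u

variable {k : Type u} [Field k] [Finite k] [CharP k 2]

/-- top coefficients -/
def topB {n₁ n₂ : ℕ} : Pr k n₁ n₂ →+ k × k where
  toFun p := (p.1.1.coeff (n₁ - 1), p.2.1.coeff (n₂ - 1))
  map_zero' := by simp
  map_add' p q := by simp

theorem topB_surj {n₁ n₂ : ℕ} (h₁ : 1 ≤ n₁) (h₂ : 1 ≤ n₂) :
    Function.Surjective (topB (k := k) (n₁ := n₁) (n₂ := n₂)) := by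
  obtain ⟨m₁, rfl⟩ : ∃ m, n₁ = m + 1 := ⟨n₁ - 1, by omega⟩
  obtain ⟨m₂, rfl⟩ : ∃ m, n₂ = m + 1 := ⟨n₂ - 1, by omega⟩
  exact topA_surj

theorem topB_zero {n₁ n₂ : ℕ} (p : Pr k n₁ n₂) (h₁ : p.1.1.degree < ((n₁ - 1 : ℕ) : WithBot ℕ))
    (h₂ : p.2.1.degree < ((n₂ - 1 : ℕ) : WithBot ℕ)) : topB p = 0 := by
  apply Prod.ext
  · exact coeff_eq_zero_of_degree_lt h₁
  · exact coeff_eq_zero_of_degree_lt h₂

open scoped Classical in
/-- pairs avoiding one residue at each prime of `S` and one pair of top coefficients -/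
theorem card_avoid_top (S : Finset (IrrM k)) {n₁ n₂ : ℕ} (h₁ : (prS S).natDegree + 1 ≤ n₁)
    (h₂ : (prS S).natDegree + 1 ≤ n₂) (v : ∀ P : S, RF P.1 × RF P.1) (w : k × k) :
    (Nat.card {p : Pr k n₁ n₂ // (∀ P : S, (resHom S (toPair p)) P ≠ v P) ∧ topB p ≠ w} : ℝ)
      = (Nat.card k : ℝ) ^ (n₁ + n₂) * ((∏ P ∈ S, dens P) * (1 - ((Nat.card k : ℝ) ^ 2)⁻¹)) := by
  have h3 := card_preimage _ (surj_combine (n₁ := n₁) (n₂ := n₂) (m₁ := n₁ - 1) (m₂ := n₂ - 1)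
    (resHom S) (prS S) (prS_ne_zero S)
    (resHom_L S) (resHom_surj S) (by omega) (by omega) (by omega) (by omega)
    topB (topB_surj (by omega) (by omega)) topB_zero) {y | (∀ P : S, y.1 P ≠ v P) ∧ y.2 ≠ w}
  rw [card_Pr] at h3
  have e1 : Nat.card ((∀ P : S, RF P.1 × RF P.1) × (k × k)) = (∏ P ∈ S, NP P ^ 2) * Nat.card k ^ 2 := by
    rw [Nat.card_prod, Nat.card_pi, Nat.card_prod, ← Finset.prod_coe_sort S (fun P => NP P ^ 2),
      ← pow_two]
    congr 1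
    refine Finset.prod_congr rfl fun P _ => ?_
    rw [Nat.card_prod, card_RF, ← pow_two]
    rfl
  have e2 : Nat.card {y : (∀ P : S, RF P.1 × RF P.1) × (k × k) | (∀ P : S, y.1 P ≠ v P) ∧ y.2 ≠ w}
      = (∏ P ∈ S, (NP P ^ 2 - 1)) * (Nat.card k ^ 2 - 1) := by
    have e3 : Nat.card {y : (∀ P : S, RF P.1 × RF P.1) × (k × k) | (∀ P : S, y.1 P ≠ v P) ∧ y.2 ≠ w}
        = Nat.card ((∀ P : S, {y : RF P.1 × RF P.1 // y ≠ v P}) × {y : k × k // y ≠ w}) := by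
      refine Nat.card_congr
        { toFun := fun y => (fun P => ⟨y.1.1 P, y.2.1 P⟩, ⟨y.1.2, y.2.2⟩)
          invFun := fun y => ⟨(fun P => (y.1 P).1, y.2.1), fun P => (y.1 P).2, y.2.2⟩
          left_inv := fun y => rfl
          right_inv := fun y => rfl }
    rw [e3, Nat.card_prod, Nat.card_pi, ← Finset.prod_coe_sort S (fun P => NP P ^ 2 - 1)]
    congr 1
    · refine Finset.prod_congr rfl fun P _ => ?_
      have := Fintype.ofFinite (RF P.1)
      rw [Nat.card_eq_fintype_card, Fintype.card_subtype_compl, Fintype.card_prod,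
        ← Nat.card_eq_fintype_card, card_RF]
      simp [NP, pow_two]
    · have := Fintype.ofFinite k
      rw [Nat.card_eq_fintype_card, Fintype.card_subtype_compl, Fintype.card_prod,
        ← Nat.card_eq_fintype_card]
      simp [pow_two]
  rw [e1, e2] at h3
  have h4 := congrArg (fun n : ℕ => (n : ℝ)) h3
  simp only [Nat.cast_mul] at h4
  have e5 : ((∏ P ∈ S, (NP P ^ 2 - 1) : ℕ) : ℝ)
      = (∏ P ∈ S, (NP P : ℝ) ^ 2) * ∏ P ∈ S, dens P := by
    rw [Nat.cast_prod, ← Finset.prod_mul_distrib]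
    refine Finset.prod_congr rfl fun P _ => ?_
    have hn2 : 1 ≤ NP P ^ 2 := Nat.one_le_pow _ _ (NP_pos P)
    have hnR : (0 : ℝ) < NP P := by exact_mod_cast NP_pos P
    rw [Nat.cast_sub hn2]
    unfold dens
    push_cast
    field_simp
  have hq := two_le_card (k := k)
  have hq0 : (0 : ℝ) < Nat.card k := by linarith
  have e6 : ((Nat.card k ^ 2 - 1 : ℕ) : ℝ) = (Nat.card k : ℝ) ^ 2 * (1 - ((Nat.card k : ℝ) ^ 2)⁻¹) := by
    have hn2 : 1 ≤ Nat.card k ^ 2 := Nat.one_le_pow _ _ Nat.card_pos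
    rw [Nat.cast_sub hn2]
    push_cast
    field_simp
  rw [e5, e6] at h4
  push_cast at h4
  have hpos : 0 < (∏ P ∈ S, (NP P : ℝ) ^ 2) * (Nat.card k : ℝ) ^ 2 :=
    mul_pos (Finset.prod_pos fun P _ => pow_pos (by exact_mod_cast NP_pos P) 2) (by positivity)
  apply mul_right_cancel₀ hpos.ne'
  calc _ = _ := h4
    _ = _ := by ring

/-- residues of a pair at one prime -/
noncomputable def resOne (P : IrrM k) : k[X] × k[X] →+ RF P × RF P where
  toFun p := (AdjoinRoot.mk P.1 p.1, AdjoinRoot.mk P.1 p.2)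
  map_zero' := by simp
  map_add' p q := by simp

theorem card_resOne (P : IrrM k) {n₁ n₂ : ℕ} (h₁ : P.1.natDegree ≤ n₁) (h₂ : P.1.natDegree ≤ n₂)
    (v : RF P × RF P) :
    (Nat.card {p : Pr k n₁ n₂ // resOne P (toPair p) = v} : ℝ)
      = (Nat.card k : ℝ) ^ (n₁ + n₂) * ((NP P : ℝ) ^ 2)⁻¹ := by
  have hs : Function.Surjective (resOne P) := by
    rintro ⟨x, y⟩
    obtain ⟨f, rfl⟩ := AdjoinRoot.mk_surjective x
    obtain ⟨g, rfl⟩ := AdjoinRoot.mk_surjective y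
    exact ⟨(f, g), rfl⟩
  have hL : ∀ g h : k[X], resOne P (P.1 * g, P.1 * h) = 0 := by
    intro g h
    apply Prod.ext
    · change AdjoinRoot.mk P.1 _ = 0
      rw [AdjoinRoot.mk_eq_zero]; exact dvd_mul_right _ _
    · change AdjoinRoot.mk P.1 _ = 0
      rw [AdjoinRoot.mk_eq_zero]; exact dvd_mul_right _ _
  have h3 := card_fiber _ (surj_box (n₁ := n₁) (n₂ := n₂) (resOne P) P.1 P.2.2.ne_zero hL hs h₁ h₂) v
  rw [card_Pr, Nat.card_prod, card_RF] at h3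
  have h4 := congrArg (fun n : ℕ => (n : ℝ)) h3
  simp only [Nat.cast_mul] at h4
  have hnR : (0 : ℝ) < NP P := by exact_mod_cast NP_pos P
  have e : ((Nat.card k ^ P.1.natDegree : ℕ) : ℝ) = NP P := rfl
  rw [e] at h4
  rw [← div_eq_mul_inv, eq_div_iff (by positivity), pow_two]
  push_cast at h4
  exact h4

variable {a₁ a₃ : k[X]} {d : ℕ}

/-- the fixed part of `κ` -/
noncomputable def k0 (a₁ a₃ : k[X]) : k[X] := a₃ * PC (a₁ * a₃)
/-- the fixed part of `δ` -/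
noncomputable def d0 (a₁ a₃ : k[X]) : k[X] := a₃ ^ 2 + a₁ * a₃ * PE (a₁ * a₃)

theorem kD_sum (e c : k[X]) : kD a₁ a₃ (e ^ 2 + X * c ^ 2) = k0 a₁ a₃ + a₁ * c := by
  unfold kD k0
  rw [PC_eq (rfl : e ^ 2 + X * c ^ 2 = e ^ 2 + X * c ^ 2)]

theorem dD_sum (e c : k[X]) : dD a₁ a₃ (e ^ 2 + X * c ^ 2) = d0 a₁ a₃ + a₁ ^ 2 * e := by
  unfold dD d0
  rw [PE_eq (rfl : e ^ 2 + X * c ^ 2 = e ^ 2 + X * c ^ 2)]

theorem degree_sum_lt {e c : k[X]} (he : e.degree < ((4 * d + 1 : ℕ) : WithBot ℕ))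
    (hc : c.degree < ((4 * d : ℕ) : WithBot ℕ)) (hd : 1 ≤ d) :
    (e ^ 2 + X * c ^ 2).degree < ((8 * d + 1 : ℕ) : WithBot ℕ) := by
  apply degree_add_lt'
  · have := degree_mul_lt' he he
    rw [← pow_two] at this
    have e : 4 * d + (4 * d + 1) = 8 * d + 1 := by omega
    rwa [e] at this
  · have h1 := degree_mul_lt' (M := 4 * d - 1) (a := c) (b := c)
      (by rw [show 4 * d - 1 + 1 = 4 * d by omega]; exact hc) hc
    rw [← pow_two] at h1
    have h2 := degree_mul_lt' (M := 1) (a := X) (by rw [degree_X]; norm_num) h1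
    refine lt_of_lt_of_le h2 ?_
    have : 1 + (4 * d - 1 + 4 * d) ≤ 8 * d + 1 := by omega
    exact_mod_cast this

/-- the number of good discriminants, lower bound -/
theorem card_Gd_ge (hd : 1 ≤ d) (hsq : Squarefree a₁) (hcop : IsCoprime a₁ a₃)
    (ha₁ : a₁.natDegree = d) (ha₃ : a₃.degree < ((3 * d + 1 : ℕ) : WithBot ℕ))
    (S₁ : Finset (IrrM k)) (h1 : ∀ P ∈ S₁, IsCoprime a₁ P.1) (s : ℕ)
    (hs : ∀ P : IrrM k, P.1.natDegree ≤ s → IsCoprime a₁ P.1 → P ∈ S₁)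
    (hdeg : (prS S₁).natDegree + 1 ≤ 4 * d) [Finite {D // Gd a₁ a₃ d D}] :
    (Nat.card k : ℝ) ^ (8 * d + 1) * ((∏ P ∈ S₁, dens P) * (1 - ((Nat.card k : ℝ) ^ 2)⁻¹)
      - ((Nat.card k : ℝ) ^ s)⁻¹ / ((Nat.card k : ℝ) - 1) - ((Nat.card k : ℝ) ^ (4 * d + 1))⁻¹)
      ≤ Nat.card {D // Gd a₁ a₃ d D} := by
  classical
  have hq := two_le_card (k := k)
  have hq0 : (0 : ℝ) < Nat.card k := by linarith
  have ha0 : a₁ ≠ 0 := hsq.ne_zero
  have hl : a₁.coeff d ≠ 0 := by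
    rw [← ha₁]; exact leadingCoeff_ne_zero.mpr ha0
  have := Fintype.ofFinite (Pr k (4 * d + 1) (4 * d))
  -- the good residues
  let v : ∀ P : S₁, RF P.1 × RF P.1 := fun P =>
    (-(AdjoinRoot.mk P.1.1 (d0 a₁ a₃)) / (AdjoinRoot.mk P.1.1 a₁) ^ 2,
      -(AdjoinRoot.mk P.1.1 (k0 a₁ a₃)) / AdjoinRoot.mk P.1.1 a₁)
  let w : k × k := (-((d0 a₁ a₃).coeff (6 * d)) / (a₁.coeff d) ^ 2,
    -((k0 a₁ a₃).coeff (5 * d - 1)) / a₁.coeff d)
  have hA := card_avoid_top S₁ (n₁ := 4 * d + 1) (n₂ := 4 * d) (by omega) hdeg v w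
  -- the primes of middle size
  let T : Finset (IrrM k) := (SS k (4 * d)).filter (fun P => IsCoprime a₁ P.1 ∧ s < P.1.natDegree)
  let vP : ∀ P : IrrM k, RF P × RF P := fun P =>
    (-(AdjoinRoot.mk P.1 (d0 a₁ a₃)) / (AdjoinRoot.mk P.1 a₁) ^ 2,
      -(AdjoinRoot.mk P.1 (k0 a₁ a₃)) / AdjoinRoot.mk P.1 a₁)
  have hmk : ∀ P : IrrM k, IsCoprime a₁ P.1 → AdjoinRoot.mk P.1 a₁ ≠ 0 := by
    intro P hP h0
    rw [AdjoinRoot.mk_eq_zero] at h0
    exact P.prime.not_isUnit (hP.symm.isUnit_of_dvd' dvd_rfl h0)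
  have hres : ∀ P : IrrM k, IsCoprime a₁ P.1 → ∀ e c : k[X],
      P.1 ∣ k0 a₁ a₃ + a₁ * c → P.1 ∣ d0 a₁ a₃ + a₁ ^ 2 * e → 
      (AdjoinRoot.mk P.1 e, AdjoinRoot.mk P.1 c) = vP P := by
    intro P hP e c hc he
    rw [← AdjoinRoot.mk_eq_zero, map_add, map_mul] at hc he
    rw [map_pow] at he
    have h2 := hmk P hP
    apply Prod.ext
    · simp only [vP]
      rw [eq_div_iff (pow_ne_zero 2 h2)]
      linear_combination he
    · simp only [vP]
      rw [eq_div_iff h2]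
      linear_combination hc
  -- the sets
  let A : Finset (Pr k (4 * d + 1) (4 * d)) := Finset.univ.filter
    (fun p => (∀ P : S₁, (resHom S₁ (toPair p)) P ≠ v P) ∧ topB p ≠ w)
  let G : Finset (Pr k (4 * d + 1) (4 * d)) := Finset.univ.filter
    (fun p => Gd a₁ a₃ d (p.1.1 ^ 2 + X * p.2.1 ^ 2))
  let B : IrrM k → Finset (Pr k (4 * d + 1) (4 * d)) := fun P => Finset.univ.filter
    (fun p => resOne P (toPair p) = vP P)
  let E : Finset (Pr k (4 * d + 1) (4 * d)) := Finset.univ.filter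
    (fun p => ∃ P : IrrM k, 4 * d < P.1.natDegree ∧ P.1 ∣ k0 a₁ a₃ + a₁ * p.2.1 ∧
      P.1 ∣ d0 a₁ a₃ + a₁ ^ 2 * p.1.1)
  have hsub : A ⊆ G ∪ (T.biUnion B ∪ E) := by
    intro p hp
    obtain ⟨-, hp1, hp2⟩ := Finset.mem_filter.mp hp
    have dp1 := Bx_degree p.1
    have dp2 := Bx_degree p.2
    have hDdeg := degree_sum_lt dp1 dp2 hd
    by_cases hG : Gd a₁ a₃ d (p.1.1 ^ 2 + X * p.2.1 ^ 2)
    · exact Finset.mem_union_left _ (Finset.mem_filter.mpr ⟨Finset.mem_univ _, hG⟩)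
    apply Finset.mem_union_right
    have hk0 : k0 a₁ a₃ + a₁ * p.2.1 ≠ 0 := by
      rw [← kD_sum p.1.1]; exact Gd.kne hd hsq hcop ha₁
    have hkdeg : (k0 a₁ a₃ + a₁ * p.2.1).degree < ((5 * d : ℕ) : WithBot ℕ) := by
      rw [← kD_sum p.1.1]; exact degree_kD ha₁ ha₃ hDdeg
    have hddeg : (d0 a₁ a₃ + a₁ ^ 2 * p.1.1).degree < ((6 * d + 1 : ℕ) : WithBot ℕ) := by
      rw [← dD_sum _ p.2.1]; exact degree_dD ha₁ ha₃ hDdeg
    have hak : IsCoprime a₁ (k0 a₁ a₃ + a₁ * p.2.1) := by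
      rw [← kD_sum p.1.1]; exact coprime_kD hsq hcop
    -- the condition at infinity holds
    have hinf : (k0 a₁ a₃ + a₁ * p.2.1).degree = ((5 * d - 1 : ℕ) : WithBot ℕ) ∨
        (d0 a₁ a₃ + a₁ ^ 2 * p.1.1).degree = ((6 * d : ℕ) : WithBot ℕ) := by
      by_contra hcon
      rw [not_or] at hcon
      obtain ⟨hc1, hc2⟩ := hcon
      apply hp2
      have n1 : (k0 a₁ a₃ + a₁ * p.2.1).natDegree ≤ 5 * d - 1 := by
        apply nd_le
        rwa [show 5 * d - 1 + 1 = 5 * d by omega]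
      have n2 : (d0 a₁ a₃ + a₁ ^ 2 * p.1.1).natDegree ≤ 6 * d := nd_le hddeg
      have z1 : (k0 a₁ a₃ + a₁ * p.2.1).coeff (5 * d - 1) = 0 := by
        by_contra hne
        apply hc1
        rw [degree_eq_natDegree hk0]
        have := le_natDegree_of_ne_zero hne
        have h3 : (k0 a₁ a₃ + a₁ * p.2.1).natDegree = 5 * d - 1 := by omega
        rw [h3]
      have z2 : (d0 a₁ a₃ + a₁ ^ 2 * p.1.1).coeff (6 * d) = 0 := by
        by_contra hne
        apply hc2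
        have hne0 : d0 a₁ a₃ + a₁ ^ 2 * p.1.1 ≠ 0 := by
          intro h0; rw [h0, coeff_zero] at hne; exact hne rfl
        rw [degree_eq_natDegree hne0]
        have := le_natDegree_of_ne_zero hne
        have h3 : (d0 a₁ a₃ + a₁ ^ 2 * p.1.1).natDegree = 6 * d := by omega
        rw [h3]
      have nc : p.2.1.natDegree ≤ 4 * d - 1 := by
        apply nd_le
        rwa [show 4 * d - 1 + 1 = 4 * d by omega]
      have ne : p.1.1.natDegree ≤ 4 * d := nd_le dp1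
      have m1 : (a₁ * p.2.1).coeff (5 * d - 1) = a₁.coeff d * p.2.1.coeff (4 * d - 1) := by
        have := coeff_mul_add_eq_of_natDegree_le ha₁.le nc
        rwa [show d + (4 * d - 1) = 5 * d - 1 by omega] at this
      have m2 : (a₁ ^ 2 * p.1.1).coeff (6 * d) = a₁.coeff d ^ 2 * p.1.1.coeff (4 * d) := by
        have n3 : (a₁ ^ 2).natDegree ≤ 2 * d := by rw [natDegree_pow, ha₁]
        have := coeff_mul_add_eq_of_natDegree_le n3 ne
        rw [show 2 * d + 4 * d = 6 * d by ring] at this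
        rw [this, coeff_pow_of_natDegree_le ha₁.le]
      rw [coeff_add, m1] at z1
      rw [coeff_add, m2] at z2
      apply Prod.ext
      · change p.1.1.coeff (4 * d + 1 - 1) = _
        rw [show 4 * d + 1 - 1 = 4 * d by omega]
        simp only [w]
        rw [eq_div_iff (pow_ne_zero 2 hl)]
        linear_combination z2
      · change p.2.1.coeff (4 * d - 1) = _
        simp only [w]
        rw [eq_div_iff hl]
        linear_combination z1
    -- so the coprimality fails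
    have hncop : ¬ IsCoprime (k0 a₁ a₃ + a₁ * p.2.1) (d0 a₁ a₃ + a₁ ^ 2 * p.1.1) := by
      intro hc
      apply hG
      refine ⟨hDdeg, ?_, ?_⟩
      · rw [kD_sum, dD_sum]; exact hc
      · rw [kD_sum, dD_sum]; exact hinf
    obtain ⟨P, hP1, hP2⟩ : ∃ P : IrrM k, P.1 ∣ k0 a₁ a₃ + a₁ * p.2.1 ∧
        P.1 ∣ d0 a₁ a₃ + a₁ ^ 2 * p.1.1 := by
      by_contra hcon
      push Not at hcon
      apply hncop
      apply isCoprime_of_prime_dvd
      · rintro ⟨h0, -⟩; exact hk0 h0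
      · intro z hz h3 h4
        obtain ⟨P, hP⟩ := exists_irrM hz.not_isUnit hz.ne_zero
        exact hcon P (hP.trans h3) (hP.trans h4)
    have hPa : IsCoprime a₁ P.1 := hak.of_isCoprime_of_dvd_right hP1
    by_cases hP4 : 4 * d < P.1.natDegree
    · apply Finset.mem_union_right
      exact Finset.mem_filter.mpr ⟨Finset.mem_univ _, P, hP4, hP1, hP2⟩
    · apply Finset.mem_union_left
      rw [Finset.mem_biUnion]
      have hv := hres P hPa p.1.1 p.2.1 hP1 hP2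
      refine ⟨P, Finset.mem_filter.mpr ⟨mem_SS.mpr (by omega), hPa, ?_⟩,
        Finset.mem_filter.mpr ⟨Finset.mem_univ _, hv⟩⟩
      by_contra hPs
      have hPS := hs P (by omega) hPa
      exact hp1 ⟨P, hPS⟩ hv
  have hcard : A.card ≤ G.card + ((∑ P ∈ T, (B P).card) + E.card) := by
    refine (Finset.card_le_card hsub).trans ?_
    refine (Finset.card_union_le _ _).trans ?_
    refine Nat.add_le_add_left ((Finset.card_union_le _ _).trans ?_) _
    exact Nat.add_le_add_right Finset.card_biUnion_le _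
  -- sizes
  have cA : (A.card : ℝ) = (Nat.card k : ℝ) ^ (8 * d + 1) *
      ((∏ P ∈ S₁, dens P) * (1 - ((Nat.card k : ℝ) ^ 2)⁻¹)) := by
    rw [show 8 * d + 1 = 4 * d + 1 + 4 * d by ring, ← hA, Nat.card_eq_fintype_card,
      Fintype.card_subtype]
  have cG : G.card ≤ Nat.card {D // Gd a₁ a₃ d D} := by
    have h2 : G.card = Nat.card {p : Pr k (4 * d + 1) (4 * d) //
        Gd a₁ a₃ d (p.1.1 ^ 2 + X * p.2.1 ^ 2)} := by
      rw [Nat.card_eq_fintype_card, Fintype.card_subtype]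
    rw [h2]
    apply Nat.card_le_card_of_injective (fun p : {p : Pr k (4 * d + 1) (4 * d) //
        Gd a₁ a₃ d (p.1.1 ^ 2 + X * p.2.1 ^ 2)} => (⟨_, p.2⟩ : {D // Gd a₁ a₃ d D}))
    intro p p' h
    have h3 := congrArg Subtype.val h
    obtain ⟨h4, h5⟩ := sum_uniq h3
    exact Subtype.ext (Prod.ext (Subtype.ext h4) (Subtype.ext h5))
  have cB : ∀ P ∈ T, ((B P).card : ℝ) = (Nat.card k : ℝ) ^ (8 * d + 1) * ((NP P : ℝ) ^ 2)⁻¹ := by
    intro P hP
    obtain ⟨hP1, -, -⟩ := Finset.mem_filter.mp hP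
    rw [mem_SS] at hP1
    rw [show 8 * d + 1 = 4 * d + 1 + 4 * d by ring, ← card_resOne P (by omega) hP1 (vP P),
      Nat.card_eq_fintype_card, Fintype.card_subtype]
  have cE : E.card ≤ Nat.card k ^ (4 * d) := by
    have h2 : E.card = Nat.card {p : Pr k (4 * d + 1) (4 * d) //
        ∃ P : IrrM k, 4 * d < P.1.natDegree ∧ P.1 ∣ k0 a₁ a₃ + a₁ * p.2.1 ∧
      P.1 ∣ d0 a₁ a₃ + a₁ ^ 2 * p.1.1} := by
      rw [Nat.card_eq_fintype_card, Fintype.card_subtype]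
    rw [h2, ← card_Bx]
    apply Nat.card_le_card_of_injective (fun p : {p : Pr k (4 * d + 1) (4 * d) //
        ∃ P : IrrM k, 4 * d < P.1.natDegree ∧ P.1 ∣ k0 a₁ a₃ + a₁ * p.2.1 ∧
      P.1 ∣ d0 a₁ a₃ + a₁ ^ 2 * p.1.1} => p.1.2)
    rintro ⟨p, P, hP, hP1, hP2⟩ ⟨p', P', hP', hP1', hP2'⟩ h
    have h3 : p.2 = p'.2 := h
    have hDdeg := degree_sum_lt (Bx_degree p.1) (Bx_degree p.2) hd
    have hk0 : k0 a₁ a₃ + a₁ * p.2.1 ≠ 0 := by
      rw [← kD_sum p.1.1]; exact Gd.kne hd hsq hcop ha₁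
    have hkdeg : (k0 a₁ a₃ + a₁ * p.2.1).degree < ((5 * d : ℕ) : WithBot ℕ) := by
      rw [← kD_sum p.1.1]; exact degree_kD ha₁ ha₃ hDdeg
    have hak : IsCoprime a₁ (k0 a₁ a₃ + a₁ * p.2.1) := by
      rw [← kD_sum p.1.1]; exact coprime_kD hsq hcop
    have n1 : (k0 a₁ a₃ + a₁ * p.2.1).natDegree ≤ 5 * d - 1 := by
      apply nd_le
      rwa [show 5 * d - 1 + 1 = 5 * d by omega]
    rw [← h3] at hP1'
    have hPP : P = P' := by
      by_contra hne
      have h4 := (IrrM.coprime hne).mul_dvd hP1 hP1'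
      have h5 := natDegree_le_of_dvd h4 hk0
      rw [natDegree_mul P.2.2.ne_zero P'.2.2.ne_zero] at h5
      omega
    subst hPP
    have hPa : IsCoprime a₁ P.1 := hak.of_isCoprime_of_dvd_right hP1
    have h6 : P.1 ∣ a₁ ^ 2 * (p.1.1 - p'.1.1) := by
      have := dvd_sub hP2 hP2'
      have e : d0 a₁ a₃ + a₁ ^ 2 * p.1.1 - (d0 a₁ a₃ + a₁ ^ 2 * p'.1.1)
        = a₁ ^ 2 * (p.1.1 - p'.1.1) := by ring
      rwa [e] at this
    have h7 : P.1 ∣ p.1.1 - p'.1.1 := (hPa.symm.pow_right).dvd_of_dvd_mul_left h6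
    have h8 : p.1.1 - p'.1.1 = 0 := by
      apply eq_zero_of_dvd_degree h7
      have h9 : (p.1.1 - p'.1.1).degree < ((4 * d + 1 : ℕ) : WithBot ℕ) :=
        lt_of_le_of_lt (degree_sub_le _ _) (max_lt (Bx_degree p.1) (Bx_degree p'.1))
      exact lt_of_lt_of_le h9 (by exact_mod_cast hP)
    exact Subtype.ext (Prod.ext (Subtype.ext (sub_eq_zero.mp h8)) h3)
  -- assemble
  have hT := sum_inv_NP T s (fun P hP => (Finset.mem_filter.mp hP).2.2)
  have hcardR : (A.card : ℝ) ≤ (G.card : ℝ) + ((∑ P ∈ T, ((B P).card : ℝ)) + (E.card : ℝ)) := by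
    exact_mod_cast hcard
  rw [cA, Finset.sum_congr rfl cB, ← Finset.mul_sum] at hcardR
  have cG' : (G.card : ℝ) ≤ Nat.card {D // Gd a₁ a₃ d D} := by exact_mod_cast cG
  have cE' : (E.card : ℝ) ≤ (Nat.card k : ℝ) ^ (8 * d + 1) * ((Nat.card k : ℝ) ^ (4 * d + 1))⁻¹ := by
    have h2 : (E.card : ℝ) ≤ (Nat.card k : ℝ) ^ (4 * d) := by exact_mod_cast cE
    refine h2.trans (le_of_eq ?_)
    rw [show 8 * d + 1 = 4 * d + (4 * d + 1) by ring, pow_add]
    field_simp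
  have hT' := mul_le_mul_of_nonneg_left hT (by positivity : (0 : ℝ) ≤ (Nat.card k : ℝ) ^ (8 * d + 1))
  rw [mul_sub, mul_sub]
  linarith

end Pool.Agent.H2
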