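import Pool.Agent.H2.Total
import Pool.Agent.H2.GoodCount

/-!
# The family of curves
-/

namespace Pool.Agent.H2

open Polynomial

universe u

variable {k : Type u} [Field k] [Finite k] [CharP k 2]

/-- the coefficients `a₂, a₄, a₆` -/
abbrev Tri (k : Type u) [Field k] (d : ℕ) :=
  Bx k (2 * d + 1) × (Bx k (4 * d + 1) × Bx k (6 * d + 1))

/-- the Weierstrass curve over `k[X]` -/
def Wc (a₁ a₃ : k[X]) {d : ℕ} (w : Tri k d) : WeierstrassCurve k[X] :=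
  ⟨a₁, w.1.1, a₃, w.2.1.1, w.2.2.1⟩

/-- the family: the discriminant is squarefree, also at infinity -/
def Fam (a₁ a₃ : k[X]) (d : ℕ) : Set (Tri k d) :=
  {w | Squarefree (Wc a₁ a₃ w).Δ ∧ 12 * d - 1 ≤ (Wc a₁ a₃ w).Δ.natDegree}

variable {a₁ a₃ : k[X]} {d : ℕ}

theorem PD_Wc (w : Tri k d) : PD (Wc a₁ a₃ w)
    = a₁ ^ 2 * w.2.2.1 + a₁ * a₃ * w.2.1.1 + w.1.1 * a₃ ^ 2 + w.2.1.1 ^ 2 := rfl

theorem Delta_Wc (w : Tri k d) : (Wc a₁ a₃ w).Δ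
    = dD a₁ a₃ (PD (Wc a₁ a₃ w)) ^ 2 + X * (a₁ * kD a₁ a₃ (PD (Wc a₁ a₃ w))) ^ 2 := by
  rw [← disc_D, PD_Wc]
  have h2 : (2 : k[X]) = 0 := CharTwo.two_eq_zero
  simp only [WeierstrassCurve.Δ, WeierstrassCurve.b₂, WeierstrassCurve.b₄, WeierstrassCurve.b₆,
    WeierstrassCurve.b₈, Wc]
  grind

theorem degree_PD (hd : 1 ≤ d) (ha₁ : a₁.natDegree = d)
    (ha₃ : a₃.degree < ((3 * d + 1 : ℕ) : WithBot ℕ)) (w : Tri k d) :
    (PD (Wc a₁ a₃ w)).degree < ((8 * d + 1 : ℕ) : WithBot ℕ) := by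
  rw [PD_Wc]
  have h1 := degree_a₁ ha₁
  have h11 := degree_mul_lt' h1 h1
  rw [← pow_two, show d + (d + 1) = 2 * d + 1 by omega] at h11
  have h13 := degree_mul_lt' h1 ha₃
  rw [show d + (3 * d + 1) = 4 * d + 1 by omega] at h13
  have h33 := degree_mul_lt' ha₃ ha₃
  rw [← pow_two, show 3 * d + (3 * d + 1) = 6 * d + 1 by omega] at h33
  have h2 := Bx_degree w.1
  have h4 := Bx_degree w.2.1
  have h6 := Bx_degree w.2.2
  have h44 := degree_mul_lt' h4 h4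
  rw [← pow_two, show 4 * d + (4 * d + 1) = 8 * d + 1 by omega] at h44
  refine degree_add_lt' (degree_add_lt' (degree_add_lt' ?_ ?_) ?_) h44
  · have := degree_mul_lt' h11 h6
    rwa [show 2 * d + (6 * d + 1) = 8 * d + 1 by omega] at this
  · have := degree_mul_lt' h13 h4
    rwa [show 4 * d + (4 * d + 1) = 8 * d + 1 by omega] at this
  · have := degree_mul_lt' h2 h33
    rwa [show 2 * d + (6 * d + 1) = 8 * d + 1 by omega] at this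

/-- squarefreeness in terms of `κ` and `δ` -/
theorem squarefree_iff {D : k[X]} (hsq : Squarefree a₁) (hcop : IsCoprime a₁ a₃)
    (hk0 : kD a₁ a₃ D ≠ 0) :
    Squarefree (dD a₁ a₃ D ^ 2 + X * (a₁ * kD a₁ a₃ D) ^ 2) ↔
      IsCoprime (kD a₁ a₃ D) (dD a₁ a₃ D) := by
  have ha0 := hsq.ne_zero
  have hne : dD a₁ a₃ D ^ 2 + X * (a₁ * kD a₁ a₃ D) ^ 2 ≠ 0 := by
    intro h0
    exact mul_ne_zero ha0 hk0 (poly_uniq _ _ h0)
  constructor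
  · intro h
    apply isCoprime_of_prime_dvd
    · rintro ⟨h0, -⟩; exact hk0 h0
    · intro z hz h3 h4
      apply hz.not_isUnit
      apply h z
      obtain ⟨s, hs⟩ := h3
      obtain ⟨t, ht⟩ := h4
      rw [hs, ht]
      exact ⟨t ^ 2 + X * (a₁ * s) ^ 2, by ring⟩
  · intro h z hz
    by_contra hu
    have hz0 : z ≠ 0 := by
      rintro rfl
      rw [zero_mul, zero_dvd_iff] at hz
      exact hne hz
    obtain ⟨P, hP⟩ := exists_irrM hu hz0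
    have h1 : P.1 ^ 2 ∣ dD a₁ a₃ D ^ 2 + X * (a₁ * kD a₁ a₃ D) ^ 2 := by
      rw [pow_two]; exact (mul_dvd_mul hP hP).trans hz
    obtain ⟨h2, h3⟩ := sq_dvd_aux P.1 _ _ P.prime h1
    rcases P.prime.dvd_or_dvd h3 with h4 | h4
    · -- `P` divides `a₁`
      have h5 : P.1 ∣ a₃ ^ 2 := by
        have e : a₃ ^ 2 = dD a₁ a₃ D - a₁ * (a₃ * PE (a₁ * a₃) + a₁ * PE D) := by
          unfold dD; ring
        rw [e]
        exact dvd_sub h2 (dvd_mul_of_dvd_left h4 _)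
      exact P.prime.not_isUnit (hcop.isUnit_of_dvd' h4 (P.prime.dvd_of_dvd_pow h5))
    · exact P.prime.not_isUnit (h.isUnit_of_dvd' h4 h2)

/-- the degree condition in terms of `κ` and `δ` -/
theorem natDegree_iff {D : k[X]} (hd : 1 ≤ d) (hsq : Squarefree a₁)
    (ha₁ : a₁.natDegree = d) (ha₃ : a₃.degree < ((3 * d + 1 : ℕ) : WithBot ℕ))
    (hD : D.degree < ((8 * d + 1 : ℕ) : WithBot ℕ)) (hk0 : kD a₁ a₃ D ≠ 0) :
    12 * d - 1 ≤ (dD a₁ a₃ D ^ 2 + X * (a₁ * kD a₁ a₃ D) ^ 2).natDegree ↔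
      ((kD a₁ a₃ D).degree = ((5 * d - 1 : ℕ) : WithBot ℕ) ∨
      (dD a₁ a₃ D).degree = ((6 * d : ℕ) : WithBot ℕ)) := by
  have ha0 := hsq.ne_zero
  have nk : (kD a₁ a₃ D).natDegree ≤ 5 * d - 1 := by
    apply nd_le
    rw [show 5 * d - 1 + 1 = 5 * d by omega]
    exact degree_kD ha₁ ha₃ hD
  have nδ : (dD a₁ a₃ D).natDegree ≤ 6 * d := nd_le (degree_dD ha₁ ha₃ hD)
  have hak : a₁ * kD a₁ a₃ D ≠ 0 := mul_ne_zero ha0 hk0
  have n1 : (X * (a₁ * kD a₁ a₃ D) ^ 2).natDegree = 2 * (d + (kD a₁ a₃ D).natDegree) + 1 := by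
    rw [natDegree_mul X_ne_zero (pow_ne_zero 2 hak), natDegree_X, natDegree_pow,
      natDegree_mul ha0 hk0, ha₁]
    ring
  have hX : X * (a₁ * kD a₁ a₃ D) ^ 2 ≠ 0 := mul_ne_zero X_ne_zero (pow_ne_zero 2 hak)
  have hne : dD a₁ a₃ D ^ 2 + X * (a₁ * kD a₁ a₃ D) ^ 2 ≠ 0 := by
    intro h0
    exact hak (poly_uniq _ _ h0)
  have hk : (kD a₁ a₃ D).degree = ((5 * d - 1 : ℕ) : WithBot ℕ) ↔
      (kD a₁ a₃ D).natDegree = 5 * d - 1 := by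
    rw [degree_eq_natDegree hk0]
    exact Nat.cast_inj
  have hdeg := degree_sum (dD a₁ a₃ D) (a₁ * kD a₁ a₃ D)
  rw [hk]
  by_cases hδ0 : dD a₁ a₃ D = 0
  · have e : dD a₁ a₃ D ^ 2 + X * (a₁ * kD a₁ a₃ D) ^ 2 = X * (a₁ * kD a₁ a₃ D) ^ 2 := by
      rw [hδ0]; ring
    rw [e, n1, hδ0, degree_zero]
    constructor
    · intro h; left; omega
    · rintro (h | h)
      · omega
      · exact absurd h (WithBot.bot_ne_coe)
  · have hδ2 : dD a₁ a₃ D ^ 2 ≠ 0 := pow_ne_zero 2 hδ0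
    have hk' : (dD a₁ a₃ D).degree = ((6 * d : ℕ) : WithBot ℕ) ↔
        (dD a₁ a₃ D).natDegree = 6 * d := by
      rw [degree_eq_natDegree hδ0]
      exact Nat.cast_inj
    rw [hk']
    rw [degree_eq_natDegree hne, degree_eq_natDegree hδ2, degree_eq_natDegree hX, n1,
      natDegree_pow] at hdeg
    have hn : (dD a₁ a₃ D ^ 2 + X * (a₁ * kD a₁ a₃ D) ^ 2).natDegree
        = max (2 * (dD a₁ a₃ D).natDegree) (2 * (d + (kD a₁ a₃ D).natDegree) + 1) := by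
      have h3 : (((dD a₁ a₃ D ^ 2 + X * (a₁ * kD a₁ a₃ D) ^ 2).natDegree : ℕ) : WithBot ℕ)
          = ((max (2 * (dD a₁ a₃ D).natDegree) (2 * (d + (kD a₁ a₃ D).natDegree) + 1) : ℕ) :
            WithBot ℕ) := by
        rw [hdeg]
        push_cast
        rfl
      exact Nat.cast_inj.mp h3
    rw [hn]
    constructor
    · intro h
      rcases le_max_iff.mp h with h | h
      · right; omega
      · left; omega
    · rintro (h | h)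
      · exact le_max_of_le_right (by omega)
      · exact le_max_of_le_left (by omega)

theorem mem_Fam_iff (hd : 1 ≤ d) (hsq : Squarefree a₁) (hcop : IsCoprime a₁ a₃)
    (ha₁ : a₁.natDegree = d) (ha₃ : a₃.degree < ((3 * d + 1 : ℕ) : WithBot ℕ)) (w : Tri k d) :
    w ∈ Fam a₁ a₃ d ↔ Gd a₁ a₃ d (PD (Wc a₁ a₃ w)) := by
  have hk0 : kD a₁ a₃ (PD (Wc a₁ a₃ w)) ≠ 0 := Gd.kne hd hsq hcop ha₁
  have hD := degree_PD hd ha₁ ha₃ w
  change (Squarefree (Wc a₁ a₃ w).Δ ∧ 12 * d - 1 ≤ (Wc a₁ a₃ w).Δ.natDegree) ↔ _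
  rw [Delta_Wc, squarefree_iff hsq hcop hk0, natDegree_iff hd hsq ha₁ ha₃ hD hk0]
  constructor
  · rintro ⟨h1, h2⟩; exact ⟨hD, h1, h2⟩
  · intro h; exact ⟨h.cop, h.inf⟩

/-- the map to `D` -/
noncomputable def PDhom (hd : 1 ≤ d) (ha₁ : a₁.natDegree = d)
    (ha₃ : a₃.degree < ((3 * d + 1 : ℕ) : WithBot ℕ)) : Tri k d →+ Bx k (8 * d + 1) where
  toFun w := ⟨PD (Wc a₁ a₃ w), mem_degreeLT.mpr (degree_PD hd ha₁ ha₃ w)⟩
  map_zero' := by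
    apply Subtype.ext
    change PD (Wc a₁ a₃ (0 : Tri k d)) = 0
    rw [PD_Wc]
    simp
  map_add' w w' := by
    apply Subtype.ext
    change PD (Wc a₁ a₃ (w + w')) = PD (Wc a₁ a₃ w) + PD (Wc a₁ a₃ w')
    rw [PD_Wc, PD_Wc, PD_Wc]
    simp only [Prod.fst_add, Prod.snd_add, Submodule.coe_add]
    linear_combination (w.2.1.1 * w'.2.1.1) * (CharTwo.two_eq_zero : (2 : k[X]) = 0)

theorem PDhom_surj (hd : 1 ≤ d) (hcop : IsCoprime a₁ a₃) (ha0 : a₁ ≠ 0) (ha₁ : a₁.natDegree = d)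
    (ha₃ : a₃.degree < ((3 * d + 1 : ℕ) : WithBot ℕ)) :
    Function.Surjective (PDhom (a₁ := a₁) (a₃ := a₃) hd ha₁ ha₃) := by
  intro D
  obtain ⟨u, v, huv⟩ : IsCoprime (a₁ ^ 2) (a₃ ^ 2) := hcop.pow
  have hn : (a₁ ^ 2).natDegree = 2 * d := by rw [natDegree_pow, ha₁]
  have ha2 : a₁ ^ 2 ≠ 0 := pow_ne_zero 2 ha0
  obtain ⟨a₂, hA⟩ : ∃ a₂, a₂ = (D.1 * v) % a₁ ^ 2 := ⟨_, rfl⟩
  have d2 : a₂.degree < ((2 * d : ℕ) : WithBot ℕ) := by
    rw [hA]; exact degree_mod_lt ha2 hn.le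
  have hdvd : a₁ ^ 2 ∣ D.1 - a₂ * a₃ ^ 2 := by
    have h1 : a₁ ^ 2 * (D.1 * v / a₁ ^ 2) + D.1 * v % a₁ ^ 2 = D.1 * v :=
      EuclideanDomain.div_add_mod _ _
    refine ⟨D.1 * u + (D.1 * v / a₁ ^ 2) * a₃ ^ 2, ?_⟩
    rw [hA]
    linear_combination (-D.1) * huv - a₃ ^ 2 * h1
  obtain ⟨a₆, h6⟩ := hdvd
  have d6 : a₆.degree < ((6 * d + 1 : ℕ) : WithBot ℕ) := by
    apply degree_div hn ha2
    rw [← h6]
    refine lt_of_le_of_lt (degree_sub_le _ _) (max_lt ?_ ?_)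
    · refine lt_of_lt_of_le (Bx_degree D) ?_
      have : 8 * d + 1 ≤ 6 * d + 1 + 2 * d := by omega
      exact_mod_cast this
    · have h33 := degree_mul_lt' ha₃ ha₃
      rw [← pow_two, show 3 * d + (3 * d + 1) = 6 * d + 1 by omega] at h33
      have h3 := degree_mul_lt' (M := 6 * d) h33 d2
      rw [mul_comm]
      refine lt_of_lt_of_le h3 ?_
      have : 6 * d + 2 * d ≤ 6 * d + 1 + 2 * d := by omega
      exact_mod_cast this
  have d2' : a₂.degree < ((2 * d + 1 : ℕ) : WithBot ℕ) :=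
    lt_trans d2 (by exact_mod_cast Nat.lt_succ_self _)
  refine ⟨(⟨a₂, mem_degreeLT.mpr d2'⟩, (0, ⟨a₆, mem_degreeLT.mpr d6⟩)), ?_⟩
  apply Subtype.ext
  change PD (Wc a₁ a₃ _) = D.1
  rw [PD_Wc]
  change a₁ ^ 2 * a₆ + a₁ * a₃ * 0 + a₂ * a₃ ^ 2 + 0 ^ 2 = D.1
  linear_combination -h6

theorem card_Tri : Nat.card (Tri k d) = Nat.card k ^ (12 * d + 3) := by
  rw [Nat.card_prod, Nat.card_prod, card_Bx, card_Bx, card_Bx, ← pow_add, ← pow_add]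
  congr 1; ring

theorem card_PD_fiber (hd : 1 ≤ d) (hcop : IsCoprime a₁ a₃) (ha0 : a₁ ≠ 0) (ha₁ : a₁.natDegree = d)
    (ha₃ : a₃.degree < ((3 * d + 1 : ℕ) : WithBot ℕ)) {D : k[X]}
    (hD : D.degree < ((8 * d + 1 : ℕ) : WithBot ℕ)) :
    Nat.card {w : Tri k d // PD (Wc a₁ a₃ w) = D} = Nat.card k ^ (4 * d + 2) := by
  have h1 := card_fiber _ (PDhom_surj hd hcop ha0 ha₁ ha₃) ⟨D, mem_degreeLT.mpr hD⟩
  rw [card_Tri, card_Bx] at h1
  have h2 : Nat.card {w : Tri k d // PD (Wc a₁ a₃ w) = D}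
      = Nat.card {w : Tri k d // (PDhom (a₁ := a₁) (a₃ := a₃) hd ha₁ ha₃) w
        = ⟨D, mem_degreeLT.mpr hD⟩} := by
    refine Nat.card_congr (Equiv.subtypeEquivRight fun w => ?_)
    rw [Subtype.ext_iff]; rfl
  rw [h2]
  have hq : 0 < Nat.card k ^ (8 * d + 1) := pow_pos Nat.card_pos _
  apply Nat.eq_of_mul_eq_mul_right hq
  rw [h1, ← pow_add]
  congr 1; ring

end Pool.Agent.H2
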