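import Pool.Agent.H2.Family

/-!
# The average size of the Selmer group
-/

namespace Pool.Agent.H2

open Polynomial WeierstrassCurve WeierstrassCurve.Affine

universe u

variable {k : Type u} [Field k] [Finite k] [CharP k 2]

section Torsion

open scoped Classical in
/-- no two-torsion -/
theorem no_torsion {K : Type u} [Field K] {τ : K} {E : Affine K} (h : TwoBasis τ)
    (hk : E.a₁ * kap h E ≠ 0) {F : Type u} [Field F] [Algebra K F]
    (hF : TwoBasis (algebraMap K F τ)) (P : Pts E F) (hP : 2 • P = 0) : P = 0 := by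
  have hF2 := hF.charP
  have hP' : P + P = 0 := by rw [← two_nsmul]; exact hP
  have hneg : P = -P := eq_neg_of_add_eq_zero_left hP'
  rcases P with _ | ⟨x, y, hxy⟩
  · rfl
  · exfalso
    have h1 : (Affine.Point.some x y hxy : (E⁄F).Point) = -(Affine.Point.some x y hxy) := hneg
    rw [Affine.Point.neg_some] at h1
    have h2 : y = (E⁄F).negY x y := by
      injection h1 with h3 h4
    have hw := w_ne_zero hF (ne_zero_map E h hF hk) hxy.1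
    apply hw
    unfold wf
    have h5 : (E⁄F).a₁ * x + (E⁄F).a₃ = 0 := by
      rw [Affine.negY] at h2
      have h6 : y + y = 0 := CharTwo.add_self_eq_zero y
      linear_combination h2 - h6
    rw [h5, mul_zero]

end Torsion

variable {a₁ a₃ : k[X]} {d : ℕ}

theorem finite_Gd : Finite {D // Gd a₁ a₃ d D} := by
  apply Finite.of_injective (fun D : {D // Gd a₁ a₃ d D} =>
    (⟨D.1, mem_degreeLT.mpr D.2.deg⟩ : Bx k (8 * d + 1)))
  intro D D' h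
  have h2 := congrArg Subtype.val h
  exact Subtype.ext h2

theorem card_Fam (hd : 1 ≤ d) (hsq : Squarefree a₁) (hcop : IsCoprime a₁ a₃)
    (ha₁ : a₁.natDegree = d) (ha₃ : a₃.degree < ((3 * d + 1 : ℕ) : WithBot ℕ)) :
    Nat.card (Fam a₁ a₃ d) = Nat.card {D // Gd a₁ a₃ d D} * Nat.card k ^ (4 * d + 2) := by
  have h1 := card_preimage (PDhom (a₁ := a₁) (a₃ := a₃) hd ha₁ ha₃)
    (PDhom_surj hd hcop hsq.ne_zero ha₁ ha₃) {D | Gd a₁ a₃ d D.1}
  have e1 : Nat.card {w : Tri k d // (PDhom (a₁ := a₁) (a₃ := a₃) hd ha₁ ha₃) w ∈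
      ({D | Gd a₁ a₃ d D.1} : Set (Bx k (8 * d + 1)))} = Nat.card (Fam a₁ a₃ d) := by
    refine Nat.card_congr (Equiv.subtypeEquivRight fun w => ?_)
    exact (mem_Fam_iff hd hsq hcop ha₁ ha₃ w).symm
  have e2 : Nat.card ({D | Gd a₁ a₃ d D.1} : Set (Bx k (8 * d + 1)))
      = Nat.card {D // Gd a₁ a₃ d D} := by
    refine Nat.card_congr
      { toFun := fun D => ⟨D.1.1, D.2⟩
        invFun := fun D => ⟨⟨D.1, mem_degreeLT.mpr D.2.deg⟩, D.2⟩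
        left_inv := fun D => rfl
        right_inv := fun D => rfl }
  rw [e1, e2, card_Tri, card_Bx] at h1
  have hq : 0 < Nat.card k ^ (8 * d + 1) := pow_pos Nat.card_pos _
  apply Nat.eq_of_mul_eq_mul_right hq
  rw [h1, mul_assoc, ← pow_add]
  congr 2
  ring

theorem degBound_Wc (ha₁ : a₁.natDegree = d) (ha₃ : a₃.degree < ((3 * d + 1 : ℕ) : WithBot ℕ))
    (w : Tri k d) : DegBound (Wc a₁ a₃ w) d :=
  ⟨ha₁, nd_le (Bx_degree w.1), nd_le ha₃, nd_le (Bx_degree w.2.1), nd_le (Bx_degree w.2.2)⟩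

/-- the Selmer group of a member of the family -/
abbrev Sel (a₁ a₃ : k[X]) {d : ℕ} (w : Tri k d) : Type u := SelmerGroup (crv (Wc a₁ a₃ w)) 2

theorem hk_Wc (hd : 1 ≤ d) (hsq : Squarefree a₁) (hcop : IsCoprime a₁ a₃)
    (ha₁ : a₁.natDegree = d) (w : Tri k d) :
    (Wc a₁ a₃ w).a₁ * pkap (Wc a₁ a₃ w) ≠ 0 :=
  mul_ne_zero hsq.ne_zero (Gd.kne hd hsq hcop ha₁)

theorem sel_emb (hd : 1 ≤ d) (hsq : Squarefree a₁) (hcop : IsCoprime a₁ a₃)
    (ha₁ : a₁.natDegree = d) (ha₃ : a₃.degree < ((3 * d + 1 : ℕ) : WithBot ℕ)) (w : Tri k d)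
    (hw : w ∈ Fam a₁ a₃ d) :
    ∃ φ : Sel a₁ a₃ w → k[X], Function.Injective φ ∧
      ∀ s, φ s ≠ 0 → (PD (Wc a₁ a₃ w), φ s) ∈ SZ a₁ a₃ d := by
  obtain ⟨φ, hφ, -⟩ := selmer_inj (Wc a₁ a₃ w) (degBound_Wc ha₁ ha₃ w) hsq
    (hk_Wc hd hsq hcop ha₁ w)
  have hG := (mem_Fam_iff hd hsq hcop ha₁ ha₃ w).mp hw
  refine ⟨fun s => (φ s).1, ?_, ?_⟩
  · intro s t h
    exact hφ (Subtype.ext h)
  · intro s hs
    exact ⟨hG, hs, (φ s).2.dat⟩

open scoped Classical in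
/-- bound through the embedding -/
theorem card_le_opt {A B : Type*} [Zero B] {φ : A → B} (hφ : Function.Injective φ)
    [Finite {s // φ s ≠ 0}] : Finite A ∧ Nat.card A ≤ 1 + Nat.card {s // φ s ≠ 0} := by
  let f : A → Option {s // φ s ≠ 0} := fun s => if h : φ s ≠ 0 then some ⟨s, h⟩ else none
  have hf : Function.Injective f := by
    intro s t h
    by_cases hs : φ s ≠ 0
    · by_cases ht : φ t ≠ 0
      · simp only [f, dif_pos hs, dif_pos ht, Option.some.injEq, Subtype.mk.injEq] at h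
        exact h
      · simp only [f, dif_pos hs, dif_neg ht] at h
        exact absurd h (by simp)
    · by_cases ht : φ t ≠ 0
      · simp only [f, dif_neg hs, dif_pos ht] at h
        exact absurd h (by simp)
      · rw [not_not] at hs ht
        exact hφ (hs.trans ht.symm)
  refine ⟨Finite.of_injective f hf, (Nat.card_le_card_of_injective f hf).trans ?_⟩
  rw [Finite.card_option, add_comm]

theorem finite_ne {A : Type*} {φ : A → k[X]} (hφ : Function.Injective φ) {D : k[X]}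
    (h : ∀ s, φ s ≠ 0 → (D, φ s) ∈ SZ a₁ a₃ d) [Finite (SZ a₁ a₃ d)] :
    Finite {s // φ s ≠ 0} := by
  apply Finite.of_injective (fun s : {s // φ s ≠ 0} => (⟨_, h s.1 s.2⟩ : SZ a₁ a₃ d))
  intro s t hst
  have h1 := congrArg (fun z : SZ a₁ a₃ d => z.1.2) hst
  exact Subtype.ext (hφ h1)

theorem finite_Sel (hd : 1 ≤ d) (hsq : Squarefree a₁) (hcop : IsCoprime a₁ a₃)
    (ha₁ : a₁.natDegree = d) (ha₃ : a₃.degree < ((3 * d + 1 : ℕ) : WithBot ℕ)) (w : Tri k d)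
    (hw : w ∈ Fam a₁ a₃ d) : Finite (Sel a₁ a₃ w) := by
  obtain ⟨φ, hφ, h1⟩ := sel_emb hd hsq hcop ha₁ ha₃ w hw
  have hfin := (finite_SZ hd hsq hcop ha₁ ha₃).1
  have h2 : Finite {s // φ s ≠ 0} := finite_ne hφ h1
  exact (card_le_opt hφ).1

/-- the sum of the sizes of the Selmer groups -/
theorem sum_Sel (hd : 1 ≤ d) (hsq : Squarefree a₁) (hcop : IsCoprime a₁ a₃)
    (ha₁ : a₁.natDegree = d) (ha₃ : a₃.degree < ((3 * d + 1 : ℕ) : WithBot ℕ)) :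
    ∑ᶠ w : Fam a₁ a₃ d, Nat.card (Sel a₁ a₃ w.1)
      ≤ Nat.card (Fam a₁ a₃ d) + Nat.card k ^ (4 * d + 2) * Nat.card (SZ a₁ a₃ d) := by
  classical
  have hFt := Fintype.ofFinite (Fam a₁ a₃ d)
  have hSZ := (finite_SZ hd hsq hcop ha₁ ha₃).1
  choose φ hφ h1 using fun w : Fam a₁ a₃ d => sel_emb hd hsq hcop ha₁ ha₃ w.1 w.2
  have hfin : ∀ w : Fam a₁ a₃ d, Finite {s // φ w s ≠ 0} := fun w =>
    finite_ne (hφ w) (h1 w)
  have e1 : ∀ w : Fam a₁ a₃ d, Nat.card (Sel a₁ a₃ w.1) ≤ 1 + Nat.card {s // φ w s ≠ 0} :=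
    fun w => (card_le_opt (hφ w)).2
  rw [finsum_eq_sum_of_fintype]
  refine (Finset.sum_le_sum fun w _ => e1 w).trans ?_
  rw [Finset.sum_add_distrib,
    Finset.sum_const, smul_eq_mul, mul_one, Finset.card_univ, ← Nat.card_eq_fintype_card,
    ← Nat.card_sigma]
  refine Nat.add_le_add_left ?_ _
  let f : (Σ w : Fam a₁ a₃ d, {s // φ w s ≠ 0}) →
      {p : Tri k d × SZ a₁ a₃ d // PD (Wc a₁ a₃ p.1) = p.2.1.1} :=
    fun z => ⟨(z.1.1, ⟨_, h1 z.1 z.2.1 z.2.2⟩), rfl⟩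
  have hf : Function.Injective f := by
    rintro ⟨w, s⟩ ⟨w', s'⟩ h
    have h2 : w = w' := by
      apply Subtype.ext
      exact congrArg (fun z : {p : Tri k d × SZ a₁ a₃ d // PD (Wc a₁ a₃ p.1) = p.2.1.1} => z.1.1) h
    subst h2
    have h3 : φ w s.1 = φ w s'.1 :=
      congrArg (fun z : {p : Tri k d × SZ a₁ a₃ d // PD (Wc a₁ a₃ p.1) = p.2.1.1} => z.1.2.1.2) h
    have h4 : s = s' := Subtype.ext (hφ w h3)
    rw [h4]
  refine (Nat.card_le_card_of_injective f hf).trans ?_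
  have h5 := card_le_of_fiber (fun z : {p : Tri k d × SZ a₁ a₃ d // PD (Wc a₁ a₃ p.1) = p.2.1.1} =>
    z.1.2) Set.univ (fun _ => Set.mem_univ _) (Nat.card k ^ (4 * d + 2)) ?_
  · rwa [Nat.card_congr (Equiv.Set.univ _)] at h5
  · intro b
    have hD : b.1.1.degree < ((8 * d + 1 : ℕ) : WithBot ℕ) := b.2.1.deg
    rw [← card_PD_fiber hd hcop hsq.ne_zero ha₁ ha₃ hD]
    apply Nat.card_le_card_of_injective
      (fun z : {z : {p : Tri k d × SZ a₁ a₃ d // PD (Wc a₁ a₃ p.1) = p.2.1.1} // z.1.2 = b} =>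
        (⟨z.1.1.1, by rw [z.1.2, z.2]⟩ : {w : Tri k d // PD (Wc a₁ a₃ w) = b.1.1}))
    intro z z' h
    have h6 := congrArg Subtype.val h
    apply Subtype.ext
    apply Subtype.ext
    apply Prod.ext
    · exact h6
    · exact z.2.trans z'.2.symm

/-- the exact bound for every `d` -/
theorem exact_bound (hd : 1 ≤ d) (hsq : Squarefree a₁) (hcop : IsCoprime a₁ a₃)
    (ha₁ : a₁.natDegree = d) (ha₃ : a₃.degree < ((3 * d + 1 : ℕ) : WithBot ℕ)) :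
    (Nat.card (SZ a₁ a₃ d) : ℝ) ≤ (Nat.card k : ℝ) ^ (8 * d + 3) *
      (2 * (Nat.card k : ℝ) / (((Nat.card k : ℝ) - 1) * ((Nat.card k : ℝ) ^ 2 - 1))) := by
  have h1 := card_SZ_le (G := 1) (G' := 0) (M := d) hd hsq hcop ha₁ ha₃ le_rfl zero_le_one le_rfl
    (fun m hm => by
      rw [mul_one]
      exact_mod_cast card_TT_trivial hd hm hsq hcop ha₁ ha₃)
    (fun m hm hm' => absurd hm (by omega))
  rw [one_mul, zero_mul, add_zero] at h1
  exact h1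

/-- the real inequality behind the main estimate -/
theorem real_ineq {q V U x y g m m' : ℝ} (hq : 2 ≤ q) (hx0 : 0 < x) (hx32 : x ≤ 1 / 32)
    (hy0 : 0 < y) (hyx : y ≤ x / 2) (hV4 : 1 / 4 ≤ V) (hU4 : 1 / 4 ≤ U)
    (hVU : V * U * (1 - y) ≤ 1 - q⁻¹) (hg1 : V * (1 - (q ^ 2)⁻¹) - 2 * x ≤ g) (hg8 : 1 / 8 ≤ g)
    (hm0 : 0 < m) (hm : m ≤ m') :
    2 * (V * (1 - (q ^ 2)⁻¹)) * (V * U / (1 - q⁻¹)) + (q / (q - 1)) ^ 2 * m
      ≤ (2 + 36 * x + 32 * m') * g := by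
  have hq1 : 0 < q - 1 := by linarith
  have hqi : q⁻¹ ≤ 1 / 2 := by rw [one_div]; exact inv_anti₀ (by norm_num) hq
  have hq2i : (q ^ 2)⁻¹ ≤ 1 / 4 := by
    rw [one_div]
    exact inv_anti₀ (by norm_num) (by nlinarith)
  have h5 : V * U / (1 - q⁻¹) ≤ 1 + 2 * y := by
    have h6 : 0 < 1 - q⁻¹ := by linarith
    rw [div_le_iff₀ h6]
    have h7 : V * U ≤ (1 - q⁻¹) / (1 - y) := by
      rw [le_div_iff₀ (by linarith)]; exact hVU
    refine h7.trans ?_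
    rw [div_le_iff₀ (by linarith)]
    have h8 : 1 ≤ (1 + 2 * y) * (1 - y) := by nlinarith
    calc (1 - q⁻¹) = 1 * (1 - q⁻¹) := by ring
      _ ≤ ((1 + 2 * y) * (1 - y)) * (1 - q⁻¹) := mul_le_mul_of_nonneg_right h8 h6.le
      _ = _ := by ring
  have h6 : (q / (q - 1)) ^ 2 ≤ 4 := by
    have : q / (q - 1) ≤ 2 := by rw [div_le_iff₀ hq1]; linarith
    have h7 : 0 ≤ q / (q - 1) := by positivity
    calc (q / (q - 1)) ^ 2 ≤ 2 ^ 2 := pow_le_pow_left₀ h7 this 2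
      _ = 4 := by norm_num
  have h7 : (q / (q - 1)) ^ 2 * m ≤ 4 * m' := mul_le_mul h6 hm hm0.le (by norm_num)
  have h8 : V * (1 - (q ^ 2)⁻¹) ≤ g + 2 * x := by linarith
  have h9 : 0 ≤ V * (1 - (q ^ 2)⁻¹) := mul_nonneg (by linarith) (by linarith)
  have h10 : 2 * (V * (1 - (q ^ 2)⁻¹)) * (V * U / (1 - q⁻¹)) ≤ 2 * (g + 2 * x) * (1 + 2 * y) := by
    refine mul_le_mul (by linarith) h5 ?_ (by linarith)
    exact div_nonneg (mul_nonneg (by linarith) (by linarith)) (by linarith)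
  have i1 : x ≤ 8 * (g * x) := by
    have := mul_le_mul_of_nonneg_right hg8 hx0.le
    linarith
  have i2 : y * g ≤ x / 2 * g := mul_le_mul_of_nonneg_right hyx (by linarith)
  have i3 : y * x ≤ 1 / 64 * x := mul_le_mul_of_nonneg_right (by linarith) hx0.le
  have h14 : 2 * (g + 2 * x) * (1 + 2 * y) ≤ (2 + 36 * x) * g := by
    have e : 2 * (g + 2 * x) * (1 + 2 * y) = 2 * g + 4 * x + 4 * (y * g) + 8 * (y * x) := by ring
    rw [e]
    have e2 : (2 + 36 * x) * g = 2 * g + 36 * (g * x) := by ring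
    rw [e2]
    have e3 : x / 2 * g = (g * x) / 2 := by ring
    rw [e3] at i2
    linarith
  have hm' : 0 < m' := lt_of_lt_of_le hm0 hm
  have h15 : 4 * m' ≤ 32 * m' * g := by
    have := mul_le_mul_of_nonneg_left hg8 hm'.le
    linarith
  calc 2 * (V * (1 - (q ^ 2)⁻¹)) * (V * U / (1 - q⁻¹)) + (q / (q - 1)) ^ 2 * m
      ≤ (2 + 36 * x) * g + 32 * m' * g := add_le_add (h10.trans h14) (h7.trans h15)
    _ = _ := by ring

open scoped Classical in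
/-- the main estimate -/
theorem main_bound (s M : ℕ) (hs5 : 5 ≤ s) (hd : (prS (SS k s)).natDegree + M + 1 + s ≤ d)
    (hsq : Squarefree a₁) (hcop : IsCoprime a₁ a₃)
    (ha₁ : a₁.natDegree = d) (ha₃ : a₃.degree < ((3 * d + 1 : ℕ) : WithBot ℕ)) :
    (Nat.card (SZ a₁ a₃ d) : ℝ) ≤ (2 + 36 * ((2 : ℝ) ^ s)⁻¹ + 32 * ((2 : ℝ) ^ M)⁻¹) *
      Nat.card {D // Gd a₁ a₃ d D} ∧ 0 < Nat.card {D // Gd a₁ a₃ d D} := by
  have hd1 : 1 ≤ d := by omega
  have hfG := finite_Gd (k := k) (a₁ := a₁) (a₃ := a₃) (d := d)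
  have hq := two_le_card (k := k)
  have hq0 : (0 : ℝ) < Nat.card k := by linarith
  obtain ⟨S₁, hS₁⟩ : ∃ S, S = (SS k s).filter (fun P => IsCoprime a₁ P.1) := ⟨_, rfl⟩
  obtain ⟨S₀, hS₀⟩ : ∃ S, S = (SS k s).filter (fun P => ¬ IsCoprime a₁ P.1) := ⟨_, rfl⟩
  have hun : S₁ ∪ S₀ = SS k s := by rw [hS₁, hS₀]; exact Finset.filter_union_filter_not_eq _ _
  have hdisj : Disjoint S₁ S₀ := by rw [hS₁, hS₀]; exact Finset.disjoint_filter_filter_not _ _ _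
  have c1 : ∀ P ∈ S₁, IsCoprime a₁ P.1 := by
    intro P hP
    rw [hS₁] at hP
    exact (Finset.mem_filter.mp hP).2
  have c0 : ∀ P ∈ S₀, P.1 ∣ a₁ := by
    intro P hP
    rw [hS₀] at hP
    have h2 := (Finset.mem_filter.mp hP).2
    by_contra h3
    exact h2 (P.2.2.coprime_iff_not_dvd.mpr h3).symm
  have hprod : (∏ P ∈ S₁, dens P) * ∏ P ∈ S₀, dens P = ∏ P ∈ SS k s, dens P := by
    rw [← Finset.prod_union hdisj, hun]
  have hdeg1 : (prS S₁).natDegree ≤ (prS (SS k s)).natDegree := by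
    refine natDegree_le_of_dvd ?_ (prS_ne_zero _)
    rw [← hun]
    exact Finset.prod_dvd_prod_of_subset _ _ _ Finset.subset_union_left
  have hE := euler (k := k) s
  have hV4 := quarter_le S₁
  have hU4 := quarter_le S₀
  have hV1 : ∏ P ∈ S₁, dens P ≤ 1 := Finset.prod_le_one (fun P _ => dens_nonneg P)
    (fun P _ => dens_le_one P)
  have hG := card_Gd_ge hd1 hsq hcop ha₁ ha₃ S₁ c1 s (fun P hP hPa => by
    rw [hS₁]
    exact Finset.mem_filter.mpr ⟨mem_SS.mpr hP, hPa⟩) (by omega)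
  have hN := card_SZ_le (G := (1 - ((Nat.card k : ℝ) ^ 2)⁻¹) ^ 2 *
      ((∏ P ∈ S₁, dens P) ^ 2 * ∏ P ∈ S₀, dens P)) (G' := 1) (M := M) hd1 hsq hcop ha₁ ha₃ (by omega)
    (by positivity) zero_le_one
    (fun m hm => card_TT_sieve hd1 (by omega) hsq hcop ha₁ ha₃ S₁ S₀ c1 c0 hdisj
      (by rw [hun]; omega))
    (fun m hm _ => by
      rw [mul_one]
      exact_mod_cast card_TT_trivial hd1 hm hsq hcop ha₁ ha₃)
  rw [← hprod] at hE
  set q : ℝ := (Nat.card k : ℝ) with hqd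
  set V := ∏ P ∈ S₁, dens P with hV
  set U := ∏ P ∈ S₀, dens P with hU
  have hq1 : 0 < q - 1 := by linarith
  have hq21 : 0 < q ^ 2 - 1 := by nlinarith
  -- the Euler factor
  have hgeo : (1 - q⁻¹) * ∑ j ∈ Finset.range (s + 1), (q ^ j)⁻¹ = 1 - (q ^ (s + 1))⁻¹ := by
    have h2 := mul_neg_geom_sum q⁻¹ (s + 1)
    simp only [inv_pow] at h2
    exact h2
  obtain ⟨y, hy⟩ : ∃ y, y = (q ^ (s + 1))⁻¹ := ⟨_, rfl⟩
  obtain ⟨x, hx⟩ : ∃ x, x = ((2 : ℝ) ^ s)⁻¹ := ⟨_, rfl⟩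
  have hx0 : 0 < x := by rw [hx]; positivity
  have hx32 : x ≤ 1 / 32 := by
    rw [hx, one_div]
    apply inv_anti₀ (by norm_num)
    calc (32 : ℝ) = 2 ^ 5 := by norm_num
      _ ≤ 2 ^ s := pow_le_pow_right₀ (by norm_num) hs5
  have hqs : (q ^ s)⁻¹ ≤ x := by
    rw [hx]
    exact inv_anti₀ (by positivity) (pow_le_pow_left₀ (by norm_num) hq s)
  have hqs0 : 0 < (q ^ s)⁻¹ := by positivity
  have hyx : y ≤ x / 2 := by
    rw [hy, pow_succ, mul_inv]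
    have h2 : q⁻¹ ≤ 1 / 2 := by rw [one_div]; exact inv_anti₀ (by norm_num) hq
    calc (q ^ s)⁻¹ * q⁻¹ ≤ x * (1 / 2) := mul_le_mul hqs h2 (by positivity) hx0.le
      _ = x / 2 := by ring
  have hy0 : 0 < y := by rw [hy]; positivity
  have hVU : V * U * (1 - y) ≤ 1 - q⁻¹ := by
    have h2 : 0 ≤ 1 - q⁻¹ := by
      have : q⁻¹ ≤ 1 := inv_le_one_of_one_le₀ (by linarith)
      linarith
    have h3 := mul_le_mul_of_nonneg_left hE h2
    have h4 : (1 - q⁻¹) * (V * U * ∑ j ∈ Finset.range (s + 1), (q ^ j)⁻¹) = V * U * (1 - y) := by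
      rw [hy, ← hgeo]; ring
    rw [h4] at h3
    linarith
  -- lower bound for the good discriminants
  obtain ⟨g, hg⟩ : ∃ g, g = (Nat.card {D // Gd a₁ a₃ d D} : ℝ) / q ^ (8 * d + 1) := ⟨_, rfl⟩
  have hQ : 0 < q ^ (8 * d + 1) := by positivity
  have hgG : (Nat.card {D // Gd a₁ a₃ d D} : ℝ) = g * q ^ (8 * d + 1) := by
    rw [hg]; field_simp
  have hg1 : V * (1 - (q ^ 2)⁻¹) - 2 * x ≤ g := by
    rw [hg, le_div_iff₀ hQ]
    have h2 : (q ^ s)⁻¹ / (q - 1) ≤ x := by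
      rw [div_le_iff₀ hq1]
      have : x * 1 ≤ x * (q - 1) := mul_le_mul_of_nonneg_left (by linarith) hx0.le
      linarith
    have h3 : (q ^ (4 * d + 1))⁻¹ ≤ x := by
      refine le_trans ?_ hqs
      exact inv_anti₀ (by positivity) (pow_le_pow_right₀ (by linarith) (by omega))
    have h4 : V * (1 - (q ^ 2)⁻¹) - 2 * x ≤ V * (1 - (q ^ 2)⁻¹) - (q ^ s)⁻¹ / (q - 1)
        - (q ^ (4 * d + 1))⁻¹ := by linarith
    calc (V * (1 - (q ^ 2)⁻¹) - 2 * x) * q ^ (8 * d + 1)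
        ≤ (V * (1 - (q ^ 2)⁻¹) - (q ^ s)⁻¹ / (q - 1) - (q ^ (4 * d + 1))⁻¹) * q ^ (8 * d + 1) :=
          mul_le_mul_of_nonneg_right h4 hQ.le
      _ = q ^ (8 * d + 1) * (V * (1 - (q ^ 2)⁻¹) - (q ^ s)⁻¹ / (q - 1) - (q ^ (4 * d + 1))⁻¹) := by
          ring
      _ ≤ _ := hG
  have hq2i : (q ^ 2)⁻¹ ≤ 1 / 4 := by
    rw [one_div]
    exact inv_anti₀ (by norm_num) (by nlinarith)
  have hρ : 3 / 16 ≤ V * (1 - (q ^ 2)⁻¹) := by
    calc (3 : ℝ) / 16 = 1 / 4 * (3 / 4) := by norm_num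
      _ ≤ V * (1 - (q ^ 2)⁻¹) := mul_le_mul hV4 (by linarith) (by norm_num) (by linarith)
  have hg8 : 1 / 8 ≤ g := by linarith
  refine ⟨?_, ?_⟩
  · rw [hgG]
    refine hN.trans ?_
    have hM0 : 0 < (q ^ M)⁻¹ := by positivity
    have hM1 : (q ^ M)⁻¹ ≤ ((2 : ℝ) ^ M)⁻¹ :=
      inv_anti₀ (by positivity) (pow_le_pow_left₀ (by norm_num) hq M)
    have e1 : q ^ (8 * d + 3) * ((1 - (q ^ 2)⁻¹) ^ 2 * (V ^ 2 * U) * (2 * q / ((q - 1) * (q ^ 2 - 1)))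
        + 1 * ((q ^ M)⁻¹ / (q - 1) ^ 2))
        = q ^ (8 * d + 1) * (2 * (V * (1 - (q ^ 2)⁻¹)) * (V * U / (1 - q⁻¹))
          + (q / (q - 1)) ^ 2 * (q ^ M)⁻¹) := by
      have h2 : q ^ (8 * d + 3) = q ^ (8 * d + 1) * q ^ 2 := by rw [← pow_add]
      have h3 : 1 - q⁻¹ = (q - 1) / q := by field_simp
      have h4 : 1 - (q ^ 2)⁻¹ = (q ^ 2 - 1) / q ^ 2 := by field_simp
      rw [h2, h3, h4]
      field_simp
    rw [e1]
    suffices hsuff : 2 * (V * (1 - (q ^ 2)⁻¹)) * (V * U / (1 - q⁻¹)) + (q / (q - 1)) ^ 2 * (q ^ M)⁻¹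
        ≤ (2 + 36 * ((2 : ℝ) ^ s)⁻¹ + 32 * ((2 : ℝ) ^ M)⁻¹) * g by
      calc _ ≤ q ^ (8 * d + 1) * ((2 + 36 * ((2 : ℝ) ^ s)⁻¹ + 32 * ((2 : ℝ) ^ M)⁻¹) * g) :=
            mul_le_mul_of_nonneg_left hsuff hQ.le
        _ = _ := by ring
    rw [← hx]
    exact real_ineq hq hx0 hx32 hy0 hyx hV4 hU4 hVU hg1 hg8 hM0 hM1
  · have h2 : (0 : ℝ) < Nat.card {D // Gd a₁ a₃ d D} := by
      rw [hgG]; positivity
    exact_mod_cast h2

end Pool.Agent.H2
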