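import Pool.Agent.H2.GLocal

/-!
# Artin-Schreier classes over `k(X)`
-/

namespace Pool.Agent.H2

open Polynomial IsDedekindDomain WeierstrassCurve WeierstrassCurve.Affine

universe u

variable {k : Type u} [Field k]

theorem poles_finite (U : RatFunc k) :
    {p : HeightOneSpectrum k[X] | ¬ finAbv p U ≤ 1}.Finite := by
  have hd : U.denom ≠ 0 := U.denom_ne_zero
  have hfin : {p : HeightOneSpectrum k[X] | p.asIdeal ∣ Ideal.span {U.denom}}.Finite :=
    Ideal.finite_factors (by rwa [Ne, Ideal.zero_eq_bot, Ideal.span_singleton_eq_bot])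
  refine hfin.subset ?_
  intro p hp
  simp only [Set.mem_setOf_eq] at hp ⊢
  rw [Ideal.dvd_iff_le, Ideal.span_singleton_le_iff_mem]
  by_contra h1
  apply hp
  rw [← finAbv_lt_one, not_lt] at h1
  have h2 : U = algebraMap k[X] (RatFunc k) U.num / algebraMap k[X] (RatFunc k) U.denom :=
    (RatFunc.num_div_denom U).symm
  rw [h2, map_div₀]
  have h3 := finAbv_poly p U.num
  exact div_le_one_of_le₀ (h3.trans h1) ((finAbv p).nonneg _)

variable [Finite k] [CharP k 2]

theorem fin_wp (p : HeightOneSpectrum k[X]) {z : RatFunc k} (hz : finAbv p z ≤ 1) :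
    finAbv p (z ^ 2 + z) ≤ 1 := by
  refine (finAbv_nonarch p _ _).trans (max_le ?_ hz)
  rw [map_pow]
  exact pow_le_one₀ ((finAbv p).nonneg _) hz

theorem wp_add (x y : RatFunc k) : (x + y) ^ 2 + (x + y) = (x ^ 2 + x) + (y ^ 2 + y) := by
  have hK2 : CharP (RatFunc k) 2 := basisX.charP
  rw [add_pow_char]; ring

theorem as_fin (T : Finset (HeightOneSpectrum k[X])) : ∀ U : RatFunc k,
    (∀ p, p ∉ T → finAbv p U ≤ 1) → (∀ p ∈ T, ∃ z : RatFunc k, finAbv p (z ^ 2 + z + U) ≤ 1) →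
    ∃ g : RatFunc k, ∀ p, finAbv p (g ^ 2 + g + U) ≤ 1 := by
  classical
  have hK2 : CharP (RatFunc k) 2 := basisX.charP
  induction T using Finset.induction_on with
  | empty =>
    intro U h1 _
    exact ⟨0, fun p => by simpa using h1 p (by simp)⟩
  | insert q T hq ih =>
    intro U h1 h2
    obtain ⟨z, hz⟩ := h2 q (Finset.mem_insert_self _ _)
    set g := pp q z with hg
    have hgq : finAbv q (g ^ 2 + g + U) ≤ 1 := by
      have e : g ^ 2 + g + U = ((z - g) ^ 2 + (z - g)) + (z ^ 2 + z + U) := by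
        have e1 : z - g = z + g := CharTwo.sub_eq_add z g
        rw [e1, wp_add]
        linear_combination (-(z ^ 2 + z)) * (CharTwo.two_eq_zero : (2 : RatFunc k) = 0)
      rw [e]
      exact (finAbv_nonarch q _ _).trans (max_le (fin_wp q (pp_reg q z)) hz)
    have hg' : ∀ p, p ≠ q → finAbv p (g ^ 2 + g) ≤ 1 := fun p hp =>
      fin_wp p ((pp_polar q z).1 p hp)
    obtain ⟨g', hg''⟩ := ih (g ^ 2 + g + U) (by
      intro p hp
      by_cases hpq : p = q
      · rw [hpq]; exact hgq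
      · refine (finAbv_nonarch p _ _).trans (max_le (hg' p hpq) (h1 p ?_))
        rw [Finset.mem_insert, not_or]; exact ⟨hpq, hp⟩) (by
      intro p hp
      obtain ⟨y, hy⟩ := h2 p (Finset.mem_insert_of_mem hp)
      have hpq : p ≠ q := by rintro rfl; exact hq hp
      refine ⟨y, ?_⟩
      have e : y ^ 2 + y + (g ^ 2 + g + U) = (g ^ 2 + g) + (y ^ 2 + y + U) := by ring
      rw [e]
      exact (finAbv_nonarch p _ _).trans (max_le (hg' p hpq) hy))
    refine ⟨g' + g, fun p => ?_⟩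
    rw [wp_add, add_assoc]
    exact hg'' p

/-- a function which is locally in `℘` up to integers, and in `℘` up to the maximal ideal at
infinity, is in `℘` -/
theorem as_global {U : RatFunc k} (hfin : ∀ p, ∃ z : RatFunc k, finAbv p (z ^ 2 + z + U) ≤ 1)
    (hinf : ∃ z : RatFunc k, infAbv k (z ^ 2 + z + U) < 1) : ∃ g : RatFunc k, g ^ 2 + g = U := by
  have hK2 : CharP (RatFunc k) 2 := basisX.charP
  obtain ⟨g, hg⟩ := as_fin (poles_finite U).toFinset U (by
    intro p hp
    by_contra h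
    exact hp (by simpa using h)) (fun p _ => hfin p)
  obtain ⟨F, hF⟩ := poly_of_int hg
  obtain ⟨z, hz⟩ := hinf
  obtain ⟨y, hy⟩ := approx_rat (z + g)
  have h1 : y ^ 2 + y + F = 0 := by
    apply infAbv_lt_one
    have e : algebraMap k[X] (RatFunc k) (y ^ 2 + y + F)
      = (z ^ 2 + z + U) + (((z + g) - algebraMap k[X] (RatFunc k) y) ^ 2
        + ((z + g) - algebraMap k[X] (RatFunc k) y)) := by
      rw [CharTwo.sub_eq_add (z + g), wp_add, wp_add, map_add, map_add, map_pow, hF]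
      linear_combination (-(z ^ 2 + z)) * (CharTwo.two_eq_zero : (2 : RatFunc k) = 0)
    rw [e]
    refine lt_of_le_of_lt (infAbv_nonarch _ _) (max_lt hz (lt_of_le_of_lt (infAbv_nonarch _ _)
      (max_lt ?_ hy)))
    rw [map_pow]
    exact pow_lt_one₀ ((infAbv k).nonneg _) hy two_ne_zero
  refine ⟨algebraMap k[X] (RatFunc k) y + g, ?_⟩
  have h2 := congrArg (algebraMap k[X] (RatFunc k)) h1
  rw [map_add, map_add, map_pow, map_zero, hF] at h2
  rw [wp_add]
  linear_combination h2 - U * (CharTwo.two_eq_zero : (2 : RatFunc k) = 0)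

/-- from the completion to the field, maximal ideal -/
theorem down_lt {v : AbsoluteValue (RatFunc k) ℝ} {τ : RatFunc k} (g : GoodPlace v τ 2)
    {U : RatFunc k} {w : v.Completion} (h : ‖w ^ 2 + w - rc v U‖ < 1) :
    ∃ z : RatFunc k, v (z ^ 2 + z + U) < 1 := by
  have hL := g.charP_comp
  obtain ⟨z, hz⟩ := GoodPlace.approx w one_pos
  refine ⟨z, ?_⟩
  rw [← norm_rc]
  have e : rc v (z ^ 2 + z + U) = (w - rc v z) ^ 2 + ((w - rc v z) + (w ^ 2 + w - rc v U)) := by
    unfold rc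
    simp only [map_add, map_pow]
    grind
  rw [e]
  refine lt_of_le_of_lt (g.ultra _ _) (max_lt ?_ (lt_of_le_of_lt (g.ultra _ _) (max_lt hz h)))
  rw [norm_pow]
  exact pow_lt_one₀ (norm_nonneg _) hz two_ne_zero

/-- from the completion to the field, integers -/
theorem down_le {v : AbsoluteValue (RatFunc k) ℝ} {τ : RatFunc k} (g : GoodPlace v τ 2)
    {U : RatFunc k} {w : v.Completion} (h : ‖w ^ 2 + w - rc v U‖ ≤ 1) :
    ∃ z : RatFunc k, v (z ^ 2 + z + U) ≤ 1 := by
  have hL := g.charP_comp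
  obtain ⟨z, hz⟩ := GoodPlace.approx w one_pos
  refine ⟨z, ?_⟩
  rw [← norm_rc]
  have e : rc v (z ^ 2 + z + U) = (w - rc v z) ^ 2 + ((w - rc v z) + (w ^ 2 + w - rc v U)) := by
    unfold rc
    simp only [map_add, map_pow]
    grind
  rw [e]
  refine (g.ultra _ _).trans (max_le ?_ ((g.ultra _ _).trans (max_le hz.le h)))
  rw [norm_pow]
  exact pow_le_one₀ (norm_nonneg _) hz.le

variable {a b Z : RatFunc k}

/-- a place where `a` has a pole of odd order, larger than the one of `b` -/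
theorem gloc_pole {v : AbsoluteValue (RatFunc k) ℝ} {τ : RatFunc k} (g : GoodPlace v τ 2)
    {hF : TwoBasis (algebraMap (RatFunc k) v.Completion RatFunc.X)} {m : ℕ} (hm : Odd m)
    (ha : v a = (2 : ℝ) ^ (m : ℤ)) (hb : v b < v a) (h : GD v hF a b Z) :
    ∃ ε : RatFunc k, (ε = 0 ∨ ε = 1) ∧
      ∃ z : RatFunc k, v (z ^ 2 + z + (ucl b Z + ε * a)) < 1 := by
  obtain ⟨x, w₁, w₂, hx, h2, h1, -⟩ := h
  have hna : ‖rc v a‖ = (2 : ℝ) ^ (m : ℤ) := by rw [norm_rc, ha]
  have hnb : ‖rc v b‖ < ‖rc v a‖ := by rw [norm_rc, norm_rc]; exact hb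
  rcases loc_pole g hx hm hna hnb h2 h1 with ⟨w, hw⟩ | ⟨w, hw⟩
  · exact ⟨0, Or.inl rfl, by rw [zero_mul, add_zero]; exact down_lt g hw⟩
  · refine ⟨1, Or.inr rfl, ?_⟩
    rw [one_mul]
    apply down_lt g (w := w)
    have e : rc v (ucl b Z + a) = rc v (ucl b Z) + rc v a := by unfold rc; rw [map_add]
    rw [e]
    exact hw

/-- a place where `a` and `b` are integral -/
theorem gloc_int {v : AbsoluteValue (RatFunc k) ℝ} {τ : RatFunc k} (g : GoodPlace v τ 2)
    {hF : TwoBasis (algebraMap (RatFunc k) v.Completion RatFunc.X)}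
    (ha : v a ≤ 1) (hb : v b ≤ 1) (h : GD v hF a b Z) :
    ∃ z : RatFunc k, v (z ^ 2 + z + ucl b Z) ≤ 1 := by
  have hL := g.charP_comp
  obtain ⟨x, w₁, w₂, hx, h2, h1, -⟩ := h
  have hna : ‖rc v a‖ ≤ 1 := by rw [norm_rc]; exact ha
  have hnb : ‖rc v b‖ ≤ 1 := by rw [norm_rc]; exact hb
  by_cases hx1 : ‖x‖ ≤ 1
  · apply down_le g (w := w₁)
    have e : w₁ ^ 2 + w₁ - rc v (ucl b Z) = x + rc v a := by rw [h1]; ring
    rw [e]
    exact (g.ultra _ _).trans (max_le hx1 hna)
  · rw [not_le] at hx1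
    apply down_le g (w := w₁ + w₂)
    have e : (w₁ + w₂) ^ 2 + (w₁ + w₂) - rc v (ucl b Z) = rc v b / x ^ 2 := by
      have : (w₁ + w₂) ^ 2 + (w₁ + w₂) = (w₁ ^ 2 + w₁) + (w₂ ^ 2 + w₂) := by grind
      rw [this, h1, h2]
      grind
    rw [e, norm_div, norm_pow]
    exact div_le_one_of_le₀ (hnb.trans (one_le_pow₀ hx1.le)) (by positivity)

end Pool.Agent.H2
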