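import Pool.Agent.H2.GMat

/-!
# The matrix criterion for trivial Selmer groups
-/

namespace Pool.Agent.H2

open Polynomial IsDedekindDomain WeierstrassCurve WeierstrassCurve.Affine

universe u

variable {k : Type u} [Field k] [Finite k] [CharP k 2]

/-- a twist satisfying the matrix criterion -/
structure MatTwist (S : Finset (HeightOneSpectrum k[X])) (b a : RatFunc k) (p₁ : S) : Prop where
  b_ne : b ≠ 0
  bS : ∀ p, p ∉ S → finAbv p b = 1
  aS : ∀ p, p ∉ S → finAbv p a ≤ 1
  inf : ∃ m : ℕ, Odd m ∧ infAbv k a = (2 : ℝ) ^ (m : ℤ) ∧ infAbv k b < infAbv k a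
  fin : ∀ p ∈ S, ∃ m : ℕ, Odd m ∧ finAbv p a = (2 : ℝ) ^ (m : ℤ) ∧ finAbv p b < finAbv p a
  inj : ∀ x : S → ZMod 2, Matrix.mulVec (Lam S a) x = 0 → x = 0
  inj' : ∀ x : S → ZMod 2, Matrix.vecMul x (Lam S a) = 0 → x = 0
  row : ∀ p : S, p ≠ p₁ → Matrix.vecMul (pl S (om b)) (Lam S a) p = 0
  row₁ : Matrix.vecMul (pl S (om b)) (Lam S a) p₁ = 1

namespace MatTwist

variable {S : Finset (HeightOneSpectrum k[X])} {b a : RatFunc k} {p₁ : S} (G : MatTwist S b a p₁)
include G

theorem omS : ∀ p, p ∉ S → finAbv p (om b) ≤ 1 := fun p hp => om_reg (G.bS p hp)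

/-- the class in `K / ℘(K)` of a Selmer element is trivial -/
theorem v_part {u : RatFunc k} (h1 : ∀ p, p ∉ S → ∃ z : RatFunc k, finAbv p (z ^ 2 + z + u) ≤ 1)
    (h2 : ∀ p ∈ S, ∃ ε : RatFunc k, (ε = 0 ∨ ε = 1) ∧ ∃ z : RatFunc k,
      finAbv p (z ^ 2 + z + (u + ε * a)) < 1)
    (h3 : ∃ ε : RatFunc k, (ε = 0 ∨ ε = 1) ∧ ∃ z : RatFunc k,
      infAbv k (z ^ 2 + z + (u + ε * a)) < 1)
    (h4 : ∃ s r : RatFunc k, u * om b = s ^ 2 + (r ^ 2 + r) * om b) :
    ∃ g : RatFunc k, g ^ 2 + g = u := by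
  classical
  have hK2 : CharP (RatFunc k) 2 := basisX.charP
  have h2' : ∀ p : S, ∃ ε : ZMod 2, ∃ z : RatFunc k,
      finAbv p.1 (z ^ 2 + z + (u + zt ε * a)) < 1 := by
    intro p
    obtain ⟨ε, hε, h⟩ := h2 p.1 p.2
    rcases hε with rfl | rfl
    · exact ⟨0, by rw [zt_zero]; exact h⟩
    · exact ⟨1, by rw [zt_one]; exact h⟩
  choose ε hεz using h2'
  obtain ⟨η, zη, hzη⟩ : ∃ η : ZMod 2, ∃ z : RatFunc k,
      infAbv k (z ^ 2 + z + (u + zt η * a)) < 1 := by
    obtain ⟨η, hη, h⟩ := h3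
    rcases hη with rfl | rfl
    · exact ⟨0, by rw [zt_zero]; exact h⟩
    · exact ⟨1, by rw [zt_one]; exact h⟩
  -- the polynomial part
  set A := a + ∑ q : S, pp q.1 a with hA
  have hself : ∀ x : RatFunc k, x + x = 0 := CharTwo.add_self_eq_zero
  have haA : a = A + ∑ q : S, pp q.1 a := by
    rw [hA, add_assoc, hself, add_zero]
  have hAint : ∀ p, finAbv p A ≤ 1 := by
    intro p
    by_cases hp : p ∈ S
    · rw [hA, ← Finset.add_sum_erase _ _ (Finset.mem_univ (⟨p, hp⟩ : S)), ← add_assoc]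
      refine (finAbv_nonarch p _ _).trans (max_le ?_ (fin_sum_le p _ _ fun q hq => ?_))
      · have := pp_reg p a
        rwa [CharTwo.sub_eq_add] at this
      · apply pp_int
        rintro h
        exact (Finset.ne_of_mem_erase hq) (Subtype.ext h.symm)
    · refine (finAbv_nonarch p _ _).trans (max_le (G.aS p hp) (fin_sum_le p _ _ fun q hq => ?_))
      apply pp_int
      rintro rfl
      exact hp q.2
  -- the brackets
  have hbr : ∀ δ : ZMod 2, (∑ q : S, zt (ε q + δ) * pp q.1 a) + zt (η + δ) * A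
      = (∑ q : S, zt (ε q) * pp q.1 a + zt η * A) + zt δ * a := by
    intro δ
    have h5 : ∑ q : S, zt (ε q + δ) * pp q.1 a
        = ∑ q : S, zt (ε q) * pp q.1 a + zt δ * ∑ q : S, pp q.1 a := by
      rw [Finset.mul_sum, ← Finset.sum_add_distrib]
      exact Finset.sum_congr rfl fun q _ => by rw [zt_add]; ring
    rw [h5, zt_add]
    linear_combination (-(zt δ)) * haA
  have hbr' : ∀ (δ : ZMod 2) (z : RatFunc k),
      z ^ 2 + z + (u + (∑ q : S, zt (ε q) * pp q.1 a + zt η * A))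
      = (z ^ 2 + z + (u + zt δ * a))
        + ((∑ q : S, zt (ε q + δ) * pp q.1 a) + zt (η + δ) * A) := by
    intro δ z
    rw [hbr]
    linear_combination (-(zt δ * a)) * (CharTwo.two_eq_zero : (2 : RatFunc k) = 0)
  have hterm : ∀ (p : S) (q : S), finAbv p.1 (zt (ε q + ε p) * pp q.1 a) ≤ 1 := by
    intro p q
    by_cases hqp : q = p
    · rw [hqp, CharTwo.add_self_eq_zero, zt_zero, zero_mul, map_zero]; exact zero_le_one
    · rw [map_mul]
      exact mul_le_one₀ (zero_one (zt_cases _) p.1) ((finAbv p.1).nonneg _)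
        (pp_int (fun h => hqp (Subtype.ext h.symm)) a)
  have hAterm : ∀ (p : HeightOneSpectrum k[X]) (c : ZMod 2), finAbv p (zt c * A) ≤ 1 := by
    intro p c
    rw [map_mul]
    exact mul_le_one₀ (zero_one (zt_cases _) p) ((finAbv p).nonneg _) (hAint p)
  obtain ⟨g, hg⟩ : ∃ g : RatFunc k,
      g ^ 2 + g = u + (∑ q : S, zt (ε q) * pp q.1 a + zt η * A) := by
    apply as_global
    · intro p
      by_cases hp : p ∈ S
      · obtain ⟨z, hz⟩ := hεz ⟨p, hp⟩
        refine ⟨z, ?_⟩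
        rw [hbr' (ε ⟨p, hp⟩) z]
        exact (finAbv_nonarch p _ _).trans (max_le hz.le ((finAbv_nonarch p _ _).trans
          (max_le (fin_sum_le p _ _ fun q _ => hterm ⟨p, hp⟩ q) (hAterm p _))))
      · obtain ⟨z, hz⟩ := h1 p hp
        refine ⟨z, ?_⟩
        rw [← add_assoc]
        refine (finAbv_nonarch p _ _).trans (max_le hz ((finAbv_nonarch p _ _).trans
          (max_le (fin_sum_le p _ _ fun q hq => ?_) (hAterm p _))))
        rw [map_mul]
        exact mul_le_one₀ (zero_one (zt_cases _) p) ((finAbv p).nonneg _)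
            (pp_int (by rintro rfl; exact hp q.2) a)
    · refine ⟨zη, ?_⟩
      rw [hbr' η zη, CharTwo.add_self_eq_zero, zt_zero, zero_mul, add_zero]
      refine lt_of_le_of_lt (infAbv_nonarch _ _) (max_lt hzη (inf_sum_lt _ _ fun q hq => ?_))
      rw [map_mul]
      have h5 := zero_one_inf (zt_cases (k := k) (ε q + η))
      have h6 := (pp_polar q.1 a).2
      have h7 := (infAbv k).nonneg (pp q.1 a)
      have h8 := (infAbv k).nonneg (zt (ε q + η))
      nlinarith
  -- the brackets are split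
  have hspl : ∀ p : S, TT p.1 ((∑ q : S, zt (ε q + ε p) * pp q.1 a) + zt (η + ε p) * A) = 0 := by
    intro p
    rw [TT_eq_zero]
    intro hns
    obtain ⟨z, hz⟩ := hεz p
    apply hns (z + g)
    have e : (z + g) ^ 2 + (z + g) + ((∑ q : S, zt (ε q + ε p) * pp q.1 a) + zt (η + ε p) * A)
        = z ^ 2 + z + (u + zt (ε p) * a) := by
      rw [wp_add, hg, hbr]
      linear_combination (∑ q : S, zt (ε q) * pp q.1 a + zt η * A)
        * (CharTwo.two_eq_zero : (2 : RatFunc k) = 0)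
    rw [e]
    exact hz
  -- the linear system
  have hsys : Matrix.mulVec (Lam S a) (fun q => ε q + η) = 0 := by
    ext p
    rw [Pi.zero_apply, ← hspl p, TT_add (fin_sum_le p.1 _ _ fun q _ => hterm p q) (hAterm p.1 _),
      TT_sum p.1 _ _ (fun q _ => hterm p q)]
    change ∑ q : S, Lam S a p q * (ε q + η) = _
    rw [← Finset.add_sum_erase _ _ (Finset.mem_univ p),
      ← Finset.add_sum_erase _ (fun q : S => TT p.1 (zt (ε q + ε p) * pp q.1 a))
        (Finset.mem_univ p)]
    have hpp : Lam S a p p = TT p.1 A + ∑ q ∈ Finset.univ.erase p, TT p.1 (pp q.1 a) := by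
      unfold Lam
      rw [if_pos rfl]
      have e : a - pp p.1 a = A + ∑ q ∈ Finset.univ.erase p, pp q.1 a := by
        have hs := Finset.add_sum_erase _ (fun q : S => pp q.1 a) (Finset.mem_univ p)
        linear_combination haA - hs
      rw [e, TT_add (hAint p.1), TT_sum]
      · intro q hq
        exact pp_int (fun h => (Finset.ne_of_mem_erase hq) (Subtype.ext h.symm)) a
      · exact fin_sum_le p.1 _ _ fun q hq =>
          pp_int (fun h => (Finset.ne_of_mem_erase hq) (Subtype.ext h.symm)) a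
    have hpq : ∀ q ∈ Finset.univ.erase p, Lam S a p q * (ε q + η)
        = TT p.1 (zt (ε q + ε p) * pp q.1 a) + TT p.1 (pp q.1 a) * (ε p + η) := by
      intro q hq
      unfold Lam
      rw [if_neg (Finset.ne_of_mem_erase hq).symm, TT_zt]
      have h6 : (2 : ZMod 2) = 0 := by decide
      linear_combination (- TT p.1 (pp q.1 a) * ε p) * h6
    rw [Finset.sum_congr rfl hpq, Finset.sum_add_distrib, hpp, ← Finset.sum_mul,
      CharTwo.add_self_eq_zero (ε p), zt_zero, zero_mul, TT_zero, TT_zt]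
    have h6 : (2 : ZMod 2) = 0 := by decide
    linear_combination ((∑ q ∈ Finset.univ.erase p, TT p.1 (pp q.1 a)) * (ε p + η)) * h6
  have heq := G.inj _ hsys
  have heq' : ∀ q : S, ε q = η := fun q => CharTwo.add_eq_zero.mp (congrFun heq q)
  have hsum : ∑ q : S, zt (ε q) * pp q.1 a + zt η * A = zt η * a := by
    have h5 : ∑ q : S, zt (ε q) * pp q.1 a = zt η * ∑ q : S, pp q.1 a := by
      rw [Finset.mul_sum]
      exact Finset.sum_congr rfl fun q _ => by rw [heq' q]
    linear_combination h5 - zt η * haA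
  rw [hsum] at hg
  rcases zmod_cases η with rfl | rfl
  · rw [zt_zero] at hg
    exact ⟨g, by rw [hg]; ring⟩
  · exfalso
    rw [zt_one, one_mul] at hg
    obtain ⟨s, r, hsr⟩ := h4
    have hω := om_cartier G.b_ne
    have h5 : a * om b = s ^ 2 + ((r ^ 2 + r) * om b + (g ^ 2 + g) * om b) := by
      rw [hg]
      linear_combination hsr - (u * om b) * (CharTwo.two_eq_zero : (2 : RatFunc k) = 0)
    have h6 : tt (rs p₁.1 (a * om b)) = 0 := by
      rw [h5, rs_add, rs_add, rs_sq, zero_add, tt_eq_zero, InP_add]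
      exact iff_of_true (rs_wp p₁.1 hω r) (rs_wp p₁.1 hω g)
    rw [res_formula S a hω G.omS p₁, G.row₁] at h6
    exact one_ne_zero h6

/-- the logarithmic differential of a Selmer element is trivial -/
theorem f_part {ℓ e : RatFunc k} (hℓ : ℓ = e ^ 2 + RatFunc.X * ℓ ^ 2)
    (h1 : ∀ p, p ∉ S → finAbv p ℓ ≤ 1)
    (h2 : ∀ p ∈ S, ∃ x₀ w₀ : RatFunc k, x₀ ≠ 0 ∧
      finAbv p (w₀ ^ 2 + w₀ + (x₀ + a)) < 1 ∧
      ∃ ε : RatFunc k, (ε = 0 ∨ ε = 1) ∧
        finAbv p (a * (ℓ + (om x₀ + ε * om b))) ≤ 1) : ℓ = 0 ∨ ℓ = om b := by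
  classical
  have hK2 : CharP (RatFunc k) 2 := basisX.charP
  have hω := om_cartier G.b_ne
  have key : ∀ p : S, p ≠ p₁ → Matrix.vecMul (pl S ℓ) (Lam S a) p = 0 := by
    intro p hp
    rw [← res_formula S a hℓ h1 p, tt_eq_zero]
    obtain ⟨x₀, w₀, hx₀, hw₀, ε, hε, hreg⟩ := h2 p.1 p.2
    have hlam := om_cartier hx₀
    set r := w₀ ^ 2 + w₀ + (x₀ + a) with hr
    have h4 : InP (rs p.1 (a * om x₀)) := by
      have e1 : a * om x₀ = (w₀ ^ 2 + w₀) * om x₀ + (basisX.C x₀ ^ 2 + r * om x₀) := by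
        have : x₀ * om x₀ = basisX.C x₀ ^ 2 := by unfold om; field_simp
        rw [hr]
        linear_combination (-1 : RatFunc k) * this
          + (-(w₀ ^ 2 + w₀) * om x₀ - basisX.C x₀ ^ 2) * (CharTwo.two_eq_zero : (2 : RatFunc k) = 0)
      rw [e1, rs_add, rs_add, rs_sq, zero_add, rs_reg p.1 (f := r * om x₀), add_zero]
      · exact rs_wp p.1 hlam w₀
      · rw [map_mul]
        have h5 := fin_half hw₀
        have h6 := pole_le hlam p.1
        have h7 := (finAbv p.1).nonneg r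
        have h8 := (finAbv p.1).nonneg (om x₀)
        nlinarith
    have h5 : InP (rs p.1 (a * (ε * om b))) := by
      rcases hε with rfl | rfl
      · rw [zero_mul, mul_zero, rs_reg]
        · exact InP.zero
        · rw [map_zero]; exact zero_le_one
      · rw [one_mul, ← tt_eq_zero, res_formula S a hω G.omS p, G.row p hp]
    have h6 := rs_reg p.1 hreg
    have e2 : a * (ℓ + (om x₀ + ε * om b)) = a * ℓ + (a * om x₀ + a * (ε * om b)) := by ring
    rw [e2, rs_add, rs_add] at h6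
    have h7 : rs p.1 (a * ℓ) = rs p.1 (a * om x₀) + rs p.1 (a * (ε * om b)) :=
      CharTwo.add_eq_zero.mp h6
    rw [h7, InP_add]
    exact iff_of_true h4 h5
  set c := Matrix.vecMul (pl S ℓ) (Lam S a) p₁ with hc
  have h3 : Matrix.vecMul (pl S ℓ + c • pl S (om b)) (Lam S a) = 0 := by
    ext p
    rw [Matrix.add_vecMul, Matrix.smul_vecMul, Pi.add_apply, Pi.smul_apply, Pi.zero_apply]
    by_cases hp : p = p₁
    · rw [hp, ← hc, G.row₁, smul_eq_mul, mul_one, CharTwo.add_self_eq_zero]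
    · rw [G.row p hp, key p hp, smul_zero, add_zero]
  have h4 := G.inj' _ h3
  have h5 : pl S ℓ = c • pl S (om b) := by
    ext p
    exact CharTwo.add_eq_zero.mp (congrFun h4 p)
  rcases zmod_cases c with h0 | h0
  · left
    rw [log_expand S hℓ h1, h5, h0, zero_smul]
    apply Finset.sum_eq_zero
    intro q _
    rw [Pi.zero_apply, zt_zero, zero_mul]
  · right
    rw [log_expand S hℓ h1, log_expand S hω G.omS, h5, h0, one_smul, ← log_expand S hω G.omS]

/-- the values of the descent map vanish on the Selmer group -/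
theorem half (hκ : basisX.C b ≠ 0) (R : Pts (gcurve a b) (Ks (RatFunc k)))
    (hG : GaloisFixed 2 R) (hL : ∀ v ∈ stdPlaces k, LocallyRational 2 R v) :
    ∃ R', 2 • R' = R := by
  classical
  have hK2 : CharP (RatFunc k) 2 := basisX.charP
  have hb0 := G.b_ne
  obtain ⟨Z, hZ⟩ := exists_val' basisX (gcurve a b) (hk_gcurve a hκ) R hG
  suffices hZ0 : Z = 0 by
    rw [hZ0, map_zero] at hZ
    exact cExt_ker basisX (gcurve a b) (hk_gcurve a hκ) (sepK basisX) _ hZ.symm
  by_contra hZ0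
  have hfin : ∀ p : HeightOneSpectrum k[X], GD (finAbv p) (finAbv_good p).comp_basis a b Z :=
    fun p => (gsel_local hκ R hZ (finAbv p) (hL _ (Or.inr ⟨p, rfl⟩))
      (finAbv_good p).comp_basis).resolve_left hZ0
  have hinf : GD (infAbv k) basis_inf a b Z :=
    (gsel_local hκ R hZ (infAbv k) (hL _ (Or.inl rfl)) basis_inf).resolve_left hZ0
  have hZint : ∀ p, p ∉ S → finAbv p Z ≤ 1 := fun p hp =>
    gsel_int hκ R hZ p (hL _ (Or.inr ⟨p, rfl⟩)) (G.aS p hp) (G.bS p hp).le
  have hspec := basisX.spec b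
  obtain ⟨g, hg⟩ := G.v_part (u := ucl b Z)
    (fun p hp => gloc_int (finAbv_good p) (G.aS p hp) (G.bS p hp).le (hfin p))
    (fun p hp => by
      obtain ⟨m, hm, h1, h2⟩ := G.fin p hp
      exact gloc_pole (finAbv_good p) hm h1 h2 (hfin p))
    (by
      obtain ⟨m, hm, h1, h2⟩ := G.inf
      exact gloc_pole (infAbv_good (k := k)) hm h1 h2 hinf)
    ⟨Z / basisX.C b, basisX.E b * Z / basisX.C b ^ 2, by
      unfold ucl om
      set κ := basisX.C b with hκd
      set δ := basisX.E b with hδd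
      clear_value κ δ
      field_simp
      rw [hspec]
      linear_combination (- Z * δ ^ 2) * (CharTwo.two_eq_zero : (2 : RatFunc k) = 0)⟩
  obtain ⟨ℓ, hℓd⟩ : ∃ ℓ : RatFunc k, ℓ = (basisX.C b ^ 2 * g + basisX.E b * Z) / b := ⟨_, rfl⟩
  have hℓ1 : basisX.C b ^ 2 * ℓ + b * ℓ ^ 2 = Z ^ 2 := by
    unfold ucl at hg
    rw [hℓd]
    set κ := basisX.C b with hκd
    set δ := basisX.E b with hδd
    clear_value κ δ
    rw [eq_div_iff (pow_ne_zero 2 hκ)] at hg
    field_simp
    linear_combination κ ^ 2 * hg - Z ^ 2 * hspec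
      + (κ ^ 2 * δ * Z * (1 + g)) * (CharTwo.two_eq_zero : (2 : RatFunc k) = 0)
  have hℓ2 : ℓ = ((Z + basisX.E b * ℓ) / basisX.C b) ^ 2 + RatFunc.X * ℓ ^ 2 := by
    set κ := basisX.C b with hκd
    set δ := basisX.E b with hδd
    clear_value κ δ
    field_simp
    linear_combination hℓ1 + ℓ ^ 2 * hspec
      - (Z * δ * ℓ + b * ℓ ^ 2) * (CharTwo.two_eq_zero : (2 : RatFunc k) = 0)
  have hℓ0 : ℓ = 0 ∨ ℓ = om b := by
    apply G.f_part hℓ2
    · -- regularity outside of `S`
      intro p hp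
      have hvb := G.bS p hp
      have hκ1 := (finAbv_star p (basisX.E b) (basisX.C b) (by rw [basisX.spec', hvb])).2
      have h1 : b * ℓ ^ 2 = Z ^ 2 - basisX.C b ^ 2 * ℓ := by rw [← hℓ1]; ring
      have h2 : finAbv p ℓ ^ 2 ≤ max 1 (finAbv p ℓ) := by
        have h3 : finAbv p (b * ℓ ^ 2) = finAbv p ℓ ^ 2 := by
          rw [map_mul, hvb, one_mul, map_pow]
        rw [← h3, h1]
        refine (fin_sub p _ _).trans (max_le_max ?_ ?_)
        · rw [map_pow]
          exact pow_le_one₀ ((finAbv p).nonneg _) (hZint p hp)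
        · rw [map_mul, map_pow]
          have h4 : finAbv p (basisX.C b) ^ 2 ≤ 1 := pow_le_one₀ ((finAbv p).nonneg _) hκ1
          have h5 := (finAbv p).nonneg ℓ
          nlinarith
      by_contra h3
      rw [not_le] at h3
      rw [max_eq_right h3.le] at h2
      nlinarith
    · intro p hp
      obtain ⟨m, hm, h1, h2⟩ := G.fin p hp
      exact gfloc hκ hb0 (finAbv_good p) hm h1 h2 (pole_le (om_cartier hb0) p) hg hℓ1 (hfin p)
  have hZ2 : Z ^ 2 = 0 := by
    rw [← hℓ1]
    rcases hℓ0 with h | h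
    · rw [h]; ring
    · rw [h]
      unfold om
      have e : basisX.C b ^ 2 * (basisX.C b ^ 2 / b) + b * (basisX.C b ^ 2 / b) ^ 2
          = 2 * (basisX.C b ^ 4 / b) := by field_simp; ring
      rw [e, CharTwo.two_eq_zero, zero_mul]
  exact hZ0 (by simpa using hZ2)

/-- **The criterion.** -/
theorem selmer_zero (hκ : basisX.C b ≠ 0) (n : ℕ) :
    Subsingleton (SelmerGroup (gcurve a b) (2 ^ n)) ∧
      ∀ R : Pts (gcurve a b) (RatFunc k), ∃ R', 2 ^ n • R' = R := by
  have hE : ∀ R : Pts (gcurve a b) (Ks (RatFunc k)), 2 • R = 0 → R = 0 :=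
    fun R hR => no_torsion_two basisX (hk_gcurve a hκ) (sepK basisX) R hR
  have hS : ∀ v ∈ stdPlaces k, ∀ R : Pts (gcurve a b) (Ks (Kv v)), 2 • R = 0 → R = 0 := by
    intro v hv R hR
    have hB : TwoBasis (algebraMap (RatFunc k) (Kv v) RatFunc.X) := by
      rcases hv with rfl | ⟨p, rfl⟩
      · exact basis_inf
      · exact (finAbv_good p).comp_basis
    have hM : TwoBasis (algebraMap (RatFunc k) (Ks (Kv v)) RatFunc.X) := sepK hB
    exact no_torsion_two basisX (hk_gcurve a hκ) hM R hR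
  have h2 := fun R hG hL => G.half hκ R hG hL
  have key := devissage (gcurve a b) (stdPlaces k) hE hS h2 n
  refine ⟨selmer_trivial _ _ fun R hR => key R hR.1 fun v hv => hR.2 v ?_,
    rational_div _ (stdPlaces k) n hE key⟩
  rcases hv with rfl | ⟨p, rfl⟩
  · exact infAbv_good.nontrivial
  · exact (finAbv_good p).nontrivial

end MatTwist

end Pool.Agent.H2
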