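import Mathlib

/-!
# Counting invertible matrices over the field with two elements
-/

namespace Pool.Agent.H2

open Matrix

section Mat

variable {ι : Type*} [Fintype ι] [DecidableEq ι]

/-- an invertible matrix with a given nonzero row -/
theorem exists_row (p : ι) {w : ι → ZMod 2} (hw : w ≠ 0) :
    ∃ h : Matrix ι ι (ZMod 2), IsUnit h.det ∧ h p = w := by
  obtain ⟨q, hq⟩ : ∃ q, w q ≠ 0 := by
    by_contra h
    push Not at h
    exact hw (funext h)
  set σ : Equiv.Perm ι := Equiv.swap p q with hσ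
  set A : Matrix ι ι (ZMod 2) := (1 : Matrix ι ι (ZMod 2)).submatrix σ id with hA
  refine ⟨A.updateRow p (∑ k, (w (σ k)) • A k), ?_, ?_⟩
  · rw [det_updateRow_sum, hA, det_permute, det_one, mul_one, hσ, Equiv.swap_apply_left,
      isUnit_iff_ne_zero, smul_eq_mul]
    apply mul_ne_zero hq
    rcases Int.units_eq_one_or (Equiv.Perm.sign (Equiv.swap p q)) with h | h
    · rw [h]; simp
    · rw [h]; simp
  · rw [updateRow_self]
    ext j
    rw [Finset.sum_apply, Finset.sum_eq_single (σ.symm j)]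
    · rw [Pi.smul_apply, hA, submatrix_apply, Equiv.apply_symm_apply, id, one_apply_eq, smul_eq_mul,
        mul_one]
    · intro k _ hk
      rw [Pi.smul_apply, hA, submatrix_apply, id, one_apply_ne, smul_zero]
      intro h
      exact hk (by rw [← h, Equiv.symm_apply_apply])
    · intro h
      exact absurd (Finset.mem_univ _) h

variable (ι) in
open scoped Classical in
/-- the invertible matrices -/
noncomputable def invM : Finset (Matrix ι ι (ZMod 2)) :=
  Finset.univ.filter fun L => IsUnit L.det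

theorem mem_invM {L : Matrix ι ι (ZMod 2)} : L ∈ invM ι ↔ IsUnit L.det := by
  unfold invM
  rw [Finset.mem_filter]
  exact ⟨fun h => h.2, fun h => ⟨Finset.mem_univ _, h⟩⟩

open scoped Classical in
/-- the number of invertible matrices mapping `v` to `w` -/
noncomputable def NN (v w : ι → ZMod 2) : ℕ := ((invM ι).filter fun L => v ᵥ* L = w).card

theorem NN_le (v : ι → ZMod 2) {w w' : ι → ZMod 2} {h : Matrix ι ι (ZMod 2)} (hh : IsUnit h.det)
    (hw : w ᵥ* h = w') : NN v w ≤ NN v w' := by
  classical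
  unfold NN
  apply Finset.card_le_card_of_injOn (fun L => L * h)
  · intro L hL
    rw [Finset.mem_coe, Finset.mem_filter, mem_invM] at hL ⊢
    refine ⟨by rw [det_mul]; exact hL.1.mul hh, ?_⟩
    rw [← vecMul_vecMul, hL.2, hw]
  · intro L _ L' _ hLL
    have h1 : L * h * h⁻¹ = L' * h * h⁻¹ := by
      change (fun L => L * h) L * h⁻¹ = (fun L => L * h) L' * h⁻¹
      rw [hLL]
    rwa [mul_nonsing_inv_cancel_right _ _ hh, mul_nonsing_inv_cancel_right _ _ hh] at h1

theorem NN_eq (v : ι → ZMod 2) (p : ι) {w : ι → ZMod 2} (hw : w ≠ 0) :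
    NN v (Pi.single p 1) = NN v w := by
  obtain ⟨h, hh, hp⟩ := exists_row p hw
  have h1 : (Pi.single p 1 : ι → ZMod 2) ᵥ* h = w := by
    rw [single_one_vecMul]; exact hp
  apply le_antisymm (NN_le v hh h1)
  apply NN_le v (h := h⁻¹)
  · rw [det_nonsing_inv]
    exact IsUnit.ringInverse hh
  · rw [← h1, vecMul_vecMul, mul_nonsing_inv _ hh, vecMul_one]

theorem NN_sum {v : ι → ZMod 2} (hv : v ≠ 0) (p : ι) :
    (2 ^ Fintype.card ι - 1) * NN v (Pi.single p 1) = (invM ι).card := by
  classical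
  have h1 : (invM ι).card = ∑ w : ι → ZMod 2, NN v w := by
    unfold NN
    exact Finset.card_eq_sum_card_fiberwise (fun L _ => Finset.mem_coe.mpr (Finset.mem_univ _))
  have h0 : NN v 0 = 0 := by
    unfold NN
    rw [Finset.card_eq_zero, Finset.filter_eq_empty_iff]
    intro L hL hvL
    rw [mem_invM] at hL
    apply hv
    have h2 : v ᵥ* L ᵥ* L⁻¹ = 0 := by rw [hvL, zero_vecMul]
    rwa [vecMul_vecMul, mul_nonsing_inv _ hL, vecMul_one] at h2
  rw [h1, ← Finset.add_sum_erase _ _ (Finset.mem_univ (0 : ι → ZMod 2)), h0, zero_add,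
    Finset.sum_congr rfl (fun w hw => (NN_eq v p (Finset.ne_of_mem_erase hw)).symm),
    Finset.sum_const, smul_eq_mul]
  congr 1
  rw [Finset.card_erase_of_mem (Finset.mem_univ _), Finset.card_univ, Fintype.card_fun,
    ZMod.card]

theorem card_invM : (invM ι).card = ∏ i : Fin (Fintype.card ι),
    (2 ^ Fintype.card ι - 2 ^ (i : ℕ)) := by
  classical
  have h1 := Matrix.card_GL_field (𝔽 := ZMod 2) (Fintype.card ι)
  rw [ZMod.card] at h1
  rw [← h1]
  have e1 : {L : Matrix ι ι (ZMod 2) // L ∈ invM ι} ≃ (Matrix ι ι (ZMod 2))ˣ :=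
    (Equiv.ofBijective (fun u : (Matrix ι ι (ZMod 2))ˣ =>
      (⟨u.1, mem_invM.mpr ((isUnit_iff_isUnit_det _).mp u.isUnit)⟩ :
        {L : Matrix ι ι (ZMod 2) // L ∈ invM ι}))
      ⟨fun u v h => Units.ext (congrArg Subtype.val h), fun L => by
        obtain ⟨u, hu⟩ := (isUnit_iff_isUnit_det L.1).mpr (mem_invM.mp L.2)
        exact ⟨u, Subtype.ext hu⟩⟩).symm
  have e2 : (Matrix ι ι (ZMod 2))ˣ ≃
      (Matrix (Fin (Fintype.card ι)) (Fin (Fintype.card ι)) (ZMod 2))ˣ :=
    (Units.mapEquiv (Matrix.reindexAlgEquiv (ZMod 2) (ZMod 2)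
      (Fintype.equivFin ι)).toMulEquiv).toEquiv
  have h2 : Nat.card {L : Matrix ι ι (ZMod 2) // L ∈ invM ι} = (invM ι).card := by
    simp
  rw [← h2]
  exact Nat.card_congr (e1.trans e2)

open scoped Classical in
/-- the matrices satisfying the criterion -/
noncomputable def critM (v : ι → ZMod 2) : Finset (Matrix ι ι (ZMod 2)) :=
  (invM ι).filter fun L => ∃ p, v ᵥ* L = Pi.single p 1

theorem card_critM {v : ι → ZMod 2} (hv : v ≠ 0) :
    (2 ^ Fintype.card ι - 1) * (critM v).card = Fintype.card ι * (invM ι).card := by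
  classical
  have h1 : (critM v).card = ∑ p : ι, NN v (Pi.single p 1) := by
    have h2 : critM v = (Finset.univ : Finset ι).biUnion
        fun p => (invM ι).filter fun L => v ᵥ* L = Pi.single p 1 := by
      ext L
      unfold critM
      simp only [Finset.mem_filter, Finset.mem_biUnion, Finset.mem_univ, true_and]
      constructor
      · rintro ⟨h, p, hp⟩; exact ⟨p, h, hp⟩
      · rintro ⟨p, h, hp⟩; exact ⟨h, p, hp⟩
    rw [h2, Finset.card_biUnion]
    · unfold NN
      rfl
    · intro p _ q _ hpq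
      rw [Function.onFun, Finset.disjoint_left]
      intro L hL hL'
      rw [Finset.mem_filter] at hL hL'
      have h3 : (Pi.single p 1 : ι → ZMod 2) = Pi.single q 1 := hL.2.symm.trans hL'.2
      have h4 := congrFun h3 p
      rw [Pi.single_eq_same, Pi.single_eq_of_ne hpq] at h4
      exact one_ne_zero h4
  rw [h1, Finset.mul_sum, Finset.sum_congr rfl (fun p _ => NN_sum hv p), Finset.sum_const,
    smul_eq_mul, Finset.card_univ]

/-- the number of the matrices satisfying the criterion -/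
theorem card_critM' {v : ι → ZMod 2} (hv : v ≠ 0) :
    (critM v).card = Fintype.card ι * ∏ i ∈ Finset.Ico 1 (Fintype.card ι),
      (2 ^ Fintype.card ι - 2 ^ i) := by
  set n := Fintype.card ι with hn
  have hn0 : 0 < n := by
    obtain ⟨p, -⟩ : ∃ p, v p ≠ 0 := by
      by_contra h
      push Not at h
      exact hv (funext h)
    exact Fintype.card_pos_iff.mpr ⟨p⟩
  have h1 := card_critM hv
  rw [card_invM, ← hn, Fin.prod_univ_eq_prod_range (fun i => 2 ^ n - 2 ^ i) n,
    Finset.range_eq_Ico, Finset.prod_eq_prod_Ico_succ_bot hn0, pow_zero] at h1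
  have h2 : 0 < 2 ^ n - 1 := by
    have : 2 ^ 1 ≤ 2 ^ n := Nat.pow_le_pow_right (by norm_num) hn0
    omega
  apply Nat.eq_of_mul_eq_mul_left h2
  rw [h1]
  ring

end Mat

end Pool.Agent.H2
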