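import Pool.Agent.H2.GSurj
import Pool.Agent.H2.GLCount

/-!
# The families of twists and the equidistribution of the matrices
-/

namespace Pool.Agent.H2

open Polynomial IsDedekindDomain

universe u

variable {k : Type u} [Field k]

/-- The parameters `a` of twists: a pole of order `m` at infinity, a pole of order `n p` at the
places `p` in `S`, and no other pole. -/
def twists (S : Finset (HeightOneSpectrum k[X])) (m : ℕ) (n : HeightOneSpectrum k[X] → ℕ) :
    Set (RatFunc k) :=
  {a | infAbv k a = 2 ^ m ∧ (∀ p ∈ S, finAbv p a = 2 ^ n p) ∧ ∀ p, p ∉ S → finAbv p a ≤ 1}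

theorem finAbv_add_of_lt {p : HeightOneSpectrum k[X]} {x y : RatFunc k}
    (h : finAbv p x < finAbv p y) : finAbv p (x + y) = finAbv p y := by
  apply le_antisymm
  · exact (finAbv_nonarch p x y).trans (max_le h.le le_rfl)
  · by_contra hlt
    rw [not_le] at hlt
    have e : y = (x + y) - x := by ring
    have h1 := fin_sub p (x + y) x
    rw [← e] at h1
    rcases le_max_iff.mp h1 with h2 | h2 <;> linarith

theorem twists_add {S : Finset (HeightOneSpectrum k[X])} {m : ℕ} {n : HeightOneSpectrum k[X] → ℕ}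
    {a v : RatFunc k} (ha : a ∈ twists S m n) (h1 : infAbv k v < 2 ^ m)
    (h2 : ∀ p ∈ S, finAbv p v < 2 ^ n p) (h3 : ∀ p, p ∉ S → finAbv p v ≤ 1) :
    v + a ∈ twists S m n := by
  obtain ⟨h4, h5, h6⟩ := ha
  refine ⟨?_, fun p hp => ?_, fun p hp => ?_⟩
  · rw [infAbv_add_of_lt (by rw [h4]; exact h1), h4]
  · rw [finAbv_add_of_lt (by rw [h5 p hp]; exact h2 p hp), h5 p hp]
  · exact (finAbv_nonarch p _ _).trans (max_le (h3 p hp) (h6 p hp))

theorem finAbv_gQ (p : HeightOneSpectrum k[X]) :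
    finAbv p (algebraMap k[X] (RatFunc k) (gQ p)) = 2⁻¹ := finAbv_unif (gQ_irr p) (gQ_span p)

theorem finAbv_prod (S : Finset (HeightOneSpectrum k[X])) (n : HeightOneSpectrum k[X] → ℕ)
    {p : HeightOneSpectrum k[X]} (hp : p ∈ S) :
    finAbv p (algebraMap k[X] (RatFunc k) (∏ q ∈ S, gQ q ^ n q)) = (2 ^ n p)⁻¹ := by
  classical
  rw [← Finset.mul_prod_erase S _ hp, map_mul, map_mul, map_pow, map_pow, finAbv_gQ, inv_pow,
    map_prod, map_prod, Finset.prod_eq_one, mul_one]
  intro q hq
  rw [map_pow, map_pow, finAbv_gen (gQ_span q) (Finset.ne_of_mem_erase hq).symm, one_pow]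

theorem finAbv_prod' (S : Finset (HeightOneSpectrum k[X])) (n : HeightOneSpectrum k[X] → ℕ)
    {p : HeightOneSpectrum k[X]} (hp : p ∉ S) :
    finAbv p (algebraMap k[X] (RatFunc k) (∏ q ∈ S, gQ q ^ n q)) = 1 := by
  rw [map_prod, map_prod]
  apply Finset.prod_eq_one
  intro q hq
  rw [map_pow, map_pow, finAbv_gen (gQ_span q) (by rintro rfl; exact hp hq), one_pow]

theorem twists_finite [Finite k] (S : Finset (HeightOneSpectrum k[X])) (m : ℕ)
    (n : HeightOneSpectrum k[X] → ℕ) : (twists S m n).Finite := by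
  set D := ∏ q ∈ S, gQ q ^ n q with hD
  have hD0 : D ≠ 0 := Finset.prod_ne_zero_iff.mpr fun q _ => pow_ne_zero _ (gQ_irr q).ne_zero
  have hD0' : algebraMap k[X] (RatFunc k) D ≠ 0 := by
    rwa [Ne, FaithfulSMul.algebraMap_eq_zero_iff]
  have hfin : ((degreeLT k (m + D.natDegree + 1) : Submodule k k[X]) : Set k[X]).Finite := by
    have : Finite (degreeLT k (m + D.natDegree + 1)) :=
      Finite.of_equiv _ (degreeLTEquiv k (m + D.natDegree + 1)).symm.toEquiv
    exact Set.toFinite _
  refine (hfin.image fun f => algebraMap k[X] (RatFunc k) f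
    / algebraMap k[X] (RatFunc k) D).subset ?_
  rintro a ⟨h1, h2, h3⟩
  obtain ⟨f, hf⟩ : ∃ f : k[X], algebraMap k[X] (RatFunc k) f
      = algebraMap k[X] (RatFunc k) D * a := by
    apply poly_of_int
    intro p
    rw [map_mul]
    by_cases hp : p ∈ S
    · rw [finAbv_prod S n hp, h2 p hp, inv_mul_cancel₀ (by positivity)]
    · rw [finAbv_prod' S n hp, one_mul]; exact h3 p hp
  refine ⟨f, ?_, ?_⟩
  · rw [SetLike.mem_coe, mem_degreeLT]
    by_cases h0 : f = 0
    · rw [h0, degree_zero]; exact WithBot.bot_lt_coe _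
    · have h4 := congrArg (infAbv k) hf
      rw [map_mul, infAbv_poly h0, infAbv_poly hD0, h1, ← zpow_natCast (2 : ℝ) m,
        ← zpow_add₀ two_ne_zero] at h4
      have h5 := zpow_right_injective₀ (by norm_num : (0 : ℝ) < 2) (by norm_num) h4
      rw [degree_eq_natDegree h0]
      have h6 : f.natDegree < m + D.natDegree + 1 := by omega
      exact_mod_cast h6
  · change algebraMap k[X] (RatFunc k) f / algebraMap k[X] (RatFunc k) D = a
    rw [hf]
    field_simp

theorem twists_nonempty (S : Finset (HeightOneSpectrum k[X])) {m : ℕ} (hm : 0 < m)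
    {n : HeightOneSpectrum k[X] → ℕ} (hn : ∀ p ∈ S, 0 < n p) : (twists S m n).Nonempty := by
  classical
  have hone : ∀ j : ℕ, 0 < j → (1 : ℝ) < 2 ^ j := fun j hj => one_lt_pow₀ (by norm_num) hj.ne'
  set g : HeightOneSpectrum k[X] → RatFunc k := fun q =>
    (algebraMap k[X] (RatFunc k) (gQ q ^ n q))⁻¹ with hg
  have hgq : ∀ q, finAbv q (g q) = 2 ^ n q := by
    intro q
    rw [hg]
    simp only
    rw [map_inv₀, map_pow, map_pow, finAbv_gQ, inv_pow, inv_inv]
  have hgp : ∀ p q, p ≠ q → finAbv p (g q) = 1 := by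
    intro p q hpq
    rw [hg]
    simp only
    rw [map_inv₀, map_pow, map_pow, finAbv_gen (gQ_span q) hpq, one_pow, inv_one]
  have hgi : ∀ q ∈ S, infAbv k (g q) < 1 := by
    intro q hq
    rw [hg]
    simp only
    rw [map_inv₀, map_pow, map_pow, infAbv_poly (gQ_irr q).ne_zero, zpow_natCast, ← pow_mul]
    apply inv_lt_one_of_one_lt₀
    exact hone _ (Nat.mul_pos (gQ_irr q).natDegree_pos (hn q hq))
  have hX : ∀ p : HeightOneSpectrum k[X], finAbv p (RatFunc.X ^ m : RatFunc k) ≤ 1 := by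
    intro p
    have := finAbv_poly p (X ^ m : k[X])
    rwa [map_pow, RatFunc.algebraMap_X] at this
  refine ⟨∑ q ∈ S, g q + RatFunc.X ^ m, ?_, fun p hp => ?_, fun p hp => ?_⟩
  · have h1 : infAbv k (RatFunc.X ^ m : RatFunc k) = 2 ^ m := by rw [map_pow, infAbv_X]
    rw [infAbv_add_of_lt, h1]
    rw [h1]
    exact (inf_sum_lt S g hgi).trans (hone m hm)
  · rw [← Finset.add_sum_erase S g hp, add_assoc, add_comm, finAbv_add_of_lt, hgq]
    rw [hgq]
    refine lt_of_le_of_lt ?_ (hone _ (hn p hp))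
    refine (finAbv_nonarch p _ _).trans (max_le (fin_sum_le p _ _ fun q hq => ?_) (hX p))
    rw [hgp p q (Finset.ne_of_mem_erase hq).symm]
  · refine (finAbv_nonarch p _ _).trans (max_le (fin_sum_le p _ _ fun q hq => ?_) (hX p))
    rw [hgp p q (by rintro rfl; exact hp hq)]

variable [Finite k] [CharP k 2]

/-- a bound for the translations -/
theorem exists_shift (S : Finset (HeightOneSpectrum k[X])) (C : ℝ) :
    ∃ (v : Matrix S S (ZMod 2) → RatFunc k) (M : ℕ), C < 2 ^ M ∧ ∀ L, Lam S (v L) = L ∧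
      (∀ p, p ∉ S → finAbv p (v L) ≤ 1) ∧ infAbv k (v L) < 2 ^ M ∧
      ∀ p ∈ S, finAbv p (v L) < 2 ^ M := by
  classical
  choose v hv1 hv2 using Lam_surj (k := k) S
  obtain ⟨M, hM⟩ := pow_unbounded_of_one_lt
    (∑ L : Matrix S S (ZMod 2), (infAbv k (v L) + ∑ p ∈ S, finAbv p (v L)) + |C|)
    (by norm_num : (1 : ℝ) < 2)
  have hnn : ∀ L : Matrix S S (ZMod 2), 0 ≤ ∑ p ∈ S, finAbv p (v L) :=
    fun L => Finset.sum_nonneg fun p _ => (finAbv p).nonneg _
  have hnn' : ∀ L : Matrix S S (ZMod 2), 0 ≤ infAbv k (v L) + ∑ p ∈ S, finAbv p (v L) :=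
    fun L => add_nonneg ((infAbv k).nonneg _) (hnn L)
  have hC := abs_nonneg C
  have hle : ∀ L, infAbv k (v L) + ∑ p ∈ S, finAbv p (v L) < 2 ^ M := by
    intro L
    have := Finset.single_le_sum (fun L _ => hnn' L) (Finset.mem_univ L)
    linarith
  refine ⟨v, M, ?_, fun L => ⟨hv2 L, hv1 L, ?_, fun p hp => ?_⟩⟩
  · have := Finset.sum_nonneg (fun L (_ : L ∈ Finset.univ) => hnn' L)
    have := le_abs_self C
    linarith
  · have := hle L
    have := hnn L
    linarith
  · have h1 := hle L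
    have h2 := Finset.single_le_sum (fun p _ => (finAbv p).nonneg (v L)) hp
    have h3 := (infAbv k).nonneg (v L)
    linarith

open scoped Classical in
/-- **Equidistribution.** -/
theorem equidist (S : Finset (HeightOneSpectrum k[X])) (C : ℝ) :
    ∃ M : ℕ, C < 2 ^ M ∧ ∀ (m : ℕ) (n : HeightOneSpectrum k[X] → ℕ), M ≤ m → (∀ p ∈ S, M ≤ n p) →
      ∀ T : Finset (Matrix S S (ZMod 2)),
        2 ^ (S.card ^ 2) * {a ∈ twists S m n | Lam S a ∈ T}.ncard
          = T.card * (twists S m n).ncard := by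
  obtain ⟨v, M, hM, hv⟩ := exists_shift S C
  refine ⟨M, hM, fun m n hm hn => ?_⟩
  set F := (twists_finite S m n).toFinset with hF
  have hmemF : ∀ a, a ∈ F ↔ a ∈ twists S m n := fun a => (twists_finite S m n).mem_toFinset
  have hle : ∀ L L' : Matrix S S (ZMod 2),
      (F.filter fun a => Lam S a = L).card ≤ (F.filter fun a => Lam S a = L').card := by
    intro L L'
    obtain ⟨h1, h2, h3, h4⟩ := hv (L' - L)
    apply Finset.card_le_card_of_injOn (fun a => v (L' - L) + a)
    · intro a ha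
      rw [Finset.mem_coe, Finset.mem_filter, hmemF] at ha ⊢
      refine ⟨twists_add ha.1 (h3.trans_le ?_) (fun p hp => (h4 p hp).trans_le ?_) h2, ?_⟩
      · exact pow_le_pow_right₀ (by norm_num) hm
      · exact pow_le_pow_right₀ (by norm_num) (hn p hp)
      · rw [Lam_add, h1, ha.2, sub_add_cancel]
    · intro a _ a' _ h
      exact add_left_cancel h
  have heq : ∀ L, (F.filter fun a => Lam S a = L).card = (F.filter fun a => Lam S a = 0).card :=
    fun L => le_antisymm (hle _ _) (hle _ _)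
  have hcard : ∀ T : Finset (Matrix S S (ZMod 2)),
      {a ∈ twists S m n | Lam S a ∈ T}.ncard
        = T.card * (F.filter fun a => Lam S a = 0).card := by
    intro T
    have h1 : {a ∈ twists S m n | Lam S a ∈ T}
        = ((F.filter fun a => Lam S a ∈ T : Finset (RatFunc k)) : Set (RatFunc k)) := by
      ext a
      rw [Finset.mem_coe, Finset.mem_filter, hmemF]
      rfl
    rw [h1, Set.ncard_coe_finset, Finset.card_eq_sum_card_fiberwise (f := Lam S) (t := T)]
    · rw [Finset.sum_congr rfl (g := fun _ => (F.filter fun a => Lam S a = 0).card)]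
      · rw [Finset.sum_const, smul_eq_mul]
      · intro L hL
        rw [← heq L, Finset.filter_filter]
        congr 1
        ext a
        simp only [Finset.mem_filter]
        constructor
        · rintro ⟨h2, h3, h4⟩; exact ⟨h2, h4⟩
        · rintro ⟨h2, h4⟩; exact ⟨h2, by rw [h4]; exact hL, h4⟩
    · intro a ha
      exact (Finset.mem_filter.mp ha).2
  intro T
  have h2 := hcard Finset.univ
  have h3 : {a ∈ twists S m n | Lam S a ∈ (Finset.univ : Finset (Matrix S S (ZMod 2)))}
      = twists S m n := by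
    ext a
    constructor
    · rintro ⟨h, -⟩; exact h
    · intro h; exact ⟨h, Finset.mem_univ _⟩
  have h4 : (Finset.univ : Finset (Matrix S S (ZMod 2))).card = 2 ^ (S.card ^ 2) := by
    rw [Finset.card_univ]
    have : Fintype.card (Matrix S S (ZMod 2)) = Fintype.card (S → S → ZMod 2) := rfl
    rw [this, Fintype.card_fun, Fintype.card_fun, ZMod.card, Fintype.card_coe, ← pow_mul, pow_two]
  rw [h3, h4] at h2
  rw [hcard T, h2]
  ring

end Pool.Agent.H2
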