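import Pool.Agent.H2.GHeight

/-!
# A `2`-divisible group of rational points without `2`-torsion is finite
-/

namespace Pool.Agent.H2

open Polynomial WeierstrassCurve WeierstrassCurve.Affine

universe u

/-- an abstract descent -/
theorem finite_of_halving {G : Type*} [AddCommGroup G] (h : G → ℕ) (C : ℕ)
    (hfin : {P : G | h P ≤ C}.Finite) (hdup : ∀ P : G, 4 * h P ≤ h (2 • P) + C)
    (hdiv : ∀ P : G, ∃ Q : G, 2 • Q = P) (htor : ∀ P : G, 2 • P = 0 → P = 0) :
    Finite G ∧ Odd (Nat.card G) := by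
  choose H hH using hdiv
  have hinj : Function.Injective H := by
    intro P Q hPQ
    rw [← hH P, ← hH Q, hPQ]
  have hmaps : ∀ P, h P ≤ C → h (H P) ≤ C := by
    intro P hP
    have := hdup (H P)
    rw [hH] at this
    omega
  have hsurj : ∀ P, h P ≤ C → ∃ Q, h Q ≤ C ∧ H Q = P := by
    have : Finite {P : G | h P ≤ C} := hfin
    let f : {P : G | h P ≤ C} → {P : G | h P ≤ C} := fun P => ⟨H P.1, hmaps P.1 P.2⟩
    have hf : Function.Injective f := by
      intro P Q hPQ
      exact Subtype.ext (hinj (congrArg Subtype.val hPQ))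
    have hs := Finite.injective_iff_surjective.mp hf
    intro P hP
    obtain ⟨Q, hQ⟩ := hs ⟨P, hP⟩
    exact ⟨Q.1, Q.2, congrArg Subtype.val hQ⟩
  have key : ∀ n : ℕ, ∀ P, h P = n → h P ≤ C := by
    intro n
    induction n using Nat.strong_induction_on with
    | _ n ih =>
      intro P hP
      by_contra hc
      have h1 := hdup (H P)
      rw [hH] at h1
      have h2 : h (H P) < n := by omega
      have h3 := ih _ h2 (H P) rfl
      obtain ⟨Q, hQ1, hQ2⟩ := hsurj _ h3
      have h4 := hinj hQ2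
      rw [h4] at hQ1
      exact hc hQ1
  have hG : Finite G := by
    rw [← Set.finite_univ_iff]
    exact hfin.subset fun P _ => key _ P rfl
  refine ⟨hG, ?_⟩
  rw [← Nat.not_even_iff_odd, even_iff_two_dvd]
  intro hd
  have : Fact (Nat.Prime 2) := ⟨Nat.prime_two⟩
  obtain ⟨x, hx⟩ := exists_prime_addOrderOf_dvd_card' 2 hd
  have h1 : x = 0 := htor x (by rw [← hx]; exact addOrderOf_nsmul_eq_zero x)
  rw [h1, addOrderOf_zero] at hx
  omega

variable {k : Type u} [Field k] [Finite k] [CharP k 2] {a b : RatFunc k}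

/-- the height of a point -/
noncomputable def hpt (P : Pts (gcurve a b) (RatFunc k)) : ℕ :=
  match P with
  | .zero => 0
  | .some x _ _ => ht x

theorem quad_fin_roots (x c : RatFunc k) : {y : RatFunc k | y ^ 2 + x * y = c}.Finite := by
  have hK2 : CharP (RatFunc k) 2 := basisX.charP
  by_cases h : ∃ y₀ : RatFunc k, y₀ ^ 2 + x * y₀ = c
  · obtain ⟨y₀, h0⟩ := h
    refine (Set.toFinite {y₀, y₀ + x}).subset ?_
    intro y hy
    have hy' : y ^ 2 + x * y = c := hy
    have h1 : (y + y₀) * (y + (y₀ + x)) = 0 := by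
      linear_combination hy' - h0 + (y * y₀ + y₀ ^ 2 + x * y₀)
        * (CharTwo.two_eq_zero : (2 : RatFunc k) = 0)
    rcases mul_eq_zero.mp h1 with h2 | h2
    · exact Or.inl (CharTwo.add_eq_zero.mp h2)
    · exact Or.inr (CharTwo.add_eq_zero.mp h2)
  · convert Set.finite_empty
    ext y
    simp only [Set.mem_empty_iff_false, iff_false]
    intro hy
    exact h ⟨y, hy⟩

theorem eqn_of {x y : RatFunc k} (h : ((gcurve a b)⁄(RatFunc k)).Nonsingular x y) :
    y ^ 2 + x * y = x ^ 3 + a * x ^ 2 + b := by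
  have he := (Affine.equation_iff _ _).mp h.1
  have h1 : ((gcurve a b)⁄(RatFunc k)).a₁ = 1 := by
    change algebraMap _ _ (1 : RatFunc k) = 1
    rw [map_one]
  have h2 : ((gcurve a b)⁄(RatFunc k)).a₂ = a := rfl
  have h3 : ((gcurve a b)⁄(RatFunc k)).a₃ = 0 := by
    change algebraMap _ _ (0 : RatFunc k) = 0
    rw [map_zero]
  have h4 : ((gcurve a b)⁄(RatFunc k)).a₄ = 0 := by
    change algebraMap _ _ (0 : RatFunc k) = 0
    rw [map_zero]
  have h6 : ((gcurve a b)⁄(RatFunc k)).a₆ = b := rfl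
  rw [h1, h2, h3, h4, h6] at he
  linear_combination he

theorem hpt_finite (B : ℕ) : {P : Pts (gcurve a b) (RatFunc k) | hpt P ≤ B}.Finite := by
  let φ : Pts (gcurve a b) (RatFunc k) → Option (RatFunc k × RatFunc k) := fun P =>
    match P with
    | .zero => none
    | .some x y _ => some (x, y)
  have hφ : Function.Injective φ := by
    intro P Q hPQ
    rcases P with _ | ⟨x, y, hxy⟩ <;> rcases Q with _ | ⟨x', y', hxy'⟩
    · rfl
    · exact absurd hPQ (by simp [φ])
    · exact absurd hPQ (by simp [φ])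
    · have h1 : (x, y) = (x', y') := Option.some_injective _ hPQ
      have h2 : x = x' := congrArg Prod.fst h1
      have h3 : y = y' := congrArg Prod.snd h1
      subst h2 h3
      rfl
  apply Set.Finite.of_finite_image _ hφ.injOn
  have hfin : (⋃ x ∈ {x : RatFunc k | ht x ≤ B}, (fun y : RatFunc k => some (x, y)) ''
      {y : RatFunc k | y ^ 2 + x * y = x ^ 3 + a * x ^ 2 + b}).Finite :=
    (ht_finite B).biUnion fun x _ => (quad_fin_roots x _).image _
  refine (hfin.union (Set.finite_singleton (none : Option (RatFunc k × RatFunc k)))).subset ?_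
  rintro _ ⟨P, hP, rfl⟩
  rcases P with _ | ⟨x, y, hxy⟩
  · right; rfl
  · left
    rw [Set.mem_iUnion₂]
    exact ⟨x, hP, y, eqn_of hxy, rfl⟩

/-- **Finiteness.** -/
theorem mw_finite (hb : b ≠ 0) (hκ : basisX.C b ≠ 0)
    (hdiv : ∀ R : Pts (gcurve a b) (RatFunc k), ∃ R', 2 • R' = R)
    (htor : ∀ R : Pts (gcurve a b) (RatFunc k), 2 • R = 0 → R = 0) :
    Finite (Pts (gcurve a b) (RatFunc k)) ∧ Odd (Nat.card (Pts (gcurve a b) (RatFunc k))) := by
  classical
  have hK2 : CharP (RatFunc k) 2 := basisX.charP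
  obtain ⟨C, hC⟩ := ht_dup hb
  apply finite_of_halving hpt C (hpt_finite C) _ hdiv htor
  intro P
  obtain hP | ⟨x, y, hxy, hP⟩ : P = 0 ∨ ∃ x y hxy, P = Affine.Point.some x y hxy := by
    rcases P with _ | ⟨x, y, hxy⟩
    · left; rfl
    · right; exact ⟨x, y, hxy, rfl⟩
  · have h1 : hpt P = 0 := by rw [hP]; rfl
    rw [h1]; omega
  · have hB : TwoBasis (algebraMap (RatFunc k) (RatFunc k) RatFunc.X) := basisX
    have hx : x ≠ 0 := by
      have h1 := w_ne_zero hB (ne_zero_map (gcurve a b) basisX hB (hk_gcurve a hκ)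
        (F := RatFunc k)) hxy.1
      intro h0
      apply h1
      unfold wf
      have h3 : ((gcurve a b)⁄(RatFunc k)).a₃ = 0 := by
        change algebraMap _ _ (0 : RatFunc k) = 0
        rw [map_zero]
      rw [h0, h3, mul_zero, add_zero, mul_zero]
    have h1 : ((gcurve a b)⁄(RatFunc k)).a₁ = 1 := by
      change algebraMap _ _ (1 : RatFunc k) = 1
      rw [map_one]
    have h3 : ((gcurve a b)⁄(RatFunc k)).a₃ = 0 := by
      change algebraMap _ _ (0 : RatFunc k) = 0
      rw [map_zero]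
    have h4 : ((gcurve a b)⁄(RatFunc k)).a₄ = 0 := by
      change algebraMap _ _ (0 : RatFunc k) = 0
      rw [map_zero]
    obtain ⟨y', h', hd⟩ := dup h1 h3 h4 hxy hx
    have h6 : hpt (P + P) = ht (x ^ 2 + b / x ^ 2) := by
      subst hP
      exact congrArg (hpt (a := a) (b := b)) hd
    have h7 : hpt P = ht x := by rw [hP]; rfl
    rw [two_nsmul, h6, h7]
    exact hC x hx

end Pool.Agent.H2
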