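import Pool.Agent.H2.GFam
import Pool.Agent.H2.GMW

/-!
# A positive proportion of twists with finite group of points and trivial Selmer groups
-/

namespace Pool.Agent.H2

open Polynomial IsDedekindDomain WeierstrassCurve WeierstrassCurve.Affine

universe u

variable {k : Type u} [Field k] [Finite k] [CharP k 2]

theorem C_ne_zero_of {b : RatFunc k} (hb : ¬ IsSquare b) : (basisX (k := k)).C b ≠ 0 := by
  intro h
  apply hb
  have h1 := basisX.spec b
  rw [h] at h1
  exact ⟨basisX.E b, by rw [← pow_two]; linear_combination h1⟩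

/-- the logarithmic differential of a nonsquare has a pole -/
theorem exists_pole {b : RatFunc k} (hb : ¬ IsSquare b) :
    ∃ p : HeightOneSpectrum k[X], ¬ finAbv p (om b) ≤ 1 := by
  by_contra h
  push Not at h
  have hb0 : b ≠ 0 := by rintro rfl; exact hb ⟨0, by simp⟩
  have h1 := pole_inf (om_cartier hb0)
  have h2 := (infAbv k).nonneg (om b)
  have h3 := eq_zero_of_small h (by linarith)
  unfold om at h3
  rcases div_eq_zero_iff.mp h3 with h4 | h4
  · exact C_ne_zero_of hb (by simpa using h4)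
  · exact hb0 h4

open scoped Classical in
/-- a twist satisfying the matrix criterion -/
theorem good_of_crit {b : RatFunc k} (hb : ¬ IsSquare b) {S : Finset (HeightOneSpectrum k[X])}
    (hS : ∀ p, p ∉ S → finAbv p b = 1) {m : ℕ} {n : HeightOneSpectrum k[X] → ℕ} (hm : Odd m)
    (hn : ∀ p ∈ S, Odd (n p)) (hbm : infAbv k b < 2 ^ m) (hbn : ∀ p ∈ S, finAbv p b < 2 ^ n p)
    {a : RatFunc k} (ha : a ∈ twists S m n) (hcrit : Lam S a ∈ critM (pl S (om b))) :
    Finite (Pts (gcurve a b) (RatFunc k)) ∧ Odd (Nat.card (Pts (gcurve a b) (RatFunc k))) ∧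
      ∀ r : ℕ, Subsingleton (SelmerGroup (gcurve a b) (2 ^ r)) := by
  classical
  have hb0 : b ≠ 0 := by rintro rfl; exact hb ⟨0, by simp⟩
  have hκ := C_ne_zero_of hb
  unfold critM at hcrit
  rw [Finset.mem_filter, mem_invM] at hcrit
  obtain ⟨hdet, p₁, hp₁⟩ := hcrit
  obtain ⟨h1, h2, h3⟩ := ha
  have G : MatTwist S b a p₁ :=
    { b_ne := hb0
      bS := hS
      aS := h3
      inf := ⟨m, hm, by rw [h1, zpow_natCast], by rw [h1]; exact hbm⟩
      fin := fun p hp => ⟨n p, hn p hp, by rw [h2 p hp, zpow_natCast], by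
        rw [h2 p hp]; exact hbn p hp⟩
      inj := fun x hx => by
        have h4 : Matrix.mulVec (Lam S a)⁻¹ (Matrix.mulVec (Lam S a) x) = 0 := by
          rw [hx, Matrix.mulVec_zero]
        rwa [Matrix.mulVec_mulVec, Matrix.nonsing_inv_mul _ hdet, Matrix.one_mulVec] at h4
      inj' := fun x hx => by
        have h4 : Matrix.vecMul (Matrix.vecMul x (Lam S a)) (Lam S a)⁻¹ = 0 := by
          rw [hx, Matrix.zero_vecMul]
        rwa [Matrix.vecMul_vecMul, Matrix.mul_nonsing_inv _ hdet, Matrix.vecMul_one] at h4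
      row := fun p hp => by rw [hp₁, Pi.single_eq_of_ne hp]
      row₁ := by rw [hp₁, Pi.single_eq_same] }
  have h4 := fun r => G.selmer_zero hκ r
  have hdiv : ∀ R : Pts (gcurve a b) (RatFunc k), ∃ R', 2 • R' = R := by
    intro R
    obtain ⟨R', hR'⟩ := (h4 1).2 R
    exact ⟨R', by rwa [pow_one] at hR'⟩
  have hB : TwoBasis (algebraMap (RatFunc k) (RatFunc k) RatFunc.X) := basisX
  have htor : ∀ R : Pts (gcurve a b) (RatFunc k), 2 • R = 0 → R = 0 :=
    fun R hR => no_torsion_two basisX (hk_gcurve a hκ) hB R hR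
  obtain ⟨h5, h6⟩ := mw_finite hb0 hκ hdiv htor
  exact ⟨h5, h6, fun r => (h4 r).1⟩

open scoped Classical in
theorem count_crit {b : RatFunc k} (hb : ¬ IsSquare b)
    {S : Finset (HeightOneSpectrum k[X])} (hS : ∀ p, p ∉ S → finAbv p b = 1) :
    (0 < S.card) ∧ (critM (pl S (om b))).card
      = S.card * ∏ i ∈ Finset.Ico 1 S.card, (2 ^ S.card - 2 ^ i) := by
  obtain ⟨p₀, hp₀⟩ := exists_pole hb
  have hp₀S : p₀ ∈ S := by
    by_contra h
    exact hp₀ (om_reg (hS p₀ h))
  have hv : pl S (om b) ≠ 0 := by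
    intro h
    have h1 : pl S (om b) ⟨p₀, hp₀S⟩ = 0 := by rw [h, Pi.zero_apply]
    have h2 : finAbv p₀ (om b) ≤ 1 :=
      (pl_eq_zero (S := S) (ℓ := om b) (p := ⟨p₀, hp₀S⟩)).mp h1
    exact hp₀ h2
  refine ⟨Finset.card_pos.mpr ⟨p₀, hp₀S⟩, ?_⟩
  have h2 := card_critM' hv
  rw [h2, Fintype.card_coe]

theorem main_twists {b : RatFunc k} (hb : ¬ IsSquare b)
    {S : Finset (HeightOneSpectrum k[X])} (hS : ∀ p, p ∉ S → finAbv p b = 1) :
    0 < S.card ∧ ∃ M : ℕ, ∀ (m : ℕ) (n : HeightOneSpectrum k[X] → ℕ),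
      M ≤ m → Odd m → (∀ p ∈ S, M ≤ n p ∧ Odd (n p)) →
      (twists S m n).Finite ∧ (twists S m n).Nonempty ∧
      S.card * (∏ i ∈ Finset.Ico 1 S.card, (2 ^ S.card - 2 ^ i)) * (twists S m n).ncard ≤
        2 ^ (S.card ^ 2) * {a ∈ twists S m n |
          Finite (Pts (gcurve a b) (RatFunc k)) ∧ Odd (Nat.card (Pts (gcurve a b) (RatFunc k))) ∧
          ∀ r : ℕ, Subsingleton (SelmerGroup (gcurve a b) (2 ^ r))}.ncard := by
  classical
  have hb0 : b ≠ 0 := by rintro rfl; exact hb ⟨0, by simp⟩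
  obtain ⟨hcard, hcrit⟩ := count_crit hb hS
  refine ⟨hcard, ?_⟩
  obtain ⟨M, hM, heq⟩ := equidist (k := k) S (infAbv k b + ∑ p ∈ S, finAbv p b)
  have hsum : 0 ≤ ∑ p ∈ S, finAbv p b := Finset.sum_nonneg fun p _ => (finAbv p).nonneg _
  refine ⟨M, fun m n hm hmo hn => ?_⟩
  have hfin := twists_finite S m n
  refine ⟨hfin, twists_nonempty S hmo.pos (fun p hp => (hn p hp).2.pos), ?_⟩
  have hsub : {a ∈ twists S m n | Lam S a ∈ critM (pl S (om b))} ⊆ {a ∈ twists S m n |
          Finite (Pts (gcurve a b) (RatFunc k)) ∧ Odd (Nat.card (Pts (gcurve a b) (RatFunc k))) ∧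
          ∀ r : ℕ, Subsingleton (SelmerGroup (gcurve a b) (2 ^ r))} := by
    rintro a ⟨ha, hcrit⟩
    refine ⟨ha, good_of_crit hb hS hmo (fun p hp => (hn p hp).2) ?_ (fun p hp => ?_) ha hcrit⟩
    · have h3 : (2 : ℝ) ^ M ≤ 2 ^ m := pow_le_pow_right₀ (by norm_num) hm
      linarith
    · have h3 : (2 : ℝ) ^ M ≤ 2 ^ n p := pow_le_pow_right₀ (by norm_num) (hn p hp).1
      have h4 := Finset.single_le_sum (fun q _ => (finAbv q).nonneg b) hp
      have h5 := (infAbv k).nonneg b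
      linarith
  have h6 := Set.ncard_le_ncard hsub (hfin.subset fun a ha => ha.1)
  have h1 := heq m n hm (fun p hp => (hn p hp).1) (critM (pl S (om b)))
  rw [hcrit] at h1
  rw [← h1]
  exact Nat.mul_le_mul_left _ h6

end Pool.Agent.H2
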