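import Pool.Agent.H2.GAS

/-!
# The local condition on logarithmic differentials at a place where `a` has a pole
-/

namespace Pool.Agent.H2

open Polynomial IsDedekindDomain WeierstrassCurve WeierstrassCurve.Affine

universe u

variable {k : Type u} [Field k] [Finite k] [CharP k 2]

theorem gC_sq {K : Type u} [Field K] {v : AbsoluteValue K ℝ} {τ : K} (g : GoodPlace v τ 2)
    (η : v.Completion) : ‖g.comp_basis.D η‖ ≤ 4 * ‖η‖ := by
  have h1 := g.lower' (g.comp_basis.E η) (g.comp_basis.C η)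
  rw [g.comp_basis.spec'] at h1
  unfold TwoBasis.D
  rw [norm_pow]
  calc ‖g.comp_basis.C η‖ ^ 2
      ≤ max ‖g.comp_basis.E η‖ ‖g.comp_basis.C η‖ ^ 2 :=
        pow_le_pow_left₀ (norm_nonneg _) (le_max_right _ _) 2
    _ ≤ 2 ^ 2 * ‖η‖ := h1
    _ = 4 * ‖η‖ := by norm_num

theorem gfloc {a b Z y ℓ : RatFunc k} (hκ : basisX.C b ≠ 0) (hb0 : b ≠ 0)
    {v : AbsoluteValue (RatFunc k) ℝ} (g : GoodPlace v (RatFunc.X : RatFunc k) 2) {m : ℕ}
    (hm : Odd m) (ha : v a = (2 : ℝ) ^ (m : ℤ)) (hb : v b < v a)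
    (hω : v (basisX.C b ^ 2 / b) ≤ 2) (hy : y ^ 2 + y = ucl b Z)
    (hℓ : basisX.C b ^ 2 * ℓ + b * ℓ ^ 2 = Z ^ 2)
    (h : GD v g.comp_basis a b Z) :
    ∃ x₀ w₀ : RatFunc k, x₀ ≠ 0 ∧ v (w₀ ^ 2 + w₀ + (x₀ + a)) < 1 ∧
      ∃ ε : RatFunc k, (ε = 0 ∨ ε = 1) ∧
        v (a * (ℓ + (basisX.D x₀ / x₀ + ε * (basisX.C b ^ 2 / b)))) ≤ 1 := by
  have hL := g.charP_comp
  have hK2 : CharP (RatFunc k) 2 := basisX.charP
  obtain ⟨x, w₁, w₂, hx, h2, h1, h3⟩ := h
  set α := ‖rc v a‖ with hα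
  set β := ‖rc v b‖ with hβ
  have hαe : α = (2 : ℝ) ^ (m : ℤ) := by rw [hα, norm_rc, ha]
  have hβα : β * 2 ≤ α := by
    obtain ⟨j, hj⟩ := g.disc b hb0
    rw [hβ, norm_rc, hj, hαe]
    rw [hj, ha] at hb
    have h4 := (zpow_lt_zpow_iff_right₀ (by norm_num : (1 : ℝ) < 2)).mp hb
    calc (2 : ℝ) ^ j * 2 = (2 : ℝ) ^ (j + 1) := by rw [zpow_add₀ two_ne_zero, zpow_one]
      _ ≤ (2 : ℝ) ^ (m : ℤ) := zpow_le_zpow_right₀ (by norm_num) (by omega)
  have hα2 : 2 ≤ α := by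
    rw [hαe]
    calc (2 : ℝ) = (2 : ℝ) ^ (1 : ℤ) := (zpow_one _).symm
      _ ≤ (2 : ℝ) ^ (m : ℤ) := zpow_le_zpow_right₀ (by norm_num) (by have := hm.pos; omega)
  have hβ0 : 0 ≤ β := norm_nonneg _
  -- `w` with `w² + w = x + a`
  set w := w₁ + rc v y with hw
  have hwe : w ^ 2 + w = x + rc v a := by
    have h4 : rc v (ucl b Z) = rc v y ^ 2 + rc v y := by
      rw [← hy]; unfold rc; simp only [map_add, map_pow]
    rw [h4] at h1
    rw [hw]
    grind
  have hxa : α ≤ ‖x‖ := by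
    by_contra hlt
    rw [not_le] at hlt
    have h4 : ‖x + rc v a‖ = (2 : ℝ) ^ (m : ℤ) := by
      rw [norm_add_of_lt g hlt]; exact hαe
    have h5 := even_exp g hwe h4 (by have := hm.pos; omega)
    rw [Int.even_coe_nat] at h5
    exact (Nat.not_even_iff_odd.mpr hm) h5
  have hxpos : 0 < ‖x‖ := by linarith
  have hκv : rc v (basisX.C b) ≠ 0 := by unfold rc; rwa [Ne, map_eq_zero]
  have hbv : rc v b ≠ 0 := by unfold rc; rwa [Ne, map_eq_zero]
  have hωv : ‖rc v (basisX.C b) ^ 2 / rc v b‖ ≤ 2 := by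
    have e : rc v (basisX.C b) ^ 2 / rc v b = rc v (basisX.C b ^ 2 / b) := by
      unfold rc; rw [map_div₀, map_pow]
    rw [e, norm_rc]; exact hω
  have hbx : ‖rc v b / x ^ 2‖ * (2 * α) ≤ 1 := by
    rw [norm_div, norm_pow]
    have h4 : α * α ≤ ‖x‖ ^ 2 := by nlinarith
    rw [div_mul_eq_mul_div, div_le_one (by positivity)]
    calc ‖rc v b‖ * (2 * α) = (β * 2) * α := by rw [← hβ]; ring
      _ ≤ α * α := by nlinarith
      _ ≤ _ := h4
  have hbx1 : ‖rc v b / x ^ 2‖ < 1 := by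
    have := norm_nonneg (rc v b / x ^ 2)
    nlinarith
  set lam := g.comp_basis.D x / x with hlam
  set μ := rc v ℓ + lam with hμ
  have hℓv : rc v (basisX.C b) ^ 2 * rc v ℓ + rc v b * rc v ℓ ^ 2 = rc v Z ^ 2 := by
    have := congrArg (rc v) hℓ
    unfold rc at this ⊢
    simpa only [map_add, map_mul, map_pow] using this
  set κ := rc v (basisX.C b) with hκd
  have hμe : κ ^ 2 * μ + rc v b * μ ^ 2 = κ ^ 4 / x ^ 2 := by
    have h4 : κ ^ 2 * μ + rc v b * μ ^ 2 = (κ ^ 2 * rc v ℓ + rc v b * rc v ℓ ^ 2)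
        + (κ ^ 2 * lam + rc v b * lam ^ 2) := by
      rw [hμ]; grind
    rw [h4, hℓv, h3]
    grind
  set G := rc v b * μ / κ ^ 2 with hG
  have hGe : G * (G + 1) = rc v b / x ^ 2 := by
    have h4 : G * (G + 1) = rc v b / κ ^ 4 * (κ ^ 2 * μ + rc v b * μ ^ 2) := by
      rw [hG]; field_simp; ring
    rw [h4, hμe]
    field_simp
  have hμG : μ = κ ^ 2 / rc v b * G := by rw [hG]; field_simp
  have hn : ‖G‖ * ‖G + 1‖ = ‖rc v b / x ^ 2‖ := by rw [← norm_mul, hGe]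
  obtain ⟨ε, hε, hμε⟩ : ∃ ε : RatFunc k, (ε = 0 ∨ ε = 1) ∧
      ‖rc v a * (μ + rc v ε * (κ ^ 2 / rc v b))‖ ≤ 1 := by
    by_cases hG1 : ‖G‖ < 1
    · refine ⟨0, Or.inl rfl, ?_⟩
      have h4 : ‖G + 1‖ = 1 := by
        have := norm_add_of_lt g (x := G) (y := 1) (by rw [norm_one]; exact hG1)
        rw [this, norm_one]
      rw [h4, mul_one] at hn
      have h5 : rc v (0 : RatFunc k) = 0 := by unfold rc; rw [map_zero]
      rw [h5, zero_mul, add_zero, hμG, norm_mul, norm_mul, hn, ← hα]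
      have h6 := norm_nonneg (rc v b / x ^ 2)
      calc α * (‖κ ^ 2 / rc v b‖ * ‖rc v b / x ^ 2‖) ≤ α * (2 * ‖rc v b / x ^ 2‖) := by gcongr
        _ = ‖rc v b / x ^ 2‖ * (2 * α) := by ring
        _ ≤ 1 := hbx
    · rw [not_lt] at hG1
      refine ⟨1, Or.inr rfl, ?_⟩
      have hG2 : ‖G + 1‖ < 1 := by
        by_contra h4
        rw [not_lt] at h4
        have : (1 : ℝ) ≤ ‖G‖ * ‖G + 1‖ := by nlinarith
        linarith
      have h4 : ‖G‖ = 1 := by
        have h5 := norm_add_of_lt g (x := G + 1) (y := 1) (by rw [norm_one]; exact hG2)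
        have h6 : G + 1 + 1 = G := by grind
        rw [h6, norm_one] at h5
        exact h5
      rw [h4, one_mul] at hn
      have h5 : rc v (1 : RatFunc k) = 1 := by unfold rc; rw [map_one]
      have h6 : μ + rc v 1 * (κ ^ 2 / rc v b) = κ ^ 2 / rc v b * (G + 1) := by
        rw [h5, hμG]; ring
      rw [h6, norm_mul, norm_mul, hn, ← hα]
      have h6 := norm_nonneg (rc v b / x ^ 2)
      calc α * (‖κ ^ 2 / rc v b‖ * ‖rc v b / x ^ 2‖) ≤ α * (2 * ‖rc v b / x ^ 2‖) := by gcongr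
        _ = ‖rc v b / x ^ 2‖ * (2 * α) := by ring
        _ ≤ 1 := hbx
  -- approximation
  obtain ⟨x₀, hx₀⟩ := GoodPlace.approx (v := v) x (show (0 : ℝ) < 1 / 4 by norm_num)
  obtain ⟨w₀, hw₀⟩ := GoodPlace.approx (v := v) w (show (0 : ℝ) < 1 by norm_num)
  change ‖x - rc v x₀‖ < 1 / 4 at hx₀
  change ‖w - rc v w₀‖ < 1 at hw₀
  have hx₀n : ‖rc v x₀‖ = ‖x‖ := by
    have e : rc v x₀ = -(x - rc v x₀) + x := by ring
    rw [e, norm_add_of_lt g]
    rw [norm_neg]; linarith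
  have hx₀0 : x₀ ≠ 0 := by
    rintro rfl
    have : rc v (0 : RatFunc k) = 0 := by unfold rc; rw [map_zero]
    rw [this, norm_zero] at hx₀n
    linarith
  refine ⟨x₀, w₀, hx₀0, ?_, ε, hε, ?_⟩
  · rw [← norm_rc]
    have e : rc v (w₀ ^ 2 + w₀ + (x₀ + a)) = (w - rc v w₀) ^ 2 + ((w - rc v w₀)
        + (x - rc v x₀)) := by
      unfold rc at *
      simp only [map_add, map_pow]
      grind
    rw [e]
    refine lt_of_le_of_lt (g.ultra _ _) (max_lt ?_ (lt_of_le_of_lt (g.ultra _ _) (max_lt hw₀ ?_)))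
    · rw [norm_pow]
      exact pow_lt_one₀ (norm_nonneg _) hw₀ two_ne_zero
    · linarith
  · rw [← norm_rc]
    have hDv : rc v (basisX.D x₀) = g.comp_basis.D (rc v x₀) := by
      unfold TwoBasis.D
      have := basisX.map_C g.comp_basis (algebraMap (RatFunc k) v.Completion) rfl x₀
      unfold rc
      rw [map_pow, this]
    have e : rc v (a * (ℓ + (basisX.D x₀ / x₀ + ε * (basisX.C b ^ 2 / b))))
        = rc v a * (μ + rc v ε * (κ ^ 2 / rc v b))
          + rc v a * (g.comp_basis.D (rc v x₀) / rc v x₀ + lam) := by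
      rw [← hDv, hμ, hκd]
      unfold rc
      simp only [map_add, map_mul, map_div₀, map_pow]
      linear_combination (-(algebraMap (RatFunc k) v.Completion a * lam))
        * (CharTwo.two_eq_zero : (2 : v.Completion) = 0)
    rw [e]
    refine (g.ultra _ _).trans (max_le hμε ?_)
    set η := (rc v x₀ - x) / x with hη
    have hηn : ‖η‖ * ‖x‖ ≤ 1 / 4 := by
      rw [hη, norm_div, div_mul_cancel₀ _ hxpos.ne', ← norm_neg, neg_sub]
      exact hx₀.le
    have hrx₀ : rc v x₀ ≠ 0 := by unfold rc; rwa [Ne, map_eq_zero]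
    have hyx : rc v x₀ = (1 + η) * x := by rw [hη]; field_simp; ring
    have hη1 : 1 + η ≠ 0 := by
      intro h0; rw [h0, zero_mul] at hyx; exact hrx₀ hyx
    have hη1n : ‖1 + η‖ = 1 := by
      have := congrArg norm hyx
      rw [norm_mul, hx₀n] at this
      have h4 : ‖1 + η‖ * ‖x‖ = 1 * ‖x‖ := by rw [one_mul]; exact this.symm
      exact mul_right_cancel₀ hxpos.ne' h4
    have h4 : g.comp_basis.D (rc v x₀) / rc v x₀ + lam = g.comp_basis.D η / (1 + η) := by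
      rw [hyx, g.comp_basis.dlog_mul hη1 hx, ← hlam, add_assoc, CharTwo.add_self_eq_zero, add_zero,
        g.comp_basis.D_add, g.comp_basis.D_one, zero_add]
    rw [h4, norm_mul, norm_div, hη1n, div_one, ← hα]
    have h5 := gC_sq g η
    have h6 := norm_nonneg η
    calc α * ‖g.comp_basis.D η‖ ≤ ‖x‖ * (4 * ‖η‖) := by gcongr
      _ = 4 * (‖η‖ * ‖x‖) := by ring
      _ ≤ 1 := by linarith

end Pool.Agent.H2
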