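import Pool.Agent.H2.GFinal

/-!
# Frobenius twists
-/

namespace Pool.Agent.H2

open Polynomial IsDedekindDomain WeierstrassCurve WeierstrassCurve.Affine

universe u

variable {k : Type u} [Field k]

theorem nonsing_of {a b : RatFunc k} [CharP (RatFunc k) 2] (hb : b ≠ 0) {x y : RatFunc k}
    (h : y ^ 2 + x * y = x ^ 3 + a * x ^ 2 + b) :
    ((gcurve a b)⁄(RatFunc k)).Nonsingular x y := by
  have h1 : ((gcurve a b)⁄(RatFunc k)).a₁ = 1 := by
    change algebraMap _ _ (1 : RatFunc k) = 1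
    rw [map_one]
  have h2 : ((gcurve a b)⁄(RatFunc k)).a₂ = a := rfl
  have h3 : ((gcurve a b)⁄(RatFunc k)).a₃ = 0 := by
    change algebraMap _ _ (0 : RatFunc k) = 0
    rw [map_zero]
  have h4 : ((gcurve a b)⁄(RatFunc k)).a₄ = 0 := by
    change algebraMap _ _ (0 : RatFunc k) = 0
    rw [map_zero]
  have h6 : ((gcurve a b)⁄(RatFunc k)).a₆ = b := rfl
  have hΔ : ((gcurve a b)⁄(RatFunc k)).Δ ≠ 0 := by
    have : ((gcurve a b)⁄(RatFunc k)).Δ = b := by
      simp only [WeierstrassCurve.Δ, WeierstrassCurve.b₂, WeierstrassCurve.b₄,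
        WeierstrassCurve.b₆, WeierstrassCurve.b₈, h1, h2, h3, h4, h6]
      linear_combination (-b - 32 * a ^ 3 * b - 6 * a * b - 24 * a ^ 2 * b
        - 216 * b ^ 2) * (CharTwo.two_eq_zero : (2 : RatFunc k) = 0)
    rw [this]; exact hb
  apply (Affine.equation_iff_nonsingular_of_Δ_ne_zero hΔ).mp
  rw [Affine.equation_iff, h1, h2, h3, h4, h6]
  linear_combination h

variable [Finite k] [CharP k 2]

theorem pts_finite_of {a b : RatFunc k} {T : Set (RatFunc k)} (hT : T.Finite)
    (h : ∀ x y : RatFunc k, y ^ 2 + x * y = x ^ 3 + a * x ^ 2 + b → x ∈ T) :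
    Finite (Pts (gcurve a b) (RatFunc k)) := by
  let φ : Pts (gcurve a b) (RatFunc k) → Option (RatFunc k × RatFunc k) := fun P =>
    match P with
    | .zero => none
    | .some x y _ => some (x, y)
  have hφ : Function.Injective φ := by
    intro P Q hPQ
    rcases P with _ | ⟨x, y, hxy⟩ <;> rcases Q with _ | ⟨x', y', hxy'⟩
    · rfl
    · exact absurd hPQ (by simp [φ])
    · exact absurd hPQ (by simp [φ])
    · have h1 : (x, y) = (x', y') := Option.some_injective _ hPQ
      have h2 : x = x' := congrArg Prod.fst h1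
      have h3 : y = y' := congrArg Prod.snd h1
      subst h2 h3
      rfl
  rw [← Set.finite_univ_iff]
  apply Set.Finite.of_finite_image _ hφ.injOn
  have hfin : (⋃ x ∈ T, (fun y : RatFunc k => some (x, y)) ''
      {y : RatFunc k | y ^ 2 + x * y = x ^ 3 + a * x ^ 2 + b}).Finite :=
    hT.biUnion fun x _ => (quad_fin_roots x _).image _
  refine (hfin.union (Set.finite_singleton (none : Option (RatFunc k × RatFunc k)))).subset ?_
  rintro _ ⟨P, -, rfl⟩
  rcases P with _ | ⟨x, y, hxy⟩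
  · right; rfl
  · left
    rw [Set.mem_iUnion₂]
    exact ⟨x, h x y (eqn_of hxy), y, eqn_of hxy, rfl⟩

/-- the quotient of the Frobenius twist by its rational point of order two -/
theorem finite_frob {a b : RatFunc k} (hb : b ≠ 0)
    (hfin : Finite (Pts (gcurve a b) (RatFunc k))) :
    Finite (Pts (gcurve a (b ^ 2)) (RatFunc k)) := by
  classical
  have hK2 : CharP (RatFunc k) 2 := basisX.charP
  -- the `x`-coordinates
  let X : Pts (gcurve a b) (RatFunc k) → RatFunc k := fun P =>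
    match P with
    | .zero => 0
    | .some x _ _ => x
  have hX : (Set.range X).Finite := Set.finite_range X
  set T : Set (RatFunc k) := ⋃ x ∈ Set.range X, {z : RatFunc k | z ^ 2 + x * z = b} with hT
  have hTf : (({0} : Set (RatFunc k)) ∪ ({z : RatFunc k | z ^ 2 + 0 * z = b} ∪ T)).Finite :=
    (Set.finite_singleton _).union ((quad_fin_roots 0 b).union
      (hX.biUnion fun x _ => quad_fin_roots x b))
  apply pts_finite_of hTf
  intro x y hxy
  by_cases hx : x = 0
  · left; exact hx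
  right
  by_cases hx2 : x ^ 2 = b
  · left
    change x ^ 2 + 0 * x = b
    rw [hx2]; ring
  right
  have hx3 : x ^ 2 + b ≠ 0 := by
    intro h
    exact hx2 (CharTwo.add_eq_zero.mp h)
  set x' := x + b / x with hx'
  set w := y / x + b / x + x ^ 2 / (x ^ 2 + b) with hw
  have hx'0 : x' ≠ 0 := by
    intro h
    apply hx3
    rw [hx'] at h
    field_simp at h
    rwa [mul_zero] at h
  have heq : (w * x') ^ 2 + x' * (w * x') = x' ^ 3 + a * x' ^ 2 + b := by
    have h1 : w ^ 2 + w = x' + a + b / x' ^ 2 := by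
      have h2 : (y / x) ^ 2 + y / x = x + a + b ^ 2 / x ^ 2 := by
        field_simp
        linear_combination hxy
      have h3 : (b / x) ^ 2 + b / x = b ^ 2 / x ^ 2 + b / x := by
        rw [div_pow]
      have h4 : (x ^ 2 / (x ^ 2 + b)) ^ 2 + x ^ 2 / (x ^ 2 + b) = b / x' ^ 2 := by
        have h5 : x' = (x ^ 2 + b) / x := by rw [hx']; field_simp
        rw [h5]
        field_simp
        linear_combination (x ^ 2) * (CharTwo.two_eq_zero : (2 : RatFunc k) = 0)
      rw [hw, wp_add, wp_add, h2, h3, h4, hx']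
      linear_combination (b ^ 2 / x ^ 2) * (CharTwo.two_eq_zero : (2 : RatFunc k) = 0)
    have h2 : (w * x') ^ 2 + x' * (w * x') = x' ^ 2 * (w ^ 2 + w) := by ring
    rw [h2, h1]
    field_simp
  have hns := nonsing_of (a := a) hb heq
  rw [hT, Set.mem_iUnion₂]
  refine ⟨x', ⟨(Affine.Point.some x' (w * x') hns : Pts (gcurve a b) (RatFunc k)), rfl⟩, ?_⟩
  change x ^ 2 + x' * x = b
  rw [hx']
  field_simp
  linear_combination (x ^ 2) * (CharTwo.two_eq_zero : (2 : RatFunc k) = 0)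

theorem finite_frob_pow {a b : RatFunc k} (hb : b ≠ 0)
    (hfin : Finite (Pts (gcurve a b) (RatFunc k))) (r : ℕ) :
    Finite (Pts (gcurve a (b ^ 2 ^ r)) (RatFunc k)) := by
  induction r with
  | zero => simpa using hfin
  | succ r ih =>
    have h1 : b ^ 2 ^ (r + 1) = (b ^ 2 ^ r) ^ 2 := by rw [← pow_mul, ← pow_succ]
    rw [h1]
    exact finite_frob (pow_ne_zero _ hb) ih

omit [Finite k] [CharP k 2] in
theorem ht_zero {x : RatFunc k} (h : ht x = 0) : ∃ c : k, x = RatFunc.C c := by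
  have h1 : x.num.natDegree = 0 := Nat.le_zero.mp (h ▸ le_max_left _ _)
  have h2 : x.denom.natDegree = 0 := Nat.le_zero.mp (h ▸ le_max_right _ _)
  obtain ⟨c, hc⟩ := natDegree_eq_zero.mp h1
  obtain ⟨d, hd⟩ := natDegree_eq_zero.mp h2
  refine ⟨c / d, ?_⟩
  rw [← RatFunc.num_div_denom x, ← hc, ← hd, map_div₀, RatFunc.algebraMap_C, RatFunc.algebraMap_C]

omit [Finite k] [CharP k 2] in
theorem ht_sq (x : RatFunc k) : 2 * ht x ≤ ht (x ^ 2) := by
  by_cases hx : x = 0
  · rw [hx]; unfold ht; simp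
  have inj := FaithfulSMul.algebraMap_injective k[X] (RatFunc k)
  have ne0 : ∀ {y : k[X]}, y ≠ 0 → algebraMap k[X] (RatFunc k) y ≠ 0 := by
    intro y hy; rwa [Ne, FaithfulSMul.algebraMap_eq_zero_iff]
  have hcross : (x ^ 2).num * x.denom ^ 2 = x.num ^ 2 * (x ^ 2).denom := by
    apply inj
    have h1 := RatFunc.num_div_denom (x ^ 2)
    have h2 := ne0 (x ^ 2).denom_ne_zero
    have h3 := ne0 x.denom_ne_zero
    have h5 := RatFunc.num_div_denom x
    have h4 : algebraMap k[X] (RatFunc k) (x ^ 2).num / algebraMap k[X] (RatFunc k) (x ^ 2).denom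
        = algebraMap k[X] (RatFunc k) x.num ^ 2 / algebraMap k[X] (RatFunc k) x.denom ^ 2 := by
      rw [h1, ← div_pow, h5]
    rw [div_eq_div_iff h2 (pow_ne_zero 2 h3)] at h4
    rw [map_mul, map_mul, map_pow, map_pow]
    exact h4
  have hc1 : IsCoprime (x.num ^ 2) (x.denom ^ 2) := (RatFunc.isCoprime_num_denom x).pow
  have h0 : (x ^ 2).num ≠ 0 := RatFunc.num_ne_zero (pow_ne_zero 2 hx)
  have hd1 : x.num ^ 2 ∣ (x ^ 2).num := by
    apply hc1.dvd_of_dvd_mul_right
    rw [hcross]; exact dvd_mul_right _ _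
  have hd2 : x.denom ^ 2 ∣ (x ^ 2).denom := by
    apply hc1.symm.dvd_of_dvd_mul_left
    rw [← hcross]; exact dvd_mul_left _ _
  have h1 := natDegree_le_of_dvd hd1 h0
  have h2 := natDegree_le_of_dvd hd2 (x ^ 2).denom_ne_zero
  rw [natDegree_pow] at h1 h2
  have h3 : (x ^ 2).num.natDegree ≤ ht (x ^ 2) := le_max_left _ _
  have h4 : (x ^ 2).denom.natDegree ≤ ht (x ^ 2) := le_max_right _ _
  rcases max_choice x.num.natDegree x.denom.natDegree with h5 | h5
  · have : ht x = x.num.natDegree := h5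
    omega
  · have : ht x = x.denom.natDegree := h5
    omega

omit [Finite k] [CharP k 2] in
/-- every nonconstant function is a power of a nonsquare -/
theorem exists_root (b : RatFunc k) (hb : ∀ c : k, b ≠ RatFunc.C c) :
    ∃ (β : RatFunc k) (r : ℕ), b = β ^ 2 ^ r ∧ ¬ IsSquare β := by
  have key : ∀ n : ℕ, ∀ b : RatFunc k, ht b = n → (∀ c : k, b ≠ RatFunc.C c) →
      ∃ (β : RatFunc k) (r : ℕ), b = β ^ 2 ^ r ∧ ¬ IsSquare β := by
    intro n
    induction n using Nat.strong_induction_on with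
    | _ n ih =>
      intro b hn hb
      by_cases hsq : IsSquare b
      · obtain ⟨c, hc⟩ := hsq
        rw [← pow_two] at hc
        have h1 := ht_sq c
        rw [← hc] at h1
        have h2 : ht b ≠ 0 := by
          intro h0
          obtain ⟨c, hc⟩ := ht_zero h0
          exact hb c hc
        obtain ⟨β, r, hβ, hβ2⟩ := ih (ht c) (by omega) c rfl (by
          intro d hd
          apply hb (d ^ 2)
          rw [hc, hd, map_pow])
        refine ⟨β, r + 1, ?_, hβ2⟩
        rw [hc, hβ, ← pow_mul, ← pow_succ]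
      · exact ⟨b, 0, by simp, hsq⟩
  exact key _ b rfl hb

/-- **Main theorem.** -/
theorem main_all (b : RatFunc k) (hb : ∀ c : k, b ≠ RatFunc.C c)
    (S : Finset (HeightOneSpectrum k[X])) (hS : ∀ p, p ∉ S → finAbv p b = 1) :
    ∃ (β : RatFunc k) (r : ℕ), b = β ^ 2 ^ r ∧ 0 < S.card ∧
      ∃ M : ℕ, ∀ (m : ℕ) (n : HeightOneSpectrum k[X] → ℕ),
      M ≤ m → Odd m → (∀ p ∈ S, M ≤ n p ∧ Odd (n p)) →
      (twists S m n).Finite ∧ (twists S m n).Nonempty ∧
      S.card * (∏ i ∈ Finset.Ico 1 S.card, (2 ^ S.card - 2 ^ i)) * (twists S m n).ncard ≤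
        2 ^ (S.card ^ 2) * {a ∈ twists S m n |
          Finite (Pts (gcurve a b) (RatFunc k)) ∧
          Finite (Pts (gcurve a β) (RatFunc k)) ∧ Odd (Nat.card (Pts (gcurve a β) (RatFunc k))) ∧
          ∀ s : ℕ, Subsingleton (SelmerGroup (gcurve a β) (2 ^ s))}.ncard := by
  obtain ⟨β, r, hβ, hβ2⟩ := exists_root b hb
  have hβ0 : β ≠ 0 := by rintro rfl; exact hβ2 ⟨0, by simp⟩
  have hSβ : ∀ p, p ∉ S → finAbv p β = 1 := by
    intro p hp
    have h1 := hS p hp
    rw [hβ, map_pow] at h1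
    exact (pow_eq_one_iff_of_nonneg ((finAbv p).nonneg _) (by positivity)).mp h1
  obtain ⟨h1, M, h2⟩ := main_twists hβ2 hSβ
  refine ⟨β, r, hβ, h1, M, fun m n hm hmo hn => ?_⟩
  obtain ⟨h3, h4, h5⟩ := h2 m n hm hmo hn
  refine ⟨h3, h4, h5.trans (Nat.mul_le_mul_left _ (Set.ncard_le_ncard ?_
    (h3.subset fun a ha => ha.1)))⟩
  rintro a ⟨ha, h6, h7⟩
  refine ⟨ha, ?_, h6, h7⟩
  rw [hβ]
  exact finite_frob_pow hβ0 h6 r

end Pool.Agent.H2
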