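import Pool.Agent.H2.GLocal

/-!
# Heights: a divisible group of rational points is finite
-/

namespace Pool.Agent.H2

open Polynomial WeierstrassCurve WeierstrassCurve.Affine

universe u

section Dup

variable {L : Type*} [Field L] [CharP L 2] [DecidableEq L] {W : Affine L}

/-- duplication on `y² + x y = x³ + a x² + b` in characteristic two -/
theorem dup (h1 : W.a₁ = 1) (h3 : W.a₃ = 0) (h4 : W.a₄ = 0) {x y : L}
    (hxy : W.Nonsingular x y) (hx : x ≠ 0) :
    ∃ (y' : L) (h' : W.Nonsingular (x ^ 2 + W.a₆ / x ^ 2) y'),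
      Affine.Point.some x y hxy + Affine.Point.some x y hxy
        = Affine.Point.some (x ^ 2 + W.a₆ / x ^ 2) y' h' := by
  have hns : y ≠ W.negY x y := by
    intro h
    apply hx
    rw [Affine.negY, h1, h3] at h
    have h5 : y + y = 0 := CharTwo.add_self_eq_zero y
    linear_combination h - h5
  have he := (Affine.equation_iff _ _).mp hxy.1
  rw [h1, h3, h4] at he
  have hX : W.addX x x (W.slope x x y y) = x ^ 2 + W.a₆ / x ^ 2 := by
    have hsl : W.slope x x y y = x + y / x := by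
      rw [Affine.slope_of_Y_ne rfl hns, div_eq_iff (sub_ne_zero.mpr hns), Affine.negY, h1, h3, h4]
      field_simp
      linear_combination (x ^ 3 - x * y - y * y + x ^ 2 * W.a₂ - x ^ 2 * y)
        * (CharTwo.two_eq_zero : (2 : L) = 0)
    rw [Affine.addX, hsl, h1]
    field_simp
    linear_combination he + (x ^ 2 * y)
      * (CharTwo.two_eq_zero : (2 : L) = 0)
  have h5 := Affine.Point.add_self_of_Y_ne (h₁ := hxy) hns
  generalize_proofs pf at h5
  rw [h5]
  generalize W.addY x x y (W.slope x x y y) = y' at *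
  rw [hX] at pf
  exact ⟨y', pf, by congr 1⟩

end Dup

variable {k : Type u} [Field k]

/-- the height of a rational function -/
noncomputable def ht (x : RatFunc k) : ℕ := max x.num.natDegree x.denom.natDegree

theorem ht_finite [Finite k] (B : ℕ) : {x : RatFunc k | ht x ≤ B}.Finite := by
  have hfin : ((degreeLT k (B + 1) : Submodule k k[X]) : Set k[X]).Finite := by
    have : Finite (degreeLT k (B + 1)) :=
      Finite.of_equiv _ (degreeLTEquiv k (B + 1)).symm.toEquiv
    exact Set.toFinite _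
  have hmem : ∀ f : k[X], f.natDegree ≤ B → f ∈ ((degreeLT k (B + 1) : Submodule k k[X]) :
      Set k[X]) := by
    intro f hf
    rw [SetLike.mem_coe, mem_degreeLT]
    by_cases h0 : f = 0
    · rw [h0, degree_zero]; exact WithBot.bot_lt_coe _
    · rw [degree_eq_natDegree h0]; exact_mod_cast Nat.lt_succ_of_le hf
  refine ((hfin.prod hfin).image fun fg : k[X] × k[X] => algebraMap k[X] (RatFunc k) fg.1
    / algebraMap k[X] (RatFunc k) fg.2).subset ?_
  intro x hx
  have h1 : max x.num.natDegree x.denom.natDegree ≤ B := hx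
  exact ⟨(x.num, x.denom), ⟨hmem _ ((le_max_left _ _).trans h1),
    hmem _ ((le_max_right _ _).trans h1)⟩, RatFunc.num_div_denom x⟩

theorem natDegree_le_of_mul {f g : k[X]} (hg : g ≠ 0) : f.natDegree ≤ (f * g).natDegree ∨ f = 0 := by
  by_cases hf : f = 0
  · exact Or.inr hf
  · left; rw [natDegree_mul hf hg]; omega

/-- the height of the double -/
theorem ht_dup {b : RatFunc k} (hb : b ≠ 0) :
    ∃ C : ℕ, ∀ x : RatFunc k, x ≠ 0 → 4 * ht x ≤ ht (x ^ 2 + b / x ^ 2) + C := by
  set β₁ := b.num with hβ₁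
  set β₂ := b.denom with hβ₂
  have hβ₁0 : β₁ ≠ 0 := RatFunc.num_ne_zero hb
  have hβ₂0 : β₂ ≠ 0 := b.denom_ne_zero
  have hbe : b = algebraMap k[X] (RatFunc k) β₁ / algebraMap k[X] (RatFunc k) β₂ :=
    (RatFunc.num_div_denom b).symm
  refine ⟨2 * (β₁.natDegree + 2 * β₂.natDegree), fun x hx => ?_⟩
  set f := x.num with hf
  set g := x.denom with hg
  have hf0 : f ≠ 0 := RatFunc.num_ne_zero hx
  have hg0 : g ≠ 0 := x.denom_ne_zero
  have hxe : x = algebraMap k[X] (RatFunc k) f / algebraMap k[X] (RatFunc k) g :=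
    (RatFunc.num_div_denom x).symm
  have hcop : IsCoprime f g := RatFunc.isCoprime_num_denom x
  have inj := FaithfulSMul.algebraMap_injective k[X] (RatFunc k)
  have ne0 : ∀ {y : k[X]}, y ≠ 0 → algebraMap k[X] (RatFunc k) y ≠ 0 := by
    intro y hy; rwa [Ne, FaithfulSMul.algebraMap_eq_zero_iff]
  set z := x ^ 2 + b / x ^ 2 with hz
  set N := β₂ * f ^ 4 + β₁ * g ^ 4 with hN
  set D := β₂ * (f ^ 2 * g ^ 2) with hD
  have hD0 : D ≠ 0 := mul_ne_zero hβ₂0 (mul_ne_zero (pow_ne_zero 2 hf0) (pow_ne_zero 2 hg0))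
  have hzND : z = algebraMap k[X] (RatFunc k) N / algebraMap k[X] (RatFunc k) D := by
    have e1 := ne0 hβ₂0
    have e2 := ne0 hf0
    have e3 := ne0 hg0
    rw [hz, hbe, hxe, hN, hD]
    simp only [map_add, map_mul, map_pow]
    field_simp
  have hcross : z.num * D = N * z.denom := by
    apply inj
    have h1 := RatFunc.num_div_denom z
    have h2 := ne0 z.denom_ne_zero
    have h3 := ne0 hD0
    rw [map_mul (algebraMap k[X] (RatFunc k)) z.num D,
      map_mul (algebraMap k[X] (RatFunc k)) N z.denom]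
    have h4 : algebraMap k[X] (RatFunc k) z.num / algebraMap k[X] (RatFunc k) z.denom
        = algebraMap k[X] (RatFunc k) N / algebraMap k[X] (RatFunc k) D := by rw [h1, hzND]
    rwa [div_eq_div_iff h2 h3] at h4
  have hzc : IsCoprime z.num z.denom := RatFunc.isCoprime_num_denom z
  obtain ⟨e, he⟩ : z.denom ∣ D := by
    apply hzc.symm.dvd_of_dvd_mul_left
    rw [hcross]; exact dvd_mul_left _ _
  have heN : N = z.num * e := by
    have h1 : z.denom * N = z.denom * (z.num * e) := by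
      rw [mul_comm, ← hcross, he]; ring
    exact mul_left_cancel₀ z.denom_ne_zero h1
  have he0 : e ≠ 0 := by
    rintro rfl
    rw [mul_zero] at he
    exact hD0 he
  -- `e` divides a fixed polynomial
  have hd1 : e ∣ β₁ * β₂ ^ 2 * f ^ 6 := by
    have h1 : β₁ * β₂ ^ 2 * f ^ 6 = (β₁ * β₂ * f ^ 2) * N - (β₁ ^ 2 * g ^ 2) * D := by
      rw [hN, hD]; ring
    rw [h1, heN, he]
    exact dvd_sub (Dvd.intro_left _ (by ring : (β₁ * β₂ * f ^ 2 * z.num) * e = _))
      (Dvd.intro_left _ (by ring : (β₁ ^ 2 * g ^ 2 * z.denom) * e = _))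
  have hd2 : e ∣ β₁ * β₂ ^ 2 * g ^ 6 := by
    have h1 : β₁ * β₂ ^ 2 * g ^ 6 = (β₂ ^ 2 * g ^ 2) * N - (β₂ ^ 2 * f ^ 2) * D := by
      rw [hN, hD]; ring
    rw [h1, heN, he]
    exact dvd_sub (Dvd.intro_left _ (by ring : (β₂ ^ 2 * g ^ 2 * z.num) * e = _))
      (Dvd.intro_left _ (by ring : (β₂ ^ 2 * f ^ 2 * z.denom) * e = _))
  have hde : e ∣ β₁ * β₂ ^ 2 := by
    obtain ⟨s, t, hst⟩ := (hcop.pow (m := 6) (n := 6))
    have h1 : β₁ * β₂ ^ 2 = s * (β₁ * β₂ ^ 2 * f ^ 6) + t * (β₁ * β₂ ^ 2 * g ^ 6) := by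
      linear_combination (-(β₁ * β₂ ^ 2)) * hst
    rw [h1]
    exact dvd_add (hd1.mul_left _) (hd2.mul_left _)
  have hdeg : e.natDegree ≤ β₁.natDegree + 2 * β₂.natDegree := by
    have h1 := natDegree_le_of_dvd hde (mul_ne_zero hβ₁0 (pow_ne_zero 2 hβ₂0))
    rwa [natDegree_mul hβ₁0 (pow_ne_zero 2 hβ₂0), natDegree_pow] at h1
  have hNdeg : N.natDegree ≤ ht z + e.natDegree := by
    rw [heN]
    refine natDegree_mul_le.trans ?_
    have : z.num.natDegree ≤ ht z := le_max_left _ _
    omega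
  have hDdeg : D.natDegree ≤ ht z + e.natDegree := by
    rw [he]
    refine natDegree_mul_le.trans ?_
    have : z.denom.natDegree ≤ ht z := le_max_right _ _
    omega
  set M := ht z + e.natDegree with hM
  set h := ht x with hh
  have hfh : f.natDegree ≤ h := le_max_left _ _
  have hgh : g.natDegree ≤ h := le_max_right _ _
  -- `6 deg f ≤ B + 2 h + M`
  have h6f : 6 * f.natDegree ≤ β₁.natDegree + 2 * β₂.natDegree + 2 * h + M := by
    have h1 : β₂ ^ 2 * f ^ 6 = (β₂ * f ^ 2) * N - (β₁ * g ^ 2) * D := by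
      rw [hN, hD]; ring
    have h2 := congrArg natDegree h1
    rw [natDegree_mul (pow_ne_zero 2 hβ₂0) (pow_ne_zero 6 hf0), natDegree_pow, natDegree_pow] at h2
    have h3 := natDegree_sub_le ((β₂ * f ^ 2) * N) ((β₁ * g ^ 2) * D)
    have h4 : ((β₂ * f ^ 2) * N).natDegree ≤ β₂.natDegree + 2 * h + M := by
      refine natDegree_mul_le.trans ?_
      rw [natDegree_mul hβ₂0 (pow_ne_zero 2 hf0), natDegree_pow]
      omega
    have h5 : ((β₁ * g ^ 2) * D).natDegree ≤ β₁.natDegree + 2 * h + M := by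
      refine natDegree_mul_le.trans ?_
      rw [natDegree_mul hβ₁0 (pow_ne_zero 2 hg0), natDegree_pow]
      omega
    rw [← h2] at h3
    have h6 := h3.trans (max_le_max h4 h5)
    rcases le_max_iff.mp h6 with h7 | h7 <;> omega
  have h6g : 6 * g.natDegree ≤ β₁.natDegree + 2 * β₂.natDegree + 2 * h + M := by
    have h1 : β₁ * g ^ 6 = g ^ 2 * N - f ^ 2 * D := by
      rw [hN, hD]; ring
    have h2 := congrArg natDegree h1
    rw [natDegree_mul hβ₁0 (pow_ne_zero 6 hg0), natDegree_pow] at h2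
    have h3 := natDegree_sub_le (g ^ 2 * N) (f ^ 2 * D)
    have h4 : (g ^ 2 * N).natDegree ≤ 2 * h + M := by
      refine natDegree_mul_le.trans ?_
      rw [natDegree_pow]
      omega
    have h5 : (f ^ 2 * D).natDegree ≤ 2 * h + M := by
      refine natDegree_mul_le.trans ?_
      rw [natDegree_pow]
      omega
    rw [← h2] at h3
    have h6 := h3.trans (max_le h4 h5)
    omega
  have h6 : 6 * h ≤ β₁.natDegree + 2 * β₂.natDegree + 2 * h + M := by
    rcases max_choice f.natDegree g.natDegree with h7 | h7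
    · have : h = f.natDegree := h7
      rw [this]; rw [this] at h6f; exact h6f
    · have : h = g.natDegree := h7
      rw [this]; rw [this] at h6g; exact h6g
  omega

end Pool.Agent.H2
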