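import Pool.Agent.H2.GRes
import Pool.Agent.H2.ASSel

/-!
# Curves `y² + x y = x³ + a x² + b` over `k(X)`: the local data of a Selmer class
-/

namespace Pool.Agent.H2

open Polynomial IsDedekindDomain WeierstrassCurve WeierstrassCurve.Affine

universe u

variable {k : Type u} [Field k]

/-- the curve `y² + x y = x³ + a x² + b` over `k(X)` -/
noncomputable def gcurve (a b : RatFunc k) : Affine (RatFunc k) := ⟨1, a, 0, 0, b⟩

variable [Finite k] [CharP k 2]

theorem kap_gcurve (a b : RatFunc k) : kap basisX (gcurve a b) = basisX.C b := by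
  have h1 : Dd (gcurve a b) = b := by unfold Dd gcurve; ring
  unfold kap
  rw [h1]
  unfold gcurve
  ring

theorem hk_gcurve (a : RatFunc k) {b : RatFunc k} (hκ : basisX.C b ≠ 0) :
    (gcurve a b).a₁ * kap basisX (gcurve a b) ≠ 0 := by
  rw [kap_gcurve]
  change (1 : RatFunc k) * _ ≠ 0
  rwa [one_mul]

/-- descent value of a point -/
noncomputable abbrev gdv (a : RatFunc k) {b : RatFunc k} (hκ : basisX.C b ≠ 0) :
    Pts (gcurve a b) (Ks (RatFunc k)) →+ Ks (RatFunc k) :=
  cExt basisX (gcurve a b) (hk_gcurve a hκ) _ (sepK basisX)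

/-- the class in `K / ℘(K)` attached to a value of the descent map -/
noncomputable def ucl (b Z : RatFunc k) : RatFunc k :=
  Z * (basisX.E b + RatFunc.X * Z) / basisX.C b ^ 2

/-- the image of a rational function in a completion -/
noncomputable abbrev rc (v : AbsoluteValue (RatFunc k) ℝ) (f : RatFunc k) : v.Completion :=
  algebraMap (RatFunc k) v.Completion f

omit [Finite k] [CharP k 2] in
theorem norm_rc (v : AbsoluteValue (RatFunc k) ℝ) (f : RatFunc k) :
    ‖rc v f‖ = v f := GoodPlace.norm_algebraMap _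

/-- the local data of a Selmer class -/
def GD (v : AbsoluteValue (RatFunc k) ℝ)
    (hF : TwoBasis (algebraMap (RatFunc k) v.Completion RatFunc.X)) (a b Z : RatFunc k) : Prop :=
  ∃ x w₁ w₂ : v.Completion, x ≠ 0 ∧ w₂ ^ 2 + w₂ = x + rc v a + rc v b / x ^ 2 ∧
    w₁ ^ 2 + w₁ = x + rc v a + rc v (ucl b Z) ∧
    rc v Z ^ 2 = rc v (basisX.C b) ^ 4 / x ^ 2 + rc v (basisX.C b) ^ 2 * (hF.D x / x)
      + rc v b * (hF.D x / x) ^ 2

variable {a b : RatFunc k}

theorem gsel_local (hκ : basisX.C b ≠ 0) (P : Pts (gcurve a b) (Ks (RatFunc k)))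
    {Z : RatFunc k} (hZ : algebraMap (RatFunc k) (Ks (RatFunc k)) Z = gdv a hκ P)
    (v : AbsoluteValue (RatFunc k) ℝ) (hP : LocallyRational 2 P v)
    (hF : TwoBasis (algebraMap (RatFunc k) v.Completion RatFunc.X)) :
    Z = 0 ∨ GD v hF a b Z := by
  classical
  obtain ⟨Q, hQ⟩ := exists_local' basisX (gcurve a b) (hk_gcurve a hκ) P hZ v hP hF
  rcases Q with _ | ⟨x, y, hxy⟩
  · left
    have h1 : algebraMap (RatFunc k) v.Completion Z = 0 := by
      rw [hQ]; rfl
    rwa [map_eq_zero] at h1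
  · right
    have hL := hF.charP
    have hCb : hF.C (rc v b) = rc v (basisX.C b) :=
      (basisX.map_C hF (algebraMap (RatFunc k) v.Completion) rfl _).symm
    have hEb : hF.E (rc v b) = rc v (basisX.E b) :=
      (basisX.map_E hF (algebraMap (RatFunc k) v.Completion) rfl _).symm
    have hW1 : ((gcurve a b)⁄v.Completion).a₁ = 1 := by
      change algebraMap _ _ (1 : RatFunc k) = 1
      rw [map_one]
    have hW2 : ((gcurve a b)⁄v.Completion).a₂ = rc v a := rfl
    have hW3 : ((gcurve a b)⁄v.Completion).a₃ = 0 := by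
      change algebraMap _ _ (0 : RatFunc k) = 0
      rw [map_zero]
    have hW4 : ((gcurve a b)⁄v.Completion).a₄ = 0 := by
      change algebraMap _ _ (0 : RatFunc k) = 0
      rw [map_zero]
    have hW6 : ((gcurve a b)⁄v.Completion).a₆ = rc v b := rfl
    have hκv : rc v (basisX.C b) ≠ 0 := by
      unfold rc
      rwa [Ne, map_eq_zero]
    obtain ⟨hx, ⟨w₂, hw₂⟩, ⟨V', hV'⟩, hcf⟩ := pt_eqs hF hW1 hW3 hW4 (by rw [hW6, hCb]; exact hκv)
      hxy.1
    have hZc : cf hF ((gcurve a b)⁄v.Completion) x = rc v Z := by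
      have : rc v Z = cExt basisX (gcurve a b) (hk_gcurve a hκ) v.Completion hF
        (.some x y hxy) := hQ
      rw [this]; rfl
    rw [hW2, hW6] at hw₂
    rw [hW2, hW6, hCb, hEb, hZc] at hV'
    rw [hW6, hCb, hZc] at hcf
    refine ⟨x, V' / rc v (basisX.C b), w₂, hx, hw₂, ?_, hcf⟩
    have hu : rc v (ucl b Z) = rc v Z * (rc v (basisX.E b)
        + algebraMap (RatFunc k) v.Completion RatFunc.X * rc v Z) / rc v (basisX.C b) ^ 2 := by
      unfold ucl rc
      simp only [map_div₀, map_mul, map_add, map_pow]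
    rw [hu, ← hV']
    set κ := rc v (basisX.C b) with hκd
    field_simp
    grind

open scoped Classical in
/-- integrality of the values -/
theorem gsel_int (hκ : basisX.C b ≠ 0) (P : Pts (gcurve a b) (Ks (RatFunc k)))
    {Z : RatFunc k} (hZ : algebraMap (RatFunc k) (Ks (RatFunc k)) Z = gdv a hκ P)
    (p : HeightOneSpectrum k[X]) (hP : LocallyRational 2 P (finAbv p))
    (ha : finAbv p a ≤ 1) (hb : finAbv p b ≤ 1) : finAbv p Z ≤ 1 := by
  have g := finAbv_good p
  obtain ⟨Q, hQ⟩ := exists_local' basisX (gcurve a b) (hk_gcurve a hκ) P hZ (finAbv p) hP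
    g.comp_basis
  have hint : ∀ f : RatFunc k, finAbv p f ≤ 1 → algebraMap (RatFunc k) (finAbv p).Completion f
      ∈ (cval g).integer := by
    intro f hf
    rw [val_mem_iff g, GoodPlace.norm_algebraMap]
    exact hf
  have h1 : (1 : RatFunc k) = 1 := rfl
  have hone : finAbv p (1 : RatFunc k) ≤ 1 := by rw [map_one]
  have hzero : finAbv p (0 : RatFunc k) ≤ 1 := by rw [map_zero]; exact zero_le_one
  have hX : finAbv p (RatFunc.X : RatFunc k) ≤ 1 := by
    have := finAbv_poly p (X : k[X])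
    rwa [RatFunc.algebraMap_X] at this
  have h2 : LocOK g.comp_basis ((gcurve a b)⁄(finAbv p).Completion) (cval g)
      (cExt basisX (gcurve a b) (hk_gcurve a hκ) _ g.comp_basis Q) := by
    refine local_main g.comp_basis (stable_comp g)
      ⟨hint _ hone, hint _ ha, hint _ hzero, hint _ hzero, hint _ hb⟩ (hint _ hX) _ ?_ Q
    left
    apply NNReal.eq
    have h3 : ‖(((gcurve a b)⁄(finAbv p).Completion).a₁ : (finAbv p).Completion)‖
        = finAbv p (1 : RatFunc k) := GoodPlace.norm_algebraMap _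
    rw [cval_apply, coe_nnnorm, h3, map_one]
    rfl
  rw [← hQ] at h2
  obtain ⟨h3, -⟩ := h2
  rw [val_mem_iff g] at h3
  have h4 : (((gcurve a b)⁄(finAbv p).Completion).a₁ : (finAbv p).Completion) = 1 := by
    change algebraMap _ _ (1 : RatFunc k) = 1
    rw [map_one]
  rw [h4, div_one, GoodPlace.norm_algebraMap] at h3
  exact h3

end Pool.Agent.H2
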