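import Pool.Agent.H2.GFloc
import Pool.Agent.H2.ASFinal

/-!
# Twists with trivial Selmer groups: the criterion
-/

namespace Pool.Agent.H2

open Polynomial IsDedekindDomain WeierstrassCurve WeierstrassCurve.Affine

universe u

variable {k : Type u} [Field k]

theorem finAbv_unif {p : HeightOneSpectrum k[X]} {Q : k[X]} (hQ : Irreducible Q)
    (hp : p.asIdeal = Ideal.span {Q}) : finAbv p (algebraMap k[X] (RatFunc k) Q) = 2⁻¹ := by
  have h1 := finAbv_eq_pow hp (f := Q) (n := 1) (by simp) (by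
    intro h
    rw [pow_succ, pow_one] at h
    have h2 : Q ∣ 1 := (mul_dvd_mul_iff_left hQ.ne_zero).mp (by simpa using h)
    exact hQ.not_isUnit (isUnit_of_dvd_one h2))
  rw [h1]; norm_num

theorem NS_congr {p : HeightOneSpectrum k[X]} {r s : RatFunc k} (h : finAbv p (r - s) < 1) :
    NS p r ↔ NS p s := by
  unfold NS
  constructor
  · intro h1 z hz
    apply h1 z
    have e : z ^ 2 + z + r = (z ^ 2 + z + s) + (r - s) := by ring
    rw [e]
    exact lt_of_le_of_lt (finAbv_nonarch p _ _) (max_lt hz h)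
  · intro h1 z hz
    apply h1 z
    have e : z ^ 2 + z + s = (z ^ 2 + z + r) - (r - s) := by ring
    rw [e]
    exact lt_of_le_of_lt (fin_sub p _ _) (max_lt hz h)

theorem fin_sum_le {ι : Type*} (p : HeightOneSpectrum k[X]) (s : Finset ι) (f : ι → RatFunc k)
    (h : ∀ i ∈ s, finAbv p (f i) ≤ 1) : finAbv p (∑ i ∈ s, f i) ≤ 1 := by
  classical
  induction s using Finset.induction_on with
  | empty => rw [Finset.sum_empty, map_zero]; exact zero_le_one
  | insert i s hi ih =>
    rw [Finset.sum_insert hi]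
    exact (finAbv_nonarch p _ _).trans (max_le (h i (Finset.mem_insert_self _ _))
      (ih fun j hj => h j (Finset.mem_insert_of_mem hj)))

theorem fin_sum_lt {ι : Type*} (p : HeightOneSpectrum k[X]) (s : Finset ι) (f : ι → RatFunc k)
    (h : ∀ i ∈ s, finAbv p (f i) < 1) : finAbv p (∑ i ∈ s, f i) < 1 := by
  classical
  induction s using Finset.induction_on with
  | empty => rw [Finset.sum_empty, map_zero]; exact one_pos
  | insert i s hi ih =>
    rw [Finset.sum_insert hi]
    exact lt_of_le_of_lt (finAbv_nonarch p _ _) (max_lt (h i (Finset.mem_insert_self _ _))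
      (ih fun j hj => h j (Finset.mem_insert_of_mem hj)))

theorem inf_sum_lt {ι : Type*} (s : Finset ι) (f : ι → RatFunc k)
    (h : ∀ i ∈ s, infAbv k (f i) < 1) : infAbv k (∑ i ∈ s, f i) < 1 := by
  classical
  induction s using Finset.induction_on with
  | empty => rw [Finset.sum_empty, map_zero]; exact one_pos
  | insert i s hi ih =>
    rw [Finset.sum_insert hi]
    exact lt_of_le_of_lt (infAbv_nonarch _ _) (max_lt (h i (Finset.mem_insert_self _ _))
      (ih fun j hj => h j (Finset.mem_insert_of_mem hj)))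

variable [Finite k] [CharP k 2]

/-- the logarithmic differential of `f` -/
noncomputable def om (f : RatFunc k) : RatFunc k := basisX.C f ^ 2 / f

theorem om_cartier {f : RatFunc k} (hf : f ≠ 0) :
    om f = (basisX.E f * basisX.C f / f) ^ 2 + RatFunc.X * om f ^ 2 := by
  have h1 := basisX.spec f
  unfold om
  set e := basisX.E f
  set c := basisX.C f
  field_simp
  linear_combination (c ^ 2) * h1

theorem om_reg {b : RatFunc k} {p : HeightOneSpectrum k[X]} (hb : finAbv p b = 1) :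
    finAbv p (om b) ≤ 1 := by
  have h1 := (finAbv_star p (basisX.E b) (basisX.C b) (by rw [basisX.spec', hb])).2
  unfold om
  rw [map_div₀, map_pow, hb, div_one]
  exact pow_le_one₀ ((finAbv p).nonneg _) h1

/-- two logarithmic differentials with a pole at `p` have the same polar part -/
theorem cart_two {ℓ e ℓ' e' : RatFunc k} (h : ℓ = e ^ 2 + RatFunc.X * ℓ ^ 2)
    (h' : ℓ' = e' ^ 2 + RatFunc.X * ℓ' ^ 2) (p : HeightOneSpectrum k[X])
    (hp : ¬ finAbv p ℓ ≤ 1) (hp' : ¬ finAbv p ℓ' ≤ 1) : finAbv p (ℓ + ℓ') ≤ 1 := by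
  have hK2 : CharP (RatFunc k) 2 := basisX.charP
  obtain ⟨Q, hQm, hQi, hpQ⟩ := monic_gen p
  set q := algebraMap k[X] (RatFunc k) Q with hq
  have hq0 : q ≠ 0 := by rw [hq, Ne, FaithfulSMul.algebraMap_eq_zero_iff]; exact hQi.ne_zero
  have hvq : finAbv p q = 2⁻¹ := finAbv_unif hQi hpQ
  have key : ∀ ℓ e : RatFunc k, ℓ = e ^ 2 + RatFunc.X * ℓ ^ 2 → ¬ finAbv p ℓ ≤ 1 →
      finAbv p (q * ℓ + basisX.D q) < 1 := by
    intro ℓ e h hp
    have h1 : finAbv p (q * ℓ) ≤ 1 := by
      rw [map_mul, hvq]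
      have := pole_le h p
      linarith
    have h2 : finAbv p (basisX.D (q * ℓ)) ≤ 1 := by
      have h3 := (finAbv_star p (basisX.E (q * ℓ)) (basisX.C (q * ℓ)) (by
        rw [basisX.spec']; exact h1)).2
      unfold TwoBasis.D
      rw [map_pow]
      exact pow_le_one₀ ((finAbv p).nonneg _) h3
    have h3 : basisX.D (q * (q * ℓ)) = (q * ℓ) ^ 2 := by
      have e1 : q * (q * ℓ) = (q * e) ^ 2 + (q * ℓ) ^ 2 * RatFunc.X := by
        linear_combination (q ^ 2) * h
      have e2 : basisX.D (RatFunc.X : RatFunc k) = 1 := by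
        unfold TwoBasis.D; rw [basisX.C_tau, one_pow]
      rw [e1, basisX.D_add, basisX.D_sq, basisX.D_sq_mul, e2]
      ring
    rw [basisX.D_mul] at h3
    have h4 : (q * ℓ) * (q * ℓ + basisX.D q) = q * basisX.D (q * ℓ) := by
      linear_combination (-1 : RatFunc k) * h3
        + (q * ℓ * basisX.D q) * (CharTwo.two_eq_zero : (2 : RatFunc k) = 0)
    have h5 : finAbv p (q * ℓ) * finAbv p (q * ℓ + basisX.D q) < 1 := by
      rw [← map_mul, h4, map_mul, hvq]
      linarith
    have h6 : ¬ finAbv p (q * ℓ) < 1 := by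
      intro h7
      apply hp
      have h8 := fin_half h7
      rw [map_mul, hvq] at h8
      linarith
    rw [not_lt] at h6
    have h7 := (finAbv p).nonneg (q * ℓ + basisX.D q)
    nlinarith
  have h1 := key ℓ e h hp
  have h2 := key ℓ' e' h' hp'
  have h3 : finAbv p (q * (ℓ + ℓ')) < 1 := by
    have e1 : q * (ℓ + ℓ') = (q * ℓ + basisX.D q) - (q * ℓ' + basisX.D q) := by
      linear_combination (q * ℓ') * (CharTwo.two_eq_zero : (2 : RatFunc k) = 0)
    rw [e1]
    exact lt_of_le_of_lt (fin_sub p _ _) (max_lt h1 h2)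
  have h4 := fin_half h3
  rw [map_mul, hvq] at h4
  linarith

/-- the product of a polar function and a logarithmic differential has no residue -/
theorem rs_polar_log {p : HeightOneSpectrum k[X]} {f ℓ e : RatFunc k} (hf : Polar p f)
    (hℓ : ℓ = e ^ 2 + RatFunc.X * ℓ ^ 2)
    (h : ∀ q : HeightOneSpectrum k[X], q ≠ p → finAbv q f < 1 ∨ finAbv q ℓ ≤ 1) :
    rs p (f * ℓ) = 0 := by
  have hi := pole_inf hℓ
  have hf0 := (infAbv k).nonneg f
  have hl0 := (infAbv k).nonneg ℓ
  have h2 : infAbv k (RatFunc.X * (f * ℓ)) < 1 := by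
    rw [infX, map_mul]
    have := hf.2
    nlinarith
  apply rs_polar p _ h2
  refine ⟨fun q hq => ?_, ?_⟩
  · rw [map_mul]
    have h3 := (finAbv q).nonneg f
    have h4 := (finAbv q).nonneg ℓ
    rcases h q hq with h1 | h1
    · have := fin_half h1
      have := pole_le hℓ q
      nlinarith
    · exact mul_le_one₀ (hf.1 q hq) h4 h1
  · rw [infX] at h2
    have := (infAbv k).nonneg (f * ℓ)
    linarith

/-- a twist with trivial Selmer groups -/
structure GoodTwist (S : Finset (HeightOneSpectrum k[X])) (p₀ : HeightOneSpectrum k[X])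
    (b A : RatFunc k) (α : HeightOneSpectrum k[X] → RatFunc k) : Prop where
  mem : p₀ ∈ S
  pole : ¬ finAbv p₀ (om b) ≤ 1
  bS : ∀ p, p ∉ S → finAbv p b = 1
  A_int : ∀ p, finAbv p A ≤ 1
  A_odd : ∃ m : ℕ, Odd m ∧ infAbv k A = (2 : ℝ) ^ (m : ℤ)
  A_big : infAbv k b < infAbv k A
  pol : ∀ p ∈ S, Polar p (α p)
  pol_odd : ∀ p ∈ S, ∃ m : ℕ, Odd m ∧ finAbv p (α p) = (2 : ℝ) ^ (m : ℤ)
  pol_big : ∀ p ∈ S, finAbv p b < finAbv p (α p)
  small : ∀ p ∈ S, ∀ q ∈ S, q ≠ p → q ≠ p₀ → finAbv q (α p) < 1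
  nsA : ∀ p ∈ S, p ≠ p₀ → NS p A
  nsp : ∀ p ∈ S, p ≠ p₀ → (NS p₀ (α p) ↔ ¬ finAbv p (om b) ≤ 1)
  ns0 : ∀ [DecidableEq (HeightOneSpectrum k[X])], NS p₀ (A + ∑ q ∈ S.erase p₀, α q)

namespace GoodTwist

variable {S : Finset (HeightOneSpectrum k[X])} {p₀ : HeightOneSpectrum k[X]} {b A : RatFunc k}
  {α : HeightOneSpectrum k[X] → RatFunc k} (G : GoodTwist S p₀ b A α)
include G

/-- the regular part of `a` at `p` -/
theorem split_at [DecidableEq (HeightOneSpectrum k[X])] {p : HeightOneSpectrum k[X]} (hp : p ∈ S) :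
    A + ∑ q ∈ S, α q = α p + (A + ∑ q ∈ S.erase p, α q) := by
  rw [← Finset.add_sum_erase S α hp]; ring

theorem reg_at [DecidableEq (HeightOneSpectrum k[X])] (p : HeightOneSpectrum k[X]) :
    finAbv p (A + ∑ q ∈ S.erase p, α q) ≤ 1 := by
  refine (finAbv_nonarch p _ _).trans (max_le (G.A_int p) (fin_sum_le p _ _ fun q hq => ?_))
  exact (G.pol q (Finset.mem_of_mem_erase hq)).1 p (Finset.ne_of_mem_erase hq).symm

theorem ns_at [DecidableEq (HeightOneSpectrum k[X])] {p : HeightOneSpectrum k[X]} (hp : p ∈ S) :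
    NS p (A + ∑ q ∈ S.erase p, α q) := by
  by_cases h0 : p = p₀
  · rw [h0]; exact G.ns0
  · rw [NS_congr (s := A)]
    · exact G.nsA p hp h0
    · rw [add_sub_cancel_left]
      exact fin_sum_lt p _ _ fun q hq =>
        G.small q (Finset.mem_of_mem_erase hq) p hp (Finset.ne_of_mem_erase hq).symm h0

theorem b_ne : b ≠ 0 := by
  rintro rfl
  apply G.pole
  unfold om
  rw [div_zero, map_zero]; exact zero_le_one

theorem abs_at [DecidableEq (HeightOneSpectrum k[X])] {p : HeightOneSpectrum k[X]} (hp : p ∈ S) :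
    ∃ m : ℕ, Odd m ∧ finAbv p (A + ∑ q ∈ S, α q) = (2 : ℝ) ^ (m : ℤ) ∧
      finAbv p b < finAbv p (A + ∑ q ∈ S, α q) := by
  obtain ⟨m, hm, h1⟩ := G.pol_odd p hp
  have h2 : finAbv p (A + ∑ q ∈ S, α q) = finAbv p (α p) := by
    rw [G.split_at hp]
    have h3 := G.reg_at p
    have h4 : (1 : ℝ) < finAbv p (α p) := by
      rw [h1]; exact one_lt_zpow₀ (by norm_num) (by have := hm.pos; omega)
    apply le_antisymm
    · exact (finAbv_nonarch p _ _).trans (max_le le_rfl (h3.trans h4.le))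
    · by_contra hlt
      rw [not_le] at hlt
      have e : α p = (α p + (A + ∑ q ∈ S.erase p, α q)) - (A + ∑ q ∈ S.erase p, α q) := by ring
      have h5 := fin_sub p (α p + (A + ∑ q ∈ S.erase p, α q)) (A + ∑ q ∈ S.erase p, α q)
      rw [← e] at h5
      rcases le_max_iff.mp h5 with h6 | h6 <;> linarith
  exact ⟨m, hm, by rw [h2, h1], by rw [h2]; exact G.pol_big p hp⟩

theorem abs_inf : ∃ m : ℕ, Odd m ∧ infAbv k (A + ∑ q ∈ S, α q) = (2 : ℝ) ^ (m : ℤ) ∧
      infAbv k b < infAbv k (A + ∑ q ∈ S, α q) := by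
  obtain ⟨m, hm, h1⟩ := G.A_odd
  have h3 : infAbv k (∑ q ∈ S, α q) < 1 := inf_sum_lt _ _ fun q hq => (G.pol q hq).2
  have h4 : (1 : ℝ) < infAbv k A := by
    rw [h1]; exact one_lt_zpow₀ (by norm_num) (by have := hm.pos; omega)
  have h2 : infAbv k (A + ∑ q ∈ S, α q) = infAbv k A := by
    rw [add_comm]; exact infAbv_add_of_lt (h3.trans h4)
  exact ⟨m, hm, by rw [h2, h1], by rw [h2]; exact G.A_big⟩

/-- the residue of `a ω` at `p₀` -/
theorem res_zero [DecidableEq (HeightOneSpectrum k[X])] :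
    ¬ InP (rs p₀ ((A + ∑ q ∈ S, α q) * om b)) := by
  have hω := om_cartier G.b_ne
  rw [G.split_at G.mem, add_mul, rs_add, rs_polar_log (G.pol p₀ G.mem) hω, zero_add]
  · exact rs_nonsplit p₀ hω (G.reg_at p₀) (G.ns_at G.mem) G.pole
  · intro q hq
    by_cases hqS : q ∈ S
    · exact Or.inl (G.small p₀ G.mem q hqS hq hq)
    · exact Or.inr (om_reg (G.bS q hqS))

/-- the residues of `a ω` at the other places -/
theorem res_other [DecidableEq (HeightOneSpectrum k[X])] {p : HeightOneSpectrum k[X]} (hp : p ∈ S)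
    (h0 : p ≠ p₀) : InP (rs p ((A + ∑ q ∈ S, α q) * om b)) := by
  have hω := om_cartier G.b_ne
  have hi := pole_inf hω
  rw [G.split_at hp, add_mul, rs_add, InP_add]
  have h1 : rs p (α p * om b) + rs p₀ (α p * om b) = 0 := by
    apply rs_two p h0
    · intro r hr hr0
      rw [map_mul]
      have h3 := (finAbv r).nonneg (α p)
      have h4 := (finAbv r).nonneg (om b)
      by_cases hrS : r ∈ S
      · have h5 := fin_half (G.small p hp r hrS hr hr0)
        have h6 := pole_le hω r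
        nlinarith
      · exact mul_le_one₀ ((G.pol p hp).1 r hr) h4 (om_reg (G.bS r hrS))
    · rw [infX, map_mul]
      have h3 := (infAbv k).nonneg (α p)
      have h4 := (infAbv k).nonneg (om b)
      have h5 := (G.pol p hp).2
      nlinarith
  have h2 : rs p (α p * om b) = rs p₀ (α p * om b) := CharTwo.add_eq_zero.mp h1
  rw [h2]
  have h3 : finAbv p₀ (α p) ≤ 1 := (G.pol p hp).1 p₀ h0.symm
  by_cases h4 : finAbv p (om b) ≤ 1
  · have h5 : ¬ NS p₀ (α p) := fun h => (G.nsp p hp h0).mp h h4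
    have h6 : rs p ((A + ∑ q ∈ S.erase p, α q) * om b) = 0 := by
      apply rs_reg
      rw [map_mul]
      exact mul_le_one₀ (G.reg_at p) ((finAbv p).nonneg _) h4
    rw [h6]
    exact iff_of_true (rs_split p₀ hω h5) InP.zero
  · have h5 : NS p₀ (α p) := (G.nsp p hp h0).mpr h4
    exact iff_of_false (rs_nonsplit p₀ hω h3 h5 G.pole) (rs_nonsplit p hω (G.reg_at p) (G.ns_at hp) h4)

end GoodTwist

end Pool.Agent.H2
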