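import Pool.Agent.H2.GParts

/-!
# The matrix of a twist
-/

namespace Pool.Agent.H2

open Polynomial IsDedekindDomain WeierstrassCurve WeierstrassCurve.Affine

universe u

variable {k : Type u} [Field k]

theorem zmod_cases (c : ZMod 2) : c = 0 ∨ c = 1 := by
  revert c; decide

open scoped Classical in
/-- the class of `r` in `O_p / (𝔪_p + ℘(O_p))` -/
noncomputable def TT (p : HeightOneSpectrum k[X]) (r : RatFunc k) : ZMod 2 :=
  if NS p r then 1 else 0

open scoped Classical in
/-- the class of `x` in `k / ℘(k)` -/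
noncomputable def tt (x : k) : ZMod 2 := if InP x then 0 else 1

/-- the embedding of `𝔽₂` -/
noncomputable def zt (c : ZMod 2) : RatFunc k := if c = 0 then 0 else 1

theorem zt_zero : zt (k := k) 0 = 0 := if_pos rfl
theorem zt_one : zt (k := k) 1 = 1 := if_neg one_ne_zero

theorem zt_cases (c : ZMod 2) : zt (k := k) c = 0 ∨ zt (k := k) c = 1 := by
  rcases zmod_cases c with rfl | rfl
  · exact Or.inl zt_zero
  · exact Or.inr zt_one

theorem TT_eq_zero {p : HeightOneSpectrum k[X]} {r : RatFunc k} : TT p r = 0 ↔ ¬ NS p r := by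
  unfold TT
  split_ifs with h
  · exact iff_of_false one_ne_zero (not_not.mpr h)
  · exact iff_of_true rfl h

theorem TT_eq_one {p : HeightOneSpectrum k[X]} {r : RatFunc k} : TT p r = 1 ↔ NS p r := by
  unfold TT
  split_ifs with h
  · exact iff_of_true rfl h
  · exact iff_of_false zero_ne_one h

theorem tt_eq_zero {x : k} : tt x = 0 ↔ InP x := by
  unfold tt
  split_ifs with h
  · exact iff_of_true rfl h
  · exact iff_of_false one_ne_zero h

open scoped Classical in
/-- the matrix of `a` -/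
noncomputable def Lam (S : Finset (HeightOneSpectrum k[X])) (a : RatFunc k) :
    Matrix S S (ZMod 2) :=
  fun p q => if p = q then TT p.1 (a - pp p.1 a) else TT p.1 (pp q.1 a)

open scoped Classical in
/-- the vector of the poles of `ℓ` -/
noncomputable def pl (S : Finset (HeightOneSpectrum k[X])) (ℓ : RatFunc k) : S → ZMod 2 :=
  fun p => if finAbv p.1 ℓ ≤ 1 then 0 else 1

theorem pl_eq_zero {S : Finset (HeightOneSpectrum k[X])} {ℓ : RatFunc k} {p : S} :
    pl S ℓ p = 0 ↔ finAbv p.1 ℓ ≤ 1 := by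
  unfold pl
  split_ifs with h
  · exact iff_of_true rfl h
  · exact iff_of_false one_ne_zero h

/-- the regular part at `p` of a polar function at another place -/
theorem pp_int {p q : HeightOneSpectrum k[X]} (h : p ≠ q) (a : RatFunc k) : finAbv p (pp q a) ≤ 1 :=
  (pp_polar q a).1 p h

variable [Finite k] [CharP k 2]

theorem zt_add (c d : ZMod 2) : zt (k := k) (c + d) = zt c + zt d := by
  have hK2 : CharP (RatFunc k) 2 := basisX.charP
  rcases zmod_cases c with rfl | rfl
  · rw [zero_add, zt_zero, zero_add]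
  · rcases zmod_cases d with rfl | rfl
    · rw [add_zero, zt_zero, add_zero]
    · rw [CharTwo.add_self_eq_zero, CharTwo.add_self_eq_zero, zt_zero]

theorem TT_add {p : HeightOneSpectrum k[X]} {r s : RatFunc k} (hr : finAbv p r ≤ 1)
    (hs : finAbv p s ≤ 1) : TT p (r + s) = TT p r + TT p s := by
  have h := NS_add p hr hs
  by_cases h1 : NS p r
  · by_cases h2 : NS p s
    · have h3 : ¬ NS p (r + s) := fun h3 => (h.mp h3).mp h1 h2
      rw [TT_eq_zero.mpr h3, TT_eq_one.mpr h1, TT_eq_one.mpr h2]; rfl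
    · have h3 : NS p (r + s) := h.mpr (iff_of_true h1 h2)
      rw [TT_eq_one.mpr h3, TT_eq_one.mpr h1, TT_eq_zero.mpr h2]; rfl
  · by_cases h2 : NS p s
    · have h3 : NS p (r + s) := h.mpr (iff_of_false h1 (not_not.mpr h2))
      rw [TT_eq_one.mpr h3, TT_eq_zero.mpr h1, TT_eq_one.mpr h2]; rfl
    · have h3 : ¬ NS p (r + s) := fun h3 => h1 ((h.mp h3).mpr h2)
      rw [TT_eq_zero.mpr h3, TT_eq_zero.mpr h1, TT_eq_zero.mpr h2]; rfl

theorem TT_zero (p : HeightOneSpectrum k[X]) : TT p (0 : RatFunc k) = 0 :=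
  TT_eq_zero.mpr (NS_small p (by rw [map_zero]; exact one_pos))

theorem TT_zt (p : HeightOneSpectrum k[X]) (c : ZMod 2) (r : RatFunc k) :
    TT p (zt c * r) = c * TT p r := by
  rcases zmod_cases c with rfl | rfl
  · rw [zt_zero, zero_mul, zero_mul, TT_zero]
  · rw [zt_one, one_mul, one_mul]

theorem TT_sum {ι : Type*} (p : HeightOneSpectrum k[X]) (s : Finset ι) (f : ι → RatFunc k)
    (h : ∀ i ∈ s, finAbv p (f i) ≤ 1) : TT p (∑ i ∈ s, f i) = ∑ i ∈ s, TT p (f i) := by
  classical
  induction s using Finset.induction_on with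
  | empty => rw [Finset.sum_empty, Finset.sum_empty, TT_zero]
  | insert i s hi ih =>
    rw [Finset.sum_insert hi, Finset.sum_insert hi, TT_add (h i (Finset.mem_insert_self _ _))
      (fin_sum_le p _ _ fun j hj => h j (Finset.mem_insert_of_mem hj)),
      ih fun j hj => h j (Finset.mem_insert_of_mem hj)]

theorem tt_add (x y : k) : tt (x + y) = tt x + tt y := by
  have h := InP_add x y
  by_cases h1 : InP x
  · by_cases h2 : InP y
    · rw [tt_eq_zero.mpr h1, tt_eq_zero.mpr h2, tt_eq_zero.mpr (h.mpr (iff_of_true h1 h2)), add_zero]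
    · have h3 : ¬ InP (x + y) := fun h3 => h2 ((h.mp h3).mp h1)
      unfold tt
      rw [if_neg h3, if_pos h1, if_neg h2, zero_add]
  · by_cases h2 : InP y
    · have h3 : ¬ InP (x + y) := fun h3 => h1 ((h.mp h3).mpr h2)
      unfold tt
      rw [if_neg h3, if_neg h1, if_pos h2, add_zero]
    · unfold tt
      rw [if_pos (h.mpr (iff_of_false h1 h2)), if_neg h1, if_neg h2]; rfl

theorem tt_zero : tt (0 : k) = 0 := tt_eq_zero.mpr InP.zero

theorem tt_rs_sum {ι : Type*} (p : HeightOneSpectrum k[X]) (s : Finset ι) (f : ι → RatFunc k) :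
    tt (rs p (∑ i ∈ s, f i)) = ∑ i ∈ s, tt (rs p (f i)) := by
  classical
  induction s using Finset.induction_on with
  | empty =>
    rw [Finset.sum_empty, Finset.sum_empty, rs_reg, tt_zero]
    rw [map_zero]; exact zero_le_one
  | insert i s hi ih =>
    rw [Finset.sum_insert hi, Finset.sum_insert hi, rs_add, tt_add, ih]

theorem Lam_add (S : Finset (HeightOneSpectrum k[X])) (a a' : RatFunc k) :
    Lam S (a + a') = Lam S a + Lam S a' := by
  ext p q
  rw [Matrix.add_apply]
  unfold Lam
  split_ifs with h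
  · rw [← TT_add (pp_reg p.1 a) (pp_reg p.1 a'), pp_add]
    congr 1; ring
  · have hpq : p.1 ≠ q.1 := fun h1 => h (Subtype.ext h1)
    rw [pp_add, TT_add (pp_int hpq a) (pp_int hpq a')]

/-- a pole of a logarithmic differential -/
theorem om_pole {f : RatFunc k} {p : HeightOneSpectrum k[X]} {n : ℤ}
    (hf : finAbv p f = (2 : ℝ) ^ n) (hn : ¬ Even n) : ¬ finAbv p (om f) ≤ 1 := by
  intro h
  have hf0 : f ≠ 0 := by
    rintro rfl
    rw [map_zero] at hf
    have : (0 : ℝ) < (2 : ℝ) ^ n := by positivity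
    linarith
  have hspec := basisX.spec f
  set δ := basisX.E f
  set κ := basisX.C f with hκ
  have hpos : 0 < finAbv p f := by rw [hf]; positivity
  have h1 : finAbv p κ ^ 2 ≤ finAbv p f := by
    unfold om at h
    rw [map_div₀, map_pow, div_le_one hpos] at h
    exact h
  have hpar : ∀ z : RatFunc k, z ≠ 0 → finAbv p z ^ 2 ≠ finAbv p f := by
    intro z hz h2
    obtain ⟨j, hj⟩ := finAbv_disc p z hz
    rw [hj, hf, ← zpow_natCast, ← zpow_mul] at h2
    have h3 := zpow_right_injective₀ (by norm_num : (0 : ℝ) < 2) (by norm_num) h2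
    apply hn
    rw [← h3]
    exact ⟨j, by push_cast; ring⟩
  have h2 : finAbv p κ ^ 2 < finAbv p f := by
    rcases eq_or_ne κ 0 with h0 | h0
    · rw [h0, map_zero, zero_pow two_ne_zero]; exact hpos
    · exact lt_of_le_of_ne h1 (hpar κ h0)
  have hX : finAbv p (RatFunc.X : RatFunc k) ≤ 1 := by
    have := finAbv_poly p (X : k[X])
    rwa [RatFunc.algebraMap_X] at this
  have h3 : finAbv p (RatFunc.X * κ ^ 2) < finAbv p f := by
    rw [map_mul, map_pow]
    have := (finAbv p).nonneg κ
    have : finAbv p (RatFunc.X : RatFunc k) * finAbv p κ ^ 2 ≤ 1 * finAbv p κ ^ 2 := by gcongr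
    linarith
  have h4 : finAbv p (δ ^ 2) = finAbv p f := by
    apply le_antisymm
    · have e : δ ^ 2 = f - RatFunc.X * κ ^ 2 := by rw [hspec]; ring
      rw [e]
      exact (fin_sub p _ _).trans (max_le le_rfl h3.le)
    · by_contra hlt
      rw [not_le] at hlt
      have e : f = δ ^ 2 + RatFunc.X * κ ^ 2 := hspec
      have h5 := finAbv_nonarch p (δ ^ 2) (RatFunc.X * κ ^ 2)
      rw [← e] at h5
      rcases le_max_iff.mp h5 with h6 | h6 <;> linarith
  rw [map_pow] at h4
  refine hpar δ ?_ h4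
  rintro h0
  rw [h0, map_zero, zero_pow two_ne_zero] at h4
  linarith

/-- the generator of a place -/
noncomputable def gQ (p : HeightOneSpectrum k[X]) : k[X] := (monic_gen p).choose

omit [Finite k] [CharP k 2] in
theorem gQ_monic (p : HeightOneSpectrum k[X]) : (gQ p).Monic := (monic_gen p).choose_spec.1
omit [Finite k] [CharP k 2] in
theorem gQ_irr (p : HeightOneSpectrum k[X]) : Irreducible (gQ p) := (monic_gen p).choose_spec.2.1
omit [Finite k] [CharP k 2] in
theorem gQ_span (p : HeightOneSpectrum k[X]) : p.asIdeal = Ideal.span {gQ p} :=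
  (monic_gen p).choose_spec.2.2

/-- the logarithmic differential with a pole at `p` only -/
noncomputable def dq (p : HeightOneSpectrum k[X]) : RatFunc k := om (algebraMap k[X] (RatFunc k) (gQ p))

theorem dq_cartier (p : HeightOneSpectrum k[X]) : ∃ e : RatFunc k, dq p = e ^ 2 + RatFunc.X * dq p ^ 2 :=
  ⟨_, om_cartier (by rw [Ne, FaithfulSMul.algebraMap_eq_zero_iff]; exact (gQ_irr p).ne_zero)⟩

theorem dq_reg {p q : HeightOneSpectrum k[X]} (h : q ≠ p) : finAbv q (dq p) ≤ 1 :=
  om_reg (finAbv_gen (gQ_span p) h)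

theorem dq_pole (p : HeightOneSpectrum k[X]) : ¬ finAbv p (dq p) ≤ 1 := by
  apply om_pole (n := -1)
  · rw [finAbv_unif (gQ_irr p) (gQ_span p)]; exact (zpow_neg_one 2).symm
  · decide

/-- residues against a logarithmic differential with a pole -/
theorem tt_rs (p : HeightOneSpectrum k[X]) {r ℓ e : RatFunc k} (hℓ : ℓ = e ^ 2 + RatFunc.X * ℓ ^ 2)
    (hr : finAbv p r ≤ 1) (hp : ¬ finAbv p ℓ ≤ 1) : tt (rs p (r * ℓ)) = TT p r := by
  by_cases h : NS p r
  · rw [TT_eq_one.mpr h]
    unfold tt
    rw [if_neg (rs_nonsplit p hℓ hr h hp)]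
  · rw [TT_eq_zero.mpr h, tt_eq_zero]
    exact rs_split p hℓ h

/-- a logarithmic differential is determined by its poles -/
theorem log_expand (S : Finset (HeightOneSpectrum k[X])) {ℓ e : RatFunc k}
    (hℓ : ℓ = e ^ 2 + RatFunc.X * ℓ ^ 2) (hS : ∀ p, p ∉ S → finAbv p ℓ ≤ 1) :
    ℓ = ∑ q : S, zt (pl S ℓ q) * dq q.1 := by
  classical
  have hK2 : CharP (RatFunc k) 2 := basisX.charP
  have h0 : ℓ + ∑ q : S, zt (pl S ℓ q) * dq q.1 = 0 := by
    apply eq_zero_of_small
    · intro p
      by_cases hp : p ∈ S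
      · rw [← Finset.add_sum_erase _ _ (Finset.mem_univ (⟨p, hp⟩ : S)), ← add_assoc]
        refine (finAbv_nonarch p _ _).trans (max_le ?_ (fin_sum_le p _ _ fun q hq => ?_))
        · by_cases h1 : finAbv p ℓ ≤ 1
          · have h2 : pl S ℓ ⟨p, hp⟩ = 0 := pl_eq_zero.mpr h1
            rw [h2, zt_zero, zero_mul, add_zero]
            exact h1
          · have h2 : pl S ℓ ⟨p, hp⟩ = 1 := by
              rcases zmod_cases (pl S ℓ ⟨p, hp⟩) with h3 | h3
              · exact absurd (pl_eq_zero.mp h3) h1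
              · exact h3
            rw [h2, zt_one, one_mul]
            obtain ⟨e', he'⟩ := dq_cartier p
            exact cart_two hℓ he' p h1 (dq_pole p)
        · rw [map_mul]
          have hqp : p ≠ q.1 := by
            rintro h1
            exact (Finset.ne_of_mem_erase hq) (Subtype.ext h1.symm)
          exact mul_le_one₀ (zero_one (zt_cases _) p) ((finAbv p).nonneg _) (dq_reg hqp)
      · refine (finAbv_nonarch p _ _).trans (max_le (hS p hp) (fin_sum_le p _ _ fun q hq => ?_))
        rw [map_mul]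
        have hqp : p ≠ q.1 := by rintro rfl; exact hp q.2
        exact mul_le_one₀ (zero_one (zt_cases _) p) ((finAbv p).nonneg _) (dq_reg hqp)
    · refine lt_of_le_of_lt (infAbv_nonarch _ _) (max_lt ?_ (inf_sum_lt _ _ fun q hq => ?_))
      · have h1 := pole_inf hℓ
        have h2 := (infAbv k).nonneg ℓ
        linarith
      · rw [map_mul]
        obtain ⟨e', he'⟩ := dq_cartier q.1
        have h1 := pole_inf he'
        have h2 := (infAbv k).nonneg (dq q.1)
        have h3 := zero_one_inf (zt_cases (k := k) (pl S ℓ q))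
        have h4 := (infAbv k).nonneg (zt (pl S ℓ q))
        nlinarith
  exact CharTwo.add_eq_zero.mp h0

/-- the entries of the matrix as residues -/
theorem res_entry (S : Finset (HeightOneSpectrum k[X])) (a : RatFunc k) (p q : S) :
    tt (rs p.1 (a * dq q.1)) = Lam S a q p := by
  classical
  obtain ⟨e, he⟩ := dq_cartier q.1
  have hsplit : a * dq q.1 = pp p.1 a * dq q.1 + (a - pp p.1 a) * dq q.1 := by ring
  rw [hsplit, rs_add, tt_add]
  unfold Lam
  split_ifs with h
  · subst h
    rw [rs_polar_log (pp_polar q.1 a) he (fun r hr => Or.inr (dq_reg hr)), tt_zero, zero_add]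
    exact tt_rs q.1 he (pp_reg q.1 a) (dq_pole q.1)
  · have hpq : q.1 ≠ p.1 := fun h1 => h (Subtype.ext h1)
    have h1 : rs p.1 ((a - pp p.1 a) * dq q.1) = 0 := by
      apply rs_reg
      rw [map_mul]
      exact mul_le_one₀ (pp_reg p.1 a) ((finAbv p.1).nonneg _) (dq_reg hpq.symm)
    rw [h1, tt_zero, add_zero]
    have h2 : rs p.1 (pp p.1 a * dq q.1) + rs q.1 (pp p.1 a * dq q.1) = 0 := by
      apply rs_two p.1 hpq.symm
      · intro r hr hr'
        rw [map_mul]
        exact mul_le_one₀ (pp_int hr a) ((finAbv r).nonneg _) (dq_reg hr')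
      · rw [infX, map_mul]
        have h3 := (infAbv k).nonneg (pp p.1 a)
        have h4 := (infAbv k).nonneg (dq q.1)
        have h5 := (pp_polar p.1 a).2
        have h6 := pole_inf he
        nlinarith
    have h3 : rs p.1 (pp p.1 a * dq q.1) = rs q.1 (pp p.1 a * dq q.1) := CharTwo.add_eq_zero.mp h2
    rw [h3]
    exact tt_rs q.1 he (pp_int hpq a) (dq_pole q.1)

/-- residues of `a ℓ` -/
theorem res_formula (S : Finset (HeightOneSpectrum k[X])) (a : RatFunc k) {ℓ e : RatFunc k}
    (hℓ : ℓ = e ^ 2 + RatFunc.X * ℓ ^ 2) (hS : ∀ p, p ∉ S → finAbv p ℓ ≤ 1) (p : S) :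
    tt (rs p.1 (a * ℓ)) = (Matrix.vecMul (pl S ℓ) (Lam S a)) p := by
  classical
  have h1 := log_expand S hℓ hS
  conv_lhs => rw [h1, Finset.mul_sum]
  rw [tt_rs_sum]
  unfold Matrix.vecMul dotProduct
  apply Finset.sum_congr rfl
  intro q _
  change tt (rs p.1 (a * (zt (pl S ℓ q) * dq q.1))) = pl S ℓ q * Lam S a q p
  rw [← res_entry]
  rcases zmod_cases (pl S ℓ q) with h2 | h2
  · rw [h2, zt_zero, zero_mul, mul_zero, zero_mul, rs_reg, tt_zero]
    rw [map_zero]; exact zero_le_one
  · rw [h2, zt_one, one_mul, one_mul]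

end Pool.Agent.H2
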