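import Pool.Agent.H2.GMain

/-!
# Twists with trivial Selmer groups: the proof
-/

namespace Pool.Agent.H2

open Polynomial IsDedekindDomain WeierstrassCurve WeierstrassCurve.Affine

universe u

variable {k : Type u} [Field k] [Finite k] [CharP k 2]

theorem zero_one {ε : RatFunc k} (h : ε = 0 ∨ ε = 1) (p : HeightOneSpectrum k[X]) :
    finAbv p ε ≤ 1 := by
  rcases h with rfl | rfl
  · rw [map_zero]; exact zero_le_one
  · rw [map_one]

theorem zero_one_inf {ε : RatFunc k} (h : ε = 0 ∨ ε = 1) : infAbv k ε ≤ 1 := by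
  rcases h with rfl | rfl
  · rw [map_zero]; exact zero_le_one
  · rw [map_one]

theorem zero_one_add {ε η : RatFunc k} (h : ε = 0 ∨ ε = 1) (h' : η = 0 ∨ η = 1) :
    ε + η = 0 ∨ ε + η = 1 := by
  have hK2 : CharP (RatFunc k) 2 := basisX.charP
  rcases h with rfl | rfl <;> rcases h' with rfl | rfl
  · left; ring
  · right; ring
  · right; ring
  · left; exact CharTwo.add_self_eq_zero _

namespace GoodTwist

variable {S : Finset (HeightOneSpectrum k[X])} {p₀ : HeightOneSpectrum k[X]} {b A : RatFunc k}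
  {α : HeightOneSpectrum k[X] → RatFunc k} (G : GoodTwist S p₀ b A α)
include G

/-- the class in `K / ℘(K)` of a Selmer element is trivial -/
theorem v_part {u : RatFunc k} (h1 : ∀ p, p ∉ S → ∃ z : RatFunc k, finAbv p (z ^ 2 + z + u) ≤ 1)
    (h2 : ∀ p ∈ S, ∃ ε : RatFunc k, (ε = 0 ∨ ε = 1) ∧ ∃ z : RatFunc k,
      finAbv p (z ^ 2 + z + (u + ε * (A + ∑ q ∈ S, α q))) < 1)
    (h3 : ∃ ε : RatFunc k, (ε = 0 ∨ ε = 1) ∧ ∃ z : RatFunc k,
      infAbv k (z ^ 2 + z + (u + ε * (A + ∑ q ∈ S, α q))) < 1)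
    (h4 : ∃ s r : RatFunc k, u * om b = s ^ 2 + (r ^ 2 + r) * om b) :
    ∃ g : RatFunc k, g ^ 2 + g = u := by
  classical
  have hK2 : CharP (RatFunc k) 2 := basisX.charP
  have h2' : ∀ p, ∃ ε : RatFunc k, (ε = 0 ∨ ε = 1) ∧ (p ∈ S → ∃ z : RatFunc k,
      finAbv p (z ^ 2 + z + (u + ε * (A + ∑ q ∈ S, α q))) < 1) := by
    intro p
    by_cases hp : p ∈ S
    · obtain ⟨ε, hε, h⟩ := h2 p hp
      exact ⟨ε, hε, fun _ => h⟩
    · exact ⟨0, Or.inl rfl, fun h => absurd h hp⟩
  choose ε hε hεz using h2'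
  obtain ⟨η, hη, zη, hzη⟩ := h3
  -- the brackets
  have hbr : ∀ δ : RatFunc k, (∑ q ∈ S, (ε q + δ) * α q) + (η + δ) * A
      = (∑ q ∈ S, ε q * α q + η * A) + δ * (A + ∑ q ∈ S, α q) := by
    intro δ
    have : ∑ q ∈ S, (ε q + δ) * α q = ∑ q ∈ S, ε q * α q + δ * ∑ q ∈ S, α q := by
      rw [Finset.mul_sum, ← Finset.sum_add_distrib]
      exact Finset.sum_congr rfl fun q _ => by ring
    rw [this]; ring
  have hbr' : ∀ (δ z : RatFunc k), z ^ 2 + z + (u + (∑ q ∈ S, ε q * α q + η * A))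
      = (z ^ 2 + z + (u + δ * (A + ∑ q ∈ S, α q)))
        + ((∑ q ∈ S, (ε q + δ) * α q) + (η + δ) * A) := by
    intro δ z
    rw [hbr]
    linear_combination (-(δ * (A + ∑ q ∈ S, α q))) * (CharTwo.two_eq_zero : (2 : RatFunc k) = 0)
  have hself : ∀ x : RatFunc k, x + x = 0 := CharTwo.add_self_eq_zero
  have hint : ∀ p, p ∈ S → finAbv p ((∑ q ∈ S, (ε q + ε p) * α q) + (η + ε p) * A) ≤ 1 := by
    intro p hp
    refine (finAbv_nonarch p _ _).trans (max_le (fin_sum_le p _ _ fun q hq => ?_) ?_)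
    · by_cases hqp : q = p
      · rw [hqp, hself, zero_mul, map_zero]; exact zero_le_one
      · rw [map_mul]
        exact mul_le_one₀ (zero_one (zero_one_add (hε q) (hε p)) p) ((finAbv p).nonneg _)
          ((G.pol q hq).1 p (Ne.symm hqp))
    · rw [map_mul]
      exact mul_le_one₀ (zero_one (zero_one_add hη (hε p)) p) ((finAbv p).nonneg _) (G.A_int p)
  obtain ⟨g, hg⟩ : ∃ g : RatFunc k, g ^ 2 + g = u + (∑ q ∈ S, ε q * α q + η * A) := by
    apply as_global
    · intro p
      by_cases hp : p ∈ S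
      · obtain ⟨z, hz⟩ := hεz p hp
        refine ⟨z, ?_⟩
        rw [hbr' (ε p) z]
        exact (finAbv_nonarch p _ _).trans (max_le hz.le (hint p hp))
      · obtain ⟨z, hz⟩ := h1 p hp
        refine ⟨z, ?_⟩
        rw [← add_assoc]
        refine (finAbv_nonarch p _ _).trans (max_le hz ((finAbv_nonarch p _ _).trans
          (max_le (fin_sum_le p _ _ fun q hq => ?_) ?_)))
        · rw [map_mul]
          exact mul_le_one₀ (zero_one (hε q) p) ((finAbv p).nonneg _)
            ((G.pol q hq).1 p (by rintro rfl; exact hp hq))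
        · rw [map_mul]
          exact mul_le_one₀ (zero_one hη p) ((finAbv p).nonneg _) (G.A_int p)
    · refine ⟨zη, ?_⟩
      rw [hbr' η zη, hself, zero_mul, add_zero]
      refine lt_of_le_of_lt (infAbv_nonarch _ _) (max_lt hzη (inf_sum_lt _ _ fun q hq => ?_))
      rw [map_mul]
      have h5 := zero_one_inf (zero_one_add (hε q) hη)
      have h6 := (G.pol q hq).2
      have h7 := (infAbv k).nonneg (α q)
      have h8 := (infAbv k).nonneg (ε q + η)
      nlinarith
  -- the brackets are split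
  have hspl : ∀ p, p ∈ S → ¬ NS p ((∑ q ∈ S, (ε q + ε p) * α q) + (η + ε p) * A) := by
    intro p hp hns
    obtain ⟨z, hz⟩ := hεz p hp
    apply hns (z + g)
    have e : (z + g) ^ 2 + (z + g) + ((∑ q ∈ S, (ε q + ε p) * α q) + (η + ε p) * A)
        = z ^ 2 + z + (u + ε p * (A + ∑ q ∈ S, α q)) := by
      rw [wp_add, hg, hbr]
      linear_combination (∑ q ∈ S, ε q * α q + η * A) * (CharTwo.two_eq_zero : (2 : RatFunc k) = 0)
    rw [e]
    exact hz
  -- all the `ε` are equal
  have heq : ∀ p ∈ S, p ≠ p₀ → ε p = η := by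
    intro p hp h0
    by_contra hne
    have h5 : η + ε p = 1 := by
      rcases zero_one_add hη (hε p) with h6 | h6
      · exact absurd (CharTwo.add_eq_zero.mp h6).symm hne
      · exact h6
    apply hspl p hp
    rw [h5, one_mul, NS_congr (s := A)]
    · exact G.nsA p hp h0
    · rw [add_sub_cancel_right]
      apply fin_sum_lt
      intro q hq
      by_cases hqp : q = p
      · rw [hqp, hself, zero_mul, map_zero]; exact one_pos
      · rw [map_mul]
        have h6 := zero_one (zero_one_add (hε q) (hε p)) p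
        have h7 := G.small q hq p hp (Ne.symm hqp) h0
        have h8 := (finAbv p).nonneg (α q)
        have h9 := (finAbv p).nonneg (ε q + ε p)
        nlinarith
  have heq0 : ε p₀ = η := by
    by_contra hne
    have h5 : η + ε p₀ = 1 := by
      rcases zero_one_add hη (hε p₀) with h6 | h6
      · exact absurd (CharTwo.add_eq_zero.mp h6).symm hne
      · exact h6
    apply hspl p₀ G.mem
    have h6 : (∑ q ∈ S, (ε q + ε p₀) * α q) + (η + ε p₀) * A = A + ∑ q ∈ S.erase p₀, α q := by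
      rw [← Finset.add_sum_erase S _ G.mem, hself, zero_mul, zero_add, h5, one_mul, add_comm]
      congr 1
      apply Finset.sum_congr rfl
      intro q hq
      rw [heq q (Finset.mem_of_mem_erase hq) (Finset.ne_of_mem_erase hq), h5, one_mul]
    rw [h6]
    exact G.ns0
  have hsum : ∑ q ∈ S, ε q * α q + η * A = η * (A + ∑ q ∈ S, α q) := by
    rw [mul_add, add_comm, Finset.mul_sum]
    congr 1
    apply Finset.sum_congr rfl
    intro q hq
    by_cases h0 : q = p₀
    · rw [h0, heq0]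
    · rw [heq q hq h0]
  rw [hsum] at hg
  rcases hη with rfl | rfl
  · exact ⟨g, by rw [hg]; ring⟩
  · exfalso
    rw [one_mul] at hg
    apply G.res_zero
    obtain ⟨s, r, hsr⟩ := h4
    have hω := om_cartier G.b_ne
    have h5 : (A + ∑ q ∈ S, α q) * om b = s ^ 2 + ((r ^ 2 + r) * om b + (g ^ 2 + g) * om b) := by
      rw [hg]
      linear_combination hsr - (u * om b) * (CharTwo.two_eq_zero : (2 : RatFunc k) = 0)
    rw [h5, rs_add, rs_add, rs_sq, zero_add, InP_add]
    exact iff_of_true (rs_wp p₀ hω r) (rs_wp p₀ hω g)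

/-- the logarithmic differential of a Selmer element is trivial -/
theorem f_part {ℓ e : RatFunc k} (hℓ : ℓ = e ^ 2 + RatFunc.X * ℓ ^ 2) (h0 : finAbv p₀ ℓ ≤ 1)
    (h1 : ∀ p, p ∉ S → finAbv p ℓ ≤ 1)
    (h2 : ∀ p ∈ S, ∃ x₀ w₀ : RatFunc k, x₀ ≠ 0 ∧
      finAbv p (w₀ ^ 2 + w₀ + (x₀ + (A + ∑ q ∈ S, α q))) < 1 ∧
      ∃ ε : RatFunc k, (ε = 0 ∨ ε = 1) ∧
        finAbv p ((A + ∑ q ∈ S, α q) * (ℓ + (om x₀ + ε * om b))) ≤ 1) : ℓ = 0 := by
  classical
  have hK2 : CharP (RatFunc k) 2 := basisX.charP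
  have key : ∀ p, finAbv p ℓ ≤ 1 := by
    intro p
    by_cases hpS : p ∈ S
    swap
    · exact h1 p hpS
    by_cases hp0 : p = p₀
    · rw [hp0]; exact h0
    by_contra hpole
    set a := A + ∑ q ∈ S, α q with ha
    obtain ⟨x₀, w₀, hx₀, hw₀, ε, hε, hreg⟩ := h2 p hpS
    -- the residue of `a ℓ`
    have h3 : ¬ InP (rs p (a * ℓ)) := by
      rw [ha, G.split_at hpS, add_mul, rs_add, rs_polar_log (G.pol p hpS) hℓ, zero_add]
      · exact rs_nonsplit p hℓ (G.reg_at p) (G.ns_at hpS) hpole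
      · intro q hq
        by_cases hqS : q ∈ S
        · by_cases hq0 : q = p₀
          · right; rw [hq0]; exact h0
          · left; exact G.small p hpS q hqS hq hq0
        · exact Or.inr (h1 q hqS)
    apply h3
    -- the other computation
    have hlam := om_cartier hx₀
    set r := w₀ ^ 2 + w₀ + (x₀ + a) with hr
    have h4 : InP (rs p (a * om x₀)) := by
      have e1 : a * om x₀ = (w₀ ^ 2 + w₀) * om x₀ + (basisX.C x₀ ^ 2 + r * om x₀) := by
        have : x₀ * om x₀ = basisX.C x₀ ^ 2 := by unfold om; field_simp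
        rw [hr]
        linear_combination (-1 : RatFunc k) * this
          + (-(w₀ ^ 2 + w₀) * om x₀ - basisX.C x₀ ^ 2) * (CharTwo.two_eq_zero : (2 : RatFunc k) = 0)
      rw [e1, rs_add, rs_add, rs_sq, zero_add, rs_reg p (f := r * om x₀), add_zero]
      · exact rs_wp p hlam w₀
      · rw [map_mul]
        have h5 := fin_half hw₀
        have h6 := pole_le hlam p
        have h7 := (finAbv p).nonneg r
        have h8 := (finAbv p).nonneg (om x₀)
        nlinarith
    have h5 : InP (rs p (a * (ε * om b))) := by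
      rcases hε with rfl | rfl
      · rw [zero_mul, mul_zero, rs_reg]
        · exact InP.zero
        · rw [map_zero]; exact zero_le_one
      · rw [one_mul]; exact G.res_other hpS hp0
    have h6 := rs_reg p hreg
    have e2 : a * (ℓ + (om x₀ + ε * om b)) = a * ℓ + (a * om x₀ + a * (ε * om b)) := by ring
    rw [e2, rs_add, rs_add] at h6
    have h7 : rs p (a * ℓ) = rs p (a * om x₀) + rs p (a * (ε * om b)) :=
      CharTwo.add_eq_zero.mp h6
    rw [h7, InP_add]
    exact iff_of_true h4 h5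
  apply eq_zero_of_small key
  have h3 := pole_inf hℓ
  have h4 := (infAbv k).nonneg ℓ
  linarith

/-- the values of the descent map vanish on the Selmer group -/
theorem half (hκ : basisX.C b ≠ 0) {a : RatFunc k} (ha : a = A + ∑ q ∈ S, α q)
    (R : Pts (gcurve a b) (Ks (RatFunc k)))
    (hG : GaloisFixed 2 R) (hL : ∀ v ∈ stdPlaces k, LocallyRational 2 R v) :
    ∃ R', 2 • R' = R := by
  classical
  have hK2 : CharP (RatFunc k) 2 := basisX.charP
  have hb0 := G.b_ne
  obtain ⟨Z, hZ⟩ := exists_val' basisX (gcurve a b) (hk_gcurve a hκ) R hG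
  suffices hZ0 : Z = 0 by
    rw [hZ0, map_zero] at hZ
    exact cExt_ker basisX (gcurve a b) (hk_gcurve a hκ) (sepK basisX) _ hZ.symm
  by_contra hZ0
  have hfin : ∀ p : HeightOneSpectrum k[X], GD (finAbv p) (finAbv_good p).comp_basis a b Z :=
    fun p => (gsel_local hκ R hZ (finAbv p) (hL _ (Or.inr ⟨p, rfl⟩))
      (finAbv_good p).comp_basis).resolve_left hZ0
  have hinf : GD (infAbv k) basis_inf a b Z :=
    (gsel_local hκ R hZ (infAbv k) (hL _ (Or.inl rfl)) basis_inf).resolve_left hZ0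
  have haS : ∀ p, p ∉ S → finAbv p a ≤ 1 := by
    intro p hp
    rw [ha]
    refine (finAbv_nonarch p _ _).trans (max_le (G.A_int p) (fin_sum_le p _ _ fun q hq => ?_))
    exact (G.pol q hq).1 p (by rintro rfl; exact hp hq)
  have hZint : ∀ p, p ∉ S → finAbv p Z ≤ 1 := fun p hp =>
    gsel_int hκ R hZ p (hL _ (Or.inr ⟨p, rfl⟩)) (haS p hp) (G.bS p hp).le
  have hspec := basisX.spec b
  obtain ⟨g, hg⟩ := G.v_part (u := ucl b Z) (fun p hp => gloc_int (finAbv_good p) (haS p hp)
      (G.bS p hp).le (hfin p))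
    (fun p hp => by
      obtain ⟨m, hm, h1, h2⟩ := G.abs_at hp
      rw [← ha] at h1 h2
      rw [← ha]
      exact gloc_pole (finAbv_good p) hm h1 h2 (hfin p))
    (by
      obtain ⟨m, hm, h1, h2⟩ := G.abs_inf
      rw [← ha] at h1 h2
      rw [← ha]
      exact gloc_pole (infAbv_good (k := k)) hm h1 h2 hinf)
    ⟨Z / basisX.C b, basisX.E b * Z / basisX.C b ^ 2, by
      unfold ucl om
      set κ := basisX.C b with hκd
      set δ := basisX.E b with hδd
      clear_value κ δ
      field_simp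
      rw [hspec]
      linear_combination (- Z * δ ^ 2) * (CharTwo.two_eq_zero : (2 : RatFunc k) = 0)⟩
  have hLL : ∀ g : RatFunc k, g ^ 2 + g = ucl b Z → ∀ ℓ : RatFunc k,
      ℓ = (basisX.C b ^ 2 * g + basisX.E b * Z) / b →
      basisX.C b ^ 2 * ℓ + b * ℓ ^ 2 = Z ^ 2 ∧
        ℓ = ((Z + basisX.E b * ℓ) / basisX.C b) ^ 2 + RatFunc.X * ℓ ^ 2 := by
    intro g hg ℓ hℓ
    have h1 : basisX.C b ^ 2 * ℓ + b * ℓ ^ 2 = Z ^ 2 := by
      unfold ucl at hg
      rw [hℓ]
      set κ := basisX.C b with hκd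
      set δ := basisX.E b with hδd
      clear_value κ δ
      rw [eq_div_iff (pow_ne_zero 2 hκ)] at hg
      field_simp
      linear_combination κ ^ 2 * hg - Z ^ 2 * hspec
        + (κ ^ 2 * δ * Z * (1 + g)) * (CharTwo.two_eq_zero : (2 : RatFunc k) = 0)
    refine ⟨h1, ?_⟩
    set κ := basisX.C b with hκd
    set δ := basisX.E b with hδd
    clear_value κ δ
    field_simp
    linear_combination h1 + ℓ ^ 2 * hspec
      - (Z * δ * ℓ + b * ℓ ^ 2) * (CharTwo.two_eq_zero : (2 : RatFunc k) = 0)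
  obtain ⟨g, hg, hreg⟩ : ∃ g : RatFunc k, g ^ 2 + g = ucl b Z ∧
      finAbv p₀ ((basisX.C b ^ 2 * g + basisX.E b * Z) / b) ≤ 1 := by
    by_cases h : finAbv p₀ ((basisX.C b ^ 2 * g + basisX.E b * Z) / b) ≤ 1
    · exact ⟨g, hg, h⟩
    · refine ⟨g + 1, ?_, ?_⟩
      · rw [wp_add, hg]
        linear_combination (CharTwo.two_eq_zero : (2 : RatFunc k) = 0)
      · have e : (basisX.C b ^ 2 * (g + 1) + basisX.E b * Z) / b
            = (basisX.C b ^ 2 * g + basisX.E b * Z) / b + om b := by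
          unfold om; field_simp; ring
        rw [e]
        exact cart_two (hLL g hg _ rfl).2 (om_cartier hb0) p₀ h G.pole
  set ℓ := (basisX.C b ^ 2 * g + basisX.E b * Z) / b with hℓd
  obtain ⟨hℓ1, hℓ2⟩ := hLL g hg ℓ hℓd
  have hℓ0 : ℓ = 0 := by
    apply G.f_part hℓ2 hreg
    · -- regularity outside of `S`
      intro p hp
      have hvb := G.bS p hp
      have hκ1 := (finAbv_star p (basisX.E b) (basisX.C b) (by rw [basisX.spec', hvb])).2
      have h1 : b * ℓ ^ 2 = Z ^ 2 - basisX.C b ^ 2 * ℓ := by rw [← hℓ1]; ring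
      have h2 : finAbv p ℓ ^ 2 ≤ max 1 (finAbv p ℓ) := by
        have h3 : finAbv p (b * ℓ ^ 2) = finAbv p ℓ ^ 2 := by
          rw [map_mul, hvb, one_mul, map_pow]
        rw [← h3, h1]
        refine (fin_sub p _ _).trans (max_le_max ?_ ?_)
        · rw [map_pow]
          exact pow_le_one₀ ((finAbv p).nonneg _) (hZint p hp)
        · rw [map_mul, map_pow]
          have h4 : finAbv p (basisX.C b) ^ 2 ≤ 1 := pow_le_one₀ ((finAbv p).nonneg _) hκ1
          have h5 := (finAbv p).nonneg ℓ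
          nlinarith
      by_contra h3
      rw [not_le] at h3
      rw [max_eq_right h3.le] at h2
      nlinarith
    · intro p hp
      obtain ⟨m, hm, h1, h2⟩ := G.abs_at hp
      rw [← ha] at h1 h2
      rw [← ha]
      exact gfloc hκ hb0 (finAbv_good p) hm h1 h2 (pole_le (om_cartier hb0) p) hg hℓ1 (hfin p)
  rw [hℓ0] at hℓ1
  have : Z ^ 2 = 0 := by rw [← hℓ1]; ring
  exact hZ0 (by simpa using this)

/-- **The criterion.** -/
theorem selmer_zero (hκ : basisX.C b ≠ 0) {a : RatFunc k} (ha : a = A + ∑ q ∈ S, α q) (n : ℕ) :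
    Subsingleton (SelmerGroup (gcurve a b) (2 ^ n)) ∧
      ∀ R : Pts (gcurve a b) (RatFunc k), ∃ R', 2 ^ n • R' = R := by
  have hE : ∀ R : Pts (gcurve a b) (Ks (RatFunc k)), 2 • R = 0 → R = 0 :=
    fun R hR => no_torsion_two basisX (hk_gcurve a hκ) (sepK basisX) R hR
  have hS : ∀ v ∈ stdPlaces k, ∀ R : Pts (gcurve a b) (Ks (Kv v)), 2 • R = 0 → R = 0 := by
    intro v hv R hR
    have hB : TwoBasis (algebraMap (RatFunc k) (Kv v) RatFunc.X) := by
      rcases hv with rfl | ⟨p, rfl⟩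
      · exact basis_inf
      · exact (finAbv_good p).comp_basis
    have hM : TwoBasis (algebraMap (RatFunc k) (Ks (Kv v)) RatFunc.X) := sepK hB
    exact no_torsion_two basisX (hk_gcurve a hκ) hM R hR
  have h2 := fun R hG hL => G.half hκ ha R hG hL
  have key := devissage (gcurve a b) (stdPlaces k) hE hS h2 n
  refine ⟨selmer_trivial _ _ fun R hR => key R hR.1 fun v hv => hR.2 v ?_,
    rational_div _ (stdPlaces k) n hE key⟩
  rcases hv with rfl | ⟨p, rfl⟩
  · exact infAbv_good.nontrivial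
  · exact (finAbv_good p).nontrivial

end GoodTwist

end Pool.Agent.H2
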