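import Pool.Agent.H2.ASDensity
import Pool.Agent.H2.LogDer
import Pool.Agent.H2.ASGlobal

/-!
# Polar parts and residues of rational functions over a finite field of characteristic two
-/

namespace Pool.Agent.H2

open Polynomial IsDedekindDomain

universe u

variable {k : Type u} [Field k]

/-- `f` has no pole outside of `p`, and vanishes at infinity -/
def Polar (p : HeightOneSpectrum k[X]) (f : RatFunc k) : Prop :=
  (∀ q : HeightOneSpectrum k[X], q ≠ p → finAbv q f ≤ 1) ∧ infAbv k f < 1

theorem eq_zero_of_small {f : RatFunc k} (h1 : ∀ q : HeightOneSpectrum k[X], finAbv q f ≤ 1)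
    (h2 : infAbv k f < 1) : f = 0 := by
  obtain ⟨g, hg⟩ : f ∈ (algebraMap k[X] (RatFunc k)).range := by
    apply HeightOneSpectrum.mem_integers_of_valuation_le_one
    intro p
    rw [← finAbv_le_one_iff]
    exact h1 p
  rw [← hg] at h2
  rw [← hg, infAbv_lt_one h2, map_zero]

theorem poly_of_int {f : RatFunc k} (h1 : ∀ q : HeightOneSpectrum k[X], finAbv q f ≤ 1) :
    ∃ g : k[X], algebraMap k[X] (RatFunc k) g = f := by
  apply HeightOneSpectrum.mem_integers_of_valuation_le_one
  intro p
  rw [← finAbv_le_one_iff]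
  exact h1 p

theorem inf_half {f : RatFunc k} (h : infAbv k f < 1) : infAbv k f ≤ 2⁻¹ := by
  by_cases h0 : f = 0
  · rw [h0, map_zero]; norm_num
  rw [infAbv_apply h0] at h ⊢
  have h1 : f.intDegree < 0 := by
    by_contra h2
    have := one_le_zpow₀ (by norm_num : (1 : ℝ) ≤ 2) (not_lt.mp h2)
    linarith
  calc (2 : ℝ) ^ f.intDegree ≤ (2 : ℝ) ^ (-1 : ℤ) := zpow_le_zpow_right₀ (by norm_num) (by omega)
    _ = 2⁻¹ := zpow_neg_one 2

theorem fin_half {p : HeightOneSpectrum k[X]} {f : RatFunc k} (h : finAbv p f < 1) :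
    finAbv p f ≤ 2⁻¹ := by
  by_cases h0 : f = 0
  · rw [h0, map_zero]; norm_num
  obtain ⟨n, hn⟩ := finAbv_disc p f h0
  rw [hn] at h ⊢
  have h1 : n < 0 := by
    by_contra h2
    have := one_le_zpow₀ (by norm_num : (1 : ℝ) ≤ 2) (not_lt.mp h2)
    linarith
  calc (2 : ℝ) ^ n ≤ (2 : ℝ) ^ (-1 : ℤ) := zpow_le_zpow_right₀ (by norm_num) (by omega)
    _ = 2⁻¹ := zpow_neg_one 2

theorem place_eq {p q : HeightOneSpectrum k[X]} {Q : k[X]} (hp : p.asIdeal = Ideal.span {Q})
    (h : Q ∈ q.asIdeal) : q = p := by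
  apply HeightOneSpectrum.ext
  have h3 : p.asIdeal ≤ q.asIdeal := by
    rw [hp, Ideal.span_le, Set.singleton_subset_iff]; exact h
  exact (p.isMaximal.eq_of_le q.isPrime.ne_top h3).symm

theorem finAbv_gen {p q : HeightOneSpectrum k[X]} {Q : k[X]} (hp : p.asIdeal = Ideal.span {Q})
    (h : q ≠ p) : finAbv q (algebraMap k[X] (RatFunc k) Q) = 1 := by
  apply le_antisymm (finAbv_poly q Q)
  by_contra h1
  rw [not_le, finAbv_lt_one] at h1
  exact h (place_eq hp h1)

section Polar

variable {p : HeightOneSpectrum k[X]}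

theorem Polar.zero : Polar p (0 : RatFunc k) :=
  ⟨fun q _ => by rw [map_zero]; exact zero_le_one, by rw [map_zero]; exact one_pos⟩

theorem Polar.add {f g : RatFunc k} (hf : Polar p f) (hg : Polar p g) : Polar p (f + g) :=
  ⟨fun q hq => (finAbv_nonarch q f g).trans (max_le (hf.1 q hq) (hg.1 q hq)),
    lt_of_le_of_lt (infAbv_nonarch f g) (max_lt hf.2 hg.2)⟩

theorem Polar.neg {f : RatFunc k} (hf : Polar p f) : Polar p (-f) :=
  ⟨fun q hq => by rw [AbsoluteValue.map_neg]; exact hf.1 q hq,
    by rw [AbsoluteValue.map_neg]; exact hf.2⟩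

theorem Polar.sub {f g : RatFunc k} (hf : Polar p f) (hg : Polar p g) : Polar p (f - g) := by
  rw [sub_eq_add_neg]; exact hf.add hg.neg

theorem fin_sub (q : HeightOneSpectrum k[X]) (f g : RatFunc k) :
    finAbv q (f - g) ≤ max (finAbv q f) (finAbv q g) := by
  rw [sub_eq_add_neg, ← AbsoluteValue.map_neg _ g]
  exact finAbv_nonarch q f (-g)

theorem inf_sub (f g : RatFunc k) : infAbv k (f - g) ≤ max (infAbv k f) (infAbv k g) := by
  rw [sub_eq_add_neg, ← AbsoluteValue.map_neg _ g]
  exact infAbv_nonarch f (-g)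

theorem polar_exists (p : HeightOneSpectrum k[X]) (f : RatFunc k) :
    ∃ g : RatFunc k, Polar p g ∧ finAbv p (f - g) ≤ 1 := by
  obtain ⟨Q, hQm, hQi, hpQ⟩ := monic_gen p
  have hd0 : f.denom ≠ 0 := f.denom_ne_zero
  obtain ⟨j, ⟨D, hD⟩, hj2⟩ := exists_mult hQi hd0
  have hQD : ¬ Q ∣ D := by
    rintro ⟨e, he⟩
    exact hj2 ⟨e, by rw [hD, he, pow_succ]; ring⟩
  have hD0 : D ≠ 0 := by rintro rfl; exact hQD (dvd_zero _)
  have hcop : IsCoprime (Q ^ j) D := (hQi.coprime_iff_not_dvd.mpr hQD).pow_left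
  obtain ⟨α, β, hαβ⟩ := hcop
  have hm : (Q ^ j).Monic := hQm.pow j
  set r := (f.num * β) %ₘ (Q ^ j) with hr
  set s := (f.num * β) /ₘ (Q ^ j) with hs
  have hrs : r + Q ^ j * s = f.num * β := modByMonic_add_div _ _
  have e0 : algebraMap k[X] (RatFunc k) (Q ^ j) ≠ 0 := by
    rw [Ne, FaithfulSMul.algebraMap_eq_zero_iff]; exact hm.ne_zero
  have e1 : algebraMap k[X] (RatFunc k) D ≠ 0 := by
    rwa [Ne, FaithfulSMul.algebraMap_eq_zero_iff]
  refine ⟨algebraMap k[X] (RatFunc k) r / algebraMap k[X] (RatFunc k) (Q ^ j), ⟨?_, ?_⟩, ?_⟩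
  · intro q hq
    rw [map_div₀, map_pow, map_pow, finAbv_gen hpQ hq, one_pow, div_one]
    exact finAbv_poly q r
  · by_cases h0 : r = 0
    · rw [h0, map_zero, zero_div, map_zero]; exact one_pos
    · have e0' : Q ^ j ≠ 0 := hm.ne_zero
      rw [map_div₀, div_lt_one ((infAbv k).pos e0), infAbv_poly h0, infAbv_poly e0']
      have h1 : r.natDegree < (Q ^ j).natDegree := by
        apply natDegree_lt_natDegree h0
        exact degree_modByMonic_lt _ hm
      exact zpow_lt_zpow_right₀ (by norm_num) (by exact_mod_cast h1)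
  · have hf : f = algebraMap k[X] (RatFunc k) f.num
        / (algebraMap k[X] (RatFunc k) (Q ^ j) * algebraMap k[X] (RatFunc k) D) := by
      rw [← map_mul, ← hD]; exact (RatFunc.num_div_denom f).symm
    have e : f - algebraMap k[X] (RatFunc k) r / algebraMap k[X] (RatFunc k) (Q ^ j)
        = algebraMap k[X] (RatFunc k) (f.num * α) / algebraMap k[X] (RatFunc k) D
          + algebraMap k[X] (RatFunc k) s := by
      conv_lhs => rw [hf]
      have h1 := congrArg (algebraMap k[X] (RatFunc k)) hrs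
      have h2 := congrArg (algebraMap k[X] (RatFunc k)) hαβ
      rw [map_add, map_mul, map_mul] at h1
      rw [map_add, map_mul, map_mul, map_one] at h2
      rw [map_mul]
      generalize algebraMap k[X] (RatFunc k) (Q ^ j) = q at *
      generalize algebraMap k[X] (RatFunc k) D = d at *
      generalize algebraMap k[X] (RatFunc k) f.num = n at *
      generalize algebraMap k[X] (RatFunc k) r = r at *
      generalize algebraMap k[X] (RatFunc k) s = s at *
      generalize algebraMap k[X] (RatFunc k) α = a at *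
      generalize algebraMap k[X] (RatFunc k) β = b at *
      field_simp
      linear_combination (-d) * h1 - n * h2
    rw [e]
    refine (finAbv_nonarch p _ _).trans (max_le ?_ (finAbv_poly p s))
    have hvD : finAbv p (algebraMap k[X] (RatFunc k) D) = 1 := by
      have h1 := finAbv_eq_pow hpQ (f := D) (n := 0) (by simp) (by simpa using hQD)
      simpa using h1
    rw [map_div₀, hvD, div_one]
    exact finAbv_poly p _

/-- the polar part at `p` -/
noncomputable def pp (p : HeightOneSpectrum k[X]) (f : RatFunc k) : RatFunc k :=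
  (polar_exists p f).choose

theorem pp_polar (p : HeightOneSpectrum k[X]) (f : RatFunc k) : Polar p (pp p f) :=
  (polar_exists p f).choose_spec.1

theorem pp_reg (p : HeightOneSpectrum k[X]) (f : RatFunc k) : finAbv p (f - pp p f) ≤ 1 :=
  (polar_exists p f).choose_spec.2

theorem pp_eq {f g : RatFunc k} (hg : Polar p g) (h : finAbv p (f - g) ≤ 1) : pp p f = g := by
  have h1 : pp p f - g = 0 := by
    apply eq_zero_of_small
    · intro q
      by_cases hq : q = p
      · subst hq
        have e : pp q f - g = (f - g) - (f - pp q f) := by ring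
        rw [e]
        exact (fin_sub q _ _).trans (max_le h (pp_reg q f))
      · exact ((pp_polar p f).sub hg).1 q hq
    · exact ((pp_polar p f).sub hg).2
  exact sub_eq_zero.mp h1

theorem pp_add (p : HeightOneSpectrum k[X]) (f g : RatFunc k) : pp p (f + g) = pp p f + pp p g := by
  apply pp_eq ((pp_polar p f).add (pp_polar p g))
  have e : f + g - (pp p f + pp p g) = (f - pp p f) + (g - pp p g) := by ring
  rw [e]
  exact (finAbv_nonarch p _ _).trans (max_le (pp_reg p f) (pp_reg p g))

theorem pp_of_reg {f : RatFunc k} (h : finAbv p f ≤ 1) : pp p f = 0 :=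
  pp_eq Polar.zero (by rwa [sub_zero])

theorem pp_of_polar {f : RatFunc k} (h : Polar p f) : pp p f = f :=
  pp_eq h (by rw [sub_self, map_zero]; exact zero_le_one)

end Polar

section Coef

/-- the coefficient of `X⁻¹` of a function vanishing at infinity -/
theorem coef_exists {f : RatFunc k} (h : infAbv k f < 1) :
    ∃ c : k, infAbv k (RatFunc.X * f - algebraMap k[X] (RatFunc k) (C c)) < 1 := by
  obtain ⟨q, hq⟩ := approx_rat (RatFunc.X * f)
  have h1 : infAbv k (RatFunc.X * f) ≤ 1 := by
    rw [map_mul, infAbv_X]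
    have := inf_half h
    linarith
  have h2 : infAbv k (algebraMap k[X] (RatFunc k) q) ≤ 1 := by
    have e : algebraMap k[X] (RatFunc k) q
        = RatFunc.X * f - (RatFunc.X * f - algebraMap k[X] (RatFunc k) q) := by ring
    rw [e]
    exact (inf_sub _ _).trans (max_le h1 hq.le)
  have h3 : q.natDegree = 0 := by
    by_contra h0
    have hq0 : q ≠ 0 := by rintro rfl; exact h0 natDegree_zero
    rw [infAbv_poly hq0] at h2
    have := one_lt_zpow₀ (by norm_num : (1 : ℝ) < 2) (show (0 : ℤ) < q.natDegree by omega)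
    linarith
  obtain ⟨c, rfl⟩ := natDegree_eq_zero.mp h3
  exact ⟨c, hq⟩

open scoped Classical in
/-- the coefficient of `X⁻¹` -/
noncomputable def lc (f : RatFunc k) : k :=
  if h : ∃ c : k, infAbv k (RatFunc.X * f - algebraMap k[X] (RatFunc k) (C c)) < 1 then h.choose
  else 0

theorem lc_spec {f : RatFunc k} (h : infAbv k f < 1) :
    infAbv k (RatFunc.X * f - algebraMap k[X] (RatFunc k) (C (lc f))) < 1 := by
  have h1 := coef_exists h
  unfold lc
  rw [dif_pos h1]
  exact h1.choose_spec

theorem lc_eq {f : RatFunc k} {c : k}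
    (h : infAbv k (RatFunc.X * f - algebraMap k[X] (RatFunc k) (C c)) < 1) : lc f = c := by
  have h1 : ∃ c : k, infAbv k (RatFunc.X * f - algebraMap k[X] (RatFunc k) (C c)) < 1 := ⟨c, h⟩
  have h2 : infAbv k (RatFunc.X * f - algebraMap k[X] (RatFunc k) (C (lc f))) < 1 := by
    unfold lc
    rw [dif_pos h1]
    exact h1.choose_spec
  have h3 : infAbv k (algebraMap k[X] (RatFunc k) (C (lc f) - C c)) < 1 := by
    have e : algebraMap k[X] (RatFunc k) (C (lc f) - C c)
      = (RatFunc.X * f - algebraMap k[X] (RatFunc k) (C c))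
        - (RatFunc.X * f - algebraMap k[X] (RatFunc k) (C (lc f))) := by
      rw [map_sub]; ring
    rw [e]
    exact lt_of_le_of_lt (inf_sub _ _) (max_lt h h2)
  have h4 := infAbv_lt_one h3
  exact C_injective (sub_eq_zero.mp h4)

theorem lc_add {f g : RatFunc k} (hf : infAbv k f < 1) (hg : infAbv k g < 1) :
    lc (f + g) = lc f + lc g := by
  apply lc_eq
  have e : RatFunc.X * (f + g) - algebraMap k[X] (RatFunc k) (C (lc f + lc g))
    = (RatFunc.X * f - algebraMap k[X] (RatFunc k) (C (lc f)))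
      + (RatFunc.X * g - algebraMap k[X] (RatFunc k) (C (lc g))) := by
    rw [C_add, map_add]; ring
  rw [e]
  exact lt_of_le_of_lt (infAbv_nonarch _ _) (max_lt (lc_spec hf) (lc_spec hg))

theorem lc_small {f : RatFunc k} (h : infAbv k (RatFunc.X * f) < 1) : lc f = 0 := by
  apply lc_eq
  rw [C_0, map_zero, sub_zero]
  exact h

/-- the residue at `p` -/
noncomputable def rs (p : HeightOneSpectrum k[X]) (f : RatFunc k) : k := lc (pp p f)

variable (p : HeightOneSpectrum k[X])

theorem rs_add (f g : RatFunc k) : rs p (f + g) = rs p f + rs p g := by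
  unfold rs
  rw [pp_add, lc_add (pp_polar p f).2 (pp_polar p g).2]

theorem rs_reg {f : RatFunc k} (h : finAbv p f ≤ 1) : rs p f = 0 := by
  unfold rs
  rw [pp_of_reg h]
  apply lc_small
  rw [mul_zero, map_zero]; exact one_pos

theorem rs_polar {f : RatFunc k} (h : Polar p f) (h1 : infAbv k (RatFunc.X * f) < 1) :
    rs p f = 0 := by
  unfold rs
  rw [pp_of_polar h, lc_small h1]

theorem rs_smul (c : k) (f : RatFunc k) :
    rs p (algebraMap k[X] (RatFunc k) (C c) * f) = c * rs p f := by
  by_cases hc : c = 0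
  · rw [hc, C_0, map_zero, zero_mul, zero_mul]
    exact rs_reg p (by rw [map_zero]; exact zero_le_one)
  have hc1 : ∀ q : HeightOneSpectrum k[X], finAbv q (algebraMap k[X] (RatFunc k) (C c)) ≤ 1 :=
    fun q => finAbv_poly q _
  have hci : infAbv k (algebraMap k[X] (RatFunc k) (C c)) = 1 := by
    rw [infAbv_poly (C_ne_zero.mpr hc), natDegree_C]; simp
  have h1 : Polar p (algebraMap k[X] (RatFunc k) (C c) * pp p f) := by
    refine ⟨fun q hq => ?_, ?_⟩
    · rw [map_mul]
      exact mul_le_one₀ (hc1 q) ((finAbv q).nonneg _) ((pp_polar p f).1 q hq)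
    · rw [map_mul, hci, one_mul]; exact (pp_polar p f).2
  have h2 : pp p (algebraMap k[X] (RatFunc k) (C c) * f)
      = algebraMap k[X] (RatFunc k) (C c) * pp p f := by
    apply pp_eq h1
    rw [← mul_sub, map_mul]
    exact mul_le_one₀ (hc1 p) ((finAbv p).nonneg _) (pp_reg p f)
  unfold rs
  rw [h2]
  apply lc_eq
  have e : RatFunc.X * (algebraMap k[X] (RatFunc k) (C c) * pp p f)
      - algebraMap k[X] (RatFunc k) (C (c * lc (pp p f)))
    = algebraMap k[X] (RatFunc k) (C c)
      * (RatFunc.X * pp p f - algebraMap k[X] (RatFunc k) (C (lc (pp p f)))) := by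
    rw [C_mul, map_mul]; ring
  rw [e, map_mul, hci, one_mul]
  exact lc_spec (pp_polar p f).2

/-- the sum of the residues at two places -/
theorem rs_two {q : HeightOneSpectrum k[X]} (hpq : p ≠ q) {f : RatFunc k}
    (h : ∀ r : HeightOneSpectrum k[X], r ≠ p → r ≠ q → finAbv r f ≤ 1)
    (h1 : infAbv k (RatFunc.X * f) < 1) : rs p f + rs q f = 0 := by
  have hf1 : infAbv k f < 1 := by
    rw [map_mul, infAbv_X] at h1
    have := (infAbv k).nonneg f
    linarith
  have h2 : Polar q (f - pp p f) := by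
    refine ⟨fun r hr => ?_, ?_⟩
    · by_cases hrp : r = p
      · rw [hrp]; exact pp_reg p f
      · exact (fin_sub r _ _).trans (max_le (h r hrp hr) ((pp_polar p f).1 r hrp))
    · exact lt_of_le_of_lt (inf_sub _ _) (max_lt hf1 (pp_polar p f).2)
  have h3 : pp q f = f - pp p f := by
    apply pp_eq h2
    rw [sub_sub_cancel]
    exact (pp_polar p f).1 q hpq.symm
  unfold rs
  rw [h3, ← lc_add (pp_polar p f).2 h2.2, add_sub_cancel, lc_small h1]

end Coef

section CharTwo

variable [Finite k] [CharP k 2] (p : HeightOneSpectrum k[X])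

theorem infX (f : RatFunc k) : infAbv k (RatFunc.X * f) = 2 * infAbv k f := by
  rw [map_mul, infAbv_X]

theorem pp_sq (f : RatFunc k) : pp p (f ^ 2) = pp p f ^ 2 := by
  have hK2 : CharP (RatFunc k) 2 := basisX.charP
  apply pp_eq
  · refine ⟨fun q hq => ?_, ?_⟩
    · rw [map_pow]; exact pow_le_one₀ ((finAbv q).nonneg _) ((pp_polar p f).1 q hq)
    · rw [map_pow]; exact pow_lt_one₀ ((infAbv k).nonneg _) (pp_polar p f).2 two_ne_zero
  · have e : f ^ 2 - pp p f ^ 2 = (f - pp p f) ^ 2 := by
      rw [sub_pow_char]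
    rw [e, map_pow]
    exact pow_le_one₀ ((finAbv p).nonneg _) (pp_reg p f)

theorem rs_sq (f : RatFunc k) : rs p (f ^ 2) = 0 := by
  unfold rs
  rw [pp_sq]
  apply lc_small
  rw [infX, map_pow]
  have h1 := inf_half (pp_polar p f).2
  have h2 := (infAbv k).nonneg (pp p f)
  nlinarith

theorem rs_Xsq (f : RatFunc k) : rs p (RatFunc.X * f ^ 2) = rs p f ^ 2 := by
  have hK2 : CharP (RatFunc k) 2 := basisX.charP
  have hX : ∀ q : HeightOneSpectrum k[X], finAbv q (RatFunc.X : RatFunc k) ≤ 1 := by
    intro q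
    have := finAbv_poly q (X : k[X])
    rwa [RatFunc.algebraMap_X] at this
  have h1 : pp p (RatFunc.X * f ^ 2) = RatFunc.X * pp p f ^ 2 := by
    apply pp_eq
    · refine ⟨fun q hq => ?_, ?_⟩
      · rw [map_mul, map_pow]
        exact mul_le_one₀ (hX q) (pow_nonneg ((finAbv q).nonneg _) 2)
          (pow_le_one₀ ((finAbv q).nonneg _) ((pp_polar p f).1 q hq))
      · rw [infX, map_pow]
        have h1 := inf_half (pp_polar p f).2
        have h2 := (infAbv k).nonneg (pp p f)
        nlinarith
    · have e : RatFunc.X * f ^ 2 - RatFunc.X * pp p f ^ 2 = RatFunc.X * (f - pp p f) ^ 2 := by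
        rw [sub_pow_char]; ring
      rw [e, map_mul, map_pow]
      exact mul_le_one₀ (hX p) (pow_nonneg ((finAbv p).nonneg _) 2)
        (pow_le_one₀ ((finAbv p).nonneg _) (pp_reg p f))
  unfold rs
  rw [h1]
  apply lc_eq
  have e : RatFunc.X * (RatFunc.X * pp p f ^ 2)
      - algebraMap k[X] (RatFunc k) (C (lc (pp p f) ^ 2))
    = (RatFunc.X * pp p f - algebraMap k[X] (RatFunc k) (C (lc (pp p f)))) ^ 2 := by
    rw [sub_pow_char, C_pow, map_pow]; ring
  rw [e, map_pow]
  exact pow_lt_one₀ ((infAbv k).nonneg _) (lc_spec (pp_polar p f).2) two_ne_zero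

/-- the subgroup `℘(k)` -/
def InP (c : k) : Prop := ∃ z : k, z ^ 2 + z = c

theorem InP_iff (c : k) : InP c ↔ c ∈ (wp k).range := by
  constructor
  · rintro ⟨z, hz⟩; exact ⟨z, hz⟩
  · rintro ⟨z, hz⟩; exact ⟨z, hz⟩

theorem InP.zero : InP (0 : k) := ⟨0, by simp⟩

theorem InP_add (a b : k) : InP (a + b) ↔ (InP a ↔ InP b) := by
  rw [InP_iff, InP_iff, InP_iff, AddSubgroup.add_mem_iff_of_index_two (wp_index k)]

/-- residues against logarithmic differentials -/
theorem rs_wp {ω e : RatFunc k} (hω : ω = e ^ 2 + RatFunc.X * ω ^ 2) (g : RatFunc k) :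
    InP (rs p ((g ^ 2 + g) * ω)) := by
  have h1 : (g ^ 2 + g) * ω = ((g * e) ^ 2 + RatFunc.X * (g * ω) ^ 2) + g * ω := by
    have : g ^ 2 * ω = (g * e) ^ 2 + RatFunc.X * (g * ω) ^ 2 := by
      conv_lhs => rw [hω]
      ring
    rw [add_mul, this]
  rw [h1, rs_add, rs_add, rs_sq, rs_Xsq, zero_add]
  exact ⟨rs p (g * ω), rfl⟩

/-- `r` is not of the form `z² + z` modulo `p` -/
def NS (p : HeightOneSpectrum k[X]) (r : RatFunc k) : Prop :=
  ∀ z : RatFunc k, ¬ finAbv p (z ^ 2 + z + r) < 1

theorem int_of_quad' {z r : RatFunc k} (hr : finAbv p r ≤ 1)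
    (h : finAbv p (z ^ 2 + z + r) < 1) : finAbv p z ≤ 1 := by
  by_contra hz
  rw [not_le] at hz
  have h1 : finAbv p (z ^ 2) ≤ max 1 (finAbv p z) := by
    have e : z ^ 2 = (z ^ 2 + z + r) - (z + r) := by ring
    rw [e]
    refine (fin_sub p _ _).trans (max_le (h.le.trans (le_max_left _ _)) ?_)
    exact (finAbv_nonarch p _ _).trans (max_le (le_max_right _ _) (hr.trans (le_max_left _ _)))
  rw [map_pow, max_eq_right hz.le] at h1
  nlinarith

omit [Finite k] [CharP k 2] in
theorem poly_approx {z : RatFunc k} (hz : finAbv p z ≤ 1) :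
    ∃ y : k[X], finAbv p (z - algebraMap k[X] (RatFunc k) y) < 1 := by
  obtain ⟨V₀, hV₀⟩ := p.exists_valuation_sub_lt_of_integer ((finAbv_le_one_iff p z).mp hz) 1
  refine ⟨V₀, ?_⟩
  rw [← AbsoluteValue.map_neg, neg_sub]
  by_contra hc
  rw [not_lt] at hc
  have h1 : finAbv p 1 ≤ finAbv p (algebraMap k[X] (RatFunc k) V₀ - z) := by rwa [map_one]
  rw [finAbv_le_iff, map_one] at h1
  exact absurd hV₀ (not_lt.mpr h1)

theorem NS_iff {Q : k[X]} (hp : p.asIdeal = Ideal.span {Q}) {r : RatFunc k} {y : k[X]}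
    (hy : finAbv p (r - algebraMap k[X] (RatFunc k) y) < 1) : NS p r ↔ Nonsplit y Q := by
  have hK2 : CharP (RatFunc k) 2 := basisX.charP
  have hr : finAbv p r ≤ 1 := by
    have e : r = (r - algebraMap k[X] (RatFunc k) y) + algebraMap k[X] (RatFunc k) y := by ring
    rw [e]
    exact (finAbv_nonarch p _ _).trans (max_le hy.le (finAbv_poly p y))
  constructor
  · intro h z hz
    apply h (algebraMap k[X] (RatFunc k) z)
    have e : algebraMap k[X] (RatFunc k) z ^ 2 + algebraMap k[X] (RatFunc k) z + r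
      = algebraMap k[X] (RatFunc k) (z ^ 2 + z + y) + (r - algebraMap k[X] (RatFunc k) y) := by
      rw [map_add, map_add, map_pow]; ring
    rw [e]
    refine lt_of_le_of_lt (finAbv_nonarch p _ _) (max_lt ?_ hy)
    rw [finAbv_lt_one, mem_gen hp]; exact hz
  · intro h z hz
    obtain ⟨x, hx⟩ := poly_approx p (int_of_quad' p hr hz)
    apply h x
    rw [← mem_gen hp, ← finAbv_lt_one]
    have e : algebraMap k[X] (RatFunc k) (x ^ 2 + x + y)
      = (z ^ 2 + z + r) - ((z - algebraMap k[X] (RatFunc k) x) ^ 2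
        + ((z - algebraMap k[X] (RatFunc k) x) + (r - algebraMap k[X] (RatFunc k) y))) := by
      rw [sub_pow_char, map_add, map_add, map_pow]; ring
    rw [e]
    refine lt_of_le_of_lt (fin_sub p _ _) (max_lt hz (lt_of_le_of_lt (finAbv_nonarch p _ _)
      (max_lt ?_ (lt_of_le_of_lt (finAbv_nonarch p _ _) (max_lt hx hy)))))
    rw [map_pow]
    exact pow_lt_one₀ ((finAbv p).nonneg _) hx two_ne_zero

theorem NS_add {r s : RatFunc k} (hr : finAbv p r ≤ 1) (hs : finAbv p s ≤ 1) :
    NS p (r + s) ↔ (NS p r ↔ ¬ NS p s) := by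
  obtain ⟨Q, hQm, hQi, hpQ⟩ := monic_gen p
  obtain ⟨y, hy⟩ := poly_approx p hr
  obtain ⟨z, hz⟩ := poly_approx p hs
  have hyz : finAbv p (r + s - algebraMap k[X] (RatFunc k) (y + z)) < 1 := by
    have e : r + s - algebraMap k[X] (RatFunc k) (y + z)
      = (r - algebraMap k[X] (RatFunc k) y) + (s - algebraMap k[X] (RatFunc k) z) := by
      rw [map_add]; ring
    rw [e]
    exact lt_of_le_of_lt (finAbv_nonarch p _ _) (max_lt hy hz)
  rw [NS_iff p hpQ hy, NS_iff p hpQ hz, NS_iff p hpQ hyz, nonsplit_add hQi]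

theorem NS_small {r : RatFunc k} (h : finAbv p r < 1) : ¬ NS p r := by
  intro h1
  apply h1 0
  rw [zero_pow two_ne_zero, zero_add, zero_add]
  exact h

theorem rs_split {r ω e : RatFunc k} (hω : ω = e ^ 2 + RatFunc.X * ω ^ 2) (h : ¬ NS p r) :
    InP (rs p (r * ω)) := by
  unfold NS at h
  push Not at h
  obtain ⟨z, hz⟩ := h
  have hK2 : CharP (RatFunc k) 2 := basisX.charP
  have e1 : r * ω = (z ^ 2 + z) * ω + (z ^ 2 + z + r) * ω := by
    linear_combination (-(z ^ 2 + z) * ω) * (CharTwo.two_eq_zero : (2 : RatFunc k) = 0)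
  rw [e1, rs_add, rs_reg p (f := (z ^ 2 + z + r) * ω), add_zero]
  · exact rs_wp p hω z
  · rw [map_mul]
    have h1 := fin_half hz
    have h2 := pole_le hω p
    have h3 := (finAbv p).nonneg ω
    have h4 := (finAbv p).nonneg (z ^ 2 + z + r)
    nlinarith

/-- the residue of a nonsplit function against a logarithmic differential with a pole -/
theorem rs_nonsplit {r ω e : RatFunc k} (hω : ω = e ^ 2 + RatFunc.X * ω ^ 2)
    (hr : finAbv p r ≤ 1) (h : NS p r) (hpole : ¬ finAbv p ω ≤ 1) : ¬ InP (rs p (r * ω)) := by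
  intro hin
  have hK2 : CharP (RatFunc k) 2 := basisX.charP
  obtain ⟨Q, hQm, hQi, hpQ⟩ := monic_gen p
  have hQ0 : algebraMap k[X] (RatFunc k) Q ≠ 0 := by
    rw [Ne, FaithfulSMul.algebraMap_eq_zero_iff]; exact hQi.ne_zero
  -- all the residues are in `℘(k)`
  have hall : ∀ B : k[X], InP (rs p (algebraMap k[X] (RatFunc k) B * ω)) := by
    intro B
    by_cases hB : NS p (algebraMap k[X] (RatFunc k) B)
    · have h1 : ¬ NS p (r + algebraMap k[X] (RatFunc k) B) := by
        rw [NS_add p hr (finAbv_poly p B)]; tauto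
      have h2 := rs_split p hω h1
      rw [add_mul, rs_add, InP_add] at h2
      exact h2.mp hin
    · exact rs_split p hω hB
  have hzero : ∀ B : k[X], rs p (algebraMap k[X] (RatFunc k) B * ω) = 0 := by
    intro B
    by_contra hne
    have h1 : (wp k).range = ⊤ := by
      rw [eq_top_iff]
      intro c _
      rw [← InP_iff]
      have h2 := hall (C (c / rs p (algebraMap k[X] (RatFunc k) B * ω)) * B)
      rw [map_mul, mul_assoc, rs_smul, div_mul_cancel₀ _ hne] at h2
      exact h2
    have h3 := wp_index k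
    rw [h1, AddSubgroup.index_top] at h3
    omega
  -- the polar part of `ω`
  set g := pp p ω with hg
  obtain ⟨A, hA⟩ : ∃ A : k[X], algebraMap k[X] (RatFunc k) A = algebraMap k[X] (RatFunc k) Q * g := by
    apply poly_of_int
    intro q
    rw [map_mul]
    by_cases hq : q = p
    · subst hq
      have h1 := finAbv_le_half q (Q := Q) (by rw [mem_gen hpQ])
      have h2 : finAbv q g ≤ 2 := by
        have e1 : g = ω - (ω - g) := by ring
        rw [e1]
        refine (fin_sub q _ _).trans (max_le (pole_le hω q) ?_)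
        exact (pp_reg q ω).trans (by norm_num)
      have h3 := (finAbv q).nonneg g
      have h4 := (finAbv q).nonneg (algebraMap k[X] (RatFunc k) Q)
      nlinarith
    · rw [finAbv_gen hpQ hq, one_mul]
      exact (pp_polar p ω).1 q hq
  have hQA : ¬ Q ∣ A := by
    rintro ⟨B, hB⟩
    apply hpole
    have h1 : g = algebraMap k[X] (RatFunc k) B := by
      have : algebraMap k[X] (RatFunc k) Q * g = algebraMap k[X] (RatFunc k) Q
          * algebraMap k[X] (RatFunc k) B := by rw [← hA, hB, map_mul]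
      exact mul_left_cancel₀ hQ0 this
    have e1 : ω = g + (ω - g) := by ring
    rw [e1, h1]
    exact (finAbv_nonarch p _ _).trans (max_le (finAbv_poly p B) (by
      have := pp_reg p ω
      rwa [← hg, h1] at this))
  obtain ⟨α, β, hαβ⟩ := (hQi.coprime_iff_not_dvd.mpr hQA)
  -- `B A = X ^ (d - 1) + multiple of Q`
  set d := Q.natDegree with hd
  have hdpos : 0 < d := hQi.natDegree_pos
  have h1 := hzero (X ^ (d - 1) * β)
  have hpp : pp p (algebraMap k[X] (RatFunc k) (X ^ (d - 1) * β) * ω)
      = algebraMap k[X] (RatFunc k) (X ^ (d - 1)) / algebraMap k[X] (RatFunc k) Q := by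
    apply pp_eq
    · refine ⟨fun q hq => ?_, ?_⟩
      · rw [map_div₀, finAbv_gen hpQ hq, div_one]; exact finAbv_poly q _
      · rw [map_div₀, div_lt_one ((infAbv k).pos hQ0), infAbv_poly (pow_ne_zero _ X_ne_zero),
          infAbv_poly hQi.ne_zero, natDegree_X_pow]
        exact zpow_lt_zpow_right₀ (by norm_num) (by omega)
    · have e1 : algebraMap k[X] (RatFunc k) (X ^ (d - 1) * β) * ω
          - algebraMap k[X] (RatFunc k) (X ^ (d - 1)) / algebraMap k[X] (RatFunc k) Q
          = algebraMap k[X] (RatFunc k) (X ^ (d - 1) * β) * (ω - g)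
            - algebraMap k[X] (RatFunc k) (X ^ (d - 1) * α) := by
        have h2 : g = algebraMap k[X] (RatFunc k) A / algebraMap k[X] (RatFunc k) Q := by
          rw [hA]; field_simp
        have h3 := congrArg (algebraMap k[X] (RatFunc k)) hαβ
        rw [map_add, map_mul, map_mul, map_one] at h3
        rw [h2, map_mul (algebraMap k[X] (RatFunc k)) (X ^ (d - 1)) β,
          map_mul (algebraMap k[X] (RatFunc k)) (X ^ (d - 1)) α]
        generalize algebraMap k[X] (RatFunc k) (X ^ (d - 1)) = y at *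
        generalize algebraMap k[X] (RatFunc k) β = β' at *
        generalize algebraMap k[X] (RatFunc k) α = α' at *
        generalize algebraMap k[X] (RatFunc k) A = A' at *
        generalize algebraMap k[X] (RatFunc k) Q = Q' at *
        field_simp
        linear_combination y * h3
      rw [e1]
      refine (fin_sub p _ _).trans (max_le ?_ (finAbv_poly p _))
      rw [map_mul]
      exact mul_le_one₀ (finAbv_poly p _) ((finAbv p).nonneg _) (pp_reg p ω)
  have h2 : rs p (algebraMap k[X] (RatFunc k) (X ^ (d - 1) * β) * ω) = 1 := by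
    unfold rs
    rw [hpp]
    apply lc_eq
    have e1 : RatFunc.X * (algebraMap k[X] (RatFunc k) (X ^ (d - 1))
        / algebraMap k[X] (RatFunc k) Q) - algebraMap k[X] (RatFunc k) (C 1)
        = algebraMap k[X] (RatFunc k) (X ^ d - Q) / algebraMap k[X] (RatFunc k) Q := by
      have h3 : (X : k[X]) ^ d = X * X ^ (d - 1) := by
        rw [← pow_succ']; congr 1; omega
      rw [map_sub, h3, map_mul, RatFunc.algebraMap_X, C_1, map_one]
      field_simp
    rw [e1]
    by_cases h0 : X ^ d - Q = 0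
    · rw [h0, map_zero, zero_div, map_zero]; exact one_pos
    · rw [map_div₀, div_lt_one ((infAbv k).pos hQ0), infAbv_poly h0, infAbv_poly hQi.ne_zero]
      have h3 : (X ^ d - Q).natDegree < Q.natDegree := by
        have h4 : (X ^ d - Q).degree < (X ^ d : k[X]).degree := by
          apply degree_sub_lt
          · rw [degree_X_pow, degree_eq_natDegree hQi.ne_zero]
          · exact pow_ne_zero _ X_ne_zero
          · rw [(monic_X_pow d).leadingCoeff, hQm.leadingCoeff]
        rw [degree_X_pow] at h4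
        rw [degree_eq_natDegree h0] at h4
        exact_mod_cast h4
      exact zpow_lt_zpow_right₀ (by norm_num) (by exact_mod_cast h3)
  rw [h1] at h2
  exact zero_ne_one h2

end CharTwo

end Pool.Agent.H2
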