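import Pool.Agent.H2.GCrit

/-!
# Every matrix is the matrix of a twist
-/

namespace Pool.Agent.H2

open Polynomial IsDedekindDomain

universe u

variable {k : Type u} [Field k]

theorem gQ_not_dvd {p r : HeightOneSpectrum k[X]} (h : p ≠ r) : ¬ gQ p ∣ gQ r := by
  intro hd
  apply h
  have h1 : gQ r ∈ p.asIdeal := by rw [gQ_span p, Ideal.mem_span_singleton]; exact hd
  exact place_eq (gQ_span r) h1

/-- a polynomial with given residues -/
theorem poly_res (T : Finset (HeightOneSpectrum k[X])) {p : HeightOneSpectrum k[X]} (hp : p ∉ T)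
    (c : k[X]) : ∃ V : k[X], gQ p ∣ V - c ∧ (∀ r ∈ T, gQ r ∣ V) ∧
      V.degree < (gQ p * ∏ r ∈ T, gQ r).degree := by
  set R := ∏ r ∈ T, gQ r with hR
  have hRm : R.Monic := monic_prod_of_monic _ _ fun r _ => gQ_monic r
  have hnd : ¬ gQ p ∣ R := by
    rw [hR, (gQ_irr p).prime.dvd_finset_prod_iff]
    rintro ⟨r, hr, hd⟩
    exact gQ_not_dvd (by rintro rfl; exact hp hr) hd
  obtain ⟨α, β, hαβ⟩ := (gQ_irr p).coprime_iff_not_dvd.mpr hnd
  have hm : (gQ p * R).Monic := (gQ_monic p).mul hRm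
  have h1 := modByMonic_add_div (c * (β * R)) (gQ p * R)
  refine ⟨(c * (β * R)) %ₘ (gQ p * R), ?_, ?_, degree_modByMonic_lt _ hm⟩
  · refine ⟨-(c * α) - R * ((c * (β * R)) /ₘ (gQ p * R)), ?_⟩
    linear_combination h1 + c * hαβ
  · intro r hr
    have h2 : gQ r ∣ R := Finset.dvd_prod_of_mem _ hr
    have h3 : (c * (β * R)) %ₘ (gQ p * R)
        = c * (β * R) - gQ p * R * ((c * (β * R)) /ₘ (gQ p * R)) := by
      linear_combination h1
    rw [h3]
    exact dvd_sub ((h2.mul_left _).mul_left _) ((h2.mul_left _).mul_right _)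

variable [Finite k] [CharP k 2]

theorem TT_poly {p : HeightOneSpectrum k[X]} {r : RatFunc k} {y : k[X]}
    (hy : finAbv p (r - algebraMap k[X] (RatFunc k) y) < 1) :
    TT p r = 1 ↔ Nonsplit y (gQ p) := by
  rw [TT_eq_one]
  exact NS_iff p (gQ_span p) hy

theorem TT_small {p : HeightOneSpectrum k[X]} {r : RatFunc k} (h : finAbv p r < 1) :
    TT p r = 0 := TT_eq_zero.mpr (NS_small p h)

/-- a polynomial with a single nonzero class -/
theorem exists_poly_class (S : Finset (HeightOneSpectrum k[X])) (p : S) :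
    ∃ V : RatFunc k, (∀ r, finAbv r V ≤ 1) ∧ TT p.1 V = 1 ∧
      ∀ r ∈ S, r ≠ p.1 → TT r V = 0 := by
  classical
  obtain ⟨c, hc⟩ := exists_nonsplit (gQ_irr p.1)
  obtain ⟨V, h1, h2, -⟩ := poly_res (S.erase p.1) (Finset.notMem_erase _ _) c
  refine ⟨algebraMap k[X] (RatFunc k) V, fun r => finAbv_poly r V, ?_, ?_⟩
  · rw [TT_poly (y := c)]
    · exact hc
    · rw [← map_sub, finAbv_lt_one, mem_gen (gQ_span p.1)]; exact h1
  · intro r hr hrp
    apply TT_small
    rw [finAbv_lt_one, mem_gen (gQ_span r)]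
    exact h2 r (Finset.mem_erase.mpr ⟨hrp, hr⟩)

/-- a polar function with a single nonzero class -/
theorem exists_polar_class (S : Finset (HeightOneSpectrum k[X])) {p q : S} (hpq : p ≠ q) :
    ∃ f : RatFunc k, Polar q.1 f ∧ TT p.1 f = 1 ∧
      ∀ r ∈ S, r ≠ p.1 → r ≠ q.1 → TT r f = 0 := by
  classical
  obtain ⟨c, hc⟩ := exists_nonsplit (gQ_irr p.1)
  set T := (S.erase p.1).erase q.1 with hT
  have hpT : p.1 ∉ T := by
    intro h; exact (Finset.notMem_erase _ _) (Finset.mem_of_mem_erase h)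
  set M := (gQ p.1 * ∏ r ∈ T, gQ r).natDegree with hM
  obtain ⟨V, h1, h2, h3⟩ := poly_res T hpT (c * gQ q.1 ^ M)
  have hQ0 : gQ q.1 ^ M ≠ 0 := pow_ne_zero _ (gQ_irr q.1).ne_zero
  have hQ0' : algebraMap k[X] (RatFunc k) (gQ q.1 ^ M) ≠ 0 := by
    rwa [Ne, FaithfulSMul.algebraMap_eq_zero_iff]
  have hunit : ∀ r : HeightOneSpectrum k[X], r ≠ q.1 →
      finAbv r (algebraMap k[X] (RatFunc k) (gQ q.1 ^ M)) = 1 := by
    intro r hr
    rw [map_pow, map_pow, finAbv_gen (gQ_span q.1) hr, one_pow]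
  refine ⟨algebraMap k[X] (RatFunc k) V / algebraMap k[X] (RatFunc k) (gQ q.1 ^ M), ⟨?_, ?_⟩,
    ?_, ?_⟩
  · intro r hr
    rw [map_div₀, hunit r hr, div_one]
    exact finAbv_poly r V
  · by_cases h0 : V = 0
    · rw [h0, map_zero, zero_div, map_zero]; exact one_pos
    · rw [map_div₀, div_lt_one ((infAbv k).pos hQ0'), infAbv_poly h0, infAbv_poly hQ0]
      have h4 : (gQ p.1 * ∏ r ∈ T, gQ r) ≠ 0 :=
        mul_ne_zero (gQ_irr p.1).ne_zero (Finset.prod_ne_zero_iff.mpr fun r _ => (gQ_irr r).ne_zero)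
      have h5 : V.natDegree < M := natDegree_lt_natDegree h0 h3
      have h6 : M ≤ (gQ q.1 ^ M).natDegree := by
        rw [natDegree_pow]
        have := (gQ_irr q.1).natDegree_pos
        nlinarith
      exact zpow_lt_zpow_right₀ (by norm_num) (by exact_mod_cast lt_of_lt_of_le h5 h6)
  · have hpq' : p.1 ≠ q.1 := fun h => hpq (Subtype.ext h)
    rw [TT_poly (y := c)]
    · exact hc
    · have e : algebraMap k[X] (RatFunc k) V / algebraMap k[X] (RatFunc k) (gQ q.1 ^ M)
          - algebraMap k[X] (RatFunc k) c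
          = algebraMap k[X] (RatFunc k) (V - c * gQ q.1 ^ M)
            / algebraMap k[X] (RatFunc k) (gQ q.1 ^ M) := by
        rw [map_sub, map_mul]
        field_simp
      rw [e, map_div₀, hunit p.1 hpq', div_one, finAbv_lt_one, mem_gen (gQ_span p.1)]
      exact h1
  · intro r hr hrp hrq
    apply TT_small
    rw [map_div₀, hunit r hrq, div_one, finAbv_lt_one, mem_gen (gQ_span r)]
    exact h2 r (Finset.mem_erase.mpr ⟨hrq, Finset.mem_erase.mpr ⟨hrp, hr⟩⟩)

theorem Lam_zero (S : Finset (HeightOneSpectrum k[X])) : Lam S (0 : RatFunc k) = 0 := by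
  have h := Lam_add S (0 : RatFunc k) 0
  rw [add_zero] at h
  have : Lam S (0 : RatFunc k) + 0 = Lam S (0 : RatFunc k) + Lam S (0 : RatFunc k) := by
    rw [add_zero]; exact h
  exact (add_left_cancel this).symm

theorem Lam_poly [DecidableEq (HeightOneSpectrum k[X])] (S : Finset (HeightOneSpectrum k[X]))
    (p : S) {V : RatFunc k}
    (h1 : ∀ r, finAbv r V ≤ 1) (h2 : TT p.1 V = 1) (h3 : ∀ r ∈ S, r ≠ p.1 → TT r V = 0) :
    Lam S V = Matrix.single p p 1 := by
  ext r s
  unfold Lam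
  rw [Matrix.single_apply]
  by_cases hrs : r = s
  · subst hrs
    rw [if_pos rfl, pp_of_reg (h1 r.1), sub_zero]
    by_cases hp : p = r
    · rw [if_pos ⟨hp, hp⟩, ← hp]; exact h2
    · rw [if_neg (fun h => hp h.1)]
      exact h3 r.1 r.2 (fun h => hp (Subtype.ext h.symm))
  · rw [if_neg hrs, pp_of_reg (h1 s.1), TT_zero, if_neg (fun h => hrs (h.1.symm.trans h.2))]

theorem Lam_polar [DecidableEq (HeightOneSpectrum k[X])] (S : Finset (HeightOneSpectrum k[X]))
    {p q : S} (hpq : p ≠ q) {f : RatFunc k}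
    (h1 : Polar q.1 f) (h2 : TT p.1 f = 1)
    (h3 : ∀ r ∈ S, r ≠ p.1 → r ≠ q.1 → TT r f = 0) :
    Lam S f = Matrix.single p q 1 + Matrix.single p p 1 := by
  ext r s
  unfold Lam
  rw [Matrix.add_apply, Matrix.single_apply, Matrix.single_apply]
  by_cases hrs : r = s
  · subst hrs
    rw [if_pos rfl]
    by_cases hrq : r = q
    · subst hrq
      rw [pp_of_polar h1, sub_self, TT_zero, if_neg (fun h => hpq h.1), if_neg (fun h => hpq h.1),
        add_zero]
    · have hrq' : r.1 ≠ q.1 := fun h => hrq (Subtype.ext h)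
      rw [pp_of_reg (h1.1 r.1 hrq'), sub_zero, if_neg (fun h => hrq h.2.symm), zero_add]
      by_cases hp : p = r
      · rw [if_pos ⟨hp, hp⟩, ← hp]; exact h2
      · rw [if_neg (fun h => hp h.1)]
        exact h3 r.1 r.2 (fun h => hp (Subtype.ext h.symm)) hrq'
  · rw [if_neg hrs, if_neg (fun h : p = r ∧ p = s => hrs (h.1.symm.trans h.2)), add_zero]
    by_cases hsq : s = q
    · subst hsq
      rw [pp_of_polar h1]
      by_cases hp : p = r
      · rw [if_pos ⟨hp, rfl⟩, ← hp]; exact h2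
      · rw [if_neg (fun h => hp h.1)]
        exact h3 r.1 r.2 (fun h => hp (Subtype.ext h.symm)) (fun h => hrs (Subtype.ext h))
    · have hsq' : s.1 ≠ q.1 := fun h => hsq (Subtype.ext h)
      rw [pp_of_reg (h1.1 s.1 hsq'), TT_zero, if_neg (fun h => hsq h.2.symm)]

/-- **Surjectivity.** -/
theorem Lam_surj (S : Finset (HeightOneSpectrum k[X])) (L : Matrix S S (ZMod 2)) :
    ∃ v : RatFunc k, (∀ p, p ∉ S → finAbv p v ≤ 1) ∧ Lam S v = L := by
  classical
  have hadd : ∀ L L' : Matrix S S (ZMod 2),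
      (∃ v : RatFunc k, (∀ p, p ∉ S → finAbv p v ≤ 1) ∧ Lam S v = L) →
      (∃ v : RatFunc k, (∀ p, p ∉ S → finAbv p v ≤ 1) ∧ Lam S v = L') →
      ∃ v : RatFunc k, (∀ p, p ∉ S → finAbv p v ≤ 1) ∧ Lam S v = L + L' := by
    rintro L L' ⟨v, h1, rfl⟩ ⟨v', h1', rfl⟩
    exact ⟨v + v', fun p hp => (finAbv_nonarch p _ _).trans (max_le (h1 p hp) (h1' p hp)),
      Lam_add S v v'⟩
  have hdiag : ∀ p : S, ∃ v : RatFunc k, (∀ r, r ∉ S → finAbv r v ≤ 1) ∧
      Lam S v = Matrix.single p p 1 := by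
    intro p
    obtain ⟨V, h1, h2, h3⟩ := exists_poly_class S p
    exact ⟨V, fun r _ => h1 r, Lam_poly S p h1 h2 h3⟩
  refine Matrix.induction_on' L ⟨0, fun p _ => by rw [map_zero]; exact zero_le_one, Lam_zero S⟩
    hadd ?_
  intro p q x
  rcases zmod_cases x with rfl | rfl
  · refine ⟨0, fun p _ => by rw [map_zero]; exact zero_le_one, ?_⟩
    rw [Matrix.single_zero]; exact Lam_zero S
  · by_cases hpq : p = q
    · subst hpq; exact hdiag p
    · obtain ⟨f, h1, h2, h3⟩ := exists_polar_class S hpq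
      have h4 := hadd _ _ ⟨f, fun r hr => h1.1 r (by rintro rfl; exact hr q.2),
        Lam_polar S hpq h1 h2 h3⟩ (hdiag p)
      have h5 : Matrix.single p q (1 : ZMod 2) + Matrix.single p p 1 + Matrix.single p p 1
          = Matrix.single p q 1 := by
        rw [add_assoc, ← Matrix.single_add]
        have : (1 : ZMod 2) + 1 = 0 := by decide
        rw [this, Matrix.single_zero, add_zero]
      rwa [h5] at h4

end Pool.Agent.H2
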