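import Pool.Agent.H2.Natural

/-!
# Selmer classes as polynomials
-/

namespace Pool.Agent.H2

open Polynomial IsDedekindDomain WeierstrassCurve WeierstrassCurve.Affine

universe u

variable {k : Type u} [Field k] [Finite k] [CharP k 2]

/-- even part of a polynomial -/
noncomputable def PE (p : k[X]) : k[X] := (poly_ex p).choose

/-- odd part of a polynomial -/
noncomputable def PC (p : k[X]) : k[X] := (poly_ex p).choose_spec.choose

theorem PE_PC (p : k[X]) : p = PE p ^ 2 + X * PC p ^ 2 := (poly_ex p).choose_spec.choose_spec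

/-- the quantity `D` -/
noncomputable def PD (W : WeierstrassCurve k[X]) : k[X] :=
  W.a₁ ^ 2 * W.a₆ + W.a₁ * W.a₃ * W.a₄ + W.a₂ * W.a₃ ^ 2 + W.a₄ ^ 2

/-- `κ` as a polynomial -/
noncomputable def pkap (W : WeierstrassCurve k[X]) : k[X] :=
  W.a₃ * PC (W.a₁ * W.a₃) + W.a₁ * PC (PD W)

/-- `Δ₀` as a polynomial -/
noncomputable def pdel (W : WeierstrassCurve k[X]) : k[X] :=
  W.a₃ ^ 2 + W.a₁ * W.a₃ * PE (W.a₁ * W.a₃) + W.a₁ ^ 2 * PE (PD W)

theorem map_PE (p : k[X]) :
    algebraMap k[X] (RatFunc k) (PE p) = (basisX (k := k)).E (algebraMap k[X] (RatFunc k) p) := by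
  symm
  refine basisX.E_eq (b := algebraMap k[X] (RatFunc k) (PC p)) ?_
  conv_lhs => rw [PE_PC p]
  rw [map_add, map_mul, map_pow, map_pow, RatFunc.algebraMap_X]

theorem map_PC (p : k[X]) :
    algebraMap k[X] (RatFunc k) (PC p) = (basisX (k := k)).C (algebraMap k[X] (RatFunc k) p) := by
  symm
  refine basisX.C_eq (a := algebraMap k[X] (RatFunc k) (PE p)) ?_
  conv_lhs => rw [PE_PC p]
  rw [map_add, map_mul, map_pow, map_pow, RatFunc.algebraMap_X]

variable (W : WeierstrassCurve k[X])

/-- the curve over the rational function field -/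
noncomputable abbrev crv : Affine (RatFunc k) := W.map (algebraMap k[X] (RatFunc k))

omit [Finite k] [CharP k 2] in
theorem Dd_crv : Dd (crv W) = algebraMap k[X] (RatFunc k) (PD W) := by
  unfold Dd PD
  simp

theorem kap_crv : kap basisX (crv W) = algebraMap k[X] (RatFunc k) (pkap W) := by
  unfold kap pkap
  rw [Dd_crv, map_add, map_mul, map_mul, map_PC, map_PC]
  simp

theorem del_crv : del basisX (crv W) = algebraMap k[X] (RatFunc k) (pdel W) := by
  unfold del pdel
  rw [Dd_crv, map_add, map_add, map_mul, map_mul, map_mul, map_PE, map_PE]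
  simp

theorem hk_crv (hk : W.a₁ * pkap W ≠ 0) : (crv W).a₁ * kap basisX (crv W) ≠ 0 := by
  rw [kap_crv]
  change algebraMap k[X] (RatFunc k) W.a₁ * _ ≠ 0
  rw [← map_mul]
  rwa [Ne, FaithfulSMul.algebraMap_eq_zero_iff]

section LocalField

variable {K : Type u} [Field K] {v : AbsoluteValue K ℝ} {τ : K} (g : GoodPlace v τ 2)
include g

omit g in
/-- the valuation of the completion -/
noncomputable def cval (g : GoodPlace v τ 2) : Valuation v.Completion NNReal :=
  letI := g.isUltra
  NormedField.valuation (K := v.Completion)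

theorem cval_apply (x : v.Completion) : cval g x = ‖x‖₊ := rfl

theorem val_mem_iff (x : v.Completion) : x ∈ (cval g).integer ↔ ‖x‖ ≤ 1 := by
  rw [Valuation.mem_integer_iff, cval_apply]
  norm_cast

theorem stable_comp : Stable g.comp_basis (cval g) := by
  intro u hu
  rw [val_mem_iff g] at hu
  rw [val_mem_iff g, val_mem_iff g]
  apply g.star'
  rw [g.comp_basis.spec']
  exact hu

/-- approximation by elements of `K`, preserving integrality -/
theorem approx_int {V : v.Completion} (hV : ‖V‖ ≤ 1) (ε : ℝ) (hε : 0 < ε) (hε1 : ε ≤ 1) :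
    ∃ x : K, v x ≤ 1 ∧ ‖V - algebraMap K v.Completion x‖ < ε := by
  obtain ⟨x, hx⟩ := GoodPlace.approx V hε
  refine ⟨x, ?_, hx⟩
  rw [← GoodPlace.norm_algebraMap (v := v)]
  have h1 : algebraMap K v.Completion x = V + -(V - algebraMap K v.Completion x) := by ring
  rw [h1]
  refine (g.ultra _ _).trans (max_le hV ?_)
  rw [norm_neg]
  linarith

end LocalField

section Fin

variable (P : HeightOneSpectrum k[X])

omit [Finite k] [CharP k 2] in
theorem finAbv_a₁ (hsq : Squarefree W.a₁) :
    finAbv P (algebraMap k[X] (RatFunc k) W.a₁) = 1 ∨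
    finAbv P (algebraMap k[X] (RatFunc k) W.a₁) = (2 : ℝ)⁻¹ := by
  have ha : W.a₁ ≠ 0 := hsq.ne_zero
  have ha' : algebraMap k[X] (RatFunc k) W.a₁ ≠ 0 := by
    rwa [Ne, FaithfulSMul.algebraMap_eq_zero_iff]
  obtain ⟨n, hn⟩ := finAbv_disc P _ ha'
  have h1 := finAbv_poly P W.a₁
  have h2 : ¬ finAbv P (algebraMap k[X] (RatFunc k) W.a₁) ≤ (2 : ℝ) ^ (-((2 : ℕ) : ℤ)) := by
    rw [finAbv_pow]
    obtain ⟨g, hg, hPg⟩ := exists_gen P
    rw [hPg, Ideal.span_singleton_pow, Ideal.mem_span_singleton, pow_two]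
    intro h3
    exact hg.not_isUnit (hsq g h3)
  rw [hn] at h1 h2 ⊢
  have h3 : n ≤ 0 := by
    by_contra h4
    have : (2 : ℝ) ^ (1 : ℤ) ≤ (2 : ℝ) ^ n := zpow_le_zpow_right₀ (by norm_num) (by omega)
    rw [zpow_one] at this
    linarith
  have h4 : -1 ≤ n := by
    by_contra h5
    apply h2
    exact zpow_le_zpow_right₀ (by norm_num) (by push_cast; omega)
  have h5 : n = 0 ∨ n = -1 := by omega
  rcases h5 with rfl | rfl
  · left; norm_num
  · right; norm_num

open scoped Classical in
theorem locOK_fin (hsq : Squarefree W.a₁) (hk : W.a₁ * pkap W ≠ 0)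
    (Q : Pts (crv W) (finAbv P).Completion) :
    LocOK (finAbv_good P).comp_basis ((crv W)⁄(finAbv P).Completion) (cval (finAbv_good P))
      (cExt basisX (crv W) (hk_crv W hk) _ (finAbv_good P).comp_basis Q) := by
  have g := finAbv_good P
  have hint : ∀ f : k[X], algebraMap (RatFunc k) (finAbv P).Completion
      (algebraMap k[X] (RatFunc k) f) ∈ (cval g).integer := by
    intro f
    rw [val_mem_iff g, GoodPlace.norm_algebraMap]
    exact finAbv_poly P f
  refine local_main g.comp_basis (stable_comp g) ⟨hint _, hint _, hint _, hint _, hint _⟩ ?_ _ ?_ Q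
  · have := hint X
    rwa [RatFunc.algebraMap_X] at this
  · have hv : ∀ x : (finAbv P).Completion, cval g x = ‖x‖₊ := fun _ => rfl
    have hn : ‖(((crv W)⁄(finAbv P).Completion).a₁ : (finAbv P).Completion)‖
        = finAbv P (algebraMap k[X] (RatFunc k) W.a₁) := GoodPlace.norm_algebraMap _
    rcases finAbv_a₁ W P hsq with h1 | h1
    · left
      rw [hv]
      apply NNReal.eq
      rw [coe_nnnorm, hn, h1]; rfl
    · right
      constructor
      · rw [hv]
        apply NNReal.coe_lt_coe.mp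
        rw [coe_nnnorm, hn, h1]
        norm_num
      · intro z hz
        rw [hv] at hz
        have hz' : ‖z‖ < 1 := by
          have := NNReal.coe_lt_coe.mpr hz
          rwa [coe_nnnorm] at this
        have h2 := g.lt_one z hz'
        rw [val_mem_iff g, norm_div, hn, h1, div_le_one (by norm_num)]
        exact h2

/-- the finite local conditions -/
theorem cond_fin (hsq : Squarefree W.a₁) (hk : W.a₁ * pkap W ≠ 0)
    (Q : Pts (crv W) (finAbv P).Completion) (c : RatFunc k)
    (hc : algebraMap (RatFunc k) (finAbv P).Completion c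
      = cExt basisX (crv W) (hk_crv W hk) _ (finAbv_good P).comp_basis Q) :
    finAbv P (c / algebraMap k[X] (RatFunc k) W.a₁) ≤ 1 ∧
    ∀ m : ℕ, finAbv P (algebraMap k[X] (RatFunc k) (pkap W)) ≤ (2 : ℝ) ^ (-(m : ℤ)) →
      ∃ V : k[X], finAbv P (algebraMap k[X] (RatFunc k) (V ^ 2 + W.a₁ * pkap W * V)
        - c * (algebraMap k[X] (RatFunc k) (pdel W) + RatFunc.X * c))
          ≤ (2 : ℝ) ^ (-((2 * m : ℕ) : ℤ)) := by
  have g := finAbv_good P
  have hu := g.isUltra
  have hL := g.charP_comp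
  have h1 := locOK_fin W P hsq hk Q
  rw [← hc] at h1
  obtain ⟨h2, V, f, hV, hf, hVf⟩ := h1
  rw [val_mem_iff g] at h2 hV hf
  constructor
  · have : algebraMap (RatFunc k) (finAbv P).Completion c
      / (((crv W)⁄(finAbv P).Completion).a₁ : (finAbv P).Completion)
      = algebraMap (RatFunc k) (finAbv P).Completion (c / algebraMap k[X] (RatFunc k) W.a₁) := by
      rw [map_div₀]; rfl
    rw [this, GoodPlace.norm_algebraMap] at h2
    exact h2
  · intro m hm
    -- approximate `V` by a polynomial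
    have hε : (0 : ℝ) < (2 : ℝ) ^ (-(m : ℤ)) := by positivity
    have hε1 : (2 : ℝ) ^ (-(m : ℤ)) ≤ 1 := zpow_le_one_of_nonpos₀ (by norm_num) (by omega)
    obtain ⟨x, hx1, hx2⟩ := approx_int g hV _ hε hε1
    obtain ⟨V₀, hV₀⟩ := P.exists_valuation_sub_lt_of_integer ((finAbv_le_one_iff P x).mp hx1)
      (WithZero.unitsWithZeroEquiv.symm (Multiplicative.ofAdd (-(m : ℤ))))
    have hV₀' : finAbv P (algebraMap k[X] (RatFunc k) V₀ - x) ≤ (2 : ℝ) ^ (-(m : ℤ)) := by
      obtain ⟨π, hπ⟩ := P.valuation_exists_uniformizer (RatFunc k)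
      have h1 : P.valuation (RatFunc k) (π ^ m) = WithZero.exp (-(m : ℤ)) := by
        rw [map_pow, hπ, ← WithZero.exp_nsmul]
        congr 1
        simp
      rw [← finAbv_exp P _ _ h1, finAbv_le_iff, h1]
      exact hV₀.le
    have hd : ‖V - algebraMap (RatFunc k) (finAbv P).Completion (algebraMap k[X] (RatFunc k) V₀)‖
        ≤ (2 : ℝ) ^ (-(m : ℤ)) := by
      have e : V - algebraMap (RatFunc k) (finAbv P).Completion (algebraMap k[X] (RatFunc k) V₀)
        = (V - algebraMap (RatFunc k) (finAbv P).Completion x)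
          + -(algebraMap (RatFunc k) (finAbv P).Completion
            (algebraMap k[X] (RatFunc k) V₀ - x)) := by
        rw [map_sub]; ring
      rw [e]
      refine (g.ultra _ _).trans (max_le hx2.le ?_)
      rw [norm_neg, GoodPlace.norm_algebraMap]
      exact hV₀'
    refine ⟨V₀, ?_⟩
    rw [← GoodPlace.norm_algebraMap (v := finAbv P)]
    have hka : kap (finAbv_good P).comp_basis ((crv W)⁄(finAbv P).Completion)
        = algebraMap (RatFunc k) (finAbv P).Completion (algebraMap k[X] (RatFunc k) (pkap W)) := by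
      rw [← kap_crv]
      exact (map_kap basisX g.comp_basis (algebraMap (RatFunc k) (finAbv P).Completion)
        rfl (crv W)).symm
    have hde : del (finAbv_good P).comp_basis ((crv W)⁄(finAbv P).Completion)
        = algebraMap (RatFunc k) (finAbv P).Completion (algebraMap k[X] (RatFunc k) (pdel W)) := by
      rw [← del_crv]
      exact (map_del basisX g.comp_basis (algebraMap (RatFunc k) (finAbv P).Completion)
        rfl (crv W)).symm
    have ha1 : (((crv W)⁄(finAbv P).Completion).a₁ : (finAbv P).Completion)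
        = algebraMap (RatFunc k) (finAbv P).Completion (algebraMap k[X] (RatFunc k) W.a₁) := rfl
    rw [hka, hde, ha1] at hVf
    simp only [map_sub, map_mul, map_add, map_pow]
    rw [← hVf]
    set A := algebraMap (RatFunc k) (finAbv P).Completion (algebraMap k[X] (RatFunc k) W.a₁)
      with hA
    set κ := algebraMap (RatFunc k) (finAbv P).Completion (algebraMap k[X] (RatFunc k) (pkap W))
      with hκ
    set U := algebraMap (RatFunc k) (finAbv P).Completion (algebraMap k[X] (RatFunc k) V₀) with hU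
    have hκn : ‖κ‖ ≤ (2 : ℝ) ^ (-(m : ℤ)) := by rw [hκ, GoodPlace.norm_algebraMap]; exact hm
    have hAn : ‖A‖ ≤ 1 := by rw [hA, GoodPlace.norm_algebraMap]; exact finAbv_poly P _
    have e2 : U ^ 2 + A * κ * U - (V ^ 2 + A * κ * V + κ ^ 2 * f)
        = (V - U) ^ 2 + (A * (κ * (V - U)) + κ ^ 2 * f) := by grind
    rw [e2]
    have hsplit : (2 : ℝ) ^ (-((2 * m : ℕ) : ℤ)) = (2 : ℝ) ^ (-(m : ℤ)) * (2 : ℝ) ^ (-(m : ℤ)) := by
      rw [← zpow_add₀ two_ne_zero]; congr 1; push_cast; ring
    rw [hsplit]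
    refine (g.ultra _ _).trans (max_le ?_ ((g.ultra _ _).trans (max_le ?_ ?_)))
    · rw [norm_pow, pow_two]
      exact mul_le_mul hd hd (norm_nonneg _) hε.le
    · rw [norm_mul, norm_mul]
      calc ‖A‖ * (‖κ‖ * ‖V - U‖) ≤ 1 * (‖κ‖ * ‖V - U‖) := by gcongr
        _ = ‖κ‖ * ‖V - U‖ := one_mul _
        _ ≤ _ := mul_le_mul hκn hd (norm_nonneg _) hε.le
    · rw [norm_mul, norm_pow, pow_two]
      calc ‖κ‖ * ‖κ‖ * ‖f‖ ≤ ‖κ‖ * ‖κ‖ * 1 := by gcongr
        _ = ‖κ‖ * ‖κ‖ := mul_one _
        _ ≤ _ := mul_le_mul hκn hκn (norm_nonneg _) hε.le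

end Fin

end Pool.Agent.H2
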