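import Pool.Agent.H2.Infinity

/-!
# Selmer classes as polynomials: gluing the local conditions
-/

namespace Pool.Agent.H2

open Polynomial IsDedekindDomain WeierstrassCurve WeierstrassCurve.Affine

universe u

variable {k : Type u} [Field k] [Finite k] [CharP k 2] (W : WeierstrassCurve k[X])

/-- the polynomial data attached to a Selmer class -/
structure SelData (d : ℕ) (Z : k[X]) : Prop where
  deg : Z = 0 ∨ Z.natDegree + 2 ≤ 5 * d
  fin : ∃ V : k[X], pkap W ^ 2 ∣ V ^ 2 + W.a₁ * pkap W * V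
    + W.a₁ * Z * (pdel W + X * (W.a₁ * Z))
  inf : ∃ V : RatFunc k, infAbv k V * 2 ≤ (2 : ℝ) ^ (6 * d) ∧
      infAbv k (V ^ 2 + algebraMap k[X] (RatFunc k) W.a₁ * algebraMap k[X] (RatFunc k) (pkap W) * V
        - algebraMap k[X] (RatFunc k) (W.a₁ * Z * (pdel W + X * (W.a₁ * Z))))
          ≤ (infAbv k (algebraMap k[X] (RatFunc k) (pkap W))) ^ 2 * (2 : ℝ) ^ (2 * d)

omit [Finite k] [CharP k 2] in
theorem dvd_of_finAbv {f g : k[X]} (hg : g ≠ 0)
    (h : ∀ P : HeightOneSpectrum k[X], finAbv P (algebraMap k[X] (RatFunc k) f)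
      ≤ finAbv P (algebraMap k[X] (RatFunc k) g)) : g ∣ f := by
  have hg' : algebraMap k[X] (RatFunc k) g ≠ 0 := by
    rwa [Ne, FaithfulSMul.algebraMap_eq_zero_iff]
  have h1 : algebraMap k[X] (RatFunc k) f / algebraMap k[X] (RatFunc k) g
      ∈ (algebraMap k[X] (RatFunc k)).range := by
    apply HeightOneSpectrum.mem_integers_of_valuation_le_one
    intro P
    rw [← finAbv_le_one_iff, map_div₀, div_le_one ((finAbv P).pos hg')]
    exact h P
  obtain ⟨q, hq⟩ := h1
  refine ⟨q, ?_⟩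
  apply FaithfulSMul.algebraMap_injective k[X] (RatFunc k)
  rw [map_mul, hq]
  field_simp

omit [Finite k] [CharP k 2] in
theorem exists_exp (P : HeightOneSpectrum k[X]) {f : k[X]} (hf : f ≠ 0) :
    ∃ m : ℕ, finAbv P (algebraMap k[X] (RatFunc k) f) = (2 : ℝ) ^ (-(m : ℤ)) := by
  have hf' : algebraMap k[X] (RatFunc k) f ≠ 0 := by
    rwa [Ne, FaithfulSMul.algebraMap_eq_zero_iff]
  obtain ⟨n, hn⟩ := finAbv_disc P _ hf'
  have h1 := finAbv_poly P f
  rw [hn] at h1
  have h2 : n ≤ 0 := by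
    by_contra h3
    have : (2 : ℝ) ^ (1 : ℤ) ≤ (2 : ℝ) ^ n := zpow_le_zpow_right₀ (by norm_num) (by omega)
    rw [zpow_one] at this
    linarith
  refine ⟨n.natAbs, ?_⟩
  rw [hn]
  congr 1
  omega

theorem selData_of {d : ℕ} (hW : DegBound W d) (hsq : Squarefree W.a₁) (hk : W.a₁ * pkap W ≠ 0)
    (P : Pts (crv W) (Ks (RatFunc k))) (hP : P ∈ selmerPoints (crv W) 2) :
    ∃ Z : k[X], SelData W d Z ∧
      algebraMap (RatFunc k) (Ks (RatFunc k)) (algebraMap k[X] (RatFunc k) (W.a₁ * Z))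
        = cExt basisX (crv W) (hk_crv W hk) _ (sepK basisX) P := by
  have hK : CharP k[X] 2 := inferInstance
  obtain ⟨c, hc⟩ := exists_val basisX (crv W) (hk_crv W hk) P hP
  have ha : W.a₁ ≠ 0 := left_ne_zero_of_mul hk
  have hκ : pkap W ≠ 0 := right_ne_zero_of_mul hk
  have ha' : algebraMap k[X] (RatFunc k) W.a₁ ≠ 0 := by
    rwa [Ne, FaithfulSMul.algebraMap_eq_zero_iff]
  have hfin : ∀ p : HeightOneSpectrum k[X], finAbv p (c / algebraMap k[X] (RatFunc k) W.a₁) ≤ 1 ∧
    ∀ m : ℕ, finAbv p (algebraMap k[X] (RatFunc k) (pkap W)) ≤ (2 : ℝ) ^ (-(m : ℤ)) →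
      ∃ V : k[X], finAbv p (algebraMap k[X] (RatFunc k) (V ^ 2 + W.a₁ * pkap W * V)
        - c * (algebraMap k[X] (RatFunc k) (pdel W) + RatFunc.X * c))
          ≤ (2 : ℝ) ^ (-((2 * m : ℕ) : ℤ)) := by
    intro p
    obtain ⟨Q, hQ⟩ := exists_local basisX (crv W) (hk_crv W hk) P hP hc (finAbv p)
      (finAbv_good p).nontrivial (finAbv_good p).comp_basis
    exact cond_fin W p hsq hk Q c hQ
  obtain ⟨Q, hQ⟩ := exists_local basisX (crv W) (hk_crv W hk) P hP hc (infAbv k)
      infAbv_good.nontrivial basis_inf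
  obtain ⟨hi1, hi2⟩ := cond_inf W hW hsq hk Q c hQ
  -- `c = a₁ Z`
  have h1 : c / algebraMap k[X] (RatFunc k) W.a₁ ∈ (algebraMap k[X] (RatFunc k)).range := by
    apply HeightOneSpectrum.mem_integers_of_valuation_le_one
    intro p
    rw [← finAbv_le_one_iff]
    exact (hfin p).1
  obtain ⟨Z, hZ⟩ := h1
  have hcZ : c = algebraMap k[X] (RatFunc k) (W.a₁ * Z) := by
    rw [map_mul, hZ]; field_simp
  refine ⟨Z, ⟨?_, ?_, ?_⟩, by rw [← hcZ]; exact hc⟩
  · -- degree
    by_cases hZ0 : Z = 0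
    · exact Or.inl hZ0
    · right
      rw [← hZ, infAbv_poly hZ0, zpow_natCast, ← pow_add] at hi1
      exact (pow_le_pow_iff_right₀ (by norm_num : (1 : ℝ) < 2)).mp hi1
  · -- finite places
    have hex : ∀ p : HeightOneSpectrum k[X], ∃ m : ℕ,
        finAbv p (algebraMap k[X] (RatFunc k) (pkap W)) = (2 : ℝ) ^ (-(m : ℤ)) :=
      fun p => exists_exp p hκ
    choose m hm using hex
    have hV : ∀ p : HeightOneSpectrum k[X], ∃ V : k[X],
        finAbv p (algebraMap k[X] (RatFunc k) (V ^ 2 + W.a₁ * pkap W * V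
        + W.a₁ * Z * (pdel W + X * (W.a₁ * Z)))) ≤ (2 : ℝ) ^ (-((2 * m p : ℕ) : ℤ)) := by
      intro p
      obtain ⟨V, hV⟩ := (hfin p).2 (m p) (hm p).le
      refine ⟨V, ?_⟩
      have e : algebraMap k[X] (RatFunc k) (V ^ 2 + W.a₁ * pkap W * V
        + W.a₁ * Z * (pdel W + X * (W.a₁ * Z)))
        = algebraMap k[X] (RatFunc k) (V ^ 2 + W.a₁ * pkap W * V)
        - c * (algebraMap k[X] (RatFunc k) (pdel W) + RatFunc.X * c) := by
        rw [hcZ, ← RatFunc.algebraMap_X, ← map_mul, ← map_add, ← map_mul, ← map_sub]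
        congr 1
        rw [CharTwo.sub_eq_add]
      rw [e]
      exact hV
    choose V hV using hV
    have hfinset : {p : HeightOneSpectrum k[X] | p.asIdeal ∣ Ideal.span {pkap W}}.Finite :=
      Ideal.finite_factors (by rwa [Ne, Ideal.zero_eq_bot, Ideal.span_singleton_eq_bot])
    obtain ⟨U, hU⟩ := IsDedekindDomain.exists_forall_sub_mem_ideal (s := hfinset.toFinset)
      (fun p : HeightOneSpectrum k[X] => p.asIdeal) (fun p => m p)
      (fun p _ => p.prime) (fun p _ q _ hpq h => hpq (HeightOneSpectrum.ext h))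
      (fun p => V p)
    refine ⟨U, dvd_of_finAbv (pow_ne_zero 2 hκ) fun p => ?_⟩
    by_cases hp : p.asIdeal ∣ Ideal.span {pkap W}
    · have h2 := hU p (by simpa using hp)
      rw [← finAbv_pow] at h2
      rw [map_pow, map_pow, hm p]
      have e : U ^ 2 + W.a₁ * pkap W * U + W.a₁ * Z * (pdel W + X * (W.a₁ * Z))
        = (V p ^ 2 + W.a₁ * pkap W * V p + W.a₁ * Z * (pdel W + X * (W.a₁ * Z)))
          + ((U - V p) ^ 2 + W.a₁ * (pkap W * (U - V p))) := by grind
      have hsplit : (2 : ℝ) ^ (-((2 * m p : ℕ) : ℤ)) = ((2 : ℝ) ^ (-(m p : ℤ))) ^ 2 := by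
        rw [pow_two, ← zpow_add₀ two_ne_zero]; congr 1; push_cast; ring
      have hpos : (0 : ℝ) < (2 : ℝ) ^ (-(m p : ℤ)) := by positivity
      rw [e, map_add]
      refine (finAbv_nonarch p _ _).trans (max_le ?_ ?_)
      · rw [← hsplit]; exact hV p
      · rw [map_add]
        refine (finAbv_nonarch p _ _).trans (max_le ?_ ?_)
        · rw [map_pow, map_pow]
          exact pow_le_pow_left₀ ((finAbv p).nonneg _) h2 2
        · rw [map_mul, map_mul, map_mul, map_mul, hm p]
          have h3 := finAbv_poly p W.a₁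
          calc finAbv p (algebraMap k[X] (RatFunc k) W.a₁) * ((2 : ℝ) ^ (-(m p : ℤ))
                * finAbv p (algebraMap k[X] (RatFunc k) (U - V p)))
              ≤ 1 * ((2 : ℝ) ^ (-(m p : ℤ)) * (2 : ℝ) ^ (-(m p : ℤ))) := by
                apply mul_le_mul h3 _ _ zero_le_one
                · exact mul_le_mul_of_nonneg_left h2 hpos.le
                · exact mul_nonneg hpos.le ((finAbv p).nonneg _)
            _ = _ := by ring
    · have h3 : ¬ finAbv p (algebraMap k[X] (RatFunc k) (pkap W)) < 1 := by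
        rw [finAbv_lt_one]
        intro h4
        apply hp
        rw [Ideal.dvd_iff_le, Ideal.span_singleton_le_iff_mem]
        exact h4
      rw [not_lt] at h3
      rw [map_pow (algebraMap k[X] (RatFunc k)), map_pow]
      refine (finAbv_poly p _).trans (one_le_pow₀ h3)
  · -- infinity
    obtain ⟨V, hV1, hV2⟩ := hi2
    refine ⟨V, hV1, ?_⟩
    rw [hcZ] at hV2
    have e : algebraMap k[X] (RatFunc k) (W.a₁ * Z * (pdel W + X * (W.a₁ * Z)))
      = algebraMap k[X] (RatFunc k) (W.a₁ * Z) * (algebraMap k[X] (RatFunc k) (pdel W)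
        + RatFunc.X * algebraMap k[X] (RatFunc k) (W.a₁ * Z)) := by
      rw [← RatFunc.algebraMap_X, ← map_mul, ← map_add, ← map_mul]
    rw [e]
    exact hV2

/-- The Selmer group injects into the polynomial data. -/
theorem selmer_inj {d : ℕ} (hW : DegBound W d) (hsq : Squarefree W.a₁)
    (hk : W.a₁ * pkap W ≠ 0) :
    ∃ φ : SelmerGroup (crv W) 2 → {Z : k[X] // SelData W d Z}, Function.Injective φ ∧
      (φ 0).1 = 0 := by
  have ha : W.a₁ ≠ 0 := left_ne_zero_of_mul hk
  choose ψ hψ1 hψ2 using fun P : selmerPoints (crv W) 2 => selData_of W hW hsq hk P.1 P.2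
  have hinj : Function.Injective (algebraMap k[X] (RatFunc k)) :=
    FaithfulSMul.algebraMap_injective _ _
  have hker : ∀ P Q : selmerPoints (crv W) 2, ψ P = ψ Q ↔
      cExt basisX (crv W) (hk_crv W hk) _ (sepK basisX) P.1
        = cExt basisX (crv W) (hk_crv W hk) _ (sepK basisX) Q.1 := by
    intro P Q
    rw [← hψ2, ← hψ2]
    constructor
    · intro h; rw [h]
    · intro h
      have h1 := hinj ((algebraMap (RatFunc k) (Ks (RatFunc k))).injective h)
      exact mul_left_cancel₀ ha h1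
  set N := ((nsmulAddMonoidHom 2 : Pts (crv W) (Ks (RatFunc k)) →+ _).range.addSubgroupOf
    (selmerPoints (crv W) 2)) with hN
  have hrel : ∀ P Q : selmerPoints (crv W) 2, (QuotientAddGroup.mk P : _ ⧸ N) = QuotientAddGroup.mk Q
      ↔ ψ P = ψ Q := by
    intro P Q
    rw [hker, QuotientAddGroup.eq, hN, AddSubgroup.mem_addSubgroupOf, AddMonoidHom.mem_range]
    constructor
    · rintro ⟨R, hR⟩
      have h1 : Q.1 = P.1 + 2 • R := by
        have h2 : (2 : ℕ) • R = -P.1 + Q.1 := by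
          simpa using hR
        rw [h2]; abel
      rw [h1, map_add, cExt_two, add_zero]
    · intro h
      have h1 : cExt basisX (crv W) (hk_crv W hk) _ (sepK basisX) (-P.1 + Q.1) = 0 := by
        rw [map_add, map_neg, h]; abel
      obtain ⟨R, hR⟩ := cExt_ker basisX (crv W) (hk_crv W hk) (sepK basisX) _ h1
      exact ⟨R, by simpa using hR⟩
  refine ⟨Quotient.lift (fun P => ⟨ψ P, hψ1 P⟩) ?_, ?_, ?_⟩
  · intro P Q hPQ
    have h1 : (QuotientAddGroup.mk P : _ ⧸ N) = QuotientAddGroup.mk Q := Quotient.sound hPQ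
    exact Subtype.ext ((hrel P Q).mp h1)
  · intro x y
    induction x using QuotientAddGroup.induction_on with | H P => ?_
    induction y using QuotientAddGroup.induction_on with | H Q => ?_
    intro h
    have h1 : ψ P = ψ Q := congrArg Subtype.val h
    exact (hrel P Q).mpr h1
  · have h1 := hψ2 0
    have h2 : ψ 0 = 0 := by
      have h3 : cExt basisX (crv W) (hk_crv W hk) _ (sepK basisX)
        ((0 : selmerPoints (crv W) 2) : Pts (crv W) (Ks (RatFunc k))) = 0 := by
        rw [AddSubgroup.coe_zero, map_zero]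
      rw [h3, map_eq_zero, FaithfulSMul.algebraMap_eq_zero_iff] at h1
      exact (mul_eq_zero.mp h1).resolve_left ha
    exact h2

end Pool.Agent.H2
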