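import Pool.Agent.H2.Places

/-!
# The local densities
-/

namespace Pool.Agent.H2

universe u

section

variable {F : Type u} [Field F] [Finite F] [CharP F 2]

/-- degenerate local data -/
def Bad (η c : F) (y : (F × F) × ((F × F) × (F × F))) : Prop :=
  y.2.1.1 * y.2.2.2 + y.2.1.2 * y.2.2.1 = 0 ∧
    ((y.1.1 ^ 2 + η) * y.2.1.1 + y.1.2 ^ 2 * y.2.2.1) ^ 2 + c ^ 4 * (y.2.1.1 * y.2.2.1) = 0

open scoped Classical in
theorem card_bad (η c : F) :
    2 * Nat.card F ^ 4 ≤ Nat.card {y // Bad η c y} + Nat.card F ^ 2 := by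
  choose rt hrt using exists_sqrt (k := F)
  have h2 : ∀ x : F, x + x = 0 := fun x => CharTwo.add_self_eq_zero x
  have hbad1 : ∀ t : (F × F) × (F × F), Bad η c ((t.1.1, t.1.2), ((0, t.2.1), (0, t.2.2))) := by
    intro t
    constructor
    · simp
    · simp
  have hbad2 : ∀ (P R z w : F), P ≠ 0 →
      Bad η c ((rt ((c ^ 2 * rt (P * R) + w ^ 2 * R) / P + η), w), ((P, z), (R, z * R / P))) := by
    intro P R z w hP
    constructor
    · simp only
      field_simp
      rw [h2 1, mul_zero]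
    · simp only
      rw [hrt]
      have e1 : ((c ^ 2 * rt (P * R) + w ^ 2 * R) / P + η + η) * P + w ^ 2 * R
          = c ^ 2 * rt (P * R) := by
        have : (c ^ 2 * rt (P * R) + w ^ 2 * R) / P + η + η
          = (c ^ 2 * rt (P * R) + w ^ 2 * R) / P := by rw [add_assoc, h2, add_zero]
        rw [this, div_mul_cancel₀ _ hP, add_assoc, h2, add_zero]
      rw [e1]
      have e2 : (c ^ 2 * rt (P * R)) ^ 2 = c ^ 4 * (P * R) := by
        rw [mul_pow, hrt]; ring
      rw [e2]; exact h2 _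
  have hbad3 : ∀ (R z w : F), Bad η c ((w, 0), ((0, 0), (R, z))) := by
    intro R z w
    constructor
    · simp
    · simp
  let f : ((F × F) × (F × F)) ⊕ ({p : F × F // p ≠ 0} × (F × F)) → {y // Bad η c y} := fun t =>
    match t with
    | Sum.inl t => ⟨_, hbad1 t⟩
    | Sum.inr t =>
      if h : t.1.1.1 ≠ 0 then ⟨_, hbad2 t.1.1.1 t.1.1.2 t.2.1 t.2.2 h⟩
      else ⟨_, hbad3 t.1.1.2 t.2.1 t.2.2⟩
  have hf1 : ∀ t, (f (Sum.inl t)).1 = ((t.1.1, t.1.2), ((0, t.2.1), (0, t.2.2))) := fun t => rfl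
  have hf2 : ∀ t : {p : F × F // p ≠ 0} × (F × F), t.1.1.1 ≠ 0 → (f (Sum.inr t)).1
      = ((rt ((c ^ 2 * rt (t.1.1.1 * t.1.1.2) + t.2.2 ^ 2 * t.1.1.2) / t.1.1.1 + η), t.2.2),
        ((t.1.1.1, t.2.1), (t.1.1.2, t.2.1 * t.1.1.2 / t.1.1.1))) := by
    intro t ht
    simp only [f, dif_pos ht]
  have hf3 : ∀ t : {p : F × F // p ≠ 0} × (F × F), ¬ t.1.1.1 ≠ 0 → (f (Sum.inr t)).1
      = ((t.2.2, 0), ((0, 0), (t.1.1.2, t.2.1))) := by
    intro t ht
    simp only [f, dif_neg ht]
  have hinj : Function.Injective f := by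
    rintro (s | s) (t | t) hst
    · have h := congrArg Subtype.val hst
      rw [hf1, hf1] at h
      simp only [Prod.mk.injEq] at h
      congr 1
      ext <;> simp [h]
    · exfalso
      have h := congrArg Subtype.val hst
      by_cases ht : t.1.1.1 ≠ 0
      · rw [hf1, hf2 t ht] at h
        simp only [Prod.mk.injEq] at h
        exact ht h.2.1.1.symm
      · rw [hf1, hf3 t ht] at h
        simp only [Prod.mk.injEq] at h
        apply t.1.2
        rw [not_not] at ht
        exact Prod.ext ht h.2.2.1.symm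
    · exfalso
      have h := congrArg Subtype.val hst
      by_cases ht : s.1.1.1 ≠ 0
      · rw [hf1, hf2 s ht] at h
        simp only [Prod.mk.injEq] at h
        exact ht h.2.1.1
      · rw [hf1, hf3 s ht] at h
        simp only [Prod.mk.injEq] at h
        apply s.1.2
        rw [not_not] at ht
        exact Prod.ext ht h.2.2.1
    · have h := congrArg Subtype.val hst
      congr 1
      by_cases hs : s.1.1.1 ≠ 0
      · by_cases ht : t.1.1.1 ≠ 0
        · rw [hf2 s hs, hf2 t ht] at h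
          simp only [Prod.mk.injEq] at h
          obtain ⟨⟨-, h1⟩, ⟨h2, h3⟩, h4, -⟩ := h
          exact Prod.ext (Subtype.ext (Prod.ext h2 h4)) (Prod.ext h3 h1)
        · rw [hf2 s hs, hf3 t ht] at h
          simp only [Prod.mk.injEq] at h
          exact absurd h.2.1.1 hs
      · by_cases ht : t.1.1.1 ≠ 0
        · rw [hf3 s hs, hf2 t ht] at h
          simp only [Prod.mk.injEq] at h
          exact absurd h.2.1.1.symm ht
        · rw [hf3 s hs, hf3 t ht] at h
          simp only [Prod.mk.injEq] at h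
          rw [not_not] at hs ht
          obtain ⟨⟨h1, -⟩, -, h4, h5⟩ := h
          exact Prod.ext (Subtype.ext (Prod.ext (hs.trans ht.symm) h4)) (Prod.ext h5 h1)
  have h3 := Nat.card_le_card_of_injective f hinj
  have hne : Nat.card {p : F × F // p ≠ 0} = Nat.card F ^ 2 - 1 := by
    have := Fintype.ofFinite F
    rw [Nat.card_eq_fintype_card, Nat.card_eq_fintype_card, Fintype.card_subtype_compl,
      Fintype.card_prod]
    simp [pow_two]
  rw [Nat.card_sum, Nat.card_prod, Nat.card_prod, Nat.card_prod, Nat.card_prod, hne] at h3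
  have hq : 1 ≤ Nat.card F ^ 2 := Nat.one_le_pow _ _ Nat.card_pos
  obtain ⟨r, hr⟩ : ∃ r, Nat.card F ^ 2 = r + 1 := ⟨Nat.card F ^ 2 - 1, by omega⟩
  have e4 : Nat.card F ^ 4 = (r + 1) * (r + 1) := by
    rw [← hr, ← pow_add]
  have e5 : Nat.card F * Nat.card F = r + 1 := by rw [← pow_two, hr]
  rw [e5, hr] at h3
  rw [e4, hr]
  simp only [Nat.add_sub_cancel] at h3
  nlinarith

theorem card_good (η c : F) :
    Nat.card {y // ¬ Bad η c y} ≤ Nat.card F ^ 2 * (Nat.card F ^ 2 - 1) ^ 2 := by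
  classical
  have h1 := card_bad η c
  have := Fintype.ofFinite F
  have h2 : Nat.card {y // Bad η c y} + Nat.card {y // ¬ Bad η c y} = Nat.card F ^ 6 := by
    have h3 := Fintype.card_subtype_compl (fun y => Bad η c y)
    have h4 := Fintype.card_subtype_le (fun y => Bad η c y)
    rw [Nat.card_eq_fintype_card, Nat.card_eq_fintype_card, h3]
    have h5 : Fintype.card ((F × F) × (F × F) × F × F) = Nat.card F ^ 6 := by
      rw [Nat.card_eq_fintype_card]
      simp only [Fintype.card_prod]; ring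
    omega
  have hq : 1 ≤ Nat.card F ^ 2 := Nat.one_le_pow _ _ Nat.card_pos
  obtain ⟨r, hr⟩ : ∃ r, Nat.card F ^ 2 = r + 1 := ⟨Nat.card F ^ 2 - 1, by omega⟩
  have e4 : Nat.card F ^ 4 = (r + 1) * (r + 1) := by rw [← hr, ← pow_add]
  have e6 : Nat.card F ^ 6 = (r + 1) * (r + 1) * (r + 1) := by rw [← hr, ← pow_add, ← pow_add]
  rw [e6] at h2
  rw [e4, hr] at h1
  rw [hr]
  simp only [Nat.add_sub_cancel]
  nlinarith

end

end Pool.Agent.H2
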