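import Pool.Agent.H2.Global

/-!
# The condition at infinity
-/

namespace Pool.Agent.H2

open Polynomial IsDedekindDomain WeierstrassCurve WeierstrassCurve.Affine

section Scale

variable {L : Type*} [Field L] {τ : L} (h : TwoBasis τ)

/-- the scaled curve -/
def scale (s : L) (W : Affine L) : Affine L :=
  ⟨s * W.a₁, s ^ 2 * W.a₂, s ^ 3 * W.a₃, s ^ 4 * W.a₄, s ^ 6 * W.a₆⟩

theorem kap_scale (s : L) (W : Affine L) :
    kap h.inv (scale s W) = τ * s ^ 5 * kap h W := by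
  unfold kap Dd scale
  simp only
  rw [show s * W.a₁ * (s ^ 3 * W.a₃) = (s ^ 2) ^ 2 * (W.a₁ * W.a₃) by ring,
    show (s * W.a₁) ^ 2 * (s ^ 6 * W.a₆) + (s ^ 2) ^ 2 * (W.a₁ * W.a₃) * (s ^ 4 * W.a₄)
      + s ^ 2 * W.a₂ * (s ^ 3 * W.a₃) ^ 2 + (s ^ 4 * W.a₄) ^ 2
      = (s ^ 4) ^ 2 * (W.a₁ ^ 2 * W.a₆ + W.a₁ * W.a₃ * W.a₄ + W.a₂ * W.a₃ ^ 2 + W.a₄ ^ 2) by ring,
    h.inv.C_sq_mul, h.inv.C_sq_mul, h.C_inv, h.C_inv]
  ring

theorem del_scale (s : L) (W : Affine L) :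
    del h.inv (scale s W) = s ^ 6 * del h W := by
  unfold del Dd scale
  simp only
  rw [show s * W.a₁ * (s ^ 3 * W.a₃) = (s ^ 2) ^ 2 * (W.a₁ * W.a₃) by ring,
    show (s * W.a₁) ^ 2 * (s ^ 6 * W.a₆) + (s ^ 2) ^ 2 * (W.a₁ * W.a₃) * (s ^ 4 * W.a₄)
      + s ^ 2 * W.a₂ * (s ^ 3 * W.a₃) ^ 2 + (s ^ 4 * W.a₄) ^ 2
      = (s ^ 4) ^ 2 * (W.a₁ ^ 2 * W.a₆ + W.a₁ * W.a₃ * W.a₄ + W.a₂ * W.a₃ ^ 2 + W.a₄ ^ 2) by ring,
    h.inv.E_sq_mul, h.inv.E_sq_mul, h.E_inv, h.E_inv]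
  ring

theorem cf_scale {s : L} (hs : s ≠ 0) (W : Affine L) {x : L} (hw : wf W x ≠ 0) :
    cf h.inv (scale s W) (s ^ 2 * x) = τ ^ 2 * s ^ 6 * cf h W x := by
  have hw' : wf (scale s W) (s ^ 2 * x) = (s ^ 2) ^ 2 * wf W x := by
    unfold wf scale; ring
  unfold cf
  rw [hw', kap_scale h, del_scale h, h.inv.C_sq_mul, h.inv.E_sq_mul, h.C_inv, h.E_inv]
  simp only [scale]
  field_simp

theorem scale_equation (s : L) (W : Affine L) {x y : L} (hxy : W.Equation x y) :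
    (scale s W).Equation (s ^ 2 * x) (s ^ 3 * y) := by
  rw [Affine.equation_iff] at hxy ⊢
  unfold scale
  simp only
  linear_combination s ^ 6 * hxy

end Scale

universe u

variable {k : Type u} [Field k] [Finite k] [CharP k 2] (W : WeierstrassCurve k[X])

/-- degree bounds -/
structure DegBound (d : ℕ) : Prop where
  a₁ : W.a₁.natDegree = d
  a₂ : W.a₂.natDegree ≤ 2 * d
  a₃ : W.a₃.natDegree ≤ 3 * d
  a₄ : W.a₄.natDegree ≤ 4 * d
  a₆ : W.a₆.natDegree ≤ 6 * d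

/-- `X` is a 2-basis of the completion at infinity -/
theorem basis_inf : TwoBasis (algebraMap (RatFunc k) (infAbv k).Completion RatFunc.X) := by
  have h1 := (infAbv_good (k := k)).comp_basis.inv
  rwa [map_inv₀, inv_inv] at h1

omit [Finite k] [CharP k 2] in
theorem infAbv_le {f : k[X]} {n : ℕ} (hf : f.natDegree ≤ n) :
    infAbv k (algebraMap k[X] (RatFunc k) f) ≤ (2 : ℝ) ^ (n : ℤ) := by
  by_cases h0 : f = 0
  · rw [h0, map_zero, map_zero]; positivity
  · rw [infAbv_poly h0]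
    exact zpow_le_zpow_right₀ (by norm_num) (by exact_mod_cast hf)

theorem stable_inf : Stable (basis_inf (k := k)).inv (cval (infAbv_good (k := k))) := by
  intro u hu
  have g := infAbv_good (k := k)
  rw [val_mem_iff g] at hu
  rw [val_mem_iff g, val_mem_iff g]
  apply g.star'
  rw [map_inv₀, basis_inf.inv.spec']
  exact hu

omit [Finite k] [CharP k 2] in
theorem norm_T : ‖algebraMap (RatFunc k) (infAbv k).Completion RatFunc.X‖ = 2 := by
  rw [GoodPlace.norm_algebraMap, infAbv_X]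

/-- the local condition for the scaled model at infinity -/
theorem locOK_inf {d : ℕ} (hW : DegBound W d) (hsq : Squarefree W.a₁) (hk : W.a₁ * pkap W ≠ 0)
    {x y : (infAbv k).Completion} (hxy : ((crv W)⁄(infAbv k).Completion).Equation x y)
    {s : (infAbv k).Completion} (hs0 : s ≠ 0) (hs : ‖s‖ = (2 : ℝ) ^ (-(d : ℤ))) :
    LocOK basis_inf.inv (scale s ((crv W)⁄(infAbv k).Completion)) (cval (infAbv_good (k := k)))
      (algebraMap (RatFunc k) (infAbv k).Completion RatFunc.X ^ 2 * s ^ 6 *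
        cf basis_inf ((crv W)⁄(infAbv k).Completion) x) := by
  have g := infAbv_good (k := k)
  have hL := g.charP_comp
  have hk' := ne_zero_map (crv W) basisX basis_inf (hk_crv W hk)
    (F := (infAbv k).Completion)
  have hw := w_ne_zero basis_inf hk' hxy
  rw [← cf_scale basis_inf hs0 _ hw]
  have hT := norm_T (k := k)
  have hT0 : algebraMap (RatFunc k) (infAbv k).Completion RatFunc.X ≠ 0 := by
    rw [← norm_pos_iff, hT]; norm_num
  have hsc := scale_equation s _ hxy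
  have hbound : ∀ (i : ℕ) (f : k[X]), f.natDegree ≤ i * d →
      s ^ i * algebraMap (RatFunc k) (infAbv k).Completion (algebraMap k[X] (RatFunc k) f) ∈
        (cval g).integer := by
    intro i f hf
    rw [val_mem_iff g, norm_mul, norm_pow, hs, GoodPlace.norm_algebraMap]
    have h1 := infAbv_le hf
    calc ((2 : ℝ) ^ (-(d : ℤ))) ^ i * infAbv k (algebraMap k[X] (RatFunc k) f)
        ≤ ((2 : ℝ) ^ (-(d : ℤ))) ^ i * (2 : ℝ) ^ ((i * d : ℕ) : ℤ) := by gcongr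
      _ = 1 := by
        rw [← zpow_natCast, ← zpow_mul, ← zpow_add₀ two_ne_zero]
        have : -(d : ℤ) * (i : ℤ) + ((i * d : ℕ) : ℤ) = 0 := by push_cast; ring
        rw [this, zpow_zero]
  have hi : IntCoeff (scale s ((crv W)⁄(infAbv k).Completion)) (cval g) := by
    refine ⟨?_, hbound 2 W.a₂ hW.a₂, hbound 3 W.a₃ hW.a₃, hbound 4 W.a₄ hW.a₄,
      hbound 6 W.a₆ hW.a₆⟩
    have := hbound 1 W.a₁ (by rw [hW.a₁]; omega)
    rwa [pow_one] at this
  have hτ : (algebraMap (RatFunc k) (infAbv k).Completion RatFunc.X)⁻¹ ∈ (cval g).integer := by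
    rw [val_mem_iff g, norm_inv, hT]; norm_num
  have hks : (scale s ((crv W)⁄(infAbv k).Completion)).a₁
      * kap basis_inf.inv (scale s ((crv W)⁄(infAbv k).Completion)) ≠ 0 := by
    rw [kap_scale basis_inf]
    exact mul_ne_zero (mul_ne_zero hs0 (left_ne_zero_of_mul hk'))
      (mul_ne_zero (mul_ne_zero hT0 (pow_ne_zero 5 hs0)) (right_ne_zero_of_mul hk'))
  have hr : UnitOrUnif (W := scale s ((crv W)⁄(infAbv k).Completion)) (v := cval g) := by
    left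
    have : cval g (scale s ((crv W)⁄(infAbv k).Completion)).a₁
      = ‖s * algebraMap (RatFunc k) (infAbv k).Completion
        (algebraMap k[X] (RatFunc k) W.a₁)‖₊ := rfl
    rw [this]
    apply NNReal.eq
    rw [coe_nnnorm, norm_mul, hs, GoodPlace.norm_algebraMap, infAbv_poly hsq.ne_zero, hW.a₁,
      ← zpow_add₀ two_ne_zero, neg_add_cancel, zpow_zero]
    rfl
  by_cases hx : s ^ 2 * x ∈ (cval g).integer
  · exact loc_int basis_inf.inv stable_inf hi hτ hks hsc hx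
  · rw [Valuation.mem_integer_iff, not_le] at hx
    exact loc_nonint basis_inf.inv stable_inf hi hτ hks hr hsc hx

theorem cond_inf {d : ℕ} (hW : DegBound W d) (hsq : Squarefree W.a₁) (hk : W.a₁ * pkap W ≠ 0)
    (Q : Pts (crv W) (infAbv k).Completion) (c : RatFunc k)
    (hc : algebraMap (RatFunc k) (infAbv k).Completion c
      = cExt basisX (crv W) (hk_crv W hk) _ basis_inf Q) :
    infAbv k (c / algebraMap k[X] (RatFunc k) W.a₁) * 2 ^ 2 ≤ (2 : ℝ) ^ (5 * d) ∧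
    ∃ V : RatFunc k, infAbv k V * 2 ≤ (2 : ℝ) ^ (6 * d) ∧
      infAbv k (V ^ 2 + algebraMap k[X] (RatFunc k) W.a₁ * algebraMap k[X] (RatFunc k) (pkap W) * V
        - c * (algebraMap k[X] (RatFunc k) (pdel W) + RatFunc.X * c))
          ≤ (infAbv k (algebraMap k[X] (RatFunc k) (pkap W))) ^ 2 * (2 : ℝ) ^ (2 * d) := by
  have g := infAbv_good (k := k)
  have hL := g.charP_comp
  rcases Q with _ | ⟨x, y, hxy⟩
  · have h0 : c = 0 := by
      have h1 : algebraMap (RatFunc k) (infAbv k).Completion c = 0 := hc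
      rwa [map_eq_zero] at h1
    refine ⟨by rw [h0]; simp, 0, by simp, ?_⟩
    rw [h0]
    simp only [zero_mul, mul_zero, sub_zero, add_zero, ne_eq, OfNat.ofNat_ne_zero,
      not_false_eq_true, zero_pow, map_zero]
    positivity
  have hc' : algebraMap (RatFunc k) (infAbv k).Completion c
      = cf basis_inf ((crv W)⁄(infAbv k).Completion) x := hc
  set T := algebraMap (RatFunc k) (infAbv k).Completion RatFunc.X with hTdef
  have hT : ‖T‖ = 2 := norm_T
  have hT0 : T ≠ 0 := by rw [← norm_pos_iff, hT]; norm_num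
  have hs0 : T ^ (-(d : ℤ)) ≠ 0 := zpow_ne_zero _ hT0
  have hs : ‖T ^ (-(d : ℤ))‖ = (2 : ℝ) ^ (-(d : ℤ)) := by rw [norm_zpow, hT]
  obtain ⟨h2, V, f, hV, hf, hVf⟩ := locOK_inf W hW hsq hk hxy.1 hs0 hs
  rw [← hc'] at h2 hVf
  rw [kap_scale basis_inf, del_scale basis_inf] at hVf
  rw [val_mem_iff g] at h2 hV hf
  set s := T ^ (-(d : ℤ)) with hsdef
  have hka : kap basis_inf ((crv W)⁄(infAbv k).Completion)
      = algebraMap (RatFunc k) (infAbv k).Completion (algebraMap k[X] (RatFunc k) (pkap W)) := by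
    rw [← kap_crv]
    exact (map_kap basisX basis_inf (algebraMap (RatFunc k) (infAbv k).Completion)
      rfl (crv W)).symm
  have hde : del basis_inf ((crv W)⁄(infAbv k).Completion)
      = algebraMap (RatFunc k) (infAbv k).Completion (algebraMap k[X] (RatFunc k) (pdel W)) := by
    rw [← del_crv]
    exact (map_del basisX basis_inf (algebraMap (RatFunc k) (infAbv k).Completion)
      rfl (crv W)).symm
  have ha1 : (scale s ((crv W)⁄(infAbv k).Completion)).a₁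
      = s * algebraMap (RatFunc k) (infAbv k).Completion (algebraMap k[X] (RatFunc k) W.a₁) := rfl
  rw [hka, hde, ha1] at hVf
  rw [ha1] at h2
  set A := algebraMap (RatFunc k) (infAbv k).Completion (algebraMap k[X] (RatFunc k) W.a₁)
    with hA
  set κ := algebraMap (RatFunc k) (infAbv k).Completion (algebraMap k[X] (RatFunc k) (pkap W))
    with hκ
  set δ := algebraMap (RatFunc k) (infAbv k).Completion (algebraMap k[X] (RatFunc k) (pdel W))
    with hδ
  set c' := algebraMap (RatFunc k) (infAbv k).Completion c with hc'def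
  have hA0 : A ≠ 0 := by
    rw [hA, Ne, map_eq_zero, FaithfulSMul.algebraMap_eq_zero_iff]
    exact hsq.ne_zero
  have hκ0 : κ ≠ 0 := by
    rw [hκ, Ne, map_eq_zero, FaithfulSMul.algebraMap_eq_zero_iff]
    exact right_ne_zero_of_mul hk
  constructor
  · rw [← GoodPlace.norm_algebraMap (v := infAbv k), map_div₀]
    change ‖c' / A‖ * 2 ^ 2 ≤ _
    have e : T ^ 2 * s ^ 6 * c' / (s * A) = T ^ 2 * s ^ 5 * (c' / A) := by field_simp
    rw [e, norm_mul, norm_mul, norm_pow, norm_pow, hT, hs] at h2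
    have e2 : ((2 : ℝ) ^ (-(d : ℤ))) ^ 5 = ((2 : ℝ) ^ (5 * d))⁻¹ := by
      rw [zpow_neg, inv_pow, zpow_natCast, ← pow_mul, mul_comm d 5]
    rw [e2] at h2
    have hpos : (0 : ℝ) < (2 : ℝ) ^ (5 * d) := by positivity
    have h3 : 2 ^ 2 * ((2 : ℝ) ^ (5 * d))⁻¹ * ‖c' / A‖ * (2 : ℝ) ^ (5 * d) ≤ 1 * (2 : ℝ) ^ (5 * d) :=
      mul_le_mul_of_nonneg_right h2 hpos.le
    have e3 : 2 ^ 2 * ((2 : ℝ) ^ (5 * d))⁻¹ * ‖c' / A‖ * (2 : ℝ) ^ (5 * d)
        = ‖c' / A‖ * 2 ^ 2 := by field_simp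
    rw [e3, one_mul] at h3
    exact h3
  · -- the solution of the original equation
    set V₁ := V / (T * s ^ 6) with hV₁
    set f₁ := f / s ^ 2 with hf₁
    have hV₁f : V₁ ^ 2 + A * κ * V₁ + κ ^ 2 * f₁ = c' * (δ + T * c') := by
      have hne : T ^ 2 * s ^ 12 ≠ 0 := mul_ne_zero (pow_ne_zero 2 hT0) (pow_ne_zero 12 hs0)
      apply mul_left_cancel₀ hne
      rw [hV₁, hf₁]
      field_simp
      field_simp at hVf
      linear_combination hVf
    have hsn : ‖s ^ 6‖ = ((2 : ℝ) ^ (6 * d))⁻¹ := by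
      rw [norm_pow, hs, zpow_neg, inv_pow, zpow_natCast, ← pow_mul, mul_comm d 6]
    have hsn2 : ‖s ^ 2‖ = ((2 : ℝ) ^ (2 * d))⁻¹ := by
      rw [norm_pow, hs, zpow_neg, inv_pow, zpow_natCast, ← pow_mul, mul_comm d 2]
    have hV₁n : ‖V₁‖ * 2 ≤ (2 : ℝ) ^ (6 * d) := by
      rw [hV₁, norm_div, norm_mul, hT, hsn]
      have hpos : (0 : ℝ) < (2 : ℝ) ^ (6 * d) := by positivity
      have : ‖V‖ / (2 * ((2 : ℝ) ^ (6 * d))⁻¹) * 2 = ‖V‖ * (2 : ℝ) ^ (6 * d) := by field_simp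
      rw [this]
      calc ‖V‖ * (2 : ℝ) ^ (6 * d) ≤ 1 * (2 : ℝ) ^ (6 * d) := by gcongr
        _ = _ := one_mul _
    have hf₁n : ‖f₁‖ ≤ (2 : ℝ) ^ (2 * d) := by
      rw [hf₁, norm_div, hsn2, div_inv_eq_mul]
      calc ‖f‖ * (2 : ℝ) ^ (2 * d) ≤ 1 * (2 : ℝ) ^ (2 * d) := by gcongr
        _ = _ := one_mul _
    have hAn : ‖A‖ = (2 : ℝ) ^ d := by
      rw [hA, GoodPlace.norm_algebraMap, infAbv_poly hsq.ne_zero, hW.a₁, zpow_natCast]
    have hκn : 0 < ‖κ‖ := norm_pos_iff.mpr hκ0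
    set ε := min (‖κ‖ / 2 ^ d) ((2 : ℝ) ^ (6 * d) / 2) with hε
    have hεpos : 0 < ε := by
      rw [hε]; apply lt_min <;> positivity
    obtain ⟨x₀, hx₀⟩ := GoodPlace.approx (v := infAbv k) V₁ hεpos
    have hx₁ : ‖V₁ - algebraMap (RatFunc k) (infAbv k).Completion x₀‖ * 2 ^ d ≤ ‖κ‖ := by
      have h3 := hx₀.le.trans (min_le_left _ _)
      rwa [le_div_iff₀ (by positivity)] at h3
    have hx₂ : ‖V₁ - algebraMap (RatFunc k) (infAbv k).Completion x₀‖ ≤ (2 : ℝ) ^ (6 * d) / 2 :=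
      hx₀.le.trans (min_le_right _ _)
    refine ⟨x₀, ?_, ?_⟩
    · rw [← le_div_iff₀ (by norm_num), ← GoodPlace.norm_algebraMap (v := infAbv k)]
      have e : algebraMap (RatFunc k) (infAbv k).Completion x₀
        = V₁ + -(V₁ - algebraMap (RatFunc k) (infAbv k).Completion x₀) := by ring
      rw [e]
      refine (g.ultra _ _).trans (max_le ?_ ?_)
      · rwa [le_div_iff₀ (by norm_num)]
      · rw [norm_neg]; exact hx₂
    · rw [← GoodPlace.norm_algebraMap (v := infAbv k),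
        ← GoodPlace.norm_algebraMap (v := infAbv k)]
      simp only [map_sub, map_mul, map_add, map_pow]
      change ‖_ ^ 2 + A * κ * _ - c' * (δ + T * c')‖ ≤ ‖κ‖ ^ 2 * _
      rw [← hV₁f]
      set U := algebraMap (RatFunc k) (infAbv k).Completion x₀ with hU
      clear_value U V₁ f₁ A κ δ c' T
      have e2 : U ^ 2 + A * κ * U - (V₁ ^ 2 + A * κ * V₁ + κ ^ 2 * f₁)
          = (V₁ - U) ^ 2 + (A * (κ * (V₁ - U)) + κ ^ 2 * f₁) := by grind
      rw [e2]
      have hone : (1 : ℝ) ≤ 2 ^ d := one_le_pow₀ (by norm_num)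
      have hone2 : (1 : ℝ) ≤ (2 : ℝ) ^ (2 * d) := one_le_pow₀ (by norm_num)
      have hle : ‖V₁ - U‖ ≤ ‖κ‖ := by
        calc ‖V₁ - U‖ = ‖V₁ - U‖ * 1 := (mul_one _).symm
          _ ≤ ‖V₁ - U‖ * 2 ^ d := by gcongr
          _ ≤ _ := hx₁
      have hk2 : ‖κ‖ ^ 2 ≤ ‖κ‖ ^ 2 * (2 : ℝ) ^ (2 * d) := le_mul_of_one_le_right (by positivity) hone2
      refine (g.ultra _ _).trans (max_le ?_ ((g.ultra _ _).trans (max_le ?_ ?_)))
      · rw [norm_pow]
        exact (pow_le_pow_left₀ (norm_nonneg _) hle 2).trans hk2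
      · rw [norm_mul, norm_mul, hAn]
        refine le_trans ?_ hk2
        calc (2 : ℝ) ^ d * (‖κ‖ * ‖V₁ - U‖) = ‖κ‖ * (‖V₁ - U‖ * 2 ^ d) := by ring
          _ ≤ ‖κ‖ * ‖κ‖ := by gcongr
          _ = ‖κ‖ ^ 2 := by ring
      · rw [norm_mul, norm_pow]
        gcongr

end Pool.Agent.H2
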