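import Pool.Agent.H2.Reduction

/-!
# The lattice of a Selmer class
-/

namespace Pool.Agent.H2

open Polynomial

universe u

variable {k : Type u} [Field k] [Finite k] [CharP k 2]

section Lat

variable (a₁ κ c e V : k[X])

/-- the lattice: `e` stands for `Δ₀ + X c` -/
noncomputable def Lat : Submodule k[X] (k[X] × k[X]) where
  carrier := {μ | κ ∣ c * μ.2 + V * μ.1 ∧ κ ∣ V * μ.2 + e * μ.1 ∧ a₁ ∣ μ.2 ^ 2 + X * μ.1 ^ 2}
  zero_mem' := by simp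
  add_mem' := by
    rintro μ ν ⟨h1, h2, h3⟩ ⟨g1, g2, g3⟩
    refine ⟨?_, ?_, ?_⟩
    · simp only [Prod.fst_add, Prod.snd_add]
      have : c * (μ.2 + ν.2) + V * (μ.1 + ν.1) = (c * μ.2 + V * μ.1) + (c * ν.2 + V * ν.1) := by ring
      rw [this]; exact dvd_add h1 g1
    · simp only [Prod.fst_add, Prod.snd_add]
      have : V * (μ.2 + ν.2) + e * (μ.1 + ν.1) = (V * μ.2 + e * μ.1) + (V * ν.2 + e * ν.1) := by ring
      rw [this]; exact dvd_add h2 g2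
    · simp only [Prod.fst_add, Prod.snd_add]
      have : (μ.2 + ν.2) ^ 2 + X * (μ.1 + ν.1) ^ 2
        = (μ.2 ^ 2 + X * μ.1 ^ 2) + (ν.2 ^ 2 + X * ν.1 ^ 2) := by grind
      rw [this]; exact dvd_add h3 g3
  smul_mem' := by
    rintro s μ ⟨h1, h2, h3⟩
    refine ⟨?_, ?_, ?_⟩
    · simp only [Prod.smul_fst, Prod.smul_snd, smul_eq_mul]
      have : c * (s * μ.2) + V * (s * μ.1) = s * (c * μ.2 + V * μ.1) := by ring
      rw [this]; exact dvd_mul_of_dvd_right h1 s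
    · simp only [Prod.smul_fst, Prod.smul_snd, smul_eq_mul]
      have : V * (s * μ.2) + e * (s * μ.1) = s * (V * μ.2 + e * μ.1) := by ring
      rw [this]; exact dvd_mul_of_dvd_right h2 s
    · simp only [Prod.smul_fst, Prod.smul_snd, smul_eq_mul]
      have : (s * μ.2) ^ 2 + X * (s * μ.1) ^ 2 = s ^ 2 * (μ.2 ^ 2 + X * μ.1 ^ 2) := by ring
      rw [this]; exact dvd_mul_of_dvd_right h3 _

variable {a₁ κ c e V}

theorem mem_Lat {μ : k[X] × k[X]} : μ ∈ Lat a₁ κ c e V ↔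
    κ ∣ c * μ.2 + V * μ.1 ∧ κ ∣ V * μ.2 + e * μ.1 ∧ a₁ ∣ μ.2 ^ 2 + X * μ.1 ^ 2 := Iff.rfl

/-- the determinants of the lattice are divisible by `a₁ κ` -/
theorem Lat_dvd (hsq : Squarefree a₁) (hcop : IsCoprime a₁ κ)
    {p q r : k[X]} (hpqr : p * κ + q * c + r * e = 1) {μ ν : k[X] × k[X]}
    (hμ : μ ∈ Lat a₁ κ c e V) (hν : ν ∈ Lat a₁ κ c e V) : a₁ * κ ∣ wd μ ν := by
  obtain ⟨h1, h2, h3⟩ := hμ
  obtain ⟨g1, g2, g3⟩ := hν
  apply hcop.mul_dvd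
  · apply dvd_of_sq hsq
    obtain ⟨s, hs⟩ := h3
    obtain ⟨t, ht⟩ := g3
    refine ⟨μ.1 ^ 2 * t + ν.1 ^ 2 * s, ?_⟩
    unfold wd
    grind
  · have e1 : κ ∣ c * wd μ ν := by
      have : c * wd μ ν = (c * μ.2 + V * μ.1) * ν.1 + (c * ν.2 + V * ν.1) * μ.1 := by
        unfold wd; grind
      rw [this]
      exact dvd_add (dvd_mul_of_dvd_left h1 _) (dvd_mul_of_dvd_left g1 _)
    have e2 : κ ∣ e * wd μ ν := by
      have : e * wd μ ν = (V * μ.2 + e * μ.1) * ν.2 + (V * ν.2 + e * ν.1) * μ.2 := by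
        unfold wd; grind
      rw [this]
      exact dvd_add (dvd_mul_of_dvd_left h2 _) (dvd_mul_of_dvd_left g2 _)
    have : wd μ ν = p * wd μ ν * κ + q * (c * wd μ ν) + r * (e * wd μ ν) := by
      linear_combination (-(wd μ ν)) * hpqr
    rw [this]
    exact dvd_add (dvd_add (dvd_mul_left _ _) (dvd_mul_of_dvd_right e1 q))
      (dvd_mul_of_dvd_right e2 r)

/-- conversely the determinants generate `a₁ κ` -/
theorem Lat_gen (hcop : IsCoprime a₁ κ) {C E a₃ : k[X]} (hCE : E ^ 2 + X * C ^ 2 = a₁ * a₃)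
    (hC : IsCoprime a₁ C) {p q r : k[X]} (hpqr : p * κ + q * c + r * e = 1)
    (hV : κ ∣ V ^ 2 + c * e) {w : k[X]}
    (hw : ∀ μ ∈ Lat a₁ κ c e V, ∀ ν ∈ Lat a₁ κ c e V, w ∣ wd μ ν) : w ∣ a₁ * κ := by
  have hz : ∀ z : k[X], z + z = 0 := fun z => CharTwo.add_self_eq_zero z
  have m1 : (a₁ * c, a₁ * V) ∈ Lat a₁ κ c e V := by
    refine ⟨?_, ?_, ?_⟩
    · have : c * (a₁ * V) + V * (a₁ * c) = 0 := by
        rw [show V * (a₁ * c) = c * (a₁ * V) by ring]; exact hz _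
      simp only [this, dvd_zero]
    · have : V * (a₁ * V) + e * (a₁ * c) = a₁ * (V ^ 2 + c * e) := by ring
      simp only [this]; exact dvd_mul_of_dvd_right hV _
    · exact ⟨a₁ * V ^ 2 + X * (a₁ * c ^ 2), by ring⟩
  have m2 : (a₁ * V, a₁ * e) ∈ Lat a₁ κ c e V := by
    refine ⟨?_, ?_, ?_⟩
    · have : c * (a₁ * e) + V * (a₁ * V) = a₁ * (V ^ 2 + c * e) := by ring
      simp only [this]; exact dvd_mul_of_dvd_right hV _
    · have : V * (a₁ * e) + e * (a₁ * V) = 0 := by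
        rw [show e * (a₁ * V) = V * (a₁ * e) by ring]; exact hz _
      simp only [this, dvd_zero]
    · exact ⟨a₁ * e ^ 2 + X * (a₁ * V ^ 2), by ring⟩
  have m3 : (a₁ * κ, 0) ∈ Lat a₁ κ c e V := by
    refine ⟨⟨V * a₁, by simp only; ring⟩, ⟨e * a₁, by simp only; ring⟩,
      ⟨X * (a₁ * κ ^ 2), by simp only; ring⟩⟩
  have m4 : (0, a₁ * κ) ∈ Lat a₁ κ c e V := by
    refine ⟨⟨c * a₁, by simp only; ring⟩, ⟨V * a₁, by simp only; ring⟩,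
      ⟨a₁ * κ ^ 2, by simp only; ring⟩⟩
  have m5 : (κ * C, κ * E) ∈ Lat a₁ κ c e V := by
    refine ⟨⟨c * E + V * C, by simp only; ring⟩, ⟨V * E + e * C, by simp only; ring⟩,
      ⟨κ ^ 2 * a₃, by simp only; linear_combination κ ^ 2 * hCE⟩⟩
  -- the determinants
  have d1 : w ∣ (a₁ ^ 2 * κ) * c := by
    have := hw _ m1 _ m4
    have e1 : wd (a₁ * c, a₁ * V) (0, a₁ * κ) = (a₁ ^ 2 * κ) * c := by unfold wd; ring
    rwa [e1] at this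
  have d2 : w ∣ (a₁ ^ 2 * κ) * e := by
    have := hw _ m2 _ m3
    have e1 : wd (a₁ * V, a₁ * e) (a₁ * κ, 0) = (a₁ ^ 2 * κ) * e := by unfold wd; ring
    rwa [e1] at this
  have d3 : w ∣ (a₁ ^ 2 * κ) * κ := by
    have := hw _ m3 _ m4
    have e1 : wd (a₁ * κ, 0) (0, a₁ * κ) = (a₁ ^ 2 * κ) * κ := by unfold wd; ring
    rwa [e1] at this
  have d4 : w ∣ (κ ^ 2 * a₁) * C := by
    have := hw _ m5 _ m4
    have e1 : wd (κ * C, κ * E) (0, a₁ * κ) = (κ ^ 2 * a₁) * C := by unfold wd; ring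
    rwa [e1] at this
  have f1 : w ∣ a₁ ^ 2 * κ := by
    have : a₁ ^ 2 * κ = p * ((a₁ ^ 2 * κ) * κ) + q * ((a₁ ^ 2 * κ) * c)
        + r * ((a₁ ^ 2 * κ) * e) := by
      linear_combination (-(a₁ ^ 2 * κ)) * hpqr
    rw [this]
    exact dvd_add (dvd_add (dvd_mul_of_dvd_right d3 _) (dvd_mul_of_dvd_right d1 _))
      (dvd_mul_of_dvd_right d2 _)
  have f2 : w ∣ κ ^ 2 * a₁ := by
    obtain ⟨u, v, huv⟩ := hC
    have : κ ^ 2 * a₁ = u * ((a₁ ^ 2 * κ) * κ) + v * ((κ ^ 2 * a₁) * C) := by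
      linear_combination (-(κ ^ 2 * a₁)) * huv
    rw [this]
    exact dvd_add (dvd_mul_of_dvd_right d3 _) (dvd_mul_of_dvd_right d4 _)
  obtain ⟨u, v, huv⟩ := hcop
  have : a₁ * κ = u * (a₁ ^ 2 * κ) + v * (κ ^ 2 * a₁) := by
    linear_combination (-(a₁ * κ)) * huv
  rw [this]
  exact dvd_add (dvd_mul_of_dvd_right f1 _) (dvd_mul_of_dvd_right f2 _)

/-- the form is divisible by `κ²` on the lattice -/
theorem Lat_form {p q r : k[X]} (hpqr : p * κ + q * c + r * e = 1)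
    (hV : κ ^ 2 ∣ V ^ 2 + a₁ * κ * V + c * e) {μ : k[X] × k[X]} (hμ : μ ∈ Lat a₁ κ c e V) :
    κ ^ 2 ∣ e * μ.1 ^ 2 + a₁ * κ * (μ.1 * μ.2) + c * μ.2 ^ 2 := by
  obtain ⟨⟨s, hs⟩, ⟨t, ht⟩, -⟩ := hμ
  obtain ⟨f, hf⟩ := hV
  obtain ⟨Q, hQ⟩ : ∃ Q, Q = e * μ.1 ^ 2 + a₁ * κ * (μ.1 * μ.2) + c * μ.2 ^ 2 := ⟨_, rfl⟩
  rw [← hQ]
  have e1 : c * Q = κ ^ 2 * (s ^ 2 + a₁ * (μ.1 * s) + f * μ.1 ^ 2) := by
    have : c * Q = (c * μ.2 + V * μ.1) ^ 2 + a₁ * κ * μ.1 * (c * μ.2 + V * μ.1)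
        + (V ^ 2 + a₁ * κ * V + c * e) * μ.1 ^ 2 := by
      rw [hQ]; grind
    rw [this, hs, hf]; ring
  have e2 : e * Q = κ ^ 2 * (t ^ 2 + a₁ * (μ.2 * t) + f * μ.2 ^ 2) := by
    have : e * Q = (V * μ.2 + e * μ.1) ^ 2 + a₁ * κ * μ.2 * (V * μ.2 + e * μ.1)
        + (V ^ 2 + a₁ * κ * V + c * e) * μ.2 ^ 2 := by
      rw [hQ]; grind
    rw [this, ht, hf]; ring
  have h1 : p ^ 2 * κ ^ 2 + q ^ 2 * c ^ 2 + r ^ 2 * e ^ 2 = 1 := by
    linear_combination (p * κ + q * c + r * e + 1) * hpqr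
      - (p * κ * (q * c) + p * κ * (r * e) + q * c * (r * e))
        * (CharTwo.two_eq_zero : (2 : k[X]) = 0)
  refine ⟨p ^ 2 * Q + q ^ 2 * c * (s ^ 2 + a₁ * (μ.1 * s) + f * μ.1 ^ 2)
    + r ^ 2 * e * (t ^ 2 + a₁ * (μ.2 * t) + f * μ.2 ^ 2), ?_⟩
  linear_combination (-Q) * h1 + q ^ 2 * c * e1 + r ^ 2 * e * e2

end Lat

end Pool.Agent.H2
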