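import Pool.Agent.H2.Descent

/-!
# The local image of the descent map is integral
-/

namespace Pool.Agent.H2

open WeierstrassCurve

variable {L : Type*} [Field L] {τ : L} (h : TwoBasis τ) (W : WeierstrassCurve.Affine L)
variable {Γ₀ : Type*} [LinearOrderedCommGroupWithZero Γ₀] (v : Valuation L Γ₀)

theorem int_quad {b r y : L} (hb : b ∈ v.integer) (hr : r ∈ v.integer)
    (he : y ^ 2 + b * y = r) : y ∈ v.integer := by
  rw [Valuation.mem_integer_iff] at *
  by_contra hy
  rw [not_le] at hy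
  have h1 : v (y + b) = v y := Valuation.map_add_eq_of_lt_left v (lt_of_le_of_lt hb hy)
  have h2 : v r = v y * v y := by
    rw [← he, show y ^ 2 + b * y = y * (y + b) by ring, map_mul, h1]
  have h3 : 1 < v y * v y := one_lt_mul'' hy hy
  rw [← h2] at h3
  exact absurd hr (not_le.mpr h3)

/-- stability of the valuation ring under the two components -/
def Stable : Prop := ∀ u, u ∈ v.integer → h.E u ∈ v.integer ∧ h.C u ∈ v.integer

/-- the coefficients are integral -/
structure IntCoeff : Prop where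
  a₁ : W.a₁ ∈ v.integer
  a₂ : W.a₂ ∈ v.integer
  a₃ : W.a₃ ∈ v.integer
  a₄ : W.a₄ ∈ v.integer
  a₆ : W.a₆ ∈ v.integer

variable {W v}

theorem kap_mem (hst : Stable h v) (hi : IntCoeff W v) : kap h W ∈ v.integer := by
  have i1 := hi.a₁
  have i2 := hi.a₂
  have i3 := hi.a₃
  have i4 := hi.a₄
  have i6 := hi.a₆
  have j1 := (hst _ (mul_mem i1 i3)).2
  have hD : Dd W ∈ v.integer := by unfold Dd; (repeat' first | assumption | exact one_mem _ | exact zero_mem _ | apply add_mem | apply mul_mem | apply pow_mem)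
  have j2 := (hst _ hD).2
  unfold kap
  (repeat' first | assumption | exact one_mem _ | exact zero_mem _ | apply add_mem | apply mul_mem | apply pow_mem)

theorem del_mem (hst : Stable h v) (hi : IntCoeff W v) : del h W ∈ v.integer := by
  have i1 := hi.a₁
  have i2 := hi.a₂
  have i3 := hi.a₃
  have i4 := hi.a₄
  have i6 := hi.a₆
  have j1 := (hst _ (mul_mem i1 i3)).1
  have hD : Dd W ∈ v.integer := by unfold Dd; (repeat' first | assumption | exact one_mem _ | exact zero_mem _ | apply add_mem | apply mul_mem | apply pow_mem)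
  have j2 := (hst _ hD).1
  unfold del
  (repeat' first | assumption | exact one_mem _ | exact zero_mem _ | apply add_mem | apply mul_mem | apply pow_mem)

variable (W v) in
/-- the local conclusion for the value `c` of the descent map -/
def LocOK (c : L) : Prop := c / W.a₁ ∈ v.integer ∧
  ∃ V f : L, V ∈ v.integer ∧ f ∈ v.integer ∧
    V ^ 2 + W.a₁ * kap h W * V + kap h W ^ 2 * f = c * (del h W + τ * c)

theorem locOK_of (hst : Stable h v) (hi : IntCoeff W v) (hτ : τ ∈ v.integer)
    {c : L} (hc : c / W.a₁ ∈ v.integer) (ha : W.a₁ ≠ 0) {V f : L} (hf : f ∈ v.integer)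
    (hV : V ^ 2 + W.a₁ * kap h W * V + kap h W ^ 2 * f = c * (del h W + τ * c)) :
    LocOK h W v c := by
  have hc' : c ∈ v.integer := by
    have : c = c / W.a₁ * W.a₁ := by field_simp
    rw [this]
    exact mul_mem hc hi.a₁
  have hk := kap_mem h hst hi
  have hd := del_mem h hst hi
  refine ⟨hc, V, f, ?_, hf, hV⟩
  refine int_quad v (b := W.a₁ * kap h W) (r := c * (del h W + τ * c) - kap h W ^ 2 * f)
    (mul_mem hi.a₁ hk) ?_ ?_
  · apply sub_mem <;> (repeat' first | assumption | exact one_mem _ | exact zero_mem _ | apply add_mem | apply mul_mem | apply pow_mem)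
  · rw [← hV]; ring

theorem loc_int (hst : Stable h v) (hi : IntCoeff W v) (hτ : τ ∈ v.integer)
    (hk : W.a₁ * kap h W ≠ 0) {x y : L} (hxy : W.Equation x y) (hx : x ∈ v.integer) :
    LocOK h W v (cf h W x) := by
  have := h.charP
  have ha : W.a₁ ≠ 0 := left_ne_zero_of_mul hk
  have i1 := hi.a₁
  have i2 := hi.a₂
  have i3 := hi.a₃
  have i4 := hi.a₄
  have i6 := hi.a₆
  have heq := (Affine.equation_iff _ _).mp hxy
  have hy : y ∈ v.integer := by
    refine int_quad v (b := W.a₁ * x + W.a₃) (r := x ^ 3 + W.a₂ * x ^ 2 + W.a₄ * x + W.a₆)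
      ?_ ?_ ?_
    · (repeat' first | assumption | exact one_mem _ | exact zero_mem _ | apply add_mem | apply mul_mem | apply pow_mem)
    · (repeat' first | assumption | exact one_mem _ | exact zero_mem _ | apply add_mem | apply mul_mem | apply pow_mem)
    · rw [← heq]; ring
  obtain ⟨V, hV⟩ := fund_eq h hk hxy
  refine locOK_of h hst hi hτ ?_ ha (V := V) (f := x + W.a₂) (add_mem hx i2) hV
  have hw : wf W x ∈ v.integer := by unfold wf; (repeat' first | assumption | exact one_mem _ | exact zero_mem _ | apply add_mem | apply mul_mem | apply pow_mem)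
  have hg : uf W y + (x + W.a₂) * wf W x ∈ v.integer := by
    unfold uf; (repeat' first | assumption | exact one_mem _ | exact zero_mem _ | apply add_mem | apply mul_mem | apply pow_mem)
  have j1 := (hst _ hw).2
  have j2 := (hst _ hg).2
  have hy4 : W.a₄ + W.a₁ * y ∈ v.integer := by (repeat' first | assumption | exact one_mem _ | exact zero_mem _ | apply add_mem | apply mul_mem | apply pow_mem)
  have j3 := (hst _ hy4).2
  have hx2 : x + W.a₂ ∈ v.integer := by (repeat' first | assumption | exact one_mem _ | exact zero_mem _ | apply add_mem | apply mul_mem | apply pow_mem)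
  have j4 := (hst _ hx2).2
  have key : cf h W x / W.a₁ = W.a₁ * h.C (W.a₄ + W.a₁ * y) ^ 2
      + (W.a₁ * x + W.a₃) * h.C (x + W.a₂) ^ 2
      + h.C (uf W y + (x + W.a₂) * wf W x) * h.C (wf W x) := by
    rw [div_eq_iff ha, cf_eq h hk hxy]
    have e1 : h.C (uf W y + (x + W.a₂) * wf W x) ^ 2
        = W.a₁ ^ 2 * h.C (W.a₄ + W.a₁ * y) ^ 2 + (x + W.a₂) * h.C (wf W x) ^ 2
          + wf W x * h.C (x + W.a₂) ^ 2 := by
      have e2 : h.D (uf W y + (x + W.a₂) * wf W x) = W.a₁ ^ 2 * h.D (W.a₄ + W.a₁ * y)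
          + ((x + W.a₂) * h.D (wf W x) + wf W x * h.D (x + W.a₂)) := by
        rw [h.D_add, h.D_mul]
        congr 1
        have : uf W y = W.a₃ ^ 2 + W.a₁ ^ 2 * (W.a₄ + W.a₁ * y) := by unfold uf; ring
        rw [this, h.D_add, h.D_sq, h.D_sq_mul, zero_add]
      unfold TwoBasis.D at e2
      rw [e2]; ring
    rw [e1]
    generalize h.C (uf W y + (x + W.a₂) * wf W x) = c1
    generalize h.C (wf W x) = c2
    generalize h.C (W.a₄ + W.a₁ * y) = c3
    generalize h.C (x + W.a₂) = c4
    unfold wf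
    grind
  rw [key]
  (repeat' first | assumption | exact one_mem _ | exact zero_mem _ | apply add_mem | apply mul_mem | apply pow_mem)

/-- data of a point with non-integral coordinates -/
theorem loc_denom (hi : IntCoeff W v) {x y : L} (hxy : W.Equation x y) (hx : 1 < v x) :
    ∃ e n : L, v e < 1 ∧ v n = 1 ∧ x = n / e ^ 2 ∧ e ≠ 0 ∧ n ≠ 0 ∧ y = e * x ^ 2 ∧
      n + W.a₁ * e + W.a₃ * (e ^ 3 / n) = 1 + W.a₂ * (e ^ 2 / n) + W.a₄ * (e ^ 2 / n) ^ 2
        + W.a₆ * (e ^ 2 / n) ^ 3 := by
  have heq := (Affine.equation_iff _ _).mp hxy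
  have hx0 : x ≠ 0 := by
    rintro rfl
    rw [map_zero] at hx
    exact absurd hx (not_lt.mpr zero_le_one)
  have i1 := hi.a₁
  have i2 := hi.a₂
  have i3 := hi.a₃
  have i4 := hi.a₄
  have i6 := hi.a₆
  set z := x⁻¹ with hz
  have hvz : v z < 1 := by
    rw [hz, map_inv₀]
    exact inv_lt_one_of_one_lt₀ hx
  have hzi : z ∈ v.integer := by rw [Valuation.mem_integer_iff]; exact hvz.le
  set e := y / x ^ 2 with he
  set n := e ^ 2 * x with hn
  have hmain : n + W.a₁ * e + W.a₃ * (e * z) = 1 + W.a₂ * z + W.a₄ * z ^ 2 + W.a₆ * z ^ 3 := by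
    rw [hn, he, hz]
    field_simp
    linear_combination heq
  have hR : 1 + W.a₂ * z + W.a₄ * z ^ 2 + W.a₆ * z ^ 3 ∈ v.integer := by (repeat' first | assumption | exact one_mem _ | exact zero_mem _ | apply add_mem | apply mul_mem | apply pow_mem)
  have hbi : W.a₁ + W.a₃ * z ∈ v.integer := by (repeat' first | assumption | exact one_mem _ | exact zero_mem _ | apply add_mem | apply mul_mem | apply pow_mem)
  -- `v e ≤ 1`
  have hve1 : v e ≤ 1 := by
    by_contra hc
    rw [not_le] at hc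
    have h1 : 1 < v (e * x) := by rw [map_mul]; exact one_lt_mul'' hc hx
    have h2 : v (e * x + (W.a₁ + W.a₃ * z)) = v (e * x) :=
      Valuation.map_add_eq_of_lt_left v
        (lt_of_le_of_lt ((Valuation.mem_integer_iff _ _).mp hbi) h1)
    have h3 : v (e * (e * x + (W.a₁ + W.a₃ * z))) = v e * v (e * x) := by
      rw [map_mul, h2]
    have h4 : 1 < v (e * (e * x + (W.a₁ + W.a₃ * z))) := by
      rw [h3]; exact one_lt_mul'' hc h1
    have h5 : e * (e * x + (W.a₁ + W.a₃ * z)) = n + W.a₁ * e + W.a₃ * (e * z) := by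
      rw [hn]; ring
    rw [h5, hmain] at h4
    exact absurd ((Valuation.mem_integer_iff _ _).mp hR) (not_le.mpr h4)
  have hei : e ∈ v.integer := (Valuation.mem_integer_iff _ _).mpr hve1
  have hni : n ∈ v.integer := by
    have : n = (1 + W.a₂ * z + W.a₄ * z ^ 2 + W.a₆ * z ^ 3) - (W.a₁ * e + W.a₃ * (e * z)) := by
      rw [← hmain]; ring
    rw [this]
    apply sub_mem hR
    (repeat' first | assumption | exact one_mem _ | exact zero_mem _ | apply add_mem | apply mul_mem | apply pow_mem)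
  have hve : v e < 1 := by
    refine lt_of_le_of_ne hve1 fun h1 => ?_
    have h2 : v n = v x := by rw [hn, map_mul, map_pow, h1]; simp
    have h3 := (Valuation.mem_integer_iff _ _).mp hni
    rw [h2] at h3
    exact absurd h3 (not_le.mpr hx)
  have hmul : ∀ a b : L, a ∈ v.integer → v b < 1 → v (a * b) < 1 := by
    intro a b ha hb
    rw [map_mul]
    exact mul_lt_one_of_nonneg_of_lt_one_right ((Valuation.mem_integer_iff _ _).mp ha)
      zero_le hb
  have hvn : v n = 1 := by
    have h1 : n = 1 + (W.a₂ * z + (W.a₄ * z) * z + (W.a₆ * z ^ 2) * z - W.a₁ * e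
        - (W.a₃ * z) * e) := by
      linear_combination hmain
    rw [h1]
    apply Valuation.map_one_add_of_lt
    have k1 := hmul _ _ i2 hvz
    have k2 := hmul _ _ (mul_mem i4 hzi) hvz
    have k3 := hmul _ _ (mul_mem i6 (pow_mem hzi 2)) hvz
    have k4 := hmul _ _ i1 hve
    have k5 := hmul _ _ (mul_mem i3 hzi) hve
    refine Valuation.map_sub_lt _ (Valuation.map_sub_lt _ (Valuation.map_add_lt _
      (Valuation.map_add_lt _ k1 k2) k3) k4) k5
  have hn0 : n ≠ 0 := by
    intro h0
    rw [h0, map_zero] at hvn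
    exact zero_ne_one hvn
  have he0 : e ≠ 0 := by
    intro h0
    apply hn0
    rw [hn, h0]; ring
  have hxn : x = n / e ^ 2 := by rw [hn]; field_simp
  refine ⟨e, n, hve, hvn, hxn, he0, hn0, by rw [he]; field_simp, ?_⟩
  have hzn : z = e ^ 2 / n := by rw [hz, hxn]; field_simp
  rw [← hzn, ← hmain, show e ^ 3 / n = e * (e ^ 2 / n) by ring, ← hzn]

/-- `a₁` is a unit, or generates the maximal ideal -/
def UnitOrUnif : Prop := v W.a₁ = 1 ∨ (v W.a₁ < 1 ∧ ∀ z : L, v z < 1 → z / W.a₁ ∈ v.integer)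

theorem loc_nonint (hst : Stable h v) (hi : IntCoeff W v) (hτ : τ ∈ v.integer)
    (hk : W.a₁ * kap h W ≠ 0) (hr : UnitOrUnif (W := W) (v := v)) {x y : L}
    (hxy : W.Equation x y) (hx : 1 < v x) :
    LocOK h W v (cf h W x) := by
  have := h.charP
  have ha : W.a₁ ≠ 0 := left_ne_zero_of_mul hk
  have i1 := hi.a₁
  have i2 := hi.a₂
  have i3 := hi.a₃
  have i4 := hi.a₄
  have i6 := hi.a₆
  obtain ⟨e, n, hve, hvn, hxn, he0, hn0, hye, heqn⟩ := loc_denom hi hxy hx
  have hei : e ∈ v.integer := (Valuation.mem_integer_iff _ _).mpr hve.le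
  have hni : n ∈ v.integer := (Valuation.mem_integer_iff _ _).mpr hvn.le
  have hnii : n⁻¹ ∈ v.integer := by
    rw [Valuation.mem_integer_iff, map_inv₀, hvn, inv_one]
  obtain ⟨V, hV⟩ := fund_eq h hk hxy
  have hkm := kap_mem h hst hi
  have hdm := del_mem h hst hi
  have heq := (Affine.equation_iff _ _).mp hxy
  -- the translated equation
  have hx0 : x ≠ 0 := by
    rw [hxn]
    exact div_ne_zero hn0 (pow_ne_zero 2 he0)
  have hf : W.a₄ * (e ^ 2 * n⁻¹) + W.a₆ * (e ^ 2 * n⁻¹) ^ 2 + W.a₃ * e ∈ v.integer := by (repeat' first | assumption | exact one_mem _ | exact zero_mem _ | apply add_mem | apply mul_mem | apply pow_mem)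
  have hfx : x + W.a₂ + (e * x) ^ 2 + W.a₁ * (e * x)
      = W.a₄ * (e ^ 2 * n⁻¹) + W.a₆ * (e ^ 2 * n⁻¹) ^ 2 + W.a₃ * e := by
    have hz : e ^ 2 * n⁻¹ = x⁻¹ := by rw [hxn]; field_simp
    rw [hz]
    have : x ^ 2 * (x + W.a₂ + (e * x) ^ 2 + W.a₁ * (e * x))
      = x ^ 2 * (W.a₄ * x⁻¹ + W.a₆ * x⁻¹ ^ 2 + W.a₃ * e) := by
      have h1 : x ^ 2 * (W.a₄ * x⁻¹ + W.a₆ * x⁻¹ ^ 2 + W.a₃ * e)
        = W.a₄ * x + W.a₆ + W.a₃ * y := by rw [hye]; field_simp
      rw [h1]
      rw [hye] at heq ⊢
      grind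
    exact mul_left_cancel₀ (pow_ne_zero 2 hx0) this
  have hV' : (V + kap h W * (e * x)) ^ 2 + W.a₁ * kap h W * (V + kap h W * (e * x))
      + kap h W ^ 2 * (W.a₄ * (e ^ 2 * n⁻¹) + W.a₆ * (e ^ 2 * n⁻¹) ^ 2 + W.a₃ * e)
      = cf h W x * (del h W + τ * cf h W x) := by
    rw [← hfx, ← hV]
    generalize kap h W = k
    grind
  refine locOK_of h hst hi hτ ?_ ha hf hV'
  -- integrality of `c / a₁`
  have hsmall : ∀ a b : L, a ∈ v.integer → v b < 1 → v (a * b) < 1 := by
    intro a b ha hb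
    rw [map_mul]
    exact mul_lt_one_of_nonneg_of_lt_one_right ((Valuation.mem_integer_iff _ _).mp ha)
      zero_le hb
  have hC13 := (hst _ (mul_mem i1 i3)).2
  have hE13 := (hst _ (mul_mem i1 i3)).1
  have hDi : Dd W ∈ v.integer := by unfold Dd; (repeat' first | assumption | exact one_mem _ | exact zero_mem _ | apply add_mem | apply mul_mem | apply pow_mem)
  have hED := (hst _ hDi).1
  have hCD := (hst _ hDi).2
  rcases hr with hr | ⟨hr1, hr2⟩
  · -- `a₁` a unit
    have hai : W.a₁⁻¹ ∈ v.integer := by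
      rw [Valuation.mem_integer_iff, map_inv₀, hr, inv_one]
    set U := W.a₁ * (W.a₁ * n + W.a₃ * e ^ 2) with hU
    have hvU : v U = 1 := by
      rw [hU, map_mul, hr, one_mul]
      have h1 : v (W.a₁ * n) = 1 := by rw [map_mul, hr, hvn, one_mul]
      rw [← h1]
      apply Valuation.map_add_eq_of_lt_left
      rw [h1, show W.a₃ * e ^ 2 = (W.a₃ * e) * e by ring]
      exact hsmall _ _ (mul_mem i3 hei) hve
    have hUi : U ∈ v.integer := (Valuation.mem_integer_iff _ _).mpr hvU.le
    have hUii : U⁻¹ ∈ v.integer := by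
      rw [Valuation.mem_integer_iff, map_inv₀, hvU, inv_one]
    have hU0 : U ≠ 0 := by
      intro h0; rw [h0, map_zero] at hvU; exact zero_ne_one hvU
    have hwU : U = e ^ 2 * wf W x := by
      rw [hU, hxn]; unfold wf; field_simp
    have hEU : h.E U = e * h.E (wf W x) := by rw [hwU, h.E_sq_mul]
    have hCU : h.C U = e * h.C (wf W x) := by rw [hwU, h.C_sq_mul]
    have j1 := (hst _ hUi).1
    have j2 := (hst _ hUi).2
    have key : cf h W x / W.a₁ = (kap h W ^ 2 * e ^ 2 + W.a₁ * kap h W * h.E U * h.C U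
        + del h W * h.C U ^ 2) * U⁻¹ * W.a₁⁻¹ := by
      have hw0 : wf W x ≠ 0 := w_ne_zero h hk hxy
      unfold cf
      rw [hEU, hCU, hwU]
      field_simp
    rw [key]
    (repeat' first | assumption | exact one_mem _ | exact zero_mem _ | apply add_mem | apply mul_mem | apply pow_mem)
  · -- `a₁` a uniformizer
    set d := e / W.a₁ with hd
    have hdi : d ∈ v.integer := hr2 e hve
    have hed : e = W.a₁ * d := by rw [hd]; field_simp
    have hd0 : d ≠ 0 := by rw [hd]; exact div_ne_zero he0 ha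
    set U := n + W.a₁ * W.a₃ * d ^ 2 with hU
    have hvU : v U = 1 := by
      rw [hU, ← hvn]
      apply Valuation.map_add_eq_of_lt_left
      rw [hvn, show W.a₁ * W.a₃ * d ^ 2 = (W.a₃ * d ^ 2) * W.a₁ by ring]
      exact hsmall _ _ (mul_mem i3 (pow_mem hdi 2)) hr1
    have hUi : U ∈ v.integer := (Valuation.mem_integer_iff _ _).mpr hvU.le
    have hUii : U⁻¹ ∈ v.integer := by
      rw [Valuation.mem_integer_iff, map_inv₀, hvU, inv_one]
    have hU0 : U ≠ 0 := by
      intro h0; rw [h0, map_zero] at hvU; exact zero_ne_one hvU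
    have hwU : U = d ^ 2 * wf W x := by
      rw [hU, hxn, hed]; unfold wf; field_simp
    have hEU : h.E U = d * h.E (wf W x) := by rw [hwU, h.E_sq_mul]
    have hCU : h.C U = d * h.C (wf W x) := by rw [hwU, h.C_sq_mul]
    have j1 := (hst _ hUi).1
    have j2 := (hst _ hUi).2
    -- the odd part of `n`
    set r := W.a₃ * e * n⁻¹ + W.a₂ * n⁻¹ + W.a₄ * e ^ 2 * n⁻¹ ^ 2 + W.a₆ * e ^ 4 * n⁻¹ ^ 3
      with hrdef
    have hri : r ∈ v.integer := by (repeat' first | assumption | exact one_mem _ | exact zero_mem _ | apply add_mem | apply mul_mem | apply pow_mem)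
    have hnr : n = 1 + W.a₁ ^ 2 * d + e ^ 2 * r := by
      have : n = 1 + W.a₁ * e + e ^ 2 * r := by
        have h1 : e ^ 2 * r = W.a₃ * (e ^ 3 / n) + W.a₂ * (e ^ 2 / n) + W.a₄ * (e ^ 2 / n) ^ 2
            + W.a₆ * (e ^ 2 / n) ^ 3 := by
          rw [hrdef]; field_simp
        rw [h1]
        generalize e ^ 2 / n = q1 at *
        generalize e ^ 3 / n = q2 at *
        generalize W.a₁ * e = q3 at *
        generalize W.a₃ * q2 = q4 at *
        generalize W.a₂ * q1 = q5 at *
        generalize W.a₄ * q1 ^ 2 = q6 at *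
        generalize W.a₆ * q1 ^ 3 = q7 at *
        clear * - heqn this
        grind
      rw [this, hed]; ring
    have hCn : h.C n = W.a₁ * (h.C d + d * h.C r) := by
      conv_lhs => rw [hnr]
      rw [h.C_add, h.C_add, h.C_one, h.C_sq_mul, h.C_sq_mul, hed]; ring
    have k1 := (hst _ hdi).2
    have k2 := (hst _ hri).2
    have hCU2 : h.C U = W.a₁ * (h.C d + d * h.C r) + d * h.C (W.a₁ * W.a₃) := by
      rw [hU, h.C_add, hCn, show W.a₁ * W.a₃ * d ^ 2 = d ^ 2 * (W.a₁ * W.a₃) by ring,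
        h.C_sq_mul]
    have key : cf h W x / W.a₁ = (d ^ 2 * (W.a₁ * h.C (Dd W) ^ 2
          + (W.a₃ * h.E (W.a₁ * W.a₃) + W.a₁ * h.E (Dd W)) * h.C (W.a₁ * W.a₃) ^ 2)
          + del h W * W.a₁ * (h.C d + d * h.C r) ^ 2
          + kap h W * h.E U * h.C U) * U⁻¹ := by
      have hw0 : wf W x ≠ 0 := w_ne_zero h hk hxy
      have e1 : cf h W x = (kap h W ^ 2 * d ^ 2 + W.a₁ * kap h W * h.E U * h.C U
          + del h W * h.C U ^ 2) * U⁻¹ := by
        unfold cf
        rw [hEU, hCU, hwU]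
        field_simp
      rw [e1]
      have e2 : kap h W ^ 2 * d ^ 2 + W.a₁ * kap h W * h.E U * h.C U
          + del h W * h.C U ^ 2 = W.a₁ * (d ^ 2 * (W.a₁ * h.C (Dd W) ^ 2
          + (W.a₃ * h.E (W.a₁ * W.a₃) + W.a₁ * h.E (Dd W)) * h.C (W.a₁ * W.a₃) ^ 2)
          + del h W * W.a₁ * (h.C d + d * h.C r) ^ 2
          + kap h W * h.E U * h.C U) := by
        have e3 : kap h W ^ 2 * d ^ 2 + del h W * h.C U ^ 2 = W.a₁ * (d ^ 2 * (W.a₁ * h.C (Dd W) ^ 2
          + (W.a₃ * h.E (W.a₁ * W.a₃) + W.a₁ * h.E (Dd W)) * h.C (W.a₁ * W.a₃) ^ 2)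
          + del h W * W.a₁ * (h.C d + d * h.C r) ^ 2) := by
          rw [hCU2]
          unfold kap del
          generalize h.C d + d * h.C r = q
          generalize h.C (W.a₁ * W.a₃) = c13
          generalize h.E (W.a₁ * W.a₃) = e13
          generalize h.C (Dd W) = cD
          generalize h.E (Dd W) = eD
          clear * - this
          grind
        linear_combination e3
      rw [e2]
      field_simp
    rw [key]
    (repeat' first | assumption | exact one_mem _ | exact zero_mem _ | apply add_mem | apply mul_mem | apply pow_mem)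

/-- **The local theorem**: the descent map of a point over a field with a valuation. -/
theorem local_main [DecidableEq L] (hst : Stable h v) (hi : IntCoeff W v) (hτ : τ ∈ v.integer)
    (hk : W.a₁ * kap h W ≠ 0) (hr : UnitOrUnif (W := W) (v := v)) (P : W.Point) :
    LocOK h W v (cHom h hk P) := by
  rcases P with _ | ⟨x, y, hxy⟩
  · rw [cHom_zero]
    refine ⟨by simp, 0, 0, zero_mem _, zero_mem _, by ring⟩
  · rw [cHom_some]
    by_cases hx : x ∈ v.integer
    · exact loc_int h hst hi hτ hk hxy.1 hx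
    · rw [Valuation.mem_integer_iff, not_le] at hx
      exact loc_nonint h hst hi hτ hk hr hxy.1 hx

end Pool.Agent.H2
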