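import Mathlib

/-!
# The Selmer group in terms of points over the separable closure
-/

namespace Pool.Agent.H2

open WeierstrassCurve WeierstrassCurve.Affine

universe u

/-- The separable closure `Kˢ` of `K`. -/
def Ks (K : Type u) [Field K] : Type u := SeparableClosure K

noncomputable instance instFieldKs (K : Type u) [Field K] : Field (Ks K) :=
  (inferInstance : Field (SeparableClosure K))

noncomputable instance instAlgebraKs (K : Type u) [Field K] : Algebra K (Ks K) :=
  (inferInstance : Algebra K (SeparableClosure K))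

variable {K : Type u} [Field K]

/-- The completion `K_v` of `K` at the absolute value `v`. -/
def Kv (v : AbsoluteValue K ℝ) : Type u := v.Completion

noncomputable instance instFieldKv (v : AbsoluteValue K ℝ) : Field (Kv v) :=
  (inferInstance : Field v.Completion)

noncomputable instance instAlgebraKv (v : AbsoluteValue K ℝ) : Algebra K (Kv v) :=
  (inferInstance : Algebra K v.Completion)

/-- The separable closure of `K_v` as an extension of `K`. -/
noncomputable instance instAlgebraKsKv (v : AbsoluteValue K ℝ) : Algebra K (Ks (Kv v)) :=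
  ((algebraMap (Kv v) (Ks (Kv v))).comp (algebraMap K (Kv v))).toAlgebra

/-- The inclusion of `K_v` in its separable closure. -/
noncomputable def locMap (v : AbsoluteValue K ℝ) : Kv v →ₐ[K] Ks (Kv v) :=
  { algebraMap (Kv v) (Ks (Kv v)) with commutes' := fun _ => rfl }

/-- The group `E(F)` of points of `E` over an extension `F` of `K`. -/
def Pts (E : Affine K) (F : Type u) [Field F] [Algebra K F] : Type u := (E⁄F).Point

variable {E : Affine K} {F M : Type u} [Field F] [Algebra K F] [Field M] [Algebra K M]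

open scoped Classical in
noncomputable instance instGroupPts : AddCommGroup (Pts E F) :=
  (inferInstance : AddCommGroup (E⁄F).Point)

open scoped Classical in
/-- The map on points induced by a homomorphism of extensions of `K`. -/
noncomputable def Pts.map (f : F →ₐ[K] M) : Pts E F →+ Pts E M := Affine.Point.map f

/-- `P` and `Q` are congruent modulo `n E(F)`. -/
def Pts.Congr (n : ℕ) (P Q : Pts E F) : Prop := ∃ R : Pts E F, P = Q + n • R

/-- The class of `P` in `E(Kˢ) / n E(Kˢ)` is invariant under the absolute Galois group. -/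
def GaloisFixed (n : ℕ) (P : Pts E (Ks K)) : Prop :=
  ∀ σ : Ks K →ₐ[K] Ks K, (Pts.map σ P).Congr n P

/-- At `v` the class of `P` in `E(K_vˢ) / n E(K_vˢ)` is the class of a `K_v`-rational point. -/
def LocallyRational (n : ℕ) (P : Pts E (Ks K)) (v : AbsoluteValue K ℝ) : Prop :=
  ∀ ι : Ks K →ₐ[K] Ks (Kv v), ∃ Q : Pts E (Kv v),
    (Pts.map ι P).Congr n (Pts.map (locMap v) Q)

/-- The points `P` of `E` over the separable closure `Kˢ` whose class in `E(Kˢ) / n E(Kˢ)` is
invariant under the absolute Galois group and becomes, at every place `v` of `K`, the class of a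
`K_v`-rational point in `E(K_vˢ) / n E(K_vˢ)`. -/
def IsSelmer (n : ℕ) (P : Pts E (Ks K)) : Prop :=
  GaloisFixed n P ∧ ∀ v : AbsoluteValue K ℝ, v.IsNontrivial → LocallyRational n P v

theorem Pts.Congr.add {n : ℕ} {P Q P' Q' : Pts E F} (h : P.Congr n Q) (h' : P'.Congr n Q') :
    (P + P').Congr n (Q + Q') := by
  obtain ⟨R, e⟩ := h
  obtain ⟨R', e'⟩ := h'
  refine ⟨R + R', ?_⟩
  rw [e, e', nsmul_add]
  abel

theorem Pts.Congr.neg {n : ℕ} {P Q : Pts E F} (h : P.Congr n Q) : (-P).Congr n (-Q) := by
  obtain ⟨R, e⟩ := h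
  refine ⟨-R, ?_⟩
  rw [e, smul_neg]
  abel

theorem IsSelmer.zero (n : ℕ) : IsSelmer n (0 : Pts E (Ks K)) := by
  refine ⟨fun σ => ⟨0, ?_⟩, fun v _ ι => ⟨0, 0, ?_⟩⟩
  · rw [map_zero]; simp
  · rw [map_zero, map_zero]; simp

theorem IsSelmer.add {n : ℕ} {P Q : Pts E (Ks K)} (h : IsSelmer n P) (h' : IsSelmer n Q) :
    IsSelmer n (P + Q) := by
  refine ⟨fun σ => ?_, fun v hv ι => ?_⟩
  · rw [map_add]; exact (h.1 σ).add (h'.1 σ)
  · obtain ⟨Q₁, e₁⟩ := h.2 v hv ι
    obtain ⟨Q₂, e₂⟩ := h'.2 v hv ι
    refine ⟨Q₁ + Q₂, ?_⟩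
    rw [map_add, map_add]; exact e₁.add e₂

theorem IsSelmer.neg {n : ℕ} {P : Pts E (Ks K)} (h : IsSelmer n P) : IsSelmer n (-P) := by
  refine ⟨fun σ => ?_, fun v hv ι => ?_⟩
  · rw [map_neg]; exact (h.1 σ).neg
  · obtain ⟨Q₁, e₁⟩ := h.2 v hv ι
    refine ⟨-Q₁, ?_⟩
    rw [map_neg, map_neg]; exact e₁.neg

variable (E) in
/-- `E` has no point of order dividing `n` over the separable closure, except for `0`. -/
def NoTorsion (n : ℕ) : Prop := ∀ P : Pts E (Ks K), n • P = 0 → P = 0

variable (E) in
/-- The subgroup of `E(Kˢ)` of the points satisfying the Selmer conditions. -/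
noncomputable def selmerPoints (n : ℕ) : AddSubgroup (Pts E (Ks K)) where
  carrier := {P | IsSelmer n P}
  zero_mem' := IsSelmer.zero n
  add_mem' := IsSelmer.add
  neg_mem' := IsSelmer.neg

variable (E) in
/-- The `n`-Selmer group of an elliptic curve `E` over `K` without `n`-torsion over the separable
closure of `K`: the subgroup of `(E(Kˢ) / n E(Kˢ)) ^ Gal(Kˢ/K)` cut out by the local
conditions. -/
abbrev SelmerGroup (n : ℕ) : Type u :=
  selmerPoints E n ⧸ ((nsmulAddMonoidHom n : Pts E (Ks K) →+ _).range.addSubgroupOf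
    (selmerPoints E n))

end Pool.Agent.H2
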