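import Pool.Agent.H2.Places
import Pool.Agent.H2.Local
import Pool.Agent.H2.Selmer

/-!
# Naturality of the descent map, and the local conditions of a Selmer class
-/

namespace Pool.Agent.H2

open WeierstrassCurve WeierstrassCurve.Affine

section Nat

variable {L M : Type*} [Field L] [Field M] {τ : L} {σ : M} (h : TwoBasis τ) (h' : TwoBasis σ)
  (f : L →+* M) (hf : f τ = σ) (W : Affine L)
include hf

theorem map_kap : f (kap h W) = kap h' (W.map f) := by
  unfold kap Dd
  rw [map_add, map_mul, map_mul, h.map_C h' f hf, h.map_C h' f hf]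
  simp

theorem map_del : f (del h W) = del h' (W.map f) := by
  unfold del Dd
  rw [map_add, map_add, map_mul, map_mul, map_mul, h.map_E h' f hf, h.map_E h' f hf]
  simp

theorem map_cf (x : L) : f (cf h W x) = cf h' (W.map f) (f x) := by
  unfold cf
  rw [map_div₀, map_add, map_add, map_mul, map_mul, map_mul, map_mul, map_pow, map_pow,
    map_kap h h' f hf, map_del h h' f hf, h.map_C h' f hf, h.map_E h' f hf]
  have : f (wf W x) = wf (W.map f) (f x) := by unfold wf; simp
  rw [this]
  simp

end Nat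

section Alg

variable {K F M : Type*} [Field K] [Field F] [Field M] [Algebra K F] [Algebra K M]
  {τ : K} (E : Affine K)

theorem ne_zero_map (h : TwoBasis τ) (hF : TwoBasis (algebraMap K F τ))
    (hk : E.a₁ * kap h E ≠ 0) : (E⁄F).a₁ * kap hF (E⁄F) ≠ 0 := by
  have h1 : kap hF (E⁄F) = algebraMap K F (kap h E) := (map_kap h hF (algebraMap K F) rfl E).symm
  rw [h1]
  change algebraMap K F E.a₁ * algebraMap K F (kap h E) ≠ 0
  rw [← map_mul]
  exact (map_ne_zero _).mpr hk

theorem map_cHom [DecidableEq F] [DecidableEq M] (hF : TwoBasis (algebraMap K F τ))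
    (hM : TwoBasis (algebraMap K M τ)) (hkF : (E⁄F).a₁ * kap hF (E⁄F) ≠ 0)
    (hkM : (E⁄M).a₁ * kap hM (E⁄M) ≠ 0) (f : F →ₐ[K] M) (P : (E⁄F).Point) :
    cHom hM hkM (Point.map f P) = f (cHom hF hkF P) := by
  rcases P with _ | ⟨x, y, hxy⟩
  · change cHom hM hkM .zero = f (cHom hF hkF .zero)
    rw [cHom_zero, cHom_zero, map_zero]
  · rw [Point.map_some, cHom_some, cHom_some]
    have h1 := map_cf hF hM (f : F →+* M) (by simp) (E⁄F) x
    have h2 : (E⁄F).map (f : F →+* M) = E⁄M := Affine.map_baseChange E f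
    rw [h2] at h1
    exact h1.symm

end Alg

section Selmer

universe u

variable {K : Type u} [Field K] {τ : K} (h : TwoBasis τ) (E : Affine K)
  (hk : E.a₁ * kap h E ≠ 0)

open scoped Classical in
/-- the descent map over an extension -/
noncomputable def cExt (F : Type u) [Field F] [Algebra K F] (hF : TwoBasis (algebraMap K F τ)) :
    Pts E F →+ F := cHom hF (ne_zero_map E h hF hk)

open scoped Classical in
theorem cExt_map {F M : Type u} [Field F] [Field M] [Algebra K F] [Algebra K M]
    (hF : TwoBasis (algebraMap K F τ)) (hM : TwoBasis (algebraMap K M τ)) (f : F →ₐ[K] M)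
    (P : Pts E F) :
    cExt h E hk M hM (Pts.map f P) = f (cExt h E hk F hF P) :=
  map_cHom E hF hM _ _ f P

theorem cExt_two {F : Type u} [Field F] [Algebra K F] (hF : TwoBasis (algebraMap K F τ))
    (P : Pts E F) : cExt h E hk F hF (2 • P) = 0 := by
  rw [map_nsmul, two_nsmul]
  have := hF.charP
  exact CharTwo.add_self_eq_zero _

theorem cExt_congr {F : Type u} [Field F] [Algebra K F] (hF : TwoBasis (algebraMap K F τ))
    {P Q : Pts E F} (hPQ : P.Congr 2 Q) : cExt h E hk F hF P = cExt h E hk F hF Q := by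
  obtain ⟨R, rfl⟩ := hPQ
  rw [map_add, cExt_two, add_zero]

open scoped Classical in
theorem cExt_ker' {F : Type u} [Field F] [Algebra K F] (hF : TwoBasis (algebraMap K F τ))
    (P : Pts E F) (hP : cExt h E hk F hF P = 0) : ∃ Q : Pts E F, Q + Q = P :=
  exists_half hF (ne_zero_map E h hF hk) P hP

/-- the kernel -/
theorem cExt_ker {F : Type u} [Field F] [Algebra K F] (hF : TwoBasis (algebraMap K F τ))
    (P : Pts E F) (hP : cExt h E hk F hF P = 0) : ∃ Q : Pts E F, 2 • Q = P := by
  obtain ⟨Q, hQ⟩ := cExt_ker' h E hk hF P hP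
  exact ⟨Q, by rw [two_nsmul, hQ]⟩

instance instIsSeparableKs : Algebra.IsSeparable K (Ks K) :=
  (inferInstance : Algebra.IsSeparable K (SeparableClosure K))

instance instIsGaloisKs : IsGalois K (Ks K) :=
  (inferInstance : IsGalois K (SeparableClosure K))

instance instIsSepClosedKs : IsSepClosed (Ks K) :=
  (inferInstance : IsSepClosed (SeparableClosure K))

include h in
/-- the basis over the separable closure -/
theorem sepK : TwoBasis (algebraMap K (Ks K) τ) := h.sep

/-- the value of the descent map at a Selmer point is rational -/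
theorem exists_val (P : Pts E (Ks K)) (hP : P ∈ selmerPoints E 2) :
    ∃ c : K, algebraMap K (Ks K) c = cExt h E hk (Ks K) (sepK h) P := by
  have hfix : ∀ σ : Ks K ≃ₐ[K] Ks K,
      σ (cExt h E hk (Ks K) (sepK h) P) = cExt h E hk (Ks K) (sepK h) P := by
    intro σ
    have hR := hP.1 (σ : Ks K →ₐ[K] Ks K)
    have h1 := cExt_map h E hk (sepK h) (sepK h) (σ : Ks K →ₐ[K] Ks K) P
    rw [cExt_congr h E hk (sepK h) hR] at h1
    exact h1.symm
  have h2 := (InfiniteGalois.mem_range_algebraMap_iff_fixed (k := K)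
    (cExt h E hk (Ks K) (sepK h) P)).mpr hfix
  obtain ⟨c, hc⟩ := h2
  exact ⟨c, hc⟩

/-- at every nontrivial place the value comes from a local point -/
theorem exists_local (P : Pts E (Ks K)) (hP : P ∈ selmerPoints E 2)
    {c : K} (hc : algebraMap K (Ks K) c = cExt h E hk (Ks K) (sepK h) P)
    (v : AbsoluteValue K ℝ) (hv : v.IsNontrivial)
    (hF : TwoBasis (algebraMap K v.Completion τ)) :
    ∃ Q : Pts E v.Completion,
      algebraMap K v.Completion c = cExt h E hk v.Completion hF Q := by
  have hF' : TwoBasis (algebraMap K (Kv v) τ) := hF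
  let ι : Ks K →ₐ[K] Ks (Kv v) := IsSepClosed.lift
  obtain ⟨Q, hQ⟩ := hP.2 v hv ι
  have hM : TwoBasis (algebraMap K (Ks (Kv v)) τ) := sepK hF'
  refine ⟨Q, ?_⟩
  have h0 := cExt_map h E hk (sepK h) hM ι P
  have h1 := (cExt_congr h E hk hM hQ).symm.trans h0
  have h2 := cExt_map h E hk hF' hM (locMap v) Q
  have h3 := h2.symm.trans h1
  rw [← hc, ι.commutes] at h3
  exact ((algebraMap (Kv v) (Ks (Kv v))).injective h3).symm

end Selmer

end Pool.Agent.H2
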