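import Pool.Agent.H2.Lattice

/-!
# The norm at infinity of the lattice of a Selmer class
-/

namespace Pool.Agent.H2

open Polynomial

universe u

variable {k : Type u} [Field k] [Finite k] [CharP k 2]

/-- the data at infinity -/
structure InfData (a₁ κ c e V : RatFunc k) (d : ℕ) : Prop where
  ha : infAbv k a₁ = 2 ^ d
  hκ0 : κ ≠ 0
  hκ : infAbv k κ * 2 ≤ 2 ^ (5 * d)
  hc : infAbv k c * 4 ≤ 2 ^ (6 * d)
  he : infAbv k e ≤ 2 ^ (6 * d)
  hV : infAbv k V * 2 ≤ 2 ^ (6 * d)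
  hf : infAbv k (V ^ 2 + a₁ * κ * V + c * e) ≤ infAbv k κ ^ 2 * 2 ^ (2 * d)
  hcase : infAbv k κ * 2 = 2 ^ (5 * d) ∨ infAbv k e = 2 ^ (6 * d)

/-- the norm -/
noncomputable def Nm (κ c e V : RatFunc k) (d : ℕ) (μ : RatFunc k × RatFunc k) : ℝ :=
  max (max (2 * infAbv k μ.1) (infAbv k μ.2))
    (max (2 * infAbv k (c * μ.2 + V * μ.1) / (infAbv k κ * 2 ^ d))
      (infAbv k (V * μ.2 + e * μ.1) / (infAbv k κ * 2 ^ d)))

section

variable {a₁ κ c e V : RatFunc k} {d : ℕ}

omit [Finite k] [CharP k 2] in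
theorem Nm_le_iff (hκ0 : κ ≠ 0) (μ : RatFunc k × RatFunc k) (r : ℝ) :
    Nm κ c e V d μ ≤ r ↔ 2 * infAbv k μ.1 ≤ r ∧ infAbv k μ.2 ≤ r ∧
      2 * infAbv k (c * μ.2 + V * μ.1) ≤ r * (infAbv k κ * 2 ^ d) ∧
      infAbv k (V * μ.2 + e * μ.1) ≤ r * (infAbv k κ * 2 ^ d) := by
  have hp : 0 < infAbv k κ * 2 ^ d := mul_pos ((infAbv k).pos hκ0) (by positivity)
  unfold Nm
  rw [max_le_iff, max_le_iff, max_le_iff, div_le_iff₀ hp, div_le_iff₀ hp, and_assoc]

/-- powers of two or zero -/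
def PZ (r : ℝ) : Prop := r = 0 ∨ ∃ n : ℤ, r = (2 : ℝ) ^ n

omit [Finite k] [CharP k 2] in
theorem PZ_abv (x : RatFunc k) : PZ (infAbv k x) := by
  by_cases h : x = 0
  · left; rw [h, map_zero]
  · right; exact ⟨_, infAbv_apply h⟩

theorem PZ_max {r s : ℝ} (hr : PZ r) (hs : PZ s) : PZ (max r s) := by
  rcases max_choice r s with h | h <;> rw [h] <;> assumption

theorem PZ_mul {r s : ℝ} (hr : PZ r) (hs : PZ s) : PZ (r * s) := by
  rcases hr with rfl | ⟨n, rfl⟩
  · left; ring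
  rcases hs with rfl | ⟨m, rfl⟩
  · left; ring
  · right; exact ⟨n + m, (zpow_add₀ two_ne_zero _ _).symm⟩

theorem PZ_div {r s : ℝ} (hr : PZ r) (hs : PZ s) : PZ (r / s) := by
  rcases hr with rfl | ⟨n, rfl⟩
  · left; ring
  rcases hs with rfl | ⟨m, rfl⟩
  · left; simp
  · right; exact ⟨n - m, (zpow_sub₀ two_ne_zero _ _).symm⟩

theorem PZ_two_pow (n : ℕ) : PZ ((2 : ℝ) ^ n) := Or.inr ⟨n, by norm_cast⟩

theorem PZ_two : PZ (2 : ℝ) := Or.inr ⟨1, by norm_num⟩

omit [Finite k] [CharP k 2] in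
theorem isNorm_Nm (hκ0 : κ ≠ 0) : IsNorm (Nm κ c e V d) where
  smul s μ := by
    unfold Nm
    simp only [Prod.smul_fst, Prod.smul_snd, smul_eq_mul]
    have h0 := (infAbv k).nonneg s
    have e1 : c * (s * μ.2) + V * (s * μ.1) = s * (c * μ.2 + V * μ.1) := by ring
    have e2 : V * (s * μ.2) + e * (s * μ.1) = s * (V * μ.2 + e * μ.1) := by ring
    rw [e1, e2, map_mul, map_mul, map_mul, map_mul, mul_max_of_nonneg _ _ h0,
      mul_max_of_nonneg _ _ h0, mul_max_of_nonneg _ _ h0]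
    congr 1
    · congr 1; ring
    · congr 1 <;> ring
  add μ ν := by
    have hM : 0 < infAbv k κ * 2 ^ d := mul_pos ((infAbv k).pos hκ0) (by positivity)
    rw [Nm_le_iff hκ0]
    obtain ⟨a1, a2, a3, a4⟩ := (Nm_le_iff (c := c) (e := e) (V := V) (d := d) hκ0 μ _).mp
      (le_max_left (Nm κ c e V d μ) (Nm κ c e V d ν))
    obtain ⟨b1, b2, b3, b4⟩ := (Nm_le_iff (c := c) (e := e) (V := V) (d := d) hκ0 ν _).mp
      (le_max_right (Nm κ c e V d μ) (Nm κ c e V d ν))
    have key : ∀ {x y : RatFunc k} {r : ℝ}, infAbv k x ≤ r → infAbv k y ≤ r →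
        infAbv k (x + y) ≤ r := fun hx hy => (infAbv_nonarch _ _).trans (max_le hx hy)
    have key2 : ∀ {x y : RatFunc k} {r : ℝ}, 2 * infAbv k x ≤ r → 2 * infAbv k y ≤ r →
        2 * infAbv k (x + y) ≤ r := by
      intro x y r hx hy
      have := infAbv_nonarch x y
      rcases le_max_iff.mp this with h | h <;> linarith
    refine ⟨key2 a1 b1, key a2 b2, ?_, ?_⟩
    · have e1 : c * (μ + ν).2 + V * (μ + ν).1 = (c * μ.2 + V * μ.1) + (c * ν.2 + V * ν.1) := by
        simp only [Prod.fst_add, Prod.snd_add]; ring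
      rw [e1]; exact key2 a3 b3
    · have e1 : V * (μ + ν).2 + e * (μ + ν).1 = (V * μ.2 + e * μ.1) + (V * ν.2 + e * ν.1) := by
        simp only [Prod.fst_add, Prod.snd_add]; ring
      rw [e1]; exact key a4 b4
  disc μ hμ := by
    have h1 : PZ (Nm κ c e V d μ) := by
      unfold Nm
      have hM : PZ (infAbv k κ * 2 ^ d) := PZ_mul (PZ_abv _) (PZ_two_pow d)
      exact PZ_max (PZ_max (PZ_mul PZ_two (PZ_abv _)) (PZ_abv _))
        (PZ_max (PZ_div (PZ_mul PZ_two (PZ_abv _)) hM) (PZ_div (PZ_abv _) hM))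
    rcases h1 with h1 | h1
    · exfalso
      apply hμ
      obtain ⟨a1, a2, -, -⟩ := (Nm_le_iff (c := c) (e := e) (V := V) (d := d) hκ0 μ _).mp h1.le
      have b1 := (infAbv k).nonneg μ.1
      have b2 := (infAbv k).nonneg μ.2
      have c1 : infAbv k μ.1 = 0 := by linarith
      have c2 : infAbv k μ.2 = 0 := by linarith
      exact Prod.ext ((infAbv k).eq_zero.mp c1) ((infAbv k).eq_zero.mp c2)
    · exact h1
  int μ hμ := by
    have key : ∀ f : k[X], f ≠ 0 → 1 ≤ infAbv k (algebraMap k[X] (RatFunc k) f) := by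
      intro f hf
      rw [infAbv_poly hf, zpow_natCast]
      exact one_le_pow₀ (by norm_num)
    obtain ⟨a1, a2, -, -⟩ := (Nm_le_iff (c := c) (e := e) (V := V) (d := d) hκ0 (iv μ) _).mp le_rfl
    by_cases h1 : μ.1 = 0
    · have h2 : μ.2 ≠ 0 := by
        intro h2; exact hμ (Prod.ext h1 h2)
      exact (key _ h2).trans a2
    · have := key _ h1
      have h3 : 2 * infAbv k (iv μ).1 ≤ Nm κ c e V d (iv μ) := a1
      have h4 : (iv μ).1 = algebraMap k[X] (RatFunc k) μ.1 := rfl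
      rw [h4] at h3
      linarith

/-- the determinant over the field -/
noncomputable def wK (μ ν : RatFunc k × RatFunc k) : RatFunc k := μ.1 * ν.2 + ν.1 * μ.2

omit [Finite k] [CharP k 2] in
theorem abv_add_le {x y : RatFunc k} {r : ℝ} (hx : infAbv k x ≤ r) (hy : infAbv k y ≤ r) :
    infAbv k (x + y) ≤ r := (infAbv_nonarch _ _).trans (max_le hx hy)

omit [Finite k] in
/-- upper bound for the determinant -/
theorem wK_le (h : InfData a₁ κ c e V d) (μ ν : RatFunc k × RatFunc k) :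
    infAbv k (wK μ ν) * 2 ^ (5 * d) ≤ infAbv k κ * (Nm κ c e V d μ * Nm κ c e V d ν) := by
  have hK : CharP (RatFunc k) 2 := charP_of_injective_algebraMap (algebraMap k (RatFunc k)).injective 2
  obtain ⟨a1, a2, a3, a4⟩ := (Nm_le_iff (c := c) (e := e) (V := V) (d := d) h.hκ0 μ _).mp le_rfl
  obtain ⟨b1, b2, b3, b4⟩ := (Nm_le_iff (c := c) (e := e) (V := V) (d := d) h.hκ0 ν _).mp le_rfl
  set N := Nm κ c e V d μ
  set N' := Nm κ c e V d ν
  have p1 := (infAbv k).nonneg μ.1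
  have p2 := (infAbv k).nonneg μ.2
  have q1 := (infAbv k).nonneg ν.1
  have q2 := (infAbv k).nonneg ν.2
  have hN : 0 ≤ N := by linarith
  have hN' : 0 ≤ N' := by linarith
  have hκp : 0 < infAbv k κ := (infAbv k).pos h.hκ0
  rcases h.hcase with hc | hc
  · -- `κ` of full degree
    have h1 : infAbv k (wK μ ν) ≤ N * N' / 2 := by
      unfold wK
      apply abv_add_le
      · rw [map_mul]
        have : (2 * infAbv k μ.1) * infAbv k ν.2 ≤ N * N' := mul_le_mul a1 b2 q2 hN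
        linarith
      · rw [map_mul]
        have : (2 * infAbv k ν.1) * infAbv k μ.2 ≤ N' * N := mul_le_mul b1 a2 p2 hN'
        linarith
    rw [← hc]
    calc infAbv k (wK μ ν) * (infAbv k κ * 2) ≤ (N * N' / 2) * (infAbv k κ * 2) := by gcongr
      _ = infAbv k κ * (N * N') := by ring
  · -- `e` of full degree
    have h1 : infAbv k (e * wK μ ν) ≤ infAbv k κ * 2 ^ d * (N * N') := by
      have e1 : e * wK μ ν = (V * μ.2 + e * μ.1) * ν.2 + (V * ν.2 + e * ν.1) * μ.2 := by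
        unfold wK; grind
      rw [e1]
      apply abv_add_le
      · rw [map_mul]
        calc infAbv k (V * μ.2 + e * μ.1) * infAbv k ν.2
            ≤ (N * (infAbv k κ * 2 ^ d)) * N' := mul_le_mul a4 b2 q2 (by positivity)
          _ = _ := by ring
      · rw [map_mul]
        calc infAbv k (V * ν.2 + e * ν.1) * infAbv k μ.2
            ≤ (N' * (infAbv k κ * 2 ^ d)) * N := mul_le_mul b4 a2 p2 (by positivity)
          _ = _ := by ring
    rw [map_mul, hc] at h1
    have e2 : (2 : ℝ) ^ (6 * d) = 2 ^ (5 * d) * 2 ^ d := by rw [← pow_add]; congr 1; ring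
    rw [e2] at h1
    have hd : (0 : ℝ) < 2 ^ d := by positivity
    have h2 : (infAbv k (wK μ ν) * 2 ^ (5 * d)) * 2 ^ d ≤ (infAbv k κ * (N * N')) * 2 ^ d := by
      calc (infAbv k (wK μ ν) * 2 ^ (5 * d)) * 2 ^ d = 2 ^ (5 * d) * 2 ^ d * infAbv k (wK μ ν) := by
            ring
        _ ≤ infAbv k κ * 2 ^ d * (N * N') := h1
        _ = _ := by ring
    exact le_of_mul_le_mul_right h2 hd

omit [Finite k] in
/-- local vectors attaining the bound -/
theorem exists_wK (h : InfData a₁ κ c e V d) : ∃ μ ν : RatFunc k × RatFunc k, μ ≠ 0 ∧ ν ≠ 0 ∧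
    infAbv k κ * (Nm κ c e V d μ * Nm κ c e V d ν) ≤ infAbv k (wK μ ν) * 2 ^ (5 * d) := by
  have hK : CharP (RatFunc k) 2 := charP_of_injective_algebraMap (algebraMap k (RatFunc k)).injective 2
  have hκp : 0 < infAbv k κ := (infAbv k).pos h.hκ0
  have e2 : (2 : ℝ) ^ (6 * d) = 2 ^ (5 * d) * 2 ^ d := by rw [← pow_add]; congr 1; ring
  have h5 : (0 : ℝ) < 2 ^ (5 * d) := by positivity
  have hd : (0 : ℝ) < 2 ^ d := by positivity
  have h2d : (2 : ℝ) ^ (2 * d) = 2 ^ d * 2 ^ d := by rw [← pow_add]; congr 1; ring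
  rcases h.hcase with hc | hc
  · refine ⟨(1, 0), (0, 1), by simp, by simp, ?_⟩
    have n1 : Nm κ c e V d (1, 0) ≤ 2 := by
      rw [Nm_le_iff h.hκ0]
      refine ⟨by simp, by simp, ?_, ?_⟩
      · simp only [mul_zero, mul_one, zero_add]
        have := h.hV
        rw [e2, ← hc] at this
        linarith
      · simp only [mul_zero, mul_one, zero_add]
        have := h.he
        rw [e2, ← hc] at this
        linarith
    have n2 : Nm κ c e V d (0, 1) ≤ 1 := by
      rw [Nm_le_iff h.hκ0]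
      refine ⟨by simp, by simp, ?_, ?_⟩
      · simp only [mul_zero, mul_one, add_zero, one_mul]
        have := h.hc
        rw [e2, ← hc] at this
        linarith
      · simp only [mul_zero, mul_one, add_zero, one_mul]
        have := h.hV
        rw [e2, ← hc] at this
        linarith
    have hw : wK ((1, 0) : RatFunc k × RatFunc k) (0, 1) = 1 := by unfold wK; ring
    rw [hw, map_one, one_mul, ← hc]
    have hnn := (isNorm_Nm (c := c) (e := e) (V := V) (d := d) h.hκ0).nonneg (0, 1)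
    have : Nm κ c e V d (1, 0) * Nm κ c e V d (0, 1) ≤ 2 * 1 :=
      mul_le_mul n1 n2 hnn (by norm_num)
    rw [mul_one] at this
    gcongr
  · have he0 : e ≠ 0 := by
      rintro rfl
      rw [map_zero] at hc
      have : (0 : ℝ) < 2 ^ (6 * d) := by positivity
      linarith
    refine ⟨(V, e), (1, 0), ?_, by simp, ?_⟩
    · intro h0
      exact he0 (congrArg Prod.snd h0)
    have hκ := h.hκ
    have hV := h.hV
    have n1 : Nm κ c e V d (V, e) ≤ 2 ^ (6 * d) := by
      rw [Nm_le_iff h.hκ0]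
      refine ⟨by linarith, hc.le, ?_, ?_⟩
      · have e3 : c * e + V * V = (V ^ 2 + a₁ * κ * V + c * e) + a₁ * κ * V := by grind
        simp only
        rw [e3]
        have b1 : infAbv k ((V ^ 2 + a₁ * κ * V + c * e) + a₁ * κ * V)
            ≤ 2 ^ (6 * d) * (infAbv k κ * 2 ^ d) / 2 := by
          apply abv_add_le
          · refine h.hf.trans ?_
            rw [h2d, e2]
            have : infAbv k κ ^ 2 * (2 ^ d * 2 ^ d) = (infAbv k κ * 2) * (infAbv k κ * 2 ^ d * 2 ^ d / 2) := by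
              ring
            rw [this]
            calc (infAbv k κ * 2) * (infAbv k κ * 2 ^ d * 2 ^ d / 2)
                ≤ 2 ^ (5 * d) * (infAbv k κ * 2 ^ d * 2 ^ d / 2) := by gcongr
              _ = _ := by ring
          · rw [map_mul, map_mul, h.ha]
            calc 2 ^ d * infAbv k κ * infAbv k V = (infAbv k V * 2) * (infAbv k κ * 2 ^ d) / 2 := by
                  ring
              _ ≤ 2 ^ (6 * d) * (infAbv k κ * 2 ^ d) / 2 := by gcongr
        linarith
      · have : V * e + e * V = 0 := by grind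
        simp only
        rw [this, map_zero]
        positivity
    have n2 : Nm κ c e V d (1, 0) ≤ 2 ^ (5 * d) / infAbv k κ := by
      rw [Nm_le_iff h.hκ0]
      refine ⟨?_, ?_, ?_, ?_⟩
      · simp only [map_one, mul_one]
        rw [le_div_iff₀ hκp]; linarith
      · simp only [map_zero]; positivity
      · simp only [mul_zero, mul_one, zero_add]
        have : 2 ^ (5 * d) / infAbv k κ * (infAbv k κ * 2 ^ d) = 2 ^ (6 * d) := by
          rw [e2]; field_simp
        rw [this]; linarith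
      · simp only [mul_zero, mul_one, zero_add]
        have : 2 ^ (5 * d) / infAbv k κ * (infAbv k κ * 2 ^ d) = 2 ^ (6 * d) := by
          rw [e2]; field_simp
        rw [this, hc]
    have hw : wK (V, e) (1, 0) = e := by unfold wK; ring
    rw [hw, hc]
    have hnn := (isNorm_Nm (c := c) (e := e) (V := V) (d := d) h.hκ0).nonneg (1, 0)
    have : Nm κ c e V d (V, e) * Nm κ c e V d (1, 0) ≤ 2 ^ (6 * d) * (2 ^ (5 * d) / infAbv k κ) :=
      mul_le_mul n1 n2 hnn (by positivity)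
    calc infAbv k κ * (Nm κ c e V d (V, e) * Nm κ c e V d (1, 0))
        ≤ infAbv k κ * (2 ^ (6 * d) * (2 ^ (5 * d) / infAbv k κ)) := by gcongr
      _ = _ := by field_simp

omit [Finite k] in
/-- bound for the form -/
theorem form_le (h : InfData a₁ κ c e V d) (μ : RatFunc k × RatFunc k) :
    infAbv k (e * μ.1 ^ 2 + a₁ * κ * (μ.1 * μ.2) + c * μ.2 ^ 2) * 2 ^ (4 * d)
      ≤ infAbv k κ ^ 2 * Nm κ c e V d μ ^ 2 := by
  have hK : CharP (RatFunc k) 2 := charP_of_injective_algebraMap (algebraMap k (RatFunc k)).injective 2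
  obtain ⟨a1, a2, a3, a4⟩ := (Nm_le_iff (c := c) (e := e) (V := V) (d := d) h.hκ0 μ _).mp le_rfl
  set N := Nm κ c e V d μ
  have p1 := (infAbv k).nonneg μ.1
  have p2 := (infAbv k).nonneg μ.2
  have hN : 0 ≤ N := by linarith
  have hκp : 0 < infAbv k κ := (infAbv k).pos h.hκ0
  have e2 : (2 : ℝ) ^ (6 * d) = 2 ^ (5 * d) * 2 ^ d := by rw [← pow_add]; congr 1; ring
  have e4 : (2 : ℝ) ^ (5 * d) = 2 ^ (4 * d) * 2 ^ d := by rw [← pow_add]; congr 1; ring
  have h2d : (2 : ℝ) ^ (2 * d) = 2 ^ d * 2 ^ d := by rw [← pow_add]; congr 1; ring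
  have hd : (0 : ℝ) < 2 ^ d := by positivity
  have h4 : (0 : ℝ) < 2 ^ (4 * d) := by positivity
  rcases h.hcase with hc | hc
  · have s1 : infAbv k (e * μ.1 ^ 2 + a₁ * κ * (μ.1 * μ.2) + c * μ.2 ^ 2)
        ≤ 2 ^ (6 * d) * N ^ 2 / 4 := by
      apply abv_add_le
      · apply abv_add_le
        · rw [map_mul, map_pow]
          have : (2 * infAbv k μ.1) ^ 2 ≤ N ^ 2 := pow_le_pow_left₀ (by positivity) a1 2
          calc infAbv k e * infAbv k μ.1 ^ 2 = infAbv k e * (2 * infAbv k μ.1) ^ 2 / 4 := by ring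
            _ ≤ 2 ^ (6 * d) * N ^ 2 / 4 := by
              have := h.he
              gcongr
        · rw [map_mul, map_mul, map_mul, h.ha]
          have : (2 * infAbv k μ.1) * infAbv k μ.2 ≤ N * N := mul_le_mul a1 a2 p2 hN
          calc 2 ^ d * infAbv k κ * (infAbv k μ.1 * infAbv k μ.2)
              = 2 ^ d * (infAbv k κ * 2) * ((2 * infAbv k μ.1) * infAbv k μ.2) / 4 := by ring
            _ ≤ 2 ^ d * (infAbv k κ * 2) * (N * N) / 4 := by gcongr
            _ = _ := by rw [hc, e2]; ring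
      · rw [map_mul, map_pow]
        have h1 := h.hc
        calc infAbv k c * infAbv k μ.2 ^ 2 = (infAbv k c * 4) * infAbv k μ.2 ^ 2 / 4 := by ring
          _ ≤ 2 ^ (6 * d) * N ^ 2 / 4 := by gcongr
    calc _ ≤ (2 ^ (6 * d) * N ^ 2 / 4) * 2 ^ (4 * d) := by gcongr
      _ = (2 ^ (5 * d) * 2 ^ (5 * d)) * N ^ 2 / 4 := by rw [e2, e4]; ring
      _ = infAbv k κ ^ 2 * N ^ 2 := by rw [← hc]; ring
  · have s1 : infAbv k (e * (e * μ.1 ^ 2 + a₁ * κ * (μ.1 * μ.2) + c * μ.2 ^ 2))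
        ≤ infAbv k κ ^ 2 * 2 ^ (2 * d) * N ^ 2 := by
      have e3 : e * (e * μ.1 ^ 2 + a₁ * κ * (μ.1 * μ.2) + c * μ.2 ^ 2)
          = (V * μ.2 + e * μ.1) ^ 2 + a₁ * κ * (μ.2 * (V * μ.2 + e * μ.1))
            + (V ^ 2 + a₁ * κ * V + c * e) * μ.2 ^ 2 := by grind
      rw [e3]
      apply abv_add_le
      · apply abv_add_le
        · rw [map_pow]
          calc infAbv k (V * μ.2 + e * μ.1) ^ 2 ≤ (N * (infAbv k κ * 2 ^ d)) ^ 2 := by gcongr
            _ = _ := by rw [h2d]; ring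
        · rw [map_mul, map_mul, map_mul, h.ha]
          calc 2 ^ d * infAbv k κ * (infAbv k μ.2 * infAbv k (V * μ.2 + e * μ.1))
              ≤ 2 ^ d * infAbv k κ * (N * (N * (infAbv k κ * 2 ^ d))) := by gcongr
            _ = _ := by rw [h2d]; ring
      · rw [map_mul, map_pow]
        have := h.hf
        gcongr
    rw [map_mul, hc] at s1
    have hpos : (0 : ℝ) < 2 ^ (2 * d) := by positivity
    have e6 : (2 : ℝ) ^ (6 * d) = 2 ^ (4 * d) * 2 ^ (2 * d) := by rw [← pow_add]; congr 1; ring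
    rw [e6] at s1
    have s2 : (infAbv k (e * μ.1 ^ 2 + a₁ * κ * (μ.1 * μ.2) + c * μ.2 ^ 2) * 2 ^ (4 * d))
        * 2 ^ (2 * d) ≤ (infAbv k κ ^ 2 * N ^ 2) * 2 ^ (2 * d) := by
      calc _ = 2 ^ (4 * d) * 2 ^ (2 * d)
            * infAbv k (e * μ.1 ^ 2 + a₁ * κ * (μ.1 * μ.2) + c * μ.2 ^ 2) := by ring
        _ ≤ _ := s1
        _ = _ := by ring
    exact le_of_mul_le_mul_right s2 hpos

end

end Pool.Agent.H2
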