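import Pool.Agent.H2.Omega

/-!
# Counting the parameters of a given type: the sieve
-/

namespace Pool.Agent.H2

open Polynomial

universe u

variable {k : Type u} [Field k] [Finite k] [CharP k 2]

theorem topR_surj' {a : k[X]} {d : ℕ} (ha : a.natDegree = d) (ha0 : a ≠ 0) {N₁ N₂ t₁ t₂ : ℕ}
    (h₁ : 2 ≤ N₁) (h₂ : 2 ≤ N₂) (ht₁ : t₁ + 1 = d + N₁) (ht₂ : t₂ + 1 = d + N₂) :
    Function.Surjective (topR a t₁ t₂ (n₁ := N₁) (n₂ := N₂)) := by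
  obtain ⟨n₁, rfl⟩ : ∃ n, N₁ = n + 2 := ⟨N₁ - 2, by omega⟩
  obtain ⟨n₂, rfl⟩ : ∃ n, N₂ = n + 2 := ⟨N₂ - 2, by omega⟩
  obtain rfl : t₁ = d + n₁ + 1 := by omega
  obtain rfl : t₂ = d + n₂ + 1 := by omega
  exact topR_surj ha ha0

theorem topR_zero' {a : k[X]} {d : ℕ} (ha : a.natDegree = d) {N₁ N₂ t₁ t₂ : ℕ}
    (h₁ : 2 ≤ N₁) (h₂ : 2 ≤ N₂) (ht₁ : t₁ + 1 = d + N₁) (ht₂ : t₂ + 1 = d + N₂)
    (p : Pr k N₁ N₂) (hp₁ : p.1.1.degree < ((N₁ - 2 : ℕ) : WithBot ℕ))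
    (hp₂ : p.2.1.degree < ((N₂ - 2 : ℕ) : WithBot ℕ)) : topR a t₁ t₂ p = 0 := by
  obtain ⟨n₁, rfl⟩ : ∃ n, N₁ = n + 2 := ⟨N₁ - 2, by omega⟩
  obtain ⟨n₂, rfl⟩ : ∃ n, N₂ = n + 2 := ⟨N₂ - 2, by omega⟩
  obtain rfl : t₁ = d + n₁ + 1 := by omega
  obtain rfl : t₂ = d + n₂ + 1 := by omega
  exact topR_zero ha p hp₁ hp₂

/-- number of solutions -/
theorem card_U (S : Finset (IrrM k)) {n₁ n₂ : ℕ} (h₁ : (prS S).natDegree ≤ n₁)
    (h₂ : (prS S).natDegree ≤ n₂) (y : (∀ P : S, RF P.1 × RF P.1) × (k × k)) :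
    Nat.card {u : Pr k (n₁ + 1) (n₂ + 1) // (((resHom S).comp toPair).prod topA) u = y}
      * Nat.card ((∀ P : S, RF P.1 × RF P.1) × (k × k)) = Nat.card k ^ (n₁ + n₂ + 2) := by
  rw [card_fiber _ (surj_combine (resHom S) (prS S) (prS_ne_zero S) (resHom_L S) (resHom_surj S)
    h₁ h₂ (Nat.le_succ _) (Nat.le_succ _) topA topA_surj topA_zero), card_Pr]
  congr 1; omega

theorem card_V {a₁ : k[X]} {d m : ℕ} (ha0 : a₁ ≠ 0) (ha₁ : a₁.natDegree = d)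
    (S₁ : Finset (IrrM k)) (h1 : ∀ P ∈ S₁, IsCoprime a₁ P.1)
    (hdeg : (prS S₁).natDegree + m + 1 ≤ d) {u v : k[X]}
    (huv : ∃ p p' z, u * p + v * p' + a₁ ^ 2 * z = 1)
    (y : (AdjoinRoot (a₁ ^ 2) × (∀ P : S₁, (RF P.1 × RF P.1) × (RF P.1 × RF P.1)))
      × ((k × k) × (k × k))) :
    Nat.card {r : Pr k (4 * d - 2 * m + 1) (4 * d + 2 * m + 1) //
      ((((congHom a₁ u v).prod (jetHom S₁ a₁)).comp toPair).prod
        (topR a₁ (5 * d - 2 * m) (5 * d + 2 * m))) r = y}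
      * Nat.card ((AdjoinRoot (a₁ ^ 2) × (∀ P : S₁, (RF P.1 × RF P.1) × (RF P.1 × RF P.1)))
      × ((k × k) × (k × k))) = Nat.card k ^ (8 * d + 2) := by
  have hL : a₁ ^ 2 * prS S₁ ^ 2 ≠ 0 := mul_ne_zero (pow_ne_zero 2 ha0) (pow_ne_zero 2 (prS_ne_zero S₁))
  have hLd : (a₁ ^ 2 * prS S₁ ^ 2).natDegree = 2 * d + 2 * (prS S₁).natDegree := by
    rw [natDegree_mul (pow_ne_zero 2 ha0) (pow_ne_zero 2 (prS_ne_zero S₁)), natDegree_pow,
      natDegree_pow, ha₁]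
  rw [card_fiber _ (surj_combine (m₁ := 4 * d - 2 * m - 1) (m₂ := 4 * d + 2 * m - 1)
    ((congHom a₁ u v).prod (jetHom S₁ a₁)) (a₁ ^ 2 * prS S₁ ^ 2) hL
    (fun g h => congJet_L S₁ a₁ u v g h) (congJet_surj S₁ h1 huv) (by omega) (by omega)
    (by omega) (by omega) _
    (topR_surj' ha₁ ha0 (by omega) (by omega) (by omega) (by omega))
    (fun p hp₁ hp₂ => topR_zero' ha₁ (by omega) (by omega) (by omega) (by omega) p
      (by
        have e : 4 * d - 2 * m + 1 - 2 = 4 * d - 2 * m - 1 := by omega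
        rw [e]; exact hp₁)
      (by
        have e : 4 * d + 2 * m + 1 - 2 = 4 * d + 2 * m - 1 := by omega
        rw [e]; exact hp₂))), card_Pr]
  congr 1
  omega

theorem card_TA (S : Finset (IrrM k)) : Nat.card ((∀ P : S, RF P.1 × RF P.1) × (k × k))
    = (∏ P ∈ S, NP P ^ 2) * Nat.card k ^ 2 := by
  rw [Nat.card_prod, Nat.card_pi, Nat.card_prod, ← pow_two]
  congr 1
  rw [← Finset.prod_coe_sort S (fun P => NP P ^ 2)]
  refine Finset.prod_congr rfl fun P _ => ?_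
  rw [Nat.card_prod, card_RF, ← pow_two]
  rfl

theorem card_TR {a₁ : k[X]} {d : ℕ} (ha0 : a₁ ≠ 0) (ha₁ : a₁.natDegree = d)
    (S₁ : Finset (IrrM k)) :
    Nat.card ((AdjoinRoot (a₁ ^ 2) × (∀ P : S₁, (RF P.1 × RF P.1) × (RF P.1 × RF P.1)))
      × ((k × k) × (k × k))) = Nat.card k ^ (2 * d) * (∏ P ∈ S₁, NP P ^ 4) * Nat.card k ^ 4 := by
  rw [Nat.card_prod, Nat.card_prod, Nat.card_pi, card_adjoin (pow_ne_zero 2 ha0), natDegree_pow,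
    ha₁, Nat.card_prod, Nat.card_prod]
  congr 1
  · congr 1
    rw [← Finset.prod_coe_sort S₁ (fun P => NP P ^ 4)]
    refine Finset.prod_congr rfl fun P _ => ?_
    rw [Nat.card_prod, Nat.card_prod, card_RF]
    unfold NP; ring
  · ring

/-- the residues of good parameters -/
def GoodRes (a₁ : k[X]) (d : ℕ) (S₁ S₀ : Finset (IrrM k)) (A₁ : k[X]) :
    Set (((k × k) × ((k × k) × (k × k))) ×
      ((∀ P : S₁, (RF P.1 × RF P.1) × ((RF P.1 × RF P.1) × (RF P.1 × RF P.1))) ×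
        (∀ P : S₀, RF P.1 × RF P.1))) :=
  {y | ¬ Bad 0 (a₁.coeff d) y.1 ∧
    (∀ P : S₁, ¬ Bad (AdjoinRoot.mk P.1.1 (X * (a₁ * A₁) ^ 2)) (AdjoinRoot.mk P.1.1 a₁) (y.2.1 P)) ∧
    ∀ P : S₀, y.2.2 P ≠ 0}

theorem card_GoodRes (a₁ : k[X]) (d : ℕ) (S₁ S₀ : Finset (IrrM k)) (A₁ : k[X]) :
    Nat.card (GoodRes a₁ d S₁ S₀ A₁) ≤ (Nat.card k ^ 2 * (Nat.card k ^ 2 - 1) ^ 2) *
      ((∏ P ∈ S₁, (NP P ^ 2 * (NP P ^ 2 - 1) ^ 2)) * ∏ P ∈ S₀, (NP P ^ 2 - 1)) := by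
  classical
  let f : GoodRes a₁ d S₁ S₀ A₁ → {y : (k × k) × ((k × k) × (k × k)) // ¬ Bad 0 (a₁.coeff d) y} ×
      ((∀ P : S₁, {y : (RF P.1 × RF P.1) × ((RF P.1 × RF P.1) × (RF P.1 × RF P.1)) //
        ¬ Bad (AdjoinRoot.mk P.1.1 (X * (a₁ * A₁) ^ 2)) (AdjoinRoot.mk P.1.1 a₁) y}) ×
      (∀ P : S₀, {y : RF P.1 × RF P.1 // y ≠ 0})) :=
    fun y => (⟨y.1.1, y.2.1⟩, (fun P => ⟨y.1.2.1 P, y.2.2.1 P⟩, fun P => ⟨y.1.2.2 P, y.2.2.2 P⟩))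
  have hf : Function.Injective f := by
    intro y z h
    apply Subtype.ext
    apply Prod.ext
    · exact congrArg Subtype.val (congrArg Prod.fst h)
    · apply Prod.ext
      · funext P
        exact congrArg Subtype.val (congrFun (congrArg Prod.fst (congrArg Prod.snd h)) P)
      · funext P
        exact congrArg Subtype.val (congrFun (congrArg Prod.snd (congrArg Prod.snd h)) P)
  refine (Nat.card_le_card_of_injective f hf).trans ?_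
  rw [Nat.card_prod, Nat.card_prod, Nat.card_pi, Nat.card_pi]
  refine Nat.mul_le_mul (card_good _ _) (Nat.mul_le_mul ?_ ?_)
  · rw [← Finset.prod_coe_sort S₁ (fun P => NP P ^ 2 * (NP P ^ 2 - 1) ^ 2)]
    refine Finset.prod_le_prod' fun P _ => ?_
    have := card_good (F := RF P.1) (AdjoinRoot.mk P.1.1 (X * (a₁ * A₁) ^ 2)) (AdjoinRoot.mk P.1.1 a₁)
    rw [card_RF] at this
    exact this
  · rw [← Finset.prod_coe_sort S₀ (fun P => NP P ^ 2 - 1)]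
    refine Finset.prod_le_prod' fun P _ => ?_
    have := Fintype.ofFinite (RF P.1)
    rw [Nat.card_eq_fintype_card, Fintype.card_subtype_compl, Fintype.card_prod,
      ← Nat.card_eq_fintype_card, card_RF]
    simp [NP, pow_two]

end Pool.Agent.H2
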