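import Pool.Agent.H2.Omega2

/-!
# Counting the parameters of a given type: the bound
-/

namespace Pool.Agent.H2

open Polynomial

universe u

variable {k : Type u} [Field k] [Finite k] [CharP k 2]

open scoped Classical in
/-- the residues of a tuple -/
noncomputable def resid (a₁ a₃ : k[X]) (d m : ℕ) (S₁ S₀ : Finset (IrrM k))
    (p : Pr k (d + m + 1) (d - m + 1) × Pr k (4 * d - 2 * m + 1) (4 * d + 2 * m + 1)) :
    ((k × k) × ((k × k) × (k × k))) ×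
      ((∀ P : S₁, (RF P.1 × RF P.1) × ((RF P.1 × RF P.1) × (RF P.1 × RF P.1))) ×
        (∀ P : S₀, RF P.1 × RF P.1)) :=
  (((p.1.1.1.coeff (d + m), p.1.2.1.coeff (d - m)),
    (((a₃ * p.1.2.1 ^ 2 + a₁ * p.2.1.1).coeff (5 * d - 2 * m),
      (a₃ * p.1.2.1 ^ 2 + a₁ * p.2.1.1).coeff (5 * d - 2 * m - 1)),
     ((a₃ * p.1.1.1 ^ 2 + a₁ * p.2.2.1).coeff (5 * d + 2 * m),
      (a₃ * p.1.1.1 ^ 2 + a₁ * p.2.2.1).coeff (5 * d + 2 * m - 1)))),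
   (fun P => ((AdjoinRoot.mk P.1.1 p.1.1.1, AdjoinRoot.mk P.1.1 p.1.2.1),
      (jet P.1 (a₃ * p.1.2.1 ^ 2 + a₁ * p.2.1.1), jet P.1 (a₃ * p.1.1.1 ^ 2 + a₁ * p.2.2.1))),
    fun P => (AdjoinRoot.mk P.1.1 p.1.1.1, AdjoinRoot.mk P.1.1 p.1.2.1)))

theorem resid_mem {a₁ a₃ : k[X]} {d m : ℕ} {S₁ S₀ : Finset (IrrM k)} {A₁ : k[X]}
    {p : Pr k (d + m + 1) (d - m + 1) × Pr k (4 * d - 2 * m + 1) (4 * d + 2 * m + 1)}
    (h : GT a₁ a₃ d m S₁ S₀ A₁ p) : resid a₁ a₃ d m S₁ S₀ p ∈ GoodRes a₁ d S₁ S₀ A₁ := by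
  refine ⟨h.inf, fun P => h.fin P.1 P.2, fun P h0 => h.div P.1 P.2 ?_⟩
  have h1 := congrArg Prod.fst h0
  have h2 := congrArg Prod.snd h0
  exact ⟨AdjoinRoot.mk_eq_zero.mp h1, AdjoinRoot.mk_eq_zero.mp h2⟩

open scoped Classical in
theorem card_GT_fiber {a₁ a₃ : k[X]} {d m : ℕ} (hcop : IsCoprime a₁ a₃) (ha0 : a₁ ≠ 0)
    (ha₁ : a₁.natDegree = d) (S₁ S₀ : Finset (IrrM k)) (h1 : ∀ P ∈ S₁, IsCoprime a₁ P.1)
    (hdeg : (prS (S₁ ∪ S₀)).natDegree + m + 1 ≤ d) (A₁ : k[X])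
    (y : ((k × k) × ((k × k) × (k × k))) ×
      ((∀ P : S₁, (RF P.1 × RF P.1) × ((RF P.1 × RF P.1) × (RF P.1 × RF P.1))) ×
        (∀ P : S₀, RF P.1 × RF P.1))) :
    Nat.card {p : {p // GT a₁ a₃ d m S₁ S₀ A₁ p} // resid a₁ a₃ d m S₁ S₀ p.1 = y} ≤
      (Nat.card k ^ (8 * d + 2) /
        (Nat.card k ^ (2 * d) * (∏ P ∈ S₁, NP P ^ 4) * Nat.card k ^ 4)) *
      (Nat.card k ^ (2 * d + 2) / ((∏ P ∈ S₁ ∪ S₀, NP P ^ 2) * Nat.card k ^ 2)) := by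
  have hdeg1 : (prS S₁).natDegree + m + 1 ≤ d := by
    have h2 : prS S₁ ∣ prS (S₁ ∪ S₀) := Finset.prod_dvd_prod_of_subset _ _ _ Finset.subset_union_left
    have h3 := natDegree_le_of_dvd h2 (prS_ne_zero _)
    omega
  have hq : 0 < Nat.card k := Nat.card_pos
  have hNP : ∀ P : IrrM k, 0 < NP P := fun P => pow_pos hq _
  -- the target for the first pair
  let yA : (∀ P : ↥(S₁ ∪ S₀), RF P.1 × RF P.1) × (k × k) :=
    (fun P => if h : P.1 ∈ S₁ then (y.2.1 ⟨P.1, h⟩).1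
      else if h' : P.1 ∈ S₀ then y.2.2 ⟨P.1, h'⟩ else 0, y.1.1)
  have hf : ∀ p : {p : {p // GT a₁ a₃ d m S₁ S₀ A₁ p} // resid a₁ a₃ d m S₁ S₀ p.1 = y},
      (((resHom (S₁ ∪ S₀)).comp toPair).prod topA) p.1.1.1 = yA := by
    rintro ⟨⟨p, hp⟩, rfl⟩
    apply Prod.ext
    · funext P
      change (AdjoinRoot.mk P.1.1 p.1.1.1, AdjoinRoot.mk P.1.1 p.1.2.1) = _
      by_cases h : P.1 ∈ S₁
      · simp only [yA, dif_pos h]; rfl
      · have h' : P.1 ∈ S₀ := (Finset.mem_union.mp P.2).resolve_left h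
        simp only [yA, dif_neg h, dif_pos h']; rfl
    · rfl
  let f₂ : {p : {p // GT a₁ a₃ d m S₁ S₀ A₁ p} // resid a₁ a₃ d m S₁ S₀ p.1 = y} →
      {u : Pr k (d + m + 1) (d - m + 1) // (((resHom (S₁ ∪ S₀)).comp toPair).prod topA) u = yA} :=
    fun p => ⟨p.1.1.1, hf p⟩
  have hcA : Nat.card {u : Pr k (d + m + 1) (d - m + 1) //
      (((resHom (S₁ ∪ S₀)).comp toPair).prod topA) u = yA}
      = Nat.card k ^ (2 * d + 2) / ((∏ P ∈ S₁ ∪ S₀, NP P ^ 2) * Nat.card k ^ 2) := by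
    have h3 := card_U (S₁ ∪ S₀) (n₁ := d + m) (n₂ := d - m) (by omega) (by omega) yA
    rw [card_TA] at h3
    have e : d + m + (d - m) + 2 = 2 * d + 2 := by omega
    rw [e] at h3
    refine (Nat.div_eq_of_eq_mul_left ?_ h3.symm).symm
    exact Nat.mul_pos (Finset.prod_pos fun P _ => pow_pos (hNP P) 2) (pow_pos hq 2)
  rw [← hcA]
  have h4 := card_le_of_fiber f₂ Set.univ (fun _ => Set.mem_univ _)
    (Nat.card k ^ (8 * d + 2) / (Nat.card k ^ (2 * d) * (∏ P ∈ S₁, NP P ^ 4) * Nat.card k ^ 4)) ?_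
  · refine h4.trans (le_of_eq ?_)
    congr 1
    exact Nat.card_congr (Equiv.Set.univ _)
  intro b
  rcases isEmpty_or_nonempty {a // f₂ a = b} with hE | ⟨⟨a, ha⟩⟩
  · rw [Nat.card_of_isEmpty]; exact Nat.zero_le _
  · have huv := unimod hcop a.1.2.star
    have hab : a.1.1.1 = b.1 := congrArg Subtype.val ha
    rw [hab] at huv
    -- the target for the second pair
    let yR : (AdjoinRoot (a₁ ^ 2) × (∀ P : S₁, (RF P.1 × RF P.1) × (RF P.1 × RF P.1)))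
      × ((k × k) × (k × k)) :=
      ((AdjoinRoot.mk (a₁ ^ 2) (-(X * a₁ * A₁ ^ 2 * (a₃ * b.1.2.1 ^ 2) + a₃ ^ 2
        + a₁ * a₃ * (b.1.1.1 * b.1.2.1))),
        fun P => ((y.2.1 P).2.1 - jet P.1 (a₃ * b.1.2.1 ^ 2),
          (y.2.1 P).2.2 - jet P.1 (a₃ * b.1.1.1 ^ 2))),
       ((y.1.2.1.1 - (a₃ * b.1.2.1 ^ 2).coeff (5 * d - 2 * m),
          y.1.2.1.2 - (a₃ * b.1.2.1 ^ 2).coeff (5 * d - 2 * m - 1)),
        (y.1.2.2.1 - (a₃ * b.1.1.1 ^ 2).coeff (5 * d + 2 * m),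
          y.1.2.2.2 - (a₃ * b.1.1.1 ^ 2).coeff (5 * d + 2 * m - 1))))
    have hg : ∀ p : {a // f₂ a = b},
        ((((congHom a₁ (b.1.1.1 ^ 2) (b.1.2.1 ^ 2)).prod (jetHom S₁ a₁)).comp toPair).prod
        (topR a₁ (5 * d - 2 * m) (5 * d + 2 * m))) p.1.1.1.2 = yR := by
      rintro ⟨⟨⟨p, hp⟩, hy⟩, hb⟩
      have hb' : p.1 = b.1 := congrArg Subtype.val hb
      have hstar := hp.star
      apply Prod.ext
      · apply Prod.ext
        · change AdjoinRoot.mk (a₁ ^ 2) (b.1.1.1 ^ 2 * p.2.1.1 + b.1.2.1 ^ 2 * p.2.2.1) = _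
          apply mk_eq_mk
          obtain ⟨c, hc⟩ := hstar
          rw [hb'] at hc
          refine ⟨c - X * A₁ ^ 2 * p.2.1.1, ?_⟩
          linear_combination hc
        · funext P
          have h5 : jet P.1 (a₃ * p.1.2.1 ^ 2 + a₁ * p.2.1.1) = (y.2.1 P).2.1 := by
            rw [← hy]; rfl
          have h6 : jet P.1 (a₃ * p.1.1.1 ^ 2 + a₁ * p.2.2.1) = (y.2.1 P).2.2 := by
            rw [← hy]; rfl
          rw [hb', map_add] at h5 h6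
          apply Prod.ext
          · change jet P.1 (a₁ * p.2.1.1) = (y.2.1 P).2.1 - jet P.1 (a₃ * b.1.2.1 ^ 2)
            rw [← h5]; abel
          · change jet P.1 (a₁ * p.2.2.1) = (y.2.1 P).2.2 - jet P.1 (a₃ * b.1.1.1 ^ 2)
            rw [← h6]; abel
      · have h5 : (a₃ * p.1.2.1 ^ 2 + a₁ * p.2.1.1).coeff (5 * d - 2 * m) = y.1.2.1.1 := by
          rw [← hy]; rfl
        have h6 : (a₃ * p.1.2.1 ^ 2 + a₁ * p.2.1.1).coeff (5 * d - 2 * m - 1) = y.1.2.1.2 := by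
          rw [← hy]; rfl
        have h7 : (a₃ * p.1.1.1 ^ 2 + a₁ * p.2.2.1).coeff (5 * d + 2 * m) = y.1.2.2.1 := by
          rw [← hy]; rfl
        have h8 : (a₃ * p.1.1.1 ^ 2 + a₁ * p.2.2.1).coeff (5 * d + 2 * m - 1) = y.1.2.2.2 := by
          rw [← hy]; rfl
        rw [hb', coeff_add] at h5 h6 h7 h8
        apply Prod.ext <;> apply Prod.ext
        · change (a₁ * p.2.1.1).coeff (5 * d - 2 * m) = _
          simp only [yR]; rw [← h5]; ring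
        · change (a₁ * p.2.1.1).coeff (5 * d - 2 * m - 1) = _
          simp only [yR]; rw [← h6]; ring
        · change (a₁ * p.2.2.1).coeff (5 * d + 2 * m) = _
          simp only [yR]; rw [← h7]; ring
        · change (a₁ * p.2.2.1).coeff (5 * d + 2 * m - 1) = _
          simp only [yR]; rw [← h8]; ring
    have hcR := card_V ha0 ha₁ S₁ h1 hdeg1 huv yR
    rw [card_TR ha0 ha₁] at hcR
    have hcR' := Nat.div_eq_of_eq_mul_left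
      (Nat.mul_pos (Nat.mul_pos (pow_pos hq (2 * d)) (Finset.prod_pos fun P (_ : P ∈ S₁) =>
        pow_pos (hNP P) 4)) (pow_pos hq 4)) hcR.symm
    rw [hcR']
    apply Nat.card_le_card_of_injective (fun p : {a // f₂ a = b} =>
      (⟨p.1.1.1.2, hg p⟩ : {r : Pr k (4 * d - 2 * m + 1) (4 * d + 2 * m + 1) //
      ((((congHom a₁ (b.1.1.1 ^ 2) (b.1.2.1 ^ 2)).prod (jetHom S₁ a₁)).comp toPair).prod
        (topR a₁ (5 * d - 2 * m) (5 * d + 2 * m))) r = yR}))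
    intro p p' h
    apply Subtype.ext
    apply Subtype.ext
    apply Subtype.ext
    apply Prod.ext
    · exact (congrArg Subtype.val p.2).trans (congrArg Subtype.val p'.2).symm
    · exact congrArg Subtype.val h

open scoped Classical in
theorem card_GT {a₁ a₃ : k[X]} {d m : ℕ} (hcop : IsCoprime a₁ a₃) (ha0 : a₁ ≠ 0)
    (ha₁ : a₁.natDegree = d) (S₁ S₀ : Finset (IrrM k)) (h1 : ∀ P ∈ S₁, IsCoprime a₁ P.1)
    (hdeg : (prS (S₁ ∪ S₀)).natDegree + m + 1 ≤ d) (A₁ : k[X]) :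
    Nat.card {p // GT a₁ a₃ d m S₁ S₀ A₁ p} *
      (Nat.card k ^ (2 * d) * (∏ P ∈ S₁, NP P ^ 4) * Nat.card k ^ 4 *
        ((∏ P ∈ S₁ ∪ S₀, NP P ^ 2) * Nat.card k ^ 2)) ≤
      Nat.card k ^ (10 * d + 4) * ((Nat.card k ^ 2 * (Nat.card k ^ 2 - 1) ^ 2) *
      ((∏ P ∈ S₁, (NP P ^ 2 * (NP P ^ 2 - 1) ^ 2)) * ∏ P ∈ S₀, (NP P ^ 2 - 1))) := by
  have h2 := card_le_of_fiber (fun p : {p // GT a₁ a₃ d m S₁ S₀ A₁ p} => resid a₁ a₃ d m S₁ S₀ p.1)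
    (GoodRes a₁ d S₁ S₀ A₁) (fun p => resid_mem p.2) _
    (card_GT_fiber hcop ha0 ha₁ S₁ S₀ h1 hdeg A₁)
  have h3 := card_GoodRes a₁ d S₁ S₀ A₁
  obtain ⟨x, hx⟩ : ∃ x, x = Nat.card k ^ (2 * d) * (∏ P ∈ S₁, NP P ^ 4) * Nat.card k ^ 4 := ⟨_, rfl⟩
  obtain ⟨z, hz⟩ : ∃ z, z = (∏ P ∈ S₁ ∪ S₀, NP P ^ 2) * Nat.card k ^ 2 := ⟨_, rfl⟩
  rw [← hx, ← hz] at h2 ⊢
  calc Nat.card {p // GT a₁ a₃ d m S₁ S₀ A₁ p} * (x * z)
      ≤ (Nat.card k ^ (8 * d + 2) / x * (Nat.card k ^ (2 * d + 2) / z)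
        * Nat.card (GoodRes a₁ d S₁ S₀ A₁)) * (x * z) := Nat.mul_le_mul_right _ h2
    _ = ((Nat.card k ^ (8 * d + 2) / x) * x) * ((Nat.card k ^ (2 * d + 2) / z) * z)
        * Nat.card (GoodRes a₁ d S₁ S₀ A₁) := by ring
    _ ≤ Nat.card k ^ (8 * d + 2) * Nat.card k ^ (2 * d + 2)
        * Nat.card (GoodRes a₁ d S₁ S₀ A₁) :=
        Nat.mul_le_mul_right _ (Nat.mul_le_mul (Nat.div_mul_le_self _ _) (Nat.div_mul_le_self _ _))
    _ ≤ Nat.card k ^ (8 * d + 2) * Nat.card k ^ (2 * d + 2) * _ := Nat.mul_le_mul_left _ h3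
    _ = _ := by
      rw [← pow_add]
      congr 2
      ring

end Pool.Agent.H2
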