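import Pool.Agent.H2.Omega3

/-!
# Counting the parameters of a given type without sieve
-/

namespace Pool.Agent.H2

open Polynomial

universe u

variable {k : Type u} [Field k] [Finite k] [CharP k 2]

/-- the congruence as a predicate -/
def Star (a₁ a₃ : k[X]) (d m : ℕ) (A₁ : k[X])
    (p : Pr k (d + m + 1) (d - m + 1) × Pr k (4 * d - 2 * m + 1) (4 * d + 2 * m + 1)) : Prop :=
  a₁ ^ 2 ∣ p.1.1.1 ^ 2 * p.2.1.1 + p.1.2.1 ^ 2 * p.2.2.1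
      + X * a₁ * A₁ ^ 2 * (a₃ * p.1.2.1 ^ 2 + a₁ * p.2.1.1)
      + a₃ ^ 2 + a₁ * a₃ * (p.1.1.1 * p.1.2.1)

theorem card_Star {a₁ a₃ : k[X]} {d m : ℕ} (hcop : IsCoprime a₁ a₃) (ha0 : a₁ ≠ 0)
    (ha₁ : a₁.natDegree = d) (hm : m ≤ d) (A₁ : k[X]) :
    Nat.card {p // Star a₁ a₃ d m A₁ p} ≤ Nat.card k ^ (8 * d + 4) := by
  have hq : 0 < Nat.card k := Nat.card_pos
  have h4 := card_le_of_fiber (fun p : {p // Star a₁ a₃ d m A₁ p} => p.1.1) Set.univ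
    (fun _ => Set.mem_univ _) (Nat.card k ^ (6 * d + 2)) ?_
  · refine h4.trans (le_of_eq ?_)
    rw [Nat.card_congr (Equiv.Set.univ _), card_Pr, ← pow_add]
    congr 1
    omega
  intro b
  rcases isEmpty_or_nonempty {a : {p // Star a₁ a₃ d m A₁ p} // a.1.1 = b} with hE | ⟨⟨a, ha⟩⟩
  · rw [Nat.card_of_isEmpty]; exact Nat.zero_le _
  · have huv := unimod hcop a.2
    rw [ha] at huv
    have hg : ∀ p : {a : {p // Star a₁ a₃ d m A₁ p} // a.1.1 = b},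
        ((congHom a₁ (b.1.1 ^ 2) (b.2.1 ^ 2)).comp toPair) p.1.1.2
          = AdjoinRoot.mk (a₁ ^ 2) (-(X * a₁ * A₁ ^ 2 * (a₃ * b.2.1 ^ 2) + a₃ ^ 2
        + a₁ * a₃ * (b.1.1 * b.2.1))) := by
      rintro ⟨⟨p, hp⟩, rfl⟩
      change AdjoinRoot.mk (a₁ ^ 2) (p.1.1.1 ^ 2 * p.2.1.1 + p.1.2.1 ^ 2 * p.2.2.1) = _
      apply mk_eq_mk
      obtain ⟨c, hc⟩ := hp
      refine ⟨c - X * A₁ ^ 2 * p.2.1.1, ?_⟩
      linear_combination hc
    have hsurj : Function.Surjective (congHom a₁ (b.1.1 ^ 2) (b.2.1 ^ 2)) := by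
      intro w
      obtain ⟨p, hp⟩ := congJet_surj ∅ (a := a₁) (by simp) huv (w, 0)
      exact ⟨p, congrArg Prod.fst hp⟩
    have hL : ∀ g h : k[X], congHom a₁ (b.1.1 ^ 2) (b.2.1 ^ 2) (a₁ ^ 2 * g, a₁ ^ 2 * h) = 0 := by
      intro g h
      change AdjoinRoot.mk (a₁ ^ 2) _ = 0
      rw [AdjoinRoot.mk_eq_zero]
      exact ⟨b.1.1 ^ 2 * g + b.2.1 ^ 2 * h, by ring⟩
    have hdeg : (a₁ ^ 2).natDegree = 2 * d := by rw [natDegree_pow, ha₁]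
    have hc := card_fiber _ (surj_box (n₁ := 4 * d - 2 * m + 1) (n₂ := 4 * d + 2 * m + 1)
      (congHom a₁ (b.1.1 ^ 2) (b.2.1 ^ 2)) (a₁ ^ 2) (pow_ne_zero 2 ha0) hL hsurj
      (by omega) (by omega)) (AdjoinRoot.mk (a₁ ^ 2) (-(X * a₁ * A₁ ^ 2 * (a₃ * b.2.1 ^ 2) + a₃ ^ 2
        + a₁ * a₃ * (b.1.1 * b.2.1))))
    rw [card_adjoin (pow_ne_zero 2 ha0), hdeg, card_Pr] at hc
    have hle := Nat.card_le_card_of_injective (fun p : {a : {p // Star a₁ a₃ d m A₁ p} // a.1.1 = b} =>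
      (⟨p.1.1.2, hg p⟩ : {r : Pr k (4 * d - 2 * m + 1) (4 * d + 2 * m + 1) //
      ((congHom a₁ (b.1.1 ^ 2) (b.2.1 ^ 2)).comp toPair) r = AdjoinRoot.mk (a₁ ^ 2)
        (-(X * a₁ * A₁ ^ 2 * (a₃ * b.2.1 ^ 2) + a₃ ^ 2 + a₁ * a₃ * (b.1.1 * b.2.1)))}))
      (by
        intro p p' h
        apply Subtype.ext
        apply Subtype.ext
        apply Prod.ext
        · exact p.2.trans p'.2.symm
        · exact congrArg Subtype.val h)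
    refine hle.trans ?_
    have e : 4 * d - 2 * m + 1 + (4 * d + 2 * m + 1) = (6 * d + 2) + 2 * d := by omega
    rw [e, pow_add] at hc
    exact (Nat.eq_of_mul_eq_mul_right (pow_pos hq _) hc).le

end Pool.Agent.H2
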