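import Pool.Agent.H2.Extend

/-!
# The rational function field over a finite field of characteristic two
-/

namespace Pool.Agent.H2

open Polynomial IsDedekindDomain

variable {k : Type*} [Field k] [Finite k] [CharP k 2]

theorem exists_sqrt (a : k) : ∃ b : k, b ^ 2 = a := by
  have : ExpChar k 2 := ExpChar.prime Nat.prime_two
  obtain ⟨b, hb⟩ := bijective_frobenius k 2 |>.2 a
  exact ⟨b, hb⟩

/-- Every polynomial is `a ^ 2 + X b ^ 2`. -/
theorem poly_ex (p : k[X]) : ∃ a b : k[X], p = a ^ 2 + X * b ^ 2 := by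
  induction p using Polynomial.induction_on' with
  | add p q hp hq =>
    obtain ⟨a, b, rfl⟩ := hp
    obtain ⟨c, d, rfl⟩ := hq
    exact ⟨a + c, b + d, by grind⟩
  | monomial n r =>
    obtain ⟨s, rfl⟩ := exists_sqrt r
    rcases Nat.even_or_odd' n with ⟨m, rfl | rfl⟩
    · refine ⟨monomial m s, 0, ?_⟩
      rw [monomial_pow]; ring_nf
    · refine ⟨0, monomial m s, ?_⟩
      rw [monomial_pow, X_mul_monomial]; ring_nf

omit [Finite k] in
theorem poly_uniq (a b : k[X]) (h : a ^ 2 + X * b ^ 2 = 0) : b = 0 := by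
  by_contra hb
  have h1 : a ^ 2 = X * b ^ 2 := by grind
  have h2 := congrArg natDegree h1
  rw [natDegree_pow, natDegree_mul X_ne_zero (pow_ne_zero 2 hb), natDegree_X, natDegree_pow] at h2
  omega

/-- `X` is a 2-basis of the rational function field. -/
theorem basisX : TwoBasis (RatFunc.X : RatFunc k) := by
  have hK : CharP (RatFunc k) 2 := charP_of_injective_algebraMap (algebraMap k (RatFunc k)).injective 2
  refine ⟨CharTwo.two_eq_zero, fun u => ?_, fun a b hab => ?_⟩
  · obtain ⟨a, b, hb, rfl⟩ := IsFractionRing.div_surjective (A := k[X]) u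
    have hb0 : b ≠ 0 := nonZeroDivisors.ne_zero hb
    obtain ⟨c, d, hcd⟩ := poly_ex (a * b)
    have hb1 : algebraMap k[X] (RatFunc k) b ≠ 0 := by
      rwa [Ne, FaithfulSMul.algebraMap_eq_zero_iff]
    refine ⟨algebraMap k[X] (RatFunc k) c / algebraMap k[X] (RatFunc k) b,
      algebraMap k[X] (RatFunc k) d / algebraMap k[X] (RatFunc k) b, ?_⟩
    have h1 := congrArg (algebraMap k[X] (RatFunc k)) hcd
    rw [map_mul, map_add, map_mul, map_pow, map_pow, RatFunc.algebraMap_X] at h1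
    field_simp
    linear_combination h1
  · obtain ⟨a, s, hs, rfl⟩ := IsFractionRing.div_surjective (A := k[X]) a
    obtain ⟨b, r, hr, rfl⟩ := IsFractionRing.div_surjective (A := k[X]) b
    have hs0 : s ≠ 0 := nonZeroDivisors.ne_zero hs
    have hr0 : r ≠ 0 := nonZeroDivisors.ne_zero hr
    have hs1 : algebraMap k[X] (RatFunc k) s ≠ 0 := by
      rwa [Ne, FaithfulSMul.algebraMap_eq_zero_iff]
    have hr1 : algebraMap k[X] (RatFunc k) r ≠ 0 := by
      rwa [Ne, FaithfulSMul.algebraMap_eq_zero_iff]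
    have h1 : (a * r) ^ 2 + X * (b * s) ^ 2 = 0 := by
      apply (FaithfulSMul.algebraMap_injective k[X] (RatFunc k))
      rw [map_add, map_mul, map_pow, map_pow, map_mul, map_mul, RatFunc.algebraMap_X, map_zero]
      field_simp at hab
      linear_combination hab
    have h2 := poly_uniq _ _ h1
    have h3 : b = 0 := (mul_eq_zero.mp h2).resolve_right hs0
    rw [h3, map_zero, zero_div]

/-! ## Finite places -/

section Finite

variable (P : HeightOneSpectrum k[X])

theorem one_lt_two_nn : (1 : NNReal) < 2 := by norm_num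

/-- the absolute value of a finite place -/
noncomputable def finAbv (P : HeightOneSpectrum k[X]) : AbsoluteValue (RatFunc k) ℝ :=
  P.adicAbv one_lt_two_nn

omit [Finite k] [CharP k 2] in
theorem finAbv_def (x : RatFunc k) : finAbv P x =
    (WithZeroMulInt.toNNReal (one_lt_two_nn.ne_zero) (P.valuation (RatFunc k) x) : NNReal) := rfl

omit [Finite k] [CharP k 2] in
theorem finAbv_le_iff (x y : RatFunc k) :
    finAbv P x ≤ finAbv P y ↔ P.valuation (RatFunc k) x ≤ P.valuation (RatFunc k) y := by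
  rw [finAbv_def, finAbv_def]
  have h1 := (WithZeroMulInt.toNNReal_strictMono one_lt_two_nn).le_iff_le
    (a := P.valuation (RatFunc k) x) (b := P.valuation (RatFunc k) y)
  rw [← h1]
  norm_cast

omit [Finite k] [CharP k 2] in
theorem finAbv_le_one_iff (x : RatFunc k) :
    finAbv P x ≤ 1 ↔ P.valuation (RatFunc k) x ≤ 1 := by
  have := finAbv_le_iff P x 1
  rwa [map_one, map_one] at this

omit [Finite k] [CharP k 2] in
theorem finAbv_exp (x : RatFunc k) (n : ℤ) (hx : P.valuation (RatFunc k) x = WithZero.exp n) :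
    finAbv P x = (2 : ℝ) ^ n := by
  rw [finAbv_def, hx, WithZeroMulInt.toNNReal_neg_apply _ (WithZero.exp_ne_zero)]
  push_cast
  congr 1

omit [Finite k] [CharP k 2] in
theorem finAbv_disc (x : RatFunc k) (hx : x ≠ 0) : ∃ n : ℤ, finAbv P x = (2 : ℝ) ^ n := by
  have h1 : P.valuation (RatFunc k) x ≠ 0 := by rwa [Ne, map_eq_zero]
  exact ⟨WithZero.log (P.valuation (RatFunc k) x), finAbv_exp P x _ (WithZero.exp_log h1).symm⟩

omit [Finite k] [CharP k 2] in
theorem finAbv_poly (f : k[X]) : finAbv P (algebraMap k[X] (RatFunc k) f) ≤ 1 :=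
  P.adicAbv_coe_le_one one_lt_two_nn f

omit [Finite k] [CharP k 2] in
theorem finAbv_lt_one (f : k[X]) :
    finAbv P (algebraMap k[X] (RatFunc k) f) < 1 ↔ f ∈ P.asIdeal :=
  P.adicAbv_coe_lt_one_iff one_lt_two_nn f

omit [Finite k] [CharP k 2] in
theorem finAbv_pow (f : k[X]) (n : ℕ) :
    finAbv P (algebraMap k[X] (RatFunc k) f) ≤ (2 : ℝ) ^ (-(n : ℤ)) ↔ f ∈ P.asIdeal ^ n := by
  obtain ⟨π, hπ⟩ := P.valuation_exists_uniformizer (RatFunc k)
  have h1 : P.valuation (RatFunc k) (π ^ n) = WithZero.exp (-(n : ℤ)) := by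
    rw [map_pow, hπ, ← WithZero.exp_nsmul]
    congr 1
    simp
  rw [← finAbv_exp P _ _ h1, finAbv_le_iff, h1, HeightOneSpectrum.valuation_of_algebraMap,
    HeightOneSpectrum.intValuation_le_pow_iff_mem]

omit [Finite k] [CharP k 2] in
theorem finAbv_nonarch (x y : RatFunc k) : finAbv P (x + y) ≤ max (finAbv P x) (finAbv P y) :=
  P.isNonarchimedean_adicAbv one_lt_two_nn x y

omit [Finite k] in
theorem sq_dvd_aux (π a b : k[X]) (hπ : Prime π) (h : π ^ 2 ∣ a ^ 2 + X * b ^ 2) :
    π ∣ a ∧ π ∣ b := by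
  have h1 : π ∣ derivative (a ^ 2 + X * b ^ 2) := by
    obtain ⟨c, hc⟩ := h
    rw [hc]
    refine ⟨2 * derivative π * c + π * derivative c, ?_⟩
    rw [derivative_mul, derivative_pow]
    simp only [Nat.cast_ofNat, map_ofNat]
    ring
  have h2 : derivative (a ^ 2 + X * b ^ 2) = b ^ 2 := by
    have h3 : (2 : k[X]) = 0 := CharTwo.two_eq_zero
    rw [derivative_add, derivative_mul, derivative_pow, derivative_pow, derivative_X]
    simp only [Nat.cast_ofNat, map_ofNat, h3]
    ring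
  rw [h2] at h1
  have h3 := hπ.dvd_of_dvd_pow h1
  refine ⟨?_, h3⟩
  have h4 : π ∣ a ^ 2 + X * b ^ 2 := dvd_trans (dvd_pow_self π two_ne_zero) h
  have h5 : π ∣ X * b ^ 2 := dvd_mul_of_dvd_right (dvd_pow h3 two_ne_zero) X
  exact hπ.dvd_of_dvd_pow ((dvd_add_left h5).mp h4)

omit [Finite k] [CharP k 2] in
theorem exists_gen : ∃ g : k[X], Prime g ∧ P.asIdeal = Ideal.span {g} := by
  obtain ⟨g, hg⟩ := (IsPrincipalIdealRing.principal P.asIdeal).principal
  have hg' : P.asIdeal = Ideal.span {g} := hg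
  have hg0 : g ≠ 0 := by
    rintro rfl
    apply P.ne_bot
    rw [hg']; simp
  refine ⟨g, ?_, hg'⟩
  have := P.isPrime
  rw [hg'] at this
  exact (Ideal.span_singleton_prime hg0).mp this

omit [Finite k] in
theorem finAbv_star (a b : RatFunc k) (hab : finAbv P (a ^ 2 + RatFunc.X * b ^ 2) ≤ 1) :
    finAbv P a ≤ 1 ∧ finAbv P b ≤ 1 := by
  by_contra hcon
  obtain ⟨l, hl1, hla, hlb, hl2⟩ : ∃ l : RatFunc k, 1 < finAbv P l ∧ finAbv P a ≤ finAbv P l ∧
      finAbv P b ≤ finAbv P l ∧ (l = a ∨ l = b) := by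
    rcases le_total (finAbv P a) (finAbv P b) with h1 | h1
    · refine ⟨b, ?_, h1, le_rfl, Or.inr rfl⟩
      by_contra h2
      rw [not_lt] at h2
      exact hcon ⟨h1.trans h2, h2⟩
    · refine ⟨a, ?_, le_rfl, h1, Or.inl rfl⟩
      by_contra h2
      rw [not_lt] at h2
      exact hcon ⟨h2, h1.trans h2⟩
  have hl0 : l ≠ 0 := by
    rintro rfl
    rw [map_zero] at hl1
    linarith
  have hvl := (finAbv P).pos hl0
  obtain ⟨n, hn⟩ := finAbv_disc P l hl0
  have hn1 : 1 ≤ n := by
    by_contra h2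
    rw [not_le] at h2
    rw [hn] at hl1
    have : (2 : ℝ) ^ n ≤ 1 := zpow_le_one_of_nonpos₀ (by norm_num) (by omega)
    linarith
  have hva : finAbv P (a / l) ≤ 1 := by rw [map_div₀, div_le_one hvl]; exact hla
  have hvb : finAbv P (b / l) ≤ 1 := by rw [map_div₀, div_le_one hvl]; exact hlb
  obtain ⟨A, ⟨d₁, hd₁P⟩, h₁⟩ := P.exists_primeCompl_mul_eq_of_integer (a / l)
    ((finAbv_le_one_iff P _).mp hva)
  obtain ⟨B, ⟨d₂, hd₂P⟩, h₂⟩ := P.exists_primeCompl_mul_eq_of_integer (b / l)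
    ((finAbv_le_one_iff P _).mp hvb)
  simp only at h₁ h₂
  have hd₁ : finAbv P (algebraMap k[X] (RatFunc k) d₁) = 1 := by
    rw [finAbv, HeightOneSpectrum.adicAbv_coe_eq_one_iff]
    exact hd₁P
  have hd₂ : finAbv P (algebraMap k[X] (RatFunc k) d₂) = 1 := by
    rw [finAbv, HeightOneSpectrum.adicAbv_coe_eq_one_iff]
    exact hd₂P
  have hbig : finAbv P (algebraMap k[X] (RatFunc k) ((A * d₂) ^ 2 + X * (B * d₁) ^ 2))
      ≤ (2 : ℝ) ^ (-((2 : ℕ) : ℤ)) := by
    have e1 : algebraMap k[X] (RatFunc k) ((A * d₂) ^ 2 + X * (B * d₁) ^ 2)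
        = (algebraMap k[X] (RatFunc k) d₁ * algebraMap k[X] (RatFunc k) d₂) ^ 2
          * ((a ^ 2 + RatFunc.X * b ^ 2) / l ^ 2) := by
      rw [map_add, map_mul, map_pow, map_pow, map_mul, map_mul, ← h₁, ← h₂, RatFunc.algebraMap_X]
      field_simp
    rw [e1, map_mul, map_pow, map_mul, hd₁, hd₂, map_div₀, map_pow, hn]
    have h3 : (1 : ℝ) ≤ ((2 : ℝ) ^ n) ^ 2 / 4 := by
      have h4 : (2 : ℝ) ^ (1 : ℤ) ≤ (2 : ℝ) ^ n := zpow_le_zpow_right₀ (by norm_num) hn1
      rw [zpow_one] at h4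
      have h5 : (2 : ℝ) ^ 2 ≤ ((2 : ℝ) ^ n) ^ 2 := by gcongr
      linarith
    rw [mul_one, one_pow, one_mul, div_le_iff₀ (by positivity)]
    have h6 : (2 : ℝ) ^ (-((2 : ℕ) : ℤ)) = 1 / 4 := by norm_num
    rw [h6]
    linarith
  rw [finAbv_pow] at hbig
  obtain ⟨g, hg, hPg⟩ := exists_gen P
  rw [hPg, Ideal.span_singleton_pow, Ideal.mem_span_singleton] at hbig
  obtain ⟨h3, h4⟩ := sq_dvd_aux g _ _ hg hbig
  have h5 : finAbv P (algebraMap k[X] (RatFunc k) (A * d₂)) < 1 := by
    rw [finAbv_lt_one, hPg, Ideal.mem_span_singleton]; exact h3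
  have h6 : finAbv P (algebraMap k[X] (RatFunc k) (B * d₁)) < 1 := by
    rw [finAbv_lt_one, hPg, Ideal.mem_span_singleton]; exact h4
  rw [map_mul, ← h₁, map_mul, map_mul, hd₁, hd₂, mul_one, mul_one, map_div₀, div_lt_one hvl] at h5
  rw [map_mul, ← h₂, map_mul, map_mul, hd₁, hd₂, mul_one, mul_one, map_div₀, div_lt_one hvl] at h6
  rcases hl2 with rfl | rfl
  · exact lt_irrefl _ h5
  · exact lt_irrefl _ h6

theorem finAbv_good : GoodPlace (finAbv P) (RatFunc.X : RatFunc k) 2 where
  one_lt := one_lt_two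
  nonarch := finAbv_nonarch P
  disc := finAbv_disc P
  unif := by
    obtain ⟨π, hπ⟩ := P.valuation_exists_uniformizer (RatFunc k)
    refine ⟨π, ?_⟩
    rw [finAbv_exp P π _ hπ]
    norm_num
  tau := by
    rw [← RatFunc.algebraMap_X]
    exact finAbv_poly P X
  star := finAbv_star P
  basis := basisX

end Finite

/-! ## The infinite place -/

section Infinite

open Classical in
/-- the absolute value of the infinite place -/
noncomputable def infAbv (k : Type*) [Field k] : AbsoluteValue (RatFunc k) ℝ where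
  toFun x := if x = 0 then 0 else (2 : ℝ) ^ x.intDegree
  map_mul' x y := by
    by_cases hx : x = 0
    · simp [hx]
    by_cases hy : y = 0
    · simp [hy]
    rw [if_neg hx, if_neg hy, if_neg (mul_ne_zero hx hy), RatFunc.intDegree_mul hx hy,
      zpow_add₀ two_ne_zero]
  nonneg' x := by
    by_cases hx : x = 0
    · simp [hx]
    · simp only [hx, if_false]; positivity
  eq_zero' x := by
    by_cases hx : x = 0
    · simp [hx]
    · simp only [hx, if_false, iff_false]; positivity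
  add_le' x y := by
    by_cases hx : x = 0
    · simp [hx]
    by_cases hy : y = 0
    · simp [hy]
    by_cases hxy : x + y = 0
    · simp only [hx, hy, hxy, if_true, if_false]; positivity
    simp only [hx, hy, hxy, if_false]
    have h1 := RatFunc.intDegree_add_le hy hxy
    have hx2 : (0 : ℝ) < (2 : ℝ) ^ x.intDegree := by positivity
    have hy2 : (0 : ℝ) < (2 : ℝ) ^ y.intDegree := by positivity
    rcases le_max_iff.mp h1 with h | h
    · have : (2 : ℝ) ^ (x + y).intDegree ≤ (2 : ℝ) ^ x.intDegree :=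
        zpow_le_zpow_right₀ (by norm_num) h
      linarith
    · have : (2 : ℝ) ^ (x + y).intDegree ≤ (2 : ℝ) ^ y.intDegree :=
        zpow_le_zpow_right₀ (by norm_num) h
      linarith

omit [Finite k] [CharP k 2] in
theorem infAbv_apply {x : RatFunc k} (hx : x ≠ 0) : infAbv k x = (2 : ℝ) ^ x.intDegree := by
  exact if_neg hx

omit [Finite k] [CharP k 2] in
theorem infAbv_nonarch (x y : RatFunc k) : infAbv k (x + y) ≤ max (infAbv k x) (infAbv k y) := by
  by_cases hx : x = 0
  · simp [hx]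
  by_cases hy : y = 0
  · simp [hy]
  by_cases hxy : x + y = 0
  · rw [hxy, map_zero]
    exact le_max_of_le_left ((infAbv k).nonneg x)
  rw [infAbv_apply hx, infAbv_apply hy, infAbv_apply hxy]
  have h1 := RatFunc.intDegree_add_le hy hxy
  rcases le_max_iff.mp h1 with h | h
  · exact le_max_of_le_left (zpow_le_zpow_right₀ (by norm_num) h)
  · exact le_max_of_le_right (zpow_le_zpow_right₀ (by norm_num) h)

omit [Finite k] [CharP k 2] in
theorem infAbv_X : infAbv k RatFunc.X = 2 := by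
  rw [infAbv_apply RatFunc.X_ne_zero, RatFunc.intDegree_X, zpow_one]

omit [Finite k] [CharP k 2] in
theorem infAbv_poly {f : k[X]} (hf : f ≠ 0) :
    infAbv k (algebraMap k[X] (RatFunc k) f) = (2 : ℝ) ^ (f.natDegree : ℤ) := by
  rw [infAbv_apply (by rwa [Ne, FaithfulSMul.algebraMap_eq_zero_iff]),
    RatFunc.intDegree_polynomial]

omit [Finite k] [CharP k 2] in
/-- for unequal values the absolute value of the sum is the maximum -/
theorem infAbv_add_of_lt {x y : RatFunc k} (h : infAbv k x < infAbv k y) :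
    infAbv k (x + y) = infAbv k y := by
  apply le_antisymm
  · exact (infAbv_nonarch x y).trans (max_le h.le le_rfl)
  · by_contra hlt
    rw [not_le] at hlt
    have h1 : infAbv k y ≤ max (infAbv k (x + y)) (infAbv k x) := by
      have : y = (x + y) + (-x) := by ring
      calc infAbv k y = infAbv k ((x + y) + (-x)) := by rw [← this]
        _ ≤ max (infAbv k (x + y)) (infAbv k (-x)) := infAbv_nonarch _ _
        _ = _ := by rw [map_neg_eq_map]
    rcases le_max_iff.mp h1 with h2 | h2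
    · exact absurd h2 (not_le.mpr hlt)
    · exact absurd h2 (not_le.mpr h)

omit [Finite k] [CharP k 2] in
theorem infAbv_star (a b : RatFunc k) (hab : infAbv k (a ^ 2 + RatFunc.X⁻¹ * b ^ 2) ≤ 1) :
    infAbv k a ≤ 1 ∧ infAbv k b ≤ 1 := by
  have hX : infAbv k (RatFunc.X⁻¹ : RatFunc k) = 1 / 2 := by
    rw [map_inv₀, infAbv_X]; norm_num
  by_cases ha : a = 0
  · rw [ha] at hab ⊢
    rw [zero_pow two_ne_zero, zero_add, map_mul, hX, map_pow] at hab
    refine ⟨by simp, ?_⟩
    by_cases hb : b = 0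
    · simp [hb]
    rw [infAbv_apply hb] at hab ⊢
    by_contra hcon
    have h1 : 1 ≤ b.intDegree := by
      by_contra h2
      apply hcon
      exact zpow_le_one_of_nonpos₀ (by norm_num) (by omega)
    have h4 : (2 : ℝ) ^ (1 : ℤ) ≤ (2 : ℝ) ^ b.intDegree := zpow_le_zpow_right₀ (by norm_num) h1
    rw [zpow_one] at h4
    nlinarith
  by_cases hb : b = 0
  · rw [hb] at hab ⊢
    rw [zero_pow two_ne_zero, mul_zero, add_zero, map_pow] at hab
    refine ⟨?_, by simp⟩
    exact (pow_le_one_iff_of_nonneg ((infAbv k).nonneg a) two_ne_zero).mp hab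
  -- both nonzero
  have hne : infAbv k (a ^ 2) ≠ infAbv k (RatFunc.X⁻¹ * b ^ 2) := by
    rw [map_mul, hX, map_pow, map_pow, infAbv_apply ha, infAbv_apply hb, ← zpow_natCast,
      ← zpow_natCast, ← zpow_mul, ← zpow_mul]
    intro h
    have h1 : (1 : ℝ) / 2 = (2 : ℝ) ^ (-1 : ℤ) := by norm_num
    rw [h1, ← zpow_add₀ two_ne_zero] at h
    have h2 := zpow_right_injective₀ (by norm_num) (by norm_num) h
    push_cast at h2
    omega
  have hmax : infAbv k (a ^ 2) ≤ 1 ∧ infAbv k (RatFunc.X⁻¹ * b ^ 2) ≤ 1 := by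
    rcases lt_or_gt_of_ne hne with h | h
    · rw [infAbv_add_of_lt h] at hab
      exact ⟨h.le.trans hab, hab⟩
    · rw [add_comm, infAbv_add_of_lt h] at hab
      exact ⟨hab, h.le.trans hab⟩
  constructor
  · have h1 := hmax.1
    rw [map_pow] at h1
    exact (pow_le_one_iff_of_nonneg ((infAbv k).nonneg a) two_ne_zero).mp h1
  · have h1 := hmax.2
    rw [map_mul, hX, map_pow] at h1
    rw [infAbv_apply hb] at h1 ⊢
    by_contra hcon
    have h1 : 1 ≤ b.intDegree := by
      by_contra h2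
      apply hcon
      exact zpow_le_one_of_nonpos₀ (by norm_num) (by omega)
    have h4 : (2 : ℝ) ^ (1 : ℤ) ≤ (2 : ℝ) ^ b.intDegree := zpow_le_zpow_right₀ (by norm_num) h1
    rw [zpow_one] at h4
    nlinarith

theorem infAbv_good : GoodPlace (infAbv k) (RatFunc.X⁻¹ : RatFunc k) 2 where
  one_lt := one_lt_two
  nonarch := infAbv_nonarch
  disc := fun x hx => ⟨x.intDegree, infAbv_apply hx⟩
  unif := ⟨RatFunc.X⁻¹, by rw [map_inv₀, infAbv_X]⟩
  tau := by rw [map_inv₀, infAbv_X]; norm_num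
  star := infAbv_star
  basis := basisX.inv

end Infinite

end Pool.Agent.H2
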