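import Pool.Agent.H2.Tuple

/-!
# Reduced bases of lattices of rank two over `k[X]`
-/

namespace Pool.Agent.H2

open Polynomial

universe u

variable {k : Type u} [Field k] [Finite k] [CharP k 2]

/-- the determinant of two vectors (in characteristic two) -/
noncomputable def wd (μ ν : k[X] × k[X]) : k[X] := μ.1 * ν.2 + ν.1 * μ.2

omit [Finite k] in
theorem wd_comm (μ ν : k[X] × k[X]) : wd μ ν = wd ν μ := by unfold wd; ring

omit [Finite k] in
theorem wd_self (μ : k[X] × k[X]) : wd μ μ = 0 := by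
  unfold wd; exact CharTwo.add_self_eq_zero _

omit [Finite k] in
theorem wd_smul_add (q : k[X]) (μ ν ρ : k[X] × k[X]) : wd (μ + q • ν) ρ = wd μ ρ + q * wd ν ρ := by
  unfold wd
  simp only [Prod.fst_add, Prod.snd_add, Prod.smul_fst, Prod.smul_snd, smul_eq_mul]
  ring

omit [Finite k] in
theorem exists_basis (M : Submodule k[X] (k[X] × k[X])) (w₀ : k[X]) (hw₀ : w₀ ≠ 0)
    (h1 : ∀ μ ∈ M, ∀ ν ∈ M, w₀ ∣ wd μ ν)
    (h2 : ∀ w, (∀ μ ∈ M, ∀ ν ∈ M, w ∣ wd μ ν) → w ∣ w₀) :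
    ∃ μ ∈ M, ∃ ν ∈ M, wd μ ν = w₀ := by
  classical
  -- a nonzero determinant exists
  have h3 : ∃ n : ℕ, ∃ μ ∈ M, ∃ ν ∈ M, wd μ ν ≠ 0 ∧ (wd μ ν).natDegree = n := by
    by_contra hcon
    push Not at hcon
    apply hw₀
    rw [← zero_dvd_iff]
    apply h2
    intro μ hμ ν hν
    rw [zero_dvd_iff]
    by_contra h0
    exact hcon _ μ hμ ν hν h0 rfl
  obtain ⟨μ, hμ, ν, hν, hw, hn⟩ := Nat.find_spec h3
  have hmin : ∀ ρ ∈ M, ∀ σ ∈ M, wd ρ σ ≠ 0 → (wd μ ν).natDegree ≤ (wd ρ σ).natDegree := by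
    intro ρ hρ σ hσ h0
    rw [hn]
    exact Nat.find_min' h3 ⟨ρ, hρ, σ, hσ, h0, rfl⟩
  have key : ∀ α ∈ M, ∀ β ∈ M, wd α β = wd μ ν ∨ wd α β = wd ν μ → ∀ ρ ∈ M, wd μ ν ∣ wd ρ β := by
    intro α hα β hβ hab ρ hρ
    have hab' : wd α β = wd μ ν := by
      rcases hab with h | h
      · exact h
      · rw [h, wd_comm]
    by_contra hdvd
    set q := wd ρ β / wd μ ν with hq
    have hr : wd ρ β % wd μ ν ≠ 0 := by
      intro h0
      apply hdvd
      exact (EuclideanDomain.mod_eq_zero).mp h0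
    have he : wd (ρ + q • α) β = wd ρ β % wd μ ν := by
      rw [wd_smul_add, hab']
      have h5 := EuclideanDomain.div_add_mod (wd ρ β) (wd μ ν)
      have h6 : wd ρ β = wd μ ν * q + wd ρ β % wd μ ν := h5.symm
      have h7 : q * wd μ ν + wd μ ν * q = 0 := by
        rw [mul_comm q]; exact CharTwo.add_self_eq_zero _
      calc wd ρ β + q * wd μ ν = (wd μ ν * q + wd ρ β % wd μ ν) + q * wd μ ν := by rw [← h6]
        _ = wd ρ β % wd μ ν + (q * wd μ ν + wd μ ν * q) := by ring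
        _ = _ := by rw [h7, add_zero]
    have h8 := hmin (ρ + q • α) (M.add_mem hρ (M.smul_mem q hα)) β hβ (by rw [he]; exact hr)
    rw [he] at h8
    have h9 : (wd ρ β % wd μ ν).degree < (wd μ ν).degree := EuclideanDomain.mod_lt _ hw
    have h10 := natDegree_lt_natDegree hr h9
    omega
  have hdiv : ∀ ρ ∈ M, ∀ σ ∈ M, wd μ ν ∣ wd ρ σ := by
    intro ρ hρ σ hσ
    obtain ⟨a, ha⟩ := key μ hμ ν hν (Or.inl rfl) ρ hρ
    obtain ⟨b, hb⟩ := key ν hν μ hμ (Or.inr rfl) ρ hρ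
    obtain ⟨a', ha'⟩ := key μ hμ ν hν (Or.inl rfl) σ hσ
    obtain ⟨b', hb'⟩ := key ν hν μ hμ (Or.inr rfl) σ hσ
    refine ⟨a * b' + a' * b, ?_⟩
    have e : wd μ ν * wd ρ σ = wd ρ ν * wd σ μ + wd σ ν * wd ρ μ := by
      unfold wd; grind
    apply mul_left_cancel₀ hw
    rw [e, ha, hb, ha', hb']; ring
  obtain ⟨r, hr⟩ := h2 _ hdiv
  obtain ⟨s, hs⟩ := h1 μ hμ ν hν
  refine ⟨r • μ, M.smul_mem r hμ, ν, hν, ?_⟩
  have : wd (r • μ) ν = r * wd μ ν := by
    unfold wd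
    simp only [Prod.smul_fst, Prod.smul_snd, smul_eq_mul]
    ring
  rw [this, hr]; ring

/-- the embedding of polynomial vectors -/
noncomputable def iv (μ : k[X] × k[X]) : RatFunc k × RatFunc k :=
  (algebraMap k[X] (RatFunc k) μ.1, algebraMap k[X] (RatFunc k) μ.2)

/-- an ultrametric norm on `K²` -/
structure IsNorm (N : RatFunc k × RatFunc k → ℝ) : Prop where
  smul : ∀ (s : RatFunc k) μ, N (s • μ) = infAbv k s * N μ
  add : ∀ μ ν, N (μ + ν) ≤ max (N μ) (N ν)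
  disc : ∀ μ, μ ≠ 0 → ∃ n : ℤ, N μ = (2 : ℝ) ^ n
  int : ∀ μ : k[X] × k[X], μ ≠ 0 → 1 ≤ N (iv μ)

namespace IsNorm

variable {N : RatFunc k × RatFunc k → ℝ} (hN : IsNorm N)
include hN

omit [Finite k] [CharP k 2] in
theorem zero : N 0 = 0 := by
  have := hN.smul 0 0
  rw [map_zero, zero_mul, zero_smul] at this
  exact this

omit [Finite k] [CharP k 2] in
theorem nonneg (μ : RatFunc k × RatFunc k) : 0 ≤ N μ := by
  by_cases h : μ = 0
  · rw [h, hN.zero]
  · obtain ⟨n, hn⟩ := hN.disc μ h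
    rw [hn]; positivity

omit [Finite k] [CharP k 2] in
theorem pos {μ : RatFunc k × RatFunc k} (h : μ ≠ 0) : 0 < N μ := by
  obtain ⟨n, hn⟩ := hN.disc μ h
  rw [hn]; positivity

omit [Finite k] in
theorem add_of_lt {μ ν : RatFunc k × RatFunc k} (h : N μ < N ν) : N (μ + ν) = N ν := by
  apply le_antisymm
  · exact (hN.add μ ν).trans (max_le h.le le_rfl)
  · by_contra hlt
    rw [not_le] at hlt
    have h1 : N ν ≤ max (N (μ + ν)) (N μ) := by
      have e : ν = (μ + ν) + (-1 : RatFunc k) • μ := by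
        rw [neg_one_smul]; abel
      have e2 : N ((-1 : RatFunc k) • μ) = N μ := by
        rw [hN.smul, map_neg_eq_map, map_one, one_mul]
      calc N ν = N ((μ + ν) + (-1 : RatFunc k) • μ) := by rw [← e]
        _ ≤ max (N (μ + ν)) (N ((-1 : RatFunc k) • μ)) := hN.add _ _
        _ = _ := by rw [e2]
    rcases le_max_iff.mp h1 with h2 | h2
    · exact absurd h2 (not_le.mpr hlt)
    · exact absurd h2 (not_le.mpr h)

end IsNorm

omit [Finite k] [CharP k 2] in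
/-- polynomial part of a rational function -/
theorem poly_part (q : RatFunc k) :
    ∃ p : k[X], infAbv k (q - algebraMap k[X] (RatFunc k) p) < 1 := by
  obtain ⟨a, b, hb, rfl⟩ := IsFractionRing.div_surjective (A := k[X]) q
  have hb0 : b ≠ 0 := nonZeroDivisors.ne_zero hb
  have hb1 : algebraMap k[X] (RatFunc k) b ≠ 0 := by
    rwa [Ne, FaithfulSMul.algebraMap_eq_zero_iff]
  refine ⟨a / b, ?_⟩
  have h1 := EuclideanDomain.div_add_mod a b
  have e : algebraMap k[X] (RatFunc k) a / algebraMap k[X] (RatFunc k) b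
      - algebraMap k[X] (RatFunc k) (a / b)
      = algebraMap k[X] (RatFunc k) (a % b) / algebraMap k[X] (RatFunc k) b := by
    have h2 := congrArg (algebraMap k[X] (RatFunc k)) h1
    rw [map_add, map_mul] at h2
    field_simp
    linear_combination -h2
  rw [e, map_div₀, div_lt_one ((infAbv k).pos hb1)]
  by_cases hr : a % b = 0
  · rw [hr, map_zero, map_zero]
    exact (infAbv k).pos hb1
  · rw [infAbv_poly hr, infAbv_poly hb0]
    have h3 : (a % b).degree < b.degree := EuclideanDomain.mod_lt _ hb0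
    have h4 := natDegree_lt_natDegree hr h3
    exact zpow_lt_zpow_right₀ (by norm_num) (by exact_mod_cast h4)

theorem exists_reduced (M : Submodule k[X] (k[X] × k[X])) {w₀ : k[X]} (hw₀ : w₀ ≠ 0)
    (hex : ∃ μ ∈ M, ∃ ν ∈ M, wd μ ν = w₀) {N : RatFunc k × RatFunc k → ℝ} (hN : IsNorm N) :
    ∃ μ ∈ M, ∃ ν ∈ M, wd μ ν = w₀ ∧ N (iv μ) ≤ N (iv ν) ∧
      ∀ s r : RatFunc k, max (infAbv k s * N (iv μ)) (infAbv k r * N (iv ν))
        ≤ N (s • iv μ + r • iv ν) := by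
  classical
  have hiv : ∀ μ : k[X] × k[X], μ ≠ 0 → iv μ ≠ 0 := by
    intro μ hμ h0
    apply hμ
    have h1 := congrArg Prod.fst h0
    have h2 := congrArg Prod.snd h0
    simp only [iv, Prod.fst_zero, Prod.snd_zero, FaithfulSMul.algebraMap_eq_zero_iff] at h1 h2
    exact Prod.ext h1 h2
  have hne : ∀ μ ν : k[X] × k[X], wd μ ν = w₀ → μ ≠ 0 ∧ ν ≠ 0 := by
    intro μ ν h
    constructor
    · rintro rfl
      apply hw₀; rw [← h]; unfold wd; simp
    · rintro rfl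
      apply hw₀; rw [← h]; unfold wd; simp
  have hex2 : ∃ n : ℕ, ∃ μ ∈ M, ∃ ν ∈ M, wd μ ν = w₀ ∧ N (iv μ) * N (iv ν) = (2 : ℝ) ^ n := by
    obtain ⟨μ, hμ, ν, hν, hw⟩ := hex
    obtain ⟨h1, h2⟩ := hne μ ν hw
    obtain ⟨a, ha⟩ := hN.disc _ (hiv μ h1)
    obtain ⟨b, hb⟩ := hN.disc _ (hiv ν h2)
    have h3 := hN.int μ h1
    have h4 := hN.int ν h2
    have h5 : (2 : ℝ) ^ (0 : ℤ) ≤ (2 : ℝ) ^ (a + b) := by
      rw [zpow_zero, zpow_add₀ two_ne_zero, ← ha, ← hb]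
      exact one_le_mul_of_one_le_of_one_le h3 h4
    have h6 : 0 ≤ a + b := (zpow_le_zpow_iff_right₀ (by norm_num : (1 : ℝ) < 2)).mp h5
    refine ⟨(a + b).toNat, μ, hμ, ν, hν, hw, ?_⟩
    rw [ha, hb, ← zpow_add₀ two_ne_zero, ← zpow_natCast]
    congr 1
    omega
  obtain ⟨μ, hμ, ν, hν, hw, hn⟩ := Nat.find_spec hex2
  have hmin : ∀ ρ ∈ M, ∀ σ ∈ M, wd ρ σ = w₀ →
      N (iv μ) * N (iv ν) ≤ N (iv ρ) * N (iv σ) := by
    intro ρ hρ σ hσ h
    obtain ⟨h1, h2⟩ := hne ρ σ h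
    obtain ⟨a, ha⟩ := hN.disc _ (hiv ρ h1)
    obtain ⟨b, hb⟩ := hN.disc _ (hiv σ h2)
    have h3 := hN.int ρ h1
    have h4 := hN.int σ h2
    have h5 : (2 : ℝ) ^ (0 : ℤ) ≤ (2 : ℝ) ^ (a + b) := by
      rw [zpow_zero, zpow_add₀ two_ne_zero, ← ha, ← hb]
      exact one_le_mul_of_one_le_of_one_le h3 h4
    have h6 : 0 ≤ a + b := (zpow_le_zpow_iff_right₀ (by norm_num : (1 : ℝ) < 2)).mp h5
    have h7 : N (iv ρ) * N (iv σ) = (2 : ℝ) ^ (a + b).toNat := by
      rw [ha, hb, ← zpow_add₀ two_ne_zero, ← zpow_natCast]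
      congr 1
      omega
    have h8 := Nat.find_min' hex2 ⟨ρ, hρ, σ, hσ, h, h7⟩
    rw [hn, h7]
    exact pow_le_pow_right₀ (by norm_num) h8
  clear hn hex2
  -- order the pair
  wlog hle : N (iv μ) ≤ N (iv ν) generalizing μ ν
  · refine this ν hν μ hμ (by rw [wd_comm]; exact hw) ?_ (le_of_not_ge hle)
    intro ρ hρ σ hσ h
    rw [mul_comm]
    exact hmin ρ hρ σ hσ h
  refine ⟨μ, hμ, ν, hν, hw, hle, ?_⟩
  intro s r
  obtain ⟨hμ0, hν0⟩ := hne μ ν hw
  have hμp := hN.pos (hiv μ hμ0)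
  have hνp := hN.pos (hiv ν hν0)
  by_contra hlt
  rw [not_le] at hlt
  have hs : N (s • iv μ) = infAbv k s * N (iv μ) := hN.smul _ _
  have hr : N (r • iv ν) = infAbv k r * N (iv ν) := hN.smul _ _
  rw [← hs, ← hr] at hlt
  have heq : N (s • iv μ) = N (r • iv ν) := by
    rcases lt_trichotomy (N (s • iv μ)) (N (r • iv ν)) with h | h | h
    · rw [hN.add_of_lt h, max_eq_right h.le] at hlt
      exact absurd hlt (lt_irrefl _)
    · exact h
    · rw [add_comm, hN.add_of_lt h, max_eq_left h.le] at hlt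
      exact absurd hlt (lt_irrefl _)
  rw [heq, max_self] at hlt
  have hr0 : r ≠ 0 := by
    rintro rfl
    rw [zero_smul, hN.zero] at hlt
    exact absurd hlt (not_lt.mpr (hN.nonneg _))
  have hrp : 0 < infAbv k r := (infAbv k).pos hr0
  obtain ⟨p, hp⟩ := poly_part (s / r)
  -- the smaller vector
  have hsmall : N (iv (ν + p • μ)) < N (iv ν) := by
    have e : iv (ν + p • μ) = r⁻¹ • (s • iv μ + r • iv ν)
        + (-(s / r - algebraMap k[X] (RatFunc k) p)) • iv μ := by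
      ext
      · simp only [iv, Prod.fst_add, Prod.smul_fst, smul_eq_mul, map_add, map_mul]
        field_simp; ring
      · simp only [iv, Prod.snd_add, Prod.smul_snd, smul_eq_mul, map_add, map_mul]
        field_simp; ring
    rw [e]
    refine lt_of_le_of_lt (hN.add _ _) (max_lt ?_ ?_)
    · rw [hN.smul, map_inv₀]
      rw [hr] at hlt
      rw [inv_mul_lt_iff₀ hrp]
      exact hlt
    · rw [hN.smul, map_neg_eq_map]
      calc infAbv k (s / r - algebraMap k[X] (RatFunc k) p) * N (iv μ) < 1 * N (iv μ) := by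
            gcongr
        _ = N (iv μ) := one_mul _
        _ ≤ _ := hle
  have hw2 : wd μ (ν + p • μ) = w₀ := by
    rw [wd_comm, wd_smul_add, wd_self, mul_zero, add_zero, wd_comm]; exact hw
  have h9 := hmin μ hμ (ν + p • μ) (M.add_mem hν (M.smul_mem p hμ)) hw2
  have h10 : N (iv μ) * N (iv (ν + p • μ)) < N (iv μ) * N (iv ν) := by gcongr
  linarith

end Pool.Agent.H2
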