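import Pool.Agent.H2.Box
import Pool.Agent.H2.Good

/-!
# Residues modulo finitely many primes
-/

namespace Pool.Agent.H2

open Polynomial

universe u

variable {k : Type u} [Field k]

theorem card_adjoin {f : k[X]} (hf : f ≠ 0) :
    Nat.card (AdjoinRoot f) = Nat.card k ^ f.natDegree := by
  have h1 := AdjoinRoot.powerBasis hf
  have : Module.Finite k (AdjoinRoot f) := (AdjoinRoot.powerBasis hf).finite
  rw [Module.natCard_eq_pow_finrank (K := k), (AdjoinRoot.powerBasis hf).finrank,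
    AdjoinRoot.powerBasis_dim]

theorem finite_adjoin [Finite k] {f : k[X]} (hf : f ≠ 0) : Finite (AdjoinRoot f) := by
  have : Module.Finite k (AdjoinRoot f) := (AdjoinRoot.powerBasis hf).finite
  exact Module.finite_of_finite k

/-- monic irreducible polynomials -/
abbrev IrrM (k : Type u) [Field k] := {P : k[X] // P.Monic ∧ Irreducible P}

instance (P : IrrM k) : Fact (Irreducible P.1) := ⟨P.2.2⟩

/-- residue field -/
abbrev RF (P : IrrM k) := AdjoinRoot P.1

instance [Finite k] (P : IrrM k) : Finite (RF P) := finite_adjoin P.2.2.ne_zero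

instance [CharP k 2] (P : IrrM k) : CharP (RF P) 2 :=
  charP_of_injective_algebraMap (algebraMap k (RF P)).injective 2

theorem card_RF (P : IrrM k) : Nat.card (RF P) = Nat.card k ^ P.1.natDegree :=
  card_adjoin P.2.2.ne_zero

theorem IrrM.prime (P : IrrM k) : Prime P.1 := P.2.2.prime

theorem IrrM.eq_of_dvd {P Q : IrrM k} (h : P.1 ∣ Q.1) : P = Q := by
  have h1 : Associated P.1 Q.1 := P.2.2.associated_of_dvd Q.2.2 h
  exact Subtype.ext (eq_of_monic_of_associated P.2.1 Q.2.1 h1)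

theorem IrrM.coprime {P Q : IrrM k} (h : P ≠ Q) : IsCoprime P.1 Q.1 :=
  P.2.2.coprime_iff_not_dvd.mpr fun h1 => h (IrrM.eq_of_dvd h1)

theorem exists_irrM {f : k[X]} (hf : ¬ IsUnit f) (hf0 : f ≠ 0) : ∃ P : IrrM k, P.1 ∣ f := by
  obtain ⟨P, hP, hPf⟩ := WfDvdMonoid.exists_irreducible_factor hf hf0
  classical
  refine ⟨⟨normalize P, monic_normalize hP.ne_zero, (normalize_associated P).symm.irreducible hP⟩, ?_⟩
  exact (normalize_associated P).dvd.trans hPf

/-- Chinese remainder theorem -/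
theorem crt (S : Finset (IrrM k)) (n : ℕ) (x : ∀ P : S, k[X]) :
    ∃ f : k[X], ∀ P : S, P.1.1 ^ n ∣ f - x P := by
  obtain ⟨f, hf⟩ := IsDedekindDomain.exists_forall_sub_mem_ideal (s := S)
    (fun P : IrrM k => Ideal.span {P.1}) (fun _ => n)
    (fun P _ => by
      rw [Ideal.prime_iff_isPrime (by simpa using P.2.2.ne_zero),
        Ideal.span_singleton_prime P.2.2.ne_zero]
      exact P.prime)
    (fun P _ Q _ hPQ h => hPQ (IrrM.eq_of_dvd (by
      rw [← Ideal.mem_span_singleton, h]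
      exact Ideal.mem_span_singleton_self _))) x
  refine ⟨f, fun P => ?_⟩
  have := hf P.1 P.2
  rwa [Ideal.span_singleton_pow, Ideal.mem_span_singleton] at this

/-- the product of the primes of `S` -/
noncomputable def prS (S : Finset (IrrM k)) : k[X] := ∏ P ∈ S, P.1

theorem prS_ne_zero (S : Finset (IrrM k)) : prS S ≠ 0 :=
  Finset.prod_ne_zero_iff.mpr fun P _ => P.2.2.ne_zero

theorem dvd_prS {S : Finset (IrrM k)} {P : IrrM k} (h : P ∈ S) : P.1 ∣ prS S :=
  Finset.dvd_prod_of_mem (fun P : IrrM k => P.1) h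

theorem coprime_prS {S : Finset (IrrM k)} {a : k[X]} (h : ∀ P ∈ S, IsCoprime a P.1) :
    IsCoprime a (prS S) := IsCoprime.prod_right h

/-- Chinese remainder theorem with an extra modulus -/
theorem crt2 (S : Finset (IrrM k)) (n : ℕ) {a : k[X]} (ha : ∀ P ∈ S, IsCoprime a P.1)
    (x₀ : k[X]) (x : ∀ P : S, k[X]) :
    ∃ f : k[X], a ∣ f - x₀ ∧ ∀ P : S, P.1.1 ^ n ∣ f - x P := by
  obtain ⟨f₁, hf₁⟩ := crt S n x
  obtain ⟨u, v, huv⟩ : IsCoprime a (prS S ^ n) := (coprime_prS ha).pow_right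
  refine ⟨f₁ * (u * a) + x₀ * (v * prS S ^ n), ⟨(f₁ - x₀) * u, ?_⟩, fun P => ?_⟩
  · linear_combination x₀ * huv
  · have e : f₁ * (u * a) + x₀ * (v * prS S ^ n) - x P
      = (f₁ - x P) + (x₀ - f₁) * v * prS S ^ n := by
      linear_combination f₁ * huv
    rw [e]
    exact dvd_add (hf₁ P) (dvd_mul_of_dvd_right (pow_dvd_pow_of_dvd (dvd_prS P.2) n) _)

theorem mk_eq_mk {f g h : k[X]} (H : f ∣ g - h) : AdjoinRoot.mk f g = AdjoinRoot.mk f h := by
  rwa [← sub_eq_zero, ← map_sub, AdjoinRoot.mk_eq_zero]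

/-- residues of a pair at the primes of `S` -/
noncomputable def resHom (S : Finset (IrrM k)) : k[X] × k[X] →+ (∀ P : S, RF P.1 × RF P.1) where
  toFun p P := (AdjoinRoot.mk P.1.1 p.1, AdjoinRoot.mk P.1.1 p.2)
  map_zero' := by funext P; simp
  map_add' p q := by funext P; simp

theorem resHom_surj (S : Finset (IrrM k)) : Function.Surjective (resHom S) := by
  intro y
  choose x₁ hx₁ using fun P : S => AdjoinRoot.mk_surjective (y P).1
  choose x₂ hx₂ using fun P : S => AdjoinRoot.mk_surjective (y P).2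
  obtain ⟨f, hf⟩ := crt S 1 x₁
  obtain ⟨g, hg⟩ := crt S 1 x₂
  refine ⟨(f, g), ?_⟩
  funext P
  apply Prod.ext
  · change AdjoinRoot.mk P.1.1 f = _
    rw [← hx₁ P]
    exact mk_eq_mk (by simpa using hf P)
  · change AdjoinRoot.mk P.1.1 g = _
    rw [← hx₂ P]
    exact mk_eq_mk (by simpa using hg P)

theorem resHom_L (S : Finset (IrrM k)) (g h : k[X]) : resHom S (prS S * g, prS S * h) = 0 := by
  funext P
  apply Prod.ext
  · change AdjoinRoot.mk P.1.1 _ = 0
    rw [AdjoinRoot.mk_eq_zero]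
    exact dvd_mul_of_dvd_left (dvd_prS P.2) _
  · change AdjoinRoot.mk P.1.1 _ = 0
    rw [AdjoinRoot.mk_eq_zero]
    exact dvd_mul_of_dvd_left (dvd_prS P.2) _

/-- value and derivative modulo `P` -/
noncomputable def jet (P : IrrM k) : k[X] →+ RF P × RF P where
  toFun f := (AdjoinRoot.mk P.1 f, AdjoinRoot.mk P.1 (derivative f))
  map_zero' := by simp
  map_add' f g := by simp

theorem jet_eq_zero {P : IrrM k} {f : k[X]} (h : P.1 ^ 2 ∣ f) : jet P f = 0 := by
  obtain ⟨g, rfl⟩ := h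
  apply Prod.ext
  · change AdjoinRoot.mk P.1 _ = 0
    rw [AdjoinRoot.mk_eq_zero]
    exact ⟨P.1 * g, by ring⟩
  · change AdjoinRoot.mk P.1 (derivative _) = 0
    rw [AdjoinRoot.mk_eq_zero, derivative_mul, derivative_pow]
    refine ⟨C (2 : k) * derivative P.1 * g + P.1 * derivative g, ?_⟩
    simp only [Nat.cast_ofNat, Nat.add_one_sub_one, pow_one, map_ofNat]
    ring

theorem jet_eq {P : IrrM k} {f g : k[X]} (h : P.1 ^ 2 ∣ f - g) : jet P f = jet P g := by
  rw [← sub_eq_zero, ← map_sub]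
  exact jet_eq_zero h

theorem jet_surj [Finite k] (P : IrrM k) : Function.Surjective (jet P) := by
  rintro ⟨u, v⟩
  obtain ⟨u₀, rfl⟩ := AdjoinRoot.mk_surjective u
  obtain ⟨v₀, rfl⟩ := AdjoinRoot.mk_surjective v
  have hsep : IsCoprime P.1 (derivative P.1) := PerfectField.separable_of_irreducible P.2.2
  obtain ⟨p, r, hpr⟩ := hsep
  refine ⟨u₀ + P.1 * (r * (v₀ - derivative u₀)), ?_⟩
  apply Prod.ext
  · change AdjoinRoot.mk P.1 _ = AdjoinRoot.mk P.1 _
    apply mk_eq_mk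
    exact ⟨r * (v₀ - derivative u₀), by ring⟩
  · change AdjoinRoot.mk P.1 (derivative _) = AdjoinRoot.mk P.1 _
    apply mk_eq_mk
    rw [derivative_add, derivative_mul]
    refine ⟨derivative (r * (v₀ - derivative u₀)) - p * (v₀ - derivative u₀), ?_⟩
    linear_combination (v₀ - derivative u₀) * hpr

/-- jets of a pair at the primes of `S` after multiplication by `a` -/
noncomputable def jetHom (S : Finset (IrrM k)) (a : k[X]) :
    k[X] × k[X] →+ (∀ P : S, (RF P.1 × RF P.1) × (RF P.1 × RF P.1)) where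
  toFun p P := (jet P.1 (a * p.1), jet P.1 (a * p.2))
  map_zero' := by funext P; simp
  map_add' p q := by
    funext P
    simp only [Prod.fst_add, Prod.snd_add, mul_add, map_add]
    rfl

/-- the congruence modulo `a²` -/
noncomputable def congHom (a u v : k[X]) : k[X] × k[X] →+ AdjoinRoot (a ^ 2) where
  toFun p := AdjoinRoot.mk (a ^ 2) (u * p.1 + v * p.2)
  map_zero' := by simp
  map_add' p q := by
    simp only [Prod.fst_add, Prod.snd_add, mul_add, map_add]
    ring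

theorem congJet_surj [Finite k] (S : Finset (IrrM k)) {a u v : k[X]}
    (ha : ∀ P ∈ S, IsCoprime a P.1)
    (huv : ∃ p p' z, u * p + v * p' + a ^ 2 * z = 1) :
    Function.Surjective ((congHom a u v).prod (jetHom S a)) := by
  rintro ⟨w, y⟩
  obtain ⟨w, rfl⟩ := AdjoinRoot.mk_surjective w
  obtain ⟨p, p', z, hz⟩ := huv
  choose f₁ hf₁ using fun P : S => jet_surj P.1 (y P).1
  choose f₂ hf₂ using fun P : S => jet_surj P.1 (y P).2
  have hinv : ∀ P : S, ∃ b, P.1.1 ^ 2 ∣ a * b - 1 := by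
    intro P
    obtain ⟨s, t, hst⟩ : IsCoprime a (P.1.1 ^ 2) := (ha P.1 P.2).pow_right
    exact ⟨s, -t, by linear_combination hst⟩
  choose b hb using hinv
  have ha2 : ∀ P ∈ S, IsCoprime (a ^ 2) P.1 := fun P hP => (ha P hP).pow_left
  obtain ⟨R₁, h1, h1'⟩ := crt2 S 2 ha2 (w * p) (fun P => b P * f₁ P)
  obtain ⟨R₂, h2, h2'⟩ := crt2 S 2 ha2 (w * p') (fun P => b P * f₂ P)
  refine ⟨(R₁, R₂), ?_⟩
  apply Prod.ext
  · change AdjoinRoot.mk (a ^ 2) (u * R₁ + v * R₂) = AdjoinRoot.mk (a ^ 2) w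
    apply mk_eq_mk
    obtain ⟨c₁, hc₁⟩ := h1
    obtain ⟨c₂, hc₂⟩ := h2
    refine ⟨u * c₁ + v * c₂ - w * z, ?_⟩
    linear_combination u * hc₁ + v * hc₂ + w * hz
  · change jetHom S a (R₁, R₂) = y
    funext P
    apply Prod.ext
    · change jet P.1 (a * R₁) = (y P).1
      rw [← hf₁ P]
      apply jet_eq
      obtain ⟨c₁, hc₁⟩ := h1' P
      obtain ⟨c₂, hc₂⟩ := hb P
      refine ⟨a * c₁ + c₂ * f₁ P, ?_⟩
      linear_combination a * hc₁ + f₁ P * hc₂
    · change jet P.1 (a * R₂) = (y P).2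
      rw [← hf₂ P]
      apply jet_eq
      obtain ⟨c₁, hc₁⟩ := h2' P
      obtain ⟨c₂, hc₂⟩ := hb P
      refine ⟨a * c₁ + c₂ * f₂ P, ?_⟩
      linear_combination a * hc₁ + f₂ P * hc₂

theorem congJet_L (S : Finset (IrrM k)) (a u v g h : k[X]) :
    (congHom a u v).prod (jetHom S a) (a ^ 2 * prS S ^ 2 * g, a ^ 2 * prS S ^ 2 * h) = 0 := by
  apply Prod.ext
  · change AdjoinRoot.mk (a ^ 2) _ = 0
    rw [AdjoinRoot.mk_eq_zero]
    exact ⟨u * (prS S ^ 2 * g) + v * (prS S ^ 2 * h), by ring⟩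
  · change jetHom S a _ = 0
    funext P
    apply Prod.ext
    · change jet P.1 _ = 0
      apply jet_eq_zero
      have := pow_dvd_pow_of_dvd (dvd_prS P.2) 2
      have e : a * (a ^ 2 * prS S ^ 2 * g) = prS S ^ 2 * (a * (a ^ 2 * g)) := by ring
      rw [e]
      exact dvd_mul_of_dvd_left this _
    · change jet P.1 _ = 0
      apply jet_eq_zero
      have := pow_dvd_pow_of_dvd (dvd_prS P.2) 2
      have e : a * (a ^ 2 * prS S ^ 2 * h) = prS S ^ 2 * (a * (a ^ 2 * h)) := by ring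
      rw [e]
      exact dvd_mul_of_dvd_left this _

end Pool.Agent.H2
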