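import Pool.Agent.H2.Euler

/-!
# Sums over primes
-/

namespace Pool.Agent.H2

open Polynomial

universe u

variable {k : Type u} [Field k] [Finite k] [CharP k 2]

open scoped Classical in
theorem card_deg (S : Finset (IrrM k)) (n : ℕ) :
    (S.filter (fun P => P.1.natDegree = n)).card ≤ Nat.card k ^ n := by
  have h1 : Nat.card {P // P ∈ S.filter (fun P => P.1.natDegree = n)} ≤ Nat.card (Fin n → k) := by
    apply Nat.card_le_card_of_injective
      (fun P : {P // P ∈ S.filter (fun P => P.1.natDegree = n)} => fun i : Fin n => P.1.1.coeff i)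
    rintro ⟨P, hP⟩ ⟨Q, hQ⟩ h
    have h2 : P.1.natDegree = n := (Finset.mem_filter.mp hP).2
    have h3 : Q.1.natDegree = n := (Finset.mem_filter.mp hQ).2
    apply Subtype.ext
    apply Subtype.ext
    apply Polynomial.ext
    intro i
    rcases lt_trichotomy i n with hi | hi | hi
    · exact congrFun h ⟨i, hi⟩
    · have e1 : P.1.coeff i = 1 := by
        rw [hi, ← h2]; exact P.2.1
      have e2 : Q.1.coeff i = 1 := by
        rw [hi, ← h3]; exact Q.2.1
      change P.1.coeff i = Q.1.coeff i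
      rw [e1, e2]
    · change P.1.coeff i = Q.1.coeff i
      rw [coeff_eq_zero_of_natDegree_lt (by omega), coeff_eq_zero_of_natDegree_lt (by omega)]
  rw [Nat.card_eq_fintype_card, Fintype.card_coe, Nat.card_fun, Nat.card_eq_fintype_card (α := Fin n),
    Fintype.card_fin] at h1
  exact h1

/-- geometric sums, again -/
theorem geom_le' {q : ℝ} (hq : 1 < q) (a n : ℕ) :
    ∑ m ∈ Finset.Ico a n, (q ^ m)⁻¹ ≤ (q ^ a)⁻¹ * (q / (q - 1)) := by
  have hq0 : 0 < q := by linarith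
  have hq1 : 0 < q - 1 := by linarith
  rcases le_or_gt a n with h | h
  · obtain ⟨r, rfl⟩ := Nat.exists_eq_add_of_le h
    have key : ∑ m ∈ Finset.Ico a (a + r), (q ^ m)⁻¹ = (q ^ a)⁻¹ * (q / (q - 1))
        - (q ^ (a + r))⁻¹ * (q / (q - 1)) := by
      clear h
      induction r with
      | zero => simp
      | succ r ih =>
        rw [← add_assoc, Finset.sum_Ico_succ_top (Nat.le_add_right a r), ih, pow_succ]
        field_simp
        ring
    rw [key]
    have : 0 ≤ (q ^ (a + r))⁻¹ * (q / (q - 1)) := by positivity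
    linarith
  · rw [Finset.Ico_eq_empty (by omega), Finset.sum_empty]
    positivity

theorem two_le_card : (2 : ℝ) ≤ (Nat.card k : ℝ) := by
  have : 1 < Nat.card k := Finite.one_lt_card
  exact_mod_cast this

open scoped Classical in
theorem sum_deg (S : Finset (IrrM k)) (n : ℕ) :
    ∑ P ∈ S.filter (fun P => P.1.natDegree = n), ((NP P : ℝ) ^ 2)⁻¹ ≤ ((Nat.card k : ℝ) ^ n)⁻¹ := by
  have hq := two_le_card (k := k)
  have hq0 : (0 : ℝ) < Nat.card k := by linarith
  have h1 : ∀ P ∈ S.filter (fun P => P.1.natDegree = n),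
      ((NP P : ℝ) ^ 2)⁻¹ = ((Nat.card k : ℝ) ^ (2 * n))⁻¹ := by
    intro P hP
    have h2 : P.1.natDegree = n := (Finset.mem_filter.mp hP).2
    unfold NP
    rw [h2]; push_cast; rw [← pow_mul, mul_comm n 2]
  rw [Finset.sum_congr rfl h1, Finset.sum_const, nsmul_eq_mul]
  have h3 : ((S.filter (fun P => P.1.natDegree = n)).card : ℝ) ≤ (Nat.card k : ℝ) ^ n := by
    exact_mod_cast card_deg S n
  calc ((S.filter (fun P => P.1.natDegree = n)).card : ℝ) * ((Nat.card k : ℝ) ^ (2 * n))⁻¹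
      ≤ (Nat.card k : ℝ) ^ n * ((Nat.card k : ℝ) ^ (2 * n))⁻¹ :=
        mul_le_mul_of_nonneg_right h3 (by positivity)
    _ = ((Nat.card k : ℝ) ^ n)⁻¹ := by
      rw [two_mul, pow_add]; field_simp

theorem sum_inv_NP (S : Finset (IrrM k)) (s : ℕ) (hS : ∀ P ∈ S, s < P.1.natDegree) :
    ∑ P ∈ S, ((NP P : ℝ) ^ 2)⁻¹ ≤ ((Nat.card k : ℝ) ^ s)⁻¹ / ((Nat.card k : ℝ) - 1) := by
  classical
  have hq := two_le_card (k := k)
  obtain ⟨N, hN⟩ : ∃ N, ∀ P ∈ S, P.1.natDegree < N :=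
    ⟨S.sup (fun P => P.1.natDegree) + 1, fun P hP => Nat.lt_succ_of_le
      (Finset.le_sup (f := fun P : IrrM k => P.1.natDegree) hP)⟩
  have h1 : ∑ P ∈ S, ((NP P : ℝ) ^ 2)⁻¹
      = ∑ n ∈ Finset.Ico (s + 1) N, ∑ P ∈ S.filter (fun P => P.1.natDegree = n),
        ((NP P : ℝ) ^ 2)⁻¹ :=
    (Finset.sum_fiberwise_of_maps_to (fun P hP => Finset.mem_Ico.mpr ⟨hS P hP, hN P hP⟩) _).symm
  rw [h1]
  calc ∑ n ∈ Finset.Ico (s + 1) N, ∑ P ∈ S.filter (fun P => P.1.natDegree = n), ((NP P : ℝ) ^ 2)⁻¹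
      ≤ ∑ n ∈ Finset.Ico (s + 1) N, ((Nat.card k : ℝ) ^ n)⁻¹ :=
        Finset.sum_le_sum fun n _ => sum_deg S n
    _ ≤ ((Nat.card k : ℝ) ^ (s + 1))⁻¹ * ((Nat.card k : ℝ) / ((Nat.card k : ℝ) - 1)) :=
        geom_le' (by linarith) _ _
    _ = _ := by
      have : (Nat.card k : ℝ) - 1 ≠ 0 := by linarith
      have h2 : (Nat.card k : ℝ) ≠ 0 := by linarith
      rw [pow_succ]
      field_simp

/-- Weierstrass inequality -/
theorem prod_ge {ι : Type*} (S : Finset ι) (x : ι → ℝ) (h0 : ∀ i ∈ S, 0 ≤ x i)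
    (h1 : ∀ i ∈ S, x i ≤ 1) : 1 - ∑ i ∈ S, x i ≤ ∏ i ∈ S, (1 - x i) := by
  classical
  induction S using Finset.induction_on with
  | empty => simp
  | insert a S ha ih =>
    rw [Finset.sum_insert ha, Finset.prod_insert ha]
    have ih' := ih (fun i hi => h0 i (Finset.mem_insert_of_mem hi))
      (fun i hi => h1 i (Finset.mem_insert_of_mem hi))
    have h2 := h0 a (Finset.mem_insert_self a S)
    have h3 := h1 a (Finset.mem_insert_self a S)
    have h4 : 0 ≤ ∑ i ∈ S, x i := Finset.sum_nonneg fun i hi => h0 i (Finset.mem_insert_of_mem hi)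
    nlinarith [mul_le_mul_of_nonneg_left ih' (by linarith : (0 : ℝ) ≤ 1 - x a), mul_nonneg h2 h4]

theorem inv_NP_le (P : IrrM k) : ((NP P : ℝ) ^ 2)⁻¹ ≤ 1 := by
  have h : (2 : ℝ) ≤ NP P := by exact_mod_cast two_le_NP P
  exact inv_le_one_of_one_le₀ (by nlinarith)

/-- the density is at least a quarter -/
theorem quarter_le (S : Finset (IrrM k)) : 1 / 4 ≤ ∏ P ∈ S, dens P := by
  classical
  have hq := two_le_card (k := k)
  have hq0 : (0 : ℝ) < Nat.card k := by linarith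
  rw [← Finset.prod_filter_mul_prod_filter_not S (fun P => P.1.natDegree = 1)]
  have h1 : 1 / 2 ≤ ∏ P ∈ S.filter (fun P => P.1.natDegree = 1), dens P := by
    refine le_trans ?_ (prod_ge _ _ (fun P _ => by positivity) (fun P _ => inv_NP_le P))
    have h2 := sum_deg S 1
    rw [pow_one] at h2
    have h3 : (Nat.card k : ℝ)⁻¹ ≤ 1 / 2 := by
      rw [one_div]; exact inv_anti₀ (by norm_num) hq
    linarith
  have h2 : 1 / 2 ≤ ∏ P ∈ S.filter (fun P => ¬ P.1.natDegree = 1), dens P := by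
    refine le_trans ?_ (prod_ge _ _ (fun P _ => by positivity) (fun P _ => inv_NP_le P))
    have h3 := sum_inv_NP (S.filter (fun P => ¬ P.1.natDegree = 1)) 1 (fun P hP => by
      have h4 := (Finset.mem_filter.mp hP).2
      have h5 : 0 < P.1.natDegree := P.2.2.natDegree_pos
      omega)
    have h4 : ((Nat.card k : ℝ) ^ 1)⁻¹ / ((Nat.card k : ℝ) - 1) ≤ 1 / 2 := by
      rw [pow_one, div_le_iff₀ (by linarith)]
      rw [inv_le_iff_one_le_mul₀ hq0]
      nlinarith
    linarith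
  calc (1 : ℝ) / 4 = 1 / 2 * (1 / 2) := by norm_num
    _ ≤ _ := mul_le_mul h1 h2 (by norm_num) (by linarith)

end Pool.Agent.H2
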