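import Pool.Agent.H2.TypeCount

/-!
# Total number of nonzero classes
-/

namespace Pool.Agent.H2

open Polynomial

universe u

variable {k : Type u} [Field k] [Finite k] [CharP k 2] {a₁ a₃ : k[X]} {d : ℕ}

/-- nonzero classes over good discriminants -/
def SZ (a₁ a₃ : k[X]) (d : ℕ) : Set (k[X] × k[X]) :=
  {p | Gd a₁ a₃ d p.1 ∧ p.2 ≠ 0 ∧ Dat a₁ a₃ p.1 d p.2}

theorem mem_NZ (hd : 1 ≤ d) (hsq : Squarefree a₁) (hcop : IsCoprime a₁ a₃)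
    (ha₁ : a₁.natDegree = d) (ha₃ : a₃.degree < ((3 * d + 1 : ℕ) : WithBot ℕ))
    (p : SZ a₁ a₃ d) : ∃ m : Fin (d + 1), p.1 ∈ NZ a₁ a₃ d m := by
  obtain ⟨⟨D, Z⟩, hG, hZ, hs⟩ := p
  obtain ⟨m, hm, x₁, y₁, x₂, y₂, hq⟩ := exists_quad hd hsq hcop ha₁ ha₃ hG.deg hG.cop hG.inf hs hZ
  exact ⟨⟨m, by omega⟩, hG, x₁, y₁, x₂, y₂, hq⟩

theorem finite_NZ {m : ℕ} [Finite (TT a₁ a₃ d m)] : Finite (NZ a₁ a₃ d m) := by
  choose x₁ y₁ x₂ y₂ hq using fun p : NZ a₁ a₃ d m => p.2.2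
  apply Finite.of_injective (fun p : NZ a₁ a₃ d m =>
    (⟨(p.1, ((x₁ p, y₁ p), (x₂ p, y₂ p))), p.2.1, hq p⟩ : TT a₁ a₃ d m))
  intro p p' h
  have h2 := congrArg Subtype.val h
  exact Subtype.ext (congrArg Prod.fst h2)

theorem finite_SZ (hd : 1 ≤ d) (hsq : Squarefree a₁) (hcop : IsCoprime a₁ a₃)
    (ha₁ : a₁.natDegree = d) (ha₃ : a₃.degree < ((3 * d + 1 : ℕ) : WithBot ℕ)) :
    Finite (SZ a₁ a₃ d) ∧ Nat.card (SZ a₁ a₃ d) ≤ ∑ m ∈ Finset.range (d + 1), Nat.card (NZ a₁ a₃ d m) := by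
  have hfT : ∀ m : Fin (d + 1), Finite (TT a₁ a₃ d m) := fun m =>
    finite_TT hd (by omega) hsq hcop ha₁ ha₃
  have hfN : ∀ m : Fin (d + 1), Finite (NZ a₁ a₃ d m) := fun m => finite_NZ
  choose m hm using mem_NZ hd hsq hcop ha₁ ha₃
  let f : SZ a₁ a₃ d → Σ m : Fin (d + 1), NZ a₁ a₃ d m := fun p => ⟨m p, ⟨p.1, hm p⟩⟩
  have hf : Function.Injective f := by
    intro p p' h
    apply Subtype.ext
    have : ∀ z z' : Σ m : Fin (d + 1), NZ a₁ a₃ d m, z = z' → (z.2.1 : k[X] × k[X]) = z'.2.1 := by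
      rintro z z' rfl; rfl
    exact this _ _ h
  refine ⟨Finite.of_injective f hf, ?_⟩
  refine (Nat.card_le_card_of_injective f hf).trans (le_of_eq ?_)
  rw [Nat.card_sigma, ← Fin.sum_univ_eq_sum_range (fun m => Nat.card (NZ a₁ a₃ d m))]

/-- geometric sums -/
theorem geom_le {q : ℝ} (hq : 1 < q) (a n : ℕ) :
    ∑ m ∈ Finset.Ico a n, (q ^ m)⁻¹ ≤ (q ^ a)⁻¹ * (q / (q - 1)) := by
  have hq0 : 0 < q := by linarith
  have hq1 : 0 < q - 1 := by linarith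
  rcases le_or_gt a n with h | h
  · obtain ⟨r, rfl⟩ := Nat.exists_eq_add_of_le h
    have key : ∑ m ∈ Finset.Ico a (a + r), (q ^ m)⁻¹ = (q ^ a)⁻¹ * (q / (q - 1))
        - (q ^ (a + r))⁻¹ * (q / (q - 1)) := by
      clear h
      induction r with
      | zero => simp
      | succ r ih =>
        rw [← add_assoc, Finset.sum_Ico_succ_top (Nat.le_add_right a r), ih, pow_succ]
        field_simp
        ring
    rw [key]
    have : 0 ≤ (q ^ (a + r))⁻¹ * (q / (q - 1)) := by positivity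
    linarith
  · rw [Finset.Ico_eq_empty (by omega), Finset.sum_empty]
    positivity

theorem two_le_q : (2 : ℝ) ≤ (Nat.card k : ℝ) := by
  have : 1 < Nat.card k := Finite.one_lt_card
  exact_mod_cast this

theorem card_NZ_zero (hd : 1 ≤ d) (hsq : Squarefree a₁) (hcop : IsCoprime a₁ a₃)
    (ha₁ : a₁.natDegree = d) (ha₃ : a₃.degree < ((3 * d + 1 : ℕ) : WithBot ℕ)) {G : ℝ}
    (hG : (Nat.card (TT a₁ a₃ d 0) : ℝ) ≤ (Nat.card k : ℝ) ^ 0 * ((Nat.card k : ℝ) ^ (8 * d + 4) * G)) :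
    (Nat.card (NZ a₁ a₃ d 0) : ℝ) ≤ (Nat.card k : ℝ) ^ (8 * d + 3) * (G / ((Nat.card k : ℝ) ^ 2 - 1)) := by
  have := finite_TT (m := 0) hd (by omega) hsq hcop ha₁ ha₃
  have h1 := card_orbit (m := 0) hd (by omega) hsq hcop ha₁
  have h2 := card_Au_zero (k := k)
  have h3 : (Nat.card k * (Nat.card k ^ 2 - 1)) * Nat.card (NZ a₁ a₃ d 0) ≤ Nat.card (TT a₁ a₃ d 0) :=
    (Nat.mul_le_mul_right _ h2).trans h1
  have h4 : ((Nat.card k * (Nat.card k ^ 2 - 1) * Nat.card (NZ a₁ a₃ d 0) : ℕ) : ℝ)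
      ≤ Nat.card (TT a₁ a₃ d 0) := by exact_mod_cast h3
  have hq2 := two_le_q (k := k)
  have hn : 1 ≤ Nat.card k ^ 2 := Nat.one_le_pow _ _ Nat.card_pos
  rw [Nat.cast_mul, Nat.cast_mul, Nat.cast_sub hn] at h4
  push_cast at h4
  set q : ℝ := (Nat.card k : ℝ)
  have hq1 : 0 < q ^ 2 - 1 := by nlinarith
  have hq0 : 0 < q := by linarith
  have h5 := h4.trans hG
  rw [← mul_div_assoc, le_div_iff₀ hq1]
  have h6 : q * ((Nat.card (NZ a₁ a₃ d 0) : ℝ) * (q ^ 2 - 1)) ≤ q * (q ^ (8 * d + 3) * G) := by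
    calc _ = q * (q ^ 2 - 1) * (Nat.card (NZ a₁ a₃ d 0) : ℝ) := by ring
      _ ≤ _ := h5
      _ = _ := by ring
  exact le_of_mul_le_mul_left h6 hq0

theorem card_NZ_pos {m : ℕ} (hm0 : m ≠ 0) (hm : m ≤ d) (hd : 1 ≤ d) (hsq : Squarefree a₁)
    (hcop : IsCoprime a₁ a₃)
    (ha₁ : a₁.natDegree = d) (ha₃ : a₃.degree < ((3 * d + 1 : ℕ) : WithBot ℕ)) {G : ℝ}
    (hG : (Nat.card (TT a₁ a₃ d m) : ℝ) ≤ (Nat.card k : ℝ) ^ m * ((Nat.card k : ℝ) ^ (8 * d + 4) * G)) :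
    (Nat.card (NZ a₁ a₃ d m) : ℝ) ≤ (Nat.card k : ℝ) ^ (8 * d + 3) * (G / ((Nat.card k : ℝ) - 1))
      * ((Nat.card k : ℝ) ^ m)⁻¹ := by
  have := finite_TT (m := m) hd (by omega) hsq hcop ha₁ ha₃
  have h1 := card_orbit (m := m) hd (by omega) hsq hcop ha₁
  have h2 := card_Au_pos (k := k) hm0
  have h3 : ((Nat.card k - 1) * Nat.card k ^ (2 * m + 1)) * Nat.card (NZ a₁ a₃ d m)
      ≤ Nat.card (TT a₁ a₃ d m) := (Nat.mul_le_mul_right _ h2).trans h1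
  have h4 : (((Nat.card k - 1) * Nat.card k ^ (2 * m + 1) * Nat.card (NZ a₁ a₃ d m) : ℕ) : ℝ)
      ≤ Nat.card (TT a₁ a₃ d m) := by exact_mod_cast h3
  have hq2 := two_le_q (k := k)
  have hn : 1 ≤ Nat.card k := Nat.card_pos
  rw [Nat.cast_mul, Nat.cast_mul, Nat.cast_sub hn] at h4
  push_cast at h4
  set q : ℝ := (Nat.card k : ℝ)
  have hq1 : 0 < q - 1 := by linarith
  have hq0 : 0 < q := by linarith
  have h5 := h4.trans hG
  have hqm : 0 < q ^ m := by positivity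
  rw [← div_eq_mul_inv, le_div_iff₀ hqm, ← mul_div_assoc, le_div_iff₀ hq1]
  have h6 : (q * q ^ m) * ((Nat.card (NZ a₁ a₃ d m) : ℝ) * q ^ m * (q - 1))
      ≤ (q * q ^ m) * (q ^ (8 * d + 3) * G) := by
    calc _ = (q - 1) * q ^ (2 * m + 1) * (Nat.card (NZ a₁ a₃ d m) : ℝ) := by
          rw [show 2 * m + 1 = m + m + 1 by ring, pow_succ, pow_add]; ring
      _ ≤ _ := h5
      _ = _ := by ring
  exact le_of_mul_le_mul_left h6 (by positivity)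

/-- the total bound from bounds for each type -/
theorem card_SZ_le (hd : 1 ≤ d) (hsq : Squarefree a₁) (hcop : IsCoprime a₁ a₃)
    (ha₁ : a₁.natDegree = d) (ha₃ : a₃.degree < ((3 * d + 1 : ℕ) : WithBot ℕ)) {G G' : ℝ} {M : ℕ}
    (hM : M ≤ d) (hG0 : 0 ≤ G) (hG'0 : 0 ≤ G')
    (hG : ∀ m ≤ M, (Nat.card (TT a₁ a₃ d m) : ℝ)
      ≤ (Nat.card k : ℝ) ^ m * ((Nat.card k : ℝ) ^ (8 * d + 4) * G))
    (hG' : ∀ m ≤ d, M < m → (Nat.card (TT a₁ a₃ d m) : ℝ)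
      ≤ (Nat.card k : ℝ) ^ m * ((Nat.card k : ℝ) ^ (8 * d + 4) * G')) :
    (Nat.card (SZ a₁ a₃ d) : ℝ) ≤ (Nat.card k : ℝ) ^ (8 * d + 3) *
      (G * (2 * (Nat.card k : ℝ) / (((Nat.card k : ℝ) - 1) * ((Nat.card k : ℝ) ^ 2 - 1)))
        + G' * (((Nat.card k : ℝ) ^ M)⁻¹ / ((Nat.card k : ℝ) - 1) ^ 2)) := by
  have h1 := (finite_SZ hd hsq hcop ha₁ ha₃).2
  have h2 : (Nat.card (SZ a₁ a₃ d) : ℝ) ≤ ∑ m ∈ Finset.range (d + 1), (Nat.card (NZ a₁ a₃ d m) : ℝ) := by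
    exact_mod_cast h1
  refine h2.trans ?_
  have hq2 := two_le_q (k := k)
  have h0 := card_NZ_zero hd hsq hcop ha₁ ha₃ (hG 0 (Nat.zero_le _))
  set q : ℝ := (Nat.card k : ℝ) with hqd
  have hq1 : 0 < q - 1 := by linarith
  have hq0 : 0 < q := by linarith
  have hq21 : 0 < q ^ 2 - 1 := by nlinarith
  rw [Finset.range_eq_Ico, Finset.sum_eq_sum_Ico_succ_bot (Nat.succ_pos d),
    ← Finset.sum_Ico_consecutive _ (show 0 + 1 ≤ M + 1 by omega) (show M + 1 ≤ d + 1 by omega)]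
  have s1 : ∑ m ∈ Finset.Ico (0 + 1) (M + 1), (Nat.card (NZ a₁ a₃ d m) : ℝ)
      ≤ q ^ (8 * d + 3) * (G / (q - 1)) * (1 / (q - 1)) := by
    calc ∑ m ∈ Finset.Ico (0 + 1) (M + 1), (Nat.card (NZ a₁ a₃ d m) : ℝ)
        ≤ ∑ m ∈ Finset.Ico (0 + 1) (M + 1), q ^ (8 * d + 3) * (G / (q - 1)) * (q ^ m)⁻¹ := by
          refine Finset.sum_le_sum fun m hm => ?_
          rw [Finset.mem_Ico] at hm
          exact card_NZ_pos (by omega) (by omega) hd hsq hcop ha₁ ha₃ (hG m (by omega))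
      _ = q ^ (8 * d + 3) * (G / (q - 1)) * ∑ m ∈ Finset.Ico (0 + 1) (M + 1), (q ^ m)⁻¹ := by
          rw [Finset.mul_sum]
      _ ≤ q ^ (8 * d + 3) * (G / (q - 1)) * (1 / (q - 1)) := by
          refine mul_le_mul_of_nonneg_left ?_ (by positivity)
          refine (geom_le (by linarith) _ _).trans (le_of_eq ?_)
          field_simp
          ring
  have s2 : ∑ m ∈ Finset.Ico (M + 1) (d + 1), (Nat.card (NZ a₁ a₃ d m) : ℝ)
      ≤ q ^ (8 * d + 3) * (G' / (q - 1)) * ((q ^ M)⁻¹ / (q - 1)) := by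
    calc ∑ m ∈ Finset.Ico (M + 1) (d + 1), (Nat.card (NZ a₁ a₃ d m) : ℝ)
        ≤ ∑ m ∈ Finset.Ico (M + 1) (d + 1), q ^ (8 * d + 3) * (G' / (q - 1)) * (q ^ m)⁻¹ := by
          refine Finset.sum_le_sum fun m hm => ?_
          rw [Finset.mem_Ico] at hm
          exact card_NZ_pos (by omega) (by omega) hd hsq hcop ha₁ ha₃ (hG' m (by omega) (by omega))
      _ = q ^ (8 * d + 3) * (G' / (q - 1)) * ∑ m ∈ Finset.Ico (M + 1) (d + 1), (q ^ m)⁻¹ := by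
          rw [Finset.mul_sum]
      _ ≤ q ^ (8 * d + 3) * (G' / (q - 1)) * ((q ^ M)⁻¹ / (q - 1)) := by
          refine mul_le_mul_of_nonneg_left ?_ (by positivity)
          refine (geom_le (by linarith) _ _).trans (le_of_eq ?_)
          rw [pow_succ]
          field_simp
  calc (Nat.card (NZ a₁ a₃ d 0) : ℝ) + (∑ m ∈ Finset.Ico (0 + 1) (M + 1), (Nat.card (NZ a₁ a₃ d m) : ℝ)
      + ∑ m ∈ Finset.Ico (M + 1) (d + 1), (Nat.card (NZ a₁ a₃ d m) : ℝ))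
      ≤ q ^ (8 * d + 3) * (G / (q ^ 2 - 1)) + (q ^ (8 * d + 3) * (G / (q - 1)) * (1 / (q - 1))
        + q ^ (8 * d + 3) * (G' / (q - 1)) * ((q ^ M)⁻¹ / (q - 1))) :=
        add_le_add h0 (add_le_add s1 s2)
    _ = _ := by
      have e : G / (q ^ 2 - 1) + G / (q - 1) * (1 / (q - 1))
          = G * (2 * q / ((q - 1) * (q ^ 2 - 1))) := by
        have : q ^ 2 - 1 = (q - 1) * (q + 1) := by ring
        rw [this]
        have h7 : q + 1 ≠ 0 := by linarith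
        field_simp
        ring
      rw [← e]
      field_simp
      ring

end Pool.Agent.H2
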