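import Pool.Agent.H2.Glue

/-!
# From reduced bases to parameters
-/

namespace Pool.Agent.H2

open Polynomial

universe u

variable {k : Type u} [Field k] [Finite k] [CharP k 2]

omit [Finite k] in
theorem poly_sq_inj {a b : k[X]} (h : a ^ 2 = b ^ 2) : a = b := by
  have : (a + b) ^ 2 = 0 := by grind
  have : a + b = 0 := pow_eq_zero_iff (two_ne_zero) |>.mp this
  grind

theorem PEC_eq {p a b : k[X]} (h : p = a ^ 2 + X * b ^ 2) : PE p = a ∧ PC p = b := by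
  have h1 := PE_PC p
  have h2 : (PE p + a) ^ 2 + X * (PC p + b) ^ 2 = 0 := by grind
  have h3 := poly_uniq _ _ h2
  have h4 : PC p = b := by grind
  refine ⟨poly_sq_inj (?_ : PE p ^ 2 = a ^ 2), h4⟩
  rw [h4] at h1
  grind

theorem PE_eq {p a b : k[X]} (h : p = a ^ 2 + X * b ^ 2) : PE p = a := (PEC_eq h).1
theorem PC_eq {p a b : k[X]} (h : p = a ^ 2 + X * b ^ 2) : PC p = b := (PEC_eq h).2

theorem PC_add (p q : k[X]) : PC (p + q) = PC p + PC q := by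
  refine PC_eq (a := PE p + PE q) ?_
  have h1 := PE_PC p
  have h2 := PE_PC q
  grind

theorem PE_add (p q : k[X]) : PE (p + q) = PE p + PE q := by
  refine PE_eq (b := PC p + PC q) ?_
  have h1 := PE_PC p
  have h2 := PE_PC q
  grind

theorem PC_sq_mul (a p : k[X]) : PC (a ^ 2 * p) = a * PC p := by
  refine PC_eq (a := a * PE p) ?_
  have h1 := PE_PC p
  grind

theorem PE_sq_mul (a p : k[X]) : PE (a ^ 2 * p) = a * PE p := by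
  refine PE_eq (b := a * PC p) ?_
  have h1 := PE_PC p
  grind

@[simp] theorem PC_sq (a : k[X]) : PC (a ^ 2) = 0 := PC_eq (a := a) (by ring)
@[simp] theorem PE_sq (a : k[X]) : PE (a ^ 2) = a := PE_eq (b := 0) (by ring)

theorem derivative_eq (p : k[X]) : derivative p = PC p ^ 2 := by
  have h3 : (2 : k[X]) = 0 := CharTwo.two_eq_zero
  conv_lhs => rw [PE_PC p]
  rw [derivative_add, derivative_mul, derivative_pow, derivative_pow, derivative_X]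
  simp only [Nat.cast_ofNat, map_ofNat, h3]
  ring

/-- `κ` as a function of `D` -/
noncomputable def kD (a₁ a₃ D : k[X]) : k[X] := a₃ * PC (a₁ * a₃) + a₁ * PC D

/-- `Δ₀` as a function of `D` -/
noncomputable def dD (a₁ a₃ D : k[X]) : k[X] :=
  a₃ ^ 2 + a₁ * a₃ * PE (a₁ * a₃) + a₁ ^ 2 * PE D

/-- the quadratic form attached to `Z` -/
noncomputable def Qf (a₁ a₃ D Z x y : k[X]) : k[X] :=
  (dD a₁ a₃ D + X * (a₁ * Z)) * x ^ 2 + a₁ * kD a₁ a₃ D * (x * y) + a₁ * Z * y ^ 2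

variable {a₁ a₃ D Z : k[X]}

theorem disc_D : a₃ ^ 4 + a₁ ^ 3 * a₃ ^ 3 + a₁ ^ 4 * D
    = dD a₁ a₃ D ^ 2 + X * (a₁ * kD a₁ a₃ D) ^ 2 := by
  have h1 := PE_PC (a₁ * a₃)
  have h2 := PE_PC D
  unfold dD kD
  grind

section Sq

variable (hsq : Squarefree a₁) (hcop : IsCoprime a₁ a₃)
include hsq

omit [Finite k] [CharP k 2] in
theorem dvd_of_sq {z : k[X]} (h : a₁ ∣ z ^ 2) : a₁ ∣ z :=
  (hsq.dvd_pow_iff_dvd two_ne_zero).mp h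

omit [CharP k 2] in
theorem coprime_deriv : IsCoprime a₁ (derivative a₁) := by
  exact (PerfectField.separable_iff_squarefree.mpr hsq)

omit hsq in
theorem sq_mod : ∃ h : k[X], kD a₁ a₃ D ^ 2 = a₃ ^ 3 * derivative a₁ + a₁ * h := by
  have h1 : PC (a₁ * a₃) ^ 2 = derivative a₁ * a₃ + a₁ * derivative a₃ := by
    rw [← derivative_eq, derivative_mul]
  refine ⟨a₃ ^ 2 * derivative a₃ + a₁ * PC D ^ 2, ?_⟩
  unfold kD
  grind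

include hcop in
theorem coprime_kD : IsCoprime a₁ (kD a₁ a₃ D) := by
  obtain ⟨h, hh⟩ := sq_mod (a₁ := a₁) (a₃ := a₃) (D := D)
  have h1 : IsCoprime a₁ (a₃ ^ 3 * derivative a₁) :=
    (hcop.pow_right).mul_right (coprime_deriv hsq)
  have h2 : IsCoprime a₁ (kD a₁ a₃ D ^ 2) := by
    rw [hh]
    exact h1.add_mul_left_right h
  exact (IsCoprime.pow_right_iff (by norm_num)).mp h2

theorem E_C_dvd {x y : k[X]} (hs : a₁ ∣ y ^ 2 + X * x ^ 2) :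
    a₁ ∣ PE (a₁ * a₃) * x + PC (a₁ * a₃) * y := by
  apply dvd_of_sq hsq
  obtain ⟨s, hs⟩ := hs
  refine ⟨a₃ * x ^ 2 + PC (a₁ * a₃) ^ 2 * s, ?_⟩
  have h1 := PE_PC (a₁ * a₃)
  grind

/-- the form is `a₃² x²` modulo `a₁²` -/
theorem Qf_mod {x y : k[X]} (hs : a₁ ∣ y ^ 2 + X * x ^ 2) :
    ∃ h : k[X], Qf a₁ a₃ D Z x y = a₃ ^ 2 * x ^ 2 + a₁ ^ 2 * h := by
  obtain ⟨r, hr⟩ := E_C_dvd (a₃ := a₃) hsq hs
  obtain ⟨s, hs⟩ := hs
  refine ⟨a₃ * x * r + PE D * x ^ 2 + PC D * (x * y) + Z * s, ?_⟩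
  unfold Qf dD kD
  linear_combination (a₁ * a₃ * x) * hr + a₁ * Z * hs

include hcop in
/-- the odd part of the reduced form is divisible by `a₁` -/
theorem dvd_PC {x y G : k[X]} (hs : a₁ ∣ y ^ 2 + X * x ^ 2)
    (hG : Qf a₁ a₃ D Z x y = kD a₁ a₃ D ^ 2 * G) : a₁ ∣ PC G := by
  obtain ⟨h, hh⟩ := Qf_mod (a₃ := a₃) (D := D) (Z := Z) hsq hs
  have h1 : PC (kD a₁ a₃ D ^ 2 * G) = a₁ * PC h := by
    rw [← hG, hh, PC_add, PC_sq_mul, PC_sq_mul, PC_sq, mul_zero, zero_add]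
  rw [PC_sq_mul] at h1
  exact (coprime_kD hsq hcop).dvd_of_dvd_mul_left ⟨_, h1⟩

include hcop in
/-- the relation between the form and `S` modulo `a₁` -/
theorem dvd_S {x y G S : k[X]} (hS : y ^ 2 + X * x ^ 2 = a₁ * S)
    (hG : Qf a₁ a₃ D Z x y = kD a₁ a₃ D ^ 2 * G) : a₁ ∣ S + a₃ * PE G ^ 2 := by
  have h1 := dvd_PC (D := D) (Z := Z) hsq hcop ⟨S, hS⟩ hG
  obtain ⟨r, hr⟩ := h1
  obtain ⟨h, hh⟩ := Qf_mod (a₃ := a₃) (D := D) (Z := Z) hsq ⟨S, hS⟩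
  obtain ⟨g, hg⟩ := sq_mod (a₁ := a₁) (a₃ := a₃) (D := D)
  have hGE := PE_PC G
  have hder : x ^ 2 = derivative a₁ * S + a₁ * derivative S := by
    have h3 : (2 : k[X]) = 0 := CharTwo.two_eq_zero
    have h2 := congrArg derivative hS
    rw [derivative_add, derivative_mul, derivative_pow, derivative_pow, derivative_X,
      derivative_mul] at h2
    simp only [Nat.cast_ofNat, map_ofNat, h3] at h2
    linear_combination h2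
  have hcc : IsCoprime a₁ (kD a₁ a₃ D ^ 2) := (coprime_kD hsq hcop).pow_right
  apply hcc.dvd_of_dvd_mul_left
  -- `κ² (S + a₃ E²) = a₁ * ...`
  refine ⟨g * S + a₃ ^ 3 * derivative S + a₃ * (a₁ * h) + a₃ * kD a₁ a₃ D ^ 2 * X * a₁ * r ^ 2, ?_⟩
  have e1 : kD a₁ a₃ D ^ 2 * G = a₃ ^ 2 * x ^ 2 + a₁ ^ 2 * h := by rw [← hG, hh]
  have e2 : kD a₁ a₃ D ^ 2 * PE G ^ 2 = a₃ ^ 2 * x ^ 2 + a₁ ^ 2 * h
      + kD a₁ a₃ D ^ 2 * X * (a₁ * r) ^ 2 := by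
    rw [← e1, ← hr]
    grind
  have e3 : kD a₁ a₃ D ^ 2 * S = (a₃ ^ 3 * derivative a₁ + a₁ * g) * S := by rw [hg]
  rw [mul_add, e3]
  have e4 : kD a₁ a₃ D ^ 2 * (a₃ * PE G ^ 2) = a₃ * (kD a₁ a₃ D ^ 2 * PE G ^ 2) := by ring
  rw [e4, e2, hder]
  grind

end Sq

/-! ## Degrees -/

omit [Finite k] [CharP k 2] in
theorem degree_sum (a b : k[X]) :
    (a ^ 2 + X * b ^ 2).degree = max (a ^ 2).degree (X * b ^ 2).degree := by
  by_cases hb : b = 0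
  · rw [hb]; simp
  by_cases ha : a = 0
  · rw [ha]; simp
  have h1 : (a ^ 2).degree ≠ (X * b ^ 2).degree := by
    rw [degree_eq_natDegree (pow_ne_zero 2 ha),
      degree_eq_natDegree (mul_ne_zero X_ne_zero (pow_ne_zero 2 hb)), natDegree_pow,
      natDegree_mul X_ne_zero (pow_ne_zero 2 hb), natDegree_X, natDegree_pow]
    intro h
    have := Nat.cast_injective (R := WithBot ℕ) h
    omega
  rcases lt_or_gt_of_ne h1 with h | h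
  · rw [degree_add_eq_right_of_degree_lt h, max_eq_right h.le]
  · rw [degree_add_eq_left_of_degree_lt h, max_eq_left h.le]

omit [Finite k] [CharP k 2] in
theorem degree_lt_of_sq {a : k[X]} {N : ℕ} (h : (a ^ 2).degree < N) :
    a.degree < ((N + 1) / 2 : ℕ) := by
  by_cases ha : a = 0
  · rw [ha, degree_zero]; exact WithBot.bot_lt_coe _
  rw [degree_eq_natDegree (pow_ne_zero 2 ha), natDegree_pow] at h
  rw [degree_eq_natDegree ha]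
  have h1 : 2 * a.natDegree < N := by exact_mod_cast h
  have h2 : a.natDegree < (N + 1) / 2 := by omega
  exact_mod_cast h2

omit [Finite k] [CharP k 2] in
theorem degree_lt_of_X_sq {a : k[X]} {N : ℕ}
    (h : ((X : k[X]) * a ^ 2).degree < (N : WithBot ℕ)) :
    a.degree < (N / 2 : ℕ) := by
  by_cases ha : a = 0
  · rw [ha, degree_zero]; exact WithBot.bot_lt_coe _
  rw [degree_eq_natDegree (mul_ne_zero X_ne_zero (pow_ne_zero 2 ha)),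
    natDegree_mul X_ne_zero (pow_ne_zero 2 ha), natDegree_X, natDegree_pow] at h
  rw [degree_eq_natDegree ha]
  have h1 : 1 + 2 * a.natDegree < N := by exact_mod_cast h
  have h2 : a.natDegree < N / 2 := by omega
  exact_mod_cast h2

theorem degree_PE {p : k[X]} {N : ℕ} (h : p.degree < N) : (PE p).degree < ((N + 1) / 2 : ℕ) := by
  rw [PE_PC p, degree_sum] at h
  exact degree_lt_of_sq (lt_of_le_of_lt (le_max_left _ _) h)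

theorem degree_PC {p : k[X]} {N : ℕ} (h : p.degree < N) : (PC p).degree < (N / 2 : ℕ) := by
  rw [PE_PC p, degree_sum] at h
  exact degree_lt_of_X_sq (lt_of_le_of_lt (le_max_right _ _) h)

omit [Finite k] [CharP k 2] in
theorem degree_div {a b : k[X]} {n N : ℕ} (ha : a.natDegree = n) (ha0 : a ≠ 0)
    (h : (a * b).degree < (N + n : ℕ)) : b.degree < N := by
  by_cases hb : b = 0
  · rw [hb, degree_zero]; exact WithBot.bot_lt_coe _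
  rw [degree_eq_natDegree (mul_ne_zero ha0 hb), natDegree_mul ha0 hb, ha] at h
  rw [degree_eq_natDegree hb]
  have h1 : n + b.natDegree < N + n := by exact_mod_cast h
  have h2 : b.natDegree < N := by omega
  exact_mod_cast h2

omit [Finite k] [CharP k 2] in
theorem eq_zero_of_dvd_degree {a b : k[X]} (h : a ∣ b) (hb : b.degree < (a.natDegree : ℕ)) :
    b = 0 := by
  by_contra h0
  have h1 := natDegree_le_of_dvd h h0
  rw [degree_eq_natDegree h0] at hb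
  have : b.natDegree < a.natDegree := by exact_mod_cast hb
  omega

/-- a reduced pair of type `m` for `(D, Z)` -/
structure Quad (a₁ a₃ : k[X]) (d m : ℕ) (D Z x₁ y₁ x₂ y₂ : k[X]) : Prop where
  wedge : x₁ * y₂ + x₂ * y₁ = a₁ * kD a₁ a₃ D
  s₁ : a₁ ∣ y₁ ^ 2 + X * x₁ ^ 2
  s₂ : a₁ ∣ y₂ ^ 2 + X * x₂ ^ 2
  g₁ : ∃ G : k[X], Qf a₁ a₃ D Z x₁ y₁ = kD a₁ a₃ D ^ 2 * G ∧ G.degree < (2 * (d - m) + 1 : ℕ)
  g₂ : ∃ G : k[X], Qf a₁ a₃ D Z x₂ y₂ = kD a₁ a₃ D ^ 2 * G ∧ G.degree < (2 * (d + m) + 1 : ℕ)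
  dx₁ : x₁.degree < (3 * d - m : ℕ)
  dy₁ : y₁.degree < (3 * d - m + 1 : ℕ)
  dx₂ : x₂.degree < (3 * d + m : ℕ)
  dy₂ : y₂.degree < (3 * d + m + 1 : ℕ)

/-- the parameters of a reduced pair -/
structure Params (a₁ a₃ : k[X]) (d m : ℕ) (D Z x₁ y₁ x₂ y₂ B₀ A₀ A₁ R₁ R₂ : k[X]) : Prop where
  g₁ : Qf a₁ a₃ D Z x₁ y₁ = kD a₁ a₃ D ^ 2 * B₀ ^ 2
  g₂ : Qf a₁ a₃ D Z x₂ y₂ = kD a₁ a₃ D ^ 2 * (A₀ ^ 2 + X * (a₁ * A₁) ^ 2)
  s₁ : y₁ ^ 2 + X * x₁ ^ 2 = a₁ * (a₃ * B₀ ^ 2 + a₁ * R₁)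
  s₂ : y₂ ^ 2 + X * x₂ ^ 2 = a₁ * (a₃ * A₀ ^ 2 + a₁ * R₂)
  dB₀ : B₀.degree < (d - m + 1 : ℕ)
  dA₀ : A₀.degree < (d + m + 1 : ℕ)
  dA₁ : A₁.degree < (m : ℕ)
  dR₁ : R₁.degree < (4 * d - 2 * m + 1 : ℕ)
  dR₂ : R₂.degree < (4 * d + 2 * m + 1 : ℕ)

omit [Finite k] [CharP k 2] in
theorem degree_add_lt' {a b : k[X]} {N : ℕ} (ha : a.degree < N) (hb : b.degree < N) :
    (a + b).degree < N := lt_of_le_of_lt (degree_add_le _ _) (max_lt ha hb)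

omit [Finite k] [CharP k 2] in
theorem degree_mul_lt' {a b : k[X]} {M N : ℕ} (ha : a.degree < (M + 1 : ℕ)) (hb : b.degree < N) :
    (a * b).degree < (M + N : ℕ) := by
  by_cases ha0 : a = 0
  · rw [ha0, zero_mul, degree_zero]; exact WithBot.bot_lt_coe _
  by_cases hb0 : b = 0
  · rw [hb0, mul_zero, degree_zero]; exact WithBot.bot_lt_coe _
  rw [degree_eq_natDegree ha0] at ha
  rw [degree_eq_natDegree hb0] at hb
  rw [degree_eq_natDegree (mul_ne_zero ha0 hb0), natDegree_mul ha0 hb0]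
  have h1 : a.natDegree < M + 1 := by exact_mod_cast ha
  have h2 : b.natDegree < N := by exact_mod_cast hb
  have h3 : a.natDegree + b.natDegree < M + N := by omega
  exact_mod_cast h3

theorem exists_params (hsq : Squarefree a₁) (hcop : IsCoprime a₁ a₃) {d m : ℕ} (hd : 1 ≤ d)
    (hm : m ≤ d) (ha₁ : a₁.natDegree = d) (ha₃ : a₃.degree < (3 * d + 1 : ℕ))
    {x₁ y₁ x₂ y₂ : k[X]} (hq : Quad a₁ a₃ d m D Z x₁ y₁ x₂ y₂) :
    ∃ B₀ A₀ A₁ R₁ R₂ : k[X], Params a₁ a₃ d m D Z x₁ y₁ x₂ y₂ B₀ A₀ A₁ R₁ R₂ := by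
  have ha0 : a₁ ≠ 0 := hsq.ne_zero
  obtain ⟨G₁, hG₁, dG₁⟩ := hq.g₁
  obtain ⟨G₂, hG₂, dG₂⟩ := hq.g₂
  have p1 := dvd_PC hsq hcop hq.s₁ hG₁
  have p2 := dvd_PC hsq hcop hq.s₂ hG₂
  have z1 : PC G₁ = 0 := by
    apply eq_zero_of_dvd_degree p1
    refine lt_of_lt_of_le (degree_PC dG₁) ?_
    rw [ha₁]
    have : (2 * (d - m) + 1) / 2 ≤ d := by omega
    exact_mod_cast this
  obtain ⟨A₁, hA₁⟩ := p2
  obtain ⟨S₁, hS₁⟩ := hq.s₁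
  obtain ⟨S₂, hS₂⟩ := hq.s₂
  obtain ⟨R₁, hR₁⟩ := dvd_S hsq hcop hS₁ hG₁
  obtain ⟨R₂, hR₂⟩ := dvd_S hsq hcop hS₂ hG₂
  have dE₁ : (PE G₁).degree < (d - m + 1 : ℕ) := by
    have := degree_PE dG₁
    have e : (2 * (d - m) + 1 + 1) / 2 = d - m + 1 := by omega
    rwa [e] at this
  have dE₂ : (PE G₂).degree < (d + m + 1 : ℕ) := by
    have := degree_PE dG₂
    have e : (2 * (d + m) + 1 + 1) / 2 = d + m + 1 := by omega
    rwa [e] at this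
  have dC₂ : (PC G₂).degree < (m + d : ℕ) := by
    have := degree_PC dG₂
    have e : (2 * (d + m) + 1) / 2 = m + d := by omega
    rwa [e] at this
  have key : ∀ {x y S G R : k[X]} {N M : ℕ}, y ^ 2 + X * x ^ 2 = a₁ * S →
      S + a₃ * PE G ^ 2 = a₁ * R → x.degree < N → y.degree < (N + 1 : ℕ) →
      (PE G).degree < (M + 1 : ℕ) → 2 * N = 5 * d + 2 * (M - d) - d + d → True := by
    intros; trivial
  clear key
  have dS₁ : S₁.degree < (5 * d - 2 * m + 1 : ℕ) := by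
    apply degree_div ha₁ ha0
    rw [← hS₁]
    apply degree_add_lt'
    · have h1 := degree_mul_lt' (M := 3 * d - m) (N := 3 * d - m + 1) hq.dy₁ hq.dy₁
      rw [← pow_two] at h1
      have e : 3 * d - m + (3 * d - m + 1) = 5 * d - 2 * m + 1 + d := by omega
      rwa [e] at h1
    · have h1 := degree_mul_lt' (M := 3 * d - m - 1) (N := 3 * d - m)
        (by rw [show 3 * d - m - 1 + 1 = 3 * d - m by omega]; exact hq.dx₁) hq.dx₁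
      rw [← pow_two] at h1
      have h2 := degree_mul_lt' (M := 1) (a := X) (by rw [degree_X]; norm_num) h1
      refine lt_of_lt_of_le h2 ?_
      have : 1 + (3 * d - m - 1 + (3 * d - m)) ≤ 5 * d - 2 * m + 1 + d := by omega
      exact_mod_cast this
  have dS₂ : S₂.degree < (5 * d + 2 * m + 1 : ℕ) := by
    apply degree_div ha₁ ha0
    rw [← hS₂]
    apply degree_add_lt'
    · have h1 := degree_mul_lt' (M := 3 * d + m) (N := 3 * d + m + 1) hq.dy₂ hq.dy₂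
      rw [← pow_two] at h1
      have e : 3 * d + m + (3 * d + m + 1) = 5 * d + 2 * m + 1 + d := by omega
      rwa [e] at h1
    · have h1 := degree_mul_lt' (M := 3 * d + m - 1) (N := 3 * d + m)
        (by rw [show 3 * d + m - 1 + 1 = 3 * d + m by omega]; exact hq.dx₂) hq.dx₂
      rw [← pow_two] at h1
      have h2 := degree_mul_lt' (M := 1) (a := X) (by rw [degree_X]; norm_num) h1
      refine lt_of_lt_of_le h2 ?_
      have : 1 + (3 * d + m - 1 + (3 * d + m)) ≤ 5 * d + 2 * m + 1 + d := by omega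
      exact_mod_cast this
  refine ⟨PE G₁, PE G₂, A₁, R₁, R₂, ?_, ?_, ?_, ?_, dE₁, dE₂, ?_, ?_, ?_⟩
  · rw [hG₁]
    congr 1
    have := PE_PC G₁
    rw [z1] at this
    linear_combination this
  · rw [hG₂, ← hA₁, ← PE_PC G₂]
  · rw [hS₁, ← hR₁]; grind
  · rw [hS₂, ← hR₂]; grind
  · rw [hA₁] at dC₂
    exact degree_div ha₁ ha0 dC₂
  · apply degree_div ha₁ ha0
    rw [← hR₁]
    apply degree_add_lt'
    · refine lt_of_lt_of_le dS₁ ?_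
      have : 5 * d - 2 * m + 1 ≤ 4 * d - 2 * m + 1 + d := by omega
      exact_mod_cast this
    · have h1 := degree_mul_lt' (M := d - m) (N := d - m + 1) dE₁ dE₁
      rw [← pow_two] at h1
      have h2 := degree_mul_lt' (M := 3 * d) (a := a₃) ha₃ h1
      refine lt_of_lt_of_le h2 ?_
      have : 3 * d + (d - m + (d - m + 1)) ≤ 4 * d - 2 * m + 1 + d := by omega
      exact_mod_cast this
  · apply degree_div ha₁ ha0
    rw [← hR₂]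
    apply degree_add_lt'
    · refine lt_of_lt_of_le dS₂ ?_
      have : 5 * d + 2 * m + 1 ≤ 4 * d + 2 * m + 1 + d := by omega
      exact_mod_cast this
    · have h1 := degree_mul_lt' (M := d + m) (N := d + m + 1) dE₂ dE₂
      rw [← pow_two] at h1
      have h2 := degree_mul_lt' (M := 3 * d) (a := a₃) ha₃ h1
      refine lt_of_lt_of_le h2 ?_
      have : 3 * d + (d + m + (d + m + 1)) ≤ 4 * d + 2 * m + 1 + d := by omega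
      exact_mod_cast this

/-- the basic identity -/
theorem params_disc (ha0 : a₁ ≠ 0) (hk0 : kD a₁ a₃ D ≠ 0) {x₁ y₁ x₂ y₂ S₁ S₂ γ α : k[X]}
    (hw : x₁ * y₂ + x₂ * y₁ = a₁ * kD a₁ a₃ D)
    (h₁ : Qf a₁ a₃ D Z x₁ y₁ = kD a₁ a₃ D ^ 2 * γ) (h₂ : Qf a₁ a₃ D Z x₂ y₂ = kD a₁ a₃ D ^ 2 * α)
    (s₁ : y₁ ^ 2 + X * x₁ ^ 2 = a₁ * S₁) (s₂ : y₂ ^ 2 + X * x₂ ^ 2 = a₁ * S₂) :
    a₁ ^ 2 * (a₃ ^ 4 + a₁ ^ 3 * a₃ ^ 3 + a₁ ^ 4 * D)
      = (α * S₁ + γ * S₂) ^ 2 + a₁ ^ 4 * (S₁ * S₂) := by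
  have hne : kD a₁ a₃ D ^ 4 * a₁ ^ 2 ≠ 0 := mul_ne_zero (pow_ne_zero 4 hk0) (pow_ne_zero 2 ha0)
  apply mul_left_cancel₀ hne
  rw [disc_D]
  have e : kD a₁ a₃ D ^ 4 * a₁ ^ 2 * ((α * S₁ + γ * S₂) ^ 2 + a₁ ^ 4 * (S₁ * S₂))
    = ((kD a₁ a₃ D ^ 2 * α) * (a₁ * S₁) + (kD a₁ a₃ D ^ 2 * γ) * (a₁ * S₂)) ^ 2
      + (a₁ * kD a₁ a₃ D) ^ 4 * ((a₁ * S₁) * (a₁ * S₂)) := by ring
  rw [e, ← h₁, ← h₂, ← s₁, ← s₂]
  have e2 : kD a₁ a₃ D ^ 4 * a₁ ^ 2 * (a₁ ^ 2 * (dD a₁ a₃ D ^ 2 + X * (a₁ * kD a₁ a₃ D) ^ 2))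
    = (a₁ * kD a₁ a₃ D) ^ 4 * (dD a₁ a₃ D ^ 2 + X * (a₁ * kD a₁ a₃ D) ^ 2) := by ring
  rw [e2]
  unfold Qf
  generalize dD a₁ a₃ D = δ
  generalize a₁ * kD a₁ a₃ D = w at *
  generalize a₁ * Z = c at *
  rw [← hw]
  grind

/-- the congruence satisfied by the parameters -/
theorem params_cong (hsq : Squarefree a₁) (hk0 : kD a₁ a₃ D ≠ 0) {d m : ℕ}
    {x₁ y₁ x₂ y₂ B₀ A₀ A₁ R₁ R₂ : k[X]} (hw : x₁ * y₂ + x₂ * y₁ = a₁ * kD a₁ a₃ D)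
    (hp : Params a₁ a₃ d m D Z x₁ y₁ x₂ y₂ B₀ A₀ A₁ R₁ R₂) :
    a₁ ^ 2 ∣ A₀ ^ 2 * R₁ + B₀ ^ 2 * R₂ + X * a₁ * A₁ ^ 2 * (a₃ * B₀ ^ 2 + a₁ * R₁)
      + a₃ ^ 2 + a₁ * a₃ * (A₀ * B₀) := by
  have ha0 : a₁ ≠ 0 := hsq.ne_zero
  have h1 := params_disc ha0 hk0 hw hp.g₁ hp.g₂ hp.s₁ hp.s₂
  obtain ⟨As, hAs⟩ : ∃ As, As = A₀ ^ 2 * R₁ + B₀ ^ 2 * R₂
      + X * a₁ * A₁ ^ 2 * (a₃ * B₀ ^ 2 + a₁ * R₁) := ⟨_, rfl⟩
  have h2 : (A₀ ^ 2 + X * (a₁ * A₁) ^ 2) * (a₃ * B₀ ^ 2 + a₁ * R₁)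
      + B₀ ^ 2 * (a₃ * A₀ ^ 2 + a₁ * R₂) = a₁ * As := by
    rw [hAs]; grind
  rw [h2] at h1
  obtain ⟨S₁, hS₁⟩ : ∃ S, S = a₃ * B₀ ^ 2 + a₁ * R₁ := ⟨_, rfl⟩
  obtain ⟨S₂, hS₂⟩ : ∃ S, S = a₃ * A₀ ^ 2 + a₁ * R₂ := ⟨_, rfl⟩
  rw [← hS₁, ← hS₂] at h1
  rw [← hAs]
  have ha2 : a₁ ^ 2 ≠ 0 := pow_ne_zero 2 ha0
  have h3 : (As + a₃ ^ 2) ^ 2 = a₁ ^ 2 * (S₁ * S₂ + a₁ * a₃ ^ 3 + a₁ ^ 2 * D) := by
    apply mul_left_cancel₀ ha2
    have e : a₁ ^ 2 * (As + a₃ ^ 2) ^ 2 = (a₁ * As) ^ 2 + a₁ ^ 2 * a₃ ^ 4 := by grind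
    have e2 : (a₁ * As) ^ 2 = a₁ ^ 2 * (a₃ ^ 4 + a₁ ^ 3 * a₃ ^ 3 + a₁ ^ 4 * D)
        + a₁ ^ 4 * (S₁ * S₂) := by
      rw [h1, add_assoc, CharTwo.add_self_eq_zero, add_zero]
    rw [e, e2]
    linear_combination (a₁ ^ 2 * a₃ ^ 4) * (CharTwo.two_eq_zero : (2 : k[X]) = 0)
  have h4 : a₁ ∣ As + a₃ ^ 2 := (IsIntegrallyClosed.pow_dvd_pow_iff two_ne_zero).mp ⟨_, h3⟩
  obtain ⟨T, hT⟩ := h4
  have h5 : T ^ 2 = S₁ * S₂ + a₁ * a₃ ^ 3 + a₁ ^ 2 * D := by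
    apply mul_left_cancel₀ ha2
    rw [← h3, hT]; ring
  have h6 : a₁ ∣ T + a₃ * (A₀ * B₀) := by
    apply dvd_of_sq hsq
    refine ⟨a₃ * (B₀ ^ 2 * R₂ + A₀ ^ 2 * R₁) + a₁ * (R₁ * R₂) + a₃ ^ 3 + a₁ * D, ?_⟩
    have e : (T + a₃ * (A₀ * B₀)) ^ 2 = T ^ 2 + a₃ ^ 2 * (A₀ * B₀) ^ 2 := by grind
    rw [e, h5, hS₁, hS₂]; grind
  obtain ⟨U, hU⟩ := h6
  refine ⟨U, ?_⟩
  have : As + a₃ ^ 2 + a₁ * a₃ * (A₀ * B₀) = a₁ * (T + a₃ * (A₀ * B₀)) := by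
    rw [hT]; ring
  rw [this, hU]; ring

omit [Finite k] in
theorem sum_uniq {a b a' b' : k[X]} (h : a ^ 2 + X * b ^ 2 = a' ^ 2 + X * b' ^ 2) :
    a = a' ∧ b = b' := by
  have h2 : (a + a') ^ 2 + X * (b + b') ^ 2 = 0 := by grind
  have h3 := poly_uniq _ _ h2
  have h4 : b = b' := by grind
  refine ⟨poly_sq_inj (?_ : a ^ 2 = a' ^ 2), h4⟩
  rw [h4] at h
  exact add_right_cancel h

/-- the parameters determine everything -/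
theorem params_inj (ha0 : a₁ ≠ 0) {d m : ℕ} {D' Z' x₁ y₁ x₂ y₂ x₁' y₁' x₂' y₂' B₀ A₀ A₁ R₁ R₂ : k[X]}
    (hk0 : kD a₁ a₃ D ≠ 0)
    (hw : x₁ * y₂ + x₂ * y₁ = a₁ * kD a₁ a₃ D) (hw' : x₁' * y₂' + x₂' * y₁' = a₁ * kD a₁ a₃ D')
    (hp : Params a₁ a₃ d m D Z x₁ y₁ x₂ y₂ B₀ A₀ A₁ R₁ R₂)
    (hp' : Params a₁ a₃ d m D' Z' x₁' y₁' x₂' y₂' B₀ A₀ A₁ R₁ R₂) :
    D = D' ∧ Z = Z' ∧ x₁ = x₁' ∧ y₁ = y₁' ∧ x₂ = x₂' ∧ y₂ = y₂' := by
  obtain ⟨rfl, rfl⟩ := sum_uniq (hp.s₁.trans hp'.s₁.symm)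
  obtain ⟨rfl, rfl⟩ := sum_uniq (hp.s₂.trans hp'.s₂.symm)
  have hkk : kD a₁ a₃ D = kD a₁ a₃ D' := mul_left_cancel₀ ha0 (hw.symm.trans hw')
  have h1 := hp.g₁
  have h2 := hp.g₂
  rw [hkk, ← hp'.g₁] at h1
  rw [hkk, ← hp'.g₂] at h2
  unfold Qf at h1 h2
  rw [hkk] at h1 h2
  have hw0 : x₁ * y₂ + x₂ * y₁ ≠ 0 := by rw [hw]; exact mul_ne_zero ha0 hk0
  -- set up the linear system
  obtain ⟨p, hp1⟩ : ∃ p, p = (dD a₁ a₃ D + X * (a₁ * Z)) + (dD a₁ a₃ D' + X * (a₁ * Z')) :=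
    ⟨_, rfl⟩
  obtain ⟨q, hq1⟩ : ∃ q, q = a₁ * Z + a₁ * Z' := ⟨_, rfl⟩
  have e1 : p * x₁ ^ 2 + q * y₁ ^ 2 = 0 := by rw [hp1, hq1]; grind
  have e2 : p * x₂ ^ 2 + q * y₂ ^ 2 = 0 := by rw [hp1, hq1]; grind
  have e3 : q * (x₁ * y₂ + x₂ * y₁) ^ 2 = 0 := by grind
  have hq0 : q = 0 := (mul_eq_zero.mp e3).resolve_right (pow_ne_zero 2 hw0)
  have hZ : Z = Z' := by
    apply mul_left_cancel₀ ha0
    rw [hq0] at hq1
    grind
  have e4 : p * (x₁ * y₂ + x₂ * y₁) ^ 2 = 0 := by grind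
  have hp0 : p = 0 := (mul_eq_zero.mp e4).resolve_right (pow_ne_zero 2 hw0)
  have hdd : dD a₁ a₃ D = dD a₁ a₃ D' := by
    rw [hp0, hZ] at hp1
    grind
  have hE : PE D = PE D' := by
    unfold dD at hdd
    apply mul_left_cancel₀ (pow_ne_zero 2 ha0)
    exact add_left_cancel hdd
  have hC : PC D = PC D' := by
    unfold kD at hkk
    apply mul_left_cancel₀ ha0
    exact add_left_cancel hkk
  refine ⟨?_, hZ, rfl, rfl, rfl, rfl⟩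
  rw [PE_PC D, PE_PC D', hE, hC]

end Pool.Agent.H2
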