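import Mathlib

/-!
# Fields of characteristic two with a 2-basis of one element

`TwoBasis τ` says that every element of the field is `a ^ 2 + τ * b ^ 2` for unique `a`, `b`.
-/

namespace Pool.Agent.H2

/-- `τ` is a 2-basis of the field `L` of characteristic two. -/
structure TwoBasis {L : Type*} [Field L] (τ : L) : Prop where
  two : (2 : L) = 0
  ex : ∀ u : L, ∃ a b : L, u = a ^ 2 + τ * b ^ 2
  uniq : ∀ a b : L, a ^ 2 + τ * b ^ 2 = 0 → b = 0

namespace TwoBasis

variable {L : Type*} [Field L] {τ : L} (h : TwoBasis τ)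
include h

theorem charP : CharP L 2 := by
  have : ringChar L ∣ 2 := (ringChar.spec L 2).mp (by exact_mod_cast h.two)
  rcases (Nat.dvd_prime Nat.prime_two).mp this with h1 | h1
  · exact absurd h1 CharP.ringChar_ne_one
  · exact h1 ▸ ringChar.charP L

omit h in
/-- The even part. -/
noncomputable def E (h : TwoBasis τ) (u : L) : L := (h.ex u).choose

omit h in
/-- The odd part. -/
noncomputable def C (h : TwoBasis τ) (u : L) : L := (h.ex u).choose_spec.choose

omit h in
/-- The derivation with respect to `τ`. -/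
noncomputable def D (h : TwoBasis τ) (u : L) : L := (h.C u) ^ 2

theorem spec (u : L) : u = h.E u ^ 2 + τ * h.C u ^ 2 := (h.ex u).choose_spec.choose_spec

theorem spec' (u : L) : h.E u ^ 2 + τ * h.C u ^ 2 = u := (h.spec u).symm

theorem tau_ne_zero : τ ≠ 0 := by
  intro h0
  have := h.uniq 0 1 (by rw [h0]; ring)
  exact one_ne_zero this

theorem eq_of {a b a' b' : L} (he : a ^ 2 + τ * b ^ 2 = a' ^ 2 + τ * b' ^ 2) : a = a' ∧ b = b' := by
  have := h.charP
  have h1 : (a + a') ^ 2 + τ * (b + b') ^ 2 = 0 := by grind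
  have h2 : b + b' = 0 := h.uniq _ _ h1
  have h3 : a + a' = 0 := by
    rw [h2] at h1
    have : (a + a') ^ 2 = 0 := by linear_combination h1
    exact pow_eq_zero_iff (two_ne_zero) |>.mp this
  constructor
  · grind
  · grind

theorem E_eq {u a b : L} (hu : u = a ^ 2 + τ * b ^ 2) : h.E u = a :=
  (h.eq_of ((h.spec' u).trans hu)).1

theorem C_eq {u a b : L} (hu : u = a ^ 2 + τ * b ^ 2) : h.C u = b :=
  (h.eq_of ((h.spec' u).trans hu)).2

theorem sq_inj {a b : L} (hab : a ^ 2 = b ^ 2) : a = b := by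
  have := h.charP
  have : (a + b) ^ 2 = 0 := by grind
  have : a + b = 0 := pow_eq_zero_iff (two_ne_zero) |>.mp this
  grind

@[simp] theorem E_zero : h.E 0 = 0 := h.E_eq (b := 0) (by ring)
@[simp] theorem C_zero : h.C 0 = 0 := h.C_eq (a := 0) (by ring)
@[simp] theorem E_one : h.E 1 = 1 := h.E_eq (b := 0) (by ring)
@[simp] theorem C_one : h.C 1 = 0 := h.C_eq (a := 1) (by ring)
@[simp] theorem E_tau : h.E τ = 0 := h.E_eq (b := 1) (by ring)
@[simp] theorem C_tau : h.C τ = 1 := h.C_eq (a := 0) (by ring)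
@[simp] theorem E_sq (a : L) : h.E (a ^ 2) = a := h.E_eq (b := 0) (by ring)
@[simp] theorem C_sq (a : L) : h.C (a ^ 2) = 0 := h.C_eq (a := a) (by ring)

theorem E_add (u v : L) : h.E (u + v) = h.E u + h.E v := by
  have := h.charP
  refine h.E_eq (b := h.C u + h.C v) ?_
  have h1 := h.spec u
  have h2 := h.spec v
  grind

theorem C_add (u v : L) : h.C (u + v) = h.C u + h.C v := by
  have := h.charP
  refine h.C_eq (a := h.E u + h.E v) ?_
  have h1 := h.spec u
  have h2 := h.spec v
  grind

theorem E_mul (u v : L) : h.E (u * v) = h.E u * h.E v + τ * (h.C u * h.C v) := by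
  have := h.charP
  refine h.E_eq (b := h.E u * h.C v + h.C u * h.E v) ?_
  have h1 := h.spec u
  have h2 := h.spec v
  grind

theorem C_mul (u v : L) : h.C (u * v) = h.E u * h.C v + h.C u * h.E v := by
  have := h.charP
  refine h.C_eq (a := h.E u * h.E v + τ * (h.C u * h.C v)) ?_
  have h1 := h.spec u
  have h2 := h.spec v
  grind

theorem E_sq_mul (a u : L) : h.E (a ^ 2 * u) = a * h.E u := by
  rw [h.E_mul, h.E_sq, h.C_sq]; ring

theorem C_sq_mul (a u : L) : h.C (a ^ 2 * u) = a * h.C u := by
  rw [h.C_mul, h.E_sq, h.C_sq]; ring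

theorem D_add (u v : L) : h.D (u + v) = h.D u + h.D v := by
  have := h.charP
  unfold D
  rw [h.C_add]
  grind

theorem D_mul (u v : L) : h.D (u * v) = u * h.D v + v * h.D u := by
  have := h.charP
  unfold D
  rw [h.C_mul]
  have h1 := h.spec u
  have h2 := h.spec v
  grind

@[simp] theorem D_sq (a : L) : h.D (a ^ 2) = 0 := by
  unfold D; rw [h.C_sq]; ring

theorem D_sq_mul (a u : L) : h.D (a ^ 2 * u) = a ^ 2 * h.D u := by
  unfold D; rw [h.C_sq_mul]; ring

@[simp] theorem D_zero : h.D 0 = 0 := by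
  unfold D; rw [h.C_zero]; ring

@[simp] theorem D_one : h.D 1 = 0 := by
  unfold D; rw [h.C_one]; ring

/-- The logarithmic derivative is additive. -/
theorem dlog_mul {u v : L} (hu : u ≠ 0) (hv : v ≠ 0) :
    h.D (u * v) / (u * v) = h.D u / u + h.D v / v := by
  rw [h.D_mul]; field_simp; ring

omit h in
/-- Compatibility with field maps. -/
theorem map_E {L' : Type*} [Field L'] {τ' : L'} (h : TwoBasis τ) (h' : TwoBasis τ') (f : L →+* L')
    (hf : f τ = τ') (u : L) : f (h.E u) = h'.E (f u) := by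
  symm
  refine h'.E_eq (b := f (h.C u)) ?_
  rw [← hf, ← map_pow, ← map_pow, ← map_mul, ← map_add, h.spec']

omit h in
theorem map_C {L' : Type*} [Field L'] {τ' : L'} (h : TwoBasis τ) (h' : TwoBasis τ') (f : L →+* L')
    (hf : f τ = τ') (u : L) : f (h.C u) = h'.C (f u) := by
  symm
  refine h'.C_eq (a := f (h.E u)) ?_
  rw [← hf, ← map_pow, ← map_pow, ← map_mul, ← map_add, h.spec']

/-- The inverse of a 2-basis is a 2-basis. -/
theorem inv : TwoBasis τ⁻¹ where
  two := h.two
  ex u := ⟨h.E u, τ * h.C u, by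
    have := h.tau_ne_zero
    have h1 := h.spec u
    field_simp
    linear_combination h1⟩
  uniq a b hab := by
    have h0 := h.tau_ne_zero
    have := h.uniq a (τ⁻¹ * b) (by
      field_simp
      field_simp at hab
      exact hab)
    simpa [h0] using this

theorem E_inv (u : L) : h.inv.E u = h.E u := by
  refine h.inv.E_eq (b := τ * h.C u) ?_
  have := h.tau_ne_zero
  have h1 := h.spec u
  field_simp
  linear_combination h1

theorem C_inv (u : L) : h.inv.C u = τ * h.C u := by
  refine h.inv.C_eq (a := h.E u) ?_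
  have := h.tau_ne_zero
  have h1 := h.spec u
  field_simp
  linear_combination h1

end TwoBasis

end Pool.Agent.H2
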