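import Pool.Agent.H2.Orbit
import Pool.Agent.H2.Euler

/-!
# Number of pairs of a given type
-/

namespace Pool.Agent.H2

open Polynomial

universe u

variable {k : Type u} [Field k] [Finite k] [CharP k 2] {a₁ a₃ : k[X]} {d m : ℕ}

theorem exists_GT (hd : 1 ≤ d) (hm : m ≤ d) (hsq : Squarefree a₁) (hcop : IsCoprime a₁ a₃)
    (ha₁ : a₁.natDegree = d) (ha₃ : a₃.degree < ((3 * d + 1 : ℕ) : WithBot ℕ))
    (S₁ S₀ : Finset (IrrM k)) (h1 : ∀ P ∈ S₁, IsCoprime a₁ P.1) (h0 : ∀ P ∈ S₀, P.1 ∣ a₁)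
    (t : TT a₁ a₃ d m) :
    ∃ w : Bx k m × (Pr k (d + m + 1) (d - m + 1) × Pr k (4 * d - 2 * m + 1) (4 * d + 2 * m + 1)),
      GT a₁ a₃ d m S₁ S₀ w.1.1 w.2 ∧ Params a₁ a₃ d m t.1.1.1 t.1.1.2 t.1.2.1.1 t.1.2.1.2
        t.1.2.2.1 t.1.2.2.2 w.2.1.2.1 w.2.1.1.1 w.1.1 w.2.2.1.1 w.2.2.2.1 := by
  obtain ⟨t, hG, hq⟩ := t
  have hk0 : kD a₁ a₃ t.1.1 ≠ 0 := Gd.kne hd hsq hcop ha₁
  obtain ⟨B₀, A₀, A₁, R₁, R₂, hp⟩ := exists_params hsq hcop hd hm ha₁ ha₃ hq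
  have hstar := params_cong hsq hk0 hq.wedge hp
  refine ⟨(⟨A₁, mem_degreeLT.mpr hp.dA₁⟩, ((⟨A₀, mem_degreeLT.mpr hp.dA₀⟩,
    ⟨B₀, mem_degreeLT.mpr hp.dB₀⟩), (⟨R₁, mem_degreeLT.mpr hp.dR₁⟩,
    ⟨R₂, mem_degreeLT.mpr hp.dR₂⟩))), ⟨hstar, ?_, ?_, ?_⟩, hp⟩
  · intro P hP
    exact not_bad_fin hsq.ne_zero hk0 hq.wedge hp hG.cop P (h1 P hP)
  · intro P hP
    exact not_both hcop hstar P (h0 P hP)
  · exact not_bad_inf hd hm ha₁ hsq.ne_zero ha₃ hk0 hq.wedge hp hG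

theorem exists_emb (hd : 1 ≤ d) (hm : m ≤ d) (hsq : Squarefree a₁) (hcop : IsCoprime a₁ a₃)
    (ha₁ : a₁.natDegree = d) (ha₃ : a₃.degree < ((3 * d + 1 : ℕ) : WithBot ℕ))
    (S₁ S₀ : Finset (IrrM k)) (h1 : ∀ P ∈ S₁, IsCoprime a₁ P.1) (h0 : ∀ P ∈ S₀, P.1 ∣ a₁) :
    ∃ f : TT a₁ a₃ d m → {w : Bx k m × (Pr k (d + m + 1) (d - m + 1) ×
      Pr k (4 * d - 2 * m + 1) (4 * d + 2 * m + 1)) // GT a₁ a₃ d m S₁ S₀ w.1.1 w.2},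
      Function.Injective f := by
  choose f hf hp using exists_GT hd hm hsq hcop ha₁ ha₃ S₁ S₀ h1 h0
  refine ⟨fun t => ⟨f t, hf t⟩, ?_⟩
  intro t t' h
  have h2 : f t = f t' := congrArg Subtype.val h
  have p1 := hp t
  have p2 := hp t'
  rw [h2] at p1
  have hk0 : kD a₁ a₃ t.1.1.1 ≠ 0 := Gd.kne hd hsq hcop ha₁
  obtain ⟨e1, e2, e3, e4, e5, e6⟩ := params_inj hsq.ne_zero hk0 t.2.2.wedge t'.2.2.wedge p1 p2
  apply Subtype.ext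
  apply Prod.ext
  · exact Prod.ext e1 e2
  · exact Prod.ext (Prod.ext e3 e4) (Prod.ext e5 e6)

theorem finite_TT (hd : 1 ≤ d) (hm : m ≤ d) (hsq : Squarefree a₁) (hcop : IsCoprime a₁ a₃)
    (ha₁ : a₁.natDegree = d) (ha₃ : a₃.degree < ((3 * d + 1 : ℕ) : WithBot ℕ)) :
    Finite (TT a₁ a₃ d m) := by
  obtain ⟨f, hf⟩ := exists_emb hd hm hsq hcop ha₁ ha₃ ∅ ∅ (by simp) (by simp)
  exact Finite.of_injective f hf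

/-- general bound -/
theorem card_TT_le (hd : 1 ≤ d) (hm : m ≤ d) (hsq : Squarefree a₁) (hcop : IsCoprime a₁ a₃)
    (ha₁ : a₁.natDegree = d) (ha₃ : a₃.degree < ((3 * d + 1 : ℕ) : WithBot ℕ))
    (S₁ S₀ : Finset (IrrM k)) (h1 : ∀ P ∈ S₁, IsCoprime a₁ P.1) (h0 : ∀ P ∈ S₀, P.1 ∣ a₁)
    (B : ℕ) (hB : ∀ A₁ : k[X], Nat.card {p // GT a₁ a₃ d m S₁ S₀ A₁ p} ≤ B) :
    Nat.card (TT a₁ a₃ d m) ≤ Nat.card k ^ m * B := by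
  obtain ⟨f, hf⟩ := exists_emb hd hm hsq hcop ha₁ ha₃ S₁ S₀ h1 h0
  refine (Nat.card_le_card_of_injective f hf).trans ?_
  have h2 := card_le_of_fiber (fun w : {w : Bx k m × (Pr k (d + m + 1) (d - m + 1) ×
      Pr k (4 * d - 2 * m + 1) (4 * d + 2 * m + 1)) // GT a₁ a₃ d m S₁ S₀ w.1.1 w.2} => w.1.1)
    Set.univ (fun _ => Set.mem_univ _) B ?_
  · refine h2.trans (le_of_eq ?_)
    rw [Nat.card_congr (Equiv.Set.univ _), card_Bx, mul_comm]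
  · intro b
    refine le_trans ?_ (hB b.1)
    apply Nat.card_le_card_of_injective (fun w : {w : {w : Bx k m × (Pr k (d + m + 1) (d - m + 1) ×
      Pr k (4 * d - 2 * m + 1) (4 * d + 2 * m + 1)) // GT a₁ a₃ d m S₁ S₀ w.1.1 w.2} // w.1.1 = b} =>
      (⟨w.1.1.2, by
        have := w.1.2
        rw [w.2] at this
        exact this⟩ : {p // GT a₁ a₃ d m S₁ S₀ b.1 p}))
    intro w w' h
    apply Subtype.ext
    apply Subtype.ext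
    apply Prod.ext
    · exact w.2.trans w'.2.symm
    · exact congrArg Subtype.val h

/-- bound without sieve -/
theorem card_TT_trivial (hd : 1 ≤ d) (hm : m ≤ d) (hsq : Squarefree a₁) (hcop : IsCoprime a₁ a₃)
    (ha₁ : a₁.natDegree = d) (ha₃ : a₃.degree < ((3 * d + 1 : ℕ) : WithBot ℕ)) :
    Nat.card (TT a₁ a₃ d m) ≤ Nat.card k ^ m * Nat.card k ^ (8 * d + 4) := by
  refine card_TT_le hd hm hsq hcop ha₁ ha₃ ∅ ∅ (by simp) (by simp) _ fun A₁ => ?_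
  refine le_trans ?_ (card_Star hcop hsq.ne_zero ha₁ hm A₁)
  exact Nat.card_le_card_of_injective (fun p : {p // GT a₁ a₃ d m ∅ ∅ A₁ p} =>
    (⟨p.1, p.2.star⟩ : {p // Star a₁ a₃ d m A₁ p})) (fun p p' h => by
      have h2 := congrArg Subtype.val h
      exact Subtype.ext h2)


open scoped Classical in
/-- bound with sieve -/
theorem card_TT_sieve (hd : 1 ≤ d) (hm : m ≤ d) (hsq : Squarefree a₁) (hcop : IsCoprime a₁ a₃)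
    (ha₁ : a₁.natDegree = d) (ha₃ : a₃.degree < ((3 * d + 1 : ℕ) : WithBot ℕ))
    (S₁ S₀ : Finset (IrrM k)) (h1 : ∀ P ∈ S₁, IsCoprime a₁ P.1) (h0 : ∀ P ∈ S₀, P.1 ∣ a₁)
    (hdisj : Disjoint S₁ S₀) (hdeg : (prS (S₁ ∪ S₀)).natDegree + m + 1 ≤ d) :
    (Nat.card (TT a₁ a₃ d m) : ℝ) ≤ (Nat.card k : ℝ) ^ m * ((Nat.card k : ℝ) ^ (8 * d + 4) *
      ((1 - ((Nat.card k : ℝ) ^ 2)⁻¹) ^ 2 * ((∏ P ∈ S₁, dens P) ^ 2 * ∏ P ∈ S₀, dens P))) := by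
  have hq : 0 < Nat.card k := Nat.card_pos
  have hqR : (0 : ℝ) < Nat.card k := by exact_mod_cast hq
  have hNP : ∀ P : IrrM k, 0 < NP P := fun P => pow_pos hq _
  have hNR : ∀ P : IrrM k, (0 : ℝ) < NP P := fun P => by exact_mod_cast hNP P
  have key : ∀ A₁ : k[X], (Nat.card {p // GT a₁ a₃ d m S₁ S₀ A₁ p} : ℝ) ≤
      (Nat.card k : ℝ) ^ (8 * d + 4) *
      ((1 - ((Nat.card k : ℝ) ^ 2)⁻¹) ^ 2 * ((∏ P ∈ S₁, dens P) ^ 2 * ∏ P ∈ S₀, dens P)) := by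
    intro A₁
    have h2 := card_GT hcop hsq.ne_zero ha₁ S₁ S₀ h1 hdeg A₁
    have h3 : ((Nat.card {p // GT a₁ a₃ d m S₁ S₀ A₁ p} *
      (Nat.card k ^ (2 * d) * (∏ P ∈ S₁, NP P ^ 4) * Nat.card k ^ 4 *
        ((∏ P ∈ S₁ ∪ S₀, NP P ^ 2) * Nat.card k ^ 2)) : ℕ) : ℝ) ≤
      ((Nat.card k ^ (10 * d + 4) * ((Nat.card k ^ 2 * (Nat.card k ^ 2 - 1) ^ 2) *
      ((∏ P ∈ S₁, (NP P ^ 2 * (NP P ^ 2 - 1) ^ 2)) * ∏ P ∈ S₀, (NP P ^ 2 - 1))) : ℕ) : ℝ) := by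
      exact_mod_cast h2
    have hsub : ∀ n : ℕ, 0 < n → ((n ^ 2 - 1 : ℕ) : ℝ) = (n : ℝ) ^ 2 * (1 - ((n : ℝ) ^ 2)⁻¹) := by
      intro n hn
      have hn2 : 1 ≤ n ^ 2 := Nat.one_le_pow _ _ hn
      have hnR : (0 : ℝ) < n := by exact_mod_cast hn
      rw [Nat.cast_sub hn2]
      push_cast
      field_simp
    have e1 : ((∏ P ∈ S₁, (NP P ^ 2 * (NP P ^ 2 - 1) ^ 2) : ℕ) : ℝ)
        = (∏ P ∈ S₁, (NP P : ℝ) ^ 6) * (∏ P ∈ S₁, dens P) ^ 2 := by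
      rw [Nat.cast_prod, ← Finset.prod_pow, ← Finset.prod_mul_distrib]
      refine Finset.prod_congr rfl fun P _ => ?_
      rw [Nat.cast_mul, Nat.cast_pow, Nat.cast_pow, hsub _ (hNP P)]
      unfold dens; ring
    have e2 : ((∏ P ∈ S₀, (NP P ^ 2 - 1) : ℕ) : ℝ)
        = (∏ P ∈ S₀, (NP P : ℝ) ^ 2) * ∏ P ∈ S₀, dens P := by
      rw [Nat.cast_prod, ← Finset.prod_mul_distrib]
      refine Finset.prod_congr rfl fun P _ => ?_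
      rw [hsub _ (hNP P)]
      rfl
    have e3 : ((∏ P ∈ S₁ ∪ S₀, NP P ^ 2 : ℕ) : ℝ)
        = (∏ P ∈ S₁, (NP P : ℝ) ^ 2) * ∏ P ∈ S₀, (NP P : ℝ) ^ 2 := by
      rw [Finset.prod_union hdisj]
      push_cast
      rfl
    have e4 : ((∏ P ∈ S₁, NP P ^ 4 : ℕ) : ℝ) = ∏ P ∈ S₁, (NP P : ℝ) ^ 4 := by push_cast; rfl
    have e5 : (∏ P ∈ S₁, (NP P : ℝ) ^ 6) = (∏ P ∈ S₁, (NP P : ℝ) ^ 4) * ∏ P ∈ S₁, (NP P : ℝ) ^ 2 := by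
      rw [← Finset.prod_mul_distrib]
      refine Finset.prod_congr rfl fun P _ => ?_
      ring
    push_cast only [Nat.cast_mul, Nat.cast_pow] at h3
    rw [e1, e2, e3, e4, hsub _ hq, e5] at h3
    set X4 := ∏ P ∈ S₁, (NP P : ℝ) ^ 4 with hX4
    set X2 := ∏ P ∈ S₁, (NP P : ℝ) ^ 2 with hX2
    set Y2 := ∏ P ∈ S₀, (NP P : ℝ) ^ 2 with hY2
    set V := ∏ P ∈ S₁, dens P with hV
    set U := ∏ P ∈ S₀, dens P with hU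
    have pX4 : 0 < X4 := Finset.prod_pos fun P _ => pow_pos (hNR P) 4
    have pX2 : 0 < X2 := Finset.prod_pos fun P _ => pow_pos (hNR P) 2
    have pY2 : 0 < Y2 := Finset.prod_pos fun P _ => pow_pos (hNR P) 2
    set q : ℝ := (Nat.card k : ℝ) with hqd
    have hpos : 0 < q ^ (2 * d) * X4 * q ^ 4 * (X2 * Y2 * q ^ 2) := by positivity
    refine le_of_mul_le_mul_right (h3.trans (le_of_eq ?_)) hpos
    have e6 : q ^ (10 * d + 4) = q ^ (8 * d + 4) * q ^ (2 * d) := by rw [← pow_add]; congr 1; ring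
    rw [e6]
    ring
  have h4 : (Nat.card (TT a₁ a₃ d m) : ℝ) ≤ (Nat.card k : ℝ) ^ m *
      (⌊(Nat.card k : ℝ) ^ (8 * d + 4) *
      ((1 - ((Nat.card k : ℝ) ^ 2)⁻¹) ^ 2 * ((∏ P ∈ S₁, dens P) ^ 2 * ∏ P ∈ S₀, dens P))⌋₊ : ℝ) := by
    have := card_TT_le hd hm hsq hcop ha₁ ha₃ S₁ S₀ h1 h0
      (⌊(Nat.card k : ℝ) ^ (8 * d + 4) *
      ((1 - ((Nat.card k : ℝ) ^ 2)⁻¹) ^ 2 * ((∏ P ∈ S₁, dens P) ^ 2 * ∏ P ∈ S₀, dens P))⌋₊)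
      (fun A₁ => Nat.le_floor (key A₁))
    exact_mod_cast this
  refine h4.trans ?_
  have hnn : 0 ≤ (Nat.card k : ℝ) ^ (8 * d + 4) *
      ((1 - ((Nat.card k : ℝ) ^ 2)⁻¹) ^ 2 * ((∏ P ∈ S₁, dens P) ^ 2 * ∏ P ∈ S₀, dens P)) :=
    (Nat.cast_nonneg _).trans (key 0)
  exact mul_le_mul_of_nonneg_left (Nat.floor_le hnn) (by positivity)

end Pool.Agent.H2
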