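import Pool.Agent.H2.Norm

/-!
# Every nonzero Selmer class has a reduced pair
-/

namespace Pool.Agent.H2

open Polynomial

universe u

variable {k : Type u} [Field k] [Finite k] [CharP k 2]

section Deg

omit [Finite k] [CharP k 2]

theorem degree_of_abv {f : k[X]} {n : ℤ} (h : infAbv k (algebraMap k[X] (RatFunc k) f) ≤ (2 : ℝ) ^ n)
    {N : ℕ} (hN : n < N) : f.degree < N := by
  by_cases hf : f = 0
  · rw [hf, degree_zero]; exact WithBot.bot_lt_coe _
  rw [infAbv_poly hf] at h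
  have h1 := (zpow_le_zpow_iff_right₀ (by norm_num : (1 : ℝ) < 2)).mp h
  rw [degree_eq_natDegree hf]
  have h2 : f.natDegree < N := by omega
  exact_mod_cast h2

theorem abv_of_degree {f : k[X]} {N : ℕ} (h : f.degree < (N : WithBot ℕ)) :
    infAbv k (algebraMap k[X] (RatFunc k) f) * 2 ≤ (2 : ℝ) ^ N := by
  by_cases hf : f = 0
  · rw [hf, map_zero, map_zero, zero_mul]; positivity
  rw [degree_eq_natDegree hf] at h
  have h1 : f.natDegree < N := by exact_mod_cast h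
  rw [infAbv_poly hf, zpow_natCast, ← pow_succ]
  exact pow_le_pow_right₀ (by norm_num) h1

theorem abv_of_degree_eq {f : k[X]} {N : ℕ} (h : f.degree = (N : WithBot ℕ)) :
    infAbv k (algebraMap k[X] (RatFunc k) f) = (2 : ℝ) ^ N := by
  have hf : f ≠ 0 := by
    rintro rfl
    rw [degree_zero] at h
    exact WithBot.bot_ne_coe h
  rw [infAbv_poly hf, zpow_natCast, natDegree_eq_of_degree_eq_some h]

end Deg

variable {a₁ a₃ D Z : k[X]}

omit [Finite k] [CharP k 2] in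
theorem degree_a₁ {d : ℕ} (ha₁ : a₁.natDegree = d) : a₁.degree < (d + 1 : ℕ) := by
  refine lt_of_le_of_lt degree_le_natDegree ?_
  rw [ha₁]
  exact_mod_cast Nat.lt_succ_self d

theorem degree_kD {d : ℕ} (ha₁ : a₁.natDegree = d)
    (ha₃ : a₃.degree < (3 * d + 1 : ℕ)) (hD : D.degree < (8 * d + 1 : ℕ)) :
    (kD a₁ a₃ D).degree < (5 * d : ℕ) := by
  have h1 := degree_a₁ ha₁
  have h13 : (a₁ * a₃).degree < (d + (3 * d + 1) : ℕ) := degree_mul_lt' h1 ha₃
  have hC := degree_PC h13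
  have hCD := degree_PC hD
  unfold kD
  apply degree_add_lt'
  · have := degree_mul_lt' ha₃ hC
    have e : 3 * d + (d + (3 * d + 1)) / 2 = 5 * d := by omega
    rwa [e] at this
  · have := degree_mul_lt' h1 hCD
    have e : d + (8 * d + 1) / 2 = 5 * d := by omega
    rwa [e] at this

theorem degree_dD {d : ℕ} (ha₁ : a₁.natDegree = d)
    (ha₃ : a₃.degree < (3 * d + 1 : ℕ)) (hD : D.degree < (8 * d + 1 : ℕ)) :
    (dD a₁ a₃ D).degree < (6 * d + 1 : ℕ) := by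
  have h1 := degree_a₁ ha₁
  have h13 : (a₁ * a₃).degree < (d + (3 * d + 1) : ℕ) := degree_mul_lt' h1 ha₃
  have hE := degree_PE h13
  have hED := degree_PE hD
  unfold dD
  apply degree_add_lt'
  · apply degree_add_lt'
    · have := degree_mul_lt' ha₃ ha₃
      rw [← pow_two] at this
      have e : 3 * d + (3 * d + 1) = 6 * d + 1 := by omega
      rwa [e] at this
    · have := degree_mul_lt' (M := 4 * d) (by
        have e : d + (3 * d + 1) = 4 * d + 1 := by omega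
        rwa [e] at h13) hE
      have e : 4 * d + (d + (3 * d + 1) + 1) / 2 = 6 * d + 1 := by omega
      rwa [e] at this
  · have h11 := degree_mul_lt' h1 h1
    rw [← pow_two] at h11
    have := degree_mul_lt' (M := 2 * d) (by
        have e : d + (d + 1) = 2 * d + 1 := by omega
        rwa [e] at h11) hED
    have e : 2 * d + (8 * d + 1 + 1) / 2 = 6 * d + 1 := by omega
    rwa [e] at this

theorem coprime_PC (hsq : Squarefree a₁) (hcop : IsCoprime a₁ a₃) :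
    IsCoprime a₁ (PC (a₁ * a₃)) := by
  have h1 : PC (a₁ * a₃) ^ 2 = derivative a₁ * a₃ + a₁ * derivative a₃ := by
    rw [← derivative_eq, derivative_mul]
  have h2 : IsCoprime a₁ (PC (a₁ * a₃) ^ 2) := by
    rw [h1]
    exact ((coprime_deriv hsq).mul_right hcop).add_mul_left_right _
  exact (IsCoprime.pow_right_iff (by norm_num)).mp h2

theorem PC_zero : PC (0 : k[X]) = 0 := by
  have := PC_sq (0 : k[X])
  rwa [zero_pow two_ne_zero] at this

theorem PE_zero : PE (0 : k[X]) = 0 := by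
  have := PE_sq (0 : k[X])
  rwa [zero_pow two_ne_zero] at this

theorem PC_mul (p q : k[X]) : PC (p * q) = PE p * PC q + PC p * PE q := by
  refine PC_eq (a := PE p * PE q + X * (PC p * PC q)) ?_
  have h1 := PE_PC p
  have h2 := PE_PC q
  grind

/-- no class is too unbalanced -/
theorem type_le (hsq : Squarefree a₁) (hcop : IsCoprime a₁ a₃) {d m : ℕ}
    (hm : d < m) (hm3 : m ≤ 3 * d) (ha₁ : a₁.natDegree = d) (hZ : Z ≠ 0)
    (hk0 : kD a₁ a₃ D ≠ 0)
    {x₁ y₁ x₂ y₂ G₂ : k[X]} (hw : x₁ * y₂ + x₂ * y₁ = a₁ * kD a₁ a₃ D)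
    (s₁ : a₁ ∣ y₁ ^ 2 + X * x₁ ^ 2) (s₂ : a₁ ∣ y₂ ^ 2 + X * x₂ ^ 2)
    (g₁ : Qf a₁ a₃ D Z x₁ y₁ = kD a₁ a₃ D ^ 2 * 0)
    (g₂ : Qf a₁ a₃ D Z x₂ y₂ = kD a₁ a₃ D ^ 2 * G₂)
    (dx₁ : x₁.degree < (3 * d - m : ℕ)) (dy₁ : y₁.degree < (3 * d - m + 1 : ℕ)) : False := by
  have ha0 : a₁ ≠ 0 := hsq.ne_zero
  obtain ⟨S₁, hS₁⟩ := s₁
  obtain ⟨S₂, hS₂⟩ := s₂
  have h1 := dvd_S (D := D) (Z := Z) hsq hcop hS₁ g₁
  rw [PE_zero] at h1
  obtain ⟨R₁, hR₁⟩ : a₁ ∣ S₁ := by
    have e : S₁ + a₃ * 0 ^ 2 = S₁ := by ring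
    rwa [e] at h1
  have h2 := params_disc ha0 hk0 hw g₁ g₂ hS₁ hS₂
  have h3 : (a₃ ^ 2 + G₂ * R₁) ^ 2 = a₁ * (a₁ ^ 2 * (a₃ ^ 3 + a₁ * D + R₁ * S₂)) := by
    apply mul_left_cancel₀ (pow_ne_zero 2 ha0)
    have e1 : a₁ ^ 2 * (a₃ ^ 2 + G₂ * R₁) ^ 2 = a₁ ^ 2 * (a₃ ^ 4 + a₁ ^ 3 * a₃ ^ 3 + a₁ ^ 4 * D)
      + (G₂ * (a₁ * R₁)) ^ 2 + a₁ ^ 5 * a₃ ^ 3 + a₁ ^ 6 * D := by grind
    rw [e1, h2, hR₁]
    grind
  obtain ⟨z, hz⟩ := dvd_of_sq hsq ⟨_, h3⟩
  have h4 : z ^ 2 = a₁ * (a₃ ^ 3 + a₁ * D + R₁ * S₂) := by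
    apply mul_left_cancel₀ (pow_ne_zero 2 ha0)
    rw [← mul_pow, ← hz, h3]; ring
  obtain ⟨z', hz'⟩ := dvd_of_sq hsq ⟨_, h4⟩
  have h5 : G₂ * R₁ = a₃ ^ 2 + a₁ ^ 2 * z' := by
    rw [hz'] at hz
    linear_combination hz - a₃ ^ 2 * (CharTwo.two_eq_zero : (2 : k[X]) = 0)
  -- the odd part
  have h6 : a₁ ∣ PE G₂ * PC R₁ := by
    have h7 := congrArg PC h5
    rw [PC_mul, PC_add, PC_sq, PC_sq_mul, zero_add] at h7
    obtain ⟨g, hg⟩ := dvd_PC (D := D) (Z := Z) hsq hcop ⟨_, hS₂⟩ g₂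
    refine ⟨PC z' + g * PE R₁, ?_⟩
    rw [hg] at h7
    linear_combination h7 - a₁ * g * PE R₁ * (CharTwo.two_eq_zero : (2 : k[X]) = 0)
  have h8 : IsCoprime a₁ (PE G₂) := by
    obtain ⟨g, hg⟩ := dvd_PC (D := D) (Z := Z) hsq hcop ⟨_, hS₂⟩ g₂
    have h9 : IsCoprime a₁ (G₂ * R₁) := by
      rw [h5]
      have : a₁ ^ 2 * z' = a₁ * (a₁ * z') := by ring
      rw [this]
      exact (hcop.pow_right).add_mul_left_right _
    have h10 : IsCoprime a₁ G₂ := h9.of_mul_right_left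
    have h11 : PE G₂ ^ 2 = G₂ + a₁ * (X * a₁ * g ^ 2) := by
      have := PE_PC G₂
      rw [hg] at this
      linear_combination -this - X * (a₁ * g) ^ 2 * (CharTwo.two_eq_zero : (2 : k[X]) = 0)
    have h12 : IsCoprime a₁ (PE G₂ ^ 2) := by
      rw [h11]; exact h10.add_mul_left_right _
    exact (IsCoprime.pow_right_iff (by norm_num)).mp h12
  have h13 : a₁ ∣ PC R₁ := h8.dvd_of_dvd_mul_left h6
  have hR : y₁ ^ 2 + X * x₁ ^ 2 = a₁ ^ 2 * R₁ := by rw [hS₁, hR₁]; ring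
  have dR : R₁.degree < (2 * d : ℕ) := by
    by_cases hR0 : R₁ = 0
    · rw [hR0, degree_zero]; exact WithBot.bot_lt_coe _
    have hdeg : (y₁ ^ 2 + X * x₁ ^ 2).degree < ((2 * (3 * d - m) + 1 : ℕ) : WithBot ℕ) := by
      apply degree_add_lt'
      · have h1 := degree_mul_lt' (M := 3 * d - m) (N := 3 * d - m + 1) dy₁ dy₁
        rw [← pow_two] at h1
        have e : 3 * d - m + (3 * d - m + 1) = 2 * (3 * d - m) + 1 := by omega
        rwa [e] at h1
      · by_cases hm' : 3 * d - m = 0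
        · have hx : x₁ = 0 := by
            rw [hm'] at dx₁
            by_contra hx
            rw [degree_eq_natDegree hx] at dx₁
            have : x₁.natDegree < 0 := by exact_mod_cast dx₁
            omega
          rw [hx]
          simp only [ne_eq, OfNat.ofNat_ne_zero, not_false_eq_true, zero_pow, mul_zero, degree_zero]
          exact WithBot.bot_lt_coe _
        · have h1 := degree_mul_lt' (M := 3 * d - m - 1) (N := 3 * d - m)
            (by rw [show 3 * d - m - 1 + 1 = 3 * d - m by omega]; exact dx₁) dx₁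
          rw [← pow_two] at h1
          have h2 := degree_mul_lt' (M := 1) (a := X) (by rw [degree_X]; norm_num) h1
          refine lt_of_lt_of_le h2 ?_
          have : 1 + (3 * d - m - 1 + (3 * d - m)) ≤ 2 * (3 * d - m) + 1 := by omega
          exact_mod_cast this
    rw [hR] at hdeg
    have hn : (a₁ ^ 2 * R₁).natDegree = 2 * d + R₁.natDegree := by
      rw [natDegree_mul (pow_ne_zero 2 ha0) hR0, natDegree_pow, ha₁]
    rw [degree_eq_natDegree (mul_ne_zero (pow_ne_zero 2 ha0) hR0), hn] at hdeg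
    rw [degree_eq_natDegree hR0]
    have h14 : 2 * d + R₁.natDegree < 2 * (3 * d - m) + 1 := by exact_mod_cast hdeg
    have h15 : R₁.natDegree < 2 * d := by omega
    exact_mod_cast h15
  have h16 : PC R₁ = 0 := by
    apply eq_zero_of_dvd_degree h13
    refine lt_of_lt_of_le (degree_PC dR) ?_
    rw [ha₁]
    have : 2 * d / 2 ≤ d := by omega
    exact_mod_cast this
  have h17 := PE_PC R₁
  rw [h16] at h17
  have h18 : y₁ ^ 2 + X * x₁ ^ 2 = (a₁ * PE R₁) ^ 2 + X * 0 ^ 2 := by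
    rw [hR]
    linear_combination (a₁ ^ 2) * h17
  obtain ⟨-, hx0⟩ := sum_uniq h18
  rw [hx0] at g₁ hw
  unfold Qf at g₁
  have h19 : a₁ * Z * y₁ ^ 2 = 0 := by linear_combination g₁
  have h20 : y₁ = 0 := by
    rcases mul_eq_zero.mp h19 with h | h
    · exact absurd h (mul_ne_zero ha0 hZ)
    · exact pow_eq_zero_iff two_ne_zero |>.mp h
  rw [h20] at hw
  have : a₁ * kD a₁ a₃ D = 0 := by linear_combination -hw
  exact mul_ne_zero ha0 hk0 this

end Pool.Agent.H2
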