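import Pool.Agent.H2.VPer
import Pool.Agent.H2.GClass

/-!
# Classes of twists
-/

namespace Pool.Agent.H2

open Polynomial IsDedekindDomain

universe u

variable {k : Type u} [Field k] [Finite k] [CharP k 2]

omit [Finite k] [CharP k 2] in
theorem fin_ws {p : HeightOneSpectrum k[X]} {z : RatFunc k} (h : 1 < finAbv p z) :
    finAbv p (z ^ 2 + z) = finAbv p z ^ 2 := by
  have h1 : finAbv p z < finAbv p (z ^ 2) := by rw [map_pow]; nlinarith
  rw [add_comm, finAbv_add_of_lt h1, map_pow]

omit [Finite k] [CharP k 2] in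
theorem inf_ws {z : RatFunc k} (h : 1 < infAbv k z) :
    infAbv k (z ^ 2 + z) = infAbv k z ^ 2 := by
  have h1 : infAbv k z < infAbv k (z ^ 2) := by rw [map_pow]; nlinarith
  rw [add_comm, infAbv_add_of_lt h1, map_pow]

omit [Finite k] [CharP k 2] in
theorem fin_ws_le {p : HeightOneSpectrum k[X]} {z : RatFunc k} (h : finAbv p z ≤ 1) :
    finAbv p (z ^ 2 + z) ≤ 1 := by
  refine (finAbv_nonarch p _ _).trans (max_le ?_ h)
  rw [map_pow]
  exact pow_le_one₀ ((finAbv p).nonneg _) h

omit [Finite k] [CharP k 2] in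
theorem inf_ws_le {z : RatFunc k} (h : infAbv k z ≤ 1) : infAbv k (z ^ 2 + z) ≤ 1 := by
  refine (infAbv_nonarch _ _).trans (max_le ?_ h)
  rw [map_pow]
  exact pow_le_one₀ ((infAbv k).nonneg _) h

theorem two_zpow {x : ℝ} {m : ℕ} {j : ℤ} (hx : x = 2 ^ j) (h1 : 1 < x) :
    (x ^ 2 ≤ 2 ^ m ↔ x ≤ 2 ^ (m / 2)) ∧ (Odd m → x ^ 2 ≠ 2 ^ m) := by
  have hj : 0 < j := by
    by_contra h
    rw [not_lt] at h
    have : x ≤ 1 := by rw [hx]; exact zpow_le_one_of_nonpos₀ (by norm_num) h
    linarith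
  obtain ⟨i, rfl⟩ := Int.eq_ofNat_of_zero_le hj.le
  rw [zpow_natCast] at hx
  subst hx
  rw [← pow_mul]
  constructor
  · rw [pow_le_pow_iff_right₀ (by norm_num : (1 : ℝ) < 2),
      pow_le_pow_iff_right₀ (by norm_num : (1 : ℝ) < 2)]
    omega
  · intro hm h
    have h2 : i * 2 = m := by
      have := pow_right_injective₀ (by norm_num : (0 : ℝ) < 2) (by norm_num) h
      exact this
    rw [← h2] at hm
    exact (Nat.not_odd_iff_even.mpr ⟨i, by ring⟩) hm

omit [Finite k] in
theorem asClass_eq {a a' : RatFunc k} : asClass a = asClass a' ↔ ∃ z, a' = a + (z ^ 2 + z) := by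
  constructor
  · intro h
    have h1 : a' ∈ asClass a := by rw [h]; exact ⟨0, by ring⟩
    exact h1
  · rintro ⟨z, rfl⟩
    have h2 : (2 : RatFunc k) = 0 := CharTwo.two_eq_zero
    ext x
    constructor
    · rintro ⟨y, rfl⟩
      exact ⟨z + y, by linear_combination (-(z ^ 2 + z + z * y)) * h2⟩
    · rintro ⟨y, rfl⟩
      exact ⟨z + y, by linear_combination (- (z * y)) * h2⟩

section Cls

variable {S : Finset (HeightOneSpectrum k[X])} {m : ℕ} {ν : HeightOneSpectrum k[X] → ℕ}

/-- half of the orders -/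
theorem ws_twists (hm : Odd m) (hν : ∀ p ∈ S, Odd (ν p)) {a z : RatFunc k}
    (ha : a ∈ twists S m ν) :
    a + (z ^ 2 + z) ∈ twists S m ν ↔ z ∈ BB S (m / 2) (fun p => ν p / 2) := by
  have e : (z ^ 2 + z : RatFunc k) = (a + (z ^ 2 + z)) - a := by ring
  constructor
  · intro h
    obtain ⟨h1, h2, h3⟩ := h
    obtain ⟨h4, h5, h6⟩ := ha
    refine ⟨?_, fun p hp => ?_, fun p hp => ?_⟩
    · by_cases hz : infAbv k z ≤ 1
      · exact hz.trans (one_le_pow₀ (by norm_num))
      · rw [not_le] at hz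
        have hz0 : z ≠ 0 := by rintro rfl; rw [map_zero] at hz; linarith
        obtain ⟨j, hj⟩ := two_exp (infAbv_good (k := k)) z hz0
        rw [← (two_zpow hj hz).1, ← inf_ws hz, e]
        refine (inf_sub _ _).trans (max_le ?_ ?_)
        · rw [h1]
        · rw [h4]
    · by_cases hz : finAbv p z ≤ 1
      · exact hz.trans (one_le_pow₀ (by norm_num))
      · rw [not_le] at hz
        have hz0 : z ≠ 0 := by rintro rfl; rw [map_zero] at hz; linarith
        obtain ⟨j, hj⟩ := two_exp (finAbv_good p) z hz0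
        rw [← (two_zpow hj hz).1, ← fin_ws hz, e]
        refine (fin_sub p _ _).trans (max_le ?_ ?_)
        · rw [h2 p hp]
        · rw [h5 p hp]
    · by_contra hz
      rw [not_le] at hz
      have h7 := fin_ws hz
      rw [e] at h7
      have h8 := (fin_sub p (a + (z ^ 2 + z)) a).trans (max_le (h3 p hp) (h6 p hp))
      rw [h7] at h8
      nlinarith
  · rintro ⟨h1, h2, h3⟩
    rw [add_comm]
    apply twists_add ha
    · by_cases hz : infAbv k z ≤ 1
      · exact lt_of_le_of_lt (inf_ws_le hz) (one_lt_pow₀ (by norm_num) hm.pos.ne')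
      · rw [not_le] at hz
        have hz0 : z ≠ 0 := by rintro rfl; rw [map_zero] at hz; linarith
        obtain ⟨j, hj⟩ := two_exp (infAbv_good (k := k)) z hz0
        rw [inf_ws hz]
        exact lt_of_le_of_ne ((two_zpow hj hz).1.mpr h1) ((two_zpow hj hz).2 hm)
    · intro p hp
      by_cases hz : finAbv p z ≤ 1
      · exact lt_of_le_of_lt (fin_ws_le hz) (one_lt_pow₀ (by norm_num) (hν p hp).pos.ne')
      · rw [not_le] at hz
        have hz0 : z ≠ 0 := by rintro rfl; rw [map_zero] at hz; linarith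
        obtain ⟨j, hj⟩ := two_exp (finAbv_good p) z hz0
        rw [fin_ws hz]
        exact lt_of_le_of_ne ((two_zpow hj hz).1.mpr (h2 p hp)) ((two_zpow hj hz).2 (hν p hp))
    · intro p hp
      exact fin_ws_le (h3 p hp)

/-- the orders of the poles are determined by the class -/
theorem ptype_le {S' : Finset (HeightOneSpectrum k[X])} {m' : ℕ} {ν' : HeightOneSpectrum k[X] → ℕ}
    (hν : ∀ p ∈ S, Odd (ν p)) {a a' : RatFunc k}
    (ha : a ∈ twists S m ν) (ha' : a' ∈ twists S' m' ν') (h : asClass a = asClass a')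
    {p : HeightOneSpectrum k[X]} (hp : p ∈ S) : p ∈ S' ∧ ν p ≤ ν' p := by
  obtain ⟨z, hz⟩ := asClass_eq.mp h
  obtain ⟨-, h2, -⟩ := ha
  obtain ⟨-, h5, h6⟩ := ha'
  have hgt : (1 : ℝ) < 2 ^ ν p := one_lt_pow₀ (by norm_num) (hν p hp).pos.ne'
  have key : finAbv p a ≤ finAbv p a' := by
    by_contra hlt
    rw [not_le] at hlt
    have e : (z ^ 2 + z : RatFunc k) = a' + -a := by rw [hz]; ring
    have h7 : finAbv p (z ^ 2 + z) = finAbv p a := by
      rw [e, finAbv_add_of_lt, AbsoluteValue.map_neg]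
      rw [AbsoluteValue.map_neg]; exact hlt
    rw [h2 p hp] at h7
    have hz1 : 1 < finAbv p z := by
      by_contra hz1
      rw [not_lt] at hz1
      have := fin_ws_le hz1
      linarith
    have hz0 : z ≠ 0 := by rintro rfl; rw [map_zero] at hz1; linarith
    obtain ⟨j, hj⟩ := two_exp (finAbv_good p) z hz0
    rw [fin_ws hz1] at h7
    exact (two_zpow hj hz1).2 (hν p hp) h7
  rw [h2 p hp] at key
  have hpS : p ∈ S' := by
    by_contra hpS
    have := h6 p hpS
    linarith
  refine ⟨hpS, ?_⟩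
  rw [h5 p hpS] at key
  exact (pow_le_pow_iff_right₀ (by norm_num)).mp key

theorem ptype_eq {S' : Finset (HeightOneSpectrum k[X])} {m' : ℕ} {ν' : HeightOneSpectrum k[X] → ℕ}
    (hν : ∀ p ∈ S, Odd (ν p)) (hν' : ∀ p ∈ S', Odd (ν' p)) {a a' : RatFunc k}
    (ha : a ∈ twists S m ν) (ha' : a' ∈ twists S' m' ν') (h : asClass a = asClass a') :
    S = S' ∧ ∀ p ∈ S, ν p = ν' p := by
  constructor
  · ext p
    exact ⟨fun hp => (ptype_le hν ha ha' h hp).1, fun hp => (ptype_le hν' ha' ha h.symm hp).1⟩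
  · intro p hp
    have h1 := ptype_le hν ha ha' h hp
    exact le_antisymm h1.2 (ptype_le hν' ha' ha h.symm h1.1).2

open scoped Classical in
/-- the functions `z² + z` with bounded poles -/
noncomputable def WW (S : Finset (HeightOneSpectrum k[X])) (m : ℕ)
    (ν : HeightOneSpectrum k[X] → ℕ) : Finset (RatFunc k) :=
  (BF S (m / 2) (fun p => ν p / 2)).image (fun z => z ^ 2 + z)

open scoped Classical in
theorem fiber_card (hm : Odd m) (hν : ∀ p ∈ S, Odd (ν p)) {a : RatFunc k} (ha : a ∈ TW S m ν) :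
    ((TW S m ν).filter (fun x => asClass x = asClass a)).card = (WW S m ν).card := by
  classical
  rw [mem_TW] at ha
  symm
  apply Finset.card_bij (fun w _ => a + w)
  · intro w hw
    unfold WW at hw
    rw [Finset.mem_image] at hw
    obtain ⟨z, hz, rfl⟩ := hw
    rw [mem_BF] at hz
    rw [Finset.mem_filter, mem_TW]
    exact ⟨(ws_twists hm hν ha).mpr hz, (asClass_eq.mpr ⟨z, rfl⟩).symm⟩
  · intro w _ w' _ h
    exact add_left_cancel h
  · intro x hx
    rw [Finset.mem_filter, mem_TW] at hx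
    obtain ⟨z, hz⟩ := asClass_eq.mp hx.2.symm
    refine ⟨z ^ 2 + z, ?_, hz.symm⟩
    unfold WW
    rw [Finset.mem_image]
    refine ⟨z, ?_, rfl⟩
    rw [mem_BF, ← ws_twists hm hν ha, ← hz]
    exact hx.1

open scoped Classical in
theorem card_cls (hm : Odd m) (hν : ∀ p ∈ S, Odd (ν p)) :
    (TW S m ν).card = (WW S m ν).card * ((TW S m ν).image asClass).card := by
  classical
  rw [Finset.card_eq_sum_card_image asClass (TW S m ν)]
  rw [Finset.sum_congr rfl (g := fun _ => (WW S m ν).card), Finset.sum_const, smul_eq_mul, mul_comm]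
  intro c hc
  rw [Finset.mem_image] at hc
  obtain ⟨a, ha, rfl⟩ := hc
  exact fiber_card hm hν ha

open scoped Classical in
theorem card_cls_le (hm : Odd m) (hν : ∀ p ∈ S, Odd (ν p)) {B : Finset (RatFunc k)}
    (hB : B ⊆ TW S m ν) : B.card ≤ (WW S m ν).card * (B.image asClass).card := by
  classical
  rw [Finset.card_eq_sum_card_image asClass B]
  have h1 : ∑ c ∈ B.image asClass, (B.filter (fun x => asClass x = c)).card
      ≤ ∑ c ∈ B.image asClass, (WW S m ν).card := by
    apply Finset.sum_le_sum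
    intro c hc
    rw [Finset.mem_image] at hc
    obtain ⟨a, ha, rfl⟩ := hc
    rw [← fiber_card hm hν (hB ha)]
    exact Finset.card_le_card (Finset.filter_subset_filter _ hB)
  refine h1.trans (le_of_eq ?_)
  rw [Finset.sum_const, smul_eq_mul, mul_comm]

theorem WW_pos : 0 < (WW S m ν).card := by
  classical
  rw [Finset.card_pos]
  unfold WW
  refine ⟨0, ?_⟩
  rw [Finset.mem_image]
  refine ⟨0, ?_, by ring⟩
  rw [mem_BF]
  refine ⟨by rw [map_zero]; positivity, fun p _ => by rw [map_zero]; positivity,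
    fun p _ => by rw [map_zero]; exact zero_le_one⟩

end Cls

end Pool.Agent.H2
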