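import Pool.Agent.H2.VUnif

/-!
# The proportion of the invertible matrices in a coset
-/

namespace Pool.Agent.H2

open Polynomial IsDedekindDomain Module

universe u

variable {k : Type u} [Field k] [Finite k] [CharP k 2]

/-- the functions vanishing at infinity with at most simple poles at `Λ` -/
def UU (Λ : Finset (HeightOneSpectrum k[X])) : AddSubgroup (RatFunc k) where
  carrier := {v | infAbv k v < 1 ∧ (∀ p ∈ Λ, finAbv p v ≤ 2) ∧ ∀ p, p ∉ Λ → finAbv p v ≤ 1}
  zero_mem' := ⟨by rw [map_zero]; exact one_pos, fun p _ => by rw [map_zero]; norm_num,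
    fun p _ => by rw [map_zero]; norm_num⟩
  add_mem' := fun {v w} hv hw => ⟨lt_of_le_of_lt (infAbv_nonarch _ _) (max_lt hv.1 hw.1),
    fun p hp => (finAbv_nonarch p _ _).trans (max_le (hv.2.1 p hp) (hw.2.1 p hp)),
    fun p hp => (finAbv_nonarch p _ _).trans (max_le (hv.2.2 p hp) (hw.2.2 p hp))⟩
  neg_mem' := fun {v} hv => ⟨by rw [AbsoluteValue.map_neg]; exact hv.1,
    fun p hp => by rw [AbsoluteValue.map_neg]; exact hv.2.1 p hp,
    fun p hp => by rw [AbsoluteValue.map_neg]; exact hv.2.2 p hp⟩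

/-- the polynomial part (for functions with poles in `S`) -/
noncomputable def gp (S : Finset (HeightOneSpectrum k[X])) (a : RatFunc k) : RatFunc k :=
  a - ∑ p ∈ S, pp p a

theorem gp_UU {S Λ : Finset (HeightOneSpectrum k[X])} (hΛ : Λ ⊆ S) {v : RatFunc k}
    (hv : v ∈ UU Λ) : gp S v = 0 := by
  classical
  unfold gp
  apply eq_zero_of_small
  · intro q
    by_cases hq : q ∈ S
    · rw [← Finset.add_sum_erase _ _ hq, ← sub_sub]
      refine (fin_sub q _ _).trans (max_le (pp_reg q v) ?_)
      refine fin_sum_le q _ _ fun p hp => ?_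
      exact (pp_polar p v).1 q (Finset.ne_of_mem_erase hp).symm
    · refine (fin_sub q _ _).trans (max_le (hv.2.2 q fun h => hq (hΛ h)) ?_)
      refine fin_sum_le q _ _ fun p hp => ?_
      exact (pp_polar p v).1 q (by rintro rfl; exact hq hp)
  · refine lt_of_le_of_lt (inf_sub _ _) (max_lt hv.1 ?_)
    exact inf_sum_lt _ _ fun p _ => (pp_polar p v).2

theorem Lam_one (S : Finset (HeightOneSpectrum k[X])) (a : RatFunc k) (q : S) :
    (Lam S a).mulVec 1 q = TT q.1 (gp S a) := by
  classical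
  have hK2 : CharP (RatFunc k) 2 := basisX.charP
  have h1 : gp S a = (a - pp q.1 a) + ∑ p ∈ Finset.univ.erase q, pp p.1 a := by
    unfold gp
    rw [← Finset.sum_coe_sort S (fun p => pp p a), ← Finset.add_sum_erase _ _ (Finset.mem_univ q),
      CharTwo.sub_eq_add, CharTwo.sub_eq_add, add_assoc]
  rw [h1, TT_add (pp_reg q.1 a) (fin_sum_le q.1 _ _ fun p hp => pp_int
    (fun h => (Finset.ne_of_mem_erase hp) (Subtype.ext h.symm)) a),
    TT_sum q.1 _ _ fun p hp => pp_int (fun h => (Finset.ne_of_mem_erase hp) (Subtype.ext h.symm)) a]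
  have h2 : (Lam S a).mulVec 1 q = ∑ p, Lam S a q p := by simp [Matrix.mulVec, dotProduct]
  rw [h2, ← Finset.add_sum_erase _ _ (Finset.mem_univ q)]
  congr 1
  · unfold Lam
    rw [if_pos rfl]
  · apply Finset.sum_congr rfl
    intro p hp
    unfold Lam
    rw [if_neg (fun h => (Finset.ne_of_mem_erase hp) h.symm)]

/-- the condition on the small part of a twist -/
def Ind (S Λ : Finset (HeightOneSpectrum k[X])) (a : RatFunc k) : Prop :=
  ∀ (ε : ZMod 2) (T : Finset (HeightOneSpectrum k[X])), T ⊆ S → Disjoint T Λ →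
    (ε ≠ 0 ∨ T.Nonempty) → ∃ q ∈ Λ, TT q (zt ε * gp S a + ∑ p ∈ T, pp p a) = 1

open scoped Classical in
theorem Lam_simple {S : Finset (HeightOneSpectrum k[X])} {p : S} {v : RatFunc k}
    (hv : Polar p.1 v) (q r : S) : Lam S v q r
      = (if r = p ∧ q ≠ p then TT q.1 v else 0) + (if q = r ∧ q ≠ p then TT q.1 v else 0) := by
  classical
  unfold Lam
  by_cases hqr : q = r
  · subst hqr
    rw [if_pos rfl]
    by_cases hqp : q = p
    · subst hqp
      rw [pp_of_polar hv, sub_self, TT_zero]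
      simp
    · rw [pp_of_reg (hv.1 q.1 fun h => hqp (Subtype.ext h)), sub_zero]
      simp [hqp]
  · rw [if_neg hqr]
    by_cases hrp : r = p
    · subst hrp
      rw [pp_of_polar hv]
      simp [hqr]
    · rw [pp_of_reg (hv.1 r.1 fun h => hrp (Subtype.ext h)), TT_zero]
      simp [hrp, hqr]

section Coset

variable {S Λ : Finset (HeightOneSpectrum k[X])} (p₀ : S)

/-- the free positions -/
abbrev Pos (Λ : Finset (HeightOneSpectrum k[X])) (p₀ : S) : Type u :=
  ({p : S // p.1 ∈ Λ ∧ p ≠ p₀} × S) ⊕ {p : S // p.1 ∉ Λ}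

/-- the entries at the free positions -/
noncomputable def kap' (Λ : Finset (HeightOneSpectrum k[X])) (p₀ : S) : UU Λ →+ (Pos Λ p₀ → ZMod 2) where
  toFun u := Sum.elim (fun x => Lam S u.1 x.2 x.1.1) (fun p => Lam S u.1 p.1 p.1)
  map_zero' := by
    funext x
    rcases x with x | x
    · simp only [Sum.elim_inl, ZeroMemClass.coe_zero, Lam_zero]; rfl
    · simp only [Sum.elim_inr, ZeroMemClass.coe_zero, Lam_zero]; rfl
  map_add' u v := by
    funext x
    rcases x with x | x
    · simp only [Sum.elim_inl, AddSubgroup.coe_add, Lam_add, Pi.add_apply]; rfl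
    · simp only [Sum.elim_inr, AddSubgroup.coe_add, Lam_add, Pi.add_apply]; rfl

theorem polar_UU {p : HeightOneSpectrum k[X]} (hp : p ∈ Λ) {v : RatFunc k} (h1 : Polar p v)
    (h2 : finAbv p v ≤ 2) : v ∈ UU Λ := by
  refine ⟨h1.2, fun q _ => ?_, fun q hq => h1.1 q (by rintro rfl; exact hq hp)⟩
  by_cases hqp : q = p
  · rw [hqp]; exact h2
  · exact (h1.1 q hqp).trans (by norm_num)

open scoped Classical in
theorem kap'_surj (hΛ : Λ ⊆ S) (hp₀ : p₀.1 ∈ Λ) (hG : ∀ p ∈ Λ, Gen p (S.erase p)) :
    Function.Surjective (kap' Λ p₀) := by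
  classical
  apply surj_of_sep
  intro T hT
  -- the effect of a function with a simple pole at `p` and a single symbol at `q`
  have hex : ∀ p q : S, p.1 ∈ Λ → q ≠ p → ∃ u : UU Λ, ∀ r s : S, Lam S u.1 r s
      = (if s = p ∧ r = q then 1 else 0) + (if r = s ∧ r = q then 1 else 0) := by
    intro p q hp hqp
    obtain ⟨v, hv1, hv2, hv3⟩ := exists_symbols (Finset.notMem_erase p.1 S) (hG p.1 hp)
      (fun r => if r = q.1 then 1 else 0)
    refine ⟨⟨v, polar_UU hp hv1 hv2⟩, fun r s => ?_⟩
    have h3 : r ≠ p → TT r.1 v = if r = q then 1 else 0 := by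
      intro hrp
      rw [hv3 r.1 (Finset.mem_erase.mpr ⟨fun h => hrp (Subtype.ext h), r.2⟩)]
      by_cases hrq : r = q
      · rw [if_pos hrq, if_pos (by rw [hrq])]
      · rw [if_neg hrq, if_neg (fun h => hrq (Subtype.ext h))]
    rw [Lam_simple hv1]
    congr 1
    · by_cases hsp : s = p
      · by_cases hrp : r = p
        · have hrq : r ≠ q := fun h => hqp (h.symm.trans hrp)
          simp [hrp, hqp.symm]
        · simp [hsp, hrp, h3 hrp]
      · simp [hsp]
    · by_cases hrs : r = s
      · by_cases hrp : r = p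
        · have hrq : r ≠ q := fun h => hqp (h.symm.trans hrp)
          simp [hrp, hqp.symm]
        · simp [hrs, hrs ▸ hrp, hrs ▸ h3 hrp]
      · simp [hrs]
  -- the indicator function of `T`
  set w : S → S → ZMod 2 := fun q p =>
    (if h : p.1 ∈ Λ ∧ p ≠ p₀ then (if Sum.inl (⟨p, h⟩, q) ∈ T then 1 else 0) else 0)
    + (if h : p.1 ∉ Λ then (if q = p ∧ Sum.inr ⟨p, h⟩ ∈ T then 1 else 0) else 0) with hw
  -- the value of the functional on the generators
  have hval : ∀ p q : S, p.1 ∈ Λ → q ≠ p → ∀ u : UU Λ, (∀ r s : S, Lam S u.1 r s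
      = (if s = p ∧ r = q then 1 else 0) + (if r = s ∧ r = q then 1 else 0)) →
      ∑ i ∈ T, kap' Λ p₀ u i = w q p + w q q := by
    intro p q hp hqp u hu
    have h1 : ∑ i ∈ T, kap' Λ p₀ u i = ∑ i : Pos Λ p₀, (if i ∈ T then kap' Λ p₀ u i else 0) := by
      rw [Finset.sum_ite_mem, Finset.univ_inter]
    rw [h1, Fintype.sum_sum_type, Fintype.sum_prod_type]
    have h2 : ∀ (x : {p : S // p.1 ∈ Λ ∧ p ≠ p₀}) (y : S),
        (if Sum.inl (x, y) ∈ T then kap' Λ p₀ u (Sum.inl (x, y)) else 0)
        = (if x.1 = p ∧ y = q then (if Sum.inl (x, y) ∈ T then (1 : ZMod 2) else 0) else 0)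
          + (if y = x.1 ∧ y = q then (if Sum.inl (x, y) ∈ T then (1 : ZMod 2) else 0) else 0) := by
      intro x y
      have : kap' Λ p₀ u (Sum.inl (x, y)) = Lam S u.1 y x.1 := rfl
      rw [this, hu]
      split_ifs <;> simp
    have h3 : ∀ (x : {p : S // p.1 ∉ Λ}),
        (if Sum.inr x ∈ T then kap' Λ p₀ u (Sum.inr x) else 0)
        = (if x.1 = q then (if Sum.inr x ∈ T then (1 : ZMod 2) else 0) else 0) := by
      intro x
      have : kap' Λ p₀ u (Sum.inr x) = Lam S u.1 x.1 x.1 := rfl
      have hxp : x.1 ≠ p := by rintro h; exact x.2 (h ▸ hp)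
      have e : (if x.1 = p ∧ x.1 = q then (1 : ZMod 2) else 0)
          + (if x.1 = x.1 ∧ x.1 = q then 1 else 0) = if x.1 = q then 1 else 0 := by
        rw [if_neg (fun h : x.1 = p ∧ x.1 = q => hxp h.1), zero_add]
        simp
      rw [this, hu, e]
      by_cases h1 : x.1 = q
      · simp only [if_pos h1]
      · simp only [if_neg h1, ite_self]
    simp only [h2, h3, Finset.sum_add_distrib]
    have h4 : ∑ x : {p : S // p.1 ∈ Λ ∧ p ≠ p₀}, ∑ y : S,
        (if x.1 = p ∧ y = q then (if Sum.inl (x, y) ∈ T then (1 : ZMod 2) else 0) else 0) = w q p := by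
      have e1 : ∀ x : {p : S // p.1 ∈ Λ ∧ p ≠ p₀}, ∑ y : S,
        (if x.1 = p ∧ y = q then (if Sum.inl (x, y) ∈ T then (1 : ZMod 2) else 0) else 0)
          = if x.1 = p then (if Sum.inl (x, q) ∈ T then (1 : ZMod 2) else 0) else 0 := by
        intro x
        rw [Finset.sum_eq_single q]
        · simp
        · intro y _ hy; simp [hy]
        · intro h; exact absurd (Finset.mem_univ _) h
      simp only [e1]
      rw [hw]
      simp only
      rw [dif_neg (not_not.mpr hp), add_zero]
      by_cases hpp : p ≠ p₀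
      · rw [dif_pos ⟨hp, hpp⟩, Finset.sum_eq_single (⟨p, hp, hpp⟩ : {p : S // p.1 ∈ Λ ∧ p ≠ p₀})]
        · simp
        · intro x _ hx
          rw [if_neg (fun h => hx (Subtype.ext h))]
        · intro h; exact absurd (Finset.mem_univ _) h
      · rw [dif_neg (fun h => hpp h.2)]
        apply Finset.sum_eq_zero
        intro x _
        rw [if_neg (fun h : x.1 = p => hpp (h ▸ x.2.2))]
    have h5 : ∑ x : {p : S // p.1 ∈ Λ ∧ p ≠ p₀}, ∑ y : S,
        (if y = x.1 ∧ y = q then (if Sum.inl (x, y) ∈ T then (1 : ZMod 2) else 0) else 0)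
        + ∑ x : {p : S // p.1 ∉ Λ}, (if x.1 = q then (if Sum.inr x ∈ T then (1 : ZMod 2) else 0) else 0)
        = w q q := by
      have e1 : ∀ x : {p : S // p.1 ∈ Λ ∧ p ≠ p₀}, ∑ y : S,
        (if y = x.1 ∧ y = q then (if Sum.inl (x, y) ∈ T then (1 : ZMod 2) else 0) else 0)
          = if x.1 = q then (if Sum.inl (x, q) ∈ T then (1 : ZMod 2) else 0) else 0 := by
        intro x
        rw [Finset.sum_eq_single q]
        · by_cases h : x.1 = q
          · simp [h]
          · simp [h, Ne.symm h]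
        · intro y _ hy; simp [hy]
        · intro h; exact absurd (Finset.mem_univ _) h
      simp only [e1]
      rw [hw]
      simp only
      congr 1
      · by_cases hq : q.1 ∈ Λ ∧ q ≠ p₀
        · rw [dif_pos hq, Finset.sum_eq_single (⟨q, hq⟩ : {p : S // p.1 ∈ Λ ∧ p ≠ p₀})]
          · simp
          · intro x _ hx
            rw [if_neg (fun h => hx (Subtype.ext h))]
          · intro h; exact absurd (Finset.mem_univ _) h
        · rw [dif_neg hq]
          apply Finset.sum_eq_zero
          intro x _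
          rw [if_neg (fun h : x.1 = q => hq (h ▸ x.2))]
      · by_cases hq : q.1 ∉ Λ
        · rw [dif_pos hq, Finset.sum_eq_single (⟨q, hq⟩ : {p : S // p.1 ∉ Λ})]
          · simp
          · intro x _ hx
            rw [if_neg (fun h => hx (Subtype.ext h))]
          · intro h; exact absurd (Finset.mem_univ _) h
        · rw [dif_neg hq]
          apply Finset.sum_eq_zero
          intro x _
          rw [if_neg (fun h : x.1 = q => hq (h ▸ x.2))]
    rw [h4, add_assoc, h5]
  by_cases hd : ∃ q : S, w q q = 1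
  · obtain ⟨q, hq⟩ := hd
    have hqp : q ≠ p₀ := by
      rintro rfl
      rw [hw] at hq
      simp [hp₀] at hq
    obtain ⟨u, hu⟩ := hex p₀ q hp₀ hqp
    refine ⟨u, ?_⟩
    rw [hval p₀ q hp₀ hqp u hu, hq]
    have : w q p₀ = 0 := by rw [hw]; simp [hp₀]
    rw [this, zero_add]
  · push Not at hd
    have hd0 : ∀ q : S, w q q = 0 := fun q => by
      rcases zmod_cases (w q q) with h | h
      · exact h
      · exact absurd h (hd q)
    obtain ⟨i, hi⟩ := hT
    rcases i with ⟨⟨p, hp⟩, q⟩ | ⟨p, hp⟩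
    · have hwqp : w q p = 1 := by
        rw [hw]
        simp only
        rw [dif_pos hp, if_pos hi, dif_neg (not_not.mpr hp.1), add_zero]
      have hqp : q ≠ p := by
        rintro rfl
        rw [hd0] at hwqp
        exact zero_ne_one hwqp
      obtain ⟨u, hu⟩ := hex p q hp.1 hqp
      refine ⟨u, ?_⟩
      rw [hval p q hp.1 hqp u hu, hwqp, hd0, add_zero]
    · exfalso
      have hwpp : w p p = 1 := by
        rw [hw]
        simp only
        rw [dif_neg (fun h => hp h.1), dif_pos hp, zero_add]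
        exact if_pos ⟨trivial, hi⟩
      exact hd p hwpp

end Coset

end Pool.Agent.H2
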