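import Pool.Agent.H2.VMat
import Pool.Agent.H2.VCos
import Pool.Agent.H2.Euler

/-!
# The proportion of the invertible matrices in a coset, II
-/

namespace Pool.Agent.H2

open Polynomial IsDedekindDomain Module

universe u

variable {k : Type u} [Field k] [Finite k] [CharP k 2]

/-- the degree of a set of places -/
noncomputable def dg (T : Finset (HeightOneSpectrum k[X])) : ℕ := ∑ p ∈ T, (gQ p).natDegree

/-- the product of a set of places -/
noncomputable def pr (T : Finset (HeightOneSpectrum k[X])) : k[X] := ∏ p ∈ T, gQ p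

theorem pr_monic (T : Finset (HeightOneSpectrum k[X])) : (pr T).Monic :=
  monic_prod_of_monic _ _ fun p _ => gQ_monic p

theorem pr_ne (T : Finset (HeightOneSpectrum k[X])) : pr T ≠ 0 := (pr_monic T).ne_zero

theorem pr_deg (T : Finset (HeightOneSpectrum k[X])) : (pr T).natDegree = dg T :=
  natDegree_prod_of_monic _ _ fun p _ => gQ_monic p

theorem pr_map_ne (T : Finset (HeightOneSpectrum k[X])) :
    algebraMap k[X] (RatFunc k) (pr T) ≠ 0 := by
  rw [Ne, FaithfulSMul.algebraMap_eq_zero_iff]; exact pr_ne T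

theorem pr_in {T : Finset (HeightOneSpectrum k[X])} {p : HeightOneSpectrum k[X]} (hp : p ∈ T) :
    finAbv p (algebraMap k[X] (RatFunc k) (pr T)) = 2⁻¹ := by
  classical
  unfold pr
  rw [← Finset.mul_prod_erase _ _ hp, map_mul, map_mul, finAbv_unif (gQ_irr p) (gQ_span p),
    map_prod, map_prod]
  rw [Finset.prod_eq_one, mul_one]
  intro q hq
  exact finAbv_gen (gQ_span q) (Finset.ne_of_mem_erase hq).symm

theorem pr_out {T : Finset (HeightOneSpectrum k[X])} {p : HeightOneSpectrum k[X]} (hp : p ∉ T) :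
    finAbv p (algebraMap k[X] (RatFunc k) (pr T)) = 1 := by
  classical
  unfold pr
  rw [map_prod, map_prod, Finset.prod_eq_one]
  intro q hq
  exact finAbv_gen (gQ_span q) (by rintro rfl; exact hp hq)

theorem UU_poly {Λ : Finset (HeightOneSpectrum k[X])} {v : RatFunc k} (hv : v ∈ UU Λ) :
    ∃ f : k[X], f ∈ degreeLT k (dg Λ) ∧
      algebraMap k[X] (RatFunc k) f = algebraMap k[X] (RatFunc k) (pr Λ) * v := by
  obtain ⟨f, hf⟩ := poly_of_int (f := algebraMap k[X] (RatFunc k) (pr Λ) * v) (fun q => by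
    rw [map_mul]
    by_cases hq : q ∈ Λ
    · rw [pr_in hq]
      have := hv.2.1 q hq
      linarith
    · rw [pr_out hq, one_mul]; exact hv.2.2 q hq)
  refine ⟨f, ?_, hf⟩
  rw [mem_degreeLT]
  by_cases h0 : f = 0
  · rw [h0, degree_zero]; exact WithBot.bot_lt_coe _
  · rw [← natDegree_lt_iff_degree_lt h0, ← pr_deg]
    have h1 := congrArg (infAbv k) hf
    rw [infAbv_poly h0, map_mul, infAbv_poly (pr_ne Λ)] at h1
    have h2 : (2 : ℝ) ^ (f.natDegree : ℤ) < (2 : ℝ) ^ ((pr Λ).natDegree : ℤ) := by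
      rw [h1]
      have h3 : (0 : ℝ) < (2 : ℝ) ^ ((pr Λ).natDegree : ℤ) := by positivity
      have h4 := hv.1
      nlinarith
    have h3 := (zpow_lt_zpow_iff_right₀ (by norm_num : (1 : ℝ) < 2)).mp h2
    exact_mod_cast h3

theorem card_degreeLT (n : ℕ) : Nat.card (degreeLT k n) = Nat.card k ^ n := by
  rw [Nat.card_congr (degreeLTEquiv k n).toEquiv, Nat.card_fun, Nat.card_eq_fintype_card (α := Fin n),
    Fintype.card_fin]

instance finite_degreeLT (n : ℕ) : Finite (degreeLT k n) :=
  Finite.of_equiv _ (degreeLTEquiv k n).toEquiv.symm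

theorem UU_emb (Λ : Finset (HeightOneSpectrum k[X])) :
    ∃ f : UU Λ → degreeLT k (dg Λ), Function.Injective f := by
  choose f hf1 hf2 using fun v : UU Λ => UU_poly v.2
  refine ⟨fun v => ⟨f v, hf1 v⟩, fun v w h => ?_⟩
  have h1 : f v = f w := congrArg Subtype.val h
  have h2 := hf2 v
  rw [h1, hf2 w] at h2
  exact Subtype.ext (mul_left_cancel₀ (pr_map_ne Λ) h2).symm

instance finite_UU (Λ : Finset (HeightOneSpectrum k[X])) : Finite (UU Λ) := by
  obtain ⟨f, hf⟩ := UU_emb Λ
  exact Finite.of_injective f hf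

theorem card_UU_le (Λ : Finset (HeightOneSpectrum k[X])) : Nat.card (UU Λ) ≤ Nat.card k ^ dg Λ := by
  obtain ⟨f, hf⟩ := UU_emb Λ
  rw [← card_degreeLT]
  exact Nat.card_le_card_of_injective f hf

/-- the matrix of `a` is invertible -/
def GoodM (S : Finset (HeightOneSpectrum k[X])) (a : RatFunc k) : Prop :=
  (∀ x, Matrix.mulVec (Lam S a) x = 0 → x = 0) ∧ ∀ x, Matrix.vecMul x (Lam S a) = 0 → x = 0

theorem card_goodM {S Λ : Finset (HeightOneSpectrum k[X])} (hΛ : Λ ⊆ S) (p₀ : S) (hp₀ : p₀.1 ∈ Λ)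
    (hG : ∀ (_ : DecidableEq (HeightOneSpectrum k[X])), ∀ p ∈ Λ, Gen p (S.erase p))
    {a : RatFunc k} (hI : Ind S Λ a) :
    2887 / 10000 * (Nat.card (UU Λ) : ℝ) ≤ Nat.card {u : UU Λ // GoodM S (a + u.1)} := by
  classical
  set V := S → ZMod 2 with hV
  set M₀ := Lam S a with hM₀
  set t : V := M₀.mulVec 1 with ht
  set colL : (Pos Λ p₀ → ZMod 2) → {p : S // p.1 ∈ Λ ∧ p ≠ p₀} → V :=
    fun y x q => M₀ q x.1 + y (Sum.inl (x, q)) with hcolL
  set colS : ({p : S // p.1 ∉ Λ} → ZMod 2) → {p : S // p.1 ∉ Λ} → V :=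
    fun δ x q => M₀ q x.1 + (if q = x.1 then δ x else 0) with hcolS
  set W : ({p : S // p.1 ∉ Λ} → ZMod 2) → Submodule (ZMod 2) V :=
    fun δ => Submodule.span (ZMod 2) (insert t (Set.range (colS δ))) with hW
  set A : Set (Pos Λ p₀ → ZMod 2) := {y | W (fun x => y (Sum.inr x)) ⊔
    Submodule.span (ZMod 2) (Set.range (colL y)) = ⊤} with hA
  have hsurj := kap'_surj p₀ hΛ hp₀ (hG inferInstance)
  -- (1)
  have h1 : ∀ u : UU Λ, kap' Λ p₀ u ∈ A → GoodM S (a + u.1) := by
    intro u hu
    have hMt : (Lam S (a + u.1)).mulVec 1 = t := by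
      rw [Lam_add, Matrix.add_mulVec]
      have : (Lam S u.1).mulVec 1 = 0 := by
        funext q
        rw [Lam_one, gp_UU hΛ u.2, TT_zero]; rfl
      rw [this, add_zero]
    apply mat_inj (p₀ := p₀)
    rw [hMt, eq_top_iff, ← (show _ = _ from hu)]
    refine sup_le ?_ ?_
    · rw [hW]
      apply Submodule.span_mono
      apply Set.insert_subset_insert
      rintro c ⟨x, rfl⟩
      refine ⟨x.1, fun h => x.2 (h ▸ hp₀), ?_⟩
      funext q
      change M₀ q x.1 + _ = (Lam S (a + u.1)) q x.1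
      rw [Lam_add, Matrix.add_apply]
      congr 1
      by_cases hq : q = x.1
      · rw [if_pos hq, hq]; rfl
      · rw [if_neg hq]
        unfold Lam
        rw [if_neg hq, pp_of_reg (u.2.2.2 x.1.1 x.2), TT_zero]
    · apply Submodule.span_mono
      rintro c ⟨x, rfl⟩
      right
      refine ⟨x.1, x.2.2, ?_⟩
      funext q
      change M₀ q x.1 + _ = (Lam S (a + u.1)) q x.1
      rw [Lam_add, Matrix.add_apply]
      rfl
  -- (2)
  set d := Fintype.card {p : S // p.1 ∈ Λ ∧ p ≠ p₀} with hd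
  have hcard : Fintype.card S = Fintype.card {p : S // p.1 ∉ Λ} + 1 + d := by
    have e1 := Fintype.card_congr (Equiv.sumCompl (fun p : S => p.1 ∉ Λ))
    rw [Fintype.card_sum] at e1
    have e2 : Fintype.card {p : S // ¬ (p.1 ∉ Λ)} = d + 1 := by
      rw [hd, Fintype.card_subtype, Fintype.card_subtype]
      have e3 : Finset.univ.filter (fun p : S => ¬ p.1 ∉ Λ)
          = insert p₀ (Finset.univ.filter (fun p : S => p.1 ∈ Λ ∧ p ≠ p₀)) := by
        ext p
        simp only [Finset.mem_filter, Finset.mem_univ, true_and, Finset.mem_insert, not_not]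
        constructor
        · intro h
          by_cases hp : p = p₀
          · exact Or.inl hp
          · exact Or.inr ⟨h, hp⟩
        · rintro (h | h)
          · rw [h]; exact hp₀
          · exact h.1
      rw [e3, Finset.card_insert_of_notMem]
      simp
    omega
  have hrank : ∀ δ, finrank (ZMod 2) (W δ) + d = finrank (ZMod 2) V := by
    intro δ
    have e1 : Set.range (fun o : Option {p : S // p.1 ∉ Λ} => o.elim t (colS δ))
        = insert t (Set.range (colS δ)) := by
      ext c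
      constructor
      · rintro ⟨o, rfl⟩
        rcases o with _ | x
        · exact Or.inl rfl
        · exact Or.inr ⟨x, rfl⟩
      · rintro (rfl | ⟨x, rfl⟩)
        · exact ⟨none, rfl⟩
        · exact ⟨some x, rfl⟩
    have e2 : LinearIndependent (ZMod 2)
        (fun o : Option {p : S // p.1 ∉ Λ} => o.elim t (colS δ)) := by
      rw [Fintype.linearIndependent_iff]
      intro g hg
      by_contra hne
      push Not at hne
      obtain ⟨o₀, ho₀⟩ := hne
      set T : Finset (HeightOneSpectrum k[X]) :=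
        (Finset.univ.filter (fun x : {p : S // p.1 ∉ Λ} => g (some x) = 1)).map
          ((Function.Embedding.subtype _).trans (Function.Embedding.subtype _)) with hT
      have hTS : T ⊆ S := by
        intro q hq
        rw [hT, Finset.mem_map] at hq
        obtain ⟨r, -, rfl⟩ := hq
        exact r.1.2
      have hTΛ : Disjoint T Λ := by
        rw [Finset.disjoint_left]
        intro q hq
        rw [hT, Finset.mem_map] at hq
        obtain ⟨r, -, rfl⟩ := hq
        exact r.2
      have hor : g none ≠ 0 ∨ T.Nonempty := by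
        rcases o₀ with _ | x
        · exact Or.inl ho₀
        · right
          refine ⟨x.1.1, ?_⟩
          rw [hT, Finset.mem_map]
          refine ⟨x, ?_, rfl⟩
          rw [Finset.mem_filter]
          refine ⟨Finset.mem_univ _, ?_⟩
          rcases zmod_cases (g (some x)) with h | h
          · exact absurd h ho₀
          · exact h
      obtain ⟨q, hq, hq1⟩ := hI (g none) T hTS hTΛ hor
      have h3 := congrFun hg ⟨q, hΛ hq⟩
      rw [Fintype.sum_option] at h3
      simp only [Option.elim] at h3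
      rw [Pi.add_apply, Finset.sum_apply, Pi.smul_apply, Pi.zero_apply, smul_eq_mul] at h3
      have e3 : t ⟨q, hΛ hq⟩ = TT q (gp S a) := Lam_one S a ⟨q, hΛ hq⟩
      have e4 : ∀ x : {p : S // p.1 ∉ Λ}, (g (some x) • colS δ x) ⟨q, hΛ hq⟩
          = g (some x) * TT q (pp x.1.1 a) := by
        intro x
        rw [Pi.smul_apply, smul_eq_mul]
        congr 1
        have hne : (⟨q, hΛ hq⟩ : S) ≠ x.1 := fun h => x.2 (h ▸ hq)
        change M₀ ⟨q, hΛ hq⟩ x.1 + (if (⟨q, hΛ hq⟩ : S) = x.1 then δ x else 0) = _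
        rw [if_neg hne, add_zero, hM₀]
        unfold Lam
        rw [if_neg hne]
      rw [e3, Finset.sum_congr rfl fun x _ => e4 x] at h3
      have hgpint : finAbv q (gp S a) ≤ 1 := by
        unfold gp
        rw [← Finset.add_sum_erase _ _ (hΛ hq), ← sub_sub]
        refine (fin_sub q _ _).trans (max_le (pp_reg q a) ?_)
        exact fin_sum_le q _ _ fun p hp => pp_int (Finset.ne_of_mem_erase hp).symm a
      have hppint : ∀ p ∈ T, finAbv q (pp p a) ≤ 1 := fun p hp => pp_int (by
        rintro rfl; exact (Finset.disjoint_left.mp hTΛ hp) hq) a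
      rw [TT_add, TT_zt, TT_sum q _ _ hppint, hT, Finset.sum_map, Finset.sum_filter] at hq1
      · have e5 : ∑ x : {p : S // p.1 ∉ Λ}, g (some x) * TT q (pp x.1.1 a)
            = ∑ x : {p : S // p.1 ∉ Λ}, (if g (some x) = 1 then TT q (pp
              (((Function.Embedding.subtype _).trans (Function.Embedding.subtype _)) x) a) else 0) := by
          apply Finset.sum_congr rfl
          intro x _
          rcases zmod_cases (g (some x)) with h | h
          · rw [h, zero_mul, if_neg (by decide)]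
          · rw [h, one_mul, if_pos rfl]; rfl
        rw [e5, hq1] at h3
        exact one_ne_zero h3
      · rw [map_mul]
        exact mul_le_one₀ (zero_one (zt_cases _) q) ((finAbv q).nonneg _) hgpint
      · exact fin_sum_le q _ _ hppint
    have e3 : finrank (ZMod 2) (W δ) = Fintype.card {p : S // p.1 ∉ Λ} + 1 := by
      have e4 : W δ = Submodule.span (ZMod 2)
          (Set.range (fun o : Option {p : S // p.1 ∉ Λ} => o.elim t (colS δ))) := by rw [e1]
      rw [e4, finrank_span_eq_card e2, Fintype.card_option]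
    have e4 : finrank (ZMod 2) V = Fintype.card S := Module.finrank_fintype_fun_eq_card _
    rw [e3, e4, hcard]
  have h2 : PP d * (Nat.card (Pos Λ p₀ → ZMod 2) : ℝ) ≤ Nat.card A := by
    set e : Fin d ≃ {p : S // p.1 ∈ Λ ∧ p ≠ p₀} := (Fintype.equivFin _).symm with he
    have h3 : Nat.card (Σ δ : {p : S // p.1 ∉ Λ} → ZMod 2,
        {C : Fin d → V // W δ ⊔ Submodule.span (ZMod 2) (Set.range C) = ⊤}) ≤ Nat.card A := by
      apply Nat.card_le_card_of_injective (fun x => ⟨Sum.elim
        (fun y => M₀ y.2 y.1.1 + x.2.1 (e.symm y.1) y.2) x.1, by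
          rw [hA]
          change W x.1 ⊔ _ = ⊤
          refine Eq.trans ?_ x.2.2
          congr 2
          ext c
          constructor
          · rintro ⟨y, rfl⟩
            refine ⟨e.symm y, ?_⟩
            funext q
            change _ = M₀ q y.1 + (M₀ q y.1 + x.2.1 (e.symm y) q)
            rw [← add_assoc, CharTwo.add_self_eq_zero, zero_add]
          · rintro ⟨i, rfl⟩
            refine ⟨e i, ?_⟩
            funext q
            change M₀ q (e i).1 + (M₀ q (e i).1 + x.2.1 (e.symm (e i)) q) = _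
            rw [← add_assoc, CharTwo.add_self_eq_zero, zero_add, Equiv.symm_apply_apply]⟩)
      rintro ⟨δ, C, hC⟩ ⟨δ', C', hC'⟩ h
      have h4 := congrArg Subtype.val h
      have h5 : δ = δ' := by
        funext x
        exact congrFun h4 (Sum.inr x)
      subst h5
      have h6 : C = C' := by
        funext i q
        have h7 : M₀ q (e i).1 + C (e.symm (e i)) q = M₀ q (e i).1 + C' (e.symm (e i)) q :=
          congrFun h4 (Sum.inl (e i, q))
        rw [Equiv.symm_apply_apply] at h7
        exact add_left_cancel h7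
      subst h6
      rfl
    rw [Nat.card_sigma] at h3
    have h4 : ∀ δ, (Nat.card V : ℝ) ^ d * PP d ≤
        (Nat.card {C : Fin d → V // W δ ⊔ Submodule.span (ZMod 2) (Set.range C) = ⊤} : ℝ) :=
      fun δ => card_complete d (W δ) (hrank δ)
    have h5 : ∑ _δ : {p : S // p.1 ∉ Λ} → ZMod 2, ((Nat.card V : ℝ) ^ d * PP d) ≤
        ((∑ δ : {p : S // p.1 ∉ Λ} → ZMod 2,
          Nat.card {C : Fin d → V // W δ ⊔ Submodule.span (ZMod 2) (Set.range C) = ⊤} : ℕ) : ℝ) := by
      push_cast
      exact Finset.sum_le_sum fun δ _ => h4 δ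
    have h6 : (Nat.card (Pos Λ p₀ → ZMod 2) : ℝ)
        = (Nat.card V : ℝ) ^ d * Nat.card ({p : S // p.1 ∉ Λ} → ZMod 2) := by
      have e1 : Nat.card (Pos Λ p₀ → ZMod 2) = Nat.card V ^ d
          * Nat.card ({p : S // p.1 ∉ Λ} → ZMod 2) := by
        rw [Nat.card_congr (Equiv.sumArrowEquivProdArrow _ _ _), Nat.card_prod,
          Nat.card_congr (Equiv.curry _ _ _), Nat.card_fun,
          Nat.card_eq_fintype_card (α := {p : S // p.1 ∈ Λ ∧ p ≠ p₀})]
      rw [e1]; push_cast; ring
    rw [Finset.sum_const, nsmul_eq_mul, Finset.card_univ, ← Nat.card_eq_fintype_card] at h5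
    rw [h6]
    calc PP d * ((Nat.card V : ℝ) ^ d * Nat.card ({p : S // p.1 ∉ Λ} → ZMod 2))
        = (Nat.card ({p : S // p.1 ∉ Λ} → ZMod 2) : ℝ) * ((Nat.card V : ℝ) ^ d * PP d) := by ring
      _ ≤ _ := h5
      _ ≤ Nat.card A := by exact_mod_cast h3
  have h3 := card_preimage (kap' Λ p₀) hsurj A
  have h4 : Nat.card {u : UU Λ // kap' Λ p₀ u ∈ A} ≤ Nat.card {u : UU Λ // GoodM S (a + u.1)} :=
    Nat.card_le_card_of_injective (fun u => ⟨u.1, h1 u.1 u.2⟩) (fun u v h => by
      have := congrArg Subtype.val h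
      exact Subtype.ext this)
  have h5 : (0 : ℝ) < Nat.card (Pos Λ p₀ → ZMod 2) := by exact_mod_cast Nat.card_pos
  have h6 : (Nat.card {u : UU Λ // kap' Λ p₀ u ∈ A} : ℝ) * Nat.card (Pos Λ p₀ → ZMod 2)
      = Nat.card A * Nat.card (UU Λ) := by exact_mod_cast h3
  have h7 := PP_ge d
  have h8 : (Nat.card {u : UU Λ // kap' Λ p₀ u ∈ A} : ℝ)
      ≤ Nat.card {u : UU Λ // GoodM S (a + u.1)} := by exact_mod_cast h4
  refine le_trans ?_ h8
  have h9 : (0 : ℝ) ≤ Nat.card (UU Λ) := by positivity
  by_contra hlt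
  rw [not_le] at hlt
  have h10 : (Nat.card {u : UU Λ // kap' Λ p₀ u ∈ A} : ℝ) * Nat.card (Pos Λ p₀ → ZMod 2)
      < 2887 / 10000 * (Nat.card (UU Λ) : ℝ) * Nat.card (Pos Λ p₀ → ZMod 2) :=
    mul_lt_mul_of_pos_right hlt h5
  rw [h6] at h10
  have h11 : PP d * (Nat.card (Pos Λ p₀ → ZMod 2) : ℝ) * Nat.card (UU Λ) ≤
      Nat.card A * Nat.card (UU Λ) := mul_le_mul_of_nonneg_right h2 h9
  have h12 : 2887 / 10000 * (Nat.card (UU Λ) : ℝ) * Nat.card (Pos Λ p₀ → ZMod 2)
      ≤ PP d * (Nat.card (Pos Λ p₀ → ZMod 2) : ℝ) * Nat.card (UU Λ) := by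
    have : (2887 : ℝ) / 10000 * ((Nat.card (UU Λ) : ℝ) * Nat.card (Pos Λ p₀ → ZMod 2))
      ≤ PP d * ((Nat.card (UU Λ) : ℝ) * Nat.card (Pos Λ p₀ → ZMod 2)) :=
      mul_le_mul_of_nonneg_right h7 (by positivity)
    nlinarith
  linarith

end Pool.Agent.H2
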