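import Pool.Agent.H2.VCos2

/-!
# Counting places and sets of places
-/

namespace Pool.Agent.H2

open Polynomial IsDedekindDomain

universe u

variable {k : Type u} [Field k] [Finite k] [CharP k 2]

/-- the degree of a place -/
noncomputable def dp (p : HeightOneSpectrum k[X]) : ℕ := (gQ p).natDegree

theorem dp_pos (p : HeightOneSpectrum k[X]) : 0 < dp p := (gQ_irr p).natDegree_pos

theorem gQ_inj : Function.Injective (gQ : HeightOneSpectrum k[X] → k[X]) := by
  intro p r h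
  by_contra hne
  exact gQ_not_dvd hne (h ▸ dvd_rfl)

theorem dg_eq (T : Finset (HeightOneSpectrum k[X])) : dg T = ∑ p ∈ T, dp p := rfl

theorem places_finite (n : ℕ) : {p : HeightOneSpectrum k[X] | dp p ≤ n}.Finite := by
  have h1 : Finite (degreeLT k (n + 1)) := inferInstance
  have h2 : ((degreeLT k (n + 1) : Submodule k k[X]) : Set k[X]).Finite := h1
  apply Set.Finite.of_finite_image (f := gQ) _ gQ_inj.injOn
  refine h2.subset ?_
  rintro P ⟨p, hp, rfl⟩
  rw [SetLike.mem_coe, mem_degreeLT, degree_eq_natDegree (gQ_irr p).ne_zero]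
  have : dp p ≤ n := hp
  unfold dp at this
  exact_mod_cast Nat.lt_succ_of_le this

/-- the places of degree at most `n` -/
noncomputable def PL (k : Type u) [Field k] [Finite k] [CharP k 2] (n : ℕ) :
    Finset (HeightOneSpectrum k[X]) := (places_finite (k := k) n).toFinset

theorem mem_PL {n : ℕ} {p : HeightOneSpectrum k[X]} : p ∈ PL k n ↔ dp p ≤ n :=
  (places_finite n).mem_toFinset

/-- a monic irreducible polynomial of degree `l` divides `X ^ (q ^ l) - X` -/
theorem gQ_dvd (p : HeightOneSpectrum k[X]) :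
    gQ p ∣ X ^ (Nat.card k ^ dp p) - X := by
  have : Fintype k := Fintype.ofFinite k
  have hirr : Fact (Irreducible (gQ p)) := ⟨gQ_irr p⟩
  set F := AdjoinRoot (gQ p) with hF
  have h1 : Module.Finite k F := (AdjoinRoot.powerBasis (gQ_irr p).ne_zero).finite
  have h2 : Finite F := Module.finite_of_finite k
  have h3 : Fintype F := Fintype.ofFinite F
  have h4 : Fintype.card F = Nat.card k ^ dp p := by
    rw [Module.card_eq_pow_finrank (K := k) (V := F),
      (AdjoinRoot.powerBasis (gQ_irr p).ne_zero).finrank, AdjoinRoot.powerBasis_dim,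
      Nat.card_eq_fintype_card]
    rfl
  rw [← AdjoinRoot.mk_eq_zero, map_sub, map_pow, AdjoinRoot.mk_X, ← h4, FiniteField.pow_card,
    sub_self]

theorem card_places (S : Finset (HeightOneSpectrum k[X])) (l : ℕ) (h : ∀ p ∈ S, dp p = l) :
    l * S.card ≤ Nat.card k ^ l := by
  classical
  rcases S.eq_empty_or_nonempty with rfl | ⟨p₀, hp₀⟩
  · simp
  have hl : 0 < l := by rw [← h p₀ hp₀]; exact dp_pos p₀
  have hq : 1 < Nat.card k := Finite.one_lt_card
  have hql : 1 < Nat.card k ^ l := Nat.one_lt_pow hl.ne' hq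
  have h1 : pr S ∣ X ^ (Nat.card k ^ l) - X := by
    apply Finset.prod_dvd_of_coprime
    · intro p _ q _ hpq
      exact (gQ_irr p).coprime_iff_not_dvd.mpr (gQ_not_dvd hpq)
    · intro p hp
      have := gQ_dvd p
      rwa [h p hp] at this
  have h2 : (X ^ (Nat.card k ^ l) - X : k[X]) ≠ 0 := FiniteField.X_pow_card_sub_X_ne_zero k hql
  have h3 := natDegree_le_of_dvd h1 h2
  rw [pr_deg, FiniteField.X_pow_card_sub_X_natDegree_eq k hql] at h3
  have h4 : dg S = l * S.card := by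
    rw [dg_eq, Finset.sum_congr rfl h, Finset.sum_const, smul_eq_mul, mul_comm]
  rwa [h4] at h3

theorem qpos : (0 : ℝ) < Nat.card k := by exact_mod_cast Nat.card_pos

/-- sums over places grouped by degree -/
theorem sum_places (S : Finset (HeightOneSpectrum k[X])) {n : ℕ} (hn : ∀ p ∈ S, dp p ≤ n)
    (f : ℕ → ℝ) (hf : ∀ j, 0 ≤ f j) :
    ∑ p ∈ S, (dp p : ℝ) * f (dp p) ≤ ∑ j ∈ Finset.Icc 1 n, (Nat.card k : ℝ) ^ j * f j := by
  classical
  have h1 : ∑ p ∈ S, (dp p : ℝ) * f (dp p)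
      = ∑ j ∈ Finset.Icc 1 n, ∑ p ∈ S.filter (fun p => dp p = j), (dp p : ℝ) * f (dp p) :=
    (Finset.sum_fiberwise_of_maps_to (fun p hp => Finset.mem_Icc.mpr ⟨dp_pos p, hn p hp⟩) _).symm
  rw [h1]
  apply Finset.sum_le_sum
  intro j _
  have h2 : ∑ p ∈ S.filter (fun p => dp p = j), (dp p : ℝ) * f (dp p)
      = ((j * (S.filter (fun p => dp p = j)).card : ℕ) : ℝ) * f j := by
    rw [Finset.sum_congr rfl (g := fun _ => (j : ℝ) * f j) (fun p hp => by
      rw [(Finset.mem_filter.mp hp).2]), Finset.sum_const, nsmul_eq_mul]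
    push_cast; ring
  rw [h2]
  apply mul_le_mul_of_nonneg_right _ (hf j)
  exact_mod_cast card_places _ j (fun p hp => (Finset.mem_filter.mp hp).2)

theorem harm_le (n : ℕ) (hn : 1 ≤ n) : ∑ j ∈ Finset.Icc 1 n, (1 : ℝ) / j ≤ 1 + Real.log n := by
  have h1 := harmonic_le_one_add_log n
  rw [harmonic_eq_sum_Icc] at h1
  push_cast at h1
  simpa [one_div] using h1

/-- the sum of `x ^ deg / q ^ deg` over places -/
theorem sum_inv_le (S : Finset (HeightOneSpectrum k[X])) {n : ℕ} (hn : ∀ p ∈ S, dp p ≤ n) (h1n : 1 ≤ n)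
    {y : ℝ} (hy : 0 ≤ y) (g : ℕ → ℝ) (hg0 : ∀ j, 0 ≤ g j) (hg : ∀ j, j ≤ n → g j ≤ y) :
    ∑ p ∈ S, g (dp p) * ((Nat.card k : ℝ) ^ dp p)⁻¹ ≤ y * (1 + Real.log n) := by
  have hq := qpos (k := k)
  have h1 := sum_places S hn (fun j => g j * ((Nat.card k : ℝ) ^ j)⁻¹ / j)
    (fun j => by have := hg0 j; positivity)
  have h2 : ∑ p ∈ S, g (dp p) * ((Nat.card k : ℝ) ^ dp p)⁻¹
      = ∑ p ∈ S, (dp p : ℝ) * (g (dp p) * ((Nat.card k : ℝ) ^ dp p)⁻¹ / dp p) := by
    apply Finset.sum_congr rfl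
    intro p _
    have : (dp p : ℝ) ≠ 0 := by exact_mod_cast (dp_pos p).ne'
    field_simp
  rw [h2]
  refine h1.trans ?_
  have h3 : ∑ j ∈ Finset.Icc 1 n, (Nat.card k : ℝ) ^ j * (g j * ((Nat.card k : ℝ) ^ j)⁻¹ / j)
      ≤ ∑ j ∈ Finset.Icc 1 n, y * (1 / j) := by
    apply Finset.sum_le_sum
    intro j hj
    have h4 := hg j (Finset.mem_Icc.mp hj).2
    have h5 : (0 : ℝ) < (Nat.card k : ℝ) ^ j := by positivity
    have h6 : (Nat.card k : ℝ) ^ j * (g j * ((Nat.card k : ℝ) ^ j)⁻¹ / j) = g j * (1 / j) := by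
      field_simp
    rw [h6]
    apply mul_le_mul_of_nonneg_right h4
    positivity
  refine h3.trans ?_
  rw [← Finset.mul_sum]
  exact mul_le_mul_of_nonneg_left (harm_le n h1n) hy

theorem prod_le_exp {ι : Type*} (S : Finset ι) (f : ι → ℝ) (hf : ∀ i ∈ S, 0 ≤ f i) :
    ∏ i ∈ S, (1 + f i) ≤ Real.exp (∑ i ∈ S, f i) := by
  rw [Real.exp_sum]
  apply Finset.prod_le_prod
  · intro i hi; have := hf i hi; linarith
  · intro i _
    have := Real.add_one_le_exp (f i)
    linarith

section Rankin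

open scoped Classical in
/-- the subsets of `S` of degree `n` -/
noncomputable def FF (S : Finset (HeightOneSpectrum k[X])) (n : ℕ) :
    Finset (Finset (HeightOneSpectrum k[X])) := S.powerset.filter (fun T => dg T = n)

theorem mem_FF {S T : Finset (HeightOneSpectrum k[X])} {n : ℕ} :
    T ∈ FF S n ↔ T ⊆ S ∧ dg T = n := by
  unfold FF
  rw [Finset.mem_filter, Finset.mem_powerset]

theorem dg_insert [DecidableEq (HeightOneSpectrum k[X])] {T : Finset (HeightOneSpectrum k[X])}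
    {p : HeightOneSpectrum k[X]} (hp : p ∉ T) : dg (insert p T) = dp p + dg T := by
  rw [dg_eq, Finset.sum_insert hp, dg_eq]

theorem dg_erase [DecidableEq (HeightOneSpectrum k[X])] {T : Finset (HeightOneSpectrum k[X])}
    {p : HeightOneSpectrum k[X]} (hp : p ∈ T) : dp p + dg (T.erase p) = dg T := by
  rw [dg_eq, dg_eq, Finset.add_sum_erase _ _ hp]

/-- the weighted count -/
noncomputable def SSum (S : Finset (HeightOneSpectrum k[X])) (n : ℕ) : ℝ :=
  ∑ T ∈ FF S n, (1 / 2 : ℝ) ^ T.card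

theorem SSum_nonneg (S : Finset (HeightOneSpectrum k[X])) (n : ℕ) : 0 ≤ SSum S n :=
  Finset.sum_nonneg fun T _ => by positivity

theorem SSum_rec (S : Finset (HeightOneSpectrum k[X])) (n : ℕ) :
    (n : ℝ) * SSum S n ≤
      1 / 2 * ∑ j ∈ Finset.Icc 1 n, (Nat.card k : ℝ) ^ j * SSum S (n - j) := by
  classical
  have h1 : (n : ℝ) * SSum S n = ∑ T ∈ FF S n, ∑ p ∈ T, (dp p : ℝ) * (1 / 2 : ℝ) ^ T.card := by
    unfold SSum
    rw [Finset.mul_sum]
    apply Finset.sum_congr rfl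
    intro T hT
    rw [← Finset.sum_mul]
    congr 1
    have h2 := (mem_FF.mp hT).2
    rw [dg_eq] at h2
    exact_mod_cast h2.symm
  have h2 : ∑ T ∈ FF S n, ∑ p ∈ T, (dp p : ℝ) * (1 / 2 : ℝ) ^ T.card
      = ∑ p ∈ S, ∑ T ∈ (FF S n).filter (fun T => p ∈ T), (dp p : ℝ) * (1 / 2 : ℝ) ^ T.card := by
    apply Finset.sum_comm'
    intro T p
    rw [Finset.mem_filter]
    constructor
    · rintro ⟨h3, h4⟩; exact ⟨⟨h3, h4⟩, (mem_FF.mp h3).1 h4⟩
    · rintro ⟨⟨h3, h4⟩, -⟩; exact ⟨h3, h4⟩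
  have h3 : ∀ p ∈ S, ∑ T ∈ (FF S n).filter (fun T => p ∈ T), (dp p : ℝ) * (1 / 2 : ℝ) ^ T.card
      ≤ (dp p : ℝ) * (if dp p ≤ n then 1 / 2 * SSum S (n - dp p) else 0) := by
    intro p _
    rw [← Finset.mul_sum]
    apply mul_le_mul_of_nonneg_left _ (by positivity)
    by_cases hpn : dp p ≤ n
    · rw [if_pos hpn]
      have h4 : ∑ T ∈ (FF S n).filter (fun T => p ∈ T), (1 / 2 : ℝ) ^ T.card
          = ∑ T ∈ (FF S n).filter (fun T => p ∈ T), 1 / 2 * (1 / 2 : ℝ) ^ (T.erase p).card := by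
        apply Finset.sum_congr rfl
        intro T hT
        rw [← pow_succ', Finset.card_erase_add_one (Finset.mem_filter.mp hT).2]
      rw [h4, ← Finset.mul_sum]
      apply mul_le_mul_of_nonneg_left _ (by norm_num)
      unfold SSum
      have h5 : ∑ T ∈ (FF S n).filter (fun T => p ∈ T), (1 / 2 : ℝ) ^ (T.erase p).card
          = ∑ T ∈ ((FF S n).filter (fun T => p ∈ T)).image (fun T => T.erase p),
            (1 / 2 : ℝ) ^ T.card := by
        rw [Finset.sum_image]
        intro T hT T' hT' h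
        have e1 := Finset.insert_erase (Finset.mem_filter.mp hT).2
        have e2 := Finset.insert_erase (Finset.mem_filter.mp hT').2
        simp only at h
        rw [← e1, ← e2, h]
      rw [h5]
      apply Finset.sum_le_sum_of_subset_of_nonneg
      · intro T' hT'
        rw [Finset.mem_image] at hT'
        obtain ⟨T, hT, rfl⟩ := hT'
        rw [Finset.mem_filter] at hT
        have h6 := dg_erase hT.2
        have h7 := (mem_FF.mp hT.1).2
        exact mem_FF.mpr ⟨(Finset.erase_subset _ _).trans (mem_FF.mp hT.1).1, by omega⟩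
      · intro T _ _; positivity
    · rw [if_neg hpn]
      apply le_of_eq
      apply Finset.sum_eq_zero
      intro T hT
      exfalso
      rw [Finset.mem_filter] at hT
      have h6 := dg_erase hT.2
      have h7 := (mem_FF.mp hT.1).2
      omega
  rw [h1, h2]
  refine (Finset.sum_le_sum h3).trans ?_
  have h4 : ∑ p ∈ S, (dp p : ℝ) * (if dp p ≤ n then 1 / 2 * SSum S (n - dp p) else 0)
      = ∑ p ∈ S.filter (fun p => dp p ≤ n), (dp p : ℝ) * (1 / 2 * SSum S (n - dp p)) := by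
    rw [Finset.sum_filter]
    apply Finset.sum_congr rfl
    intro p _
    split_ifs
    · rfl
    · rw [mul_zero]
  rw [h4]
  refine (sum_places (S.filter (fun p => dp p ≤ n)) (n := n)
    (fun p hp => (Finset.mem_filter.mp hp).2)
    (fun j => 1 / 2 * SSum S (n - j)) (fun j => by have := SSum_nonneg S (n - j); positivity)).trans
    (le_of_eq ?_)
  rw [Finset.mul_sum]
  exact Finset.sum_congr rfl fun j _ => by ring

theorem SSum_total (S : Finset (HeightOneSpectrum k[X])) {n : ℕ} (h1 : 1 ≤ n)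
    (hn : ∀ p ∈ S, dp p ≤ n) :
    ∑ i ∈ Finset.range n, SSum S i / (Nat.card k : ℝ) ^ i ≤ Real.exp (1 / 2) * Real.sqrt n := by
  classical
  have hq := qpos (k := k)
  have h2 : ∑ i ∈ Finset.range n, SSum S i / (Nat.card k : ℝ) ^ i
      ≤ ∑ T ∈ S.powerset, ∏ p ∈ T, (1 / 2 * ((Nat.card k : ℝ) ^ dp p)⁻¹) := by
    have h3 : ∀ T : Finset (HeightOneSpectrum k[X]),
        ∏ p ∈ T, (1 / 2 * ((Nat.card k : ℝ) ^ dp p)⁻¹)
        = (1 / 2 : ℝ) ^ T.card / (Nat.card k : ℝ) ^ dg T := by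
      intro T
      rw [Finset.prod_mul_distrib, Finset.prod_const, Finset.prod_inv_distrib, Finset.prod_pow_eq_pow_sum,
        dg_eq, div_eq_mul_inv ((1 / 2 : ℝ) ^ T.card)]
    have h4 : ∀ i ∈ Finset.range n, SSum S i / (Nat.card k : ℝ) ^ i
        = ∑ T ∈ S.powerset.filter (fun T => dg T = i), ∏ p ∈ T, (1 / 2 * ((Nat.card k : ℝ) ^ dp p)⁻¹) := by
      intro i _
      unfold SSum FF
      rw [Finset.sum_div]
      apply Finset.sum_congr rfl
      intro T hT
      rw [h3, (Finset.mem_filter.mp hT).2]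
    rw [Finset.sum_congr rfl h4]
    have h5 := Finset.sum_fiberwise_of_maps_to
      (s := S.powerset.filter (fun T => dg T < n)) (t := Finset.range n) (g := dg)
      (fun T hT => Finset.mem_range.mpr (Finset.mem_filter.mp hT).2)
      (fun T => ∏ p ∈ T, (1 / 2 * ((Nat.card k : ℝ) ^ dp p)⁻¹))
    have h6 : ∀ i ∈ Finset.range n,
        ∑ T ∈ S.powerset.filter (fun T => dg T = i), ∏ p ∈ T, (1 / 2 * ((Nat.card k : ℝ) ^ dp p)⁻¹)
        = ∑ T ∈ (S.powerset.filter (fun T => dg T < n)).filter (fun T => dg T = i),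
          ∏ p ∈ T, (1 / 2 * ((Nat.card k : ℝ) ^ dp p)⁻¹) := by
      intro i hi
      apply Finset.sum_congr _ fun _ _ => rfl
      ext T
      simp only [Finset.mem_filter]
      have := Finset.mem_range.mp hi
      constructor
      · rintro ⟨h7, h8⟩; exact ⟨⟨h7, by omega⟩, h8⟩
      · rintro ⟨⟨h7, -⟩, h8⟩; exact ⟨h7, h8⟩
    rw [Finset.sum_congr rfl h6, h5]
    apply Finset.sum_le_sum_of_subset_of_nonneg (Finset.filter_subset _ _)
    intro T _ _
    exact Finset.prod_nonneg fun p _ => by positivity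
  refine h2.trans ?_
  rw [← Finset.prod_one_add]
  refine (prod_le_exp S _ fun p _ => by positivity).trans ?_
  have h3 := sum_inv_le S hn h1 (y := 1 / 2) (by norm_num) (fun _ => 1 / 2) (fun _ => by norm_num)
    (fun _ _ => le_rfl)
  have h4 : Real.exp (1 / 2 * (1 + Real.log n)) = Real.exp (1 / 2) * Real.sqrt n := by
    have hn0 : (0 : ℝ) < n := by exact_mod_cast h1
    rw [mul_add, Real.exp_add, mul_one, Real.sqrt_eq_rpow, Real.rpow_def_of_pos hn0]
    congr 2
    ring
  rw [← h4]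
  exact Real.exp_le_exp.mpr h3

/-- **The sets of places of degree `n` weighted by `2 ^ (-card)`.** -/
theorem rankin (S : Finset (HeightOneSpectrum k[X])) {n : ℕ} (h1 : 1 ≤ n)
    (hn : ∀ p ∈ S, dp p ≤ n) :
    SSum S n ≤ (Nat.card k : ℝ) ^ n / Real.sqrt n := by
  have hq := qpos (k := k)
  have hn0 : (0 : ℝ) < n := by exact_mod_cast h1
  have hsq : 0 < Real.sqrt n := Real.sqrt_pos.mpr hn0
  have h2 := SSum_rec S n
  have h3 := SSum_total S h1 hn
  have h4 : ∑ j ∈ Finset.Icc 1 n, (Nat.card k : ℝ) ^ j * SSum S (n - j)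
      = (Nat.card k : ℝ) ^ n * ∑ i ∈ Finset.range n, SSum S i / (Nat.card k : ℝ) ^ i := by
    rw [Finset.mul_sum]
    apply Finset.sum_nbij' (fun j => n - j) (fun i => n - i)
    · intro j hj; rw [Finset.mem_Icc] at hj; rw [Finset.mem_range]; omega
    · intro i hi; rw [Finset.mem_range] at hi; rw [Finset.mem_Icc]; omega
    · intro j hj; rw [Finset.mem_Icc] at hj; omega
    · intro i hi; rw [Finset.mem_range] at hi; omega
    · intro j hj
      rw [Finset.mem_Icc] at hj
      have e : (Nat.card k : ℝ) ^ n = (Nat.card k : ℝ) ^ j * (Nat.card k : ℝ) ^ (n - j) := by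
        rw [← pow_add]; congr 1; omega
      rw [e]
      field_simp
  rw [h4] at h2
  have h5 : (n : ℝ) * SSum S n ≤ 1 / 2 * ((Nat.card k : ℝ) ^ n * (Real.exp (1 / 2) * Real.sqrt n)) := by
    refine h2.trans ?_
    have : (0 : ℝ) < (Nat.card k : ℝ) ^ n := by positivity
    gcongr
  have h6 : Real.exp (1 / 2) ≤ 2 := by
    have h7 : Real.exp (1 / 2) ^ 2 ≤ 2 ^ 2 := by
      rw [← Real.exp_nat_mul]
      have := Real.exp_one_lt_d9
      norm_num
      linarith
    exact le_of_sq_le_sq h7 (by norm_num)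
  have h7 : (n : ℝ) = Real.sqrt n * Real.sqrt n := (Real.mul_self_sqrt hn0.le).symm
  have h8 : (n : ℝ) * SSum S n ≤ (Nat.card k : ℝ) ^ n * Real.sqrt n := by
    refine h5.trans ?_
    have h9 : (0 : ℝ) < (Nat.card k : ℝ) ^ n * Real.sqrt n := by positivity
    nlinarith
  rw [le_div_iff₀ hsq]
  by_contra hlt
  rw [not_le] at hlt
  have h9 : (Nat.card k : ℝ) ^ n * Real.sqrt n < SSum S n * Real.sqrt n * Real.sqrt n :=
    mul_lt_mul_of_pos_right hlt hsq
  have h10 : SSum S n * Real.sqrt n * Real.sqrt n = (n : ℝ) * SSum S n := by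
    rw [mul_assoc, ← h7]; ring
  linarith

end Rankin

end Pool.Agent.H2
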