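import Pool.Agent.H2.VRed2

/-!
# A positive proportion of all the quadratic twists, II
-/

set_option linter.unusedSectionVars false

namespace Pool.Agent.H2

open Polynomial IsDedekindDomain

universe u

variable {k : Type u} [Field k] [Finite k] [CharP k 2]

/-- The conductor of the extension of `k(X)` generated by a root of `z² + z = a` has degree `2 M`:
up to a function `z² + z`, the function `a` has only poles of odd orders, `m` at infinity and
`2 e(p) - 1` at the primes `p`, and `(m + 1) / 2 + ∑ e(p) deg p = M`. -/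
def HalfConductor (a : RatFunc k) (M : ℕ) : Prop :=
  ∃ (z : RatFunc k) (m : ℕ) (e : HeightOneSpectrum k[X] →₀ ℕ),
    Reduced m e (a + (z ^ 2 + z)) ∧ (m + 1) / 2 + wt e = M

theorem halfConductor_unique (a : RatFunc k) : ∃! M : ℕ, HalfConductor a M := by
  obtain ⟨z, m, e, h⟩ := exists_reduced_form a
  refine ⟨(m + 1) / 2 + wt e, ⟨z, m, e, h, rfl⟩, ?_⟩
  rintro M ⟨z', m', e', h', rfl⟩
  have h1 : asClass (a + (z ^ 2 + z)) = asClass (a + (z' ^ 2 + z')) := by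
    rw [← asClass_eq.mpr ⟨z, rfl⟩, ← asClass_eq.mpr ⟨z', rfl⟩]
  obtain ⟨rfl, rfl⟩ := reduced_unique h h' h1
  rfl

theorem halfConductor_image (M : ℕ) :
    asClass '' {a : RatFunc k | HalfConductor a M}
      = asClass '' {a : RatFunc k | ∃ m e, Reduced m e a ∧ (m + 1) / 2 + wt e = M} := by
  ext c
  constructor
  · rintro ⟨a, ⟨z, m, e, h1, h2⟩, rfl⟩
    exact ⟨a + (z ^ 2 + z), ⟨m, e, h1, h2⟩, (asClass_eq.mpr ⟨z, rfl⟩).symm⟩
  · rintro ⟨a, ⟨m, e, h1, h2⟩, rfl⟩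
    exact ⟨a, ⟨0, m, e, by rwa [show a + ((0 : RatFunc k) ^ 2 + 0) = a by ring], h2⟩, rfl⟩

theorem card_le_wt (e : HeightOneSpectrum k[X] →₀ ℕ) : e.support.card ≤ wt e := by
  unfold wt
  rw [Finset.card_eq_sum_ones]
  apply Finset.sum_le_sum
  intro p hp
  have h1 := Finsupp.mem_support_iff.mp hp
  have h2 := dp_pos p
  exact Nat.mul_pos (by omega) h2

theorem SmallSelmer.mono {a b : RatFunc k} {N N' : ℕ} (h : SmallSelmer a b N) (hN : N ≤ N') :
    SmallSelmer a b N' :=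
  ⟨h.1, h.2.1, fun s => ⟨(h.2.2 s).1,
    (h.2.2 s).2.1.trans (Nat.pow_le_pow_right (by norm_num) hN), (h.2.2 s).2.2⟩⟩

theorem ofType_shift {S : Finset (HeightOneSpectrum k[X])} {m : ℕ}
    {n : HeightOneSpectrum k[X] → ℕ} {e : HeightOneSpectrum k[X] →₀ ℕ} {a₀ x : RatFunc k}
    (h1 : infAbv k a₀ < 2 ^ m) (h2 : ∀ p, finAbv p a₀ < 2 ^ n p) (h3 : ∀ p, p ∉ S → finAbv p a₀ ≤ 1)
    (h : OfType S m n e x) : OfType S m n e (a₀ + x) := by
  obtain ⟨h4, h5, h6⟩ := h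
  refine ⟨?_, fun p hp => ⟨?_, (h5 p hp).2⟩, fun p hp => ⟨fun h0 => ?_, fun h0 => ?_⟩⟩
  · rw [infAbv_add_of_lt, h4]
    rw [h4]; exact h1
  · rw [finAbv_add_of_lt, (h5 p hp).1]
    rw [(h5 p hp).1]; exact h2 p
  · exact (finAbv_nonarch p _ _).trans (max_le (h3 p hp) ((h6 p hp).1 h0))
  · rw [finAbv_add_of_lt, (h6 p hp).2 h0]
    rw [(h6 p hp).2 h0]
    exact lt_of_le_of_lt (h3 p hp) (one_lt_pow₀ (by norm_num) (by omega))

/-- **Main theorem.** A positive proportion of all the quadratic twists. -/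
theorem full_prop (a₀ b : RatFunc k) (hb : ∀ c : k, b ≠ RatFunc.C c) :
    ∃ (β : RatFunc k) (r : ℕ), b = β ^ 2 ^ r ∧ ¬ IsSquare β ∧ ∃ C M₀ : ℕ, ∀ M, M₀ ≤ M →
      (asClass '' {a : RatFunc k | HalfConductor a M}).Finite ∧
      (asClass '' {a : RatFunc k | HalfConductor a M}).Nonempty ∧
      (asClass '' {a : RatFunc k | HalfConductor a M}).ncard ≤
        C * (asClass '' {a : RatFunc k | HalfConductor a M ∧
          Finite (Pts (gcurve (a₀ + a) b) (RatFunc k)) ∧ SmallSelmer (a₀ + a) β M}).ncard := by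
  classical
  obtain ⟨β, r, hβ, hβ2⟩ := exists_root b hb
  refine ⟨β, r, hβ, hβ2, ?_⟩
  have hb0 : b ≠ 0 := by rintro rfl; exact hb 0 (by rw [map_zero])
  obtain ⟨S₁, hS₁⟩ := exists_places b hb0
  obtain ⟨S₂, hS₂⟩ : ∃ S : Finset (HeightOneSpectrum k[X]), ∀ p, p ∉ S → finAbv p a₀ ≤ 1 := by
    by_cases h0 : a₀ = 0
    · exact ⟨∅, fun p _ => by rw [h0, map_zero]; exact zero_le_one⟩
    · obtain ⟨S, hS⟩ := exists_places a₀ h0
      exact ⟨S, fun p hp => (hS p hp).le⟩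
  set S := S₁ ∪ S₂ with hSdef
  have hS : ∀ p, p ∉ S → finAbv p b = 1 := fun p hp =>
    hS₁ p fun h => hp (Finset.mem_union_left _ h)
  have hSa : ∀ p, p ∉ S → finAbv p a₀ ≤ 1 := fun p hp =>
    hS₂ p fun h => hp (Finset.mem_union_right _ h)
  obtain ⟨m₀, hm₀, hbm'⟩ := exists_odd_gt (max (infAbv k b) (infAbv k a₀))
  obtain ⟨hbm, ham⟩ := max_lt_iff.mp hbm'
  choose n₀ hn₀ hbn' using fun p => exists_odd_gt (max (finAbv (k := k) p b) (finAbv (k := k) p a₀))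
  have hbn : ∀ p, finAbv p b < 2 ^ n₀ p := fun p => (max_lt_iff.mp (hbn' p)).1
  have han : ∀ p, finAbv p a₀ < 2 ^ n₀ p := fun p => (max_lt_iff.mp (hbn' p)).2
  have hn : ∀ p ∈ S, Odd (n₀ p) := fun p _ => hn₀ p
  obtain ⟨N₁, h1⟩ := all_twists_root hβ hβ2 S hS m₀ n₀ hm₀ hbm fun p hp => ⟨hn₀ p, hbn p⟩
  obtain ⟨c, hc, N₂, h2⟩ := low_cls S hm₀ hn
  set s := (m₀ + 1) / 2 + wt (eS S n₀) with hs
  set q := Nat.card k with hq
  have hqpos : 0 < q := Nat.card_pos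
  obtain ⟨C, hC⟩ := exists_nat_gt (4 * (q : ℝ) ^ (2 * s + 1) * 1000 / (288 * c))
  refine ⟨C, s + N₁ + N₂, fun M hM => ?_⟩
  obtain ⟨N, rfl⟩ : ∃ N, M = N + s := ⟨M - s, by omega⟩
  obtain ⟨h3, h4⟩ := tot_bound (k := k) (N + s)
  rw [← halfConductor_image] at h3 h4
  obtain ⟨h5, h6, h7⟩ := h1 N (by omega)
  have h8 := h2 N (by omega)
  rw [← types_ncard hn] at h8
  have key : ∀ {e : HeightOneSpectrum k[X] →₀ ℕ} {x : RatFunc k}, OfType S m₀ n₀ e x → wt e = N →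
      HalfConductor (a₀ + x) (N + s) := by
    intro e x h9 h10
    refine ⟨0, m₀, e + eS S n₀, ?_, ?_⟩
    · rw [show a₀ + x + ((0 : RatFunc k) ^ 2 + 0) = a₀ + x by ring]
      exact reduced_of_type hm₀ hn (ofType_shift ham han hSa h9)
    · rw [wt_add, h10, hs]; omega
  have hadd : ∀ x : RatFunc k, a₀ + (a₀ + x) = x := fun x => by
    rw [← add_assoc, CharTwo.add_self_eq_zero, zero_add]
  set G' := asClass '' {a | ∃ e, OfType S m₀ n₀ e a ∧ wt e = N ∧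
      Finite (Pts (gcurve a b) (RatFunc k)) ∧ SmallSelmer a β (S.card + e.support.card)} with hG'
  set G := asClass '' {a : RatFunc k | HalfConductor a (N + s) ∧
          Finite (Pts (gcurve (a₀ + a) b) (RatFunc k)) ∧ SmallSelmer (a₀ + a) β (N + s)} with hG
  have hsub : (fun c => (fun x => a₀ + x) '' c) '' G' ⊆ G := by
    rintro _ ⟨_, ⟨x, ⟨e, h9, h10, h11, h12⟩, rfl⟩, rfl⟩
    refine ⟨a₀ + x, ⟨key h9 h10, ?_, ?_⟩, (asClass_shift _ _).symm⟩
    · rwa [hadd]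
    · rw [hadd]
      apply h12.mono
      rw [← card_of_type hn h9]
      refine (card_le_wt _).trans ?_
      rw [wt_add, h10, hs]; omega
  have hfin : G.Finite := by
    refine h3.subset (Set.image_mono ?_)
    rintro a ⟨h9, -⟩
    exact h9
  have h13 := Set.ncard_le_ncard hsub hfin
  rw [Set.ncard_image_of_injective _
    (Set.image_injective.mpr (add_right_injective a₀))] at h13
  refine ⟨h3, ?_, ?_⟩
  · obtain ⟨_, x, ⟨e, h9, h10⟩, rfl⟩ := h6
    exact ⟨_, a₀ + x, key h9 h10, rfl⟩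
  · set T := (asClass '' {a : RatFunc k | HalfConductor a (N + s)}).ncard
    set F := (asClass '' {a | ∃ e, OfType S m₀ n₀ e a ∧ wt e = N}).ncard
    have h15 : (288 : ℝ) * F ≤ 1000 * G.ncard := by
      exact_mod_cast h7.trans (Nat.mul_le_mul_left _ h13)
    have h16 : (T : ℝ) ≤ 4 * (q : ℝ) ^ (2 * s + 1) * ((q : ℝ) ^ N) ^ 2 := by
      have h17 : (T : ℝ) ≤ 4 * (q : ℝ) ^ (2 * (N + s) + 1) := by exact_mod_cast h4
      refine h17.trans (le_of_eq ?_)
      rw [← pow_mul, mul_assoc, ← pow_add]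
      congr 2; ring
    have hq0 : (0 : ℝ) < 4 * (q : ℝ) ^ (2 * s + 1) := by positivity
    have h18 : ((q : ℝ) ^ N) ^ 2 ≤ 1000 * G.ncard / (288 * c) := by
      rw [le_div_iff₀ (by positivity)]
      linarith
    have h19 : (T : ℝ) ≤ C * G.ncard := by
      calc (T : ℝ) ≤ 4 * (q : ℝ) ^ (2 * s + 1) * (1000 * G.ncard / (288 * c)) :=
            h16.trans (mul_le_mul_of_nonneg_left h18 hq0.le)
        _ = 4 * (q : ℝ) ^ (2 * s + 1) * 1000 / (288 * c) * G.ncard := by ring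
        _ ≤ C * G.ncard := mul_le_mul_of_nonneg_right hC.le (Nat.cast_nonneg _)
    exact_mod_cast h19

end Pool.Agent.H2
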