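import Pool.Agent.H2.VInv
import Pool.Agent.H2.VFull

/-!
# The proportion of the good classes, with a better constant, and bounds for the tails
-/

set_option linter.unusedSectionVars false

namespace Pool.Agent.H2

open Polynomial IsDedekindDomain

universe u

variable {k : Type u} [Field k] [Finite k] [CharP k 2]

section Gen

variable {S₀ : Finset (HeightOneSpectrum k[X])} {m : ℕ} {n : HeightOneSpectrum k[X] → ℕ}

/-- **The proportion of the good classes.** -/
theorem gen_propM' (hm : Odd m) (hn : ∀ p ∈ S₀, Odd (n p)) :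
    ∃ N₀ : ℕ, ∀ N, N₀ ≤ N →
      0 < ∑ e ∈ EN S₀ N, cls S₀ m n e ∧
      2882 * ∑ e ∈ EN S₀ N, cls S₀ m n e ≤ 10000 * ∑ e ∈ EN S₀ N, gclsM S₀ m n e := by
  classical
  have hq := qpos (k := k)
  have hq2 := two_le_q (k := k)
  obtain ⟨c, hc, N₁, hlow⟩ := low_cls (m := m) (n := n) S₀ hm hn
  set C := 2 * (Nat.card k : ℝ) ^ (m / 2 + 1 + ∑ p ∈ S₀, (n p / 2 + 1) * dp p) with hC
  have hC0 : 0 < C := by positivity
  obtain ⟨J, hJ⟩ := exists_pow_lt_of_lt_one (show (0 : ℝ) < 3 * c / (2885 * C) by positivity)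
    (by norm_num : (1 / 2 : ℝ) < 1)
  have hJ' : ((Nat.card k : ℝ) ^ J)⁻¹ ≤ 3 * c / (2885 * C) := by
    refine le_trans ?_ hJ.le
    rw [one_div, inv_pow]
    exact inv_anti₀ (by positivity) (pow_le_pow_left₀ (by norm_num) hq2 J)
  set PM := (wt_finite (k := k) (3 * J)).toFinset.filter
    (fun e => pw e = e ∧ ∀ p ∈ S₀, e p = 0) with hPM
  have hch : ∀ e₁ : HeightOneSpectrum k[X] →₀ ℕ, ∃ N₀ : ℕ, (pw e₁ = e₁ ∧ ∀ p ∈ S₀, e₁ p = 0) →
      ∀ N, N₀ ≤ N →
      2885 * ∑ e ∈ (EN S₀ N).filter (fun e => pw e = e₁), cls S₀ m n e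
        ≤ 10000 * ∑ e ∈ (EN S₀ N).filter (fun e => pw e = e₁), gclsM S₀ m n e := by
    intro e₁
    by_cases h : pw e₁ = e₁ ∧ ∀ p ∈ S₀, e₁ p = 0
    · obtain ⟨N₀, h1⟩ := fiber_propM (m := m) (n := n) hm hn h.1 h.2
      exact ⟨N₀, fun _ => h1⟩
    · exact ⟨0, fun h' => absurd h' h⟩
  choose NN hNN using hch
  refine ⟨N₁ + ∑ e₁ ∈ PM, NN e₁, fun N hN => ?_⟩
  have h1 := hlow N (by omega)
  have hpos : (0 : ℝ) < ((∑ e ∈ EN S₀ N, cls S₀ m n e : ℕ) : ℝ) := lt_of_lt_of_le (by positivity) h1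
  refine ⟨by exact_mod_cast hpos, ?_⟩
  -- the main part
  set A := (EN S₀ N).filter (fun e => ¬ 3 * J < wt (pw e)) with hA
  set B := (EN S₀ N).filter (fun e => 3 * J < wt (pw e)) with hB
  have hsplit : ∑ e ∈ B, cls S₀ m n e + ∑ e ∈ A, cls S₀ m n e = ∑ e ∈ EN S₀ N, cls S₀ m n e :=
    Finset.sum_filter_add_sum_filter_not _ _ _
  have hmaps : ∀ e ∈ A, pw e ∈ PM := by
    intro e he
    rw [hA, Finset.mem_filter, mem_EN] at he
    rw [hPM, Finset.mem_filter, Set.Finite.mem_toFinset]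
    refine ⟨not_lt.mp he.2, pw_pw e, fun p hp => ?_⟩
    rw [pw_apply, he.1.1 p hp]; rfl
  have hmain : 2885 * ∑ e ∈ A, cls S₀ m n e ≤ 10000 * ∑ e ∈ EN S₀ N, gclsM S₀ m n e := by
    rw [← Finset.sum_fiberwise_of_maps_to hmaps, Finset.mul_sum]
    have h2 : ∀ e₁ ∈ PM, 2885 * ∑ e ∈ A.filter (fun e => pw e = e₁), cls S₀ m n e
        ≤ 10000 * ∑ e ∈ A.filter (fun e => pw e = e₁), gclsM S₀ m n e := by
      intro e₁ he₁
      have h3 : A.filter (fun e => pw e = e₁) = (EN S₀ N).filter (fun e => pw e = e₁) := by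
        ext e
        rw [hA, Finset.mem_filter, Finset.mem_filter, Finset.mem_filter]
        constructor
        · rintro ⟨⟨h4, -⟩, h5⟩; exact ⟨h4, h5⟩
        · rintro ⟨h4, h5⟩
          refine ⟨⟨h4, ?_⟩, h5⟩
          rw [h5, not_lt]
          rw [hPM, Finset.mem_filter, Set.Finite.mem_toFinset] at he₁
          exact he₁.1
      rw [h3]
      rw [hPM, Finset.mem_filter] at he₁
      apply hNN e₁ he₁.2 N
      have h4 : NN e₁ ≤ ∑ e₁ ∈ PM, NN e₁ :=
        Finset.single_le_sum (f := NN) (fun _ _ => Nat.zero_le _)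
          (by rw [hPM, Finset.mem_filter]; exact he₁)
      omega
    refine (Finset.sum_le_sum h2).trans ?_
    rw [← Finset.mul_sum, Finset.sum_fiberwise_of_maps_to hmaps]
    exact Nat.mul_le_mul_left _ (Finset.sum_le_sum_of_subset (Finset.filter_subset _ _))
  -- the tail
  have htail : ((∑ e ∈ B, cls S₀ m n e : ℕ) : ℝ) * 2885
      ≤ 3 * ((∑ e ∈ EN S₀ N, cls S₀ m n e : ℕ) : ℝ) := by
    have h2 : ((∑ e ∈ B, cls S₀ m n e : ℕ) : ℝ) ≤ B.card * (C * (Nat.card k : ℝ) ^ N) := by
      push_cast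
      rw [← nsmul_eq_mul, ← Finset.sum_const]
      apply Finset.sum_le_sum
      intro e he
      have h3 := cls_bound (n := n) hm hn (Finset.mem_filter.mp he).1
      rw [hC]
      exact_mod_cast h3
    have h3 := card_tail S₀ N J
    have h4 : (B.card : ℝ) * (C * (Nat.card k : ℝ) ^ N)
        ≤ (Nat.card k : ℝ) ^ N * (3 * c / (2885 * C)) * (C * (Nat.card k : ℝ) ^ N) := by
      apply mul_le_mul_of_nonneg_right _ (by positivity)
      exact h3.trans (mul_le_mul_of_nonneg_left hJ' (by positivity))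
    have h5 : (Nat.card k : ℝ) ^ N * (3 * c / (2885 * C)) * (C * (Nat.card k : ℝ) ^ N)
        = 3 / 2885 * (c * ((Nat.card k : ℝ) ^ N) ^ 2) := by field_simp
    have h6 := h2.trans (h4.trans (le_of_eq h5))
    linarith
  have htail' : 2885 * (∑ e ∈ B, cls S₀ m n e) ≤ 3 * ∑ e ∈ EN S₀ N, cls S₀ m n e := by
    have : (((∑ e ∈ B, cls S₀ m n e) * 2885 : ℕ) : ℝ)
        ≤ ((3 * ∑ e ∈ EN S₀ N, cls S₀ m n e : ℕ) : ℝ) := by
      push_cast
      push_cast at htail
      exact htail
    have h2 : (∑ e ∈ B, cls S₀ m n e) * 2885 ≤ 3 * ∑ e ∈ EN S₀ N, cls S₀ m n e := by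
      exact_mod_cast this
    rwa [mul_comm] at h2
  omega

end Gen

/-- the number of the exponents with a large exponent at `p` -/
theorem card_EN_ge (p : HeightOneSpectrum k[X]) (i w : ℕ) :
    ((EN (∅ : Finset (HeightOneSpectrum k[X])) w).filter (fun e => i ≤ e p)).card * Nat.card k ^ i
      ≤ Nat.card k ^ w := by
  classical
  have hq : 1 ≤ Nat.card k := Nat.card_pos
  rcases ((EN (∅ : Finset (HeightOneSpectrum k[X])) w).filter (fun e => i ≤ e p)).eq_empty_or_nonempty
    with h0 | ⟨e₀, he₀⟩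
  · rw [h0, Finset.card_empty, Nat.zero_mul]; exact Nat.zero_le _
  have hsp : ∀ e : HeightOneSpectrum k[X] →₀ ℕ, i ≤ e p →
      e - Finsupp.single p i + Finsupp.single p i = e := fun e he =>
    tsub_add_cancel_of_le (Finsupp.single_le_iff.mpr he)
  have hws : wt (Finsupp.single p i) = i * dp p := by
    have h4 : wt (Finsupp.single p i) = (Finsupp.single p i).sum fun p j => j * dp p := rfl
    rw [h4, Finsupp.sum_single_index (by rw [Nat.zero_mul])]
  have hwt : ∀ e : HeightOneSpectrum k[X] →₀ ℕ, i ≤ e p →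
      wt (e - Finsupp.single p i) + i * dp p = wt e := fun e he => by
    rw [← hws, ← wt_add, hsp e he]
  have hile : i ≤ i * dp p := Nat.le_mul_of_pos_right _ (dp_pos p)
  have hwi : i * dp p ≤ w := by
    rw [Finset.mem_filter, mem_EN] at he₀
    have := hwt e₀ he₀.2
    rw [he₀.1.2] at this
    omega
  have h1 : ((EN (∅ : Finset (HeightOneSpectrum k[X])) w).filter (fun e => i ≤ e p)).card
      ≤ (EN (∅ : Finset (HeightOneSpectrum k[X])) (w - i * dp p)).card := by
    apply Finset.card_le_card_of_injOn (fun e => e - Finsupp.single p i)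
    · intro e he
      rw [Finset.mem_coe, Finset.mem_filter, mem_EN] at he
      rw [Finset.mem_coe, mem_EN]
      refine ⟨fun r hr => absurd hr (Finset.notMem_empty r), ?_⟩
      have := hwt e he.2
      rw [he.1.2] at this
      change wt (e - Finsupp.single p i) = _
      omega
    · intro e he e' he' h
      rw [Finset.mem_coe, Finset.mem_filter] at he he'
      simp only at h
      rw [← hsp e he.2, ← hsp e' he'.2, h]
  calc _ ≤ (EN (∅ : Finset (HeightOneSpectrum k[X])) (w - i * dp p)).card * Nat.card k ^ i :=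
        Nat.mul_le_mul_right _ h1
    _ ≤ Nat.card k ^ (w - i * dp p) * Nat.card k ^ (i * dp p) :=
        Nat.mul_le_mul (card_EN_le _) (Nat.pow_le_pow_right hq hile)
    _ = Nat.card k ^ w := by rw [← pow_add]; congr 1; omega

theorem geom_le (M : ℕ) : ∑ j ∈ Finset.range (M + 1), Nat.card k ^ (M - j) ≤ 2 * Nat.card k ^ M := by
  have hq : 2 ≤ Nat.card k := Finite.one_lt_card
  have h4 : ∑ j ∈ Finset.range (M + 1), Nat.card k ^ (M - j)
      = ∑ j ∈ Finset.range (M + 1), Nat.card k ^ j := Finset.sum_range_reflect (fun j =>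
        Nat.card k ^ j) (M + 1) ▸ by
    apply Finset.sum_congr rfl
    intro j hj
    congr 1
  rw [h4]
  clear h4
  induction M with
  | zero => simp
  | succ M ih =>
    rw [Finset.sum_range_succ, pow_succ]
    have : 0 < Nat.card k ^ M := by positivity
    nlinarith

/-- the classes with a large exponent at `p` -/
theorem tail_fin (p : HeightOneSpectrum k[X]) (i M : ℕ) :
    (asClass '' {a : RatFunc k | ∃ m e, Reduced m e a ∧ (m + 1) / 2 + wt e = M ∧ i ≤ e p}).ncard
      * Nat.card k ^ i ≤ 4 * Nat.card k ^ (2 * M + 1) := by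
  classical
  set A := asClass '' {a : RatFunc k | ∃ m e, Reduced m e a ∧ (m + 1) / 2 + wt e = M ∧ i ≤ e p}
    with hA
  set U := (Finset.range (M + 1)).biUnion fun j =>
    ((EN (∅ : Finset (HeightOneSpectrum k[X])) (M - j)).filter (fun e => i ≤ e p)).biUnion
      fun e => CL j e with hU
  have hsub : A ⊆ (U : Set (Set (RatFunc k))) := by
    rintro _ ⟨a, ⟨m, e, h1, h2, h3⟩, rfl⟩
    rw [Finset.mem_coe, hU, Finset.mem_biUnion]
    refine ⟨(m + 1) / 2, Finset.mem_range.mpr (by omega), ?_⟩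
    rw [Finset.mem_biUnion]
    exact ⟨e, Finset.mem_filter.mpr ⟨mem_EN.mpr ⟨fun p hp => absurd hp (Finset.notMem_empty p),
      by omega⟩, h3⟩, mem_CL h1⟩
  have h1 := Set.ncard_le_ncard hsub U.finite_toSet
  rw [Set.ncard_coe_finset] at h1
  have h2 : U.card ≤ ∑ j ∈ Finset.range (M + 1),
      ((EN (∅ : Finset (HeightOneSpectrum k[X])) (M - j)).filter (fun e => i ≤ e p)).card
        * (2 * Nat.card k ^ (M + 1)) := by
    refine Finset.card_biUnion_le.trans (Finset.sum_le_sum fun j hj => ?_)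
    have hjM : j ≤ M := by have := Finset.mem_range.mp hj; omega
    refine Finset.card_biUnion_le.trans ((Finset.sum_le_sum fun e he =>
      CL_card hjM (Finset.mem_filter.mp he).1).trans ?_)
    rw [Finset.sum_const, smul_eq_mul]
  calc A.ncard * Nat.card k ^ i
      ≤ (∑ j ∈ Finset.range (M + 1),
      ((EN (∅ : Finset (HeightOneSpectrum k[X])) (M - j)).filter (fun e => i ≤ e p)).card
        * (2 * Nat.card k ^ (M + 1))) * Nat.card k ^ i := Nat.mul_le_mul_right _ (h1.trans h2)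
    _ = (∑ j ∈ Finset.range (M + 1),
      ((EN (∅ : Finset (HeightOneSpectrum k[X])) (M - j)).filter (fun e => i ≤ e p)).card
        * Nat.card k ^ i) * (2 * Nat.card k ^ (M + 1)) := by
        rw [Finset.sum_mul, Finset.sum_mul]
        apply Finset.sum_congr rfl
        intro j _
        ring
    _ ≤ (∑ j ∈ Finset.range (M + 1), Nat.card k ^ (M - j)) * (2 * Nat.card k ^ (M + 1)) :=
        Nat.mul_le_mul_right _ (Finset.sum_le_sum fun j _ => card_EN_ge p i (M - j))
    _ ≤ (2 * Nat.card k ^ M) * (2 * Nat.card k ^ (M + 1)) := Nat.mul_le_mul_right _ (geom_le M)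
    _ = _ := by
      have : 2 * M + 1 = M + (M + 1) := by ring
      rw [this, pow_add]; ring

/-- the classes with a large exponent at infinity -/
theorem tail_inf (i M : ℕ) :
    (asClass '' {a : RatFunc k | ∃ m e, Reduced m e a ∧ (m + 1) / 2 + wt e = M ∧
      i ≤ (m + 1) / 2}).ncard * Nat.card k ^ i ≤ 4 * Nat.card k ^ (2 * M + 1) := by
  classical
  have hq : 1 ≤ Nat.card k := Nat.card_pos
  set A := asClass '' {a : RatFunc k | ∃ m e, Reduced m e a ∧ (m + 1) / 2 + wt e = M ∧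
    i ≤ (m + 1) / 2} with hA
  rcases Nat.lt_or_ge M i with hMi | hMi
  · have h0 : A = ∅ := by
      rw [hA, Set.image_eq_empty, Set.eq_empty_iff_forall_notMem]
      rintro a ⟨m, e, -, h2, h3⟩
      omega
    rw [h0, Set.ncard_empty, Nat.zero_mul]; exact Nat.zero_le _
  set U := (Finset.range (M - i + 1)).biUnion fun j =>
    (EN (∅ : Finset (HeightOneSpectrum k[X])) (M - i - j)).biUnion fun e => CL (i + j) e with hU
  have hsub : A ⊆ (U : Set (Set (RatFunc k))) := by
    rintro _ ⟨a, ⟨m, e, h1, h2, h3⟩, rfl⟩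
    rw [Finset.mem_coe, hU, Finset.mem_biUnion]
    refine ⟨(m + 1) / 2 - i, Finset.mem_range.mpr (by omega), ?_⟩
    rw [Finset.mem_biUnion]
    refine ⟨e, mem_EN.mpr ⟨fun p hp => absurd hp (Finset.notMem_empty p), by omega⟩, ?_⟩
    rw [show i + ((m + 1) / 2 - i) = (m + 1) / 2 by omega]
    exact mem_CL h1
  have h1 := Set.ncard_le_ncard hsub U.finite_toSet
  rw [Set.ncard_coe_finset] at h1
  have h2 : U.card ≤ ∑ j ∈ Finset.range (M - i + 1),
      Nat.card k ^ (M - i - j) * (2 * Nat.card k ^ (M + 1)) := by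
    refine Finset.card_biUnion_le.trans (Finset.sum_le_sum fun j hj => ?_)
    have hjM : i + j ≤ M := by have := Finset.mem_range.mp hj; omega
    refine Finset.card_biUnion_le.trans ((Finset.sum_le_sum fun e he =>
      CL_card hjM (by rwa [show M - (i + j) = M - i - j by omega])).trans ?_)
    rw [Finset.sum_const, smul_eq_mul]
    exact Nat.mul_le_mul_right _ (card_EN_le _)
  rw [← Finset.sum_mul] at h2
  calc A.ncard * Nat.card k ^ i
      ≤ ((∑ j ∈ Finset.range (M - i + 1), Nat.card k ^ (M - i - j)) * (2 * Nat.card k ^ (M + 1)))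
        * Nat.card k ^ i := Nat.mul_le_mul_right _ (h1.trans h2)
    _ ≤ ((2 * Nat.card k ^ (M - i)) * (2 * Nat.card k ^ (M + 1))) * Nat.card k ^ i :=
        Nat.mul_le_mul_right _ (Nat.mul_le_mul_right _ (geom_le (M - i)))
    _ = 4 * (Nat.card k ^ (M - i) * Nat.card k ^ i * Nat.card k ^ (M + 1)) := by ring
    _ = _ := by
      rw [← pow_add, ← pow_add]
      congr 2; omega

end Pool.Agent.H2
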