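import Pool.Agent.H2.VInv

/-!
# All quadratic twists, over all extensions in a class
-/

set_option linter.unusedSectionVars false

namespace Pool.Agent.H2

open Polynomial IsDedekindDomain

universe u

variable {k : Type u} [Field k] [Finite k] [CharP k 2]

theorem invTwist_of_goodM {β : RatFunc k} (hβ : ¬ IsSquare β)
    {S : Finset (HeightOneSpectrum k[X])}
    (hS : ∀ p, p ∉ S → finAbv p β = 1) {m : ℕ} {ν : HeightOneSpectrum k[X] → ℕ} (hm : Odd m)
    (hν : ∀ p ∈ S, Odd (ν p)) (hbm : infAbv k β < 2 ^ m) (hbn : ∀ p ∈ S, finAbv p β < 2 ^ ν p)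
    {a : RatFunc k} (ha : a ∈ twists S m ν) (hG : GoodM S a) : InvTwist S ∅ β a := by
  obtain ⟨h1, h2, h3⟩ := ha
  exact
    { nsq := hβ
      bS := fun p hp _ => hS p hp
      bZ := fun p hp => (hS p hp).le
      aZ := fun p hp => absurd hp (Finset.notMem_empty p)
      aS := h3
      inf := ⟨m, hm, by rw [h1, zpow_natCast], by rw [h1]; exact hbm⟩
      fin := fun p hp => ⟨ν p, hν p hp, by rw [h2 p hp, zpow_natCast], by
        rw [h2 p hp]; exact hbn p hp⟩
      inj := hG.1
      inj' := hG.2 }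

theorem OddExt.union [DecidableEq (HeightOneSpectrum k[X])] {k' : Type u} [Field k'] [Algebra k k']
    {S T : Finset (HeightOneSpectrum k[X])} {Φ : RatFunc k →+* RatFunc k'} {h : k'[X]}
    (H₁ : OddExt S Φ h) (H₂ : OddExt T Φ h) : OddExt (S ∪ T) Φ h :=
  ⟨H₁.sub, H₁.odd, H₁.deg, fun p hp Q Q' hQ hQ' => by
    rcases Finset.mem_union.mp hp with h1 | h1
    · exact H₁.only p h1 Q Q' hQ hQ'
    · exact H₂.only p h1 Q Q' hQ hQ'⟩

/-- **Main theorem.** -/
theorem all_twists_ext (b : RatFunc k) (hb : ∀ c : k, b ≠ RatFunc.C c)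
    (S : Finset (HeightOneSpectrum k[X])) (hS : ∀ p, p ∉ S → finAbv p b = 1) :
    ∃ (β : RatFunc k) (r : ℕ), b = β ^ 2 ^ r ∧
      ∀ (m : ℕ) (n : HeightOneSpectrum k[X] → ℕ), Odd m → infAbv k b < 2 ^ m →
      (∀ p ∈ S, Odd (n p) ∧ finAbv p b < 2 ^ n p) →
      ∃ N₀ : ℕ, ∀ N, N₀ ≤ N →
      (asClass '' {a | ∃ e, OfType S m n e a ∧ wt e = N}).Finite ∧
      (asClass '' {a | ∃ e, OfType S m n e a ∧ wt e = N}).Nonempty ∧
      288 * (asClass '' {a | ∃ e, OfType S m n e a ∧ wt e = N}).ncard ≤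
        1000 * (asClass '' {a | ∃ e, OfType S m n e a ∧ wt e = N ∧
          ∀ (k' : Type u) [Field k'] [Finite k'] [Algebra k k'] (Φ : RatFunc k →+* RatFunc k')
            (h : k'[X]), OddExt S Φ h → OddExt e.support Φ h →
          Finite (Pts (gcurve (Φ a) (Φ b)) (RatFunc k')) ∧
          SmallSelmer (Φ a) (Φ β) (S.card + e.support.card)}).ncard := by
  classical
  obtain ⟨β, r, hβ, hβ2⟩ := exists_root b hb
  have hβ0 : β ≠ 0 := by rintro rfl; exact hβ2 ⟨0, by simp⟩
  have hne : (2 ^ r : ℕ) ≠ 0 := by positivity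
  have hpow : ∀ p : HeightOneSpectrum k[X], finAbv p b = finAbv p β ^ 2 ^ r := by
    intro p; rw [hβ, map_pow]
  have hSβ : ∀ p, p ∉ S → finAbv p β = 1 := by
    intro p hp
    have h1 := hS p hp
    rw [hpow] at h1
    exact (pow_eq_one_iff_of_nonneg ((finAbv p).nonneg _) hne).mp h1
  have hle : ∀ {x : ℝ} {j : ℕ}, 0 ≤ x → 0 < j → x ^ 2 ^ r < 2 ^ j → x < 2 ^ j := by
    intro x j hx hj h
    by_cases h1 : x ≤ 1
    · exact lt_of_le_of_lt h1 (one_lt_pow₀ (by norm_num) hj.ne')
    · rw [not_le] at h1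
      refine lt_of_le_of_lt ?_ h
      exact le_self_pow₀ h1.le hne
  refine ⟨β, r, hβ, fun m n hm hbm hn => ?_⟩
  have hn' : ∀ p ∈ S, Odd (n p) := fun p hp => (hn p hp).1
  have hβm : infAbv k β < 2 ^ m :=
    hle ((infAbv k).nonneg _) hm.pos (by rw [← map_pow, ← hβ]; exact hbm)
  have hβn : ∀ p ∈ S, finAbv p β < 2 ^ n p := fun p hp =>
    hle ((finAbv p).nonneg _) (hn' p hp).pos (by rw [← hpow]; exact (hn p hp).2)
  obtain ⟨N₀, h1⟩ := gen_propM (S₀ := S) (m := m) (n := n) hm hn'
  refine ⟨N₀, fun N hN => ?_⟩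
  obtain ⟨h2, h3⟩ := h1 N hN
  set U := (EN S N).biUnion (fun e => (TW (S ∪ e.support) m (nu S n e)).image asClass) with hU
  set V := (EN S N).biUnion (fun e => (GdM (S ∪ e.support) m (nu S n e)).image asClass) with hV
  have hUeq : asClass '' {a | ∃ e, OfType S m n e a ∧ wt e = N} = (U : Set (Set (RatFunc k))) := by
    ext c
    rw [Finset.mem_coe, hU, Finset.mem_biUnion]
    constructor
    · rintro ⟨a, ⟨e, ha, he⟩, rfl⟩
      have he0 : ∀ p ∈ S, e p = 0 := fun p hp => (ha.2.1 p hp).2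
      exact ⟨e, mem_EN.mpr ⟨he0, he⟩,
        Finset.mem_image_of_mem _ (mem_TW.mpr ((ofType_iff he0).mp ha))⟩
    · rintro ⟨e, he, hc⟩
      rw [Finset.mem_image] at hc
      obtain ⟨a, ha, rfl⟩ := hc
      rw [mem_EN] at he
      exact ⟨a, ⟨e, (ofType_iff he.1).mpr (mem_TW.mp ha), he.2⟩, rfl⟩
  have hVsub : (V : Set (Set (RatFunc k))) ⊆ asClass '' {a | ∃ e, OfType S m n e a ∧ wt e = N ∧
          ∀ (k' : Type u) [Field k'] [Finite k'] [Algebra k k'] (Φ : RatFunc k →+* RatFunc k')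
            (h : k'[X]), OddExt S Φ h → OddExt e.support Φ h →
          Finite (Pts (gcurve (Φ a) (Φ b)) (RatFunc k')) ∧
          SmallSelmer (Φ a) (Φ β) (S.card + e.support.card)} := by
    intro c hc
    rw [Finset.mem_coe, hV, Finset.mem_biUnion] at hc
    obtain ⟨e, he, hc⟩ := hc
    rw [Finset.mem_image] at hc
    obtain ⟨a, ha, rfl⟩ := hc
    unfold GdM at ha
    rw [Finset.mem_filter, mem_TW] at ha
    rw [mem_EN] at he
    have hdisj : Disjoint S e.support := by
      rw [Finset.disjoint_left]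
      intro p hp h
      exact (Finsupp.mem_support_iff.mp h) (he.1 p hp)
    refine ⟨a, ⟨e, (ofType_iff he.1).mpr ha.1, he.2, ?_⟩, rfl⟩
    have G : InvTwist (S ∪ e.support) ∅ β a :=
      invTwist_of_goodM hβ2 (fun p hp => hSβ p fun h => hp (Finset.mem_union_left _ h)) hm
        (fun p _ => nu_odd hn' e p) hβm (fun p hp => by
          by_cases hpS : p ∈ S
          · unfold nu; rw [if_pos hpS]; exact hβn p hpS
          · rw [hSβ p hpS]
            exact one_lt_pow₀ (by norm_num) (nu_odd hn' e p).pos.ne') ha.1 ha.2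
    intro k' _ _ _ Φ h H₁ H₂
    have hchar : CharP k' 2 := charP_of_injective_ringHom (algebraMap k k').injective 2
    have hfin : Module.Finite k k' := Module.Finite.of_finite
    obtain ⟨S', hS', G'⟩ := G.up (H₁.union H₂)
    have h4 := G'.small
    rw [Finset.card_empty, Nat.add_zero, hS', Finset.card_union_of_disjoint hdisj] at h4
    refine ⟨?_, h4⟩
    rw [hβ, map_pow]
    exact finite_frob_pow (by rw [Ne, map_eq_zero]; exact hβ0) h4.1 r
  have hUsum : U.card = ∑ e ∈ EN S N, cls S m n e := by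
    rw [hU, Finset.card_biUnion fun e he e' he' hne => types_disjoint hn' he he' hne]
    rfl
  have hVsum : V.card = ∑ e ∈ EN S N, gclsM S m n e := by
    rw [hV, Finset.card_biUnion]
    · rfl
    · intro e he e' he' hne
      refine Finset.disjoint_of_subset_left ?_ (Finset.disjoint_of_subset_right ?_
        (types_disjoint (m := m) hn' he he' hne))
      · exact Finset.image_subset_image (Finset.filter_subset _ _)
      · exact Finset.image_subset_image (Finset.filter_subset _ _)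
  have hfinG : (asClass '' {a | ∃ e, OfType S m n e a ∧ wt e = N ∧
          ∀ (k' : Type u) [Field k'] [Finite k'] [Algebra k k'] (Φ : RatFunc k →+* RatFunc k')
            (h : k'[X]), OddExt S Φ h → OddExt e.support Φ h →
          Finite (Pts (gcurve (Φ a) (Φ b)) (RatFunc k')) ∧
          SmallSelmer (Φ a) (Φ β) (S.card + e.support.card)}).Finite := by
    apply (U.finite_toSet).subset
    rw [← hUeq]
    apply Set.image_mono
    rintro a ⟨e, h4, h5, -⟩
    exact ⟨e, h4, h5⟩
  have hVle := Set.ncard_le_ncard hVsub hfinG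
  rw [Set.ncard_coe_finset, hVsum] at hVle
  rw [hUeq]
  refine ⟨U.finite_toSet, ?_, ?_⟩
  · rw [Finset.coe_nonempty, ← Finset.card_pos, hUsum]
    exact h2
  · rw [Set.ncard_coe_finset, hUsum]
    exact h3.trans (Nat.mul_le_mul_left _ hVle)

/-- the constant extensions of odd degree, in which places of prime degree to it are inert -/
theorem const_ext (k' : Type u) [Field k'] [Finite k'] [Algebra k k']
    (hodd : Odd (Module.finrank k k')) :
    ∃ Φ : RatFunc k →+* RatFunc k', Subst Φ X ∧ ∀ T : Finset (HeightOneSpectrum k[X]),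
      (∀ p ∈ T, (gQ p).natDegree.Coprime (Module.finrank k k')) → OddExt T Φ X := by
  obtain ⟨Φ, hΦ⟩ := exists_subst (k := k) (X : k'[X]) (by rw [natDegree_X]; exact one_ne_zero)
  exact ⟨Φ, hΦ, fun T hT => OddExt.const hΦ hodd hT⟩

end Pool.Agent.H2
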