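import Pool.Agent.H2.VDeep
import Pool.Agent.H2.VExt

/-!
# The twists which are more ramified than the curve
-/

set_option linter.unusedSectionVars false

namespace Pool.Agent.H2

open Polynomial IsDedekindDomain

universe u

variable {k : Type u} [Field k] [Finite k] [CharP k 2]

/-- At infinity and at the places in `S` the function `a` has a pole of a larger order than
those of the functions in `B`. -/
def Deep (S : Finset (HeightOneSpectrum k[X])) (B : Finset (RatFunc k)) (a : RatFunc k) : Prop :=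
  (1 < infAbv k a ∧ ∀ b ∈ B, infAbv k b < infAbv k a) ∧
    ∀ p ∈ S, 1 < finAbv p a ∧ ∀ b ∈ B, finAbv p b < finAbv p a

/-- the orders of the poles at `S` -/
noncomputable def nf (f : HeightOneSpectrum k[X] →₀ ℕ) : HeightOneSpectrum k[X] → ℕ :=
  fun p => 2 * f p - 1

theorem nf_odd {S : Finset (HeightOneSpectrum k[X])} {f : HeightOneSpectrum k[X] →₀ ℕ}
    (hf : f.support = S) : ∀ p ∈ S, Odd (nf f p) := by
  intro p hp
  rw [← hf, Finsupp.mem_support_iff] at hp
  exact ⟨f p - 1, by unfold nf; omega⟩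

open scoped Classical in
/-- all the classes of a type -/
noncomputable def UT (S : Finset (HeightOneSpectrum k[X])) (t : ℕ × (HeightOneSpectrum k[X] →₀ ℕ))
    (N : ℕ) : Finset (Set (RatFunc k)) :=
  (EN S N).biUnion fun e => (TW (S ∪ e.support) (2 * t.1 - 1) (nu S (nf t.2) e)).image asClass

open scoped Classical in
/-- the good classes of a type -/
noncomputable def VT (S : Finset (HeightOneSpectrum k[X])) (t : ℕ × (HeightOneSpectrum k[X] →₀ ℕ))
    (N : ℕ) : Finset (Set (RatFunc k)) :=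
  (EN S N).biUnion fun e => (GdM (S ∪ e.support) (2 * t.1 - 1) (nu S (nf t.2) e)).image asClass

section Types

variable {S : Finset (HeightOneSpectrum k[X])} {t : ℕ × (HeightOneSpectrum k[X] →₀ ℕ)} {N : ℕ}

theorem VT_sub : VT S t N ⊆ UT S t N := by
  classical
  unfold VT UT
  apply Finset.biUnion_mono
  intro e _
  exact Finset.image_subset_image (Finset.filter_subset _ _)

theorem card_UT (hf : t.2.support = S) :
    (UT S t N).card = ∑ e ∈ EN S N, cls S (2 * t.1 - 1) (nf t.2) e := by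
  classical
  unfold UT
  rw [Finset.card_biUnion fun e he e' he' hne => types_disjoint (nf_odd hf) he he' hne]
  rfl

theorem card_VT (hf : t.2.support = S) :
    (VT S t N).card = ∑ e ∈ EN S N, gclsM S (2 * t.1 - 1) (nf t.2) e := by
  classical
  unfold VT
  rw [Finset.card_biUnion]
  · rfl
  · intro e he e' he' hne
    refine Finset.disjoint_of_subset_left ?_ (Finset.disjoint_of_subset_right ?_
      (types_disjoint (m := 2 * t.1 - 1) (nf_odd hf) he he' hne))
    · exact Finset.image_subset_image (Finset.filter_subset _ _)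
    · exact Finset.image_subset_image (Finset.filter_subset _ _)

theorem mem_UT {c : Set (RatFunc k)} : c ∈ UT S t N ↔
    ∃ (x : RatFunc k) (e : HeightOneSpectrum k[X] →₀ ℕ), OfType S (2 * t.1 - 1) (nf t.2) e x ∧
      wt e = N ∧ asClass x = c := by
  classical
  unfold UT
  rw [Finset.mem_biUnion]
  constructor
  · rintro ⟨e, he, hc⟩
    rw [Finset.mem_image] at hc
    obtain ⟨x, hx, rfl⟩ := hc
    rw [mem_EN] at he
    exact ⟨x, e, (ofType_iff he.1).mpr (mem_TW.mp hx), he.2, rfl⟩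
  · rintro ⟨x, e, hx, he, rfl⟩
    have he0 : ∀ p ∈ S, e p = 0 := fun p hp => (hx.2.1 p hp).2
    exact ⟨e, mem_EN.mpr ⟨he0, he⟩,
      Finset.mem_image_of_mem _ (mem_TW.mpr ((ofType_iff he0).mp hx))⟩

open scoped Classical in
theorem mem_VT {c : Set (RatFunc k)} (hc : c ∈ VT S t N) :
    ∃ (x : RatFunc k) (e : HeightOneSpectrum k[X] →₀ ℕ), OfType S (2 * t.1 - 1) (nf t.2) e x ∧
      wt e = N ∧ x ∈ twists (S ∪ e.support) (2 * t.1 - 1) (nu S (nf t.2) e) ∧
      GoodM (S ∪ e.support) x ∧ asClass x = c := by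
  classical
  unfold VT at hc
  rw [Finset.mem_biUnion] at hc
  obtain ⟨e, he, hc⟩ := hc
  rw [Finset.mem_image] at hc
  obtain ⟨x, hx, rfl⟩ := hc
  unfold GdM at hx
  rw [Finset.mem_filter, mem_TW] at hx
  rw [mem_EN] at he
  exact ⟨x, e, (ofType_iff he.1).mpr hx.1, he.2, hx.1, hx.2, rfl⟩

theorem reduced_of_type' (h0 : 0 < t.1) (hf : t.2.support = S) {e : HeightOneSpectrum k[X] →₀ ℕ}
    {x : RatFunc k} (h : OfType S (2 * t.1 - 1) (nf t.2) e x) :
    Reduced (2 * t.1 - 1) (e + t.2) x := by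
  obtain ⟨h1, h2, h3⟩ := h
  refine ⟨Or.inr ⟨⟨t.1 - 1, by omega⟩, h1⟩, fun p => ?_⟩
  rw [Finsupp.add_apply]
  by_cases hp : p ∈ S
  · have hp' := hp
    rw [← hf, Finsupp.mem_support_iff] at hp'
    rw [(h2 p hp).2, Nat.zero_add]
    exact ⟨fun h => absurd h hp', fun _ => (h2 p hp).1⟩
  · have hp' := hp
    rw [← hf, Finsupp.notMem_support_iff] at hp'
    rw [hp', Nat.add_zero]
    exact h3 p hp

theorem UT_disjoint {t' : ℕ × (HeightOneSpectrum k[X] →₀ ℕ)} {N' : ℕ} (h0 : 0 < t.1)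
    (hf : t.2.support = S) (h0' : 0 < t'.1) (hf' : t'.2.support = S) {c : Set (RatFunc k)}
    (hc : c ∈ UT S t N) (hc' : c ∈ UT S t' N') : t = t' := by
  obtain ⟨x, e, h1, -, h2⟩ := mem_UT.mp hc
  obtain ⟨x', e', h3, -, h4⟩ := mem_UT.mp hc'
  obtain ⟨h5, h6⟩ := reduced_unique (reduced_of_type' h0 hf h1) (reduced_of_type' h0' hf' h3)
    (h2.trans h4.symm)
  refine Prod.ext (by omega) (Finsupp.ext fun p => ?_)
  by_cases hp : p ∈ S
  · have h7 := DFunLike.congr_fun h6 p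
    rw [Finsupp.add_apply, Finsupp.add_apply, (h1.2.1 p hp).2, (h3.2.1 p hp).2] at h7
    omega
  · rw [Finsupp.notMem_support_iff.mp (by rwa [hf]), Finsupp.notMem_support_iff.mp (by rwa [hf'])]

end Types

/-- a type of deep twists -/
def DeepT (S : Finset (HeightOneSpectrum k[X])) (B : Finset (RatFunc k))
    (t : ℕ × (HeightOneSpectrum k[X] →₀ ℕ)) : Prop :=
  (0 < t.1 ∧ t.2.support = S) ∧ (∀ b ∈ B, infAbv k b < 2 ^ (2 * t.1 - 1)) ∧
    ∀ p ∈ S, ∀ b ∈ B, finAbv p b < 2 ^ nf t.2 p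

section Deep

variable {S : Finset (HeightOneSpectrum k[X])} {B : Finset (RatFunc k)}

theorem deep_of_type {t : ℕ × (HeightOneSpectrum k[X] →₀ ℕ)} (ht : DeepT S B t)
    {e : HeightOneSpectrum k[X] →₀ ℕ} {x : RatFunc k}
    (h : OfType S (2 * t.1 - 1) (nf t.2) e x) : Deep S B x := by
  obtain ⟨⟨h0, hf⟩, h1, h3⟩ := ht
  obtain ⟨h4, h5, -⟩ := h
  refine ⟨?_, fun p hp => ?_⟩
  · rw [h4]
    exact ⟨one_lt_pow₀ (by norm_num) (by omega), h1⟩
  · rw [(h5 p hp).1]
    exact ⟨one_lt_pow₀ (by norm_num) (nf_odd hf p hp).pos.ne', h3 p hp⟩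

/-- the decomposition according to the types -/
theorem type_of_deep {m : ℕ} {e : HeightOneSpectrum k[X] →₀ ℕ} {a : RatFunc k}
    (h : Reduced m e a) (hd : Deep S B a) {i : ℕ} (h1 : (m + 1) / 2 < i)
    (h2 : ∀ p ∈ S, e p < i) :
    ∃ t : ℕ × (HeightOneSpectrum k[X] →₀ ℕ), DeepT S B t ∧ t.1 ≤ i ∧ wt t.2 ≤ i * dg S ∧
      t.1 + wt t.2 ≤ (m + 1) / 2 + wt e ∧
      asClass a ∈ UT S t ((m + 1) / 2 + wt e - (t.1 + wt t.2)) := by
  classical
  obtain ⟨h3, h4⟩ := h
  obtain ⟨h5, h6⟩ := hd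
  have h7 : Odd m ∧ infAbv k a = 2 ^ m := by
    rcases h3 with h3 | h3
    · exact absurd h5.1 (not_lt.mpr h3.2)
    · exact h3
  obtain ⟨j, hj⟩ := h7.1
  have hm : 2 * ((m + 1) / 2) - 1 = m := by omega
  set f := e.filter (fun p => p ∈ S) with hf
  set e' := e.filter (fun p => ¬ p ∈ S) with he'
  have hsum : f + e' = e := Finsupp.filter_add_filter_not e _
  have hwt : wt f + wt e' = wt e := by rw [← wt_add, hsum]
  have hep : ∀ p ∈ S, e p ≠ 0 := by
    intro p hp h0
    exact absurd (h6 p hp).1 (not_lt.mpr ((h4 p).1 h0))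
  have hfp : ∀ p ∈ S, f p = e p := fun p hp => Finsupp.filter_apply_pos _ _ hp
  have hfS : f.support = S := by
    ext p
    rw [Finsupp.mem_support_iff]
    by_cases hp : p ∈ S
    · rw [hfp p hp]; exact ⟨fun _ => hp, fun _ => hep p hp⟩
    · rw [hf, Finsupp.filter_apply_neg _ _ hp]
      exact ⟨fun h => absurd rfl h, fun h => absurd h hp⟩
  have hnf : ∀ p ∈ S, finAbv p a = 2 ^ nf f p := by
    intro p hp
    unfold nf
    rw [hfp p hp, (h4 p).2 (hep p hp)]
  refine ⟨((m + 1) / 2, f), ⟨⟨by omega, hfS⟩, ?_, fun p hp => ?_⟩, h1.le, ?_, ?_, ?_⟩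
  · simp only
    rw [hm, ← h7.2]; exact h5.2
  · simp only
    rw [← hnf p hp]; exact (h6 p hp).2
  · simp only
    unfold wt
    rw [hfS, dg_eq, Finset.mul_sum]
    apply Finset.sum_le_sum
    intro p hp
    rw [hfp p hp]
    exact Nat.mul_le_mul_right _ (h2 p hp).le
  · simp only; omega
  · rw [mem_UT]
    refine ⟨a, e', ⟨?_, fun p hp => ⟨hnf p hp, ?_⟩, fun p hp => ?_⟩, ?_, rfl⟩
    · simp only
      rw [hm]; exact h7.2
    · rw [he', Finsupp.filter_apply_neg (fun p => ¬ p ∈ S) e (not_not.mpr hp)]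
    · rw [he', Finsupp.filter_apply_pos (fun p => ¬ p ∈ S) e hp]
      exact h4 p
    · simp only; omega

end Deep

end Pool.Agent.H2
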