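import Pool.Agent.H2.VDeep2

/-!
# The twists which are more ramified than the curve, II
-/

set_option linter.unusedSectionVars false

namespace Pool.Agent.H2

open Polynomial IsDedekindDomain

universe u

variable {k : Type u} [Field k] [Finite k] [CharP k 2]

theorem root_lt {x : ℝ} {j r : ℕ} (hj : 0 < j) (h : x ^ 2 ^ r < 2 ^ j) : x < 2 ^ j := by
  by_cases h1 : x ≤ 1
  · exact lt_of_le_of_lt h1 (one_lt_pow₀ (by norm_num) hj.ne')
  · rw [not_le] at h1
    refine lt_of_le_of_lt ?_ h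
    exact le_self_pow₀ h1.le (by positivity)

theorem ofType_shift' {S : Finset (HeightOneSpectrum k[X])} {m : ℕ}
    {n : HeightOneSpectrum k[X] → ℕ} {e : HeightOneSpectrum k[X] →₀ ℕ} {a₀ x : RatFunc k}
    (h1 : infAbv k a₀ < 2 ^ m) (h2 : ∀ p ∈ S, finAbv p a₀ < 2 ^ n p)
    (h3 : ∀ p, p ∉ S → finAbv p a₀ ≤ 1)
    (h : OfType S m n e x) : OfType S m n e (a₀ + x) := by
  obtain ⟨h4, h5, h6⟩ := h
  refine ⟨?_, fun p hp => ⟨?_, (h5 p hp).2⟩, fun p hp => ⟨fun h0 => ?_, fun h0 => ?_⟩⟩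
  · rw [infAbv_add_of_lt, h4]
    rw [h4]; exact h1
  · rw [finAbv_add_of_lt, (h5 p hp).1]
    rw [(h5 p hp).1]; exact h2 p hp
  · exact (finAbv_nonarch p _ _).trans (max_le (h3 p hp) ((h6 p hp).1 h0))
  · rw [finAbv_add_of_lt, (h6 p hp).2 h0]
    rw [(h6 p hp).2 h0]
    exact lt_of_le_of_lt (h3 p hp) (one_lt_pow₀ (by norm_num) (by omega))

/-- The curve `y² + x y = x³ + a x² + b` has finitely many rational points and, if `b = β ^ (2 ^ r)`
with `β` not a square, the curve `y² + x y = x³ + a x² + β` has a small Selmer group. -/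
def GoodCurve (a b : RatFunc k) (M : ℕ) : Prop :=
  Finite (Pts (gcurve a b) (RatFunc k)) ∧
    ∃ (β : RatFunc k) (r : ℕ), b = β ^ 2 ^ r ∧ ¬ IsSquare β ∧ SmallSelmer a β M

/-- The function `a` has a pole of a larger order than `b` at infinity and at each of its poles, and
`b` has no zero and no pole at the other places. -/
def Adm (a b : RatFunc k) : Prop :=
  infAbv k b < infAbv k a ∧ ∀ p : HeightOneSpectrum k[X],
    (finAbv p a ≤ 1 → finAbv p b = 1) ∧ (1 < finAbv p a → finAbv p b < finAbv p a)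

section Main

variable {S : Finset (HeightOneSpectrum k[X])} {a₀ : RatFunc k} {B : Finset (RatFunc k)}

theorem good_of_VT (h0 : a₀ ∈ B) (hS : ∀ p, p ∉ S → finAbv p a₀ ≤ 1)
    {t : ℕ × (HeightOneSpectrum k[X] →₀ ℕ)} (ht : DeepT S B t) {N M : ℕ}
    (hM : N + (t.1 + wt t.2) = M) {c : Set (RatFunc k)} (hc : c ∈ VT S t N) :
    (fun x => a₀ + x) '' c ∈ asClass '' {a : RatFunc k | ∃ m e, Reduced m e a ∧
      (m + 1) / 2 + wt e = M ∧ Deep S B a ∧
      ∀ b, (∀ c : k, b ≠ RatFunc.C c) → Adm (a₀ + a) b → GoodCurve (a₀ + a) b M} := by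
  classical
  obtain ⟨x, e, h1, h2, h3, h4, rfl⟩ := mem_VT hc
  have hadd : a₀ + (a₀ + x) = x := by
    rw [← add_assoc, CharTwo.add_self_eq_zero, zero_add]
  have h5 := ofType_shift' (ht.2.1 a₀ h0) (fun p hp => ht.2.2 p hp a₀ h0) hS h1
  have h6 := reduced_of_type' ht.1.1 ht.1.2 h5
  have hodd := nf_odd ht.1.2
  refine ⟨a₀ + x, ⟨_, _, h6, ?_, deep_of_type ht h5, ?_⟩, (asClass_shift _ _).symm⟩
  · rw [wt_add]
    have := ht.1.1
    omega
  rw [hadd]
  rintro b hb ⟨hadm, hadm'⟩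
  obtain ⟨β, r, hβ, hβ2⟩ := exists_root b hb
  have hβ0 : β ≠ 0 := by rintro rfl; exact hβ2 ⟨0, by simp⟩
  have hne : (2 ^ r : ℕ) ≠ 0 := by positivity
  have hpow : ∀ p : HeightOneSpectrum k[X], finAbv p b = finAbv p β ^ 2 ^ r := by
    intro p; rw [hβ, map_pow]
  have hS' : ∀ p, p ∉ S ∪ e.support → finAbv p β = 1 := by
    intro p hp
    have h7 := (hadm' p).1 (h3.2.2 p hp)
    rw [hpow] at h7
    exact (pow_eq_one_iff_of_nonneg ((finAbv p).nonneg _) hne).mp h7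
  have hbm : infAbv k β < 2 ^ (2 * t.1 - 1) :=
    root_lt (r := r) (by have := ht.1.1; omega) (by rw [← map_pow, ← hβ, ← h1.1]; exact hadm)
  have hbn : ∀ p ∈ S ∪ e.support, finAbv p β < 2 ^ nu S (nf t.2) e p := by
    intro p hp
    apply root_lt (r := r) (nu_odd hodd e p).pos
    have h7 := h3.2.1 p hp
    rw [← hpow, ← h7]
    apply (hadm' p).2
    rw [h7]
    exact one_lt_pow₀ (by norm_num) (nu_odd hodd e p).pos.ne'
  have G : InvTwist (S ∪ e.support) ∅ β x :=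
    invTwist_of_goodM hβ2 hS' (⟨t.1 - 1, by have := ht.1.1; omega⟩ : Odd (2 * t.1 - 1))
      (fun p _ => nu_odd hodd e p) hbm hbn h3 h4
  have h7 := G.small
  refine ⟨?_, β, r, hβ, hβ2, ?_⟩
  · rw [hβ]
    exact finite_frob_pow hβ0 h7.1 r
  · apply h7.mono
    rw [Finset.card_empty, Nat.add_zero]
    have h8 := Finset.card_union_le S e.support
    have h9 := card_le_wt e
    have h10 := card_le_wt t.2
    rw [ht.1.2] at h10
    omega

theorem type_prop (t : ℕ × (HeightOneSpectrum k[X] →₀ ℕ)) : ∃ N₀ : ℕ, (0 < t.1 ∧ t.2.support = S) →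
    ∀ N, N₀ ≤ N → 2882 * (UT S t N).card ≤ 10000 * (VT S t N).card := by
  by_cases h : 0 < t.1 ∧ t.2.support = S
  · obtain ⟨N₀, h1⟩ := gen_propM' (S₀ := S) (m := 2 * t.1 - 1) (n := nf t.2)
      (⟨t.1 - 1, by have := h.1; omega⟩ : Odd (2 * t.1 - 1)) (nf_odd h.2)
    refine ⟨N₀, fun _ N hN => ?_⟩
    rw [card_UT h.2, card_VT h.2]
    exact (h1 N hN).2
  · exact ⟨0, fun h' => absurd h' h⟩

/-- there is a type of deep twists -/
theorem exists_type (S : Finset (HeightOneSpectrum k[X])) (B : Finset (RatFunc k)) :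
    ∃ t : ℕ × (HeightOneSpectrum k[X] →₀ ℕ), DeepT S B t := by
  classical
  obtain ⟨m₀, hm₀, hbm'⟩ := exists_odd_gt (∑ b ∈ B, infAbv k b)
  have hbm : ∀ b ∈ B, infAbv k b < 2 ^ m₀ := fun b hb => lt_of_le_of_lt
    (Finset.single_le_sum (f := fun b => infAbv k b) (fun b _ => (infAbv k).nonneg b) hb) hbm'
  choose n₀ hn₀ hbn' using fun p => exists_odd_gt (∑ b ∈ B, finAbv (k := k) p b)
  have hbn : ∀ p, ∀ b ∈ B, finAbv p b < 2 ^ n₀ p := fun p b hb => lt_of_le_of_lt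
    (Finset.single_le_sum (f := fun b => finAbv p b) (fun b _ => (finAbv p).nonneg b) hb) (hbn' p)
  have h1 : ∀ p ∈ S, nf (eS S n₀) p = n₀ p := by
    intro p hp
    obtain ⟨j, hj⟩ := hn₀ p
    unfold nf
    rw [eS_in hp]; omega
  obtain ⟨j, hj⟩ := hm₀
  have h2 : 2 * ((m₀ + 1) / 2) - 1 = m₀ := by omega
  refine ⟨((m₀ + 1) / 2, eS S n₀), ⟨by simp only; omega, ?_⟩, ?_, fun p hp => ?_⟩
  · ext p
    rw [Finsupp.mem_support_iff]
    by_cases hp : p ∈ S
    · obtain ⟨j, hj⟩ := hn₀ p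
      simp only
      rw [eS_in hp]
      exact ⟨fun _ => hp, fun _ => by omega⟩
    · simp only
      rw [eS_out hp]
      exact ⟨fun h => absurd rfl h, fun h => absurd h hp⟩
  · simp only
    rw [h2]; exact hbm
  · simp only
    rw [h1 p hp]
    exact hbn p

end Main

end Pool.Agent.H2
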