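import Pool.Agent.H2.VDeep4

/-!
# The twists which are more ramified than the curve, IV
-/

set_option linter.unusedSectionVars false

namespace Pool.Agent.H2

open Polynomial IsDedekindDomain

universe u

variable {k : Type u} [Field k] [Finite k] [CharP k 2]

/-- All the poles of the function `a` have odd orders, `m` at infinity (`m = 0` if there is no pole)
and `2 e(p) - 1` at the primes `p` with `e(p) ≠ 0`, and `⌊(m + 1) / 2⌋ + ∑ e(p) deg p = M`. So the
extension of `k(X)` generated by a root of `z² + z = a` has a conductor of degree `2 M`. -/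
def HalfCond (a : RatFunc k) (M : ℕ) : Prop :=
  ∃ (m : ℕ) (e : HeightOneSpectrum k[X] →₀ ℕ), Reduced m e a ∧ (m + 1) / 2 + wt e = M

/-- The function `a` has a pole of a larger order than `a₀` and all the functions `b ∈ B` at infinity
and at each place `p` where `a₀` has a pole or some `b ∈ B` is not a unit. -/
def MoreRamified (a₀ : RatFunc k) (B : Finset (RatFunc k)) (a : RatFunc k) : Prop :=
  (1 < infAbv k a ∧ infAbv k a₀ < infAbv k a ∧ ∀ b ∈ B, infAbv k b < infAbv k a) ∧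
    ∀ p : HeightOneSpectrum k[X], (1 < finAbv p a₀ ∨ ∃ b ∈ B, finAbv p b ≠ 1) →
      1 < finAbv p a ∧ finAbv p a₀ < finAbv p a ∧ ∀ b ∈ B, finAbv p b < finAbv p a

theorem halfCond_unique (a : RatFunc k) : ∃! M : ℕ, ∃ a' ∈ asClass a, HalfCond a' M := by
  obtain ⟨z, m, e, h⟩ := exists_reduced_form a
  refine ⟨(m + 1) / 2 + wt e, ⟨_, ⟨z, rfl⟩, m, e, h, rfl⟩, ?_⟩
  rintro M ⟨a', ⟨z', rfl⟩, m', e', h', rfl⟩
  have h1 : asClass (a + (z ^ 2 + z)) = asClass (a + (z' ^ 2 + z')) := by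
    rw [← asClass_eq.mpr ⟨z, rfl⟩, ← asClass_eq.mpr ⟨z', rfl⟩]
  obtain ⟨rfl, rfl⟩ := reduced_unique h h' h1
  rfl

theorem adm_of_more {a₀ a : RatFunc k} {B : Finset (RatFunc k)} (h : MoreRamified a₀ B a)
    {b : RatFunc k} (hb : b ∈ B) : Adm (a₀ + a) b := by
  obtain ⟨⟨h1, h2, h3⟩, h4⟩ := h
  refine ⟨?_, fun p => ?_⟩
  · rw [infAbv_add_of_lt h2]; exact h3 b hb
  · by_cases hp : 1 < finAbv p a₀ ∨ ∃ b ∈ B, finAbv p b ≠ 1
    · obtain ⟨h5, h6, h7⟩ := h4 p hp
      rw [finAbv_add_of_lt h6]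
      exact ⟨fun h => absurd h5 (not_lt.mpr h), fun _ => h7 b hb⟩
    · rw [not_or, not_lt] at hp
      have h5 : finAbv p b = 1 := by
        by_contra h5
        exact hp.2 ⟨b, hb, h5⟩
      exact ⟨fun _ => h5, fun h => by rw [h5]; exact h⟩

theorem more_prop (a₀ : RatFunc k) (B : Finset (RatFunc k))
    (hB : ∀ b ∈ B, ∀ c : k, b ≠ RatFunc.C c) :
    ∃ C M₀ : ℕ, ∀ M, M₀ ≤ M →
      (asClass '' {a : RatFunc k | HalfCond a M}).Finite ∧
      (asClass '' {a : RatFunc k | HalfCond a M}).ncard ≤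
        C * (asClass '' {a : RatFunc k | HalfCond a M ∧ MoreRamified a₀ B a}).ncard ∧
      (asClass '' {a : RatFunc k | HalfCond a M ∧ MoreRamified a₀ B a}).Nonempty ∧
      288 * (asClass '' {a : RatFunc k | HalfCond a M ∧ MoreRamified a₀ B a}).ncard ≤
        1000 * (asClass '' {a : RatFunc k | HalfCond a M ∧ MoreRamified a₀ B a ∧
          ∀ b, (∀ c : k, b ≠ RatFunc.C c) → (b ∈ B ∨ Adm (a₀ + a) b) →
            GoodCurve (a₀ + a) b M}).ncard := by
  classical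
  have hpl : ∀ b : RatFunc k, ∃ S : Finset (HeightOneSpectrum k[X]), b ≠ 0 →
      ∀ p, p ∉ S → finAbv p b = 1 := by
    intro b
    by_cases h0 : b = 0
    · exact ⟨∅, fun h => absurd h0 h⟩
    · obtain ⟨S, hS⟩ := exists_places b h0
      exact ⟨S, fun _ => hS⟩
  choose SS hSS using hpl
  set S := ((insert a₀ B).biUnion SS).filter
    (fun p => 1 < finAbv p a₀ ∨ ∃ b ∈ B, finAbv p b ≠ 1) with hSdef
  have hS : ∀ p, p ∈ S ↔ (1 < finAbv p a₀ ∨ ∃ b ∈ B, finAbv p b ≠ 1) := by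
    intro p
    rw [hSdef, Finset.mem_filter]
    refine ⟨fun h => h.2, fun h => ⟨?_, h⟩⟩
    rw [Finset.mem_biUnion]
    rcases h with h | ⟨b, hb, h⟩
    · refine ⟨a₀, Finset.mem_insert_self _ _, ?_⟩
      by_contra h1
      have h0 : a₀ ≠ 0 := by rintro rfl; rw [map_zero] at h; linarith
      have := hSS a₀ h0 p h1
      linarith
    · refine ⟨b, Finset.mem_insert_of_mem hb, ?_⟩
      by_contra h1
      have h0 : b ≠ 0 := by rintro rfl; exact hB 0 hb 0 (by rw [map_zero])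
      exact h (hSS b h0 p h1)
  have hdeep : ∀ a, Deep S (insert a₀ B) a ↔ MoreRamified a₀ B a := by
    intro a
    unfold Deep MoreRamified
    refine and_congr ?_ (forall_congr' fun p => ?_)
    · rw [Finset.forall_mem_insert]
    · rw [hS, Finset.forall_mem_insert]
  obtain ⟨C, M₀, h⟩ := deep_prop a₀ (insert a₀ B) (Finset.mem_insert_self _ _) S (fun p hp => by
    rw [hS, not_or, not_lt] at hp
    exact hp.1)
  refine ⟨C, M₀, fun M hM => ?_⟩
  have e1 : {a : RatFunc k | HalfCond a M}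
      = {a : RatFunc k | ∃ m e, Reduced m e a ∧ (m + 1) / 2 + wt e = M} := rfl
  have e2 : {a : RatFunc k | HalfCond a M ∧ MoreRamified a₀ B a}
      = {a : RatFunc k | ∃ m e, Reduced m e a ∧ (m + 1) / 2 + wt e = M ∧
        Deep S (insert a₀ B) a} := by
    ext a
    constructor
    · rintro ⟨⟨m, e, h1, h2⟩, h3⟩
      exact ⟨m, e, h1, h2, (hdeep a).mpr h3⟩
    · rintro ⟨m, e, h1, h2, h3⟩
      exact ⟨⟨m, e, h1, h2⟩, (hdeep a).mp h3⟩
  have e3 : {a : RatFunc k | HalfCond a M ∧ MoreRamified a₀ B a ∧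
          ∀ b, (∀ c : k, b ≠ RatFunc.C c) → (b ∈ B ∨ Adm (a₀ + a) b) →
            GoodCurve (a₀ + a) b M}
      = {a : RatFunc k | ∃ m e, Reduced m e a ∧ (m + 1) / 2 + wt e = M ∧
        Deep S (insert a₀ B) a ∧ ∀ b, (∀ c : k, b ≠ RatFunc.C c) → Adm (a₀ + a) b →
            GoodCurve (a₀ + a) b M} := by
    ext a
    constructor
    · rintro ⟨⟨m, e, h1, h2⟩, h3, h4⟩
      exact ⟨m, e, h1, h2, (hdeep a).mpr h3, fun b hb h5 => h4 b hb (Or.inr h5)⟩
    · rintro ⟨m, e, h1, h2, h3, h4⟩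
      have h5 := (hdeep a).mp h3
      refine ⟨⟨m, e, h1, h2⟩, h5, fun b hb h6 => h4 b hb ?_⟩
      rcases h6 with h6 | h6
      · exact adm_of_more h5 h6
      · exact h6
  rw [e1, e2, e3]
  exact h M hM

end Pool.Agent.H2
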