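import Pool.Agent.H2.VVar
import Pool.Agent.H2.VCos2

/-!
# Divisor sums of the characters
-/

namespace Pool.Agent.H2

open Polynomial IsDedekindDomain

universe u

variable {k : Type u} [Field k] [Finite k]

theorem dv_finite {G : k[X]} (hG : G ≠ 0) : {d : k[X] | d.Monic ∧ d ∣ G}.Finite := by
  have h1 : Finite (degreeLT k (G.natDegree + 1)) :=
    Finite.of_equiv _ (degreeLTEquiv k (G.natDegree + 1)).toEquiv.symm
  have h2 : ((degreeLT k (G.natDegree + 1) : Submodule k k[X]) : Set k[X]).Finite := h1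
  refine h2.subset ?_
  rintro d ⟨hd1, hd2⟩
  rw [SetLike.mem_coe, mem_degreeLT, degree_eq_natDegree hd1.ne_zero]
  exact_mod_cast Nat.lt_succ_of_le (natDegree_le_of_dvd hd2 hG)

open scoped Classical in
/-- the monic divisors -/
noncomputable def dvs (G : k[X]) : Finset k[X] :=
  if h : G = 0 then ∅ else (dv_finite h).toFinset

theorem mem_dv {G d : k[X]} (hG : G ≠ 0) : d ∈ dvs G ↔ d.Monic ∧ d ∣ G := by
  unfold dvs
  rw [dif_neg hG]
  exact (dv_finite hG).mem_toFinset

variable {f : k[X] → ℤ}

theorem dv_sum_mul (hmul : ∀ d e : k[X], d.Monic → e.Monic → f (d * e) = f d * f e) {x y : k[X]}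
    (hx : x ≠ 0) (hy : y ≠ 0) (hxy : IsRelPrime x y) :
    ∑ d ∈ dvs (x * y), f d = (∑ d ∈ dvs x, f d) * ∑ d ∈ dvs y, f d := by
  rw [Finset.sum_mul_sum, ← Finset.sum_product']
  symm
  apply Finset.sum_bij (fun p _ => p.1 * p.2)
  · rintro ⟨d, e⟩ hde
    rw [Finset.mem_product, mem_dv hx, mem_dv hy] at hde
    rw [mem_dv (mul_ne_zero hx hy)]
    exact ⟨hde.1.1.mul hde.2.1, mul_dvd_mul hde.1.2 hde.2.2⟩
  · rintro ⟨d, e⟩ hde ⟨d', e'⟩ hde' h
    rw [Finset.mem_product, mem_dv hx, mem_dv hy] at hde hde'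
    simp only at h hde hde'
    have h1 : d ∣ d' := by
      have h2 : d ∣ d' * e' := h ▸ dvd_mul_right d e
      have h3 : IsRelPrime d e' := fun c hc1 hc2 => hxy (hc1.trans hde.1.2) (hc2.trans hde'.2.2)
      exact h3.dvd_of_dvd_mul_right h2
    have h2 : d' ∣ d := by
      have h2 : d' ∣ d * e := h ▸ dvd_mul_right d' e'
      have h3 : IsRelPrime d' e := fun c hc1 hc2 => hxy (hc1.trans hde'.1.2) (hc2.trans hde.2.2)
      exact h3.dvd_of_dvd_mul_right h2
    have h3 : d = d' := eq_of_monic_of_associated hde.1.1 hde'.1.1 (associated_of_dvd_dvd h1 h2)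
    subst h3
    have h4 : e = e' := mul_left_cancel₀ hde.1.1.ne_zero h
    rw [h4]
  · intro c hc
    rw [mem_dv (mul_ne_zero hx hy)] at hc
    obtain ⟨d, e, hd, he, rfl⟩ := exists_dvd_and_dvd_of_dvd_mul hc.2
    have hne : d * e ≠ 0 := hc.1.ne_zero
    have hd0 : d ≠ 0 := left_ne_zero_of_mul hne
    have he0 : e ≠ 0 := right_ne_zero_of_mul hne
    have hlc : d.leadingCoeff * e.leadingCoeff = 1 := by
      rw [← leadingCoeff_mul]; exact hc.1
    refine ⟨(C d.leadingCoeff⁻¹ * d, C e.leadingCoeff⁻¹ * e), ?_, ?_⟩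
    · rw [Finset.mem_product, mem_dv hx, mem_dv hy]
      have h1 : IsUnit (C d.leadingCoeff⁻¹ : k[X]) :=
        isUnit_C.mpr (IsUnit.mk0 _ (inv_ne_zero (leadingCoeff_ne_zero.mpr hd0)))
      have h2 : IsUnit (C e.leadingCoeff⁻¹ : k[X]) :=
        isUnit_C.mpr (IsUnit.mk0 _ (inv_ne_zero (leadingCoeff_ne_zero.mpr he0)))
      refine ⟨⟨?_, (h1.mul_left_dvd).mpr hd⟩, ⟨?_, (h2.mul_left_dvd).mpr he⟩⟩
      · change (C d.leadingCoeff⁻¹ * d).Monic
        rw [mul_comm]; exact monic_mul_leadingCoeff_inv hd0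
      · change (C e.leadingCoeff⁻¹ * e).Monic
        rw [mul_comm]; exact monic_mul_leadingCoeff_inv he0
    · simp only
      have h1 : C d.leadingCoeff⁻¹ * d * (C e.leadingCoeff⁻¹ * e)
          = C ((d.leadingCoeff * e.leadingCoeff)⁻¹) * (d * e) := by
        rw [mul_inv, C_mul]; ring
      rw [h1, hlc, inv_one, C_1, one_mul]
  · rintro ⟨d, e⟩ hde
    rw [Finset.mem_product, mem_dv hx, mem_dv hy] at hde
    exact (hmul d e hde.1.1 hde.2.1).symm

theorem dv_unit {x : k[X]} (hx : IsUnit x) : dvs x = {1} := by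
  ext d
  rw [mem_dv hx.ne_zero, Finset.mem_singleton]
  constructor
  · rintro ⟨h1, h2⟩
    exact h1.eq_one_of_isUnit (isUnit_of_dvd_unit h2 hx)
  · rintro rfl
    exact ⟨monic_one, one_dvd _⟩

open scoped Classical in
theorem dv_prime_pow {p : k[X]} (hp : Prime p) (i : ℕ) :
    dvs (p ^ i) = (Finset.range (i + 1)).image (fun j => (normalize p) ^ j) := by
  classical
  have hm : (normalize p).Monic := monic_normalize hp.ne_zero
  ext d
  rw [mem_dv (pow_ne_zero i hp.ne_zero), Finset.mem_image]
  constructor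
  · rintro ⟨h1, h2⟩
    obtain ⟨j, hj, hd⟩ := (dvd_prime_pow hp i).mp h2
    refine ⟨j, Finset.mem_range.mpr (by omega), ?_⟩
    apply eq_of_monic_of_associated (hm.pow j) h1
    exact ((normalize_associated p).pow_pow).trans hd.symm
  · rintro ⟨j, hj, rfl⟩
    rw [Finset.mem_range] at hj
    refine ⟨hm.pow j, ?_⟩
    exact ((normalize_associated p).pow_pow).dvd.trans (pow_dvd_pow p (by omega))

/-- the divisor sum of a completely multiplicative function with values in `{-1, 0, 1}` is not
negative -/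
theorem dv_sum_nonneg (hmul : ∀ d e : k[X], d.Monic → e.Monic → f (d * e) = f d * f e)
    (h1 : f 1 = 1) (hf : ∀ d, f d = 0 ∨ f d = 1 ∨ f d = -1) (G : k[X]) :
    0 ≤ ∑ d ∈ dvs G, f d := by
  classical
  induction G using UniqueFactorizationMonoid.induction_on_coprime with
  | h0 => unfold dvs; rw [dif_pos rfl, Finset.sum_empty]
  | h1 hx => rw [dv_unit hx, Finset.sum_singleton, h1]; norm_num
  | hpr i hp =>
    rename_i p
    have hm : (normalize p).Monic := monic_normalize hp.ne_zero
    have hinj : Set.InjOn (fun j => (normalize p) ^ j) (Finset.range (i + 1) : Set ℕ) := by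
      intro a _ b _ h
      have h2 := congrArg natDegree h
      simp only [natDegree_pow] at h2
      have h3 : 0 < (normalize p).natDegree :=
        ((normalize_associated p).symm.irreducible hp.irreducible).natDegree_pos
      exact Nat.eq_of_mul_eq_mul_right h3 h2
    rw [dv_prime_pow hp i, Finset.sum_image hinj]
    have h2 : ∀ j, f ((normalize p) ^ j) = f (normalize p) ^ j := by
      intro j
      induction j with
      | zero => rw [pow_zero, pow_zero, h1]
      | succ j ih => rw [pow_succ, pow_succ, hmul _ _ (hm.pow j) hm, ih]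
    simp only [h2]
    rcases hf (normalize p) with h3 | h3 | h3
    · rw [h3]
      apply Finset.sum_nonneg
      intro j _
      exact pow_nonneg le_rfl j
    · rw [h3]
      apply Finset.sum_nonneg
      intro j _
      rw [one_pow]; norm_num
    · rw [h3, neg_one_geom_sum]
      split_ifs <;> norm_num
  | hcp hxy hx hy =>
    rename_i x y
    by_cases hx0 : x = 0
    · rw [hx0, zero_mul]; unfold dvs; rw [dif_pos rfl, Finset.sum_empty]
    by_cases hy0 : y = 0
    · rw [hy0, mul_zero]; unfold dvs; rw [dif_pos rfl, Finset.sum_empty]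
    rw [dv_sum_mul hmul hx0 hy0 hxy]
    exact mul_nonneg hx hy

/-- the divisor sum at a product of primes where `f = 1` -/
theorem dv_sum_prod (hmul : ∀ d e : k[X], d.Monic → e.Monic → f (d * e) = f d * f e)
    (h1 : f 1 = 1) (T : Finset (HeightOneSpectrum k[X])) (hT : ∀ q ∈ T, f (gQ q) = 1) :
    ∑ d ∈ dvs (pr T), f d = 2 ^ T.card := by
  classical
  induction T using Finset.induction_on with
  | empty =>
    have : pr (∅ : Finset (HeightOneSpectrum k[X])) = 1 := Finset.prod_empty
    rw [this, dv_unit isUnit_one, Finset.sum_singleton, h1, Finset.card_empty, pow_zero]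
  | insert q T hq ih =>
    have e1 : pr (insert q T) = gQ q * pr T := Finset.prod_insert hq
    have hrel : IsRelPrime (gQ q) (pr T) := by
      rw [(gQ_irr q).isRelPrime_iff_not_dvd]
      unfold pr
      rw [(gQ_irr q).prime.dvd_finsetProd_iff]
      rintro ⟨r, hr, hd⟩
      exact gQ_not_dvd (by rintro rfl; exact hq hr) hd
    have hpr0 : pr T ≠ 0 := Finset.prod_ne_zero_iff.mpr fun r _ => (gQ_irr r).ne_zero
    rw [e1, dv_sum_mul hmul (gQ_irr q).ne_zero hpr0 hrel,
      ih fun r hr => hT r (Finset.mem_insert_of_mem hr), Finset.card_insert_of_notMem hq]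
    have h2 := dv_prime_pow (gQ_irr q).prime 1
    rw [pow_one] at h2
    have hn : normalize (gQ q) = gQ q := (gQ_monic q).normalize_eq_self
    have h3 : ∑ d ∈ dvs (gQ q), f d = 2 := by
      rw [h2, hn]
      have h4 : (Finset.range (1 + 1)).image (fun j => gQ q ^ j) = {1, gQ q} := by
        ext x
        simp only [Finset.mem_image, Finset.mem_range, Finset.mem_insert, Finset.mem_singleton]
        constructor
        · rintro ⟨j, hj, rfl⟩
          interval_cases j
          · left; rw [pow_zero]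
          · right; rw [pow_one]
        · rintro (rfl | rfl)
          · exact ⟨0, by omega, pow_zero _⟩
          · exact ⟨1, by omega, pow_one _⟩
      rw [h4, Finset.sum_pair, h1, hT q (Finset.mem_insert_self _ _)]
      · norm_num
      · intro h5
        exact (gQ_irr q).not_isUnit (h5 ▸ isUnit_one)
    rw [h3, pow_succ, mul_comm]

/-- the number of the multiples -/
theorem card_mult {d : k[X]} (hd : d.Monic) {n : ℕ} (hn : d.natDegree ≤ n) [DecidablePred (d ∣ ·)] :
    ((MM k n).filter (fun G => d ∣ G)).card = (MM k (n - d.natDegree)).card := by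
  symm
  apply Finset.card_bij (fun e _ => d * e)
  · intro e he
    rw [mem_MM] at he
    rw [Finset.mem_filter, mem_MM]
    exact ⟨⟨hd.mul he.1, by rw [hd.natDegree_mul he.1, he.2]; omega⟩, dvd_mul_right _ _⟩
  · intro e _ e' _ h
    exact mul_left_cancel₀ hd.ne_zero h
  · intro G hG
    rw [Finset.mem_filter, mem_MM] at hG
    obtain ⟨⟨h1, h2⟩, e, rfl⟩ := hG
    have h3 : e.Monic := hd.of_mul_monic_left h1
    refine ⟨e, ?_, rfl⟩
    rw [mem_MM]
    rw [hd.natDegree_mul h3] at h2
    exact ⟨h3, by omega⟩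

theorem card_MM (n : ℕ) : (MM k n).card = Nat.card k ^ n := by
  have h1 : Nat.card (degreeLT k n) = Nat.card k ^ n := by
    rw [Nat.card_congr (degreeLTEquiv k n).toEquiv, Nat.card_fun,
      Nat.card_eq_fintype_card (α := Fin n), Fintype.card_fin]
  rw [← h1, ← Nat.card_eq_finsetCard]
  apply Nat.card_congr
  refine
    { toFun := fun d => ⟨d.1 - X ^ n, ?_⟩
      invFun := fun u => ⟨X ^ n + u.1, ?_⟩
      left_inv := fun d => Subtype.ext (by ring)
      right_inv := fun u => Subtype.ext (by ring) }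
  · have hd := mem_MM.mp d.2
    rw [mem_degreeLT]
    have h2 := degree_sub_lt_left (p := d.1) (q := X ^ n)
      (by rw [degree_eq_natDegree hd.1.ne_zero, hd.2, degree_X_pow]) hd.1.ne_zero
      (by rw [hd.1.leadingCoeff, (monic_X_pow n).leadingCoeff])
    rw [degree_eq_natDegree hd.1.ne_zero, hd.2] at h2
    exact h2
  · apply MM_add
    · rw [mem_MM]; exact ⟨monic_X_pow n, natDegree_X_pow n⟩
    · exact mem_degreeLT.mp u.2

end Pool.Agent.H2
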