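import Pool.Agent.H2.VDiv
import Pool.Agent.H2.VCount

/-!
# Few sets of places split completely in a given quadratic extension
-/

namespace Pool.Agent.H2

open Polynomial IsDedekindDomain

universe u

variable {k : Type u} [Field k] [Finite k] [CharP k 2]

section Chi

variable {P : Finset (HeightOneSpectrum k[X])} {h : RatFunc k}

theorem chi_mul (d e : k[X]) (hd : d.Monic) (he : e.Monic) :
    chi P h (d * e) = chi P h d * chi P h e := by
  classical
  have h1 : (∀ p ∈ P, ¬ gQ p ∣ d * e) ↔ (∀ p ∈ P, ¬ gQ p ∣ d) ∧ ∀ p ∈ P, ¬ gQ p ∣ e := by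
    constructor
    · intro h
      exact ⟨fun p hp hd => h p hp (hd.mul_right e), fun p hp he => h p hp (he.mul_left d)⟩
    · rintro ⟨h2, h3⟩ p hp h4
      rcases (gQ_irr p).prime.dvd_or_dvd h4 with h5 | h5
      · exact h2 p hp h5
      · exact h3 p hp h5
  unfold chi
  by_cases h2 : ∀ p ∈ P, ¬ gQ p ∣ d
  · by_cases h3 : ∀ p ∈ P, ¬ gQ p ∣ e
    · rw [if_pos (h1.mpr ⟨h2, h3⟩), if_pos h2, if_pos h3, theta_mul hd.ne_zero he.ne_zero]
      rcases zmod_cases (theta P h d) with h4 | h4 <;> rcases zmod_cases (theta P h e) with h5 | h5 <;>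
        rw [h4, h5] <;> decide
    · rw [if_neg (fun h4 => h3 (h1.mp h4).2), if_neg h3, mul_zero]
  · rw [if_neg (fun h4 => h2 (h1.mp h4).1), if_neg h2, zero_mul]

theorem chi_one : chi P h (1 : k[X]) = 1 := by
  unfold chi
  rw [if_pos (fun p _ hd => (gQ_irr p).not_isUnit (isUnit_of_dvd_one hd)), theta_one, if_pos rfl]

theorem chi_vals (d : k[X]) : chi P h d = 0 ∨ chi P h d = 1 ∨ chi P h d = -1 := by
  unfold chi
  split_ifs
  · exact Or.inr (Or.inl rfl)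
  · exact Or.inr (Or.inr rfl)
  · exact Or.inl rfl

theorem chi_prime (hP : ∀ p, p ∉ P → finAbv p h ≤ 1) {q : HeightOneSpectrum k[X]} (hq : q ∉ P)
    (h0 : TT q h = 0) : chi P h (gQ q) = 1 := by
  unfold chi
  rw [if_pos, theta_prime hP hq, h0, if_pos rfl]
  intro p hp hd
  exact gQ_not_dvd (by rintro rfl; exact hq hp) hd

theorem dvs_total (f : k[X] → ℤ) (n : ℕ) :
    ∑ G ∈ MM k n, ∑ d ∈ dvs G, f d
      = ∑ j ∈ Finset.range (n + 1), (Nat.card k : ℤ) ^ (n - j) * ∑ d ∈ MM k j, f d := by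
  classical
  have h1 : ∑ G ∈ MM k n, ∑ d ∈ dvs G, f d
      = ∑ d ∈ (Finset.range (n + 1)).biUnion (fun j => MM k j),
        ∑ G ∈ (MM k n).filter (fun G => d ∣ G), f d := by
    apply Finset.sum_comm'
    intro G d
    rw [Finset.mem_filter, Finset.mem_biUnion]
    constructor
    · rintro ⟨hG, hd⟩
      have hG0 := (mem_MM.mp hG).1.ne_zero
      rw [mem_dv hG0] at hd
      refine ⟨⟨hG, hd.2⟩, d.natDegree, ?_, mem_MM.mpr ⟨hd.1, rfl⟩⟩
      rw [Finset.mem_range]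
      have := natDegree_le_of_dvd hd.2 hG0
      rw [(mem_MM.mp hG).2] at this
      omega
    · rintro ⟨⟨hG, hd⟩, j, -, hj⟩
      exact ⟨hG, (mem_dv (mem_MM.mp hG).1.ne_zero).mpr ⟨(mem_MM.mp hj).1, hd⟩⟩
  rw [h1, Finset.sum_biUnion]
  · apply Finset.sum_congr rfl
    intro j hj
    rw [Finset.mul_sum]
    apply Finset.sum_congr rfl
    intro d hd
    have hd' := mem_MM.mp hd
    rw [Finset.sum_const, card_mult hd'.1 (by rw [hd'.2]; exact Nat.lt_succ_iff.mp (Finset.mem_range.mp hj)),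
      card_MM, hd'.2, nsmul_eq_mul]
    push_cast
    rfl
  · intro i _ j _ hij
    rw [Function.onFun, Finset.disjoint_left]
    intro d hd hd'
    exact hij ((mem_MM.mp hd).2.symm.trans (mem_MM.mp hd').2)

theorem chi_total {J : ℕ} (hJ : ∀ j, J ≤ j → ∑ d ∈ MM k j, chi P h d = 0) (n : ℕ) :
    ∑ G ∈ MM k n, ∑ d ∈ dvs G, chi P h d ≤ J * (Nat.card k : ℤ) ^ n := by
  have hq : (0 : ℤ) < Nat.card k := by exact_mod_cast Nat.card_pos
  rw [dvs_total]
  have h1 : ∀ j ∈ Finset.range (n + 1), (Nat.card k : ℤ) ^ (n - j) * ∑ d ∈ MM k j, chi P h d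
      ≤ if j < J then (Nat.card k : ℤ) ^ n else 0 := by
    intro j hj
    rw [Finset.mem_range] at hj
    split_ifs with h2
    · have h3 : ∑ d ∈ MM k j, chi P h d ≤ (Nat.card k : ℤ) ^ j := by
        have h4 : ∑ d ∈ MM k j, chi P h d ≤ ∑ d ∈ MM k j, 1 := by
          apply Finset.sum_le_sum
          intro d _
          rcases chi_vals (P := P) (h := h) d with h5 | h5 | h5 <;> rw [h5] <;> norm_num
        rw [Finset.sum_const, card_MM, nsmul_eq_mul, mul_one] at h4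
        exact_mod_cast h4
      calc (Nat.card k : ℤ) ^ (n - j) * ∑ d ∈ MM k j, chi P h d
          ≤ (Nat.card k : ℤ) ^ (n - j) * (Nat.card k : ℤ) ^ j :=
            mul_le_mul_of_nonneg_left h3 (by positivity)
        _ = (Nat.card k : ℤ) ^ n := by rw [← pow_add]; congr 1; omega
    · rw [hJ j (not_lt.mp h2), mul_zero]
  refine (Finset.sum_le_sum h1).trans ?_
  rw [← Finset.sum_filter, Finset.sum_const, nsmul_eq_mul]
  apply mul_le_mul_of_nonneg_right _ (by positivity)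
  have h2 : (Finset.range (n + 1)).filter (fun j => j < J) ⊆ Finset.range J := by
    intro j hj
    exact Finset.mem_range.mpr (Finset.mem_filter.mp hj).2
  have h3 := Finset.card_le_card h2
  rw [Finset.card_range] at h3
  exact_mod_cast h3

end Chi

theorem dvd_pr {T : Finset (HeightOneSpectrum k[X])} {q : HeightOneSpectrum k[X]} :
    gQ q ∣ pr T ↔ q ∈ T := by
  constructor
  · intro h
    unfold pr at h
    rw [(gQ_irr q).prime.dvd_finsetProd_iff] at h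
    obtain ⟨r, hr, hd⟩ := h
    by_contra hq
    exact gQ_not_dvd (by rintro rfl; exact hq hr) hd
  · intro h
    exact Finset.dvd_prod_of_mem _ h

theorem pr_inj : Function.Injective (pr : Finset (HeightOneSpectrum k[X]) → k[X]) := by
  intro T T' h
  ext q
  rw [← dvd_pr, h, dvd_pr]

/-- **Few sets of places split completely.** -/
theorem split_bound {P : Finset (HeightOneSpectrum k[X])} {h : RatFunc k}
    (hP : ∀ p, p ∉ P → finAbv p h ≤ 1) {J : ℕ} (hJ : ∀ j, J ≤ j → ∑ d ∈ MM k j, chi P h d = 0)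
    {n : ℕ} (hn : 1 ≤ n) (𝒮 : Finset (Finset (HeightOneSpectrum k[X])))
    (h𝒮 : ∀ T ∈ 𝒮, dg T = n ∧ ∀ q ∈ T, q ∉ P ∧ TT q h = 0) :
    (𝒮.card : ℝ) ≤ (Nat.card k : ℝ) ^ n * (Real.sqrt J / Real.sqrt (Real.sqrt n)) := by
  classical
  have hq := qpos (k := k)
  have h1 : (∑ T ∈ 𝒮, (2 : ℤ) ^ T.card) ≤ J * (Nat.card k : ℤ) ^ n := by
    refine le_trans ?_ (chi_total hJ n)
    have h2 : ∑ T ∈ 𝒮, (2 : ℤ) ^ T.card = ∑ T ∈ 𝒮, ∑ d ∈ dvs (pr T), chi P h d := by
      apply Finset.sum_congr rfl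
      intro T hT
      rw [dv_sum_prod chi_mul chi_one T fun q hq => chi_prime hP ((h𝒮 T hT).2 q hq).1
        ((h𝒮 T hT).2 q hq).2]
    rw [h2, ← Finset.sum_image (f := fun G => ∑ d ∈ dvs G, chi P h d) (g := pr)
      (fun T _ T' _ h => pr_inj h)]
    apply Finset.sum_le_sum_of_subset_of_nonneg
    · intro G hG
      rw [Finset.mem_image] at hG
      obtain ⟨T, hT, rfl⟩ := hG
      rw [mem_MM]
      exact ⟨pr_monic T, by rw [pr_deg, (h𝒮 T hT).1]⟩
    · intro G _ _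
      exact dv_sum_nonneg chi_mul chi_one chi_vals G
  have h1' : (∑ T ∈ 𝒮, (2 : ℝ) ^ T.card) ≤ J * (Nat.card k : ℝ) ^ n := by exact_mod_cast h1
  have h2 : ∑ T ∈ 𝒮, (1 / 2 : ℝ) ^ T.card ≤ (Nat.card k : ℝ) ^ n / Real.sqrt n := by
    refine le_trans ?_ (rankin (PL k n) hn fun p hp => mem_PL.mp hp)
    unfold SSum
    apply Finset.sum_le_sum_of_subset_of_nonneg
    · intro T hT
      rw [mem_FF]
      refine ⟨fun p hp => ?_, (h𝒮 T hT).1⟩
      rw [mem_PL]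
      have h3 := (h𝒮 T hT).1
      rw [dg_eq] at h3
      rw [← h3]
      exact Finset.single_le_sum (f := dp) (fun _ _ => Nat.zero_le _) hp
    · intro T _ _; positivity
  have h3 := Finset.sum_mul_sq_le_sq_mul_sq 𝒮 (fun T => Real.sqrt ((2 : ℝ) ^ T.card))
    (fun T => Real.sqrt ((1 / 2 : ℝ) ^ T.card))
  have h4 : ∑ T ∈ 𝒮, Real.sqrt ((2 : ℝ) ^ T.card) * Real.sqrt ((1 / 2 : ℝ) ^ T.card)
      = (𝒮.card : ℝ) := by
    rw [Finset.card_eq_sum_ones]
    push_cast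
    apply Finset.sum_congr rfl
    intro T _
    rw [← Real.sqrt_mul (by positivity), ← mul_pow]
    norm_num
  have h5 : ∑ T ∈ 𝒮, Real.sqrt ((2 : ℝ) ^ T.card) ^ 2 = ∑ T ∈ 𝒮, (2 : ℝ) ^ T.card :=
    Finset.sum_congr rfl fun T _ => Real.sq_sqrt (by positivity)
  have h6 : ∑ T ∈ 𝒮, Real.sqrt ((1 / 2 : ℝ) ^ T.card) ^ 2 = ∑ T ∈ 𝒮, (1 / 2 : ℝ) ^ T.card :=
    Finset.sum_congr rfl fun T _ => Real.sq_sqrt (by positivity)
  rw [h4, h5, h6] at h3
  have hn0 : (0 : ℝ) < n := by exact_mod_cast hn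
  have hsn : 0 < Real.sqrt n := Real.sqrt_pos.mpr hn0
  have hssn : 0 < Real.sqrt (Real.sqrt n) := Real.sqrt_pos.mpr hsn
  have h7 : (𝒮.card : ℝ) ^ 2 ≤ ((Nat.card k : ℝ) ^ n * (Real.sqrt J / Real.sqrt (Real.sqrt n))) ^ 2 := by
    refine h3.trans ?_
    have h8 : (0 : ℝ) ≤ ∑ T ∈ 𝒮, (1 / 2 : ℝ) ^ T.card := Finset.sum_nonneg fun _ _ => by positivity
    calc (∑ T ∈ 𝒮, (2 : ℝ) ^ T.card) * ∑ T ∈ 𝒮, (1 / 2 : ℝ) ^ T.card
        ≤ (J * (Nat.card k : ℝ) ^ n) * ((Nat.card k : ℝ) ^ n / Real.sqrt n) := by gcongr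
      _ = _ := by
        rw [mul_pow, div_pow, Real.sq_sqrt (Nat.cast_nonneg J), Real.sq_sqrt hsn.le]
        ring
  exact le_of_sq_le_sq h7 (by positivity)

end Pool.Agent.H2
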