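import Pool.Agent.H2.VPer
import Pool.Agent.H2.VSplit
import Pool.Agent.H2.Tail

/-!
# The exceptional sets of places
-/

namespace Pool.Agent.H2

open Polynomial IsDedekindDomain

universe u

variable {k : Type u} [Field k] [Finite k] [CharP k 2]

theorem card_FF_le (S : Finset (HeightOneSpectrum k[X])) (n : ℕ) :
    (FF S n).card ≤ Nat.card k ^ n := by
  rw [← card_MM]
  apply Finset.card_le_card_of_injOn pr
  · intro T hT
    rw [Finset.mem_coe, mem_FF] at hT
    rw [Finset.mem_coe, mem_MM]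
    exact ⟨pr_monic T, by rw [pr_deg, hT.2]⟩
  · intro T _ T' _ h
    exact pr_inj h

theorem dg_mono {T T' : Finset (HeightOneSpectrum k[X])} (h : T ⊆ T') : dg T ≤ dg T' :=
  Finset.sum_le_sum_of_subset h

open scoped Classical in
/-- the sets of places of degree `N` disjoint from `S₀` -/
noncomputable def FT (S₀ : Finset (HeightOneSpectrum k[X])) (N : ℕ) :
    Finset (Finset (HeightOneSpectrum k[X])) := FF ((PL k N).filter (fun p => p ∉ S₀)) N

theorem mem_FT {S₀ T : Finset (HeightOneSpectrum k[X])} {N : ℕ} :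
    T ∈ FT S₀ N ↔ Disjoint S₀ T ∧ dg T = N := by
  classical
  unfold FT
  rw [mem_FF, Finset.disjoint_right]
  constructor
  · rintro ⟨h1, h2⟩
    exact ⟨fun p hp => (Finset.mem_filter.mp (h1 hp)).2, h2⟩
  · rintro ⟨h1, h2⟩
    refine ⟨fun p hp => Finset.mem_filter.mpr ⟨?_, h1 hp⟩, h2⟩
    rw [mem_PL, ← h2, dg_eq]
    exact Finset.single_le_sum (f := dp) (fun _ _ => Nat.zero_le _) hp

open scoped Classical in
theorem card_super (S₀ W : Finset (HeightOneSpectrum k[X])) (N : ℕ) :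
    (((FT S₀ N).filter (fun T => W ⊆ T)).card : ℝ) ≤ (Nat.card k : ℝ) ^ N / (Nat.card k : ℝ) ^ dg W := by
  have hq := qpos (k := k)
  by_cases hW : dg W ≤ N
  · have h1 : ((FT S₀ N).filter (fun T => W ⊆ T)).card ≤ (FF (PL k N) (N - dg W)).card := by
      apply Finset.card_le_card_of_injOn (fun T => T \ W)
      · intro T hT
        rw [Finset.mem_coe, Finset.mem_filter, mem_FT] at hT
        rw [Finset.mem_coe, mem_FF]
        constructor
        · intro p hp
          rw [mem_PL, ← hT.1.2, dg_eq]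
          exact Finset.single_le_sum (f := dp) (fun _ _ => Nat.zero_le _) (Finset.mem_sdiff.mp hp).1
        · have h2 := Finset.sum_sdiff (f := dp) hT.2
          rw [← dg_eq, ← dg_eq, ← dg_eq, hT.1.2] at h2
          simp only
          omega
      · intro T hT T' hT' h
        rw [Finset.mem_coe, Finset.mem_filter] at hT hT'
        simp only at h
        rw [← Finset.sdiff_union_of_subset hT.2, ← Finset.sdiff_union_of_subset hT'.2, h]
    have h2 := h1.trans (card_FF_le _ _)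
    have h3 : (Nat.card k : ℝ) ^ N = (Nat.card k : ℝ) ^ (N - dg W) * (Nat.card k : ℝ) ^ dg W := by
      rw [← pow_add]; congr 1; omega
    rw [h3, mul_div_assoc, div_self (by positivity), mul_one]
    exact_mod_cast h2
  · have h1 : (FT S₀ N).filter (fun T => W ⊆ T) = ∅ := by
      rw [Finset.filter_eq_empty_iff]
      intro T hT hWT
      have h2 := dg_mono hWT
      rw [(mem_FT.mp hT).2] at h2
      exact hW h2
    rw [h1, Finset.card_empty, Nat.cast_zero]
    positivity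

theorem two_le_q : (2 : ℝ) ≤ Nat.card k := by
  have : 1 < Nat.card k := Finite.one_lt_card
  exact_mod_cast this

open scoped Classical in
/-- the large places of degree at most `N` -/
noncomputable def LP (k : Type u) [Field k] [Finite k] [CharP k 2] (ℓ N : ℕ) :
    Finset (HeightOneSpectrum k[X]) := (PL k N).filter (fun p => ℓ < dp p)

theorem geo_tail {q : ℝ} (hq : 2 ≤ q) (ℓ N : ℕ) :
    ∑ j ∈ (Finset.Icc 1 N).filter (fun j => ℓ < j), (q ^ j)⁻¹ ≤ (q ^ ℓ)⁻¹ := by
  have hq0 : 0 < q := by linarith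
  have h1 : ∑ j ∈ (Finset.Icc 1 N).filter (fun j => ℓ < j), (q ^ j)⁻¹
      ≤ ∑ j ∈ Finset.Ico (ℓ + 1) (N + 1), (q ^ j)⁻¹ := by
    apply Finset.sum_le_sum_of_subset_of_nonneg
    · intro j hj
      rw [Finset.mem_filter, Finset.mem_Icc] at hj
      rw [Finset.mem_Ico]
      omega
    · intro j _ _; positivity
  refine (h1.trans (geom_le' (by linarith) _ _)).trans ?_
  have h2 : 0 < q - 1 := by linarith
  have h3 : (q ^ (ℓ + 1))⁻¹ * (q / (q - 1)) = (q ^ ℓ)⁻¹ / (q - 1) := by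
    rw [pow_succ]; field_simp
  rw [h3, div_le_iff₀ h2]
  have h4 : (0 : ℝ) < (q ^ ℓ)⁻¹ := by positivity
  nlinarith

theorem sum_LP (ℓ N : ℕ) :
    ∑ p ∈ LP k ℓ N, (((Nat.card k : ℝ) ^ dp p) ^ 2)⁻¹ ≤ ((Nat.card k : ℝ) ^ ℓ)⁻¹ := by
  classical
  have hq := qpos (k := k)
  have h1 : ∑ p ∈ LP k ℓ N, (((Nat.card k : ℝ) ^ dp p) ^ 2)⁻¹
      ≤ ∑ p ∈ PL k N, (dp p : ℝ) * (if ℓ < dp p then (((Nat.card k : ℝ) ^ dp p) ^ 2)⁻¹ else 0) := by
    unfold LP
    rw [Finset.sum_filter]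
    apply Finset.sum_le_sum
    intro p _
    split_ifs
    · have h2 : (1 : ℝ) ≤ dp p := by exact_mod_cast dp_pos p
      have h3 : (0 : ℝ) ≤ (((Nat.card k : ℝ) ^ dp p) ^ 2)⁻¹ := by positivity
      nlinarith
    · rw [mul_zero]
  refine h1.trans ((sum_places (PL k N) (fun p hp => mem_PL.mp hp)
    (fun j => if ℓ < j then (((Nat.card k : ℝ) ^ j) ^ 2)⁻¹ else 0)
    (fun j => by split_ifs <;> positivity)).trans ?_)
  refine le_trans (le_of_eq ?_) (geo_tail (two_le_q (k := k)) ℓ N)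
  rw [Finset.sum_filter]
  apply Finset.sum_congr rfl
  intro j _
  split_ifs
  · field_simp
  · rw [mul_zero]

open scoped Classical in
/-- **The number of the functions with a missing pole.** -/
theorem err3 (S₀ : Finset (HeightOneSpectrum k[X])) {ℓ m N : ℕ} {ν : HeightOneSpectrum k[X] → ℕ}
    (hν1 : ∀ p, p ∉ S₀ → ν p = 1) :
    ∑ T ∈ FT S₀ N, (((AA S₀ T ℓ m ν) \ (TW (S₀ ∪ T) m ν)).card : ℝ)
      ≤ (Nat.card k : ℝ) ^ (m + ∑ p ∈ S₀, ν p * dp p + 1) * ((Nat.card k : ℝ) ^ N) ^ 2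
        * ((Nat.card k : ℝ) ^ ℓ)⁻¹ := by
  classical
  have hq := qpos (k := k)
  set r := ∑ p ∈ S₀, ν p * dp p with hr
  -- the missing pole
  have h1 : ∀ T ∈ FT S₀ N, (((AA S₀ T ℓ m ν) \ (TW (S₀ ∪ T) m ν)).card : ℝ)
      ≤ ∑ p ∈ T.filter (fun p => ℓ < dp p),
        (Nat.card k : ℝ) ^ (m + r + 1) * ((Nat.card k : ℝ) ^ N / (Nat.card k : ℝ) ^ dp p) := by
    intro T hT
    have hT' := mem_FT.mp hT
    have h2 : (AA S₀ T ℓ m ν) \ (TW (S₀ ∪ T) m ν)
        ⊆ (T.filter (fun p => ℓ < dp p)).biUnion (fun p => BF ((S₀ ∪ T).erase p) m ν) := by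
      intro a ha
      rw [Finset.mem_sdiff] at ha
      obtain ⟨ha1, ha2⟩ := ha
      unfold AA at ha1
      rw [Finset.mem_filter, mem_BF] at ha1
      obtain ⟨⟨h3, h4, h5⟩, h6, h7⟩ := ha1
      rw [mem_TW] at ha2
      have h8 : ∃ p ∈ S₀ ∪ T, finAbv p a ≠ 2 ^ ν p := by
        by_contra hcon
        push Not at hcon
        exact ha2 ⟨h6, hcon, h5⟩
      obtain ⟨p, hp, hpa⟩ := h8
      have hpl : p ∉ S₀ ∧ ℓ < dp p := by
        constructor
        · intro h; exact hpa (h7 p hp (Or.inl h))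
        · by_contra h; exact hpa (h7 p hp (Or.inr (not_lt.mp h)))
      have hpT : p ∈ T := by
        rcases Finset.mem_union.mp hp with h | h
        · exact absurd h hpl.1
        · exact h
      rw [Finset.mem_biUnion]
      refine ⟨p, Finset.mem_filter.mpr ⟨hpT, hpl.2⟩, mem_BF.mpr ⟨h3, fun q hq => ?_, fun q hq => ?_⟩⟩
      · exact h4 q (Finset.mem_of_mem_erase hq)
      · by_cases hqp : q = p
        · rw [hqp]
          have h9 := h4 p hp
          rw [hν1 p hpl.1, pow_one] at h9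
          rw [hν1 p hpl.1, pow_one] at hpa
          by_cases h0 : a = 0
          · rw [h0, map_zero]; exact zero_le_one
          · obtain ⟨j, hj⟩ := two_exp (finAbv_good p) a h0
            rw [hj] at h9 hpa ⊢
            have h10 : j ≤ 1 := by
              by_contra hlt
              rw [not_le] at hlt
              have : (2 : ℝ) ^ (1 : ℤ) < (2 : ℝ) ^ j := zpow_lt_zpow_right₀ (by norm_num) hlt
              rw [zpow_one] at this
              linarith
            have h11 : j ≠ 1 := by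
              rintro rfl
              exact hpa (zpow_one 2)
            exact zpow_le_one_of_nonpos₀ (by norm_num) (by omega)
        · exact h5 q (fun h => hq (Finset.mem_erase.mpr ⟨hqp, h⟩))
    have h3 := (Finset.card_le_card h2).trans Finset.card_biUnion_le
    have h4 : (((AA S₀ T ℓ m ν) \ (TW (S₀ ∪ T) m ν)).card : ℝ)
        ≤ ∑ p ∈ T.filter (fun p => ℓ < dp p), ((BF ((S₀ ∪ T).erase p) m ν).card : ℝ) := by
      exact_mod_cast h3
    refine h4.trans (Finset.sum_le_sum fun p hp => ?_)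
    have hpT := (Finset.mem_filter.mp hp).1
    have hpS : p ∉ S₀ := fun h => Finset.disjoint_left.mp hT'.1 h hpT
    have h5 : ((BF ((S₀ ∪ T).erase p) m ν).card : ℝ)
        ≤ (Nat.card k : ℝ) ^ (m + ∑ q ∈ (S₀ ∪ T).erase p, ν q * dp q + 1) := by
      exact_mod_cast card_BF _ _ _
    refine h5.trans (le_of_eq ?_)
    have h6 : ν p * dp p + ∑ q ∈ (S₀ ∪ T).erase p, ν q * dp q = r + N := by
      rw [Finset.add_sum_erase (S₀ ∪ T) (fun q => ν q * dp q) (Finset.mem_union_right _ hpT),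
        Finset.sum_union hT'.1, ← hr]
      congr 1
      rw [← hT'.2, dg_eq]
      apply Finset.sum_congr rfl
      intro q hq
      rw [hν1 q (fun h => Finset.disjoint_left.mp hT'.1 h hq), one_mul]
    rw [hν1 p hpS, one_mul] at h6
    have h7 : (Nat.card k : ℝ) ^ (m + r + 1) * (Nat.card k : ℝ) ^ N
        = (Nat.card k : ℝ) ^ (m + ∑ q ∈ (S₀ ∪ T).erase p, ν q * dp q + 1) * (Nat.card k : ℝ) ^ dp p := by
      rw [← pow_add, ← pow_add]; congr 1; omega
    rw [← mul_div_assoc, h7]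
    field_simp
  refine (Finset.sum_le_sum h1).trans ?_
  have h2 : ∑ T ∈ FT S₀ N, ∑ p ∈ T.filter (fun p => ℓ < dp p),
        (Nat.card k : ℝ) ^ (m + r + 1) * ((Nat.card k : ℝ) ^ N / (Nat.card k : ℝ) ^ dp p)
      = ∑ p ∈ LP k ℓ N, ∑ T ∈ (FT S₀ N).filter (fun T => {p} ⊆ T),
        (Nat.card k : ℝ) ^ (m + r + 1) * ((Nat.card k : ℝ) ^ N / (Nat.card k : ℝ) ^ dp p) := by
    apply Finset.sum_comm'
    intro T p
    unfold LP
    rw [Finset.mem_filter, Finset.mem_filter, Finset.mem_filter, Finset.singleton_subset_iff, mem_PL]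
    constructor
    · rintro ⟨h3, h4, h5⟩
      refine ⟨⟨h3, h4⟩, ?_, h5⟩
      rw [← (mem_FT.mp h3).2, dg_eq]
      exact Finset.single_le_sum (f := dp) (fun _ _ => Nat.zero_le _) h4
    · rintro ⟨⟨h3, h4⟩, -, h5⟩
      exact ⟨h3, h4, h5⟩
  rw [h2]
  have h3 : ∀ p ∈ LP k ℓ N, ∑ T ∈ (FT S₀ N).filter (fun T => {p} ⊆ T),
        (Nat.card k : ℝ) ^ (m + r + 1) * ((Nat.card k : ℝ) ^ N / (Nat.card k : ℝ) ^ dp p)
      ≤ (Nat.card k : ℝ) ^ (m + r + 1) * ((Nat.card k : ℝ) ^ N) ^ 2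
        * (((Nat.card k : ℝ) ^ dp p) ^ 2)⁻¹ := by
    intro p _
    rw [Finset.sum_const, nsmul_eq_mul]
    have h4 := card_super S₀ {p} N
    have h5 : dg {p} = dp p := by rw [dg_eq, Finset.sum_singleton]
    rw [h5] at h4
    calc (((FT S₀ N).filter (fun T => {p} ⊆ T)).card : ℝ) * ((Nat.card k : ℝ) ^ (m + r + 1)
          * ((Nat.card k : ℝ) ^ N / (Nat.card k : ℝ) ^ dp p))
        ≤ ((Nat.card k : ℝ) ^ N / (Nat.card k : ℝ) ^ dp p) * ((Nat.card k : ℝ) ^ (m + r + 1)
          * ((Nat.card k : ℝ) ^ N / (Nat.card k : ℝ) ^ dp p)) := by gcongr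
      _ = _ := by field_simp
  refine (Finset.sum_le_sum h3).trans ?_
  rw [← Finset.mul_sum]
  exact mul_le_mul_of_nonneg_left (sum_LP ℓ N) (by positivity)

end Pool.Agent.H2
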