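import Pool.Agent.H2.VErr

/-!
# The exceptional sets of places, II
-/

namespace Pool.Agent.H2

open Polynomial IsDedekindDomain

universe u

variable {k : Type u} [Field k] [Finite k] [CharP k 2]

theorem card_crit {B : k[X]} {p : HeightOneSpectrum k[X]} (hpB : ¬ gQ p ∣ B) {j ρ : ℕ}
    (hj : 2 * dp p ≤ j + ρ) (hρ : ρ ≤ dp p) (X₀ : Finset k[X])
    (hX : ∀ D ∈ X₀, D ∈ MM k j ∧ gQ p ∣ derivative (B * D)) :
    (X₀.card : ℝ) ≤ (Nat.card k : ℝ) ^ (j + ρ) / (Nat.card k : ℝ) ^ dp p := by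
  classical
  have hq := qpos (k := k)
  have hq1 : (1 : ℝ) ≤ Nat.card k := by have := two_le_q (k := k); linarith
  set e₀ := min (dp p) (j - dp p) with he₀
  have he1 : dp p + e₀ ≤ j := by
    rw [he₀]
    have : dp p ≤ j := by omega
    have := min_le_right (dp p) (j - dp p)
    omega
  have he2 : dp p ≤ e₀ + ρ := by
    rw [he₀]
    rcases min_cases (dp p) (j - dp p) with h | h <;> omega
  have he3 : e₀ ≤ dp p := min_le_left _ _
  have hsep : ¬ gQ p ∣ derivative (gQ p) := by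
    intro h
    have h1 : IsCoprime (gQ p) (derivative (gQ p)) := PerfectField.separable_of_irreducible (gQ_irr p)
    exact (gQ_irr p).not_isUnit (h1.isUnit_of_dvd' dvd_rfl h)
  have h1 : Nat.card (X₀ × degreeLT k e₀) ≤ Nat.card (MM k j) := by
    apply Nat.card_le_card_of_injective (fun x => (⟨x.1.1 + gQ p * x.2.1, by
      apply MM_add (hX x.1.1 x.1.2).1
      by_cases h0 : x.2.1 = 0
      · rw [h0, mul_zero, degree_zero]; exact WithBot.bot_lt_coe _
      · have h2 : x.2.1.natDegree < e₀ :=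
          (natDegree_lt_iff_degree_lt h0).mpr (mem_degreeLT.mp x.2.2)
        rw [degree_eq_natDegree (mul_ne_zero (gQ_irr p).ne_zero h0),
          natDegree_mul (gQ_irr p).ne_zero h0]
        have : (gQ p).natDegree = dp p := rfl
        exact_mod_cast (by omega)⟩ : MM k j))
    rintro ⟨⟨D, hD⟩, ⟨e, he⟩⟩ ⟨⟨D', hD'⟩, ⟨e', he'⟩⟩ h
    have h2 : D + gQ p * e = D' + gQ p * e' := congrArg Subtype.val h
    have h3 : gQ p ∣ B * derivative (gQ p) * (e - e') := by
      have h4 := (hX D hD).2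
      have h5 := (hX D' hD').2
      have h6 : derivative (B * D) - derivative (B * D')
          = - derivative (B * (gQ p * (e - e'))) := by
        rw [← map_sub, ← map_neg]
        congr 1
        linear_combination B * h2
      have h7 : gQ p ∣ derivative (B * (gQ p * (e - e'))) := by
        rw [← dvd_neg, ← h6]
        exact dvd_sub h4 h5
      have h8 : derivative (B * (gQ p * (e - e')))
          = B * derivative (gQ p) * (e - e')
            + gQ p * (derivative B * (e - e') + B * derivative (e - e')) := by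
        rw [derivative_mul, derivative_mul]; ring
      rw [h8] at h7
      exact (dvd_add_left (dvd_mul_right _ _)).mp h7
    have h4 : e = e' := by
      by_contra hne
      rcases (gQ_irr p).prime.dvd_or_dvd h3 with h5 | h5
      · rcases (gQ_irr p).prime.dvd_or_dvd h5 with h6 | h6
        · exact hpB h6
        · exact hsep h6
      · have h6 := degree_le_of_dvd h5 (sub_ne_zero.mpr hne)
        have h7 : (e - e').degree < (e₀ : WithBot ℕ) :=
          (degree_sub_le _ _).trans_lt (max_lt (mem_degreeLT.mp he) (mem_degreeLT.mp he'))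
        rw [degree_eq_natDegree (gQ_irr p).ne_zero] at h6
        have h8 : ((gQ p).natDegree : WithBot ℕ) < (e₀ : WithBot ℕ) := lt_of_le_of_lt h6 h7
        have h9 : (gQ p).natDegree < e₀ := by exact_mod_cast h8
        unfold dp at he3
        omega
    subst h4
    have h5 : D = D' := add_right_cancel h2
    subst h5
    rfl
  rw [Nat.card_prod, card_degreeLT, Nat.card_eq_finsetCard, Nat.card_eq_finsetCard, card_MM] at h1
  have h2 : (X₀.card : ℝ) * (Nat.card k : ℝ) ^ e₀ ≤ (Nat.card k : ℝ) ^ j := by exact_mod_cast h1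
  rw [le_div_iff₀ (by positivity)]
  calc (X₀.card : ℝ) * (Nat.card k : ℝ) ^ dp p
      ≤ (X₀.card : ℝ) * (Nat.card k : ℝ) ^ (e₀ + ρ) := by
        apply mul_le_mul_of_nonneg_left _ (by positivity)
        exact pow_le_pow_right₀ hq1 he2
    _ = (X₀.card : ℝ) * (Nat.card k : ℝ) ^ e₀ * (Nat.card k : ℝ) ^ ρ := by rw [pow_add]; ring
    _ ≤ (Nat.card k : ℝ) ^ j * (Nat.card k : ℝ) ^ ρ := by gcongr
    _ = _ := by rw [pow_add]

/-- a prime dividing the derivative of a squarefree polynomial has small degree -/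
theorem deg_of_dvd {T : Finset (HeightOneSpectrum k[X])} (hT : T.Nonempty)
    {p : HeightOneSpectrum k[X]} (h : gQ p ∣ derivative (pr T)) : 2 * dp p ≤ dg T := by
  classical
  have h1 := deriv_PC (pr T)
  have hC : PC (pr T) ≠ 0 := by
    intro h0
    obtain ⟨q, hq⟩ := hT
    have h2 := PE_PC (pr T)
    rw [h0, zero_pow two_ne_zero, mul_zero, add_zero] at h2
    have h3 : gQ q ∣ pr T := dvd_pr.mpr hq
    rw [h2] at h3
    have h4 := (gQ_irr q).prime.dvd_of_dvd_pow h3
    have h5 : pr T = gQ q * pr (T.erase q) := (Finset.mul_prod_erase _ _ hq).symm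
    have h6 : gQ q * gQ q ∣ gQ q * pr (T.erase q) := by
      rw [← h5, h2, pow_two]
      exact mul_dvd_mul h4 h4
    have h7 := (mul_dvd_mul_iff_left (gQ_irr q).ne_zero).mp h6
    exact Finset.notMem_erase q T (dvd_pr.mp h7)
  have h2 : gQ p ∣ PC (pr T) := by
    rw [h1] at h
    exact (gQ_irr p).prime.dvd_of_dvd_pow h
  have h3 := natDegree_le_of_dvd h2 hC
  have h4 : (derivative (pr T)).natDegree = 2 * (PC (pr T)).natDegree := by
    rw [h1, natDegree_pow]
  have h5 := natDegree_derivative_le (pr T)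
  rw [pr_deg] at h5
  have h6 : dp p = (gQ p).natDegree := rfl
  omega

open scoped Classical in
/-- **The number of the exceptional sets.** -/
theorem err1 (S₀ : Finset (HeightOneSpectrum k[X])) {ℓ N : ℕ} (hℓ : dg S₀ ≤ ℓ) :
    (((FT S₀ N).filter (fun T => ¬ ∀ p ∈ lar ℓ T, Gen p ((S₀ ∪ T).erase p))).card : ℝ)
      ≤ 2 ^ S₀.card * (Nat.card k : ℝ) ^ dg S₀ * (N + 1) * (Nat.card k : ℝ) ^ N
        * ((Nat.card k : ℝ) ^ ℓ)⁻¹ := by
  classical
  have hq := qpos (k := k)
  set ρ := dg S₀ with hρ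
  set 𝒬 : Finset (HeightOneSpectrum k[X]) → HeightOneSpectrum k[X] → ℕ →
      Finset (Finset (HeightOneSpectrum k[X])) := fun B p j =>
    (FF (PL k N) j).filter (fun Q => p ∉ B ∧ p ∉ Q ∧ 2 * dp p ≤ j + ρ ∧
      gQ p ∣ derivative (pr B * pr Q)) with h𝒬
  have hcard𝒬 : ∀ B, ∀ p ∈ LP k ℓ N, ∀ j, ((𝒬 B p j).card : ℝ)
      ≤ (Nat.card k : ℝ) ^ (j + ρ) / (Nat.card k : ℝ) ^ dp p := by
    intro B p hp j
    by_cases hne : (𝒬 B p j).Nonempty
    · obtain ⟨Q₀, hQ₀⟩ := hne
      rw [h𝒬] at hQ₀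
      simp only at hQ₀
      rw [Finset.mem_filter] at hQ₀
      obtain ⟨-, hpB, -, hj, -⟩ := hQ₀
      have hpB' : ¬ gQ p ∣ pr B := fun h => hpB (dvd_pr.mp h)
      have hlp : ℓ < dp p := by
        unfold LP at hp
        exact (Finset.mem_filter.mp hp).2
      have h1 := card_crit hpB' hj (by omega) ((𝒬 B p j).image pr) (by
        intro D hD
        rw [Finset.mem_image] at hD
        obtain ⟨Q, hQ, rfl⟩ := hD
        rw [h𝒬] at hQ
        simp only at hQ
        rw [Finset.mem_filter, mem_FF] at hQ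
        refine ⟨mem_MM.mpr ⟨pr_monic Q, by rw [pr_deg, hQ.1.2]⟩, hQ.2.2.2.2⟩)
      rwa [Finset.card_image_of_injective _ pr_inj] at h1
    · rw [Finset.not_nonempty_iff_eq_empty] at hne
      rw [hne, Finset.card_empty, Nat.cast_zero]
      positivity
  have hsub : (FT S₀ N).filter (fun T => ¬ ∀ p ∈ lar ℓ T, Gen p ((S₀ ∪ T).erase p))
      ⊆ S₀.powerset.biUnion (fun B => (LP k ℓ N).biUnion (fun p =>
        (Finset.range (N + 1)).biUnion (fun j => (𝒬 B p j).biUnion (fun Q =>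
          (FT S₀ N).filter (fun T => insert p Q ⊆ T))))) := by
    intro T hT
    rw [Finset.mem_filter, mem_FT] at hT
    obtain ⟨⟨hd, hN⟩, hbad⟩ := hT
    push Not at hbad
    obtain ⟨p, hp, hG⟩ := hbad
    unfold Gen at hG
    push Not at hG
    obtain ⟨T', hT', hne, hdvd⟩ := hG
    rw [mem_lar] at hp
    have hle : ∀ q ∈ T, dp q ≤ N := by
      intro q hq
      rw [← hN, dg_eq]
      exact Finset.single_le_sum (f := dp) (fun _ _ => Nat.zero_le _) hq
    set B := T'.filter (fun q => q ∈ S₀) with hB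
    set Q := T'.filter (fun q => q ∉ S₀) with hQ
    have hpT' : p ∉ T' := fun h => Finset.notMem_erase p _ (hT' h)
    have hQT : Q ⊆ T := by
      intro q hq
      rw [hQ, Finset.mem_filter] at hq
      rcases Finset.mem_union.mp (Finset.mem_of_mem_erase (hT' hq.1)) with h | h
      · exact absurd h hq.2
      · exact h
    have hdg : dg T' = dg B + dg Q := by
      rw [dg_eq, dg_eq, dg_eq, hB, hQ, Finset.sum_filter_add_sum_filter_not]
    have hpr : pr T' = pr B * pr Q := by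
      unfold pr
      rw [hB, hQ, Finset.prod_filter_mul_prod_filter_not]
    have hBS : B ⊆ S₀ := fun q hq => (Finset.mem_filter.mp hq).2
    have h2p := deg_of_dvd hne hdvd
    simp only [Finset.mem_biUnion]
    refine ⟨B, Finset.mem_powerset.mpr hBS, p, ?_, dg Q, ?_, Q, ?_, ?_⟩
    · unfold LP
      rw [Finset.mem_filter, mem_PL]
      exact ⟨hle p hp.1, hp.2⟩
    · rw [Finset.mem_range, Nat.lt_succ_iff, ← hN]
      exact dg_mono hQT
    · rw [h𝒬]
      simp only
      rw [Finset.mem_filter, mem_FF]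
      refine ⟨⟨fun q hq => mem_PL.mpr (hle q (hQT hq)), rfl⟩, fun h => hpT' (Finset.mem_filter.mp h).1,
        fun h => hpT' (Finset.mem_filter.mp h).1, ?_, ?_⟩
      · have := dg_mono hBS
        omega
      · rw [← hpr]; exact hdvd
    · rw [Finset.mem_filter, mem_FT]
      refine ⟨⟨hd, hN⟩, ?_⟩
      intro q hq
      rcases Finset.mem_insert.mp hq with rfl | hq
      · exact hp.1
      · exact hQT hq
  have hbound : ((S₀.powerset.biUnion (fun B => (LP k ℓ N).biUnion (fun p =>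
        (Finset.range (N + 1)).biUnion (fun j => (𝒬 B p j).biUnion (fun Q =>
          (FT S₀ N).filter (fun T => insert p Q ⊆ T)))))).card : ℝ)
      ≤ ∑ B ∈ S₀.powerset, ∑ p ∈ LP k ℓ N, ∑ j ∈ Finset.range (N + 1), ∑ Q ∈ 𝒬 B p j,
        (((FT S₀ N).filter (fun T => insert p Q ⊆ T)).card : ℝ) := by
    have h1 : (S₀.powerset.biUnion (fun B => (LP k ℓ N).biUnion (fun p =>
        (Finset.range (N + 1)).biUnion (fun j => (𝒬 B p j).biUnion (fun Q =>
          (FT S₀ N).filter (fun T => insert p Q ⊆ T)))))).card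
      ≤ ∑ B ∈ S₀.powerset, ∑ p ∈ LP k ℓ N, ∑ j ∈ Finset.range (N + 1), ∑ Q ∈ 𝒬 B p j,
        ((FT S₀ N).filter (fun T => insert p Q ⊆ T)).card := by
      refine Finset.card_biUnion_le.trans (Finset.sum_le_sum fun B _ => ?_)
      refine Finset.card_biUnion_le.trans (Finset.sum_le_sum fun p _ => ?_)
      refine Finset.card_biUnion_le.trans (Finset.sum_le_sum fun j _ => ?_)
      exact Finset.card_biUnion_le
    exact_mod_cast h1
  have h1 : (((FT S₀ N).filter (fun T => ¬ ∀ p ∈ lar ℓ T, Gen p ((S₀ ∪ T).erase p))).card : ℝ)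
      ≤ ∑ B ∈ S₀.powerset, ∑ p ∈ LP k ℓ N, ∑ j ∈ Finset.range (N + 1), ∑ Q ∈ 𝒬 B p j,
        (((FT S₀ N).filter (fun T => insert p Q ⊆ T)).card : ℝ) :=
    (by exact_mod_cast Finset.card_le_card hsub : (_ : ℝ) ≤ _).trans hbound
  refine h1.trans ?_
  have h2 : ∀ B ∈ S₀.powerset, ∀ p ∈ LP k ℓ N, ∀ j ∈ Finset.range (N + 1), ∑ Q ∈ 𝒬 B p j,
        (((FT S₀ N).filter (fun T => insert p Q ⊆ T)).card : ℝ)
      ≤ (Nat.card k : ℝ) ^ ρ * (Nat.card k : ℝ) ^ N * (((Nat.card k : ℝ) ^ dp p) ^ 2)⁻¹ := by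
    intro B _ p hp j _
    have h3 : ∀ Q ∈ 𝒬 B p j, (((FT S₀ N).filter (fun T => insert p Q ⊆ T)).card : ℝ)
        ≤ (Nat.card k : ℝ) ^ N / ((Nat.card k : ℝ) ^ dp p * (Nat.card k : ℝ) ^ j) := by
      intro Q hQ
      rw [h𝒬] at hQ
      simp only at hQ
      rw [Finset.mem_filter, mem_FF] at hQ
      have h4 := card_super S₀ (insert p Q) N
      rw [dg_insert hQ.2.2.1, hQ.1.2, pow_add] at h4
      exact h4
    refine (Finset.sum_le_sum h3).trans ?_
    rw [Finset.sum_const, nsmul_eq_mul]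
    calc ((𝒬 B p j).card : ℝ) * ((Nat.card k : ℝ) ^ N / ((Nat.card k : ℝ) ^ dp p * (Nat.card k : ℝ) ^ j))
        ≤ ((Nat.card k : ℝ) ^ (j + ρ) / (Nat.card k : ℝ) ^ dp p)
          * ((Nat.card k : ℝ) ^ N / ((Nat.card k : ℝ) ^ dp p * (Nat.card k : ℝ) ^ j)) := by
          apply mul_le_mul_of_nonneg_right (hcard𝒬 B p hp j) (by positivity)
      _ = _ := by rw [pow_add]; field_simp
  have h3 : ∑ B ∈ S₀.powerset, ∑ p ∈ LP k ℓ N, ∑ j ∈ Finset.range (N + 1), ∑ Q ∈ 𝒬 B p j,
        (((FT S₀ N).filter (fun T => insert p Q ⊆ T)).card : ℝ)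
      ≤ ∑ B ∈ S₀.powerset, ∑ p ∈ LP k ℓ N, ∑ j ∈ Finset.range (N + 1),
        (Nat.card k : ℝ) ^ ρ * (Nat.card k : ℝ) ^ N * (((Nat.card k : ℝ) ^ dp p) ^ 2)⁻¹ :=
    Finset.sum_le_sum fun B hB => Finset.sum_le_sum fun p hp => Finset.sum_le_sum fun j hj =>
      h2 B hB p hp j hj
  refine h3.trans ?_
  simp only [Finset.sum_const, nsmul_eq_mul, Finset.card_range, Finset.card_powerset]
  rw [← Finset.mul_sum, ← Finset.mul_sum]
  push_cast
  have h4 := sum_LP (k := k) ℓ N
  have h5 : (0 : ℝ) ≤ 2 ^ S₀.card * ((N + 1) * ((Nat.card k : ℝ) ^ ρ * (Nat.card k : ℝ) ^ N)) := by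
    positivity
  calc (2 : ℝ) ^ S₀.card * ((N + 1) * ((Nat.card k : ℝ) ^ ρ * (Nat.card k : ℝ) ^ N
        * ∑ p ∈ LP k ℓ N, (((Nat.card k : ℝ) ^ dp p) ^ 2)⁻¹))
      = 2 ^ S₀.card * ((N + 1) * ((Nat.card k : ℝ) ^ ρ * (Nat.card k : ℝ) ^ N))
        * ∑ p ∈ LP k ℓ N, (((Nat.card k : ℝ) ^ dp p) ^ 2)⁻¹ := by ring
    _ ≤ 2 ^ S₀.card * ((N + 1) * ((Nat.card k : ℝ) ^ ρ * (Nat.card k : ℝ) ^ N))
        * ((Nat.card k : ℝ) ^ ℓ)⁻¹ := mul_le_mul_of_nonneg_left h4 h5
    _ = _ := by ring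

end Pool.Agent.H2
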