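import Pool.Agent.H2.VPer

/-!
# The exceptional functions
-/

namespace Pool.Agent.H2

open Polynomial IsDedekindDomain

universe u

variable {k : Type u} [Field k] [Finite k] [CharP k 2]

theorem abs_pp {p : HeightOneSpectrum k[X]} {a : RatFunc k} (h : 1 < finAbv p a) :
    finAbv p (pp p a) = finAbv p a := by
  have e : pp p a = -(a - pp p a) + a := by ring
  rw [e, finAbv_add_of_lt]
  rw [AbsoluteValue.map_neg]
  exact lt_of_le_of_lt (pp_reg p a) h

theorem gp_int {S : Finset (HeightOneSpectrum k[X])} {a : RatFunc k}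
    (hS : ∀ p, p ∉ S → finAbv p a ≤ 1) (q : HeightOneSpectrum k[X]) : finAbv q (gp S a) ≤ 1 := by
  classical
  unfold gp
  by_cases hq : q ∈ S
  · rw [← Finset.add_sum_erase _ _ hq, ← sub_sub]
    refine (fin_sub q _ _).trans (max_le (pp_reg q a) ?_)
    refine fin_sum_le q _ _ fun p hp => ?_
    exact (pp_polar p a).1 q (Finset.ne_of_mem_erase hp).symm
  · refine (fin_sub q _ _).trans (max_le (hS q hq) ?_)
    refine fin_sum_le q _ _ fun p hp => ?_
    exact (pp_polar p a).1 q (by rintro rfl; exact hq hp)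

theorem gp_inf {S : Finset (HeightOneSpectrum k[X])} {a : RatFunc k} (h : 1 < infAbv k a) :
    infAbv k (gp S a) = infAbv k a := by
  unfold gp
  rw [sub_eq_add_neg, add_comm, infAbv_add_of_lt]
  rw [AbsoluteValue.map_neg]
  exact lt_trans (inf_sum_lt _ _ fun p _ => (pp_polar p a).2) h

theorem pp_sum_ne {p : HeightOneSpectrum k[X]} {T : Finset (HeightOneSpectrum k[X])} (hp : p ∉ T)
    (a : RatFunc k) : pp p (a - ∑ q ∈ T, pp q a) = pp p a := by
  apply pp_eq (pp_polar p a)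
  have e : a - ∑ q ∈ T, pp q a - pp p a = (a - pp p a) - ∑ q ∈ T, pp q a := by ring
  rw [e]
  refine (fin_sub p _ _).trans (max_le (pp_reg p a) (fin_sum_le p _ _ fun q hq => ?_))
  exact (pp_polar q a).1 p (by rintro rfl; exact hp hq)

/-- the condition on the small part -/
def Ind' (S Λ : Finset (HeightOneSpectrum k[X])) (a : RatFunc k) : Prop :=
  ∀ (ε : ZMod 2) (T : Finset (HeightOneSpectrum k[X])), T ⊆ S →
    (ε ≠ 0 ∨ T.Nonempty) → ∃ q ∈ Λ, TT q (zt ε * gp S a + ∑ p ∈ T, pp p a) = 1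

section Split

variable {S₀ T : Finset (HeightOneSpectrum k[X])} {ℓ m : ℕ} {ν : HeightOneSpectrum k[X] → ℕ}

theorem sml_lar (ℓ : ℕ) (T : Finset (HeightOneSpectrum k[X])) :
    dg T = dg (sml ℓ T) + dg (lar ℓ T) := by
  classical
  unfold sml lar
  have h : T.filter (fun p => ℓ < dp p) = T.filter (fun p => ¬ dp p ≤ ℓ) := by
    apply Finset.filter_congr
    intro p _
    rw [not_le]
  rw [h, dg_eq, dg_eq, dg_eq, Finset.sum_filter_add_sum_filter_not]

open scoped Classical in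
theorem split_AA (hm : 0 < m) (hν : ∀ p, 0 < ν p) (hν1 : ∀ p, p ∉ S₀ → ν p = 1)
    (hST : Disjoint S₀ T) {a : RatFunc k} (ha : a ∈ AA S₀ T ℓ m ν) :
    a - ∑ q ∈ lar ℓ T, pp q a ∈ TW (S₀ ∪ sml ℓ T) m ν ∧
    ∑ q ∈ lar ℓ T, pp q a ∈ UU (lar ℓ T) ∧
    (Ind' (S₀ ∪ sml ℓ T) (lar ℓ T) (a - ∑ q ∈ lar ℓ T, pp q a) →
      Ind (S₀ ∪ T) (lar ℓ T) a) := by
  classical
  unfold AA at ha
  rw [Finset.mem_filter, mem_BF] at ha
  obtain ⟨⟨h1, h2, h3⟩, h4, h5⟩ := ha
  have hm2 : (1 : ℝ) < 2 ^ m := one_lt_pow₀ (by norm_num) hm.ne'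
  have hν2 : ∀ p, (1 : ℝ) < 2 ^ ν p := fun p => one_lt_pow₀ (by norm_num) (hν p).ne'
  set v := ∑ q ∈ lar ℓ T, pp q a with hv
  have hdisj : ∀ p, p ∈ S₀ ∪ sml ℓ T → p ∉ lar ℓ T := by
    intro p hp hpl
    rw [mem_lar] at hpl
    rcases Finset.mem_union.mp hp with h | h
    · exact Finset.disjoint_left.mp hST h hpl.1
    · have := (mem_sml.mp h).2; omega
  have hU : S₀ ∪ T = (S₀ ∪ sml ℓ T) ∪ lar ℓ T := by
    ext p
    rw [Finset.mem_union, Finset.mem_union, Finset.mem_union, mem_sml, mem_lar]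
    constructor
    · rintro (h | h)
      · exact Or.inl (Or.inl h)
      · by_cases hpl : dp p ≤ ℓ
        · exact Or.inl (Or.inr ⟨h, hpl⟩)
        · exact Or.inr ⟨h, not_le.mp hpl⟩
    · rintro ((h | h) | h)
      · exact Or.inl h
      · exact Or.inr h.1
      · exact Or.inr h.1
  have hvinf : infAbv k v < 1 := inf_sum_lt _ _ fun p _ => (pp_polar p a).2
  have hvreg : ∀ p, p ∉ lar ℓ T → finAbv p v ≤ 1 := fun p hp =>
    fin_sum_le p _ _ fun q hq => (pp_polar q a).1 p (by rintro rfl; exact hp hq)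
  have hvreg' : ∀ p ∈ lar ℓ T, finAbv p (a - v) ≤ 1 := by
    intro p hp
    rw [hv, ← Finset.add_sum_erase _ _ hp, ← sub_sub]
    refine (fin_sub p _ _).trans (max_le (pp_reg p a) (fin_sum_le p _ _ fun q hq => ?_))
    exact (pp_polar q a).1 p (Finset.ne_of_mem_erase hq).symm
  refine ⟨?_, ⟨hvinf, fun p hp => ?_, fun p hp => hvreg p hp⟩, ?_⟩
  · rw [mem_TW]
    refine ⟨?_, fun p hp => ?_, fun p hp => ?_⟩
    · rw [sub_eq_add_neg, add_comm, infAbv_add_of_lt]
      · exact h4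
      · rw [AbsoluteValue.map_neg, h4]; linarith
    · have h6 : finAbv p a = 2 ^ ν p := by
        apply h5 p (by rw [hU]; exact Finset.mem_union_left _ hp)
        rcases Finset.mem_union.mp hp with h | h
        · exact Or.inl h
        · exact Or.inr (mem_sml.mp h).2
      rw [sub_eq_add_neg, add_comm, finAbv_add_of_lt]
      · exact h6
      · rw [AbsoluteValue.map_neg, h6]
        exact lt_of_le_of_lt (hvreg p (hdisj p hp)) (hν2 p)
    · by_cases hpl : p ∈ lar ℓ T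
      · exact hvreg' p hpl
      · refine (fin_sub p _ _).trans (max_le (h3 p ?_) (hvreg p hpl))
        rw [hU, Finset.mem_union, not_or]
        exact ⟨hp, hpl⟩
  · have e : v = a - (a - v) := by ring
    rw [e]
    refine (fin_sub p _ _).trans (max_le ?_ ((hvreg' p hp).trans (by norm_num)))
    have hpT := (mem_lar.mp hp).1
    have h6 := h2 p (Finset.mem_union_right _ hpT)
    rw [hν1 p (fun h => Finset.disjoint_left.mp hST h hpT), pow_one] at h6
    exact h6
  · intro hI ε T' hT' hd hor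
    have hT'' : T' ⊆ S₀ ∪ sml ℓ T := by
      intro p hp
      have h6 := hT' hp
      rw [hU] at h6
      rcases Finset.mem_union.mp h6 with h7 | h7
      · exact h7
      · exact absurd h7 (Finset.disjoint_left.mp hd hp)
    obtain ⟨q, hq, hq1⟩ := hI ε T' hT'' hor
    refine ⟨q, hq, ?_⟩
    have hpp : ∀ p ∈ S₀ ∪ sml ℓ T, pp p (a - v) = pp p a := fun p hp => pp_sum_ne (hdisj p hp) a
    have e1 : gp (S₀ ∪ sml ℓ T) (a - v) = gp (S₀ ∪ T) a := by
      unfold gp
      rw [Finset.sum_congr rfl hpp, hU, Finset.sum_union (Finset.disjoint_left.mpr hdisj)]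
      rw [hv]; ring
    rw [e1, Finset.sum_congr rfl fun p hp => hpp p (hT'' hp)] at hq1
    exact hq1

open scoped Classical in
/-- the exceptional functions for a given set of places -/
theorem bad_T (hm : 0 < m) (hν : ∀ p, 0 < ν p) (hν1 : ∀ p, p ∉ S₀ → ν p = 1)
    (hST : Disjoint S₀ T) :
    (((AA S₀ T ℓ m ν).filter (fun a => ¬ Ind (S₀ ∪ T) (lar ℓ T) a)).card : ℝ)
      ≤ (Nat.card k : ℝ) ^ dg (lar ℓ T)
        * ((TW (S₀ ∪ sml ℓ T) m ν).filter
          (fun a => ¬ Ind' (S₀ ∪ sml ℓ T) (lar ℓ T) a)).card := by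
  classical
  set A := (AA S₀ T ℓ m ν).filter (fun a => ¬ Ind (S₀ ∪ T) (lar ℓ T) a) with hA
  set B := (TW (S₀ ∪ sml ℓ T) m ν).filter (fun a => ¬ Ind' (S₀ ∪ sml ℓ T) (lar ℓ T) a) with hB
  have hspl : ∀ a : A, _ := fun a => split_AA hm hν hν1 hST (Finset.mem_filter.mp a.2).1
  have h1 : Nat.card A ≤ Nat.card (B × UU (lar ℓ T)) := by
    apply Nat.card_le_card_of_injective (fun a => (⟨a.1 - ∑ q ∈ lar ℓ T, pp q a.1, by
      rw [hB, Finset.mem_filter]
      refine ⟨(hspl a).1, fun hI => ?_⟩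
      exact (Finset.mem_filter.mp a.2).2 ((hspl a).2.2 hI)⟩,
      ⟨∑ q ∈ lar ℓ T, pp q a.1, (hspl a).2.1⟩))
    intro a b h
    have h2 := congrArg (fun x => x.1.1 + x.2.1) h
    simp only [sub_add_cancel] at h2
    exact Subtype.ext h2
  rw [Nat.card_prod, Nat.card_eq_finsetCard, Nat.card_eq_finsetCard] at h1
  have h2 := card_UU_le (lar ℓ T)
  calc (A.card : ℝ) ≤ ((B.card * Nat.card (UU (lar ℓ T)) : ℕ) : ℝ) := by exact_mod_cast h1
    _ ≤ ((B.card * Nat.card k ^ dg (lar ℓ T) : ℕ) : ℝ) := by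
      exact_mod_cast Nat.mul_le_mul_left _ h2
    _ = _ := by push_cast; ring

end Split

end Pool.Agent.H2
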