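import Pool.Agent.H2.VErr
import Pool.Agent.H2.VErr2

/-!
# The exceptional functions, II
-/

namespace Pool.Agent.H2

open Polynomial IsDedekindDomain

universe u

variable {k : Type u} [Field k] [Finite k] [CharP k 2]

theorem card_h {S : Finset (HeightOneSpectrum k[X])} {m : ℕ} {ν : HeightOneSpectrum k[X] → ℕ}
    (hm : Odd m) (hν : ∀ p ∈ S, Odd (ν p)) {a : RatFunc k} (ha : a ∈ TW S m ν) {J : ℕ}
    (hJ : m + ∑ p ∈ S, (ν p + 1) * dp p ≤ J) {n : ℕ} (hn : 1 ≤ n) {ε : ZMod 2}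
    {T' : Finset (HeightOneSpectrum k[X])} (hT' : T' ⊆ S) (hor : ε ≠ 0 ∨ T'.Nonempty)
    (𝒮 : Finset (Finset (HeightOneSpectrum k[X])))
    (h𝒮 : ∀ T ∈ 𝒮, dg T = n ∧ Disjoint S T ∧
      ∀ q ∈ T, TT q (zt ε * gp S a + ∑ p ∈ T', pp p a) = 0) :
    (𝒮.card : ℝ) ≤ (Nat.card k : ℝ) ^ n * (Real.sqrt J / Real.sqrt (Real.sqrt n)) := by
  classical
  rw [mem_TW] at ha
  obtain ⟨h1, h2, h3⟩ := ha
  have hm2 : (1 : ℝ) < 2 ^ m := one_lt_pow₀ (by norm_num) hm.pos.ne'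
  have hν2 : ∀ p ∈ S, (1 : ℝ) < 2 ^ ν p := fun p hp => one_lt_pow₀ (by norm_num) (hν p hp).pos.ne'
  have hzt : ∀ q : HeightOneSpectrum k[X], finAbv q (zt ε * gp S a) ≤ 1 := by
    intro q
    rw [map_mul]
    exact mul_le_one₀ (zero_one (zt_cases _) q) ((finAbv q).nonneg _) (gp_int h3 q)
  have hreg : ∀ q, q ∉ T' → finAbv q (zt ε * gp S a + ∑ p ∈ T', pp p a) ≤ 1 := by
    intro q hq
    refine (finAbv_nonarch q _ _).trans (max_le (hzt q) (fin_sum_le q _ _ fun p hp => ?_))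
    exact (pp_polar p a).1 q (by rintro rfl; exact hq hp)
  have hpole : ∀ q ∈ T', finAbv q (zt ε * gp S a + ∑ p ∈ T', pp p a) = 2 ^ ν q := by
    intro q hq
    have h4 := h2 q (hT' hq)
    have h5 : 1 < finAbv q a := by rw [h4]; exact hν2 q (hT' hq)
    have e : zt ε * gp S a + ∑ p ∈ T', pp p a
        = (zt ε * gp S a + ∑ p ∈ T'.erase q, pp p a) + pp q a := by
      rw [← Finset.add_sum_erase _ _ hq]; ring
    rw [e, finAbv_add_of_lt, abs_pp h5, h4]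
    rw [abs_pp h5]
    refine lt_of_le_of_lt ?_ h5
    refine (finAbv_nonarch q _ _).trans (max_le (hzt q) (fin_sum_le q _ _ fun p hp => ?_))
    exact (pp_polar p a).1 q (Finset.ne_of_mem_erase hp).symm
  have hsuminf : infAbv k (∑ p ∈ T', pp p a) < 1 := inf_sum_lt _ _ fun p _ => (pp_polar p a).2
  have hle : ∑ p ∈ T', (ν p + 1) * dp p ≤ ∑ p ∈ S, (ν p + 1) * dp p :=
    Finset.sum_le_sum_of_subset hT'
  apply split_bound (P := T') hreg (J := J) _ hn 𝒮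
  · intro T hT
    refine ⟨(h𝒮 T hT).1, fun q hq => ⟨fun hqT => ?_, (h𝒮 T hT).2.2 q hq⟩⟩
    exact Finset.disjoint_left.mp (h𝒮 T hT).2.1 (hT' hqT) hq
  · intro j hj
    rcases zmod_cases ε with rfl | rfl
    · obtain ⟨p₀, hp₀⟩ : T'.Nonempty := by
        rcases hor with h | h
        · exact absurd rfl h
        · exact h
      apply van_A hp₀ hpole (fun p hp => hν p (hT' hp))
      · rw [zt_zero, zero_mul, zero_add]; exact hsuminf
      · omega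
    · apply van_B hpole hm
      · rw [zt_one, one_mul, add_comm, infAbv_add_of_lt, gp_inf (by rw [h1]; exact hm2), h1]
        rw [gp_inf (by rw [h1]; exact hm2), h1]
        linarith
      · omega

theorem card_badL {S : Finset (HeightOneSpectrum k[X])} {m : ℕ} {ν : HeightOneSpectrum k[X] → ℕ}
    (hm : Odd m) (hν : ∀ p ∈ S, Odd (ν p)) {a : RatFunc k} (ha : a ∈ TW S m ν) {J : ℕ}
    (hJ : m + ∑ p ∈ S, (ν p + 1) * dp p ≤ J) {n : ℕ} (hn : 1 ≤ n)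
    (𝒮 : Finset (Finset (HeightOneSpectrum k[X])))
    (h𝒮 : ∀ T ∈ 𝒮, dg T = n ∧ Disjoint S T ∧ ¬ Ind' S T a) :
    (𝒮.card : ℝ) ≤ 2 ^ (S.card + 1)
      * ((Nat.card k : ℝ) ^ n * (Real.sqrt J / Real.sqrt (Real.sqrt n))) := by
  classical
  have hq := qpos (k := k)
  set 𝒮' : ZMod 2 × Finset (HeightOneSpectrum k[X]) → Finset (Finset (HeightOneSpectrum k[X])) :=
    fun x => 𝒮.filter (fun T => (x.1 ≠ 0 ∨ x.2.Nonempty) ∧
      ∀ q ∈ T, TT q (zt x.1 * gp S a + ∑ p ∈ x.2, pp p a) = 0) with h𝒮'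
  have hsub : 𝒮 ⊆ ((Finset.univ : Finset (ZMod 2)) ×ˢ S.powerset).biUnion 𝒮' := by
    intro T hT
    obtain ⟨h1, h2, h3⟩ := h𝒮 T hT
    unfold Ind' at h3
    push Not at h3
    obtain ⟨ε, T', hT', hor, h4⟩ := h3
    rw [Finset.mem_biUnion]
    refine ⟨(ε, T'), Finset.mem_product.mpr ⟨Finset.mem_univ _, Finset.mem_powerset.mpr hT'⟩, ?_⟩
    rw [h𝒮', Finset.mem_filter]
    refine ⟨hT, hor, fun q hq => ?_⟩
    rcases zmod_cases (TT q (zt ε * gp S a + ∑ p ∈ T', pp p a)) with h5 | h5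
    · exact h5
    · exact absurd h5 (h4 q hq)
  have h1 := (Finset.card_le_card hsub).trans Finset.card_biUnion_le
  have h2 : (𝒮.card : ℝ) ≤ ∑ x ∈ (Finset.univ : Finset (ZMod 2)) ×ˢ S.powerset,
      ((𝒮' x).card : ℝ) := by exact_mod_cast h1
  refine h2.trans ?_
  have h3 : ∀ x ∈ (Finset.univ : Finset (ZMod 2)) ×ˢ S.powerset, ((𝒮' x).card : ℝ)
      ≤ (Nat.card k : ℝ) ^ n * (Real.sqrt J / Real.sqrt (Real.sqrt n)) := by
    rintro ⟨ε, T'⟩ hx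
    rw [Finset.mem_product, Finset.mem_powerset] at hx
    by_cases hor : ε ≠ 0 ∨ T'.Nonempty
    · apply card_h hm hν ha hJ hn hx.2 hor
      intro T hT
      rw [h𝒮', Finset.mem_filter] at hT
      exact ⟨(h𝒮 T hT.1).1, (h𝒮 T hT.1).2.1, hT.2.2⟩
    · have : 𝒮' (ε, T') = ∅ := by
        rw [h𝒮', Finset.filter_eq_empty_iff]
        rintro T _ ⟨h4, -⟩
        exact hor h4
      rw [this, Finset.card_empty, Nat.cast_zero]
      positivity
  refine (Finset.sum_le_sum h3).trans (le_of_eq ?_)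
  rw [Finset.sum_const, Finset.card_product, Finset.card_powerset, Finset.card_univ, ZMod.card,
    nsmul_eq_mul, pow_succ]
  push_cast
  ring

/-- the uniform bound -/
theorem card_badL' {S₀ U : Finset (HeightOneSpectrum k[X])} {ℓ m N : ℕ}
    {ν : HeightOneSpectrum k[X] → ℕ} (hm : Odd m) (hν : ∀ p, Odd (ν p))
    (hν1 : ∀ p, p ∉ S₀ → ν p = 1) (hN : 2 ≤ N) (hU : Disjoint S₀ U) (hUN : dg U ≤ N)
    [DecidableEq (HeightOneSpectrum k[X])] {a : RatFunc k} (ha : a ∈ TW (S₀ ∪ U) m ν)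
    (𝒮 : Finset (Finset (HeightOneSpectrum k[X])))
    (h𝒮 : ∀ T ∈ 𝒮, dg T = N - dg U ∧ Disjoint (S₀ ∪ U) T ∧ ¬ Ind' (S₀ ∪ U) T a) :
    (𝒮.card : ℝ) ≤ 2 ^ (S₀.card + U.card + 2) * (Nat.card k : ℝ) ^ (N - dg U)
      * (m + ∑ p ∈ S₀, (ν p + 1) * dp p + 2 : ℕ) * (dg U + 1) / Real.sqrt (Real.sqrt N) := by
  classical
  have hq := qpos (k := k)
  set C₁ := m + ∑ p ∈ S₀, (ν p + 1) * dp p with hC₁
  set D := dg U with hD
  have hN0 : (0 : ℝ) < N := by exact_mod_cast (by omega : 0 < N)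
  have hsN : 0 < Real.sqrt N := Real.sqrt_pos.mpr hN0
  have hssN : 0 < Real.sqrt (Real.sqrt N) := Real.sqrt_pos.mpr hsN
  have hsum : m + ∑ p ∈ S₀ ∪ U, (ν p + 1) * dp p = C₁ + 2 * D := by
    rw [Finset.sum_union hU, hC₁, hD, dg_eq, Finset.mul_sum]
    have : ∑ p ∈ U, (ν p + 1) * dp p = ∑ p ∈ U, 2 * dp p := by
      apply Finset.sum_congr rfl
      intro p hp
      rw [hν1 p (fun h => Finset.disjoint_left.mp hU h hp)]
    rw [this]; ring
  have hcardU : (S₀ ∪ U).card = S₀.card + U.card := Finset.card_union_of_disjoint hU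
  by_cases hDN : 2 * D ≤ N
  · have h1 := card_badL hm (fun p _ => hν p) ha hsum.le (n := N - D) (by omega) 𝒮 h𝒮
    refine h1.trans ?_
    rw [hcardU]
    have hn0 : (0 : ℝ) < (N - D : ℕ) := by exact_mod_cast (by omega : 0 < N - D)
    have h2 : Real.sqrt ((C₁ + 2 * D : ℕ) : ℝ) ≤ ((C₁ + 2 : ℕ) : ℝ) * (D + 1) := by
      have h3 : Real.sqrt ((C₁ + 2 * D : ℕ) : ℝ) ≤ ((C₁ + 2 * D + 1 : ℕ) : ℝ) := by
        apply Real.sqrt_le_iff.mpr
        refine ⟨by positivity, ?_⟩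
        push_cast
        have : (0 : ℝ) ≤ (C₁ : ℝ) + 2 * D := by positivity
        nlinarith
      refine h3.trans ?_
      have : C₁ + 2 * D + 1 ≤ (C₁ + 2) * (D + 1) := by nlinarith
      exact_mod_cast this
    have h4 : Real.sqrt (Real.sqrt N) / 2 ≤ Real.sqrt (Real.sqrt ((N - D : ℕ) : ℝ)) := by
      apply Real.le_sqrt_of_sq_le
      apply Real.le_sqrt_of_sq_le
      have h5 : ((Real.sqrt (Real.sqrt N) / 2) ^ 2) ^ 2 = N / 16 := by
        rw [div_pow, Real.sq_sqrt hsN.le, div_pow, Real.sq_sqrt hN0.le]; norm_num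
      rw [h5]
      have h6 : (N : ℝ) ≤ 2 * ((N - D : ℕ) : ℝ) := by exact_mod_cast (by omega : N ≤ 2 * (N - D))
      linarith
    have h5 : 0 < Real.sqrt (Real.sqrt ((N - D : ℕ) : ℝ)) :=
      Real.sqrt_pos.mpr (Real.sqrt_pos.mpr hn0)
    have h6 : Real.sqrt ((C₁ + 2 * D : ℕ) : ℝ) / Real.sqrt (Real.sqrt ((N - D : ℕ) : ℝ))
        ≤ 2 * (((C₁ + 2 : ℕ) : ℝ) * (D + 1)) / Real.sqrt (Real.sqrt N) := by
      rw [div_le_div_iff₀ h5 hssN]
      have h7 : (0 : ℝ) ≤ ((C₁ + 2 : ℕ) : ℝ) * (D + 1) := by positivity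
      calc Real.sqrt ((C₁ + 2 * D : ℕ) : ℝ) * Real.sqrt (Real.sqrt N)
          ≤ (((C₁ + 2 : ℕ) : ℝ) * (D + 1)) * (2 * Real.sqrt (Real.sqrt ((N - D : ℕ) : ℝ))) := by
            apply mul_le_mul h2 (by linarith) hssN.le h7
        _ = _ := by ring
    calc (2 : ℝ) ^ (S₀.card + U.card + 1) * ((Nat.card k : ℝ) ^ (N - D)
          * (Real.sqrt ((C₁ + 2 * D : ℕ) : ℝ) / Real.sqrt (Real.sqrt ((N - D : ℕ) : ℝ))))
        ≤ (2 : ℝ) ^ (S₀.card + U.card + 1) * ((Nat.card k : ℝ) ^ (N - D)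
          * (2 * (((C₁ + 2 : ℕ) : ℝ) * (D + 1)) / Real.sqrt (Real.sqrt N))) := by gcongr
      _ = _ := by rw [pow_succ 2 (S₀.card + U.card + 1)]; ring
  · have h1 : 𝒮.card ≤ Nat.card k ^ (N - D) := by
      refine le_trans (Finset.card_le_card ?_) (card_FF_le (PL k N) (N - D))
      intro T hT
      rw [mem_FF]
      refine ⟨fun p hp => ?_, (h𝒮 T hT).1⟩
      rw [mem_PL]
      have h2 := (h𝒮 T hT).1
      have h3 : dp p ≤ dg T := by
        rw [dg_eq]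
        exact Finset.single_le_sum (f := dp) (fun _ _ => Nat.zero_le _) hp
      omega
    have h2 : (𝒮.card : ℝ) ≤ (Nat.card k : ℝ) ^ (N - D) := by exact_mod_cast h1
    have h3 : Real.sqrt (Real.sqrt N) ≤ N := by
      have h4 : (1 : ℝ) ≤ N := by exact_mod_cast (by omega : 1 ≤ N)
      apply Real.sqrt_le_iff.mpr
      refine ⟨hN0.le, ?_⟩
      apply Real.sqrt_le_iff.mpr
      refine ⟨by positivity, ?_⟩
      have h5 : (1 : ℝ) ≤ (N : ℝ) ^ 3 := one_le_pow₀ h4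
      nlinarith
    have h4 : (N : ℝ) ≤ 4 * (((C₁ + 2 : ℕ) : ℝ) * (D + 1)) := by
      have : N ≤ 4 * ((C₁ + 2) * (D + 1)) := by nlinarith
      exact_mod_cast this
    rw [le_div_iff₀ hssN]
    have h5 : (4 : ℝ) ≤ 2 ^ (S₀.card + U.card + 2) := by
      calc (4 : ℝ) = 2 ^ 2 := by norm_num
        _ ≤ _ := pow_le_pow_right₀ (by norm_num) (by omega)
    have h6 : (0 : ℝ) ≤ ((C₁ + 2 : ℕ) : ℝ) * (D + 1) := by positivity
    calc (𝒮.card : ℝ) * Real.sqrt (Real.sqrt N)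
        ≤ (Nat.card k : ℝ) ^ (N - D) * (4 * (((C₁ + 2 : ℕ) : ℝ) * (D + 1))) := by
          apply mul_le_mul h2 (h3.trans h4) hssN.le (by positivity)
      _ ≤ (Nat.card k : ℝ) ^ (N - D)
          * (2 ^ (S₀.card + U.card + 2) * (((C₁ + 2 : ℕ) : ℝ) * (D + 1))) := by gcongr
      _ = _ := by ring

end Pool.Agent.H2
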