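import Pool.Agent.H2.VErr3

/-!
# The exceptional functions, III
-/

namespace Pool.Agent.H2

open Polynomial IsDedekindDomain

universe u

variable {k : Type u} [Field k] [Finite k] [CharP k 2]

theorem sml_union_lar [DecidableEq (HeightOneSpectrum k[X])] (ℓ : ℕ)
    (T : Finset (HeightOneSpectrum k[X])) : sml ℓ T ∪ lar ℓ T = T := by
  ext p
  rw [Finset.mem_union, mem_sml, mem_lar]
  constructor
  · rintro (h | h)
    · exact h.1
    · exact h.1
  · intro h
    by_cases hp : dp p ≤ ℓ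
    · exact Or.inl ⟨h, hp⟩
    · exact Or.inr ⟨h, not_le.mp hp⟩

open scoped Classical in
theorem err2 (S₀ : Finset (HeightOneSpectrum k[X])) {ℓ m N : ℕ} {ν : HeightOneSpectrum k[X] → ℕ}
    (hm : Odd m) (hν : ∀ p, Odd (ν p)) (hν1 : ∀ p, p ∉ S₀ → ν p = 1) (hN : 2 ≤ N) (hℓ : 1 ≤ ℓ) :
    ∑ T ∈ FT S₀ N, (((AA S₀ T ℓ m ν).filter (fun a => ¬ Ind (S₀ ∪ T) (lar ℓ T) a)).card : ℝ)
      ≤ (Nat.card k : ℝ) ^ (m + ∑ p ∈ S₀, ν p * dp p + 1) * 2 ^ (S₀.card + 2)
        * (m + ∑ p ∈ S₀, (ν p + 1) * dp p + 2 : ℕ) * (Real.exp 6 * (ℓ : ℝ) ^ 7)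
        * ((Nat.card k : ℝ) ^ N) ^ 2 / Real.sqrt (Real.sqrt N) := by
  classical
  have hq := qpos (k := k)
  set r := ∑ p ∈ S₀, ν p * dp p with hr
  set C₁ := m + ∑ p ∈ S₀, (ν p + 1) * dp p + 2 with hC₁
  set s := Real.sqrt (Real.sqrt (N : ℝ)) with hs
  have hs0 : 0 < s := by
    apply Real.sqrt_pos.mpr
    apply Real.sqrt_pos.mpr
    exact_mod_cast (by omega : 0 < N)
  have h1 : ∑ T ∈ FT S₀ N, (((AA S₀ T ℓ m ν).filter (fun a => ¬ Ind (S₀ ∪ T) (lar ℓ T) a)).card : ℝ)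
      ≤ ∑ T ∈ FT S₀ N, (Nat.card k : ℝ) ^ dg (lar ℓ T)
        * ((TW (S₀ ∪ sml ℓ T) m ν).filter
          (fun a => ¬ Ind' (S₀ ∪ sml ℓ T) (lar ℓ T) a)).card := by
    apply Finset.sum_le_sum
    intro T hT
    exact bad_T hm.pos (fun p => (hν p).pos) hν1 (mem_FT.mp hT).1
  refine h1.trans ?_
  have hmaps : ∀ T ∈ FT S₀ N, sml ℓ T ∈ (PL k ℓ).powerset := by
    intro T _
    rw [Finset.mem_powerset]
    intro p hp
    rw [mem_PL]
    exact (mem_sml.mp hp).2
  rw [← Finset.sum_fiberwise_of_maps_to hmaps]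
  -- the bound on each fibre
  have h2 : ∀ U ∈ (PL k ℓ).powerset,
      ∑ T ∈ (FT S₀ N).filter (fun T => sml ℓ T = U), (Nat.card k : ℝ) ^ dg (lar ℓ T)
        * ((TW (S₀ ∪ sml ℓ T) m ν).filter
          (fun a => ¬ Ind' (S₀ ∪ sml ℓ T) (lar ℓ T) a)).card
      ≤ ((Nat.card k : ℝ) ^ (m + r + 1) * 2 ^ (S₀.card + 2) * C₁ * ((Nat.card k : ℝ) ^ N) ^ 2 / s)
        * ((2 : ℝ) ^ U.card * ((dg U : ℝ) + 1) / (Nat.card k : ℝ) ^ dg U) := by
    intro U _
    by_cases hne : ((FT S₀ N).filter (fun T => sml ℓ T = U)).Nonempty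
    · obtain ⟨T₀, hT₀⟩ := hne
      rw [Finset.mem_filter, mem_FT] at hT₀
      obtain ⟨⟨hd₀, hN₀⟩, hU₀⟩ := hT₀
      have hUT : U ⊆ T₀ := by
        intro p hp
        rw [← hU₀] at hp
        exact (mem_sml.mp hp).1
      have hU : Disjoint S₀ U := Finset.disjoint_of_subset_right hUT hd₀
      have hUN : dg U ≤ N := by rw [← hN₀]; exact dg_mono hUT
      have h3 : ∀ T ∈ (FT S₀ N).filter (fun T => sml ℓ T = U),
          (Nat.card k : ℝ) ^ dg (lar ℓ T)
            * ((TW (S₀ ∪ sml ℓ T) m ν).filter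
              (fun a => ¬ Ind' (S₀ ∪ sml ℓ T) (lar ℓ T) a)).card
          = (Nat.card k : ℝ) ^ (N - dg U)
            * ∑ a ∈ TW (S₀ ∪ U) m ν, if ¬ Ind' (S₀ ∪ U) (lar ℓ T) a then (1 : ℝ) else 0 := by
        intro T hT
        rw [Finset.mem_filter, mem_FT] at hT
        have h4 := sml_lar ℓ T
        rw [hT.2, hT.1.2] at h4
        rw [hT.2, show dg (lar ℓ T) = N - dg U by omega, Finset.sum_boole]
      rw [Finset.sum_congr rfl h3, ← Finset.mul_sum, Finset.sum_comm]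
      have h5 : ∀ a ∈ TW (S₀ ∪ U) m ν,
          ∑ T ∈ (FT S₀ N).filter (fun T => sml ℓ T = U),
            (if ¬ Ind' (S₀ ∪ U) (lar ℓ T) a then (1 : ℝ) else 0)
          ≤ 2 ^ (S₀.card + U.card + 2) * (Nat.card k : ℝ) ^ (N - dg U)
            * C₁ * (dg U + 1) / s := by
        intro a ha
        rw [Finset.sum_boole]
        set F := ((FT S₀ N).filter (fun T => sml ℓ T = U)).filter
          (fun T => ¬ Ind' (S₀ ∪ U) (lar ℓ T) a) with hF
        have hinj : Set.InjOn (lar ℓ) (F : Set (Finset (HeightOneSpectrum k[X]))) := by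
          intro T hT T' hT' h
          rw [hF, Finset.mem_coe, Finset.mem_filter, Finset.mem_filter] at hT hT'
          rw [← sml_union_lar ℓ T, ← sml_union_lar ℓ T', hT.1.2, hT'.1.2, h]
        rw [← Finset.card_image_of_injOn hinj]
        apply card_badL' (ℓ := ℓ) hm hν hν1 hN hU hUN ha
        intro L hL
        rw [Finset.mem_image] at hL
        obtain ⟨T, hT, rfl⟩ := hL
        rw [hF, Finset.mem_filter, Finset.mem_filter, mem_FT] at hT
        have h4 := sml_lar ℓ T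
        rw [hT.1.2, hT.1.1.2] at h4
        refine ⟨by omega, ?_, hT.2⟩
        rw [Finset.disjoint_left]
        intro p hp hpl
        rw [mem_lar] at hpl
        rcases Finset.mem_union.mp hp with h | h
        · exact Finset.disjoint_left.mp hT.1.1.1 h hpl.1
        · rw [← hT.1.2] at h
          have := (mem_sml.mp h).2; omega
      have h6 := Finset.sum_le_sum h5
      rw [Finset.sum_const, nsmul_eq_mul] at h6
      have h7 : ((TW (S₀ ∪ U) m ν).card : ℝ) ≤ (Nat.card k : ℝ) ^ (m + r + dg U + 1) := by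
        have h8 : (TW (S₀ ∪ U) m ν).card ≤ (BF (S₀ ∪ U) m ν).card :=
          Finset.card_le_card (Finset.filter_subset _ _)
        have h9 := h8.trans (card_BF (S₀ ∪ U) m ν)
        rw [Finset.sum_union hU] at h9
        have h10 : ∑ q ∈ U, ν q * dp q = dg U := by
          rw [dg_eq]
          apply Finset.sum_congr rfl
          intro q hq
          rw [hν1 q (fun h => Finset.disjoint_left.mp hU h hq), one_mul]
        rw [h10, ← hr, show m + (r + dg U) + 1 = m + r + dg U + 1 by ring] at h9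
        exact_mod_cast h9
      have h8 : (0 : ℝ) ≤ 2 ^ (S₀.card + U.card + 2) * (Nat.card k : ℝ) ^ (N - dg U)
            * C₁ * (dg U + 1) / s := by positivity
      calc (Nat.card k : ℝ) ^ (N - dg U) * ∑ a ∈ TW (S₀ ∪ U) m ν,
            ∑ T ∈ (FT S₀ N).filter (fun T => sml ℓ T = U),
              (if ¬ Ind' (S₀ ∪ U) (lar ℓ T) a then (1 : ℝ) else 0)
          ≤ (Nat.card k : ℝ) ^ (N - dg U) * ((Nat.card k : ℝ) ^ (m + r + dg U + 1)
            * (2 ^ (S₀.card + U.card + 2) * (Nat.card k : ℝ) ^ (N - dg U)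
            * C₁ * (dg U + 1) / s)) := by
              apply mul_le_mul_of_nonneg_left _ (by positivity)
              exact h6.trans (mul_le_mul_of_nonneg_right h7 h8)
        _ = _ := by
          have e1 : (Nat.card k : ℝ) ^ N = (Nat.card k : ℝ) ^ (N - dg U) * (Nat.card k : ℝ) ^ dg U := by
            rw [← pow_add]; congr 1; omega
          have e2 : (Nat.card k : ℝ) ^ (m + r + dg U + 1)
              = (Nat.card k : ℝ) ^ (m + r + 1) * (Nat.card k : ℝ) ^ dg U := by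
            rw [← pow_add]; congr 1; omega
          have e3 : (2 : ℝ) ^ (S₀.card + U.card + 2) = 2 ^ (S₀.card + 2) * 2 ^ U.card := by
            rw [← pow_add]; congr 1; omega
          rw [e1, e2, e3]
          have hqD : (Nat.card k : ℝ) ^ dg U ≠ 0 := (pow_pos hq _).ne'
          field_simp
    · rw [Finset.not_nonempty_iff_eq_empty] at hne
      rw [hne, Finset.sum_empty]
      positivity
  refine (Finset.sum_le_sum h2).trans ?_
  rw [← Finset.mul_sum]
  have h3 := smooth_bound (k := k) hℓ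
  calc _ ≤ ((Nat.card k : ℝ) ^ (m + r + 1) * 2 ^ (S₀.card + 2) * C₁ * ((Nat.card k : ℝ) ^ N) ^ 2 / s)
        * (Real.exp 6 * (ℓ : ℝ) ^ 7) := mul_le_mul_of_nonneg_left h3 (by positivity)
    _ = _ := by ring

end Pool.Agent.H2
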