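import Pool.Agent.H2.VGenP
import Pool.Agent.H2.VDeep5

/-!
# The twists which are more ramified than the curve, over all extensions in a class
-/

set_option linter.unusedSectionVars false

namespace Pool.Agent.H2

open Polynomial IsDedekindDomain

universe u

variable {k : Type u} [Field k] [Finite k] [CharP k 2]

/-- The twists are good over `k'(X)`, for all the embeddings of `k(X)` in `k'(X)` of odd degree
such that there is only one place above each finite pole of `a`. -/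
def GoodOver (a b : RatFunc k) (M : ℕ) : Prop :=
  ∀ (k' : Type u) [Field k'] [Finite k'] [Algebra k k'] (Φ : RatFunc k →+* RatFunc k')
    (h : k'[X]) (T : Finset (HeightOneSpectrum k[X])), (∀ p, p ∈ T ↔ 1 < finAbv p a) →
    OddExt T Φ h → GoodCurve (Φ a) (Φ b) M

section Main

variable {S : Finset (HeightOneSpectrum k[X])} {a₀ : RatFunc k} {B : Finset (RatFunc k)}

theorem good_of_VT_ext (h0 : a₀ ∈ B) (hS : ∀ p, p ∉ S → finAbv p a₀ ≤ 1)
    {t : ℕ × (HeightOneSpectrum k[X] →₀ ℕ)} (ht : DeepT S B t) {N M : ℕ}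
    (hM : N + (t.1 + wt t.2) = M) {c : Set (RatFunc k)} (hc : c ∈ VT S t N) :
    (fun x => a₀ + x) '' c ∈ asClass '' {a : RatFunc k | ∃ m e, Reduced m e a ∧
      (m + 1) / 2 + wt e = M ∧ Deep S B a ∧
      ∀ b, (∀ c : k, b ≠ RatFunc.C c) → Adm (a₀ + a) b → GoodOver (a₀ + a) b M} := by
  classical
  obtain ⟨x, e, h1, h2, h3, h4, rfl⟩ := mem_VT hc
  have hadd : a₀ + (a₀ + x) = x := by
    rw [← add_assoc, CharTwo.add_self_eq_zero, zero_add]
  have h5 := ofType_shift' (ht.2.1 a₀ h0) (fun p hp => ht.2.2 p hp a₀ h0) hS h1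
  have h6 := reduced_of_type' ht.1.1 ht.1.2 h5
  have hodd := nf_odd ht.1.2
  refine ⟨a₀ + x, ⟨_, _, h6, ?_, deep_of_type ht h5, ?_⟩, (asClass_shift _ _).symm⟩
  · rw [wt_add]
    have := ht.1.1
    omega
  rw [hadd]
  rintro b hb ⟨hadm, hadm'⟩
  obtain ⟨β, r, hβ, hβ2⟩ := exists_root b hb
  have hβ0 : β ≠ 0 := by rintro rfl; exact hβ2 ⟨0, by simp⟩
  have hne : (2 ^ r : ℕ) ≠ 0 := by positivity
  have hpow : ∀ p : HeightOneSpectrum k[X], finAbv p b = finAbv p β ^ 2 ^ r := by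
    intro p; rw [hβ, map_pow]
  have hS' : ∀ p, p ∉ S ∪ e.support → finAbv p β = 1 := by
    intro p hp
    have h7 := (hadm' p).1 (h3.2.2 p hp)
    rw [hpow] at h7
    exact (pow_eq_one_iff_of_nonneg ((finAbv p).nonneg _) hne).mp h7
  have hbm : infAbv k β < 2 ^ (2 * t.1 - 1) :=
    root_lt (r := r) (by have := ht.1.1; omega) (by rw [← map_pow, ← hβ, ← h1.1]; exact hadm)
  have hbn : ∀ p ∈ S ∪ e.support, finAbv p β < 2 ^ nu S (nf t.2) e p := by
    intro p hp
    apply root_lt (r := r) (nu_odd hodd e p).pos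
    have h7 := h3.2.1 p hp
    rw [← hpow, ← h7]
    apply (hadm' p).2
    rw [h7]
    exact one_lt_pow₀ (by norm_num) (nu_odd hodd e p).pos.ne'
  have G : InvTwist (S ∪ e.support) ∅ β x :=
    invTwist_of_goodM hβ2 hS' (⟨t.1 - 1, by have := ht.1.1; omega⟩ : Odd (2 * t.1 - 1))
      (fun p _ => nu_odd hodd e p) hbm hbn h3 h4
  intro k' _ _ _ Φ h T hT H
  have hTS : T = S ∪ e.support := by
    ext p
    rw [hT]
    constructor
    · intro h7
      by_contra h8
      exact absurd (h3.2.2 p h8) (not_le.mpr h7)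
    · intro h7
      rw [h3.2.1 p h7]
      exact one_lt_pow₀ (by norm_num) (nu_odd hodd e p).pos.ne'
  rw [hTS] at H
  have hchar : CharP k' 2 := charP_of_injective_ringHom (algebraMap k k').injective 2
  have hfin : Module.Finite k k' := Module.Finite.of_finite
  obtain ⟨S', hS', G'⟩ := G.up H
  have h7 := G'.small
  rw [Finset.card_empty, Nat.add_zero, hS'] at h7
  refine ⟨?_, Φ β, r, by rw [hβ, map_pow], G'.nsq, ?_⟩
  · rw [hβ, map_pow]
    exact finite_frob_pow (by rw [Ne, map_eq_zero]; exact hβ0) h7.1 r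
  · apply h7.mono
    have h8 := Finset.card_union_le S e.support
    have h9 := card_le_wt e
    have h10 := card_le_wt t.2
    rw [ht.1.2] at h10
    omega

end Main

theorem more_prop_ext (a₀ : RatFunc k) (B : Finset (RatFunc k))
    (hB : ∀ b ∈ B, ∀ c : k, b ≠ RatFunc.C c) :
    ∃ C M₀ : ℕ, ∀ M, M₀ ≤ M →
      (asClass '' {a : RatFunc k | HalfCond a M}).Finite ∧
      (asClass '' {a : RatFunc k | HalfCond a M}).ncard ≤
        C * (asClass '' {a : RatFunc k | HalfCond a M ∧ MoreRamified a₀ B a}).ncard ∧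
      (asClass '' {a : RatFunc k | HalfCond a M ∧ MoreRamified a₀ B a}).Nonempty ∧
      288 * (asClass '' {a : RatFunc k | HalfCond a M ∧ MoreRamified a₀ B a}).ncard ≤
        1000 * (asClass '' {a : RatFunc k | HalfCond a M ∧ MoreRamified a₀ B a ∧
          ∀ b, (∀ c : k, b ≠ RatFunc.C c) → (b ∈ B ∨ Adm (a₀ + a) b) →
            GoodOver (a₀ + a) b M}).ncard := by
  classical
  have hpl : ∀ b : RatFunc k, ∃ S : Finset (HeightOneSpectrum k[X]), b ≠ 0 →
      ∀ p, p ∉ S → finAbv p b = 1 := by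
    intro b
    by_cases h0 : b = 0
    · exact ⟨∅, fun h => absurd h0 h⟩
    · obtain ⟨S, hS⟩ := exists_places b h0
      exact ⟨S, fun _ => hS⟩
  choose SS hSS using hpl
  set S := ((insert a₀ B).biUnion SS).filter
    (fun p => 1 < finAbv p a₀ ∨ ∃ b ∈ B, finAbv p b ≠ 1) with hSdef
  have hS : ∀ p, p ∈ S ↔ (1 < finAbv p a₀ ∨ ∃ b ∈ B, finAbv p b ≠ 1) := by
    intro p
    rw [hSdef, Finset.mem_filter]
    refine ⟨fun h => h.2, fun h => ⟨?_, h⟩⟩
    rw [Finset.mem_biUnion]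
    rcases h with h | ⟨b, hb, h⟩
    · refine ⟨a₀, Finset.mem_insert_self _ _, ?_⟩
      by_contra h1
      have h0 : a₀ ≠ 0 := by rintro rfl; rw [map_zero] at h; linarith
      have := hSS a₀ h0 p h1
      linarith
    · refine ⟨b, Finset.mem_insert_of_mem hb, ?_⟩
      by_contra h1
      have h0 : b ≠ 0 := by rintro rfl; exact hB 0 hb 0 (by rw [map_zero])
      exact h (hSS b h0 p h1)
  have hdeep : ∀ a, Deep S (insert a₀ B) a ↔ MoreRamified a₀ B a := by
    intro a
    unfold Deep MoreRamified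
    refine and_congr ?_ (forall_congr' fun p => ?_)
    · rw [Finset.forall_mem_insert]
    · rw [hS, Finset.forall_mem_insert]
  obtain ⟨C, M₀, h⟩ := deep_prop_gen a₀ (insert a₀ B) S
    (fun a M => ∀ b, (∀ c : k, b ≠ RatFunc.C c) → Adm (a₀ + a) b → GoodOver (a₀ + a) b M)
    (fun t ht N M hM c hc => good_of_VT_ext (Finset.mem_insert_self _ _) (fun p hp => by
      rw [hS, not_or, not_lt] at hp
      exact hp.1) ht hM hc)
  refine ⟨C, M₀, fun M hM => ?_⟩
  have e1 : {a : RatFunc k | HalfCond a M}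
      = {a : RatFunc k | ∃ m e, Reduced m e a ∧ (m + 1) / 2 + wt e = M} := rfl
  have e2 : {a : RatFunc k | HalfCond a M ∧ MoreRamified a₀ B a}
      = {a : RatFunc k | ∃ m e, Reduced m e a ∧ (m + 1) / 2 + wt e = M ∧
        Deep S (insert a₀ B) a} := by
    ext a
    constructor
    · rintro ⟨⟨m, e, h1, h2⟩, h3⟩
      exact ⟨m, e, h1, h2, (hdeep a).mpr h3⟩
    · rintro ⟨m, e, h1, h2, h3⟩
      exact ⟨⟨m, e, h1, h2⟩, (hdeep a).mp h3⟩
  have e3 : {a : RatFunc k | HalfCond a M ∧ MoreRamified a₀ B a ∧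
          ∀ b, (∀ c : k, b ≠ RatFunc.C c) → (b ∈ B ∨ Adm (a₀ + a) b) →
            GoodOver (a₀ + a) b M}
      = {a : RatFunc k | ∃ m e, Reduced m e a ∧ (m + 1) / 2 + wt e = M ∧
        Deep S (insert a₀ B) a ∧ ∀ b, (∀ c : k, b ≠ RatFunc.C c) → Adm (a₀ + a) b →
            GoodOver (a₀ + a) b M} := by
    ext a
    constructor
    · rintro ⟨⟨m, e, h1, h2⟩, h3, h4⟩
      exact ⟨m, e, h1, h2, (hdeep a).mpr h3, fun b hb h5 => h4 b hb (Or.inr h5)⟩
    · rintro ⟨m, e, h1, h2, h3, h4⟩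
      have h5 := (hdeep a).mp h3
      refine ⟨⟨m, e, h1, h2⟩, h5, fun b hb h6 => h4 b hb ?_⟩
      rcases h6 with h6 | h6
      · exact adm_of_more h5 h6
      · exact h6
  rw [e1, e2, e3]
  exact h M hM

end Pool.Agent.H2
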