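import Pool.Agent.H2.VErr1
import Pool.Agent.H2.VErr4

/-!
# The proportion of the good twists
-/

namespace Pool.Agent.H2

open Polynomial IsDedekindDomain

universe u

variable {k : Type u} [Field k] [Finite k] [CharP k 2]

section Fin

variable {S₀ T : Finset (HeightOneSpectrum k[X])} {ℓ m N : ℕ} {ν : HeightOneSpectrum k[X] → ℕ}

open scoped Classical in
theorem TW_sub_AA : TW (S₀ ∪ T) m ν ⊆ AA S₀ T ℓ m ν := by
  classical
  intro a ha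
  rw [mem_TW] at ha
  obtain ⟨h1, h2, h3⟩ := ha
  unfold AA
  rw [Finset.mem_filter, mem_BF]
  exact ⟨⟨h1.le, fun p hp => (h2 p hp).le, h3⟩, h1, fun p hp _ => h2 p hp⟩

open scoped Classical in
theorem card_TW_le (hν1 : ∀ p, p ∉ S₀ → ν p = 1) (hST : Disjoint S₀ T) (hN : dg T = N) :
    ((TW (S₀ ∪ T) m ν).card : ℝ)
      ≤ (Nat.card k : ℝ) ^ (m + ∑ p ∈ S₀, ν p * dp p + 1) * (Nat.card k : ℝ) ^ N := by
  classical
  have h8 : (TW (S₀ ∪ T) m ν).card ≤ (BF (S₀ ∪ T) m ν).card :=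
    Finset.card_le_card (Finset.filter_subset _ _)
  have h9 := h8.trans (card_BF (S₀ ∪ T) m ν)
  rw [Finset.sum_union hST] at h9
  have h10 : ∑ q ∈ T, ν q * dp q = N := by
    rw [← hN, dg_eq]
    apply Finset.sum_congr rfl
    intro q hq
    rw [hν1 q (fun h => Finset.disjoint_left.mp hST h hq), one_mul]
  rw [h10, show m + (∑ p ∈ S₀, ν p * dp p + N) + 1 = (m + ∑ p ∈ S₀, ν p * dp p + 1) + N by ring,
    pow_add] at h9
  exact_mod_cast h9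

open scoped Classical in
/-- the main inequality, for a given set of places -/
theorem good_T (hm : 0 < m) (hν : ∀ p, 0 < ν p) (hν1 : ∀ p, p ∉ S₀ → ν p = 1)
    (hST : Disjoint S₀ T) (hN : dg T = N) :
    2887 / 10000 * ((TW (S₀ ∪ T) m ν).card : ℝ)
      ≤ ((TW (S₀ ∪ T) m ν).filter (fun a => GoodM (S₀ ∪ T) a)).card
        + ((AA S₀ T ℓ m ν).filter (fun a => ¬ Ind (S₀ ∪ T) (lar ℓ T) a)).card
        + ((AA S₀ T ℓ m ν) \ (TW (S₀ ∪ T) m ν)).card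
        + (if ¬ ∀ p ∈ lar ℓ T, Gen p ((S₀ ∪ T).erase p) then
          (Nat.card k : ℝ) ^ (m + ∑ p ∈ S₀, ν p * dp p + 1) * (Nat.card k : ℝ) ^ N else 0) := by
  classical
  have h0 : ((TW (S₀ ∪ T) m ν).card : ℝ) ≤ (AA S₀ T ℓ m ν).card := by
    exact_mod_cast Finset.card_le_card TW_sub_AA
  by_cases hG : ∀ p ∈ lar ℓ T, Gen p ((S₀ ∪ T).erase p)
  · rw [if_neg (not_not.mpr hG), add_zero]
    have h1 := per_T hm hν hST hG
    have h2 : (((AA S₀ T ℓ m ν).filter (fun a => Ind (S₀ ∪ T) (lar ℓ T) a)).card : ℝ)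
        + ((AA S₀ T ℓ m ν).filter (fun a => ¬ Ind (S₀ ∪ T) (lar ℓ T) a)).card
        = (AA S₀ T ℓ m ν).card := by
      exact_mod_cast Finset.card_filter_add_card_filter_not (s := AA S₀ T ℓ m ν)
        (fun a => Ind (S₀ ∪ T) (lar ℓ T) a)
    have h3 : (((AA S₀ T ℓ m ν).filter (fun a => GoodM (S₀ ∪ T) a)).card : ℝ)
        ≤ ((TW (S₀ ∪ T) m ν).filter (fun a => GoodM (S₀ ∪ T) a)).card
          + ((AA S₀ T ℓ m ν) \ (TW (S₀ ∪ T) m ν)).card := by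
      have h4 : (AA S₀ T ℓ m ν).filter (fun a => GoodM (S₀ ∪ T) a)
          ⊆ (TW (S₀ ∪ T) m ν).filter (fun a => GoodM (S₀ ∪ T) a)
            ∪ ((AA S₀ T ℓ m ν) \ (TW (S₀ ∪ T) m ν)) := by
        intro a ha
        rw [Finset.mem_filter] at ha
        rw [Finset.mem_union, Finset.mem_filter, Finset.mem_sdiff]
        by_cases h : a ∈ TW (S₀ ∪ T) m ν
        · exact Or.inl ⟨h, ha.2⟩
        · exact Or.inr ⟨ha.1, h⟩
      exact_mod_cast (Finset.card_le_card h4).trans (Finset.card_union_le _ _)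
    have h5 : (0 : ℝ) ≤ ((AA S₀ T ℓ m ν).filter (fun a => ¬ Ind (S₀ ∪ T) (lar ℓ T) a)).card :=
      Nat.cast_nonneg _
    linarith
  · rw [if_pos hG]
    have h1 := card_TW_le (m := m) hν1 hST hN
    have h2 : (0 : ℝ) ≤ ((TW (S₀ ∪ T) m ν).card : ℝ) := Nat.cast_nonneg _
    have h3 : (0 : ℝ) ≤ ((TW (S₀ ∪ T) m ν).filter (fun a => GoodM (S₀ ∪ T) a)).card :=
      Nat.cast_nonneg _
    have h4 : (0 : ℝ) ≤ ((AA S₀ T ℓ m ν).filter (fun a => ¬ Ind (S₀ ∪ T) (lar ℓ T) a)).card :=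
      Nat.cast_nonneg _
    have h5 : (0 : ℝ) ≤ ((AA S₀ T ℓ m ν) \ (TW (S₀ ∪ T) m ν)).card := Nat.cast_nonneg _
    linarith

open scoped Classical in
/-- the main inequality -/
theorem good_all (hm : Odd m) (hν : ∀ p, Odd (ν p)) (hν1 : ∀ p, p ∉ S₀ → ν p = 1)
    (hN : 2 ≤ N) (hℓ : 1 ≤ ℓ) (hℓS : dg S₀ ≤ ℓ) :
    2887 / 10000 * ∑ T ∈ FT S₀ N, ((TW (S₀ ∪ T) m ν).card : ℝ)
      ≤ ∑ T ∈ FT S₀ N, (((TW (S₀ ∪ T) m ν).filter (fun a => GoodM (S₀ ∪ T) a)).card : ℝ)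
        + (Nat.card k : ℝ) ^ (m + ∑ p ∈ S₀, ν p * dp p + 1) * ((Nat.card k : ℝ) ^ N) ^ 2
          * (2 ^ (S₀.card + 2) * (m + ∑ p ∈ S₀, (ν p + 1) * dp p + 2 : ℕ)
              * (Real.exp 6 * (ℓ : ℝ) ^ 7) / Real.sqrt (Real.sqrt N)
            + ((Nat.card k : ℝ) ^ ℓ)⁻¹
            + 2 ^ S₀.card * (Nat.card k : ℝ) ^ dg S₀ * (N + 1) * ((Nat.card k : ℝ) ^ ℓ)⁻¹) := by
  classical
  have hq := qpos (k := k)
  have e1 := err1 S₀ (N := N) hℓS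
  have e2 := err2 S₀ (m := m) hm hν hν1 hN hℓ
  have e3 := err3 S₀ (ℓ := ℓ) (m := m) (N := N) hν1
  set Q := (Nat.card k : ℝ) ^ (m + ∑ p ∈ S₀, ν p * dp p + 1) with hQ
  have h1 : 2887 / 10000 * ∑ T ∈ FT S₀ N, ((TW (S₀ ∪ T) m ν).card : ℝ)
      ≤ ∑ T ∈ FT S₀ N, (((TW (S₀ ∪ T) m ν).filter (fun a => GoodM (S₀ ∪ T) a)).card : ℝ)
        + ∑ T ∈ FT S₀ N, (((AA S₀ T ℓ m ν).filter (fun a => ¬ Ind (S₀ ∪ T) (lar ℓ T) a)).card : ℝ)
        + ∑ T ∈ FT S₀ N, (((AA S₀ T ℓ m ν) \ (TW (S₀ ∪ T) m ν)).card : ℝ)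
        + Q * (Nat.card k : ℝ) ^ N
          * ((FT S₀ N).filter (fun T => ¬ ∀ p ∈ lar ℓ T, Gen p ((S₀ ∪ T).erase p))).card := by
    rw [Finset.mul_sum, ← Finset.sum_add_distrib, ← Finset.sum_add_distrib]
    have h2 : Q * (Nat.card k : ℝ) ^ N
          * ((FT S₀ N).filter (fun T => ¬ ∀ p ∈ lar ℓ T, Gen p ((S₀ ∪ T).erase p))).card
        = ∑ T ∈ FT S₀ N, (if ¬ ∀ p ∈ lar ℓ T, Gen p ((S₀ ∪ T).erase p) then
          Q * (Nat.card k : ℝ) ^ N else 0) := by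
      rw [← Finset.sum_filter, Finset.sum_const, nsmul_eq_mul, mul_comm]
    rw [h2, ← Finset.sum_add_distrib]
    apply Finset.sum_le_sum
    intro T hT
    rw [mem_FT] at hT
    exact good_T hm.pos (fun p => (hν p).pos) hν1 hT.1 hT.2
  refine h1.trans ?_
  have h3 : Q * (Nat.card k : ℝ) ^ N
          * ((FT S₀ N).filter (fun T => ¬ ∀ p ∈ lar ℓ T, Gen p ((S₀ ∪ T).erase p))).card
      ≤ Q * (Nat.card k : ℝ) ^ N * (2 ^ S₀.card * (Nat.card k : ℝ) ^ dg S₀ * (N + 1)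
        * (Nat.card k : ℝ) ^ N * ((Nat.card k : ℝ) ^ ℓ)⁻¹) :=
    mul_le_mul_of_nonneg_left e1 (by positivity)
  refine (add_le_add (add_le_add (add_le_add_right e2 _) e3) h3).trans (le_of_eq ?_)
  ring

end Fin

end Pool.Agent.H2
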