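import Pool.Agent.H2.VLow2
import Pool.Agent.H2.VFin

/-!
# The proportion of the good twists, II
-/

namespace Pool.Agent.H2

open Polynomial IsDedekindDomain

universe u

variable {k : Type u} [Field k] [Finite k] [CharP k 2]

theorem error_small (A B ε : ℝ) (hA : 0 ≤ A) (hB : 0 ≤ B) (hε : 0 < ε) (D : ℕ) :
    ∃ N₀ : ℕ, ∀ N, N₀ ≤ N → ∀ q : ℝ, 2 ≤ q → ∃ ℓ : ℕ, 1 ≤ ℓ ∧ D ≤ ℓ ∧ 2 ≤ N ∧
      A * (ℓ : ℝ) ^ 7 / Real.sqrt (Real.sqrt N) + (q ^ ℓ)⁻¹ + B * (N + 1) * (q ^ ℓ)⁻¹ ≤ ε := by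
  set y : ℝ := Real.sqrt (Real.sqrt 2) with hy
  have hy0 : 0 < y := Real.sqrt_pos.mpr (Real.sqrt_pos.mpr (by norm_num))
  have hy4 : y ^ 4 = 2 := by
    have h1 : y ^ 4 = (y ^ 2) ^ 2 := by ring
    rw [h1, hy, Real.sq_sqrt (Real.sqrt_nonneg _), Real.sq_sqrt (by norm_num)]
  have hy1 : 1 < y := by
    by_contra h
    rw [not_lt] at h
    have : y ^ 4 ≤ 1 := pow_le_one₀ hy0.le h
    linarith
  have hz1 : y⁻¹ < 1 := inv_lt_one_of_one_lt₀ hy1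
  have h1 := tendsto_pow_const_mul_const_pow_of_lt_one 7 (inv_nonneg.mpr hy0.le) hz1
  have h2 : Filter.Tendsto (fun n : ℕ => (1 / 2 : ℝ) ^ n) Filter.atTop (nhds 0) :=
    tendsto_pow_atTop_nhds_zero_of_lt_one (by norm_num) (by norm_num)
  have h3 := (h1.const_mul (A * 128 * y)).add (h2.const_mul (1 + B))
  rw [mul_zero, mul_zero, add_zero] at h3
  have h4 := h3.eventually (gt_mem_nhds hε)
  obtain ⟨L₀, hL₀⟩ := Filter.eventually_atTop.mp h4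
  refine ⟨2 ^ (L₀ + D + 1), fun N hN q hq => ?_⟩
  set L := Nat.log 2 N with hL
  have hN0 : N ≠ 0 := by
    have : 0 < 2 ^ (L₀ + D + 1) := by positivity
    omega
  have hLL : L₀ + D + 1 ≤ L := (Nat.le_log_iff_pow_le (by norm_num) hN0).mpr hN
  have h5 : 2 ^ L ≤ N := Nat.pow_log_le_self 2 hN0
  have h6 : N < 2 ^ (L + 1) := Nat.lt_pow_succ_log_self (by norm_num) N
  have hNR : (0 : ℝ) < N := by exact_mod_cast Nat.pos_of_ne_zero hN0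
  refine ⟨2 * L + 2, by omega, by omega, ?_, ?_⟩
  · calc 2 = 2 ^ 1 := rfl
      _ ≤ 2 ^ L := Nat.pow_le_pow_right (by norm_num) (by omega)
      _ ≤ N := h5
  have h7 := hL₀ (L + 1) (by omega)
  refine le_trans ?_ h7.le
  have h8 : y ^ L ≤ Real.sqrt (Real.sqrt N) := by
    apply Real.le_sqrt_of_sq_le
    apply Real.le_sqrt_of_sq_le
    have : ((y ^ L) ^ 2) ^ 2 = 2 ^ L := by
      rw [← hy4]; ring
    rw [this]
    exact_mod_cast h5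
  have h9 : A * ((2 * L + 2 : ℕ) : ℝ) ^ 7 / Real.sqrt (Real.sqrt N)
      ≤ A * 128 * y * (((L + 1 : ℕ) : ℝ) ^ 7 * y⁻¹ ^ (L + 1)) := by
    have h10 : ((2 * L + 2 : ℕ) : ℝ) ^ 7 = 128 * ((L + 1 : ℕ) : ℝ) ^ 7 := by push_cast; ring
    rw [h10]
    calc A * (128 * ((L + 1 : ℕ) : ℝ) ^ 7) / Real.sqrt (Real.sqrt N)
        ≤ A * (128 * ((L + 1 : ℕ) : ℝ) ^ 7) / y ^ L := by
          apply div_le_div_of_nonneg_left (by positivity) (by positivity) h8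
      _ = _ := by
        rw [inv_pow, pow_succ y]
        field_simp
  have hqL : (2 : ℝ) ^ (2 * L + 2) ≤ q ^ (2 * L + 2) := pow_le_pow_left₀ (by norm_num) hq _
  have h10 : (q ^ (2 * L + 2))⁻¹ ≤ ((2 : ℝ) ^ (2 * L + 2))⁻¹ := inv_anti₀ (by positivity) hqL
  have h11 : ((2 : ℝ) ^ (2 * L + 2))⁻¹ = (1 / 2) ^ (L + 1) * (1 / 2) ^ (L + 1) := by
    rw [one_div, inv_pow, ← mul_inv, ← pow_add]; congr 2; omega
  have h12 : (1 / 2 : ℝ) ^ (L + 1) ≤ 1 := pow_le_one₀ (by norm_num) (by norm_num)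
  have h13 : (0 : ℝ) < (1 / 2) ^ (L + 1) := by positivity
  have h14 : (q ^ (2 * L + 2))⁻¹ ≤ (1 / 2) ^ (L + 1) := by
    rw [h11] at h10
    nlinarith
  have h15 : (N + 1 : ℝ) * (q ^ (2 * L + 2))⁻¹ ≤ (1 / 2) ^ (L + 1) := by
    have h16 : (N + 1 : ℝ) ≤ 2 ^ (L + 1) := by exact_mod_cast h6
    calc (N + 1 : ℝ) * (q ^ (2 * L + 2))⁻¹
        ≤ 2 ^ (L + 1) * ((1 / 2) ^ (L + 1) * (1 / 2) ^ (L + 1)) := by
          rw [← h11]
          exact mul_le_mul h16 h10 (by positivity) (by positivity)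
      _ = (1 / 2) ^ (L + 1) := by
        rw [← mul_assoc, ← mul_pow]; norm_num
  have h16 : B * (N + 1) * (q ^ (2 * L + 2))⁻¹ ≤ B * (1 / 2) ^ (L + 1) := by
    rw [mul_assoc]
    exact mul_le_mul_of_nonneg_left h15 hB
  linarith

open scoped Classical in
/-- **The proportion of the twists with an invertible matrix.** -/
theorem good_prop (S₀ : Finset (HeightOneSpectrum k[X])) {m : ℕ}
    {ν : HeightOneSpectrum k[X] → ℕ} (hm : Odd m) (hν : ∀ p, Odd (ν p))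
    (hν1 : ∀ p, p ∉ S₀ → ν p = 1) :
    ∃ N₀ : ℕ, ∀ N, N₀ ≤ N →
      0 < ∑ T ∈ FT S₀ N, (TW (S₀ ∪ T) m ν).card ∧
      2885 * ∑ T ∈ FT S₀ N, (TW (S₀ ∪ T) m ν).card
        ≤ 10000 * ∑ T ∈ FT S₀ N, ((TW (S₀ ∪ T) m ν).filter (fun a => GoodM (S₀ ∪ T) a)).card := by
  classical
  have hq := qpos (k := k)
  obtain ⟨c, hc, N₁, hN₁⟩ := low_bound S₀ (m := m) (ν := ν) hm.pos (fun p => (hν p).pos) hν1
  set Q := (Nat.card k : ℝ) ^ (m + ∑ p ∈ S₀, ν p * dp p + 1) with hQ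
  have hQ0 : 0 < Q := by positivity
  obtain ⟨N₂, hN₂⟩ := error_small
    (2 ^ (S₀.card + 2) * (m + ∑ p ∈ S₀, (ν p + 1) * dp p + 2 : ℕ) * Real.exp 6)
    (2 ^ S₀.card * (Nat.card k : ℝ) ^ dg S₀) (2 / 10000 * c / Q) (by positivity) (by positivity)
    (by positivity) (dg S₀)
  refine ⟨N₁ + N₂, fun N hN => ?_⟩
  obtain ⟨ℓ, hℓ1, hℓS, hN2, hE⟩ := hN₂ N (by omega) (Nat.card k) (two_le_q (k := k))
  have h1 := hN₁ N (by omega)
  have h2 := good_all (S₀ := S₀) (ℓ := ℓ) (m := m) (N := N) (ν := ν) hm hν hν1 hN2 hℓ1 hℓS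
  have hqN : (0 : ℝ) < ((Nat.card k : ℝ) ^ N) ^ 2 := by positivity
  rw [← hQ] at h2
  have h3 : Q * ((Nat.card k : ℝ) ^ N) ^ 2
          * (2 ^ (S₀.card + 2) * (m + ∑ p ∈ S₀, (ν p + 1) * dp p + 2 : ℕ)
              * (Real.exp 6 * (ℓ : ℝ) ^ 7) / Real.sqrt (Real.sqrt N)
            + ((Nat.card k : ℝ) ^ ℓ)⁻¹
            + 2 ^ S₀.card * (Nat.card k : ℝ) ^ dg S₀ * (N + 1) * ((Nat.card k : ℝ) ^ ℓ)⁻¹)
      ≤ Q * ((Nat.card k : ℝ) ^ N) ^ 2 * (2 / 10000 * c / Q) := by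
    apply mul_le_mul_of_nonneg_left _ (by positivity)
    refine le_trans (le_of_eq ?_) hE
    ring
  have h4 : Q * ((Nat.card k : ℝ) ^ N) ^ 2 * (2 / 10000 * c / Q)
      = 2 / 10000 * (c * ((Nat.card k : ℝ) ^ N) ^ 2) := by field_simp
  set F := ∑ T ∈ FT S₀ N, ((TW (S₀ ∪ T) m ν).card : ℝ) with hF
  set G := ∑ T ∈ FT S₀ N, (((TW (S₀ ∪ T) m ν).filter (fun a => GoodM (S₀ ∪ T) a)).card : ℝ) with hG
  have hF0 : 0 < F := lt_of_lt_of_le (by positivity) h1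
  have h5 : 2885 * F ≤ 10000 * G := by
    have h6 : 2887 / 10000 * F ≤ G + 2 / 10000 * F := by
      refine h2.trans ?_
      have := h3.trans (le_of_eq h4)
      linarith
    linarith
  constructor
  · have : (0 : ℝ) < ((∑ T ∈ FT S₀ N, (TW (S₀ ∪ T) m ν).card : ℕ) : ℝ) := by
      push_cast; exact hF0
    exact_mod_cast this
  · have : ((2885 * ∑ T ∈ FT S₀ N, (TW (S₀ ∪ T) m ν).card : ℕ) : ℝ)
        ≤ ((10000 * ∑ T ∈ FT S₀ N, ((TW (S₀ ∪ T) m ν).filter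
          (fun a => GoodM (S₀ ∪ T) a)).card : ℕ) : ℝ) := by
      push_cast; exact h5
    exact_mod_cast this

end Pool.Agent.H2
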