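import Pool.Agent.H2.VTyp
import Pool.Agent.H2.VCls

/-!
# The twists with a large nonsimple part
-/

set_option linter.unusedSectionVars false

namespace Pool.Agent.H2

open Polynomial IsDedekindDomain

universe u

variable {k : Type u} [Field k] [Finite k] [CharP k 2]

section One

variable {S : Finset (HeightOneSpectrum k[X])} {m : ℕ} {ν : HeightOneSpectrum k[X] → ℕ}

theorem card_BF_ge (S : Finset (HeightOneSpectrum k[X])) (m : ℕ)
    (ν : HeightOneSpectrum k[X] → ℕ) :
    Nat.card k ^ (m + ∑ p ∈ S, ν p * dp p + 1) ≤ (BF S m ν).card := by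
  classical
  set G := ∏ q ∈ S, gQ q ^ ν q with hG
  have hGm : G.Monic := monic_prod_of_monic _ _ fun p _ => (gQ_monic p).pow _
  have hGd : G.natDegree = ∑ p ∈ S, ν p * dp p := by
    rw [hG, natDegree_prod_of_monic _ _ fun p _ => (gQ_monic p).pow _]
    apply Finset.sum_congr rfl
    intro p _
    rw [natDegree_pow]; rfl
  have hG0 : algebraMap k[X] (RatFunc k) G ≠ 0 := vmap_ne hGm.ne_zero
  rw [← card_degreeLT, ← Nat.card_eq_finsetCard]
  apply Nat.card_le_card_of_injective
    (fun h : degreeLT k (m + ∑ p ∈ S, ν p * dp p + 1) =>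
      (⟨algebraMap k[X] (RatFunc k) h.1 / algebraMap k[X] (RatFunc k) G, by
        rw [mem_BF]
        refine ⟨?_, fun p hp => ?_, fun p hp => ?_⟩
        · by_cases h0 : h.1 = 0
          · rw [h0, map_zero, zero_div, map_zero]; positivity
          · have h1 : h.1.natDegree < m + ∑ p ∈ S, ν p * dp p + 1 :=
              (natDegree_lt_iff_degree_lt h0).mpr (mem_degreeLT.mp h.2)
            rw [map_div₀, infAbv_poly h0, infAbv_poly hGm.ne_zero, hGd, zpow_natCast, zpow_natCast,
              div_le_iff₀ (by positivity), ← pow_add]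
            exact pow_le_pow_right₀ (by norm_num) (by omega)
        · rw [map_div₀, finAbv_prod S ν hp, div_inv_eq_mul]
          have := finAbv_poly p h.1
          nlinarith [pow_pos (by norm_num : (0 : ℝ) < 2) (ν p)]
        · rw [map_div₀, finAbv_prod' S ν hp, div_one]
          exact finAbv_poly p h.1⟩ : BF S m ν))
  intro h h' heq
  have h1 := congrArg Subtype.val heq
  simp only at h1
  rw [div_left_inj' hG0] at h1
  exact Subtype.ext (IsFractionRing.injective k[X] (RatFunc k) h1)

theorem WW_ge : (BF S (m / 2) (fun p => ν p / 2)).card ≤ 2 * (WW S m ν).card := by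
  classical
  unfold WW
  apply Finset.card_le_mul_card_image
  intro w hw
  rw [Finset.mem_image] at hw
  obtain ⟨z, hz, rfl⟩ := hw
  have h1 : (BF S (m / 2) (fun p => ν p / 2)).filter (fun x => x ^ 2 + x = z ^ 2 + z)
      ⊆ {z, z + 1} := by
    intro x hx
    rw [Finset.mem_filter] at hx
    rw [Finset.mem_insert, Finset.mem_singleton]
    have h2 : (x - z) * (x - (z + 1)) = 0 := by
      have h3 : (2 : RatFunc k) = 0 := CharTwo.two_eq_zero
      linear_combination hx.2 + (z ^ 2 + z - x * z - x) * h3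
    rcases mul_eq_zero.mp h2 with h3 | h3
    · exact Or.inl (sub_eq_zero.mp h3)
    · exact Or.inr (sub_eq_zero.mp h3)
  exact (Finset.card_le_card h1).trans Finset.card_le_two

open scoped Classical in
/-- the number of the classes of a given type -/
theorem cls_le (hm : Odd m) (hν : ∀ p ∈ S, Odd (ν p)) :
    ((TW S m ν).image asClass).card
      ≤ 2 * Nat.card k ^ (m / 2 + 1 + ∑ p ∈ S, (ν p / 2 + 1) * dp p) := by
  classical
  have h1 := card_cls hm hν
  have h2 : (TW S m ν).card ≤ Nat.card k ^ (m + ∑ p ∈ S, ν p * dp p + 1) :=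
    (Finset.card_le_card (Finset.filter_subset _ _)).trans (card_BF S m ν)
  have h3 : Nat.card k ^ (m / 2 + ∑ p ∈ S, (ν p / 2) * dp p + 1) ≤ 2 * (WW S m ν).card :=
    (card_BF_ge S (m / 2) (fun p => ν p / 2)).trans (WW_ge (S := S) (m := m) (ν := ν))
  set c := ((TW S m ν).image asClass).card
  set W := (WW S m ν).card
  have hqpos : 0 < Nat.card k ^ (m / 2 + ∑ p ∈ S, (ν p / 2) * dp p + 1) :=
    pow_pos Nat.card_pos _
  apply Nat.le_of_mul_le_mul_left _ hqpos
  calc Nat.card k ^ (m / 2 + ∑ p ∈ S, (ν p / 2) * dp p + 1) * c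
      ≤ 2 * W * c := Nat.mul_le_mul_right _ h3
    _ = 2 * (TW S m ν).card := by rw [h1]; ring
    _ ≤ 2 * Nat.card k ^ (m + ∑ p ∈ S, ν p * dp p + 1) := Nat.mul_le_mul_left _ h2
    _ = Nat.card k ^ (m / 2 + ∑ p ∈ S, (ν p / 2) * dp p + 1)
        * (2 * Nat.card k ^ (m / 2 + 1 + ∑ p ∈ S, (ν p / 2 + 1) * dp p)) := by
      have h4 : ∑ p ∈ S, ν p * dp p
          = ∑ p ∈ S, (ν p / 2) * dp p + ∑ p ∈ S, (ν p / 2 + 1) * dp p := by
        rw [← Finset.sum_add_distrib]
        apply Finset.sum_congr rfl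
        intro p hp
        rw [← add_mul]
        congr 1
        obtain ⟨j, hj⟩ := hν p hp
        omega
      obtain ⟨j, hj⟩ := hm
      have h5 : m + ∑ p ∈ S, ν p * dp p + 1 = (m / 2 + ∑ p ∈ S, (ν p / 2) * dp p + 1)
          + (m / 2 + 1 + ∑ p ∈ S, (ν p / 2 + 1) * dp p) := by omega
      rw [h5, pow_add]; ring

end One

/-- the types with a large nonsimple part -/
theorem card_tail (S₀ : Finset (HeightOneSpectrum k[X])) (N J : ℕ)
    [DecidablePred fun e : HeightOneSpectrum k[X] →₀ ℕ => 3 * J < wt (pw e)] :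
    (((EN S₀ N).filter (fun e => 3 * J < wt (pw e))).card : ℝ)
      ≤ (Nat.card k : ℝ) ^ N * ((Nat.card k : ℝ) ^ J)⁻¹ := by
  classical
  have hq := qpos (k := k)
  set hf : (HeightOneSpectrum k[X] →₀ ℕ) → (HeightOneSpectrum k[X] →₀ ℕ) := fun e =>
    e.mapRange (fun i => i / 2) (by norm_num) with hhf
  have hfa : ∀ e p, hf e p = e p / 2 := fun e p => Finsupp.mapRange_apply
  have hdeg : ∀ e, wt (pw e) ≤ 3 * wt (hf e) := by
    intro e
    unfold wt
    rw [Finset.mul_sum]
    have h1 : (pw e).support = (hf e).support := by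
      ext p
      rw [mem_pw_support, Finsupp.mem_support_iff, hfa]
      omega
    rw [h1]
    apply Finset.sum_le_sum
    intro p hp
    rw [← mul_assoc]
    apply Nat.mul_le_mul_right
    rw [← h1, mem_pw_support] at hp
    rw [pw_apply, if_neg (by omega), hfa]
    omega
  have hdvd : ∀ e, Pol (hf e) ^ 2 ∣ Pol e := by
    intro e
    unfold Pol
    rw [← Finset.prod_pow]
    have h1 : (hf e).support ⊆ e.support := by
      intro p hp
      rw [Finsupp.mem_support_iff, hfa] at hp
      rw [Finsupp.mem_support_iff]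
      intro h; rw [h] at hp; exact hp rfl
    refine dvd_trans ?_ (Finset.prod_dvd_prod_of_subset _ _ _ h1)
    apply Finset.prod_dvd_prod_of_dvd
    intro p _
    rw [← pow_mul, hfa]
    exact pow_dvd_pow _ (by omega)
  have h1 : ((EN S₀ N).filter (fun e => 3 * J < wt (pw e))).card
      ≤ (((Finset.Icc 1 N).filter (fun j => J < j)).biUnion fun j => (MM k j).biUnion fun D =>
        (MM k N).filter (fun G => D ^ 2 ∣ G)).card := by
    apply Finset.card_le_card_of_injOn Pol _ Pol_inj.injOn
    intro e he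
    rw [Finset.mem_coe, Finset.mem_filter, mem_EN] at he
    obtain ⟨⟨-, h2⟩, h3⟩ := he
    have h4 := hdeg e
    have h5 : wt (hf e) ≤ N := by
      have h6 := natDegree_le_of_dvd (hdvd e) (Pol_monic e).ne_zero
      rw [natDegree_pow, Pol_deg, Pol_deg, h2] at h6
      omega
    rw [Finset.mem_coe, Finset.mem_biUnion]
    refine ⟨wt (hf e), ?_, ?_⟩
    · rw [Finset.mem_filter, Finset.mem_Icc]; omega
    · rw [Finset.mem_biUnion]
      refine ⟨Pol (hf e), mem_MM.mpr ⟨Pol_monic _, Pol_deg _⟩, ?_⟩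
      rw [Finset.mem_filter]
      exact ⟨mem_MM.mpr ⟨Pol_monic _, by rw [Pol_deg, h2]⟩, hdvd e⟩
  have h2 : (((EN S₀ N).filter (fun e => 3 * J < wt (pw e))).card : ℝ)
      ≤ ∑ j ∈ (Finset.Icc 1 N).filter (fun j => J < j), ∑ D ∈ MM k j,
        (((MM k N).filter (fun G => D ^ 2 ∣ G)).card : ℝ) := by
    have h3 := h1.trans (Finset.card_biUnion_le.trans
      (Finset.sum_le_sum fun j _ => Finset.card_biUnion_le))
    exact_mod_cast h3
  refine h2.trans ?_
  have h3 : ∀ j ∈ (Finset.Icc 1 N).filter (fun j => J < j), ∑ D ∈ MM k j,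
      (((MM k N).filter (fun G => D ^ 2 ∣ G)).card : ℝ)
      ≤ (Nat.card k : ℝ) ^ N * ((Nat.card k : ℝ) ^ j)⁻¹ := by
    intro j _
    have h4 : ∀ D ∈ MM k j, (((MM k N).filter (fun G => D ^ 2 ∣ G)).card : ℝ)
        ≤ (Nat.card k : ℝ) ^ N * (((Nat.card k : ℝ) ^ j)⁻¹ * ((Nat.card k : ℝ) ^ j)⁻¹) := by
      intro D hD
      rw [mem_MM] at hD
      have hdeg2 : (D ^ 2).natDegree = 2 * j := by rw [natDegree_pow, hD.2]
      by_cases hle : 2 * j ≤ N
      · rw [card_mult (hD.1.pow 2) (by rw [hdeg2]; exact hle), card_MM, hdeg2]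
        push_cast
        rw [← mul_inv, ← pow_add, ← div_eq_mul_inv, le_div_iff₀ (by positivity), ← pow_add]
        apply le_of_eq; congr 1; omega
      · have : (MM k N).filter (fun G => D ^ 2 ∣ G) = ∅ := by
          rw [Finset.filter_eq_empty_iff]
          intro G hG h5
          rw [mem_MM] at hG
          have h6 := natDegree_le_of_dvd h5 hG.1.ne_zero
          rw [hdeg2, hG.2] at h6
          exact hle h6
        rw [this, Finset.card_empty, Nat.cast_zero]
        positivity
    refine (Finset.sum_le_sum h4).trans (le_of_eq ?_)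
    rw [Finset.sum_const, card_MM, nsmul_eq_mul]
    push_cast
    field_simp
  refine (Finset.sum_le_sum h3).trans ?_
  rw [← Finset.mul_sum]
  exact mul_le_mul_of_nonneg_left (geo_tail (two_le_q (k := k)) J N) (by positivity)

end Pool.Agent.H2
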