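import Pool.Agent.H2.VSq
import Pool.Agent.H2.VTail

/-!
# The proportion of the good twists among all the twists
-/

set_option linter.unusedSectionVars false

namespace Pool.Agent.H2

open Polynomial IsDedekindDomain

universe u

variable {k : Type u} [Field k] [Finite k] [CharP k 2]

theorem pw_pw (e : HeightOneSpectrum k[X] →₀ ℕ) : pw (pw e) = pw e := by
  ext p
  rw [pw_apply, pw_apply]
  split_ifs <;> omega

theorem nu_odd {S₀ : Finset (HeightOneSpectrum k[X])} {n : HeightOneSpectrum k[X] → ℕ}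
    (hn : ∀ p ∈ S₀, Odd (n p)) (e : HeightOneSpectrum k[X] →₀ ℕ) (p : HeightOneSpectrum k[X]) :
    Odd (nu S₀ n e p) := by
  unfold nu
  split_ifs with h
  · exact hn p h
  · rcases Nat.eq_zero_or_pos (e p) with h0 | h0
    · rw [h0]; exact odd_one
    · rw [max_eq_right (by omega)]
      exact ⟨e p - 1, by omega⟩

section Gen

variable {S₀ : Finset (HeightOneSpectrum k[X])} {m : ℕ} {n : HeightOneSpectrum k[X] → ℕ}

open scoped Classical in
/-- the number of the classes of type `e` -/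
noncomputable def cls (S₀ : Finset (HeightOneSpectrum k[X])) (m : ℕ)
    (n : HeightOneSpectrum k[X] → ℕ) (e : HeightOneSpectrum k[X] →₀ ℕ) : ℕ :=
  ((TW (S₀ ∪ e.support) m (nu S₀ n e)).image asClass).card

open scoped Classical in
/-- the number of the good classes of type `e` -/
noncomputable def gcls (β : RatFunc k) (S₀ : Finset (HeightOneSpectrum k[X])) (m : ℕ)
    (n : HeightOneSpectrum k[X] → ℕ) (e : HeightOneSpectrum k[X] →₀ ℕ) : ℕ :=
  ((GdT β (S₀ ∪ e.support) m (nu S₀ n e)).image asClass).card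

theorem cls_bound (hm : Odd m) (hn : ∀ p ∈ S₀, Odd (n p)) {N : ℕ}
    {e : HeightOneSpectrum k[X] →₀ ℕ} (he : e ∈ EN S₀ N) :
    cls S₀ m n e ≤ 2 * Nat.card k ^ (m / 2 + 1 + ∑ p ∈ S₀, (n p / 2 + 1) * dp p) * Nat.card k ^ N := by
  classical
  rw [mem_EN] at he
  have hdisj : Disjoint S₀ e.support := by
    rw [Finset.disjoint_left]
    intro p hp h
    exact (Finsupp.mem_support_iff.mp h) (he.1 p hp)
  have h1 := cls_le (S := S₀ ∪ e.support) (m := m) (ν := nu S₀ n e) hm (fun p _ => nu_odd hn e p)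
  rw [Finset.sum_union hdisj] at h1
  have h2 : ∑ p ∈ S₀, (nu S₀ n e p / 2 + 1) * dp p = ∑ p ∈ S₀, (n p / 2 + 1) * dp p := by
    apply Finset.sum_congr rfl
    intro p hp
    unfold nu
    rw [if_pos hp]
  have h3 : ∑ p ∈ e.support, (nu S₀ n e p / 2 + 1) * dp p = N := by
    rw [← he.2]
    unfold wt
    apply Finset.sum_congr rfl
    intro p hp
    have hpS : p ∉ S₀ := fun h => Finset.disjoint_left.mp hdisj h hp
    have hp0 := Finsupp.mem_support_iff.mp hp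
    unfold nu
    rw [if_neg hpS, max_eq_right (by omega)]
    congr 1
    omega
  rw [h2, h3] at h1
  unfold cls
  refine h1.trans (le_of_eq ?_)
  rw [← add_assoc, pow_add]; ring

theorem nu_out (e : HeightOneSpectrum k[X] →₀ ℕ) {p : HeightOneSpectrum k[X]} (hp : p ∉ S₀)
    (he : p ∉ e.support) : nu S₀ n e p = 1 := by
  unfold nu
  rw [if_neg hp, Finsupp.notMem_support_iff.mp he]
  rfl

open scoped Classical in
theorem fiber_prop {β : RatFunc k} (hβ : ¬ IsSquare β)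
    (hS : ∀ p, p ∉ S₀ → finAbv p β = 1) (hm : Odd m)
    (hn : ∀ p ∈ S₀, Odd (n p)) (hbm : infAbv k β < 2 ^ m)
    (hbn : ∀ p ∈ S₀, finAbv p β < 2 ^ n p) {e₁ : HeightOneSpectrum k[X] →₀ ℕ} (h1 : pw e₁ = e₁)
    (h0 : ∀ p ∈ S₀, e₁ p = 0) :
    ∃ N₀ : ℕ, ∀ N, N₀ ≤ N →
      2885 * ∑ e ∈ (EN S₀ N).filter (fun e => pw e = e₁), cls S₀ m n e
        ≤ 10000 * ∑ e ∈ (EN S₀ N).filter (fun e => pw e = e₁), gcls β S₀ m n e := by
  classical
  obtain ⟨N₀, hN₀⟩ := cls_prop (m := m) (ν := nu S₀ n e₁) hβ (S₀ ∪ e₁.support)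
    (fun p hp => hS p fun h => hp (Finset.mem_union_left _ h)) hm (nu_odd hn e₁)
    (fun p hp => by
      rw [Finset.mem_union, not_or] at hp
      exact nu_out e₁ hp.1 hp.2) hbm
    (fun p hp => by
      by_cases hpS : p ∈ S₀
      · unfold nu; rw [if_pos hpS]; exact hbn p hpS
      · rw [hS p hpS]
        exact one_lt_pow₀ (by norm_num) (nu_odd hn e₁ p).pos.ne')
  refine ⟨N₀ + wt e₁, fun N hN => ?_⟩
  have h2 := (hN₀ (N - wt e₁) (by omega)).2
  have h3 := sum_fiber S₀ h1 h0 (by omega : wt e₁ ≤ N)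
    (fun S => ((TW S m (nu S₀ n e₁)).image asClass).card)
  have h4 := sum_fiber S₀ h1 h0 (by omega : wt e₁ ≤ N)
    (fun S => ((GdT β S m (nu S₀ n e₁)).image asClass).card)
  have h5 : ∑ e ∈ (EN S₀ N).filter (fun e => pw e = e₁), cls S₀ m n e
      = ∑ e ∈ (EN S₀ N).filter (fun e => pw e = e₁),
        ((TW (S₀ ∪ e.support) m (nu S₀ n e₁)).image asClass).card := by
    apply Finset.sum_congr rfl
    intro e he
    rw [Finset.mem_filter] at he
    unfold cls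
    rw [← nu_pw S₀ n e, he.2]
  have h6 : ∑ e ∈ (EN S₀ N).filter (fun e => pw e = e₁), gcls β S₀ m n e
      = ∑ e ∈ (EN S₀ N).filter (fun e => pw e = e₁),
        ((GdT β (S₀ ∪ e.support) m (nu S₀ n e₁)).image asClass).card := by
    apply Finset.sum_congr rfl
    intro e he
    rw [Finset.mem_filter] at he
    unfold gcls
    rw [← nu_pw S₀ n e, he.2]
  rw [h5, h6, h3, h4]
  exact h2

open scoped Classical in
/-- a lower bound for the number of all the classes -/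
theorem low_cls (S₀ : Finset (HeightOneSpectrum k[X])) (hm : Odd m)
    (hn : ∀ p ∈ S₀, Odd (n p)) : ∃ c : ℝ, 0 < c ∧ ∃ N₀ : ℕ, ∀ N, N₀ ≤ N →
      c * ((Nat.card k : ℝ) ^ N) ^ 2 ≤ ((∑ e ∈ EN S₀ N, cls S₀ m n e : ℕ) : ℝ) := by
  classical
  set ν := nu S₀ n 0 with hν
  have hν1 : ∀ p, p ∉ S₀ → ν p = 1 := fun p hp =>
    nu_out 0 hp (by rw [Finsupp.support_zero]; exact Finset.notMem_empty p)
  obtain ⟨c, hc, N₀, h1⟩ := low_bound S₀ (m := m) (ν := ν) hm.pos (fun p => (nu_odd hn 0 p).pos) hν1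
  have hW : (0 : ℝ) < (WW S₀ m ν).card := by exact_mod_cast WW_pos
  refine ⟨c / (WW S₀ m ν).card, by positivity, N₀, fun N hN => ?_⟩
  have h2 := h1 N hN
  have hpw0 : pw (0 : HeightOneSpectrum k[X] →₀ ℕ) = 0 := by
    ext p
    rw [pw_apply, Finsupp.zero_apply]; rfl
  have hwt0 : wt (0 : HeightOneSpectrum k[X] →₀ ℕ) = 0 := by
    unfold wt; rw [Finsupp.support_zero, Finset.sum_empty]
  have h3 := sum_fiber S₀ hpw0 (fun p _ => by rw [Finsupp.zero_apply]) (by omega : wt 0 ≤ N)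
    (fun S => ((TW S m ν).image asClass).card)
  rw [hwt0, Nat.sub_zero, Finsupp.support_zero, Finset.union_empty] at h3
  have h4 : ∑ T ∈ FT S₀ N, ((TW (S₀ ∪ T) m ν).card : ℝ)
      = (WW S₀ m ν).card * ((∑ T ∈ FT S₀ N, ((TW (S₀ ∪ T) m ν).image asClass).card : ℕ) : ℝ) := by
    push_cast
    rw [Finset.mul_sum]
    apply Finset.sum_congr rfl
    intro T _
    rw [card_cls hm (fun p _ => nu_odd hn 0 p), WW_union hν1]
    push_cast; ring
  have h5 : (∑ T ∈ FT S₀ N, ((TW (S₀ ∪ T) m ν).image asClass).card)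
      ≤ ∑ e ∈ EN S₀ N, cls S₀ m n e := by
    rw [← h3]
    have h6 : ∑ e ∈ (EN S₀ N).filter (fun e => pw e = 0),
        ((TW (S₀ ∪ e.support) m ν).image asClass).card
        = ∑ e ∈ (EN S₀ N).filter (fun e => pw e = 0), cls S₀ m n e := by
      apply Finset.sum_congr rfl
      intro e he
      rw [Finset.mem_filter] at he
      unfold cls
      rw [← nu_pw S₀ n e, he.2]
    rw [h6]
    exact Finset.sum_le_sum_of_subset (Finset.filter_subset _ _)
  have h6 : ((∑ T ∈ FT S₀ N, ((TW (S₀ ∪ T) m ν).image asClass).card : ℕ) : ℝ)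
      ≤ ((∑ e ∈ EN S₀ N, cls S₀ m n e : ℕ) : ℝ) := by exact_mod_cast h5
  rw [div_mul_eq_mul_div, div_le_iff₀ hW]
  refine h2.trans ?_
  rw [h4, mul_comm]
  exact mul_le_mul_of_nonneg_right h6 hW.le

/-- **The proportion of the good classes.** -/
theorem gen_prop {β : RatFunc k} (hβ : ¬ IsSquare β)
    (hS : ∀ p, p ∉ S₀ → finAbv p β = 1) (hm : Odd m)
    (hn : ∀ p ∈ S₀, Odd (n p)) (hbm : infAbv k β < 2 ^ m)
    (hbn : ∀ p ∈ S₀, finAbv p β < 2 ^ n p) :
    ∃ N₀ : ℕ, ∀ N, N₀ ≤ N →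
      0 < ∑ e ∈ EN S₀ N, cls S₀ m n e ∧
      288 * ∑ e ∈ EN S₀ N, cls S₀ m n e ≤ 1000 * ∑ e ∈ EN S₀ N, gcls β S₀ m n e := by
  classical
  have hq := qpos (k := k)
  have hq2 := two_le_q (k := k)
  obtain ⟨c, hc, N₁, hlow⟩ := low_cls (m := m) (n := n) S₀ hm hn
  set C := 2 * (Nat.card k : ℝ) ^ (m / 2 + 1 + ∑ p ∈ S₀, (n p / 2 + 1) * dp p) with hC
  have hC0 : 0 < C := by positivity
  obtain ⟨J, hJ⟩ := exists_pow_lt_of_lt_one (show (0 : ℝ) < 5 * c / (2885 * C) by positivity)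
    (by norm_num : (1 / 2 : ℝ) < 1)
  have hJ' : ((Nat.card k : ℝ) ^ J)⁻¹ ≤ 5 * c / (2885 * C) := by
    refine le_trans ?_ hJ.le
    rw [one_div, inv_pow]
    exact inv_anti₀ (by positivity) (pow_le_pow_left₀ (by norm_num) hq2 J)
  set PM := (wt_finite (k := k) (3 * J)).toFinset.filter
    (fun e => pw e = e ∧ ∀ p ∈ S₀, e p = 0) with hPM
  have hch : ∀ e₁ : HeightOneSpectrum k[X] →₀ ℕ, ∃ N₀ : ℕ, (pw e₁ = e₁ ∧ ∀ p ∈ S₀, e₁ p = 0) →
      ∀ N, N₀ ≤ N →
      2885 * ∑ e ∈ (EN S₀ N).filter (fun e => pw e = e₁), cls S₀ m n e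
        ≤ 10000 * ∑ e ∈ (EN S₀ N).filter (fun e => pw e = e₁), gcls β S₀ m n e := by
    intro e₁
    by_cases h : pw e₁ = e₁ ∧ ∀ p ∈ S₀, e₁ p = 0
    · obtain ⟨N₀, h1⟩ := fiber_prop (m := m) (n := n) hβ hS hm hn hbm hbn h.1 h.2
      exact ⟨N₀, fun _ => h1⟩
    · exact ⟨0, fun h' => absurd h' h⟩
  choose NN hNN using hch
  refine ⟨N₁ + ∑ e₁ ∈ PM, NN e₁, fun N hN => ?_⟩
  have h1 := hlow N (by omega)
  have hpos : (0 : ℝ) < ((∑ e ∈ EN S₀ N, cls S₀ m n e : ℕ) : ℝ) := lt_of_lt_of_le (by positivity) h1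
  refine ⟨by exact_mod_cast hpos, ?_⟩
  -- the main part
  set A := (EN S₀ N).filter (fun e => ¬ 3 * J < wt (pw e)) with hA
  set B := (EN S₀ N).filter (fun e => 3 * J < wt (pw e)) with hB
  have hsplit : ∑ e ∈ B, cls S₀ m n e + ∑ e ∈ A, cls S₀ m n e = ∑ e ∈ EN S₀ N, cls S₀ m n e :=
    Finset.sum_filter_add_sum_filter_not _ _ _
  have hmaps : ∀ e ∈ A, pw e ∈ PM := by
    intro e he
    rw [hA, Finset.mem_filter, mem_EN] at he
    rw [hPM, Finset.mem_filter, Set.Finite.mem_toFinset]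
    refine ⟨not_lt.mp he.2, pw_pw e, fun p hp => ?_⟩
    rw [pw_apply, he.1.1 p hp]; rfl
  have hmain : 2885 * ∑ e ∈ A, cls S₀ m n e ≤ 10000 * ∑ e ∈ EN S₀ N, gcls β S₀ m n e := by
    rw [← Finset.sum_fiberwise_of_maps_to hmaps, Finset.mul_sum]
    have h2 : ∀ e₁ ∈ PM, 2885 * ∑ e ∈ A.filter (fun e => pw e = e₁), cls S₀ m n e
        ≤ 10000 * ∑ e ∈ A.filter (fun e => pw e = e₁), gcls β S₀ m n e := by
      intro e₁ he₁
      have h3 : A.filter (fun e => pw e = e₁) = (EN S₀ N).filter (fun e => pw e = e₁) := by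
        ext e
        rw [hA, Finset.mem_filter, Finset.mem_filter, Finset.mem_filter]
        constructor
        · rintro ⟨⟨h4, -⟩, h5⟩; exact ⟨h4, h5⟩
        · rintro ⟨h4, h5⟩
          refine ⟨⟨h4, ?_⟩, h5⟩
          rw [h5, not_lt]
          rw [hPM, Finset.mem_filter, Set.Finite.mem_toFinset] at he₁
          exact he₁.1
      rw [h3]
      rw [hPM, Finset.mem_filter] at he₁
      apply hNN e₁ he₁.2 N
      have h4 : NN e₁ ≤ ∑ e₁ ∈ PM, NN e₁ :=
        Finset.single_le_sum (f := NN) (fun _ _ => Nat.zero_le _)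
          (by rw [hPM, Finset.mem_filter]; exact he₁)
      omega
    refine (Finset.sum_le_sum h2).trans ?_
    rw [← Finset.mul_sum, Finset.sum_fiberwise_of_maps_to hmaps]
    exact Nat.mul_le_mul_left _ (Finset.sum_le_sum_of_subset (Finset.filter_subset _ _))
  -- the tail
  have htail : ((∑ e ∈ B, cls S₀ m n e : ℕ) : ℝ) * 2885
      ≤ 5 * ((∑ e ∈ EN S₀ N, cls S₀ m n e : ℕ) : ℝ) := by
    have h2 : ((∑ e ∈ B, cls S₀ m n e : ℕ) : ℝ) ≤ B.card * (C * (Nat.card k : ℝ) ^ N) := by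
      push_cast
      rw [← nsmul_eq_mul, ← Finset.sum_const]
      apply Finset.sum_le_sum
      intro e he
      have h3 := cls_bound (n := n) hm hn (Finset.mem_filter.mp he).1
      rw [hC]
      exact_mod_cast h3
    have h3 := card_tail S₀ N J
    have h4 : (B.card : ℝ) * (C * (Nat.card k : ℝ) ^ N)
        ≤ (Nat.card k : ℝ) ^ N * (5 * c / (2885 * C)) * (C * (Nat.card k : ℝ) ^ N) := by
      apply mul_le_mul_of_nonneg_right _ (by positivity)
      exact h3.trans (mul_le_mul_of_nonneg_left hJ' (by positivity))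
    have h5 : (Nat.card k : ℝ) ^ N * (5 * c / (2885 * C)) * (C * (Nat.card k : ℝ) ^ N)
        = 5 / 2885 * (c * ((Nat.card k : ℝ) ^ N) ^ 2) := by field_simp
    have h6 := h2.trans (h4.trans (le_of_eq h5))
    linarith
  have htail' : 2885 * (∑ e ∈ B, cls S₀ m n e) ≤ 5 * ∑ e ∈ EN S₀ N, cls S₀ m n e := by
    have : (((∑ e ∈ B, cls S₀ m n e) * 2885 : ℕ) : ℝ)
        ≤ ((5 * ∑ e ∈ EN S₀ N, cls S₀ m n e : ℕ) : ℝ) := by
      push_cast
      push_cast at htail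
      exact htail
    have h2 : (∑ e ∈ B, cls S₀ m n e) * 2885 ≤ 5 * ∑ e ∈ EN S₀ N, cls S₀ m n e := by
      exact_mod_cast this
    rwa [mul_comm] at h2
  omega

end Gen

end Pool.Agent.H2
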