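import Pool.Agent.H2.VDeep3

/-!
# The twists which are more ramified than the curve: a general form
-/

set_option linter.unusedSectionVars false

namespace Pool.Agent.H2

open Polynomial IsDedekindDomain

universe u

variable {k : Type u} [Field k] [Finite k] [CharP k 2]

/-- **Main theorem**, for a general property of the twists. -/
theorem deep_prop_gen (a₀ : RatFunc k) (B : Finset (RatFunc k))
    (S : Finset (HeightOneSpectrum k[X])) (P : RatFunc k → ℕ → Prop)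
    (hP : ∀ (t : ℕ × (HeightOneSpectrum k[X] →₀ ℕ)), DeepT S B t → ∀ N M : ℕ,
      N + (t.1 + wt t.2) = M → ∀ c ∈ VT S t N,
      (fun x => a₀ + x) '' c ∈ asClass '' {a : RatFunc k | ∃ m e, Reduced m e a ∧
        (m + 1) / 2 + wt e = M ∧ Deep S B a ∧ P a M}) :
    ∃ C M₀ : ℕ, ∀ M, M₀ ≤ M →
      (asClass '' {a : RatFunc k | ∃ m e, Reduced m e a ∧ (m + 1) / 2 + wt e = M}).Finite ∧
      (asClass '' {a : RatFunc k | ∃ m e, Reduced m e a ∧ (m + 1) / 2 + wt e = M}).ncard ≤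
        C * (asClass '' {a : RatFunc k | ∃ m e, Reduced m e a ∧ (m + 1) / 2 + wt e = M ∧
          Deep S B a}).ncard ∧
      (asClass '' {a : RatFunc k | ∃ m e, Reduced m e a ∧ (m + 1) / 2 + wt e = M ∧
          Deep S B a}).Nonempty ∧
      288 * (asClass '' {a : RatFunc k | ∃ m e, Reduced m e a ∧ (m + 1) / 2 + wt e = M ∧
          Deep S B a}).ncard ≤
        1000 * (asClass '' {a : RatFunc k | ∃ m e, Reduced m e a ∧ (m + 1) / 2 + wt e = M ∧
          Deep S B a ∧ P a M}).ncard := by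
  classical
  obtain ⟨t₀, ht₀⟩ := exists_type S B
  have hodd₀ : Odd (2 * t₀.1 - 1) := ⟨t₀.1 - 1, by have := ht₀.1.1; omega⟩
  obtain ⟨c, hc, N₂, hlow⟩ := low_cls S (n := nf t₀.2) hodd₀ (nf_odd ht₀.1.2)
  have hq1 : 0 < Nat.card k := Nat.card_pos
  have hq2 := two_le_q (k := k)
  set q := Nat.card k with hq
  set s := t₀.1 + wt t₀.2 with hs
  set K : ℝ := (S.card + 1) * 4 * (q : ℝ) ^ (2 * s + 1) * 2882 / (2 * c) with hK
  have hK0 : 0 < K := by positivity
  obtain ⟨i, hi⟩ := pow_unbounded_of_one_lt K (by norm_num : (1 : ℝ) < 2)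
  set TY : Finset (ℕ × (HeightOneSpectrum k[X] →₀ ℕ)) :=
    ((Finset.range (i + 1)) ×ˢ (wt_finite (k := k) (i * dg S)).toFinset).filter
      (fun t => DeepT S B t) with hTY
  choose NN hNN using fun t => type_prop (S := S) t
  obtain ⟨C, hC⟩ := exists_nat_gt (4 * (q : ℝ) ^ (2 * s + 1) / c)
  refine ⟨C, s + N₂ + ∑ t ∈ TY, (NN t + (t.1 + wt t.2)), fun M hM => ?_⟩
  obtain ⟨hTfin, hTcard⟩ := tot_bound (k := k) M
  set T := asClass '' {a : RatFunc k | ∃ m e, Reduced m e a ∧ (m + 1) / 2 + wt e = M} with hT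
  set D := asClass '' {a : RatFunc k | ∃ m e, Reduced m e a ∧ (m + 1) / 2 + wt e = M ∧
          Deep S B a} with hD
  set G := asClass '' {a : RatFunc k | ∃ m e, Reduced m e a ∧ (m + 1) / 2 + wt e = M ∧
          Deep S B a ∧ P a M} with hG
  have hDT : D ⊆ T := Set.image_mono fun a ⟨m, e, h1, h2, _⟩ => ⟨m, e, h1, h2⟩
  have hGT : G ⊆ T := Set.image_mono fun a ⟨m, e, h1, h2, _⟩ => ⟨m, e, h1, h2⟩
  have hDfin := hTfin.subset hDT
  have hGfin := hTfin.subset hGT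
  -- the lower bound for `D`
  have hU0 : (UT S t₀ (M - s) : Set (Set (RatFunc k))) ⊆ D := by
    intro x hx
    rw [Finset.mem_coe, mem_UT] at hx
    obtain ⟨a, e, h1, h2, rfl⟩ := hx
    refine ⟨a, ⟨_, _, reduced_of_type' ht₀.1.1 ht₀.1.2 h1, ?_, deep_of_type ht₀ h1⟩, rfl⟩
    rw [wt_add]
    have := ht₀.1.1
    omega
  have hlowD : c * ((q : ℝ) ^ (M - s)) ^ 2 ≤ D.ncard := by
    have h1 := hlow (M - s) (by omega)
    rw [← card_UT ht₀.1.2] at h1
    have h2 := Set.ncard_le_ncard hU0 hDfin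
    rw [Set.ncard_coe_finset] at h2
    exact h1.trans (by exact_mod_cast h2)
  have hDpos : (0 : ℝ) < D.ncard := lt_of_lt_of_le (by positivity) hlowD
  have hqM : (q : ℝ) ^ (2 * M + 1) = (q : ℝ) ^ (2 * s + 1) * ((q : ℝ) ^ (M - s)) ^ 2 := by
    rw [← pow_mul, ← pow_add]
    congr 1; omega
  have hDc : ((q : ℝ) ^ (M - s)) ^ 2 ≤ D.ncard / c := by
    rw [le_div_iff₀ hc]; linarith
  -- the tails
  set Tinf := asClass '' {a : RatFunc k | ∃ m e, Reduced m e a ∧ (m + 1) / 2 + wt e = M ∧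
      i ≤ (m + 1) / 2} with hTinf
  set Tp := fun p => asClass '' {a : RatFunc k | ∃ m e, Reduced m e a ∧
      (m + 1) / 2 + wt e = M ∧ i ≤ e p} with hTp
  have hTinf_fin : Tinf.Finite :=
    hTfin.subset (Set.image_mono fun a ⟨m, e, h1, h2, _⟩ => ⟨m, e, h1, h2⟩)
  have hTp_fin : ∀ p, (Tp p).Finite := fun p =>
    hTfin.subset (Set.image_mono fun a ⟨m, e, h1, h2, _⟩ => ⟨m, e, h1, h2⟩)
  set X := TY.biUnion (fun t => UT S t (M - (t.1 + wt t.2))) with hX
  set Y := TY.biUnion (fun t => VT S t (M - (t.1 + wt t.2))) with hY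
  have hDsub : D ⊆ ((X ∪ (hTinf_fin.toFinset ∪ S.biUnion fun p => (hTp_fin p).toFinset) :
      Finset (Set (RatFunc k))) : Set (Set (RatFunc k))) := by
    rintro _ ⟨a, ⟨m, e, h1, h2, h3⟩, rfl⟩
    rw [Finset.mem_coe, Finset.mem_union, Finset.mem_union]
    by_cases c1 : i ≤ (m + 1) / 2
    · refine Or.inr (Or.inl ?_)
      rw [Set.Finite.mem_toFinset]
      exact ⟨a, ⟨m, e, h1, h2, c1⟩, rfl⟩
    by_cases c2 : ∃ p ∈ S, i ≤ e p
    · obtain ⟨p, hp, hpi⟩ := c2
      refine Or.inr (Or.inr ?_)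
      rw [Finset.mem_biUnion]
      refine ⟨p, hp, ?_⟩
      rw [Set.Finite.mem_toFinset]
      exact ⟨a, ⟨m, e, h1, h2, hpi⟩, rfl⟩
    left
    obtain ⟨t, h4, h5, h6, h7, h8⟩ := type_of_deep h1 h3 (not_le.mp c1) (fun p hp =>
      not_le.mp fun h => c2 ⟨p, hp, h⟩)
    rw [hX, Finset.mem_biUnion]
    refine ⟨t, ?_, by rwa [h2] at h8⟩
    rw [hTY, Finset.mem_filter, Finset.mem_product, Finset.mem_range, Set.Finite.mem_toFinset]
    exact ⟨⟨by omega, h6⟩, h4⟩
  set tail := Tinf.ncard + ∑ p ∈ S, (Tp p).ncard with htail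
  have hDle : D.ncard ≤ X.card + tail := by
    have h1 := Set.ncard_le_ncard hDsub (Finset.finite_toSet _)
    rw [Set.ncard_coe_finset] at h1
    refine h1.trans ((Finset.card_union_le _ _).trans (Nat.add_le_add_left ?_ _))
    refine (Finset.card_union_le _ _).trans (Nat.add_le_add ?_ ?_)
    · rw [Set.ncard_eq_toFinset_card _ hTinf_fin]
    · refine Finset.card_biUnion_le.trans (Finset.sum_le_sum fun p _ => ?_)
      rw [Set.ncard_eq_toFinset_card _ (hTp_fin p)]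
  have htail1 : tail * q ^ i ≤ (S.card + 1) * (4 * q ^ (2 * M + 1)) := by
    rw [htail, add_mul, Finset.sum_mul, Nat.add_comm S.card 1, add_mul, one_mul]
    refine Nat.add_le_add (tail_inf i M) ?_
    refine (Finset.sum_le_sum fun p _ => tail_fin p i M).trans ?_
    rw [Finset.sum_const, smul_eq_mul]
  have htail2 : 2882 * tail ≤ 2 * D.ncard := by
    have h1 : (tail : ℝ) * (q : ℝ) ^ i ≤ (S.card + 1) * (4 * (q : ℝ) ^ (2 * M + 1)) := by
      exact_mod_cast htail1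
    have h2 : K ≤ (q : ℝ) ^ i := hi.le.trans (pow_le_pow_left₀ (by norm_num) hq2 i)
    have h3 : (2882 * (tail : ℝ)) * K ≤ (2 * D.ncard) * K := by
      calc (2882 * (tail : ℝ)) * K ≤ (2882 * (tail : ℝ)) * (q : ℝ) ^ i :=
            mul_le_mul_of_nonneg_left h2 (by positivity)
        _ = 2882 * ((tail : ℝ) * (q : ℝ) ^ i) := by ring
        _ ≤ 2882 * ((S.card + 1) * (4 * (q : ℝ) ^ (2 * M + 1))) := by linarith
        _ = 2882 * ((S.card + 1) * (4 * ((q : ℝ) ^ (2 * s + 1) * ((q : ℝ) ^ (M - s)) ^ 2))) := by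
            rw [hqM]
        _ ≤ 2882 * ((S.card + 1) * (4 * ((q : ℝ) ^ (2 * s + 1) * (D.ncard / c)))) := by
            gcongr
        _ = (2 * D.ncard) * K := by
            rw [hK]; field_simp
    have h4 := le_of_mul_le_mul_right h3 hK0
    exact_mod_cast h4
  -- the good classes
  have hmemTY : ∀ t ∈ TY, DeepT S B t ∧ NN t ≤ M - (t.1 + wt t.2) ∧ t.1 + wt t.2 ≤ M := by
    intro t ht
    have h1 : NN t + (t.1 + wt t.2) ≤ ∑ t ∈ TY, (NN t + (t.1 + wt t.2)) :=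
      Finset.single_le_sum (f := fun t => NN t + (t.1 + wt t.2)) (fun _ _ => Nat.zero_le _) ht
    exact ⟨(Finset.mem_filter.mp ht).2, by omega, by omega⟩
  have hYcard : Y.card = ∑ t ∈ TY, (VT S t (M - (t.1 + wt t.2))).card := by
    rw [hY, Finset.card_biUnion]
    intro t ht t' ht' hne
    change Disjoint (VT S t (M - (t.1 + wt t.2))) (VT S t' (M - (t'.1 + wt t'.2)))
    rw [Finset.disjoint_left]
    intro x hx hx'
    have h1 := (hmemTY t ht).1.1
    have h2 := (hmemTY t' ht').1.1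
    exact hne (UT_disjoint h1.1 h1.2 h2.1 h2.2 (VT_sub hx) (VT_sub hx'))
  have hYG : (fun x => (fun y => a₀ + y) '' x) '' (Y : Set (Set (RatFunc k))) ⊆ G := by
    rintro _ ⟨x, hx, rfl⟩
    rw [Finset.mem_coe, hY, Finset.mem_biUnion] at hx
    obtain ⟨t, ht, hx⟩ := hx
    obtain ⟨h1, h2, h3⟩ := hmemTY t ht
    exact hP t h1 _ _ (by omega) x hx
  have hYle : Y.card ≤ G.ncard := by
    have h1 := Set.ncard_le_ncard hYG hGfin
    rwa [Set.ncard_image_of_injective _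
      (Set.image_injective.mpr (add_right_injective a₀)), Set.ncard_coe_finset] at h1
  have hXY : 2882 * X.card ≤ 10000 * Y.card := by
    rw [hYcard, Finset.mul_sum]
    refine (Nat.mul_le_mul_left _ Finset.card_biUnion_le).trans ?_
    rw [Finset.mul_sum]
    apply Finset.sum_le_sum
    intro t ht
    obtain ⟨h1, h2, h3⟩ := hmemTY t ht
    exact hNN t h1.1 _ h2
  refine ⟨hTfin, ?_, ?_, by omega⟩
  · have h1 : (T.ncard : ℝ) ≤ 4 * (q : ℝ) ^ (2 * M + 1) := by exact_mod_cast hTcard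
    have h2 : (T.ncard : ℝ) ≤ C * D.ncard := by
      calc (T.ncard : ℝ) ≤ 4 * (q : ℝ) ^ (2 * M + 1) := h1
        _ = 4 * ((q : ℝ) ^ (2 * s + 1) * ((q : ℝ) ^ (M - s)) ^ 2) := by rw [hqM]
        _ ≤ 4 * ((q : ℝ) ^ (2 * s + 1) * (D.ncard / c)) := by gcongr
        _ = 4 * (q : ℝ) ^ (2 * s + 1) / c * D.ncard := by ring
        _ ≤ C * D.ncard := mul_le_mul_of_nonneg_right hC.le (Nat.cast_nonneg _)
    exact_mod_cast h2
  · rw [← Set.ncard_pos hDfin]
    exact_mod_cast hDpos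

end Pool.Agent.H2
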