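import Pool.Agent.H2.VRes
import Pool.Agent.H2.BCInv

/-!
# The proportion of the twists with an invertible matrix among all the quadratic twists
-/

set_option linter.unusedSectionVars false

namespace Pool.Agent.H2

open Polynomial IsDedekindDomain

universe u

variable {k : Type u} [Field k] [Finite k] [CharP k 2]

open scoped Classical in
/-- the twists with an invertible matrix -/
noncomputable def GdM (S : Finset (HeightOneSpectrum k[X])) (m : ℕ)
    (ν : HeightOneSpectrum k[X] → ℕ) : Finset (RatFunc k) :=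
  (TW S m ν).filter (fun a => GoodM S a)

open scoped Classical in
theorem cls_propM (S₀ : Finset (HeightOneSpectrum k[X])) {m : ℕ} {ν : HeightOneSpectrum k[X] → ℕ}
    (hm : Odd m) (hν : ∀ p, Odd (ν p)) (hν1 : ∀ p, p ∉ S₀ → ν p = 1) :
    ∃ N₀ : ℕ, ∀ N, N₀ ≤ N →
      2885 * ∑ T ∈ FT S₀ N, ((TW (S₀ ∪ T) m ν).image asClass).card
        ≤ 10000 * ∑ T ∈ FT S₀ N, ((GdM (S₀ ∪ T) m ν).image asClass).card := by
  classical
  obtain ⟨N₀, h1⟩ := good_prop S₀ hm hν hν1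
  refine ⟨N₀, fun N hN => ?_⟩
  obtain ⟨h2, h3⟩ := h1 N hN
  have h4 : ∑ T ∈ FT S₀ N, (TW (S₀ ∪ T) m ν).card
      = (WW S₀ m ν).card * ∑ T ∈ FT S₀ N, ((TW (S₀ ∪ T) m ν).image asClass).card := by
    rw [Finset.mul_sum]
    apply Finset.sum_congr rfl
    intro T _
    rw [card_cls hm (fun p _ => hν p), WW_union hν1]
  have h5 : ∑ T ∈ FT S₀ N, ((TW (S₀ ∪ T) m ν).filter (fun a => GoodM (S₀ ∪ T) a)).card
      ≤ (WW S₀ m ν).card * ∑ T ∈ FT S₀ N, ((GdM (S₀ ∪ T) m ν).image asClass).card := by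
    rw [Finset.mul_sum]
    apply Finset.sum_le_sum
    intro T _
    have h7 := card_cls_le (S := S₀ ∪ T) (ν := ν) hm (fun p _ => hν p)
      (B := GdM (S₀ ∪ T) m ν) (Finset.filter_subset _ _)
    rw [WW_union hν1] at h7
    exact h7
  have hW := WW_pos (S := S₀) (m := m) (ν := ν)
  rw [h4] at h2 h3
  have h8 := h3.trans (Nat.mul_le_mul_left 10000 h5)
  apply Nat.le_of_mul_le_mul_left _ hW
  calc _ = 2885 * ((WW S₀ m ν).card * ∑ T ∈ FT S₀ N, ((TW (S₀ ∪ T) m ν).image asClass).card) := by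
        ring
    _ ≤ _ := h8
    _ = _ := by ring

section Gen

variable {S₀ : Finset (HeightOneSpectrum k[X])} {m : ℕ} {n : HeightOneSpectrum k[X] → ℕ}

open scoped Classical in
/-- the number of the good classes of type `e` -/
noncomputable def gclsM (S₀ : Finset (HeightOneSpectrum k[X])) (m : ℕ)
    (n : HeightOneSpectrum k[X] → ℕ) (e : HeightOneSpectrum k[X] →₀ ℕ) : ℕ :=
  ((GdM (S₀ ∪ e.support) m (nu S₀ n e)).image asClass).card

open scoped Classical in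
theorem fiber_propM (hm : Odd m)
    (hn : ∀ p ∈ S₀, Odd (n p)) {e₁ : HeightOneSpectrum k[X] →₀ ℕ} (h1 : pw e₁ = e₁)
    (h0 : ∀ p ∈ S₀, e₁ p = 0) :
    ∃ N₀ : ℕ, ∀ N, N₀ ≤ N →
      2885 * ∑ e ∈ (EN S₀ N).filter (fun e => pw e = e₁), cls S₀ m n e
        ≤ 10000 * ∑ e ∈ (EN S₀ N).filter (fun e => pw e = e₁), gclsM S₀ m n e := by
  classical
  obtain ⟨N₀, hN₀⟩ := cls_propM (m := m) (ν := nu S₀ n e₁) (S₀ ∪ e₁.support) hm (nu_odd hn e₁)
    (fun p hp => by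
      rw [Finset.mem_union, not_or] at hp
      exact nu_out e₁ hp.1 hp.2)
  refine ⟨N₀ + wt e₁, fun N hN => ?_⟩
  have h2 := hN₀ (N - wt e₁) (by omega)
  have h3 := sum_fiber S₀ h1 h0 (by omega : wt e₁ ≤ N)
    (fun S => ((TW S m (nu S₀ n e₁)).image asClass).card)
  have h4 := sum_fiber S₀ h1 h0 (by omega : wt e₁ ≤ N)
    (fun S => ((GdM S m (nu S₀ n e₁)).image asClass).card)
  have h5 : ∑ e ∈ (EN S₀ N).filter (fun e => pw e = e₁), cls S₀ m n e
      = ∑ e ∈ (EN S₀ N).filter (fun e => pw e = e₁),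
        ((TW (S₀ ∪ e.support) m (nu S₀ n e₁)).image asClass).card := by
    apply Finset.sum_congr rfl
    intro e he
    rw [Finset.mem_filter] at he
    unfold cls
    rw [← nu_pw S₀ n e, he.2]
  have h6 : ∑ e ∈ (EN S₀ N).filter (fun e => pw e = e₁), gclsM S₀ m n e
      = ∑ e ∈ (EN S₀ N).filter (fun e => pw e = e₁),
        ((GdM (S₀ ∪ e.support) m (nu S₀ n e₁)).image asClass).card := by
    apply Finset.sum_congr rfl
    intro e he
    rw [Finset.mem_filter] at he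
    unfold gclsM
    rw [← nu_pw S₀ n e, he.2]
  rw [h5, h6, h3, h4]
  exact h2

/-- **The proportion of the good classes.** -/
theorem gen_propM (hm : Odd m) (hn : ∀ p ∈ S₀, Odd (n p)) :
    ∃ N₀ : ℕ, ∀ N, N₀ ≤ N →
      0 < ∑ e ∈ EN S₀ N, cls S₀ m n e ∧
      288 * ∑ e ∈ EN S₀ N, cls S₀ m n e ≤ 1000 * ∑ e ∈ EN S₀ N, gclsM S₀ m n e := by
  classical
  have hq := qpos (k := k)
  have hq2 := two_le_q (k := k)
  obtain ⟨c, hc, N₁, hlow⟩ := low_cls (m := m) (n := n) S₀ hm hn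
  set C := 2 * (Nat.card k : ℝ) ^ (m / 2 + 1 + ∑ p ∈ S₀, (n p / 2 + 1) * dp p) with hC
  have hC0 : 0 < C := by positivity
  obtain ⟨J, hJ⟩ := exists_pow_lt_of_lt_one (show (0 : ℝ) < 5 * c / (2885 * C) by positivity)
    (by norm_num : (1 / 2 : ℝ) < 1)
  have hJ' : ((Nat.card k : ℝ) ^ J)⁻¹ ≤ 5 * c / (2885 * C) := by
    refine le_trans ?_ hJ.le
    rw [one_div, inv_pow]
    exact inv_anti₀ (by positivity) (pow_le_pow_left₀ (by norm_num) hq2 J)
  set PM := (wt_finite (k := k) (3 * J)).toFinset.filter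
    (fun e => pw e = e ∧ ∀ p ∈ S₀, e p = 0) with hPM
  have hch : ∀ e₁ : HeightOneSpectrum k[X] →₀ ℕ, ∃ N₀ : ℕ, (pw e₁ = e₁ ∧ ∀ p ∈ S₀, e₁ p = 0) →
      ∀ N, N₀ ≤ N →
      2885 * ∑ e ∈ (EN S₀ N).filter (fun e => pw e = e₁), cls S₀ m n e
        ≤ 10000 * ∑ e ∈ (EN S₀ N).filter (fun e => pw e = e₁), gclsM S₀ m n e := by
    intro e₁
    by_cases h : pw e₁ = e₁ ∧ ∀ p ∈ S₀, e₁ p = 0
    · obtain ⟨N₀, h1⟩ := fiber_propM (m := m) (n := n) hm hn h.1 h.2
      exact ⟨N₀, fun _ => h1⟩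
    · exact ⟨0, fun h' => absurd h' h⟩
  choose NN hNN using hch
  refine ⟨N₁ + ∑ e₁ ∈ PM, NN e₁, fun N hN => ?_⟩
  have h1 := hlow N (by omega)
  have hpos : (0 : ℝ) < ((∑ e ∈ EN S₀ N, cls S₀ m n e : ℕ) : ℝ) := lt_of_lt_of_le (by positivity) h1
  refine ⟨by exact_mod_cast hpos, ?_⟩
  -- the main part
  set A := (EN S₀ N).filter (fun e => ¬ 3 * J < wt (pw e)) with hA
  set B := (EN S₀ N).filter (fun e => 3 * J < wt (pw e)) with hB
  have hsplit : ∑ e ∈ B, cls S₀ m n e + ∑ e ∈ A, cls S₀ m n e = ∑ e ∈ EN S₀ N, cls S₀ m n e :=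
    Finset.sum_filter_add_sum_filter_not _ _ _
  have hmaps : ∀ e ∈ A, pw e ∈ PM := by
    intro e he
    rw [hA, Finset.mem_filter, mem_EN] at he
    rw [hPM, Finset.mem_filter, Set.Finite.mem_toFinset]
    refine ⟨not_lt.mp he.2, pw_pw e, fun p hp => ?_⟩
    rw [pw_apply, he.1.1 p hp]; rfl
  have hmain : 2885 * ∑ e ∈ A, cls S₀ m n e ≤ 10000 * ∑ e ∈ EN S₀ N, gclsM S₀ m n e := by
    rw [← Finset.sum_fiberwise_of_maps_to hmaps, Finset.mul_sum]
    have h2 : ∀ e₁ ∈ PM, 2885 * ∑ e ∈ A.filter (fun e => pw e = e₁), cls S₀ m n e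
        ≤ 10000 * ∑ e ∈ A.filter (fun e => pw e = e₁), gclsM S₀ m n e := by
      intro e₁ he₁
      have h3 : A.filter (fun e => pw e = e₁) = (EN S₀ N).filter (fun e => pw e = e₁) := by
        ext e
        rw [hA, Finset.mem_filter, Finset.mem_filter, Finset.mem_filter]
        constructor
        · rintro ⟨⟨h4, -⟩, h5⟩; exact ⟨h4, h5⟩
        · rintro ⟨h4, h5⟩
          refine ⟨⟨h4, ?_⟩, h5⟩
          rw [h5, not_lt]
          rw [hPM, Finset.mem_filter, Set.Finite.mem_toFinset] at he₁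
          exact he₁.1
      rw [h3]
      rw [hPM, Finset.mem_filter] at he₁
      apply hNN e₁ he₁.2 N
      have h4 : NN e₁ ≤ ∑ e₁ ∈ PM, NN e₁ :=
        Finset.single_le_sum (f := NN) (fun _ _ => Nat.zero_le _)
          (by rw [hPM, Finset.mem_filter]; exact he₁)
      omega
    refine (Finset.sum_le_sum h2).trans ?_
    rw [← Finset.mul_sum, Finset.sum_fiberwise_of_maps_to hmaps]
    exact Nat.mul_le_mul_left _ (Finset.sum_le_sum_of_subset (Finset.filter_subset _ _))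
  -- the tail
  have htail : ((∑ e ∈ B, cls S₀ m n e : ℕ) : ℝ) * 2885
      ≤ 5 * ((∑ e ∈ EN S₀ N, cls S₀ m n e : ℕ) : ℝ) := by
    have h2 : ((∑ e ∈ B, cls S₀ m n e : ℕ) : ℝ) ≤ B.card * (C * (Nat.card k : ℝ) ^ N) := by
      push_cast
      rw [← nsmul_eq_mul, ← Finset.sum_const]
      apply Finset.sum_le_sum
      intro e he
      have h3 := cls_bound (n := n) hm hn (Finset.mem_filter.mp he).1
      rw [hC]
      exact_mod_cast h3
    have h3 := card_tail S₀ N J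
    have h4 : (B.card : ℝ) * (C * (Nat.card k : ℝ) ^ N)
        ≤ (Nat.card k : ℝ) ^ N * (5 * c / (2885 * C)) * (C * (Nat.card k : ℝ) ^ N) := by
      apply mul_le_mul_of_nonneg_right _ (by positivity)
      exact h3.trans (mul_le_mul_of_nonneg_left hJ' (by positivity))
    have h5 : (Nat.card k : ℝ) ^ N * (5 * c / (2885 * C)) * (C * (Nat.card k : ℝ) ^ N)
        = 5 / 2885 * (c * ((Nat.card k : ℝ) ^ N) ^ 2) := by field_simp
    have h6 := h2.trans (h4.trans (le_of_eq h5))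
    linarith
  have htail' : 2885 * (∑ e ∈ B, cls S₀ m n e) ≤ 5 * ∑ e ∈ EN S₀ N, cls S₀ m n e := by
    have : (((∑ e ∈ B, cls S₀ m n e) * 2885 : ℕ) : ℝ)
        ≤ ((5 * ∑ e ∈ EN S₀ N, cls S₀ m n e : ℕ) : ℝ) := by
      push_cast
      push_cast at htail
      exact htail
    have h2 : (∑ e ∈ B, cls S₀ m n e) * 2885 ≤ 5 * ∑ e ∈ EN S₀ N, cls S₀ m n e := by
      exact_mod_cast this
    rwa [mul_comm] at h2
  omega

end Gen

end Pool.Agent.H2
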