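import Pool.Agent.H2.VErr

/-!
# A lower bound for the number of the twists
-/

namespace Pool.Agent.H2

open Polynomial IsDedekindDomain

universe u

variable {k : Type u} [Field k] [Finite k] [CharP k 2]

theorem card_res {P R : k[X]} (hP : P ≠ 0) (hPR : IsCoprime P R) {n : ℕ} (X₀ : Finset k[X])
    (hX : ∀ D ∈ X₀, D ∈ MM k n ∧ P ∣ 1 + R * D) :
    (X₀.card : ℝ) ≤ (Nat.card k : ℝ) ^ n / (Nat.card k : ℝ) ^ P.natDegree + 1 := by
  classical
  have hq := qpos (k := k)
  set e₀ := min P.natDegree n with he₀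
  have h1 : Nat.card (X₀ × degreeLT k e₀) ≤ Nat.card (MM k n) := by
    apply Nat.card_le_card_of_injective (fun x => (⟨x.1.1 + x.2.1, by
      apply MM_add (hX x.1.1 x.1.2).1
      refine lt_of_lt_of_le (mem_degreeLT.mp x.2.2) ?_
      exact_mod_cast min_le_right _ _⟩ : MM k n))
    rintro ⟨⟨D, hD⟩, ⟨e, he⟩⟩ ⟨⟨D', hD'⟩, ⟨e', he'⟩⟩ h
    have h2 : D + e = D' + e' := congrArg Subtype.val h
    have h3 : P ∣ R * (e' - e) := by
      have h4 := dvd_sub (hX D hD).2 (hX D' hD').2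
      have : (1 + R * D) - (1 + R * D') = R * (e' - e) := by linear_combination R * h2
      rwa [this] at h4
    have h4 : P ∣ e' - e := hPR.dvd_of_dvd_mul_left h3
    have h5 : e = e' := by
      by_contra hne
      have h6 := degree_le_of_dvd h4 (sub_ne_zero.mpr (Ne.symm hne))
      have h7 : (e' - e).degree < (e₀ : WithBot ℕ) :=
          (degree_sub_le _ _).trans_lt (max_lt (mem_degreeLT.mp he') (mem_degreeLT.mp he))
      rw [degree_eq_natDegree hP] at h6
      have h8 : ((P.natDegree : ℕ) : WithBot ℕ) < (e₀ : WithBot ℕ) := lt_of_le_of_lt h6 h7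
      have h9 : P.natDegree < e₀ := by exact_mod_cast h8
      have := min_le_left P.natDegree n
      omega
    subst h5
    have h6 : D = D' := add_right_cancel h2
    subst h6
    rfl
  rw [Nat.card_prod, card_degreeLT, Nat.card_eq_finsetCard, Nat.card_eq_finsetCard, card_MM] at h1
  have h2 : (X₀.card : ℝ) * (Nat.card k : ℝ) ^ e₀ ≤ (Nat.card k : ℝ) ^ n := by exact_mod_cast h1
  by_cases hle : P.natDegree ≤ n
  · have h3 : e₀ = P.natDegree := min_eq_left hle
    rw [h3] at h2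
    have h4 : (X₀.card : ℝ) ≤ (Nat.card k : ℝ) ^ n / (Nat.card k : ℝ) ^ P.natDegree := by
      rwa [le_div_iff₀ (by positivity)]
    linarith
  · have h3 : e₀ = n := min_eq_right (by omega)
    rw [h3] at h2
    have h4 : (0 : ℝ) < (Nat.card k : ℝ) ^ n := by positivity
    have h5 : (X₀.card : ℝ) ≤ 1 := by nlinarith
    have h6 : (0 : ℝ) ≤ (Nat.card k : ℝ) ^ n / (Nat.card k : ℝ) ^ P.natDegree := by positivity
    linarith

theorem tw_add {S₀ T : Finset (HeightOneSpectrum k[X])} [DecidableEq (HeightOneSpectrum k[X])]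
    (hST : Disjoint S₀ T) {m : ℕ}
    {ν : HeightOneSpectrum k[X] → ℕ} (hm : 0 < m) (hν : ∀ p, 0 < ν p)
    (hν1 : ∀ p, p ∉ S₀ → ν p = 1) {a₁ : RatFunc k} (h : a₁ ∈ twists S₀ m ν) {w : k[X]}
    (hwm : w.Monic) (hw : w.natDegree = dg T) (hc : ∀ p ∈ T, ¬ gQ p ∣ w) :
    algebraMap k[X] (RatFunc k) w / algebraMap k[X] (RatFunc k) (pr T) + a₁
      ∈ twists (S₀ ∪ T) m ν := by
  have hm2 : (1 : ℝ) < 2 ^ m := one_lt_pow₀ (by norm_num) hm.ne'
  have hν2 : ∀ p, (1 : ℝ) < 2 ^ ν p := fun p => one_lt_pow₀ (by norm_num) (hν p).ne'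
  obtain ⟨h1, h2, h3⟩ := h
  have hinf : infAbv k (algebraMap k[X] (RatFunc k) w / algebraMap k[X] (RatFunc k) (pr T)) = 1 := by
    rw [map_div₀, infAbv_poly hwm.ne_zero, infAbv_poly (pr_ne T), pr_deg, hw]
    exact div_self (by positivity)
  have hout : ∀ p, p ∉ T →
      finAbv p (algebraMap k[X] (RatFunc k) w / algebraMap k[X] (RatFunc k) (pr T)) ≤ 1 := by
    intro p hp
    rw [map_div₀, pr_out hp, div_one]
    exact finAbv_poly p w
  refine ⟨?_, fun p hp => ?_, fun p hp => ?_⟩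
  · rw [infAbv_add_of_lt (by rw [h1, hinf]; exact hm2), h1]
  · by_cases hpT : p ∈ T
    · have hpS : p ∉ S₀ := fun h => Finset.disjoint_left.mp hST h hpT
      have h4 : finAbv p (algebraMap k[X] (RatFunc k) w / algebraMap k[X] (RatFunc k) (pr T)) = 2 := by
        rw [map_div₀, pr_in hpT, unit_of (hc p hpT)]; norm_num
      rw [add_comm, finAbv_add_of_lt, h4, hν1 p hpS, pow_one]
      rw [h4]
      linarith [h3 p hpS]
    · have hpS : p ∈ S₀ := by
        rcases Finset.mem_union.mp hp with h | h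
        · exact h
        · exact absurd h hpT
      rw [finAbv_add_of_lt, h2 p hpS]
      rw [h2 p hpS]
      exact lt_of_le_of_lt (hout p hpT) (hν2 p)
  · rw [Finset.mem_union, not_or] at hp
    exact (finAbv_nonarch p _ _).trans (max_le (hout p hp.2) (h3 p hp.1))

open scoped Classical in
/-- the places dividing a polynomial of degree `N` -/
noncomputable def pd (N : ℕ) (G : k[X]) : Finset (HeightOneSpectrum k[X]) :=
  (PL k N).filter (fun p => gQ p ∣ G)

theorem mem_pd {N : ℕ} {G : k[X]} (hG : G.Monic) (hN : G.natDegree = N)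
    {p : HeightOneSpectrum k[X]} : p ∈ pd N G ↔ gQ p ∣ G := by
  classical
  unfold pd
  rw [Finset.mem_filter, mem_PL]
  constructor
  · exact fun h => h.2
  · intro h
    refine ⟨?_, h⟩
    rw [← hN]
    exact natDegree_le_of_dvd h hG.ne_zero

theorem pr_pd {N : ℕ} {G : k[X]} (hG : G.Monic) (hN : G.natDegree = N)
    (hsq : ∀ p : HeightOneSpectrum k[X], ¬ gQ p ^ 2 ∣ G) : pr (pd N G) = G := by
  classical
  have h1 : pr (pd N G) ∣ G := by
    unfold pr
    apply Finset.prod_dvd_of_coprime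
    · intro p _ q _ hpq
      exact (gQ_irr p).coprime_iff_not_dvd.mpr (gQ_not_dvd hpq)
    · intro p hp
      exact (mem_pd hG hN).mp hp
  obtain ⟨H, hH⟩ := h1
  have hHm : H.Monic := (pr_monic (pd N G)).of_mul_monic_left (by rw [← hH]; exact hG)
  by_cases hu : IsUnit H
  · have : H = 1 := hHm.eq_one_of_isUnit hu
    rw [this, mul_one] at hH
    exact hH.symm
  · exfalso
    obtain ⟨P, hP, hPH⟩ := WfDvdMonoid.exists_irreducible_factor hu hHm.ne_zero
    obtain ⟨p, hp⟩ := place_of hP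
    have h2 : gQ p ∣ H := by
      have h5 : Ideal.span {gQ p} = Ideal.span {P} := by rw [← gQ_span p, hp]
      exact (Ideal.span_singleton_eq_span_singleton.mp h5).dvd.trans hPH
    have h3 : gQ p ∣ G := by rw [hH]; exact Dvd.dvd.mul_left h2 _
    have h4 : gQ p ∣ pr (pd N G) := dvd_pr.mpr ((mem_pd hG hN).mpr h3)
    apply hsq p
    rw [hH, pow_two]
    exact mul_dvd_mul h4 h2

theorem card_LP_le (ℓ M : ℕ) : ((LP k ℓ M).card : ℝ) ≤ M * (Nat.card k : ℝ) ^ M := by
  classical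
  have hq := qpos (k := k)
  have hq1 : (1 : ℝ) ≤ Nat.card k := by have := two_le_q (k := k); linarith
  have h1 : ((LP k ℓ M).card : ℝ) ≤ ∑ p ∈ PL k M, (dp p : ℝ) * 1 := by
    have h2 : ((LP k ℓ M).card : ℝ) ≤ ((PL k M).card : ℝ) := by
      exact_mod_cast Finset.card_le_card (Finset.filter_subset _ _)
    refine h2.trans ?_
    rw [Finset.card_eq_sum_ones]
    push_cast
    apply Finset.sum_le_sum
    intro p _
    have : (1 : ℝ) ≤ dp p := by exact_mod_cast dp_pos p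
    linarith
  refine h1.trans ((sum_places (PL k M) (fun p hp => mem_PL.mp hp) (fun _ => 1)
    (fun _ => zero_le_one)).trans ?_)
  have h3 : ∀ j ∈ Finset.Icc 1 M, (Nat.card k : ℝ) ^ j * 1 ≤ (Nat.card k : ℝ) ^ M := by
    intro j hj
    rw [mul_one]
    exact pow_le_pow_right₀ hq1 (Finset.mem_Icc.mp hj).2
  refine (Finset.sum_le_sum h3).trans (le_of_eq ?_)
  rw [Finset.sum_const, Nat.card_Icc, nsmul_eq_mul]
  simp

theorem sum_LP' (ℓ N : ℕ) : ∑ p ∈ LP k ℓ N, ((Nat.card k : ℝ) ^ dp p)⁻¹ ≤ N := by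
  classical
  have hq := qpos (k := k)
  have h1 : ∑ p ∈ LP k ℓ N, ((Nat.card k : ℝ) ^ dp p)⁻¹
      ≤ ∑ p ∈ PL k N, (dp p : ℝ) * ((Nat.card k : ℝ) ^ dp p)⁻¹ := by
    refine (Finset.sum_le_sum_of_subset_of_nonneg (Finset.filter_subset _ _)
      (fun p _ _ => by positivity)).trans ?_
    apply Finset.sum_le_sum
    intro p _
    have h2 : (1 : ℝ) ≤ dp p := by exact_mod_cast dp_pos p
    have h3 : (0 : ℝ) ≤ ((Nat.card k : ℝ) ^ dp p)⁻¹ := by positivity
    nlinarith
  refine h1.trans ((sum_places (PL k N) (fun p hp => mem_PL.mp hp)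
    (fun j => ((Nat.card k : ℝ) ^ j)⁻¹) (fun j => by positivity)).trans (le_of_eq ?_))
  rw [Finset.sum_congr rfl (g := fun _ => (1 : ℝ)) (fun j _ => mul_inv_cancel₀ (by positivity)),
    Finset.sum_const, Nat.card_Icc, nsmul_eq_mul]
  simp

open scoped Classical in
/-- the pairs which are not good -/
theorem bad_pairs {S₁ : Finset (HeightOneSpectrum k[X])} (hS : ∀ p, dp p ≤ 2 → p ∈ S₁) {n N : ℕ}
    (hn : 0 < n) (hN : dg S₁ + n = N) :
    ((((MM k n) ×ˢ (MM k N)).filter (fun x => ∃ p : HeightOneSpectrum k[X],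
      gQ p ^ 2 ∣ 1 + pr S₁ * x.1 ∨ (gQ p ∣ 1 + pr S₁ * x.1 ∧ gQ p ∣ x.2))).card : ℝ)
      ≤ (Nat.card k : ℝ) ^ n * (Nat.card k : ℝ) ^ N / 2
        + N * (Nat.card k : ℝ) ^ (N / 2) * (Nat.card k : ℝ) ^ N + N * (Nat.card k : ℝ) ^ N := by
  classical
  have hq := qpos (k := k)
  have hq2 := two_le_q (k := k)
  have hG : ∀ D ∈ MM k n, (1 + pr S₁ * D).Monic ∧ (1 + pr S₁ * D).natDegree = N := by
    intro D hD
    rw [mem_MM] at hD
    have h1 : (pr S₁ * D).Monic := (pr_monic S₁).mul hD.1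
    have h2 : (pr S₁ * D).natDegree = N := by
      rw [(pr_monic S₁).natDegree_mul hD.1, pr_deg, hD.2, hN]
    have h3 : (1 : k[X]).degree < (pr S₁ * D).degree := by
      rw [degree_one, degree_eq_natDegree h1.ne_zero, h2]
      exact_mod_cast (by omega : 0 < N)
    exact ⟨h1.add_of_right h3, by rw [natDegree_add_eq_right_of_degree_lt h3, h2]⟩
  have hout : ∀ D, ∀ p : HeightOneSpectrum k[X], gQ p ∣ 1 + pr S₁ * D → p ∉ S₁ := by
    intro D p h hp
    have h1 : gQ p ∣ pr S₁ * D := Dvd.dvd.mul_right (dvd_pr.mpr hp) _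
    exact (gQ_irr p).not_isUnit (isUnit_of_dvd_one ((dvd_add_left h1).mp h))
  set P := (MM k n) ×ˢ (MM k N) with hP
  set X₁ : HeightOneSpectrum k[X] → Finset (k[X] × k[X]) := fun p =>
    P.filter (fun x => gQ p ^ 2 ∣ 1 + pr S₁ * x.1) with hX₁
  set X₂ : HeightOneSpectrum k[X] → Finset (k[X] × k[X]) := fun p =>
    P.filter (fun x => gQ p ∣ 1 + pr S₁ * x.1 ∧ gQ p ∣ x.2) with hX₂
  have hsub : P.filter (fun x => ∃ p : HeightOneSpectrum k[X],
      gQ p ^ 2 ∣ 1 + pr S₁ * x.1 ∨ (gQ p ∣ 1 + pr S₁ * x.1 ∧ gQ p ∣ x.2))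
      ⊆ (LP k 2 (N / 2)).biUnion X₁ ∪ (LP k 2 N).biUnion X₂ := by
    intro x hx
    rw [Finset.mem_filter] at hx
    obtain ⟨hxP, p, hp⟩ := hx
    have hxD := hG x.1 (Finset.mem_product.mp hxP).1
    rw [Finset.mem_union, Finset.mem_biUnion, Finset.mem_biUnion]
    rcases hp with hp | hp
    · left
      refine ⟨p, ?_, Finset.mem_filter.mpr ⟨hxP, hp⟩⟩
      unfold LP
      rw [Finset.mem_filter, mem_PL]
      have h1 := natDegree_le_of_dvd hp hxD.1.ne_zero
      rw [natDegree_pow, hxD.2] at h1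
      have h2 : dp p = (gQ p).natDegree := rfl
      refine ⟨by omega, ?_⟩
      by_contra hlt
      exact hout _ p ((dvd_pow_self _ two_ne_zero).trans hp) (hS p (not_lt.mp hlt))
    · right
      refine ⟨p, ?_, Finset.mem_filter.mpr ⟨hxP, hp⟩⟩
      unfold LP
      rw [Finset.mem_filter, mem_PL]
      have h1 := natDegree_le_of_dvd hp.1 hxD.1.ne_zero
      rw [hxD.2] at h1
      refine ⟨h1, ?_⟩
      by_contra hlt
      exact hout _ p hp.1 (hS p (not_lt.mp hlt))
  have hc1 : ∀ p ∈ LP k 2 (N / 2), ((X₁ p).card : ℝ)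
      ≤ (Nat.card k : ℝ) ^ n * (Nat.card k : ℝ) ^ N * (((Nat.card k : ℝ) ^ dp p) ^ 2)⁻¹
        + (Nat.card k : ℝ) ^ N := by
    intro p _
    by_cases hpS : p ∈ S₁
    · have : X₁ p = ∅ := by
        rw [hX₁, Finset.filter_eq_empty_iff]
        intro x _ h
        exact hout _ p ((dvd_pow_self _ two_ne_zero).trans h) hpS
      rw [this, Finset.card_empty, Nat.cast_zero]
      positivity
    · have hcop : IsCoprime (gQ p ^ 2) (pr S₁) := by
        apply IsCoprime.pow_left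
        exact (gQ_irr p).coprime_iff_not_dvd.mpr fun h => hpS (dvd_pr.mp h)
      have h1 := card_res (pow_ne_zero 2 (gQ_irr p).ne_zero) hcop
        ((MM k n).filter (fun D => gQ p ^ 2 ∣ 1 + pr S₁ * D))
        (fun D hD => Finset.mem_filter.mp hD)
      have h2 : X₁ p = ((MM k n).filter (fun D => gQ p ^ 2 ∣ 1 + pr S₁ * D)) ×ˢ (MM k N) := by
        rw [hX₁, hP]
        ext x
        rw [Finset.mem_filter, Finset.mem_product, Finset.mem_product, Finset.mem_filter]
        tauto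
      rw [h2, Finset.card_product, card_MM]
      rw [natDegree_pow] at h1
      push_cast
      have h3 : (gQ p).natDegree = dp p := rfl
      rw [h3, mul_comm 2, pow_mul] at h1
      calc _ ≤ ((Nat.card k : ℝ) ^ n / ((Nat.card k : ℝ) ^ dp p) ^ 2 + 1) * (Nat.card k : ℝ) ^ N :=
            mul_le_mul_of_nonneg_right h1 (by positivity)
        _ = _ := by field_simp
  have hc2 : ∀ p ∈ LP k 2 N, ((X₂ p).card : ℝ)
      ≤ (Nat.card k : ℝ) ^ n * (Nat.card k : ℝ) ^ N * (((Nat.card k : ℝ) ^ dp p) ^ 2)⁻¹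
        + (Nat.card k : ℝ) ^ N * ((Nat.card k : ℝ) ^ dp p)⁻¹ := by
    intro p hp
    have hpN : dp p ≤ N := by
      unfold LP at hp
      rw [Finset.mem_filter, mem_PL] at hp
      exact hp.1
    by_cases hpS : p ∈ S₁
    · have : X₂ p = ∅ := by
        rw [hX₂, Finset.filter_eq_empty_iff]
        intro x _ h
        exact hout _ p h.1 hpS
      rw [this, Finset.card_empty, Nat.cast_zero]
      positivity
    · have hcop : IsCoprime (gQ p) (pr S₁) :=
        (gQ_irr p).coprime_iff_not_dvd.mpr fun h => hpS (dvd_pr.mp h)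
      have h1 := card_res (gQ_irr p).ne_zero hcop
        ((MM k n).filter (fun D => gQ p ∣ 1 + pr S₁ * D))
        (fun D hD => Finset.mem_filter.mp hD)
      have h2 : X₂ p = ((MM k n).filter (fun D => gQ p ∣ 1 + pr S₁ * D))
          ×ˢ ((MM k N).filter (fun w => gQ p ∣ w)) := by
        rw [hX₂, hP]
        ext x
        rw [Finset.mem_filter, Finset.mem_product, Finset.mem_product, Finset.mem_filter,
          Finset.mem_filter]
        tauto
      have h3 : (gQ p).natDegree = dp p := rfl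
      rw [h2, Finset.card_product, card_mult (gQ_monic p) (by rw [h3]; exact hpN), card_MM]
      push_cast
      rw [h3] at h1 ⊢
      have h4 : (Nat.card k : ℝ) ^ (N - dp p) = (Nat.card k : ℝ) ^ N * ((Nat.card k : ℝ) ^ dp p)⁻¹ := by
        rw [← div_eq_mul_inv, eq_div_iff (by positivity), ← pow_add]
        congr 1; omega
      rw [h4]
      calc _ ≤ ((Nat.card k : ℝ) ^ n / (Nat.card k : ℝ) ^ dp p + 1)
            * ((Nat.card k : ℝ) ^ N * ((Nat.card k : ℝ) ^ dp p)⁻¹) :=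
            mul_le_mul_of_nonneg_right h1 (by positivity)
        _ = _ := by field_simp
  have hinv : ((Nat.card k : ℝ) ^ 2)⁻¹ ≤ 1 / 4 := by
    rw [one_div]
    apply inv_anti₀ (by norm_num)
    nlinarith
  have hs1 := sum_LP (k := k) 2 (N / 2)
  have hs2 := sum_LP (k := k) 2 N
  have hs3 := sum_LP' (k := k) 2 N
  have hs4 := card_LP_le (k := k) 2 (N / 2)
  have hqn : (0 : ℝ) < (Nat.card k : ℝ) ^ n * (Nat.card k : ℝ) ^ N := by positivity
  have hqN : (0 : ℝ) < (Nat.card k : ℝ) ^ N := by positivity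
  have h1 : ((P.filter (fun x => ∃ p : HeightOneSpectrum k[X],
      gQ p ^ 2 ∣ 1 + pr S₁ * x.1 ∨ (gQ p ∣ 1 + pr S₁ * x.1 ∧ gQ p ∣ x.2))).card : ℝ)
      ≤ ∑ p ∈ LP k 2 (N / 2), ((X₁ p).card : ℝ) + ∑ p ∈ LP k 2 N, ((X₂ p).card : ℝ) := by
    have h2 := (Finset.card_le_card hsub).trans (Finset.card_union_le _ _)
    have h3 := Finset.card_biUnion_le (s := LP k 2 (N / 2)) (t := X₁)
    have h4 := Finset.card_biUnion_le (s := LP k 2 N) (t := X₂)
    exact_mod_cast h2.trans (add_le_add h3 h4)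
  refine h1.trans ((add_le_add (Finset.sum_le_sum hc1) (Finset.sum_le_sum hc2)).trans ?_)
  rw [Finset.sum_add_distrib, Finset.sum_add_distrib, ← Finset.mul_sum, ← Finset.mul_sum,
    ← Finset.mul_sum, Finset.sum_const, nsmul_eq_mul]
  have h5 : (Nat.card k : ℝ) ^ n * (Nat.card k : ℝ) ^ N
      * ∑ p ∈ LP k 2 (N / 2), (((Nat.card k : ℝ) ^ dp p) ^ 2)⁻¹
      ≤ (Nat.card k : ℝ) ^ n * (Nat.card k : ℝ) ^ N * (1 / 4) :=
    mul_le_mul_of_nonneg_left (hs1.trans hinv) hqn.le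
  have h6 : (Nat.card k : ℝ) ^ n * (Nat.card k : ℝ) ^ N
      * ∑ p ∈ LP k 2 N, (((Nat.card k : ℝ) ^ dp p) ^ 2)⁻¹
      ≤ (Nat.card k : ℝ) ^ n * (Nat.card k : ℝ) ^ N * (1 / 4) :=
    mul_le_mul_of_nonneg_left (hs2.trans hinv) hqn.le
  have h7 : ((LP k 2 (N / 2)).card : ℝ) * (Nat.card k : ℝ) ^ N
      ≤ N * (Nat.card k : ℝ) ^ (N / 2) * (Nat.card k : ℝ) ^ N := by
    apply mul_le_mul_of_nonneg_right _ hqN.le
    refine hs4.trans (mul_le_mul_of_nonneg_right ?_ (by positivity))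
    exact_mod_cast Nat.div_le_self N 2
  have h8 : (Nat.card k : ℝ) ^ N * ∑ p ∈ LP k 2 N, ((Nat.card k : ℝ) ^ dp p)⁻¹
      ≤ (Nat.card k : ℝ) ^ N * N := mul_le_mul_of_nonneg_left hs3 hqN.le
  linarith

end Pool.Agent.H2
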