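import Pool.Agent.H2.VLow

/-!
# A lower bound for the number of the twists, II
-/

namespace Pool.Agent.H2

open Polynomial IsDedekindDomain

universe u

variable {k : Type u} [Field k] [Finite k] [CharP k 2]

open scoped Classical in
theorem low_count {S₀ S₁ : Finset (HeightOneSpectrum k[X])} (hS01 : S₀ ⊆ S₁)
    (hS : ∀ p, dp p ≤ 2 → p ∈ S₁) {n N m : ℕ} {ν : HeightOneSpectrum k[X] → ℕ} (hm : 0 < m)
    (hν : ∀ p, 0 < ν p) (hν1 : ∀ p, p ∉ S₀ → ν p = 1) (hn : 0 < n) (hN : dg S₁ + n = N) :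
    (Nat.card k : ℝ) ^ n * (Nat.card k : ℝ) ^ N / 2
        - N * (Nat.card k : ℝ) ^ (N / 2) * (Nat.card k : ℝ) ^ N - N * (Nat.card k : ℝ) ^ N
      ≤ ∑ T ∈ FT S₀ N, ((TW (S₀ ∪ T) m ν).card : ℝ) := by
  classical
  obtain ⟨a₁, ha₁⟩ := twists_nonempty S₀ hm (fun p _ => hν p)
  have hG : ∀ D ∈ MM k n, (1 + pr S₁ * D).Monic ∧ (1 + pr S₁ * D).natDegree = N := by
    intro D hD
    rw [mem_MM] at hD
    have h1 : (pr S₁ * D).Monic := (pr_monic S₁).mul hD.1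
    have h2 : (pr S₁ * D).natDegree = N := by
      rw [(pr_monic S₁).natDegree_mul hD.1, pr_deg, hD.2, hN]
    have h3 : (1 : k[X]).degree < (pr S₁ * D).degree := by
      rw [degree_one, degree_eq_natDegree h1.ne_zero, h2]
      exact_mod_cast (by omega : 0 < N)
    exact ⟨h1.add_of_right h3, by rw [natDegree_add_eq_right_of_degree_lt h3, h2]⟩
  have hout : ∀ D, ∀ p : HeightOneSpectrum k[X], gQ p ∣ 1 + pr S₁ * D → p ∉ S₁ := by
    intro D p h hp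
    have h1 : gQ p ∣ pr S₁ * D := Dvd.dvd.mul_right (dvd_pr.mpr hp) _
    exact (gQ_irr p).not_isUnit (isUnit_of_dvd_one ((dvd_add_left h1).mp h))
  have hbad := bad_pairs (k := k) hS hn hN
  set P := (MM k n) ×ˢ (MM k N) with hP
  set Q : k[X] × k[X] → Prop := fun x => ∃ p : HeightOneSpectrum k[X],
      gQ p ^ 2 ∣ 1 + pr S₁ * x.1 ∨ (gQ p ∣ 1 + pr S₁ * x.1 ∧ gQ p ∣ x.2) with hQ
  have hcP : (P.card : ℝ) = (Nat.card k : ℝ) ^ n * (Nat.card k : ℝ) ^ N := by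
    rw [hP, Finset.card_product, card_MM, card_MM]; push_cast; ring
  have hsplit : ((P.filter Q).card : ℝ) + ((P.filter (fun x => ¬ Q x)).card : ℝ) = P.card := by
    exact_mod_cast Finset.card_filter_add_card_filter_not (s := P) Q
  have hinj : (P.filter (fun x => ¬ Q x)).card
      ≤ ((FT S₀ N).sigma (fun T => TW (S₀ ∪ T) m ν)).card := by
    have hgood : ∀ x ∈ P.filter (fun x => ¬ Q x), pr (pd N (1 + pr S₁ * x.1)) = 1 + pr S₁ * x.1 := by
      intro x hx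
      rw [Finset.mem_filter] at hx
      have hxD := hG x.1 (Finset.mem_product.mp hx.1).1
      exact pr_pd hxD.1 hxD.2 (fun p h => hx.2 ⟨p, Or.inl h⟩)
    apply Finset.card_le_card_of_injOn (fun x => (⟨pd N (1 + pr S₁ * x.1),
      algebraMap k[X] (RatFunc k) x.2 / algebraMap k[X] (RatFunc k) (pr (pd N (1 + pr S₁ * x.1)))
        + a₁⟩ : (_ : Finset (HeightOneSpectrum k[X])) × RatFunc k))
    · intro x hx
      rw [Finset.mem_coe] at hx
      have hg := hgood x hx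
      rw [Finset.mem_filter] at hx
      have hxD := hG x.1 (Finset.mem_product.mp hx.1).1
      have hxw := mem_MM.mp (Finset.mem_product.mp hx.1).2
      rw [Finset.mem_coe, Finset.mem_sigma, mem_FT, mem_TW]
      have hdisj : Disjoint S₀ (pd N (1 + pr S₁ * x.1)) := by
        rw [Finset.disjoint_right]
        intro p hp hpS
        exact hout _ p ((mem_pd hxD.1 hxD.2).mp hp) (hS01 hpS)
      have hdg : dg (pd N (1 + pr S₁ * x.1)) = N := by rw [← pr_deg, hg, hxD.2]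
      refine ⟨⟨hdisj, hdg⟩, ?_⟩
      apply tw_add hdisj hm hν hν1 ha₁ hxw.1 (by rw [hdg, hxw.2])
      intro p hp h
      exact hx.2 ⟨p, Or.inr ⟨(mem_pd hxD.1 hxD.2).mp hp, h⟩⟩
    · intro x hx y hy h
      rw [Finset.mem_coe] at hx hy
      have hgx := hgood x hx
      have hgy := hgood y hy
      simp only [Sigma.mk.injEq, heq_eq_eq] at h
      obtain ⟨h1, h2⟩ := h
      have h3 : 1 + pr S₁ * x.1 = 1 + pr S₁ * y.1 := by rw [← hgx, ← hgy, h1]
      have h4 : x.1 = y.1 := mul_left_cancel₀ (pr_ne S₁) (add_left_cancel h3)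
      rw [h1] at h2
      have h5 := add_right_cancel h2
      rw [div_left_inj' (pr_map_ne _)] at h5
      exact Prod.ext h4 (IsFractionRing.injective k[X] (RatFunc k) h5)
  rw [Finset.card_sigma] at hinj
  have h1 : ((P.filter (fun x => ¬ Q x)).card : ℝ) ≤ ∑ T ∈ FT S₀ N, ((TW (S₀ ∪ T) m ν).card : ℝ) := by
    exact_mod_cast hinj
  linarith

theorem sq_le_two_pow {M : ℕ} (h : 4 ≤ M) : M * M ≤ 2 ^ M := by
  induction M, h using Nat.le_induction with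
  | base => norm_num
  | succ M hM ih =>
    rw [pow_succ]
    nlinarith

open scoped Classical in
/-- **The number of the twists.** -/
theorem low_bound (S₀ : Finset (HeightOneSpectrum k[X])) {m : ℕ}
    {ν : HeightOneSpectrum k[X] → ℕ} (hm : 0 < m)
    (hν : ∀ p, 0 < ν p) (hν1 : ∀ p, p ∉ S₀ → ν p = 1) :
    ∃ c : ℝ, 0 < c ∧ ∃ N₀ : ℕ, ∀ N, N₀ ≤ N → c * ((Nat.card k : ℝ) ^ N) ^ 2
      ≤ ∑ T ∈ FT S₀ N, ((TW (S₀ ∪ T) m ν).card : ℝ) := by
  classical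
  have hq := qpos (k := k)
  have hq2 := two_le_q (k := k)
  have hq1 : (1 : ℝ) ≤ Nat.card k := by linarith
  set S₁ := S₀ ∪ PL k 2 with hS₁
  set ρ := dg S₁ with hρ
  have hcN : (0 : ℝ) < (Nat.card k : ℝ) ^ ρ := by positivity
  refine ⟨(4 * (Nat.card k : ℝ) ^ ρ)⁻¹, by positivity, 48 * Nat.card k ^ ρ + ρ + 8, fun N hN => ?_⟩
  set M := N / 2 with hM
  have h1 := low_count (S₀ := S₀) (S₁ := S₁) Finset.subset_union_left
    (fun p hp => Finset.mem_union_right _ (mem_PL.mpr hp)) (n := N - ρ) (N := N) hm hν hν1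
    (by omega) (by omega)
  refine le_trans ?_ h1
  have hM4 : 4 ≤ M := by omega
  have hMρ : 24 * Nat.card k ^ ρ ≤ M := by omega
  have h2 : (24 * (Nat.card k : ℝ) ^ ρ) * M ≤ 2 ^ M := by
    have h3 := (Nat.mul_le_mul_right M hMρ).trans (sq_le_two_pow hM4)
    exact_mod_cast h3
  have h3 : (2 : ℝ) ^ M ≤ (Nat.card k : ℝ) ^ M := pow_le_pow_left₀ (by norm_num) hq2 M
  have h4 : (N : ℝ) ≤ 3 * M := by exact_mod_cast (by omega : N ≤ 3 * M)
  have h5 : (Nat.card k : ℝ) ^ N = (Nat.card k : ℝ) ^ (N - ρ) * (Nat.card k : ℝ) ^ ρ := by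
    rw [← pow_add]; congr 1; omega
  have h6 : (Nat.card k : ℝ) ^ M * (Nat.card k : ℝ) ^ M ≤ (Nat.card k : ℝ) ^ N := by
    rw [← pow_add]
    exact pow_le_pow_right₀ hq1 (by omega)
  have hQM : (1 : ℝ) ≤ (Nat.card k : ℝ) ^ M := one_le_pow₀ hq1
  -- `8 q ^ ρ N q ^ M ≤ q ^ N`
  have h7 : 8 * (Nat.card k : ℝ) ^ ρ * (N * (Nat.card k : ℝ) ^ M)
      ≤ (Nat.card k : ℝ) ^ (N - ρ) * (Nat.card k : ℝ) ^ ρ := by
    rw [← h5]
    calc 8 * (Nat.card k : ℝ) ^ ρ * (N * (Nat.card k : ℝ) ^ M)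
        ≤ 8 * (Nat.card k : ℝ) ^ ρ * ((3 * M) * (Nat.card k : ℝ) ^ M) := by gcongr
      _ = (24 * (Nat.card k : ℝ) ^ ρ * M) * (Nat.card k : ℝ) ^ M := by ring
      _ ≤ (Nat.card k : ℝ) ^ M * (Nat.card k : ℝ) ^ M :=
        mul_le_mul_of_nonneg_right (h2.trans h3) (by positivity)
      _ ≤ _ := h6
  have h8 : 8 * (N * (Nat.card k : ℝ) ^ M) ≤ (Nat.card k : ℝ) ^ (N - ρ) := by
    have h9 : (Nat.card k : ℝ) ^ ρ * (8 * (N * (Nat.card k : ℝ) ^ M))
        ≤ (Nat.card k : ℝ) ^ ρ * (Nat.card k : ℝ) ^ (N - ρ) := by linarith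
    exact le_of_mul_le_mul_left h9 hcN
  have h9 : (N : ℝ) ≤ N * (Nat.card k : ℝ) ^ M := by
    have : (0 : ℝ) ≤ N := Nat.cast_nonneg _
    nlinarith
  have h10 : (4 * (Nat.card k : ℝ) ^ ρ)⁻¹ * ((Nat.card k : ℝ) ^ N) ^ 2
      = (Nat.card k : ℝ) ^ (N - ρ) / 4 * (Nat.card k : ℝ) ^ N := by
    rw [pow_two]
    nth_rewrite 1 [h5]
    field_simp
  rw [h10]
  have h11 : (0 : ℝ) < (Nat.card k : ℝ) ^ N := by positivity
  have h12 : (Nat.card k : ℝ) ^ (N - ρ) / 4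
      ≤ (Nat.card k : ℝ) ^ (N - ρ) / 2 - N * (Nat.card k : ℝ) ^ M - N := by linarith
  calc _ ≤ ((Nat.card k : ℝ) ^ (N - ρ) / 2 - N * (Nat.card k : ℝ) ^ M - N)
        * (Nat.card k : ℝ) ^ N := mul_le_mul_of_nonneg_right h12 h11.le
    _ = _ := by ring

end Pool.Agent.H2
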