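import Mathlib

/-!
# Completing independent vectors over the field with two elements
-/

namespace Pool.Agent.H2

open Module

section Complete

variable {V : Type*} [AddCommGroup V] [Module (ZMod 2) V] [Finite V]

/-- the proportion of the invertible matrices -/
noncomputable def PP (N : ℕ) : ℝ := ∏ i ∈ Finset.range N, (1 - 1 / 2 ^ (i + 1))

theorem PP_succ (N : ℕ) : PP (N + 1) = PP N * (1 - 1 / 2 ^ (N + 1)) :=
  Finset.prod_range_succ _ _

theorem PP_pos (N : ℕ) : 0 < PP N := by
  induction N with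
  | zero => simp [PP]
  | succ N ih =>
    rw [PP_succ]
    apply mul_pos ih
    rw [sub_pos, div_lt_one (by positivity)]
    exact one_lt_pow₀ (by norm_num) (by omega)

theorem PP_anti : Antitone PP := by
  apply antitone_nat_of_succ_le
  intro N
  rw [PP_succ]
  have h1 : (0 : ℝ) < 1 / 2 ^ (N + 1) := by positivity
  have h2 := PP_pos N
  nlinarith

theorem PP_ge (N : ℕ) : 2887 / 10000 ≤ PP N := by
  have hbig : ∀ N, 2887 / 10000 + 29 / 100 / 2 ^ (N + 12) ≤ PP (N + 12) := by
    intro N
    induction N with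
    | zero =>
      simp only [PP]
      norm_num [Finset.prod_range_succ]
    | succ N ih =>
      have h1 := PP_succ (N + 12)
      have h2 : N + 1 + 12 = N + 12 + 1 := by ring
      rw [h2, h1]
      set x : ℝ := 1 / 2 ^ (N + 12) with hx
      have hx0 : 0 < x := by positivity
      have hx1 : x ≤ 1 / 4096 := by
        rw [hx]
        apply one_div_le_one_div_of_le (by norm_num)
        calc (4096 : ℝ) = 2 ^ 12 := by norm_num
          _ ≤ 2 ^ (N + 12) := pow_le_pow_right₀ (by norm_num) (by omega)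
      have e1 : (29 : ℝ) / 100 / 2 ^ (N + 12) = 29 / 100 * x := by rw [hx]; ring
      have e2 : (29 : ℝ) / 100 / 2 ^ (N + 12 + 1) = 29 / 200 * x := by rw [hx, pow_succ]; ring
      have e3 : (1 : ℝ) / 2 ^ (N + 12 + 1) = x / 2 := by rw [hx, pow_succ]; ring
      rw [e2, e3]
      rw [e1] at ih
      nlinarith
  by_cases hN : 12 ≤ N
  · obtain ⟨M, rfl⟩ := Nat.exists_eq_add_of_le hN
    have h1 := hbig M
    have h2 : (0 : ℝ) ≤ 29 / 100 / 2 ^ (M + 12) := by positivity
    rw [add_comm 12 M]
    linarith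
  · have h1 : PP 12 ≤ PP N := PP_anti (by omega)
    have h2 := hbig 0
    rw [zero_add] at h2
    have h4 : (2887 : ℝ) / 10000 ≤ PP 12 := le_trans (by norm_num) h2
    exact h4.trans h1

theorem finrank_sup_one {W : Submodule (ZMod 2) V} {v : V} (hv : v ∉ W) :
    finrank (ZMod 2) (W ⊔ Submodule.span (ZMod 2) {v} : Submodule (ZMod 2) V)
      = finrank (ZMod 2) W + 1 := by
  have h1 := Submodule.finrank_sup_add_finrank_inf_eq W (Submodule.span (ZMod 2) {v})
  have hv0 : v ≠ 0 := by rintro rfl; exact hv W.zero_mem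
  have h2 : W ⊓ Submodule.span (ZMod 2) {v} = ⊥ := by
    rw [eq_bot_iff]
    rintro x ⟨hx1, hx2⟩
    obtain ⟨c, rfl⟩ := Submodule.mem_span_singleton.mp hx2
    have hc : ∀ c : ZMod 2, c = 0 ∨ c = 1 := by decide
    rcases hc c with rfl | rfl
    · rw [zero_smul]; exact Submodule.zero_mem _
    · rw [one_smul] at hx1; exact absurd hx1 hv
  rw [h2, finrank_bot, add_zero, finrank_span_singleton hv0] at h1
  exact h1

open scoped Classical in
theorem card_complete (d : ℕ) : ∀ W : Submodule (ZMod 2) V,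
    finrank (ZMod 2) W + d = finrank (ZMod 2) V →
    (Nat.card V : ℝ) ^ d * PP d ≤
      (Nat.card {C : Fin d → V // W ⊔ Submodule.span (ZMod 2) (Set.range C) = ⊤} : ℝ) := by
  have := Fintype.ofFinite V
  induction d with
  | zero =>
    intro W hW
    rw [add_zero] at hW
    have h1 : W = ⊤ := Submodule.eq_top_of_finrank_eq hW
    have h2 : Nonempty {C : Fin 0 → V // W ⊔ Submodule.span (ZMod 2) (Set.range C) = ⊤} :=
      ⟨⟨Fin.elim0, by rw [h1, top_sup_eq]⟩⟩
    have h3 : 0 < Nat.card {C : Fin 0 → V // W ⊔ Submodule.span (ZMod 2) (Set.range C) = ⊤} :=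
      Nat.card_pos
    have h4 : (1 : ℝ) ≤
        (Nat.card {C : Fin 0 → V // W ⊔ Submodule.span (ZMod 2) (Set.range C) = ⊤} : ℝ) := by
      exact_mod_cast h3
    simpa [PP] using h4
  | succ d ih =>
    intro W hW
    have h1 : Nat.card (Σ v : {v : V // v ∉ W}, {C : Fin d → V //
        (W ⊔ Submodule.span (ZMod 2) {v.1}) ⊔ Submodule.span (ZMod 2) (Set.range C) = ⊤}) ≤
        Nat.card {C : Fin (d + 1) → V // W ⊔ Submodule.span (ZMod 2) (Set.range C) = ⊤} := by
      apply Nat.card_le_card_of_injective (fun x => ⟨Fin.cons x.1.1 x.2.1, by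
        rw [Fin.range_cons, Submodule.span_insert, ← sup_assoc]; exact x.2.2⟩)
      rintro ⟨⟨v, hv⟩, C, hC⟩ ⟨⟨v', hv'⟩, C', hC'⟩ h
      simp only [Subtype.mk.injEq] at h
      obtain ⟨h2, h3⟩ := Fin.cons_inj.mp h
      subst h2
      subst h3
      rfl
    have h2 : (Nat.card {v : V // v ∉ W} : ℝ) = Nat.card V * (1 - 1 / 2 ^ (d + 1)) := by
      have h3 : Nat.card {v : V // v ∉ W} + Nat.card W = Nat.card V := by
        have h4 := Nat.card_congr (Equiv.sumCompl (fun v : V => v ∈ W))
        rw [Nat.card_sum] at h4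
        rw [← h4, add_comm]
      have h5 : Nat.card V = Nat.card W * 2 ^ (d + 1) := by
        rw [Module.natCard_eq_pow_finrank (K := ZMod 2) (V := V),
          Module.natCard_eq_pow_finrank (K := ZMod 2) (V := W), Nat.card_zmod, ← pow_add, hW]
      have h6 : (Nat.card V : ℝ) = Nat.card W * 2 ^ (d + 1) := by exact_mod_cast h5
      have h7 : (Nat.card {v : V // v ∉ W} : ℝ) + Nat.card W = Nat.card V := by exact_mod_cast h3
      have h8 : (Nat.card V : ℝ) * (1 - 1 / 2 ^ (d + 1)) = Nat.card V - Nat.card W := by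
        rw [mul_sub, mul_one, h6]
        field_simp
      rw [h8]; linarith
    rw [Nat.card_sigma] at h1
    have h3 : (Nat.card {v : V // v ∉ W} : ℝ) * ((Nat.card V : ℝ) ^ d * PP d) ≤
        ((∑ v : {v : V // v ∉ W}, Nat.card {C : Fin d → V //
        (W ⊔ Submodule.span (ZMod 2) {v.1}) ⊔ Submodule.span (ZMod 2) (Set.range C) = ⊤} : ℕ) : ℝ) := by
      push_cast
      rw [Nat.card_eq_fintype_card, ← Finset.card_univ, ← nsmul_eq_mul, ← Finset.sum_const]
      apply Finset.sum_le_sum
      intro v _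
      apply ih
      rw [finrank_sup_one v.2]
      omega
    have h4 : (Nat.card V : ℝ) ^ (d + 1) * PP (d + 1)
        = (Nat.card {v : V // v ∉ W} : ℝ) * ((Nat.card V : ℝ) ^ d * PP d) := by
      rw [h2, PP_succ, pow_succ]; ring
    rw [h4]
    exact h3.trans (by exact_mod_cast h1)

end Complete

section Matrix

variable {ι : Type*} [Fintype ι] [DecidableEq ι]

theorem mat_inj {M : Matrix ι ι (ZMod 2)} {p₀ : ι}
    (h : Submodule.span (ZMod 2) (insert (M.mulVec 1) {c | ∃ p, p ≠ p₀ ∧ c = M.col p}) = ⊤) :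
    (∀ x, Matrix.mulVec M x = 0 → x = 0) ∧ (∀ x, Matrix.vecMul x M = 0 → x = 0) := by
  have h1 : LinearMap.range M.mulVecLin = ⊤ := by
    rw [eq_top_iff, ← h, Submodule.span_le]
    rintro c (rfl | ⟨p, -, rfl⟩)
    · exact ⟨1, rfl⟩
    · exact ⟨Pi.single p 1, by rw [Matrix.mulVecLin_apply, Matrix.mulVec_single_one]⟩
  have hs : Function.Surjective M.mulVecLin := LinearMap.range_eq_top.mp h1
  have hi : Function.Injective M.mulVecLin := LinearMap.injective_iff_surjective.mpr hs
  refine ⟨fun x hx => hi (by rw [map_zero]; exact hx), fun x hx => ?_⟩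
  funext i
  obtain ⟨y, hy⟩ := hs (Pi.single i 1)
  rw [Matrix.mulVecLin_apply] at hy
  have h2 : x ⬝ᵥ (M.mulVec y) = 0 := by
    rw [Matrix.dotProduct_mulVec, hx, zero_dotProduct]
  rw [hy, dotProduct_single, mul_one] at h2
  exact h2

end Matrix

end Pool.Agent.H2
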