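import Pool.Agent.H2.VSmooth

/-!
# The good twists for a given set of places
-/

namespace Pool.Agent.H2

open Polynomial IsDedekindDomain

universe u

variable {k : Type u} [Field k] [Finite k] [CharP k 2]

open scoped Classical in
/-- the functions with exact poles at the small places, and at most simple poles at the large
places of `T` -/
noncomputable def AA (S₀ T : Finset (HeightOneSpectrum k[X])) (ℓ m : ℕ)
    (ν : HeightOneSpectrum k[X] → ℕ) : Finset (RatFunc k) :=
  (BF (S₀ ∪ T) m ν).filter (fun a => infAbv k a = 2 ^ m ∧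
    ∀ p ∈ S₀ ∪ T, (p ∈ S₀ ∨ dp p ≤ ℓ) → finAbv p a = 2 ^ ν p)

open scoped Classical in
/-- the twists as a finite set -/
noncomputable def TW (S : Finset (HeightOneSpectrum k[X])) (m : ℕ)
    (ν : HeightOneSpectrum k[X] → ℕ) : Finset (RatFunc k) :=
  (BF S m ν).filter (fun a => a ∈ twists S m ν)

theorem mem_TW {S : Finset (HeightOneSpectrum k[X])} {m : ℕ} {ν : HeightOneSpectrum k[X] → ℕ}
    {a : RatFunc k} : a ∈ TW S m ν ↔ a ∈ twists S m ν := by
  classical
  unfold TW
  rw [Finset.mem_filter, mem_BF]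
  constructor
  · exact fun h => h.2
  · intro h
    exact ⟨⟨h.1.le, fun p hp => (h.2.1 p hp).le, h.2.2⟩, h⟩

open scoped Classical in
/-- the large places -/
noncomputable def lar (ℓ : ℕ) (T : Finset (HeightOneSpectrum k[X])) :
    Finset (HeightOneSpectrum k[X]) := T.filter (fun p => ℓ < dp p)

open scoped Classical in
/-- the small places -/
noncomputable def sml (ℓ : ℕ) (T : Finset (HeightOneSpectrum k[X])) :
    Finset (HeightOneSpectrum k[X]) := T.filter (fun p => dp p ≤ ℓ)

theorem mem_lar {ℓ : ℕ} {T : Finset (HeightOneSpectrum k[X])} {p : HeightOneSpectrum k[X]} :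
    p ∈ lar ℓ T ↔ p ∈ T ∧ ℓ < dp p := by unfold lar; rw [Finset.mem_filter]

theorem mem_sml {ℓ : ℕ} {T : Finset (HeightOneSpectrum k[X])} {p : HeightOneSpectrum k[X]} :
    p ∈ sml ℓ T ↔ p ∈ T ∧ dp p ≤ ℓ := by unfold sml; rw [Finset.mem_filter]

section Per

variable {S₀ T : Finset (HeightOneSpectrum k[X])} {ℓ m : ℕ} {ν : HeightOneSpectrum k[X] → ℕ}

theorem AA_add (hm : 0 < m) (hν : ∀ p, 0 < ν p) (hST : Disjoint S₀ T) {a u : RatFunc k}
    (ha : a ∈ AA S₀ T ℓ m ν) (hu : u ∈ UU (lar ℓ T)) : a + u ∈ AA S₀ T ℓ m ν := by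
  classical
  unfold AA at ha ⊢
  rw [Finset.mem_filter, mem_BF] at ha ⊢
  obtain ⟨⟨h1, h2, h3⟩, h4, h5⟩ := ha
  have hm2 : (1 : ℝ) < 2 ^ m := one_lt_pow₀ (by norm_num) hm.ne'
  have hν2 : ∀ p, (1 : ℝ) < 2 ^ ν p := fun p => one_lt_pow₀ (by norm_num) (hν p).ne'
  have h6 : infAbv k (a + u) = 2 ^ m := by
    rw [add_comm, infAbv_add_of_lt (by rw [h4]; linarith [hu.1]), h4]
  refine ⟨⟨h6.le, fun p hp => ?_, fun p hp => ?_⟩, h6, fun p hp hp' => ?_⟩
  · refine (finAbv_nonarch p _ _).trans (max_le (h2 p hp) ?_)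
    by_cases hpl : p ∈ lar ℓ T
    · refine (hu.2.1 p hpl).trans ?_
      calc (2 : ℝ) = 2 ^ 1 := (pow_one 2).symm
        _ ≤ 2 ^ ν p := pow_le_pow_right₀ (by norm_num) (hν p)
    · exact (hu.2.2 p hpl).trans (hν2 p).le
  · refine (finAbv_nonarch p _ _).trans (max_le (h3 p hp) ?_)
    apply hu.2.2 p
    intro hpl
    exact hp (Finset.mem_union_right _ (mem_lar.mp hpl).1)
  · have hpl : p ∉ lar ℓ T := by
      intro hpl
      rw [mem_lar] at hpl
      rcases hp' with h7 | h7
      · exact Finset.disjoint_left.mp hST h7 hpl.1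
      · omega
    have h7 := h5 p hp hp'
    rw [add_comm, finAbv_add_of_lt (by rw [h7]; linarith [hu.2.2 p hpl, hν2 p]), h7]

open scoped Classical in
/-- **The proportion for a given set of places.** -/
theorem per_T (hm : 0 < m) (hν : ∀ p, 0 < ν p) (hST : Disjoint S₀ T)
    (hG : ∀ p ∈ lar ℓ T, Gen p ((S₀ ∪ T).erase p)) :
    2887 / 10000 * (((AA S₀ T ℓ m ν).filter (fun a => Ind (S₀ ∪ T) (lar ℓ T) a)).card : ℝ)
      ≤ ((AA S₀ T ℓ m ν).filter (fun a => GoodM (S₀ ∪ T) a)).card := by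
  classical
  set A := AA S₀ T ℓ m ν with hA
  set Λ := lar ℓ T with hΛ
  have hΛS : Λ ⊆ S₀ ∪ T := fun p hp => Finset.mem_union_right _ (mem_lar.mp hp).1
  by_cases hne : Λ.Nonempty
  · obtain ⟨p₀, hp₀⟩ := hne
    have : Fintype (UU Λ) := Fintype.ofFinite _
    set U := Nat.card (UU Λ) with hU
    have hUpos : (0 : ℝ) < U := by rw [hU]; exact_mod_cast Nat.card_pos
    have h1 : (U : ℝ) * ((A.filter (fun a => GoodM (S₀ ∪ T) a)).card : ℝ)
        = ∑ a ∈ A, (Nat.card {u : UU Λ // GoodM (S₀ ∪ T) (a + u.1)} : ℝ) := by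
      have h2 : ∀ a, (Nat.card {u : UU Λ // GoodM (S₀ ∪ T) (a + u.1)} : ℝ)
          = ∑ u : UU Λ, if GoodM (S₀ ∪ T) (a + u.1) then (1 : ℝ) else 0 := by
        intro a
        rw [Finset.sum_boole, Nat.card_eq_fintype_card, Fintype.card_subtype]
      rw [Finset.sum_congr rfl fun a _ => h2 a, Finset.sum_comm]
      have h3 : ∀ u : UU Λ, ∑ a ∈ A, (if GoodM (S₀ ∪ T) (a + u.1) then (1 : ℝ) else 0)
          = ((A.filter (fun a => GoodM (S₀ ∪ T) a)).card : ℝ) := by
        intro u
        have h4 : ∑ a ∈ A, (if GoodM (S₀ ∪ T) (a + u.1) then (1 : ℝ) else 0)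
            = ∑ a ∈ A, (if GoodM (S₀ ∪ T) a then (1 : ℝ) else 0) := by
          apply Finset.sum_nbij' (fun a => a + u.1) (fun a => a - u.1)
          · intro a ha; exact AA_add hm hν hST ha u.2
          · intro a ha
            rw [sub_eq_add_neg]
            exact AA_add hm hν hST ha ((UU Λ).neg_mem u.2)
          · intro a _; ring
          · intro a _; ring
          · intro a _; rfl
        rw [h4, Finset.sum_boole]
      rw [Finset.sum_congr rfl fun u _ => h3 u, Finset.sum_const, nsmul_eq_mul, Finset.card_univ,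
        ← Nat.card_eq_fintype_card]
    have h2 : (U : ℝ) * (2887 / 10000 * ((A.filter (fun a => Ind (S₀ ∪ T) Λ a)).card : ℝ))
        ≤ ∑ a ∈ A, (Nat.card {u : UU Λ // GoodM (S₀ ∪ T) (a + u.1)} : ℝ) := by
      calc (U : ℝ) * (2887 / 10000 * ((A.filter (fun a => Ind (S₀ ∪ T) Λ a)).card : ℝ))
          = ∑ a ∈ A.filter (fun a => Ind (S₀ ∪ T) Λ a), 2887 / 10000 * (U : ℝ) := by
            rw [Finset.sum_const, nsmul_eq_mul]; ring
        _ ≤ ∑ a ∈ A.filter (fun a => Ind (S₀ ∪ T) Λ a),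
            (Nat.card {u : UU Λ // GoodM (S₀ ∪ T) (a + u.1)} : ℝ) := by
            apply Finset.sum_le_sum
            intro a ha
            apply card_goodM hΛS ⟨p₀, hΛS hp₀⟩ hp₀ _ (Finset.mem_filter.mp ha).2
            intro inst p hp
            have hinst : inst = fun x y => Classical.propDecidable (x = y) := by
              funext x y
              exact Subsingleton.elim _ _
            subst hinst
            exact hG p hp
        _ ≤ _ := by
            apply Finset.sum_le_sum_of_subset_of_nonneg (Finset.filter_subset _ _)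
            intro a _ _
            positivity
    rw [← h1] at h2
    exact le_of_mul_le_mul_left h2 hUpos
  · rw [Finset.not_nonempty_iff_eq_empty] at hne
    have h1 : A.filter (fun a => Ind (S₀ ∪ T) Λ a) = ∅ := by
      rw [Finset.filter_eq_empty_iff]
      intro a _ hI
      obtain ⟨q, hq, -⟩ := hI 1 ∅ (Finset.empty_subset _) (Finset.disjoint_empty_left _)
        (Or.inl one_ne_zero)
      rw [hne] at hq
      exact absurd hq (Finset.notMem_empty _)
    rw [h1, Finset.card_empty, Nat.cast_zero, mul_zero]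
    positivity

end Per

end Pool.Agent.H2
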