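import Pool.Agent.H2.VTot2

/-!
# Reduced representatives
-/

set_option linter.unusedSectionVars false

namespace Pool.Agent.H2

open Polynomial IsDedekindDomain

universe u

variable {k : Type u} [Field k] [Finite k] [CharP k 2]

theorem sqrt_mod (p : HeightOneSpectrum k[X]) (f : k[X]) :
    ∃ h : k[X], h.degree < (gQ p).degree ∧ gQ p ∣ f + h ^ 2 := by
  have : Fintype k := Fintype.ofFinite k
  have hirr : Fact (Irreducible (gQ p)) := ⟨gQ_irr p⟩
  set F := AdjoinRoot (gQ p) with hF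
  have h1 : Module.Finite k F := (AdjoinRoot.powerBasis (gQ_irr p).ne_zero).finite
  have h2 : Finite F := Module.finite_of_finite k
  have h3 : CharP F 2 := charP_of_injective_algebraMap (algebraMap k F).injective 2
  obtain ⟨y, hy⟩ := FiniteField.isSquare_of_char_two (ringChar.eq F 2).symm.symm
    (AdjoinRoot.mk (gQ p) f)
  obtain ⟨g, rfl⟩ := AdjoinRoot.mk_surjective y
  refine ⟨g %ₘ gQ p, degree_modByMonic_lt g (gQ_monic p), ?_⟩
  have h4 : AdjoinRoot.mk (gQ p) (g %ₘ gQ p) = AdjoinRoot.mk (gQ p) g := by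
    conv_rhs => rw [← modByMonic_add_div g (gQ p)]
    rw [map_add, map_mul, AdjoinRoot.mk_self, zero_mul, add_zero]
  rw [← AdjoinRoot.mk_eq_zero, map_add, map_pow, h4, hy, pow_two]
  exact CharTwo.add_self_eq_zero _

theorem fin_reduce {p : HeightOneSpectrum k[X]} {a : RatFunc k} {j : ℕ} (hj : 0 < j)
    (ha : finAbv p a = 2 ^ (2 * j)) :
    ∃ z : RatFunc k, finAbv p (a + z ^ 2) < 2 ^ (2 * j) ∧ finAbv p z ≤ 2 ^ j ∧
      (∀ r, r ≠ p → finAbv r z ≤ 1) ∧ infAbv k z ≤ 1 := by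
  set Q := algebraMap k[X] (RatFunc k) (gQ p) with hQ
  have hQ0 : Q ≠ 0 := by
    rw [hQ, Ne, FaithfulSMul.algebraMap_eq_zero_iff]; exact (gQ_irr p).ne_zero
  have hQp : finAbv p Q = 2⁻¹ := finAbv_gQ p
  have hu : finAbv p (a * Q ^ (2 * j)) ≤ 1 := by
    rw [map_mul, map_pow, ha, hQp, ← mul_pow, mul_inv_cancel₀ (by norm_num), one_pow]
  obtain ⟨f, hf⟩ := poly_approx p hu
  obtain ⟨h, hh1, hh2⟩ := sqrt_mod p f
  have h1 : finAbv p (algebraMap k[X] (RatFunc k) (f + h ^ 2)) < 1 := by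
    rw [finAbv_lt_one, gQ_span, Ideal.mem_span_singleton]; exact hh2
  have h2 : finAbv p (a * Q ^ (2 * j) + algebraMap k[X] (RatFunc k) h ^ 2) < 1 := by
    have e : a * Q ^ (2 * j) + algebraMap k[X] (RatFunc k) h ^ 2
        = (a * Q ^ (2 * j) - algebraMap k[X] (RatFunc k) f)
          + algebraMap k[X] (RatFunc k) (f + h ^ 2) := by
      rw [map_add, map_pow]; ring
    rw [e]
    exact lt_of_le_of_lt (finAbv_nonarch p _ _) (max_lt hf h1)
  refine ⟨algebraMap k[X] (RatFunc k) h / Q ^ j, ?_, ?_, fun r hr => ?_, ?_⟩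
  · have e : a + (algebraMap k[X] (RatFunc k) h / Q ^ j) ^ 2
        = (a * Q ^ (2 * j) + algebraMap k[X] (RatFunc k) h ^ 2) / Q ^ (2 * j) := by
      rw [div_pow, ← pow_mul, mul_comm j 2]
      field_simp
    rw [e, map_div₀, map_pow, hQp, inv_pow, div_inv_eq_mul]
    have : (0 : ℝ) < 2 ^ (2 * j) := by positivity
    nlinarith
  · rw [map_div₀, map_pow, hQp, inv_pow, div_inv_eq_mul]
    have h3 := finAbv_poly p h
    have : (0 : ℝ) < 2 ^ j := by positivity
    nlinarith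
  · rw [map_div₀, map_pow, hQ, finAbv_gen (gQ_span p) hr, one_pow, div_one]
    exact finAbv_poly r h
  · by_cases h0 : h = 0
    · rw [h0, map_zero, zero_div, map_zero]; exact zero_le_one
    · rw [map_div₀, map_pow, hQ, infAbv_poly h0, infAbv_poly (gQ_irr p).ne_zero]
      rw [div_le_one (by positivity), ← zpow_natCast, ← zpow_mul]
      apply zpow_le_zpow_right₀ (by norm_num)
      have h3 := natDegree_lt_natDegree h0 hh1
      have h4 : (gQ p).natDegree ≤ (gQ p).natDegree * j := Nat.le_mul_of_pos_right _ hj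
      exact_mod_cast (by omega : h.natDegree ≤ (gQ p).natDegree * j)

theorem inf_reduce {a : RatFunc k} {j : ℕ} (ha : infAbv k a = 2 ^ (2 * j)) :
    ∃ z : RatFunc k, infAbv k (a + z ^ 2) < 2 ^ (2 * j) ∧ infAbv k z ≤ 2 ^ j ∧
      ∀ r, finAbv r z ≤ 1 := by
  set Q : RatFunc k := RatFunc.X with hQ
  have hQ0 : Q ≠ 0 := RatFunc.X_ne_zero
  have hQp : infAbv k Q = 2 := infAbv_X
  have hu : infAbv k (a / Q ^ (2 * j)) ≤ 1 := by
    rw [map_div₀, map_pow, ha, hQp, div_self (by positivity)]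
  obtain ⟨f, hf⟩ := approx_rat (a / Q ^ (2 * j))
  have h2 : infAbv k (algebraMap k[X] (RatFunc k) f) ≤ 1 := by
    have e : algebraMap k[X] (RatFunc k) f
        = a / Q ^ (2 * j) - (a / Q ^ (2 * j) - algebraMap k[X] (RatFunc k) f) := by ring
    rw [e]
    exact (inf_sub _ _).trans (max_le hu hf.le)
  have h3 : f.natDegree = 0 := by
    by_contra h0
    have hq0 : f ≠ 0 := by rintro rfl; exact h0 natDegree_zero
    rw [infAbv_poly hq0] at h2
    have := one_lt_zpow₀ (by norm_num : (1 : ℝ) < 2) (show (0 : ℤ) < f.natDegree by omega)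
    linarith
  obtain ⟨c, rfl⟩ := natDegree_eq_zero.mp h3
  obtain ⟨d, rfl⟩ := FiniteField.isSquare_of_char_two (ringChar.eq k 2).symm.symm c
  set D := algebraMap k[X] (RatFunc k) (C d) with hD
  have hD1 : infAbv k D ≤ 1 := by
    have := infAbv_le (k := k) (f := C d) (n := 0) (by rw [natDegree_C])
    rwa [zpow_natCast, pow_zero] at this
  have hDr : ∀ r, finAbv r D ≤ 1 := fun r => finAbv_poly r _
  have hXr : ∀ r, finAbv r Q ≤ 1 := fun r => finAbv_X_le r
  refine ⟨D * Q ^ j, ?_, ?_, fun r => ?_⟩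
  · have e : a + (D * Q ^ j) ^ 2
        = (a / Q ^ (2 * j) - algebraMap k[X] (RatFunc k) (C (d * d))) * Q ^ (2 * j) := by
      have h4 : algebraMap k[X] (RatFunc k) (C (d * d)) = D ^ 2 := by
        rw [C_mul, map_mul, pow_two]
      have h5 : (2 : RatFunc k) = 0 := CharTwo.two_eq_zero
      rw [h4, mul_pow, ← pow_mul, mul_comm j 2]
      field_simp
      linear_combination D ^ 2 * Q ^ (2 * j) * h5
    rw [e, map_mul, map_pow, hQp]
    have : (0 : ℝ) < 2 ^ (2 * j) := by positivity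
    nlinarith
  · rw [map_mul, map_pow, hQp]
    have : (0 : ℝ) < 2 ^ j := by positivity
    nlinarith
  · rw [map_mul, map_pow]
    exact mul_le_one₀ (hDr r) (by positivity) (pow_le_one₀ ((finAbv r).nonneg _) (hXr r))

theorem fin_pred {p : HeightOneSpectrum k[X]} {x : RatFunc k} {m : ℕ} (hm : 0 < m)
    (h : finAbv p x < 2 ^ m) : finAbv p x ≤ 2 ^ (m - 1) := by
  by_cases h0 : x = 0
  · rw [h0, map_zero]; positivity
  obtain ⟨n, hn⟩ := finAbv_disc p x h0
  rw [hn, ← zpow_natCast] at h ⊢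
  have h1 := (zpow_lt_zpow_iff_right₀ (by norm_num : (1 : ℝ) < 2)).mp h
  exact zpow_le_zpow_right₀ (by norm_num) (by omega)

theorem inf_pred {x : RatFunc k} {m : ℕ} (hm : 0 < m)
    (h : infAbv k x < 2 ^ m) : infAbv k x ≤ 2 ^ (m - 1) := by
  by_cases h0 : x = 0
  · rw [h0, map_zero]; positivity
  rw [infAbv_apply h0, ← zpow_natCast] at h ⊢
  have h1 := (zpow_lt_zpow_iff_right₀ (by norm_num : (1 : ℝ) < 2)).mp h
  exact zpow_le_zpow_right₀ (by norm_num) (by omega)

end Pool.Agent.H2
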