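import Pool.Agent.H2.VRed

/-!
# Reduced representatives, II
-/

set_option linter.unusedSectionVars false

namespace Pool.Agent.H2

open Polynomial IsDedekindDomain

universe u

variable {k : Type u} [Field k] [Finite k] [CharP k 2]

theorem wt_pred {e : HeightOneSpectrum k[X] →₀ ℕ} {p : HeightOneSpectrum k[X]} (h : 0 < e p) :
    wt (e - Finsupp.single p 1) < wt e := by
  classical
  have h1 : e - Finsupp.single p 1 + Finsupp.single p 1 = e := by
    apply tsub_add_cancel_of_le
    rw [Finsupp.single_le_iff]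
    omega
  have h2 := wt_add (e - Finsupp.single p 1) (Finsupp.single p 1)
  rw [h1] at h2
  have h3 : wt (Finsupp.single p 1) = dp p := by
    have h4 : wt (Finsupp.single p 1) = (Finsupp.single p 1).sum fun p j => j * dp p := rfl
    rw [h4, Finsupp.sum_single_index (by rw [Nat.zero_mul]), one_mul]
  have := dp_pos p
  omega

theorem pred_self (e : HeightOneSpectrum k[X] →₀ ℕ) (p : HeightOneSpectrum k[X]) :
    (e - Finsupp.single p 1 : HeightOneSpectrum k[X] →₀ ℕ) p = e p - 1 := by
  classical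
  rw [Finsupp.tsub_apply, Finsupp.single_eq_same]

theorem pred_ne (e : HeightOneSpectrum k[X] →₀ ℕ) {p r : HeightOneSpectrum k[X]} (h : r ≠ p) :
    (e - Finsupp.single p 1 : HeightOneSpectrum k[X] →₀ ℕ) r = e r := by
  classical
  rw [Finsupp.tsub_apply, Finsupp.single_eq_of_ne h, Nat.sub_zero]

theorem one_le_two_pow' (n : ℕ) : (1 : ℝ) ≤ 2 ^ n := one_le_pow₀ (by norm_num)

theorem exists_reduced_aux (M : ℕ) : ∀ (m : ℕ) (e : HeightOneSpectrum k[X] →₀ ℕ) (a : RatFunc k),
    infAbv k a ≤ 2 ^ m → (∀ p, finAbv p a ≤ 2 ^ e p) → m + wt e = M →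
    ∃ (z : RatFunc k) (m' : ℕ) (e' : HeightOneSpectrum k[X] →₀ ℕ),
      Reduced m' e' (a + (z ^ 2 + z)) := by
  classical
  induction M using Nat.strong_induction_on with
  | _ M ih =>
    intro m e a h1 h2 hM
    have step : ∀ (z₀ : RatFunc k) (m₁ : ℕ) (e₁ : HeightOneSpectrum k[X] →₀ ℕ),
        infAbv k (a + (z₀ ^ 2 + z₀)) ≤ 2 ^ m₁ →
        (∀ p, finAbv p (a + (z₀ ^ 2 + z₀)) ≤ 2 ^ e₁ p) → m₁ + wt e₁ < M →
        ∃ (z : RatFunc k) (m' : ℕ) (e' : HeightOneSpectrum k[X] →₀ ℕ),
          Reduced m' e' (a + (z ^ 2 + z)) := by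
      intro z₀ m₁ e₁ h3 h4 h5
      obtain ⟨z, m', e', h6⟩ := ih _ h5 m₁ e₁ _ h3 h4 rfl
      refine ⟨z₀ + z, m', e', ?_⟩
      have h8 : a + (z₀ ^ 2 + z₀) + (z ^ 2 + z) = a + ((z₀ + z) ^ 2 + (z₀ + z)) := by
        have h7 : (2 : RatFunc k) = 0 := CharTwo.two_eq_zero
        linear_combination (-(z₀ * z)) * h7
      rwa [h8] at h6
    have hz0 : a + ((0 : RatFunc k) ^ 2 + 0) = a := by ring
    by_cases c1 : 0 < m ∧ infAbv k a < 2 ^ m
    · exact step 0 (m - 1) e (by rw [hz0]; exact inf_pred c1.1 c1.2) (by rwa [hz0]) (by omega)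
    by_cases c2 : ∃ p, 0 < e p ∧ finAbv p a < 2 ^ e p
    · obtain ⟨p, hp, hlt⟩ := c2
      have h9 := wt_pred hp
      refine step 0 m (e - Finsupp.single p 1) (by rwa [hz0]) (fun r => ?_) (by omega)
      rw [hz0]
      by_cases hr : r = p
      · subst hr
        rw [pred_self]; exact fin_pred hp hlt
      · rw [pred_ne e hr]; exact h2 r
    by_cases c3 : 0 < m ∧ Even m
    · obtain ⟨hm, j, hj⟩ := c3
      have hja : infAbv k a = 2 ^ (2 * j) := by
        have h3 : infAbv k a = 2 ^ m := le_antisymm h1 (not_lt.mp fun h => c1 ⟨hm, h⟩)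
        rw [h3]; congr 1; omega
      obtain ⟨z, hz1, hz2, hz3⟩ := inf_reduce hja
      refine step z (m - 1) e (inf_pred hm ?_) (fun r => ?_) (by omega)
      · have h3 : a + (z ^ 2 + z) = (a + z ^ 2) + z := by ring
        rw [h3]
        refine lt_of_le_of_lt (infAbv_nonarch _ _) (max_lt ?_ ?_)
        · rw [show m = 2 * j by omega]; exact hz1
        · exact lt_of_le_of_lt hz2 (pow_lt_pow_right₀ (by norm_num) (by omega))
      · exact (finAbv_nonarch r _ _).trans (max_le (h2 r)
          ((fin_ws_le (hz3 r)).trans (one_le_two_pow' _)))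
    by_cases c4 : ∃ p, 0 < e p ∧ Even (e p)
    · obtain ⟨p, hp, j, hj⟩ := c4
      have hja : finAbv p a = 2 ^ (2 * j) := by
        have h3 : finAbv p a = 2 ^ e p := le_antisymm (h2 p) (not_lt.mp fun h => c2 ⟨p, hp, h⟩)
        rw [h3]; congr 1; omega
      obtain ⟨z, hz1, hz2, hz3, hz4⟩ := fin_reduce (by omega) hja
      have h9 := wt_pred hp
      refine step z m (e - Finsupp.single p 1) ?_ (fun r => ?_) (by omega)
      · exact (infAbv_nonarch _ _).trans (max_le h1
          ((inf_ws_le hz4).trans (one_le_two_pow' _)))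
      · by_cases hr : r = p
        · subst hr
          rw [pred_self]
          apply fin_pred hp
          have h3 : a + (z ^ 2 + z) = (a + z ^ 2) + z := by ring
          rw [h3]
          refine lt_of_le_of_lt (finAbv_nonarch r _ _) (max_lt ?_ ?_)
          · rw [show e r = 2 * j by omega]; exact hz1
          · exact lt_of_le_of_lt hz2 (pow_lt_pow_right₀ (by norm_num) (by omega))
        · rw [pred_ne e hr]
          exact (finAbv_nonarch r _ _).trans (max_le (h2 r)
            ((fin_ws_le (hz3 r hr)).trans (one_le_two_pow' _)))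
    refine ⟨0, m, e.mapRange (fun j => (j + 1) / 2) rfl, ?_⟩
    rw [hz0]
    refine ⟨?_, fun p => ?_⟩
    · rcases Nat.eq_zero_or_pos m with hm | hm
      · left
        refine ⟨hm, ?_⟩
        rwa [hm, pow_zero] at h1
      · right
        exact ⟨Nat.not_even_iff_odd.mp fun h => c3 ⟨hm, h⟩,
          le_antisymm h1 (not_lt.mp fun h => c1 ⟨hm, h⟩)⟩
    · rw [Finsupp.mapRange_apply]
      rcases Nat.eq_zero_or_pos (e p) with hp | hp
      · refine ⟨fun _ => ?_, fun h => ?_⟩
        · have := h2 p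
          rwa [hp, pow_zero] at this
        · exfalso; apply h; rw [hp]
      · refine ⟨fun h => by omega, fun _ => ?_⟩
        obtain ⟨j, hj⟩ := Nat.not_even_iff_odd.mp fun h => c4 ⟨p, hp, h⟩
        have h3 : finAbv p a = 2 ^ e p := le_antisymm (h2 p) (not_lt.mp fun h => c2 ⟨p, hp, h⟩)
        rw [h3]; congr 1; omega

/-- Every class of functions modulo `z² + z` contains a reduced one. -/
theorem exists_reduced_form (a : RatFunc k) :
    ∃ (z : RatFunc k) (m : ℕ) (e : HeightOneSpectrum k[X] →₀ ℕ), Reduced m e (a + (z ^ 2 + z)) := by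
  classical
  by_cases ha : a = 0
  · subst ha
    refine exists_reduced_aux (0 + wt 0) 0 0 0 ?_ (fun p => ?_) rfl
    · rw [map_zero]; positivity
    · rw [map_zero]; positivity
  obtain ⟨S, hS⟩ := exists_places a ha
  obtain ⟨m, -, hm⟩ := exists_odd_gt (infAbv k a)
  choose n hn hbn using fun p => exists_odd_gt (finAbv (k := k) p a)
  refine exists_reduced_aux _ m (eS S (fun p => 2 * n p)) a hm.le (fun p => ?_) rfl
  by_cases hp : p ∈ S
  · rw [eS_in hp, show (2 * n p + 1) / 2 = n p by omega]
    exact (hbn p).le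
  · rw [eS_out hp, pow_zero]
    exact (hS p hp).le

theorem reduced_le {m m' : ℕ} {e e' : HeightOneSpectrum k[X] →₀ ℕ} {a a' : RatFunc k}
    (h : Reduced m e a) (h' : Reduced m' e' a') (hc : asClass a = asClass a') :
    m ≤ m' ∧ ∀ p, e p ≤ e' p := by
  obtain ⟨z, hz⟩ := asClass_eq.mp hc
  have e1 : (z ^ 2 + z : RatFunc k) = a' + -a := by rw [hz]; ring
  constructor
  · rcases h.1 with h1 | h1
    · omega
    have hgt : (1 : ℝ) < 2 ^ m := one_lt_pow₀ (by norm_num) h1.1.pos.ne'
    have key : infAbv k a ≤ infAbv k a' := by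
      by_contra hlt
      rw [not_le] at hlt
      have h7 : infAbv k (z ^ 2 + z) = infAbv k a := by
        rw [e1, infAbv_add_of_lt, AbsoluteValue.map_neg]
        rw [AbsoluteValue.map_neg]; exact hlt
      rw [h1.2] at h7
      have hz1 : 1 < infAbv k z := by
        by_contra hz1
        rw [not_lt] at hz1
        have := inf_ws_le hz1
        linarith
      have hz0 : z ≠ 0 := by rintro rfl; rw [map_zero] at hz1; linarith
      obtain ⟨j, hj⟩ := two_exp (infAbv_good (k := k)) z hz0
      rw [inf_ws hz1] at h7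
      exact (two_zpow hj hz1).2 h1.1 h7
    rw [h1.2] at key
    rcases h'.1 with h2 | h2
    · exfalso; linarith [h2.2]
    · rw [h2.2] at key
      exact (pow_le_pow_iff_right₀ (by norm_num)).mp key
  · intro p
    rcases Nat.eq_zero_or_pos (e p) with hp | hp
    · omega
    have h1 := (h.2 p).2 hp.ne'
    have hodd : Odd (2 * e p - 1) := ⟨e p - 1, by omega⟩
    have hgt : (1 : ℝ) < 2 ^ (2 * e p - 1) := one_lt_pow₀ (by norm_num) hodd.pos.ne'
    have key : finAbv p a ≤ finAbv p a' := by
      by_contra hlt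
      rw [not_le] at hlt
      have h7 : finAbv p (z ^ 2 + z) = finAbv p a := by
        rw [e1, finAbv_add_of_lt, AbsoluteValue.map_neg]
        rw [AbsoluteValue.map_neg]; exact hlt
      rw [h1] at h7
      have hz1 : 1 < finAbv p z := by
        by_contra hz1
        rw [not_lt] at hz1
        have := fin_ws_le hz1
        linarith
      have hz0 : z ≠ 0 := by rintro rfl; rw [map_zero] at hz1; linarith
      obtain ⟨j, hj⟩ := two_exp (finAbv_good p) z hz0
      rw [fin_ws hz1] at h7
      exact (two_zpow hj hz1).2 hodd h7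
    rw [h1] at key
    rcases Nat.eq_zero_or_pos (e' p) with hp' | hp'
    · have := (h'.2 p).1 hp'
      linarith
    · rw [(h'.2 p).2 hp'.ne'] at key
      have := (pow_le_pow_iff_right₀ (by norm_num : (1 : ℝ) < 2)).mp key
      omega

/-- The orders of the poles of a reduced function only depend on its class. -/
theorem reduced_unique {m m' : ℕ} {e e' : HeightOneSpectrum k[X] →₀ ℕ} {a a' : RatFunc k}
    (h : Reduced m e a) (h' : Reduced m' e' a') (hc : asClass a = asClass a') :
    m = m' ∧ e = e' := by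
  have h1 := reduced_le h h' hc
  have h2 := reduced_le h' h hc.symm
  exact ⟨le_antisymm h1.1 h2.1, Finsupp.ext fun p => le_antisymm (h1.2 p) (h2.2 p)⟩

end Pool.Agent.H2
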