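import Pool.Agent.H2.VGen

/-!
# The proportion of the good twists among all the quadratic twists
-/

set_option linter.unusedSectionVars false

namespace Pool.Agent.H2

open Polynomial IsDedekindDomain

universe u

variable {k : Type u} [Field k] [Finite k] [CharP k 2]

/-- The function `a` has a pole of order `m` at infinity and of order `n p` at the places `p ∈ S`.
At a place `p` outside `S` it has a pole of the odd order `2 e(p) - 1` if `e(p) ≠ 0`, and no pole if
`e(p) = 0`. So the conductor of `z² + z = a` outside `S` and infinity is `∏ p ^ (2 e(p))`. -/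
def OfType (S : Finset (HeightOneSpectrum k[X])) (m : ℕ) (n : HeightOneSpectrum k[X] → ℕ)
    (e : HeightOneSpectrum k[X] →₀ ℕ) (a : RatFunc k) : Prop :=
  infAbv k a = 2 ^ m ∧ (∀ p ∈ S, finAbv p a = 2 ^ n p ∧ e p = 0) ∧
    ∀ p, p ∉ S → (e p = 0 → finAbv p a ≤ 1) ∧ (e p ≠ 0 → finAbv p a = 2 ^ (2 * e p - 1))

section Res

variable {S : Finset (HeightOneSpectrum k[X])} {m : ℕ} {n : HeightOneSpectrum k[X] → ℕ}

theorem ofType_iff [DecidableEq (HeightOneSpectrum k[X])] {e : HeightOneSpectrum k[X] →₀ ℕ}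
    (he : ∀ p ∈ S, e p = 0) {a : RatFunc k} :
    OfType S m n e a ↔ a ∈ twists (S ∪ e.support) m (nu S n e) := by
  constructor
  · rintro ⟨h1, h2, h3⟩
    refine ⟨h1, fun p hp => ?_, fun p hp => ?_⟩
    · unfold nu
      by_cases hpS : p ∈ S
      · rw [if_pos hpS]; exact (h2 p hpS).1
      · have h4 : e p ≠ 0 := by
          rcases Finset.mem_union.mp hp with h | h
          · exact absurd h hpS
          · exact Finsupp.mem_support_iff.mp h
        rw [if_neg hpS, max_eq_right (by omega)]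
        exact (h3 p hpS).2 h4
    · rw [Finset.mem_union, not_or] at hp
      exact (h3 p hp.1).1 (Finsupp.notMem_support_iff.mp hp.2)
  · rintro ⟨h1, h2, h3⟩
    refine ⟨h1, fun p hp => ⟨?_, he p hp⟩, fun p hp => ⟨fun h => ?_, fun h => ?_⟩⟩
    · have h4 := h2 p (Finset.mem_union_left _ hp)
      unfold nu at h4
      rwa [if_pos hp] at h4
    · apply h3
      rw [Finset.mem_union, not_or]
      exact ⟨hp, Finsupp.notMem_support_iff.mpr h⟩
    · have h4 := h2 p (Finset.mem_union_right _ (Finsupp.mem_support_iff.mpr h))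
      unfold nu at h4
      rwa [if_neg hp, max_eq_right (by omega)] at h4

open scoped Classical in
theorem types_disjoint (hn : ∀ p ∈ S, Odd (n p)) {N : ℕ} {e e' : HeightOneSpectrum k[X] →₀ ℕ}
    (he : e ∈ EN S N) (he' : e' ∈ EN S N) (hne : e ≠ e') :
    Disjoint ((TW (S ∪ e.support) m (nu S n e)).image asClass)
      ((TW (S ∪ e'.support) m (nu S n e')).image asClass) := by
  classical
  rw [Finset.disjoint_left]
  intro c hc hc'
  rw [Finset.mem_image] at hc hc'
  obtain ⟨a, ha, rfl⟩ := hc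
  obtain ⟨a', ha', h⟩ := hc'
  rw [mem_TW] at ha ha'
  rw [mem_EN] at he he'
  obtain ⟨h1, h2⟩ := ptype_eq (fun p _ => nu_odd hn e p) (fun p _ => nu_odd hn e' p) ha ha' h.symm
  apply hne
  ext p
  by_cases hpS : p ∈ S
  · rw [he.1 p hpS, he'.1 p hpS]
  · by_cases hp : p ∈ e.support
    · have hp' : p ∈ e'.support := by
        have h3 : p ∈ S ∪ e'.support := by rw [← h1]; exact Finset.mem_union_right _ hp
        rcases Finset.mem_union.mp h3 with h4 | h4
        · exact absurd h4 hpS
        · exact h4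
      have h3 := h2 p (Finset.mem_union_right _ hp)
      rw [Finsupp.mem_support_iff] at hp hp'
      unfold nu at h3
      rw [if_neg hpS, if_neg hpS, max_eq_right (by omega), max_eq_right (by omega)] at h3
      omega
    · have hp' : p ∉ e'.support := by
        intro hp'
        have h3 : p ∈ S ∪ e.support := by rw [h1]; exact Finset.mem_union_right _ hp'
        rcases Finset.mem_union.mp h3 with h4 | h4
        · exact hpS h4
        · exact hp h4
      rw [Finsupp.notMem_support_iff.mp hp, Finsupp.notMem_support_iff.mp hp']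

theorem all_twists_root {b β : RatFunc k} {r : ℕ} (hβ : b = β ^ 2 ^ r) (hβ2 : ¬ IsSquare β)
    (S : Finset (HeightOneSpectrum k[X])) (hS : ∀ p, p ∉ S → finAbv p b = 1)
    (m : ℕ) (n : HeightOneSpectrum k[X] → ℕ) (hm : Odd m) (hbm : infAbv k b < 2 ^ m)
    (hn : ∀ p ∈ S, Odd (n p) ∧ finAbv p b < 2 ^ n p) :
      ∃ N₀ : ℕ, ∀ N, N₀ ≤ N →
      (asClass '' {a | ∃ e, OfType S m n e a ∧ wt e = N}).Finite ∧
      (asClass '' {a | ∃ e, OfType S m n e a ∧ wt e = N}).Nonempty ∧
      288 * (asClass '' {a | ∃ e, OfType S m n e a ∧ wt e = N}).ncard ≤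
        1000 * (asClass '' {a | ∃ e, OfType S m n e a ∧ wt e = N ∧
          Finite (Pts (gcurve a b) (RatFunc k)) ∧
          SmallSelmer a β (S.card + e.support.card)}).ncard := by
  classical
  have hβ0 : β ≠ 0 := by rintro rfl; exact hβ2 ⟨0, by simp⟩
  have hne : (2 ^ r : ℕ) ≠ 0 := by positivity
  have hpow : ∀ p : HeightOneSpectrum k[X], finAbv p b = finAbv p β ^ 2 ^ r := by
    intro p; rw [hβ, map_pow]
  have hSβ : ∀ p, p ∉ S → finAbv p β = 1 := by
    intro p hp
    have h1 := hS p hp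
    rw [hpow] at h1
    exact (pow_eq_one_iff_of_nonneg ((finAbv p).nonneg _) hne).mp h1
  have hle : ∀ {x : ℝ} {j : ℕ}, 0 ≤ x → 0 < j → x ^ 2 ^ r < 2 ^ j → x < 2 ^ j := by
    intro x j hx hj h
    by_cases h1 : x ≤ 1
    · exact lt_of_le_of_lt h1 (one_lt_pow₀ (by norm_num) hj.ne')
    · rw [not_le] at h1
      refine lt_of_le_of_lt ?_ h
      exact le_self_pow₀ h1.le hne
  have hn' : ∀ p ∈ S, Odd (n p) := fun p hp => (hn p hp).1
  obtain ⟨N₀, h1⟩ := gen_prop (S₀ := S) (m := m) (n := n) hβ2 hSβ hm hn'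
    (hle ((infAbv k).nonneg _) hm.pos (by rw [← map_pow, ← hβ]; exact hbm))
    (fun p hp => hle ((finAbv p).nonneg _) (hn' p hp).pos (by rw [← hpow]; exact (hn p hp).2))
  refine ⟨N₀, fun N hN => ?_⟩
  obtain ⟨h2, h3⟩ := h1 N hN
  set U := (EN S N).biUnion (fun e => (TW (S ∪ e.support) m (nu S n e)).image asClass) with hU
  set V := (EN S N).biUnion (fun e => (GdT β (S ∪ e.support) m (nu S n e)).image asClass) with hV
  have hUeq : asClass '' {a | ∃ e, OfType S m n e a ∧ wt e = N} = (U : Set (Set (RatFunc k))) := by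
    ext c
    rw [Finset.mem_coe, hU, Finset.mem_biUnion]
    constructor
    · rintro ⟨a, ⟨e, ha, he⟩, rfl⟩
      have he0 : ∀ p ∈ S, e p = 0 := fun p hp => (ha.2.1 p hp).2
      exact ⟨e, mem_EN.mpr ⟨he0, he⟩,
        Finset.mem_image_of_mem _ (mem_TW.mpr ((ofType_iff he0).mp ha))⟩
    · rintro ⟨e, he, hc⟩
      rw [Finset.mem_image] at hc
      obtain ⟨a, ha, rfl⟩ := hc
      rw [mem_EN] at he
      exact ⟨a, ⟨e, (ofType_iff he.1).mpr (mem_TW.mp ha), he.2⟩, rfl⟩
  have hVsub : (V : Set (Set (RatFunc k))) ⊆ asClass '' {a | ∃ e, OfType S m n e a ∧ wt e = N ∧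
          Finite (Pts (gcurve a b) (RatFunc k)) ∧
          SmallSelmer a β (S.card + e.support.card)} := by
    intro c hc
    rw [Finset.mem_coe, hV, Finset.mem_biUnion] at hc
    obtain ⟨e, he, hc⟩ := hc
    rw [Finset.mem_image] at hc
    obtain ⟨a, ha, rfl⟩ := hc
    unfold GdT at ha
    rw [Finset.mem_filter, mem_TW] at ha
    rw [mem_EN] at he
    have hdisj : Disjoint S e.support := by
      rw [Finset.disjoint_left]
      intro p hp h
      exact (Finsupp.mem_support_iff.mp h) (he.1 p hp)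
    rw [Finset.card_union_of_disjoint hdisj] at ha
    refine ⟨a, ⟨e, (ofType_iff he.1).mpr ha.1, he.2, ?_, ha.2⟩, rfl⟩
    rw [hβ]
    exact finite_frob_pow hβ0 ha.2.1 r
  have hUsum : U.card = ∑ e ∈ EN S N, cls S m n e := by
    rw [hU, Finset.card_biUnion fun e he e' he' hne => types_disjoint hn' he he' hne]
    rfl
  have hVsum : V.card = ∑ e ∈ EN S N, gcls β S m n e := by
    rw [hV, Finset.card_biUnion]
    · rfl
    · intro e he e' he' hne
      refine Finset.disjoint_of_subset_left ?_ (Finset.disjoint_of_subset_right ?_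
        (types_disjoint (m := m) hn' he he' hne))
      · exact Finset.image_subset_image (Finset.filter_subset _ _)
      · exact Finset.image_subset_image (Finset.filter_subset _ _)
  have hfinG : (asClass '' {a | ∃ e, OfType S m n e a ∧ wt e = N ∧
          Finite (Pts (gcurve a b) (RatFunc k)) ∧
          SmallSelmer a β (S.card + e.support.card)}).Finite := by
    apply (U.finite_toSet).subset
    rw [← hUeq]
    apply Set.image_mono
    rintro a ⟨e, h4, h5, -⟩
    exact ⟨e, h4, h5⟩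
  have hVle := Set.ncard_le_ncard hVsub hfinG
  rw [Set.ncard_coe_finset, hVsum] at hVle
  rw [hUeq]
  refine ⟨U.finite_toSet, ?_, ?_⟩
  · rw [Finset.coe_nonempty, ← Finset.card_pos, hUsum]
    exact h2
  · rw [Set.ncard_coe_finset, hUsum]
    exact h3.trans (Nat.mul_le_mul_left _ hVle)

/-- **Main theorem.** -/
theorem all_twists (b : RatFunc k) (hb : ∀ c : k, b ≠ RatFunc.C c)
    (S : Finset (HeightOneSpectrum k[X])) (hS : ∀ p, p ∉ S → finAbv p b = 1) :
    ∃ (β : RatFunc k) (r : ℕ), b = β ^ 2 ^ r ∧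
      ∀ (m : ℕ) (n : HeightOneSpectrum k[X] → ℕ), Odd m → infAbv k b < 2 ^ m →
      (∀ p ∈ S, Odd (n p) ∧ finAbv p b < 2 ^ n p) →
      ∃ N₀ : ℕ, ∀ N, N₀ ≤ N →
      (asClass '' {a | ∃ e, OfType S m n e a ∧ wt e = N}).Finite ∧
      (asClass '' {a | ∃ e, OfType S m n e a ∧ wt e = N}).Nonempty ∧
      288 * (asClass '' {a | ∃ e, OfType S m n e a ∧ wt e = N}).ncard ≤
        1000 * (asClass '' {a | ∃ e, OfType S m n e a ∧ wt e = N ∧
          Finite (Pts (gcurve a b) (RatFunc k)) ∧
          SmallSelmer a β (S.card + e.support.card)}).ncard := by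
  obtain ⟨β, r, hβ, hβ2⟩ := exists_root b hb
  exact ⟨β, r, hβ, fun m n hm hbm hn => all_twists_root hβ hβ2 S hS m n hm hbm hn⟩

end Res

end Pool.Agent.H2
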