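import Pool.Agent.H2.VUnif

/-!
# The characters attached to the quadratic extensions
-/

namespace Pool.Agent.H2

open Polynomial IsDedekindDomain

universe u

section Ri

variable {k : Type u} [Field k]

/-- the polynomial part at infinity -/
noncomputable def pol (f : RatFunc k) : k[X] := (approx_rat f).choose

theorem pol_spec (f : RatFunc k) : infAbv k (f - algebraMap k[X] (RatFunc k) (pol f)) < 1 :=
  (approx_rat f).choose_spec

theorem pol_eq {f : RatFunc k} {q : k[X]} (h : infAbv k (f - algebraMap k[X] (RatFunc k) q) < 1) :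
    pol f = q := by
  have h1 : infAbv k (algebraMap k[X] (RatFunc k) (pol f - q)) < 1 := by
    have e : algebraMap k[X] (RatFunc k) (pol f - q)
      = (f - algebraMap k[X] (RatFunc k) q) - (f - algebraMap k[X] (RatFunc k) (pol f)) := by
      rw [map_sub]; ring
    rw [e]
    exact lt_of_le_of_lt (inf_sub _ _) (max_lt h (pol_spec f))
  exact sub_eq_zero.mp (infAbv_lt_one h1)

theorem pol_small {f : RatFunc k} (h : infAbv k f < 1) : pol f = 0 :=
  pol_eq (by rwa [map_zero, sub_zero])

theorem pol_add (f g : RatFunc k) : pol (f + g) = pol f + pol g := by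
  apply pol_eq
  have e : f + g - algebraMap k[X] (RatFunc k) (pol f + pol g)
      = (f - algebraMap k[X] (RatFunc k) (pol f)) + (g - algebraMap k[X] (RatFunc k) (pol g)) := by
    rw [map_add]; ring
  rw [e]
  exact lt_of_le_of_lt (infAbv_nonarch _ _) (max_lt (pol_spec f) (pol_spec g))

/-- the residue at infinity -/
noncomputable def ri (f : RatFunc k) : k := lc (f - algebraMap k[X] (RatFunc k) (pol f))

theorem ri_add (f g : RatFunc k) : ri (f + g) = ri f + ri g := by
  unfold ri
  rw [← lc_add (pol_spec f) (pol_spec g), pol_add]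
  congr 1
  rw [map_add]; ring

theorem ri_small {f : RatFunc k} (h : infAbv k (RatFunc.X * f) < 1) : ri f = 0 := by
  have h1 : infAbv k f < 1 := by
    rw [map_mul, infAbv_X] at h
    have := (infAbv k).nonneg f
    linarith
  unfold ri
  rw [pol_small h1, map_zero, sub_zero]
  exact lc_small h

theorem ri_eq {f : RatFunc k} {c : k} (h : infAbv k f < 1)
    (h' : infAbv k (RatFunc.X * f - algebraMap k[X] (RatFunc k) (C c)) < 1) : ri f = c := by
  unfold ri
  rw [pol_small h, map_zero, sub_zero]
  exact lc_eq h'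

theorem lc_zero : lc (0 : RatFunc k) = 0 := lc_small (by rw [mul_zero, map_zero]; exact one_pos)

theorem lc_sum {ι : Type*} (s : Finset ι) (f : ι → RatFunc k) (h : ∀ i ∈ s, infAbv k (f i) < 1) :
    lc (∑ i ∈ s, f i) = ∑ i ∈ s, lc (f i) := by
  classical
  induction s using Finset.induction_on with
  | empty => rw [Finset.sum_empty, Finset.sum_empty, lc_zero]
  | insert i s hi ih =>
    rw [Finset.sum_insert hi, Finset.sum_insert hi, lc_add (h i (Finset.mem_insert_self _ _))
      (inf_sum_lt _ _ fun j hj => h j (Finset.mem_insert_of_mem hj)),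
      ih fun j hj => h j (Finset.mem_insert_of_mem hj)]

/-- the residue theorem -/
theorem ri_sum {S : Finset (HeightOneSpectrum k[X])} {f : RatFunc k}
    (hS : ∀ p, p ∉ S → finAbv p f ≤ 1) : ri f = ∑ p ∈ S, rs p f := by
  classical
  have h1 : f - algebraMap k[X] (RatFunc k) (pol f) = ∑ p ∈ S, pp p f := by
    rw [← sub_eq_zero]
    apply eq_zero_of_small
    · intro q
      by_cases hq : q ∈ S
      · rw [← Finset.add_sum_erase _ _ hq]
        have e : f - algebraMap k[X] (RatFunc k) (pol f) - (pp q f + ∑ p ∈ S.erase q, pp p f)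
          = (f - pp q f) - (algebraMap k[X] (RatFunc k) (pol f) + ∑ p ∈ S.erase q, pp p f) := by ring
        rw [e]
        refine (fin_sub q _ _).trans (max_le (pp_reg q f) ?_)
        refine (finAbv_nonarch q _ _).trans (max_le (finAbv_poly q _) ?_)
        refine fin_sum_le q _ _ fun p hp => ?_
        exact (pp_polar p f).1 q (Finset.ne_of_mem_erase hp).symm
      · refine (fin_sub q _ _).trans (max_le ?_ ?_)
        · exact (fin_sub q _ _).trans (max_le (hS q hq) (finAbv_poly q _))
        · refine fin_sum_le q _ _ fun p hp => ?_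
          exact (pp_polar p f).1 q (by rintro rfl; exact hq hp)
    · refine lt_of_le_of_lt (inf_sub _ _) (max_lt (pol_spec f) ?_)
      exact inf_sum_lt _ _ fun p _ => (pp_polar p f).2
  unfold ri
  rw [h1, lc_sum _ _ fun p _ => (pp_polar p f).2]
  rfl

end Ri

variable {k : Type u} [Field k] [Finite k] [CharP k 2]

theorem fin_D {p : HeightOneSpectrum k[X]} {f : RatFunc k} (h : finAbv p f ≤ 1) :
    finAbv p (basisX.D f) ≤ 1 := by
  have h1 := (finAbv_star p (basisX.E f) (basisX.C f) (by rw [basisX.spec']; exact h)).2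
  unfold TwoBasis.D
  rw [map_pow]
  exact pow_le_one₀ ((finAbv p).nonneg _) h1

theorem inf_D (f : RatFunc k) : infAbv k (basisX.D f) * 2 ≤ infAbv k f := by
  by_cases h0 : f = 0
  · rw [h0, basisX.D_zero, map_zero, zero_mul]
  obtain ⟨n, hn⟩ := two_exp (infAbv_good (k := k)) f h0
  have hX : (RatFunc.X : RatFunc k) ≠ 0 := RatFunc.X_ne_zero
  have e1 : basisX.E f ^ 2 + RatFunc.X⁻¹ * (RatFunc.X * basisX.C f) ^ 2 = f := by
    conv_rhs => rw [basisX.spec f]
    field_simp
  have h1 := (gstar (infAbv_good (k := k)) (basisX.E f) (RatFunc.X * basisX.C f) ((n + 1) / 2) (by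
    rw [e1, hn]
    exact zpow_le_zpow_right₀ (by norm_num) (by omega))).2
  rw [map_mul, infAbv_X] at h1
  unfold TwoBasis.D
  rw [map_pow, hn]
  have h2 := (infAbv k).nonneg (basisX.C f)
  have h3 : (2 * infAbv k (basisX.C f)) ^ 2 ≤ ((2 : ℝ) ^ ((n + 1) / 2)) ^ 2 :=
    pow_le_pow_left₀ (by positivity) h1 2
  have h4 : ((2 : ℝ) ^ ((n + 1) / 2)) ^ 2 ≤ 2 ^ n * 2 := by
    rw [← zpow_natCast, ← zpow_mul, ← zpow_add_one₀ two_ne_zero]
    exact zpow_le_zpow_right₀ (by norm_num) (by push_cast; omega)
  nlinarith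

/-- the difference of two logarithmic differentials -/
theorem om_diff {d w : RatFunc k} (hd : d ≠ 0) (hdw : d + w ≠ 0) :
    om (d + w) + om d = (d * basisX.D w + w * basisX.D d) / (d * (d + w)) := by
  have hK2 : CharP (RatFunc k) 2 := basisX.charP
  have h1 : om (d + w) = basisX.D (d + w) / (d + w) := rfl
  have h2 : om d = basisX.D d / d := rfl
  rw [h1, h2, basisX.D_add]
  field_simp
  linear_combination (d * basisX.D d) * (CharTwo.two_eq_zero : (2 : RatFunc k) = 0)

/-- the symbol -/
noncomputable def theta (P : Finset (HeightOneSpectrum k[X])) (h : RatFunc k) (d : k[X]) : ZMod 2 :=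
  tt (ri (h * om (algebraMap k[X] (RatFunc k) d))
    + ∑ p ∈ P, rs p (h * om (algebraMap k[X] (RatFunc k) d)))

variable {P : Finset (HeightOneSpectrum k[X])} {h : RatFunc k}

theorem vmap_ne {d : k[X]} (hd : d ≠ 0) : algebraMap k[X] (RatFunc k) d ≠ 0 := by
  rwa [Ne, FaithfulSMul.algebraMap_eq_zero_iff]

theorem theta_mul {d e : k[X]} (hd : d ≠ 0) (he : e ≠ 0) :
    theta P h (d * e) = theta P h d + theta P h e := by
  unfold theta
  rw [← tt_add, map_mul, om_mul (vmap_ne hd) (vmap_ne he), mul_add, ri_add]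
  congr 1
  rw [Finset.sum_congr rfl fun p _ => rs_add p _ _, Finset.sum_add_distrib]
  ring

theorem theta_one : theta P h (1 : k[X]) = 0 := by
  have h1 := theta_mul (P := P) (h := h) (one_ne_zero : (1 : k[X]) ≠ 0) one_ne_zero
  rw [mul_one] at h1
  have : theta P h (1 : k[X]) + 0 = theta P h 1 + theta P h 1 := by rw [add_zero]; exact h1
  exact (add_left_cancel this).symm

theorem theta_prime (hP : ∀ p, p ∉ P → finAbv p h ≤ 1) {q : HeightOneSpectrum k[X]} (hq : q ∉ P) :
    theta P h (gQ q) = TT q h := by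
  classical
  have hk2 : CharP k 2 := inferInstance
  obtain ⟨e, he⟩ := dq_cartier q
  unfold theta
  change tt (ri (h * dq q) + ∑ p ∈ P, rs p (h * dq q)) = _
  have h1 : ∀ p, p ∉ insert q P → finAbv p (h * dq q) ≤ 1 := by
    intro p hp
    rw [Finset.mem_insert, not_or] at hp
    rw [map_mul]
    exact mul_le_one₀ (hP p hp.2) ((finAbv p).nonneg _) (dq_reg hp.1)
  rw [ri_sum h1, Finset.sum_insert hq, add_assoc, CharTwo.add_self_eq_zero, add_zero]
  exact tt_rs q he (hP q hq) (dq_pole q)

end Pool.Agent.H2
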