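import Pool.Agent.H2.VExt2

/-!
# The inverse limit of the Selmer groups
-/

set_option linter.unusedSectionVars false

namespace Pool.Agent.H2

open Polynomial IsDedekindDomain

universe u

/-- `Sel(E, ℤ₂) = 0`: every compatible sequence of classes in the groups `Sel(E, 2ˢ)`, given by points
`P s` over `Kˢ` modulo `2 ^ s`, is zero. -/
def SelZero {K : Type u} [Field K] (E : WeierstrassCurve.Affine K) : Prop :=
  ∀ P : ℕ → Pts E (Ks K), (∀ s, IsSelmer (2 ^ s) (P s)) →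
    (∀ s, (P (s + 1)).Congr (2 ^ s) (P s)) → ∀ s, (P s).Congr (2 ^ s) 0

theorem selZero_of {K : Type u} [Field K] {E : WeierstrassCurve.Affine K}
    (hE : ∀ P : Pts E (Ks K), 2 • P = 0 → P = 0)
    (h : ∀ s : ℕ, ∀ x : SelmerGroup E (2 ^ s), 2 • x = 0) : SelZero E := by
  intro P hP hc s
  have h1 := h (s + 1) (QuotientAddGroup.mk (⟨P (s + 1), hP (s + 1)⟩ : selmerPoints E (2 ^ (s + 1))))
  rw [← QuotientAddGroup.mk_nsmul, QuotientAddGroup.eq_zero_iff, AddSubgroup.mem_addSubgroupOf,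
    AddMonoidHom.mem_range] at h1
  obtain ⟨R, hR⟩ := h1
  have hR' : 2 ^ (s + 1) • R = 2 • P (s + 1) := hR
  have h2 : 2 • (P (s + 1) - 2 ^ s • R) = 0 := by
    rw [nsmul_sub, ← hR', smul_smul, ← pow_succ', sub_self]
  have h3 := hE _ h2
  obtain ⟨Q, hQ⟩ := hc s
  refine ⟨R - Q, ?_⟩
  rw [zero_add, nsmul_sub]
  rw [sub_eq_zero] at h3
  rw [← h3, hQ]
  abel

variable {k : Type u} [Field k] [Finite k] [CharP k 2]

/-- The natural map from `E(K) ⊗ ℤ₂` to `Sel(E, ℤ₂)` is the isomorphism from `0` to `0`, for the curve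
`E : y² + x y = x³ + a x² + b` over `K = k(X)`. -/
def SelConj {k : Type u} [Field k] (a b : RatFunc k) : Prop :=
  Finite (Pts (gcurve a b) (RatFunc k)) ∧ Odd (Nat.card (Pts (gcurve a b) (RatFunc k))) ∧
    SelZero (gcurve a b)

theorem selConj_of_small {a b : RatFunc k} {N : ℕ} (hb : ¬ IsSquare b) (h : SmallSelmer a b N) :
    SelConj a b :=
  ⟨h.1, h.2.1, selZero_of (tors (C_ne_zero_of hb)) fun s => (h.2.2 s).2.2⟩

/-- The conjecture on the Selmer groups over `k'(X)`, for all the embeddings of `k(X)` in `k'(X)` of odd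
degree such that there is only one place above each finite pole of `a`. -/
def SelConjOver (a b : RatFunc k) : Prop :=
  ∀ (k' : Type u) [Field k'] [Finite k'] [Algebra k k'] (Φ : RatFunc k →+* RatFunc k')
    (h : k'[X]) (T : Finset (HeightOneSpectrum k[X])), (∀ p, p ∈ T ↔ 1 < finAbv p a) →
    OddExt T Φ h → SelConj (Φ a) (Φ b)

theorem GoodOver.conj {a b : RatFunc k} {M : ℕ} (h : GoodOver a b M) (hb : ¬ IsSquare b) :
    SelConjOver a b := by
  intro k' _ _ _ Φ g T hT H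
  have hchar : CharP k' 2 := charP_of_injective_ringHom (algebraMap k k').injective 2
  obtain ⟨-, β, r, h1, h2, h3⟩ := h k' Φ g T hT H
  have h4 : ¬ IsSquare (Φ b) := H.nsq hb
  rcases r with _ | r
  · rw [pow_zero, pow_one] at h1
    rw [h1]
    exact selConj_of_small h2 h3
  · exfalso
    apply h4
    refine ⟨β ^ 2 ^ r, ?_⟩
    rw [h1, ← pow_add]
    congr 1; rw [pow_succ]; ring

theorem nonconst_of_nsq {b : RatFunc k} (hb : ¬ IsSquare b) : ∀ c : k, b ≠ RatFunc.C c := by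
  rintro c rfl
  apply hb
  obtain ⟨d, rfl⟩ := FiniteField.isSquare_of_char_two (ringChar.eq k 2).symm.symm c
  exact ⟨RatFunc.C d, by rw [map_mul]⟩

theorem sel_prop (a₀ : RatFunc k) (B : Finset (RatFunc k)) (hB : ∀ b ∈ B, ¬ IsSquare b) :
    ∃ C M₀ : ℕ, ∀ M, M₀ ≤ M →
      (asClass '' {a : RatFunc k | HalfCond a M}).Finite ∧
      (asClass '' {a : RatFunc k | HalfCond a M}).ncard ≤
        C * (asClass '' {a : RatFunc k | HalfCond a M ∧ MoreRamified a₀ B a}).ncard ∧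
      (asClass '' {a : RatFunc k | HalfCond a M ∧ MoreRamified a₀ B a}).Nonempty ∧
      288 * (asClass '' {a : RatFunc k | HalfCond a M ∧ MoreRamified a₀ B a}).ncard ≤
        1000 * (asClass '' {a : RatFunc k | HalfCond a M ∧ MoreRamified a₀ B a ∧
          ∀ b, ¬ IsSquare b → (b ∈ B ∨ Adm (a₀ + a) b) → SelConjOver (a₀ + a) b}).ncard := by
  obtain ⟨C, M₀, h⟩ := more_prop_ext a₀ B fun b hb => nonconst_of_nsq (hB b hb)
  refine ⟨C, M₀, fun M hM => ?_⟩
  obtain ⟨h1, h2, h3, h4⟩ := h M hM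
  refine ⟨h1, h2, h3, h4.trans (Nat.mul_le_mul_left _ (Set.ncard_le_ncard ?_ ?_))⟩
  · apply Set.image_mono
    rintro a ⟨h5, h6, h7⟩
    exact ⟨h5, h6, fun b hb h8 => (h7 b (nonconst_of_nsq hb) h8).conj hb⟩
  · refine h1.subset (Set.image_mono ?_)
    rintro a ⟨h5, -⟩
    exact h5

end Pool.Agent.H2
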