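import Pool.Agent.H2.VVan

/-!
# Smooth sets of places, boxes of functions
-/

namespace Pool.Agent.H2

open Polynomial IsDedekindDomain

universe u

variable {k : Type u} [Field k] [Finite k] [CharP k 2]

theorem smooth_bound {ℓ : ℕ} (hℓ : 1 ≤ ℓ) :
    ∑ T ∈ (PL k ℓ).powerset, (2 : ℝ) ^ T.card * ((dg T : ℝ) + 1) / (Nat.card k : ℝ) ^ dg T
      ≤ Real.exp 6 * (ℓ : ℝ) ^ 7 := by
  classical
  have hq := qpos (k := k)
  have hℓ0 : (0 : ℝ) < ℓ := by exact_mod_cast hℓ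
  set x : ℝ := 1 + 1 / ℓ with hx
  have hx0 : 0 < x := by positivity
  have hx1 : 1 ≤ x := by rw [hx]; have : (0 : ℝ) < 1 / ℓ := by positivity
                         linarith
  have hxℓ : ∀ j, j ≤ ℓ → 2 * x ^ j ≤ 6 := by
    intro j hj
    have h1 : x ^ j ≤ x ^ ℓ := pow_le_pow_right₀ hx1 hj
    have h2 : x ≤ Real.exp (1 / ℓ) := by
      have := Real.add_one_le_exp (1 / (ℓ : ℝ))
      rw [hx]; linarith
    have h3 : x ^ ℓ ≤ Real.exp 1 := by
      calc x ^ ℓ ≤ Real.exp (1 / ℓ) ^ ℓ := pow_le_pow_left₀ hx0.le h2 ℓ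
        _ = Real.exp 1 := by
          rw [← Real.exp_nat_mul]
          congr 1
          field_simp
    have h4 := Real.exp_one_lt_d9
    linarith
  have h1 : ∀ T : Finset (HeightOneSpectrum k[X]),
      (2 : ℝ) ^ T.card * ((dg T : ℝ) + 1) / (Nat.card k : ℝ) ^ dg T
      ≤ ℓ * ∏ p ∈ T, (2 * x ^ dp p * ((Nat.card k : ℝ) ^ dp p)⁻¹) := by
    intro T
    rw [Finset.prod_mul_distrib, Finset.prod_mul_distrib, Finset.prod_const,
      Finset.prod_inv_distrib, Finset.prod_pow_eq_pow_sum, Finset.prod_pow_eq_pow_sum, ← dg_eq]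
    have h2 : (dg T : ℝ) + 1 ≤ ℓ * x ^ dg T := by
      have h3 := one_add_mul_le_pow (a := 1 / (ℓ : ℝ)) (by
        have : (0 : ℝ) < 1 / ℓ := by positivity
        linarith) (dg T)
      have h4 : ℓ * (1 + (dg T : ℝ) * (1 / ℓ)) ≤ ℓ * x ^ dg T := mul_le_mul_of_nonneg_left h3 hℓ0.le
      have h5 : ℓ * (1 + (dg T : ℝ) * (1 / ℓ)) = ℓ + dg T := by field_simp
      have h6 : (1 : ℝ) ≤ ℓ := by exact_mod_cast hℓ
      linarith
    rw [div_eq_mul_inv]
    have h7 : (0 : ℝ) < ((Nat.card k : ℝ) ^ dg T)⁻¹ := by positivity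
    calc (2 : ℝ) ^ T.card * ((dg T : ℝ) + 1) * ((Nat.card k : ℝ) ^ dg T)⁻¹
        ≤ (2 : ℝ) ^ T.card * (ℓ * x ^ dg T) * ((Nat.card k : ℝ) ^ dg T)⁻¹ := by gcongr
      _ = _ := by ring
  refine (Finset.sum_le_sum fun T _ => h1 T).trans ?_
  rw [← Finset.mul_sum, ← Finset.prod_one_add]
  have h2 := prod_le_exp (PL k ℓ) (fun p => 2 * x ^ dp p * ((Nat.card k : ℝ) ^ dp p)⁻¹)
    (fun p _ => by positivity)
  have h3 := sum_inv_le (PL k ℓ) (n := ℓ) (fun p hp => mem_PL.mp hp) hℓ (y := 6) (by norm_num)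
    (fun j => 2 * x ^ j) (fun j => by positivity) hxℓ
  have h4 : Real.exp (6 * (1 + Real.log ℓ)) = Real.exp 6 * (ℓ : ℝ) ^ 6 := by
    rw [mul_add, Real.exp_add, mul_one, mul_comm (6 : ℝ) (Real.log ℓ), Real.exp_mul, Real.exp_log hℓ0]
    norm_cast
  calc (ℓ : ℝ) * ∏ p ∈ PL k ℓ, (1 + 2 * x ^ dp p * ((Nat.card k : ℝ) ^ dp p)⁻¹)
      ≤ ℓ * Real.exp (6 * (1 + Real.log ℓ)) := by
        apply mul_le_mul_of_nonneg_left _ hℓ0.le
        exact h2.trans (Real.exp_le_exp.mpr h3)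
    _ = Real.exp 6 * (ℓ : ℝ) ^ 7 := by rw [h4]; ring

/-- the functions with bounded poles -/
def BB (S : Finset (HeightOneSpectrum k[X])) (m : ℕ) (ν : HeightOneSpectrum k[X] → ℕ) :
    Set (RatFunc k) :=
  {a | infAbv k a ≤ 2 ^ m ∧ (∀ p ∈ S, finAbv p a ≤ 2 ^ ν p) ∧ ∀ p, p ∉ S → finAbv p a ≤ 1}

theorem BB_emb (S : Finset (HeightOneSpectrum k[X])) (m : ℕ) (ν : HeightOneSpectrum k[X] → ℕ) :
    ∃ f : BB S m ν → degreeLT k (m + ∑ p ∈ S, ν p * dp p + 1), Function.Injective f := by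
  classical
  set G := ∏ q ∈ S, gQ q ^ ν q with hG
  have hGm : G.Monic := prodpow_monic S ν
  have hG0 := vmap_ne hGm.ne_zero
  have hex : ∀ a : BB S m ν, ∃ f : k[X], f ∈ degreeLT k (m + ∑ p ∈ S, ν p * dp p + 1) ∧
      algebraMap k[X] (RatFunc k) f = algebraMap k[X] (RatFunc k) G * a.1 := by
    rintro ⟨a, h1, h2, h3⟩
    obtain ⟨f, hf⟩ := poly_of_int (f := algebraMap k[X] (RatFunc k) G * a) (fun q => by
      rw [map_mul]
      by_cases hq : q ∈ S
      · rw [finAbv_prod S ν hq]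
        calc (2 ^ ν q)⁻¹ * finAbv q a ≤ (2 ^ ν q)⁻¹ * 2 ^ ν q :=
              mul_le_mul_of_nonneg_left (h2 q hq) (by positivity)
          _ = 1 := by field_simp
      · rw [finAbv_prod' S ν hq, one_mul]; exact h3 q hq)
    refine ⟨f, ?_, hf⟩
    rw [mem_degreeLT]
    by_cases h0 : f = 0
    · rw [h0, degree_zero]; exact WithBot.bot_lt_coe _
    · rw [← natDegree_lt_iff_degree_lt h0]
      have h4 := congrArg (infAbv k) hf
      rw [infAbv_poly h0, map_mul, infAbv_poly hGm.ne_zero, prodpow_deg, zpow_natCast,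
        zpow_natCast] at h4
      have h5 : (2 : ℝ) ^ f.natDegree ≤ 2 ^ (m + ∑ p ∈ S, ν p * dp p) := by
        rw [h4, pow_add, mul_comm]
        exact mul_le_mul_of_nonneg_right h1 (by positivity)
      have h6 := (pow_le_pow_iff_right₀ (by norm_num : (1 : ℝ) < 2)).mp h5
      omega
  choose f hf1 hf2 using hex
  refine ⟨fun a => ⟨f a, hf1 a⟩, fun a b h => ?_⟩
  have h1 : f a = f b := congrArg Subtype.val h
  have h2 := hf2 a
  rw [h1, hf2 b] at h2
  exact Subtype.ext (mul_left_cancel₀ hG0 h2).symm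

theorem BB_finite (S : Finset (HeightOneSpectrum k[X])) (m : ℕ) (ν : HeightOneSpectrum k[X] → ℕ) :
    (BB S m ν).Finite := by
  obtain ⟨f, hf⟩ := BB_emb S m ν
  have : Finite (BB S m ν) := Finite.of_injective f hf
  exact Set.toFinite _

/-- the functions with bounded poles, as a finite set -/
noncomputable def BF (S : Finset (HeightOneSpectrum k[X])) (m : ℕ)
    (ν : HeightOneSpectrum k[X] → ℕ) : Finset (RatFunc k) := (BB_finite S m ν).toFinset

theorem mem_BF {S : Finset (HeightOneSpectrum k[X])} {m : ℕ} {ν : HeightOneSpectrum k[X] → ℕ}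
    {a : RatFunc k} : a ∈ BF S m ν ↔ a ∈ BB S m ν := (BB_finite S m ν).mem_toFinset

theorem card_BF (S : Finset (HeightOneSpectrum k[X])) (m : ℕ) (ν : HeightOneSpectrum k[X] → ℕ) :
    (BF S m ν).card ≤ Nat.card k ^ (m + ∑ p ∈ S, ν p * dp p + 1) := by
  obtain ⟨f, hf⟩ := BB_emb S m ν
  have h1 := Nat.card_le_card_of_injective f hf
  rw [card_degreeLT] at h1
  refine le_trans (le_of_eq ?_) h1
  rw [← Nat.card_eq_finsetCard]
  exact Nat.card_congr (Equiv.subtypeEquivRight fun a => mem_BF)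

end Pool.Agent.H2
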