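import Pool.Agent.H2.VFin2
import Pool.Agent.H2.VCls
import Pool.Agent.H2.WCount

/-!
# The proportion of the classes of the good twists, for a given non-squarefree part
-/

namespace Pool.Agent.H2

open Polynomial IsDedekindDomain

universe u

variable {k : Type u} [Field k] [Finite k] [CharP k 2]

open scoped Classical in
theorem small_of_goodM {β : RatFunc k} (hβ : ¬ IsSquare β) {S : Finset (HeightOneSpectrum k[X])}
    (hS : ∀ p, p ∉ S → finAbv p β = 1) {m : ℕ} {ν : HeightOneSpectrum k[X] → ℕ} (hm : Odd m)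
    (hν : ∀ p ∈ S, Odd (ν p)) (hbm : infAbv k β < 2 ^ m) (hbn : ∀ p ∈ S, finAbv p β < 2 ^ ν p)
    {a : RatFunc k} (ha : a ∈ twists S m ν) (hG : GoodM S a) : SmallSelmer a β S.card := by
  obtain ⟨h1, h2, h3⟩ := ha
  have G : InvTwist S ∅ β a :=
    { nsq := hβ
      bS := fun p hp _ => hS p hp
      bZ := fun p hp => (hS p hp).le
      aZ := fun p hp => absurd hp (Finset.notMem_empty p)
      aS := h3
      inf := ⟨m, hm, by rw [h1, zpow_natCast], by rw [h1]; exact hbm⟩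
      fin := fun p hp => ⟨ν p, hν p hp, by rw [h2 p hp, zpow_natCast], by
        rw [h2 p hp]; exact hbn p hp⟩
      inj := hG.1
      inj' := hG.2 }
  have := G.small
  rwa [Finset.card_empty, Nat.add_zero] at this

theorem WW_union {S₀ T : Finset (HeightOneSpectrum k[X])} [DecidableEq (HeightOneSpectrum k[X])]
    {m : ℕ} {ν : HeightOneSpectrum k[X] → ℕ}
    (hν1 : ∀ p, p ∉ S₀ → ν p = 1) : WW (S₀ ∪ T) m ν = WW S₀ m ν := by
  classical
  unfold WW
  congr 1
  ext a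
  rw [mem_BF, mem_BF]
  constructor
  · rintro ⟨h1, h2, h3⟩
    refine ⟨h1, fun p hp => h2 p (Finset.mem_union_left _ hp), fun p hp => ?_⟩
    by_cases hpT : p ∈ T
    · have h4 := h2 p (Finset.mem_union_right _ hpT)
      simp only at h4
      rw [hν1 p hp] at h4
      simpa using h4
    · exact h3 p (by rw [Finset.mem_union, not_or]; exact ⟨hp, hpT⟩)
  · rintro ⟨h1, h2, h3⟩
    refine ⟨h1, fun p hp => ?_, fun p hp => h3 p fun h => hp (Finset.mem_union_left _ h)⟩
    by_cases hpS : p ∈ S₀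
    · exact h2 p hpS
    · exact (h3 p hpS).trans (one_le_pow₀ (by norm_num))

open scoped Classical in
/-- the good twists -/
noncomputable def GdT (β : RatFunc k) (S : Finset (HeightOneSpectrum k[X])) (m : ℕ)
    (ν : HeightOneSpectrum k[X] → ℕ) : Finset (RatFunc k) :=
  (TW S m ν).filter (fun a => SmallSelmer a β S.card)

open scoped Classical in
theorem cls_prop {β : RatFunc k} (hβ : ¬ IsSquare β) (S₀ : Finset (HeightOneSpectrum k[X]))
    (hS : ∀ p, p ∉ S₀ → finAbv p β = 1) {m : ℕ} {ν : HeightOneSpectrum k[X] → ℕ} (hm : Odd m)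
    (hν : ∀ p, Odd (ν p)) (hν1 : ∀ p, p ∉ S₀ → ν p = 1) (hbm : infAbv k β < 2 ^ m)
    (hbn : ∀ p ∈ S₀, finAbv p β < 2 ^ ν p) :
    ∃ N₀ : ℕ, ∀ N, N₀ ≤ N →
      0 < ∑ T ∈ FT S₀ N, ((TW (S₀ ∪ T) m ν).image asClass).card ∧
      2885 * ∑ T ∈ FT S₀ N, ((TW (S₀ ∪ T) m ν).image asClass).card
        ≤ 10000 * ∑ T ∈ FT S₀ N, ((GdT β (S₀ ∪ T) m ν).image asClass).card := by
  classical
  obtain ⟨N₀, h1⟩ := good_prop S₀ hm hν hν1
  refine ⟨N₀, fun N hN => ?_⟩
  obtain ⟨h2, h3⟩ := h1 N hN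
  have h4 : ∑ T ∈ FT S₀ N, (TW (S₀ ∪ T) m ν).card
      = (WW S₀ m ν).card * ∑ T ∈ FT S₀ N, ((TW (S₀ ∪ T) m ν).image asClass).card := by
    rw [Finset.mul_sum]
    apply Finset.sum_congr rfl
    intro T _
    rw [card_cls hm (fun p _ => hν p), WW_union hν1]
  have h5 : ∑ T ∈ FT S₀ N, ((TW (S₀ ∪ T) m ν).filter (fun a => GoodM (S₀ ∪ T) a)).card
      ≤ (WW S₀ m ν).card * ∑ T ∈ FT S₀ N, ((GdT β (S₀ ∪ T) m ν).image asClass).card := by
    rw [Finset.mul_sum]
    apply Finset.sum_le_sum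
    intro T _
    have h6 : (TW (S₀ ∪ T) m ν).filter (fun a => GoodM (S₀ ∪ T) a) ⊆ GdT β (S₀ ∪ T) m ν := by
      intro a ha
      rw [Finset.mem_filter] at ha
      unfold GdT
      rw [Finset.mem_filter]
      refine ⟨ha.1, small_of_goodM hβ (fun p hp => hS p fun h => hp (Finset.mem_union_left _ h)) hm
        (fun p _ => hν p) hbm (fun p hp => ?_) (mem_TW.mp ha.1) ha.2⟩
      by_cases hpS : p ∈ S₀
      · exact hbn p hpS
      · rw [hS p hpS]
        exact one_lt_pow₀ (by norm_num) (hν p).pos.ne'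
    have h7 := card_cls_le (S := S₀ ∪ T) (ν := ν) hm (fun p _ => hν p)
      (B := GdT β (S₀ ∪ T) m ν) (Finset.filter_subset _ _)
    rw [WW_union hν1] at h7
    exact (Finset.card_le_card h6).trans h7
  have hW := WW_pos (S := S₀) (m := m) (ν := ν)
  rw [h4] at h2 h3
  constructor
  · exact Nat.pos_of_mul_pos_left h2
  · have h8 := h3.trans (Nat.mul_le_mul_left 10000 h5)
    apply Nat.le_of_mul_le_mul_left _ hW
    calc _ = 2885 * ((WW S₀ m ν).card * ∑ T ∈ FT S₀ N, ((TW (S₀ ∪ T) m ν).image asClass).card) := by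
          ring
      _ ≤ _ := h8
      _ = _ := by ring

end Pool.Agent.H2
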