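import Pool.Agent.H2.VRes

/-!
# All the quadratic twists, with no local condition
-/

set_option linter.unusedSectionVars false

namespace Pool.Agent.H2

open Polynomial IsDedekindDomain

universe u

variable {k : Type u} [Field k] [Finite k] [CharP k 2]

/-- All the poles of the function `a` have odd order: a pole of order `m` at infinity (none if
`m = 0`) and a pole of order `2 e(p) - 1` at the places `p` with `e(p) ≠ 0`. So the conductor of
`z² + z = a` has degree `2 ((m + 1) / 2 + ∑ e(p) deg p)`. -/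
def Reduced (m : ℕ) (e : HeightOneSpectrum k[X] →₀ ℕ) (a : RatFunc k) : Prop :=
  ((m = 0 ∧ infAbv k a ≤ 1) ∨ (Odd m ∧ infAbv k a = 2 ^ m)) ∧
    ∀ p, (e p = 0 → finAbv p a ≤ 1) ∧ (e p ≠ 0 → finAbv p a = 2 ^ (2 * e p - 1))

theorem ofType_empty {m : ℕ} {n : HeightOneSpectrum k[X] → ℕ} {e : HeightOneSpectrum k[X] →₀ ℕ}
    {a : RatFunc k} : OfType ∅ m n e a ↔ infAbv k a = 2 ^ m ∧
      ∀ p, (e p = 0 → finAbv p a ≤ 1) ∧ (e p ≠ 0 → finAbv p a = 2 ^ (2 * e p - 1)) := by
  constructor
  · rintro ⟨h1, -, h3⟩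
    exact ⟨h1, fun p => h3 p (Finset.notMem_empty p)⟩
  · rintro ⟨h1, h3⟩
    exact ⟨h1, fun p hp => absurd hp (Finset.notMem_empty p), fun p _ => h3 p⟩

theorem card_EN_le (w : ℕ) : (EN (∅ : Finset (HeightOneSpectrum k[X])) w).card ≤ Nat.card k ^ w := by
  classical
  rw [← card_MM]
  apply Finset.card_le_card_of_injOn Pol
  · intro e he
    rw [Finset.mem_coe, mem_EN] at he
    rw [Finset.mem_coe, mem_MM]
    exact ⟨Pol_monic e, by rw [Pol_deg, he.2]⟩
  · exact Pol_inj.injOn

theorem infAbv_X' : infAbv k (RatFunc.X : RatFunc k) = 2 := infAbv_X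

theorem finAbv_X_le (p : HeightOneSpectrum k[X]) : finAbv p (RatFunc.X : RatFunc k) ≤ 1 := by
  rw [← RatFunc.algebraMap_X]
  exact finAbv_poly p X

theorem shift_zero {e : HeightOneSpectrum k[X] →₀ ℕ} {a : RatFunc k} (h : Reduced 0 e a)
    (n : HeightOneSpectrum k[X] → ℕ) : OfType ∅ 1 n e (RatFunc.X + a) := by
  obtain ⟨h1, h2⟩ := h
  have h3 : infAbv k a ≤ 1 := by
    rcases h1 with h1 | h1
    · exact h1.2
    · exact absurd h1.1 (by decide)
  rw [ofType_empty]
  refine ⟨?_, fun p => ⟨fun h4 => ?_, fun h4 => ?_⟩⟩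
  · rw [add_comm, infAbv_add_of_lt, infAbv_X, pow_one]
    rw [infAbv_X]; linarith
  · exact (finAbv_nonarch p _ _).trans (max_le (finAbv_X_le p) ((h2 p).1 h4))
  · have h5 := (h2 p).2 h4
    have h6 : (1 : ℝ) < 2 ^ (2 * e p - 1) := one_lt_pow₀ (by norm_num) (by omega)
    rw [finAbv_add_of_lt, h5]
    rw [h5]
    exact lt_of_le_of_lt (finAbv_X_le p) h6

open scoped Classical in
/-- the classes of a given type -/
noncomputable def CL (j : ℕ) (e : HeightOneSpectrum k[X] →₀ ℕ) : Finset (Set (RatFunc k)) :=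
  if j = 0 then
    ((TW (∅ ∪ e.support) 1 (nu ∅ (fun _ => 1) e)).image asClass).image
      (fun c => (fun x => RatFunc.X + x) '' c)
  else (TW (∅ ∪ e.support) (2 * j - 1) (nu ∅ (fun _ => 1) e)).image asClass

theorem CL_card {M j : ℕ} (hj : j ≤ M) {e : HeightOneSpectrum k[X] →₀ ℕ}
    (he : e ∈ EN ∅ (M - j)) : (CL j e).card ≤ 2 * Nat.card k ^ (M + 1) := by
  classical
  have hn : ∀ p ∈ (∅ : Finset (HeightOneSpectrum k[X])), Odd ((fun _ => 1 : _ → ℕ) p) :=
    fun p hp => absurd hp (Finset.notMem_empty p)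
  have hq : 1 ≤ Nat.card k := Nat.card_pos
  unfold CL
  split_ifs with h0
  · subst h0
    rw [Nat.sub_zero] at he
    refine Finset.card_image_le.trans ?_
    have h1 := cls_bound (m := 1) (n := fun _ => 1) odd_one hn he
    unfold cls at h1
    refine h1.trans (le_of_eq ?_)
    rw [Finset.sum_empty, pow_succ]; ring
  · have hodd : Odd (2 * j - 1) := ⟨j - 1, by omega⟩
    have h1 := cls_bound (m := 2 * j - 1) (n := fun _ => 1) hodd hn he
    unfold cls at h1
    refine h1.trans ?_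
    rw [Finset.sum_empty, mul_assoc, ← pow_add]
    exact Nat.mul_le_mul_left _ (Nat.pow_le_pow_right hq (by omega))

theorem mem_CL {m : ℕ} {e : HeightOneSpectrum k[X] →₀ ℕ} {a : RatFunc k} (h : Reduced m e a) :
    asClass a ∈ CL ((m + 1) / 2) e := by
  classical
  unfold CL
  have hemp : ∀ p ∈ (∅ : Finset (HeightOneSpectrum k[X])), e p = 0 :=
    fun p hp => absurd hp (Finset.notMem_empty p)
  rcases h.1 with h1 | h1
  · obtain ⟨rfl, h2⟩ := h1
    rw [if_pos (by norm_num), Finset.mem_image]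
    refine ⟨asClass (RatFunc.X + a), Finset.mem_image_of_mem _ (mem_TW.mpr ?_), ?_⟩
    · exact (ofType_iff hemp).mp (shift_zero h _)
    · rw [asClass_shift]
      congr 1
      have h3 : (2 : RatFunc k) = 0 := CharTwo.two_eq_zero
      linear_combination RatFunc.X * h3
  · obtain ⟨j, hj⟩ := h1.1
    rw [if_neg (by omega)]
    have hm : 2 * ((m + 1) / 2) - 1 = m := by omega
    rw [hm]
    apply Finset.mem_image_of_mem
    rw [mem_TW]
    exact (ofType_iff hemp).mp (ofType_empty.mpr ⟨h1.2, h.2⟩)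

/-- **The number of all the classes.** -/
theorem tot_bound (M : ℕ) :
    (asClass '' {a : RatFunc k | ∃ m e, Reduced m e a ∧ (m + 1) / 2 + wt e = M}).Finite ∧
    (asClass '' {a : RatFunc k | ∃ m e, Reduced m e a ∧ (m + 1) / 2 + wt e = M}).ncard
      ≤ 4 * Nat.card k ^ (2 * M + 1) := by
  classical
  set U := (Finset.range (M + 1)).biUnion fun j =>
    (EN (∅ : Finset (HeightOneSpectrum k[X])) (M - j)).biUnion fun e => CL j e with hU
  have hsub : asClass '' {a : RatFunc k | ∃ m e, Reduced m e a ∧ (m + 1) / 2 + wt e = M}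
      ⊆ (U : Set (Set (RatFunc k))) := by
    rintro _ ⟨a, ⟨m, e, h1, h2⟩, rfl⟩
    rw [Finset.mem_coe, hU, Finset.mem_biUnion]
    refine ⟨(m + 1) / 2, Finset.mem_range.mpr (by omega), ?_⟩
    rw [Finset.mem_biUnion]
    exact ⟨e, mem_EN.mpr ⟨fun p hp => absurd hp (Finset.notMem_empty p), by omega⟩, mem_CL h1⟩
  refine ⟨U.finite_toSet.subset hsub, ?_⟩
  have h1 := Set.ncard_le_ncard hsub U.finite_toSet
  rw [Set.ncard_coe_finset] at h1
  refine h1.trans ?_
  have h2 : U.card ≤ ∑ j ∈ Finset.range (M + 1), Nat.card k ^ (M - j) * (2 * Nat.card k ^ (M + 1)) := by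
    refine Finset.card_biUnion_le.trans (Finset.sum_le_sum fun j hj => ?_)
    have hjM : j ≤ M := by have := Finset.mem_range.mp hj; omega
    refine Finset.card_biUnion_le.trans ((Finset.sum_le_sum fun e he => CL_card hjM he).trans ?_)
    rw [Finset.sum_const, smul_eq_mul]
    exact Nat.mul_le_mul_right _ (card_EN_le _)
  refine h2.trans ?_
  rw [← Finset.sum_mul]
  have h3 : ∑ j ∈ Finset.range (M + 1), Nat.card k ^ (M - j) ≤ 2 * Nat.card k ^ M := by
    have hq : 2 ≤ Nat.card k := Finite.one_lt_card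
    have h4 : ∑ j ∈ Finset.range (M + 1), Nat.card k ^ (M - j)
        = ∑ j ∈ Finset.range (M + 1), Nat.card k ^ j := Finset.sum_range_reflect (fun j =>
          Nat.card k ^ j) (M + 1) ▸ by
      apply Finset.sum_congr rfl
      intro j hj
      congr 1
    rw [h4]
    clear h1 h2 hsub h4 hU U
    induction M with
    | zero => simp
    | succ M ih =>
      rw [Finset.sum_range_succ, pow_succ]
      have : 0 < Nat.card k ^ M := by positivity
      nlinarith
  calc (∑ j ∈ Finset.range (M + 1), Nat.card k ^ (M - j)) * (2 * Nat.card k ^ (M + 1))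
      ≤ (2 * Nat.card k ^ M) * (2 * Nat.card k ^ (M + 1)) := Nat.mul_le_mul_right _ h3
    _ = _ := by
      have : 2 * M + 1 = M + (M + 1) := by ring
      rw [this, pow_add]; ring

end Pool.Agent.H2
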