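import Pool.Agent.H2.VTot

/-!
# A positive proportion of all the quadratic twists
-/

set_option linter.unusedSectionVars false

namespace Pool.Agent.H2

open Polynomial IsDedekindDomain

universe u

variable {k : Type u} [Field k] [Finite k] [CharP k 2]

theorem finAbv_eq_one_of {p : HeightOneSpectrum k[X]} {f : k[X]} (h : ¬ gQ p ∣ f) :
    finAbv p (algebraMap k[X] (RatFunc k) f) = 1 := by
  refine le_antisymm (finAbv_poly p f) ?_
  by_contra h1
  rw [not_le, finAbv_lt_one, gQ_span, Ideal.mem_span_singleton] at h1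
  exact h h1

theorem exists_places (b : RatFunc k) (hb : b ≠ 0) :
    ∃ S : Finset (HeightOneSpectrum k[X]), ∀ p, p ∉ S → finAbv p b = 1 := by
  classical
  have hn : b.num ≠ 0 := RatFunc.num_ne_zero hb
  have hd : b.denom ≠ 0 := b.denom_ne_zero
  refine ⟨PL k (b.num * b.denom).natDegree, fun p hp => ?_⟩
  rw [mem_PL, not_le] at hp
  have h1 : ¬ gQ p ∣ b.num * b.denom := fun h =>
    absurd (natDegree_le_of_dvd h (mul_ne_zero hn hd)) (by unfold dp at hp; omega)
  have h2 : ¬ gQ p ∣ b.num := fun h => h1 (Dvd.dvd.mul_right h _)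
  have h3 : ¬ gQ p ∣ b.denom := fun h => h1 (Dvd.dvd.mul_left h _)
  rw [← b.num_div_denom, map_div₀, finAbv_eq_one_of h2, finAbv_eq_one_of h3, div_one]

theorem exists_odd_gt (x : ℝ) : ∃ m : ℕ, Odd m ∧ x < 2 ^ m := by
  obtain ⟨m, hm⟩ := pow_unbounded_of_one_lt x (by norm_num : (1 : ℝ) < 2)
  exact ⟨2 * m + 1, ⟨m, rfl⟩, lt_of_lt_of_le hm (pow_le_pow_right₀ (by norm_num) (by omega))⟩

theorem wt_add (e e' : HeightOneSpectrum k[X] →₀ ℕ) : wt (e + e') = wt e + wt e' := by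
  classical
  have h : ∀ e : HeightOneSpectrum k[X] →₀ ℕ, wt e = e.sum fun p j => j * dp p := fun _ => rfl
  rw [h, h, h, Finsupp.sum_add_index' (fun p => by rw [Nat.zero_mul])
    (fun p x y => by rw [Nat.add_mul])]

/-- the exponents at the fixed places -/
noncomputable def eS (S : Finset (HeightOneSpectrum k[X])) (n : HeightOneSpectrum k[X] → ℕ) :
    HeightOneSpectrum k[X] →₀ ℕ :=
  Finsupp.onFinset S (fun p => by classical exact if p ∈ S then (n p + 1) / 2 else 0)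
    (fun p h => by
      classical
      by_contra hp
      exact h (if_neg hp))

theorem eS_in {S : Finset (HeightOneSpectrum k[X])} {n : HeightOneSpectrum k[X] → ℕ}
    {p : HeightOneSpectrum k[X]} (hp : p ∈ S) : eS S n p = (n p + 1) / 2 := by
  unfold eS
  rw [Finsupp.onFinset_apply, if_pos hp]

theorem eS_out {S : Finset (HeightOneSpectrum k[X])} {n : HeightOneSpectrum k[X] → ℕ}
    {p : HeightOneSpectrum k[X]} (hp : p ∉ S) : eS S n p = 0 := by
  unfold eS
  rw [Finsupp.onFinset_apply, if_neg hp]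

theorem reduced_of_type {S : Finset (HeightOneSpectrum k[X])} {m : ℕ}
    {n : HeightOneSpectrum k[X] → ℕ} (hm : Odd m) (hn : ∀ p ∈ S, Odd (n p))
    {e : HeightOneSpectrum k[X] →₀ ℕ} {a : RatFunc k} (h : OfType S m n e a) :
    Reduced m (e + eS S n) a := by
  obtain ⟨h1, h2, h3⟩ := h
  refine ⟨Or.inr ⟨hm, h1⟩, fun p => ?_⟩
  rw [Finsupp.add_apply]
  by_cases hp : p ∈ S
  · obtain ⟨j, hj⟩ := hn p hp
    rw [(h2 p hp).2, eS_in hp]
    refine ⟨fun h => by omega, fun _ => ?_⟩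
    rw [(h2 p hp).1]
    congr 1; omega
  · rw [eS_out hp, Nat.add_zero]
    exact h3 p hp

theorem card_of_type {S : Finset (HeightOneSpectrum k[X])} {m : ℕ}
    {n : HeightOneSpectrum k[X] → ℕ} (hn : ∀ p ∈ S, Odd (n p))
    {e : HeightOneSpectrum k[X] →₀ ℕ} {a : RatFunc k} (h : OfType S m n e a) :
    (e + eS S n).support.card = S.card + e.support.card := by
  classical
  have h1 : (e + eS S n).support = S ∪ e.support := by
    ext p
    rw [Finsupp.mem_support_iff, Finset.mem_union, Finsupp.mem_support_iff, Finsupp.add_apply]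
    by_cases hp : p ∈ S
    · obtain ⟨j, hj⟩ := hn p hp
      rw [eS_in hp]
      exact ⟨fun _ => Or.inl hp, fun _ => by omega⟩
    · rw [eS_out hp, Nat.add_zero]
      exact ⟨Or.inr, fun h => h.resolve_left hp⟩
  rw [h1, Finset.card_union_of_disjoint]
  rw [Finset.disjoint_left]
  intro p hp h2
  exact (Finsupp.mem_support_iff.mp h2) (h.2.1 p hp).2

theorem types_ncard {S : Finset (HeightOneSpectrum k[X])} {m : ℕ}
    {n : HeightOneSpectrum k[X] → ℕ} (hn : ∀ p ∈ S, Odd (n p)) (N : ℕ) :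
    (asClass '' {a | ∃ e, OfType S m n e a ∧ wt e = N}).ncard = ∑ e ∈ EN S N, cls S m n e := by
  classical
  set U := (EN S N).biUnion (fun e => (TW (S ∪ e.support) m (nu S n e)).image asClass) with hU
  have hUeq : asClass '' {a | ∃ e, OfType S m n e a ∧ wt e = N} = (U : Set (Set (RatFunc k))) := by
    ext c
    rw [Finset.mem_coe, hU, Finset.mem_biUnion]
    constructor
    · rintro ⟨a, ⟨e, ha, he⟩, rfl⟩
      have he0 : ∀ p ∈ S, e p = 0 := fun p hp => (ha.2.1 p hp).2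
      exact ⟨e, mem_EN.mpr ⟨he0, he⟩,
        Finset.mem_image_of_mem _ (mem_TW.mpr ((ofType_iff he0).mp ha))⟩
    · rintro ⟨e, he, hc⟩
      rw [Finset.mem_image] at hc
      obtain ⟨a, ha, rfl⟩ := hc
      rw [mem_EN] at he
      exact ⟨a, ⟨e, (ofType_iff he.1).mpr (mem_TW.mp ha), he.2⟩, rfl⟩
  rw [hUeq, Set.ncard_coe_finset, hU,
    Finset.card_biUnion fun e he e' he' hne => types_disjoint hn he he' hne]
  rfl

/-- **Main theorem.** -/
theorem tot_prop (b : RatFunc k) (hb : ∀ c : k, b ≠ RatFunc.C c) :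
    ∃ (β : RatFunc k) (r : ℕ), b = β ^ 2 ^ r ∧ ¬ IsSquare β ∧ ∃ C M₀ : ℕ, ∀ M, M₀ ≤ M →
      (asClass '' {a : RatFunc k | ∃ m e, Reduced m e a ∧ (m + 1) / 2 + wt e = M}).Finite ∧
      (asClass '' {a : RatFunc k | ∃ m e, Reduced m e a ∧ (m + 1) / 2 + wt e = M}).Nonempty ∧
      (asClass '' {a : RatFunc k | ∃ m e, Reduced m e a ∧ (m + 1) / 2 + wt e = M}).ncard ≤
        C * (asClass '' {a : RatFunc k | ∃ m e, Reduced m e a ∧ (m + 1) / 2 + wt e = M ∧
          Finite (Pts (gcurve a b) (RatFunc k)) ∧ SmallSelmer a β e.support.card}).ncard := by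
  classical
  obtain ⟨β, r, hβ, hβ2⟩ := exists_root b hb
  refine ⟨β, r, hβ, hβ2, ?_⟩
  have hb0 : b ≠ 0 := by rintro rfl; exact hb 0 (by rw [map_zero])
  obtain ⟨S, hS⟩ := exists_places b hb0
  obtain ⟨m₀, hm₀, hbm⟩ := exists_odd_gt (infAbv k b)
  choose n₀ hn₀ hbn using fun p => exists_odd_gt (finAbv (k := k) p b)
  have hn : ∀ p ∈ S, Odd (n₀ p) := fun p _ => hn₀ p
  obtain ⟨N₁, h1⟩ := all_twists_root hβ hβ2 S hS m₀ n₀ hm₀ hbm fun p hp => ⟨hn₀ p, hbn p⟩
  obtain ⟨c, hc, N₂, h2⟩ := low_cls S hm₀ hn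
  set s := (m₀ + 1) / 2 + wt (eS S n₀) with hs
  set q := Nat.card k with hq
  have hqpos : 0 < q := Nat.card_pos
  obtain ⟨C, hC⟩ := exists_nat_gt (4 * (q : ℝ) ^ (2 * s + 1) * 1000 / (288 * c))
  refine ⟨C, s + N₁ + N₂, fun M hM => ?_⟩
  obtain ⟨N, rfl⟩ : ∃ N, M = N + s := ⟨M - s, by omega⟩
  obtain ⟨h3, h4⟩ := tot_bound (k := k) (N + s)
  obtain ⟨h5, h6, h7⟩ := h1 N (by omega)
  have h8 := h2 N (by omega)
  rw [← types_ncard hn] at h8
  have hsub : asClass '' {a | ∃ e, OfType S m₀ n₀ e a ∧ wt e = N ∧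
      Finite (Pts (gcurve a b) (RatFunc k)) ∧ SmallSelmer a β (S.card + e.support.card)}
      ⊆ asClass '' {a : RatFunc k | ∃ m e, Reduced m e a ∧ (m + 1) / 2 + wt e = N + s ∧
          Finite (Pts (gcurve a b) (RatFunc k)) ∧ SmallSelmer a β e.support.card} := by
    apply Set.image_mono
    rintro a ⟨e, h9, h10, h11, h12⟩
    refine ⟨m₀, e + eS S n₀, reduced_of_type hm₀ hn h9, ?_, h11, ?_⟩
    · rw [wt_add, h10, hs]; omega
    · rw [card_of_type hn h9]; exact h12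
  have hfin : (asClass '' {a : RatFunc k | ∃ m e, Reduced m e a ∧ (m + 1) / 2 + wt e = N + s ∧
          Finite (Pts (gcurve a b) (RatFunc k)) ∧ SmallSelmer a β e.support.card}).Finite := by
    refine h3.subset (Set.image_mono ?_)
    rintro a ⟨m, e, h9, h10, -⟩
    exact ⟨m, e, h9, h10⟩
  have h13 := Set.ncard_le_ncard hsub hfin
  have h14 : (asClass '' {a | ∃ e, OfType S m₀ n₀ e a ∧ wt e = N}).Nonempty := h6
  refine ⟨h3, ?_, ?_⟩
  · obtain ⟨_, a, ⟨e, h9, h10⟩, rfl⟩ := h6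
    refine ⟨_, a, ⟨m₀, e + eS S n₀, reduced_of_type hm₀ hn h9, ?_⟩, rfl⟩
    rw [wt_add, h10, hs]; omega
  · set T := (asClass '' {a : RatFunc k | ∃ m e, Reduced m e a ∧ (m + 1) / 2 + wt e = N + s}).ncard
    set G := (asClass '' {a : RatFunc k | ∃ m e, Reduced m e a ∧ (m + 1) / 2 + wt e = N + s ∧
          Finite (Pts (gcurve a b) (RatFunc k)) ∧ SmallSelmer a β e.support.card}).ncard
    set F := (asClass '' {a | ∃ e, OfType S m₀ n₀ e a ∧ wt e = N}).ncard
    set G' := (asClass '' {a | ∃ e, OfType S m₀ n₀ e a ∧ wt e = N ∧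
      Finite (Pts (gcurve a b) (RatFunc k)) ∧ SmallSelmer a β (S.card + e.support.card)}).ncard
    have h15 : (288 : ℝ) * F ≤ 1000 * G := by exact_mod_cast h7.trans (Nat.mul_le_mul_left _ h13)
    have h16 : (T : ℝ) ≤ 4 * (q : ℝ) ^ (2 * s + 1) * ((q : ℝ) ^ N) ^ 2 := by
      have h17 : (T : ℝ) ≤ 4 * (q : ℝ) ^ (2 * (N + s) + 1) := by exact_mod_cast h4
      refine h17.trans (le_of_eq ?_)
      rw [← pow_mul, mul_assoc, ← pow_add]
      congr 2; ring
    have hq0 : (0 : ℝ) < 4 * (q : ℝ) ^ (2 * s + 1) := by positivity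
    have h18 : ((q : ℝ) ^ N) ^ 2 ≤ 1000 * G / (288 * c) := by
      rw [le_div_iff₀ (by positivity)]
      linarith
    have h19 : (T : ℝ) ≤ C * G := by
      calc (T : ℝ) ≤ 4 * (q : ℝ) ^ (2 * s + 1) * (1000 * G / (288 * c)) :=
            h16.trans (mul_le_mul_of_nonneg_left h18 hq0.le)
        _ = 4 * (q : ℝ) ^ (2 * s + 1) * 1000 / (288 * c) * G := by ring
        _ ≤ C * G := mul_le_mul_of_nonneg_right hC.le (Nat.cast_nonneg _)
    exact_mod_cast h19

end Pool.Agent.H2
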