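import Pool.Agent.H2.VErr

/-!
# Types of twists: the exponents of the conductor
-/

set_option linter.unusedSectionVars false

namespace Pool.Agent.H2

open Polynomial IsDedekindDomain

universe u

variable {k : Type u} [Field k] [Finite k] [CharP k 2]

/-- the degree of a divisor -/
noncomputable def wt (e : HeightOneSpectrum k[X] →₀ ℕ) : ℕ := ∑ p ∈ e.support, e p * dp p

/-- the polynomial with given exponents -/
noncomputable def Pol (e : HeightOneSpectrum k[X] →₀ ℕ) : k[X] := ∏ p ∈ e.support, gQ p ^ e p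

theorem Pol_monic (e : HeightOneSpectrum k[X] →₀ ℕ) : (Pol e).Monic :=
  monic_prod_of_monic _ _ fun p _ => (gQ_monic p).pow _

theorem Pol_deg (e : HeightOneSpectrum k[X] →₀ ℕ) : (Pol e).natDegree = wt e := by
  unfold Pol wt
  rw [natDegree_prod_of_monic _ _ fun p _ => (gQ_monic p).pow _]
  apply Finset.sum_congr rfl
  intro p _
  rw [natDegree_pow]; rfl

theorem Pol_abs (e : HeightOneSpectrum k[X] →₀ ℕ) (p : HeightOneSpectrum k[X]) :
    finAbv p (algebraMap k[X] (RatFunc k) (Pol e)) = (2 ^ e p)⁻¹ := by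
  unfold Pol
  by_cases hp : p ∈ e.support
  · exact finAbv_prod e.support e hp
  · rw [finAbv_prod' e.support e hp, Finsupp.notMem_support_iff.mp hp, pow_zero, inv_one]

theorem Pol_inj : Function.Injective (Pol : (HeightOneSpectrum k[X] →₀ ℕ) → k[X]) := by
  intro e e' h
  ext p
  have h1 := Pol_abs e p
  rw [h, Pol_abs e' p, inv_inj] at h1
  exact (pow_right_injective₀ (by norm_num : (0 : ℝ) < 2) (by norm_num) h1).symm

theorem wt_finite (N : ℕ) : {e : HeightOneSpectrum k[X] →₀ ℕ | wt e ≤ N}.Finite := by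
  classical
  have h1 : ({f : k[X] | f.Monic ∧ f.natDegree ≤ N}).Finite := by
    apply ((Finset.range (N + 1)).biUnion (MM k)).finite_toSet.subset
    intro f hf
    rw [Finset.mem_coe, Finset.mem_biUnion]
    exact ⟨f.natDegree, Finset.mem_range.mpr (Nat.lt_succ_of_le hf.2), mem_MM.mpr ⟨hf.1, rfl⟩⟩
  apply (h1.preimage Pol_inj.injOn).subset
  intro e he
  exact ⟨Pol_monic e, by rw [Pol_deg]; exact he⟩

/-- the types of weight `N`, with no condition on `S₀` -/
noncomputable def EN (S₀ : Finset (HeightOneSpectrum k[X])) (N : ℕ) :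
    Finset (HeightOneSpectrum k[X] →₀ ℕ) :=
  ((wt_finite N).subset (t := {e | (∀ p ∈ S₀, e p = 0) ∧ wt e = N}) fun _ he => he.2.le).toFinset

theorem mem_EN {S₀ : Finset (HeightOneSpectrum k[X])} {N : ℕ} {e : HeightOneSpectrum k[X] →₀ ℕ} :
    e ∈ EN S₀ N ↔ (∀ p ∈ S₀, e p = 0) ∧ wt e = N := by
  unfold EN
  rw [Set.Finite.mem_toFinset]; rfl

open scoped Classical in
/-- the orders of the poles -/
noncomputable def nu (S₀ : Finset (HeightOneSpectrum k[X])) (n : HeightOneSpectrum k[X] → ℕ)
    (e : HeightOneSpectrum k[X] →₀ ℕ) (p : HeightOneSpectrum k[X]) : ℕ :=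
  if p ∈ S₀ then n p else max 1 (2 * e p - 1)

/-- the part of the divisor with multiplicities -/
noncomputable def pw (e : HeightOneSpectrum k[X] →₀ ℕ) : HeightOneSpectrum k[X] →₀ ℕ :=
  e.mapRange (fun i => if i = 1 then 0 else i) (by simp)

theorem pw_apply (e : HeightOneSpectrum k[X] →₀ ℕ) (p : HeightOneSpectrum k[X]) :
    pw e p = if e p = 1 then 0 else e p := Finsupp.mapRange_apply

open scoped Classical in
/-- the simple part of the divisor -/
noncomputable def sp (e : HeightOneSpectrum k[X] →₀ ℕ) : Finset (HeightOneSpectrum k[X]) :=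
  e.support.filter (fun p => e p = 1)

theorem mem_sp {e : HeightOneSpectrum k[X] →₀ ℕ} {p : HeightOneSpectrum k[X]} :
    p ∈ sp e ↔ e p = 1 := by
  unfold sp
  rw [Finset.mem_filter, Finsupp.mem_support_iff]
  constructor
  · exact fun h => h.2
  · intro h; exact ⟨by rw [h]; exact one_ne_zero, h⟩

theorem nu_pw (S₀ : Finset (HeightOneSpectrum k[X])) (n : HeightOneSpectrum k[X] → ℕ)
    (e : HeightOneSpectrum k[X] →₀ ℕ) : nu S₀ n (pw e) = nu S₀ n e := by
  funext p
  unfold nu
  rw [pw_apply]
  split_ifs with h1 h2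
  · rfl
  · rw [h2]; rfl
  · rfl

theorem mem_pw_support {e : HeightOneSpectrum k[X] →₀ ℕ} {p : HeightOneSpectrum k[X]} :
    p ∈ (pw e).support ↔ 2 ≤ e p := by
  rw [Finsupp.mem_support_iff, pw_apply]
  split_ifs with h <;> omega

theorem supp_eq [DecidableEq (HeightOneSpectrum k[X])] (e : HeightOneSpectrum k[X] →₀ ℕ) :
    e.support = (pw e).support ∪ sp e := by
  ext p
  rw [Finset.mem_union, mem_pw_support, mem_sp, Finsupp.mem_support_iff]
  omega

theorem disj_pw_sp (e : HeightOneSpectrum k[X] →₀ ℕ) : Disjoint (pw e).support (sp e) := by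
  rw [Finset.disjoint_left]
  intro p h1 h2
  rw [mem_pw_support] at h1
  rw [mem_sp] at h2
  omega

theorem wt_split (e : HeightOneSpectrum k[X] →₀ ℕ) : wt e = wt (pw e) + dg (sp e) := by
  classical
  unfold wt
  rw [supp_eq e, Finset.sum_union (disj_pw_sp e), dg_eq]
  congr 1
  · apply Finset.sum_congr rfl
    intro p hp
    rw [mem_pw_support] at hp
    rw [pw_apply, if_neg (by omega)]
  · apply Finset.sum_congr rfl
    intro p hp
    rw [mem_sp] at hp
    rw [hp, one_mul]

/-- adding simple places -/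
noncomputable def ins (e : HeightOneSpectrum k[X] →₀ ℕ) (T : Finset (HeightOneSpectrum k[X])) :
    HeightOneSpectrum k[X] →₀ ℕ := by
  classical
  exact Finsupp.onFinset (e.support ∪ T) (fun p => if p ∈ T then 1 else e p) (by
    intro p hp
    rw [Finset.mem_union, Finsupp.mem_support_iff]
    by_cases h : p ∈ T
    · exact Or.inr h
    · rw [if_neg h] at hp; exact Or.inl hp)

theorem ins_apply [DecidableEq (HeightOneSpectrum k[X])] (e : HeightOneSpectrum k[X] →₀ ℕ)
    (T : Finset (HeightOneSpectrum k[X]))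
    (p : HeightOneSpectrum k[X]) : ins e T p = if p ∈ T then 1 else e p := by
  unfold ins
  rw [Finsupp.onFinset_apply]
  by_cases h : p ∈ T
  · rw [if_pos h, if_pos h]
  · rw [if_neg h, if_neg h]

open scoped Classical in
/-- the types with a given nonsimple part -/
theorem sum_fiber (S₀ : Finset (HeightOneSpectrum k[X])) {N : ℕ} {e₁ : HeightOneSpectrum k[X] →₀ ℕ}
    (h1 : pw e₁ = e₁) (h0 : ∀ p ∈ S₀, e₁ p = 0) (hN : wt e₁ ≤ N)
    (F : Finset (HeightOneSpectrum k[X]) → ℕ) :
    ∑ e ∈ (EN S₀ N).filter (fun e => pw e = e₁), F (S₀ ∪ e.support)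
      = ∑ T ∈ FT (S₀ ∪ e₁.support) (N - wt e₁), F ((S₀ ∪ e₁.support) ∪ T) := by
  classical
  have hne : ∀ p, e₁ p ≠ 1 := by
    intro p hp
    have h2 := pw_apply e₁ p
    rw [h1, if_pos hp] at h2
    omega
  apply Finset.sum_nbij sp
  · intro e he
    rw [Finset.mem_filter, mem_EN] at he
    obtain ⟨⟨h2, h3⟩, h4⟩ := he
    rw [mem_FT]
    constructor
    · rw [Finset.disjoint_left]
      intro p hp hps
      rw [mem_sp] at hps
      rcases Finset.mem_union.mp hp with h | h
      · have := h2 p h; omega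
      · rw [← h4, mem_pw_support] at h; omega
    · have h5 := wt_split e
      rw [h3, h4] at h5
      omega
  · intro e he e' he' h
    rw [Finset.mem_coe, Finset.mem_filter] at he he'
    ext p
    by_cases hp : e p = 1
    · have h2 : p ∈ sp e' := by rw [← h]; exact mem_sp.mpr hp
      rw [hp, mem_sp.mp h2]
    · have hp' : e' p ≠ 1 := by
        intro h3
        exact hp (mem_sp.mp (by rw [h]; exact mem_sp.mpr h3))
      have h2 := pw_apply e p
      have h3 := pw_apply e' p
      rw [if_neg hp, he.2] at h2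
      rw [if_neg hp', he'.2] at h3
      rw [← h2, ← h3]
  · intro T hT
    rw [Finset.mem_coe, mem_FT] at hT
    obtain ⟨h2, h3⟩ := hT
    have hTe : ∀ p ∈ T, e₁ p = 0 := by
      intro p hp
      by_contra h
      exact Finset.disjoint_left.mp h2
        (Finset.mem_union_right _ (Finsupp.mem_support_iff.mpr h)) hp
    have h4 : pw (ins e₁ T) = e₁ := by
      ext p
      rw [pw_apply, ins_apply]
      by_cases hp : p ∈ T
      · rw [if_pos hp, if_pos rfl, hTe p hp]
      · rw [if_neg hp, if_neg (hne p)]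
    have h5 : sp (ins e₁ T) = T := by
      ext p
      rw [mem_sp, ins_apply]
      by_cases hp : p ∈ T
      · rw [if_pos hp]; exact ⟨fun _ => hp, fun _ => rfl⟩
      · rw [if_neg hp]; exact ⟨fun h => absurd h (hne p), fun h => absurd h hp⟩
    refine ⟨ins e₁ T, ?_, h5⟩
    rw [Finset.mem_coe, Finset.mem_filter, mem_EN]
    refine ⟨⟨fun p hp => ?_, ?_⟩, h4⟩
    · rw [ins_apply, if_neg (fun h => Finset.disjoint_left.mp h2 (Finset.mem_union_left _ hp) h)]
      exact h0 p hp
    · rw [wt_split, h4, h5, h3]; omega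
  · intro e he
    rw [Finset.mem_filter] at he
    rw [← he.2, Finset.union_assoc, ← supp_eq]

end Pool.Agent.H2
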