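import Pool.Agent.H2.VDeep3

/-!
# All the quadratic twists of given orders, for all the curves at once
-/

set_option linter.unusedSectionVars false

namespace Pool.Agent.H2

open Polynomial IsDedekindDomain

universe u

variable {k : Type u} [Field k] [Finite k] [CharP k 2]

/-- The function `b` has a pole of order less than `m` at infinity and less than `n p` at the places
`p ∈ S`, and no zero and no pole at the other places. -/
def Less (S : Finset (HeightOneSpectrum k[X])) (m : ℕ) (n : HeightOneSpectrum k[X] → ℕ)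
    (b : RatFunc k) : Prop :=
  infAbv k b < 2 ^ m ∧ (∀ p ∈ S, finAbv p b < 2 ^ n p) ∧ ∀ p, p ∉ S → finAbv p b = 1

theorem adm_of_less {S : Finset (HeightOneSpectrum k[X])} {m : ℕ}
    {n : HeightOneSpectrum k[X] → ℕ} (hn : ∀ p ∈ S, Odd (n p)) {e : HeightOneSpectrum k[X] →₀ ℕ}
    {a b : RatFunc k} (ha : OfType S m n e a) (hb : Less S m n b) : Adm a b := by
  obtain ⟨h1, h2, h3⟩ := ha
  obtain ⟨h4, h5, h6⟩ := hb
  refine ⟨by rw [h1]; exact h4, fun p => ⟨fun h => ?_, fun h => ?_⟩⟩
  · by_cases hp : p ∈ S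
    · rw [(h2 p hp).1] at h
      exact absurd (one_lt_pow₀ (by norm_num : (1 : ℝ) < 2) (hn p hp).pos.ne') (not_lt.mpr h)
    · exact h6 p hp
  · by_cases hp : p ∈ S
    · rw [(h2 p hp).1]; exact h5 p hp
    · rw [h6 p hp]; exact h

/-- **Main theorem.** -/
theorem all_twists_uni (S : Finset (HeightOneSpectrum k[X])) (m : ℕ)
    (n : HeightOneSpectrum k[X] → ℕ) (hm : Odd m) (hn : ∀ p ∈ S, Odd (n p)) :
      ∃ N₀ : ℕ, ∀ N, N₀ ≤ N →
      (asClass '' {a | ∃ e, OfType S m n e a ∧ wt e = N}).Finite ∧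
      (asClass '' {a | ∃ e, OfType S m n e a ∧ wt e = N}).Nonempty ∧
      288 * (asClass '' {a | ∃ e, OfType S m n e a ∧ wt e = N}).ncard ≤
        1000 * (asClass '' {a | ∃ e, OfType S m n e a ∧ wt e = N ∧
          ∀ b, (∀ c : k, b ≠ RatFunc.C c) → (Less S m n b ∨ Adm a b) →
            GoodCurve a b (S.card + e.support.card)}).ncard := by
  classical
  obtain ⟨N₀, h1⟩ := gen_propM (S₀ := S) (m := m) (n := n) hm hn
  refine ⟨N₀, fun N hN => ?_⟩
  obtain ⟨h2, h3⟩ := h1 N hN
  set U := (EN S N).biUnion (fun e => (TW (S ∪ e.support) m (nu S n e)).image asClass) with hU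
  set V := (EN S N).biUnion (fun e => (GdM (S ∪ e.support) m (nu S n e)).image asClass) with hV
  have hUeq : asClass '' {a | ∃ e, OfType S m n e a ∧ wt e = N} = (U : Set (Set (RatFunc k))) := by
    ext c
    rw [Finset.mem_coe, hU, Finset.mem_biUnion]
    constructor
    · rintro ⟨a, ⟨e, ha, he⟩, rfl⟩
      have he0 : ∀ p ∈ S, e p = 0 := fun p hp => (ha.2.1 p hp).2
      exact ⟨e, mem_EN.mpr ⟨he0, he⟩,
        Finset.mem_image_of_mem _ (mem_TW.mpr ((ofType_iff he0).mp ha))⟩
    · rintro ⟨e, he, hc⟩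
      rw [Finset.mem_image] at hc
      obtain ⟨a, ha, rfl⟩ := hc
      rw [mem_EN] at he
      exact ⟨a, ⟨e, (ofType_iff he.1).mpr (mem_TW.mp ha), he.2⟩, rfl⟩
  have hVsub : (V : Set (Set (RatFunc k))) ⊆ asClass '' {a | ∃ e, OfType S m n e a ∧ wt e = N ∧
          ∀ b, (∀ c : k, b ≠ RatFunc.C c) → (Less S m n b ∨ Adm a b) →
            GoodCurve a b (S.card + e.support.card)} := by
    intro c hc
    rw [Finset.mem_coe, hV, Finset.mem_biUnion] at hc
    obtain ⟨e, he, hc⟩ := hc
    rw [Finset.mem_image] at hc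
    obtain ⟨a, ha, rfl⟩ := hc
    unfold GdM at ha
    rw [Finset.mem_filter, mem_TW] at ha
    rw [mem_EN] at he
    have hdisj : Disjoint S e.support := by
      rw [Finset.disjoint_left]
      intro p hp h
      exact (Finsupp.mem_support_iff.mp h) (he.1 p hp)
    have hty := (ofType_iff he.1).mpr ha.1
    refine ⟨a, ⟨e, hty, he.2, ?_⟩, rfl⟩
    intro b hb hadm
    obtain ⟨hadm, hadm'⟩ : Adm a b := by
      rcases hadm with h | h
      · exact adm_of_less hn hty h
      · exact h
    obtain ⟨β, r, hβ, hβ2⟩ := exists_root b hb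
    have hβ0 : β ≠ 0 := by rintro rfl; exact hβ2 ⟨0, by simp⟩
    have hne : (2 ^ r : ℕ) ≠ 0 := by positivity
    have hpow : ∀ p : HeightOneSpectrum k[X], finAbv p b = finAbv p β ^ 2 ^ r := by
      intro p; rw [hβ, map_pow]
    have hS' : ∀ p, p ∉ S ∪ e.support → finAbv p β = 1 := by
      intro p hp
      have h7 := (hadm' p).1 (ha.1.2.2 p hp)
      rw [hpow] at h7
      exact (pow_eq_one_iff_of_nonneg ((finAbv p).nonneg _) hne).mp h7
    have hbm : infAbv k β < 2 ^ m :=
      root_lt (r := r) hm.pos (by rw [← map_pow, ← hβ, ← hty.1]; exact hadm)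
    have hbn : ∀ p ∈ S ∪ e.support, finAbv p β < 2 ^ nu S n e p := by
      intro p hp
      apply root_lt (r := r) (nu_odd hn e p).pos
      have h7 := ha.1.2.1 p hp
      rw [← hpow, ← h7]
      apply (hadm' p).2
      rw [h7]
      exact one_lt_pow₀ (by norm_num) (nu_odd hn e p).pos.ne'
    have G : InvTwist (S ∪ e.support) ∅ β a :=
      invTwist_of_goodM hβ2 hS' hm (fun p _ => nu_odd hn e p) hbm hbn ha.1 ha.2
    have h7 := G.small
    rw [Finset.card_empty, Nat.add_zero, Finset.card_union_of_disjoint hdisj] at h7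
    refine ⟨?_, β, r, hβ, hβ2, h7⟩
    rw [hβ]
    exact finite_frob_pow hβ0 h7.1 r
  have hUsum : U.card = ∑ e ∈ EN S N, cls S m n e := by
    rw [hU, Finset.card_biUnion fun e he e' he' hne => types_disjoint hn he he' hne]
    rfl
  have hVsum : V.card = ∑ e ∈ EN S N, gclsM S m n e := by
    rw [hV, Finset.card_biUnion]
    · rfl
    · intro e he e' he' hne
      refine Finset.disjoint_of_subset_left ?_ (Finset.disjoint_of_subset_right ?_
        (types_disjoint (m := m) hn he he' hne))
      · exact Finset.image_subset_image (Finset.filter_subset _ _)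
      · exact Finset.image_subset_image (Finset.filter_subset _ _)
  have hfinG : (asClass '' {a | ∃ e, OfType S m n e a ∧ wt e = N ∧
          ∀ b, (∀ c : k, b ≠ RatFunc.C c) → (Less S m n b ∨ Adm a b) →
            GoodCurve a b (S.card + e.support.card)}).Finite := by
    apply (U.finite_toSet).subset
    rw [← hUeq]
    apply Set.image_mono
    rintro a ⟨e, h4, h5, -⟩
    exact ⟨e, h4, h5⟩
  have hVle := Set.ncard_le_ncard hVsub hfinG
  rw [Set.ncard_coe_finset, hVsum] at hVle
  rw [hUeq]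
  refine ⟨U.finite_toSet, ?_, ?_⟩
  · rw [Finset.coe_nonempty, ← Finset.card_pos, hUsum]
    exact h2
  · rw [Set.ncard_coe_finset, hUsum]
    exact h3.trans (Nat.mul_le_mul_left _ hVle)

end Pool.Agent.H2
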