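import Pool.Agent.H2.GSurj

/-!
# The symbols of the functions with a simple pole
-/

namespace Pool.Agent.H2

open Polynomial IsDedekindDomain

universe u

section Sep

variable {A ι : Type*} [AddCommGroup A] [Fintype ι] [DecidableEq ι]

theorem surj_of_sep (φ : A →+ (ι → ZMod 2))
    (h : ∀ T : Finset ι, T.Nonempty → ∃ a, ∑ i ∈ T, φ a i = 1) : Function.Surjective φ := by
  set W : Submodule (ZMod 2) (ι → ZMod 2) := AddSubgroup.toZModSubmodule 2 φ.range with hW
  have hmem : ∀ y, y ∈ W ↔ ∃ a, φ a = y := fun y => Iff.rfl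
  by_cases htop : W = ⊤
  · intro y
    exact (hmem y).mp (by rw [htop]; trivial)
  · exfalso
    obtain ⟨f, hf0, hf⟩ := Submodule.exists_le_ker_of_lt_top W (lt_top_iff_ne_top.mpr htop)
    set w : ι → ZMod 2 := fun i => f (Pi.single i 1) with hw
    have hfy : ∀ y, f y = ∑ i, y i * w i := by
      intro y
      have h1 : y = ∑ i, y i • Pi.single i (1 : ZMod 2) := by
        funext j
        simp [Finset.sum_apply, Pi.single_apply]
      conv_lhs => rw [h1]
      rw [map_sum]
      exact Finset.sum_congr rfl fun i _ => by rw [map_smul, smul_eq_mul]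
    set T := Finset.univ.filter (fun i => w i = 1) with hT
    have hfT : ∀ y, f y = ∑ i ∈ T, y i := by
      intro y
      rw [hfy, hT, Finset.sum_filter]
      apply Finset.sum_congr rfl
      intro i _
      have hc : ∀ c : ZMod 2, c = 0 ∨ c = 1 := by decide
      rcases hc (w i) with h1 | h1
      · rw [h1, mul_zero, if_neg (by decide)]
      · rw [h1, mul_one, if_pos rfl]
    have hne : T.Nonempty := by
      by_contra h1
      rw [Finset.not_nonempty_iff_eq_empty] at h1
      apply hf0
      ext y
      simp [hfT, h1]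
    obtain ⟨a, ha⟩ := h T hne
    have h1 : f (φ a) = 0 := hf ((hmem _).mpr ⟨a, rfl⟩)
    rw [hfT, ha] at h1
    exact one_ne_zero h1

end Sep

variable {k : Type u} [Field k] [Finite k] [CharP k 2]

theorem om_mul {f g : RatFunc k} (hf : f ≠ 0) (hg : g ≠ 0) : om (f * g) = om f + om g := by
  have h1 := basisX.D_mul f g
  unfold TwoBasis.D at h1
  unfold om
  rw [h1]
  field_simp
  ring

theorem deriv_PC (p : k[X]) : derivative p = PC p ^ 2 := by
  have h3 : (2 : k[X]) = 0 := CharTwo.two_eq_zero
  conv_lhs => rw [PE_PC p]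
  rw [derivative_add, derivative_mul, derivative_pow, derivative_pow, derivative_X]
  simp only [Nat.cast_ofNat, map_ofNat, h3]
  ring

theorem om_poly (D : k[X]) : om (algebraMap k[X] (RatFunc k) D)
    = algebraMap k[X] (RatFunc k) (derivative D) / algebraMap k[X] (RatFunc k) D := by
  have h1 : basisX.C (algebraMap k[X] (RatFunc k) D) = algebraMap k[X] (RatFunc k) (PC D) := by
    apply basisX.C_eq (a := algebraMap k[X] (RatFunc k) (PE D))
    conv_lhs => rw [PE_PC D]
    rw [map_add, map_mul, map_pow, map_pow, RatFunc.algebraMap_X]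
  unfold om
  rw [h1, deriv_PC, map_pow]

theorem om_one : om (1 : RatFunc k) = 0 := by
  unfold om
  rw [basisX.C_one, zero_pow two_ne_zero, zero_div]

theorem om_prod (T : Finset (HeightOneSpectrum k[X])) :
    om (algebraMap k[X] (RatFunc k) (∏ q ∈ T, gQ q)) = ∑ q ∈ T, dq q := by
  classical
  induction T using Finset.induction_on with
  | empty => rw [Finset.prod_empty, Finset.sum_empty, map_one, om_one]
  | insert q T hq ih =>
    rw [Finset.prod_insert hq, Finset.sum_insert hq, map_mul, om_mul, ih]
    · rfl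
    · rw [Ne, FaithfulSMul.algebraMap_eq_zero_iff]; exact (gQ_irr q).ne_zero
    · rw [Ne, FaithfulSMul.algebraMap_eq_zero_iff]
      exact Finset.prod_ne_zero_iff.mpr fun r _ => (gQ_irr r).ne_zero

theorem exists_tt_one {x : k} (hx : x ≠ 0) : ∃ c : k, tt (c * x) = 1 := by
  by_contra h
  push Not at h
  have h1 : (wp k).range = ⊤ := by
    rw [eq_top_iff]
    intro y _
    rw [← InP_iff]
    have h2 := h (y / x)
    rw [div_mul_cancel₀ _ hx] at h2
    rw [← tt_eq_zero]
    rcases zmod_cases (tt y) with h3 | h3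
    · exact h3
    · exact absurd h3 h2
  have h3 := wp_index k
  rw [h1, AddSubgroup.index_top] at h3
  omega

/-- the residue pairing at a simple pole is nondegenerate -/
theorem exists_rs_ne (p : HeightOneSpectrum k[X]) {f : RatFunc k} (h1 : ¬ finAbv p f ≤ 1)
    (h2 : finAbv p f ≤ 2) :
    ∃ B : k[X], B.degree < (gQ p).degree ∧ rs p (algebraMap k[X] (RatFunc k) B * f) = 1 := by
  have hK2 : CharP (RatFunc k) 2 := basisX.charP
  set Q := gQ p with hQdef
  have hQm : Q.Monic := gQ_monic p
  have hQi : Irreducible Q := gQ_irr p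
  have hpQ : p.asIdeal = Ideal.span {Q} := gQ_span p
  have hQ0 : algebraMap k[X] (RatFunc k) Q ≠ 0 := by
    rw [Ne, FaithfulSMul.algebraMap_eq_zero_iff]; exact hQi.ne_zero
  set g := pp p f with hg
  obtain ⟨A, hA⟩ : ∃ A : k[X], algebraMap k[X] (RatFunc k) A = algebraMap k[X] (RatFunc k) Q * g := by
    apply poly_of_int
    intro q
    rw [map_mul]
    by_cases hq : q = p
    · subst hq
      have h1 := finAbv_le_half q (Q := Q) (by rw [mem_gen hpQ])
      have h2 : finAbv q g ≤ 2 := by
        have e1 : g = f - (f - g) := by ring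
        rw [e1]
        refine (fin_sub q _ _).trans (max_le h2 ?_)
        exact (pp_reg q f).trans (by norm_num)
      have h3 := (finAbv q).nonneg g
      have h4 := (finAbv q).nonneg (algebraMap k[X] (RatFunc k) Q)
      nlinarith
    · rw [finAbv_gen hpQ hq, one_mul]
      exact (pp_polar p f).1 q hq
  have hQA : ¬ Q ∣ A := by
    rintro ⟨B, hB⟩
    apply h1
    have h3 : g = algebraMap k[X] (RatFunc k) B := by
      have : algebraMap k[X] (RatFunc k) Q * g = algebraMap k[X] (RatFunc k) Q
          * algebraMap k[X] (RatFunc k) B := by rw [← hA, hB, map_mul]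
      exact mul_left_cancel₀ hQ0 this
    have e1 : f = g + (f - g) := by ring
    rw [e1, h3]
    exact (finAbv_nonarch p _ _).trans (max_le (finAbv_poly p B) (by
      have := pp_reg p f
      rwa [← hg, h3] at this))
  obtain ⟨α, β, hαβ⟩ := (hQi.coprime_iff_not_dvd.mpr hQA)
  set d := Q.natDegree with hd
  have hdpos : 0 < d := hQi.natDegree_pos
  set B₀ := X ^ (d - 1) * β with hB₀
  have hpp : pp p (algebraMap k[X] (RatFunc k) B₀ * f)
      = algebraMap k[X] (RatFunc k) (X ^ (d - 1)) / algebraMap k[X] (RatFunc k) Q := by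
    apply pp_eq
    · refine ⟨fun q hq => ?_, ?_⟩
      · rw [map_div₀, finAbv_gen hpQ hq, div_one]; exact finAbv_poly q _
      · rw [map_div₀, div_lt_one ((infAbv k).pos hQ0), infAbv_poly (pow_ne_zero _ X_ne_zero),
          infAbv_poly hQi.ne_zero, natDegree_X_pow]
        exact zpow_lt_zpow_right₀ (by norm_num) (by omega)
    · have e1 : algebraMap k[X] (RatFunc k) (X ^ (d - 1) * β) * f
          - algebraMap k[X] (RatFunc k) (X ^ (d - 1)) / algebraMap k[X] (RatFunc k) Q
          = algebraMap k[X] (RatFunc k) (X ^ (d - 1) * β) * (f - g)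
            - algebraMap k[X] (RatFunc k) (X ^ (d - 1) * α) := by
        have h2 : g = algebraMap k[X] (RatFunc k) A / algebraMap k[X] (RatFunc k) Q := by
          rw [hA]; field_simp
        have h3 := congrArg (algebraMap k[X] (RatFunc k)) hαβ
        rw [map_add, map_mul, map_mul, map_one] at h3
        rw [h2, map_mul (algebraMap k[X] (RatFunc k)) (X ^ (d - 1)) β,
          map_mul (algebraMap k[X] (RatFunc k)) (X ^ (d - 1)) α]
        generalize algebraMap k[X] (RatFunc k) (X ^ (d - 1)) = y at *
        generalize algebraMap k[X] (RatFunc k) β = β' at *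
        generalize algebraMap k[X] (RatFunc k) α = α' at *
        generalize algebraMap k[X] (RatFunc k) A = A' at *
        generalize algebraMap k[X] (RatFunc k) Q = Q' at *
        field_simp
        linear_combination y * h3
      rw [e1]
      refine (fin_sub p _ _).trans (max_le ?_ (finAbv_poly p _))
      rw [map_mul]
      exact mul_le_one₀ (finAbv_poly p _) ((finAbv p).nonneg _) (pp_reg p f)
  have h3 : rs p (algebraMap k[X] (RatFunc k) B₀ * f) = 1 := by
    unfold rs
    rw [hpp]
    apply lc_eq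
    have e1 : RatFunc.X * (algebraMap k[X] (RatFunc k) (X ^ (d - 1))
        / algebraMap k[X] (RatFunc k) Q) - algebraMap k[X] (RatFunc k) (C 1)
        = algebraMap k[X] (RatFunc k) (X ^ d - Q) / algebraMap k[X] (RatFunc k) Q := by
      have h3 : (X : k[X]) ^ d = X * X ^ (d - 1) := by
        rw [← pow_succ']; congr 1; omega
      rw [map_sub, h3, map_mul, RatFunc.algebraMap_X, C_1, map_one]
      field_simp
    rw [e1]
    by_cases h0 : X ^ d - Q = 0
    · rw [h0, map_zero, zero_div, map_zero]; exact one_pos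
    · rw [map_div₀, div_lt_one ((infAbv k).pos hQ0), infAbv_poly h0, infAbv_poly hQi.ne_zero]
      have h3 : (X ^ d - Q).natDegree < Q.natDegree := by
        have h4 : (X ^ d - Q).degree < (X ^ d : k[X]).degree := by
          apply degree_sub_lt_left
          · rw [degree_X_pow, degree_eq_natDegree hQi.ne_zero]
          · exact pow_ne_zero _ X_ne_zero
          · rw [(monic_X_pow d).leadingCoeff, hQm.leadingCoeff]
        rw [degree_X_pow] at h4
        rw [degree_eq_natDegree h0] at h4
        exact_mod_cast h4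
      exact zpow_lt_zpow_right₀ (by norm_num) (by exact_mod_cast h3)
  refine ⟨B₀ %ₘ Q, degree_modByMonic_lt _ hQm, ?_⟩
  have h4 := modByMonic_add_div B₀ Q
  have e2 : algebraMap k[X] (RatFunc k) B₀ * f
      = algebraMap k[X] (RatFunc k) (B₀ %ₘ Q) * f
        + algebraMap k[X] (RatFunc k) (Q * (B₀ /ₘ Q)) * f := by
    rw [← add_mul, ← map_add, h4]
  rw [e2, rs_add, rs_reg p (f := algebraMap k[X] (RatFunc k) (Q * (B₀ /ₘ Q)) * f), add_zero] at h3
  · exact h3
  · rw [map_mul, map_mul, map_mul]
    have h5 := finAbv_le_half p (Q := Q) (by rw [mem_gen hpQ])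
    have h6 := finAbv_poly p (B₀ /ₘ Q)
    have h7 := (finAbv p).nonneg f
    have h8 := (finAbv p).nonneg (algebraMap k[X] (RatFunc k) Q)
    have h9 := (finAbv p).nonneg (algebraMap k[X] (RatFunc k) (B₀ /ₘ Q))
    calc finAbv p (algebraMap k[X] (RatFunc k) Q) * finAbv p (algebraMap k[X] (RatFunc k) (B₀ /ₘ Q))
          * finAbv p f ≤ 2⁻¹ * 1 * 2 := by gcongr
      _ = 1 := by norm_num

/-- reciprocity for two places -/
theorem TT_recip {p q : HeightOneSpectrum k[X]} (hpq : p ≠ q) {f : RatFunc k} (hf : Polar p f) :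
    TT q f = tt (rs p (f * dq q)) := by
  obtain ⟨e, he⟩ := dq_cartier q
  have h2 : rs p (f * dq q) + rs q (f * dq q) = 0 := by
    apply rs_two p hpq
    · intro r hr hr'
      rw [map_mul]
      exact mul_le_one₀ (hf.1 r hr) ((finAbv r).nonneg _) (dq_reg hr')
    · rw [infX, map_mul]
      have h3 := (infAbv k).nonneg f
      have h4 := (infAbv k).nonneg (dq q)
      have h5 := hf.2
      have h6 := pole_inf he
      nlinarith
  have h3 : rs p (f * dq q) = rs q (f * dq q) := CharTwo.add_eq_zero.mp h2
  rw [h3]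
  exact (tt_rs q he (hf.1 q hpq.symm) (dq_pole q)).symm

theorem TT_recip_sum {p : HeightOneSpectrum k[X]} {T : Finset (HeightOneSpectrum k[X])}
    (hp : p ∉ T) {f : RatFunc k} (hf : Polar p f) :
    ∑ q ∈ T, TT q f = tt (rs p (f * om (algebraMap k[X] (RatFunc k) (∏ q ∈ T, gQ q)))) := by
  rw [om_prod, Finset.mul_sum, tt_rs_sum]
  exact Finset.sum_congr rfl fun q hq => TT_recip (by rintro rfl; exact hp hq) hf

/-- no product of elements of `T` has a derivative divisible by `p` -/
def Gen (p : HeightOneSpectrum k[X]) (T : Finset (HeightOneSpectrum k[X])) : Prop :=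
  ∀ T' ⊆ T, T'.Nonempty → ¬ gQ p ∣ derivative (∏ q ∈ T', gQ q)

theorem simple_polar (p : HeightOneSpectrum k[X]) {u : k[X]} (hu : u.degree < (gQ p).degree) :
    Polar p (algebraMap k[X] (RatFunc k) u / algebraMap k[X] (RatFunc k) (gQ p)) := by
  have hQ0 : algebraMap k[X] (RatFunc k) (gQ p) ≠ 0 := by
    rw [Ne, FaithfulSMul.algebraMap_eq_zero_iff]; exact (gQ_irr p).ne_zero
  refine ⟨fun q hq => ?_, ?_⟩
  · rw [map_div₀, finAbv_gen (gQ_span p) hq, div_one]; exact finAbv_poly q _
  · by_cases h0 : u = 0
    · rw [h0, map_zero, zero_div, map_zero]; exact one_pos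
    · rw [map_div₀, div_lt_one ((infAbv k).pos hQ0), infAbv_poly h0,
        infAbv_poly (gQ_irr p).ne_zero]
      exact zpow_lt_zpow_right₀ (by norm_num) (by exact_mod_cast natDegree_lt_natDegree h0 hu)

/-- **The symbols of the functions with a simple pole at `p` are arbitrary.** -/
theorem exists_symbols {p : HeightOneSpectrum k[X]} {T : Finset (HeightOneSpectrum k[X])}
    (hp : p ∉ T) (hG : Gen p T) (c : HeightOneSpectrum k[X] → ZMod 2) :
    ∃ v : RatFunc k, Polar p v ∧ finAbv p v ≤ 2 ∧ ∀ q ∈ T, TT q v = c q := by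
  classical
  have hQ0 : algebraMap k[X] (RatFunc k) (gQ p) ≠ 0 := by
    rw [Ne, FaithfulSMul.algebraMap_eq_zero_iff]; exact (gQ_irr p).ne_zero
  set V : Submodule k k[X] := degreeLT k (gQ p).natDegree with hV
  have hVd : ∀ u : V, u.1.degree < (gQ p).degree := fun u => by
    rw [degree_eq_natDegree (gQ_irr p).ne_zero]
    exact mem_degreeLT.mp u.2
  set φ : V →+ (T → ZMod 2) :=
    { toFun := fun u q => TT q.1 (algebraMap k[X] (RatFunc k) u.1 / algebraMap k[X] (RatFunc k) (gQ p))
      map_zero' := by
        funext q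
        simp only [ZeroMemClass.coe_zero, map_zero, zero_div, TT_zero, Pi.zero_apply]
      map_add' := fun u v => by
        funext q
        have hne : q.1 ≠ p := by rintro rfl; exact hp q.2
        rw [Pi.add_apply, ← TT_add ((simple_polar p (hVd u)).1 q.1 hne)
          ((simple_polar p (hVd v)).1 q.1 hne)]
        congr 1
        rw [Submodule.coe_add, map_add, add_div] } with hφ
  have hsurj : Function.Surjective φ := by
    apply surj_of_sep
    intro T' hT'
    set T'' : Finset (HeightOneSpectrum k[X]) := T'.map (Function.Embedding.subtype _) with hT''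
    have hsub : T'' ⊆ T := by
      intro q hq
      rw [hT'', Finset.mem_map] at hq
      obtain ⟨r, -, rfl⟩ := hq
      exact r.2
    have hpT : p ∉ T'' := fun h => hp (hsub h)
    have hnd := hG T'' hsub (by rw [hT'']; exact hT'.map)
    set D := ∏ q ∈ T'', gQ q with hD
    have hD0 : D ≠ 0 := Finset.prod_ne_zero_iff.mpr fun q _ => (gQ_irr q).ne_zero
    have hpD : ¬ gQ p ∣ D := by
      rw [hD, (gQ_irr p).prime.dvd_finsetProd_iff]
      rintro ⟨r, hr, hd⟩
      exact gQ_not_dvd (by rintro rfl; exact hpT hr) hd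
    have hunit : ∀ F : k[X], ¬ gQ p ∣ F → finAbv p (algebraMap k[X] (RatFunc k) F) = 1 := by
      intro F hF
      apply le_antisymm (finAbv_poly p F)
      by_contra hlt
      rw [not_le, finAbv_lt_one, mem_gen (gQ_span p)] at hlt
      exact hF hlt
    set f := om (algebraMap k[X] (RatFunc k) D) / algebraMap k[X] (RatFunc k) (gQ p) with hf
    have hfabs : finAbv p f = 2 := by
      rw [hf, om_poly, map_div₀, map_div₀, hunit _ hnd, hunit _ hpD,
        finAbv_unif (gQ_irr p) (gQ_span p)]
      norm_num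
    obtain ⟨B, hB1, hB2⟩ := exists_rs_ne p (f := f) (by rw [hfabs]; norm_num) hfabs.le
    obtain ⟨c', hc'⟩ := exists_tt_one (one_ne_zero : (1 : k) ≠ 0)
    have hCB : (C c' * B).degree < (gQ p).degree := by
      rw [← smul_eq_C_mul]
      exact (degree_smul_le c' B).trans_lt hB1
    refine ⟨⟨C c' * B, mem_degreeLT.mpr (by
      rw [← degree_eq_natDegree (gQ_irr p).ne_zero]; exact hCB)⟩, ?_⟩
    have h1 := TT_recip_sum hpT (simple_polar p hCB)
    rw [hT'', Finset.sum_map] at h1
    change ∑ q ∈ T', TT q.1 _ = 1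
    refine h1.trans ?_
    have e1 : algebraMap k[X] (RatFunc k) (C c' * B) / algebraMap k[X] (RatFunc k) (gQ p)
        * om (algebraMap k[X] (RatFunc k) (∏ q ∈ T'.map (Function.Embedding.subtype _), gQ q))
        = algebraMap k[X] (RatFunc k) (C c') * (algebraMap k[X] (RatFunc k) B * f) := by
      rw [hf, map_mul]
      change _ * om (algebraMap k[X] (RatFunc k) D) = _
      ring
    rw [e1, rs_smul, hB2]
    exact hc'
  obtain ⟨u, hu⟩ := hsurj (fun q => c q.1)
  refine ⟨_, simple_polar p (hVd u), ?_, fun q hq => congrFun hu ⟨q, hq⟩⟩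
  rw [map_div₀, finAbv_unif (gQ_irr p) (gQ_span p)]
  have h1 := finAbv_poly p u.1
  calc finAbv p (algebraMap k[X] (RatFunc k) u.1) / 2⁻¹
      = finAbv p (algebraMap k[X] (RatFunc k) u.1) * 2 := by rw [div_inv_eq_mul]
    _ ≤ 1 * 2 := by gcongr
    _ = 2 := one_mul 2

end Pool.Agent.H2
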