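import Pool.Agent.H2.VVar
import Pool.Agent.H2.VCount
import Pool.Agent.H2.GFam

/-!
# The vanishing of the character sums, II
-/

namespace Pool.Agent.H2

open Polynomial IsDedekindDomain

universe u

variable {k : Type u} [Field k] [Finite k] [CharP k 2]
variable {P : Finset (HeightOneSpectrum k[X])} {h : RatFunc k} {n : HeightOneSpectrum k[X] → ℕ}

theorem prodpow_monic (P : Finset (HeightOneSpectrum k[X])) (ν : HeightOneSpectrum k[X] → ℕ) :
    (∏ q ∈ P, gQ q ^ ν q).Monic := monic_prod_of_monic _ _ fun q _ => (gQ_monic q).pow _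

theorem prodpow_deg (P : Finset (HeightOneSpectrum k[X])) (ν : HeightOneSpectrum k[X] → ℕ) :
    (∏ q ∈ P, gQ q ^ ν q).natDegree = ∑ q ∈ P, ν q * dp q := by
  rw [natDegree_prod_of_monic _ _ fun q _ => (gQ_monic q).pow _]
  exact Finset.sum_congr rfl fun q _ => by rw [natDegree_pow]; rfl

theorem prodpow_dvd {P : Finset (HeightOneSpectrum k[X])} {ν : HeightOneSpectrum k[X] → ℕ}
    {p : HeightOneSpectrum k[X]} (hp : p ∈ P) (hν : 0 < ν p) : gQ p ∣ ∏ q ∈ P, gQ q ^ ν q :=
  (dvd_pow_self _ hν.ne').trans (Finset.dvd_prod_of_mem (fun q => gQ q ^ ν q) hp)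

/-- **Vanishing**, for characters with a finite place in the conductor -/
theorem van_A {p₀ : HeightOneSpectrum k[X]} (hp₀ : p₀ ∈ P) (hP : ∀ p ∈ P, finAbv p h = 2 ^ n p)
    (hodd : ∀ p ∈ P, Odd (n p)) (hinf : infAbv k h < 1) {j : ℕ}
    (hj : ∑ p ∈ P, (n p + 1) * dp p ≤ j) : ∑ d ∈ MM k j, chi P h d = 0 := by
  classical
  have hK2 : CharP (RatFunc k) 2 := basisX.charP
  set ν : HeightOneSpectrum k[X] → ℕ := fun q => if q = p₀ then n q else n q + 1 with hν
  set G := ∏ q ∈ P, gQ q ^ ν q with hG
  have hGm : G.Monic := prodpow_monic P ν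
  have hνpos : ∀ p ∈ P, 0 < ν p := by
    intro p hp
    rw [hν]
    simp only
    split_ifs
    · exact (hodd p hp).pos
    · omega
  have hdvd : ∀ p ∈ P, gQ p ∣ G := fun p hp => prodpow_dvd hp (hνpos p hp)
  have hGabs : ∀ p ∈ P, finAbv p (algebraMap k[X] (RatFunc k) G) = (2 ^ ν p)⁻¹ :=
    fun p hp => finAbv_prod P ν hp
  have hhG : ∀ p ∈ P, p ≠ p₀ → finAbv p (h * algebraMap k[X] (RatFunc k) G) = 2⁻¹ := by
    intro p hp hne
    rw [map_mul, hP p hp, hGabs p hp]
    have : ν p = n p + 1 := by rw [hν]; simp only; rw [if_neg hne]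
    rw [this, pow_succ]
    field_simp
  have hhG0 : finAbv p₀ (h * algebraMap k[X] (RatFunc k) G) = 1 := by
    rw [map_mul, hP p₀ hp₀, hGabs p₀ hp₀]
    have : ν p₀ = n p₀ := if_pos rfl
    rw [this]
    field_simp
  have hdegG : G.natDegree + dp p₀ ≤ j := by
    rw [hG, prodpow_deg]
    refine le_trans (le_of_eq ?_) hj
    rw [← Finset.add_sum_erase _ _ hp₀, ← Finset.add_sum_erase _ _ hp₀]
    have e1 : ν p₀ = n p₀ := if_pos rfl
    have e2 : ∑ q ∈ P.erase p₀, ν q * dp q = ∑ q ∈ P.erase p₀, (n q + 1) * dp q := by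
      apply Finset.sum_congr rfl
      intro q hq
      have : ν q = n q + 1 := by rw [hν]; simp only; rw [if_neg (Finset.ne_of_mem_erase hq)]
      rw [this]
    rw [e1, e2]; ring
  have hF : Fintype (degreeLT k (dp p₀)) := Fintype.ofFinite _
  apply avg_zero (B := degreeLT k (dp p₀)) (fun b => G * b.1)
  · intro b
    by_cases hb : b.1 = 0
    · rw [hb, mul_zero, degree_zero]; exact WithBot.bot_lt_coe _
    · have h1 : b.1.natDegree < dp p₀ :=
        (natDegree_lt_iff_degree_lt hb).mpr (mem_degreeLT.mp b.2)
      rw [degree_eq_natDegree (mul_ne_zero hGm.ne_zero hb), natDegree_mul hGm.ne_zero hb]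
      exact_mod_cast (by omega)
  · intro d hd
    have hdm := (mem_MM.mp hd).1
    set F := h * algebraMap k[X] (RatFunc k) G * om (algebraMap k[X] (RatFunc k) G)
      / algebraMap k[X] (RatFunc k) d with hF
    set lam : degreeLT k (dp p₀) →+ ZMod 2 :=
      { toFun := fun b => tt (rs p₀ (algebraMap k[X] (RatFunc k) b.1 * F))
        map_zero' := by
          rw [ZeroMemClass.coe_zero, map_zero, zero_mul, rs_reg, tt_zero]
          rw [map_zero]; exact zero_le_one
        map_add' := fun b c => by
          rw [← tt_add, ← rs_add, Submodule.coe_add, map_add, add_mul] } with hlam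
    have hchi : ∀ b : degreeLT k (dp p₀), chi P h (d + G * b.1)
        = chi P h d * (if lam b = 0 then 1 else -1) := by
      intro b
      apply chi_add (fun p hp => (hdvd p hp).mul_right _)
      intro hcop
      rw [theta_var]
      congr 1
      have h1 : ri (h * (om (algebraMap k[X] (RatFunc k) (d + G * b.1))
          + om (algebraMap k[X] (RatFunc k) d))) = 0 := by
        apply ri_small
        have hdw0 : d + G * b.1 ≠ 0 := by
          intro h0
          apply hcop p₀ hp₀
          have h2 : gQ p₀ ∣ d + G * b.1 := h0 ▸ dvd_zero _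
          exact (dvd_add_left ((hdvd p₀ hp₀).mul_right _)).mp h2
        have h2 := pole_inf (om_cartier (vmap_ne hdm.ne_zero))
        have h3 := pole_inf (om_cartier (vmap_ne hdw0))
        have h4 := infAbv_nonarch (om (algebraMap k[X] (RatFunc k) (d + G * b.1)))
          (om (algebraMap k[X] (RatFunc k) d))
        have h5 : infAbv k (om (algebraMap k[X] (RatFunc k) (d + G * b.1))
            + om (algebraMap k[X] (RatFunc k) d)) ≤ 1 / 2 :=
          h4.trans (max_le (by linarith) (by linarith))
        have h6 := inf_half hinf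
        have h7 := (infAbv k).nonneg h
        have h8 := (infAbv k).nonneg (om (algebraMap k[X] (RatFunc k) (d + G * b.1))
            + om (algebraMap k[X] (RatFunc k) d))
        rw [infX, map_mul]
        nlinarith
      rw [h1, zero_add, ← Finset.add_sum_erase _ _ hp₀,
        var_fin hhG0.le (hdvd p₀ hp₀) hGm.ne_zero (hcop p₀ hp₀)]
      have h2 : ∑ p ∈ P.erase p₀, rs p (h * (om (algebraMap k[X] (RatFunc k) (d + G * b.1))
          + om (algebraMap k[X] (RatFunc k) d))) = 0 := by
        apply Finset.sum_eq_zero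
        intro p hp
        have hpP := Finset.mem_of_mem_erase hp
        exact var_fin_zero (hhG p hpP (Finset.ne_of_mem_erase hp)).le (hdvd p hpP) hGm.ne_zero
          (hcop p hpP)
      rw [h2, add_zero]
      rfl
    rw [Finset.sum_congr rfl fun b _ => hchi b, ← Finset.mul_sum]
    by_cases hcop : ∀ p ∈ P, ¬ gQ p ∣ d
    · have hud := unit_of (hcop p₀ hp₀)
      have hompole : ¬ finAbv p₀ (om (algebraMap k[X] (RatFunc k) G)) ≤ 1 := by
        apply om_pole (n := -(ν p₀ : ℤ))
        · rw [hGabs p₀ hp₀, zpow_neg, zpow_natCast]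
        · have : ν p₀ = n p₀ := if_pos rfl
          rw [this, even_neg, Int.not_even_iff_odd]
          exact_mod_cast hodd p₀ hp₀
      have hFabs : finAbv p₀ F = finAbv p₀ (om (algebraMap k[X] (RatFunc k) G)) := by
        rw [hF, map_div₀, hud, div_one, map_mul, hhG0, one_mul]
      obtain ⟨B, hB1, hB2⟩ := exists_rs_ne p₀ (f := F) (by rw [hFabs]; exact hompole)
        (by rw [hFabs]; exact pole_le (om_cartier (vmap_ne hGm.ne_zero)) p₀)
      obtain ⟨c', hc'⟩ := exists_tt_one (one_ne_zero : (1 : k) ≠ 0)
      have hCB : (C c' * B).degree < (gQ p₀).degree := by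
        rw [← smul_eq_C_mul]
        exact (degree_smul_le c' B).trans_lt hB1
      have hmem : C c' * B ∈ degreeLT k (dp p₀) := mem_degreeLT.mpr (by
        unfold dp
        rw [← degree_eq_natDegree (gQ_irr p₀).ne_zero]; exact hCB)
      rw [sum_sgn lam (b₀ := ⟨C c' * B, hmem⟩), mul_zero]
      change tt (rs p₀ (algebraMap k[X] (RatFunc k) (C c' * B) * F)) = 1
      rw [map_mul, mul_assoc, rs_smul, hB2]
      exact hc'
    · have : chi P h d = 0 := by unfold chi; rw [if_neg hcop]
      rw [this, zero_mul]

omit [Finite k] [CharP k 2] in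
theorem D_const [Finite k] [CharP k 2] (c : k) (m : ℕ) (hm : Odd m) :
    basisX.D (algebraMap k[X] (RatFunc k) (C c) * (RatFunc.X ^ m)⁻¹)
      = algebraMap k[X] (RatFunc k) (C c) * (RatFunc.X ^ (m + 1))⁻¹ := by
  have hX : (RatFunc.X : RatFunc k) ≠ 0 := RatFunc.X_ne_zero
  obtain ⟨i, hi⟩ := hm
  obtain ⟨c', hc'⟩ := FiniteField.isSquare_of_char_two (F := k) (ringChar.eq k 2) c
  have h1 : basisX.C (algebraMap k[X] (RatFunc k) (C c) * (RatFunc.X ^ m)⁻¹)
      = algebraMap k[X] (RatFunc k) (C c') * (RatFunc.X ^ (i + 1))⁻¹ := by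
    apply basisX.C_eq (a := 0)
    rw [hc', C_mul, map_mul, hi]
    field_simp
    ring
  unfold TwoBasis.D
  rw [h1, hc', C_mul, map_mul, hi]
  field_simp
  ring

/-- **Vanishing**, for characters with infinity in the conductor -/
theorem van_B (hP : ∀ p ∈ P, finAbv p h = 2 ^ n p) {m : ℕ} (hm : Odd m)
    (hinf : infAbv k h = 2 ^ m) {j : ℕ}
    (hj : m + ∑ p ∈ P, (n p + 1) * dp p ≤ j) : ∑ d ∈ MM k j, chi P h d = 0 := by
  classical
  have hK2 : CharP (RatFunc k) 2 := basisX.charP
  have hX : (RatFunc.X : RatFunc k) ≠ 0 := RatFunc.X_ne_zero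
  set ν : HeightOneSpectrum k[X] → ℕ := fun q => n q + 1 with hν
  set G := ∏ q ∈ P, gQ q ^ ν q with hG
  have hGm : G.Monic := prodpow_monic P ν
  have hdvd : ∀ p ∈ P, gQ p ∣ G := fun p hp => prodpow_dvd hp (Nat.succ_pos _)
  have hGabs : ∀ p ∈ P, finAbv p (algebraMap k[X] (RatFunc k) G) = (2 ^ ν p)⁻¹ :=
    fun p hp => finAbv_prod P ν hp
  have hhG : ∀ p ∈ P, finAbv p (h * algebraMap k[X] (RatFunc k) G) = 2⁻¹ := by
    intro p hp
    rw [map_mul, hP p hp, hGabs p hp, hν]
    simp only
    rw [pow_succ]
    field_simp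
  have hdegG : m + G.natDegree ≤ j := by
    rw [hG, prodpow_deg]
    exact hj
  set e := j - m - G.natDegree with he
  have hmpos := hm.pos
  -- the leading coefficient of `h`
  set u := h * (RatFunc.X ^ m)⁻¹ with hu
  have hXm : infAbv k ((RatFunc.X : RatFunc k) ^ m) = 2 ^ m := by rw [map_pow, infAbv_X]
  have huabs : infAbv k u = 1 := by
    rw [hu, map_mul, map_inv₀, hXm, hinf]
    field_simp
  obtain ⟨α, hα⟩ := coef_exists (f := u * RatFunc.X⁻¹) (by
    rw [map_mul, map_inv₀, infAbv_X, huabs]; norm_num)
  have hα' : infAbv k (u - algebraMap k[X] (RatFunc k) (C α)) < 1 := by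
    have e1 : RatFunc.X * (u * RatFunc.X⁻¹) = u := by field_simp
    rwa [e1] at hα
  have hα0 : α ≠ 0 := by
    rintro rfl
    rw [C_0, map_zero, sub_zero, huabs] at hα'
    exact lt_irrefl _ hα'
  have hF : Fintype k := Fintype.ofFinite _
  apply avg_zero (B := k) (fun c => G * (C c * X ^ e))
  · intro c
    by_cases hc : c = 0
    · rw [hc, C_0, zero_mul, mul_zero, degree_zero]; exact WithBot.bot_lt_coe _
    · rw [degree_mul, degree_C_mul_X_pow e hc, degree_eq_natDegree hGm.ne_zero]
      exact_mod_cast (by omega : G.natDegree + e < j)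
  · intro d hd
    have hdm := (mem_MM.mp hd).1
    have hdj := (mem_MM.mp hd).2
    set lam : k →+ ZMod 2 :=
      { toFun := fun c => tt (c * α)
        map_zero' := by rw [zero_mul, tt_zero]
        map_add' := fun b c => by rw [← tt_add, add_mul] } with hlam
    have hchi : ∀ c : k, chi P h (d + G * (C c * X ^ e))
        = chi P h d * (if lam c = 0 then 1 else -1) := by
      intro c
      apply chi_add (fun p hp => (hdvd p hp).mul_right _)
      intro hcop
      rw [theta_var]
      congr 1
      have h2 : ∑ p ∈ P, rs p (h * (om (algebraMap k[X] (RatFunc k) (d + G * (C c * X ^ e)))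
          + om (algebraMap k[X] (RatFunc k) d))) = 0 := by
        apply Finset.sum_eq_zero
        intro p hp
        exact var_fin_zero (hhG p hp).le (hdvd p hp) hGm.ne_zero (hcop p hp)
      rw [h2, add_zero]
      change tt _ = tt (c * α)
      congr 1
      -- the residue at infinity
      set D := algebraMap k[X] (RatFunc k) d with hD
      have hD0 : D ≠ 0 := vmap_ne hdm.ne_zero
      have hDabs : infAbv k D = 2 ^ j := by
        rw [hD, infAbv_poly hdm.ne_zero, hdj, zpow_natCast]
      set w := algebraMap k[X] (RatFunc k) (G * (C c * X ^ e)) with hw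
      set r := w / D with hr
      set s := r - algebraMap k[X] (RatFunc k) (C c) * (RatFunc.X ^ m)⁻¹ with hs
      have hje : j = G.natDegree + e + m := by omega
      have hsabs : infAbv k s * 2 ≤ (2 ^ m)⁻¹ := by
        have e1 : s = algebraMap k[X] (RatFunc k) (C c * (G * X ^ (e + m) - d))
            / (D * RatFunc.X ^ m) := by
          have e2 : algebraMap k[X] (RatFunc k) (C c * (G * X ^ (e + m) - d))
              = algebraMap k[X] (RatFunc k) (C c) * (algebraMap k[X] (RatFunc k) G
                * (RatFunc.X ^ e * RatFunc.X ^ m) - D) := by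
            rw [map_mul, map_sub, map_mul, map_pow, RatFunc.algebraMap_X, pow_add]
          have e3 : w = algebraMap k[X] (RatFunc k) G * (algebraMap k[X] (RatFunc k) (C c)
              * RatFunc.X ^ e) := by
            rw [hw, map_mul, map_mul, map_pow, RatFunc.algebraMap_X]
          rw [e2, hs, hr, e3]
          field_simp
        rw [e1, map_div₀, map_mul (infAbv k) D, hDabs, hXm]
        by_cases h0 : C c * (G * X ^ (e + m) - d) = 0
        · rw [h0, map_zero, map_zero, zero_div, zero_mul]; positivity
        · have h3 : (C c * (G * X ^ (e + m) - d)).natDegree < j := by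
            have h4 : G * X ^ (e + m) - d ≠ 0 := right_ne_zero_of_mul h0
            refine (natDegree_C_mul_le _ _).trans_lt ?_
            rw [natDegree_lt_iff_degree_lt h4]
            have h5 : (G * X ^ (e + m)).Monic := hGm.mul (monic_X_pow _)
            have h6 : (G * X ^ (e + m)).natDegree = j := by
              rw [hGm.natDegree_mul (monic_X_pow _), natDegree_X_pow]; omega
            have h7 := degree_sub_lt_left (p := G * X ^ (e + m)) (q := d)
              (by rw [degree_eq_natDegree h5.ne_zero, degree_eq_natDegree hdm.ne_zero, h6, hdj])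
              h5.ne_zero (by rw [h5.leadingCoeff, hdm.leadingCoeff])
            rw [degree_eq_natDegree h5.ne_zero, h6] at h7
            exact h7
          rw [infAbv_poly h0, zpow_natCast]
          have h4 : (2 : ℝ) ^ (C c * (G * X ^ (e + m) - d)).natDegree * 2 ≤ 2 ^ j := by
            rw [← pow_succ]
            exact pow_le_pow_right₀ (by norm_num) h3
          rw [div_mul_eq_mul_div, div_le_iff₀ (by positivity)]
          calc (2 : ℝ) ^ (C c * (G * X ^ (e + m) - d)).natDegree * 2 ≤ 2 ^ j := h4
            _ = (2 ^ m)⁻¹ * (2 ^ j * 2 ^ m) := by field_simp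
      have hcabs : infAbv k (algebraMap k[X] (RatFunc k) (C c)) ≤ 1 := by
        by_cases hc : c = 0
        · rw [hc, C_0, map_zero, map_zero]; exact zero_le_one
        · rw [infAbv_poly (C_ne_zero.mpr hc), natDegree_C]; norm_num
      have hrabs : infAbv k r ≤ (2 ^ m)⁻¹ := by
        have e1 : r = s + algebraMap k[X] (RatFunc k) (C c) * (RatFunc.X ^ m)⁻¹ := by
          rw [hs]; ring
        have hs0 := (infAbv k).nonneg s
        rw [e1]
        refine (infAbv_nonarch _ _).trans (max_le (by linarith) ?_)
        rw [map_mul, map_inv₀, hXm]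
        calc infAbv k (algebraMap k[X] (RatFunc k) (C c)) * (2 ^ m)⁻¹ ≤ 1 * (2 ^ m)⁻¹ := by gcongr
          _ = (2 ^ m)⁻¹ := one_mul _
      have h2m : (2 : ℝ) ≤ 2 ^ m := by
        calc (2 : ℝ) = 2 ^ 1 := (pow_one 2).symm
          _ ≤ 2 ^ m := pow_le_pow_right₀ (by norm_num) hmpos
      have hrhalf : infAbv k r ≤ 1 / 2 := by
        refine hrabs.trans ?_
        rw [one_div]
        exact inv_anti₀ (by norm_num) h2m
      have h1r : infAbv k (1 + r) = 1 := by
        rw [add_comm, infAbv_add_of_lt (by rw [map_one]; linarith), map_one]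
      have h1r0 : (1 : RatFunc k) + r ≠ 0 := by
        intro h0; rw [h0, map_zero] at h1r; exact zero_ne_one h1r
      have hom : om (algebraMap k[X] (RatFunc k) (d + G * (C c * X ^ e))) + om D
          = basisX.D r / (1 + r) := by
        have e1 : algebraMap k[X] (RatFunc k) (d + G * (C c * X ^ e)) = D * (1 + r) := by
          rw [map_add]
          change D + w = D * (1 + r)
          rw [hr]; field_simp
        rw [e1, om_mul hD0 h1r0]
        have e2 : om (1 + r) = basisX.D (1 + r) / (1 + r) := rfl
        rw [e2, basisX.D_add, basisX.D_one, zero_add]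
        linear_combination (om D) * (CharTwo.two_eq_zero : (2 : RatFunc k) = 0)
      rw [hom]
      have hDr : basisX.D r = algebraMap k[X] (RatFunc k) (C c) * (RatFunc.X ^ (m + 1))⁻¹
          + basisX.D s := by
        have e1 : r = algebraMap k[X] (RatFunc k) (C c) * (RatFunc.X ^ m)⁻¹ + s := by
          rw [hs]; ring
        conv_lhs => rw [e1]
        rw [basisX.D_add, D_const c m hm]
      have hDs := inf_D s
      -- `X h D(r)` is close to `c u`
      have h3 : RatFunc.X * (h * basisX.D r)
          = algebraMap k[X] (RatFunc k) (C c) * u + RatFunc.X * h * basisX.D s := by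
        rw [hDr, hu, pow_succ]
        field_simp
      have h4 : infAbv k (RatFunc.X * h * basisX.D s) ≤ 1 / 2 := by
        rw [map_mul, map_mul, infAbv_X, hinf]
        have h5 := (infAbv k).nonneg (basisX.D s)
        have h6 : infAbv k (basisX.D s) * 4 ≤ (2 ^ m)⁻¹ := by linarith
        have h7 : (0 : ℝ) < 2 ^ m := by positivity
        have h8 : infAbv k (basisX.D s) * 4 * 2 ^ m ≤ 1 := by
          calc infAbv k (basisX.D s) * 4 * 2 ^ m ≤ (2 ^ m)⁻¹ * 2 ^ m := by gcongr
            _ = 1 := by field_simp
        nlinarith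
      have h5 : infAbv k (algebraMap k[X] (RatFunc k) (C c) * u) ≤ 1 := by
        rw [map_mul, huabs, mul_one]; exact hcabs
      have h6 : infAbv k (RatFunc.X * (h * basisX.D r)) ≤ 1 := by
        rw [h3]
        exact (infAbv_nonarch _ _).trans (max_le h5 (by linarith))
      apply ri_eq
      · have h7 : infAbv k (RatFunc.X * (h * (basisX.D r / (1 + r)))) ≤ 1 := by
          have e1 : RatFunc.X * (h * (basisX.D r / (1 + r)))
              = RatFunc.X * (h * basisX.D r) / (1 + r) := by ring
          rw [e1, map_div₀, h1r, div_one]; exact h6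
        rw [infX] at h7
        linarith
      · have e1 : RatFunc.X * (h * (basisX.D r / (1 + r)))
            - algebraMap k[X] (RatFunc k) (C (c * α))
            = algebraMap k[X] (RatFunc k) (C c) * (u - algebraMap k[X] (RatFunc k) (C α))
              + (RatFunc.X * h * basisX.D s - RatFunc.X * (h * basisX.D r) * r / (1 + r)) := by
          have e2 : RatFunc.X * (h * (basisX.D r / (1 + r)))
              = RatFunc.X * (h * basisX.D r)
                - RatFunc.X * (h * basisX.D r) * r / (1 + r) := by
            field_simp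
            ring
          rw [e2, h3, C_mul, map_mul]
          ring
        rw [e1]
        refine lt_of_le_of_lt (infAbv_nonarch _ _) (max_lt ?_ ?_)
        · rw [map_mul]
          have h8 := (infAbv k).nonneg (u - algebraMap k[X] (RatFunc k) (C α))
          have h9 := (infAbv k).nonneg (algebraMap k[X] (RatFunc k) (C c))
          nlinarith
        · refine lt_of_le_of_lt (inf_sub _ _) (max_lt (by linarith) ?_)
          rw [map_div₀, h1r, div_one, map_mul]
          have h8 := (infAbv k).nonneg r
          have h9 := (infAbv k).nonneg (RatFunc.X * (h * basisX.D r))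
          nlinarith
    rw [Finset.sum_congr rfl fun b _ => hchi b, ← Finset.mul_sum]
    obtain ⟨c', hc'⟩ := exists_tt_one hα0
    rw [sum_sgn lam (b₀ := c') hc', mul_zero]

end Pool.Agent.H2
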