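import Pool.Agent.H2.VRi

/-!
# The vanishing of the character sums
-/

namespace Pool.Agent.H2

open Polynomial IsDedekindDomain

universe u

section Avg

variable {k : Type u} [Field k] [Finite k]

theorem monic_finite (j : ℕ) : {d : k[X] | d.Monic ∧ d.natDegree = j}.Finite := by
  have h1 : Finite (degreeLT k (j + 1)) := Finite.of_equiv _ (degreeLTEquiv k (j + 1)).toEquiv.symm
  have h2 : ((degreeLT k (j + 1) : Submodule k k[X]) : Set k[X]).Finite := h1
  refine h2.subset ?_
  rintro d ⟨hd1, hd2⟩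
  rw [SetLike.mem_coe, mem_degreeLT, degree_eq_natDegree hd1.ne_zero, hd2]
  exact_mod_cast Nat.lt_succ_self j

/-- the monic polynomials of degree `j` -/
noncomputable def MM (k : Type u) [Field k] [Finite k] (j : ℕ) : Finset k[X] :=
  (monic_finite (k := k) j).toFinset

theorem mem_MM {j : ℕ} {d : k[X]} : d ∈ MM k j ↔ d.Monic ∧ d.natDegree = j :=
  (monic_finite j).mem_toFinset

theorem MM_add {j : ℕ} {d w : k[X]} (hd : d ∈ MM k j) (hw : w.degree < (j : WithBot ℕ)) :
    d + w ∈ MM k j := by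
  rw [mem_MM] at hd ⊢
  have h1 : d.degree = (j : WithBot ℕ) := by rw [degree_eq_natDegree hd.1.ne_zero, hd.2]
  have h2 : w.degree < d.degree := by rw [h1]; exact hw
  exact ⟨hd.1.add_of_left h2, by rw [natDegree_add_eq_left_of_degree_lt h2]; exact hd.2⟩

theorem MM_shift {j : ℕ} {w : k[X]} (hw : w.degree < (j : WithBot ℕ)) (f : k[X] → ℤ) :
    ∑ d ∈ MM k j, f (d + w) = ∑ d ∈ MM k j, f d := by
  apply Finset.sum_nbij' (fun d => d + w) (fun d => d - w)
  · intro d hd; exact MM_add hd hw
  · intro d hd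
    rw [sub_eq_add_neg]
    exact MM_add hd (by rwa [degree_neg])
  · intro d _; ring
  · intro d _; ring
  · intro d _; rfl

theorem avg_zero {B : Type*} [AddCommGroup B] [Fintype B] (ι : B → k[X]) {j : ℕ}
    (hι : ∀ b, (ι b).degree < (j : WithBot ℕ)) (f : k[X] → ℤ)
    (hf : ∀ d ∈ MM k j, ∑ b, f (d + ι b) = 0) : ∑ d ∈ MM k j, f d = 0 := by
  have h1 : ∑ b : B, ∑ d ∈ MM k j, f (d + ι b) = 0 := by
    rw [Finset.sum_comm]
    exact Finset.sum_eq_zero hf
  rw [Finset.sum_congr rfl fun b _ => MM_shift (hι b) f, Finset.sum_const, smul_eq_zero] at h1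
  rcases h1 with h1 | h1
  · exfalso
    rw [Finset.card_univ, Fintype.card_eq_zero_iff] at h1
    exact h1.false 0
  · exact h1

theorem sum_sgn {B : Type*} [AddCommGroup B] [Fintype B] (lam : B →+ ZMod 2) {b₀ : B}
    (h : lam b₀ = 1) : ∑ b, (if lam b = 0 then (1 : ℤ) else -1) = 0 := by
  have h1 := Equiv.sum_comp (Equiv.addRight b₀) (fun b => if lam b = 0 then (1 : ℤ) else -1)
  have h2 : ∑ b, (if lam (Equiv.addRight b₀ b) = 0 then (1 : ℤ) else -1)
      = - ∑ b, (if lam b = 0 then (1 : ℤ) else -1) := by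
    rw [← Finset.sum_neg_distrib]
    apply Finset.sum_congr rfl
    intro b _
    rw [Equiv.coe_addRight, map_add, h]
    rcases zmod_cases (lam b) with h3 | h3
    · rw [h3]; decide
    · rw [h3]; decide
  omega

end Avg

variable {k : Type u} [Field k] [Finite k] [CharP k 2]

open scoped Classical in
/-- the character -/
noncomputable def chi (P : Finset (HeightOneSpectrum k[X])) (h : RatFunc k) (d : k[X]) : ℤ :=
  if ∀ p ∈ P, ¬ gQ p ∣ d then (if theta P h d = 0 then 1 else -1) else 0

theorem unit_of {p : HeightOneSpectrum k[X]} {d : k[X]} (hd : ¬ gQ p ∣ d) :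
    finAbv p (algebraMap k[X] (RatFunc k) d) = 1 := by
  apply le_antisymm (finAbv_poly p d)
  by_contra hlt
  rw [not_le, finAbv_lt_one, mem_gen (gQ_span p)] at hlt
  exact hd hlt

/-- the local variation of the logarithmic differentials -/
theorem var_fin {p : HeightOneSpectrum k[X]} {h : RatFunc k} {G b d : k[X]}
    (hG : finAbv p (h * algebraMap k[X] (RatFunc k) G) ≤ 1) (hpG : gQ p ∣ G) (hG0 : G ≠ 0)
    (hd : ¬ gQ p ∣ d) :
    rs p (h * (om (algebraMap k[X] (RatFunc k) (d + G * b)) + om (algebraMap k[X] (RatFunc k) d)))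
      = rs p (algebraMap k[X] (RatFunc k) b * (h * algebraMap k[X] (RatFunc k) G
        * om (algebraMap k[X] (RatFunc k) G) / algebraMap k[X] (RatFunc k) d)) := by
  have hK2 : CharP (RatFunc k) 2 := basisX.charP
  have hdw : ¬ gQ p ∣ d + G * b := by
    intro h1
    exact hd ((dvd_add_left (hpG.mul_right b)).mp h1)
  have hd0 : d ≠ 0 := by rintro rfl; exact hd (dvd_zero _)
  have hdw0 : d + G * b ≠ 0 := by intro h1; exact hdw (h1 ▸ dvd_zero _)
  have hD0 := vmap_ne hd0
  have hDW0 := vmap_ne hdw0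
  have hG1 := vmap_ne hG0
  have hud := unit_of hd
  have hudw := unit_of hdw
  have hGp := finAbv_le_half p (Q := G) (by rw [mem_gen (gQ_span p)]; exact hpG)
  have hb := finAbv_poly p b
  have hom := pole_le (om_cartier hG1) p
  set D := algebraMap k[X] (RatFunc k) d with hD
  set B := algebraMap k[X] (RatFunc k) b with hB
  set g := algebraMap k[X] (RatFunc k) G with hg
  have hDW : algebraMap k[X] (RatFunc k) (d + G * b) = D + g * B := by
    rw [map_add, map_mul]
  rw [hDW] at hDW0 hudw ⊢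
  rw [om_diff hD0 hDW0, basisX.D_mul g B]
  have hDB : finAbv p (basisX.D B) ≤ 1 := fin_D hb
  have hDD : finAbv p (basisX.D D) ≤ 1 := fin_D hud.le
  have homg : basisX.D g = g * om g := by
    have : om g = basisX.D g / g := rfl
    rw [this]
    field_simp
  rw [homg]
  have e1 : h * ((D * (g * basisX.D B + B * (g * om g)) + g * B * basisX.D D) / (D * (D + g * B)))
      = B * (h * g * om g / D) + ((h * g * basisX.D B / (D + g * B)
        + h * g * B * basisX.D D / (D * (D + g * B)))
        + h * g * om g * B * (g * B) / (D * (D + g * B))) := by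
    field_simp
    linear_combination (-(om g * B ^ 2 * g * h)) * (CharTwo.two_eq_zero : (2 : RatFunc k) = 0)
  rw [e1, rs_add, rs_reg p (f := ((h * g * basisX.D B / (D + g * B)
        + h * g * B * basisX.D D / (D * (D + g * B)))
        + h * g * om g * B * (g * B) / (D * (D + g * B)))), add_zero]
  refine (finAbv_nonarch p _ _).trans (max_le ((finAbv_nonarch p _ _).trans (max_le ?_ ?_)) ?_)
  · rw [map_div₀, hudw, div_one, map_mul]
    exact mul_le_one₀ hG ((finAbv p).nonneg _) hDB
  · rw [map_div₀, map_mul (finAbv p) D, hudw, hud, one_mul, div_one, map_mul, map_mul (finAbv p) (h * g)]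
    exact mul_le_one₀ (mul_le_one₀ hG ((finAbv p).nonneg _) hb) ((finAbv p).nonneg _) hDD
  · rw [map_div₀, map_mul (finAbv p) D, hudw, hud, one_mul, div_one, map_mul, map_mul (finAbv p) (h * g * om g),
      map_mul (finAbv p) (h * g), map_mul (finAbv p) g B]
    have h1 := (finAbv p).nonneg (om g)
    have h2 := (finAbv p).nonneg (h * g)
    have h3 := (finAbv p).nonneg B
    have h4 := (finAbv p).nonneg g
    calc finAbv p (h * g) * finAbv p (om g) * finAbv p B * (finAbv p g * finAbv p B)
        ≤ 1 * 2 * 1 * (2⁻¹ * 1) := by gcongr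
      _ = 1 := by norm_num

theorem var_fin_zero {p : HeightOneSpectrum k[X]} {h : RatFunc k} {G b d : k[X]}
    (hG : finAbv p (h * algebraMap k[X] (RatFunc k) G) ≤ 2⁻¹) (hpG : gQ p ∣ G) (hG0 : G ≠ 0)
    (hd : ¬ gQ p ∣ d) :
    rs p (h * (om (algebraMap k[X] (RatFunc k) (d + G * b)) + om (algebraMap k[X] (RatFunc k) d)))
      = 0 := by
  rw [var_fin (hG.trans (by norm_num)) hpG hG0 hd]
  apply rs_reg
  have hud := unit_of hd
  have hb := finAbv_poly p b
  have hom := pole_le (om_cartier (vmap_ne hG0)) p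
  rw [map_mul, map_div₀, hud, div_one, map_mul]
  have h1 := (finAbv p).nonneg (om (algebraMap k[X] (RatFunc k) G))
  have h2 := (finAbv p).nonneg (h * algebraMap k[X] (RatFunc k) G)
  have h3 := (finAbv p).nonneg (algebraMap k[X] (RatFunc k) b)
  calc finAbv p (algebraMap k[X] (RatFunc k) b) * (finAbv p (h * algebraMap k[X] (RatFunc k) G)
        * finAbv p (om (algebraMap k[X] (RatFunc k) G)))
      ≤ 1 * (2⁻¹ * 2) := by gcongr
    _ = 1 := by norm_num

/-- the effect of a variation on the symbol -/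
theorem theta_var {P : Finset (HeightOneSpectrum k[X])} {h : RatFunc k} {d w : k[X]} :
    theta P h (d + w) = theta P h d
      + tt (ri (h * (om (algebraMap k[X] (RatFunc k) (d + w)) + om (algebraMap k[X] (RatFunc k) d)))
        + ∑ p ∈ P, rs p (h * (om (algebraMap k[X] (RatFunc k) (d + w))
          + om (algebraMap k[X] (RatFunc k) d)))) := by
  have hk2 : CharP k 2 := inferInstance
  unfold theta
  rw [← tt_add]
  congr 1
  rw [mul_add, ri_add, Finset.sum_congr rfl fun p _ => rs_add p _ _,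
    Finset.sum_add_distrib]
  linear_combination (-(ri (h * om (algebraMap k[X] (RatFunc k) d))
    + ∑ p ∈ P, rs p (h * om (algebraMap k[X] (RatFunc k) d)))) * (CharTwo.two_eq_zero : (2 : k) = 0)

theorem chi_add {P : Finset (HeightOneSpectrum k[X])} {h : RatFunc k} {d w : k[X]}
    (hw : ∀ p ∈ P, gQ p ∣ w) {c : ZMod 2}
    (hc : (∀ p ∈ P, ¬ gQ p ∣ d) → theta P h (d + w) = theta P h d + c) :
    chi P h (d + w) = chi P h d * (if c = 0 then 1 else -1) := by
  classical
  have h1 : (∀ p ∈ P, ¬ gQ p ∣ d + w) ↔ ∀ p ∈ P, ¬ gQ p ∣ d := by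
    apply forall₂_congr
    intro p hp
    rw [dvd_add_left (hw p hp)]
  unfold chi
  by_cases h2 : ∀ p ∈ P, ¬ gQ p ∣ d
  · rw [if_pos h2, if_pos (h1.mpr h2), hc h2]
    rcases zmod_cases (theta P h d) with h3 | h3 <;> rcases zmod_cases c with h4 | h4 <;>
      rw [h3, h4] <;> decide
  · rw [if_neg h2, if_neg (fun h3 => h2 (h1.mp h3)), zero_mul]

end Pool.Agent.H2
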