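import Pool.Agent.H2.WLocal

/-!
# Halvings of a Selmer class and their local Artin-Schreier classes
-/

namespace Pool.Agent.H2

open WeierstrassCurve WeierstrassCurve.Affine

universe u

section AS

variable {K : Type u} [Field K] {F : Type u} [Field F] [CharP F 2]
  [Algebra K F] {a b : K}


theorem half_ne (hb : b ≠ 0) {r₀ r : Pts (wcv a b) (AlgebraicClosure F)} (h : r + r = r₀) (h0 : r₀ ≠ 0) :
    r ≠ 0 ∧ px r ≠ 0 ∧ px r₀ * px r ^ 2 = px r ^ 4 + algebraMap K (AlgebraicClosure F) b := by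
  have h1 : r ≠ 0 := by
    rintro rfl
    exact h0 (by rw [← h, add_zero])
  have h2 : px r ≠ 0 := fun h3 => h0 (by rw [← h, (p_two hb h1).mpr h3])
  refine ⟨h1, h2, ?_⟩
  rw [← h, (p_dbl hb h1 h2).2]
  field_simp

omit [CharP F 2] in
theorem px_actv (g : (AlgebraicClosure F) ≃ₐ[F] (AlgebraicClosure F)) (r : Pts (wcv a b) (AlgebraicClosure F)) : px (actv g r) = g (px r) :=
  px_map _ _

omit [CharP F 2] in
theorem py_actv (g : (AlgebraicClosure F) ≃ₐ[F] (AlgebraicClosure F)) (r : Pts (wcv a b) (AlgebraicClosure F)) : py (actv g r) = g (py r) :=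
  py_map _ _

/-- the Artin-Schreier equation of a halving -/
theorem local_as (hb : b ≠ 0) {r₀ r : Pts (wcv a b) (AlgebraicClosure F)} (h : r + r = r₀) (h0 : r₀ ≠ 0)
    (hx0 : px r₀ ≠ 0) {X₀ : F} (hX₀ : algebraMap F (AlgebraicClosure F) X₀ = px r₀ ^ 2) {θ : (AlgebraicClosure F)} {u : F}
    (hθ : θ ^ 2 + θ = algebraMap F (AlgebraicClosure F) u)
    (hg : ∀ g : (AlgebraicClosure F) ≃ₐ[F] (AlgebraicClosure F), (actv g r = r ∧ g θ = θ) ∨
      ∃ t : Pts (wcv a b) (AlgebraicClosure F), t ≠ 0 ∧ t + t = 0 ∧ actv g r = r + t ∧ g θ = θ + 1) :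
    ∃ y : F, y ^ 2 + y = algebraMap K F b / X₀ + u ∧
      algebraMap F (AlgebraicClosure F) y = px r ^ 2 / px r₀ + θ := by
  obtain ⟨h1, h2, h3⟩ := half_ne hb h h0
  have two : (2 : (AlgebraicClosure F)) = 0 := CharTwo.two_eq_zero
  have hsq : ∀ x y : (AlgebraicClosure F), x ^ 2 = y ^ 2 → x = y := by
    intro x y hxy
    have h4 : (x + y) ^ 2 = 0 := by linear_combination hxy + (x * y + y ^ 2) * two
    exact CharTwo.add_eq_zero.mp (pow_eq_zero_iff two_ne_zero |>.mp h4)
  have hb' : algebraMap K (AlgebraicClosure F) b = algebraMap F (AlgebraicClosure F) (algebraMap K F b) :=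
    IsScalarTower.algebraMap_apply K F (AlgebraicClosure F) b
  set w : (AlgebraicClosure F) := px r ^ 2 / px r₀ + θ with hw
  have hwe : w ^ 2 + w = algebraMap F (AlgebraicClosure F) (algebraMap K F b / X₀ + u) := by
    rw [map_add, map_div₀, hX₀, ← hθ, ← hb', hw]
    field_simp
    linear_combination h3 + (px r ^ 2 * θ * px r₀ + px r ^ 4) * two
  obtain ⟨y, hy⟩ := as_fixed hwe (by
    intro g
    have h4 : g (px r₀) = px r₀ := by
      apply hsq
      rw [← map_pow, ← hX₀, g.commutes]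
    rcases hg g with ⟨h5, h6⟩ | ⟨t, ht, h2t, h5, h6⟩
    · rw [hw, map_add, map_div₀, map_pow, h4, h6, ← px_actv, h5]
    · rw [hw, map_add, map_div₀, map_pow, h4, h6, ← px_actv, h5]
      obtain ⟨-, h8⟩ := p_add_two hb h1 h2 ht h2t
      field_simp
      have h9 : (px (r + t) ^ 2 + px r₀ * (θ + 1)) * px r ^ 2
          = (px r ^ 2 + px r₀ * θ) * px r ^ 2 := by
        linear_combination h8 + h3 + (algebraMap K (AlgebraicClosure F) b) * two
      exact mul_right_cancel₀ (pow_ne_zero 2 h2) h9)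
  refine ⟨y, ?_, hy⟩
  apply (algebraMap F (AlgebraicClosure F)).injective
  rw [← hwe, map_add, map_pow, hy]

/-- the Artin-Schreier equation of the curve -/
theorem curve_as (hb : b ≠ 0) {r : Pts (wcv a b) (AlgebraicClosure F)} (h1 : r ≠ 0) (h2 : px r ≠ 0) {X : F}
    (hX : algebraMap F (AlgebraicClosure F) X = px r ^ 2) (hg : ∀ g : (AlgebraicClosure F) ≃ₐ[F] (AlgebraicClosure F), actv g r = r) :
    ∃ y : F, y ^ 2 + y = X + algebraMap K F a ^ 2 + algebraMap K F b ^ 2 / X ^ 2 ∧
      algebraMap F (AlgebraicClosure F) (y * X) = py r ^ 2 := by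
  have he := p_eqn hb h1
  have two : (2 : (AlgebraicClosure F)) = 0 := CharTwo.two_eq_zero
  have hb' : algebraMap K (AlgebraicClosure F) b = algebraMap F (AlgebraicClosure F) (algebraMap K F b) :=
    IsScalarTower.algebraMap_apply K F (AlgebraicClosure F) b
  have ha' : algebraMap K (AlgebraicClosure F) a = algebraMap F (AlgebraicClosure F) (algebraMap K F a) :=
    IsScalarTower.algebraMap_apply K F (AlgebraicClosure F) a
  have hwe : ((py r / px r) ^ 2) ^ 2 + (py r / px r) ^ 2
      = algebraMap F (AlgebraicClosure F) (X + algebraMap K F a ^ 2 + algebraMap K F b ^ 2 / X ^ 2) := by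
    simp only [map_add, map_div₀, map_pow]
    rw [hX, ← hb', ← ha']
    have h3 : (py r / px r) ^ 2 + py r / px r
        = px r + algebraMap K (AlgebraicClosure F) a + algebraMap K (AlgebraicClosure F) b / px r ^ 2 := by
      field_simp
      linear_combination he
    have h4 : ((py r / px r) ^ 2) ^ 2 + (py r / px r) ^ 2
        = ((py r / px r) ^ 2 + py r / px r) ^ 2 := by
      linear_combination (-(py r / px r) ^ 3) * two
    rw [h4, h3]
    field_simp
    linear_combination (px r ^ 5 * algebraMap K (AlgebraicClosure F) a + px r ^ 3 * algebraMap K (AlgebraicClosure F) b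
      + algebraMap K (AlgebraicClosure F) a * algebraMap K (AlgebraicClosure F) b * px r ^ 2) * two
  obtain ⟨y, hy⟩ := as_fixed hwe (by
    intro g
    rw [map_pow, map_div₀, ← px_actv, ← py_actv, hg])
  refine ⟨y, ?_, ?_⟩
  · apply (algebraMap F (AlgebraicClosure F)).injective
    rw [← hwe, map_add, map_pow, hy]
  · rw [map_mul, hy, hX]
    field_simp

end AS

section Sep

variable {F : Type u} [Field F] [CharP F 2]

instance instCharPKs : CharP (Ks F) 2 :=
  charP_of_injective_algebraMap (algebraMap F (Ks F)).injective 2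

theorem sep_solve (c : Ks F) : ∃ z : Ks F, z ^ 2 + z = c := by
  have h2 : ((2 : ℕ) : Ks F) = 0 := by exact_mod_cast (CharTwo.two_eq_zero : (2 : Ks F) = 0)
  obtain ⟨z, hz⟩ := IsSepClosed.exists_root_C_mul_X_pow_add_C_mul_X_add_C' (k := Ks F) 2 2 1 1 c
    (by exact_mod_cast dvd_refl 2) le_rfl one_ne_zero
  refine ⟨z, ?_⟩
  have h3 : (2 : Ks F) = 0 := CharTwo.two_eq_zero
  linear_combination hz - c * h3

theorem sep_as {z : AlgebraicClosure F} {c : Ks F}
    (hz : z ^ 2 + z = algebraMap (Ks F) (AlgebraicClosure F) c) :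
    ∃ z₀ : Ks F, algebraMap (Ks F) (AlgebraicClosure F) z₀ = z := by
  obtain ⟨w, hw⟩ := sep_solve c
  have h2 : (2 : AlgebraicClosure F) = 0 := CharTwo.two_eq_zero
  have h1 : (z + algebraMap (Ks F) (AlgebraicClosure F) w)
      * (z + algebraMap (Ks F) (AlgebraicClosure F) w + 1) = 0 := by
    have h3 := congrArg (algebraMap (Ks F) (AlgebraicClosure F)) hw
    rw [map_add, map_pow] at h3
    linear_combination hz + h3 + (z * algebraMap (Ks F) (AlgebraicClosure F) w
      + algebraMap (Ks F) (AlgebraicClosure F) c) * h2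
  rcases mul_eq_zero.mp h1 with h | h
  · exact ⟨w, (CharTwo.add_eq_zero.mp h).symm⟩
  · refine ⟨w + 1, ?_⟩
    rw [map_add, map_one]
    linear_combination h - z * h2

end Sep

end Pool.Agent.H2
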