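import Pool.Agent.H2.WData

/-!
# The local equations satisfied by a class modulo four
-/

namespace Pool.Agent.H2

open WeierstrassCurve WeierstrassCurve.Affine

universe u

section Glob

variable {K : Type u} [Field K] [CharP K 2] {a b : K}
variable {R : Pts (wcv a b) (Ks K)} (H : Halv R)


/-- the classes of the first half -/
def Halv.C₁ (θ : (AlgebraicClosure K)) : Prop := ∀ g, (act g H.R₁ = H.R₁ + (jj (H.S g) + jj (H.S g)) ∧ g θ = θ) ∨
  ((act g H.R₁ - H.R₁ - (jj (H.S g) + jj (H.S g)) ≠ 0) ∧ g θ = θ + 1)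

/-- the classes of the second half -/
def Halv.C₂ (θ : (AlgebraicClosure K)) : Prop := ∀ g, (act g H.R₂ = H.R₂ + jj (H.S g) ∧ g θ = θ) ∨
  ((act g H.R₂ - H.R₂ - jj (H.S g) ≠ 0) ∧ g θ = θ + 1)

/-- the class of the first half is trivial -/
def Halv.Fix : Prop := ∀ g, act g H.R₁ = H.R₁ + (jj (H.S g) + jj (H.S g))

omit [CharP K 2] in
theorem Halv.T₁ (g : (AlgebraicClosure K) ≃ₐ[K] (AlgebraicClosure K)) : (act g H.R₁ - H.R₁ - (jj (H.S g) + jj (H.S g)))
    + (act g H.R₁ - H.R₁ - (jj (H.S g) + jj (H.S g))) = 0 := by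
  have h1 := H.hS g
  rw [← H.h₁, map_add] at h1
  have h2 : (act g H.R₁ - H.R₁ - (jj (H.S g) + jj (H.S g)))
      + (act g H.R₁ - H.R₁ - (jj (H.S g) + jj (H.S g)))
      = (act g H.R₁ + act g H.R₁) - (H.R₁ + H.R₁ +
        ((jj (H.S g) + jj (H.S g)) + (jj (H.S g) + jj (H.S g)))) := by abel
  rw [h2, h1, sub_self]

omit [CharP K 2] in
theorem Halv.T₂ {g : (AlgebraicClosure K) ≃ₐ[K] (AlgebraicClosure K)} (h : act g H.R₁ = H.R₁ + (jj (H.S g) + jj (H.S g))) :
    (act g H.R₂ - H.R₂ - jj (H.S g)) + (act g H.R₂ - H.R₂ - jj (H.S g)) = 0 := by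
  rw [← H.h₂, map_add] at h
  have h2 : (act g H.R₂ - H.R₂ - jj (H.S g)) + (act g H.R₂ - H.R₂ - jj (H.S g))
      = (act g H.R₂ + act g H.R₂) - (H.R₂ + H.R₂ + (jj (H.S g) + jj (H.S g))) := by abel
  rw [h2, h, sub_self]

variable (hE : ∀ P : Pts (wcv a b) (Ks K), 2 • P = 0 → P = 0)
include hE

theorem px_ne (hb : b ≠ 0) {P : Pts (wcv a b) (Ks K)} (hP : P ≠ 0) : px P ≠ 0 := by
  intro h
  have h1 := (p_two hb hP).mpr h
  exact hP (hE P (by rw [two_nsmul, h1]))

/-- the square of the `x`-coordinate of the half -/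
theorem Halv.exists_X (hb : b ≠ 0) (hR : R ≠ 0) : ∃ X Y : Ks K, X ≠ 0 ∧
    algebraMap (Ks K) (AlgebraicClosure K) X = px H.R₁ ^ 2 ∧ algebraMap (Ks K) (AlgebraicClosure K) Y = py H.R₁ ^ 2 ∧
    X ^ 2 + px R * X + algebraMap K (Ks K) b = 0 := by
  have hxR := px_ne hE hb hR
  have hj : px (jj R) = algebraMap (Ks K) (AlgebraicClosure K) (px R) := px_map _ _
  obtain ⟨h1, h2, h3⟩ := half_ne hb H.h₁ (map_ne hR)
  rw [hj] at h3
  have two : (2 : (AlgebraicClosure K)) = 0 := CharTwo.two_eq_zero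
  have hb' : algebraMap K (AlgebraicClosure K) b = algebraMap (Ks K) (AlgebraicClosure K) (algebraMap K (Ks K) b) :=
    IsScalarTower.algebraMap_apply K (Ks K) (AlgebraicClosure K) b
  have ha' : algebraMap K (AlgebraicClosure K) a = algebraMap (Ks K) (AlgebraicClosure K) (algebraMap K (Ks K) a) :=
    IsScalarTower.algebraMap_apply K (Ks K) (AlgebraicClosure K) a
  have hxR' : algebraMap (Ks K) (AlgebraicClosure K) (px R) ≠ 0 := by rwa [Ne, map_eq_zero]
  obtain ⟨z, hz⟩ := sep_as (z := px H.R₁ ^ 2 / algebraMap (Ks K) (AlgebraicClosure K) (px R))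
    (c := algebraMap K (Ks K) b / px R ^ 2) (by
      rw [map_div₀, map_pow, ← hb']
      field_simp
      linear_combination h3 + px H.R₁ ^ 4 * two)
  obtain ⟨X, hX⟩ : ∃ X : Ks K, algebraMap (Ks K) (AlgebraicClosure K) X = px H.R₁ ^ 2 := by
    refine ⟨z * px R, ?_⟩
    rw [map_mul, hz]
    field_simp
  have hX0 : X ≠ 0 := by
    intro h0
    rw [h0, map_zero] at hX
    exact pow_ne_zero 2 h2 hX.symm
  have he := p_eqn hb h1
  obtain ⟨c, hc⟩ := sep_as (z := (py H.R₁ / px H.R₁) ^ 2)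
    (c := X + algebraMap K (Ks K) a ^ 2 + algebraMap K (Ks K) b ^ 2 / X ^ 2) (by
      have h4 : (py H.R₁ / px H.R₁) ^ 2 + py H.R₁ / px H.R₁
          = px H.R₁ + algebraMap K (AlgebraicClosure K) a + algebraMap K (AlgebraicClosure K) b / px H.R₁ ^ 2 := by
        field_simp
        linear_combination he
      have h5 : ((py H.R₁ / px H.R₁) ^ 2) ^ 2 + (py H.R₁ / px H.R₁) ^ 2
          = ((py H.R₁ / px H.R₁) ^ 2 + py H.R₁ / px H.R₁) ^ 2 := by
        linear_combination (-(py H.R₁ / px H.R₁) ^ 3) * two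
      rw [h5, h4, map_add, map_add, map_div₀, map_pow, map_pow, map_pow, hX, ← hb', ← ha']
      field_simp
      linear_combination (px H.R₁ ^ 5 * algebraMap K (AlgebraicClosure K) a + px H.R₁ ^ 3 * algebraMap K (AlgebraicClosure K) b
        + algebraMap K (AlgebraicClosure K) a * algebraMap K (AlgebraicClosure K) b * px H.R₁ ^ 2) * two)
  refine ⟨X, c * X, hX0, hX, ?_, ?_⟩
  · rw [map_mul, hX, hc]
    field_simp
  · have hinj : ∀ x y : Ks K, algebraMap (Ks K) (AlgebraicClosure K) x = algebraMap (Ks K) (AlgebraicClosure K) y → x = y :=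
      fun x y h => (algebraMap (Ks K) (AlgebraicClosure K)).injective h
    apply hinj
    rw [map_add, map_add, map_pow, map_mul, hX, map_zero, ← hb']
    linear_combination h3 + (px H.R₁ ^ 4 + algebraMap K (AlgebraicClosure K) b) * two

/-- the conjugates of the square of the `x`-coordinate -/
theorem Halv.conj (hb : b ≠ 0) (hR : R ≠ 0)
    (h : ∀ g, act g H.R₁ = H.R₁ + (jj (H.S g) + jj (H.S g))) {X Y : Ks K}
    (hX : algebraMap (Ks K) (AlgebraicClosure K) X = px H.R₁ ^ 2) (hY : algebraMap (Ks K) (AlgebraicClosure K) Y = py H.R₁ ^ 2)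
    (σ : Ks K ≃ₐ[K] Ks K) : ∃ n : Ks K, n ^ 2 = X * σ X := by
  obtain ⟨h1, h2, h3⟩ := half_ne hb H.h₁ (map_ne hR)
  set g : (AlgebraicClosure K) ≃ₐ[K] (AlgebraicClosure K) := AlgEquiv.liftNormal σ (AlgebraicClosure K) with hg
  have hgσ : ∀ x : Ks K, g (algebraMap (Ks K) (AlgebraicClosure K) x) = algebraMap (Ks K) (AlgebraicClosure K) (σ x) :=
    fun x => AlgEquiv.liftNormal_commutes σ (AlgebraicClosure K) x
  have h4 : act g H.R₁ = H.R₁ + Pts.map (jK K K) (H.S g + H.S g) := by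
    rw [map_add]; exact h g
  have h5 : px (act g H.R₁) = g (px H.R₁) := px_map _ _
  obtain ⟨n, hn⟩ := frob_add hb (f := jK K K) h1 h2 (X := X) (Y := Y) hX hY
    (Q := H.S g + H.S g) (by rw [← h4]; exact map_ne h1) (fun hne => px_ne hE hb hne)
  rw [← h4, h5] at hn
  refine ⟨n, ?_⟩
  have hinj : ∀ x y : Ks K, algebraMap (Ks K) (AlgebraicClosure K) x = algebraMap (Ks K) (AlgebraicClosure K) y → x = y :=
    fun x y h => (algebraMap (Ks K) (AlgebraicClosure K)).injective h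
  apply hinj
  have hn' : algebraMap (Ks K) (AlgebraicClosure K) n = px H.R₁ * g (px H.R₁) := hn
  rw [map_pow, hn', map_mul, ← hgσ, hX, map_pow]
  ring

end Glob

section Loc

variable {K : Type u} [Field K] [CharP K 2] {a b : K} {R : Pts (wcv a b) (Ks K)} (H : Halv R)
variable {F : Type u} [Field F] [CharP F 2] [Algebra K F] [Algebra K (Ks F)]
  [IsScalarTower K F (Ks F)]


variable {ι : Ks K →ₐ[K] Ks F} (D : LocData (R := R) (a := a) (b := b) ι)
variable (hF : ∀ P : Pts (wcv a b) (Ks F), 2 • P = 0 → P = 0)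
include hF

omit [CharP K 2] [Algebra K F] [IsScalarTower K F (Ks F)] in
theorem px_neF (hb : b ≠ 0) {P : Pts (wcv a b) (Ks F)} (hP : P ≠ 0) : px P ≠ 0 := by
  intro h
  have h1 := (p_two hb hP).mpr h
  exact hP (hF P (by rw [two_nsmul, h1]))

omit [CharP K 2] in
theorem px_neF' (hb : b ≠ 0) {P : Pts (wcv a b) F} (hP : P ≠ 0) : px P ≠ 0 := by
  intro h
  have h1 := (p_two hb hP).mpr h
  have h2 := hF (Pts.map (fK F K) P) (by rw [two_nsmul, ← map_add, h1, map_zero])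
  exact map_ne hP h2

omit [CharP K 2] [CharP F 2] in
theorem LocData.act₁ (g : (AlgebraicClosure F) ≃ₐ[F] (AlgebraicClosure F)) : ∃ g₀ : (AlgebraicClosure K) ≃ₐ[K] (AlgebraicClosure K), (∀ x, D.ι' (g₀ x) = g (D.ι' x)) ∧
    actv g (D.r₁ H) = D.r₁ H
      + Pts.map D.ι' (act g₀ H.R₁ - H.R₁ - (jj (H.S g₀) + jj (H.S g₀))) ∧
    actv g (D.r₂ H) = D.r₂ H + Pts.map D.ι' (act g₀ H.R₂ - H.R₂ - jj (H.S g₀)) := by
  obtain ⟨g₀, h1, h2, h3⟩ := D.galois H hF g
  refine ⟨g₀, h1, ?_, ?_⟩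
  · unfold LocData.r₁
    rw [map_sub, map_add, h2, h3, map_sub, map_sub, map_add]
    abel
  · unfold LocData.r₂
    rw [map_sub, h2, h3, map_sub, map_sub]
    abel

omit [CharP K 2] [CharP F 2] hF in
theorem LocData.theta {θ : (AlgebraicClosure K)} {u : K} (hθ : θ ^ 2 + θ = algebraMap K (AlgebraicClosure K) u) :
    D.ι' θ ^ 2 + D.ι' θ = algebraMap F (AlgebraicClosure F) (algebraMap K F u) := by
  rw [← map_pow, ← map_add, hθ, D.ι'.commutes, IsScalarTower.algebraMap_apply K F (AlgebraicClosure F)]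

omit [CharP K 2] in
/-- the first local equations -/
theorem LocData.class₁ (hb : b ≠ 0) {θ : (AlgebraicClosure K)} {u : K} (hθ : θ ^ 2 + θ = algebraMap K (AlgebraicClosure K) u)
    (hg : ∀ g, (act g H.R₁ = H.R₁ + (jj (H.S g) + jj (H.S g)) ∧ g θ = θ) ∨
        ((act g H.R₁ - H.R₁ - (jj (H.S g) + jj (H.S g)) ≠ 0) ∧ g θ = θ + 1)) (hP : D.P ≠ 0) :
    (∃ y : F, y ^ 2 + y
      = px D.P + algebraMap K F a + algebraMap K F b / px D.P ^ 2) ∧
    ∃ y : F, y ^ 2 + y = algebraMap K F b / px D.P ^ 2 + algebraMap K F u := by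
  have hx := px_neF' hF hb hP
  have hpe : px (Pts.map (eK F K) D.P) = algebraMap F (AlgebraicClosure F) (px D.P) := px_map _ _
  refine ⟨⟨py D.P / px D.P, ?_⟩, ?_⟩
  · have he := p_eqn hb hP
    field_simp
    linear_combination he
  · obtain ⟨y, hy, -⟩ := local_as hb (D.r₁_add H) (map_ne hP)
      (by rw [hpe, Ne, map_eq_zero]; exact hx) (X₀ := px D.P ^ 2)
      (by rw [hpe, map_pow]) (D.theta hθ) (by
        intro g
        obtain ⟨g₀, h1, h2, -⟩ := D.act₁ H hF g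
        rcases hg g₀ with ⟨h3, h4⟩ | ⟨h3, h4⟩
        · left
          refine ⟨?_, by rw [← h1, h4]⟩
          rw [h2, h3]
          have : H.R₁ + (jj (H.S g₀) + jj (H.S g₀)) - H.R₁ - (jj (H.S g₀) + jj (H.S g₀)) = 0 := by
            abel
          rw [this, map_zero, add_zero]
        · right
          refine ⟨_, map_ne h3, ?_, h2, by rw [← h1, h4, map_add, map_one]⟩
          rw [← map_add, H.T₁, map_zero])
    exact ⟨y, hy⟩

/-- the second local equations -/
theorem LocData.class₂ (hb : b ≠ 0) (hR : R ≠ 0)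
    (h : ∀ g, act g H.R₁ = H.R₁ + (jj (H.S g) + jj (H.S g)))
    {θ : (AlgebraicClosure K)} {u : K} (hθ : θ ^ 2 + θ = algebraMap K (AlgebraicClosure K) u)
    (hg : ∀ g, (act g H.R₂ = H.R₂ + jj (H.S g) ∧ g θ = θ) ∨
        ((act g H.R₂ - H.R₂ - jj (H.S g) ≠ 0) ∧ g θ = θ + 1)) (hP : D.P ≠ 0)
    {X' : Ks K} (hX' : algebraMap (Ks K) (AlgebraicClosure K) X' = px H.R₁ ^ 2) :
    ∃ X : F, X ≠ 0 ∧
      (∃ y : F, y ^ 2 + y
        = X + algebraMap K F a ^ 2 + algebraMap K F b ^ 2 / X ^ 2) ∧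
      (∃ y : F, y ^ 2 + y = algebraMap K F b / X + algebraMap K F u) ∧
      ∃ n : Ks F, n ^ 2 = fK F K X * ι X' := by
  have hx := px_neF' hF hb hP
  have hpe : px (Pts.map (eK F K) D.P) = algebraMap F (AlgebraicClosure F) (px D.P) := px_map _ _
  have hfix : ∀ g : (AlgebraicClosure F) ≃ₐ[F] (AlgebraicClosure F), actv g (D.r₁ H) = D.r₁ H := by
    intro g
    obtain ⟨g₀, h1, h2, -⟩ := D.act₁ H hF g
    rw [h2, h g₀]
    have : H.R₁ + (jj (H.S g₀) + jj (H.S g₀)) - H.R₁ - (jj (H.S g₀) + jj (H.S g₀)) = 0 := by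
      abel
    rw [this, map_zero, add_zero]
  obtain ⟨h1, h2, h3⟩ := half_ne hb (D.r₁_add H) (map_ne hP)
  obtain ⟨y, -, hy⟩ := local_as hb (D.r₁_add H) (map_ne hP)
      (by rw [hpe, Ne, map_eq_zero]; exact hx) (X₀ := px D.P ^ 2)
      (by rw [hpe, map_pow]) (θ := 0) (u := 0) (by rw [map_zero]; ring)
      (fun g => Or.inl ⟨hfix g, map_zero _⟩)
  have hX : algebraMap F (AlgebraicClosure F) (y * px D.P) = px (D.r₁ H) ^ 2 := by
    rw [map_mul, hy, hpe, add_zero]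
    have : algebraMap F (AlgebraicClosure F) (px D.P) ≠ 0 := by rwa [Ne, map_eq_zero]
    field_simp
  set X := y * px D.P with hXd
  have hX0 : X ≠ 0 := by
    intro h0
    rw [h0, map_zero] at hX
    exact pow_ne_zero 2 h2 hX.symm
  obtain ⟨y₂, hy₂, hY⟩ := curve_as hb h1 h2 hX hfix
  refine ⟨X, hX0, ⟨y₂, hy₂⟩, ?_, ?_⟩
  · obtain ⟨y₃, hy₃, -⟩ := local_as hb (D.r₂_add H) h1 h2 hX (D.theta hθ) (by
        intro g
        obtain ⟨g₀, h4, -, h5⟩ := D.act₁ H hF g
        rcases hg g₀ with ⟨h6, h7⟩ | ⟨h6, h7⟩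
        · left
          refine ⟨?_, by rw [← h4, h7]⟩
          rw [h5, h6]
          have : H.R₂ + jj (H.S g₀) - H.R₂ - jj (H.S g₀) = 0 := by abel
          rw [this, map_zero, add_zero]
        · right
          refine ⟨_, map_ne h6, ?_, h5, by rw [← h4, h7, map_add, map_one]⟩
          rw [← map_add, H.T₂ (h g₀), map_zero])
    exact ⟨y₃, hy₃⟩
  · have h4 : D.r₁ H + Pts.map (jK F K) (D.Q + D.Q) = Pts.map D.ι' H.R₁ := by
      rw [map_add]
      unfold LocData.r₁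
      abel
    have h5 : H.R₁ ≠ 0 := (half_ne hb H.h₁ (map_ne hR)).1
    obtain ⟨n, hn⟩ := frob_add hb (f := jK F K) h1 h2 (X := fK F K X)
      (Y := fK F K (y₂ * X)) (by
        rw [← hX]
        exact DFunLike.congr_fun (jf F K) X) (by
        rw [← hY]
        exact DFunLike.congr_fun (jf F K) (y₂ * X)) (Q := D.Q + D.Q)
      (by rw [h4]; exact map_ne h5) (fun hne => px_neF hF hb hne)
    rw [h4, px_map] at hn
    refine ⟨n, ?_⟩
    have hinj : Function.Injective (jK F K) := (jK F K : Ks F →+* (AlgebraicClosure F)).injective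
    apply hinj
    rw [map_pow, hn, map_mul]
    have h6 : jK F K (fK F K X) = algebraMap F (AlgebraicClosure F) X := DFunLike.congr_fun (jf F K) X
    have h7 : jK F K (ι X') = D.ι' (algebraMap (Ks K) (AlgebraicClosure K) X') :=
      (DFunLike.congr_fun D.hι X').symm
    rw [h6, h7, hX, hX', map_pow]
    ring

end Loc

end Pool.Agent.H2
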