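import Pool.Agent.H2.GFinal
import Pool.Agent.H2.WOut

/-!
# The local analysis and the linear algebra of the refined criterion
-/

namespace Pool.Agent.H2

open Polynomial IsDedekindDomain WeierstrassCurve WeierstrassCurve.Affine

universe u

variable {k : Type u} [Field k] [Finite k] [CharP k 2]

section Loc

/-- the local equations of an Artin-Schreier class -/
def ED (v : AbsoluteValue (RatFunc k) ℝ) (a b u : RatFunc k) (j : ℕ) : Prop :=
  ∃ A B c c' : v.Completion, A * B ^ j = rc v b ∧ c ^ 2 + c = A + B + rc v a ∧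
    c' ^ 2 + c' = A + rc v u

/-- the local equations of a logarithmic differential -/
def KD (v : AbsoluteValue (RatFunc k) ℝ)
    (hF : TwoBasis (algebraMap (RatFunc k) v.Completion RatFunc.X)) (a b ℓ : RatFunc k) : Prop :=
  ∃ W c c' : v.Completion, W ≠ 0 ∧ c ^ 2 + c = W + rc v a ∧ c' ^ 2 + c' = rc v b / W ∧
    hF.D W / W = rc v ℓ

variable {a b u ℓ : RatFunc k} {v : AbsoluteValue (RatFunc k) ℝ} {τ : RatFunc k}

theorem ed_int (g : GoodPlace v τ 2) {j : ℕ} (ha : v a ≤ 1) (hb : v b ≤ 1)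
    (h : ED v a b u j) : ∃ z : RatFunc k, v (z ^ 2 + z + u) ≤ 1 := by
  have hL := g.charP_comp
  obtain ⟨A, B, c, c', h1, h2, h3⟩ := h
  have hna : ‖rc v a‖ ≤ 1 := by rw [norm_rc]; exact ha
  have hnb : ‖rc v b‖ ≤ 1 := by rw [norm_rc]; exact hb
  by_cases hB : ‖B‖ ≤ 1
  · apply down_le g (w := c + c')
    have e : (c + c') ^ 2 + (c + c') - rc v u = B + rc v a := by
      have : (c + c') ^ 2 + (c + c') = (c ^ 2 + c) + (c' ^ 2 + c') := by grind
      rw [this, h2, h3]; grind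
    rw [e]
    exact (g.ultra _ _).trans (max_le hB hna)
  · rw [not_le] at hB
    apply down_le g (w := c')
    have e : c' ^ 2 + c' - rc v u = A := by rw [h3]; ring
    rw [e]
    have h4 : ‖A‖ * ‖B‖ ^ j = ‖rc v b‖ := by rw [← h1, norm_mul, norm_pow]
    have h5 : 1 ≤ ‖B‖ ^ j := one_le_pow₀ hB.le
    have h6 := norm_nonneg A
    nlinarith

theorem ed_pole (g : GoodPlace v τ 2) {j : ℕ} (hj : j ≠ 0) {m : ℕ} (hm : Odd m)
    (ha : v a = (2 : ℝ) ^ (m : ℤ)) (hb : v b < v a) (h : ED v a b u j) :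
    ∃ ε : RatFunc k, (ε = 0 ∨ ε = 1) ∧
      ∃ z : RatFunc k, v (z ^ 2 + z + (u + ε * a)) < 1 := by
  have hL := g.charP_comp
  obtain ⟨A, B, c, c', h1, h2, h3⟩ := h
  have hna : ‖rc v a‖ = (2 : ℝ) ^ (m : ℤ) := by rw [norm_rc, ha]
  have hnb : ‖rc v b‖ < ‖rc v a‖ := by rw [norm_rc, norm_rc]; exact hb
  have hna1 : 1 < ‖rc v a‖ := by
    rw [hna]; exact one_lt_zpow₀ (by norm_num) (by have := hm.pos; omega)
  have h4 : ‖A‖ * ‖B‖ ^ j = ‖rc v b‖ := by rw [← h1, norm_mul, norm_pow]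
  have h6 := norm_nonneg A
  have h7 := norm_nonneg B
  by_cases hB : ‖rc v a‖ ≤ ‖B‖
  · refine ⟨0, Or.inl rfl, ?_⟩
    rw [zero_mul, add_zero]
    apply down_lt g (w := c')
    have e : c' ^ 2 + c' - rc v u = A := by rw [h3]; ring
    rw [e]
    by_contra hA
    rw [not_lt] at hA
    have h5 : ‖B‖ ≤ ‖B‖ ^ j := le_self_pow₀ (by linarith) hj
    nlinarith
  · rw [not_le] at hB
    by_cases hA : ‖rc v a‖ ≤ ‖A‖
    · refine ⟨1, Or.inr rfl, ?_⟩
      rw [one_mul]
      apply down_lt g (w := c + c')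
      have e : (c + c') ^ 2 + (c + c') - rc v (u + a) = B := by
        have : (c + c') ^ 2 + (c + c') = (c ^ 2 + c) + (c' ^ 2 + c') := by grind
        have e2 : rc v (u + a) = rc v u + rc v a := by unfold rc; rw [map_add]
        rw [this, h2, h3, e2]; grind
      rw [e]
      by_contra hB1
      rw [not_lt] at hB1
      have h5 : 1 ≤ ‖B‖ ^ j := one_le_pow₀ hB1
      nlinarith
    · rw [not_le] at hA
      exfalso
      have h5 : ‖A + B + rc v a‖ = (2 : ℝ) ^ (m : ℤ) := by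
        rw [norm_add_of_lt g (lt_of_le_of_lt (g.ultra A B) (max_lt hA hB))]
        exact hna
      have h8 := even_exp g h2 h5 (by have := hm.pos; omega)
      rw [Int.even_coe_nat] at h8
      exact (Nat.not_even_iff_odd.mpr hm) h8

omit [Finite k] [CharP k 2] in
/-- logarithmic derivatives of elements of even valuation are integral -/
theorem dlog_int (g : GoodPlace v (RatFunc.X : RatFunc k) 2) {W m : v.Completion} (hW : W ≠ 0)
    (hm : m ≠ 0) (h : ‖W‖ = ‖m‖ ^ 2) : ‖g.comp_basis.D W / W‖ ≤ 1 := by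
  set w := W / m ^ 2 with hw
  have hWw : W = m ^ 2 * w := by rw [hw]; field_simp
  have hw1 : ‖w‖ = 1 := by
    rw [hw, norm_div, norm_pow, h]
    exact div_self (pow_ne_zero 2 (norm_ne_zero_iff.mpr hm))
  have h1 : g.comp_basis.D W / W = g.comp_basis.D w / w := by
    rw [hWw, g.comp_basis.D_sq_mul]
    field_simp
  rw [h1, norm_div, hw1, div_one]
  have h2 := (g.star' (g.comp_basis.E w) (g.comp_basis.C w) (by
    rw [g.comp_basis.spec']; exact hw1.le)).2
  unfold TwoBasis.D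
  rw [norm_pow]
  exact pow_le_one₀ (norm_nonneg _) h2

theorem kd_reg (g : GoodPlace v (RatFunc.X : RatFunc k) 2) (ha : v a ≤ 1)
    (hb : v b = 1 ∨ ∀ z : RatFunc k, ¬ v (z ^ 2 + z + a) < 1)
    (h : KD v g.comp_basis a b ℓ) : v ℓ ≤ 1 := by
  have hL := g.charP_comp
  obtain ⟨W, c, c', hW, h1, h2, h3⟩ := h
  have hna : ‖rc v a‖ ≤ 1 := by rw [norm_rc]; exact ha
  rw [← norm_rc, ← h3]
  have hW0 : 0 < ‖W‖ := norm_pos_iff.mpr hW
  rcases lt_trichotomy ‖W‖ 1 with hlt | heq | hgt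
  · rcases hb with hb | hb
    · have hnb : ‖rc v b‖ = 1 := by rw [norm_rc]; exact hb
      have h4 : 1 < ‖rc v b / W‖ := by
        rw [norm_div, hnb]
        exact (one_lt_div hW0).mpr hlt
      obtain ⟨h5, h6⟩ := even_pole g h2 h4
      have hc0 : c' ≠ 0 := norm_pos_iff.mp (by linarith)
      apply dlog_int g hW (m := c'⁻¹) (inv_ne_zero hc0)
      rw [norm_div, hnb, one_div] at h6
      rw [norm_inv, inv_pow, ← h6, inv_inv]
    · exfalso
      obtain ⟨z, hz⟩ := down_lt g (U := a) (w := c) (by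
        have e : c ^ 2 + c - rc v a = W := by rw [h1]; ring
        rw [e]; exact hlt)
      exact hb z hz
  · exact dlog_int g hW one_ne_zero (by rw [heq, norm_one, one_pow])
  · have h4 : ‖W + rc v a‖ = ‖W‖ := by
      rw [add_comm]
      exact norm_add_of_lt g (lt_of_le_of_lt hna hgt)
    obtain ⟨h5, h6⟩ := even_pole g h1 (by rw [h4]; exact hgt)
    have hc0 : c ≠ 0 := norm_pos_iff.mp (by linarith)
    exact dlog_int g hW hc0 (by rw [← h4, h6])

theorem kd_cartier (g : GoodPlace v τ 2) {hF : TwoBasis (algebraMap (RatFunc k) v.Completion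
    RatFunc.X)} (h : KD v hF a b ℓ) : ∃ e : RatFunc k, ℓ = e ^ 2 + RatFunc.X * ℓ ^ 2 := by
  have hL := g.charP_comp
  obtain ⟨W, c, c', hW, -, -, h3⟩ := h
  have h1 : hF.C (rc v ℓ) = rc v ℓ := by
    rw [← h3]
    unfold TwoBasis.D
    have e : hF.C W ^ 2 / W = (hF.C W / W) ^ 2 * W := by field_simp
    rw [e, hF.C_sq_mul]
    field_simp
  have h2 : rc v (basisX.C ℓ) = hF.C (rc v ℓ) :=
    basisX.map_C hF (algebraMap (RatFunc k) v.Completion) rfl ℓ
  have h4 : basisX.C ℓ = ℓ := by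
    apply (algebraMap (RatFunc k) v.Completion).injective
    exact h2.trans h1
  refine ⟨basisX.E ℓ, ?_⟩
  have h5 := basisX.spec ℓ
  rw [h4] at h5
  exact h5

omit [Finite k] [CharP k 2] in
theorem kd_approx (g : GoodPlace v (RatFunc.X : RatFunc k) 2) (h : KD v g.comp_basis a b ℓ) :
    ∃ c₀ e₀ : RatFunc k, v ((c₀ ^ 2 + c₀ + a) * ℓ + e₀ ^ 2) ≤ 1 := by
  have hL := g.charP_comp
  obtain ⟨W, c, c', hW, h1, h2, h3⟩ := h
  have hWl : W * rc v ℓ = g.comp_basis.C W ^ 2 := by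
    rw [← h3]
    unfold TwoBasis.D
    field_simp
  have hε : 0 < 1 / (1 + ‖rc v ℓ‖) := by positivity
  have hε1 : 1 / (1 + ‖rc v ℓ‖) ≤ 1 := by
    rw [div_le_one (by positivity)]
    linarith [norm_nonneg (rc v ℓ)]
  obtain ⟨c₀, hc₀⟩ := GoodPlace.approx (v := v) c hε
  obtain ⟨e₀, he₀⟩ := GoodPlace.approx (v := v) (g.comp_basis.C W) one_pos
  change ‖c - rc v c₀‖ < _ at hc₀
  change ‖g.comp_basis.C W - rc v e₀‖ < 1 at he₀
  refine ⟨c₀, e₀, ?_⟩
  rw [← norm_rc]
  have e1 : rc v ((c₀ ^ 2 + c₀ + a) * ℓ + e₀ ^ 2) = (g.comp_basis.C W - rc v e₀) ^ 2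
      + ((c - rc v c₀) ^ 2 + (c - rc v c₀)) * rc v ℓ := by
    have e2 : rc v ((c₀ ^ 2 + c₀ + a) * ℓ + e₀ ^ 2)
        = (rc v c₀ ^ 2 + rc v c₀ + rc v a) * rc v ℓ + rc v e₀ ^ 2 := by
      unfold rc
      simp only [map_add, map_mul, map_pow]
    rw [e2]
    have e3 : rc v a = W + (c ^ 2 + c) := by rw [h1]; grind
    rw [e3]
    linear_combination hWl + (rc v c₀ * rc v ℓ + c * rc v c₀ * rc v ℓ
      + g.comp_basis.C W * rc v e₀) * (CharTwo.two_eq_zero : (2 : v.Completion) = 0)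
  rw [e1]
  refine (g.ultra _ _).trans (max_le ?_ ?_)
  · rw [norm_pow]
    exact pow_le_one₀ (norm_nonneg _) he₀.le
  · rw [norm_mul]
    have h5 : ‖(c - rc v c₀) ^ 2 + (c - rc v c₀)‖ ≤ 1 / (1 + ‖rc v ℓ‖) := by
      refine (g.ultra _ _).trans (max_le ?_ hc₀.le)
      rw [norm_pow, pow_two]
      have h6 := norm_nonneg (c - rc v c₀)
      nlinarith
    calc ‖(c - rc v c₀) ^ 2 + (c - rc v c₀)‖ * ‖rc v ℓ‖
        ≤ 1 / (1 + ‖rc v ℓ‖) * ‖rc v ℓ‖ := by gcongr
      _ ≤ 1 := by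
          rw [div_mul_eq_mul_div, one_mul, div_le_one (by positivity)]
          linarith

theorem kd_res {p : HeightOneSpectrum k[X]} {e : RatFunc k} (he : ℓ = e ^ 2 + RatFunc.X * ℓ ^ 2)
    (h : KD (finAbv p) (finAbv_good p).comp_basis a b ℓ) : tt (rs p (a * ℓ)) = 0 := by
  have hK2 : CharP (RatFunc k) 2 := basisX.charP
  obtain ⟨c₀, e₀, h4⟩ := kd_approx (finAbv_good p) h
  rw [tt_eq_zero]
  have e4 : a * ℓ = (c₀ ^ 2 + c₀) * ℓ + (e₀ ^ 2 + ((c₀ ^ 2 + c₀ + a) * ℓ + e₀ ^ 2)) := by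
    linear_combination (-((c₀ ^ 2 + c₀) * ℓ) - e₀ ^ 2) * (CharTwo.two_eq_zero : (2 : RatFunc k) = 0)
  rw [e4, rs_add, rs_add, rs_sq, zero_add, rs_reg p h4, add_zero]
  exact rs_wp p he c₀

end Loc

/-- a twist satisfying the refined criterion -/
structure InvTwist (S Z : Finset (HeightOneSpectrum k[X])) (b a : RatFunc k) : Prop where
  nsq : ¬ IsSquare b
  bS : ∀ p, p ∉ S → p ∉ Z → finAbv p b = 1
  bZ : ∀ p, p ∉ S → finAbv p b ≤ 1
  aZ : ∀ p ∈ Z, NS p a
  aS : ∀ p, p ∉ S → finAbv p a ≤ 1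
  inf : ∃ m : ℕ, Odd m ∧ infAbv k a = (2 : ℝ) ^ (m : ℤ) ∧ infAbv k b < infAbv k a
  fin : ∀ p ∈ S, ∃ m : ℕ, Odd m ∧ finAbv p a = (2 : ℝ) ^ (m : ℤ) ∧ finAbv p b < finAbv p a
  inj : ∀ x : S → ZMod 2, Matrix.mulVec (Lam S a) x = 0 → x = 0
  inj' : ∀ x : S → ZMod 2, Matrix.vecMul x (Lam S a) = 0 → x = 0

namespace InvTwist

variable {S Z : Finset (HeightOneSpectrum k[X])} {b a : RatFunc k} (G : InvTwist S Z b a)
include G

omit [Finite k] [CharP k 2] in
theorem b_ne : b ≠ 0 := by rintro rfl; exact G.nsq ⟨0, by simp⟩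

theorem C_ne : (basisX (k := k)).C b ≠ 0 := C_ne_zero_of G.nsq

/-- there are no logarithmic differentials satisfying the local equations -/
theorem key {ℓ : RatFunc k} (hinf : KD (infAbv k) basis_inf a b ℓ)
    (hfin : ∀ p, KD (finAbv p) (finAbv_good p).comp_basis a b ℓ) : ℓ = 0 := by
  obtain ⟨e, he⟩ := kd_cartier (infAbv_good (k := k)) hinf
  have hreg : ∀ p, p ∉ S → finAbv p ℓ ≤ 1 := by
    intro p hp
    refine kd_reg (finAbv_good p) (G.aS p hp) ?_ (hfin p)
    by_cases hZ : p ∈ Z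
    · exact Or.inr (G.aZ p hZ)
    · exact Or.inl (G.bS p hp hZ)
  have h1 : Matrix.vecMul (pl S ℓ) (Lam S a) = 0 := by
    ext p
    rw [← res_formula S a he hreg p, Pi.zero_apply]
    exact kd_res he (hfin p.1)
  have h2 := G.inj' _ h1
  rw [log_expand S he hreg, h2]
  apply Finset.sum_eq_zero
  intro q _
  rw [Pi.zero_apply, zt_zero, zero_mul]

/-- the Artin-Schreier classes satisfying the local equations -/
theorem as_part {u : RatFunc k} {j : ℕ} (hj : j ≠ 0) (hinf : ED (infAbv k) a b u j)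
    (hfin : ∀ p, ED (finAbv p) a b u j) :
    ∃ ε : RatFunc k, (ε = 0 ∨ ε = 1) ∧ ∃ g : RatFunc k, g ^ 2 + g = u + ε * a := by
  classical
  have hK2 : CharP (RatFunc k) 2 := basisX.charP
  have h1 : ∀ p, p ∉ S → ∃ z : RatFunc k, finAbv p (z ^ 2 + z + u) ≤ 1 := fun p hp =>
    ed_int (finAbv_good p) (G.aS p hp) (G.bZ p hp) (hfin p)
  have h2' : ∀ p : S, ∃ ε : ZMod 2, ∃ z : RatFunc k,
      finAbv p.1 (z ^ 2 + z + (u + zt ε * a)) < 1 := by
    intro p
    obtain ⟨m, hm, ha, hb⟩ := G.fin p.1 p.2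
    obtain ⟨ε, hε, h⟩ := ed_pole (finAbv_good p.1) hj hm ha hb (hfin p.1)
    rcases hε with rfl | rfl
    · exact ⟨0, by rw [zt_zero]; exact h⟩
    · exact ⟨1, by rw [zt_one]; exact h⟩
  choose ε hεz using h2'
  obtain ⟨η, zη, hzη⟩ : ∃ η : ZMod 2, ∃ z : RatFunc k,
      infAbv k (z ^ 2 + z + (u + zt η * a)) < 1 := by
    obtain ⟨m, hm, ha, hb⟩ := G.inf
    obtain ⟨η, hη, h⟩ := ed_pole (infAbv_good (k := k)) hj hm ha hb hinf
    rcases hη with rfl | rfl
    · exact ⟨0, by rw [zt_zero]; exact h⟩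
    · exact ⟨1, by rw [zt_one]; exact h⟩
  -- the polynomial part
  set A := a + ∑ q : S, pp q.1 a with hA
  have hself : ∀ x : RatFunc k, x + x = 0 := CharTwo.add_self_eq_zero
  have haA : a = A + ∑ q : S, pp q.1 a := by
    rw [hA, add_assoc, hself, add_zero]
  have hAint : ∀ p, finAbv p A ≤ 1 := by
    intro p
    by_cases hp : p ∈ S
    · rw [hA, ← Finset.add_sum_erase _ _ (Finset.mem_univ (⟨p, hp⟩ : S)), ← add_assoc]
      refine (finAbv_nonarch p _ _).trans (max_le ?_ (fin_sum_le p _ _ fun q hq => ?_))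
      · have := pp_reg p a
        rwa [CharTwo.sub_eq_add] at this
      · apply pp_int
        rintro h
        exact (Finset.ne_of_mem_erase hq) (Subtype.ext h.symm)
    · refine (finAbv_nonarch p _ _).trans (max_le (G.aS p hp) (fin_sum_le p _ _ fun q hq => ?_))
      apply pp_int
      rintro rfl
      exact hp q.2
  -- the brackets
  have hbr : ∀ δ : ZMod 2, (∑ q : S, zt (ε q + δ) * pp q.1 a) + zt (η + δ) * A
      = (∑ q : S, zt (ε q) * pp q.1 a + zt η * A) + zt δ * a := by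
    intro δ
    have h5 : ∑ q : S, zt (ε q + δ) * pp q.1 a
        = ∑ q : S, zt (ε q) * pp q.1 a + zt δ * ∑ q : S, pp q.1 a := by
      rw [Finset.mul_sum, ← Finset.sum_add_distrib]
      exact Finset.sum_congr rfl fun q _ => by rw [zt_add]; ring
    rw [h5, zt_add]
    linear_combination (-(zt δ)) * haA
  have hbr' : ∀ (δ : ZMod 2) (z : RatFunc k),
      z ^ 2 + z + (u + (∑ q : S, zt (ε q) * pp q.1 a + zt η * A))
      = (z ^ 2 + z + (u + zt δ * a))
        + ((∑ q : S, zt (ε q + δ) * pp q.1 a) + zt (η + δ) * A) := by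
    intro δ z
    rw [hbr]
    linear_combination (-(zt δ * a)) * (CharTwo.two_eq_zero : (2 : RatFunc k) = 0)
  have hterm : ∀ (p : S) (q : S), finAbv p.1 (zt (ε q + ε p) * pp q.1 a) ≤ 1 := by
    intro p q
    by_cases hqp : q = p
    · rw [hqp, CharTwo.add_self_eq_zero, zt_zero, zero_mul, map_zero]; exact zero_le_one
    · rw [map_mul]
      exact mul_le_one₀ (zero_one (zt_cases _) p.1) ((finAbv p.1).nonneg _)
        (pp_int (fun h => hqp (Subtype.ext h.symm)) a)
  have hAterm : ∀ (p : HeightOneSpectrum k[X]) (c : ZMod 2), finAbv p (zt c * A) ≤ 1 := by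
    intro p c
    rw [map_mul]
    exact mul_le_one₀ (zero_one (zt_cases _) p) ((finAbv p).nonneg _) (hAint p)
  obtain ⟨g, hg⟩ : ∃ g : RatFunc k,
      g ^ 2 + g = u + (∑ q : S, zt (ε q) * pp q.1 a + zt η * A) := by
    apply as_global
    · intro p
      by_cases hp : p ∈ S
      · obtain ⟨z, hz⟩ := hεz ⟨p, hp⟩
        refine ⟨z, ?_⟩
        rw [hbr' (ε ⟨p, hp⟩) z]
        exact (finAbv_nonarch p _ _).trans (max_le hz.le ((finAbv_nonarch p _ _).trans
          (max_le (fin_sum_le p _ _ fun q _ => hterm ⟨p, hp⟩ q) (hAterm p _))))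
      · obtain ⟨z, hz⟩ := h1 p hp
        refine ⟨z, ?_⟩
        rw [← add_assoc]
        refine (finAbv_nonarch p _ _).trans (max_le hz ((finAbv_nonarch p _ _).trans
          (max_le (fin_sum_le p _ _ fun q hq => ?_) (hAterm p _))))
        rw [map_mul]
        exact mul_le_one₀ (zero_one (zt_cases _) p) ((finAbv p).nonneg _)
            (pp_int (by rintro rfl; exact hp q.2) a)
    · refine ⟨zη, ?_⟩
      rw [hbr' η zη, CharTwo.add_self_eq_zero, zt_zero, zero_mul, add_zero]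
      refine lt_of_le_of_lt (infAbv_nonarch _ _) (max_lt hzη (inf_sum_lt _ _ fun q hq => ?_))
      rw [map_mul]
      have h5 := zero_one_inf (zt_cases (k := k) (ε q + η))
      have h6 := (pp_polar q.1 a).2
      have h7 := (infAbv k).nonneg (pp q.1 a)
      have h8 := (infAbv k).nonneg (zt (ε q + η))
      nlinarith
  -- the brackets are split
  have hspl : ∀ p : S, TT p.1 ((∑ q : S, zt (ε q + ε p) * pp q.1 a) + zt (η + ε p) * A) = 0 := by
    intro p
    rw [TT_eq_zero]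
    intro hns
    obtain ⟨z, hz⟩ := hεz p
    apply hns (z + g)
    have e : (z + g) ^ 2 + (z + g) + ((∑ q : S, zt (ε q + ε p) * pp q.1 a) + zt (η + ε p) * A)
        = z ^ 2 + z + (u + zt (ε p) * a) := by
      rw [wp_add, hg, hbr]
      linear_combination (∑ q : S, zt (ε q) * pp q.1 a + zt η * A)
        * (CharTwo.two_eq_zero : (2 : RatFunc k) = 0)
    rw [e]
    exact hz
  -- the linear system
  have hsys : Matrix.mulVec (Lam S a) (fun q => ε q + η) = 0 := by
    ext p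
    rw [Pi.zero_apply, ← hspl p, TT_add (fin_sum_le p.1 _ _ fun q _ => hterm p q) (hAterm p.1 _),
      TT_sum p.1 _ _ (fun q _ => hterm p q)]
    change ∑ q : S, Lam S a p q * (ε q + η) = _
    rw [← Finset.add_sum_erase _ _ (Finset.mem_univ p),
      ← Finset.add_sum_erase _ (fun q : S => TT p.1 (zt (ε q + ε p) * pp q.1 a))
        (Finset.mem_univ p)]
    have hpp : Lam S a p p = TT p.1 A + ∑ q ∈ Finset.univ.erase p, TT p.1 (pp q.1 a) := by
      unfold Lam
      rw [if_pos rfl]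
      have e : a - pp p.1 a = A + ∑ q ∈ Finset.univ.erase p, pp q.1 a := by
        have hs := Finset.add_sum_erase _ (fun q : S => pp q.1 a) (Finset.mem_univ p)
        linear_combination haA - hs
      rw [e, TT_add (hAint p.1), TT_sum]
      · intro q hq
        exact pp_int (fun h => (Finset.ne_of_mem_erase hq) (Subtype.ext h.symm)) a
      · exact fin_sum_le p.1 _ _ fun q hq =>
          pp_int (fun h => (Finset.ne_of_mem_erase hq) (Subtype.ext h.symm)) a
    have hpq : ∀ q ∈ Finset.univ.erase p, Lam S a p q * (ε q + η)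
        = TT p.1 (zt (ε q + ε p) * pp q.1 a) + TT p.1 (pp q.1 a) * (ε p + η) := by
      intro q hq
      unfold Lam
      rw [if_neg (Finset.ne_of_mem_erase hq).symm, TT_zt]
      have h6 : (2 : ZMod 2) = 0 := by decide
      linear_combination (- TT p.1 (pp q.1 a) * ε p) * h6
    rw [Finset.sum_congr rfl hpq, Finset.sum_add_distrib, hpp, ← Finset.sum_mul,
      CharTwo.add_self_eq_zero (ε p), zt_zero, zero_mul, TT_zero, TT_zt]
    have h6 : (2 : ZMod 2) = 0 := by decide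
    linear_combination ((∑ q ∈ Finset.univ.erase p, TT p.1 (pp q.1 a)) * (ε p + η)) * h6
  have heq := G.inj _ hsys
  have heq' : ∀ q : S, ε q = η := fun q => CharTwo.add_eq_zero.mp (congrFun heq q)
  have hsum : ∑ q : S, zt (ε q) * pp q.1 a + zt η * A = zt η * a := by
    have h5 : ∑ q : S, zt (ε q) * pp q.1 a = zt η * ∑ q : S, pp q.1 a := by
      rw [Finset.mul_sum]
      exact Finset.sum_congr rfl fun q _ => by rw [heq' q]
    linear_combination h5 - zt η * haA
  rw [hsum] at hg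
  exact ⟨zt η, zt_cases η, g, hg⟩

end InvTwist

end Pool.Agent.H2
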