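import Pool.Agent.H2.WChain

/-!
# The halvings of a class modulo four
-/

namespace Pool.Agent.H2

open WeierstrassCurve WeierstrassCurve.Affine

universe u

section Glob

variable {K : Type u} [Field K] {a b : K}


/-- the inclusion on points -/
noncomputable abbrev jj : Pts (wcv a b) (Ks K) →+ Pts (wcv a b) (AlgebraicClosure K) := Pts.map (jK K K)

theorem act_eq (g : (AlgebraicClosure K) ≃ₐ[K] (AlgebraicClosure K)) (P : Pts (wcv a b) (AlgebraicClosure K)) : act g P = actv g P := by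
  unfold actv act
  congr 1

theorem act_jj (g : (AlgebraicClosure K) ≃ₐ[K] (AlgebraicClosure K)) : ∃ σ : Ks K →ₐ[K] Ks K, ∀ P : Pts (wcv a b) (Ks K),
    act g (jj P) = jj (Pts.map σ P) := by
  obtain ⟨σ, hσ⟩ := actv_j (K := K) (F := K) (E := wcv a b) g
  exact ⟨σ, fun P => by rw [act_eq, hσ]⟩

/-- the halvings of a class modulo four -/
structure Halv (R : Pts (wcv a b) (Ks K)) where
  /-- the cocycle -/
  S : ((AlgebraicClosure K) ≃ₐ[K] (AlgebraicClosure K)) → Pts (wcv a b) (Ks K)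
  hS : ∀ g, act g (jj R) = jj R + ((jj (S g) + jj (S g)) + (jj (S g) + jj (S g)))
  /-- the first half -/
  R₁ : Pts (wcv a b) (AlgebraicClosure K)
  h₁ : R₁ + R₁ = jj R
  /-- the second half -/
  R₂ : Pts (wcv a b) (AlgebraicClosure K)
  h₂ : R₂ + R₂ = R₁

theorem four_eq {G : Type*} [AddCommGroup G] (x : G) : 4 • x = (x + x) + (x + x) := by
  rw [show (4 : ℕ) = 2 * 2 from rfl, mul_nsmul, two_nsmul, two_nsmul]

theorem four_zero {G : Type*} [AddCommGroup G] (h : ∀ P : G, 2 • P = 0 → P = 0) (x : G)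
    (hx : (x + x) + (x + x) = 0) : x = 0 := by
  apply h
  rw [two_nsmul]
  apply h
  rw [two_nsmul]
  exact hx

variable [CharP K 2]

theorem exists_halving (hb : b ≠ 0) (R : Pts (wcv a b) (AlgebraicClosure K)) : ∃ Q, Q + Q = R := by
  by_cases hR : R = 0
  · exact ⟨0, by rw [hR, add_zero]⟩
  have hs : ∀ c : (AlgebraicClosure K), ∃ z : (AlgebraicClosure K), z ^ 2 + z = c := by
    intro c
    have h2 : ((2 : ℕ) : (AlgebraicClosure K)) = 0 := by exact_mod_cast (CharTwo.two_eq_zero : (2 : (AlgebraicClosure K)) = 0)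
    obtain ⟨z, hz⟩ := IsSepClosed.exists_root_C_mul_X_pow_add_C_mul_X_add_C' (k := (AlgebraicClosure K)) 2 2 1 1 c
      (dvd_refl 2) le_rfl one_ne_zero
    refine ⟨z, ?_⟩
    have h3 : (2 : (AlgebraicClosure K)) = 0 := CharTwo.two_eq_zero
    linear_combination hz - c * h3
  obtain ⟨w, hw⟩ : ∃ w : (AlgebraicClosure K), w ^ 2 + px R * w + algebraMap K (AlgebraicClosure K) b = 0 := by
    have hd : (Polynomial.X ^ 2 + Polynomial.C (px R) * Polynomial.X
        + Polynomial.C (algebraMap K (AlgebraicClosure K) b)).degree ≠ 0 := by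
      have : (Polynomial.X ^ 2 + Polynomial.C (px R) * Polynomial.X
        + Polynomial.C (algebraMap K (AlgebraicClosure K) b)).degree = 2 := by compute_degree!
      rw [this]
      decide
    obtain ⟨w, hw⟩ := IsAlgClosed.exists_root _ hd
    refine ⟨w, ?_⟩
    simpa [Polynomial.IsRoot] using hw
  obtain ⟨m, hm⟩ := IsAlgClosed.exists_pow_nat_eq w (n := 2) (by norm_num)
  obtain ⟨Q, -, -, hQ⟩ := p_half hb hs hR (m := m) (by
    rw [← hw, ← hm]; ring)
  exact ⟨Q, hQ⟩

theorem exists_halv (hb : b ≠ 0) {R : Pts (wcv a b) (Ks K)} (hR : GaloisFixed 4 R) :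
    Nonempty (Halv R) := by
  have h1 : ∀ g : (AlgebraicClosure K) ≃ₐ[K] (AlgebraicClosure K), ∃ S : Pts (wcv a b) (Ks K),
      act g (jj R) = jj R + ((jj S + jj S) + (jj S + jj S)) := by
    intro g
    obtain ⟨σ, hσ⟩ := act_jj (a := a) (b := b) g
    obtain ⟨S, hS⟩ := hR σ
    refine ⟨S, ?_⟩
    rw [hσ, hS, four_eq]
    simp only [map_add]
  choose S hS using h1
  obtain ⟨R₁, h₁⟩ := exists_halving hb (jj R)
  obtain ⟨R₂, h₂⟩ := exists_halving hb R₁
  exact ⟨⟨S, hS, R₁, h₁, R₂, h₂⟩⟩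

variable {R : Pts (wcv a b) (Ks K)} (H : Halv R)
  (hE : ∀ P : Pts (wcv a b) (Ks K), 2 • P = 0 → P = 0)
include hE

omit [CharP K 2] in
theorem Halv.cocycle (g h : (AlgebraicClosure K) ≃ₐ[K] (AlgebraicClosure K)) :
    jj (H.S (g * h)) = jj (H.S g) + act g (jj (H.S h)) := by
  obtain ⟨σ, hσ⟩ := act_jj (a := a) (b := b) g
  have h1 := H.hS (g * h)
  rw [act_mul, H.hS h, map_add, map_add, map_add, H.hS g, hσ] at h1
  rw [hσ]
  have h2 : jj (H.S (g * h) - H.S g - Pts.map σ (H.S h)) = 0 := by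
    have h3 : H.S (g * h) - H.S g - Pts.map σ (H.S h) = 0 := by
      apply four_zero hE
      apply Pts.map_inj (jK K K)
      simp only [map_add, map_sub, map_zero]
      change _ = _ at h1
      have h4 : ∀ x y z w : Pts (wcv a b) (AlgebraicClosure K), w + ((y + y) + (y + y)) + ((z + z) + (z + z))
          = w + ((x + x) + (x + x)) → (x - y - z) + (x - y - z) + ((x - y - z) + (x - y - z)) = 0 := by
        intro x y z w hh
        have h5 : ((y + y) + (y + y)) + ((z + z) + (z + z)) = ((x + x) + (x + x)) := by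
          apply add_left_cancel (a := w)
          rw [← hh]; abel
        have h6 : (x - y - z) + (x - y - z) + ((x - y - z) + (x - y - z))
            = ((x + x) + (x + x)) - (((y + y) + (y + y)) + ((z + z) + (z + z))) := by abel
        rw [h6, h5, sub_self]
      exact h4 _ _ _ _ h1
    rw [h3, map_zero]
  simp only [map_sub] at h2
  have h3 := sub_eq_zero.mp h2
  have h4 := sub_eq_iff_eq_add.mp h3
  rw [h4]
  abel

omit [CharP K 2] in
theorem Halv.S_zero {g : (AlgebraicClosure K) ≃ₐ[K] (AlgebraicClosure K)} (hg : act g (jj R) = jj R) : H.S g = 0 := by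
  apply four_zero hE
  apply Pts.map_inj (jK K K)
  have h1 := H.hS g
  rw [hg] at h1
  have h2 := left_eq_add.mp h1
  simp only [map_add, map_zero]
  exact h2

/-- the first class -/
theorem Halv.class₁ (hb : b ≠ 0) :
    ∃ (θ : (AlgebraicClosure K)) (u : K), θ ^ 2 + θ = algebraMap K (AlgebraicClosure K) u ∧
      ∀ g, (act g H.R₁ = H.R₁ + (jj (H.S g) + jj (H.S g)) ∧ g θ = θ) ∨
        ((act g H.R₁ - H.R₁ - (jj (H.S g) + jj (H.S g)) ≠ 0) ∧ g θ = θ + 1) := by
  apply step_tau hb H.R₁ (fun g => jj (H.S g) + jj (H.S g))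
  · intro g h
    rw [H.cocycle hE, map_add]
    abel
  · intro g
    have h1 := H.hS g
    rw [← H.h₁, map_add] at h1
    have h2 : (act g H.R₁ - H.R₁ - (jj (H.S g) + jj (H.S g)))
        + (act g H.R₁ - H.R₁ - (jj (H.S g) + jj (H.S g)))
        = (act g H.R₁ + act g H.R₁) - (H.R₁ + H.R₁ +
          ((jj (H.S g) + jj (H.S g)) + (jj (H.S g) + jj (H.S g)))) := by abel
    rw [h2, h1, sub_self]
  · intro g hg
    have h1 : act g (jj R) = jj R := by rw [← H.h₁, map_add, hg]
    rw [H.S_zero hE h1, map_zero, add_zero]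

/-- the second class -/
theorem Halv.class₂ (hb : b ≠ 0)
    (h : ∀ g, act g H.R₁ = H.R₁ + (jj (H.S g) + jj (H.S g))) :
    ∃ (θ : (AlgebraicClosure K)) (u : K), θ ^ 2 + θ = algebraMap K (AlgebraicClosure K) u ∧
      ∀ g, (act g H.R₂ = H.R₂ + jj (H.S g) ∧ g θ = θ) ∨
        ((act g H.R₂ - H.R₂ - jj (H.S g) ≠ 0) ∧ g θ = θ + 1) := by
  apply step_tau hb H.R₂ (fun g => jj (H.S g))
  · intro g h
    rw [H.cocycle hE]
  · intro g
    have h1 := h g
    rw [← H.h₂, map_add] at h1
    have h2 : (act g H.R₂ - H.R₂ - jj (H.S g)) + (act g H.R₂ - H.R₂ - jj (H.S g))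
        = (act g H.R₂ + act g H.R₂) - (H.R₂ + H.R₂ + (jj (H.S g) + jj (H.S g))) := by abel
    rw [h2, h1, sub_self]
  · intro g hg
    have h1 : act g (jj R) = jj R := by rw [← H.h₁, ← H.h₂, map_add, map_add, hg]
    rw [H.S_zero hE h1, map_zero]

end Glob

section Loc

variable {K : Type u} [Field K] [CharP K 2] {a b : K} {R : Pts (wcv a b) (Ks K)} (H : Halv R)
variable {F : Type u} [Field F] [CharP F 2] [Algebra K F] [Algebra K (Ks F)]
  [IsScalarTower K F (Ks F)]


/-- local data at a place -/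
structure LocData (ι : Ks K →ₐ[K] Ks F) where
  /-- the extension of `ι` -/
  ι' : (AlgebraicClosure K) →ₐ[K] (AlgebraicClosure F)
  hι : ι'.comp (jK K K) = (jK F K).comp ι
  /-- the rational point -/
  P : Pts (wcv a b) F
  /-- the point over the separable closure -/
  Q : Pts (wcv a b) (Ks F)
  hQ : Pts.map ι R = Pts.map (fK F K) P + 4 • Q

variable {ι : Ks K →ₐ[K] Ks F} (D : LocData (R := R) (a := a) (b := b) ι)

/-- the local first half -/
noncomputable def LocData.r₁ : Pts (wcv a b) (AlgebraicClosure F) :=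
  Pts.map D.ι' H.R₁ - (Pts.map (jK F K) D.Q + Pts.map (jK F K) D.Q)

/-- the local second half -/
noncomputable def LocData.r₂ : Pts (wcv a b) (AlgebraicClosure F) := Pts.map D.ι' H.R₂ - Pts.map (jK F K) D.Q

omit [CharP K 2] [CharP F 2] in
theorem LocData.iR : Pts.map D.ι' (jj R) = Pts.map (eK F K) D.P
    + ((Pts.map (jK F K) D.Q + Pts.map (jK F K) D.Q)
      + (Pts.map (jK F K) D.Q + Pts.map (jK F K) D.Q)) := by
  have h1 : Pts.map D.ι' (jj R) = Pts.map (jK F K) (Pts.map ι R) := by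
    rw [Pts.map_map, Pts.map_map, D.hι]
  rw [h1, D.hQ, four_eq]
  simp only [map_add]
  rw [Pts.map_map, jf]

omit [CharP K 2] [CharP F 2] in
theorem LocData.r₁_add : D.r₁ H + D.r₁ H = Pts.map (eK F K) D.P := by
  have h1 := D.iR
  rw [← H.h₁, map_add] at h1
  unfold LocData.r₁
  have h2 : ∀ x y z : Pts (wcv a b) (AlgebraicClosure F), x + x = z + ((y + y) + (y + y)) →
      x - (y + y) + (x - (y + y)) = z := by
    intro x y z h
    have : x - (y + y) + (x - (y + y)) = (x + x) - ((y + y) + (y + y)) := by abel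
    rw [this, h]; abel
  exact h2 _ _ _ h1

omit [CharP K 2] [CharP F 2] in
theorem LocData.r₂_add : D.r₂ H + D.r₂ H = D.r₁ H := by
  unfold LocData.r₁ LocData.r₂
  rw [← H.h₂, map_add]
  abel

variable (hF : ∀ P : Pts (wcv a b) (Ks F), 2 • P = 0 → P = 0)
include hF

omit [CharP K 2] [CharP F 2] in
theorem LocData.galois (g : (AlgebraicClosure F) ≃ₐ[F] (AlgebraicClosure F)) : ∃ g₀ : (AlgebraicClosure K) ≃ₐ[K] (AlgebraicClosure K), (∀ x, D.ι' (g₀ x) = g (D.ι' x)) ∧
    (∀ P : Pts (wcv a b) (AlgebraicClosure K), actv g (Pts.map D.ι' P) = Pts.map D.ι' (act g₀ P)) ∧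
    actv g (Pts.map (jK F K) D.Q) = Pts.map (jK F K) D.Q + Pts.map D.ι' (jj (H.S g₀)) := by
  obtain ⟨g₀, hg₀⟩ := exists_restr D.ι' g
  have h1 : ∀ P : Pts (wcv a b) (AlgebraicClosure K), actv g (Pts.map D.ι' P) = Pts.map D.ι' (act g₀ P) := by
    intro P
    unfold actv act
    rw [Pts.map_map, Pts.map_map]
    congr 1
    congr 1
    ext x
    exact (hg₀ x).symm
  refine ⟨g₀, hg₀, h1, ?_⟩
  obtain ⟨σ, hσ⟩ := actv_j (K := K) (F := F) (E := wcv a b) g
  have h2 : ∀ P : Pts (wcv a b) (Ks K), Pts.map D.ι' (jj P) = Pts.map (jK F K) (Pts.map ι P) := by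
    intro P
    rw [Pts.map_map, Pts.map_map, D.hι]
  have h3 := h1 (jj R)
  rw [H.hS g₀, map_add (Pts.map D.ι') (jj R), D.iR, map_add (actv g), actv_e] at h3
  have h4 : Pts.map σ D.Q - D.Q - Pts.map ι (H.S g₀) = 0 := by
    apply four_zero hF
    apply Pts.map_inj (jK F K)
    simp only [map_add, map_sub, map_zero]
    simp only [map_add, h2, hσ] at h3
    have h4 : ∀ x y z w : Pts (wcv a b) (AlgebraicClosure F), w + ((x + x) + (x + x))
        = w + ((y + y) + (y + y)) + ((z + z) + (z + z)) →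
        (x - y - z) + (x - y - z) + ((x - y - z) + (x - y - z)) = 0 := by
      intro x y z w hh
      have h5 : ((x + x) + (x + x)) = ((y + y) + (y + y)) + ((z + z) + (z + z)) := by
        apply add_left_cancel (a := w)
        rw [hh]; abel
      have h6 : (x - y - z) + (x - y - z) + ((x - y - z) + (x - y - z))
          = ((x + x) + (x + x)) - (((y + y) + (y + y)) + ((z + z) + (z + z))) := by abel
      rw [h6, h5, sub_self]
    exact h4 _ _ _ _ h3
  rw [hσ, h2, ← map_add]
  have h5 := sub_eq_zero.mp h4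
  have h6 := sub_eq_iff_eq_add.mp h5
  rw [h6]
  congr 1
  abel

end Loc

end Pool.Agent.H2
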