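import Pool.Agent.H2.WMain

/-!
# The Selmer groups modulo powers of two
-/

namespace Pool.Agent.H2

open Polynomial IsDedekindDomain WeierstrassCurve WeierstrassCurve.Affine

universe u

section Dev

variable {K : Type u} [Field K] (E : Affine K) (S : Set (AbsoluteValue K ℝ))

/-- the local and global conditions modulo `n` at the places of `S` -/
def Cond (n : ℕ) (P : Pts E (Ks K)) : Prop := GaloisFixed n P ∧ ∀ v ∈ S, LocallyRational n P v

theorem Cond.of_dvd {m n : ℕ} (h : m ∣ n) {P : Pts E (Ks K)} (hP : Cond E S n P) :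
    Cond E S m P := by
  obtain ⟨c, rfl⟩ := h
  refine ⟨fun σ => ?_, fun v hv ι => ?_⟩
  · obtain ⟨R, hR⟩ := hP.1 σ
    exact ⟨c • R, by rw [hR, mul_nsmul']⟩
  · obtain ⟨Q, R, hR⟩ := hP.2 v hv ι
    exact ⟨Q, c • R, by rw [hR, mul_nsmul']⟩

/-- halving -/
theorem Cond.halve (hE : ∀ P : Pts E (Ks K), 2 • P = 0 → P = 0)
    (hS : ∀ v ∈ S, ∀ P : Pts E (Ks (Kv v)), 2 • P = 0 → P = 0) {n : ℕ} {P P₁ : Pts E (Ks K)}
    (hP : Cond E S (2 * n) P) (hP₁ : 2 • P₁ = P) : Cond E S n P₁ := by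
  refine ⟨fun σ => ?_, fun v hv ι => ?_⟩
  · obtain ⟨R, hR⟩ := hP.1 σ
    refine ⟨R, ?_⟩
    have h1 : 2 • (Pts.map σ P₁ - (P₁ + n • R)) = 0 := by
      rw [smul_sub, smul_add, ← map_nsmul, hP₁, hR, smul_smul, sub_self]
    exact sub_eq_zero.mp (hE _ h1)
  · obtain ⟨Q, R, hR⟩ := hP.2 v hv ι
    have hQ : Pts.map (locMap v) Q = 2 • (Pts.map ι P₁ - n • R) := by
      rw [smul_sub, ← map_nsmul, hP₁, hR, smul_smul]
      abel
    obtain ⟨Q', hQ'⟩ := fixed_rational (K := K) (E := E) (F := Kv v) (M := Ks (Kv v))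
      (locMap v) (fun x => rfl) (Pts.map ι P₁ - n • R) (by
        intro σ g hg
        have h1 : 2 • (Pts.map g (Pts.map ι P₁ - n • R)
            - (Pts.map ι P₁ - n • R)) = 0 := by
          rw [smul_sub, ← map_nsmul, ← hQ, Pts.map_map]
          have h2 : g.comp (locMap v) = locMap v := by
            ext x
            change g (algebraMap (Kv v) (Ks (Kv v)) x) = algebraMap (Kv v) (Ks (Kv v)) x
            rw [hg, σ.commutes]
          rw [h2, sub_self]
        exact sub_eq_zero.mp (hS v hv _ h1))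
    refine ⟨Q', R, ?_⟩
    rw [hQ']
    abel

/-- **Devissage.** -/
theorem devissage4 (hE : ∀ P : Pts E (Ks K), 2 • P = 0 → P = 0)
    (hS : ∀ v ∈ S, ∀ P : Pts E (Ks (Kv v)), 2 • P = 0 → P = 0)
    (h4 : ∀ P : Pts E (Ks K), Cond E S 4 P → ∃ R, 2 • R = P) (n : ℕ) :
    ∀ P : Pts E (Ks K), Cond E S (2 ^ (n + 1)) P → ∃ R, 2 ^ n • R = P ∧ Cond E S 2 R := by
  induction n with
  | zero => exact fun P hP => ⟨P, by simp, by simpa using hP⟩
  | succ n ih =>
    intro P hP
    obtain ⟨P₁, hP₁⟩ := h4 P (hP.of_dvd E S (by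
      rw [show (4 : ℕ) = 2 ^ 2 from rfl]
      exact pow_dvd_pow 2 (by omega)))
    obtain ⟨R, hR, hR2⟩ := ih P₁ (Cond.halve E S hE hS (P := P) (by
      rw [← pow_succ']; exact hP) hP₁)
    exact ⟨R, by rw [pow_succ', mul_smul, hR, hP₁], hR2⟩

/-- the Selmer groups are killed by `2` -/
theorem selmer_two (n : ℕ) (h : ∀ P : Pts E (Ks K), IsSelmer (2 ^ (n + 1)) P →
      ∃ R, 2 ^ n • R = P) (x : SelmerGroup E (2 ^ (n + 1))) : 2 • x = 0 := by
  induction x using QuotientAddGroup.induction_on with | H P => ?_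
  obtain ⟨R, hR⟩ := h P.1 P.2
  rw [← QuotientAddGroup.mk_nsmul, QuotientAddGroup.eq_zero_iff, AddSubgroup.mem_addSubgroupOf,
    AddMonoidHom.mem_range]
  refine ⟨R, ?_⟩
  change 2 ^ (n + 1) • R = 2 • (P : Pts E (Ks K))
  have h1 : 2 ^ (n + 1) • R = 2 • (2 ^ n • R) := by rw [smul_smul, ← pow_succ']
  rw [h1, hR]

/-- rational points are divisible -/
theorem rational_div4 (n : ℕ) (hE : ∀ P : Pts E (Ks K), 2 • P = 0 → P = 0)
    (h : ∀ P : Pts E (Ks K), Cond E S (2 ^ (n + 1)) P → ∃ R, 2 ^ n • R = P)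
    (P : Pts E K) : ∃ R : Pts E K, 2 ^ n • R = P := by
  let f : K →ₐ[K] Ks K := Algebra.ofId K (Ks K)
  obtain ⟨R, hR⟩ := h (Pts.map f P) ⟨fun σ => by
      refine ⟨0, ?_⟩
      rw [Pts.map_map, smul_zero, add_zero]
      congr 1
      have : σ.comp f = f := Subsingleton.elim _ _
      rw [this], fun v _ ι => by
      refine ⟨Pts.map (Algebra.ofId K (Kv v)) P, 0, ?_⟩
      rw [Pts.map_map, Pts.map_map, smul_zero, add_zero]
      congr 1
      have : ι.comp f = (locMap v).comp (Algebra.ofId K (Kv v)) := Subsingleton.elim _ _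
      rw [this]⟩
  obtain ⟨R₀, hR₀⟩ := fixed_rational (K := K) (E := E) (F := K) (M := Ks K) f (fun x => rfl) R (by
    intro σ g _
    have h1 : 2 ^ n • (Pts.map g R - R) = 0 := by
      rw [smul_sub, ← map_nsmul, hR, Pts.map_map]
      have : g.comp f = f := Subsingleton.elim _ _
      rw [this, sub_self]
    exact sub_eq_zero.mp (no_torsion_pow hE n _ h1))
  refine ⟨R₀, Pts.map_inj f ?_⟩
  rw [map_nsmul, hR₀, hR]

end Dev

section Bound

variable {k : Type u} [Field k] [Finite k] [CharP k 2] {a b : RatFunc k}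


/-- an Artin-Schreier class equal to the one of `a` gives the logarithmic differential of `b` -/
theorem kd_om (hb : b ≠ 0) {v : AbsoluteValue (RatFunc k) ℝ}
    (hM : TwoBasis (algebraMap (RatFunc k) v.Completion RatFunc.X)) {u g : (RatFunc k)} (hu : g ^ 2 + g = u + a)
    (hED : ED v a b u 2) : KD v hM a b (om b) := by
  have hLv := hM.charP
  have two : (2 : v.Completion) = 0 := CharTwo.two_eq_zero
  obtain ⟨A, B, c, c', h1, h2, h3⟩ := hED
  have hrb : rc v b ≠ 0 := by unfold rc; rwa [Ne, map_eq_zero]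
  have hA : A ≠ 0 := by rintro rfl; rw [zero_mul] at h1; exact hrb h1.symm
  have hB : B ≠ 0 := by
    rintro rfl
    rw [zero_pow two_ne_zero, mul_zero] at h1
    exact hrb h1.symm
  have hg' : rc v g ^ 2 + rc v g = rc v u + rc v a := by
    have := congrArg (rc v) hu
    unfold rc at this ⊢
    simpa only [map_add, map_mul, map_pow, one_mul] using this
  refine ⟨A, c' + rc v g, (c + c' + rc v g) + B, hA, ?_, ?_, ?_⟩
  · linear_combination h3 + hg' + (c' * rc v g + rc v u) * two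
  · have e : rc v b / A = B ^ 2 := by rw [← h1]; field_simp
    rw [e]
    linear_combination h2 + h3 + hg' + (c * c' + c * rc v g + c' * rc v g
      + c * B + c' * B + rc v g * B + A + B + rc v u + rc v a) * two
  · have h4 : hM.D (rc v b) / rc v b = rc v (om b) := by
      unfold TwoBasis.D om
      have h7 : hM.C (rc v b) = rc v (basisX.C b) :=
        (basisX.map_C hM (algebraMap (RatFunc k) v.Completion) rfl _).symm
      rw [h7]
      unfold rc
      rw [map_div₀, map_pow]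
    rw [← h4, ← h1, mul_comm A, hM.D_sq_mul]
    field_simp

/-- the equations of a class modulo two -/
theorem ed_of_gd {v : AbsoluteValue (RatFunc k) ℝ}
    {hM : TwoBasis (algebraMap (RatFunc k) v.Completion RatFunc.X)} {Z : (RatFunc k)} (h : GD v hM a b Z) :
    ED v a b (ucl b Z) 2 := by
  have hLv := hM.charP
  have two : (2 : v.Completion) = 0 := CharTwo.two_eq_zero
  obtain ⟨x, w₁, w₂, hx, h2, h1, -⟩ := h
  refine ⟨rc v b / x ^ 2, x, w₂, w₁ + w₂, div_mul_cancel₀ _ (pow_ne_zero 2 hx), ?_, ?_⟩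
  · rw [h2]; ring
  · linear_combination h1 + h2 + (w₁ * w₂ + x + rc v a) * two

variable {S Z : Finset (HeightOneSpectrum k[X])}

open scoped Classical in
/-- the square of a value of the descent map attached to a vector -/
noncomputable def Zsq (S Z : Finset (HeightOneSpectrum k[X])) (b : (RatFunc k))
    (c : (S ∪ Z : Finset (HeightOneSpectrum k[X])) → ZMod 2) : (RatFunc k) :=
  basisX.C b ^ 2 * (∑ q, zt (c q) * dq q.1) + b * (∑ q, zt (c q) * dq q.1) ^ 2

open scoped Classical in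
/-- the values of the descent map on the Selmer group modulo two -/
theorem InvTwist.value (G : InvTwist S Z b a) {R : Pts (wcv a b) (Ks (RatFunc k))}
    (hR : Cond (wcv a b) (stdPlaces k) 2 R) {V : (RatFunc k)}
    (hV : algebraMap (RatFunc k) (Ks (RatFunc k)) V = gdv a G.C_ne R) :
    ∃ c, V ^ 2 = Zsq S Z b c := by
  have hK2 : CharP (RatFunc k) 2 := basisX.charP
  have hb0 := G.b_ne
  have hκ := G.C_ne
  by_cases hV0 : V = 0
  · refine ⟨fun _ => 0, ?_⟩
    unfold Zsq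
    simp [zt_zero, hV0]
  have hfin : ∀ p : HeightOneSpectrum k[X], GD (finAbv p) (finAbv_good p).comp_basis a b V :=
    fun p => (gsel_local hκ R hV (finAbv p) (hR.2 _ (Or.inr ⟨p, rfl⟩))
      (finAbv_good p).comp_basis).resolve_left hV0
  have hinf : GD (infAbv k) basis_inf a b V :=
    (gsel_local hκ R hV (infAbv k) (hR.2 _ (Or.inl rfl)) basis_inf).resolve_left hV0
  have hVint : ∀ p, p ∉ S → finAbv p V ≤ 1 := fun p hp =>
    gsel_int hκ R hV p (hR.2 _ (Or.inr ⟨p, rfl⟩)) (G.aS p hp) (G.bZ p hp)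
  have hspec := basisX.spec b
  obtain ⟨ε, hε, g, hg⟩ := G.as_part (u := ucl b V) two_ne_zero (ed_of_gd hinf)
    (fun p => ed_of_gd (hfin p))
  rcases hε with rfl | rfl
  swap
  · exfalso
    rw [one_mul] at hg
    have h1 := G.key (kd_om hb0 basis_inf hg (ed_of_gd hinf))
      (fun p => kd_om hb0 _ hg (ed_of_gd (hfin p)))
    unfold om at h1
    exact div_ne_zero (pow_ne_zero 2 hκ) hb0 h1
  rw [zero_mul, add_zero] at hg
  obtain ⟨ℓ, hℓd⟩ : ∃ ℓ : (RatFunc k), ℓ = (basisX.C b ^ 2 * g + basisX.E b * V) / b := ⟨_, rfl⟩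
  have hℓ1 : basisX.C b ^ 2 * ℓ + b * ℓ ^ 2 = V ^ 2 := by
    unfold ucl at hg
    rw [hℓd]
    set κ := basisX.C b with hκd
    set δ := basisX.E b with hδd
    clear_value κ δ
    rw [eq_div_iff (pow_ne_zero 2 hκ)] at hg
    field_simp
    linear_combination κ ^ 2 * hg - V ^ 2 * hspec
      + (κ ^ 2 * δ * V * (1 + g)) * (CharTwo.two_eq_zero : (2 : (RatFunc k)) = 0)
  have hℓ2 : ℓ = ((V + basisX.E b * ℓ) / basisX.C b) ^ 2 + RatFunc.X * ℓ ^ 2 := by
    set κ := basisX.C b with hκd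
    set δ := basisX.E b with hδd
    clear_value κ δ
    field_simp
    linear_combination hℓ1 + ℓ ^ 2 * hspec
      - (V * δ * ℓ + b * ℓ ^ 2) * (CharTwo.two_eq_zero : (2 : (RatFunc k)) = 0)
  have hreg : ∀ p, p ∉ S ∪ Z → finAbv p ℓ ≤ 1 := by
    intro p hp
    rw [Finset.mem_union, not_or] at hp
    have hvb := G.bS p hp.1 hp.2
    have hκ1 := (finAbv_star p (basisX.E b) (basisX.C b) (by rw [basisX.spec', hvb])).2
    have h1 : b * ℓ ^ 2 = V ^ 2 - basisX.C b ^ 2 * ℓ := by rw [← hℓ1]; ring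
    have h2 : finAbv p ℓ ^ 2 ≤ max 1 (finAbv p ℓ) := by
      have h3 : finAbv p (b * ℓ ^ 2) = finAbv p ℓ ^ 2 := by
        rw [map_mul, hvb, one_mul, map_pow]
      rw [← h3, h1]
      refine (fin_sub p _ _).trans (max_le_max ?_ ?_)
      · rw [map_pow]
        exact pow_le_one₀ ((finAbv p).nonneg _) (hVint p hp.1)
      · rw [map_mul, map_pow]
        have h4 : finAbv p (basisX.C b) ^ 2 ≤ 1 := pow_le_one₀ ((finAbv p).nonneg _) hκ1
        have h5 := (finAbv p).nonneg ℓ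
        nlinarith
    by_contra h3
    rw [not_le] at h3
    rw [max_eq_right h3.le] at h2
    nlinarith
  refine ⟨pl (S ∪ Z) ℓ, ?_⟩
  unfold Zsq
  rw [← log_expand (S ∪ Z) hℓ2 hreg, hℓ1]

end Bound

section Final

variable {k : Type u} [Field k] [Finite k] [CharP k 2] {a b : RatFunc k}
  {S Z : Finset (HeightOneSpectrum k[X])}


theorem stdPlaces_nontrivial {v : AbsoluteValue (RatFunc k) ℝ} (hv : v ∈ stdPlaces k) :
    v.IsNontrivial := by
  rcases hv with rfl | ⟨p, rfl⟩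
  · exact infAbv_good.nontrivial
  · exact (finAbv_good p).nontrivial

theorem InvTwist.torsS (G : InvTwist S Z b a) :
    ∀ v ∈ stdPlaces k, ∀ R : Pts (wcv a b) (Ks (Kv v)), 2 • R = 0 → R = 0 := by
  intro v hv
  apply torsv G.C_ne
  rcases hv with rfl | ⟨p, rfl⟩
  · exact basis_inf
  · exact (finAbv_good p).comp_basis

theorem InvTwist.dev (G : InvTwist S Z b a) (n : ℕ) (P : Pts (wcv a b) (Ks (RatFunc k)))
    (hP : Cond (wcv a b) (stdPlaces k) (2 ^ (n + 1)) P) :
    ∃ R, 2 ^ n • R = P ∧ Cond (wcv a b) (stdPlaces k) 2 R :=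
  devissage4 (wcv a b) (stdPlaces k) (tors G.C_ne) G.torsS
    (fun P hP => G.half4 P hP.1 hP.2) n P hP

theorem cond_of_selmer {n : ℕ} {P : Pts (wcv a b) (Ks (RatFunc k))} (hP : IsSelmer n P) :
    Cond (wcv a b) (stdPlaces k) n P := ⟨hP.1, fun v hv => hP.2 v (stdPlaces_nontrivial hv)⟩

/-- the Selmer groups are killed by two -/
theorem InvTwist.two_smul (G : InvTwist S Z b a) (n : ℕ)
    (x : SelmerGroup (wcv a b) (2 ^ n)) : 2 • x = 0 := by
  rcases n with _ | n
  · have h1 : Subsingleton (SelmerGroup (wcv a b) (2 ^ 0)) :=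
      selmer_trivial _ _ fun P _ => ⟨P, by rw [pow_zero, one_smul]⟩
    exact Subsingleton.elim _ _
  · exact selmer_two (wcv a b) n (fun P hP => by
      obtain ⟨R, hR, -⟩ := G.dev n P (cond_of_selmer hP)
      exact ⟨R, hR⟩) x

/-- rational points are divisible -/
theorem InvTwist.div (G : InvTwist S Z b a) (n : ℕ) (P : Pts (wcv a b) (RatFunc k)) :
    ∃ R, 2 ^ n • R = P :=
  rational_div4 (wcv a b) (stdPlaces k) n (tors G.C_ne) (fun P hP => by
    obtain ⟨R, hR, -⟩ := G.dev n P hP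
    exact ⟨R, hR⟩) P

open scoped Classical in
/-- the order of the Selmer groups -/
theorem InvTwist.card (G : InvTwist S Z b a) (n : ℕ) :
    Finite (SelmerGroup (wcv a b) (2 ^ n)) ∧
      Nat.card (SelmerGroup (wcv a b) (2 ^ n)) ≤ 2 ^ (S ∪ Z).card := by
  have hK2 : CharP (RatFunc k) 2 := basisX.charP
  rcases n with _ | n
  · have h1 : Subsingleton (SelmerGroup (wcv a b) (2 ^ 0)) :=
      selmer_trivial _ _ fun P _ => ⟨P, by rw [pow_zero, one_smul]⟩
    refine ⟨inferInstance, ?_⟩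
    have h2 : Nat.card (SelmerGroup (wcv a b) (2 ^ 0)) ≤ 1 := Finite.card_le_one_iff_subsingleton.mpr h1
    exact h2.trans Nat.one_le_two_pow
  have key : ∀ x : SelmerGroup (wcv a b) (2 ^ (n + 1)), ∃ (c : (S ∪ Z : Finset _) → ZMod 2)
      (P : selmerPoints (wcv a b) (2 ^ (n + 1))) (R : Pts (wcv a b) (Ks (RatFunc k))) (V : (RatFunc k)),
      (QuotientAddGroup.mk P : SelmerGroup (wcv a b) (2 ^ (n + 1))) = x ∧
      2 ^ n • R = P.1 ∧ algebraMap (RatFunc k) (Ks (RatFunc k)) V = gdv a G.C_ne R ∧ V ^ 2 = Zsq S Z b c := by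
    intro x
    induction x using QuotientAddGroup.induction_on with | H P => ?_
    obtain ⟨R, hR, hR2⟩ := G.dev n P.1 (cond_of_selmer P.2)
    obtain ⟨V, hV⟩ := exists_val' basisX (gcurve a b) (hk_gcurve a G.C_ne) R hR2.1
    obtain ⟨c, hc⟩ := G.value hR2 hV
    exact ⟨c, P, R, V, rfl, hR, hV, hc⟩
  choose c P R V h1 h2 h3 h4 using key
  have hinj : Function.Injective c := by
    intro x y hxy
    have h5 : V x ^ 2 = V y ^ 2 := by rw [h4, h4, hxy]
    have h6 : V x = V y := basisX.sq_inj h5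
    have h7 : cExt basisX (wcv a b) (hk_gcurve a G.C_ne) (Ks (RatFunc k)) (sepK basisX) (R x - R y) = 0 := by
      rw [map_sub, sub_eq_zero]
      exact (h3 x).symm.trans ((congrArg _ h6).trans (h3 y))
    obtain ⟨Q, hQ⟩ := cExt_ker basisX (wcv a b) (hk_gcurve a G.C_ne) (sepK basisX) (R x - R y) h7
    rw [← h1 x, ← h1 y, QuotientAddGroup.eq]
    rw [AddSubgroup.mem_addSubgroupOf, AddMonoidHom.mem_range]
    refine ⟨-Q, ?_⟩
    have h8 : (2 ^ (n + 1) : ℕ) • Q = 2 ^ n • (2 • Q) := by rw [smul_smul, ← pow_succ]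
    change (2 ^ (n + 1) : ℕ) • (-Q) = -((P x : Pts (wcv a b) (Ks (RatFunc k)))) + (P y : Pts (wcv a b) (Ks (RatFunc k)))
    rw [smul_neg, h8, hQ, smul_sub, h2, h2]
    abel
  have hfin : Finite (SelmerGroup (wcv a b) (2 ^ (n + 1))) := Finite.of_injective c hinj
  refine ⟨hfin, ?_⟩
  have h5 := Nat.card_le_card_of_injective c hinj
  have h6 : Nat.card ((S ∪ Z : Finset (HeightOneSpectrum k[X])) → ZMod 2)
      = 2 ^ (S ∪ Z).card := by
    rw [Nat.card_eq_fintype_card, Fintype.card_fun, ZMod.card, Fintype.card_coe]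
  exact h5.trans h6.le

end Final

end Pool.Agent.H2
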