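import Pool.Agent.H2.WPts

/-!
# Artin-Schreier classes of homomorphisms of the Galois group
-/

namespace Pool.Agent.H2

open WeierstrassCurve WeierstrassCurve.Affine

universe u

section Ins

variable {F : Type u} [Field F] [CharP F 2]

instance instCharPClosure : CharP (AlgebraicClosure F) 2 :=
  charP_of_injective_algebraMap (algebraMap F (AlgebraicClosure F)).injective 2

/-- elements of the algebraic closure fixed by all automorphisms -/
theorem fixed_pow {z : AlgebraicClosure F}
    (hz : ∀ g : AlgebraicClosure F ≃ₐ[F] AlgebraicClosure F, g z = z) :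
    ∃ (n : ℕ) (y : F), algebraMap F (AlgebraicClosure F) y = z ^ 2 ^ n := by
  classical
  have hexp : ExpChar F 2 := ExpChar.prime Nat.prime_two
  have h1 : (minpoly F z).natSepDegree = 1 := by
    rw [Polynomial.natSepDegree_eq_of_isAlgClosed (AlgebraicClosure F), Finset.card_eq_one]
    refine ⟨z, ?_⟩
    ext y
    rw [Multiset.mem_toFinset, Polynomial.mem_aroots, Finset.mem_singleton]
    constructor
    · rintro ⟨_, hy⟩
      obtain ⟨σ, hσ⟩ := minpoly.exists_algEquiv_of_root' (Algebra.IsAlgebraic.isAlgebraic z) hy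
      rw [← hσ, hz]
    · rintro rfl
      exact ⟨minpoly.ne_zero (Algebra.IsIntegral.isIntegral _), minpoly.aeval _ _⟩
  obtain ⟨n, y, hy⟩ := (minpoly.natSepDegree_eq_one_iff_pow_mem 2).mp h1
  exact ⟨n, y, hy⟩

/-- Artin-Schreier elements fixed by all automorphisms are in the base field -/
theorem as_fixed {z : AlgebraicClosure F} {c : F}
    (hc : z ^ 2 + z = algebraMap F (AlgebraicClosure F) c)
    (hz : ∀ g : AlgebraicClosure F ≃ₐ[F] AlgebraicClosure F, g z = z) :
    ∃ y : F, algebraMap F (AlgebraicClosure F) y = z := by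
  have h2 : (2 : AlgebraicClosure F) = 0 := CharTwo.two_eq_zero
  have key : ∀ n : ℕ, ∃ d : F, z ^ 2 ^ n = z + algebraMap F (AlgebraicClosure F) d := by
    intro n
    induction n with
    | zero => exact ⟨0, by simp⟩
    | succ n ih =>
      obtain ⟨d, hd⟩ := ih
      refine ⟨c + d ^ 2, ?_⟩
      rw [pow_succ, pow_mul, hd, map_add, map_pow, ← hc]
      linear_combination (z * algebraMap F (AlgebraicClosure F) d - z) * h2
  obtain ⟨n, y, hy⟩ := fixed_pow hz
  obtain ⟨d, hd⟩ := key n
  refine ⟨y + d, ?_⟩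
  rw [map_add, hy, hd]
  linear_combination (algebraMap F (AlgebraicClosure F) d) * h2

end Ins

section H90

variable {K : Type u} [Field K] [CharP K 2]

/-- the element `0` or `1` -/
noncomputable def ep (c : ZMod 2) : AlgebraicClosure K :=
  ZMod.castHom (dvd_refl 2) (AlgebraicClosure K) c

theorem ep_zero : (ep 0 : AlgebraicClosure K) = 0 := map_zero _

theorem ep_one : (ep 1 : AlgebraicClosure K) = 1 := map_one _

theorem ep_add (c d : ZMod 2) : (ep (c + d) : AlgebraicClosure K) = ep c + ep d := map_add _ _ _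

theorem ep_cases (c : ZMod 2) : (c = 0 ∧ (ep c : AlgebraicClosure K) = 0) ∨
    (c = 1 ∧ (ep c : AlgebraicClosure K) = 1) := by
  have : c = 0 ∨ c = 1 := by revert c; decide
  rcases this with rfl | rfl
  · exact Or.inl ⟨rfl, ep_zero⟩
  · exact Or.inr ⟨rfl, ep_one⟩

theorem ep_sq (c : ZMod 2) : (ep c : AlgebraicClosure K) ^ 2 = ep c := by
  rcases ep_cases (K := K) c with ⟨-, h⟩ | ⟨-, h⟩ <;> rw [h] <;> ring

theorem ep_map (c : ZMod 2) (g : AlgebraicClosure K ≃ₐ[K] AlgebraicClosure K) :
    g (ep c) = ep c := by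
  rcases ep_cases (K := K) c with ⟨-, h⟩ | ⟨-, h⟩ <;> rw [h]
  · exact map_zero _
  · exact map_one _


/-- additive Hilbert 90 for homomorphisms to the group with two elements -/
theorem h90 {τ : (AlgebraicClosure K ≃ₐ[K] AlgebraicClosure K) → ZMod 2}
    (hτ : ∀ g h, τ (g * h) = τ g + τ h) (s : Finset (AlgebraicClosure K))
    (hs : ∀ g, (∀ x ∈ s, g x = x) → τ g = 0) :
    ∃ (θ : AlgebraicClosure K) (u : K), θ ^ 2 + θ = algebraMap K (AlgebraicClosure K) u ∧
      ∀ g, g θ = θ + ep (τ g) := by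
  classical
  set L : IntermediateField K (AlgebraicClosure K) := IntermediateField.adjoin K (s : Set (AlgebraicClosure K)) with hL
  have hfd : FiniteDimensional K L := by
    rw [hL]
    exact IntermediateField.finiteDimensional_adjoin
      (fun x _ => Algebra.IsIntegral.isIntegral x)
  have hfin : Fintype (L →ₐ[K] (AlgebraicClosure K)) := Fintype.ofFinite _
  -- extension of embeddings
  have hext : ∀ σ : L →ₐ[K] (AlgebraicClosure K), ∃ g : (AlgebraicClosure K) ≃ₐ[K] (AlgebraicClosure K), ∀ x : L, g x = σ x := by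
    intro σ
    let g : (AlgebraicClosure K) →ₐ[K] (AlgebraicClosure K) := AlgHom.liftNormal σ (AlgebraicClosure K)
    have hg : ∀ x : L, g x = σ x := fun x => AlgHom.liftNormal_commutes σ (AlgebraicClosure K) x
    exact ⟨AlgEquiv.ofBijective g (Algebra.IsAlgebraic.algHom_bijective g), hg⟩
  choose E hE using hext
  have hwd : ∀ g h : (AlgebraicClosure K) ≃ₐ[K] (AlgebraicClosure K), (∀ x : L, g x = h x) → τ g = τ h := by
    intro g h hgh
    have h1 : τ (h⁻¹ * g) = 0 := by
      apply hs
      intro x hx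
      have hxL : x ∈ L := IntermediateField.subset_adjoin K _ (Finset.mem_coe.mpr hx)
      have h2 := hgh ⟨x, hxL⟩
      change h⁻¹ (g x) = x
      change g x = h x at h2
      rw [h2]
      change h.symm (h x) = x
      rw [AlgEquiv.symm_apply_apply]
    have h2 : g = h * (h⁻¹ * g) := by group
    rw [h2, hτ, h1, add_zero]
  -- a nonzero trace
  obtain ⟨α, hα⟩ : ∃ α : L, ∑ σ : L →ₐ[K] (AlgebraicClosure K), σ α ≠ 0 := by
    by_contra h0
    push Not at h0
    have h1 := Fintype.linearIndependent_iff.mp (linearIndependent_toLinearMap K L (AlgebraicClosure K))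
      (fun _ => (1 : (AlgebraicClosure K))) (by
        ext α
        rw [LinearMap.sum_apply]
        simpa using h0 α) L.val
    exact one_ne_zero h1
  set β : (AlgebraicClosure K) := ∑ σ : L →ₐ[K] (AlgebraicClosure K), σ α with hβ
  -- the permutation of the embeddings
  have hperm : ∀ g : (AlgebraicClosure K) ≃ₐ[K] (AlgebraicClosure K), Function.Bijective
      (fun σ : L →ₐ[K] (AlgebraicClosure K) => (g : (AlgebraicClosure K) →ₐ[K] (AlgebraicClosure K)).comp σ) := by
    intro g
    apply Function.Injective.bijective_of_finite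
    intro σ σ' h
    ext x
    have := DFunLike.congr_fun h x
    exact g.injective this
  have hgβ : ∀ g : (AlgebraicClosure K) ≃ₐ[K] (AlgebraicClosure K), g β = β := by
    intro g
    rw [hβ, map_sum]
    exact (hperm g).sum_comp (fun σ : L →ₐ[K] (AlgebraicClosure K) => σ α)
  set θ₀ : (AlgebraicClosure K) := ∑ σ : L →ₐ[K] (AlgebraicClosure K), ep (τ (E σ)) * σ α with hθ₀
  have hgθ : ∀ g : (AlgebraicClosure K) ≃ₐ[K] (AlgebraicClosure K), g θ₀ = θ₀ + ep (τ g) * β := by
    intro g
    have h1 : g θ₀ = ∑ σ : L →ₐ[K] (AlgebraicClosure K), (ep (τ (E ((g : (AlgebraicClosure K) →ₐ[K] (AlgebraicClosure K)).comp σ))) + ep (τ g))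
        * ((g : (AlgebraicClosure K) →ₐ[K] (AlgebraicClosure K)).comp σ) α := by
      rw [hθ₀, map_sum]
      apply Finset.sum_congr rfl
      intro σ _
      rw [map_mul, ep_map]
      congr 1
      have h2 : τ (E ((g : (AlgebraicClosure K) →ₐ[K] (AlgebraicClosure K)).comp σ)) = τ g + τ (E σ) := by
        rw [← hτ]
        apply hwd
        intro x
        rw [hE]
        change g (σ x) = g (E σ x)
        rw [hE]
      rw [h2, ep_add]
      have h3 : (2 : (AlgebraicClosure K)) = 0 := CharTwo.two_eq_zero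
      linear_combination (-ep (τ g)) * h3
    rw [h1, (hperm g).sum_comp (fun σ : L →ₐ[K] (AlgebraicClosure K) => (ep (τ (E σ)) + ep (τ g)) * σ α)]
    simp only [add_mul]
    rw [Finset.sum_add_distrib, ← Finset.mul_sum]
  set θ₁ : (AlgebraicClosure K) := θ₀ / β with hθ₁
  have hgθ₁ : ∀ g : (AlgebraicClosure K) ≃ₐ[K] (AlgebraicClosure K), g θ₁ = θ₁ + ep (τ g) := by
    intro g
    rw [hθ₁, map_div₀, hgθ, hgβ, add_div, mul_div_cancel_right₀ _ hα]
  obtain ⟨n, u, hu⟩ := fixed_pow (F := K) (z := θ₁ ^ 2 + θ₁) (by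
    intro g
    rw [map_add, map_pow, hgθ₁]
    have h3 : (2 : (AlgebraicClosure K)) = 0 := CharTwo.two_eq_zero
    have h4 := ep_sq (K := K) (τ g)
    linear_combination (ep (τ g) * θ₁ + ep (τ g)) * h3 + h4)
  have hfr : ∀ x y : (AlgebraicClosure K), (x + y) ^ 2 ^ n = x ^ 2 ^ n + y ^ 2 ^ n := fun x y =>
    add_pow_char_pow x y 2 n
  refine ⟨θ₁ ^ 2 ^ n, u, ?_, fun g => ?_⟩
  · rw [hu, hfr, ← pow_mul, ← pow_mul, mul_comm]
  · rw [map_pow, hgθ₁, hfr]
    congr 1
    rcases ep_cases (K := K) (τ g) with ⟨-, h⟩ | ⟨-, h⟩ <;> rw [h]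
    · exact zero_pow (by positivity)
    · exact one_pow _

end H90

end Pool.Agent.H2
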