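import Pool.Agent.H2.WStep

/-!
# Comparison of the global and the local halvings
-/

namespace Pool.Agent.H2

open WeierstrassCurve WeierstrassCurve.Affine

universe u

section Clos

variable {F : Type u} [Field F]

noncomputable instance instAlgKsClos : Algebra (Ks F) (AlgebraicClosure F) :=
  (inferInstance : Algebra (SeparableClosure F) (AlgebraicClosure F))

instance instTowerKsClos : IsScalarTower F (Ks F) (AlgebraicClosure F) :=
  (inferInstance : IsScalarTower F (SeparableClosure F) (AlgebraicClosure F))

instance instNormalKs : Normal F (Ks F) := IsGalois.to_normal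

variable (K : Type u) [Field K] [Algebra K F] [Algebra K (Ks F)] [IsScalarTower K F (Ks F)]

instance instTowerK : IsScalarTower K (Ks F) (AlgebraicClosure F) := by
  refine IsScalarTower.of_algebraMap_eq fun x => ?_
  rw [IsScalarTower.algebraMap_apply K F (AlgebraicClosure F),
    IsScalarTower.algebraMap_apply K F (Ks F),
    ← IsScalarTower.algebraMap_apply F (Ks F) (AlgebraicClosure F)]

variable (F)

/-- the inclusion of the base field -/
noncomputable def eK : F →ₐ[K] AlgebraicClosure F :=
  IsScalarTower.toAlgHom K F (AlgebraicClosure F)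

/-- the inclusion of the separable closure -/
noncomputable def jK : Ks F →ₐ[K] AlgebraicClosure F :=
  IsScalarTower.toAlgHom K (Ks F) (AlgebraicClosure F)

/-- the inclusion of the base field in the separable closure -/
noncomputable def fK : F →ₐ[K] Ks F :=
  IsScalarTower.toAlgHom K F (Ks F)

theorem jf : (jK F K).comp (fK F K) = eK F K := by
  ext x
  change algebraMap (Ks F) (AlgebraicClosure F) (algebraMap F (Ks F) x)
    = algebraMap F (AlgebraicClosure F) x
  rw [← IsScalarTower.algebraMap_apply F (Ks F) (AlgebraicClosure F)]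

variable {K F}
variable {E : Affine K}

/-- the action of a local automorphism -/
noncomputable def actv (g : AlgebraicClosure F ≃ₐ[F] AlgebraicClosure F) :
    Pts E (AlgebraicClosure F) →+ Pts E (AlgebraicClosure F) :=
  Pts.map ((g : AlgebraicClosure F →ₐ[F] AlgebraicClosure F).restrictScalars K)

omit [Algebra K (Ks F)] [IsScalarTower K F (Ks F)] in
theorem actv_e (g : AlgebraicClosure F ≃ₐ[F] AlgebraicClosure F) (P : Pts E F) :
    actv g (Pts.map (eK F K) P) = Pts.map (eK F K) P := by
  unfold actv
  rw [Pts.map_map]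
  congr 1
  congr 1
  ext x
  change g (algebraMap F (AlgebraicClosure F) x) = algebraMap F (AlgebraicClosure F) x
  rw [g.commutes]

theorem actv_j (g : AlgebraicClosure F ≃ₐ[F] AlgebraicClosure F) :
    ∃ σ : Ks F →ₐ[K] Ks F, ∀ Q : Pts E (Ks F),
      actv g (Pts.map (jK F K) Q) = Pts.map (jK F K) (Pts.map σ Q) := by
  refine ⟨((g : AlgebraicClosure F →ₐ[F] AlgebraicClosure F).restrictNormal
    (Ks F)).restrictScalars K, fun Q => ?_⟩
  unfold actv
  rw [Pts.map_map, Pts.map_map]
  congr 1
  congr 1
  ext x
  exact (AlgHom.restrictNormal_commutes (g : AlgebraicClosure F →ₐ[F] AlgebraicClosure F)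
    (Ks F) x).symm

omit [Algebra K (Ks F)] [IsScalarTower K F (Ks F)] in
/-- restriction of local automorphisms -/
theorem exists_restr (ι : AlgebraicClosure K →ₐ[K] AlgebraicClosure F)
    (g : AlgebraicClosure F ≃ₐ[F] AlgebraicClosure F) :
    ∃ g₀ : AlgebraicClosure K ≃ₐ[K] AlgebraicClosure K, ∀ x, ι (g₀ x) = g (ι x) := by
  let _ : Algebra (AlgebraicClosure K) (AlgebraicClosure F) := ι.toRingHom.toAlgebra
  have : IsScalarTower K (AlgebraicClosure K) (AlgebraicClosure F) :=
    IsScalarTower.of_algebraMap_eq fun x => (ι.commutes x).symm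
  let gK : AlgebraicClosure F →ₐ[K] AlgebraicClosure F :=
    (g : AlgebraicClosure F →ₐ[F] AlgebraicClosure F).restrictScalars K
  have h := AlgHom.restrictNormal_commutes gK (AlgebraicClosure K)
  exact ⟨AlgEquiv.ofBijective (gK.restrictNormal (AlgebraicClosure K))
    (Algebra.IsAlgebraic.algHom_bijective _), h⟩

/-- extension to the algebraic closures -/
theorem exists_extend (ι : Ks K →ₐ[K] Ks F) :
    ∃ ι' : AlgebraicClosure K →ₐ[K] AlgebraicClosure F,
      ι'.comp (jK K K) = (jK F K).comp ι := by
  let _ : Algebra (Ks K) (AlgebraicClosure F) := ((jK F K).comp ι).toRingHom.toAlgebra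
  have : IsScalarTower K (Ks K) (AlgebraicClosure F) :=
    IsScalarTower.of_algebraMap_eq fun x => (((jK F K).comp ι).commutes x).symm
  have : Algebra.IsAlgebraic (Ks K) (AlgebraicClosure K) :=
    Algebra.IsAlgebraic.tower_top (K := K) (Ks K)
  let φ : AlgebraicClosure K →ₐ[Ks K] AlgebraicClosure F := IsAlgClosed.lift
  refine ⟨φ.restrictScalars K, ?_⟩
  ext x
  exact φ.commutes x

end Clos

end Pool.Agent.H2
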