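import Pool.Agent.H2.WCrit

/-!
# Classes modulo four are divisible by two
-/

namespace Pool.Agent.H2

open Polynomial IsDedekindDomain WeierstrassCurve WeierstrassCurve.Affine

universe u

section Basis

variable {L : Type*} [Field L] {τ : L} (h : TwoBasis τ)
include h

theorem D_of_sq {x y n : L} (hx : x ≠ 0) (hy : y ≠ 0) (hn : n ^ 2 = x * y) :
    h.D x / x = h.D y / y := by
  have hL := h.charP
  have h1 := h.dlog_mul hx hy
  have h2 : h.D (x * y) = 0 := by
    rw [← hn]
    unfold TwoBasis.D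
    rw [h.C_sq]; ring
  rw [h2, zero_div] at h1
  exact CharTwo.add_eq_zero.mp h1.symm

theorem sq_of_D {x : L} (hx : h.D x = 0) : ∃ m, m ^ 2 = x := by
  unfold TwoBasis.D at hx
  have h1 : h.C x = 0 := by simpa using hx
  refine ⟨h.E x, ?_⟩
  have h2 := h.spec x
  rw [h1] at h2
  linear_combination -h2

end Basis

section Local

variable {k : Type u} [Field k] [Finite k] [CharP k 2] {a b : RatFunc k}


instance instTowerKv (v : AbsoluteValue (RatFunc k) ℝ) : IsScalarTower (RatFunc k) (Kv v) (Ks (Kv v)) :=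
  IsScalarTower.of_algebraMap_eq fun _ => rfl

omit [Finite k] [CharP k 2] in
theorem fK_eq (v : AbsoluteValue (RatFunc k) ℝ) : fK (Kv v) (RatFunc k) = locMap v := by
  ext x
  rfl

/-- local data with a nonzero rational point -/
theorem exists_locData (hκ : basisX.C b ≠ 0) {R : Pts (wcv a b) (Ks (RatFunc k))}
    (hR : ¬ ∃ R', 2 • R' = R) {v : AbsoluteValue (RatFunc k) ℝ}
    (hF : TwoBasis (algebraMap (RatFunc k) (Kv v) RatFunc.X)) (hL : LocallyRational 4 R v) :
    ∃ (ι : Ks (RatFunc k) →ₐ[(RatFunc k)] Ks (Kv v)) (D : LocData (R := R) (a := a) (b := b) ι), D.P ≠ 0 := by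
  let ι : Ks (RatFunc k) →ₐ[(RatFunc k)] Ks (Kv v) := IsSepClosed.lift
  obtain ⟨ι', hι'⟩ := exists_extend (K := (RatFunc k)) (F := Kv v) ι
  obtain ⟨P, Q, hPQ⟩ := hL ι
  refine ⟨ι, ⟨ι', hι', P, Q, by rw [fK_eq]; exact hPQ⟩, ?_⟩
  rintro (rfl : P = 0)
  apply hR
  rw [map_zero, zero_add] at hPQ
  have hM : TwoBasis (algebraMap (RatFunc k) (Ks (Kv v)) RatFunc.X) := sepK hF
  have hk : (wcv a b).a₁ * kap basisX (wcv a b) ≠ 0 := hk_gcurve a hκ
  have h1 := cExt_map basisX (wcv a b) hk (sepK basisX) hM ι R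
  have h2 : cExt basisX (wcv a b) hk (Ks (Kv v)) hM (Pts.map ι R) = 0 := by
    have h3 : Pts.map ι R = 2 • (2 • Q) := by
      rw [hPQ, smul_smul]; norm_num
    rw [h3, cExt_two]
  rw [h2] at h1
  have h3 : cExt basisX (wcv a b) hk (Ks (RatFunc k)) (sepK basisX) R = 0 := by
    have h4 := h1.symm
    rwa [map_eq_zero] at h4
  exact cExt_ker basisX (wcv a b) hk (sepK basisX) R h3


omit [Finite k] [CharP k 2] in
theorem loc_ED₁ {R : Pts (wcv a b) (Ks (RatFunc k))} (H : Halv R) (hb : b ≠ 0) {v : AbsoluteValue (RatFunc k) ℝ} [CharP (Kv v) 2]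
    (hF : ∀ P : Pts (wcv a b) (Ks (Kv v)), 2 • P = 0 → P = 0)
    {ι : Ks (RatFunc k) →ₐ[(RatFunc k)] Ks (Kv v)} (D : LocData (R := R) (a := a) (b := b) ι) (hP : D.P ≠ 0)
    {θ : (AlgebraicClosure (RatFunc k))} {u : (RatFunc k)} (hθ : θ ^ 2 + θ = algebraMap (RatFunc k) (AlgebraicClosure (RatFunc k)) u)
    (hg : H.C₁ θ) :
    ED v a b u 2 := by
  obtain ⟨⟨y, hy⟩, ⟨y', hy'⟩⟩ := D.class₁ H hF hb hθ hg hP
  have hx := px_neF' hF hb hP
  have e1 : algebraMap (RatFunc k) (Kv v) b / px D.P ^ 2 * px D.P ^ 2 = algebraMap (RatFunc k) (Kv v) b :=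
    div_mul_cancel₀ _ (pow_ne_zero 2 hx)
  have e2 : y ^ 2 + y = algebraMap (RatFunc k) (Kv v) b / px D.P ^ 2 + px D.P + algebraMap (RatFunc k) (Kv v) a := by
    rw [hy]; ring
  exact ⟨algebraMap (RatFunc k) (Kv v) b / px D.P ^ 2, px D.P, y, y', e1, e2, hy'⟩

theorem loc_ED₂ {R : Pts (wcv a b) (Ks (RatFunc k))} (H : Halv R) (hb : b ≠ 0) (hR : R ≠ 0) {v : AbsoluteValue (RatFunc k) ℝ} [CharP (Kv v) 2]
    (hF : ∀ P : Pts (wcv a b) (Ks (Kv v)), 2 • P = 0 → P = 0)
    (hM : TwoBasis (algebraMap (RatFunc k) (Kv v) RatFunc.X))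
    {ι : Ks (RatFunc k) →ₐ[(RatFunc k)] Ks (Kv v)} (D : LocData (R := R) (a := a) (b := b) ι) (hP : D.P ≠ 0)
    (h : H.Fix)
    {θ : (AlgebraicClosure (RatFunc k))} {u : (RatFunc k)} (hθ : θ ^ 2 + θ = algebraMap (RatFunc k) (AlgebraicClosure (RatFunc k)) u)
    (hg : H.C₂ θ)
    {X' : Ks (RatFunc k)} (hX'0 : X' ≠ 0) (hX' : algebraMap (Ks (RatFunc k)) (AlgebraicClosure (RatFunc k)) X' = px H.R₁ ^ 2) {ℓ : (RatFunc k)}
    (hℓ : algebraMap (RatFunc k) (Ks (RatFunc k)) ℓ = (sepK basisX).D X' / X') :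
    ∃ X c c' : Kv v, X ≠ 0 ∧ c ^ 2 + c = algebraMap (RatFunc k) (Kv v) b / X + X + algebraMap (RatFunc k) (Kv v) a ∧
      c' ^ 2 + c' = algebraMap (RatFunc k) (Kv v) b / X + algebraMap (RatFunc k) (Kv v) u ∧
      hM.D X / X = algebraMap (RatFunc k) (Kv v) ℓ := by
  obtain ⟨X, hX, ⟨y, hy⟩, ⟨y', hy'⟩, n, hn⟩ := D.class₂ H hF hb hR h hθ hg hP hX'
  refine ⟨X, y + algebraMap (RatFunc k) (Kv v) a + algebraMap (RatFunc k) (Kv v) b / X, y', hX, ?_, hy', ?_⟩
  · have two : (2 : Kv v) = 0 := CharTwo.two_eq_zero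
    field_simp at hy ⊢
    linear_combination hy + (y * algebraMap (RatFunc k) (Kv v) a * X ^ 2 + y * algebraMap (RatFunc k) (Kv v) b * X
      + algebraMap (RatFunc k) (Kv v) a * algebraMap (RatFunc k) (Kv v) b * X + X ^ 2 * algebraMap (RatFunc k) (Kv v) a ^ 2
      + algebraMap (RatFunc k) (Kv v) b ^ 2) * two
  · have hMs : TwoBasis (algebraMap (RatFunc k) (Ks (Kv v)) RatFunc.X) := sepK hM
    have hfX : fK (Kv v) (RatFunc k) X ≠ 0 := by rwa [Ne, map_eq_zero]
    have hιX : ι X' ≠ 0 := by rwa [Ne, map_eq_zero]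
    have h1 := D_of_sq hMs hfX hιX hn
    have h2 : hMs.D (fK (Kv v) (RatFunc k) X) = fK (Kv v) (RatFunc k) (hM.D X) := by
      unfold TwoBasis.D
      rw [map_pow]
      congr 1
      exact (hM.map_C hMs (fK (Kv v) (RatFunc k) : Kv v →+* Ks (Kv v)) rfl X).symm
    have h3 : hMs.D (ι X') = ι ((sepK basisX).D X') := by
      unfold TwoBasis.D
      rw [map_pow]
      congr 1
      exact ((sepK basisX).map_C hMs (ι : Ks (RatFunc k) →+* Ks (Kv v)) (ι.commutes _) X').symm
    rw [h2, h3, ← map_div₀, ← map_div₀, ← hℓ, ι.commutes] at h1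
    apply (fK (Kv v) (RatFunc k) : Kv v →+* Ks (Kv v)).injective
    exact h1.trans rfl

theorem global_log {R : Pts (wcv a b) (Ks (RatFunc k))} (H : Halv R) (hb : b ≠ 0)
    (hE : ∀ P : Pts (wcv a b) (Ks (RatFunc k)), 2 • P = 0 → P = 0) (hR : R ≠ 0) (h : H.Fix) :
    ∃ (X : Ks (RatFunc k)) (ℓ : (RatFunc k)), X ≠ 0 ∧ algebraMap (Ks (RatFunc k)) (AlgebraicClosure (RatFunc k)) X = px H.R₁ ^ 2 ∧
      X ^ 2 + px R * X + algebraMap (RatFunc k) (Ks (RatFunc k)) b = 0 ∧
      algebraMap (RatFunc k) (Ks (RatFunc k)) ℓ = (sepK basisX).D X / X := by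
  have hK2 : CharP (RatFunc k) 2 := basisX.charP
  obtain ⟨X, Y, hX0, hX, hY, heq⟩ := H.exists_X hE hb hR
  obtain ⟨ℓ, hℓ⟩ := (InfiniteGalois.mem_range_algebraMap_iff_fixed (k := (RatFunc k))
    ((sepK basisX).D X / X)).mpr (by
      intro σ
      obtain ⟨n, hn⟩ := H.conj hE hb hR h hX hY σ
      have hσX : σ X ≠ 0 := by rwa [Ne, map_eq_zero]
      have h1 := D_of_sq (sepK basisX) hX0 hσX hn
      have h2 : (sepK basisX).D (σ X) = σ ((sepK basisX).D X) := by
        unfold TwoBasis.D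
        rw [map_pow]
        congr 1
        exact ((sepK basisX).map_C (sepK basisX) (σ : Ks (RatFunc k) →+* Ks (RatFunc k)) (σ.commutes _) X).symm
      rw [map_div₀, ← h2, ← h1])
  exact ⟨X, ℓ, hX0, hX, heq, hℓ⟩

theorem kd_of {v : AbsoluteValue (RatFunc k) ℝ} (hM : TwoBasis (algebraMap (RatFunc k) v.Completion RatFunc.X))
    (hb : b ≠ 0) {u ℓ : (RatFunc k)} {X c c' : v.Completion} (hX : X ≠ 0)
    (h1 : c ^ 2 + c = rc v b / X + X + rc v a) (h2 : c' ^ 2 + c' = rc v b / X + rc v u)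
    (h3 : hM.D X / X = rc v ℓ) {g ε : (RatFunc k)} (hε : ε = 0 ∨ ε = 1) (hg : g ^ 2 + g = u + ε * a) :
    KD v hM a b (ℓ + ε * om b) := by
  have hL := hM.charP
  have two : (2 : v.Completion) = 0 := CharTwo.two_eq_zero
  have hrb : rc v b ≠ 0 := by unfold rc; rwa [Ne, map_eq_zero]
  have hg' : rc v g ^ 2 + rc v g = rc v u + rc v ε * rc v a := by
    have := congrArg (rc v) hg
    unfold rc at this ⊢
    simpa only [map_add, map_mul, map_pow] using this
  have h0 : rc v (0 : (RatFunc k)) = 0 := by unfold rc; rw [map_zero]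
  have h1' : rc v (1 : (RatFunc k)) = 1 := by unfold rc; rw [map_one]
  rcases hε with rfl | rfl
  · rw [h0] at hg'
    refine ⟨X, c + c' + rc v g, c' + rc v g, hX, ?_, ?_, ?_⟩
    · linear_combination h1 + h2 + hg' + (c * c' + c * rc v g + c' * rc v g
        + rc v b / X + rc v u) * two
    · linear_combination h2 + hg' + (c' * rc v g + rc v u) * two
    · rw [h3, zero_mul, add_zero]
  · rw [h1'] at hg'
    have hW : rc v b / X ≠ 0 := div_ne_zero hrb hX
    have hbW : rc v b / (rc v b / X) = X := by field_simp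
    refine ⟨rc v b / X, c' + rc v g, c + c' + rc v g, hW, ?_, ?_, ?_⟩
    · linear_combination h2 + hg' + (c' * rc v g + rc v u) * two
    · rw [hbW]
      linear_combination h1 + h2 + hg' + (c * c' + c * rc v g + c' * rc v g
        + rc v b / X + rc v u + rc v a) * two
    · have h4 := hM.dlog_mul hW hX
      have h5 : rc v b / X * X = rc v b := div_mul_cancel₀ _ hX
      rw [h5, h3] at h4
      have h6 : hM.D (rc v b) / rc v b = rc v (om b) := by
        unfold TwoBasis.D om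
        have h7 : hM.C (rc v b) = rc v (basisX.C b) :=
          (basisX.map_C hM (algebraMap (RatFunc k) v.Completion) rfl _).symm
        rw [h7]
        unfold rc
        rw [map_div₀, map_pow]
      rw [h6] at h4
      have h8 : rc v (ℓ + 1 * om b) = rc v ℓ + rc v (om b) := by
        unfold rc
        rw [one_mul, map_add]
      rw [h8, h4]
      linear_combination (-rc v ℓ) * two

end Local

section Main

variable {k : Type u} [Field k] [Finite k] [CharP k 2] {a b : RatFunc k}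


theorem tors (hκ : (basisX (k := k)).C b ≠ 0) : ∀ P : Pts (wcv a b) (Ks (RatFunc k)), 2 • P = 0 → P = 0 :=
  fun P hP => no_torsion_two basisX (hk_gcurve a hκ) (sepK basisX) P hP

theorem torsv (hκ : (basisX (k := k)).C b ≠ 0) {v : AbsoluteValue (RatFunc k) ℝ}
    (hB : TwoBasis (algebraMap (RatFunc k) (Kv v) RatFunc.X)) :
    ∀ P : Pts (wcv a b) (Ks (Kv v)), 2 • P = 0 → P = 0 := by
  intro P hP
  have hM : TwoBasis (algebraMap (RatFunc k) (Ks (Kv v)) RatFunc.X) := sepK hB
  exact no_torsion_two basisX (hk_gcurve a hκ) hM P hP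

/-- **The main step**: a class modulo four is divisible by two. -/
theorem InvTwist.half4 {S Z : Finset (HeightOneSpectrum k[X])} (G : InvTwist S Z b a)
    (R : Pts (wcv a b) (Ks (RatFunc k))) (hG : GaloisFixed 4 R)
    (hL : ∀ v ∈ stdPlaces k, LocallyRational 4 R v) : ∃ R', 2 • R' = R := by
  by_contra hR
  have hK2 : CharP (RatFunc k) 2 := basisX.charP
  have hκ := G.C_ne
  have hb := G.b_ne
  have hR0 : R ≠ 0 := by rintro rfl; exact hR ⟨0, by simp⟩
  have hE := tors (a := a) hκ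
  obtain ⟨H⟩ := exists_halv hb hG
  have binf : TwoBasis (algebraMap (RatFunc k) (Kv (infAbv k)) RatFunc.X) := basis_inf
  have bfin : ∀ p : HeightOneSpectrum k[X],
      TwoBasis (algebraMap (RatFunc k) (Kv (finAbv p)) RatFunc.X) := fun p => (finAbv_good p).comp_basis
  have cinf : CharP (Kv (infAbv k)) 2 := binf.charP
  have cfin : ∀ p : HeightOneSpectrum k[X], CharP (Kv (finAbv p)) 2 := fun p => (bfin p).charP
  have tinf := torsv (a := a) hκ binf
  have tfin := fun p => torsv (a := a) hκ (bfin p)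
  obtain ⟨ιi, Di, hDi⟩ := exists_locData hκ hR binf (hL _ (Or.inl rfl))
  have hloc : ∀ p : HeightOneSpectrum k[X], ∃ (ι : Ks (RatFunc k) →ₐ[(RatFunc k)] Ks (Kv (finAbv p)))
      (D : LocData (R := R) (a := a) (b := b) ι), D.P ≠ 0 :=
    fun p => exists_locData hκ hR (bfin p) (hL _ (Or.inr ⟨p, rfl⟩))
  choose ιf Df hDf using hloc
  -- the first class
  obtain ⟨θ₁, u₁, hθ₁, hg₁⟩ := H.class₁ hE hb
  obtain ⟨ε₁, hε₁, g₁, hu₁⟩ := G.as_part (u := u₁) two_ne_zero
    (loc_ED₁ H hb tinf Di hDi hθ₁ hg₁)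
    (fun p => loc_ED₁ H hb (tfin p) (Df p) (hDf p) hθ₁ hg₁)
  have hom : om b ≠ 0 := by
    unfold om
    exact div_ne_zero (pow_ne_zero 2 hκ) hb
  have hFix : H.Fix := by
    rcases hε₁ with rfl | rfl
    · -- the class is trivial
      intro g
      rcases hg₁ g with h | h
      · exact h.1
      · exfalso
        have two : (2 : (AlgebraicClosure (RatFunc k))) = 0 := CharTwo.two_eq_zero
        have h1 : (θ₁ + algebraMap (RatFunc k) (AlgebraicClosure (RatFunc k)) g₁) * (θ₁ + algebraMap (RatFunc k) (AlgebraicClosure (RatFunc k)) g₁ + 1) = 0 := by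
          have h2 := congrArg (algebraMap (RatFunc k) (AlgebraicClosure (RatFunc k))) hu₁
          rw [zero_mul, add_zero, map_add, map_pow] at h2
          linear_combination hθ₁ + h2 + (θ₁ * algebraMap (RatFunc k) (AlgebraicClosure (RatFunc k)) g₁ + algebraMap (RatFunc k) (AlgebraicClosure (RatFunc k)) u₁) * two
        have h3 : g θ₁ = θ₁ := by
          rcases mul_eq_zero.mp h1 with h4 | h4
          · have h5 : θ₁ = algebraMap (RatFunc k) (AlgebraicClosure (RatFunc k)) g₁ := CharTwo.add_eq_zero.mp h4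
            rw [h5, g.commutes]
          · have h5 : θ₁ = algebraMap (RatFunc k) (AlgebraicClosure (RatFunc k)) (g₁ + 1) := by
              rw [map_add, map_one]
              linear_combination h4 - (algebraMap (RatFunc k) (AlgebraicClosure (RatFunc k)) g₁ + 1) * two
            rw [h5, g.commutes]
        have h4 := h.2
        rw [h3] at h4
        exact one_ne_zero (left_eq_add.mp h4)
    · exfalso
      apply hom
      have hk : ∀ {v : AbsoluteValue (RatFunc k) ℝ} (hM : TwoBasis (algebraMap (RatFunc k) v.Completion RatFunc.X)),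
          ED v a b u₁ 2 → KD v hM a b (om b) := by
        intro v hM hED
        have hLv := hM.charP
        have two : (2 : v.Completion) = 0 := CharTwo.two_eq_zero
        obtain ⟨A, B, c, c', h1, h2, h3⟩ := hED
        have hrb : rc v b ≠ 0 := by unfold rc; rwa [Ne, map_eq_zero]
        have hA : A ≠ 0 := by rintro rfl; rw [zero_mul] at h1; exact hrb h1.symm
        have hB : B ≠ 0 := by
          rintro rfl
          rw [zero_pow two_ne_zero, mul_zero] at h1
          exact hrb h1.symm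
        have hg' : rc v g₁ ^ 2 + rc v g₁ = rc v u₁ + rc v a := by
          have := congrArg (rc v) hu₁
          unfold rc at this ⊢
          simpa only [map_add, map_mul, map_pow, one_mul] using this
        refine ⟨A, c' + rc v g₁, (c + c' + rc v g₁) + B, hA, ?_, ?_, ?_⟩
        · linear_combination h3 + hg' + (c' * rc v g₁ + rc v u₁) * two
        · have e : rc v b / A = B ^ 2 := by rw [← h1]; field_simp
          rw [e]
          linear_combination h2 + h3 + hg' + (c * c' + c * rc v g₁ + c' * rc v g₁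
            + c * B + c' * B + rc v g₁ * B + A + B + rc v u₁ + rc v a) * two
        · have h4 : hM.D (rc v b) / rc v b = rc v (om b) := by
            unfold TwoBasis.D om
            have h7 : hM.C (rc v b) = rc v (basisX.C b) :=
              (basisX.map_C hM (algebraMap (RatFunc k) v.Completion) rfl _).symm
            rw [h7]
            unfold rc
            rw [map_div₀, map_pow]
          rw [← h4, ← h1, mul_comm A, hM.D_sq_mul]
          field_simp
      exact G.key (hk basis_inf (loc_ED₁ H hb tinf Di hDi hθ₁ hg₁))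
        (fun p => hk _ (loc_ED₁ H hb (tfin p) (Df p) (hDf p) hθ₁ hg₁))
  -- the second class
  obtain ⟨θ₂, u₂, hθ₂, hg₂⟩ := H.class₂ hE hb hFix
  obtain ⟨X', ℓ, hX'0, hX', heq, hℓ⟩ := global_log H hb hE hR0 hFix
  have hi := loc_ED₂ H hb hR0 tinf binf Di hDi hFix hθ₂ hg₂ hX'0 hX' hℓ
  have hf := fun p => loc_ED₂ H hb hR0 (tfin p) (bfin p) (Df p) (hDf p) hFix hθ₂ hg₂ hX'0 hX' hℓ
  have hed : ∀ {v : AbsoluteValue (RatFunc k) ℝ}, (∃ X c c' : v.Completion, X ≠ 0 ∧
      c ^ 2 + c = rc v b / X + X + rc v a ∧ c' ^ 2 + c' = rc v b / X + rc v u₂) →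
      ED v a b u₂ 1 := by
    rintro v ⟨X, c, c', h0, h1, h2⟩
    exact ⟨rc v b / X, X, c, c', by rw [pow_one, div_mul_cancel₀ _ h0], h1, h2⟩
  obtain ⟨ε₂, hε₂, g₂, hu₂⟩ := G.as_part (u := u₂) one_ne_zero
    (hed (by obtain ⟨X, c, c', h0, h1, h2, -⟩ := hi; exact ⟨X, c, c', h0, h1, h2⟩))
    (fun p => hed (by obtain ⟨X, c, c', h0, h1, h2, -⟩ := hf p; exact ⟨X, c, c', h0, h1, h2⟩))
  have hfinal : ℓ + ε₂ * om b = 0 := by
    apply G.key
    · obtain ⟨X, c, c', h0, h1, h2, h3⟩ := hi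
      exact kd_of basis_inf hb h0 h1 h2 h3 hε₂ hu₂
    · intro p
      obtain ⟨X, c, c', h0, h1, h2, h3⟩ := hf p
      exact kd_of (finAbv_good p).comp_basis hb h0 h1 h2 h3 hε₂ hu₂
  -- conclusion
  apply hR
  have hhalf : ∀ m : Ks (RatFunc k), m ^ 4 + px R * m ^ 2 + algebraMap (RatFunc k) (Ks (RatFunc k)) b = 0 →
      ∃ R', 2 • R' = R := by
    intro m hm
    obtain ⟨Q, -, -, hQ⟩ := p_half hb sep_solve hR0 hm
    exact ⟨Q, by rw [two_nsmul, hQ]⟩
  have hsK := sepK (basisX (k := k))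
  rcases hε₂ with rfl | rfl
  · rw [zero_mul, add_zero] at hfinal
    rw [hfinal, map_zero] at hℓ
    have h1 : (sepK basisX).D X' = 0 := by
      rcases div_eq_zero_iff.mp hℓ.symm with h | h
      · exact h
      · exact absurd h hX'0
    obtain ⟨m, hm⟩ := sq_of_D (sepK basisX) h1
    apply hhalf m
    rw [← heq, ← hm]; ring
  · rw [one_mul] at hfinal
    have hℓb : ℓ = om b := CharTwo.add_eq_zero.mp hfinal
    have hbK : algebraMap (RatFunc k) (Ks (RatFunc k)) b ≠ 0 := by rwa [Ne, map_eq_zero]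
    have h4 : (sepK basisX).D (algebraMap (RatFunc k) (Ks (RatFunc k)) b) / algebraMap (RatFunc k) (Ks (RatFunc k)) b
        = algebraMap (RatFunc k) (Ks (RatFunc k)) (om b) := by
      unfold TwoBasis.D om
      have h7 : (sepK basisX).C (algebraMap (RatFunc k) (Ks (RatFunc k)) b) = algebraMap (RatFunc k) (Ks (RatFunc k)) (basisX.C b) :=
        (basisX.map_C (sepK basisX) (algebraMap (RatFunc k) (Ks (RatFunc k))) rfl _).symm
      rw [h7, map_div₀, map_pow]
    have h5 := (sepK basisX).dlog_mul hbK hX'0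
    rw [h4, ← hℓ, hℓb, CharTwo.add_self_eq_zero] at h5
    have h6 : (sepK basisX).D (algebraMap (RatFunc k) (Ks (RatFunc k)) b * X') = 0 := by
      rcases div_eq_zero_iff.mp h5 with h | h
      · exact h
      · exact absurd h (mul_ne_zero hbK hX'0)
    obtain ⟨m, hm⟩ := sq_of_D (sepK basisX) h6
    apply hhalf (m / X')
    rw [div_pow, div_pow]
    have h7 : m ^ 4 = (algebraMap (RatFunc k) (Ks (RatFunc k)) b * X') ^ 2 := by rw [← hm]; ring
    rw [h7, hm]
    field_simp
    linear_combination (algebraMap (RatFunc k) (Ks (RatFunc k)) b) * heq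

end Main

end Pool.Agent.H2
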