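import Pool.Agent.H2.WCount

/-!
# The refined criterion for polynomials
-/

namespace Pool.Agent.H2

open Polynomial IsDedekindDomain WeierstrassCurve WeierstrassCurve.Affine

universe u

variable {k : Type u} [Field k] [Finite k] [CharP k 2]

theorem not_square_map {b : k[X]} (hb : ¬ IsSquare b) :
    ¬ IsSquare (algebraMap k[X] (RatFunc k) b) := by
  rintro ⟨r, hr⟩
  apply hb
  obtain ⟨A, hA⟩ := poly_of_int (f := r) (fun q => by
    by_contra h
    rw [not_le] at h
    have h1 := finAbv_poly q b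
    rw [hr, map_mul] at h1
    nlinarith)
  refine ⟨A, ?_⟩
  apply FaithfulSMul.algebraMap_injective k[X] (RatFunc k)
  rw [hr, map_mul, hA]

theorem small_poly {a b : k[X]} (ha : Odd a.natDegree) (hab : b.natDegree < a.natDegree)
    (hb : ¬ IsSquare b) (hns : ∀ Q, Irreducible Q → Q ∣ b → Nonsplit a Q)
    (hfin : {P : k[X] | P.Monic ∧ Irreducible P ∧ P ∣ b}.Finite) :
    SmallSelmer (algebraMap k[X] (RatFunc k) a) (algebraMap k[X] (RatFunc k) b)
      {P : k[X] | P.Monic ∧ Irreducible P ∧ P ∣ b}.ncard := by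
  classical
  have hb0 : b ≠ 0 := by rintro rfl; exact hb ⟨0, by simp⟩
  have ha0 : a ≠ 0 := by rintro rfl; rw [natDegree_zero] at hab; omega
  have hlt : ∀ p : HeightOneSpectrum k[X], finAbv p (algebraMap k[X] (RatFunc k) b) < 1 ↔
      gQ p ∣ b := fun p => by rw [finAbv_lt_one, mem_gen (gQ_span p)]
  have hinj : Function.Injective (gQ : HeightOneSpectrum k[X] → k[X]) := by
    intro p r h
    by_contra hne
    exact gQ_not_dvd hne (h ▸ dvd_rfl)
  have hZfin : {p : HeightOneSpectrum k[X] | gQ p ∣ b}.Finite := by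
    apply Set.Finite.of_finite_image (f := gQ) _ hinj.injOn
    refine hfin.subset ?_
    rintro P ⟨p, hp, rfl⟩
    exact ⟨gQ_monic p, gQ_irr p, hp⟩
  set Z := hZfin.toFinset with hZ
  have hmem : ∀ p, p ∈ Z ↔ gQ p ∣ b := fun p => hZfin.mem_toFinset
  have hcard : Z.card ≤ {P : k[X] | P.Monic ∧ Irreducible P ∧ P ∣ b}.ncard := by
    rw [hZ, ← Set.ncard_eq_toFinset_card _ hZfin, ← Set.ncard_image_of_injective _ hinj]
    refine Set.ncard_le_ncard ?_ hfin
    rintro P ⟨p, hp, rfl⟩
    exact ⟨gQ_monic p, gQ_irr p, hp⟩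
  have G : InvTwist ∅ Z (algebraMap k[X] (RatFunc k) b) (algebraMap k[X] (RatFunc k) a) :=
    { nsq := not_square_map hb
      bS := fun p _ hp => le_antisymm (finAbv_poly p b) (by
        rw [hmem, ← hlt, not_lt] at hp; exact hp)
      bZ := fun p _ => finAbv_poly p b
      aZ := fun p hp => by
        rw [← TT_eq_one, TT_poly (y := a)]
        · exact hns _ (gQ_irr p) ((hmem p).mp hp)
        · rw [sub_self, map_zero]; exact one_pos
      aS := fun p _ => finAbv_poly p a
      inf := ⟨a.natDegree, ha, infAbv_poly ha0, by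
        rw [infAbv_poly ha0, infAbv_poly hb0]
        exact zpow_lt_zpow_right₀ (by norm_num) (by exact_mod_cast hab)⟩
      fin := fun p hp => absurd hp (Finset.notMem_empty _)
      inj := fun x _ => funext fun p => absurd p.2 (Finset.notMem_empty _)
      inj' := fun x _ => funext fun p => absurd p.2 (Finset.notMem_empty _) }
  obtain ⟨h1, h2, h3⟩ := G.small
  refine ⟨h1, h2, fun s => ?_⟩
  obtain ⟨h4, h5, h6⟩ := h3 s
  refine ⟨h4, h5.trans (Nat.pow_le_pow_right (by norm_num) ?_), h6⟩
  rw [Finset.card_empty, zero_add]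
  exact hcard

end Pool.Agent.H2
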