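import Pool.Agent.H2.GHeight
import Pool.Agent.H2.Devissage

/-!
# The group law on `y² + x y = x³ + a x² + b` in characteristic two
-/

namespace Pool.Agent.H2

open WeierstrassCurve WeierstrassCurve.Affine

universe u

section Coord

variable {L : Type*} [Field L] {W : Affine L}

/-- the `x`-coordinate, `0` at the origin -/
def cx : W.Point → L
  | .zero => 0
  | .some x _ _ => x

/-- the `y`-coordinate, `0` at the origin -/
def cy : W.Point → L
  | .zero => 0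
  | .some _ y _ => y

theorem cx_some {x y : L} (h : W.Nonsingular x y) : cx (.some x y h : W.Point) = x := rfl

theorem cy_some {x y : L} (h : W.Nonsingular x y) : cy (.some x y h : W.Point) = y := rfl

theorem pt_ext {P Q : W.Point} (hP : P ≠ 0) (hQ : Q ≠ 0) (hx : cx P = cx Q) (hy : cy P = cy Q) :
    P = Q := by
  rcases P with _ | ⟨x, y, h⟩
  · exact absurd rfl hP
  rcases Q with _ | ⟨x', y', h'⟩
  · exact absurd rfl hQ
  change x = x' at hx
  change y = y' at hy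
  subst hx hy
  rfl

theorem ex_some {P : W.Point} (hP : P ≠ 0) : ∃ (x y : L) (h : W.Nonsingular x y),
    P = .some x y h ∧ cx P = x ∧ cy P = y := by
  rcases P with _ | ⟨x, y, h⟩
  · exact absurd rfl hP
  · exact ⟨x, y, h, rfl, rfl, rfl⟩

variable [CharP L 2] [DecidableEq L]

/-- the curve has the equation `y² + x y = x³ + a x² + b` -/
structure Ord (W : Affine L) : Prop where
  h1 : W.a₁ = 1
  h3 : W.a₃ = 0
  h4 : W.a₄ = 0
  h6 : W.a₆ ≠ 0

variable (o : Ord W)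
include o

omit [CharP L 2] [DecidableEq L] in
theorem Ord.eqn {P : W.Point} (hP : P ≠ 0) :
    cy P ^ 2 + cx P * cy P = cx P ^ 3 + W.a₂ * cx P ^ 2 + W.a₆ := by
  obtain ⟨x, y, h, rfl, hx, hy⟩ := ex_some hP
  rw [hx, hy]
  have he := (Affine.equation_iff _ _).mp h.1
  rw [o.h1, o.h3, o.h4] at he
  linear_combination he

omit [DecidableEq L] in
theorem Ord.nonsing {x y : L} (h : y ^ 2 + x * y = x ^ 3 + W.a₂ * x ^ 2 + W.a₆) :
    W.Nonsingular x y := by
  rw [Affine.nonsingular_iff]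
  have he : W.Equation x y := by
    rw [Affine.equation_iff, o.h1, o.h3, o.h4]
    linear_combination h
  refine ⟨he, ?_⟩
  rw [o.h1, o.h3, o.h4]
  have h2 : (2 : L) = 0 := CharTwo.two_eq_zero
  by_cases hx : x = 0
  · left
    rw [hx]
    intro h0
    apply o.h6
    have hy : y = 0 := by linear_combination h0
    rw [hx, hy] at h
    linear_combination -h
  · right
    intro h0
    apply hx
    linear_combination h0 - y * h2

omit [CharP L 2] [DecidableEq L] in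
theorem Ord.negY (x y : L) : W.negY x y = -y - x := by
  rw [Affine.negY, o.h1, o.h3]; ring

/-- doubling -/
theorem Ord.dbl {P : W.Point} (hP : P ≠ 0) (hx : cx P ≠ 0) :
    P + P ≠ 0 ∧ cx (P + P) = cx P ^ 2 + W.a₆ / cx P ^ 2 := by
  obtain ⟨x, y, h, rfl, hx', hy⟩ := ex_some hP
  rw [hx'] at hx ⊢
  obtain ⟨y', h', e⟩ := dup o.h1 o.h3 o.h4 h hx
  rw [e]
  exact ⟨by rintro ⟨⟩, rfl⟩

theorem Ord.dbl_zero {P : W.Point} (hx : cx P = 0) : P + P = 0 := by
  by_cases hP : P = 0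
  · rw [hP, add_zero]
  obtain ⟨x, y, h, rfl, hx', hy⟩ := ex_some hP
  apply Affine.Point.add_self_of_Y_eq
  rw [o.negY]
  rw [hx'] at hx
  rw [hx]
  have h2 : (2 : L) = 0 := CharTwo.two_eq_zero
  linear_combination y * h2

/-- the points of order two -/
theorem Ord.two {P : W.Point} (hP : P ≠ 0) : P + P = 0 ↔ cx P = 0 :=
  ⟨fun h => by
    by_contra hx
    exact (o.dbl hP hx).1 h, fun h => o.dbl_zero h⟩

theorem Ord.two_unique {P Q : W.Point} (hP : P ≠ 0) (hQ : Q ≠ 0) (h2P : P + P = 0)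
    (h2Q : Q + Q = 0) : P = Q := by
  have h1 := (o.two hP).mp h2P
  have h2 := (o.two hQ).mp h2Q
  refine pt_ext hP hQ (h1.trans h2.symm) ?_
  have h3 := o.eqn hP
  have h4 := o.eqn hQ
  rw [h1] at h3
  rw [h2] at h4
  have h5 : (cy P + cy Q) ^ 2 = 0 := by
    linear_combination h3 + h4 + (cy P * cy Q + W.a₆) * (CharTwo.two_eq_zero : (2 : L) = 0)
  exact CharTwo.add_eq_zero.mp (pow_eq_zero_iff two_ne_zero |>.mp h5)

/-- translation by the point of order two -/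
theorem Ord.add_two {P T : W.Point} (hP : P ≠ 0) (hx : cx P ≠ 0) (hT : T ≠ 0) (h2T : T + T = 0) :
    P + T ≠ 0 ∧ cx (P + T) = cy T / cx P ∧ cy T ^ 2 = W.a₆ := by
  have hxT := (o.two hT).mp h2T
  have heP := o.eqn hP
  have heT := o.eqn hT
  obtain ⟨x, y, h, rfl, hx', hy'⟩ := ex_some hP
  obtain ⟨s, t, h', rfl, hs, ht⟩ := ex_some hT
  rw [hx', hy'] at heP
  rw [hs] at hxT
  rw [hs, ht, hxT] at heT
  rw [hx'] at hx ⊢
  rw [ht]
  subst hxT
  have hne : x ≠ 0 := hx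
  rw [Affine.Point.add_of_X_ne hne]
  refine ⟨by rintro ⟨⟩, ?_, by linear_combination heT⟩
  rw [cx_some, Affine.addX, Affine.slope_of_X_ne hne, o.h1, sub_zero, sub_zero]
  field_simp
  have h2 : (2 : L) = 0 := CharTwo.two_eq_zero
  linear_combination heP + heT + (-t * x - y * t + W.a₆) * h2

/-- collinear points -/
theorem Ord.collin {P Q : W.Point} (hP : P ≠ 0) (hQ : Q ≠ 0) (hPQ : P + Q ≠ 0)
    (hx : cx P ≠ cx Q) :
    cx P * cx Q * cx (P + Q)
      = W.a₆ + ((cy P * cx Q + cy Q * cx P) / (cx P + cx Q)) ^ 2 := by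
  have heP := o.eqn hP
  have heQ := o.eqn hQ
  obtain ⟨x, y, h, rfl, hx', hy'⟩ := ex_some hP
  obtain ⟨s, t, h', rfl, hs, ht⟩ := ex_some hQ
  rw [hx', hy'] at heP
  rw [hs, ht] at heQ
  rw [hx', hs] at hx
  rw [hx', hs, hy', ht, Affine.Point.add_of_X_ne hx, cx_some, Affine.addX,
    Affine.slope_of_X_ne hx, o.h1]
  have hd : x - s ≠ 0 := sub_ne_zero.mpr hx
  have hd' : x + s ≠ 0 := by rwa [← CharTwo.sub_eq_add]
  have h2 : (2 : L) = 0 := CharTwo.two_eq_zero
  have e1 : x - s = x + s := CharTwo.sub_eq_add _ _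
  have e2 : y - t = y + t := CharTwo.sub_eq_add _ _
  rw [e1, e2]
  field_simp
  grind

omit [CharP L 2] [DecidableEq L] o in
theorem eq_or_neg {P Q : W.Point} (hP : P ≠ 0) (hQ : Q ≠ 0) (hx : cx P = cx Q) :
    P = Q ∨ P = -Q := by
  obtain ⟨x, y, h, rfl, hx', hy'⟩ := ex_some hP
  obtain ⟨s, t, h', rfl, hs, ht⟩ := ex_some hQ
  rw [hx', hs] at hx
  subst hx
  rcases Affine.Y_eq_of_X_eq h.1 h'.1 rfl with h1 | h1
  · left; subst h1; rfl
  · right
    rw [Affine.Point.neg_some]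
    subst h1
    rfl

/-- halving -/
theorem Ord.half (hs : ∀ c : L, ∃ z : L, z ^ 2 + z = c) {R : W.Point} (hR : R ≠ 0) {m : L}
    (hm : m ^ 4 + cx R * m ^ 2 + W.a₆ = 0) :
    ∃ Q : W.Point, Q ≠ 0 ∧ cx Q = m ∧ Q + Q = R := by
  have h2 : (2 : L) = 0 := CharTwo.two_eq_zero
  have hm0 : m ≠ 0 := by
    rintro rfl
    apply o.h6
    linear_combination hm
  obtain ⟨z, hz⟩ := hs (m + W.a₂ + W.a₆ / m ^ 2)
  have he : (m * z) ^ 2 + m * (m * z) = m ^ 3 + W.a₂ * m ^ 2 + W.a₆ := by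
    have : (m * z) ^ 2 + m * (m * z) = m ^ 2 * (z ^ 2 + z) := by ring
    rw [this, hz]
    field_simp
  have hns := o.nonsing he
  set Q : W.Point := .some m (m * z) hns with hQ
  have hQ0 : Q ≠ 0 := by rw [hQ]; rintro ⟨⟩
  obtain ⟨h3, h4⟩ := o.dbl hQ0 (show cx Q ≠ 0 from hm0)
  have h5 : cx (Q + Q) = cx R := by
    rw [h4]
    change m ^ 2 + W.a₆ / m ^ 2 = cx R
    field_simp
    linear_combination hm - (m ^ 2 * cx R) * h2
  rcases eq_or_neg h3 hR h5 with h6 | h6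
  · exact ⟨Q, hQ0, rfl, h6⟩
  · refine ⟨-Q, by rwa [Ne, neg_eq_zero], rfl, ?_⟩
    rw [← neg_add, h6, neg_neg]

end Coord

end Pool.Agent.H2
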