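import Pool.Agent.H2.WGal

/-!
# Points of `y² + x y = x³ + a x² + b` over extensions, and the class of a halving
-/

namespace Pool.Agent.H2

open WeierstrassCurve WeierstrassCurve.Affine

universe u

/-- the curve `y² + x y = x³ + a x² + b` -/
def wcv {K : Type u} [Field K] (a b : K) : Affine K := ⟨1, a, 0, 0, b⟩

section P

variable {K : Type u} [Field K] {a b : K} {F M : Type u} [Field F] [Algebra K F]
  [Field M] [Algebra K M]

theorem wcv_ord (hb : b ≠ 0) : Ord ((wcv a b)⁄F) where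
  h1 := by change algebraMap K F 1 = 1; exact map_one _
  h3 := by change algebraMap K F 0 = 0; exact map_zero _
  h4 := by change algebraMap K F 0 = 0; exact map_zero _
  h6 := by
    change algebraMap K F b ≠ 0
    rwa [Ne, map_eq_zero]

/-- the `x`-coordinate -/
def px (P : Pts (wcv a b) F) : F := cx (W := (wcv a b)⁄F) P

/-- the `y`-coordinate -/
def py (P : Pts (wcv a b) F) : F := cy (W := (wcv a b)⁄F) P

theorem px_map (f : F →ₐ[K] M) (P : Pts (wcv a b) F) : px (Pts.map f P) = f (px P) := by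
  classical
  rcases P with _ | ⟨x, y, h⟩
  · change cx (Affine.Point.map (W' := wcv a b) f Affine.Point.zero) = f 0
    rw [map_zero]
    rfl
  · rfl

theorem py_map (f : F →ₐ[K] M) (P : Pts (wcv a b) F) : py (Pts.map f P) = f (py P) := by
  classical
  rcases P with _ | ⟨x, y, h⟩
  · change cy (Affine.Point.map (W' := wcv a b) f Affine.Point.zero) = f 0
    rw [map_zero]
    rfl
  · rfl

theorem map_ne {f : F →ₐ[K] M} {P : Pts (wcv a b) F} (hP : P ≠ 0) : Pts.map f P ≠ 0 := by
  intro h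
  apply hP
  apply Pts.map_inj f
  rw [h, map_zero]

theorem p_ext {P Q : Pts (wcv a b) F} (hP : P ≠ 0) (hQ : Q ≠ 0) (hx : px P = px Q)
    (hy : py P = py Q) : P = Q := by
  classical
  exact pt_ext (W := (wcv a b)⁄F) hP hQ hx hy

theorem p_eqn (hb : b ≠ 0) {P : Pts (wcv a b) F} (hP : P ≠ 0) :
    py P ^ 2 + px P * py P = px P ^ 3 + algebraMap K F a * px P ^ 2 + algebraMap K F b := by
  classical
  exact (wcv_ord (a := a) (F := F) hb).eqn hP

theorem p_map_eq [CharP F 2] (hb : b ≠ 0) {f : F →ₐ[K] M} {P : Pts (wcv a b) M} (hP : P ≠ 0)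
    {x y : F} (hx : f x = px P) (hy : f y = py P) : ∃ P₀ : Pts (wcv a b) F,
      P₀ ≠ 0 ∧ Pts.map f P₀ = P ∧ px P₀ = x ∧ py P₀ = y := by
  classical
  have he := p_eqn hb hP
  rw [← hx, ← hy, ← f.commutes, ← f.commutes] at he
  have he' : y ^ 2 + x * y = x ^ 3 + algebraMap K F a * x ^ 2 + algebraMap K F b := by
    have hinj : Function.Injective f := (f : F →+* M).injective
    apply hinj
    simp only [map_add, map_mul, map_pow]
    exact he
  have hns : ((wcv a b)⁄F).Nonsingular x y := (wcv_ord (a := a) (F := F) hb).nonsing he'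
  have h0 : (Affine.Point.some x y hns : Pts (wcv a b) F) ≠ 0 := by rintro ⟨⟩
  refine ⟨Affine.Point.some x y hns, h0, ?_, rfl, rfl⟩
  apply p_ext (map_ne h0) hP
  · rw [px_map, ← hx]; rfl
  · rw [py_map, ← hy]; rfl

variable [CharP F 2]

theorem p_dbl (hb : b ≠ 0) {P : Pts (wcv a b) F} (hP : P ≠ 0) (hx : px P ≠ 0) :
    P + P ≠ 0 ∧ px (P + P) = px P ^ 2 + algebraMap K F b / px P ^ 2 := by
  classical
  exact (wcv_ord (a := a) (F := F) hb).dbl hP hx

theorem p_two (hb : b ≠ 0) {P : Pts (wcv a b) F} (hP : P ≠ 0) : P + P = 0 ↔ px P = 0 := by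
  classical
  exact (wcv_ord (a := a) (F := F) hb).two hP

theorem p_two_unique (hb : b ≠ 0) {P Q : Pts (wcv a b) F} (hP : P ≠ 0) (hQ : Q ≠ 0)
    (h2P : P + P = 0) (h2Q : Q + Q = 0) : P = Q := by
  classical
  exact (wcv_ord (a := a) (F := F) hb).two_unique hP hQ h2P h2Q

theorem p_add_two (hb : b ≠ 0) {P T : Pts (wcv a b) F} (hP : P ≠ 0) (hx : px P ≠ 0) (hT : T ≠ 0)
    (h2T : T + T = 0) : P + T ≠ 0 ∧ px (P + T) ^ 2 * px P ^ 2 = algebraMap K F b := by
  classical
  obtain ⟨h1, h2, h3⟩ := (wcv_ord (a := a) (F := F) hb).add_two hP hx hT h2T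
  refine ⟨h1, ?_⟩
  have h4 : px (P + T) = cy T / px P := h2
  rw [h4, div_pow, div_mul_cancel₀ _ (pow_ne_zero 2 hx)]
  exact h3

theorem p_collin (hb : b ≠ 0) {P Q : Pts (wcv a b) F} (hP : P ≠ 0) (hQ : Q ≠ 0)
    (hPQ : P + Q ≠ 0) (hx : px P ≠ px Q) : px P * px Q * px (P + Q)
      = algebraMap K F b + ((py P * px Q + py Q * px P) / (px P + px Q)) ^ 2 := by
  classical
  exact (wcv_ord (a := a) (F := F) hb).collin hP hQ hPQ hx

omit [CharP F 2] in
theorem p_eq_or_neg {P Q : Pts (wcv a b) F} (hP : P ≠ 0) (hQ : Q ≠ 0) (hx : px P = px Q) :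
    P = Q ∨ P = -Q := by
  classical
  exact eq_or_neg (W := (wcv a b)⁄F) hP hQ hx

theorem p_half (hb : b ≠ 0) (hs : ∀ c : F, ∃ z : F, z ^ 2 + z = c) {R : Pts (wcv a b) F}
    (hR : R ≠ 0) {m : F} (hm : m ^ 4 + px R * m ^ 2 + algebraMap K F b = 0) :
    ∃ Q : Pts (wcv a b) F, Q ≠ 0 ∧ px Q = m ∧ Q + Q = R := by
  classical
  exact (wcv_ord (a := a) (F := F) hb).half hs hR hm

omit [CharP F 2] in
/-- a product of `x`-coordinates is in the smaller field -/
theorem frob_add [CharP M 2] (hb : b ≠ 0) {f : F →ₐ[K] M} {P : Pts (wcv a b) M} (hP : P ≠ 0)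
    (hxP : px P ≠ 0) {X Y : F} (hX : f X = px P ^ 2) (hY : f Y = py P ^ 2)
    {Q : Pts (wcv a b) F} (hPQ : P + Pts.map f Q ≠ 0) (hxQ : Q ≠ 0 → px Q ≠ 0) :
    ∃ n : F, f n = px P * px (P + Pts.map f Q) := by
  by_cases hQ : Q = 0
  · exact ⟨X, by rw [hX, hQ, map_zero, add_zero, pow_two]⟩
  have hxQ' := hxQ hQ
  have hfQ : Pts.map f Q ≠ 0 := map_ne hQ
  have hfx : px (Pts.map f Q) ≠ 0 := by rw [px_map, Ne, map_eq_zero]; exact hxQ'
  by_cases hx : px P = px (Pts.map f Q)
  · rcases p_eq_or_neg hP hfQ hx with h | h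
    · have h1 := (p_dbl hb hP hxP).2
      rw [← h, h1]
      rw [px_map] at hx
      refine ⟨px Q ^ 3 + algebraMap K F b / px Q, ?_⟩
      rw [map_add, map_div₀, map_pow, ← hx, f.commutes]
      field_simp
    · exfalso
      apply hPQ
      rw [h, neg_add_cancel]
  · have h1 := p_collin hb hP hfQ hPQ hx
    rw [px_map, py_map] at h1
    rw [px_map] at hx hfx
    refine ⟨(algebraMap K F b + (Y * px Q ^ 2 + py Q ^ 2 * X) / (X + px Q ^ 2)) / px Q, ?_⟩
    have h2 : f (X + px Q ^ 2) = (px P + f (px Q)) ^ 2 := by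
      rw [map_add, map_pow, hX]
      linear_combination (-(px P * f (px Q))) * (CharTwo.two_eq_zero : (2 : M) = 0)
    have h3 : px P + f (px Q) ≠ 0 := fun h => hx (CharTwo.add_eq_zero.mp h)
    rw [map_div₀, map_add, map_div₀, h2, f.commutes, div_eq_iff hfx]
    have h4 : f (Y * px Q ^ 2 + py Q ^ 2 * X) = (py P * f (px Q) + f (py Q) * px P) ^ 2 := by
      simp only [map_add, map_mul, map_pow, hX, hY]
      linear_combination (-(py P * f (px Q) * f (py Q) * px P)) *
        (CharTwo.two_eq_zero : (2 : M) = 0)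
    rw [h4, ← div_pow, ← h1]
    ring

end P

section Step

variable {K : Type u} [Field K] [CharP K 2] {a b : K}


/-- the action of an automorphism on points -/
noncomputable abbrev act (g : (AlgebraicClosure K) ≃ₐ[K] (AlgebraicClosure K)) : Pts (wcv a b) (AlgebraicClosure K) →+ Pts (wcv a b) (AlgebraicClosure K) :=
  Pts.map (g : (AlgebraicClosure K) →ₐ[K] (AlgebraicClosure K))

omit [CharP K 2] in
theorem act_mul (g h : (AlgebraicClosure K) ≃ₐ[K] (AlgebraicClosure K)) (P : Pts (wcv a b) (AlgebraicClosure K)) : act (g * h) P = act g (act h P) := by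
  rw [Pts.map_map]
  rfl

theorem act_two (hb : b ≠ 0) (g : (AlgebraicClosure K) ≃ₐ[K] (AlgebraicClosure K)) {T : Pts (wcv a b) (AlgebraicClosure K)} (hT : T + T = 0) :
    act g T = T := by
  by_cases h0 : T = 0
  · rw [h0, map_zero]
  · apply p_two_unique hb (map_ne h0) h0 _ hT
    rw [← map_add, hT, map_zero]

/-- the class of a halving -/
theorem step_tau (hb : b ≠ 0) (R : Pts (wcv a b) (AlgebraicClosure K)) (A : ((AlgebraicClosure K) ≃ₐ[K] (AlgebraicClosure K)) → Pts (wcv a b) (AlgebraicClosure K))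
    (hA : ∀ g h, A (g * h) = A g + act g (A h))
    (hT : ∀ g, (act g R - R - A g) + (act g R - R - A g) = 0)
    (hfix : ∀ g, act g R = R → A g = 0) :
    ∃ (θ : (AlgebraicClosure K)) (u : K), θ ^ 2 + θ = algebraMap K (AlgebraicClosure K) u ∧
      ∀ g, (act g R = R + A g ∧ g θ = θ) ∨
        ((act g R - R - A g ≠ 0) ∧ g θ = θ + 1) := by
  classical
  set T : ((AlgebraicClosure K) ≃ₐ[K] (AlgebraicClosure K)) → Pts (wcv a b) (AlgebraicClosure K) := fun g => act g R - R - A g with hTd
  have hmul : ∀ g h, T (g * h) = T g + T h := by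
    intro g h
    have h1 : act h R = R + A h + T h := by
      change act h R = R + A h + (act h R - R - A h)
      abel
    have h2 : act g (T h) = T h := act_two hb g (hT h)
    change act (g * h) R - R - A (g * h) = _
    rw [act_mul, h1, map_add, map_add, h2, hA]
    change _ = (act g R - R - A g) + T h
    abel
  set τ : ((AlgebraicClosure K) ≃ₐ[K] (AlgebraicClosure K)) → ZMod 2 := fun g => if T g = 0 then 0 else 1 with hτd
  have hτ : ∀ g h, τ (g * h) = τ g + τ h := by
    intro g h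
    simp only [hτd]
    rw [hmul]
    by_cases hg : T g = 0
    · rw [hg, zero_add, if_pos rfl, zero_add]
    · by_cases hh : T h = 0
      · rw [hh, add_zero, if_pos rfl, add_zero]
      · have h1 : T g = T h := p_two_unique hb hg hh (hT g) (hT h)
        rw [← h1, hT g, if_pos rfl, if_neg hg]
        decide
  obtain ⟨θ, u, hθ, hgθ⟩ := h90 hτ {px R, py R} (by
    intro g hg
    have h1 : act g R = R := by
      by_cases hR : R = 0
      · rw [hR, map_zero]
      · apply p_ext (map_ne hR) hR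
        · rw [px_map]; exact hg _ (by simp)
        · rw [py_map]; exact hg _ (by simp)
    have h2 : T g = 0 := by
      change act g R - R - A g = 0
      rw [h1, hfix g h1, sub_self, sub_zero]
    simp only [hτd]
    rw [if_pos h2])
  refine ⟨θ, u, hθ, fun g => ?_⟩
  by_cases hg : T g = 0
  · left
    refine ⟨?_, ?_⟩
    · have h1 : act g R = T g + (R + A g) := by
        change act g R = (act g R - R - A g) + (R + A g)
        abel
      rw [h1, hg, zero_add]
    · have h1 := hgθ g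
      simp only [hτd] at h1
      rwa [if_pos hg, ep_zero, add_zero] at h1
  · right
    refine ⟨hg, ?_⟩
    have h1 := hgθ g
    simp only [hτd] at h1
    rwa [if_neg hg, ep_one] at h1

end Step

end Pool.Agent.H2
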